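import Pool.Agent.BGE.UpperTail

/-!
BGE / C10. Tails of `T ω u v` in a convenient form. The law of the environment is `PI (ℤ × ℤ)`;
it is invariant under translations, so `T ω u v` has the law of `T ω (1,1) (m,n)` with
`m = v.1 - u.1 + 1`, `n = v.2 - u.2 + 1` (`T_translate`). `(√m + √n)² = mu m n`.

`all_tail` (all directions): with `r = lev v - lev u`,
`P(y √(r+1) ≤ T ω u v - mu (v - u)) ≤ C e^{-c y}`.
Proof. Let `N = m + n - 1 = r + 1`. One of `al`, `1 - al` is at least `1/2`, so `θ = 1/(4√N)` is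
allowed in `upper_tail`; `Ph = (√m+√n)⁴/√(mn) ≤ 16 N²/√N` (as `m n ≥ m + n - 1`), so
`θ³ Ph ≤ 1/4`. And `mu m n - mu (m-1) (n-1) = 2 + 2 (√(mn) - √((m-1)(n-1))) ≤ 2 + 2 √N`
(`mn - (m-1)(n-1) = N`, `√x - √y ≤ √(x-y)`). Absorb the difference in the constants.

-/

namespace BGE

open MeasureTheory ProbabilityTheory

private lemma shift_mp (c : ℤ × ℤ) :
    MeasurePreserving (fun (ω : ℤ × ℤ → ℝ) (z : ℤ × ℤ) => ω (z + c)) (PI (ℤ × ℤ))
      (PI (ℤ × ℤ)) := by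
  have hm : Measurable (fun (ω : ℤ × ℤ → ℝ) (z : ℤ × ℤ) => ω (z + c)) := by fun_prop
  refine ⟨hm, ?_⟩
  unfold PI
  refine Measure.eq_infinitePi _ fun s t ht => ?_
  classical
  have hinj : Function.Injective (fun z : ℤ × ℤ => z + c) := add_left_injective c
  have hpre : (fun (ω : ℤ × ℤ → ℝ) (z : ℤ × ℤ) => ω (z + c)) ⁻¹' (Set.pi s t) =
      Set.pi (s.image fun z => z + c) (fun j => t (j - c)) := by
    ext ω
    simp only [Set.mem_preimage, Set.mem_pi, Finset.coe_image, Set.mem_image, Finset.mem_coe]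
    constructor
    · rintro h _ ⟨z, hz, rfl⟩
      simpa using h z hz
    · intro h z hz
      simpa using h (z + c) ⟨z, hz, rfl⟩
  rw [Measure.map_apply hm (MeasurableSet.pi s.countable_toSet fun i _ => ht i), hpre,
    Measure.infinitePi_pi _ (fun i _ => ht _), Finset.prod_image (fun a _ b _ h => hinj h)]
  simp

private lemma mu_sq {m n : ℝ} (hm : 0 ≤ m) (hn : 0 ≤ n) : (√m + √n) ^ 2 = mu m n := by
  unfold mu
  rw [add_sq, Real.sq_sqrt hm, Real.sq_sqrt hn, Real.sqrt_mul hm]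
  ring

private lemma mu_step {m n : ℝ} (hm : 1 ≤ m) (hn : 1 ≤ n) :
    mu m n - mu (m - 1) (n - 1) ≤ 2 + 2 * √(m + n - 1) := by
  unfold mu
  have h1 : √(m * n) ≤ √((m - 1) * (n - 1)) + √(m + n - 1) := by
    have h2 : m * n = (m - 1) * (n - 1) + (m + n - 1) := by ring
    have h3 : 0 ≤ (m - 1) * (n - 1) := mul_nonneg (by linarith) (by linarith)
    rw [h2, Real.sqrt_le_left (by positivity), add_sq, Real.sq_sqrt h3,
      Real.sq_sqrt (by linarith)]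
    have h4 : 0 ≤ 2 * √((m - 1) * (n - 1)) * √(m + n - 1) := by positivity
    linarith
  linarith

private lemma ph_le {m n : ℝ} (hm : 1 ≤ m) (hn : 1 ≤ n) :
    (1 / (4 * √(m + n - 1))) ^ 3 * Ph m n ≤ 1 / 4 := by
  set N := m + n - 1 with hN
  have hN1 : 1 ≤ N := by linarith
  set s := √N with hs
  have hs2 : s ^ 2 = N := Real.sq_sqrt (by linarith)
  have hs1 : 1 ≤ s := by
    rw [hs, Real.one_le_sqrt]; exact hN1
  have h1 : s ≤ √m * √n := by
    rw [← Real.sqrt_mul (by linarith)]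
    refine Real.sqrt_le_sqrt ?_
    nlinarith
  have h2 : (√m + √n) ^ 2 ≤ 4 * s ^ 2 := by
    have h3 : (√m + √n) ^ 2 ≤ 2 * (m + n) := by
      have h4 := Real.sq_sqrt (show 0 ≤ m by linarith)
      have h5 := Real.sq_sqrt (show 0 ≤ n by linarith)
      nlinarith [sq_nonneg (√m - √n)]
    rw [hs2]
    linarith
  have h3 : Ph m n ≤ 16 * s ^ 3 := by
    unfold Ph
    rw [div_le_iff₀ (by linarith)]
    calc (√m + √n) ^ 4 = ((√m + √n) ^ 2) ^ 2 := by ring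
      _ ≤ (4 * s ^ 2) ^ 2 := pow_le_pow_left₀ (sq_nonneg _) h2 2
      _ = 16 * s ^ 3 * s := by ring
      _ ≤ 16 * s ^ 3 * (√m * √n) := mul_le_mul_of_nonneg_left h1 (by positivity)
  calc (1 / (4 * s)) ^ 3 * Ph m n ≤ (1 / (4 * s)) ^ 3 * (16 * s ^ 3) :=
        mul_le_mul_of_nonneg_left h3 (by positivity)
    _ = 1 / 4 := by
        field_simp
        ring

private lemma tail_mn {m n : ℕ} (hm : 1 ≤ m) (hn : 1 ≤ n) {y : ℝ} :
    (PI (ℤ × ℤ)).real {ω | mu ((m : ℝ) - 1) ((n : ℝ) - 1) + y * √((m : ℝ) + n - 1) ≤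
      T ω (1, 1) ((m : ℤ), (n : ℤ))} ≤ Real.exp (5 / 4) * Real.exp (-(1 / 4 * y)) := by
  have hm' : (1 : ℝ) ≤ m := by exact_mod_cast hm
  have hn' : (1 : ℝ) ≤ n := by exact_mod_cast hn
  set s := √((m : ℝ) + n - 1) with hs
  have hs1 : 1 ≤ s := by
    rw [hs, Real.one_le_sqrt]; linarith
  set z := mu ((m : ℝ) - 1) ((n : ℝ) - 1) + y * s - (√(m : ℝ) + √(n : ℝ)) ^ 2 with hz
  have hθ : (0 : ℝ) < 1 / (4 * s) := by positivity
  have hθ4 : 1 / (4 * s) ≤ 1 / 4 := by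
    rw [div_le_div_iff₀ (by positivity) (by norm_num)]
    linarith
  have h1 : 1 / (4 * s) ≤ al m n / 2 ∨ 1 / (4 * s) ≤ (1 - al m n) / 2 := by
    rcases le_total (1 / 2) (al m n) with h | h
    · left; linarith
    · right; linarith
  have h2 := upper_tail hm hn (z := z) hθ h1
  have e : {ω : ℤ × ℤ → ℝ | mu ((m : ℝ) - 1) ((n : ℝ) - 1) + y * s ≤
      T ω (1, 1) ((m : ℤ), (n : ℤ))} =
      {ω | (√(m : ℝ) + √(n : ℝ)) ^ 2 + z ≤ T ω (1, 1) ((m : ℤ), (n : ℤ))} := by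
    ext ω
    have : (√(m : ℝ) + √(n : ℝ)) ^ 2 + z = mu ((m : ℝ) - 1) ((n : ℝ) - 1) + y * s := by
      rw [hz]; ring
    simp only [Set.mem_ofPred_eq, this]
  rw [e]
  refine h2.trans ?_
  rw [← Real.exp_add]
  refine Real.exp_le_exp.2 ?_
  have h3 := ph_le hm' hn'
  have h4 := mu_step hm' hn'
  have h5 : (y - 4) * s ≤ z := by
    rw [hz, mu_sq (by linarith) (by linarith)]
    linarith
  have h6 : (y - 4) / 4 ≤ 1 / (4 * s) * z := by
    calc (y - 4) / 4 = 1 / (4 * s) * ((y - 4) * s) := by field_simp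
      _ ≤ 1 / (4 * s) * z := mul_le_mul_of_nonneg_left h5 hθ.le
  linarith

theorem all_tail : ∃ C c : ℝ, 0 < C ∧ 0 < c ∧ ∀ u v : ℤ × ℤ, u ≤ v → ∀ y : ℝ, 0 ≤ y →
    (PI (ℤ × ℤ)).real {ω | y * √((lev v - lev u : ℤ) + 1) ≤
      T ω u v - mu ((v.1 - u.1 : ℤ)) ((v.2 - u.2 : ℤ))} ≤ C * Real.exp (-(c * y)) := by
  refine ⟨Real.exp (5 / 4), 1 / 4, Real.exp_pos _, by norm_num, ?_⟩
  intro u v huv y _
  obtain ⟨h1, h2⟩ := Prod.le_def.1 huv
  obtain ⟨m, hm⟩ := Int.eq_ofNat_of_zero_le (show 0 ≤ v.1 - u.1 + 1 by omega)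
  obtain ⟨n, hn⟩ := Int.eq_ofNat_of_zero_le (show 0 ≤ v.2 - u.2 + 1 by omega)
  have hm1 : 1 ≤ m := by omega
  have hn1 : 1 ≤ n := by omega
  have hmr : ((v.1 - u.1 : ℤ) : ℝ) = (m : ℝ) - 1 := by
    have : v.1 - u.1 = (m : ℤ) - 1 := by omega
    rw [this]; push_cast; ring
  have hnr : ((v.2 - u.2 : ℤ) : ℝ) = (n : ℝ) - 1 := by
    have : v.2 - u.2 = (n : ℤ) - 1 := by omega
    rw [this]; push_cast; ring
  have hlev : ((lev v - lev u : ℤ) : ℝ) + 1 = (m : ℝ) + n - 1 := by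
    have : lev v - lev u = (m : ℤ) + n - 2 := by unfold lev; omega
    rw [this]; push_cast; ring
  have key := tail_mn hm1 hn1 (y := y)
  set A : Set (ℤ × ℤ → ℝ) := {ω | mu ((m : ℝ) - 1) ((n : ℝ) - 1) + y * √((m : ℝ) + n - 1) ≤
      T ω (1, 1) ((m : ℤ), (n : ℤ))} with hA
  have hAm : MeasurableSet A := measurableSet_le measurable_const (measurable_T _ _)
  have e : {ω | y * √((lev v - lev u : ℤ) + 1) ≤
      T ω u v - mu ((v.1 - u.1 : ℤ)) ((v.2 - u.2 : ℤ))} =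
      (fun (ω : ℤ × ℤ → ℝ) (z : ℤ × ℤ) => ω (z + (u - (1, 1)))) ⁻¹' A := by
    ext ω
    rw [hA, Set.mem_preimage, Set.mem_ofPred_eq, Set.mem_ofPred_eq, T_translate, hmr, hnr, hlev]
    have e1 : ((1, 1) : ℤ × ℤ) + (u - (1, 1)) = u := by abel
    have e2 : (((m : ℤ), (n : ℤ)) : ℤ × ℤ) + (u - (1, 1)) = v := by
      refine Prod.ext ?_ ?_
      · show (m : ℤ) + (u.1 - 1) = v.1
        omega
      · show (n : ℤ) + (u.2 - 1) = v.2
        omega
    rw [e1, e2]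
    constructor <;> intro h <;> linarith
  rw [e, measureReal_def, (shift_mp (u - (1, 1))).measure_preimage hAm.nullMeasurableSet,
    ← measureReal_def]
  exact key

end BGE
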