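import Pool.Agent.BGE.Defs

/-!
BGE / A1. Basic facts on last passage times (deterministic, no probability).

All statements are elementary. Proof hints.

* Recursion at the end (`T_succ_row`, `T_succ_col`, `T_rec`): unfold `T`, the displacement of
  `v` minus `u` is a pair of natural numbers, these are the defining equations of `LP`.
* Paths: `wt_le_T`: induction on `(b - a).toNat` (append the last site; `T_rec` gives
  `T u v' + ω v ≤ T u v` whenever `v` is `v' + (1,0)` or `v' + (0,1)` and `u ≤ v'`).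
* `exists_path`: induction on the number of steps from `u` to `v` with the recursion at the end.
  Outside of the interval of levels the function `x` may be anything.
* `T_add_le`: concatenate two optimal paths (`exists_path`, `wt_le_T`) at `w`; the site `w` is
  counted twice.
* `exists_via`: take an optimal path `x` from `u` to `v` and `w = pt x l`; splitting the sum,
  `T u v = wt x (lev u) l + wt x l (lev v) - ω w ≤ T u w + T w v - ω w ≤ T u v`.
* `Via` calculus: from `T_add_le` applied several times: if `Via u w v` and `Via u w' w` then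
  `T u v = T u w' + T w' w + T w v - ω w' - ω w ≤ T u w' + T w' v - ω w' ≤ T u v`.
* start recursion: from paths or by `exists_via` at level `lev u + 1` and `T_add_le`.
-/

namespace BGE

variable {ω ω' : ℤ × ℤ → ℝ} {u v w w' : ℤ × ℤ}

theorem T_self (ω : ℤ × ℤ → ℝ) (u : ℤ × ℤ) : T ω u u = ω u := by
  unfold T
  rw [sub_self, sub_self]
  simp [LP]

theorem lev_le_lev (h : u ≤ v) : lev u ≤ lev v := by
  unfold lev
  have := h.1
  have := h.2
  omega

private theorem T_eq (ω : ℤ × ℤ → ℝ) (u v : ℤ × ℤ) (m n : ℕ) (h1 : v.1 = u.1 + m)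
    (h2 : v.2 = u.2 + n) : T ω u v = LP ω u m n := by
  unfold T
  have e1 : (v.1 - u.1).toNat = m := by omega
  have e2 : (v.2 - u.2).toNat = n := by omega
  rw [e1, e2]

/-- along a row -/
theorem T_row (h1 : u.1 < v.1) (h2 : u.2 = v.2) :
    T ω u v = T ω u (v.1 - 1, v.2) + ω v := by
  obtain ⟨m, hm⟩ : ∃ m : ℕ, v.1 = u.1 + ((m : ℤ) + 1) := ⟨(v.1 - u.1 - 1).toNat, by omega⟩
  rw [T_eq ω u v (m + 1) 0 (by push_cast; omega) (by simp [h2]),
    T_eq ω u (v.1 - 1, v.2) m 0 (by simp only; omega) (by simp [h2])]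
  have e : v = (u.1 + ((m : ℤ) + 1), u.2) := Prod.ext hm h2.symm
  rw [LP, ← e]

/-- along a column -/
theorem T_col (h1 : u.1 = v.1) (h2 : u.2 < v.2) :
    T ω u v = T ω u (v.1, v.2 - 1) + ω v := by
  obtain ⟨n, hn⟩ : ∃ n : ℕ, v.2 = u.2 + ((n : ℤ) + 1) := ⟨(v.2 - u.2 - 1).toNat, by omega⟩
  rw [T_eq ω u v 0 (n + 1) (by simp [h1]) (by push_cast; omega),
    T_eq ω u (v.1, v.2 - 1) 0 n (by simp [h1]) (by simp only; omega)]
  have e : v = (u.1, u.2 + ((n : ℤ) + 1)) := Prod.ext h1.symm hn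
  rw [LP, ← e]

theorem T_rec (h1 : u.1 < v.1) (h2 : u.2 < v.2) :
    T ω u v = max (T ω u (v.1 - 1, v.2)) (T ω u (v.1, v.2 - 1)) + ω v := by
  obtain ⟨m, hm⟩ : ∃ m : ℕ, v.1 = u.1 + ((m : ℤ) + 1) := ⟨(v.1 - u.1 - 1).toNat, by omega⟩
  obtain ⟨n, hn⟩ : ∃ n : ℕ, v.2 = u.2 + ((n : ℤ) + 1) := ⟨(v.2 - u.2 - 1).toNat, by omega⟩
  rw [T_eq ω u v (m + 1) (n + 1) (by push_cast; omega) (by push_cast; omega),
    T_eq ω u (v.1 - 1, v.2) m (n + 1) (by simp only; omega) (by push_cast; omega),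
    T_eq ω u (v.1, v.2 - 1) (m + 1) n (by push_cast; omega) (by simp only; omega)]
  have e : v = (u.1 + ((m : ℤ) + 1), u.2 + ((n : ℤ) + 1)) := Prod.ext hm hn
  rw [LP, ← e]

private theorem LP_row' (ω : ℤ × ℤ → ℝ) (u : ℤ × ℤ) (m : ℕ) :
    LP ω u (m + 1) 0 = ω u + LP ω (u.1 + 1, u.2) m 0 := by
  induction m with
  | zero => simp [LP]
  | succ m ih =>
    rw [LP, ih, LP, add_assoc]
    congr 3
    push_cast
    congr 1
    ring

private theorem LP_col' (ω : ℤ × ℤ → ℝ) (u : ℤ × ℤ) (n : ℕ) :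
    LP ω u 0 (n + 1) = ω u + LP ω (u.1, u.2 + 1) 0 n := by
  induction n with
  | zero => simp [LP]
  | succ n ih =>
    rw [LP, ih, LP, add_assoc]
    congr 3
    push_cast
    congr 1
    ring

private theorem LPss (ω : ℤ × ℤ → ℝ) (u : ℤ × ℤ) (m n : ℕ) :
    LP ω u (m + 1) (n + 1) = max (LP ω u m (n + 1)) (LP ω u (m + 1) n) +
      ω (u.1 + (m + 1), u.2 + (n + 1)) := by
  rw [LP]

private theorem LPs0 (ω : ℤ × ℤ → ℝ) (u : ℤ × ℤ) (m : ℕ) :
    LP ω u (m + 1) 0 = LP ω u m 0 + ω (u.1 + (m + 1), u.2) := by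
  rw [LP]

private theorem LP0s (ω : ℤ × ℤ → ℝ) (u : ℤ × ℤ) (n : ℕ) :
    LP ω u 0 (n + 1) = LP ω u 0 n + ω (u.1, u.2 + (n + 1)) := by
  rw [LP]

private theorem LP_rec' (ω : ℤ × ℤ → ℝ) (u : ℤ × ℤ) (m n : ℕ) :
    LP ω u (m + 1) (n + 1) = ω u + max (LP ω (u.1 + 1, u.2) m (n + 1))
      (LP ω (u.1, u.2 + 1) (m + 1) n) := by
  have site1 : ∀ a b : ℤ, ((u.1 + 1 + a, u.2 + b) : ℤ × ℤ) = (u.1 + (a + 1), u.2 + b) := by
    intro a b
    congr 1
    ring
  have site2 : ∀ a b : ℤ, ((u.1 + a, u.2 + 1 + b) : ℤ × ℤ) = (u.1 + a, u.2 + (b + 1)) := by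
    intro a b
    congr 1
    ring
  induction m generalizing n with
  | zero =>
    induction n with
    | zero =>
      have e1 := LP0s ω (u.1 + 1, u.2) 0
      have e2 := LPs0 ω (u.1, u.2 + 1) 0
      have e3 := LPss ω u 0 0
      rw [e3, LP_row', LP_col', e1, e2]
      simp only [Nat.cast_zero, zero_add]
      rw [max_add_add_left, max_add_add_right, max_comm (LP ω (u.1, u.2 + 1) 0 0), add_assoc]
    | succ n ihn =>
      have e1 := LP0s ω (u.1 + 1, u.2) (n + 1)
      have e2 := LPss ω (u.1, u.2 + 1) 0 n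
      have e3 := LPss ω u 0 (n + 1)
      have e4 := site2 (((0 : ℕ) : ℤ) + 1) ((n : ℤ) + 1)
      simp only at e1 e2
      rw [e4] at e2
      rw [e3, ihn, LP_col' ω u (n + 1), e1, e2]
      simp only [Nat.cast_zero, zero_add, Nat.cast_add, Nat.cast_one]
      rw [max_add_add_left, max_add_add_right, add_assoc]
      congr 2
      rw [max_left_comm]
  | succ m ihm =>
    induction n with
    | zero =>
      have e1 := LPss ω (u.1 + 1, u.2) m 0
      have e2 := LPs0 ω (u.1, u.2 + 1) (m + 1)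
      have e3 := LPss ω u (m + 1) 0
      have e4 := site1 ((m : ℤ) + 1) (((0 : ℕ) : ℤ) + 1)
      simp only at e1 e2
      rw [e4] at e1
      rw [e3, ihm, LP_row' ω u (m + 1), e1, e2]
      simp only [Nat.cast_zero, zero_add, Nat.cast_add, Nat.cast_one]
      rw [max_add_add_left, max_add_add_right, add_assoc]
      congr 2
      rw [max_right_comm]
    | succ n ihn =>
      have e1 := LPss ω (u.1 + 1, u.2) m (n + 1)
      have e2 := LPss ω (u.1, u.2 + 1) (m + 1) n
      have e3 := LPss ω u (m + 1) (n + 1)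
      have e4 := site1 ((m : ℤ) + 1) (((n + 1 : ℕ) : ℤ) + 1)
      have e5 := site2 (((m + 1 : ℕ) : ℤ) + 1) ((n : ℤ) + 1)
      simp only at e1 e2
      rw [e4] at e1
      rw [e5] at e2
      rw [e3, ihm, ihn, e1, e2]
      simp only [Nat.cast_add, Nat.cast_one]
      rw [max_add_add_left, max_add_add_right, add_assoc]
      congr 2
      rw [max_max_max_comm]

theorem T_row' (h1 : u.1 < v.1) (h2 : u.2 = v.2) :
    T ω u v = ω u + T ω (u.1 + 1, u.2) v := by
  obtain ⟨m, hm⟩ : ∃ m : ℕ, v.1 = u.1 + ((m : ℤ) + 1) := ⟨(v.1 - u.1 - 1).toNat, by omega⟩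
  rw [T_eq ω u v (m + 1) 0 (by push_cast; omega) (by simp [h2]),
    T_eq ω (u.1 + 1, u.2) v m 0 (by simp only; omega) (by simp [h2]), LP_row']

theorem T_col' (h1 : u.1 = v.1) (h2 : u.2 < v.2) :
    T ω u v = ω u + T ω (u.1, u.2 + 1) v := by
  obtain ⟨n, hn⟩ : ∃ n : ℕ, v.2 = u.2 + ((n : ℤ) + 1) := ⟨(v.2 - u.2 - 1).toNat, by omega⟩
  rw [T_eq ω u v 0 (n + 1) (by simp [h1]) (by push_cast; omega),
    T_eq ω (u.1, u.2 + 1) v 0 n (by simp [h1]) (by simp only; omega), LP_col']

theorem T_rec' (h1 : u.1 < v.1) (h2 : u.2 < v.2) :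
    T ω u v = ω u + max (T ω (u.1 + 1, u.2) v) (T ω (u.1, u.2 + 1) v) := by
  obtain ⟨m, hm⟩ : ∃ m : ℕ, v.1 = u.1 + ((m : ℤ) + 1) := ⟨(v.1 - u.1 - 1).toNat, by omega⟩
  obtain ⟨n, hn⟩ : ∃ n : ℕ, v.2 = u.2 + ((n : ℤ) + 1) := ⟨(v.2 - u.2 - 1).toNat, by omega⟩
  rw [T_eq ω u v (m + 1) (n + 1) (by push_cast; omega) (by push_cast; omega),
    T_eq ω (u.1 + 1, u.2) v m (n + 1) (by simp only; omega) (by push_cast; omega),
    T_eq ω (u.1, u.2 + 1) v (m + 1) n (by push_cast; omega) (by simp only; omega), LP_rec']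

theorem UR.mono {x : ℤ → ℤ} {a b a' b' : ℤ} (hx : UR x a b) (ha : a ≤ a') (hb : b' ≤ b) :
    UR x a' b' := fun l h1 h2 => hx l (ha.trans h1) (h2.trans_le hb)

/-- the sites of a path are ordered -/
theorem pt_le_pt {x : ℤ → ℤ} {a b l l' : ℤ} (hx : UR x a b) (h1 : a ≤ l) (h2 : l ≤ l')
    (h3 : l' ≤ b) : pt x l ≤ pt x l' := by
  induction l', h2 using Int.leInduction with
  | base => exact le_rfl
  | succ k hk ih =>
    refine (ih (by omega)).trans ?_
    rcases hx k (by omega) (by omega) with h | h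
    · constructor
      · simp only [pt]; omega
      · simp only [pt]; omega
    · constructor
      · simp only [pt]; omega
      · simp only [pt]; omega

/-- one step at the end -/
theorem T_step (h1 : u ≤ w) (h2 : w' = (w.1 + 1, w.2) ∨ w' = (w.1, w.2 + 1)) :
    T ω u w + ω w' ≤ T ω u w' := by
  have ha := h1.1
  have hb := h1.2
  rcases h2 with rfl | rfl
  · rcases lt_or_eq_of_le hb with h | h
    · rw [T_rec (v := (w.1 + 1, w.2)) (by simp only; omega) h]
      simp only [add_sub_cancel_right]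
      have : T ω u w ≤ max (T ω u (w.1, w.2)) (T ω u (w.1 + 1, w.2 - 1)) := le_max_left _ _
      linarith
    · rw [T_row (v := (w.1 + 1, w.2)) (by simp only; omega) h]
      simp only [add_sub_cancel_right, Prod.mk.eta, le_refl]
  · rcases lt_or_eq_of_le ha with h | h
    · rw [T_rec (v := (w.1, w.2 + 1)) h (by simp only; omega)]
      simp only [add_sub_cancel_right]
      have : T ω u w ≤ max (T ω u (w.1 - 1, w.2 + 1)) (T ω u (w.1, w.2)) := le_max_right _ _
      linarith
    · rw [T_col (v := (w.1, w.2 + 1)) h (by simp only; omega)]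
      simp only [add_sub_cancel_right, Prod.mk.eta, le_refl]

theorem wt_le_T {x : ℤ → ℤ} {a b : ℤ} (hx : UR x a b) (hab : a ≤ b) :
    wt ω x a b ≤ T ω (pt x a) (pt x b) := by
  induction b, hab using Int.leInduction with
  | base =>
    unfold wt
    rw [Finset.Icc_self, Finset.sum_singleton, T_self]
  | succ k hk ih =>
    have h1 : wt ω x a (k + 1) = wt ω x a k + ω (pt x (k + 1)) := by
      unfold wt
      have : Finset.Icc a (k + 1) = insert (k + 1) (Finset.Icc a k) := by
        ext l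
        simp only [Finset.mem_Icc, Finset.mem_insert]
        omega
      rw [this, Finset.sum_insert (by simp), add_comm]
    rw [h1]
    have h2 := ih (hx.mono le_rfl (by omega))
    have h3 : T ω (pt x a) (pt x k) + ω (pt x (k + 1)) ≤ T ω (pt x a) (pt x (k + 1)) := by
      apply T_step (pt_le_pt hx le_rfl hk (by omega))
      rcases hx k hk (by omega) with h | h
      · right
        simp only [pt, h, Prod.mk.injEq, true_and]
        ring
      · left
        simp only [pt, h, Prod.mk.injEq, true_and]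
        ring
    linarith

/-- the last step of a geodesic -/
theorem exists_pred (ω : ℤ × ℤ → ℝ) (h : u ≤ v) (hne : u ≠ v) :
    ∃ v', u ≤ v' ∧ (v = (v'.1 + 1, v'.2) ∨ v = (v'.1, v'.2 + 1)) ∧
      T ω u v = T ω u v' + ω v := by
  have ha := h.1
  have hb := h.2
  rcases lt_or_eq_of_le ha with h1 | h1
  · rcases lt_or_eq_of_le hb with h2 | h2
    · have h3 := T_rec (ω := ω) h1 h2
      rcases le_total (T ω u (v.1 - 1, v.2)) (T ω u (v.1, v.2 - 1)) with h4 | h4
      · rw [max_eq_right h4] at h3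
        exact ⟨(v.1, v.2 - 1), ⟨ha, by simp only; omega⟩, Or.inr (by simp), h3⟩
      · rw [max_eq_left h4] at h3
        exact ⟨(v.1 - 1, v.2), ⟨by simp only; omega, hb⟩, Or.inl (by simp), h3⟩
    · exact ⟨(v.1 - 1, v.2), ⟨by simp only; omega, hb⟩, Or.inl (by simp), T_row h1 h2⟩
  · rcases lt_or_eq_of_le hb with h2 | h2
    · exact ⟨(v.1, v.2 - 1), ⟨ha, by simp only; omega⟩, Or.inr (by simp), T_col h1 h2⟩
    · exact absurd (Prod.ext h1 h2) hne

/-- the first step of a geodesic -/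
theorem exists_succ (ω : ℤ × ℤ → ℝ) (h : u ≤ v) (hne : u ≠ v) :
    ∃ u', u' ≤ v ∧ (u' = (u.1 + 1, u.2) ∨ u' = (u.1, u.2 + 1)) ∧
      T ω u v = ω u + T ω u' v := by
  have ha := h.1
  have hb := h.2
  rcases lt_or_eq_of_le ha with h1 | h1
  · rcases lt_or_eq_of_le hb with h2 | h2
    · have h3 := T_rec' (ω := ω) h1 h2
      rcases le_total (T ω (u.1 + 1, u.2) v) (T ω (u.1, u.2 + 1) v) with h4 | h4
      · rw [max_eq_right h4] at h3
        exact ⟨(u.1, u.2 + 1), ⟨ha, by simp only; omega⟩, Or.inr rfl, h3⟩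
      · rw [max_eq_left h4] at h3
        exact ⟨(u.1 + 1, u.2), ⟨by simp only; omega, hb⟩, Or.inl rfl, h3⟩
    · exact ⟨(u.1 + 1, u.2), ⟨by simp only; omega, hb⟩, Or.inl rfl, T_row' h1 h2⟩
  · rcases lt_or_eq_of_le hb with h2 | h2
    · exact ⟨(u.1, u.2 + 1), ⟨ha, by simp only; omega⟩, Or.inr rfl, T_col' h1 h2⟩
    · exact absurd (Prod.ext h1 h2) hne

/-- induction on the end point of a geodesic -/
theorem geo_induction (ω : ℤ × ℤ → ℝ) (u : ℤ × ℤ) (P : ℤ × ℤ → Prop) (h0 : P u)
    (hs : ∀ v' v, u ≤ v' → (v = (v'.1 + 1, v'.2) ∨ v = (v'.1, v'.2 + 1)) →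
      T ω u v = T ω u v' + ω v → P v' → P v) (v : ℤ × ℤ) (h : u ≤ v) : P v := by
  have key : ∀ n : ℕ, ∀ v, u ≤ v → lev v = lev u + n → P v := by
    intro n
    induction n with
    | zero =>
      intro v h hl
      have h1 := h.1
      have h2 := h.2
      unfold lev at hl
      have : v = u := Prod.ext (by omega) (by omega)
      rw [this]
      exact h0
    | succ n ih =>
      intro v h hl
      have hne : u ≠ v := by
        rintro rfl
        push_cast at hl
        omega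
      obtain ⟨v', h1, h2, h3⟩ := exists_pred ω h hne
      refine hs v' v h1 h2 h3 (ih v' h1 ?_)
      rcases h2 with rfl | rfl
      · unfold lev at hl ⊢
        push_cast at hl
        omega
      · unfold lev at hl ⊢
        push_cast at hl
        omega
  exact key (lev v - lev u).toNat v h (by have := lev_le_lev h; omega)

theorem exists_path (ω : ℤ × ℤ → ℝ) (h : u ≤ v) :
    ∃ x : ℤ → ℤ, UR x (lev u) (lev v) ∧ pt x (lev u) = u ∧ pt x (lev v) = v ∧
      wt ω x (lev u) (lev v) = T ω u v := by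
  refine geo_induction ω u (fun v => ∃ x : ℤ → ℤ, UR x (lev u) (lev v) ∧ pt x (lev u) = u ∧
    pt x (lev v) = v ∧ wt ω x (lev u) (lev v) = T ω u v) ?_ ?_ v h
  · have h1 : pt (fun _ => u.1) (lev u) = u := by
      unfold pt lev
      ext <;> simp
    refine ⟨fun _ => u.1, fun l h1 h2 => absurd h2 (by omega), h1, h1, ?_⟩
    unfold wt
    rw [Finset.Icc_self, Finset.sum_singleton, h1, T_self]
  · rintro v' v h1 h2 h3 ⟨x, hx1, hx2, hx3, hx4⟩
    have hl : lev v = lev v' + 1 := by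
      rcases h2 with rfl | rfl
      · unfold lev; simp only; ring
      · unfold lev; simp only; ring
    have hll := lev_le_lev h1
    have hxo : ∀ l, l ≤ lev v' → Function.update x (lev v) v.1 l = x l := fun l hl' =>
      Function.update_of_ne (by omega) _ _
    have hpt : ∀ l, l ≤ lev v' → pt (Function.update x (lev v) v.1) l = pt x l := by
      intro l hl'
      unfold pt
      rw [hxo l hl']
    have hend : pt (Function.update x (lev v) v.1) (lev v) = v := by
      unfold pt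
      rw [Function.update_self]
      unfold lev
      ext <;> simp
    have hv' : x (lev v') = v'.1 := congrArg Prod.fst hx3
    refine ⟨Function.update x (lev v) v.1, ?_, ?_, hend, ?_⟩
    · intro l hl1 hl2
      rcases lt_or_eq_of_le (show l ≤ lev v' by omega) with h4 | h4
      · rw [hxo l h4.le, hxo (l + 1) (by omega)]
        exact hx1 l hl1 h4
      · rw [hxo l h4.le, h4, ← hl, Function.update_self, hv']
        rcases h2 with rfl | rfl
        · right; rfl
        · left; rfl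
    · rw [hpt _ hll, hx2]
    · unfold wt at hx4 ⊢
      have : Finset.Icc (lev u) (lev v) = insert (lev v) (Finset.Icc (lev u) (lev v')) := by
        ext l
        simp only [Finset.mem_Icc, Finset.mem_insert]
        omega
      rw [this, Finset.sum_insert (by simp only [Finset.mem_Icc]; omega), hend, h3, ← hx4, add_comm]
      congr 1
      apply Finset.sum_congr rfl
      intro l hl'
      rw [Finset.mem_Icc] at hl'
      rw [hpt l hl'.2]

/-- superadditivity -/
theorem T_add_le (h1 : u ≤ w) (h2 : w ≤ v) : T ω u w + T ω w v - ω w ≤ T ω u v := by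
  refine geo_induction ω w (fun v => T ω u w + T ω w v - ω w ≤ T ω u v) ?_ ?_ v h2
  · rw [T_self]
    linarith
  · intro v' v h3 h4 h5 h6
    rw [h5]
    have h7 := T_step (ω := ω) (h1.trans h3) h4
    linarith

/-- superadditivity over an edge -/
theorem T_edge_le (h1 : u ≤ w) (h2 : w' = (w.1 + 1, w.2) ∨ w' = (w.1, w.2 + 1)) (h3 : w' ≤ v) :
    T ω u w + T ω w' v ≤ T ω u v := by
  have h4 := T_step (ω := ω) h1 h2
  have h5 : w ≤ w' := by
    rcases h2 with rfl | rfl
    · exact ⟨by simp, le_rfl⟩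
    · exact ⟨le_rfl, by simp⟩
  have h6 := T_add_le (ω := ω) (h1.trans h5) h3
  linarith

theorem via_left (h : u ≤ v) : Via ω u u v := by
  refine ⟨le_rfl, h, ?_⟩
  rw [T_self]
  ring

theorem via_right (h : u ≤ v) : Via ω u v v := by
  refine ⟨h, le_rfl, ?_⟩
  rw [T_self]
  ring

/-- a geodesic has a site on every level -/
theorem exists_via (ω : ℤ × ℤ → ℝ) (h : u ≤ v) {l : ℤ} (h1 : lev u ≤ l) (h2 : l ≤ lev v) :
    ∃ w, lev w = l ∧ Via ω u w v := by
  refine geo_induction ω u (fun v => l ≤ lev v → ∃ w, lev w = l ∧ Via ω u w v) ?_ ?_ v h h2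
  · intro h3
    exact ⟨u, by omega, via_left le_rfl⟩
  · intro v' v h3 h4 h5 h6 h7
    have hvv : v' ≤ v := by
      rcases h4 with rfl | rfl
      · exact ⟨by simp, le_rfl⟩
      · exact ⟨le_rfl, by simp⟩
    rcases lt_or_ge (lev v') l with h8 | h8
    · have hl : lev v = lev v' + 1 := by
        rcases h4 with rfl | rfl
        · unfold lev; simp only; ring
        · unfold lev; simp only; ring
      exact ⟨v, by omega, via_right (h3.trans hvv)⟩
    · obtain ⟨w, hw1, hw2, hw3, hw4⟩ := h6 h8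
      refine ⟨w, hw1, hw2, hw3.trans hvv, ?_⟩
      have h9 := T_step (ω := ω) hw3 h4
      have h10 := T_add_le (ω := ω) hw2 (hw3.trans hvv)
      linarith

/-- a geodesic crosses from every level to the next one -/
theorem exists_edge (ω : ℤ × ℤ → ℝ) (h : u ≤ v) {l : ℤ} (h1 : lev u ≤ l) (h2 : l < lev v) :
    ∃ w w', lev w = l ∧ (w' = (w.1 + 1, w.2) ∨ w' = (w.1, w.2 + 1)) ∧ u ≤ w ∧ w' ≤ v ∧
      T ω u v = T ω u w + T ω w' v := by
  obtain ⟨w, hw1, hw2, hw3, hw4⟩ := exists_via ω h h1 h2.le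
  have hne : w ≠ v := by
    rintro rfl
    omega
  obtain ⟨w', h3, h4, h5⟩ := exists_succ ω hw3 hne
  refine ⟨w, w', hw1, h4, hw2, h3, ?_⟩
  linarith

/-- a geodesic crosses from a row to the next one -/
theorem exists_row_cross (ω : ℤ × ℤ → ℝ) (h : u ≤ v) {j : ℤ} (h1 : u.2 ≤ j) (h2 : j < v.2) :
    ∃ i, u.1 ≤ i ∧ i ≤ v.1 ∧ T ω u v = T ω u (i, j) + T ω (i, j + 1) v := by
  refine geo_induction ω u (fun v => j < v.2 →
    ∃ i, u.1 ≤ i ∧ i ≤ v.1 ∧ T ω u v = T ω u (i, j) + T ω (i, j + 1) v) ?_ ?_ v h h2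
  · intro h3
    omega
  · intro v' v h3 h4 h5 h6 h7
    rcases lt_or_ge j v'.2 with h8 | h8
    · obtain ⟨i, hi1, hi2, hi3⟩ := h6 h8
      have hvv : v' ≤ v := by
        rcases h4 with rfl | rfl
        · exact ⟨by simp, le_rfl⟩
        · exact ⟨le_rfl, by simp⟩
      have hle : ((i, j + 1) : ℤ × ℤ) ≤ v' := ⟨hi2, by simp only; omega⟩
      have h9 := T_step (ω := ω) hle h4
      have h10 := T_edge_le (ω := ω) (u := u) (w := (i, j)) (w' := (i, j + 1)) (v := v)
        ⟨hi1, h1⟩ (Or.inr rfl) (hle.trans hvv)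
      refine ⟨i, hi1, hi2.trans hvv.1, ?_⟩
      linarith
    · rcases h4 with rfl | rfl
      · simp only at h7
        omega
      · have hj : j = v'.2 := by
          simp only at h7
          omega
        refine ⟨v'.1, h3.1, le_rfl, ?_⟩
        rw [h5, hj, T_self]

theorem Via.trans_left (h : Via ω u w v) (h' : Via ω u w' w) :
    Via ω u w' v ∧ Via ω w' w v := by
  obtain ⟨a1, a2, a3⟩ := h
  obtain ⟨b1, b2, b3⟩ := h'
  have h1 := T_add_le (ω := ω) b2 a2
  have h2 := T_add_le (ω := ω) b1 (b2.trans a2)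
  exact ⟨⟨b1, b2.trans a2, by linarith⟩, ⟨b2, a2, by linarith⟩⟩

theorem Via.trans_right (h : Via ω u w v) (h' : Via ω w w' v) :
    Via ω u w' v ∧ Via ω u w w' := by
  obtain ⟨a1, a2, a3⟩ := h
  obtain ⟨b1, b2, b3⟩ := h'
  have h1 := T_add_le (ω := ω) a1 b1
  have h2 := T_add_le (ω := ω) (a1.trans b1) b2
  exact ⟨⟨a1.trans b1, b2, by linarith⟩, ⟨a1, b1, by linarith⟩⟩

end BGE
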