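import Pool.Agent.BGE.Base

/-!
BGE / A1b. Monotonicity, symmetries and measurability of last passage times.

Proof hints. Everything follows by induction on the displacement from the definition of `LP`, or
from paths (`BGE.exists_path`, `BGE.wt_le_T`), or from the recursions in `BGE.Base`.

* `T_mono`, `T_congr`: only sites `w` with `u ≤ w ≤ v` enter.
* `T_lip`: by paths, or by `T_mono` applied to `ω + δ`.
* `T_swap`: exchanging the coordinates; `T_neg`: rotation by 180 degrees (the recursion at the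
  start becomes the recursion at the end); `T_translate`: translation.
* `measurable_T`: induction with `T_rec` (or: for fixed `u, m, n` the function
  `ω ↦ LP ω u m n` is measurable, by induction on `m` and `n`).
* `T_le_card`: a path from `u` to `v` has `lev v - lev u + 1` sites.
-/

namespace BGE

open MeasureTheory

variable {ω ω' : ℤ × ℤ → ℝ} {u v w u' v' : ℤ × ℤ}

/-- induction on the end site -/
private theorem b2_ind {u : ℤ × ℤ} {P : ℤ × ℤ → Prop} (h0 : P u)
    (hrow : ∀ v : ℤ × ℤ, u.1 < v.1 → u.2 = v.2 → P (v.1 - 1, v.2) → P v)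
    (hcol : ∀ v : ℤ × ℤ, u.1 = v.1 → u.2 < v.2 → P (v.1, v.2 - 1) → P v)
    (hrec : ∀ v : ℤ × ℤ, u.1 < v.1 → u.2 < v.2 → P (v.1 - 1, v.2) → P (v.1, v.2 - 1) → P v) :
    ∀ v, u ≤ v → P v := by
  have key : ∀ (k : ℕ) (v : ℤ × ℤ), u ≤ v → v.1 + v.2 - (u.1 + u.2) = k → P v := by
    intro k
    induction k with
    | zero =>
      intro v hv hk
      have h1 := hv.1
      have h2 := hv.2
      have : v = u := by
        apply Prod.ext
        · push_cast at hk; linarith
        · push_cast at hk; linarith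
      rw [this]
      exact h0
    | succ k ih =>
      intro v hv hk
      have h1 := hv.1
      have h2 := hv.2
      push_cast at hk
      rcases eq_or_lt_of_le h1 with h1 | h1
      · rcases eq_or_lt_of_le h2 with h2 | h2
        · exfalso; rw [h1, h2] at hk; linarith
        · refine hcol v h1 h2 (ih _ ⟨h1.le, ?_⟩ ?_)
          · show u.2 ≤ v.2 - 1
            omega
          · show v.1 + (v.2 - 1) - (u.1 + u.2) = k
            omega
      · rcases eq_or_lt_of_le h2 with h2 | h2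
        · refine hrow v h1 h2 (ih _ ⟨?_, h2.le⟩ ?_)
          · show u.1 ≤ v.1 - 1
            omega
          · show v.1 - 1 + v.2 - (u.1 + u.2) = k
            omega
        · refine hrec v h1 h2 (ih _ ⟨?_, h2.le⟩ ?_) (ih _ ⟨h1.le, ?_⟩ ?_)
          · show u.1 ≤ v.1 - 1
            omega
          · show v.1 - 1 + v.2 - (u.1 + u.2) = k
            omega
          · show u.2 ≤ v.2 - 1
            omega
          · show v.1 + (v.2 - 1) - (u.1 + u.2) = k
            omega
  intro v hv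
  have h1 := hv.1
  have h2 := hv.2
  exact key (v.1 + v.2 - (u.1 + u.2)).toNat v hv (by
    rw [Int.toNat_of_nonneg]; linarith)

private theorem b2_le_left (v : ℤ × ℤ) : ((v.1 - 1, v.2) : ℤ × ℤ) ≤ v :=
  ⟨by show v.1 - 1 ≤ v.1; omega, le_refl _⟩

private theorem b2_le_down (v : ℤ × ℤ) : ((v.1, v.2 - 1) : ℤ × ℤ) ≤ v :=
  ⟨le_refl _, by show v.2 - 1 ≤ v.2; omega⟩

theorem T_mono (h : u ≤ v) (hω : ∀ z, u ≤ z → z ≤ v → ω z ≤ ω' z) : T ω u v ≤ T ω' u v := by
  revert hω
  refine b2_ind (P := fun v => (∀ z, u ≤ z → z ≤ v → ω z ≤ ω' z) → T ω u v ≤ T ω' u v)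
    ?_ ?_ ?_ ?_ v h
  · intro hω
    rw [T_self, T_self]
    exact hω u le_rfl le_rfl
  · intro v h1 h2 ih hω
    rw [T_row h1 h2, T_row h1 h2]
    exact add_le_add (ih fun z hz hz' => hω z hz (hz'.trans (b2_le_left v)))
      (hω v ⟨h1.le, h2.le⟩ le_rfl)
  · intro v h1 h2 ih hω
    rw [T_col h1 h2, T_col h1 h2]
    exact add_le_add (ih fun z hz hz' => hω z hz (hz'.trans (b2_le_down v)))
      (hω v ⟨h1.le, h2.le⟩ le_rfl)
  · intro v h1 h2 ih1 ih2 hω
    rw [T_rec h1 h2, T_rec h1 h2]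
    exact add_le_add (max_le_max (ih1 fun z hz hz' => hω z hz (hz'.trans (b2_le_left v)))
      (ih2 fun z hz hz' => hω z hz (hz'.trans (b2_le_down v)))) (hω v ⟨h1.le, h2.le⟩ le_rfl)

theorem T_congr (h : u ≤ v) (hω : ∀ z, u ≤ z → z ≤ v → ω z = ω' z) : T ω u v = T ω' u v :=
  le_antisymm (T_mono h fun z hz hz' => (hω z hz hz').le)
    (T_mono h fun z hz hz' => (hω z hz hz').ge)

private theorem b2_end (h : u ≤ v) (hω : ∀ z, u ≤ z → z ≤ v → 0 ≤ ω z) :
    0 ≤ T ω u v ∧ ω u ≤ T ω u v ∧ ω v ≤ T ω u v := by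
  revert hω
  refine b2_ind (P := fun v => (∀ z, u ≤ z → z ≤ v → 0 ≤ ω z) →
    0 ≤ T ω u v ∧ ω u ≤ T ω u v ∧ ω v ≤ T ω u v) ?_ ?_ ?_ ?_ v h
  · intro hω
    rw [T_self]
    exact ⟨hω u le_rfl le_rfl, le_rfl, le_rfl⟩
  · intro v h1 h2 ih hω
    rw [T_row h1 h2]
    have h3 := ih fun z hz hz' => hω z hz (hz'.trans (b2_le_left v))
    have h4 := hω v ⟨h1.le, h2.le⟩ le_rfl
    exact ⟨by linarith, by linarith, by linarith⟩
  · intro v h1 h2 ih hω
    rw [T_col h1 h2]
    have h3 := ih fun z hz hz' => hω z hz (hz'.trans (b2_le_down v))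
    have h4 := hω v ⟨h1.le, h2.le⟩ le_rfl
    exact ⟨by linarith, by linarith, by linarith⟩
  · intro v h1 h2 ih1 ih2 hω
    rw [T_rec h1 h2]
    have h3 := ih1 fun z hz hz' => hω z hz (hz'.trans (b2_le_left v))
    have h4 := hω v ⟨h1.le, h2.le⟩ le_rfl
    have h5 := le_max_left (T ω u (v.1 - 1, v.2)) (T ω u (v.1, v.2 - 1))
    exact ⟨by linarith, by linarith, by linarith⟩

theorem T_nonneg (h : u ≤ v) (hω : ∀ z, u ≤ z → z ≤ v → 0 ≤ ω z) : 0 ≤ T ω u v :=
  (b2_end h hω).1

/-- enlarging the interval increases the passage time when the weights are nonnegative -/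
private theorem b2_mono_ends (h1 : u' ≤ u) (h2 : u ≤ v) (h3 : v ≤ v')
    (hω : ∀ z, u' ≤ z → z ≤ v' → 0 ≤ ω z) : T ω u v ≤ T ω u' v' := by
  have h4 := T_add_le (ω := ω) h1 (h2.trans h3)
  have h5 := T_add_le (ω := ω) h2 h3
  have h6 := (b2_end (ω := ω) h1 fun z hz hz' => hω z hz (hz'.trans (h2.trans h3))).2.2
  have h7 := (b2_end (ω := ω) h3 fun z hz hz' => hω z ((h1.trans h2).trans hz) hz').2.1
  linarith

theorem le_T (h1 : u ≤ w) (h2 : w ≤ v) (hω : ∀ z, u ≤ z → z ≤ v → 0 ≤ ω z) : ω w ≤ T ω u v := by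
  have := b2_mono_ends (ω := ω) h1 (le_refl w) h2 hω
  rwa [T_self] at this

/-- enlarging the interval increases the passage time when the weights are nonnegative -/
theorem T_mono_ends (h1 : u' ≤ u) (h2 : u ≤ v) (h3 : v ≤ v')
    (hω : ∀ z, u' ≤ z → z ≤ v' → 0 ≤ ω z) : T ω u v ≤ T ω u' v' := b2_mono_ends h1 h2 h3 hω

theorem T_lip (h : u ≤ v) {δ : ℝ} (hω : ∀ z, u ≤ z → z ≤ v → |ω z - ω' z| ≤ δ) :
    |T ω u v - T ω' u v| ≤ ((lev v - lev u : ℤ) + 1) * δ := by
  revert hω
  refine b2_ind (P := fun v => (∀ z, u ≤ z → z ≤ v → |ω z - ω' z| ≤ δ) →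
    |T ω u v - T ω' u v| ≤ ((lev v - lev u : ℤ) + 1) * δ) ?_ ?_ ?_ ?_ v h
  · intro hω
    rw [T_self, T_self]
    simpa using hω u le_rfl le_rfl
  · intro v h1 h2 ih hω
    rw [T_row h1 h2, T_row h1 h2]
    have h3 := ih fun z hz hz' => hω z hz (hz'.trans (b2_le_left v))
    have h4 := hω v ⟨h1.le, h2.le⟩ le_rfl
    have h5 : (((lev v - lev u : ℤ) : ℝ) + 1) * δ =
        (((lev (v.1 - 1, v.2) - lev u : ℤ) : ℝ) + 1) * δ + δ := by
      simp only [lev]; push_cast; ring
    rw [h5]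
    have h6 : T ω u (v.1 - 1, v.2) + ω v - (T ω' u (v.1 - 1, v.2) + ω' v) =
        (T ω u (v.1 - 1, v.2) - T ω' u (v.1 - 1, v.2)) + (ω v - ω' v) := by ring
    rw [h6]
    exact (abs_add_le _ _).trans (add_le_add h3 h4)
  · intro v h1 h2 ih hω
    rw [T_col h1 h2, T_col h1 h2]
    have h3 := ih fun z hz hz' => hω z hz (hz'.trans (b2_le_down v))
    have h4 := hω v ⟨h1.le, h2.le⟩ le_rfl
    have h5 : (((lev v - lev u : ℤ) : ℝ) + 1) * δ =
        (((lev (v.1, v.2 - 1) - lev u : ℤ) : ℝ) + 1) * δ + δ := by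
      simp only [lev]; push_cast; ring
    rw [h5]
    have h6 : T ω u (v.1, v.2 - 1) + ω v - (T ω' u (v.1, v.2 - 1) + ω' v) =
        (T ω u (v.1, v.2 - 1) - T ω' u (v.1, v.2 - 1)) + (ω v - ω' v) := by ring
    rw [h6]
    exact (abs_add_le _ _).trans (add_le_add h3 h4)
  · intro v h1 h2 ih1 ih2 hω
    rw [T_rec h1 h2, T_rec h1 h2]
    have h3 := ih1 fun z hz hz' => hω z hz (hz'.trans (b2_le_left v))
    have h3' := ih2 fun z hz hz' => hω z hz (hz'.trans (b2_le_down v))
    have h4 := hω v ⟨h1.le, h2.le⟩ le_rfl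
    have h5 : (((lev v - lev u : ℤ) : ℝ) + 1) * δ =
        (((lev (v.1 - 1, v.2) - lev u : ℤ) : ℝ) + 1) * δ + δ := by
      simp only [lev]; push_cast; ring
    have h5' : (((lev (v.1, v.2 - 1) - lev u : ℤ) : ℝ) + 1) * δ =
        (((lev (v.1 - 1, v.2) - lev u : ℤ) : ℝ) + 1) * δ := by
      simp only [lev]; push_cast; ring
    rw [h5] 
    rw [h5'] at h3'
    have h6 : max (T ω u (v.1 - 1, v.2)) (T ω u (v.1, v.2 - 1)) + ω v -
        (max (T ω' u (v.1 - 1, v.2)) (T ω' u (v.1, v.2 - 1)) + ω' v) =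
        (max (T ω u (v.1 - 1, v.2)) (T ω u (v.1, v.2 - 1)) -
          max (T ω' u (v.1 - 1, v.2)) (T ω' u (v.1, v.2 - 1))) + (ω v - ω' v) := by ring
    rw [h6]
    exact (abs_add_le _ _).trans
      (add_le_add ((abs_max_sub_max_le_max _ _ _ _).trans (max_le h3 h3')) h4)

theorem T_le_card (h : u ≤ v) {B : ℝ} (hω : ∀ z, u ≤ z → z ≤ v → ω z ≤ B) :
    T ω u v ≤ ((lev v - lev u : ℤ) + 1) * B := by
  revert hω
  refine b2_ind (P := fun v => (∀ z, u ≤ z → z ≤ v → ω z ≤ B) →
    T ω u v ≤ ((lev v - lev u : ℤ) + 1) * B) ?_ ?_ ?_ ?_ v h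
  · intro hω
    rw [T_self]
    simpa using hω u le_rfl le_rfl
  · intro v h1 h2 ih hω
    rw [T_row h1 h2]
    have h3 := ih fun z hz hz' => hω z hz (hz'.trans (b2_le_left v))
    have h4 := hω v ⟨h1.le, h2.le⟩ le_rfl
    have h5 : (((lev v - lev u : ℤ) : ℝ) + 1) * B =
        (((lev (v.1 - 1, v.2) - lev u : ℤ) : ℝ) + 1) * B + B := by
      simp only [lev]; push_cast; ring
    rw [h5]
    exact add_le_add h3 h4
  · intro v h1 h2 ih hω
    rw [T_col h1 h2]
    have h3 := ih fun z hz hz' => hω z hz (hz'.trans (b2_le_down v))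
    have h4 := hω v ⟨h1.le, h2.le⟩ le_rfl
    have h5 : (((lev v - lev u : ℤ) : ℝ) + 1) * B =
        (((lev (v.1, v.2 - 1) - lev u : ℤ) : ℝ) + 1) * B + B := by
      simp only [lev]; push_cast; ring
    rw [h5]
    exact add_le_add h3 h4
  · intro v h1 h2 ih1 ih2 hω
    rw [T_rec h1 h2]
    have h3 := ih1 fun z hz hz' => hω z hz (hz'.trans (b2_le_left v))
    have h3' := ih2 fun z hz hz' => hω z hz (hz'.trans (b2_le_down v))
    have h4 := hω v ⟨h1.le, h2.le⟩ le_rfl
    have h5 : (((lev v - lev u : ℤ) : ℝ) + 1) * B =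
        (((lev (v.1 - 1, v.2) - lev u : ℤ) : ℝ) + 1) * B + B := by
      simp only [lev]; push_cast; ring
    have h5' : (((lev (v.1, v.2 - 1) - lev u : ℤ) : ℝ) + 1) * B =
        (((lev (v.1 - 1, v.2) - lev u : ℤ) : ℝ) + 1) * B := by
      simp only [lev]; push_cast; ring
    rw [h5]
    rw [h5'] at h3'
    exact add_le_add (max_le h3 h3') h4

private theorem b2_LP_translate (ω : ℤ × ℤ → ℝ) (c u : ℤ × ℤ) : ∀ m n : ℕ,
    LP (fun z => ω (z + c)) u m n = LP ω (u + c) m n := by
  intro m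
  induction m with
  | zero =>
    intro n
    induction n with
    | zero => rw [LP, LP]
    | succ n ih =>
      rw [LP, LP, ih]
      congr 2
      apply Prod.ext
      · rfl
      · show u.2 + (n + 1 : ℤ) + c.2 = u.2 + c.2 + (n + 1)
        ring
  | succ m ihm =>
    intro n
    induction n with
    | zero =>
      rw [LP, LP, ihm]
      congr 2
      apply Prod.ext
      · show u.1 + (m + 1 : ℤ) + c.1 = u.1 + c.1 + (m + 1)
        ring
      · rfl
    | succ n ih =>
      rw [LP, LP, ihm, ih]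
      congr 2
      apply Prod.ext
      · show u.1 + (m + 1 : ℤ) + c.1 = u.1 + c.1 + (m + 1)
        ring
      · show u.2 + (n + 1 : ℤ) + c.2 = u.2 + c.2 + (n + 1)
        ring

/-- translation -/
theorem T_translate (ω : ℤ × ℤ → ℝ) (c u v : ℤ × ℤ) :
    T (fun z => ω (z + c)) u v = T ω (u + c) (v + c) := by
  rw [T, T, b2_LP_translate]
  congr 2
  · show v.1 - u.1 = v.1 + c.1 - (u.1 + c.1)
    ring
  · show v.2 - u.2 = v.2 + c.2 - (u.2 + c.2)
    ring

private theorem b2_LP_swap (ω : ℤ × ℤ → ℝ) (u : ℤ × ℤ) : ∀ m n : ℕ,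
    LP (fun z => ω z.swap) u m n = LP ω u.swap n m := by
  intro m
  induction m with
  | zero =>
    intro n
    induction n with
    | zero => rw [LP, LP]
    | succ n ih =>
      rw [LP, LP, ih]
      rfl
  | succ m ihm =>
    intro n
    induction n with
    | zero =>
      rw [LP, LP, ihm]
      rfl
    | succ n ih =>
      rw [LP, LP, ihm, ih, max_comm]
      rfl

/-- exchange of the coordinates -/
theorem T_swap (ω : ℤ × ℤ → ℝ) (u v : ℤ × ℤ) :
    T (fun z => ω z.swap) u v = T ω u.swap v.swap := by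
  rw [T, T, b2_LP_swap]
  rfl

/-- rotation by 180 degrees -/
theorem T_neg (ω : ℤ × ℤ → ℝ) (h : u ≤ v) :
    T (fun z => ω (-z)) u v = T ω (-v) (-u) := by
  refine b2_ind (P := fun v => T (fun z => ω (-z)) u v = T ω (-v) (-u)) ?_ ?_ ?_ ?_ v h
  · rw [T_self, T_self]
  · intro v h1 h2 ih
    have h3 : ((-v).1 : ℤ) < (-u).1 := by
      show -v.1 < -u.1
      omega
    have h4 : ((-v).2 : ℤ) = (-u).2 := by
      show -v.2 = -u.2
      omega
    rw [T_row h1 h2, T_row' h3 h4, ih, add_comm]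
    congr 2
    apply Prod.ext
    · show -(v.1 - 1) = -v.1 + 1
      ring
    · rfl
  · intro v h1 h2 ih
    have h3 : ((-v).1 : ℤ) = (-u).1 := by
      show -v.1 = -u.1
      omega
    have h4 : ((-v).2 : ℤ) < (-u).2 := by
      show -v.2 < -u.2
      omega
    rw [T_col h1 h2, T_col' h3 h4, ih, add_comm]
    congr 2
    apply Prod.ext
    · rfl
    · show -(v.2 - 1) = -v.2 + 1
      ring
  · intro v h1 h2 ih1 ih2
    have h3 : ((-v).1 : ℤ) < (-u).1 := by
      show -v.1 < -u.1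
      omega
    have h4 : ((-v).2 : ℤ) < (-u).2 := by
      show -v.2 < -u.2
      omega
    rw [T_rec h1 h2, T_rec' h3 h4, ih1, ih2, add_comm]
    have e1 : -((v.1 - 1, v.2) : ℤ × ℤ) = ((-v).1 + 1, (-v).2) := by
      apply Prod.ext
      · show -(v.1 - 1) = -v.1 + 1
        ring
      · rfl
    have e2 : -((v.1, v.2 - 1) : ℤ × ℤ) = ((-v).1, (-v).2 + 1) := by
      apply Prod.ext
      · rfl
      · show -(v.2 - 1) = -v.2 + 1
        ring
    rw [e1, e2]

theorem measurable_T (u v : ℤ × ℤ) : Measurable (fun ω : ℤ × ℤ → ℝ => T ω u v) := by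
  have key : ∀ m n : ℕ, Measurable (fun ω : ℤ × ℤ → ℝ => LP ω u m n) := by
    intro m
    induction m with
    | zero =>
      intro n
      induction n with
      | zero =>
        simp only [LP]
        exact measurable_pi_apply _
      | succ n ih =>
        simp only [LP]
        exact ih.add (measurable_pi_apply _)
    | succ m ihm =>
      intro n
      induction n with
      | zero =>
        simp only [LP]
        exact (ihm 0).add (measurable_pi_apply _)
      | succ n ih =>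
        simp only [LP]
        exact ((ihm (n + 1)).max ih).add (measurable_pi_apply _)
  exact key _ _

/-- if the weights are nonnegative, `T` to a site of the same row further left plus the weight
is not larger -/
theorem T_add_right_le {i j k : ℤ} (h1 : u ≤ (i, k)) (h2 : i < j)
    (hω : ∀ z, u ≤ z → z ≤ (j, k) → 0 ≤ ω z) : T ω u (i, k) + ω (j, k) ≤ T ω u (j, k) := by
  have h3 : ((i, k) : ℤ × ℤ) ≤ (j - 1, k) := ⟨by show i ≤ j - 1; omega, le_rfl⟩
  have h4 : ((j - 1, k) : ℤ × ℤ) ≤ (j, k) := ⟨by show j - 1 ≤ j; omega, le_rfl⟩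
  have h5 : T ω u (i, k) ≤ T ω u (j - 1, k) :=
    T_mono_ends le_rfl h1 h3 fun z hz hz' => hω z hz (hz'.trans h4)
  have h6 : T ω u (j - 1, k) + ω (j, k) ≤ T ω u (j, k) := by
    have hu1 : u.1 < ((j, k) : ℤ × ℤ).1 := lt_of_le_of_lt h1.1 h2
    rcases eq_or_lt_of_le (show u.2 ≤ ((j, k) : ℤ × ℤ).2 from h1.2) with h7 | h7
    · exact (T_row (ω := ω) hu1 h7).ge
    · rw [T_rec hu1 h7]
      exact add_le_add_left (le_max_left _ _) _
  linarith

theorem res_nonneg {R : Set (ℤ × ℤ)} (hω : ∀ z, 0 ≤ ω z) (z : ℤ × ℤ) : 0 ≤ res R ω z := by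
  rw [res]
  split_ifs
  · exact hω z
  · exact le_rfl

theorem measurable_res (R : Set (ℤ × ℤ)) : Measurable (fun ω : ℤ × ℤ → ℝ => res R ω) := by
  refine measurable_pi_lambda _ fun z => ?_
  by_cases hz : z ∈ R
  · simp only [res, hz, if_true]
    exact measurable_pi_apply z
  · simp only [res, hz, if_false]
    exact measurable_const

/-- zeroing weights decreases the passage times -/
theorem T_res_le {R : Set (ℤ × ℤ)} (h : u ≤ v) (hω : ∀ z, 0 ≤ ω z) :
    T (res R ω) u v ≤ T ω u v := by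
  refine T_mono h fun z _ _ => ?_
  rw [res]
  split_ifs
  · exact le_rfl
  · exact hω z

/-- if all the geodesics from `u` to `v` stay in `R` then zeroing the weights outside of `R` does
not change the passage time -/
theorem T_res_eq {R : Set (ℤ × ℤ)} (h : u ≤ v) (hω : ∀ z, 0 ≤ ω z)
    (hR : ∀ w, Via ω u w v → w ∈ R) : T (res R ω) u v = T ω u v := by
  refine le_antisymm (T_res_le h hω) ?_
  obtain ⟨x, hx, hu, hv, hT⟩ := exists_path ω h
  have hlev := lev_le_lev h
  have hmem : ∀ l ∈ Finset.Icc (lev u) (lev v), pt x l ∈ R := by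
    intro l hl
    rw [Finset.mem_Icc] at hl
    apply hR
    have h1 : u ≤ pt x l := by
      have := pt_le_pt hx le_rfl hl.1 hl.2
      rwa [hu] at this
    have h2 : pt x l ≤ v := by
      have := pt_le_pt hx hl.1 hl.2 le_rfl
      rwa [hv] at this
    refine ⟨h1, h2, le_antisymm ?_ (T_add_le h1 h2)⟩
    have h3 := wt_le_T (ω := ω) (hx.mono le_rfl hl.2) hl.1
    have h4 := wt_le_T (ω := ω) (hx.mono hl.1 le_rfl) hl.2
    rw [hu] at h3
    rw [hv] at h4
    have h5 : wt ω x (lev u) (lev v) + ω (pt x l) = wt ω x (lev u) l + wt ω x l (lev v) := by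
      have e1 : Finset.Icc (lev u) (lev v) = Finset.Icc (lev u) l ∪ Finset.Ioc l (lev v) := by
        ext k
        simp only [Finset.mem_union, Finset.mem_Icc, Finset.mem_Ioc]
        omega
      have e2 : Finset.Icc l (lev v) = insert l (Finset.Ioc l (lev v)) := by
        ext k
        simp only [Finset.mem_insert, Finset.mem_Icc, Finset.mem_Ioc]
        omega
      rw [wt, wt, wt, e1, e2, Finset.sum_union, Finset.sum_insert (by simp)]
      · ring
      · rw [Finset.disjoint_left]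
        intro k hk hk'
        simp only [Finset.mem_Icc, Finset.mem_Ioc] at hk hk'
        omega
    linarith
  have h6 : wt (res R ω) x (lev u) (lev v) = wt ω x (lev u) (lev v) := by
    rw [wt, wt]
    refine Finset.sum_congr rfl fun l hl => ?_
    rw [res, if_pos (hmem l hl)]
  have h7 := wt_le_T (ω := res R ω) hx hlev
  rw [hu, hv, h6, hT] at h7
  exact h7

/-- `T (res R ω)` depends only on the weights in `R` -/
theorem T_res_depends {R : Set (ℤ × ℤ)} (hR : ∀ z ∈ R, ω z = ω' z) :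
    T (res R ω) u v = T (res R ω') u v := by
  have : res R ω = res R ω' := by
    funext z
    rw [res, res]
    split_ifs with hz
    · exact hR z hz
    · rfl
  rw [this]

end BGE
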