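import Pool.Agent.BGE.Defs

/-!
BGE / U1. The dynamics in discrete time (mesh `η`).

The noise is an i.i.d. family `x` of exponential variables of rate one indexed by
`DI = (ℤ × ℤ) × ℕ × Bool`. `dyn η x i` is the environment at the time `i` (real time `i η`):
at each step the weight at `v` is replaced by the fresh one `x (v, i+1, true)` if the clock variable
`x (v, i+1, false)` is `< η`.

`dyn_law`: every `dyn η x i` has law `PI (ℤ × ℤ)`.
`dyn_pair`: the pair `(dyn η x i, dyn η x (i+j))` has the law of `(y.1, evo (j η) y)` under `mu3`.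
Proof. Both are products over the sites, so it is a statement about one site (infinite products:
`Measure.infinitePi_map_pi`, or finite-dimensional marginals). At one site: at time `i` the weight is
`X i` exponential, independent of the noise after time `i` (induction on `i`); during the `j` next
steps the weight is unchanged if no clock variable is `< η`, which has probability `e^{-jη}`; otherwise
it is a fresh exponential variable independent of the past (the fresh weight at the last refresh).

-/

namespace BGE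

open MeasureTheory ProbabilityTheory

/-! ### tails of the exponential law -/

theorem dyn_Iio {τ : ℝ} (hτ : 0 ≤ τ) : E1 (Set.Iio τ) = ENNReal.ofReal (1 - Real.exp (-τ)) := by
  have h1 : E1 (Set.Iio τ) = ∫⁻ y in Set.Iio τ, exponentialPDF 1 y := by
    unfold E1 expMeasure gammaMeasure
    rw [withDensity_apply _ measurableSet_Iio]
    rfl
  rw [h1, setLIntegral_congr Iio_ae_eq_Iic, lintegral_exponentialPDF_eq_antiDeriv one_pos,
    if_pos hτ, one_mul]

theorem dyn_Ici {τ : ℝ} (hτ : 0 ≤ τ) : E1 (Set.Ici τ) = ENNReal.ofReal (Real.exp (-τ)) := by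
  have h1 : E1 (Set.Ici τ) = 1 - E1 (Set.Iio τ) := by
    rw [← Set.compl_Iio, prob_compl_eq_one_sub measurableSet_Iio]
  have h2 : Real.exp (-τ) ≤ 1 := Real.exp_le_one_iff.2 (by linarith)
  rw [h1, dyn_Iio hτ, ← ENNReal.ofReal_one, ← ENNReal.ofReal_sub _ (by linarith)]
  congr 1
  ring

/-! ### mixtures -/

/-- the law of a mixture decided by an independent clock variable -/
theorem dyn_mix {α β : Type*} [MeasurableSpace α] [MeasurableSpace β] (P : Measure α)
    [IsProbabilityMeasure P] {f : α → ℝ → β} {g : α → β}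
    (hf : Measurable (fun z : α × ℝ => f z.1 z.2)) (hg : Measurable g) (τ : ℝ) :
    Measure.map (fun z : α × ℝ × ℝ => if z.2.2 < τ then f z.1 z.2.1 else g z.1)
      (P.prod (E1.prod E1)) =
      E1 (Set.Iio τ) • Measure.map (fun z : α × ℝ => f z.1 z.2) (P.prod E1) +
        E1 (Set.Ici τ) • Measure.map g P := by
  have hm1 : Measurable (fun z : α × ℝ × ℝ => f z.1 z.2.1) :=
    hf.comp (by fun_prop : Measurable (fun z : α × ℝ × ℝ => ((z.1, z.2.1) : α × ℝ)))
  have hset : MeasurableSet {z : α × ℝ × ℝ | z.2.2 < τ} :=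
    measurableSet_lt (by fun_prop) (by fun_prop)
  have hm : Measurable (fun z : α × ℝ × ℝ => if z.2.2 < τ then f z.1 z.2.1 else g z.1) :=
    Measurable.ite hset hm1 (hg.comp measurable_fst)
  have hassoc := measurePreserving_prodAssoc P E1 E1
  rw [← hassoc.map_eq, Measure.map_map hm hassoc.measurable]
  ext S hS
  rw [Measure.map_apply (hm.comp hassoc.measurable) hS, Measure.add_apply, Measure.smul_apply,
    Measure.smul_apply, Measure.map_apply hf hS, Measure.map_apply hg hS]
  have hsplit : ((fun z : α × ℝ × ℝ => if z.2.2 < τ then f z.1 z.2.1 else g z.1) ∘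
      (MeasurableEquiv.prodAssoc : (α × ℝ) × ℝ ≃ᵐ α × ℝ × ℝ)) ⁻¹' S =
      (((fun z : α × ℝ => f z.1 z.2) ⁻¹' S) ×ˢ Set.Iio τ) ∪
        (((g ⁻¹' S) ×ˢ Set.univ) ×ˢ Set.Ici τ) := by
    ext ⟨⟨a, b⟩, c⟩
    simp only [Set.mem_preimage, Function.comp_apply, Set.mem_union, Set.mem_prod, Set.mem_Iio,
      Set.mem_Ici, Set.mem_univ, and_true]
    change (if c < τ then f a b else g a) ∈ S ↔ _
    by_cases hc : c < τ
    · rw [if_pos hc]
      constructor
      · intro h
        exact Or.inl ⟨h, hc⟩
      · rintro (⟨h, -⟩ | ⟨-, h⟩)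
        · exact h
        · exact absurd hc (not_lt.2 h)
    · rw [if_neg hc]
      constructor
      · intro h
        exact Or.inr ⟨h, not_lt.1 hc⟩
      · rintro (⟨-, h⟩ | ⟨h, -⟩)
        · exact absurd h hc
        · exact h
  rw [hsplit, measure_union]
  · rw [Measure.prod_prod, Measure.prod_prod, Measure.prod_prod, measure_univ, mul_one,
      smul_eq_mul, smul_eq_mul, mul_comm (E1 (Set.Iio τ)), mul_comm (E1 (Set.Ici τ))]
  · rw [Set.disjoint_left]
    rintro ⟨⟨a, b⟩, c⟩ ⟨-, h1⟩ ⟨-, h2⟩
    exact (not_lt.2 (show τ ≤ c from h2)) (show c < τ from h1)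
  · exact ((hg hS).prod MeasurableSet.univ).prod measurableSet_Ici

/-! ### one site -/

/-- the dynamics at one site -/
noncomputable def dyn1 (η : ℝ) (y : ℕ × Bool → ℝ) : ℕ → ℝ
  | 0 => y (0, true)
  | i + 1 => if y (i + 1, false) < η then y (i + 1, true) else dyn1 η y i

theorem dyn_eq (η : ℝ) (x : DI → ℝ) (i : ℕ) (v : ℤ × ℤ) :
    dyn η x i v = dyn1 η (fun p => x (v, p)) i := by
  induction i with
  | zero => rfl
  | succ i ih =>
    simp only [dyn, dyn1]
    rw [ih]

theorem dyn1_meas (η : ℝ) (i : ℕ) : Measurable (fun y : ℕ × Bool → ℝ => dyn1 η y i) := by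
  induction i with
  | zero => exact measurable_pi_apply _
  | succ i ih =>
    simp only [dyn1]
    exact Measurable.ite (measurableSet_lt (measurable_pi_apply _) measurable_const)
      (measurable_pi_apply _) ih

theorem dyn1_congr (η : ℝ) (i : ℕ) {y y' : ℕ × Bool → ℝ} (h : ∀ p : ℕ × Bool, p.1 ≤ i → y p = y' p) :
    dyn1 η y i = dyn1 η y' i := by
  induction i with
  | zero => exact h _ le_rfl
  | succ i ih =>
    simp only [dyn1]
    rw [h (i + 1, false) le_rfl, h (i + 1, true) le_rfl, ih fun p hp => h p (by omega)]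

theorem measurable_dyn (η : ℝ) (i : ℕ) : Measurable (fun x : DI → ℝ => dyn η x i) := by
  refine measurable_pi_iff.2 fun v => ?_
  simp only [dyn_eq]
  exact (dyn1_meas η i).comp (measurable_pi_iff.2 fun p => measurable_pi_apply _)

/-- independence of the past and of the noise of one step -/
theorem dyn_step {α : Type*} [MeasurableSpace α] (k : ℕ) {f : (ℕ × Bool → ℝ) → α}
    (hf : Measurable f) (hf' : ∀ y y' : ℕ × Bool → ℝ, (∀ p, p.1 ≤ k → y p = y' p) → f y = f y') :
    Measure.map (fun y : ℕ × Bool → ℝ => (f y, y (k + 1, true), y (k + 1, false)))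
      (PI (ℕ × Bool)) = (Measure.map f (PI (ℕ × Bool))).prod (E1.prod E1) := by
  classical
  have hind : iIndepFun (fun (p : ℕ × Bool) (y : ℕ × Bool → ℝ) => y p) (PI (ℕ × Bool)) :=
    iIndepFun_infinitePi (P := fun _ : ℕ × Bool => E1) (X := fun _ x => x) (fun _ => measurable_id)
  set S : Finset (ℕ × Bool) := (Finset.range (k + 1)) ×ˢ Finset.univ with hS
  set T : Finset (ℕ × Bool) := {(k + 1, true), (k + 1, false)} with hT
  have hST : Disjoint S T := by
    rw [Finset.disjoint_left]
    intro p hp hp'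
    rw [hS, Finset.mem_product, Finset.mem_range] at hp
    rw [hT, Finset.mem_insert, Finset.mem_singleton] at hp'
    rcases hp' with rfl | rfl
    · exact absurd hp.1 (by simp)
    · exact absurd hp.1 (by simp)
  have h1 := hind.indepFun_finset S T hST fun p => measurable_pi_apply p
  -- `f` as a function of the coordinates in `S`
  set φ : (S → ℝ) → α := fun z => f fun p => if h : p ∈ S then z ⟨p, h⟩ else 0 with hφ
  have hφm : Measurable φ := by
    refine hf.comp (measurable_pi_iff.2 fun p => ?_)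
    by_cases h : p ∈ S
    · simp only [h, dif_pos]
      exact measurable_pi_apply _
    · simp only [h, dif_neg, not_false_eq_true]
      exact measurable_const
  have hφf : ∀ y : ℕ × Bool → ℝ, φ (fun p : S => y p) = f y := by
    intro y
    refine hf' _ _ fun p hp => ?_
    have : p ∈ S := by
      rw [hS, Finset.mem_product, Finset.mem_range]
      exact ⟨by omega, Finset.mem_univ _⟩
    rw [dif_pos this]
  have ht1 : ((k + 1, true) : ℕ × Bool) ∈ T := by simp [hT]
  have ht2 : ((k + 1, false) : ℕ × Bool) ∈ T := by simp [hT]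
  set ψ : (T → ℝ) → ℝ × ℝ := fun z => (z ⟨_, ht1⟩, z ⟨_, ht2⟩) with hψ
  have hψm : Measurable ψ := (measurable_pi_apply _).prodMk (measurable_pi_apply _)
  have h2 := h1.comp hφm hψm
  have h3 : IndepFun f (fun y : ℕ × Bool → ℝ => (y (k + 1, true), y (k + 1, false)))
      (PI (ℕ × Bool)) := by
    have e1 : φ ∘ (fun (a : ℕ × Bool → ℝ) (i : S) => a i) = f := funext fun y => hφf y
    rw [e1] at h2
    exact h2
  have hm2 : Measurable (fun y : ℕ × Bool → ℝ => (y (k + 1, true), y (k + 1, false))) :=
    (measurable_pi_apply _).prodMk (measurable_pi_apply _)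
  have h4 := h3.map_prod_eq_prod_map_map hf.aemeasurable hm2.aemeasurable
  rw [h4]
  congr 1
  exact Measure.infinitePi_map_eval_prod (P := fun _ : ℕ × Bool => E1) (by simp)

theorem dyn1_law (η : ℝ) (i : ℕ) :
    Measure.map (fun y : ℕ × Bool → ℝ => dyn1 η y i) (PI (ℕ × Bool)) = E1 := by
  induction i with
  | zero => exact Measure.infinitePi_map_eval (fun _ : ℕ × Bool => E1) (0, true)
  | succ i ih =>
    have h1 := dyn_step i (dyn1_meas η i) (fun y y' h => dyn1_congr η i h)
    rw [ih] at h1
    have hg : Measurable (fun z : ℝ × ℝ × ℝ => if z.2.2 < η then z.2.1 else z.1) :=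
      Measurable.ite (measurableSet_lt (by fun_prop) measurable_const) (by fun_prop) (by fun_prop)
    have hm : Measurable (fun y : ℕ × Bool → ℝ =>
        (dyn1 η y i, y (i + 1, true), y (i + 1, false))) :=
      (dyn1_meas η i).prodMk ((measurable_pi_apply _).prodMk (measurable_pi_apply _))
    have h2 : Measure.map (fun y : ℕ × Bool → ℝ => dyn1 η y (i + 1)) (PI (ℕ × Bool)) =
        Measure.map (fun z : ℝ × ℝ × ℝ => if z.2.2 < η then z.2.1 else z.1)
          (E1.prod (E1.prod E1)) := by
      rw [← h1, Measure.map_map hg hm]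
      rfl
    rw [h2]
    have h3 := dyn_mix E1 (f := fun _ b => b) (g := fun a => a) measurable_snd measurable_id η
    rw [h3]
    have h4 : Measure.map (fun z : ℝ × ℝ => z.2) (E1.prod E1) = E1 := by
      have := Measure.map_snd_prod (μ := E1) (ν := E1)
      rw [measure_univ, one_smul] at this
      exact this
    have h5 : Measure.map (fun a : ℝ => a) E1 = E1 := Measure.map_id
    rw [h4, h5, ← add_smul]
    have h6 : E1 (Set.Iio η) + E1 (Set.Ici η) = 1 := by
      rw [← Set.compl_Iio]
      exact prob_add_prob_compl measurableSet_Iio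
    rw [h6, one_smul]

/-- the law of the pair -/
noncomputable def dynQ (τ : ℝ) : Measure (ℝ × ℝ) :=
  Measure.map (fun y : ℝ × ℝ × ℝ => (y.1, if y.2.2 < τ then y.2.1 else y.1))
    (E1.prod (E1.prod E1))

theorem dynQ_eq (τ : ℝ) : dynQ τ = E1 (Set.Iio τ) • (E1.prod E1) +
    E1 (Set.Ici τ) • Measure.map (fun a : ℝ => (a, a)) E1 := by
  have h3 := dyn_mix E1 (f := fun a b => (a, b)) (g := fun a => (a, a)) measurable_id
    (measurable_id.prodMk measurable_id) τ
  have h4 : Measure.map (fun z : ℝ × ℝ => (z.1, z.2)) (E1.prod E1) = E1.prod E1 := Measure.map_id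
  rw [h4] at h3
  rw [← h3]
  unfold dynQ
  congr 1
  funext y
  by_cases h : y.2.2 < τ
  · rw [if_pos h, if_pos h]
  · rw [if_neg h, if_neg h]

theorem dyn1_pair {η : ℝ} (hη : 0 ≤ η) (i j : ℕ) :
    Measure.map (fun y : ℕ × Bool → ℝ => (dyn1 η y i, dyn1 η y (i + j))) (PI (ℕ × Bool)) =
      dynQ (j * η) := by
  induction j with
  | zero =>
    rw [dynQ_eq, Nat.cast_zero, zero_mul, dyn_Iio le_rfl, dyn_Ici le_rfl]
    simp only [neg_zero, Real.exp_zero, sub_self, ENNReal.ofReal_zero, zero_smul, zero_add,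
      ENNReal.ofReal_one, one_smul, add_zero]
    have hd : Measurable (fun a : ℝ => (a, a)) := by fun_prop
    rw [← dyn1_law η i, Measure.map_map hd (dyn1_meas η i)]
    rfl
  | succ j ih =>
    set Q := dynQ (j * η) with hQ
    have hm0 : Measurable (fun y : ℕ × Bool → ℝ => (dyn1 η y i, dyn1 η y (i + j))) :=
      (dyn1_meas η i).prodMk (dyn1_meas η (i + j))
    have h1 := dyn_step (i + j) hm0 (fun y y' h => by
      rw [dyn1_congr η (i + j) h, dyn1_congr η i fun p hp => h p (by omega)])
    rw [ih] at h1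
    have hQp : IsProbabilityMeasure Q := by
      rw [← ih]
      exact Measure.isProbabilityMeasure_map hm0.aemeasurable
    have hg : Measurable (fun z : (ℝ × ℝ) × ℝ × ℝ =>
        if z.2.2 < η then (z.1.1, z.2.1) else z.1) :=
      Measurable.ite (measurableSet_lt (by fun_prop) measurable_const) (by fun_prop) (by fun_prop)
    have hm : Measurable (fun y : ℕ × Bool → ℝ => ((dyn1 η y i, dyn1 η y (i + j)),
        y (i + j + 1, true), y (i + j + 1, false))) :=
      hm0.prodMk ((measurable_pi_apply _).prodMk (measurable_pi_apply _))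
    have h2 : Measure.map (fun y : ℕ × Bool → ℝ => (dyn1 η y i, dyn1 η y (i + (j + 1))))
        (PI (ℕ × Bool)) = Measure.map (fun z : (ℝ × ℝ) × ℝ × ℝ =>
        if z.2.2 < η then (z.1.1, z.2.1) else z.1) (Q.prod (E1.prod E1)) := by
      rw [← h1, Measure.map_map hg hm]
      congr 1
      funext y
      change (dyn1 η y i, dyn1 η y (i + j + 1)) = if y (i + j + 1, false) < η then
        (dyn1 η y i, y (i + j + 1, true)) else (dyn1 η y i, dyn1 η y (i + j))
      rw [dyn1]
      split_ifs <;> rfl
    rw [h2]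
    have h3 := dyn_mix Q (f := fun a b => (a.1, b)) (g := fun a => a)
      ((measurable_fst.comp measurable_fst).prodMk measurable_snd) measurable_id η
    rw [h3]
    have h5 : Measure.map (fun a : ℝ × ℝ => a) Q = Q := Measure.map_id
    have h6 : Measure.map (fun z : (ℝ × ℝ) × ℝ => (z.1.1, z.2)) (Q.prod E1) = E1.prod E1 := by
      have k1 := Measure.map_prod_map Q E1 (measurable_fst (α := ℝ) (β := ℝ))
        (measurable_id (α := ℝ))
      have k2 : Measure.map Prod.fst Q = E1 := by
        rw [← ih, Measure.map_map measurable_fst hm0]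
        exact dyn1_law η i
      rw [k2, Measure.map_id] at k1
      rw [k1]
      rfl
    rw [h5, h6, hQ, dynQ_eq, dynQ_eq]
    have hj0 : 0 ≤ (j : ℝ) * η := by positivity
    have hj1 : 0 ≤ ((j + 1 : ℕ) : ℝ) * η := by positivity
    have hmul : E1 (Set.Ici η) * E1 (Set.Ici (j * η)) = E1 (Set.Ici (((j + 1 : ℕ) : ℝ) * η)) := by
      rw [dyn_Ici hη, dyn_Ici hj0, dyn_Ici hj1, ← ENNReal.ofReal_mul (Real.exp_pos _).le,
        ← Real.exp_add]
      congr 2
      push_cast
      ring
    have hone : ∀ τ : ℝ, E1 (Set.Iio τ) + E1 (Set.Ici τ) = 1 := by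
      intro τ
      rw [← Set.compl_Iio]
      exact prob_add_prob_compl measurableSet_Iio
    have hsum : E1 (Set.Iio η) + E1 (Set.Ici η) * E1 (Set.Iio (j * η)) =
        E1 (Set.Iio (((j + 1 : ℕ) : ℝ) * η)) := by
      have k1 : E1 (Set.Iio η) + E1 (Set.Ici η) * E1 (Set.Iio (j * η)) +
          E1 (Set.Ici (((j + 1 : ℕ) : ℝ) * η)) = 1 := by
        rw [← hmul, add_assoc, ← mul_add, hone, mul_one, hone]
      have k2 := hone (((j + 1 : ℕ) : ℝ) * η)
      rw [← k2] at k1
      exact (ENNReal.add_left_inj (measure_ne_top _ _)).1 k1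
    rw [← hmul, ← hsum, smul_add, smul_smul, smul_smul, ← add_assoc, ← add_smul]

/-! ### infinite products -/

/-- splitting a product over a sum of index sets -/
theorem dyn_sum (ι κ : Type*) : Measure.map (fun x : ι ⊕ κ → ℝ => (fun i => x (.inl i),
    fun k => x (.inr k))) (PI (ι ⊕ κ)) = (PI ι).prod (PI κ) := by
  classical
  have hm1 : Measurable (fun p : (ι → ℝ) × (κ → ℝ) => (Sum.elim p.1 p.2 : ι ⊕ κ → ℝ)) := by
    refine measurable_pi_iff.2 fun k => ?_
    cases k with
    | inl i => exact (measurable_pi_apply i).comp measurable_fst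
    | inr i => exact (measurable_pi_apply i).comp measurable_snd
  have hm2 : Measurable (fun x : ι ⊕ κ → ℝ => ((fun i => x (.inl i), fun k => x (.inr k)) :
      (ι → ℝ) × (κ → ℝ))) :=
    (measurable_pi_iff.2 fun i => measurable_pi_apply _).prodMk
      (measurable_pi_iff.2 fun i => measurable_pi_apply _)
  have h1 : Measure.map (fun p : (ι → ℝ) × (κ → ℝ) => (Sum.elim p.1 p.2 : ι ⊕ κ → ℝ))
      ((PI ι).prod (PI κ)) = PI (ι ⊕ κ) := by
    refine Measure.eq_infinitePi _ fun s t ht => ?_
    rw [Measure.map_apply hm1 (MeasurableSet.pi s.countable_toSet fun i _ => ht i)]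
    have h2 : (fun p : (ι → ℝ) × (κ → ℝ) => (Sum.elim p.1 p.2 : ι ⊕ κ → ℝ)) ⁻¹'
        ((s : Set (ι ⊕ κ)).pi t) = ((s.toLeft : Set ι).pi fun i => t (.inl i)) ×ˢ
          ((s.toRight : Set κ).pi fun i => t (.inr i)) := by
      ext ⟨a, b⟩
      simp only [Set.mem_preimage, Set.mem_pi, Set.mem_prod, Finset.mem_coe, Finset.mem_toLeft,
        Finset.mem_toRight]
      constructor
      · intro h
        exact ⟨fun i hi => h (.inl i) hi, fun i hi => h (.inr i) hi⟩
      · rintro ⟨h1, h2⟩ (i | i) hi
        · exact h1 i hi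
        · exact h2 i hi
    rw [h2, Measure.prod_prod]
    unfold PI
    rw [Measure.infinitePi_pi _ fun i _ => ht _, Measure.infinitePi_pi _ fun i _ => ht _]
    conv_rhs => rw [← Finset.toLeft_disjSum_toRight (u := s), Finset.prod_disjSum]
  rw [← h1, Measure.map_map hm2 hm1]
  exact Measure.map_id

/-- triples of environments as one product -/
theorem dyn_triple (ι : Type*) : Measure.map (fun x : ι × Fin 3 → ℝ =>
    (fun v => x (v, 0), fun v => x (v, 1), fun v => x (v, 2))) (PI (ι × Fin 3)) =
      (PI ι).prod ((PI ι).prod (PI ι)) := by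
  set e : ι ⊕ (ι ⊕ ι) → ι × Fin 3 := fun k => match k with
    | .inl v => (v, 0)
    | .inr (.inl v) => (v, 1)
    | .inr (.inr v) => (v, 2) with he
  have hinj : Function.Injective e := by
    rintro (a | a | a) (b | b | b) h <;> simp_all
  have h1 : Measure.map (fun (ω : ι × Fin 3 → ℝ) i => ω (e i)) (PI (ι × Fin 3)) =
      PI (ι ⊕ (ι ⊕ ι)) :=
    Measure.map_infinitePi_infinitePi_of_inj (P := fun _ : ι × Fin 3 => E1) hinj
  have h2 := dyn_sum ι (ι ⊕ ι)
  have h3 := dyn_sum ι ι
  have hm1 : Measurable (fun (ω : ι × Fin 3 → ℝ) i => ω (e i)) :=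
    measurable_pi_iff.2 fun i => measurable_pi_apply _
  have hm2 : ∀ κ : Type _, Measurable (fun x : ι ⊕ κ → ℝ => ((fun i => x (.inl i),
      fun k => x (.inr k)) : (ι → ℝ) × (κ → ℝ))) := fun κ =>
    (measurable_pi_iff.2 fun i => measurable_pi_apply _).prodMk
      (measurable_pi_iff.2 fun i => measurable_pi_apply _)
  rw [← h3]
  have h4 : (PI ι).prod (Measure.map (fun x : ι ⊕ ι → ℝ => (fun i => x (.inl i),
      fun k => x (.inr k))) (PI (ι ⊕ ι))) =
      Measure.map (Prod.map id (fun x : ι ⊕ ι → ℝ => (fun i => x (.inl i),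
        fun k => x (.inr k)))) ((PI ι).prod (PI (ι ⊕ ι))) := by
    have := Measure.map_prod_map (PI ι) (PI (ι ⊕ ι)) measurable_id (hm2 ι)
    rw [Measure.map_id] at this
    exact this
  rw [h4, ← h2, Measure.map_map (measurable_id.prodMap (hm2 ι)) (hm2 _), ← h1,
    Measure.map_map ((measurable_id.prodMap (hm2 ι)).comp (hm2 _)) hm1]
  rfl

/-- coordinatewise maps -/
theorem dyn_curry {ι κ β : Type*} [MeasurableSpace β] {F : (κ → ℝ) → β} (hF : Measurable F) :
    Measure.map (fun (x : ι × κ → ℝ) (v : ι) => F fun p => x (v, p)) (PI (ι × κ)) =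
      Measure.infinitePi fun _ : ι => Measure.map F (PI κ) := by
  have h1 := Measure.infinitePi_map_curry (ι := ι) (κ := κ) (X := ℝ) (fun _ _ => E1)
  have h2 := Measure.infinitePi_map_pi (fun _ : ι => PI κ) (f := fun _ => F) fun _ => hF
  rw [← h2]
  unfold PI
  have hm : Measurable (fun (x : ι → κ → ℝ) (i : ι) => F (x i)) :=
    measurable_pi_iff.2 fun v => hF.comp (measurable_pi_apply v)
  rw [← h1, Measure.map_map hm (MeasurableEquiv.measurable _)]
  rfl

theorem dyn_law (η : ℝ) (i : ℕ) : MeasurePreserving (fun x : DI → ℝ => dyn η x i) (PI DI)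
    (PI (ℤ × ℤ)) := by
  refine ⟨measurable_dyn η i, ?_⟩
  have h1 := dyn_curry (ι := ℤ × ℤ) (dyn1_meas η i)
  rw [dyn1_law] at h1
  have h2 : (fun x : DI → ℝ => dyn η x i) =
      fun (x : DI → ℝ) (v : ℤ × ℤ) => dyn1 η (fun p => x (v, p)) i := by
    funext x v
    exact dyn_eq η x i v
  rw [h2]
  exact h1

theorem dyn_pair {η : ℝ} (hη : 0 ≤ η) (i j : ℕ) :
    Measure.map (fun x : DI → ℝ => (dyn η x i, dyn η x (i + j))) (PI DI) =
      Measure.map (fun y : Env3 => (y.1, evo (j * η) y)) mu3 := by
  set τ : ℝ := j * η with hτ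
  -- unzip
  set U : (ℤ × ℤ → ℝ × ℝ) → (ℤ × ℤ → ℝ) × (ℤ × ℤ → ℝ) :=
    fun z => (fun v => (z v).1, fun v => (z v).2) with hU
  have hUm : Measurable U :=
    (measurable_pi_iff.2 fun v => measurable_fst.comp (measurable_pi_apply v)).prodMk
      (measurable_pi_iff.2 fun v => measurable_snd.comp (measurable_pi_apply v))
  -- left side
  have hF1 : Measurable (fun y : ℕ × Bool → ℝ => (dyn1 η y i, dyn1 η y (i + j))) :=
    (dyn1_meas η i).prodMk (dyn1_meas η (i + j))
  have h1 := dyn_curry (ι := ℤ × ℤ) hF1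
  rw [dyn1_pair hη] at h1
  have hm1 : Measurable (fun (x : (ℤ × ℤ) × ℕ × Bool → ℝ) (v : ℤ × ℤ) =>
      (dyn1 η (fun p => x (v, p)) i, dyn1 η (fun p => x (v, p)) (i + j))) :=
    measurable_pi_iff.2 fun v => hF1.comp (measurable_pi_iff.2 fun p => measurable_pi_apply _)
  have hL : Measure.map (fun x : DI → ℝ => (dyn η x i, dyn η x (i + j))) (PI DI) =
      Measure.map U (Measure.infinitePi fun _ : ℤ × ℤ => dynQ τ) := by
    rw [← h1, Measure.map_map hUm hm1]
    congr 1
    funext x
    refine Prod.ext ?_ ?_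
    · funext v
      exact dyn_eq η x i v
    · funext v
      exact dyn_eq η x (i + j) v
  -- right side
  have hF2 : Measurable (fun y : Fin 3 → ℝ => (y 0, if y 2 < τ then y 1 else y 0)) :=
    (measurable_pi_apply _).prodMk (Measurable.ite
      (measurableSet_lt (measurable_pi_apply _) measurable_const) (measurable_pi_apply _)
      (measurable_pi_apply _))
  have h2 := dyn_curry (ι := ℤ × ℤ) hF2
  have hQ : Measure.map (fun y : Fin 3 → ℝ => (y 0, if y 2 < τ then y 1 else y 0)) (PI (Fin 3)) =
      dynQ τ := by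
    have k1 : Measure.map (fun y : Fin 3 → ℝ => (y 0, y 1, y 2)) (PI (Fin 3)) =
        E1.prod (E1.prod E1) := by
      have k2 : iIndepFun (fun (p : Fin 3) (y : Fin 3 → ℝ) => y p) (PI (Fin 3)) :=
        iIndepFun_infinitePi (P := fun _ : Fin 3 => E1) (X := fun _ x => x) (fun _ => measurable_id)
      have k3 := (k2.indepFun_prodMk (fun p => measurable_pi_apply p) 1 2 0 (by decide)
        (by decide)).symm
      have k4 := k3.map_prod_eq_prod_map_map (measurable_pi_apply _).aemeasurable
        ((measurable_pi_apply _).prodMk (measurable_pi_apply _)).aemeasurable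
      rw [k4]
      congr 1
      · exact Measure.infinitePi_map_eval (fun _ : Fin 3 => E1) 0
      · exact Measure.infinitePi_map_eval_prod (P := fun _ : Fin 3 => E1) (by decide)
    unfold dynQ
    rw [← k1, Measure.map_map]
    · rfl
    · exact measurable_fst.prodMk (Measurable.ite
        (measurableSet_lt (by fun_prop) measurable_const) (by fun_prop) (by fun_prop))
    · exact (measurable_pi_apply _).prodMk
        ((measurable_pi_apply _).prodMk (measurable_pi_apply _))
  rw [hQ] at h2
  have hevo : Measurable (fun y : Env3 => (y.1, evo τ y)) := by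
    refine measurable_fst.prodMk (measurable_pi_iff.2 fun v => ?_)
    unfold evo mix
    simp only [Set.mem_ofPred_eq]
    refine Measurable.ite (measurableSet_lt ?_ measurable_const) ?_ ?_
    · exact (measurable_pi_apply v).comp (measurable_snd.comp measurable_snd)
    · exact (measurable_pi_apply v).comp (measurable_fst.comp measurable_snd)
    · exact (measurable_pi_apply v).comp measurable_fst
  have hm3 : Measurable (fun x : (ℤ × ℤ) × Fin 3 → ℝ => ((fun v => x (v, 0), fun v => x (v, 1),
      fun v => x (v, 2)) : Env3)) :=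
    (measurable_pi_iff.2 fun v => measurable_pi_apply _).prodMk
      ((measurable_pi_iff.2 fun v => measurable_pi_apply _).prodMk
        (measurable_pi_iff.2 fun v => measurable_pi_apply _))
  have hm2 : Measurable (fun (x : (ℤ × ℤ) × Fin 3 → ℝ) (v : ℤ × ℤ) =>
      (x (v, 0), if x (v, 2) < τ then x (v, 1) else x (v, 0))) :=
    measurable_pi_iff.2 fun v => (measurable_pi_apply _).prodMk (Measurable.ite
      (measurableSet_lt (measurable_pi_apply _) measurable_const) (measurable_pi_apply _)
      (measurable_pi_apply _))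
  rw [hL, ← h2, Measure.map_map hUm hm2]
  unfold mu3
  rw [← dyn_triple, Measure.map_map hevo hm3]
  congr 1

end BGE
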