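import Pool.Agent.BGE.Defs

/-!
BGE / I1. Independence of events depending on disjoint sets of coordinates, under the product
measure `Measure.infinitePi` (in particular `PI ι`).

`DepOn S A`: membership in `A` depends only on the coordinates in `S`.

`indep2`: if `A` depends only on the coordinates in `S`, `B` only on those in `S'`, `S` and `S'`
disjoint, then `μ (A ∩ B) = μ A * μ B`.
Proof. Let `f : (ι → X) → (S → X)`, `g` the restrictions. Under the product measure the coordinates
are independent (`iIndepFun_infinitePi`), hence the families `(x i)_{i ∈ S}`, `(x i)_{i ∈ S'}` are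
independent (`iIndepFun.indepFun_finset` for finite sets, for infinite sets of indices use
`indep_iSup_of_disjoint`). `A` is measurable with respect to the sigma-algebra generated by the
coordinates in `S`: fix a point `x0` and let `h x i = x i` if `i ∈ S`, `x0 i` otherwise; `h` is
measurable with respect to that sigma-algebra and `A = h ⁻¹' A`.
(Alternative: by Fubini for the product decomposition into `S` and its complement.)

`indep3` for three sets. `section_bound` (resampling): let `A` depend only on `S`. Suppose that for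
every `x ∈ A ∩ B` the set of `y` with `glue S y x ∈ B'` (coordinates in `S` from `y`, the others
from `x`) has measure at least `1/2`. Then `μ (A ∩ B) ≤ 2 μ A μ B'`.
Proof. Let `H = {x : μ {y | glue S y x ∈ B'} ≥ 1/2}`; it depends only on the coordinates outside
of `S`, `A ∩ B ⊆ A ∩ H`, so `μ (A ∩ B) ≤ μ A μ H`; and by Fubini (`(y, x) ↦ glue S y x` preserves
the measure) `μ H / 2 ≤ μ B'`.
-/

namespace BGE

open MeasureTheory ProbabilityTheory
open scoped ENNReal

variable {ι X : Type*} [MeasurableSpace X] (ν : ι → Measure X) [∀ i, IsProbabilityMeasure (ν i)]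

private theorem ind_measurable_glue (S : Set ι) :
    Measurable (fun z : (ι → X) × (ι → X) => glue S z.1 z.2) := by
  refine measurable_pi_lambda _ fun i => ?_
  by_cases hi : i ∈ S
  · simp only [glue, hi, if_true]
    exact (measurable_pi_apply i).comp measurable_fst
  · simp only [glue, hi, if_false]
    exact (measurable_pi_apply i).comp measurable_snd

private theorem ind_glue (S : Set ι) :
    MeasurePreserving (fun z : (ι → X) × (ι → X) => glue S z.1 z.2)
      ((Measure.infinitePi ν).prod (Measure.infinitePi ν)) (Measure.infinitePi ν) := by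
  classical
  refine ⟨ind_measurable_glue S, ?_⟩
  refine Measure.eq_infinitePi ν fun s t ht => ?_
  have hm : MeasurableSet (Set.pi (s : Set ι) t) :=
    MeasurableSet.pi s.countable_toSet fun i _ => ht i
  rw [Measure.map_apply (ind_measurable_glue S) hm]
  have h1 : (fun z : (ι → X) × (ι → X) => glue S z.1 z.2) ⁻¹' (Set.pi (s : Set ι) t) =
      (Set.pi ((s.filter (· ∈ S) : Finset ι) : Set ι) t) ×ˢ
        (Set.pi ((s.filter (· ∉ S) : Finset ι) : Set ι) t) := by
    ext z
    simp only [Set.mem_preimage, Set.mem_pi, Set.mem_prod, Finset.mem_coe, Finset.mem_filter]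
    constructor
    · intro h
      refine ⟨fun i hi => ?_, fun i hi => ?_⟩
      · have := h i hi.1
        rwa [glue, if_pos hi.2] at this
      · have := h i hi.1
        rwa [glue, if_neg hi.2] at this
    · rintro ⟨ha, hb⟩ i hi
      rw [glue]
      split_ifs with hS
      · exact ha i ⟨hi, hS⟩
      · exact hb i ⟨hi, hS⟩
  rw [h1, Measure.prod_prod, Measure.infinitePi_pi _ fun i _ => ht i,
    Measure.infinitePi_pi _ fun i _ => ht i]
  exact Finset.prod_filter_mul_prod_filter_not s (· ∈ S) fun i => ν i (t i)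

theorem indep2 {S S' : Set ι} (hS : Disjoint S S') {A B : Set (ι → X)} (hA : MeasurableSet A)
    (hB : MeasurableSet B) (hA' : DepOn S A) (hB' : DepOn S' B) :
    Measure.infinitePi ν (A ∩ B) = Measure.infinitePi ν A * Measure.infinitePi ν B := by
  have h := ind_glue ν S
  rw [← h.measure_preimage (hA.inter hB).nullMeasurableSet, ← Measure.prod_prod]
  congr 1
  ext z
  simp only [Set.mem_preimage, Set.mem_inter_iff, Set.mem_prod]
  have h1 : glue S z.1 z.2 ∈ A ↔ z.1 ∈ A := hA' _ _ fun i hi => by
    rw [glue, if_pos hi]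
  have h2 : glue S z.1 z.2 ∈ B ↔ z.2 ∈ B := hB' _ _ fun i hi => by
    rw [glue, if_neg fun h => Set.disjoint_left.1 hS h hi]
  rw [h1, h2]

theorem indep3 {S S' S'' : Set ι} (hS : Disjoint S S') (hS2 : Disjoint S S'')
    (hS3 : Disjoint S' S'') {A B C : Set (ι → X)} (hA : MeasurableSet A)
    (hB : MeasurableSet B) (hC : MeasurableSet C) (hA' : DepOn S A) (hB' : DepOn S' B)
    (hC' : DepOn S'' C) :
    Measure.infinitePi ν (A ∩ (B ∩ C)) =
      Measure.infinitePi ν A * (Measure.infinitePi ν B * Measure.infinitePi ν C) := by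
  have hBC : DepOn (S' ∪ S'') (B ∩ C) := fun x y h =>
    and_congr (hB' x y fun i hi => h i (Or.inl hi)) (hC' x y fun i hi => h i (Or.inr hi))
  rw [indep2 ν (Set.disjoint_union_right.2 ⟨hS, hS2⟩) hA (hB.inter hC) hA' hBC,
    indep2 ν hS3 hB hC hB' hC']

theorem measurePreserving_glue (S : Set ι) :
    MeasurePreserving (fun z : (ι → X) × (ι → X) => glue S z.1 z.2)
      ((Measure.infinitePi ν).prod (Measure.infinitePi ν)) (Measure.infinitePi ν) := ind_glue ν S

theorem section_bound {S : Set ι} {A B B' : Set (ι → X)} (hA : MeasurableSet A)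
    (hB' : MeasurableSet B') (hA' : DepOn S A)
    (h : ∀ x ∈ A ∩ B, (1 / 2 : ℝ≥0∞) ≤ Measure.infinitePi ν {y | glue S y x ∈ B'}) :
    Measure.infinitePi ν (A ∩ B) ≤ 2 * (Measure.infinitePi ν A * Measure.infinitePi ν B') := by
  have hmp := ind_glue ν S
  have hpre : MeasurableSet ((fun z : (ι → X) × (ι → X) => glue S z.1 z.2) ⁻¹' B') :=
    hmp.measurable hB'
  have hf : Measurable fun x : ι → X => Measure.infinitePi ν {y | glue S y x ∈ B'} :=
    measurable_measure_prodMk_right hpre
  set f : (ι → X) → ℝ≥0∞ := fun x => Measure.infinitePi ν {y | glue S y x ∈ B'} with hfdef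
  have hHm : MeasurableSet {x | (1 / 2 : ℝ≥0∞) ≤ f x} := measurableSet_le measurable_const hf
  have hHd : DepOn Sᶜ {x | (1 / 2 : ℝ≥0∞) ≤ f x} := by
    intro x y hxy
    have : f x = f y := by
      simp only [hfdef]
      congr 1
      ext w
      have : glue S w x = glue S w y := by
        funext i
        rw [glue, glue]
        split_ifs with hi
        · rfl
        · exact hxy i hi
      rw [Set.mem_ofPred_eq, Set.mem_ofPred_eq, this]
    rw [Set.mem_ofPred_eq, Set.mem_ofPred_eq, this]
  have h1 : A ∩ B ⊆ A ∩ {x | (1 / 2 : ℝ≥0∞) ≤ f x} := fun x hx => ⟨hx.1, h x hx⟩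
  have h2 := indep2 ν (disjoint_compl_right (a := S)) hA hHm hA' hHd
  have h3 : (1 / 2 : ℝ≥0∞) * Measure.infinitePi ν {x | (1 / 2 : ℝ≥0∞) ≤ f x} ≤
      Measure.infinitePi ν B' := by
    refine (mul_meas_ge_le_lintegral hf (1 / 2)).trans ?_
    rw [← hmp.measure_preimage hB'.nullMeasurableSet, Measure.prod_apply_symm hpre]
    exact le_rfl
  have h4 : Measure.infinitePi ν {x | (1 / 2 : ℝ≥0∞) ≤ f x} ≤ 2 * Measure.infinitePi ν B' := by
    calc Measure.infinitePi ν {x | (1 / 2 : ℝ≥0∞) ≤ f x}
        = 2 * ((1 / 2 : ℝ≥0∞) * Measure.infinitePi ν {x | (1 / 2 : ℝ≥0∞) ≤ f x}) := by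
          rw [← mul_assoc, one_div, ENNReal.mul_inv_cancel two_ne_zero ENNReal.ofNat_ne_top,
            one_mul]
      _ ≤ 2 * Measure.infinitePi ν B' := by gcongr
  calc Measure.infinitePi ν (A ∩ B) ≤ Measure.infinitePi ν (A ∩ {x | (1 / 2 : ℝ≥0∞) ≤ f x}) :=
        measure_mono h1
    _ = Measure.infinitePi ν A * Measure.infinitePi ν {x | (1 / 2 : ℝ≥0∞) ≤ f x} := h2
    _ ≤ Measure.infinitePi ν A * (2 * Measure.infinitePi ν B') := by gcongr
    _ = 2 * (Measure.infinitePi ν A * Measure.infinitePi ν B') := by ring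

end BGE
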