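import Pool.Agent.BGE.Rot
import Pool.Agent.BGE.Dyn
import Pool.Agent.BGE.Indep

/-!
BGE / G0. Measurability and dependence of the events; updates.

Everything is elementary: `measurable_T`, `measurable_res`, countable intersections and unions
(`ℤ × ℤ` is countable; for fixed `p, q` the conditions `p ∈ Bx m`, `Cone (κ/4) p q` do not depend
on `ω`).

* `depOn_res`: an event depending on `res R ω` only depends on the weights in `R`.
* `depOn_dyn`: if `A` depends on `R` then `{x | dyn η x i ∈ A}` depends on the noise at the sites of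
  `R` (`dyn η x i v` depends only on the noise at `v`: induction on `i`).
* `Upd η M R`: some weight in `R` is refreshed in the first `M` steps. `upd_prob`: union bound,
  `P(U < η) ≤ η`. `upd_none`: induction on `i`.
* `card_Rgn`: `2n + 2` levels, at most `2a + 1` sites on each of them.
-/

namespace BGE

open MeasureTheory ProbabilityTheory

variable {κ σ lam Y g0 W a A s b τ η : ℝ} {n m K I k i M : ℕ}

section Aux

variable {α : Type*} [MeasurableSpace α]

private theorem ms_le {f g : α → ℝ} (hf : Measurable f) (hg : Measurable g) :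
    Measurable fun x => f x ≤ g x := measurableSet_setOfPred.1 (measurableSet_le hf hg)

private theorem ms_lt {f g : α → ℝ} (hf : Measurable f) (hg : Measurable g) :
    Measurable fun x => f x < g x := measurableSet_setOfPred.1 (measurableSet_lt hf hg)

private theorem ms_eq {f g : α → ℝ} (hf : Measurable f) (hg : Measurable g) :
    Measurable fun x => f x = g x := measurableSet_setOfPred.1 (measurableSet_eq_fun hf hg)

private theorem ms_c (p : Prop) : Measurable fun _ : α => p := measurable_const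

end Aux

theorem measurable_rotE : Measurable rotE :=
  measurable_pi_lambda _ fun z => measurable_pi_apply (rot z)

private theorem ms_Trot (u v : ℤ × ℤ) : Measurable fun ω : ℤ × ℤ → ℝ => T (rotE ω) u v :=
  (measurable_T u v).comp measurable_rotE

theorem measurable_FLp (σ A : ℝ) (n : ℕ) (i : ℤ) : Measurable (fun ω => FLp σ A n ω i) :=
  (measurable_T _ _).add (ms_Trot _ _)

theorem measurable_FRp (σ A : ℝ) (n : ℕ) (i : ℤ) : Measurable (fun ω => FRp σ A n ω i) :=
  (measurable_T _ _).add (ms_Trot _ _)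

private theorem ms_CrE : Measurable fun ω => CrE κ lam m ω := by
  unfold CrE
  refine Measurable.and ?_ ?_
  · refine Measurable.forall fun z => (ms_c _).imp ?_
    exact (ms_le measurable_const (measurable_pi_apply z)).and
      (ms_le (measurable_pi_apply z) measurable_const)
  · refine Measurable.forall fun p => (ms_c _).imp ?_
    refine Measurable.forall fun q => (ms_c _).imp ((ms_c _).imp ?_)
    refine (ms_le (measurable_T p q) measurable_const).and ((ms_c _).imp ?_)
    exact ms_le ((measurable_T p q).sub_const _).abs measurable_const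

theorem measurableSet_CrE : MeasurableSet {ω | CrE κ lam m ω} := measurableSet_setOfPred.2 ms_CrE

theorem measurableSet_CrT : MeasurableSet {x : (ℤ × ℤ → ℝ) × (ℤ × ℤ → ℝ) |
    CrT lam m τ x.1 x.2} := by
  refine measurableSet_setOfPred.2 ?_
  unfold CrT
  refine Measurable.forall fun p => (ms_c _).imp ?_
  refine Measurable.forall fun q => (ms_c _).imp ((ms_c _).imp ?_)
  exact ms_le (((measurable_T p q).comp measurable_snd).sub
    ((measurable_T p q).comp measurable_fst)).abs measurable_const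

private theorem ms_FiE : Measurable fun ω => FiE κ σ Y g0 W n ω := by
  unfold FiE
  refine Measurable.forall fun p => (ms_c _).imp ?_
  refine Measurable.forall fun q => (ms_c _).imp ((ms_c _).imp ?_)
  exact ms_le ((measurable_T p q).sub_const _).abs measurable_const

theorem measurableSet_FiE : MeasurableSet {ω | FiE κ σ Y g0 W n ω} :=
  measurableSet_setOfPred.2 ms_FiE

theorem measurableSet_GoodE : MeasurableSet {ω | GoodE κ σ lam Y g0 n ω} :=
  measurableSet_setOfPred.2 (ms_CrE.and ms_FiE)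

private theorem ms_Thru : Measurable fun ω => Thru σ a n ω := by
  unfold Thru
  refine Measurable.exists fun z => Measurable.exists fun w => ?_
  refine (ms_c _).and ((ms_c _).and ((ms_c _).and ((ms_c _).and ((ms_c _).and ((ms_c _).and ?_)))))
  exact ms_eq (measurable_T z w) ((measurable_T _ _).add (measurable_T _ _))

theorem measurableSet_Thru : MeasurableSet {ω | Thru σ a n ω} := measurableSet_setOfPred.2 ms_Thru

/-- the versions for restricted environments follow by composition with `measurable_res` -/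
theorem measurableSet_res {P : (ℤ × ℤ → ℝ) → Prop} (hP : MeasurableSet {ω | P ω})
    (R : Set (ℤ × ℤ)) : MeasurableSet {ω | P (res R ω)} := measurable_res R hP

theorem measurableSet_AnS : MeasurableSet (AnS σ a n) := measurableSet_res measurableSet_Thru _

theorem measurableSet_NR : MeasurableSet {ω | NR σ A n K I s ω} := by
  refine measurableSet_setOfPred.2 ?_
  unfold NR
  refine Measurable.forall fun i => (ms_c _).imp ((ms_c _).imp ?_)
  exact (ms_le ((measurable_FLp _ _ _ _).sub (measurable_FLp _ _ _ _)) measurable_const).and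
    (ms_le ((measurable_FRp _ _ _ _).sub (measurable_FRp _ _ _ _)) measurable_const)

theorem measurableSet_Clo : MeasurableSet {ω | Clo σ A n K k b ω} := by
  refine measurableSet_setOfPred.2 ?_
  unfold Clo
  refine Measurable.exists fun i => (ms_c _).and ((ms_c _).and ?_)
  exact ms_le measurable_const ((measurable_FLp _ _ _ _).sub (measurable_FLp _ _ _ _))

theorem measurableSet_Wd : MeasurableSet {ω | Wd σ A n K k ω} := by
  refine measurableSet_setOfPred.2 ?_
  unfold Wd
  refine Measurable.exists fun i => (ms_c _).and ((ms_c _).and ?_)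
  exact ms_lt ((measurable_FLp _ _ _ _).sub (measurable_FLp _ _ _ _))
    ((measurable_FRp _ _ _ _).sub (measurable_FRp _ _ _ _))

theorem depOn_res (P : (ℤ × ℤ → ℝ) → Prop) (R : Set (ℤ × ℤ)) : DepOn R {ω | P (res R ω)} := by
  intro x y h
  have e : res R x = res R y := by
    funext z
    unfold res
    by_cases hz : z ∈ R
    · rw [if_pos hz, if_pos hz, h z hz]
    · rw [if_neg hz, if_neg hz]
  rw [Set.mem_ofPred_eq, Set.mem_ofPred_eq, e]

theorem depOn_AnS : DepOn (Rgn σ (6 * a) n) (AnS σ a n) := depOn_res _ _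

theorem depOn_rotE {R : Set (ℤ × ℤ)} (hR : ∀ z, rot z ∈ R ↔ z ∈ R) {E : Set (ℤ × ℤ → ℝ)}
    (hE : DepOn R E) : DepOn R {ω | rotE ω ∈ E} := fun x y h =>
  hE (rotE x) (rotE y) fun z hz => h (rot z) ((hR z).2 hz)

theorem DepOn.mono {ι X : Type*} {S S' : Set ι} {E : Set (ι → X)} (h : DepOn S E)
    (hS : S ⊆ S') : DepOn S' E := fun x y hxy => h x y fun i hi => hxy i (hS hi)

theorem DepOn.inter {ι X : Type*} {S : Set ι} {E F : Set (ι → X)} (h : DepOn S E)
    (h' : DepOn S F) : DepOn S (E ∩ F) := fun x y hxy => and_congr (h x y hxy) (h' x y hxy)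

theorem DepOn.union {ι X : Type*} {S : Set ι} {E F : Set (ι → X)} (h : DepOn S E)
    (h' : DepOn S F) : DepOn S (E ∪ F) := fun x y hxy => or_congr (h x y hxy) (h' x y hxy)

/-- the noise at the sites of `R` -/
def nz (R : Set (ℤ × ℤ)) : Set DI := {d | d.1 ∈ R}

private theorem ms_dyn {x y : DI → ℝ} {R : Set (ℤ × ℤ)} (h : ∀ d ∈ nz R, x d = y d) (η : ℝ)
    (i : ℕ) {v : ℤ × ℤ} (hv : v ∈ R) : dyn η x i v = dyn η y i v := by
  rw [dyn_eq, dyn_eq]
  exact congrArg (fun f => dyn1 η f i) (funext fun p => h (v, p) hv)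

theorem depOn_dyn {R : Set (ℤ × ℤ)} {E : Set (ℤ × ℤ → ℝ)} (hE : DepOn R E) (η : ℝ) (i : ℕ) :
    DepOn (nz R) {x | dyn η x i ∈ E} := fun _ _ h => hE _ _ fun _ hv => ms_dyn h η i hv

theorem depOn_dyn_ex {R : Set (ℤ × ℤ)} {E : Set (ℤ × ℤ → ℝ)} (hE : DepOn R E) (η : ℝ) (M : ℕ) :
    DepOn (nz R) {x | ∃ i ≤ M, dyn η x i ∈ E} := fun _ _ h =>
  exists_congr fun i => and_congr_right fun _ => depOn_dyn hE η i _ _ h

theorem measurableSet_dyn {E : Set (ℤ × ℤ → ℝ)} (hE : MeasurableSet E) (η : ℝ) (i : ℕ) :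
    MeasurableSet {x : DI → ℝ | dyn η x i ∈ E} := measurable_dyn η i hE

theorem measurableSet_dyn_ex {E : Set (ℤ × ℤ → ℝ)} (hE : MeasurableSet E) (η : ℝ) (M : ℕ) :
    MeasurableSet {x : DI → ℝ | ∃ i ≤ M, dyn η x i ∈ E} := by
  refine measurableSet_setOfPred.2 ?_
  exact Measurable.exists fun i => (ms_c _).and
    (measurableSet_setOfPred.1 (measurableSet_dyn hE η i))

/-- some weight in `R` is refreshed in one of the first `M` steps -/
def Upd (η : ℝ) (M : ℕ) (R : Set (ℤ × ℤ)) : Set (DI → ℝ) :=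
  {x | ∃ v ∈ R, ∃ i < M, x (v, i + 1, false) < η}

theorem measurableSet_Upd (η : ℝ) (M : ℕ) (R : Set (ℤ × ℤ)) : MeasurableSet (Upd η M R) := by
  unfold Upd
  refine measurableSet_setOfPred.2 ?_
  refine Measurable.exists fun v => (ms_c _).and ?_
  refine Measurable.exists fun i => (ms_c _).and ?_
  exact ms_lt (measurable_pi_apply _) measurable_const

theorem depOn_Upd (η : ℝ) (M : ℕ) (R : Set (ℤ × ℤ)) : DepOn (nz R) (Upd η M R) := by
  intro x y h
  refine exists_congr fun v => and_congr_right fun hv => ?_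
  refine exists_congr fun i => and_congr_right fun _ => ?_
  rw [h (v, i + 1, false) hv]

theorem upd_none {x : DI → ℝ} {R : Set (ℤ × ℤ)} (h : x ∉ Upd η M R) (hi : i ≤ M) {v : ℤ × ℤ}
    (hv : v ∈ R) : dyn η x i v = dyn η x 0 v := by
  induction i with
  | zero => rfl
  | succ i ih =>
    have h1 : ¬ x (v, i + 1, false) < η := fun h2 => h ⟨v, hv, i, by omega, h2⟩
    change (if x (v, i + 1, false) < η then x (v, i + 1, true) else dyn η x i v) = _
    rw [if_neg h1]
    exact ih (by omega)

theorem upd_prob (hη : 0 ≤ η) (M : ℕ) (R : Finset (ℤ × ℤ)) :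
    (PI DI).real (Upd η M (R : Set (ℤ × ℤ))) ≤ R.card * (M * η) := by
  have h1 : ∀ d : DI, (PI DI).real {x | x d < η} ≤ η := by
    intro d
    have hm : MeasurableSet (Set.Iio η) := measurableSet_Iio
    have h2 : (PI DI) {x | x d < η} = E1 (Set.Iio η) :=
      (measurePreserving_eval_infinitePi (fun _ : DI => E1) d).measure_preimage
        hm.nullMeasurableSet
    rw [measureReal_def, h2, dyn_Iio hη, ENNReal.toReal_ofReal]
    · have := Real.add_one_le_exp (-η)
      linarith
    · have : Real.exp (-η) ≤ 1 := Real.exp_le_one_iff.2 (by linarith)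
      linarith
  have h3 : Upd η M (R : Set (ℤ × ℤ)) ⊆
      ⋃ p ∈ R ×ˢ Finset.range M, {x : DI → ℝ | x (p.1, p.2 + 1, false) < η} := by
    rintro x ⟨v, hv, i, hi, hx⟩
    simp only [Set.mem_iUnion]
    exact ⟨(v, i), Finset.mem_product.2 ⟨hv, Finset.mem_range.2 hi⟩, hx⟩
  calc (PI DI).real (Upd η M (R : Set (ℤ × ℤ)))
      ≤ (PI DI).real (⋃ p ∈ R ×ˢ Finset.range M, {x : DI → ℝ | x (p.1, p.2 + 1, false) < η}) :=
        measureReal_mono h3 (measure_ne_top _ _)
    _ ≤ ∑ p ∈ R ×ˢ Finset.range M, (PI DI).real {x : DI → ℝ | x (p.1, p.2 + 1, false) < η} :=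
        measureReal_biUnion_finset_le _ _
    _ ≤ ∑ _p ∈ R ×ˢ Finset.range M, η := Finset.sum_le_sum fun p _ => h1 _
    _ = R.card * (M * η) := by
        rw [Finset.sum_const, Finset.card_product, Finset.card_range, nsmul_eq_mul]
        push_cast
        ring

theorem card_Rgn (σ : ℝ) {a : ℝ} (ha : 0 ≤ a) (n : ℕ) : ∃ R : Finset (ℤ × ℤ),
    (R : Set (ℤ × ℤ)) = Rgn σ a n ∧ (R.card : ℝ) ≤ (2 * n + 2) * (2 * a + 1) := by
  classical
  refine ⟨(Finset.Icc (-(n : ℤ)) (n + 1)).biUnion fun l =>
    (Finset.Icc ⌈σ * ((l : ℝ) - 1 / 2) - a⌉ ⌊σ * ((l : ℝ) - 1 / 2) + a⌋).image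
      fun x => (x, l - x), ?_, ?_⟩
  · ext z
    simp only [Finset.coe_biUnion, Finset.coe_image, Set.mem_iUnion, Set.mem_image,
      Finset.mem_coe, Finset.mem_Icc, Int.ceil_le, Int.le_floor]
    constructor
    · rintro ⟨l, ⟨hl1, hl2⟩, x, ⟨hx1, hx2⟩, rfl⟩
      have e : lev (x, l - x) = l := by
        unfold lev
        simp only
        omega
      refine ⟨by rw [e]; exact hl1, by rw [e]; exact hl2, ?_⟩
      unfold dev
      rw [e, abs_le]
      constructor
      · simp only
        linarith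
      · simp only
        linarith
    · rintro ⟨h1, h2, h3⟩
      unfold dev at h3
      rw [abs_le] at h3
      refine ⟨lev z, ⟨h1, h2⟩, z.1, ⟨by linarith [h3.1], by linarith [h3.2]⟩, ?_⟩
      ext
      · rfl
      · unfold lev
        simp only
        omega
  · have h1 : ∀ l : ℤ, ((((Finset.Icc ⌈σ * ((l : ℝ) - 1 / 2) - a⌉
        ⌊σ * ((l : ℝ) - 1 / 2) + a⌋).image fun x => ((x, l - x) : ℤ × ℤ)).card : ℕ) : ℝ) ≤
          2 * a + 1 := by
      intro l
      have h2 := Finset.card_image_le (s := Finset.Icc ⌈σ * ((l : ℝ) - 1 / 2) - a⌉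
        ⌊σ * ((l : ℝ) - 1 / 2) + a⌋) (f := fun x => ((x, l - x) : ℤ × ℤ))
      rw [Int.card_Icc] at h2
      have h3 : (((⌊σ * ((l : ℝ) - 1 / 2) + a⌋ + 1 - ⌈σ * ((l : ℝ) - 1 / 2) - a⌉).toNat : ℕ) : ℝ) ≤
          2 * a + 1 := by
        rcases le_total 0 (⌊σ * ((l : ℝ) - 1 / 2) + a⌋ + 1 - ⌈σ * ((l : ℝ) - 1 / 2) - a⌉) with h | h
        · have h4 : (((⌊σ * ((l : ℝ) - 1 / 2) + a⌋ + 1 -
              ⌈σ * ((l : ℝ) - 1 / 2) - a⌉).toNat : ℕ) : ℝ) =
              ((⌊σ * ((l : ℝ) - 1 / 2) + a⌋ + 1 - ⌈σ * ((l : ℝ) - 1 / 2) - a⌉ : ℤ) : ℝ) := by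
            rw [← Int.cast_natCast, Int.toNat_of_nonneg h]
          rw [h4]
          push_cast
          have h5 := Int.floor_le (σ * ((l : ℝ) - 1 / 2) + a)
          have h6 := Int.le_ceil (σ * ((l : ℝ) - 1 / 2) - a)
          linarith
        · rw [Int.toNat_of_nonpos h]
          push_cast
          linarith
      exact (Nat.cast_le.2 h2).trans h3
    refine (Nat.cast_le.2 Finset.card_biUnion_le).trans ?_
    push_cast
    refine (Finset.sum_le_sum fun l _ => h1 l).trans ?_
    rw [Finset.sum_const, Int.card_Icc, nsmul_eq_mul]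
    have h7 : ((((n : ℤ) + 1 + 1 - -(n : ℤ)).toNat : ℕ) : ℝ) = 2 * n + 2 := by
      have : ((n : ℤ) + 1 + 1 - -(n : ℤ)).toNat = 2 * n + 2 := by omega
      rw [this]
      push_cast
      ring
    rw [h7]

end BGE
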