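import Pool.Agent.BGE.CtLaw
import Pool.Agent.BGE.Meas

/-!
BGE / Z4. From the discrete to the continuous time dynamics.

`transfer`: let `D` depend only on the weights in the finite set `F`, measurable. If for all large
`M` `P(∃ i ≤ M, dyn (h/M) i ∈ D) ≤ ε`, then `P(∃ t ∈ [s, s+h], ct t ∈ D) ≤ ε` (outer measure).
Proof. For almost every noise all the clocks at the sites of `F` have finitely many rings in
`[0, s+h+1]`, and `ct x` restricted to `F` is a right-continuous step function of `t`: each `t` has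
`ρ > 0` with `ct x t' = ct x t` on `F` for `t' ∈ [t, t+ρ)`. If `t < s + h` then for all large `M` there
is `i ≤ M` with `s + i h/M ∈ [t, t+ρ)`; if `t = s + h` take `i = M`. So the event is contained (up to a
null set) in the set of `x` which are in `A_M = {∃ i ≤ M, ct x (s + i h/M) ∈ D}` for all large `M`;
`P(liminf A_M) ≤ liminf P(A_M)`, and `P(A_M) = P(∃ i ≤ M, dyn (h/M) i ∈ D)` by `ct_law`.
(Right-continuity: if `cnt x v t = n` then `t < S_{n+1}` (partial sum of `n + 1` terms), so the count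
is the same on `[t, S_{n+1})`, since all the times are nonnegative.)
-/

namespace BGE

open MeasureTheory ProbabilityTheory
open scoped ENNReal

/-- right-continuity of the counts (for every noise) -/
private theorem tr_cnt (x : DI → ℝ) (v : ℤ × ℤ) (t : ℝ) :
    ∃ ρ : ℝ, 0 < ρ ∧ ∀ t' : ℝ, t ≤ t' → t' < t + ρ → cnt x v t' = cnt x v t := by
  by_cases hne : {n : ℕ | t < ∑ i ∈ Finset.range (n + 1), x (v, i, false)}.Nonempty
  · have hmem : t < ∑ i ∈ Finset.range (cnt x v t + 1), x (v, i, false) := Nat.sInf_mem hne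
    refine ⟨∑ i ∈ Finset.range (cnt x v t + 1), x (v, i, false) - t, by linarith,
      fun t' h1 h2 => le_antisymm ?_ ?_⟩
    · refine Nat.sInf_le ?_
      change t' < _
      linarith
    · refine le_of_not_gt fun hlt => ?_
      have hne' : {n : ℕ | t' < ∑ i ∈ Finset.range (n + 1), x (v, i, false)}.Nonempty := by
        refine ⟨cnt x v t, ?_⟩
        change t' < _
        linarith
      have hmem' : t' < ∑ i ∈ Finset.range (cnt x v t' + 1), x (v, i, false) :=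
        Nat.sInf_mem hne'
      have h3 : ¬ t < ∑ i ∈ Finset.range (cnt x v t' + 1), x (v, i, false) := fun h4 =>
        absurd (Nat.sInf_le (s := {n : ℕ | t < ∑ i ∈ Finset.range (n + 1), x (v, i, false)})
          (m := cnt x v t') h4) (not_le.2 hlt)
      linarith
  · refine ⟨1, one_pos, fun t' h1 _ => ?_⟩
    have hne' : ¬ {n : ℕ | t' < ∑ i ∈ Finset.range (n + 1), x (v, i, false)}.Nonempty := by
      rintro ⟨n, hn⟩
      exact hne ⟨n, lt_of_le_of_lt h1 hn⟩
    rw [Set.not_nonempty_iff_eq_empty] at hne hne'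
    unfold cnt
    rw [hne, hne']

private theorem tr_ct (x : DI → ℝ) (F : Finset (ℤ × ℤ)) (t : ℝ) :
    ∃ ρ : ℝ, 0 < ρ ∧ ∀ t' : ℝ, t ≤ t' → t' < t + ρ → ∀ v ∈ (F : Set (ℤ × ℤ)),
      ct x t' v = ct x t v := by
  classical
  induction F using Finset.induction_on with
  | empty => exact ⟨1, one_pos, fun t' _ _ v hv => absurd hv (by simp)⟩
  | insert a F _ ih =>
    obtain ⟨ρ, hρ, h1⟩ := ih
    obtain ⟨ρ', hρ', h2⟩ := tr_cnt x a t
    refine ⟨min ρ ρ', lt_min hρ hρ', fun t' h3 h4 v hv => ?_⟩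
    rw [Finset.coe_insert] at hv
    rcases hv with rfl | hv
    · unfold ct
      rw [h2 t' h3 (h4.trans_le (by linarith [min_le_right ρ ρ']))]
    · exact h1 t' h3 (h4.trans_le (by linarith [min_le_left ρ ρ'])) v hv

private theorem tr_law {D : Set (ℤ × ℤ → ℝ)} (hD : MeasurableSet D) {s η : ℝ} (hs : 0 ≤ s)
    (hη : 0 < η) (M : ℕ) : (PI DI) {x | ∃ i ≤ M, ct x (s + (i : ℝ) * η) ∈ D} =
      (PI DI) {x | ∃ i ≤ M, dyn η x i ∈ D} := by
  have hS : MeasurableSet {y : Fin (M + 1) → (ℤ × ℤ → ℝ) | ∃ i, y i ∈ D} := by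
    have e : {y : Fin (M + 1) → (ℤ × ℤ → ℝ) | ∃ i, y i ∈ D} = ⋃ i, (fun y => y i) ⁻¹' D := by
      ext y
      simp
    rw [e]
    exact MeasurableSet.iUnion fun i => measurable_pi_apply i hD
  have h1 := congrArg (fun μ : Measure (Fin (M + 1) → (ℤ × ℤ → ℝ)) => μ {y | ∃ i, y i ∈ D})
    (ct_law hs hη M)
  rw [Measure.map_apply (measurable_pi_lambda _ fun i => measurable_ct _) hS,
    Measure.map_apply (measurable_pi_lambda _ fun i => measurable_dyn η _) hS] at h1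
  have e1 : {x : DI → ℝ | ∃ i ≤ M, ct x (s + (i : ℝ) * η) ∈ D} =
      (fun (x : DI → ℝ) (i : Fin (M + 1)) => ct x (s + (i : ℕ) * η)) ⁻¹' {y | ∃ i, y i ∈ D} := by
    ext x
    constructor
    · rintro ⟨i, hi, hx⟩
      exact ⟨⟨i, Nat.lt_succ_of_le hi⟩, hx⟩
    · rintro ⟨i, hx⟩
      exact ⟨i, Nat.le_of_lt_succ i.2, hx⟩
  have e2 : {x : DI → ℝ | ∃ i ≤ M, dyn η x i ∈ D} =
      (fun (x : DI → ℝ) (i : Fin (M + 1)) => dyn η x (i : ℕ)) ⁻¹' {y | ∃ i, y i ∈ D} := by
    ext x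
    constructor
    · rintro ⟨i, hi, hx⟩
      exact ⟨⟨i, Nat.lt_succ_of_le hi⟩, hx⟩
    · rintro ⟨i, hx⟩
      exact ⟨i, Nat.le_of_lt_succ i.2, hx⟩
  rw [e1, e2]
  exact h1

theorem transfer {F : Finset (ℤ × ℤ)} {D : Set (ℤ × ℤ → ℝ)} (hD : MeasurableSet D)
    (hdep : DepOn (F : Set (ℤ × ℤ)) D) {s h ε : ℝ} (hs : 0 ≤ s) (hh : 0 < h) (hε : 0 ≤ ε)
    {M0 : ℕ} (hM : ∀ M : ℕ, M0 ≤ M → 1 ≤ M →
      (PI DI).real {x | ∃ i ≤ M, dyn (h / M) x i ∈ D} ≤ ε) :
    (PI DI) {x | ∃ t : ℝ, s ≤ t ∧ t ≤ s + h ∧ ct x t ∈ D} ≤ ENNReal.ofReal ε := by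
  set A : ℕ → Set (DI → ℝ) := fun M => {x | ∃ i ≤ M, ct x (s + (i : ℝ) * (h / M)) ∈ D} with hA
  have hAM : ∀ M, M0 ≤ M → 1 ≤ M → (PI DI) (A M) ≤ ENNReal.ofReal ε := by
    intro M h1 h2
    have hMpos : (0 : ℝ) < M := by exact_mod_cast h2
    rw [hA]
    simp only
    rw [tr_law hD hs (div_pos hh hMpos) M, ← ENNReal.ofReal_toReal (measure_ne_top _ _)]
    exact ENNReal.ofReal_le_ofReal (hM M h1 h2)
  have hsub : {x | ∃ t : ℝ, s ≤ t ∧ t ≤ s + h ∧ ct x t ∈ D} ⊆ ⋃ N : ℕ, ⋂ M ≥ N, A M := by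
    rintro x ⟨t, h1, h2, h3⟩
    obtain ⟨ρ, hρ, h4⟩ := tr_ct x F t
    obtain ⟨N, hN⟩ := exists_nat_ge (h / ρ)
    rw [Set.mem_iUnion]
    refine ⟨max N 1, ?_⟩
    rw [Set.mem_iInter₂]
    intro M hMN
    have hM1 : 1 ≤ M := (le_max_right _ _).trans hMN
    have hM2 : N ≤ M := (le_max_left _ _).trans hMN
    have hMpos : (0 : ℝ) < M := by exact_mod_cast hM1
    have hMN' : (N : ℝ) ≤ M := by exact_mod_cast hM2
    set q : ℝ := (t - s) * M / h with hq
    have hq0 : 0 ≤ q := div_nonneg (mul_nonneg (by linarith) hMpos.le) hh.le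
    have hqM : q ≤ M := by
      rw [hq, div_le_iff₀ hh, mul_comm (M : ℝ) h]
      exact mul_le_mul_of_nonneg_right (by linarith) hMpos.le
    have hqh : q * (h / M) = t - s := by
      rw [hq]
      field_simp
    have hhM : 0 < h / M := div_pos hh hMpos
    refine ⟨⌈q⌉₊, Nat.ceil_le.2 hqM, ?_⟩
    refine (hdep _ _ (h4 _ ?_ ?_)).2 h3
    · have h5 := mul_le_mul_of_nonneg_right (Nat.le_ceil q) hhM.le
      linarith
    · have h5 := mul_lt_mul_of_pos_right (Nat.ceil_lt_add_one hq0) hhM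
      have h6 : h / M ≤ ρ := by
        rw [div_le_iff₀ hρ] at hN
        rw [div_le_iff₀ hMpos]
        calc h ≤ N * ρ := hN
          _ ≤ M * ρ := mul_le_mul_of_nonneg_right hMN' hρ.le
          _ = ρ * M := mul_comm _ _
      rw [add_mul, hqh, one_mul] at h5
      linarith
  refine (measure_mono hsub).trans ?_
  have hmono : Monotone fun N : ℕ => ⋂ M ≥ N, A M := by
    intro N N' hNN x hx
    rw [Set.mem_iInter₂] at hx ⊢
    exact fun M hM' => hx M (le_trans hNN hM')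
  rw [hmono.measure_iUnion]
  refine iSup_le fun N => ?_
  refine (measure_mono ?_).trans (hAM (max N (max M0 1)) ?_ ?_)
  · intro x hx
    rw [Set.mem_iInter₂] at hx
    exact hx _ (le_max_left _ _)
  · exact (le_max_left _ _).trans (le_max_right _ _)
  · exact (le_max_right _ _).trans (le_max_right _ _)

end BGE
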