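import Pool.Agent.BGE.SoftMain
import Pool.Agent.BGE.Transfer

/-!
BGE / Z6. Almost surely there is no time at which the edge `(0,0) → (0,1)` is on arbitrarily long
geodesics staying in a cone.

Proof. For fixed `s = j h1` (`j ∈ ℕ`), `ε > 0`: the event `∃ t ∈ [s, s+h1], ∀ m, ct t ∈ Gm (2κ) r0 m`
is contained in `∃ t ∈ [s, s+h1], ct t ∈ Gm (2κ) r0 m` for the `m` of `cone_small`; by `transfer`
(mesh `h1/M ≤ η0` for large `M`) its probability is at most `ε`. Countable union over `j`.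
-/

namespace BGE

open MeasureTheory ProbabilityTheory

theorem cone_main {κ : ℝ} (hκ : 0 < κ) (hκ1 : κ ≤ 1 / 4) (hS : StaticClass κ) (r0 : ℕ) :
    ∀ᵐ x ∂(PI DI), ∀ t : ℝ, 0 ≤ t → ¬ ∀ m : ℕ, ct x t ∈ Gm (2 * κ) r0 m := by
  obtain ⟨h1, hh1, H⟩ := cone_small hκ hκ1 hS
  have key : ∀ j : ℕ, (PI DI) {x | ∃ t : ℝ, (j : ℝ) * h1 ≤ t ∧ t ≤ j * h1 + h1 ∧
      ∀ m : ℕ, ct x t ∈ Gm (2 * κ) r0 m} = 0 := by
    intro j
    refine le_antisymm (ENNReal.le_of_forall_pos_le_add fun ε hε _ => ?_) (zero_le)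
    rw [zero_add]
    obtain ⟨m, η0, hη0, hm⟩ := H r0 ε (by exact_mod_cast hε)
    obtain ⟨M0, hM0⟩ := exists_nat_ge (h1 / η0)
    have h2 := transfer (s := (j : ℝ) * h1) (h := h1) (ε := (ε : ℝ))
      (measurableSet_Gm (2 * κ) r0 m) (depOn_Gm (2 * κ) r0 m) (by positivity) hh1
      (by exact_mod_cast hε.le) (M0 := M0) (fun M hM hM1 => by
        have hMR : (0 : ℝ) < M := by exact_mod_cast hM1
        refine hm (h1 / M) M (by positivity) ?_ ?_
        · rw [div_le_iff₀ hMR]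
          rw [div_le_iff₀ hη0] at hM0
          have h3 : (M0 : ℝ) ≤ M := by exact_mod_cast hM
          nlinarith
        · rw [mul_div_cancel₀ _ hMR.ne'])
    rw [ENNReal.ofReal_coe_nnreal] at h2
    refine le_trans (measure_mono ?_) h2
    rintro x ⟨t, ht1, ht2, ht3⟩
    exact ⟨t, ht1, ht2, ht3 m⟩
  have hall : ∀ᵐ x ∂(PI DI), ∀ j : ℕ, ¬ ∃ t : ℝ, (j : ℝ) * h1 ≤ t ∧ t ≤ j * h1 + h1 ∧
      ∀ m : ℕ, ct x t ∈ Gm (2 * κ) r0 m := by
    rw [ae_all_iff]
    intro j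
    rw [ae_iff]
    simp only [not_not]
    exact key j
  filter_upwards [hall] with x hx
  intro t ht hcon
  apply hx ⌊t / h1⌋₊
  refine ⟨t, ?_, ?_, hcon⟩
  · have := Nat.floor_le (a := t / h1) (by positivity)
    rwa [le_div_iff₀ hh1] at this
  · have := (Nat.lt_floor_add_one (t / h1)).le
    rw [div_le_iff₀ hh1] at this
    linarith

end BGE
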