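import Pool.Agent.BGE.Defs2
import Pool.Agent.BGE.Base2

/-!
BGE / D0. The rotation `rot z = (-z.1, 1 - z.2)` and everything which is invariant under it.

All the statements are elementary. `T_rotE`: from `T_neg` and `T_translate` (or from paths):
`rotE ω z = (translated ω) (-z)`. `via_rotE`: unfold `Via` and use `T_rotE` three times
(`rot w` has the weight `ω (rot w) = rotE ω w`). `res_rotE`, `crE_rot`, ...: unfold.
`FLp_rot`: `FLp (rotE ω) i = T (rotE ω) PL (i,0) + T ω PR (-i,0) = FRp ω (-i)`.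
`nr_rot`: the two conditions are exchanged. `thru_rot`: `z' = rot w`, `w' = rot z`.
`goodE_of_crE`: for `z ∈ Rgn σ (40 lam n^{2/3}) n`: `|z.1| ≤ σ (n + 1/2) + 40 lam n^{2/3} ≤ 2n`
because `n^{1/3} ≥ 50 lam`, and `|z.2| ≤ n + 1 + |z.1|`, so `Rgn ⊆ Bx (4n)`; and
`lam (l+1)^{1/3} ≤ 2 lam (max l g0)^{1/3}` (as `g0 ≥ 1`).
`measurePreserving_rotE`: a product measure is invariant under permutations of the index set
(`MeasureTheory.measurePreserving_piCongrLeft` for infinite products if available, or: the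
finite-dimensional marginals agree / `Measure.infinitePi` uniqueness `eq_infinitePi`).
-/

namespace BGE

open MeasureTheory ProbabilityTheory

variable {ω ω' : ℤ × ℤ → ℝ} {u v w z : ℤ × ℤ} {κ σ lam Y g0 W a A s τ : ℝ} {n m K I r : ℕ}

theorem rot_rot (z : ℤ × ℤ) : rot (rot z) = z := by
  unfold rot
  ext
  · simp
  · simp

theorem rotE_rotE (ω : ℤ × ℤ → ℝ) : rotE (rotE ω) = ω := by
  funext z
  simp [rotE, rot_rot]

theorem rot_le : rot v ≤ rot u ↔ u ≤ v := by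
  rw [Prod.le_def, Prod.le_def]
  simp only [rot]
  constructor
  · rintro ⟨h1, h2⟩
    exact ⟨by omega, by omega⟩
  · rintro ⟨h1, h2⟩
    exact ⟨by omega, by omega⟩

theorem lev_rot (z : ℤ × ℤ) : lev (rot z) = 1 - lev z := by
  simp only [lev, rot]
  ring

theorem dev_rot (σ : ℝ) (z : ℤ × ℤ) : dev σ (rot z) = -dev σ z := by
  simp only [dev, lev_rot]
  simp only [rot]
  push_cast
  ring

theorem dl_rot (u v : ℤ × ℤ) : dl (rot v) (rot u) = dl u v := by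
  simp only [dl, lev_rot]
  push_cast
  ring

theorem muz_rot (u v : ℤ × ℤ) : muz (rot v) (rot u) = muz u v := by
  unfold muz
  congr 1
  · simp only [rot]
    push_cast
    ring
  · simp only [rot]
    push_cast
    ring

theorem cone_rot : Cone κ (rot v) (rot u) ↔ Cone κ u v := by
  unfold Cone
  rw [rot_le, dl_rot]
  have h1 : ((rot u).1 - (rot v).1 : ℤ) = v.1 - u.1 := by
    simp only [rot]
    ring
  have h2 : ((rot u).2 - (rot v).2 : ℤ) = v.2 - u.2 := by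
    simp only [rot]
    ring
  rw [h1, h2]

theorem rgn_rot : rot z ∈ Rgn σ a n ↔ z ∈ Rgn σ a n := by
  unfold Rgn
  rw [Set.mem_ofPred_eq, Set.mem_ofPred_eq, lev_rot, dev_rot, abs_neg]
  constructor
  · rintro ⟨h1, h2, h3⟩
    exact ⟨by omega, by omega, h3⟩
  · rintro ⟨h1, h2, h3⟩
    exact ⟨by omega, by omega, h3⟩

theorem bx_rot : rot z ∈ Bx m ↔ z ∈ Bx m := by
  unfold Bx
  rw [Set.mem_ofPred_eq, Set.mem_ofPred_eq]
  simp only [rot]
  constructor
  · rintro ⟨h1, h2, h3, h4⟩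
    exact ⟨by omega, by omega, by omega, by omega⟩
  · rintro ⟨h1, h2, h3, h4⟩
    exact ⟨by omega, by omega, by omega, by omega⟩

theorem T_rotE (h : u ≤ v) : T (rotE ω) u v = T ω (rot v) (rot u) := by
  have h1 : rotE ω = fun z => (fun y : ℤ × ℤ => ω (y + (0, 1))) (-z) := by
    funext z
    simp only [rotE]
    congr 1
    ext
    · simp [rot]
    · simp [rot]
      ring
  rw [h1]
  refine (T_neg (fun y : ℤ × ℤ => ω (y + (0, 1))) h).trans ?_
  rw [T_translate]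
  congr 1
  · ext
    · simp [rot]
    · simp [rot]
      ring
  · ext
    · simp [rot]
    · simp [rot]
      ring

theorem via_rotE : Via (rotE ω) u w v ↔ Via ω (rot v) (rot w) (rot u) := by
  unfold Via
  constructor
  · rintro ⟨h1, h2, h3⟩
    refine ⟨rot_le.mpr h2, rot_le.mpr h1, ?_⟩
    rw [T_rotE (h1.trans h2), T_rotE h1, T_rotE h2] at h3
    rw [h3]
    simp only [rotE]
    ring
  · rintro ⟨h1, h2, h3⟩
    have h1' : w ≤ v := rot_le.mp h1
    have h2' : u ≤ w := rot_le.mp h2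
    refine ⟨h2', h1', ?_⟩
    rw [T_rotE (h2'.trans h1'), T_rotE h2', T_rotE h1', h3]
    simp only [rotE]
    ring

theorem res_rotE (R : Set (ℤ × ℤ)) (ω : ℤ × ℤ → ℝ) :
    rotE (res R ω) = res (rot ⁻¹' R) (rotE ω) := by
  funext z
  rfl

/-- for a symmetric set -/
theorem res_rotE' {R : Set (ℤ × ℤ)} (hR : ∀ z, rot z ∈ R ↔ z ∈ R) (ω : ℤ × ℤ → ℝ) :
    rotE (res R ω) = res R (rotE ω) := by
  rw [res_rotE]
  congr 1
  ext z
  exact hR z

theorem crE_rot : CrE κ lam m (rotE ω) ↔ CrE κ lam m ω := by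
  have key : ∀ ω : ℤ × ℤ → ℝ, CrE κ lam m ω → CrE κ lam m (rotE ω) := by
    intro ω h
    refine ⟨fun z hz => h.1 (rot z) (bx_rot.mpr hz), fun p hp q hq hpq => ?_⟩
    have h2 := h.2 (rot q) (bx_rot.mpr hq) (rot p) (bx_rot.mpr hp) (rot_le.mpr hpq)
    rw [muz_rot, dl_rot, cone_rot] at h2
    rw [T_rotE hpq]
    exact h2
  constructor
  · intro h
    have := key _ h
    rwa [rotE_rotE] at this
  · exact key ω

theorem crT_rot : CrT lam m τ (rotE ω) (rotE ω') ↔ CrT lam m τ ω ω' := by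
  have key : ∀ ω ω' : ℤ × ℤ → ℝ, CrT lam m τ ω ω' → CrT lam m τ (rotE ω) (rotE ω') := by
    intro ω ω' h p hp q hq hpq
    have h2 := h (rot q) (bx_rot.mpr hq) (rot p) (bx_rot.mpr hp) (rot_le.mpr hpq)
    rw [dl_rot] at h2
    rw [T_rotE hpq, T_rotE hpq]
    exact h2
  constructor
  · intro h
    have := key _ _ h
    rwa [rotE_rotE, rotE_rotE] at this
  · exact key ω ω'

theorem fiE_rot : FiE κ σ Y g0 W n (rotE ω) ↔ FiE κ σ Y g0 W n ω := by
  have key : ∀ ω : ℤ × ℤ → ℝ, FiE κ σ Y g0 W n ω → FiE κ σ Y g0 W n (rotE ω) := by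
    intro ω h p hp q hq hpq
    have h2 := h (rot q) (rgn_rot.mpr hq) (rot p) (rgn_rot.mpr hp) (cone_rot.mpr hpq)
    rw [dl_rot, muz_rot] at h2
    rw [T_rotE hpq.1]
    exact h2
  constructor
  · intro h
    have := key _ h
    rwa [rotE_rotE] at this
  · exact key ω

theorem goodE_rot : GoodE κ σ lam Y g0 n (rotE ω) ↔ GoodE κ σ lam Y g0 n ω := by
  unfold GoodE
  rw [crE_rot, fiE_rot]

theorem crE_mono {m' : ℕ} (h : CrE κ lam m ω) (hm : m' ≤ m) : CrE κ lam m' ω := by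
  have hB : ∀ z, z ∈ Bx m' → z ∈ Bx m := by
    intro z hz
    unfold Bx at hz ⊢
    rw [Set.mem_ofPred_eq] at hz ⊢
    obtain ⟨h1, h2, h3, h4⟩ := hz
    exact ⟨by omega, by omega, by omega, by omega⟩
  exact ⟨fun z hz => h.1 z (hB z hz), fun p hp q hq => h.2 p (hB p hp) q (hB q hq)⟩

theorem goodE_mono (hl : 0 ≤ lam) (hr : r ≤ n) (h : GoodE κ σ lam Y g0 n ω) :
    GoodE κ σ lam Y g0 r ω := by
  refine ⟨crE_mono h.1 (by omega), fun p hp q hq hpq => ?_⟩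
  have hW : 40 * lam * (r : ℝ) ^ (2 / 3 : ℝ) ≤ 40 * lam * (n : ℝ) ^ (2 / 3 : ℝ) := by
    apply mul_le_mul_of_nonneg_left
    · exact Real.rpow_le_rpow (by positivity) (by exact_mod_cast hr) (by norm_num)
    · positivity
  have hR : ∀ z, z ∈ Rgn σ (40 * lam * (r : ℝ) ^ (2 / 3 : ℝ)) r →
      z ∈ Rgn σ (40 * lam * (n : ℝ) ^ (2 / 3 : ℝ)) n := by
    intro z hz
    unfold Rgn at hz ⊢
    rw [Set.mem_ofPred_eq] at hz ⊢
    obtain ⟨h1, h2, h3⟩ := hz
    exact ⟨by omega, by omega, h3.trans hW⟩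
  exact h.2 p (hR p hp) q (hR q hq) hpq

/-- crude regularity is a special case -/
theorem goodE_of_crE (h0 : 0 < σ) (h1 : σ < 1) (hl : 1 ≤ lam) (hg : 1 ≤ g0)
    (hn : 50 * lam ≤ (n : ℝ) ^ (1 / 3 : ℝ)) (h : CrE κ lam (4 * n) ω) :
    GoodE κ σ lam (2 * lam) g0 n ω := by
  refine ⟨h, fun p hp q hq hpq => ?_⟩
  have hn0 : (0 : ℝ) ≤ (n : ℝ) := Nat.cast_nonneg n
  have hn3 : ((n : ℝ) ^ (1 / 3 : ℝ)) * (n : ℝ) ^ (2 / 3 : ℝ) = n := by
    rw [← Real.rpow_add_of_nonneg hn0 (by norm_num) (by norm_num)]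
    norm_num
  have hn2 : (0 : ℝ) ≤ (n : ℝ) ^ (2 / 3 : ℝ) := Real.rpow_nonneg hn0 _
  have h50 : 50 * lam * (n : ℝ) ^ (2 / 3 : ℝ) ≤ n := by
    calc 50 * lam * (n : ℝ) ^ (2 / 3 : ℝ) ≤ (n : ℝ) ^ (1 / 3 : ℝ) * (n : ℝ) ^ (2 / 3 : ℝ) :=
          mul_le_mul_of_nonneg_right hn hn2
      _ = n := hn3
  have hn3' : (50 : ℝ) ≤ (n : ℝ) ^ (1 / 3 : ℝ) := by linarith
  have hnbig : (3 : ℝ) ≤ n := by
    by_contra hcon
    push Not at hcon
    have h1 : (n : ℝ) ^ (1 / 3 : ℝ) ≤ (3 : ℝ) ^ (1 / 3 : ℝ) :=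
      Real.rpow_le_rpow hn0 hcon.le (by norm_num)
    have h2 : (3 : ℝ) ^ (1 / 3 : ℝ) ≤ (3 : ℝ) ^ (1 : ℝ) :=
      Real.rpow_le_rpow_of_exponent_le (by norm_num) (by norm_num)
    rw [Real.rpow_one] at h2
    linarith
  have hσ1 : σ < 1 := h1
  have hR : ∀ z, z ∈ Rgn σ (40 * lam * (n : ℝ) ^ (2 / 3 : ℝ)) n → z ∈ Bx (4 * n) := by
    intro z hz
    unfold Rgn at hz
    rw [Set.mem_ofPred_eq] at hz
    obtain ⟨h1, h2, h3⟩ := hz
    unfold dev at h3
    rw [abs_le] at h3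
    have hl1 : (-(n : ℝ)) ≤ (lev z : ℝ) := by exact_mod_cast h1
    have hl2 : (lev z : ℝ) ≤ n + 1 := by exact_mod_cast h2
    have hs1 : σ * ((lev z : ℝ) - 1 / 2) ≤ n + 1 / 2 := by
      have := mul_le_mul_of_nonneg_left (show (lev z : ℝ) - 1 / 2 ≤ n + 1 / 2 by linarith) h0.le
      have h5 : σ * ((n : ℝ) + 1 / 2) ≤ 1 * ((n : ℝ) + 1 / 2) :=
        mul_le_mul_of_nonneg_right hσ1.le (by linarith)
      linarith
    have hs2 : -((n : ℝ) + 1 / 2) ≤ σ * ((lev z : ℝ) - 1 / 2) := by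
      have := mul_le_mul_of_nonneg_left (show -((n : ℝ) + 1 / 2) ≤ (lev z : ℝ) - 1 / 2 by linarith) h0.le
      nlinarith
    have hz1 : (z.1 : ℝ) ≤ 2 * n := by nlinarith [h3.1, h3.2]
    have hz2 : -(2 * (n : ℝ)) ≤ (z.1 : ℝ) := by nlinarith [h3.1, h3.2]
    have hz1' : z.1 ≤ 2 * (n : ℤ) := by exact_mod_cast hz1
    have hz2' : -(2 * (n : ℤ)) ≤ z.1 := by exact_mod_cast hz2
    have hn3z : (3 : ℤ) ≤ n := by exact_mod_cast hnbig
    unfold lev at h1 h2
    unfold Bx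
    rw [Set.mem_ofPred_eq]
    push_cast
    exact ⟨by omega, by omega, by omega, by omega⟩
  have hb := (h.2 p (hR p hp) q (hR q hq) hpq.1).2 hpq
  refine hb.trans ?_
  have hdl : 0 ≤ dl p q := by
    have := lev_le_lev hpq.1
    unfold dl
    exact_mod_cast (by omega : (0 : ℤ) ≤ lev q - lev p)
  have hm : dl p q + 1 ≤ 2 * max (dl p q) g0 := by
    have h1 := le_max_left (dl p q) g0
    have h2 := le_max_right (dl p q) g0
    linarith
  have hm0 : 0 ≤ max (dl p q) g0 := hdl.trans (le_max_left _ _)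
  have h2 : (dl p q + 1) ^ (1 / 3 : ℝ) ≤ 2 * (max (dl p q) g0) ^ (1 / 3 : ℝ) := by
    calc (dl p q + 1) ^ (1 / 3 : ℝ) ≤ (2 * max (dl p q) g0) ^ (1 / 3 : ℝ) :=
          Real.rpow_le_rpow (by linarith) hm (by norm_num)
      _ = 2 ^ (1 / 3 : ℝ) * (max (dl p q) g0) ^ (1 / 3 : ℝ) := Real.mul_rpow (by norm_num) hm0
      _ ≤ 2 * (max (dl p q) g0) ^ (1 / 3 : ℝ) := by
          apply mul_le_mul_of_nonneg_right _ (Real.rpow_nonneg hm0 _)
          calc (2 : ℝ) ^ (1 / 3 : ℝ) ≤ 2 ^ (1 : ℝ) :=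
                Real.rpow_le_rpow_of_exponent_le (by norm_num) (by norm_num)
            _ = 2 := Real.rpow_one 2
  have hl0 : 0 ≤ lam := by linarith
  calc lam * (dl p q + 1) ^ (1 / 3 : ℝ) ≤ lam * (2 * (max (dl p q) g0) ^ (1 / 3 : ℝ)) :=
        mul_le_mul_of_nonneg_left h2 hl0
    _ = 2 * lam * (max (dl p q) g0) ^ (1 / 3 : ℝ) := by ring

theorem FLp_rot (i : ℤ) : FLp σ A n (rotE ω) i = FRp σ A n ω (-i) := by
  unfold FLp FRp
  rw [rotE_rotE, neg_neg, add_comm]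

theorem FRp_rot (i : ℤ) : FRp σ A n (rotE ω) i = FLp σ A n ω (-i) := by
  unfold FLp FRp
  rw [rotE_rotE, neg_neg, add_comm]

theorem nr_rot : NR σ A n K I s (rotE ω) ↔ NR σ A n K I s ω := by
  unfold NR
  simp only [FLp_rot, FRp_rot, neg_neg]
  constructor
  · intro h i h1 h2
    exact ⟨(h i h1 h2).2, (h i h1 h2).1⟩
  · intro h i h1 h2
    exact ⟨(h i h1 h2).2, (h i h1 h2).1⟩

theorem thru_rot : Thru σ a n (rotE ω) ↔ Thru σ a n ω := by
  have key : ∀ ω : ℤ × ℤ → ℝ, Thru σ a n ω → Thru σ a n (rotE ω) := by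
    rintro ω ⟨z, w, h1, h2, h3, h4, h5, h6, h7⟩
    have r0 : rot (0, 0) = (0, 1) := by simp [rot]
    have r1 : rot (0, 1) = (0, 0) := by simp [rot]
    have hw : rot w ≤ (0, 0) := by
      rw [← r1]
      exact rot_le.mpr h6
    have hz : (0, 1) ≤ rot z := by
      rw [← r0]
      exact rot_le.mpr h5
    refine ⟨rot w, rot z, ?_, ?_, ?_, ?_, hw, hz, ?_⟩
    · rw [lev_rot]; omega
    · rw [dev_rot, abs_neg]; exact h4
    · rw [lev_rot]; omega
    · rw [dev_rot, abs_neg]; exact h2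
    · have h01 : ((0, 0) : ℤ × ℤ) ≤ (0, 1) := by
        rw [Prod.le_def]
        simp
      rw [T_rotE ((hw.trans h01).trans hz), T_rotE hw, T_rotE hz, rot_rot, rot_rot, r0, r1, h7, add_comm]
  constructor
  · intro h
    have := key _ h
    rwa [rotE_rotE] at this
  · exact key ω

theorem ans_rot : rotE ω ∈ AnS σ a n ↔ ω ∈ AnS σ a n := by
  unfold AnS
  rw [Set.mem_ofPred_eq, Set.mem_ofPred_eq, ← res_rotE' (fun z => rgn_rot), thru_rot]

theorem thru_mono {a' : ℝ} (h : Thru σ a n ω) (ha : a ≤ a') : Thru σ a' n ω := by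
  obtain ⟨z, w, h1, h2, h3, h4, h5⟩ := h
  exact ⟨z, w, h1, h2.trans ha, h3, h4.trans ha, h5⟩

theorem nr_mono {K' I' : ℕ} {s' : ℝ} (h : NR σ A n K I s ω) (hI : I' ≤ I) (hs : s ≤ s') :
    NR σ A n K I' s' ω := by
  intro i h1 h2
  have := h i h1 (by omega)
  exact ⟨this.1.trans hs, this.2.trans hs⟩

theorem measurePreserving_rotE : MeasurePreserving rotE (PI (ℤ × ℤ)) (PI (ℤ × ℤ)) := by
  have hm : Measurable rotE := by
    unfold rotE
    fun_prop
  refine ⟨hm, ?_⟩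
  unfold PI
  refine Measure.eq_infinitePi _ fun s t ht => ?_
  have hinj : Function.Injective rot := fun a b hab => by
    rw [← rot_rot a, hab, rot_rot]
  rw [Measure.map_apply hm (.pi s.countable_toSet fun _ _ => ht _)]
  have h1 : rotE ⁻¹' ((s : Set (ℤ × ℤ)).pi t) =
      ((s.map ⟨rot, hinj⟩ : Finset (ℤ × ℤ)) : Set (ℤ × ℤ)).pi (fun j => t (rot j)) := by
    ext x
    simp only [Set.mem_preimage, Set.mem_pi, Finset.coe_map, Function.Embedding.coeFn_mk,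
      Set.mem_image, Finset.mem_coe, rotE]
    constructor
    · rintro h _ ⟨i, hi, rfl⟩
      rw [rot_rot]
      exact h i hi
    · intro h i hi
      have := h (rot i) ⟨i, hi, rfl⟩
      rwa [rot_rot] at this
  rw [h1, Measure.infinitePi_pi _ (fun i _ => ht _), Finset.prod_map]
  simp [rot_rot]

end BGE
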