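import Pool.Agent.BGE.NearMain
import Pool.Agent.BGE.ConeMain
import Pool.Agent.BGE.Rot

/-!
BGE / Z7. No bigeodesics at any time, given the static classes.

`big_det` (deterministic): let `ω ≥ 0` and let `x` be a bigeodesic which is neither vertical nor
horizontal. Suppose that `¬ RayBad (ω ∘ φ)` for all the transformations `φ` of the following four
families (all `c ∈ ℤ × ℤ`): `z ↦ z + c`, `z ↦ z.swap + c`, `z ↦ rot z + c`, `z ↦ (rot z).swap + c`.
Then there are `c`, `k ≥ 4`, `r0` such that for all `m`: `(fun z => ω (z + c)) ∈ Gm (2/k) r0 m`.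
Proof. There is a vertical step, from `c = pt x a` to `c + (0,1)`, and a horizontal step, from
`c' = pt x a'` to `c' + (1,0)`. After translation by `c`, the upper part of the path is a geodesic
ray from the origin starting with the vertical edge, so (`RayBad` for `z ↦ z + c`) there are `δ > 0`,
`l0` with `l - x l > δ l` for `l ≥ l0` (coordinates relative to `c`). Using the horizontal step and
`z ↦ z.swap + c'`: `x l > δ' l` for large `l` (relative to `c'`). So relative to `c` both coordinates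
are `≥ δ'' l` for large `l`. The same for the lower part, by rotation: the reversed path seen through
`z ↦ rot z + c` is a ray from the origin (which is mapped to `(0,1) + c`), starting with the vertical
edge: `rot (0,0) = (0,1)`, `rot (0,1) = (0,0)`; for the horizontal step use
`z ↦ (rot z).swap + c'`. Hence with `2/k ≤ δ''` and `r0` large all the conditions of `Gm` hold for
`l ↦ x (l + lev c) - c.1`, which passes `(0,0)` and `(0,1)` at the levels `0` and `1`.

`no_big`: for the continuous time dynamics: `near_main` and `cone_main` (`κ = 1/k`, `k ≥ 4`, all `r0`),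
applied to the countably many transformations (`ae_trn`, `ct_trn`).
-/

namespace BGE

open MeasureTheory ProbabilityTheory

private theorem bf_wt_up {ω ω' : ℤ × ℤ → ℝ} {x y : ℤ → ℤ} {a : ℤ}
    (h : ∀ l, ω' (pt y l) = ω (pt x (l + a))) (A B : ℤ) :
    wt ω' y A B = wt ω x (A + a) (B + a) := by
  unfold wt
  refine Finset.sum_nbij' (fun l => l + a) (fun l => l - a) ?_ ?_ ?_ ?_ ?_
  · intro l hl; rw [Finset.mem_Icc] at *; omega
  · intro l hl; rw [Finset.mem_Icc] at *; omega
  · intro l _; ring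
  · intro l _; ring
  · intro l _; exact h l

private theorem bf_wt_down {ω ω' : ℤ × ℤ → ℝ} {x y : ℤ → ℤ} {b : ℤ}
    (h : ∀ l, ω' (pt y l) = ω (pt x (b - l))) (A B : ℤ) :
    wt ω' y A B = wt ω x (b - B) (b - A) := by
  unfold wt
  refine Finset.sum_nbij' (fun l => b - l) (fun l => b - l) ?_ ?_ ?_ ?_ ?_
  · intro l hl; rw [Finset.mem_Icc] at *; omega
  · intro l hl; rw [Finset.mem_Icc] at *; omega
  · intro l _; ring
  · intro l _; ring
  · intro l _; exact h l

private theorem bf_ray {ω : ℤ × ℤ → ℝ} (hn : ¬ RayBad ω) {y : ℤ → ℤ}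
    (hst : ∀ l, 0 ≤ l → y (l + 1) = y l ∨ y (l + 1) = y l + 1) (h0 : y 0 = 0) (h1 : y 1 = 0)
    (hg : ∀ l, 0 ≤ l → wt ω y 0 l = T ω (0, 0) (pt y l)) :
    ∃ δ : ℝ, 0 < δ ∧ ∃ l0 : ℤ, ∀ l, l0 ≤ l → δ * l < ((l - y l : ℤ) : ℝ) := by
  by_contra hcon
  apply hn
  refine ⟨y, hst, h0, h1, hg, fun δ hδ l0 => ?_⟩
  by_contra hc
  apply hcon
  refine ⟨δ, hδ, l0, fun l hl => ?_⟩
  by_contra hlt
  exact hc ⟨l, hl, not_lt.1 hlt⟩

/-- a lower bound which is affine gives a linear one -/
private theorem bf_affine {f : ℤ → ℝ} {δ C : ℝ} (hδ : 0 < δ) {l0 : ℤ}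
    (h : ∀ l, l0 ≤ l → δ * l + C ≤ f l) :
    ∃ δ' : ℝ, 0 < δ' ∧ ∃ R : ℤ, ∀ l, R ≤ l → δ' * l ≤ f l := by
  refine ⟨δ / 2, half_pos hδ, max l0 ⌈2 * |C| / δ⌉, fun l hl => ?_⟩
  have h1 := h l ((le_max_left _ _).trans hl)
  have h2 : (⌈2 * |C| / δ⌉ : ℝ) ≤ l := by
    exact_mod_cast (le_max_right l0 ⌈2 * |C| / δ⌉).trans hl
  have h3 : 2 * |C| / δ ≤ l := (Int.le_ceil _).trans h2
  rw [div_le_iff₀ hδ] at h3
  have h4 := neg_abs_le C
  linarith

theorem big_det {ω : ℤ × ℤ → ℝ} (hω : ∀ z, 0 ≤ ω z) {x : ℤ → ℤ} (hx : BiG ω x)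
    (hv : ¬ ∀ l, x (l + 1) = x l) (hh : ¬ ∀ l, x (l + 1) = x l + 1)
    (h1 : ∀ c : ℤ × ℤ, ¬ RayBad (fun z => ω (z + c)))
    (h2 : ∀ c : ℤ × ℤ, ¬ RayBad (fun z => ω (z.swap + c)))
    (h3 : ∀ c : ℤ × ℤ, ¬ RayBad (fun z => ω (rot z + c)))
    (h4 : ∀ c : ℤ × ℤ, ¬ RayBad (fun z => ω ((rot z).swap + c))) :
    ∃ (c : ℤ × ℤ) (k r0 : ℕ), 4 ≤ k ∧ ∀ m : ℕ,
      (fun z => ω (z + c)) ∈ Gm (2 * (1 / (k : ℝ))) r0 m := by
  have _ := hω
  obtain ⟨hst, hgeo⟩ := hx
  -- the two steps
  obtain ⟨a, ha⟩ : ∃ a, x (a + 1) = x a := by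
    by_contra hcon
    exact hh fun l => (hst l).resolve_left fun h => hcon ⟨l, h⟩
  obtain ⟨b, hb⟩ : ∃ b, x (b + 1) = x b + 1 := by
    by_contra hcon
    exact hv fun l => (hst l).resolve_right fun h => hcon ⟨l, h⟩
  -- first family
  have f1 : ∃ δ : ℝ, 0 < δ ∧ ∃ R : ℤ, ∀ l, R ≤ l →
      δ * l ≤ ((l - (x (l + a) - x a) : ℤ) : ℝ) := by
    obtain ⟨δ, hδ, l0, hl0⟩ := bf_ray (h1 (pt x a)) (y := fun l => x (l + a) - x a)
      (fun l _ => by
        have := hst (l + a)
        have e : l + 1 + a = l + a + 1 := by ring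
        simp only [e]
        omega) (by simp) (by
        have e : 1 + a = a + 1 := by ring
        simp only [e, ha, sub_self])
      (fun l hl => by
        rw [bf_wt_up (x := x) (ω := ω) (a := a) (fun l => by
          simp only [pt, Prod.mk_add_mk]
          congr 1
          ext
          · simp
          · simp; ring) 0 l, T_translate, zero_add, hgeo a (l + a) (by omega)]
        congr 1
        · simp
        · simp only [pt, Prod.mk_add_mk]
          ext
          · simp
          · simp; ring)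
    exact ⟨δ, hδ, l0, fun l hl => (hl0 l hl).le⟩
  -- second family
  have f2 : ∃ δ : ℝ, 0 < δ ∧ ∃ R : ℤ, ∀ l, R ≤ l →
      δ * l ≤ ((x (l + a) - x a : ℤ) : ℝ) := by
    obtain ⟨δ, hδ, l0, hl0⟩ := bf_ray (h2 (pt x b)) (y := fun l => l - (x (l + b) - x b))
      (fun l _ => by
        have := hst (l + b)
        have e : l + 1 + b = l + b + 1 := by ring
        simp only [e]
        omega) (by simp) (by
        have e : 1 + b = b + 1 := by ring
        simp only [e, hb]
        ring)
      (fun l hl => by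
        have e1 : ∀ u v : ℤ × ℤ, T (fun z : ℤ × ℤ => ω (z.swap + pt x b)) u v =
            T (fun z => ω (z + pt x b)) u.swap v.swap := T_swap (fun z => ω (z + pt x b))
        rw [bf_wt_up (x := x) (ω := ω) (a := b) (fun l => by
          simp only [pt, Prod.swap_prod_mk, Prod.mk_add_mk]
          congr 1
          ext
          · simp
          · simp; ring) 0 l, e1, T_translate, zero_add, hgeo b (l + b) (by omega)]
        congr 1
        · simp
        · simp only [pt, Prod.swap_prod_mk, Prod.mk_add_mk]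
          ext
          · simp
          · simp; ring)
    refine bf_affine (l0 := l0 + b - a) (C := δ * (a - b) + ((x b - x a : ℤ) : ℝ)) hδ fun l hl => ?_
    have h5 := hl0 (l + a - b) (by omega)
    have e : l + a - b + b = l + a := by ring
    simp only [e] at h5
    push_cast at h5 ⊢
    linarith
  -- third family
  have f3 : ∃ δ : ℝ, 0 < δ ∧ ∃ R : ℤ, ∀ l, R ≤ l →
      δ * l ≤ ((-(-l - (x (-l + a) - x a)) : ℤ) : ℝ) := by
    obtain ⟨δ, hδ, l0, hl0⟩ := bf_ray (h3 (pt x a)) (y := fun l => -(x (a + 1 - l) - x a))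
      (fun l _ => by
        have := hst (a - l)
        have e : a + 1 - (l + 1) = a - l := by ring
        have e' : a + 1 - l = a - l + 1 := by ring
        simp only [e, e']
        omega) (by simp [ha]) (by
        have e : a + 1 - 1 = a := by ring
        simp only [e]
        ring)
      (fun l hl => by
        have e1 : (fun z : ℤ × ℤ => ω (rot z + pt x a)) = rotE (fun z => ω (z + pt x a)) := rfl
        have hle : ((0, 0) : ℤ × ℤ) ≤ pt (fun l => -(x (a + 1 - l) - x a)) l := by
          have hUR : UR (fun l => -(x (a + 1 - l) - x a)) 0 l := by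
            intro l' _ _
            have := hst (a - l')
            have e : a + 1 - (l' + 1) = a - l' := by ring
            have e' : a + 1 - l' = a - l' + 1 := by ring
            simp only [e, e']
            omega
          have := pt_le_pt hUR le_rfl hl le_rfl
          simpa [pt, ha] using this
        rw [bf_wt_down (x := x) (ω := ω) (b := a + 1) (fun l => by
          simp only [pt, rot, Prod.mk_add_mk]
          congr 1
          ext
          · simp
          · simp; ring) 0 l, e1, T_rotE hle, T_translate, sub_zero,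
          hgeo (a + 1 - l) (a + 1) (by omega)]
        congr 1
        · simp only [pt, rot, Prod.mk_add_mk]
          ext
          · simp
          · simp; ring
        · simp only [pt, rot, Prod.mk_add_mk]
          ext
          · simp [ha]
          · simp [ha]; ring)
    refine bf_affine (l0 := l0 - 1) (C := δ - 1) hδ fun l hl => ?_
    have h5 := hl0 (l + 1) (by omega)
    have e : a + 1 - (l + 1) = -l + a := by ring
    simp only [e] at h5
    push_cast at h5 ⊢
    linarith
  -- fourth family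
  have f4 : ∃ δ : ℝ, 0 < δ ∧ ∃ R : ℤ, ∀ l, R ≤ l →
      δ * l ≤ ((-(x (-l + a) - x a) : ℤ) : ℝ) := by
    obtain ⟨δ, hδ, l0, hl0⟩ := bf_ray (h4 (pt x b)) (y := fun l => x (b + 1 - l) - x b - 1 + l)
      (fun l _ => by
        have := hst (b - l)
        have e : b + 1 - (l + 1) = b - l := by ring
        have e' : b + 1 - l = b - l + 1 := by ring
        simp only [e, e']
        omega) (by simp [hb]) (by
        have e : b + 1 - 1 = b := by ring
        simp only [e]
        ring)
      (fun l hl => by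
        have e1 : ∀ u v : ℤ × ℤ, u ≤ v → T (fun z : ℤ × ℤ => ω ((rot z).swap + pt x b)) u v =
            T (fun z => ω (z + pt x b)) (rot v).swap (rot u).swap := fun u v huv =>
          (T_rotE (ω := fun z : ℤ × ℤ => ω (z.swap + pt x b)) huv).trans
            (T_swap (fun z => ω (z + pt x b)) _ _)
        have hle : ((0, 0) : ℤ × ℤ) ≤ pt (fun l => x (b + 1 - l) - x b - 1 + l) l := by
          have hUR : UR (fun l => x (b + 1 - l) - x b - 1 + l) 0 l := by
            intro l' _ _
            have := hst (b - l')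
            have e : b + 1 - (l' + 1) = b - l' := by ring
            have e' : b + 1 - l' = b - l' + 1 := by ring
            simp only [e, e']
            omega
          have := pt_le_pt hUR le_rfl hl le_rfl
          simpa [pt, hb] using this
        rw [bf_wt_down (x := x) (ω := ω) (b := b + 1) (fun l => by
          simp only [pt, rot, Prod.swap_prod_mk, Prod.mk_add_mk]
          congr 1
          ext
          · simp
          · simp; ring) 0 l, e1 _ _ hle, T_translate, sub_zero,
          hgeo (b + 1 - l) (b + 1) (by omega)]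
        congr 1
        · simp only [pt, rot, Prod.swap_prod_mk, Prod.mk_add_mk]
          ext
          · simp
          · simp; ring
        · simp only [pt, rot, Prod.swap_prod_mk, Prod.mk_add_mk]
          ext
          · simp [hb]; ring
          · simp [hb])
    refine bf_affine (l0 := l0 + a - b - 1)
      (C := δ * (b + 1 - a) - 1 + ((x a - x b : ℤ) : ℝ)) hδ fun l hl => ?_
    have h5 := hl0 (l + b + 1 - a) (by omega)
    have e : b + 1 - (l + b + 1 - a) = -l + a := by ring
    simp only [e] at h5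
    push_cast at h5 ⊢
    linarith
  obtain ⟨δ1, hδ1, R1, g1⟩ := f1
  obtain ⟨δ2, hδ2, R2, g2⟩ := f2
  obtain ⟨δ3, hδ3, R3, g3⟩ := f3
  obtain ⟨δ4, hδ4, R4, g4⟩ := f4
  set δ : ℝ := min (min δ1 δ2) (min δ3 δ4) with hδdef
  have hδ : 0 < δ := lt_min (lt_min hδ1 hδ2) (lt_min hδ3 hδ4)
  obtain ⟨k, hk⟩ := exists_nat_ge (2 / δ)
  set k' : ℕ := k + 4 with hk'
  set r0 : ℕ := (max (max R1 R2) (max R3 R4)).toNat with hr0
  have hkδ : 2 * (1 / (k' : ℝ)) ≤ δ := by
    have hk0 : (0 : ℝ) < k' := by rw [hk']; positivity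
    rw [mul_one_div, div_le_iff₀ hk0]
    rw [div_le_iff₀ hδ] at hk
    have : (k : ℝ) ≤ k' := by rw [hk']; push_cast; linarith
    nlinarith
  refine ⟨pt x a, k', r0, by omega, fun m => ?_⟩
  have hstep : ∀ l, x (l + 1 + a) = x (l + a) ∨ x (l + 1 + a) = x (l + a) + 1 := by
    intro l
    have e : l + 1 + a = l + a + 1 := by ring
    rw [e]
    exact hst (l + a)
  have hbd : ∀ l : ℤ, (r0 : ℤ) ≤ l → 0 ≤ l ∧ R1 ≤ l ∧ R2 ≤ l ∧ R3 ≤ l ∧ R4 ≤ l := by
    intro l hl
    have h5 : max (max R1 R2) (max R3 R4) ≤ (r0 : ℤ) := Int.self_le_toNat _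
    have h6 := (le_max_left R1 R2).trans (le_max_left _ (max R3 R4))
    have h7 := (le_max_right R1 R2).trans (le_max_left _ (max R3 R4))
    have h8 := (le_max_left R3 R4).trans (le_max_right (max R1 R2) _)
    have h9 := (le_max_right R3 R4).trans (le_max_right (max R1 R2) _)
    refine ⟨by omega, by omega, by omega, by omega, by omega⟩
  have hlin : ∀ {δ' : ℝ} {l : ℤ}, δ ≤ δ' → 0 ≤ l → 2 * (1 / (k' : ℝ)) * l ≤ δ' * l := by
    intro δ' l h5 h6
    have h7 : (0 : ℝ) ≤ l := by exact_mod_cast h6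
    exact mul_le_mul_of_nonneg_right (hkδ.trans h5) h7
  have hm1 : δ ≤ δ1 := (min_le_left _ _).trans (min_le_left _ _)
  have hm2 : δ ≤ δ2 := (min_le_left _ _).trans (min_le_right _ _)
  have hm3 : δ ≤ δ3 := (min_le_right _ _).trans (min_le_left _ _)
  have hm4 : δ ≤ δ4 := (min_le_right _ _).trans (min_le_right _ _)
  refine ⟨fun l => x (l + a) - x a, ?_, ?_, ?_, ?_, ?_, ?_⟩
  · intro l _ _
    have := hstep l
    simp only
    omega
  · simp
  · have e : 1 + a = a + 1 := by ring
    simp only [e, ha, sub_self]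
  · rw [bf_wt_up (x := x) (ω := ω) (a := a) (fun l => by
      simp only [pt, Prod.mk_add_mk]
      congr 1
      ext
      · simp
      · simp; ring), T_translate, hgeo _ _ (by omega)]
    congr 1
    · simp only [pt, Prod.mk_add_mk]
      ext
      · simp
      · simp; ring
    · simp only [pt, Prod.mk_add_mk]
      ext
      · simp
      · simp; ring
  · intro l hl _
    obtain ⟨hl0, hR1, hR2, -, -⟩ := hbd l hl
    exact ⟨(hlin hm2 hl0).trans (g2 l hR2), (hlin hm1 hl0).trans (g1 l hR1)⟩
  · intro l hl _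
    obtain ⟨hl0, -, -, hR3, hR4⟩ := hbd (-l) hl
    have h5 := (hlin hm4 hl0).trans (g4 (-l) hR4)
    have h6 := (hlin hm3 hl0).trans (g3 (-l) hR3)
    simp only [neg_neg] at h5 h6
    push_cast at h5 h6 ⊢
    exact ⟨h5, h6⟩

theorem no_big (hS : ∀ k : ℕ, 4 ≤ k → StaticClass (1 / (k : ℝ))) :
    ∀ᵐ x ∂(PI DI), ∀ t : ℝ, 0 ≤ t → ∀ γ : ℤ → ℤ, BiG (ct x t) γ →
      (∀ l, γ (l + 1) = γ l) ∨ (∀ l, γ (l + 1) = γ l + 1) := by
  have i1 : ∀ c : ℤ × ℤ, Function.Injective (fun z : ℤ × ℤ => z + c) :=
    fun c => add_left_injective c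
  have irot : Function.Injective rot := fun a b h => by
    rw [← rot_rot a, h, rot_rot]
  have i2 : ∀ c : ℤ × ℤ, Function.Injective (fun z : ℤ × ℤ => z.swap + c) :=
    fun c => (i1 c).comp Prod.swap_injective
  have i3 : ∀ c : ℤ × ℤ, Function.Injective (fun z : ℤ × ℤ => rot z + c) :=
    fun c => (i1 c).comp irot
  have i4 : ∀ c : ℤ × ℤ, Function.Injective (fun z : ℤ × ℤ => (rot z).swap + c) :=
    fun c => (i2 c).comp irot
  have hC : ∀ᵐ x ∂(PI DI), ∀ k : ℕ, 4 ≤ k → ∀ r0 : ℕ, ∀ t : ℝ, 0 ≤ t →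
      ¬ ∀ m : ℕ, ct x t ∈ Gm (2 * (1 / (k : ℝ))) r0 m := by
    rw [ae_all_iff]
    intro k
    by_cases hk : 4 ≤ k
    · have hk4 : (4 : ℝ) ≤ k := by exact_mod_cast hk
      have h5 : ∀ r0 : ℕ, ∀ᵐ x ∂(PI DI), ∀ t : ℝ, 0 ≤ t →
          ¬ ∀ m : ℕ, ct x t ∈ Gm (2 * (1 / (k : ℝ))) r0 m := fun r0 =>
        cone_main (by positivity) (one_div_le_one_div_of_le (by norm_num) hk4) (hS k hk) r0
      filter_upwards [ae_all_iff.2 h5] with x hx _
      exact hx
    · exact Filter.Eventually.of_forall fun x h => absurd h hk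
  filter_upwards [ae_trn near_main (fun c : ℤ × ℤ => fun z => z + c) i1,
    ae_trn near_main (fun c : ℤ × ℤ => fun z => z.swap + c) i2,
    ae_trn near_main (fun c : ℤ × ℤ => fun z => rot z + c) i3,
    ae_trn near_main (fun c : ℤ × ℤ => fun z => (rot z).swap + c) i4,
    ae_trn hC (fun c : ℤ × ℤ => fun z => z + c) i1, ae_ct_nonneg] with x n1 n2 n3 n4 nC nn
  intro t ht γ hγ
  by_contra hcon
  push Not at hcon
  obtain ⟨hv, hh⟩ := hcon
  obtain ⟨c, k, r0, hk, hm⟩ := big_det (ω := ct x t) (nn t) hγ (fun h => by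
      obtain ⟨l, hl⟩ := hv; exact hl (h l)) (fun h => by
      obtain ⟨l, hl⟩ := hh; exact hl (h l))
    (fun c => by have := n1 c t ht; rwa [ct_trn] at this)
    (fun c => by have := n2 c t ht; rwa [ct_trn] at this)
    (fun c => by have := n3 c t ht; rwa [ct_trn] at this)
    (fun c => by have := n4 c t ht; rwa [ct_trn] at this)
  apply nC c k hk r0 t ht
  intro m
  rw [ct_trn]
  exact hm m

end BGE
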