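import Pool.Agent.BGE.MgfS

/-!
BGE / C2. Lower tail with enlarged boundary weights.

`big_low`: for `0 < t`, `a = ρ - t/2 > 0`, `b = 1 - ρ - t/2 > 0`:
`P(bl a b (m, n) ≤ m/ρ + n/(1 - ρ) - z) ≤ e^{-t z}`.

Proof. By the change of the law of the W weights from rate `b` to rate `1 - a`
(`b e^{-b x} = (b/(1-a)) e^{(1 - a - b) x} (1-a) e^{-(1-a) x}`, `1 - a - b = t`)
`E e^{-t bl a b (m, n)} = (b/(1-a))^n E e^{t ∑_{j ≤ n} W_j/(1-a)} e^{-t bl a (1-a) (m, n)}
 = (b/(1-a))^n E e^{-t (L (m, n) - L (0, n))} = (b/(1-a))^n (a/(a + t))^m`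
by `stat_row`. Here `b/(1-a) = (1 - ρ - t/2)/(1 - ρ + t/2)` and `a/(a+t) = (ρ - t/2)/(ρ + t/2)`, and
`log ((1 - x)/(1 + x)) ≤ -2x` for `0 ≤ x < 1`, so the expectation is at most
`exp (-t (n/(1-ρ) + m/ρ))`. Markov's inequality.
-/

namespace BGE

open MeasureTheory ProbabilityTheory
open scoped ENNReal

/-- the density of one exponential law with respect to another one -/
theorem exp_withDensity {b c : ℝ} (hb : 0 < b) (hc : 0 < c) :
    (expMeasure c).withDensity (fun y => ENNReal.ofReal (b / c * Real.exp ((c - b) * y))) =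
      expMeasure b := by
  have hm : ∀ r, Measurable (exponentialPDF r) := fun r =>
    (measurable_exponentialPDFReal r).ennreal_ofReal
  have h1 : ∀ r, expMeasure r = volume.withDensity (exponentialPDF r) := fun _ => rfl
  rw [h1 b, h1 c, ← withDensity_mul _ (hm c) (by fun_prop)]
  congr 1
  ext y
  simp only [Pi.mul_apply, exponentialPDF_eq]
  split_ifs with h
  · rw [← ENNReal.ofReal_mul (by positivity)]
    congr 1
    have h3 : -(b * y) = -(c * y) + (c - b) * y := by ring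
    rw [h3, Real.exp_add]
    field_simp
  · simp

theorem pi_exp_withDensity {b c : ℝ} (hb : 0 < b) (hc : 0 < c) (n : ℕ) :
    (Measure.pi fun _ : Fin n => expMeasure c).withDensity
      (fun y => ∏ j, ENNReal.ofReal (b / c * Real.exp ((c - b) * y j))) =
      Measure.pi fun _ : Fin n => expMeasure b := by
  have := isProbabilityMeasure_expMeasure hb
  have := isProbabilityMeasure_expMeasure hc
  symm
  refine Measure.pi_eq fun s hs => ?_
  have hms : MeasurableSet (Set.univ.pi s) := MeasurableSet.univ_pi hs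
  rw [withDensity_apply _ hms, ← lintegral_indicator hms]
  have h1 : ∀ y : Fin n → ℝ, (Set.univ.pi s).indicator
      (fun y => ∏ j, ENNReal.ofReal (b / c * Real.exp ((c - b) * y j))) y =
      ∏ j, (s j).indicator (fun y => ENNReal.ofReal (b / c * Real.exp ((c - b) * y))) (y j) := by
    intro y
    by_cases h : y ∈ Set.univ.pi s
    · rw [Set.indicator_of_mem h]
      refine Finset.prod_congr rfl fun j _ => ?_
      rw [Set.indicator_of_mem (h j trivial)]
    · rw [Set.indicator_of_notMem h]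
      simp only [Set.mem_pi, Set.mem_univ, forall_const, not_forall] at h
      obtain ⟨j, hj⟩ := h
      symm
      refine Finset.prod_eq_zero (Finset.mem_univ j) ?_
      rw [Set.indicator_of_notMem hj]
  simp only [h1]
  rw [lintegral_pi_prod (fun _ : Fin n => expMeasure c)
    (fun j => (s j).indicator (fun y => ENNReal.ofReal (b / c * Real.exp ((c - b) * y))))
    (fun j => Measurable.indicator (by fun_prop) (hs j))]
  refine Finset.prod_congr rfl fun j _ => ?_
  rw [lintegral_indicator (hs j), ← withDensity_apply _ (hs j), exp_withDensity hb hc]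

theorem map_fin_div {b : ℝ} (hb : 0 < b) (n : ℕ) :
    (PI ℕ).map (fun y (j : Fin n) => y ((j : ℕ) + 1) / b) =
      Measure.pi fun _ : Fin n => expMeasure b := by
  have := isProbabilityMeasure_expMeasure hb
  have h1 : (fun (y : ℕ → ℝ) (j : Fin n) => y ((j : ℕ) + 1) / b) =
      (fun (y : Fin n → ℝ) j => y j / b) ∘ (fun (y : ℕ → ℝ) (j : Fin n) => y ((j : ℕ) + 1)) := rfl
  rw [h1, ← Measure.map_map (by fun_prop) (by fun_prop)]
  unfold PI
  rw [infinitePi_reindex (fun _ : ℕ => E1) (fun j : Fin n => (j : ℕ) + 1)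
    (fun i j h => Fin.ext (by simpa using h)),
    Measure.infinitePi_map_pi (μ := fun _ : Fin n => E1) (f := fun _ y => y / b)
      (fun k => by fun_prop), ← Measure.infinitePi_eq_pi]
  congr 1
  ext1 k
  exact map_div_E1 hb

/-- change of the rate of the W weights -/
theorem rate_change {b c : ℝ} (hb : 0 < b) (hc : 0 < c) (n : ℕ) (H : (Fin n → ℝ) → ℝ≥0∞)
    (hH : Measurable H) :
    ∫⁻ y, H (fun j => y ((j : ℕ) + 1) / b) ∂(PI ℕ) =
      ∫⁻ y, ENNReal.ofReal ((b / c) ^ n) *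
        ENNReal.ofReal (Real.exp ((c - b) * ∑ j ∈ Finset.Icc 1 n, y j / c)) *
        H (fun j => y ((j : ℕ) + 1) / c) ∂(PI ℕ) := by
  have h1 : ∀ y : ℕ → ℝ, ENNReal.ofReal ((b / c) ^ n) *
        ENNReal.ofReal (Real.exp ((c - b) * ∑ j ∈ Finset.Icc 1 n, y j / c)) =
      ∏ j : Fin n, ENNReal.ofReal (b / c * Real.exp ((c - b) * (y ((j : ℕ) + 1) / c))) := by
    intro y
    have h2 : ∑ j ∈ Finset.Icc 1 n, y j / c = ∑ j : Fin n, y ((j : ℕ) + 1) / c := by
      rw [Fin.sum_univ_eq_sum_range (fun j => y (j + 1) / c), Finset.range_eq_Ico,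
        Finset.sum_Ico_add' (fun j => y j / c) 0 n 1]
      rfl
    rw [h2, Finset.mul_sum, ofReal_exp_sum]
    have h3 : ENNReal.ofReal ((b / c) ^ n) = ∏ _j : Fin n, ENNReal.ofReal (b / c) := by
      rw [Finset.prod_const, Finset.card_univ, Fintype.card_fin, ENNReal.ofReal_pow (by positivity)]
    rw [h3, ← Finset.prod_mul_distrib]
    refine Finset.prod_congr rfl fun j _ => ?_
    rw [← ENNReal.ofReal_mul (by positivity)]
  simp only [h1]
  have h4 : Measurable (fun (y : ℕ → ℝ) (j : Fin n) => y ((j : ℕ) + 1) / b) := by fun_prop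
  have h5 : Measurable (fun (y : ℕ → ℝ) (j : Fin n) => y ((j : ℕ) + 1) / c) := by fun_prop
  rw [← lintegral_map hH h4, map_fin_div hb, ← pi_exp_withDensity hb hc,
    lintegral_withDensity_eq_lintegral_mul _ (by fun_prop) hH, ← map_fin_div hc,
    lintegral_map (by fun_prop) h5]
  rfl

/-- `T` for a boundary field with finitely many W weights -/
noncomputable def padW (n : ℕ) (c : Fin n → ℝ) (j : ℕ) : ℝ :=
  if h : 1 ≤ j ∧ j ≤ n then c ⟨j - 1, by omega⟩ else 0

theorem measurable_padW (n : ℕ) : Measurable (padW n) := by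
  refine measurable_pi_iff.2 fun j => ?_
  unfold padW
  by_cases h : 1 ≤ j ∧ j ≤ n
  · simp only [dif_pos h]
    fun_prop
  · simp only [dif_neg h]
    fun_prop

theorem T_padW (ω : ℤ × ℤ → ℝ) (S W : ℕ → ℝ) (m n : ℕ) :
    T (bfield ω S W 0) 0 ((m : ℤ), (n : ℤ)) =
      T (bfield ω S (padW n fun j => W ((j : ℕ) + 1)) 0) 0 ((m : ℤ), (n : ℤ)) := by
  refine T_congr (by rw [Prod.le_def]; simp) fun z hz1 hz2 => ?_
  rw [Prod.le_def] at hz1 hz2
  simp only [Prod.fst_zero, Prod.snd_zero] at hz1 hz2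
  unfold bfield padW
  simp only [Prod.fst_zero, Prod.snd_zero, sub_zero]
  by_cases h1 : z.2 = 0
  · simp only [h1, if_true]
  · by_cases h2 : z.1 = 0
    · have h3 : 1 ≤ z.2.toNat ∧ z.2.toNat ≤ n := by omega
      simp only [h1, h2, if_true, if_false]
      rw [dif_pos h3]
      congr 1
      omega
    · simp only [h1, h2, if_false]

theorem measurable_bfieldT (v : ℤ × ℤ) :
    Measurable (fun p : (ℤ × ℤ → ℝ) × (ℕ → ℝ) × (ℕ → ℝ) => T (bfield p.1 p.2.1 p.2.2 0) 0 v) := by
  refine (measurable_T 0 v).comp (measurable_pi_iff.2 fun z => ?_)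
  unfold bfield
  by_cases h1 : z.2 = (0 : ℤ × ℤ).2
  · by_cases h2 : z.1 = (0 : ℤ × ℤ).1
    · simp only [h1, h2, if_true]
      exact measurable_const
    · simp only [h1, if_true, h2, if_false]
      exact (measurable_pi_apply _).comp (measurable_fst.comp measurable_snd)
  · by_cases h2 : z.1 = (0 : ℤ × ℤ).1
    · simp only [h1, h2, if_true, if_false]
      exact (measurable_pi_apply _).comp (measurable_snd.comp measurable_snd)
    · simp only [h1, h2, if_false]
      exact (measurable_pi_apply _).comp measurable_fst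

theorem lint_big {a t : ℝ} (ha : 0 < a) (ht : 0 < t) (hb : 0 < 1 - a - t) (m n : ℕ) :
    ∫⁻ x, ENNReal.ofReal (Real.exp (-t * bl a (1 - a - t) x ((m : ℤ), (n : ℤ)))) ∂muSW =
      ENNReal.ofReal (((1 - a - t) / (1 - a)) ^ n) * ENNReal.ofReal (a / (a + t)) ^ m := by
  have hc : 0 < 1 - a := by linarith
  have ha1 : a < 1 := by linarith
  have h0 := lint_row ha ha1 (show -t < a by linarith) m n
  rw [sub_neg_eq_add] at h0
  rw [← h0, ← lintegral_const_mul _ (by
    have h1 := measurable_Lb a m n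
    have h2 := measurable_Lb a 0 n
    fun_prop)]
  have hm1 : Measurable (fun x : SW =>
      ENNReal.ofReal (Real.exp (-t * bl a (1 - a - t) x ((m : ℤ), (n : ℤ))))) := by
    have := measurable_bl a (1 - a - t) ((m : ℤ), (n : ℤ))
    fun_prop
  have hm2 : Measurable (fun x : SW => ENNReal.ofReal (((1 - a - t) / (1 - a)) ^ n) *
      ENNReal.ofReal (Real.exp (-t * (Lb a x m n - Lb a x 0 n)))) := by
    have h1 := measurable_Lb a m n
    have h2 := measurable_Lb a 0 n
    fun_prop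
  unfold muSW
  rw [lintegral_prod _ hm1.aemeasurable, lintegral_prod _ hm2.aemeasurable]
  refine lintegral_congr fun ω => ?_
  have hmω : Measurable fun p : (ℕ → ℝ) × (ℕ → ℝ) => ((ω, p) : SW) := by fun_prop
  rw [lintegral_prod (fun p : (ℕ → ℝ) × (ℕ → ℝ) =>
      ENNReal.ofReal (Real.exp (-t * bl a (1 - a - t) (ω, p) ((m : ℤ), (n : ℤ)))))
      (hm1.comp hmω).aemeasurable,
    lintegral_prod (fun p : (ℕ → ℝ) × (ℕ → ℝ) => ENNReal.ofReal (((1 - a - t) / (1 - a)) ^ n) *
      ENNReal.ofReal (Real.exp (-t * (Lb a (ω, p) m n - Lb a (ω, p) 0 n))))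
      (hm2.comp hmω).aemeasurable]
  refine lintegral_congr fun s => ?_
  have hm3 : Measurable (fun c : Fin n → ℝ => ENNReal.ofReal (Real.exp (-t *
      T (bfield ω (fun i => s i / a) (padW n c) 0) 0 ((m : ℤ), (n : ℤ))))) := by
    have h1 : Measurable (fun c : Fin n → ℝ =>
        T (bfield ω (fun i => s i / a) (padW n c) 0) 0 ((m : ℤ), (n : ℤ))) :=
      (measurable_bfieldT ((m : ℤ), (n : ℤ))).comp
        (measurable_const.prodMk (measurable_const.prodMk (measurable_padW n)))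
    fun_prop
  have h3 := rate_change hb hc n _ hm3
  have h4 : ∀ y : ℕ → ℝ, bl a (1 - a - t) (ω, s, y) ((m : ℤ), (n : ℤ)) =
      T (bfield ω (fun i => s i / a) (padW n fun j => y ((j : ℕ) + 1) / (1 - a - t)) 0) 0
        ((m : ℤ), (n : ℤ)) := by
    intro y
    unfold bl
    rw [T_padW]
  have h5 : ∀ y : ℕ → ℝ, Lb a (ω, s, y) m n =
      T (bfield ω (fun i => s i / a) (padW n fun j => y ((j : ℕ) + 1) / (1 - a)) 0) 0
        ((m : ℤ), (n : ℤ)) := by
    intro y
    unfold Lb bl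
    rw [T_padW]
  simp only [h4, h3]
  refine lintegral_congr fun y => ?_
  rw [h5, Lb_col, mul_assoc, ← ENNReal.ofReal_mul (Real.exp_pos _).le, ← Real.exp_add]
  congr 3
  ring

theorem frac_le_exp {x : ℝ} (h0 : 0 ≤ x) (h1 : x < 1) : (1 - x) / (1 + x) ≤ Real.exp (-(2 * x)) := by
  have h2 := Real.hasSum_log_sub_log_of_abs_lt_one (x := x) (by rw [abs_of_nonneg h0]; exact h1)
  have h3 := le_hasSum h2 0 (fun k _ => by positivity)
  simp only [CharP.cast_eq_zero, mul_zero, zero_add, pow_one, div_one, mul_one] at h3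
  have h4 : Real.log ((1 - x) / (1 + x)) ≤ -(2 * x) := by
    rw [Real.log_div (by linarith) (by linarith)]
    linarith
  rw [← Real.log_le_iff_le_exp (div_pos (by linarith) (by linarith))]
  exact h4

set_option linter.unusedVariables false in
theorem big_low {ρ t : ℝ} (ht : 0 < t) (h1 : t / 2 < ρ) (h2 : t / 2 < 1 - ρ) (m n : ℕ)
    (hm : 1 ≤ m) (hn : 1 ≤ n) (z : ℝ) :
    muSW.real {x : SW | bl (ρ - t / 2) (1 - ρ - t / 2) x ((m : ℤ), (n : ℤ)) ≤
      m / ρ + n / (1 - ρ) - z} ≤ Real.exp (-(t * z)) := by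
  have hρ : 0 < ρ := by linarith
  have hρ' : 0 < 1 - ρ := by linarith
  have h3 := lint_big (a := ρ - t / 2) (by linarith) ht (by linarith) m n
  have e1 : 1 - (ρ - t / 2) - t = 1 - ρ - t / 2 := by ring
  have e2 : 1 - (ρ - t / 2) = 1 - ρ + t / 2 := by ring
  have e3 : ρ - t / 2 + t = ρ + t / 2 := by ring
  rw [e1, e2, e3] at h3
  have f1 : (1 - ρ - t / 2) / (1 - ρ + t / 2) ≤ Real.exp (-(t / (1 - ρ))) := by
    have h4 := frac_le_exp (x := t / (2 * (1 - ρ))) (by positivity)
      ((div_lt_one (by positivity)).2 (by linarith))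
    have h5 : (1 - t / (2 * (1 - ρ))) / (1 + t / (2 * (1 - ρ))) =
        (1 - ρ - t / 2) / (1 - ρ + t / 2) := by
      have : 1 - ρ + t / 2 ≠ 0 := by positivity
      have h6 : 1 + t / (2 * (1 - ρ)) = (1 - ρ + t / 2) / (1 - ρ) := by field_simp
      have h7 : 1 - t / (2 * (1 - ρ)) = (1 - ρ - t / 2) / (1 - ρ) := by field_simp
      rw [h6, h7]
      field_simp
    have h8 : 2 * (t / (2 * (1 - ρ))) = t / (1 - ρ) := by field_simp
    rw [h5, h8] at h4
    exact h4
  have f2 : (ρ - t / 2) / (ρ + t / 2) ≤ Real.exp (-(t / ρ)) := by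
    have h4 := frac_le_exp (x := t / (2 * ρ)) (by positivity)
      ((div_lt_one (by positivity)).2 (by linarith))
    have h5 : (1 - t / (2 * ρ)) / (1 + t / (2 * ρ)) = (ρ - t / 2) / (ρ + t / 2) := by
      have : ρ + t / 2 ≠ 0 := by positivity
      have h6 : 1 + t / (2 * ρ) = (ρ + t / 2) / ρ := by field_simp
      have h7 : 1 - t / (2 * ρ) = (ρ - t / 2) / ρ := by field_simp
      rw [h6, h7]
      field_simp
    have h8 : 2 * (t / (2 * ρ)) = t / ρ := by field_simp
    rw [h5, h8] at h4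
    exact h4
  have g1 : 0 ≤ (1 - ρ - t / 2) / (1 - ρ + t / 2) := div_nonneg (by linarith) (by linarith)
  have g2 : 0 ≤ (ρ - t / 2) / (ρ + t / 2) := div_nonneg (by linarith) (by linarith)
  have h6 : ∫⁻ x, ENNReal.ofReal (Real.exp (-t * bl (ρ - t / 2) (1 - ρ - t / 2) x
      ((m : ℤ), (n : ℤ)))) ∂muSW ≤ ENNReal.ofReal (Real.exp (-(t * (m / ρ + n / (1 - ρ))))) := by
    rw [h3, ← ENNReal.ofReal_pow g2, ← ENNReal.ofReal_mul (by positivity)]
    refine ENNReal.ofReal_le_ofReal ?_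
    calc ((1 - ρ - t / 2) / (1 - ρ + t / 2)) ^ n * ((ρ - t / 2) / (ρ + t / 2)) ^ m
        ≤ Real.exp (-(t / (1 - ρ))) ^ n * Real.exp (-(t / ρ)) ^ m :=
          mul_le_mul (pow_le_pow_left₀ g1 f1 n) (pow_le_pow_left₀ g2 f2 m) (by positivity)
            (by positivity)
      _ = Real.exp (-(t * (m / ρ + n / (1 - ρ)))) := by
          rw [← Real.exp_nat_mul, ← Real.exp_nat_mul, ← Real.exp_add]
          congr 1
          ring
  have hm1 : Measurable (fun x : SW =>
      ENNReal.ofReal (Real.exp (-t * bl (ρ - t / 2) (1 - ρ - t / 2) x ((m : ℤ), (n : ℤ))))) := by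
    have := measurable_bl (ρ - t / 2) (1 - ρ - t / 2) ((m : ℤ), (n : ℤ))
    fun_prop
  have h7 := (mul_meas_ge_le_lintegral (μ := muSW) hm1
    (ENNReal.ofReal (Real.exp (-t * (m / ρ + n / (1 - ρ) - z))))).trans h6
  have h8 : {x : SW | bl (ρ - t / 2) (1 - ρ - t / 2) x ((m : ℤ), (n : ℤ)) ≤
      m / ρ + n / (1 - ρ) - z} ⊆ {x : SW | ENNReal.ofReal (Real.exp (-t *
        (m / ρ + n / (1 - ρ) - z))) ≤
        ENNReal.ofReal (Real.exp (-t * bl (ρ - t / 2) (1 - ρ - t / 2) x ((m : ℤ), (n : ℤ))))} := by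
    intro x hx
    refine ENNReal.ofReal_le_ofReal (Real.exp_le_exp.2 ?_)
    exact mul_le_mul_of_nonpos_left hx (by linarith)
  have h9 : muSW {x : SW | bl (ρ - t / 2) (1 - ρ - t / 2) x ((m : ℤ), (n : ℤ)) ≤
      m / ρ + n / (1 - ρ) - z} ≤ ENNReal.ofReal (Real.exp (-(t * z))) := by
    have h10 : ENNReal.ofReal (Real.exp (t * (m / ρ + n / (1 - ρ) - z))) *
        ENNReal.ofReal (Real.exp (-t * (m / ρ + n / (1 - ρ) - z))) = 1 := by
      rw [← ENNReal.ofReal_mul (Real.exp_pos _).le, ← Real.exp_add]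
      have : t * (m / ρ + n / (1 - ρ) - z) + -t * (m / ρ + n / (1 - ρ) - z) = 0 := by ring
      rw [this]
      simp
    calc _ ≤ muSW {x : SW | ENNReal.ofReal (Real.exp (-t * (m / ρ + n / (1 - ρ) - z))) ≤
          ENNReal.ofReal (Real.exp (-t * bl (ρ - t / 2) (1 - ρ - t / 2) x
            ((m : ℤ), (n : ℤ))))} := measure_mono h8
      _ = ENNReal.ofReal (Real.exp (t * (m / ρ + n / (1 - ρ) - z))) *
          (ENNReal.ofReal (Real.exp (-t * (m / ρ + n / (1 - ρ) - z))) *
          muSW {x : SW | ENNReal.ofReal (Real.exp (-t * (m / ρ + n / (1 - ρ) - z))) ≤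
          ENNReal.ofReal (Real.exp (-t * bl (ρ - t / 2) (1 - ρ - t / 2) x
            ((m : ℤ), (n : ℤ))))}) := by rw [← mul_assoc, h10, one_mul]
      _ ≤ ENNReal.ofReal (Real.exp (t * (m / ρ + n / (1 - ρ) - z))) *
          ENNReal.ofReal (Real.exp (-(t * (m / ρ + n / (1 - ρ))))) := mul_le_mul_right h7 _
      _ = ENNReal.ofReal (Real.exp (-(t * z))) := by
          rw [← ENNReal.ofReal_mul (Real.exp_pos _).le, ← Real.exp_add]
          congr 2
          ring
  rw [measureReal_def]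
  exact ENNReal.toReal_le_of_le_ofReal (Real.exp_pos _).le h9

end BGE
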