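import Pool.Agent.BGE.StatRow

/-!
BGE / C1, C2. Exponential moments of the passage times with boundary.

`mgfS`: for `0 < θ < a < 1`, `w < m`, `1 ≤ n`:
`P(∃ k, w < k ≤ m, z ≤ ∑_{w < i ≤ k} S_i / a + T ω (k, 1) (m, n))
   ≤ ((1 - a + θ)/(1 - a))^n (a/(a - θ))^(m - w) e^{-θ z}`.

Proof. Replacing the S weights by `S_{w + i}` and translating the bulk we may assume `w = 0`
(with `m` replaced by `m - w`). Let `V` be the maximum over `1 ≤ k ≤ m` of
`∑_{i ≤ k} S_i / a + T ω (k, 1) (m, n)`; it is a function of the S weights and of the bulk only.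
Take also W weights of rate `1 - a`. Then `L = bl a (1 - a)` satisfies `V ≤ L (m, n)`
(`exitS_le`), and `L (m, n) - L (0, n) = L (m, n) - ∑_{j ≤ n} W_j / (1 - a)` is the sum of the `m`
increments of the row `n`, which are i.i.d. `Exp(a)` by `stat_row`. As `V` is independent of the W
weights,
`E e^{θ V} · E e^{-θ ∑ W_j/(1-a)} = E e^{θ (V - L (0, n))} ≤ E e^{θ (L (m, n) - L (0, n))}`,
i.e. `E e^{θ V} ((1 - a)/(1 - a + θ))^n ≤ (a/(a - θ))^m`. Markov's inequality finishes.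
(For an exponential variable of rate `ρ`: `E e^{s X} = ρ/(ρ - s)` for `s < ρ`.)

-/

namespace BGE

open MeasureTheory ProbabilityTheory
open scoped ENNReal

/-- exponential moments of the exponential law -/
theorem lintegral_exp_expMeasure {r s : ℝ} (hr : 0 < r) (hs : s < r) :
    ∫⁻ y, ENNReal.ofReal (Real.exp (s * y)) ∂(expMeasure r) = ENNReal.ofReal (r / (r - s)) := by
  have h1 : expMeasure r = volume.withDensity (exponentialPDF r) := rfl
  have hm : ∀ r, Measurable (exponentialPDF r) := fun r =>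
    (measurable_exponentialPDFReal r).ennreal_ofReal
  have h0 : 0 < r - s := by linarith
  rw [h1, lintegral_withDensity_eq_lintegral_mul _ (hm r) (by fun_prop)]
  have h2 : ∀ y, (exponentialPDF r * fun y => ENNReal.ofReal (Real.exp (s * y))) y =
      ENNReal.ofReal (r / (r - s)) * exponentialPDF (r - s) y := by
    intro y
    simp only [Pi.mul_apply, exponentialPDF_eq]
    split_ifs with h
    · rw [← ENNReal.ofReal_mul (by positivity), ← ENNReal.ofReal_mul (by positivity)]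
      congr 1
      rw [mul_assoc, ← Real.exp_add]
      have h3 : -(r * y) + s * y = -((r - s) * y) := by ring
      rw [h3]
      field_simp
    · simp
  simp only [h2]
  rw [lintegral_const_mul _ (hm _), lintegral_exponentialPDF_eq_one h0, mul_one]

theorem lintegral_infinitePi_prod {ι X : Type*} [MeasurableSpace X] (μ : ι → Measure X)
    [∀ i, IsProbabilityMeasure (μ i)] (s : Finset ι) (f : ι → X → ℝ≥0∞)
    (hf : ∀ i, Measurable (f i)) :
    ∫⁻ x, ∏ i ∈ s, f i (x i) ∂(Measure.infinitePi μ) = ∏ i ∈ s, ∫⁻ y, f i y ∂(μ i) := by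
  rw [lintegral_prod_eq_prod_lintegral_of_indepFun s (fun i (x : ι → X) => f i (x i))
    (iIndepFun_infinitePi hf) (fun i => (hf i).comp (measurable_pi_apply i))]
  refine Finset.prod_congr rfl fun i _ => ?_
  rw [← Measure.infinitePi_map_eval μ i, lintegral_map (hf i) (measurable_pi_apply i)]

theorem lintegral_pi_prod {ι X : Type*} [Fintype ι] [MeasurableSpace X] (μ : ι → Measure X)
    [∀ i, IsProbabilityMeasure (μ i)] (f : ι → X → ℝ≥0∞)
    (hf : ∀ i, Measurable (f i)) :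
    ∫⁻ x, ∏ i, f i (x i) ∂(Measure.pi μ) = ∏ i, ∫⁻ y, f i y ∂(μ i) := by
  rw [← Measure.infinitePi_eq_pi]
  exact lintegral_infinitePi_prod μ Finset.univ f hf

theorem ofReal_exp_sum {ι : Type*} (s : Finset ι) (g : ι → ℝ) :
    ENNReal.ofReal (Real.exp (∑ i ∈ s, g i)) = ∏ i ∈ s, ENNReal.ofReal (Real.exp (g i)) := by
  rw [Real.exp_sum, ENNReal.ofReal_prod_of_nonneg fun i _ => (Real.exp_pos _).le]

theorem lint_split (F : (ℤ × ℤ → ℝ) × (ℕ → ℝ) → ℝ≥0∞) (hF : Measurable F) (G : (ℕ → ℝ) → ℝ≥0∞)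
    (hG : Measurable G) :
    ∫⁻ x, F (x.1, x.2.1) * G x.2.2 ∂muSW = (∫⁻ x, F (x.1, x.2.1) ∂muSW) * ∫⁻ y, G y ∂(PI ℕ) := by
  have key : ∀ G : (ℕ → ℝ) → ℝ≥0∞, Measurable G → ∫⁻ x, F (x.1, x.2.1) * G x.2.2 ∂muSW =
      (∫⁻ ω, ∫⁻ s, F (ω, s) ∂(PI ℕ) ∂(PI (ℤ × ℤ))) * ∫⁻ y, G y ∂(PI ℕ) := by
    intro G hG
    unfold muSW
    rw [lintegral_prod _ (by fun_prop)]
    have h1 : ∀ ω : ℤ × ℤ → ℝ, ∫⁻ p : (ℕ → ℝ) × (ℕ → ℝ), F (ω, p.1) * G p.2 ∂((PI ℕ).prod (PI ℕ)) =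
        (∫⁻ s, F (ω, s) ∂(PI ℕ)) * ∫⁻ y, G y ∂(PI ℕ) := by
      intro ω
      exact lintegral_prod_mul (f := fun s => F (ω, s)) (by fun_prop) hG.aemeasurable
    simp only [h1]
    rw [lintegral_mul_const]
    exact hF.lintegral_prod_right'
  rw [key G hG]
  have h2 := key (fun _ => 1) measurable_const
  simp only [mul_one, lintegral_const, measure_univ] at h2
  rw [h2]

/-- the integral over the S side increments -/
theorem lint_row {a θ : ℝ} (ha : 0 < a) (ha1 : a < 1) (hθ : θ < a) (m n : ℕ) :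
    ∫⁻ x, ENNReal.ofReal (Real.exp (θ * (Lb a x m n - Lb a x 0 n))) ∂muSW =
      ENNReal.ofReal (a / (a - θ)) ^ m := by
  have := isProbabilityMeasure_expMeasure ha
  have h1 : ∀ x : SW, ENNReal.ofReal (Real.exp (θ * (Lb a x m n - Lb a x 0 n))) =
      (fun y : Fin m → ℝ => ∏ i, ENNReal.ofReal (Real.exp (θ * y i)))
      ((fun (x : SW) (i : Fin m) =>
      bl a (1 - a) x ((i : ℤ) + 1, (n : ℤ)) - bl a (1 - a) x ((i : ℤ), (n : ℤ))) x) := by
    intro x
    simp only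
    rw [← ofReal_exp_sum, ← Finset.mul_sum, Fin.sum_univ_eq_sum_range (fun i =>
      bl a (1 - a) x ((i : ℤ) + 1, (n : ℤ)) - bl a (1 - a) x ((i : ℤ), (n : ℤ)))]
    have h2 := Finset.sum_range_sub (fun i => Lb a x i n) m
    unfold Lb at h2 ⊢
    rw [← h2]
    push_cast
    rfl
  have hm : Measurable (fun (x : SW) (i : Fin m) =>
      bl a (1 - a) x ((i : ℤ) + 1, (n : ℤ)) - bl a (1 - a) x ((i : ℤ), (n : ℤ))) :=
    measurable_pi_iff.2 fun i => (measurable_bl _ _ _).sub (measurable_bl _ _ _)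
  simp only [h1]
  rw [← lintegral_map (f := fun y : Fin m → ℝ => ∏ i, ENNReal.ofReal (Real.exp (θ * y i)))
    (by fun_prop) hm, stat_row ha ha1 m n,
    lintegral_pi_prod (fun _ : Fin m => expMeasure a) (fun _ y => ENNReal.ofReal (Real.exp (θ * y)))
      (fun _ => by fun_prop)]
  simp only [lintegral_exp_expMeasure ha hθ, Finset.prod_const, Finset.card_univ, Fintype.card_fin]

theorem lint_col {b s : ℝ} (hb : 0 < b) (hs : s < b) (n : ℕ) :
    ∫⁻ y, ENNReal.ofReal (Real.exp (s * ∑ j ∈ Finset.Icc 1 n, y j / b)) ∂(PI ℕ) =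
      ENNReal.ofReal (b / (b - s)) ^ n := by
  have h1 : ∀ y : ℕ → ℝ, ENNReal.ofReal (Real.exp (s * ∑ j ∈ Finset.Icc 1 n, y j / b)) =
      ∏ j ∈ Finset.Icc 1 n, ENNReal.ofReal (Real.exp ((s / b) * y j)) := by
    intro y
    rw [Finset.mul_sum, ofReal_exp_sum]
    refine Finset.prod_congr rfl fun j _ => ?_
    congr 2
    ring
  simp only [h1]
  unfold PI
  rw [lintegral_infinitePi_prod (fun _ : ℕ => E1) (Finset.Icc 1 n)
    (fun _ y => ENNReal.ofReal (Real.exp ((s / b) * y))) (fun _ => by fun_prop)]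
  have h2 : s / b < 1 := (div_lt_one hb).2 hs
  have h3 : (1 : ℝ) / (1 - s / b) = b / (b - s) := by
    have : b - s ≠ 0 := by linarith
    field_simp
  unfold E1
  simp only [lintegral_exp_expMeasure one_pos h2, Finset.prod_const, h3]
  simp

/-- the best S exit -/
noncomputable def VS (a : ℝ) (m n : ℕ) (hm : (Finset.Icc 1 m).Nonempty)
    (p : (ℤ × ℤ → ℝ) × (ℕ → ℝ)) : ℝ :=
  (Finset.Icc 1 m).sup' hm fun k => (∑ i ∈ Finset.Icc 1 k, p.2 i / a) +
    T p.1 ((k : ℤ), 1) ((m : ℤ), (n : ℤ))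

theorem measurable_VS (a : ℝ) (m n : ℕ) (hm : (Finset.Icc 1 m).Nonempty) :
    Measurable (VS a m n hm) := by
  have h : VS a m n hm = (Finset.Icc 1 m).sup' hm (fun (k : ℕ) (p : (ℤ × ℤ → ℝ) × (ℕ → ℝ)) =>
      (∑ i ∈ Finset.Icc 1 k, p.2 i / a) + T p.1 ((k : ℤ), 1) ((m : ℤ), (n : ℤ))) := by
    ext p
    rw [Finset.sup'_apply]
    rfl
  rw [h]
  refine Finset.measurable_sup' hm fun k _ => ?_
  exact Measurable.add (by fun_prop) ((measurable_T _ _).comp measurable_fst)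

theorem VS_le (a : ℝ) {m n : ℕ} (hm : (Finset.Icc 1 m).Nonempty) (hn : 1 ≤ n) (x : SW) :
    VS a m n hm (x.1, x.2.1) ≤ Lb a x m n := by
  unfold VS
  refine Finset.sup'_le hm _ fun k hk => ?_
  rw [Finset.mem_Icc] at hk
  have h := exitS_le (ω := x.1) (S := fun i => x.2.1 i / a) (W := fun j => x.2.2 j / (1 - a))
    (c := 0) (v := ((m : ℤ), (n : ℤ))) (by simp only [Prod.snd_zero]; omega) k hk.1
    (by simp only [Prod.fst_zero]; omega)
  simp only [Prod.fst_zero, Prod.snd_zero, zero_add] at h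
  exact h

theorem lint_VS {a θ : ℝ} (hθ : 0 < θ) (hθa : θ < a) (ha1 : a < 1) {m n : ℕ}
    (hm : (Finset.Icc 1 m).Nonempty) (hn : 1 ≤ n) :
    ∫⁻ x, ENNReal.ofReal (Real.exp (θ * VS a m n hm (x.1, x.2.1))) ∂muSW ≤
      ENNReal.ofReal (((1 - a + θ) / (1 - a)) ^ n * (a / (a - θ)) ^ m) := by
  have ha : 0 < a := hθ.trans hθa
  have hb : 0 < 1 - a := by linarith
  have hVm := measurable_VS a m n hm
  have h1 := lint_split (fun p => ENNReal.ofReal (Real.exp (θ * VS a m n hm p))) (by fun_prop)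
    (fun y => ENNReal.ofReal (Real.exp (-θ * ∑ j ∈ Finset.Icc 1 n, y j / (1 - a)))) (by fun_prop)
  rw [lint_col hb (by linarith) n] at h1
  have h2 : ∫⁻ x : SW, ENNReal.ofReal (Real.exp (θ * VS a m n hm (x.1, x.2.1))) *
      ENNReal.ofReal (Real.exp (-θ * ∑ j ∈ Finset.Icc 1 n, x.2.2 j / (1 - a))) ∂muSW ≤
      ∫⁻ x, ENNReal.ofReal (Real.exp (θ * (Lb a x m n - Lb a x 0 n))) ∂muSW := by
    refine lintegral_mono fun x => ?_
    rw [← ENNReal.ofReal_mul (Real.exp_pos _).le, ← Real.exp_add, ← Lb_col]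
    refine ENNReal.ofReal_le_ofReal (Real.exp_le_exp.2 ?_)
    have h3 := VS_le a hm hn x
    nlinarith
  rw [h1, lint_row ha ha1 hθa m n] at h2
  have h3 : ENNReal.ofReal (((1 - a + θ) / (1 - a)) ^ n * (a / (a - θ)) ^ m) =
      ENNReal.ofReal (a / (a - θ)) ^ m * ENNReal.ofReal (((1 - a + θ) / (1 - a))) ^ n := by
    have h4 : 0 < (1 - a + θ) / (1 - a) := by positivity
    have h5 : 0 < a / (a - θ) := div_pos ha (by linarith)
    rw [ENNReal.ofReal_mul (by positivity), ENNReal.ofReal_pow h4.le, ENNReal.ofReal_pow h5.le,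
      mul_comm]
  rw [h3]
  have h6 : ENNReal.ofReal ((1 - a) / (1 - a - -θ)) ^ n *
      ENNReal.ofReal (((1 - a + θ) / (1 - a))) ^ n = 1 := by
    rw [← mul_pow, ← ENNReal.ofReal_mul (by
      refine div_nonneg hb.le (by linarith))]
    have h7 : (1 - a) / (1 - a - -θ) * ((1 - a + θ) / (1 - a)) = 1 := by
      have : 1 - a + θ ≠ 0 := by positivity
      rw [sub_neg_eq_add]
      field_simp
    rw [h7]
    simp
  calc ∫⁻ x, ENNReal.ofReal (Real.exp (θ * VS a m n hm (x.1, x.2.1))) ∂muSW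
      = (∫⁻ x, ENNReal.ofReal (Real.exp (θ * VS a m n hm (x.1, x.2.1))) ∂muSW) *
        (ENNReal.ofReal ((1 - a) / (1 - a - -θ)) ^ n *
          ENNReal.ofReal (((1 - a + θ) / (1 - a))) ^ n) := by rw [h6, mul_one]
    _ = ((∫⁻ x, ENNReal.ofReal (Real.exp (θ * VS a m n hm (x.1, x.2.1))) ∂muSW) *
        ENNReal.ofReal ((1 - a) / (1 - a - -θ)) ^ n) *
          ENNReal.ofReal (((1 - a + θ) / (1 - a))) ^ n := by rw [mul_assoc]
    _ ≤ _ := mul_le_mul_left h2 _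

theorem mgfS_zero {a θ : ℝ} (hθ : 0 < θ) (hθa : θ < a) (ha1 : a < 1) (m n : ℕ) (hm : 0 < m)
    (hn : 1 ≤ n) (z : ℝ) :
    muSW {x : SW | ∃ k : ℕ, 1 ≤ k ∧ k ≤ m ∧
      z ≤ (∑ i ∈ Finset.Icc 1 k, x.2.1 i / a) + T x.1 ((k : ℤ), 1) ((m : ℤ), (n : ℤ))} ≤
      ENNReal.ofReal (((1 - a + θ) / (1 - a)) ^ n * (a / (a - θ)) ^ m * Real.exp (-(θ * z))) := by
  have hne : (Finset.Icc 1 m).Nonempty := ⟨1, Finset.mem_Icc.2 ⟨le_rfl, hm⟩⟩
  have ha : 0 < a := hθ.trans hθa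
  have h1 := lint_VS hθ hθa ha1 hne hn
  have h2 : {x : SW | ∃ k : ℕ, 1 ≤ k ∧ k ≤ m ∧
      z ≤ (∑ i ∈ Finset.Icc 1 k, x.2.1 i / a) + T x.1 ((k : ℤ), 1) ((m : ℤ), (n : ℤ))} ⊆
      {x : SW | ENNReal.ofReal (Real.exp (θ * z)) ≤
        ENNReal.ofReal (Real.exp (θ * VS a m n hne (x.1, x.2.1)))} := by
    rintro x ⟨k, hk1, hk2, hk3⟩
    refine ENNReal.ofReal_le_ofReal (Real.exp_le_exp.2 (mul_le_mul_of_nonneg_left ?_ hθ.le))
    refine hk3.trans ?_
    unfold VS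
    exact Finset.le_sup' (fun k => (∑ i ∈ Finset.Icc 1 k, x.2.1 i / a) +
      T x.1 ((k : ℤ), 1) ((m : ℤ), (n : ℤ))) (Finset.mem_Icc.2 ⟨hk1, hk2⟩)
  have hVm := measurable_VS a m n hne
  have h3 := mul_meas_ge_le_lintegral (μ := muSW)
    (f := fun x : SW => ENNReal.ofReal (Real.exp (θ * VS a m n hne (x.1, x.2.1)))) (by fun_prop)
    (ENNReal.ofReal (Real.exp (θ * z)))
  have h4 := (measure_mono h2 : muSW _ ≤ _)
  have h5 : ENNReal.ofReal (Real.exp (-(θ * z))) * ENNReal.ofReal (Real.exp (θ * z)) = 1 := by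
    rw [← ENNReal.ofReal_mul (Real.exp_pos _).le, ← Real.exp_add]
    simp
  have h6 : 0 < (1 - a + θ) / (1 - a) := by
    have : 0 < 1 - a := by linarith
    positivity
  have h7 : 0 < a / (a - θ) := div_pos ha (by linarith)
  rw [ENNReal.ofReal_mul (by positivity)]
  calc muSW {x : SW | ∃ k : ℕ, 1 ≤ k ∧ k ≤ m ∧
      z ≤ (∑ i ∈ Finset.Icc 1 k, x.2.1 i / a) + T x.1 ((k : ℤ), 1) ((m : ℤ), (n : ℤ))}
      ≤ muSW {x : SW | ENNReal.ofReal (Real.exp (θ * z)) ≤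
        ENNReal.ofReal (Real.exp (θ * VS a m n hne (x.1, x.2.1)))} := h4
    _ = ENNReal.ofReal (Real.exp (-(θ * z))) * (ENNReal.ofReal (Real.exp (θ * z)) *
        muSW {x : SW | ENNReal.ofReal (Real.exp (θ * z)) ≤
        ENNReal.ofReal (Real.exp (θ * VS a m n hne (x.1, x.2.1)))}) := by
        rw [← mul_assoc, h5, one_mul]
    _ ≤ ENNReal.ofReal (Real.exp (-(θ * z))) *
        ENNReal.ofReal (((1 - a + θ) / (1 - a)) ^ n * (a / (a - θ)) ^ m) :=
        mul_le_mul_right (h3.trans h1) _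
    _ = _ := mul_comm _ _

/-- translation of the S side and of the bulk -/
def shiftB (w : ℕ) (x : SW) : SW :=
  (fun v => x.1 (v + ((w : ℤ), 0)), fun i => x.2.1 (i + w), x.2.2)

theorem map_shiftB (w : ℕ) : MeasurePreserving (shiftB w) muSW muSW := by
  have h1 : MeasurePreserving (fun (x : ℤ × ℤ → ℝ) (v : ℤ × ℤ) => x (v + ((w : ℤ), 0)))
      (PI (ℤ × ℤ)) (PI (ℤ × ℤ)) :=
    ⟨by fun_prop, infinitePi_reindex (fun _ => E1) (fun v : ℤ × ℤ => v + ((w : ℤ), 0))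
      (fun a b h => by simpa using h)⟩
  have h2 : MeasurePreserving (fun (x : ℕ → ℝ) (i : ℕ) => x (i + w)) (PI ℕ) (PI ℕ) :=
    ⟨by fun_prop, infinitePi_reindex (fun _ => E1) (fun i : ℕ => i + w)
      (fun a b h => by simpa using h)⟩
  have h3 := h1.prod (h2.prod (MeasurePreserving.id (PI ℕ)))
  exact h3

theorem mgfS {a θ : ℝ} (hθ : 0 < θ) (hθa : θ < a) (ha1 : a < 1) (m n w : ℕ) (hw : w < m)
    (hn : 1 ≤ n) (z : ℝ) :
    muSW.real {x : SW | ∃ k : ℕ, w < k ∧ k ≤ m ∧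
      z ≤ (∑ i ∈ Finset.Ioc w k, x.2.1 i / a) + T x.1 ((k : ℤ), 1) ((m : ℤ), (n : ℤ))} ≤
      ((1 - a + θ) / (1 - a)) ^ n * (a / (a - θ)) ^ (m - w) * Real.exp (-(θ * z)) := by
  have ha : 0 < a := hθ.trans hθa
  have h1 := mgfS_zero hθ hθa ha1 (m - w) n (by omega) hn z
  set A : Set SW := {x : SW | ∃ k : ℕ, 1 ≤ k ∧ k ≤ m - w ∧
      z ≤ (∑ i ∈ Finset.Icc 1 k, x.2.1 i / a) +
        T x.1 ((k : ℤ), 1) (((m - w : ℕ) : ℤ), (n : ℤ))} with hA
  have h2 : {x : SW | ∃ k : ℕ, w < k ∧ k ≤ m ∧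
      z ≤ (∑ i ∈ Finset.Ioc w k, x.2.1 i / a) + T x.1 ((k : ℤ), 1) ((m : ℤ), (n : ℤ))} =
      shiftB w ⁻¹' A := by
    have key : ∀ (x : SW) (k : ℕ), (∑ i ∈ Finset.Icc 1 k, (shiftB w x).2.1 i / a) +
        T (shiftB w x).1 ((k : ℤ), 1) (((m - w : ℕ) : ℤ), (n : ℤ)) =
        (∑ i ∈ Finset.Ioc w (k + w), x.2.1 i / a) +
          T x.1 (((k + w : ℕ) : ℤ), 1) ((m : ℤ), (n : ℤ)) := by
      intro x k
      congr 1
      · simp only [shiftB]
        rw [← Finset.sum_image (f := fun i => x.2.1 i / a) (s := Finset.Icc 1 k)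
          (g := fun i => i + w) (fun i _ j _ h => by simpa using h)]
        congr 1
        ext i
        simp only [Finset.mem_image, Finset.mem_Icc, Finset.mem_Ioc]
        constructor
        · rintro ⟨j, hj, rfl⟩
          omega
        · intro hi
          exact ⟨i - w, by omega, by omega⟩
      · simp only [shiftB]
        rw [T_translate]
        have h5 : ((m - w : ℕ) : ℤ) + w = m := by omega
        have h6 : (((k : ℤ), 1) : ℤ × ℤ) + ((w : ℤ), 0) = (((k + w : ℕ) : ℤ), 1) := by simp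
        have h7 : ((((m - w : ℕ) : ℤ), (n : ℤ)) : ℤ × ℤ) + ((w : ℤ), 0) = ((m : ℤ), (n : ℤ)) := by
          rw [Prod.mk_add_mk, h5, add_zero]
        rw [h6, h7]
    ext x
    simp only [Set.mem_ofPred_eq, Set.mem_preimage, hA]
    constructor
    · rintro ⟨k, hk1, hk2, hk3⟩
      refine ⟨k - w, by omega, by omega, ?_⟩
      rw [key x (k - w), Nat.sub_add_cancel hk1.le]
      exact hk3
    · rintro ⟨k, hk1, hk2, hk3⟩
      rw [key x k] at hk3
      exact ⟨k + w, by omega, by omega, hk3⟩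
  have hAm : MeasurableSet A := by
    have h3 : A = ⋃ k ∈ Finset.Icc 1 (m - w), {x : SW | z ≤ (∑ i ∈ Finset.Icc 1 k, x.2.1 i / a) +
        T x.1 ((k : ℤ), 1) (((m - w : ℕ) : ℤ), (n : ℤ))} := by
      ext x
      simp only [hA, Set.mem_ofPred_eq, Set.mem_iUnion, Finset.mem_Icc, exists_prop, and_assoc]
    rw [h3]
    refine Finset.measurableSet_biUnion _ fun k _ => ?_
    exact measurableSet_le measurable_const
      (Measurable.add (by fun_prop) ((measurable_T _ _).comp measurable_fst))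
  rw [h2, measureReal_def, (map_shiftB w).measure_preimage hAm.nullMeasurableSet]
  refine ENNReal.toReal_le_of_le_ofReal ?_ h1
  have h6 : 0 < (1 - a + θ) / (1 - a) := by
    have : 0 < 1 - a := by linarith
    positivity
  have h7 : 0 < a / (a - θ) := div_pos ha (by linarith)
  positivity

end BGE
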