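import Pool.Agent.BGE.Defs
import Pool.Agent.BGE.MgfS

/-!
BGE / C6. Maximal inequalities for sums of exponential variables.

Let `E_i` be i.i.d. exponential of rate one (law `PI ℕ`), `a > 0`.
(1) `P(∃ k ≤ w, ∑_{1 ≤ i ≤ k} E_i/a - k/a ≥ z) ≤ exp (-θ z + w θ²/a²)` for `0 < θ ≤ a/2`.
(2) `P(∃ k ≤ w, k/a - ∑_{1 ≤ i ≤ k} E_i/a ≥ z) ≤ exp (-θ z + w θ²/a²)` for `0 < θ`.

Proof. Induction on `w` for all `z` at once: if `z ≤ 0` the right side is at least one; if `z > 0`
the first step is separated (`PI ℕ` is the product of `E1` and `PI ℕ`) and the induction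
hypothesis is applied to `z - g (x 1)`; `E exp (θ g) ≤ exp (θ²/a²)`.

(3) `walk_max`: the probability that `|∑_{i ≤ k} (E_i/a - 1/a)| ≥ z` for some `k ≤ w` is at most
`2 exp (-(a² z²/(4 w)))` when `a z ≤ w` (take `θ = a² z/(2 w) ≤ a/2`).
-/

namespace BGE

open MeasureTheory ProbabilityTheory

/-- separation of the coordinate `1` -/
def wmPhi (x : ℕ → ℝ) : ℝ × (ℕ → ℝ) := (x 1, fun i => if i = 0 then x 0 else x (i + 1))

/-- the indices -/
def wmE : Unit ⊕ ℕ → ℕ
  | .inl _ => 1
  | .inr i => if i = 0 then 0 else i + 1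

theorem wmE_inj : Function.Injective wmE := by
  rintro (a | a) (b | b) h
  · rfl
  · simp only [wmE] at h
    split_ifs at h <;> omega
  · simp only [wmE] at h
    split_ifs at h <;> omega
  · simp only [wmE] at h
    congr 1
    split_ifs at h <;> omega

theorem wmPhi_measurable : Measurable wmPhi := by
  refine (measurable_pi_apply 1).prodMk (measurable_pi_iff.2 fun i => ?_)
  by_cases h : i = 0
  · simp only [h, if_true]
    exact measurable_pi_apply 0
  · simp only [h, if_false]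
    exact measurable_pi_apply (i + 1)

theorem wmPhi_map : (PI ℕ).map wmPhi = E1.prod (PI ℕ) := by
  have h1 : (PI ℕ).map (fun (x : ℕ → ℝ) k => x (wmE k)) = PI (Unit ⊕ ℕ) :=
    infinitePi_reindex (fun _ : ℕ => E1) wmE wmE_inj
  have h2 : Measure.map (fun p : (Unit → ℝ) × (ℕ → ℝ) => (Sum.elim p.1 p.2 : Unit ⊕ ℕ → ℝ))
      ((PI Unit).prod (PI ℕ)) = PI (Unit ⊕ ℕ) :=
    infinitePi_sum _ _ _ (fun _ => rfl) (fun _ => rfl)
  have hG : Measurable (fun y : Unit ⊕ ℕ → ℝ => (y (.inl ()), fun i : ℕ => y (.inr i))) := by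
    fun_prop
  have hE : Measurable (fun (x : ℕ → ℝ) (k : Unit ⊕ ℕ) => x (wmE k)) := by fun_prop
  have hS : Measurable (fun p : (Unit → ℝ) × (ℕ → ℝ) => (Sum.elim p.1 p.2 : Unit ⊕ ℕ → ℝ)) := by
    refine measurable_pi_iff.2 fun z => ?_
    rcases z with z | z
    · exact (measurable_pi_apply z).comp measurable_fst
    · exact (measurable_pi_apply z).comp measurable_snd
  have e1 : wmPhi = (fun y : Unit ⊕ ℕ → ℝ => (y (.inl ()), fun i : ℕ => y (.inr i))) ∘
      (fun (x : ℕ → ℝ) (k : Unit ⊕ ℕ) => x (wmE k)) := by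
    funext x
    simp only [wmPhi, Function.comp, wmE, Prod.mk.injEq, true_and]
    funext i
    split_ifs <;> rfl
  rw [e1, ← Measure.map_map hG hE, h1, ← h2, Measure.map_map hG hS]
  have e2 : ((fun y : Unit ⊕ ℕ → ℝ => (y (.inl ()), fun i : ℕ => y (.inr i))) ∘
      (fun p : (Unit → ℝ) × (ℕ → ℝ) => (Sum.elim p.1 p.2 : Unit ⊕ ℕ → ℝ))) =
      Prod.map (fun y : Unit → ℝ => y ()) id := rfl
  rw [e2, ← Measure.map_prod_map _ _ (measurable_pi_apply ()) measurable_id, Measure.map_id]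
  congr 1
  exact Measure.infinitePi_map_eval (fun _ : Unit => E1) ()

/-- the event -/
def wmA (g : ℝ → ℝ) (w : ℕ) (z : ℝ) : Set (ℕ → ℝ) :=
  {x : ℕ → ℝ | ∃ k : ℕ, k ≤ w ∧ z ≤ ∑ i ∈ Finset.Icc 1 k, g (x i)}

theorem wm_sum (g : ℝ → ℝ) (x : ℕ → ℝ) (k : ℕ) :
    ∑ i ∈ Finset.Icc 1 (k + 1), g (x i) = g (x 1) + ∑ i ∈ Finset.Icc 1 k, g ((wmPhi x).2 i) := by
  induction k with
  | zero => simp
  | succ k ih =>
    rw [Finset.sum_Icc_succ_top (by omega), ih, Finset.sum_Icc_succ_top (by omega), add_assoc]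
    congr 2

theorem wm_max {g : ℝ → ℝ} (hg : Measurable g) {θ c : ℝ} (hθ : 0 < θ) (hc : 0 ≤ c)
    (h : ∫⁻ t, ENNReal.ofReal (Real.exp (θ * g t)) ∂E1 ≤ ENNReal.ofReal (Real.exp c)) (w : ℕ) :
    ∀ z : ℝ, (PI ℕ) (wmA g w z) ≤ ENNReal.ofReal (Real.exp (-(θ * z) + w * c)) := by
  induction w with
  | zero =>
    intro z
    rcases le_or_gt z 0 with hz | hz
    · refine prob_le_one.trans ?_
      rw [← ENNReal.ofReal_one]
      refine ENNReal.ofReal_le_ofReal (Real.one_le_exp ?_)
      have : θ * z ≤ 0 := mul_nonpos_of_nonneg_of_nonpos hθ.le hz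
      simp
      linarith
    · have : wmA g 0 z = ∅ := by
        ext x
        simp only [wmA, Set.mem_ofPred_eq, Set.mem_empty_iff_false, iff_false, not_exists, not_and]
        intro k hk
        obtain rfl : k = 0 := by omega
        simpa using hz
      rw [this, measure_empty]
      exact zero_le
  | succ w ih =>
    intro z
    rcases le_or_gt z 0 with hz | hz
    · refine prob_le_one.trans ?_
      rw [← ENNReal.ofReal_one]
      refine ENNReal.ofReal_le_ofReal (Real.one_le_exp ?_)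
      have : θ * z ≤ 0 := mul_nonpos_of_nonneg_of_nonpos hθ.le hz
      have : 0 ≤ ((w + 1 : ℕ) : ℝ) * c := by positivity
      linarith
    · set B : Set (ℝ × (ℕ → ℝ)) := {p | p.2 ∈ wmA g w (z - g p.1)} with hB
      have hBm : MeasurableSet B := by
        have e : B = ⋃ k ∈ Finset.range (w + 1),
            {p : ℝ × (ℕ → ℝ) | z - g p.1 ≤ ∑ i ∈ Finset.Icc 1 k, g (p.2 i)} := by
          ext p
          simp only [hB, wmA, Set.mem_ofPred_eq, Set.mem_iUnion, Finset.mem_range, exists_prop]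
          constructor
          · rintro ⟨k, h1, h2⟩
            exact ⟨k, by omega, h2⟩
          · rintro ⟨k, h1, h2⟩
            exact ⟨k, by omega, h2⟩
        rw [e]
        refine Finset.measurableSet_biUnion _ fun k _ => measurableSet_le ?_ ?_
        · exact measurable_const.sub (hg.comp measurable_fst)
        · refine Finset.measurable_sum _ fun i _ => ?_
          exact hg.comp ((measurable_pi_apply i).comp measurable_snd)
      have hsub : wmA g (w + 1) z ⊆ wmPhi ⁻¹' B := by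
        rintro x ⟨k, hk, hx⟩
        rcases k with _ | k
        · simp at hx
          linarith
        · rw [wm_sum] at hx
          refine ⟨k, by omega, ?_⟩
          have e : (wmPhi x).1 = x 1 := rfl
          rw [e]
          linarith
      calc (PI ℕ) (wmA g (w + 1) z) ≤ (PI ℕ) (wmPhi ⁻¹' B) := measure_mono hsub
        _ = (E1.prod (PI ℕ)) B := by rw [← wmPhi_map, Measure.map_apply wmPhi_measurable hBm]
        _ = ∫⁻ t, (PI ℕ) (wmA g w (z - g t)) ∂E1 := by
            rw [Measure.prod_apply hBm]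
            rfl
        _ ≤ ∫⁻ t, ENNReal.ofReal (Real.exp (-(θ * z) + w * c)) *
              ENNReal.ofReal (Real.exp (θ * g t)) ∂E1 := by
            refine lintegral_mono fun t => (ih _).trans (le_of_eq ?_)
            rw [← ENNReal.ofReal_mul (Real.exp_pos _).le, ← Real.exp_add]
            congr 2
            ring
        _ = ENNReal.ofReal (Real.exp (-(θ * z) + w * c)) *
              ∫⁻ t, ENNReal.ofReal (Real.exp (θ * g t)) ∂E1 := by
            rw [lintegral_const_mul _ (by fun_prop)]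
        _ ≤ ENNReal.ofReal (Real.exp (-(θ * z) + w * c)) * ENNReal.ofReal (Real.exp c) := by gcongr
        _ = ENNReal.ofReal (Real.exp (-(θ * z) + (w + 1 : ℕ) * c)) := by
            rw [← ENNReal.ofReal_mul (Real.exp_pos _).le, ← Real.exp_add]
            congr 2
            push_cast
            ring

/-- `- log (1 - y) ≤ y + y²` for `0 ≤ y ≤ 1/2` -/
theorem wm_log_sub {y : ℝ} (h0 : 0 ≤ y) (h1 : y ≤ 1 / 2) :
    -Real.log (1 - y) ≤ y + y ^ 2 := by
  set f : ℝ → ℝ := fun x => x + x ^ 2 + Real.log (1 - x) with hf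
  have hmono : MonotoneOn f (Set.Icc 0 (1 / 2)) := by
    apply monotoneOn_of_deriv_nonneg (convex_Icc 0 (1 / 2))
    · refine ContinuousOn.add (by fun_prop) ?_
      refine ContinuousOn.log (by fun_prop) ?_
      intro y hy
      have := hy.2
      linarith
    · intro y hy
      rw [interior_Icc] at hy
      refine DifferentiableAt.differentiableWithinAt ?_
      refine DifferentiableAt.add (by fun_prop) ?_
      exact DifferentiableAt.log (by fun_prop) (by linarith [hy.2])
    · intro y hy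
      rw [interior_Icc] at hy
      obtain ⟨hy1, hy2⟩ := hy
      have hd : HasDerivAt f (1 + 2 * y - 1 / (1 - y)) y := by
        have h1 : HasDerivAt (fun x : ℝ => x + x ^ 2) (1 + 2 * y) y := by
          have := (hasDerivAt_id y).add (hasDerivAt_pow 2 y)
          refine this.congr_deriv ?_
          norm_num
        have h2 : HasDerivAt (fun x : ℝ => Real.log (1 - x)) (-(1 / (1 - y))) y := by
          have := ((hasDerivAt_id y).const_sub 1).log (by simp; linarith)
          refine this.congr_deriv ?_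
          simp
          field_simp
        exact h1.add h2
      rw [hd.deriv]
      have h1y : 0 < 1 - y := by linarith
      have : 1 + 2 * y - 1 / (1 - y) = y * (1 - 2 * y) / (1 - y) := by
        field_simp
        ring
      rw [this]
      have : 0 < 1 - 2 * y := by linarith
      positivity
  have h := hmono ⟨le_rfl, by norm_num⟩ ⟨h0, h1⟩ h0
  simp only [hf] at h
  norm_num at h
  linarith

theorem walk_max_up {a θ z : ℝ} (ha : 0 < a) (hθ : 0 < θ) (hθa : θ ≤ a / 2) (w : ℕ) :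
    (PI ℕ).real {x : ℕ → ℝ | ∃ k : ℕ, k ≤ w ∧
      z ≤ ∑ i ∈ Finset.Icc 1 k, (x i / a - 1 / a)} ≤
      Real.exp (-(θ * z) + w * θ ^ 2 / a ^ 2) := by
  have hy1 : θ / a ≤ 1 / 2 := by
    rw [div_le_iff₀ ha]
    linarith
  have hy0 : 0 < θ / a := by positivity
  have key := wm_max (g := fun t => t / a - 1 / a) (by fun_prop) (θ := θ) (c := (θ / a) ^ 2) hθ
    (by positivity) ?_ w z
  · have e : -(θ * z) + w * θ ^ 2 / a ^ 2 = -(θ * z) + w * (θ / a) ^ 2 := by
      rw [div_pow]
      ring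
    rw [e]
    refine ENNReal.toReal_le_of_le_ofReal (Real.exp_pos _).le key
  · have e1 : ∀ t : ℝ, ENNReal.ofReal (Real.exp (θ * (t / a - 1 / a))) =
        ENNReal.ofReal (Real.exp (-(θ / a))) * ENNReal.ofReal (Real.exp (θ / a * t)) := by
      intro t
      rw [← ENNReal.ofReal_mul (Real.exp_pos _).le, ← Real.exp_add]
      congr 2
      ring
    simp only [e1]
    have h2 := lintegral_exp_expMeasure (r := 1) (s := θ / a) one_pos (by linarith)
    have e2 : E1 = expMeasure 1 := rfl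
    rw [lintegral_const_mul _ (by fun_prop), e2, h2, ← ENNReal.ofReal_mul (Real.exp_pos _).le]
    refine ENNReal.ofReal_le_ofReal ?_
    have h3 : 0 < 1 - θ / a := by linarith
    have h4 : 1 / (1 - θ / a) = Real.exp (-Real.log (1 - θ / a)) := by
      rw [Real.exp_neg, Real.exp_log h3, one_div]
    rw [h4, ← Real.exp_add]
    refine Real.exp_le_exp.2 ?_
    have := wm_log_sub hy0.le hy1
    linarith

theorem walk_max_down {a θ z : ℝ} (ha : 0 < a) (hθ : 0 < θ) (w : ℕ) :
    (PI ℕ).real {x : ℕ → ℝ | ∃ k : ℕ, k ≤ w ∧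
      z ≤ ∑ i ∈ Finset.Icc 1 k, (1 / a - x i / a)} ≤
      Real.exp (-(θ * z) + w * θ ^ 2 / a ^ 2) := by
  have hy0 : 0 < θ / a := by positivity
  have key := wm_max (g := fun t => 1 / a - t / a) (by fun_prop) (θ := θ) (c := (θ / a) ^ 2) hθ
    (by positivity) ?_ w z
  · have e : -(θ * z) + w * θ ^ 2 / a ^ 2 = -(θ * z) + w * (θ / a) ^ 2 := by
      rw [div_pow]
      ring
    rw [e]
    refine ENNReal.toReal_le_of_le_ofReal (Real.exp_pos _).le key
  · have e1 : ∀ t : ℝ, ENNReal.ofReal (Real.exp (θ * (1 / a - t / a))) =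
        ENNReal.ofReal (Real.exp (θ / a)) * ENNReal.ofReal (Real.exp (-(θ / a) * t)) := by
      intro t
      rw [← ENNReal.ofReal_mul (Real.exp_pos _).le, ← Real.exp_add]
      congr 2
      ring
    simp only [e1]
    have h2 := lintegral_exp_expMeasure (r := 1) (s := -(θ / a)) one_pos (by linarith)
    have e2 : E1 = expMeasure 1 := rfl
    rw [lintegral_const_mul _ (by fun_prop), e2, h2, ← ENNReal.ofReal_mul (Real.exp_pos _).le]
    refine ENNReal.ofReal_le_ofReal ?_
    rw [sub_neg_eq_add]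
    have h3 : 0 < 1 + θ / a := by linarith
    have h4 : 1 / (1 + θ / a) = Real.exp (-Real.log (1 + θ / a)) := by
      rw [Real.exp_neg, Real.exp_log h3, one_div]
    rw [h4, ← Real.exp_add]
    refine Real.exp_le_exp.2 ?_
    -- `log (1 + y) ≥ y / (1 + y)`
    have h5 : θ / a / (1 + θ / a) ≤ Real.log (1 + θ / a) := by
      have h6 := Real.log_le_sub_one_of_pos (inv_pos.2 h3)
      rw [Real.log_inv] at h6
      have h7 : (1 + θ / a)⁻¹ - 1 = -(θ / a / (1 + θ / a)) := by
        field_simp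
        ring
      rw [h7] at h6
      linarith
    have h8 : θ / a - θ / a / (1 + θ / a) ≤ (θ / a) ^ 2 := by
      have h9 : θ / a - θ / a / (1 + θ / a) = (θ / a) ^ 2 / (1 + θ / a) := by
        field_simp
        ring
      rw [h9]
      exact div_le_self (by positivity) (by linarith)
    linarith

theorem walk_max {a z : ℝ} (ha : 0 < a) (hz : 0 < z) (w : ℕ) (hw : a * z ≤ w) :
    (PI ℕ).real {x : ℕ → ℝ | ∃ k : ℕ, k ≤ w ∧
      z ≤ |∑ i ∈ Finset.Icc 1 k, (x i / a - 1 / a)|} ≤
      2 * Real.exp (-(a ^ 2 * z ^ 2 / (4 * w))) := by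
  have hw0 : (0 : ℝ) < w := lt_of_lt_of_le (by positivity) hw
  have hθ : 0 < a ^ 2 * z / (2 * w) := by positivity
  have hθa : a ^ 2 * z / (2 * w) ≤ a / 2 := by
    rw [div_le_div_iff₀ (by positivity) (by norm_num)]
    nlinarith
  have k1 := walk_max_up (z := z) ha hθ hθa w
  have k2 := walk_max_down (z := z) ha hθ w
  have e : -(a ^ 2 * z / (2 * w) * z) + w * (a ^ 2 * z / (2 * w)) ^ 2 / a ^ 2 =
      -(a ^ 2 * z ^ 2 / (4 * w)) := by
    field_simp
    ring
  rw [e] at k1 k2
  have hsub : {x : ℕ → ℝ | ∃ k : ℕ, k ≤ w ∧ z ≤ |∑ i ∈ Finset.Icc 1 k, (x i / a - 1 / a)|} ⊆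
      {x : ℕ → ℝ | ∃ k : ℕ, k ≤ w ∧ z ≤ ∑ i ∈ Finset.Icc 1 k, (x i / a - 1 / a)} ∪
      {x : ℕ → ℝ | ∃ k : ℕ, k ≤ w ∧ z ≤ ∑ i ∈ Finset.Icc 1 k, (1 / a - x i / a)} := by
    rintro x ⟨k, hk, hx⟩
    rcases le_abs.1 hx with h | h
    · exact Or.inl ⟨k, hk, h⟩
    · refine Or.inr ⟨k, hk, ?_⟩
      rw [← Finset.sum_neg_distrib] at h
      refine h.trans (le_of_eq ?_)
      refine Finset.sum_congr rfl fun i _ => ?_
      ring
  calc _ ≤ (PI ℕ).real ({x : ℕ → ℝ | ∃ k : ℕ, k ≤ w ∧ z ≤ ∑ i ∈ Finset.Icc 1 k, (x i / a - 1 / a)} ∪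
      {x : ℕ → ℝ | ∃ k : ℕ, k ≤ w ∧ z ≤ ∑ i ∈ Finset.Icc 1 k, (1 / a - x i / a)}) :=
        measureReal_mono hsub (measure_ne_top _ _)
    _ ≤ _ := (measureReal_union_le _ _).trans (by linarith)

end BGE
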