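import Pool.Agent.BGE.NeComp
import Pool.Agent.BGE.WalkMax

/-!
BGE / C8. Lower tail.

`lower_tail`: for `0 < t ≤ al/16`, `t ≤ (1-al)/16`:
`P(T ≤ s² - 64 t² Ph) ≤ 21 exp (-t³ Ph/(2·10⁸))`.
Proof. We may assume `t³ Ph ≥ 1`. Let `a = al - t/2`, `b = 1 - al - t/2`, `Lb = bl a b` on a space
carrying the bulk weights `ω` and independent S and W weights.
(a) `big_low` (with `ρ = al`): `P(Lb (m,n) ≤ s² - t² Ph) ≤ exp (-t³ Ph)`.
(b) Let `w = ⌈40 a² t Ph⌉`. By `exit_loc` (`t' = t/2`) the S exits at `k > w` have values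
`< ff a - w²/(768 a⁴ Ph) ≤ s² + 0.26 t² Ph - 2.08 t² Ph < s² - t² Ph` outside of an event of
probability `2 exp (-t³ Ph/37)`. The same on the W side with `w' = ⌈40 b² t Ph⌉` (exchange of the
coordinates).
(c) Suppose `Lb (m,n) = ∑_{i ≤ k} S_i/a + T ω (k,1) (m,n)` with `k ≤ w`. Rotate the box by 180
degrees (`(i,j) ↦ (m+1-i, n+1-j)`, `T_neg`, `T_translate`; the law of the bulk is invariant) and
take boundary weights for the rotated box, independent of everything else: by `ne_compare`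
`T ω (1,1) (m,n) - T ω (k,1) (m,n) ≥ X_1 + ... + X_{k-1}` with `X_i` i.i.d. `Exp(ρ)`, `ρ = al + t`,
for all `1 ≤ k ≤ m`, outside of an event of probability `6 exp (-t³ Ph/(2·10⁸))`. Therefore
`T ω (1,1) (m,n) ≥ Lb (m,n) - (∑_{i ≤ k} S_i/a - ∑_{i < k} X_i)`. By `walk_max_up`,
`walk_max_down` with `z = t² Ph` and `θ = a² z/(2w) ≤ a/2` (note `w ≤ 41 a² t Ph`) outside of
events of total probability `2 exp (-t³ Ph/164)` the bracket is at most
`k (1/a - 1/ρ) + 1/ρ + 2 t² Ph ≤ 62.3 t² Ph`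
(`1/a - 1/ρ ≤ 1.5 t/a²`, and `t³ Ph ≥ 1`, `al ≥ 16 t` control the rounding terms).
(d) the same for W exits (mirror image). Altogether `T ≥ s² - 64 t² Ph` outside of an event of
probability `exp (-t³ Ph) + 4 exp (-t³ Ph/37) + 12 exp (-t³ Ph/(2·10⁸)) + 4 exp (-t³ Ph/164)`.
-/

namespace BGE

open MeasureTheory ProbabilityTheory

section aux

private lemma lt_pre {α β : Type*} [MeasurableSpace α] [MeasurableSpace β] {μ : Measure α}
    {ν : Measure β} [IsFiniteMeasure ν] {f : α → β} (hf : MeasurePreserving f μ ν) (s : Set β) :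
    μ.real (f ⁻¹' s) ≤ ν.real s := by
  have h := Measure.le_map_apply (μ := μ) hf.measurable.aemeasurable s
  rw [hf.map_eq] at h
  exact ENNReal.toReal_mono (measure_ne_top _ _) h

private lemma lt_indep (ι : Type*) :
    iIndepFun (fun (i : ι) (x : ι → ℝ) => x i) (PI ι) := by
  rw [iIndepFun_iff_map_fun_eq_infinitePi_map₀ (by fun_prop)]
  have h1 : ∀ i : ι, (PI ι).map (fun x : ι → ℝ => x i) = E1 := fun i => by
    unfold PI
    exact Measure.infinitePi_map_eval _ i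
  simp only [h1]
  exact Measure.map_id

private lemma lt_eval {ι : Type*} (i : ι) :
    (PI ι).map (fun x : ι → ℝ => x i) = E1 := by
  unfold PI
  exact Measure.infinitePi_map_eval _ i

/-- Reindexing by an injective map. -/
private lemma lt_reindex {ι κ : Type*} {e : κ → ι} (he : Function.Injective e) :
    MeasurePreserving (fun (x : ι → ℝ) (j : κ) => x (e j)) (PI ι) (PI κ) := by
  have hme : Measurable (fun (x : ι → ℝ) (j : κ) => x (e j)) :=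
    measurable_pi_iff.2 fun j => measurable_pi_apply (e j)
  refine ⟨hme, ?_⟩
  have h1 : iIndepFun (fun (j : κ) (x : ι → ℝ) => x (e j)) (PI ι) := (lt_indep ι).precomp he
  rw [iIndepFun_iff_map_fun_eq_infinitePi_map₀ hme.aemeasurable] at h1
  rw [h1]
  unfold PI
  congr 1
  funext j
  exact lt_eval (e j)

private lemma lt_scale {ρ : ℝ} (hρ : 0 < ρ) :
    Measure.map (fun x : ℝ => x / ρ) E1 = expMeasure ρ := by
  have h0 : IsProbabilityMeasure (expMeasure ρ) := isProbabilityMeasure_expMeasure hρ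
  have hm : Measurable fun x : ℝ => x / ρ := measurable_id.div_const ρ
  have h1 : IsProbabilityMeasure (Measure.map (fun x : ℝ => x / ρ) E1) :=
    Measure.isProbabilityMeasure_map hm.aemeasurable
  refine Measure.eq_of_cdf _ _ ?_
  ext x
  have h2 : (fun x : ℝ => x / ρ) ⁻¹' Set.Iic x = Set.Iic (x * ρ) := by
    ext y
    simp [div_le_iff₀ hρ]
  have h3 : IsProbabilityMeasure (expMeasure 1) := isProbabilityMeasure_expMeasure one_pos
  rw [cdf_eq_real, map_measureReal_apply hm measurableSet_Iic, h2]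
  unfold E1
  rw [← cdf_eq_real, cdf_expMeasure_eq one_pos, cdf_expMeasure_eq hρ]
  by_cases hx : 0 ≤ x
  · rw [if_pos hx, if_pos (by positivity), one_mul, mul_comm]
  · rw [if_neg hx, if_neg]
    intro h
    exact hx (by
      by_contra h'
      have : x * ρ < 0 := mul_neg_of_neg_of_pos (not_le.1 h') hρ
      linarith)

/-- The law of a reversed and rescaled initial segment. -/
private lemma lt_rev {ρ : ℝ} (hρ : 0 < ρ) (m : ℕ) :
    (PI ℕ).map (fun (x : ℕ → ℝ) (j : Fin m) => x (m - j) / ρ) =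
      Measure.pi (fun _ : Fin m => expMeasure ρ) := by
  have he : Function.Injective (fun j : Fin m => m - (j : ℕ)) := by
    intro i j h
    have hi := i.2
    have hj := j.2
    apply Fin.ext
    simp only at h
    omega
  have h1 : iIndepFun (fun (j : Fin m) (x : ℕ → ℝ) => x (m - j)) (PI ℕ) :=
    (lt_indep ℕ).precomp he
  have hm : Measurable fun x : ℝ => x / ρ := measurable_id.div_const ρ
  have h2 : iIndepFun (fun (j : Fin m) (x : ℕ → ℝ) => x (m - j) / ρ) (PI ℕ) :=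
    h1.comp (fun _ x => x / ρ) (fun _ => hm)
  have hae : ∀ j : Fin m, AEMeasurable (fun x : ℕ → ℝ => x (m - j) / ρ) (PI ℕ) := fun j => by
    have h4 : Measurable fun x : ℕ → ℝ => x (m - j) := measurable_pi_apply _
    exact (hm.comp h4).aemeasurable
  have h3 := (iIndepFun_iff_map_fun_eq_pi_map hae).1 h2
  rw [h3]
  congr 1
  funext j
  have h3 : (fun x : ℕ → ℝ => x (m - j) / ρ) = (fun x : ℝ => x / ρ) ∘ fun x : ℕ → ℝ => x (m - j) :=
    rfl
  rw [h3, ← Measure.map_map hm (measurable_pi_apply _), lt_eval, lt_scale hρ]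

private lemma lt_incr {m n : ℕ} {ρ z θ : ℝ} (hρ : 0 < ρ) (hρ1 : ρ < 1) (hθ : 0 < θ) (w : ℕ) :
    muSW.real {x : SW | ∃ K : ℕ, K ≤ w ∧ K ≤ m ∧ z ≤ ∑ i ∈ Finset.Icc 1 K,
      (1 / ρ - (bl ρ (1 - ρ) x ((m : ℤ) + 1 - i, (n : ℤ)) -
        bl ρ (1 - ρ) x ((m : ℤ) - i, (n : ℤ))))} ≤
      Real.exp (-(θ * z) + w * θ ^ 2 / ρ ^ 2) := by
  have hexp : IsProbabilityMeasure (expMeasure ρ) := isProbabilityMeasure_expMeasure hρ
  set f : SW → (Fin m → ℝ) := fun x i =>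
    bl ρ (1 - ρ) x ((i : ℤ) + 1, (n : ℤ)) - bl ρ (1 - ρ) x ((i : ℤ), (n : ℤ)) with hf
  have hfm : Measurable f := by
    rw [measurable_pi_iff]
    intro i
    exact (measurable_bl _ _ _).sub (measurable_bl _ _ _)
  have hfl : muSW.map f = Measure.pi (fun _ : Fin m => expMeasure ρ) := stat_row hρ hρ1 m n
  set ext : (Fin m → ℝ) → ℕ → ℝ := fun y j => if h : j < m then y ⟨j, h⟩ else 0 with hext
  have hextm : ∀ j, Measurable fun y => ext y j := by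
    intro j
    by_cases h : j < m
    · have : (fun y : Fin m → ℝ => ext y j) = fun y => y ⟨j, h⟩ := by
        funext y
        simp only [hext, dif_pos h]
      rw [this]
      exact measurable_pi_apply _
    · have : (fun y : Fin m → ℝ => ext y j) = fun y => 0 := by
        funext y
        simp only [hext, dif_neg h]
      rw [this]
      exact measurable_const
  set D : Set (Fin m → ℝ) := {y | ∃ K : ℕ, K ≤ w ∧ K ≤ m ∧ z ≤ ∑ i ∈ Finset.Icc 1 K,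
    (1 / ρ - ext y (m - i))} with hD
  have hDm : MeasurableSet D := by
    have : D = ⋃ K : ℕ, {y | K ≤ w ∧ K ≤ m ∧ z ≤ ∑ i ∈ Finset.Icc 1 K,
        (1 / ρ - ext y (m - i))} := by
      ext y
      simp only [hD, Set.mem_ofPred_eq, Set.mem_iUnion]
    rw [this]
    refine MeasurableSet.iUnion fun K => ?_
    by_cases h1 : K ≤ w
    · by_cases h2 : K ≤ m
      · simp only [h1, h2, true_and]
        exact measurableSet_le measurable_const
          (Finset.measurable_sum _ fun i _ => measurable_const.sub (hextm _))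
      · simp only [h2, false_and, and_false]
        exact MeasurableSet.empty
    · simp only [h1, false_and]
      exact MeasurableSet.empty
  have hsub1 : {x : SW | ∃ K : ℕ, K ≤ w ∧ K ≤ m ∧ z ≤ ∑ i ∈ Finset.Icc 1 K,
      (1 / ρ - (bl ρ (1 - ρ) x ((m : ℤ) + 1 - i, (n : ℤ)) -
        bl ρ (1 - ρ) x ((m : ℤ) - i, (n : ℤ))))} ⊆ f ⁻¹' D := by
    rintro x ⟨K, hK1, hK2, hK3⟩
    refine ⟨K, hK1, hK2, hK3.trans (le_of_eq ?_)⟩
    refine Finset.sum_congr rfl fun i hi => ?_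
    rw [Finset.mem_Icc] at hi
    have h1 : m - i < m := by omega
    simp only [hext, dif_pos h1, hf]
    have h2 : ((m - i : ℕ) : ℤ) = (m : ℤ) - i := by
      have : i ≤ m := hi.2.trans hK2
      push_cast [this]
      ring
    rw [h2]
    congr 4
    ring
  set g : (ℕ → ℝ) → (Fin m → ℝ) := fun x j => x (m - j) / ρ with hg
  have hgm : Measurable g := by fun_prop
  have hsub2 : g ⁻¹' D ⊆ {x : ℕ → ℝ | ∃ k : ℕ, k ≤ w ∧
      z ≤ ∑ i ∈ Finset.Icc 1 k, (1 / ρ - x i / ρ)} := by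
    rintro x ⟨K, hK1, hK2, hK3⟩
    refine ⟨K, hK1, hK3.trans (le_of_eq ?_)⟩
    refine Finset.sum_congr rfl fun i hi => ?_
    rw [Finset.mem_Icc] at hi
    have h1 : m - i < m := by omega
    have h2 : m - (m - i) = i := by omega
    simp only [hext, dif_pos h1, hg, h2]
  have e1 : muSW.real (f ⁻¹' D) = (PI ℕ).real (g ⁻¹' D) := by
    rw [← map_measureReal_apply hfm hDm, hfl, ← lt_rev hρ m, map_measureReal_apply hgm hDm]
  calc _ ≤ muSW.real (f ⁻¹' D) := measureReal_mono hsub1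
    _ = (PI ℕ).real (g ⁻¹' D) := e1
    _ ≤ _ := measureReal_mono hsub2
    _ ≤ _ := walk_max_down hρ hθ w

/-- Numerical facts. -/
private lemma lt_num {A P t a ρ : ℝ} {w : ℕ} (ht : 0 < t) (h1 : t ≤ A / 16)
    (h3 : 1 ≤ t ^ 3 * P) (ha : a = A - t / 2) (hρ : ρ = A + t)
    (hw : w = ⌈40 * a ^ 2 * t * P⌉₊) :
    0 < a ∧ 0 < P ∧ 1 ≤ w ∧ 40 * a ^ 2 * t * P ≤ w ∧ (w : ℝ) ≤ 40.01 * (a ^ 2 * t * P) ∧
    2.08 * (t ^ 2 * P) ≤ w ^ 2 / (768 * a ^ 4 * P) ∧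
    t ^ 3 * P / 37 ≤ w ^ 3 / (2359296 * a ^ 6 * P ^ 2) ∧
    t ^ 3 * P / 164 ≤ a ^ 2 * (t ^ 2 * P) ^ 2 / (4 * w) ∧
    w * (1 / a - 1 / ρ) + 1 / ρ ≤ 61 * (t ^ 2 * P) ∧ a * (t ^ 2 * P) ≤ w ∧ a ≤ ρ := by
  have hP : 0 < P := by
    by_contra h
    have : t ^ 3 * P ≤ 0 := mul_nonpos_of_nonneg_of_nonpos (by positivity) (not_lt.1 h)
    linarith
  have hat : 15.5 * t ≤ a := by linarith
  have ha0 : 0 < a := by linarith
  have hρ0 : 0 < ρ := by linarith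
  have haρ : a ≤ ρ := by linarith
  set X := a ^ 2 * t * P with hX
  have hX240 : 240 ≤ X := by
    have h4 : (15.5 * t) ^ 2 ≤ a ^ 2 := pow_le_pow_left₀ (by positivity) hat 2
    have h5 : (15.5 * t) ^ 2 * (t * P) ≤ a ^ 2 * (t * P) :=
      mul_le_mul_of_nonneg_right h4 (by positivity)
    have h6 : (15.5 * t) ^ 2 * (t * P) = 240.25 * (t ^ 3 * P) := by ring
    have h7 : a ^ 2 * (t * P) = X := by rw [hX]; ring
    linarith
  have hX0 : 0 < X := by linarith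
  have e40 : 40 * a ^ 2 * t * P = 40 * X := by rw [hX]; ring
  have hw1 : 40 * X ≤ w := by
    rw [hw, e40]
    exact Nat.le_ceil _
  have hw2 : (w : ℝ) < 40 * X + 1 := by
    rw [hw, e40]
    exact Nat.ceil_lt_add_one (by positivity)
  have hw3 : (w : ℝ) ≤ 40.01 * X := by linarith
  have hwpos : 0 < (w : ℝ) := by linarith
  have hw4 : 1 ≤ w := by
    have : 0 < w := by exact_mod_cast hwpos
    omega
  have tP : 0 < t ^ 2 * P := by positivity
  refine ⟨ha0, hP, hw4, by rw [e40]; exact hw1, hw3, ?_, ?_, ?_, ?_, ?_, haρ⟩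
  · rw [le_div_iff₀ (by positivity)]
    have h4 : (40 * X) ^ 2 ≤ (w : ℝ) ^ 2 := pow_le_pow_left₀ (by positivity) hw1 2
    have h5 : 2.08 * (t ^ 2 * P) * (768 * a ^ 4 * P) = 1597.44 * X ^ 2 := by rw [hX]; ring
    rw [h5]
    nlinarith [sq_nonneg X]
  · rw [le_div_iff₀ (by positivity)]
    have h4 : (40 * X) ^ 3 ≤ (w : ℝ) ^ 3 := pow_le_pow_left₀ (by positivity) hw1 3
    have h5 : t ^ 3 * P / 37 * (2359296 * a ^ 6 * P ^ 2) = (2359296 / 37) * X ^ 3 := by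
      rw [hX]; ring
    rw [h5]
    nlinarith [pow_pos hX0 3]
  · rw [le_div_iff₀ (by positivity)]
    have h5 : a ^ 2 * (t ^ 2 * P) ^ 2 = t ^ 3 * P * X := by rw [hX]; ring
    rw [h5]
    have h6 : t ^ 3 * P / 164 * (4 * w) = (t ^ 3 * P) * (w / 41) := by ring
    rw [h6]
    refine mul_le_mul_of_nonneg_left ?_ (by positivity)
    linarith
  · have h4 : 1 / a - 1 / ρ = 1.5 * t / (a * ρ) := by
      rw [div_sub_div _ _ ha0.ne' hρ0.ne']
      congr 1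
      rw [ha, hρ]
      ring
    have h5 : 1.5 * t / (a * ρ) ≤ 1.5 * t / (a ^ 2) := by
      refine div_le_div_of_nonneg_left (by positivity) (by positivity) ?_
      rw [sq]
      exact mul_le_mul_of_nonneg_left haρ ha0.le
    have h6 : (w : ℝ) * (1 / a - 1 / ρ) ≤ 60.015 * (t ^ 2 * P) := by
      rw [h4]
      calc (w : ℝ) * (1.5 * t / (a * ρ)) ≤ (40.01 * X) * (1.5 * t / a ^ 2) :=
            mul_le_mul hw3 h5 (by positivity) (by positivity)
        _ = 60.015 * (t ^ 2 * P) := by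
            rw [hX]
            field_simp
            ring
    have h7 : 1 / ρ ≤ 1 / t := one_div_le_one_div_of_le ht (by linarith)
    have h8 : 16 * (1 / ρ) ≤ 1 / t := by
      rw [mul_one_div, div_le_div_iff₀ hρ0 ht]
      linarith
    have h9 : 1 / t ≤ t ^ 2 * P := by
      rw [div_le_iff₀ ht]
      calc (1 : ℝ) ≤ t ^ 3 * P := h3
        _ = _ := by ring
    linarith
  · have h4 : a * (t ^ 2 * P) = (t / a) * X := by
      rw [hX]
      field_simp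
    rw [h4]
    have h5 : t / a ≤ 1 := by
      rw [div_le_one ha0]
      linarith
    nlinarith

private lemma lt_exp_le {x y : ℝ} (h : y ≤ x) : Real.exp (-x) ≤ Real.exp (-y) :=
  Real.exp_le_exp.2 (by linarith)

private lemma lt_rot (ω : ℤ × ℤ → ℝ) (c u v : ℤ × ℤ) (h : u ≤ v) :
    T (fun z => ω (c - z)) u v = T ω (c - v) (c - u) := by
  have h1 := T_neg (fun z => ω (z + c)) h
  have h2 : (fun z => (fun z => ω (z + c)) (-z)) = fun z => ω (c - z) := by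
    funext z
    simp only
    congr 1
    abel
  rw [h2] at h1
  rw [h1, T_translate]
  congr 1 <;> abel

private lemma lt_fin {k SS a ρ w z b1 b2 T1 Tk V : ℝ} (h4 : b1 - b2 ≤ T1 - Tk)
    (h5 : (k - 1) * (1 / ρ) - (b1 - b2) < z) (h6 : SS - k * (1 / a) < z)
    (h7 : k * (1 / a - 1 / ρ) ≤ w * (1 / a - 1 / ρ)) (N6 : w * (1 / a - 1 / ρ) + 1 / ρ ≤ 61 * z)
    (hk2 : V - z < SS + Tk) (hk3 : T1 ≤ V - 64 * z) : False := by
  have e1 : k * (1 / a - 1 / ρ) = k * (1 / a) - k * (1 / ρ) := by ring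
  have e2 : (k - 1) * (1 / ρ) = k * (1 / ρ) - 1 / ρ := by ring
  linarith

private lemma lt_ffb {m n : ℕ} (hm0 : (0 : ℝ) < m) (hn0 : (0 : ℝ) < n) {t P a z W : ℝ}
    (ha : a = al m n - t / 2) (ha0 : 0 < a) (h1 : t ≤ al m n / 16) (h2 : t ≤ (1 - al m n) / 16)
    (ht : 0 < t) (hz0 : 0 < z) (hP : P = Ph m n) (hz : z = t ^ 2 * P) (N3 : 2.08 * z ≤ W) :
    ff m n a - W ≤ (√m + √n) ^ 2 - z := by
  have hA1 : al m n < 1 := al_lt_one hm0 hn0
  have hA0 : 0 < al m n := al_pos hm0 hn0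
  have h4 := ff_eq (m := (m : ℝ)) (n := (n : ℝ)) (ρ := a) hm0 hn0 ha0 (by linarith)
  have h5 := Ph_eq hm0 hn0
  have hA2 : al m n * (1 - al m n) ≠ 0 := mul_ne_zero hA0.ne' (by linarith)
  have h6 : (√(m : ℝ) + √(n : ℝ)) ^ 2 = P * (al m n * (1 - al m n)) := by
    rw [hP, h5, div_mul_cancel₀ _ hA2]
  have hP0 : 0 < P := by
    by_contra h
    have : t ^ 2 * P ≤ 0 := mul_nonpos_of_nonneg_of_nonpos (by positivity) (not_lt.1 h)
    linarith
  have h7 : (√(m : ℝ) + √(n : ℝ)) ^ 2 * (a - al m n) ^ 2 / (a * (1 - a)) ≤ 0.26 * z := by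
    rw [h6, div_le_iff₀ (mul_pos ha0 (by linarith))]
    have h8 : (a - al m n) ^ 2 = t ^ 2 / 4 := by rw [ha]; ring
    rw [h8, hz]
    have h9 : al m n ≤ 32 / 31 * a := by linarith
    have h10 : 1 - al m n ≤ 1 - a := by linarith
    have h11 : al m n * (1 - al m n) ≤ (32 / 31 * a) * (1 - a) :=
      mul_le_mul h9 h10 (by linarith) (by positivity)
    have h12 : P * (al m n * (1 - al m n)) * (t ^ 2 / 4) ≤
        P * ((32 / 31 * a) * (1 - a)) * (t ^ 2 / 4) :=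
      mul_le_mul_of_nonneg_right (mul_le_mul_of_nonneg_left h11 hP0.le) (by positivity)
    refine h12.trans ?_
    have h13 : 0 ≤ P * t ^ 2 * (a * (1 - a)) :=
      mul_nonneg (by positivity) (mul_nonneg ha0.le (by linarith))
    linarith [h13]
  have h14 : ff m n a = (√(m : ℝ) + √(n : ℝ)) ^ 2 +
    (√(m : ℝ) + √(n : ℝ)) ^ 2 * (a - al m n) ^ 2 / (a * (1 - a)) := h4
  linarith

/-- The exits on the S side. -/
private theorem lt_side {m n : ℕ} (hm : 1 ≤ m) (hn : 1 ≤ n) {t : ℝ} (ht : 0 < t)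
    (h1 : t ≤ al m n / 16) (h2 : t ≤ (1 - al m n) / 16) (h3 : 1 ≤ t ^ 3 * Ph m n) :
    ((PI (ℤ × ℤ)).prod (PI ℕ)).real {y : (ℤ × ℤ → ℝ) × (ℕ → ℝ) | ∃ k : ℕ, 1 ≤ k ∧ k ≤ m ∧
      (√m + √n) ^ 2 - t ^ 2 * Ph m n < (∑ i ∈ Finset.Icc 1 k, y.2 i / (al m n - t / 2)) +
        T y.1 ((k : ℤ), 1) ((m : ℤ), (n : ℤ)) ∧
      T y.1 (1, 1) ((m : ℤ), (n : ℤ)) ≤ (√m + √n) ^ 2 - 64 * t ^ 2 * Ph m n} ≤
      10 * Real.exp (-(t ^ 3 * Ph m n / (2 * 10 ^ 8))) := by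
  have hm0 : (0 : ℝ) < m := by exact_mod_cast hm
  have hn0 : (0 : ℝ) < n := by exact_mod_cast hn
  set A := al m n with hA
  set P := Ph m n with hP
  set a := A - t / 2 with ha
  set ρ := A + t with hρ
  set w : ℕ := ⌈40 * a ^ 2 * t * P⌉₊ with hw
  obtain ⟨ha0, hP0, hw1, hw40, hw4001, N3, N4, N5, N6, N7, haρ⟩ := lt_num (ρ := ρ) ht h1 h3 ha hρ hw
  have hA1 : A < 1 := al_lt_one hm0 hn0
  have hA0 : 0 < A := al_pos hm0 hn0
  have hρ0 : 0 < ρ := by linarith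
  have hρ1 : ρ < 1 := by linarith
  have hwpos : (0 : ℝ) < w := by
    have : (1 : ℝ) ≤ w := by exact_mod_cast hw1
    linarith
  set z := t ^ 2 * P with hz
  have hz0 : 0 < z := by positivity
  have hexp0 : ∀ c : ℝ, 0 < c → c ≤ 2 * 10 ^ 8 →
      Real.exp (-(t ^ 3 * P / c)) ≤ Real.exp (-(t ^ 3 * P / (2 * 10 ^ 8))) := by
    intro c hc0 hc
    refine lt_exp_le ?_
    exact div_le_div_of_nonneg_left (by linarith) hc0 hc
  -- the joint space
  set μ2 : Measure ((ℤ × ℤ → ℝ) × (ℕ → ℝ)) := (PI (ℤ × ℤ)).prod (PI ℕ) with hμ2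
  set μ : Measure (((ℤ × ℤ → ℝ) × (ℕ → ℝ)) × ((ℕ → ℝ) × (ℕ → ℝ))) :=
    μ2.prod ((PI ℕ).prod (PI ℕ)) with hμ
  set c : ℤ × ℤ := ((m : ℤ) + 1, (n : ℤ) + 1) with hc
  set rot : (ℤ × ℤ → ℝ) → (ℤ × ℤ → ℝ) := fun ω v => ω (c - v) with hrot
  have hrotm : MeasurePreserving rot (PI (ℤ × ℤ)) (PI (ℤ × ℤ)) :=
    lt_reindex (e := fun v : ℤ × ℤ => c - v) (fun x y h => by simpa using h)
  -- the three maps
  have p1 : MeasurePreserving (fun ξ : ((ℤ × ℤ → ℝ) × (ℕ → ℝ)) × ((ℕ → ℝ) × (ℕ → ℝ)) =>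
      ((ξ.1.1, ξ.1.2, ξ.2.1) : SW)) μ muSW := by
    have q1 : MeasurePreserving (Prod.map (id : (ℤ × ℤ → ℝ) → (ℤ × ℤ → ℝ))
        (Prod.map (id : (ℕ → ℝ) → (ℕ → ℝ)) (Prod.fst : (ℕ → ℝ) × (ℕ → ℝ) → (ℕ → ℝ))))
        ((PI (ℤ × ℤ)).prod ((PI ℕ).prod ((PI ℕ).prod (PI ℕ)))) muSW :=
      (MeasurePreserving.id _).prod ((MeasurePreserving.id _).prod measurePreserving_fst)
    exact q1.comp (measurePreserving_prodAssoc (PI (ℤ × ℤ)) (PI ℕ) ((PI ℕ).prod (PI ℕ)))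
  have p2 : MeasurePreserving (fun ξ : ((ℤ × ℤ → ℝ) × (ℕ → ℝ)) × ((ℕ → ℝ) × (ℕ → ℝ)) =>
      ξ.1.2) μ (PI ℕ) :=
    (measurePreserving_snd (μ := PI (ℤ × ℤ)) (ν := PI ℕ)).comp measurePreserving_fst
  have p3 : MeasurePreserving (fun ξ : ((ℤ × ℤ → ℝ) × (ℕ → ℝ)) × ((ℕ → ℝ) × (ℕ → ℝ)) =>
      ((rot ξ.1.1, ξ.2) : SW)) μ muSW := by
    have q1 : MeasurePreserving (Prod.map (rot ∘ (Prod.fst : (ℤ × ℤ → ℝ) × (ℕ → ℝ) → _))
        (id : (ℕ → ℝ) × (ℕ → ℝ) → (ℕ → ℝ) × (ℕ → ℝ))) μ muSW :=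
      (hrotm.comp measurePreserving_fst).prod (MeasurePreserving.id _)
    exact q1
  -- the bad events
  set B2 : Set SW := {x : SW | ∃ k : ℕ, w < k ∧ k ≤ m ∧
      ff m n a - w ^ 2 / (768 * a ^ 4 * P) ≤
        (∑ i ∈ Finset.Icc 1 k, x.2.1 i / a) + T x.1 ((k : ℤ), 1) ((m : ℤ), (n : ℤ))} with hB2
  set B3 : Set SW := {x : SW | ∃ k : ℕ, 1 ≤ k ∧ k ≤ m ∧
      T x.1 (1, 1) ((m : ℤ), (n : ℤ)) - T x.1 (1, 1) ((m : ℤ) + 1 - k, (n : ℤ)) <
        bl ρ (1 - ρ) x ((m : ℤ), (n : ℤ)) -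
          bl ρ (1 - ρ) x ((m : ℤ) + 1 - k, (n : ℤ))} with hB3
  set B4 : Set SW := {x : SW | ∃ K : ℕ, K ≤ w ∧ K ≤ m ∧ z ≤ ∑ i ∈ Finset.Icc 1 K,
      (1 / ρ - (bl ρ (1 - ρ) x ((m : ℤ) + 1 - i, (n : ℤ)) -
        bl ρ (1 - ρ) x ((m : ℤ) - i, (n : ℤ))))} with hB4
  set B5 : Set (ℕ → ℝ) := {x : ℕ → ℝ | ∃ k : ℕ, k ≤ w ∧
      z ≤ ∑ i ∈ Finset.Icc 1 k, (x i / a - 1 / a)} with hB5
  have b2 : muSW.real B2 ≤ 2 * Real.exp (-(t ^ 3 * P / (2 * 10 ^ 8))) := by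
    by_cases hwm : w < m
    · have h4 := exit_loc (m := m) (n := n) (w := w) (t' := t / 2) (a := a) hn hw1 hwm
        (by positivity) (by linarith) (by linarith) ha (by
          have : 10 * a ^ 2 * (t / 2) * P ≤ 40 * a ^ 2 * t * P := by
            have h5 : 0 ≤ a ^ 2 * t * P := by positivity
            nlinarith
          exact this.trans hw40)
      refine h4.trans ?_
      have h5 : Real.exp (-((w : ℝ) ^ 3 / (2359296 * a ^ 6 * P ^ 2))) ≤
          Real.exp (-(t ^ 3 * P / 37)) := lt_exp_le N4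
      have h6 := hexp0 37 (by norm_num) (by norm_num)
      linarith
    · have : B2 = ∅ := by
        rw [Set.eq_empty_iff_forall_notMem]
        rintro x ⟨k, hk1, hk2, -⟩
        omega
      rw [this, measureReal_empty]
      positivity
  have b3 : muSW.real B3 ≤ 6 * Real.exp (-(t ^ 3 * P / (2 * 10 ^ 8))) :=
    ne_compare hm hn ht h1 h2
  have b4 : muSW.real B4 ≤ Real.exp (-(t ^ 3 * P / (2 * 10 ^ 8))) := by
    have h4 := lt_incr (m := m) (n := n) (z := z) (θ := ρ ^ 2 * z / (2 * w)) hρ0 hρ1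
      (by positivity) w
    refine h4.trans ?_
    have e : -(ρ ^ 2 * z / (2 * w) * z) + w * (ρ ^ 2 * z / (2 * w)) ^ 2 / ρ ^ 2 =
        -(ρ ^ 2 * z ^ 2 / (4 * w)) := by
      field_simp
      ring
    rw [e]
    refine (lt_exp_le ?_).trans (hexp0 164 (by norm_num) (by norm_num))
    refine N5.trans ?_
    refine div_le_div_of_nonneg_right ?_ (by positivity)
    exact mul_le_mul_of_nonneg_right (pow_le_pow_left₀ ha0.le haρ 2) (by positivity)
  have b5 : (PI ℕ).real B5 ≤ Real.exp (-(t ^ 3 * P / (2 * 10 ^ 8))) := by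
    have h4 := walk_max_up (a := a) (θ := a ^ 2 * z / (2 * w)) (z := z) ha0 (by positivity) (by
      rw [div_le_div_iff₀ (by positivity) (by positivity)]
      nlinarith [mul_le_mul_of_nonneg_left N7 ha0.le]) w
    refine h4.trans ?_
    have e : -(a ^ 2 * z / (2 * w) * z) + w * (a ^ 2 * z / (2 * w)) ^ 2 / a ^ 2 =
        -(a ^ 2 * z ^ 2 / (4 * w)) := by
      field_simp
      ring
    rw [e]
    exact (lt_exp_le N5).trans (hexp0 164 (by norm_num) (by norm_num))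
  set Bad : Set ((ℤ × ℤ → ℝ) × (ℕ → ℝ)) := {y | ∃ k : ℕ, 1 ≤ k ∧ k ≤ m ∧
      (√m + √n) ^ 2 - z < (∑ i ∈ Finset.Icc 1 k, y.2 i / a) +
        T y.1 ((k : ℤ), 1) ((m : ℤ), (n : ℤ)) ∧
      T y.1 (1, 1) ((m : ℤ), (n : ℤ)) ≤ (√m + √n) ^ 2 - 64 * t ^ 2 * P} with hBad
  have e0 : μ2.real Bad = μ.real (Bad ×ˢ Set.univ) := by
    rw [hμ, measureReal_prod_prod, probReal_univ, mul_one]
  have hsub : Bad ×ˢ (Set.univ : Set ((ℕ → ℝ) × (ℕ → ℝ))) ⊆
      (((fun ξ : ((ℤ × ℤ → ℝ) × (ℕ → ℝ)) × ((ℕ → ℝ) × (ℕ → ℝ)) =>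
        ((ξ.1.1, ξ.1.2, ξ.2.1) : SW)) ⁻¹' B2) ∪
      ((fun ξ : ((ℤ × ℤ → ℝ) × (ℕ → ℝ)) × ((ℕ → ℝ) × (ℕ → ℝ)) =>
        ((rot ξ.1.1, ξ.2) : SW)) ⁻¹' B3)) ∪
      (((fun ξ : ((ℤ × ℤ → ℝ) × (ℕ → ℝ)) × ((ℕ → ℝ) × (ℕ → ℝ)) =>
        ((rot ξ.1.1, ξ.2) : SW)) ⁻¹' B4) ∪
      ((fun ξ : ((ℤ × ℤ → ℝ) × (ℕ → ℝ)) × ((ℕ → ℝ) × (ℕ → ℝ)) => ξ.1.2) ⁻¹' B5)) := by
    rintro ⟨⟨ω, S⟩, y⟩ ⟨⟨k, hk1, hkm, hk2, hk3⟩, -⟩
    by_contra hcon
    simp only [Set.mem_union, Set.mem_preimage, not_or] at hcon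
    obtain ⟨⟨c2, c3⟩, c4, c5⟩ := hcon
    simp only at hk2 hk3
    rcases Nat.lt_or_ge w k with hwk | hwk
    · apply c2
      refine ⟨k, hwk, hkm, le_trans ?_ hk2.le⟩
      exact lt_ffb hm0 hn0 ha ha0 h1 h2 ht hz0 hP hz N3
    · -- the exit is close to the corner
      have hm1 : (1 : ℤ) ≤ (m : ℤ) := by exact_mod_cast hm
      have hn0' : (1 : ℤ) ≤ (n : ℤ) := by exact_mod_cast hn
      have hk0' : (1 : ℤ) ≤ (m : ℤ) + 1 - k := by
        have : (k : ℤ) ≤ m := by exact_mod_cast hkm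
        omega
      have hn1 : ((1 : ℤ), (1 : ℤ)) ≤ ((m : ℤ), (n : ℤ)) := Prod.mk_le_mk.2 ⟨hm1, hn0'⟩
      have hn2 : ((1 : ℤ), (1 : ℤ)) ≤ ((m : ℤ) + 1 - k, (n : ℤ)) := Prod.mk_le_mk.2 ⟨hk0', hn0'⟩
      have h4 : bl ρ (1 - ρ) (rot ω, y) ((m : ℤ), (n : ℤ)) -
          bl ρ (1 - ρ) (rot ω, y) ((m : ℤ) + 1 - k, (n : ℤ)) ≤
          T (rot ω) (1, 1) ((m : ℤ), (n : ℤ)) - T (rot ω) (1, 1) ((m : ℤ) + 1 - k, (n : ℤ)) := by
        by_contra h
        exact c3 ⟨k, hk1, hkm, not_le.1 h⟩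
      have r1 : T (rot ω) (1, 1) ((m : ℤ), (n : ℤ)) = T ω (1, 1) ((m : ℤ), (n : ℤ)) := by
        rw [hrot]
        simp only
        rw [lt_rot ω c _ _ hn1, hc]
        congr 1
        · ext <;> simp
        · ext <;> simp
      have r2 : T (rot ω) (1, 1) ((m : ℤ) + 1 - k, (n : ℤ)) =
          T ω ((k : ℤ), 1) ((m : ℤ), (n : ℤ)) := by
        rw [hrot]
        simp only
        rw [lt_rot ω c _ _ hn2, hc]
        congr 1
        · ext <;> simp
        · ext <;> simp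
      rw [r1, r2] at h4
      -- telescoping
      have tel : ∀ K : ℕ, ∑ i ∈ Finset.Icc 1 K, (1 / ρ -
          (bl ρ (1 - ρ) (rot ω, y) ((m : ℤ) + 1 - i, (n : ℤ)) -
            bl ρ (1 - ρ) (rot ω, y) ((m : ℤ) - i, (n : ℤ)))) =
          K * (1 / ρ) - (bl ρ (1 - ρ) (rot ω, y) ((m : ℤ), (n : ℤ)) -
            bl ρ (1 - ρ) (rot ω, y) ((m : ℤ) - K, (n : ℤ))) := by
        intro K
        induction K with
        | zero => simp
        | succ K ih =>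
          rw [Finset.sum_Icc_succ_top (by omega), ih]
          have e1 : (m : ℤ) + 1 - ((K + 1 : ℕ) : ℤ) = (m : ℤ) - K := by push_cast; ring
          rw [e1]
          push_cast
          ring
      have h5 : ((k - 1 : ℕ) : ℝ) * (1 / ρ) -
          (bl ρ (1 - ρ) (rot ω, y) ((m : ℤ), (n : ℤ)) -
            bl ρ (1 - ρ) (rot ω, y) ((m : ℤ) - ((k - 1 : ℕ) : ℤ), (n : ℤ))) < z := by
        rw [← tel (k - 1)]
        by_contra h
        exact c4 ⟨k - 1, by omega, by omega, not_lt.1 h⟩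
      have e2 : (m : ℤ) - ((k - 1 : ℕ) : ℤ) = (m : ℤ) + 1 - k := by
        push_cast [hk1]
        ring
      rw [e2] at h5
      have e3 : ((k - 1 : ℕ) : ℝ) = k - 1 := by push_cast [hk1]; ring
      rw [e3] at h5
      have h6 : ∑ i ∈ Finset.Icc 1 k, (S i / a - 1 / a) < z := by
        by_contra h
        exact c5 ⟨k, hwk, not_lt.1 h⟩
      rw [Finset.sum_sub_distrib, Finset.sum_const, Nat.card_Icc, nsmul_eq_mul] at h6
      have e4 : ((k + 1 - 1 : ℕ) : ℝ) = k := by simp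
      rw [e4] at h6
      have h7 : (k : ℝ) * (1 / a - 1 / ρ) ≤ w * (1 / a - 1 / ρ) := by
        refine mul_le_mul_of_nonneg_right (by exact_mod_cast hwk) ?_
        have := one_div_le_one_div_of_le ha0 haρ
        linarith
      have h8 : 64 * t ^ 2 * P = 64 * z := by rw [hz]; ring
      rw [h8] at hk3
      exact lt_fin h4 h5 h6 h7 N6 hk2 hk3
  rw [e0]
  calc μ.real (Bad ×ˢ Set.univ) ≤ _ := measureReal_mono hsub
    _ ≤ (muSW.real B2 + muSW.real B3) + (muSW.real B4 + (PI ℕ).real B5) := by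
        refine (measureReal_union_le _ _).trans (add_le_add ?_ ?_)
        · exact (measureReal_union_le _ _).trans (add_le_add (lt_pre p1 B2) (lt_pre p3 B3))
        · exact (measureReal_union_le _ _).trans (add_le_add (lt_pre p3 B4) (lt_pre p2 B5))
    _ ≤ _ := by linarith

end aux

theorem lower_tail {m n : ℕ} (hm : 1 ≤ m) (hn : 1 ≤ n) {t : ℝ} (ht : 0 < t)
    (h1 : t ≤ al m n / 16) (h2 : t ≤ (1 - al m n) / 16) :
    (PI (ℤ × ℤ)).real {ω | T ω (1, 1) ((m : ℤ), (n : ℤ)) ≤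
        (√m + √n) ^ 2 - 64 * t ^ 2 * Ph m n} ≤
      21 * Real.exp (-(t ^ 3 * Ph m n / (2 * 10 ^ 8))) := by
  have hm0 : (0 : ℝ) < m := by exact_mod_cast hm
  have hn0 : (0 : ℝ) < n := by exact_mod_cast hn
  have hA1 : al m n < 1 := al_lt_one hm0 hn0
  have hA0 : 0 < al m n := al_pos hm0 hn0
  rcases lt_or_ge (t ^ 3 * Ph m n) 1 with h3 | h3
  · refine measureReal_le_one.trans ?_
    have h4 : Real.exp (-1) ≤ Real.exp (-(t ^ 3 * Ph m n / (2 * 10 ^ 8))) := by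
      refine Real.exp_le_exp.2 ?_
      have : t ^ 3 * Ph m n / (2 * 10 ^ 8) ≤ 1 := by
        rw [div_le_one (by norm_num)]
        linarith
      linarith
    have h5 := Real.add_one_le_exp (-1 : ℝ)
    have h6 : (0.36 : ℝ) < Real.exp (-1) := by
      have := Real.exp_neg_one_gt_d9
      linarith
    linarith
  set A := al m n with hA
  set P := Ph m n with hP
  have hsw : al n m = 1 - A := al_swap hm0 hn0
  have hPs : Ph n m = P := Ph_swap _ _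
  set Ev : Set (ℤ × ℤ → ℝ) := {ω | T ω (1, 1) ((m : ℤ), (n : ℤ)) ≤
        (√m + √n) ^ 2 - 64 * t ^ 2 * P} with hEv
  have e0 : (PI (ℤ × ℤ)).real Ev = muSW.real (Ev ×ˢ (Set.univ : Set ((ℕ → ℝ) × (ℕ → ℝ)))) := by
    unfold muSW
    rw [measureReal_prod_prod, probReal_univ, mul_one]
  -- big_low
  have L1 := big_low (ρ := A) (t := t) ht (by linarith) (by linarith) m n hm hn (t ^ 2 * P)
  have hffA : (m : ℝ) / A + n / (1 - A) = (√(m : ℝ) + √(n : ℝ)) ^ 2 := by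
    have := ff_eq (m := (m : ℝ)) (n := (n : ℝ)) (ρ := A) hm0 hn0 hA0 hA1
    rw [hA, sub_self] at this
    rw [hA]
    simpa [ff] using this
  rw [hffA] at L1
  have L1' : Real.exp (-(t * (t ^ 2 * P))) ≤ Real.exp (-(t ^ 3 * P / (2 * 10 ^ 8))) := by
    refine Real.exp_le_exp.2 ?_
    have e : t * (t ^ 2 * P) = t ^ 3 * P := by ring
    rw [e]
    have : t ^ 3 * P / (2 * 10 ^ 8) ≤ t ^ 3 * P := div_le_self (by linarith) (by norm_num)
    linarith
  -- the two sides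
  have L2 := lt_side hm hn ht h1 h2 h3
  have L3 := lt_side (m := n) (n := m) hn hm ht (by rw [hsw]; exact h2)
    (by rw [hsw]; linarith) (by rw [hPs]; exact h3)
  rw [hPs, hsw] at L3
  have hcomm : (√(n : ℝ) + √(m : ℝ)) ^ 2 = (√(m : ℝ) + √(n : ℝ)) ^ 2 := by rw [add_comm]
  rw [hcomm] at L3
  set swp : (ℤ × ℤ → ℝ) → (ℤ × ℤ → ℝ) := fun ω v => ω v.swap with hswp
  have hswpm : MeasurePreserving swp (PI (ℤ × ℤ)) (PI (ℤ × ℤ)) :=
    lt_reindex (e := fun v : ℤ × ℤ => v.swap) Prod.swap_injective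
  have p1 : MeasurePreserving (fun x : SW => (x.1, x.2.1)) muSW
      ((PI (ℤ × ℤ)).prod (PI ℕ)) := by
    have q1 : MeasurePreserving (Prod.map (id : (ℤ × ℤ → ℝ) → (ℤ × ℤ → ℝ))
        (Prod.fst : (ℕ → ℝ) × (ℕ → ℝ) → (ℕ → ℝ))) muSW ((PI (ℤ × ℤ)).prod (PI ℕ)) :=
      (MeasurePreserving.id _).prod measurePreserving_fst
    exact q1
  have p2 : MeasurePreserving (fun x : SW => (swp x.1, x.2.2)) muSW
      ((PI (ℤ × ℤ)).prod (PI ℕ)) := by
    have q1 : MeasurePreserving (Prod.map swp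
        (Prod.snd : (ℕ → ℝ) × (ℕ → ℝ) → (ℕ → ℝ))) muSW ((PI (ℤ × ℤ)).prod (PI ℕ)) :=
      hswpm.prod measurePreserving_snd
    exact q1
  set B1 : Set SW := {x : SW | bl (A - t / 2) (1 - A - t / 2) x ((m : ℤ), (n : ℤ)) ≤
      (√(m : ℝ) + √(n : ℝ)) ^ 2 - t ^ 2 * P} with hB1
  set B2 : Set ((ℤ × ℤ → ℝ) × (ℕ → ℝ)) := {y | ∃ k : ℕ, 1 ≤ k ∧ k ≤ m ∧
      (√m + √n) ^ 2 - t ^ 2 * P < (∑ i ∈ Finset.Icc 1 k, y.2 i / (A - t / 2)) +
        T y.1 ((k : ℤ), 1) ((m : ℤ), (n : ℤ)) ∧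
      T y.1 (1, 1) ((m : ℤ), (n : ℤ)) ≤ (√m + √n) ^ 2 - 64 * t ^ 2 * P} with hB2
  set B3 : Set ((ℤ × ℤ → ℝ) × (ℕ → ℝ)) := {y | ∃ k : ℕ, 1 ≤ k ∧ k ≤ n ∧
      (√m + √n) ^ 2 - t ^ 2 * P < (∑ i ∈ Finset.Icc 1 k, y.2 i / (1 - A - t / 2)) +
        T y.1 ((k : ℤ), 1) ((n : ℤ), (m : ℤ)) ∧
      T y.1 (1, 1) ((n : ℤ), (m : ℤ)) ≤ (√m + √n) ^ 2 - 64 * t ^ 2 * P} with hB3
  have hsub : Ev ×ˢ (Set.univ : Set ((ℕ → ℝ) × (ℕ → ℝ))) ⊆
      B1 ∪ (((fun x : SW => (x.1, x.2.1)) ⁻¹' B2) ∪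
        ((fun x : SW => (swp x.1, x.2.2)) ⁻¹' B3)) := by
    rintro ⟨ω, S, W⟩ ⟨hω, -⟩
    by_cases hb : ((ω, S, W) : SW) ∈ B1
    · exact Or.inl hb
    · right
      have hb' : (√(m : ℝ) + √(n : ℝ)) ^ 2 - t ^ 2 * P <
          bl (A - t / 2) (1 - A - t / 2) (ω, S, W) ((m : ℤ), (n : ℤ)) := not_le.1 hb
      have hω' : T ω (1, 1) ((m : ℤ), (n : ℤ)) ≤ (√m + √n) ^ 2 - 64 * t ^ 2 * P := hω
      have hex := exists_exit ω (fun i => S i / (A - t / 2)) (fun j => W j / (1 - A - t / 2))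
        (c := (0 : ℤ × ℤ)) (v := ((m : ℤ), (n : ℤ))) (by
          change (0 : ℤ) < m
          exact_mod_cast hm) (by
          change (0 : ℤ) < n
          exact_mod_cast hn)
      rcases hex with ⟨k, hk1, hk2, hk3⟩ | ⟨k, hk1, hk2, hk3⟩
      · left
        have hkm : k ≤ m := by
          have : (0 : ℤ) + k ≤ m := hk2
          omega
        refine ⟨k, hk1, hkm, ?_, hω'⟩
        simp only [Prod.fst_zero, Prod.snd_zero, zero_add] at hk3
        simp only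
        rw [← hk3]
        exact hb'
      · right
        have hkm : k ≤ n := by
          have : (0 : ℤ) + k ≤ n := hk2
          omega
        have s1 : T (swp ω) ((k : ℤ), 1) ((n : ℤ), (m : ℤ)) =
            T ω (1, (k : ℤ)) ((m : ℤ), (n : ℤ)) := by
          rw [hswp]
          exact T_swap ω _ _
        have s2 : T (swp ω) (1, 1) ((n : ℤ), (m : ℤ)) = T ω (1, 1) ((m : ℤ), (n : ℤ)) := by
          rw [hswp]
          exact T_swap ω _ _
        refine ⟨k, hk1, hkm, ?_, ?_⟩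
        · simp only
          rw [s1]
          simp only [Prod.fst_zero, Prod.snd_zero, zero_add] at hk3
          rw [← hk3]
          exact hb'
        · simp only
          rw [s2]
          exact hω'
  rw [e0]
  calc muSW.real (Ev ×ˢ (Set.univ : Set ((ℕ → ℝ) × (ℕ → ℝ)))) ≤ _ := measureReal_mono hsub
    _ ≤ muSW.real B1 + (((PI (ℤ × ℤ)).prod (PI ℕ)).real B2 +
        ((PI (ℤ × ℤ)).prod (PI ℕ)).real B3) := by
        refine (measureReal_union_le _ _).trans (add_le_add le_rfl ?_)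
        exact (measureReal_union_le _ _).trans (add_le_add (lt_pre p1 B2) (lt_pre p2 B3))
    _ ≤ _ := by linarith

end BGE
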