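import Pool.Agent.BGE.Base2

/-!
BGE / T3, T4. Sums of squares of weights along paths, and thinning.

`sq_paths`: let `u ≤ v`, `R = lev v - lev u + 1`, `B ≥ 1`. With probability at least
`1 - 2 R² e^{-B}`, every path from `u` to `v` satisfies `∑ ω² ≤ 160 R + (B+1)³`.

Proof. Every path from `u` to `v` stays in the rectangle `[u, v]`, which has at most `R²` sites; the
maximum of the weights is `≤ B` outside of an event of probability `R² e^{-B}`.
For an integer `j ≥ 0` let `N_j` be the maximal number of sites with weight `> j` on a path from `u`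
to `v`. If `N_j ≥ m` then there are `m` distinct sites `z_1 ≤ z_2 ≤ ... ≤ z_m` (in the product
order) in the rectangle with weight `> j`. Their first coordinates form a weakly increasing sequence
in an interval of at most `R` integers: at most `C(R+m-1, m)` possibilities, and the same for the
second coordinates; for `m ≤ R`, `C(R+m,m) ≤ (e (R+m)/m)^m ≤ (2 e R/m)^m`. So
`P(N_j ≥ m) ≤ (2 e R/m)^{2m} e^{-j m} = ((2 e R/m)² e^{-j})^m`. For an integer
`m ≥ 2 e² R e^{-j/2} + B` the base is `≤ e^{-2}`, and the probability is `≤ e^{-2m} ≤ e^{-2B}`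
(for `m > R` it is zero). So outside of an event of probability `(B+1) e^{-2B} ≤ e^{-B}` we have
`N_j ≤ 2 e² R e^{-j/2} + B + 1` for all integers `0 ≤ j ≤ B`. If the maximum of the weights is
`≤ B`, then on each path `∑ ω² ≤ ∑_{0 ≤ j ≤ B} (2j+1) N_j` (because
`ω² ≤ ⌈ω⌉² = ∑_{j < ⌈ω⌉} (2j+1)` and `j < ⌈ω⌉` iff `j < ω`)
`≤ 2 e² R ∑_j (2j+1) e^{-j/2} + (B+1)² (B+1) ≤ 160 R + (B+1)³`
(`∑_{j ≥ 0} (2j+1) e^{-j/2} < 10.5`, `2 e² < 14.8`).

-/

namespace BGE

open MeasureTheory ProbabilityTheory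

private lemma sqp_Iic {x : ℝ} (hx : 0 ≤ x) : E1.real (Set.Iic x) = 1 - Real.exp (-x) := by
  have h := cdf_expMeasure_eq (r := 1) one_pos x
  have hp : IsProbabilityMeasure (expMeasure 1) := isProbabilityMeasure_expMeasure one_pos
  rw [cdf_eq_real, if_pos hx, one_mul] at h
  exact h

private lemma sqp_Ioi {x : ℝ} (hx : 0 ≤ x) : E1.real (Set.Ioi x) = Real.exp (-x) := by
  have h := sqp_Iic hx
  rw [← Set.compl_Iic, measureReal_compl measurableSet_Iic, h, probReal_univ]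
  ring

private lemma sqp_Iio : E1.real (Set.Iio 0) = 0 := by
  have h := sqp_Iic (le_refl (0 : ℝ))
  rw [neg_zero, Real.exp_zero, sub_self] at h
  have h1 : E1.real (Set.Iio 0) ≤ E1.real (Set.Iic 0) :=
    measureReal_mono Set.Iio_subset_Iic_self
  rw [h] at h1
  exact le_antisymm h1 measureReal_nonneg

/-- the probability that all the weights at `m` distinct sites are larger than `x` -/
private lemma sqp_chain {m : ℕ} {z : Fin m → ℤ × ℤ} (hz : Function.Injective z) {x : ℝ}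
    (hx : 0 ≤ x) :
    (PI (ℤ × ℤ)).real {ω | ∀ i, x < ω (z i)} = Real.exp (-x) ^ m := by
  classical
  have h1 : {ω : ℤ × ℤ → ℝ | ∀ i, x < ω (z i)} =
      Set.pi ((Finset.univ.image z : Finset (ℤ × ℤ)) : Set (ℤ × ℤ)) (fun _ => Set.Ioi x) := by
    ext ω
    simp [Set.mem_pi]
  rw [measureReal_def, h1]
  unfold PI
  rw [Measure.infinitePi_pi _ (fun _ _ => measurableSet_Ioi), Finset.prod_const,
    Finset.card_image_of_injective _ hz, Finset.card_univ, Fintype.card_fin, ENNReal.toReal_pow]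
  have h2 := sqp_Ioi hx
  rw [measureReal_def] at h2
  rw [h2]

private lemma sqp_one (z : ℤ × ℤ) {x : ℝ} (hx : 0 ≤ x) :
    (PI (ℤ × ℤ)).real {ω | x < ω z} = Real.exp (-x) := by
  have h := sqp_chain (z := fun _ : Fin 1 => z) (Function.injective_of_subsingleton _) hx
  rw [pow_one] at h
  rw [← h]
  congr 1
  ext ω
  simp

private lemma sqp_neg (z : ℤ × ℤ) : (PI (ℤ × ℤ)).real {ω | ω z < 0} = 0 := by
  classical
  have h1 : {ω : ℤ × ℤ → ℝ | ω z < 0} =
      Set.pi (({z} : Finset (ℤ × ℤ)) : Set (ℤ × ℤ)) (fun _ => Set.Iio 0) := by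
    ext ω
    simp
  rw [measureReal_def, h1]
  unfold PI
  rw [Measure.infinitePi_pi _ (fun _ _ => measurableSet_Iio), Finset.prod_singleton]
  exact sqp_Iio

private lemma sqp_toNat {k : ℤ} (h : 0 ≤ k) : ((k.toNat : ℕ) : ℝ) = (k : ℝ) := by
  have h1 := congrArg (fun n : ℤ => (n : ℝ)) (Int.toNat_of_nonneg h)
  simpa only [Int.cast_natCast] using h1

private lemma sqp_card (u v : ℤ × ℤ) (h : u ≤ v) :
    ((Finset.Icc u v).card : ℝ) ≤ (((lev v - lev u : ℤ) : ℝ) + 1) ^ 2 := by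
  have h1 : u.1 ≤ v.1 := h.1
  have h2 : u.2 ≤ v.2 := h.2
  have h3 : (Finset.Icc u v).card = (v.1 + 1 - u.1).toNat * (v.2 + 1 - u.2).toNat := by
    rw [Finset.card_Icc_prod, Int.card_Icc, Int.card_Icc]
  have h4 : (((v.1 + 1 - u.1).toNat : ℕ) : ℝ) = (v.1 : ℝ) + 1 - u.1 := by
    rw [sqp_toNat (by linarith)]
    push_cast
    ring
  have h4' : (((v.2 + 1 - u.2).toNat : ℕ) : ℝ) = (v.2 : ℝ) + 1 - u.2 := by
    rw [sqp_toNat (by linarith)]
    push_cast
    ring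
  rw [h3]
  push_cast
  rw [h4, h4']
  have h6 : (u.1 : ℝ) ≤ v.1 := by exact_mod_cast h1
  have h7 : (u.2 : ℝ) ≤ v.2 := by exact_mod_cast h2
  unfold lev
  push_cast
  rw [sq]
  apply mul_le_mul <;> linarith

theorem max_tail (u v : ℤ × ℤ) (h : u ≤ v) {B : ℝ} (hB : 0 ≤ B) :
    (PI (ℤ × ℤ)).real {ω | ∃ z, u ≤ z ∧ z ≤ v ∧ B < ω z} ≤
      (((lev v - lev u : ℤ) : ℝ) + 1) ^ 2 * Real.exp (-B) := by
  have h1 : {ω : ℤ × ℤ → ℝ | ∃ z, u ≤ z ∧ z ≤ v ∧ B < ω z} ⊆
      ⋃ z ∈ Finset.Icc u v, {ω | B < ω z} := by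
    rintro ω ⟨z, h1, h2, h3⟩
    simp only [Set.mem_iUnion]
    exact ⟨z, Finset.mem_Icc.2 ⟨h1, h2⟩, h3⟩
  calc (PI (ℤ × ℤ)).real {ω | ∃ z, u ≤ z ∧ z ≤ v ∧ B < ω z}
      ≤ (PI (ℤ × ℤ)).real (⋃ z ∈ Finset.Icc u v, {ω | B < ω z}) := measureReal_mono h1 (measure_ne_top _ _)
    _ ≤ ∑ z ∈ Finset.Icc u v, (PI (ℤ × ℤ)).real {ω | B < ω z} :=
        measureReal_biUnion_finset_le _ _
    _ = (Finset.Icc u v).card * Real.exp (-B) := by
        rw [Finset.sum_congr rfl fun z _ => sqp_one z hB, Finset.sum_const, nsmul_eq_mul]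
    _ ≤ _ := mul_le_mul_of_nonneg_right (sqp_card u v h) (Real.exp_pos _).le

private lemma sqp_neg_all (u v : ℤ × ℤ) :
    (PI (ℤ × ℤ)).real {ω | ∃ z, u ≤ z ∧ z ≤ v ∧ ω z < 0} ≤ 0 := by
  have h1 : {ω : ℤ × ℤ → ℝ | ∃ z, u ≤ z ∧ z ≤ v ∧ ω z < 0} ⊆
      ⋃ z ∈ Finset.Icc u v, {ω | ω z < 0} := by
    rintro ω ⟨z, h1, h2, h3⟩
    simp only [Set.mem_iUnion]
    exact ⟨z, Finset.mem_Icc.2 ⟨h1, h2⟩, h3⟩
  calc (PI (ℤ × ℤ)).real {ω | ∃ z, u ≤ z ∧ z ≤ v ∧ ω z < 0}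
      ≤ (PI (ℤ × ℤ)).real (⋃ z ∈ Finset.Icc u v, {ω | ω z < 0}) := measureReal_mono h1 (measure_ne_top _ _)
    _ ≤ ∑ z ∈ Finset.Icc u v, (PI (ℤ × ℤ)).real {ω | ω z < 0} :=
        measureReal_biUnion_finset_le _ _
    _ = 0 := Finset.sum_eq_zero fun z _ => sqp_neg z

/-- levels of the path with a weight larger than `x` -/
private noncomputable def sqpN (ω : ℤ × ℤ → ℝ) (X : ℤ → ℤ) (a b : ℤ) (x : ℝ) : Finset ℤ :=
  (Finset.Icc a b).filter fun l => x < ω (pt X l)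

/-- some path has at least `m` weights larger than `x` -/
private def sqpE (u v : ℤ × ℤ) (x : ℝ) (m : ℕ) : Set (ℤ × ℤ → ℝ) :=
  {ω | ∃ X : ℤ → ℤ, UR X (lev u) (lev v) ∧ pt X (lev u) = u ∧ pt X (lev v) = v ∧
    m ≤ (sqpN ω X (lev u) (lev v) x).card}

/-- the sites of the chain given by the levels `I` and the numbers `J` -/
private noncomputable def sqpz (m : ℕ) (p : Finset ℤ × Finset ℤ) : Fin m → ℤ × ℤ := fun i =>
  if h : p.1.card = m ∧ p.2.card = m then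
    (p.2.orderEmbOfFin h.2 i - p.1.orderEmbOfFin h.1 i,
      2 * p.1.orderEmbOfFin h.1 i - p.2.orderEmbOfFin h.2 i)
  else 0

private lemma sqpE_sub (u v : ℤ × ℤ) (x : ℝ) (m : ℕ) :
    sqpE u v x m ⊆ ⋃ p ∈ Finset.powersetCard m (Finset.Icc (lev u) (lev v)) ×ˢ
      Finset.powersetCard m (Finset.Icc (u.1 + lev u) (v.1 + lev v)),
      {ω | ∀ i, x < ω (sqpz m p i)} := by
  rintro ω ⟨X, hX, hu, hv, hm⟩
  obtain ⟨I, hI, hIc⟩ := Finset.exists_subset_card_eq hm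
  have hIab : ∀ l ∈ I, lev u ≤ l ∧ l ≤ lev v := fun l hl =>
    Finset.mem_Icc.1 (Finset.mem_filter.1 (hI hl)).1
  have hIx : ∀ l ∈ I, x < ω (pt X l) := fun l hl => (Finset.mem_filter.1 (hI hl)).2
  have hmono : ∀ l l' : ℤ, lev u ≤ l → l < l' → l' ≤ lev v → X l + l < X l' + l' := by
    intro l l' h1 h2 h3
    have h4 := (pt_le_pt hX h1 h2.le h3).1
    have h5 : X l ≤ X l' := h4
    linarith
  set J : Finset ℤ := I.image fun l => X l + l with hJ
  have hinj : Set.InjOn (fun l => X l + l) (I : Set ℤ) := by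
    intro l hl l' hl' he
    have he' : X l + l = X l' + l' := he
    rcases lt_trichotomy l l' with h1 | h1 | h1
    · have := hmono l l' (hIab l hl).1 h1 (hIab l' hl').2
      omega
    · exact h1
    · have := hmono l' l (hIab l' hl').1 h1 (hIab l hl).2
      omega
  have hJc : J.card = m := by rw [hJ, Finset.card_image_of_injOn hinj, hIc]
  have hJo : (fun i => X (I.orderEmbOfFin hIc i) + I.orderEmbOfFin hIc i) =
      J.orderEmbOfFin hJc := by
    apply Finset.orderEmbOfFin_unique hJc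
    · intro i
      exact Finset.mem_image_of_mem _ (Finset.orderEmbOfFin_mem I hIc i)
    · intro i i' hii
      have h1 : I.orderEmbOfFin hIc i < I.orderEmbOfFin hIc i' :=
        (I.orderEmbOfFin hIc).strictMono hii
      exact hmono _ _ (hIab _ (Finset.orderEmbOfFin_mem I hIc i)).1 h1
        (hIab _ (Finset.orderEmbOfFin_mem I hIc i')).2
  simp only [Set.mem_iUnion]
  refine ⟨(I, J), ?_, ?_⟩
  · rw [Finset.mem_product, Finset.mem_powersetCard, Finset.mem_powersetCard]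
    refine ⟨⟨fun l hl => Finset.mem_Icc.2 (hIab l hl), hIc⟩, ⟨?_, hJc⟩⟩
    intro y hy
    obtain ⟨l, hl, rfl⟩ := Finset.mem_image.1 hy
    have h1 := (pt_le_pt hX le_rfl (hIab l hl).1 (hIab l hl).2).1
    have h2 := (pt_le_pt hX (hIab l hl).1 (hIab l hl).2 le_rfl).1
    rw [hu] at h1
    rw [hv] at h2
    have h3 : u.1 ≤ X l := h1
    have h4 : X l ≤ v.1 := h2
    have h5 := hIab l hl
    rw [Finset.mem_Icc]
    constructor <;> linarith
  · intro i
    have h1 : sqpz m (I, J) i = pt X (I.orderEmbOfFin hIc i) := by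
      unfold sqpz
      rw [dif_pos ⟨hIc, hJc⟩]
      have h2 := congrFun hJo i
      rw [← h2]
      unfold pt
      simp only
      ext
      · simp
      · simp only
        ring
    rw [h1]
    exact hIx _ (Finset.orderEmbOfFin_mem I hIc i)

private lemma sqpz_inj (m : ℕ) (p : Finset ℤ × Finset ℤ) (h1 : p.1.card = m) (h2 : p.2.card = m) :
    Function.Injective (sqpz m p) := by
  intro i i' h
  unfold sqpz at h
  rw [dif_pos ⟨h1, h2⟩, dif_pos ⟨h1, h2⟩] at h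
  have h3 := congrArg Prod.fst h
  have h4 := congrArg Prod.snd h
  simp only at h3 h4
  have h5 : p.1.orderEmbOfFin h1 i = p.1.orderEmbOfFin h1 i' := by linarith
  exact (p.1.orderEmbOfFin h1).injective h5

private lemma sqp_fact (m : ℕ) (hm : 1 ≤ m) : 1 / (m.factorial : ℝ) ≤ (Real.exp 1 / m) ^ m := by
  have hm0 : (0 : ℝ) < m := by exact_mod_cast hm
  have h1 := Real.pow_div_factorial_le_exp (x := (m : ℝ)) hm0.le m
  have h2 : Real.exp (m : ℝ) = Real.exp 1 ^ m := by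
    rw [← Real.exp_nat_mul, mul_one]
  rw [h2] at h1
  have h3 : (0 : ℝ) < m.factorial := by exact_mod_cast Nat.factorial_pos m
  rw [div_pow, div_le_div_iff₀ h3 (by positivity), one_mul]
  rw [div_le_iff₀ h3] at h1
  exact h1

private lemma sqpE_le {u v : ℤ × ℤ} (h : u ≤ v) {x : ℝ} (hx : 0 ≤ x) {m : ℕ} (hm : 1 ≤ m) :
    (PI (ℤ × ℤ)).real (sqpE u v x m) ≤
      (2 * (((lev v - lev u : ℤ) : ℝ) + 1) ^ 2 * Real.exp 1 ^ 2 * Real.exp (-x) / (m : ℝ) ^ 2) ^ m := by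
  have h1 : u.1 ≤ v.1 := h.1
  have h2 : u.2 ≤ v.2 := h.2
  have hlev : lev u ≤ lev v := by unfold lev; linarith
  have hm0 : (0 : ℝ) < m := by exact_mod_cast hm
  set R : ℝ := ((lev v - lev u : ℤ) : ℝ) + 1 with hR
  have hR1 : 1 ≤ R := by
    have h3 : (0 : ℤ) ≤ lev v - lev u := by linarith
    have h4 : (0 : ℝ) ≤ ((lev v - lev u : ℤ) : ℝ) := by exact_mod_cast h3
    rw [hR]
    linarith
  have hR0 : 0 < R := by linarith
  have c1 : (((Finset.powersetCard m (Finset.Icc (lev u) (lev v))).card : ℕ) : ℝ) ≤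
      R ^ m / m.factorial := by
    rw [Finset.card_powersetCard, Int.card_Icc]
    have e1 : (((lev v + 1 - lev u).toNat : ℕ) : ℝ) = R := by
      rw [sqp_toNat (by linarith), hR]
      push_cast
      ring
    have h5 := Nat.choose_le_pow_div (α := ℝ) m (lev v + 1 - lev u).toNat
    rwa [e1] at h5
  have c2 : (((Finset.powersetCard m (Finset.Icc (u.1 + lev u) (v.1 + lev v))).card : ℕ) : ℝ) ≤
      (2 * R) ^ m / m.factorial := by
    rw [Finset.card_powersetCard, Int.card_Icc]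
    have e1 : (((v.1 + lev v + 1 - (u.1 + lev u)).toNat : ℕ) : ℝ) ≤ 2 * R := by
      have h5 : v.1 + lev v + 1 - (u.1 + lev u) ≤ 2 * (lev v - lev u) + 1 := by
        unfold lev
        linarith
      have h6 : ((v.1 + lev v + 1 - (u.1 + lev u) : ℤ) : ℝ) ≤
          ((2 * (lev v - lev u) + 1 : ℤ) : ℝ) := by exact_mod_cast h5
      rw [sqp_toNat (by linarith)]
      refine h6.trans ?_
      rw [hR]
      push_cast
      linarith
    refine (Nat.choose_le_pow_div (α := ℝ) m _).trans ?_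
    gcongr
  have hf := sqp_fact m hm
  calc (PI (ℤ × ℤ)).real (sqpE u v x m)
      ≤ (PI (ℤ × ℤ)).real (⋃ p ∈ Finset.powersetCard m (Finset.Icc (lev u) (lev v)) ×ˢ
          Finset.powersetCard m (Finset.Icc (u.1 + lev u) (v.1 + lev v)),
          {ω | ∀ i, x < ω (sqpz m p i)}) := measureReal_mono (sqpE_sub u v x m) (measure_ne_top _ _)
    _ ≤ ∑ p ∈ Finset.powersetCard m (Finset.Icc (lev u) (lev v)) ×ˢ
          Finset.powersetCard m (Finset.Icc (u.1 + lev u) (v.1 + lev v)),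
          (PI (ℤ × ℤ)).real {ω | ∀ i, x < ω (sqpz m p i)} := measureReal_biUnion_finset_le _ _
    _ = ((Finset.powersetCard m (Finset.Icc (lev u) (lev v))).card : ℝ) *
          ((Finset.powersetCard m (Finset.Icc (u.1 + lev u) (v.1 + lev v))).card : ℝ) *
          Real.exp (-x) ^ m := by
        have h3 : ∀ p ∈ Finset.powersetCard m (Finset.Icc (lev u) (lev v)) ×ˢ
            Finset.powersetCard m (Finset.Icc (u.1 + lev u) (v.1 + lev v)),
            (PI (ℤ × ℤ)).real {ω | ∀ i, x < ω (sqpz m p i)} = Real.exp (-x) ^ m := by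
          intro p hp
          rw [Finset.mem_product, Finset.mem_powersetCard, Finset.mem_powersetCard] at hp
          exact sqp_chain (sqpz_inj m p hp.1.2 hp.2.2) hx
        rw [Finset.sum_congr rfl h3, Finset.sum_const, Finset.card_product, nsmul_eq_mul]
        push_cast
        ring
    _ ≤ (R ^ m / m.factorial) * ((2 * R) ^ m / m.factorial) * Real.exp (-x) ^ m := by gcongr
    _ = R ^ m * (2 * R) ^ m * Real.exp (-x) ^ m * (1 / (m.factorial : ℝ)) ^ 2 := by ring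
    _ ≤ R ^ m * (2 * R) ^ m * Real.exp (-x) ^ m * ((Real.exp 1 / m) ^ m) ^ 2 := by gcongr
    _ = (2 * R ^ 2 * Real.exp 1 ^ 2 * Real.exp (-x) / (m : ℝ) ^ 2) ^ m := by
        rw [← pow_mul, mul_comm m 2, pow_mul, ← mul_pow, ← mul_pow, ← mul_pow]
        congr 1
        field_simp

private lemma sqpE_tail {u v : ℤ × ℤ} (h : u ≤ v) {x B : ℝ} (hx : 0 ≤ x) (hB : 1 ≤ B) {m : ℕ}
    (hm : 12 * (((lev v - lev u : ℤ) : ℝ) + 1) * Real.exp (-x / 2) + B ≤ m) :
    (PI (ℤ × ℤ)).real (sqpE u v x m) ≤ Real.exp (-(2 * B)) := by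
  have hlev : lev u ≤ lev v := by
    have h1 : u.1 ≤ v.1 := h.1
    have h2 : u.2 ≤ v.2 := h.2
    unfold lev
    linarith
  set R : ℝ := ((lev v - lev u : ℤ) : ℝ) + 1 with hR
  have hR1 : 1 ≤ R := by
    have h3 : (0 : ℤ) ≤ lev v - lev u := by linarith
    have h4 : (0 : ℝ) ≤ ((lev v - lev u : ℤ) : ℝ) := by exact_mod_cast h3
    rw [hR]
    linarith
  have hR0 : 0 < R := by linarith
  have hpos : 0 ≤ 12 * R * Real.exp (-x / 2) := by positivity
  have hmB : B ≤ m := by linarith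
  have hm1 : 1 ≤ m := by
    have h3 : (1 : ℝ) ≤ m := by linarith
    exact_mod_cast h3
  have hm0 : (0 : ℝ) < m := by linarith
  have h12 : 12 * R * Real.exp (-x / 2) ≤ m := by linarith
  have hbase : 2 * R ^ 2 * Real.exp 1 ^ 2 * Real.exp (-x) / (m : ℝ) ^ 2 ≤ Real.exp (-2) := by
    rw [div_le_iff₀ (by positivity)]
    have e1 : (12 * R * Real.exp (-x / 2)) ^ 2 ≤ (m : ℝ) ^ 2 := pow_le_pow_left₀ hpos h12 2
    have e2 : (12 * R * Real.exp (-x / 2)) ^ 2 = 144 * R ^ 2 * Real.exp (-x) := by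
      rw [mul_pow, mul_pow, ← Real.exp_nat_mul]
      have : ((2 : ℕ) : ℝ) * (-x / 2) = -x := by push_cast; ring
      rw [this]
      ring
    rw [e2] at e1
    have e3 : Real.exp 1 ^ 2 * 2 ≤ 144 * Real.exp (-2) := by
      have h5 : Real.exp (-2) = (Real.exp 1 ^ 2)⁻¹ := by
        rw [Real.exp_neg, ← Real.exp_nat_mul]
        norm_num
      have h6 : Real.exp 1 < 2.7182818286 := Real.exp_one_lt_d9
      have h7 : 0 < Real.exp 1 := Real.exp_pos 1
      have h8 : Real.exp 1 ^ 2 ≤ 8 := by nlinarith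
      rw [h5, ← div_eq_mul_inv, le_div_iff₀ (by positivity)]
      nlinarith [sq_nonneg (Real.exp 1), pow_pos h7 2]
    calc 2 * R ^ 2 * Real.exp 1 ^ 2 * Real.exp (-x)
        = (Real.exp 1 ^ 2 * 2) * (R ^ 2 * Real.exp (-x)) := by ring
      _ ≤ (144 * Real.exp (-2)) * (R ^ 2 * Real.exp (-x)) := by gcongr
      _ = Real.exp (-2) * (144 * R ^ 2 * Real.exp (-x)) := by ring
      _ ≤ Real.exp (-2) * (m : ℝ) ^ 2 := by gcongr
  refine (sqpE_le h hx hm1).trans ?_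
  calc (2 * R ^ 2 * Real.exp 1 ^ 2 * Real.exp (-x) / (m : ℝ) ^ 2) ^ m ≤ Real.exp (-2) ^ m := by
        gcongr
    _ = Real.exp (m * (-2)) := by rw [← Real.exp_nat_mul]
    _ ≤ Real.exp (-(2 * B)) := Real.exp_le_exp.2 (by linarith)

private lemma sqp_geom (n : ℕ) :
    ∑ j ∈ Finset.range n, (2 * (j : ℝ) + 1) * Real.exp (-(j : ℝ) / 2) ≤ 11 := by
  set q : ℝ := Real.exp (-1 / 2) with hq
  have hq0 : 0 < q := Real.exp_pos _
  have hq1 : q ≤ 0.61 := by
    have h1 : q ^ 2 < 0.61 ^ 2 := by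
      rw [hq, ← Real.exp_nat_mul]
      have h2 : ((2 : ℕ) : ℝ) * (-1 / 2) = -1 := by norm_num
      rw [h2]
      have := Real.exp_neg_one_lt_d9
      norm_num
      linarith
    exact (lt_of_pow_lt_pow_left₀ 2 (by norm_num) h1).le
  have hqj : ∀ j : ℕ, Real.exp (-(j : ℝ) / 2) = q ^ j := by
    intro j
    rw [hq, ← Real.exp_nat_mul]
    congr 1
    ring
  have key : ∀ n : ℕ, ∑ j ∈ Finset.range n, (2 * (j : ℝ) + 1) * q ^ j ≤
      11 - (5.2 * n + 11) * q ^ n := by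
    intro n
    induction n with
    | zero => simp
    | succ n ih =>
      rw [Finset.sum_range_succ]
      have h1 : 0 < q ^ n := pow_pos hq0 n
      have h2 : (0 : ℝ) ≤ n := Nat.cast_nonneg n
      have h3 : (2 * (n : ℝ) + 1) + (5.2 * (n + 1) + 11) * q ≤ 5.2 * n + 11 := by nlinarith
      have h4 := mul_le_mul_of_nonneg_right h3 h1.le
      push_cast
      rw [pow_succ]
      linarith
  calc ∑ j ∈ Finset.range n, (2 * (j : ℝ) + 1) * Real.exp (-(j : ℝ) / 2)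
      = ∑ j ∈ Finset.range n, (2 * (j : ℝ) + 1) * q ^ j :=
        Finset.sum_congr rfl fun j _ => by rw [hqj j]
    _ ≤ 11 - (5.2 * n + 11) * q ^ n := key n
    _ ≤ 11 := by
        have : 0 ≤ (5.2 * (n : ℝ) + 11) * q ^ n := by positivity
        linarith

private lemma sqp_sumodd (n : ℕ) : ∑ j ∈ Finset.range n, (2 * (j : ℝ) + 1) = (n : ℝ) ^ 2 := by
  induction n with
  | zero => simp
  | succ n ih =>
    rw [Finset.sum_range_succ, ih]
    push_cast
    ring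

private lemma sqp_layer {w B : ℝ} (h0 : 0 ≤ w) (hB : w ≤ B) :
    w ^ 2 ≤ ∑ j ∈ Finset.range (⌊B⌋₊ + 1), if (j : ℝ) < w then 2 * (j : ℝ) + 1 else 0 := by
  have h1 : ⌈w⌉₊ ≤ ⌊B⌋₊ + 1 :=
    (Nat.ceil_le_floor_add_one w).trans (Nat.add_le_add_right (Nat.floor_mono hB) 1)
  calc w ^ 2 ≤ ((⌈w⌉₊ : ℕ) : ℝ) ^ 2 := pow_le_pow_left₀ h0 (Nat.le_ceil w) 2
    _ = ∑ j ∈ Finset.range ⌈w⌉₊, (2 * (j : ℝ) + 1) := (sqp_sumodd _).symm
    _ = ∑ j ∈ Finset.range ⌈w⌉₊, if (j : ℝ) < w then 2 * (j : ℝ) + 1 else 0 := by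
        refine Finset.sum_congr rfl fun j hj => ?_
        rw [if_pos (Nat.lt_ceil.1 (Finset.mem_range.1 hj))]
    _ ≤ ∑ j ∈ Finset.range (⌊B⌋₊ + 1), if (j : ℝ) < w then 2 * (j : ℝ) + 1 else 0 := by
        refine Finset.sum_le_sum_of_subset_of_nonneg (Finset.range_mono h1) fun j _ _ => ?_
        split_ifs <;> positivity

theorem sq_paths {u v : ℤ × ℤ} (h : u ≤ v) {B : ℝ} (hB : 1 ≤ B) :
    (PI (ℤ × ℤ)).real {ω | ∃ x : ℤ → ℤ, UR x (lev u) (lev v) ∧ pt x (lev u) = u ∧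
      pt x (lev v) = v ∧
      160 * (((lev v - lev u : ℤ) : ℝ) + 1) + (B + 1) ^ 3 <
        ∑ l ∈ Finset.Icc (lev u) (lev v), ω (pt x l) ^ 2} ≤
      2 * (((lev v - lev u : ℤ) : ℝ) + 1) ^ 2 * Real.exp (-B) := by
  have hlev : lev u ≤ lev v := by
    have h1 : u.1 ≤ v.1 := h.1
    have h2 : u.2 ≤ v.2 := h.2
    unfold lev
    linarith
  have hmax := max_tail u v h (B := B) (by linarith)
  have hneg := sqp_neg_all u v
  set R : ℝ := ((lev v - lev u : ℤ) : ℝ) + 1 with hR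
  have hR1 : 1 ≤ R := by
    have h3 : (0 : ℤ) ≤ lev v - lev u := by linarith
    have h4 : (0 : ℝ) ≤ ((lev v - lev u : ℤ) : ℝ) := by exact_mod_cast h3
    rw [hR]
    linarith
  have hR0 : 0 < R := by linarith
  have hB0 : 0 ≤ B := by linarith
  set mj : ℕ → ℕ := fun j => ⌈12 * R * Real.exp (-(j : ℝ) / 2) + B⌉₊ with hmj
  have hsub : {ω : ℤ × ℤ → ℝ | ∃ x : ℤ → ℤ, UR x (lev u) (lev v) ∧ pt x (lev u) = u ∧
      pt x (lev v) = v ∧ 160 * R + (B + 1) ^ 3 <
        ∑ l ∈ Finset.Icc (lev u) (lev v), ω (pt x l) ^ 2} ⊆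
      ({ω | ∃ z, u ≤ z ∧ z ≤ v ∧ ω z < 0} ∪ {ω | ∃ z, u ≤ z ∧ z ≤ v ∧ B < ω z}) ∪
        ⋃ j ∈ Finset.range (⌊B⌋₊ + 1), sqpE u v (j : ℝ) (mj j) := by
    rintro ω ⟨X, hX, hu, hv, hsum⟩
    by_contra hcon
    simp only [Set.mem_union, Set.mem_iUnion, not_or, not_exists, Set.mem_ofPred_eq] at hcon
    obtain ⟨⟨hc1, hc2⟩, hc3⟩ := hcon
    have hin : ∀ l ∈ Finset.Icc (lev u) (lev v), 0 ≤ ω (pt X l) ∧ ω (pt X l) ≤ B := by
      intro l hl
      rw [Finset.mem_Icc] at hl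
      have h1 := pt_le_pt hX le_rfl hl.1 hl.2
      have h2 := pt_le_pt hX hl.1 hl.2 le_rfl
      rw [hu] at h1
      rw [hv] at h2
      constructor
      · by_contra h3
        exact hc1 _ ⟨h1, h2, not_le.1 h3⟩
      · by_contra h3
        exact hc2 _ ⟨h1, h2, not_le.1 h3⟩
    have hN : ∀ j ∈ Finset.range (⌊B⌋₊ + 1),
        ((sqpN ω X (lev u) (lev v) (j : ℝ)).card : ℝ) ≤ 12 * R * Real.exp (-(j : ℝ) / 2) + B := by
      intro j hj
      have h1 : ¬ mj j ≤ (sqpN ω X (lev u) (lev v) (j : ℝ)).card := by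
        intro h2
        exact hc3 j hj ⟨X, hX, hu, hv, h2⟩
      exact (Nat.lt_ceil.1 (not_le.1 h1)).le
    have hle : ∑ l ∈ Finset.Icc (lev u) (lev v), ω (pt X l) ^ 2 ≤ 160 * R + (B + 1) ^ 3 := by
      calc ∑ l ∈ Finset.Icc (lev u) (lev v), ω (pt X l) ^ 2
          ≤ ∑ l ∈ Finset.Icc (lev u) (lev v), ∑ j ∈ Finset.range (⌊B⌋₊ + 1),
              (if (j : ℝ) < ω (pt X l) then 2 * (j : ℝ) + 1 else 0) :=
            Finset.sum_le_sum fun l hl => sqp_layer (hin l hl).1 (hin l hl).2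
        _ = ∑ j ∈ Finset.range (⌊B⌋₊ + 1),
              (2 * (j : ℝ) + 1) * (sqpN ω X (lev u) (lev v) (j : ℝ)).card := by
            rw [Finset.sum_comm]
            refine Finset.sum_congr rfl fun j _ => ?_
            rw [← Finset.sum_filter, Finset.sum_const, nsmul_eq_mul, mul_comm]
            rfl
        _ ≤ ∑ j ∈ Finset.range (⌊B⌋₊ + 1),
              (2 * (j : ℝ) + 1) * (12 * R * Real.exp (-(j : ℝ) / 2) + B) :=
            Finset.sum_le_sum fun j hj => mul_le_mul_of_nonneg_left (hN j hj) (by positivity)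
        _ = 12 * R * (∑ j ∈ Finset.range (⌊B⌋₊ + 1),
              (2 * (j : ℝ) + 1) * Real.exp (-(j : ℝ) / 2)) +
              B * ∑ j ∈ Finset.range (⌊B⌋₊ + 1), (2 * (j : ℝ) + 1) := by
            rw [Finset.mul_sum, Finset.mul_sum, ← Finset.sum_add_distrib]
            refine Finset.sum_congr rfl fun j _ => ?_
            ring
        _ ≤ 12 * R * 11 + B * ((⌊B⌋₊ + 1 : ℕ) : ℝ) ^ 2 := by
            rw [sqp_sumodd]
            have h1 := sqp_geom (⌊B⌋₊ + 1)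
            have h2 := mul_le_mul_of_nonneg_left h1 (show 0 ≤ 12 * R by positivity)
            linarith
        _ ≤ 160 * R + (B + 1) * (B + 1) ^ 2 := by
            have h1 : ((⌊B⌋₊ + 1 : ℕ) : ℝ) ≤ B + 1 := by
              push_cast
              have := Nat.floor_le hB0
              linarith
            have h2 : B * ((⌊B⌋₊ + 1 : ℕ) : ℝ) ^ 2 ≤ (B + 1) * (B + 1) ^ 2 := by
              gcongr
              linarith
            linarith
        _ = 160 * R + (B + 1) ^ 3 := by ring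
    exact absurd hsum (not_lt.2 hle)
  have hE : ∀ j ∈ Finset.range (⌊B⌋₊ + 1),
      (PI (ℤ × ℤ)).real (sqpE u v (j : ℝ) (mj j)) ≤ Real.exp (-(2 * B)) := fun j _ =>
    sqpE_tail h (Nat.cast_nonneg j) hB (Nat.le_ceil _)
  have hfl : ((⌊B⌋₊ + 1 : ℕ) : ℝ) ≤ Real.exp B := by
    push_cast
    have h1 := Nat.floor_le hB0
    have h2 := Real.add_one_le_exp B
    linarith
  calc _ ≤ (PI (ℤ × ℤ)).real (({ω | ∃ z, u ≤ z ∧ z ≤ v ∧ ω z < 0} ∪
        {ω | ∃ z, u ≤ z ∧ z ≤ v ∧ B < ω z}) ∪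
        ⋃ j ∈ Finset.range (⌊B⌋₊ + 1), sqpE u v (j : ℝ) (mj j)) :=
        measureReal_mono hsub (measure_ne_top _ _)
    _ ≤ (0 + R ^ 2 * Real.exp (-B)) + ∑ j ∈ Finset.range (⌊B⌋₊ + 1),
        (PI (ℤ × ℤ)).real (sqpE u v (j : ℝ) (mj j)) := by
        refine (measureReal_union_le _ _).trans (add_le_add ?_ (measureReal_biUnion_finset_le _ _))
        exact (measureReal_union_le _ _).trans (add_le_add hneg hmax)
    _ ≤ (0 + R ^ 2 * Real.exp (-B)) + ∑ j ∈ Finset.range (⌊B⌋₊ + 1), Real.exp (-(2 * B)) := by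
        gcongr with j hj
        exact hE j hj
    _ = R ^ 2 * Real.exp (-B) + ((⌊B⌋₊ + 1 : ℕ) : ℝ) * Real.exp (-(2 * B)) := by
        rw [Finset.sum_const, Finset.card_range, nsmul_eq_mul, zero_add]
    _ ≤ R ^ 2 * Real.exp (-B) + Real.exp B * Real.exp (-(2 * B)) := by gcongr
    _ = R ^ 2 * Real.exp (-B) + 1 * Real.exp (-B) := by
        rw [← Real.exp_add, one_mul]
        congr 2
        ring
    _ ≤ R ^ 2 * Real.exp (-B) + R ^ 2 * Real.exp (-B) := by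
        have h1 : (1 : ℝ) ≤ R ^ 2 := one_le_pow₀ hR1
        gcongr
    _ = 2 * R ^ 2 * Real.exp (-B) := by ring

end BGE
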