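import Pool.Agent.BGE.Defs

/-!
BGE / T4. Thinning.

`thin`: for a finite set `Γ`, numbers `0 ≤ a z ≤ b` and independent exponential variables `U_z`,
`P(∑_{z ∈ Γ, U_z < τ} a z ≥ 2 τ ∑ a z + y) ≤ e^{-y/b}`.
Proof. `P(U < τ) ≤ τ`; with `θ = 1/b`,
`E exp (θ ∑ 1{U_z < τ} a z) = ∏ (1 + p (e^{θ a z} - 1)) ≤ exp (p ∑ (e^{θ a z} - 1))
 ≤ exp (2 p θ ∑ a z)` since `e^t - 1 ≤ 2 t` on `[0, 1]`; Markov's inequality.
-/

namespace BGE

open MeasureTheory ProbabilityTheory

theorem th_E1_Iio_le {τ : ℝ} (hτ : 0 ≤ τ) : E1.real (Set.Iio τ) ≤ τ := by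
  have h1 : E1.real (Set.Iio τ) ≤ E1.real (Set.Iic τ) :=
    measureReal_mono Set.Iio_subset_Iic_self
  have h2 : E1.real (Set.Iic τ) = 1 - Real.exp (-(1 * τ)) := by
    have : IsProbabilityMeasure (expMeasure 1) := isProbabilityMeasure_expMeasure one_pos
    have h := cdf_expMeasure_eq one_pos τ
    rw [if_pos hτ, cdf_eq_real] at h
    exact h
  have h3 := Real.add_one_le_exp (-(1 * τ))
  linarith

theorem th_exp_sub_one_le {t : ℝ} (h0 : 0 ≤ t) (h1 : t ≤ 1) : Real.exp t - 1 ≤ 2 * t := by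
  have h := Real.abs_exp_sub_one_le (x := t) (by rw [abs_of_nonneg h0]; exact h1)
  rw [abs_of_nonneg h0] at h
  exact (le_abs_self _).trans h

theorem thin {ι : Type*} (Γ : Finset ι) (a : ι → ℝ) {b τ y : ℝ} (hb : 0 < b) (hτ : 0 ≤ τ)
    (ha : ∀ z ∈ Γ, 0 ≤ a z ∧ a z ≤ b) :
    (PI ι).real {U | 2 * τ * (∑ z ∈ Γ, a z) + y ≤ ∑ z ∈ Γ, if U z < τ then a z else 0} ≤
      Real.exp (-(y / b)) := by
  classical
  -- the summands, as functions of one coordinate
  set g : ι → ℝ → ℝ := fun z x => if x < τ then a z else 0 with hg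
  have hgm : ∀ z, Measurable (g z) := fun z =>
    Measurable.ite measurableSet_Iio measurable_const measurable_const
  set X : ι → (ι → ℝ) → ℝ := fun z U => g z (U z) with hX
  have hXm : ∀ z, Measurable (X z) := fun z => (hgm z).comp (measurable_pi_apply z)
  have hind : iIndepFun X (PI ι) :=
    iIndepFun_infinitePi (P := fun _ : ι => E1) (X := g) hgm
  have hmgf : mgf (∑ z ∈ Γ, X z) (PI ι) (1 / b) = ∏ z ∈ Γ, mgf (X z) (PI ι) (1 / b) :=
    hind.mgf_sum hXm Γ
  have hone : ∀ z ∈ Γ, mgf (X z) (PI ι) (1 / b) ≤ Real.exp (2 * τ * a z / b) := by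
    intro z hz
    obtain ⟨ha0, hab⟩ := ha z hz
    have hmap : mgf (X z) (PI ι) (1 / b) = ∫ x, Real.exp (1 / b * g z x) ∂E1 := by
      have h1 : (PI ι).map (fun U : ι → ℝ => U z) = E1 :=
        Measure.infinitePi_map_eval (fun _ : ι => E1) z
      unfold mgf
      rw [← h1, integral_map (measurable_pi_apply z).aemeasurable
        (((hgm z).const_mul _).exp.aestronglyMeasurable)]
    have hfun : ∀ x, Real.exp (1 / b * g z x) =
        1 + (Set.Iio τ).indicator (fun _ => Real.exp (a z / b) - 1) x := by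
      intro x
      by_cases hx : x < τ
      · simp only [hg, hx, if_true, Set.indicator, Set.mem_Iio]
        rw [show 1 / b * a z = a z / b by ring]
        ring
      · simp only [hg, hx, if_false, Set.indicator, Set.mem_Iio, mul_zero, Real.exp_zero, add_zero]
    have hval : ∫ x, Real.exp (1 / b * g z x) ∂E1 =
        1 + E1.real (Set.Iio τ) * (Real.exp (a z / b) - 1) := by
      simp_rw [hfun]
      rw [integral_add (integrable_const _)
        ((integrable_const _).indicator measurableSet_Iio),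
        integral_indicator_const _ measurableSet_Iio]
      simp
    rw [hmap, hval]
    have hq0 : 0 ≤ a z / b := div_nonneg ha0 hb.le
    have hq1 : a z / b ≤ 1 := (div_le_one hb).mpr hab
    have he := th_exp_sub_one_le hq0 hq1
    have he0 : 0 ≤ Real.exp (a z / b) - 1 := by
      have := Real.one_le_exp hq0
      linarith
    have hp := th_E1_Iio_le hτ
    have hp0 : 0 ≤ E1.real (Set.Iio τ) := measureReal_nonneg
    have h1 : E1.real (Set.Iio τ) * (Real.exp (a z / b) - 1) ≤ τ * (2 * (a z / b)) :=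
      mul_le_mul hp he he0 hτ
    have h2 := Real.add_one_le_exp (2 * τ * a z / b)
    have h3 : τ * (2 * (a z / b)) = 2 * τ * a z / b := by ring
    linarith
  -- integrability
  have hbound : ∀ U : ι → ℝ, (∑ z ∈ Γ, X z) U ≤ ∑ z ∈ Γ, a z := by
    intro U
    rw [Finset.sum_apply]
    refine Finset.sum_le_sum fun z hz => ?_
    simp only [hX, hg]
    split_ifs
    · exact le_rfl
    · exact (ha z hz).1
  have hSm : Measurable (∑ z ∈ Γ, X z) := by
    have h := Finset.measurable_sum Γ fun z (_ : z ∈ Γ) => hXm z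
    have h2 : (∑ z ∈ Γ, X z) = fun U => ∑ z ∈ Γ, X z U := by
      funext U
      exact Finset.sum_apply U Γ X
    rw [h2]
    exact h
  have hint : Integrable (fun U => Real.exp (1 / b * (∑ z ∈ Γ, X z) U)) (PI ι) := by
    refine Integrable.of_bound (hSm.const_mul _).exp.aestronglyMeasurable
      (Real.exp (1 / b * ∑ z ∈ Γ, a z)) (Filter.Eventually.of_forall fun U => ?_)
    rw [Real.norm_eq_abs, abs_of_pos (Real.exp_pos _)]
    exact Real.exp_le_exp.mpr (mul_le_mul_of_nonneg_left (hbound U) (by positivity))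
  have hch := measure_ge_le_exp_mul_mgf (μ := PI ι) (X := ∑ z ∈ Γ, X z)
    (2 * τ * (∑ z ∈ Γ, a z) + y) (t := 1 / b) (by positivity) hint
  have hset : {U : ι → ℝ | 2 * τ * (∑ z ∈ Γ, a z) + y ≤ ∑ z ∈ Γ, if U z < τ then a z else 0} =
      {U | 2 * τ * (∑ z ∈ Γ, a z) + y ≤ (∑ z ∈ Γ, X z) U} := by
    ext U
    simp only [Set.mem_ofPred_eq, Finset.sum_apply, hX, hg]
  rw [hset]
  refine hch.trans ?_
  rw [hmgf]
  have hprod : ∏ z ∈ Γ, mgf (X z) (PI ι) (1 / b) ≤ ∏ z ∈ Γ, Real.exp (2 * τ * a z / b) :=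
    Finset.prod_le_prod (fun z _ => mgf_nonneg) hone
  rw [← Real.exp_sum] at hprod
  refine (mul_le_mul_of_nonneg_left hprod (Real.exp_pos _).le).trans ?_
  rw [← Real.exp_add]
  refine Real.exp_le_exp.mpr (le_of_eq ?_)
  rw [← Finset.sum_div, ← Finset.mul_sum]
  field_simp
  ring

end BGE
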