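import Pool.Agent.BGE.Base2

/-!
BGE / T0. Almost sure uniqueness of geodesics (law `PI (ℤ × ℤ)`), and nonnegativity.

`ae_nonneg`: a.s. all weights are nonnegative (countable intersection; `E1` is concentrated on
`[0, ∞)`).

`ae_unique`: a.s., for all `u ≤ v` and all paths `x, x'` from `u` to `v` with
`wt ω x = wt ω x' = T ω u v`, the paths coincide on the levels between `lev u` and `lev v`.
Proof. Only countably many pairs of path segments matter. If two path segments `x ≠ x'` from `u` to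
`v` differ then there is a level `l` with `pt x l ≠ pt x' l`; the site `z = pt x l` is not on `x'`.
For fixed values of the other weights, `wt ω x - wt ω x'` is `ω z` plus a constant, so it vanishes
for at most one value of `ω z`; `E1` has no atoms, and by Fubini (independence of `ω z` and of the
other weights) the event `wt ω x = wt ω x'` has probability zero.

`via_iff`: if `x` is the unique geodesic from `u` to `v` then `Via ω u w v` holds if and only if
`w = pt x l` for a level `l` between `lev u` and `lev v`: a site with `Via` lies on the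
concatenation of two optimal paths (`exists_path` twice), which is optimal.
-/

namespace BGE

open MeasureTheory ProbabilityTheory

/-! ### Nonnegativity -/

theorem uq_E1_Iio_zero : E1 (Set.Iio 0) = 0 := by
  have : IsProbabilityMeasure (expMeasure 1) := isProbabilityMeasure_expMeasure one_pos
  have h := cdf_expMeasure_eq one_pos 0
  rw [if_pos le_rfl, cdf_eq_real] at h
  have h2 : E1.real (Set.Iic 0) = 0 := by
    have : E1.real (Set.Iic 0) = 1 - Real.exp (-(1 * 0)) := h
    rw [this]; simp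
  have h3 : E1 (Set.Iic 0) = 0 := by
    rwa [measureReal_eq_zero_iff] at h2
  exact measure_mono_null Set.Iio_subset_Iic_self h3

theorem uq_E1_singleton (t : ℝ) : E1 {t} = 0 := by
  unfold E1 expMeasure gammaMeasure
  exact withDensity_absolutelyContinuous _ _ (measure_singleton t)

theorem ae_nonneg' (ι : Type*) [Countable ι] : ∀ᵐ ω ∂(PI ι), ∀ z, 0 ≤ ω z := by
  rw [ae_all_iff]
  intro z
  have h1 : (PI ι).map (fun U : ι → ℝ => U z) = E1 :=
    Measure.infinitePi_map_eval (fun _ : ι => E1) z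
  have h2 : ∀ᵐ t ∂((PI ι).map (fun U : ι → ℝ => U z)), 0 ≤ t := by
    rw [h1, ae_iff]
    have : {a : ℝ | ¬ 0 ≤ a} = Set.Iio 0 := by ext t; simp
    rw [this]
    exact uq_E1_Iio_zero
  exact ae_of_ae_map (measurable_pi_apply z).aemeasurable h2

theorem ae_nonneg : ∀ᵐ ω ∂(PI (ℤ × ℤ)), ∀ z, 0 ≤ ω z := ae_nonneg' _

/-! ### Integer linear combinations of the weights do not vanish -/

theorem uq_null_comb {ι : Type*} (c : ι →₀ ℤ) (hc : c ≠ 0) :
    ∀ᵐ ω ∂(PI ι), c.sum (fun z k => (k : ℝ) * ω z) ≠ 0 := by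
  classical
  obtain ⟨z0, hz0⟩ : ∃ z0, c z0 ≠ 0 := by
    by_contra hcon
    push Not at hcon
    exact hc (Finsupp.ext hcon)
  set g : ι → ℝ → ℝ := fun z x => (c z : ℝ) * x with hg
  have hgm : ∀ z, Measurable (g z) := fun z => measurable_id.const_mul _
  set X : ι → (ι → ℝ) → ℝ := fun z U => g z (U z) with hX
  have hXm : ∀ z, Measurable (X z) := fun z => (hgm z).comp (measurable_pi_apply z)
  have hind : iIndepFun X (PI ι) :=
    iIndepFun_infinitePi (P := fun _ : ι => E1) (X := g) hgm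
  set s : Finset ι := c.support.erase z0 with hs
  have hns : z0 ∉ s := by simp [hs]
  have hI : IndepFun (∑ z ∈ s, X z) (X z0) (PI ι) :=
    hind.indepFun_finsetSum_of_notMem hXm hns
  set R : (ι → ℝ) → ℝ := ∑ z ∈ s, X z with hR
  have hRm : Measurable R := by
    have h := Finset.measurable_sum s fun z (_ : z ∈ s) => hXm z
    have h2 : R = fun U => ∑ z ∈ s, X z U := by
      funext U
      exact Finset.sum_apply U s X
    rw [h2]
    exact h
  have hsum : ∀ ω : ι → ℝ, c.sum (fun z k => (k : ℝ) * ω z) = R ω + X z0 ω := by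
    intro ω
    have hz0s : z0 ∈ c.support := Finsupp.mem_support_iff.mpr hz0
    rw [Finsupp.sum, ← Finset.sum_erase_add _ _ hz0s]
    simp only [hR, hX, hg, Finset.sum_apply, hs]
  have hmap := hI.map_prod_eq_prod_map_map hRm.aemeasurable (hXm z0).aemeasurable
  set B : Set (ℝ × ℝ) := {p | p.1 + p.2 = 0} with hB
  have hBm : MeasurableSet B :=
    measurableSet_eq_fun (measurable_fst.add measurable_snd) measurable_const
  have hat : ∀ t : ℝ, (PI ι).map (X z0) {t} = 0 := by
    intro t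
    rw [Measure.map_apply (hXm z0) (measurableSet_singleton t)]
    have h1 : (PI ι).map (fun U : ι → ℝ => U z0) = E1 :=
      Measure.infinitePi_map_eval (fun _ : ι => E1) z0
    have hc0 : (c z0 : ℝ) ≠ 0 := by exact_mod_cast hz0
    have h2 : X z0 ⁻¹' {t} = (fun U : ι → ℝ => U z0) ⁻¹' {t / (c z0 : ℝ)} := by
      ext U
      simp only [hX, hg, Set.mem_preimage, Set.mem_singleton_iff]
      rw [eq_div_iff hc0, mul_comm]
    rw [h2, ← Measure.map_apply (measurable_pi_apply z0) (measurableSet_singleton _), h1]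
    exact uq_E1_singleton _
  have hzero : ((PI ι).map R).prod ((PI ι).map (X z0)) B = 0 := by
    rw [Measure.measure_prod_null hBm]
    refine Filter.Eventually.of_forall fun r => ?_
    have : Prod.mk r ⁻¹' B = {-r} := by
      ext t
      simp only [hB, Set.mem_preimage, Set.mem_ofPred_eq, Set.mem_singleton_iff]
      constructor
      · intro h; linarith
      · intro h; rw [h]; ring
    change (Measure.map (X z0) (PI ι)) (Prod.mk r ⁻¹' B) = 0
    rw [this]
    exact hat _
  rw [← hmap, Measure.map_apply (hRm.prodMk (hXm z0)) hBm] at hzero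
  rw [ae_iff]
  refine measure_mono_null ?_ hzero
  intro ω hω
  simp only [not_not, Set.mem_ofPred_eq, ne_eq] at hω
  simp only [hB, Set.mem_preimage, Set.mem_ofPred_eq]
  rw [← hsum]
  exact hω

theorem uq_ae_null_comb (ι : Type*) [Countable ι] :
    ∀ᵐ ω ∂(PI ι), ∀ c : ι →₀ ℤ, c ≠ 0 → c.sum (fun z k => (k : ℝ) * ω z) ≠ 0 := by
  rw [ae_all_iff]
  intro c
  by_cases hc : c = 0
  · exact Filter.Eventually.of_forall fun ω h => absurd hc h
  · filter_upwards [uq_null_comb c hc] with ω hω _ using hω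

/-! ### Paths -/

theorem uq_lev_pt (x : ℤ → ℤ) (l : ℤ) : lev (pt x l) = l := by
  unfold lev pt
  ring

/-- the occupation vector of a path -/
noncomputable def uqOcc (x : ℤ → ℤ) (a b : ℤ) : (ℤ × ℤ) →₀ ℤ :=
  ∑ l ∈ Finset.Icc a b, Finsupp.single (pt x l) 1

theorem uq_wt_eq_occ (ω : ℤ × ℤ → ℝ) (x : ℤ → ℤ) (a b : ℤ) :
    wt ω x a b = (uqOcc x a b).sum (fun z k => (k : ℝ) * ω z) := by
  unfold wt uqOcc
  rw [← Finsupp.sum_finsetSum_index]
  · refine Finset.sum_congr rfl fun l _ => ?_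
    rw [Finsupp.sum_single_index] <;> simp
  · intro z; simp
  · intro z k k'; push_cast; ring

theorem uq_occ_apply (x : ℤ → ℤ) {a b l : ℤ} (ha : a ≤ l) (hb : l ≤ b) : uqOcc x a b (pt x l) = 1 := by
  classical
  unfold uqOcc
  rw [Finsupp.finsetSum_apply, Finset.sum_eq_single l]
  · simp
  · intro l' _ hne
    rw [Finsupp.single_apply, if_neg]
    intro h
    apply hne
    have := congrArg lev h
    rwa [uq_lev_pt, uq_lev_pt] at this
  · intro h
    exact absurd (Finset.mem_Icc.mpr ⟨ha, hb⟩) h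

theorem uq_occ_apply_ne (x x' : ℤ → ℤ) {a b l : ℤ} (h : x l ≠ x' l) : uqOcc x' a b (pt x l) = 0 := by
  classical
  unfold uqOcc
  rw [Finsupp.finsetSum_apply]
  refine Finset.sum_eq_zero fun l' _ => ?_
  rw [Finsupp.single_apply, if_neg]
  intro he
  have h1 := congrArg lev he
  rw [uq_lev_pt, uq_lev_pt] at h1
  subst h1
  exact h (congrArg Prod.fst he).symm

theorem ae_unique : ∀ᵐ ω ∂(PI (ℤ × ℤ)), ∀ u v : ℤ × ℤ, u ≤ v → ∀ x x' : ℤ → ℤ,
    UR x (lev u) (lev v) → UR x' (lev u) (lev v) → pt x (lev u) = u → pt x' (lev u) = u →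
    pt x (lev v) = v → pt x' (lev v) = v →
    wt ω x (lev u) (lev v) = T ω u v → wt ω x' (lev u) (lev v) = T ω u v →
    ∀ l, lev u ≤ l → l ≤ lev v → x l = x' l := by
  filter_upwards [uq_ae_null_comb (ℤ × ℤ)] with ω hω
  intro u v _ x x' _ _ _ _ _ _ h1 h2 l hl1 hl2
  by_contra hne
  refine hω (uqOcc x (lev u) (lev v) - uqOcc x' (lev u) (lev v)) ?_ ?_
  · intro h0
    have h3 := DFunLike.congr_fun h0 (pt x l)
    rw [Finsupp.sub_apply, uq_occ_apply x hl1 hl2, uq_occ_apply_ne x x' hne] at h3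
    simp at h3
  · rw [Finsupp.sum_sub_index]
    · rw [← uq_wt_eq_occ, ← uq_wt_eq_occ, h1, h2, sub_self]
    · intro z k k'; push_cast; ring

theorem uq_wt_split (ω : ℤ × ℤ → ℝ) (x : ℤ → ℤ) {a b l : ℤ} (ha : a ≤ l) (hb : l ≤ b) :
    wt ω x a b = wt ω x a l + wt ω x l b - ω (pt x l) := by
  unfold wt
  have h1 : Finset.Icc a b = Finset.Icc a l ∪ Finset.Icc (l + 1) b := by
    ext i; simp only [Finset.mem_Icc, Finset.mem_union]; omega
  have h2 : Finset.Icc l b = insert l (Finset.Icc (l + 1) b) := by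
    ext i; simp only [Finset.mem_Icc, Finset.mem_insert]; omega
  have h3 : Disjoint (Finset.Icc a l) (Finset.Icc (l + 1) b) := by
    rw [Finset.disjoint_left]
    intro i h4 h5
    rw [Finset.mem_Icc] at h4 h5
    omega
  have h4 : l ∉ Finset.Icc (l + 1) b := by
    rw [Finset.mem_Icc]; omega
  rw [h1, Finset.sum_union h3, h2, Finset.sum_insert h4]
  ring

theorem uq_wt_congr (ω : ℤ × ℤ → ℝ) {x x' : ℤ → ℤ} {a b : ℤ}
    (h : ∀ l, a ≤ l → l ≤ b → x l = x' l) : wt ω x a b = wt ω x' a b := by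
  unfold wt
  refine Finset.sum_congr rfl fun l hl => ?_
  rw [Finset.mem_Icc] at hl
  unfold pt
  rw [h l hl.1 hl.2]

/-- a site with `Via` lies on an optimal path -/
theorem uq_exists_path_via {ω : ℤ × ℤ → ℝ} {u w v : ℤ × ℤ} (h : Via ω u w v) :
    ∃ x : ℤ → ℤ, UR x (lev u) (lev v) ∧ pt x (lev u) = u ∧ pt x (lev v) = v ∧
      wt ω x (lev u) (lev v) = T ω u v ∧ pt x (lev w) = w := by
  obtain ⟨h1, h2, h3⟩ := h
  obtain ⟨x1, a1, b1, c1, d1⟩ := exists_path ω h1
  obtain ⟨x2, a2, b2, c2, d2⟩ := exists_path ω h2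
  have l1 := lev_le_lev h1
  have l2 := lev_le_lev h2
  set x : ℤ → ℤ := fun l => if l ≤ lev w then x1 l else x2 l with hx
  have e12 : x1 (lev w) = x2 (lev w) := by
    have := c1.trans b2.symm
    exact congrArg Prod.fst this
  have e1 : ∀ l, l ≤ lev w → x l = x1 l := fun l hl => by simp only [hx, if_pos hl]
  have e2 : ∀ l, lev w ≤ l → x l = x2 l := fun l hl => by
    rcases eq_or_lt_of_le hl with h | h
    · subst h
      rw [e1 _ le_rfl, e12]
    · simp only [hx, if_neg (not_le.mpr h)]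
  have pe1 : ∀ l, l ≤ lev w → pt x l = pt x1 l := fun l hl => by
    unfold pt
    rw [e1 l hl]
  have pe2 : ∀ l, lev w ≤ l → pt x l = pt x2 l := fun l hl => by
    unfold pt
    rw [e2 l hl]
  refine ⟨x, ?_, ?_, ?_, ?_, ?_⟩
  · intro l hl1 hl2
    rcases lt_or_ge l (lev w) with h | h
    · rw [e1 l h.le, e1 (l + 1) (by omega)]
      exact a1 l hl1 h
    · rw [e2 l h, e2 (l + 1) (by omega)]
      exact a2 l h hl2
  · rw [pe1 _ l1, b1]
  · rw [pe2 _ l2, c2]
  · rw [uq_wt_split ω x l1 l2, uq_wt_congr ω (x' := x1) (fun l _ h => e1 l h),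
      uq_wt_congr ω (x' := x2) (a := lev w) (fun l h _ => e2 l h), pe1 _ le_rfl, d1, d2, c1, h3]
  · rw [pe1 _ le_rfl, c1]

theorem ae_via_unique : ∀ᵐ ω ∂(PI (ℤ × ℤ)), ∀ u v w w' : ℤ × ℤ,
    Via ω u w v → Via ω u w' v → lev w = lev w' → w = w' := by
  filter_upwards [ae_unique] with ω hω
  intro u v w w' h h' hl
  obtain ⟨x, a, b, c, d, e⟩ := uq_exists_path_via h
  obtain ⟨x', a', b', c', d', e'⟩ := uq_exists_path_via h'
  have h1 := lev_le_lev h.1
  have h2 := lev_le_lev h.2.1
  have key := hω u v (h.1.trans h.2.1) x x' a a' b b' c c' d d' (lev w) h1 h2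
  rw [← e, ← e', ← hl]
  unfold pt
  rw [key]

theorem via_of_path {ω : ℤ × ℤ → ℝ} {u v : ℤ × ℤ} {x : ℤ → ℤ} (hx : UR x (lev u) (lev v))
    (h : u ≤ v) (hu : pt x (lev u) = u) (hv : pt x (lev v) = v)
    (hw : wt ω x (lev u) (lev v) = T ω u v) {l : ℤ} (h1 : lev u ≤ l) (h2 : l ≤ lev v) :
    Via ω u (pt x l) v := by
  have p1 : u ≤ pt x l := by
    have := pt_le_pt hx le_rfl h1 h2
    rwa [hu] at this
  have p2 : pt x l ≤ v := by
    have := pt_le_pt hx h1 h2 le_rfl
    rwa [hv] at this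
  refine ⟨p1, p2, ?_⟩
  have q1 : wt ω x (lev u) l ≤ T ω u (pt x l) := by
    have := wt_le_T (ω := ω) (hx.mono le_rfl h2) h1
    rwa [hu] at this
  have q2 : wt ω x l (lev v) ≤ T ω (pt x l) v := by
    have := wt_le_T (ω := ω) (hx.mono h1 le_rfl) h2
    rwa [hv] at this
  have q3 := T_add_le (ω := ω) p1 p2
  have q4 := uq_wt_split ω x h1 h2
  rw [hw] at q4
  linarith

end BGE
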