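import Pool.Agent.BGE.ConcPair
import Pool.Agent.BGE.Unique
import Pool.Agent.BGE.SqPaths
import Pool.Agent.BGE.Thin
import Pool.Agent.BGE.Indep

/-!
BGE / T5. Time stability of last passage times.

`time_stab`: let `ω, ω', U` be independent with law `PI (ℤ × ℤ)`, `τ ≥ 0`,
`ωτ z = ω' z` if `U z < τ` and `ω z` otherwise. There are constants `C, c > 0` such that for all
`u ≤ v`, `r = lev v - lev u`, `y ≥ 1`:
`P(|T ωτ u v - T ω u v| ≥ y (√(τ (r+1)) + (log (r+3))³)) ≤ C exp (-c y^{1/4})`.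
Proof. Fix `U` (hence `K = {z : U z < τ}`) and `ω` outside of `K`. Conditionally, `G = T ω u v` and
`G' = T ωτ u v` are `f(x)` and `f(x')` with `f` as above, `a = ω`, and independent `x = ω|K`,
`x' = ω'|K`. Let `M` be a median of `f`. So
`P(|G - G'| ≥ 2z) ≤ 2 P(|G - M| ≥ z)`. By `conc_pair`
`P(G ≥ M + z, Q ≤ q | ·) ≤ 2 e^{-z²/(4q)}` where `Q = QV ω K u v`, and, applied with `M - z` in place
of `M`, `P(G ≤ M - z | ·) P(G ≥ M, Q ≤ q | ·) ≤ e^{-z²/(4q)}`, so that
`P(G ≤ M - z | ·) ≤ 4 e^{-z²/(4q)}` if `P(Q > q | ·) ≤ 1/4`. By Markov's inequality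
`P(P(Q > q | ·) > 1/4) ≤ 4 P(Q > q)`. Altogether `P(|G - M| ≥ z) ≤ 6 e^{-z²/(4q)} + 5 P(Q > q)`.
Let `R = r + 1`, `B = y^{1/4} + 2 log (R + 1)`. The set `K` is independent of `ω`; given `ω`, a.s.
the sites with `Via` form a single path (`ae_via_unique`), and if the weights are `≤ B` on `[u,v]`
and `∑ ω² ≤ 160 R + (B+1)³` along it, then by `thin`
`P(Q ≥ 2τ (160 R + (B+1)³) + B² y^{1/4} | ω) ≤ exp (-y^{1/4})`.
(If `τ > 1` replace `τ` by 1 in this estimate using `Q ≤ ∑ ω²`.)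
With `sq_paths` and `max_tail`: `P(Q > q) ≤ 3 R² e^{-B} + e^{-y^{1/4}} ≤ 4 e^{-y^{1/4}}` for
`q = 320 τ R + 3 (B+1)³ · (1 + y^{1/4})` (for `τ ≤ 1`). Since `B + 1 ≤ C y^{1/4} log (r+3)`,
`q ≤ C y (τ R + (log (r+3))⁶)`, while `z² = (y²/4)(√(τ R) + (log (r+3))³)²`, so
`z²/(4q) ≥ c y`. Conclusion: `P(|G - G'| ≥ 2z) ≤ C e^{-c y^{1/4}}`.
-/

namespace BGE

open MeasureTheory ProbabilityTheory Set Filter
open scoped ENNReal Topology

theorem ts_exists_median {Ω : Type*} [MeasurableSpace Ω] (μ : Measure Ω) [IsProbabilityMeasure μ]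
    {f : Ω → ℝ} (hf : Measurable f) :
    ∃ M : ℝ, 1/2 ≤ μ.real {x | f x ≤ M} ∧ 1/2 ≤ μ.real {x | M ≤ f x} := by
  have : IsProbabilityMeasure (μ.map f) := Measure.isProbabilityMeasure_map hf.aemeasurable
  set F := cdf (μ.map f) with hF
  have hFe : ∀ m, F m = μ.real {x | f x ≤ m} := by
    intro m
    rw [hF, cdf_eq_real, measureReal_def, Measure.map_apply hf measurableSet_Iic, ← measureReal_def]
    rfl
  set S : Set ℝ := {m | 1/2 ≤ F m} with hS
  have hmono : Monotone F := monotone_cdf _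
  have hne : S.Nonempty := by
    have := (tendsto_cdf_atTop (μ.map f)).eventually (eventually_ge_nhds (by norm_num : (1/2:ℝ) < 1))
    exact this.exists
  have hbdd : BddBelow S := by
    have := (tendsto_cdf_atBot (μ.map f)).eventually (eventually_lt_nhds (by norm_num : (0:ℝ) < 1/2))
    obtain ⟨m, hm⟩ := this.exists
    refine ⟨m, fun s hs => ?_⟩
    by_contra hc
    push Not at hc
    have := hmono hc.le
    rw [hS, mem_ofPred_eq] at hs
    rw [← hF] at hm
    linarith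
  set M := sInf S with hM
  refine ⟨M, ?_, ?_⟩
  · rw [← hFe]
    have h1 : ∀ m ∈ Ioi M, 1/2 ≤ F m := by
      intro m hm
      obtain ⟨s, hs, hsm⟩ := exists_lt_of_csInf_lt hne hm
      exact le_trans hs (hmono hsm.le)
    have h2 : Tendsto F (𝓝[>] M) (𝓝 (F M)) :=
      (F.right_continuous M).mono_left (nhdsWithin_mono _ Ioi_subset_Ici_self)
    exact ge_of_tendsto h2 (eventually_nhdsWithin_of_forall h1)
  · have h1 : ∀ m < M, μ.real {x | f x ≤ m} ≤ 1/2 := by
      intro m hm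
      rw [← hFe]
      by_contra hc
      push Not at hc
      exact absurd (csInf_le hbdd (show m ∈ S from hc.le)) (not_le.2 hm)
    have h2 : {x | M ≤ f x} = {x | f x < M}ᶜ := by ext x; simp
    rw [h2, probReal_compl_eq_one_sub (measurableSet_lt hf measurable_const)]
    have h3 : μ.real {x | f x < M} ≤ 1/2 := by
      have h4 : {x | f x < M} = ⋃ n : ℕ, {x | f x ≤ M - 1 / ((n:ℝ) + 1)} := by
        ext x
        simp only [mem_ofPred_eq, mem_iUnion]
        constructor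
        · intro h
          obtain ⟨n, hn⟩ := exists_nat_one_div_lt (sub_pos.2 h)
          exact ⟨n, by linarith⟩
        · rintro ⟨n, hn⟩
          have : 0 < 1 / ((n:ℝ) + 1) := by positivity
          linarith
      have h5 : Tendsto (fun n : ℕ => μ {x | f x ≤ M - 1 / ((n:ℝ) + 1)}) atTop
          (𝓝 (μ {x | f x < M})) := by
        rw [h4]
        apply tendsto_measure_iUnion_atTop
        intro a b hab x hx
        simp only [mem_ofPred_eq] at hx ⊢
        refine hx.trans (sub_le_sub_left ?_ _)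
        apply one_div_le_one_div_of_le (by positivity)
        have : (a:ℝ) ≤ b := by exact_mod_cast hab
        linarith
      have h6 : μ {x | f x < M} ≤ ENNReal.ofReal (1/2) := by
        refine le_of_tendsto h5 (Eventually.of_forall fun n => ?_)
        rw [← ofReal_measureReal (measure_ne_top _ _)]
        apply ENNReal.ofReal_le_ofReal
        apply h1
        have : 0 < 1 / ((n:ℝ) + 1) := by positivity
        linarith
      rw [measureReal_def]
      exact ENNReal.toReal_le_of_le_ofReal (by norm_num) h6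
    linarith

theorem ts_measurable_mix (K : Set (ℤ × ℤ)) :
    Measurable (fun z : (ℤ × ℤ → ℝ) × (ℤ × ℤ → ℝ) => mix K z.1 z.2) := by
  rw [measurable_pi_iff]
  intro z
  unfold mix
  by_cases h : z ∈ K
  · simp only [h, if_true]; fun_prop
  · simp only [h, if_false]; fun_prop

theorem ts_mix_self (K : Set (ℤ × ℤ)) (x : ℤ × ℤ → ℝ) : mix K x x = x := by
  funext z; unfold mix; split_ifs <;> rfl

theorem ts_mix_mix (K : Set (ℤ × ℤ)) (x y a : ℤ × ℤ → ℝ) : mix K x (mix K y a) = mix K x a := by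
  funext z; unfold mix; split_ifs <;> rfl

theorem ts_measurableSet_via (u w v : ℤ × ℤ) : MeasurableSet {ω : ℤ × ℤ → ℝ | Via ω u w v} := by
  unfold Via
  by_cases h : u ≤ w ∧ w ≤ v
  · simp only [h.1, h.2, true_and]
    exact measurableSet_eq_fun (measurable_T u v)
      (((measurable_T u w).add (measurable_T w v)).sub (measurable_pi_apply w))
  · have : {ω : ℤ × ℤ → ℝ | u ≤ w ∧ w ≤ v ∧ T ω u v = T ω u w + T ω w v - ω w} = ∅ := by
      ext ω
      simp only [mem_ofPred_eq, mem_empty_iff_false, iff_false]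
      rintro ⟨h1, h2, _⟩
      exact h ⟨h1, h2⟩
    rw [this]; exact MeasurableSet.empty

theorem ts_measurable_QV {X : Type*} [MeasurableSpace X] {f : X → ℤ × ℤ → ℝ} (hf : Measurable f)
    {K : X → Set (ℤ × ℤ)} (hK : ∀ z, MeasurableSet {x | z ∈ K x}) (u v : ℤ × ℤ) :
    Measurable (fun x => QV (f x) (K x) u v) := by
  unfold QV
  refine Finset.measurable_sum _ fun z _ => ?_
  refine Measurable.ite ?_ ?_ measurable_const
  · exact (hK z).inter (hf (ts_measurableSet_via u z v))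
  · exact ((measurable_pi_apply z).comp hf).pow_const 2

theorem ts_measurable_evo (τ : ℝ) : Measurable (evo τ) := by
  rw [measurable_pi_iff]
  intro z
  unfold evo mix
  refine Measurable.ite ?_ (by fun_prop) (by fun_prop)
  have : Measurable fun x : Env3 => x.2.2 z := by fun_prop
  exact measurableSet_lt this measurable_const

theorem ts_pair_conc (K : Set (ℤ × ℤ)) (a : ℤ × ℤ → ℝ) (ha : ∀ z, 0 ≤ a z) {u v : ℤ × ℤ}
    (h : u ≤ v) {z q : ℝ} (hz : 0 ≤ z) (hq : 0 < q) :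
    ((PI (ℤ × ℤ)).prod (PI (ℤ × ℤ))).real
      {w | 2 * z ≤ |T (mix K w.2 a) u v - T (mix K w.1 a) u v|} ≤
      12 * Real.exp (-(z ^ 2 / (4 * q))) +
        10 * (PI (ℤ × ℤ)).real {x | q < QV (mix K x a) K u v} := by
  set P := PI (ℤ × ℤ) with hP
  set f : (ℤ × ℤ → ℝ) → ℝ := fun x => T (mix K x a) u v with hf
  have hmm : Measurable fun x : ℤ × ℤ → ℝ => mix K x a :=
    (ts_measurable_mix K).comp (measurable_id.prodMk measurable_const)
  have hfm : Measurable f := (measurable_T u v).comp hmm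
  obtain ⟨M, hM1, hM2⟩ := ts_exists_median P hfm
  set e := Real.exp (-(z ^ 2 / (4 * q))) with he
  have he0 : 0 < e := Real.exp_pos _
  set p := P.real {x | q < QV (mix K x a) K u v} with hp
  have hp0 : 0 ≤ p := measureReal_nonneg
  have c1 := conc_pair K a ha h (M := M) hz hq
  have c2 := conc_pair K a ha h (M := M - z) hz hq
  rw [← hP, ← he] at c1 c2
  have sub1 : ∀ t : ℝ, P.real {x | t ≤ f x} ≤
      P.real {x | t ≤ T (mix K x a) u v ∧ QV (mix K x a) K u v ≤ q} + p := by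
    intro t
    refine le_trans (measureReal_mono ?_ (measure_ne_top _ _)) (measureReal_union_le _ _)
    intro x hx
    by_cases hQ : QV (mix K x a) K u v ≤ q
    · exact Or.inl ⟨hx, hQ⟩
    · exact Or.inr (not_le.1 hQ)
  have n1 : 0 ≤ P.real {x | M + z ≤ T (mix K x a) u v ∧ QV (mix K x a) K u v ≤ q} :=
    measureReal_nonneg
  have u1 : P.real {x | M + z ≤ f x} ≤ 2 * e + p := by
    have := sub1 (M + z)
    nlinarith
  have u2 : P.real {x | f x ≤ M - z} ≤ 4 * e + 4 * p := by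
    by_cases hp4 : p ≤ 1/4
    · have h1 := sub1 M
      rw [sub_add_cancel] at c2
      have n2 : 0 ≤ P.real {x | f x ≤ M - z} := measureReal_nonneg
      have h2 : 1/4 ≤ P.real {x | M ≤ T (mix K x a) u v ∧ QV (mix K x a) K u v ≤ q} := by
        linarith
      have h3 : P.real {x | f x ≤ M - z} * (1/4) ≤ e := le_trans
        (mul_le_mul_of_nonneg_left h2 n2) c2
      linarith
    · have : P.real {x | f x ≤ M - z} ≤ 1 := measureReal_le_one
      push Not at hp4
      linarith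
  have u3 : P.real {x | z ≤ |f x - M|} ≤ 6 * e + 5 * p := by
    have : P.real {x | z ≤ |f x - M|} ≤ P.real {x | M + z ≤ f x} + P.real {x | f x ≤ M - z} := by
      refine le_trans (measureReal_mono ?_ (measure_ne_top _ _)) (measureReal_union_le _ _)
      intro x hx
      simp only [mem_ofPred_eq] at hx
      rcases le_abs.1 hx with h1 | h1
      · left; simp only [mem_ofPred_eq]; linarith
      · right; simp only [mem_ofPred_eq]; linarith
    linarith
  have m3 : MeasurableSet {x | z ≤ |f x - M|} :=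
    measurableSet_le measurable_const (hfm.sub_const M).abs
  have u4 : (P.prod P).real {w | 2 * z ≤ |T (mix K w.2 a) u v - T (mix K w.1 a) u v|} ≤
      P.real {x | z ≤ |f x - M|} + P.real {x | z ≤ |f x - M|} := by
    have e1 : (P.prod P).real (Prod.fst ⁻¹' {x | z ≤ |f x - M|}) = P.real {x | z ≤ |f x - M|} := by
      rw [measureReal_def, measurePreserving_fst.measure_preimage m3.nullMeasurableSet,
        ← measureReal_def]
    have e2 : (P.prod P).real (Prod.snd ⁻¹' {x | z ≤ |f x - M|}) = P.real {x | z ≤ |f x - M|} := by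
      rw [measureReal_def, measurePreserving_snd.measure_preimage m3.nullMeasurableSet,
        ← measureReal_def]
    nth_rewrite 1 [← e1]
    rw [← e2]
    refine le_trans (measureReal_mono ?_ (measure_ne_top _ _)) (measureReal_union_le _ _)
    intro w hw
    simp only [mem_ofPred_eq] at hw
    by_contra hc
    rw [mem_union, not_or] at hc
    obtain ⟨h1, h2⟩ := hc
    simp only [mem_preimage, mem_ofPred_eq, not_le, hf] at h1 h2
    have h3 : |T (mix K w.2 a) u v - T (mix K w.1 a) u v| ≤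
        |T (mix K w.2 a) u v - M| + |T (mix K w.1 a) u v - M| := by
      have := abs_sub_le (T (mix K w.2 a) u v) M (T (mix K w.1 a) u v)
      rw [abs_sub_comm M] at this
      exact this
    linarith
  linarith

theorem ts_fixK_conc (K : Set (ℤ × ℤ)) {u v : ℤ × ℤ}
    (h : u ≤ v) {z q : ℝ} (hz : 0 ≤ z) (hq : 0 < q) :
    ((PI (ℤ × ℤ)).prod (PI (ℤ × ℤ)))
      {w | 2 * z ≤ |T (mix K w.2 w.1) u v - T w.1 u v|} ≤
      ENNReal.ofReal (12 * Real.exp (-(z ^ 2 / (4 * q)))) +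
        10 * (PI (ℤ × ℤ)) {ω | q < QV ω K u v} := by
  set P := PI (ℤ × ℤ) with hP
  have mS : MeasurableSet {w : (ℤ × ℤ → ℝ) × (ℤ × ℤ → ℝ) |
      2 * z ≤ |T (mix K w.2 w.1) u v - T w.1 u v|} := by
    refine measurableSet_le measurable_const (Measurable.abs (Measurable.sub ?_ ?_))
    · exact (measurable_T u v).comp ((ts_measurable_mix K).comp (measurable_snd.prodMk measurable_fst))
    · exact (measurable_T u v).comp measurable_fst
  have g1 : MeasurePreserving (fun z : (ℤ × ℤ → ℝ) × (ℤ × ℤ → ℝ) => mix K z.1 z.2)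
      (P.prod P) P := measurePreserving_glue (fun _ : ℤ × ℤ => E1) K
  have g2 : MeasurePreserving (fun z : (ℤ × ℤ → ℝ) × (ℤ × ℤ → ℝ) => mix K z.2 z.1)
      (P.prod P) P := g1.comp Measure.measurePreserving_swap
  have g3 : MeasurePreserving (fun t : (ℤ × ℤ → ℝ) × (ℤ × ℤ → ℝ) × (ℤ × ℤ → ℝ) =>
      (mix K t.2.1 t.1, t.2.2)) (P.prod (P.prod P)) (P.prod P) :=
    (g2.prod (MeasurePreserving.id P)).comp (measurePreserving_prodAssoc P P P).symm
  rw [← g3.measure_preimage mS.nullMeasurableSet]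
  rw [Measure.prod_apply (g3.measurable mS)]
  have mQ : MeasurableSet {ω : ℤ × ℤ → ℝ | q < QV ω K u v} :=
    measurableSet_lt measurable_const (ts_measurable_QV measurable_id
      (K := fun _ => K) (fun z => MeasurableSet.const _) u v)
  have h1 : ∀ᵐ a ∂P, (P.prod P) (Prod.mk a ⁻¹' ((fun t : (ℤ × ℤ → ℝ) × (ℤ × ℤ → ℝ) ×
      (ℤ × ℤ → ℝ) => (mix K t.2.1 t.1, t.2.2)) ⁻¹'
        {w | 2 * z ≤ |T (mix K w.2 w.1) u v - T w.1 u v|})) ≤
      ENNReal.ofReal (12 * Real.exp (-(z ^ 2 / (4 * q)))) +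
        10 * P {x | q < QV (mix K x a) K u v} := by
    filter_upwards [ae_nonneg] with a ha
    have h2 := ts_pair_conc K a ha h hz hq
    have h3 : (Prod.mk a ⁻¹' ((fun t : (ℤ × ℤ → ℝ) × (ℤ × ℤ → ℝ) ×
      (ℤ × ℤ → ℝ) => (mix K t.2.1 t.1, t.2.2)) ⁻¹'
        {w | 2 * z ≤ |T (mix K w.2 w.1) u v - T w.1 u v|})) =
        {w | 2 * z ≤ |T (mix K w.2 a) u v - T (mix K w.1 a) u v|} := by
      ext w
      simp only [mem_preimage, mem_ofPred_eq, ts_mix_mix]
    rw [h3, ← ofReal_measureReal (measure_ne_top _ _),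
      ← ofReal_measureReal (measure_ne_top P {x | q < QV (mix K x a) K u v}),
      show (10:ℝ≥0∞) = ENNReal.ofReal 10 by norm_num, ← ENNReal.ofReal_mul (by norm_num),
      ← ENNReal.ofReal_add (by positivity) (by positivity)]
    exact ENNReal.ofReal_le_ofReal h2
  refine (lintegral_mono_ae h1).trans ?_
  rw [lintegral_add_left measurable_const, lintegral_const, measure_univ, mul_one,
    lintegral_const_mul' _ _ (by norm_num)]
  gcongr
  rw [← g2.measure_preimage mQ.nullMeasurableSet, Measure.prod_apply (g2.measurable mQ)]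
  rfl

theorem ts_avg_conc {u v : ℤ × ℤ} (h : u ≤ v) {τ z q : ℝ} (hz : 0 ≤ z) (hq : 0 < q) :
    mu3 {x : Env3 | 2 * z ≤ |T (evo τ x) u v - T x.1 u v|} ≤
      ENNReal.ofReal (12 * Real.exp (-(z ^ 2 / (4 * q)))) +
        10 * ∫⁻ ω, (PI (ℤ × ℤ)) {U | q < QV ω {z | U z < τ} u v} ∂(PI (ℤ × ℤ)) := by
  set P := PI (ℤ × ℤ) with hP
  have mE : MeasurableSet {x : Env3 | 2 * z ≤ |T (evo τ x) u v - T x.1 u v|} := by
    refine measurableSet_le measurable_const (Measurable.abs (Measurable.sub ?_ ?_))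
    · exact (measurable_T u v).comp (ts_measurable_evo τ)
    · exact (measurable_T u v).comp measurable_fst
  have g1 : MeasurePreserving (fun t : (ℤ × ℤ → ℝ) × (ℤ × ℤ → ℝ) × (ℤ × ℤ → ℝ) =>
      ((t.2.1, (t.2.2, t.1)) : Env3)) (P.prod (P.prod P)) mu3 :=
    (measurePreserving_prodAssoc P P P).comp Measure.measurePreserving_swap
  rw [← g1.measure_preimage mE.nullMeasurableSet, Measure.prod_apply (g1.measurable mE)]
  have mQ : MeasurableSet {w : (ℤ × ℤ → ℝ) × (ℤ × ℤ → ℝ) | q < QV w.2 {z | w.1 z < τ} u v} := by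
    refine measurableSet_lt measurable_const (ts_measurable_QV measurable_snd (fun z => ?_) u v)
    have : Measurable fun w : (ℤ × ℤ → ℝ) × (ℤ × ℤ → ℝ) => w.1 z := by fun_prop
    exact measurableSet_lt this measurable_const
  have h1 : ∀ U, (P.prod P) (Prod.mk U ⁻¹' ((fun t : (ℤ × ℤ → ℝ) × (ℤ × ℤ → ℝ) ×
      (ℤ × ℤ → ℝ) => ((t.2.1, (t.2.2, t.1)) : Env3)) ⁻¹'
        {x : Env3 | 2 * z ≤ |T (evo τ x) u v - T x.1 u v|})) ≤
      ENNReal.ofReal (12 * Real.exp (-(z ^ 2 / (4 * q)))) +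
        10 * P {ω | q < QV ω {z | U z < τ} u v} := fun U => ts_fixK_conc {z | U z < τ} h hz hq
  refine (lintegral_mono h1).trans ?_
  rw [lintegral_add_left measurable_const, lintegral_const, measure_univ, mul_one,
    lintegral_const_mul' _ _ (by norm_num)]
  have e1 := Measure.prod_apply (μ := P) (ν := P) mQ
  have e2 := Measure.prod_apply_symm (μ := P) (ν := P) mQ
  have e3 : ∫⁻ U, P {ω | q < QV ω {z | U z < τ} u v} ∂P =
      ∫⁻ ω, P {U | q < QV ω {z | U z < τ} u v} ∂P := e1.symm.trans e2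
  rw [e3]

/-- a geodesic contains all the sites with `Via`, for good environments -/
theorem ts_via_sum {ω : ℤ × ℤ → ℝ} {u v : ℤ × ℤ} (h : u ≤ v)
    (hu : ∀ w w', Via ω u w v → Via ω u w' v → lev w = lev w' → w = w') {c : ℝ}
    (hc : ∀ x : ℤ → ℤ, UR x (lev u) (lev v) → pt x (lev u) = u → pt x (lev v) = v →
      ∑ l ∈ Finset.Icc (lev u) (lev v), ω (pt x l) ^ 2 ≤ c) :
    ∃ Γ : Finset (ℤ × ℤ), (∀ w, w ∈ Γ ↔ Via ω u w v) ∧ ∑ w ∈ Γ, ω w ^ 2 ≤ c := by
  classical
  refine ⟨(Finset.Icc u v).filter (fun w => Via ω u w v), ?_, ?_⟩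
  · intro w
    rw [Finset.mem_filter, Finset.mem_Icc]
    exact ⟨fun h => h.2, fun h => ⟨⟨h.1, h.2.1⟩, h⟩⟩
  · obtain ⟨x, x1, x2, x3, x4⟩ := exists_path ω h
    refine le_trans ?_ (hc x x1 x2 x3)
    have hinj : ∀ l ∈ (Finset.Icc (lev u) (lev v)), ∀ l' ∈ (Finset.Icc (lev u) (lev v)),
        pt x l = pt x l' → l = l' := by
      intro l _ l' _ hl
      have := congrArg lev hl
      simpa [lev, pt] using this
    rw [← Finset.sum_image (f := fun w => ω w ^ 2) hinj]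
    refine Finset.sum_le_sum_of_subset_of_nonneg ?_ fun _ _ _ => sq_nonneg _
    intro w hw
    rw [Finset.mem_filter, Finset.mem_Icc] at hw
    rw [Finset.mem_image]
    have l1 := lev_le_lev hw.1.1
    have l2 := lev_le_lev hw.1.2
    refine ⟨lev w, Finset.mem_Icc.2 ⟨l1, l2⟩, ?_⟩
    refine hu _ _ (via_of_path x1 h x2 x3 x4 l1 l2) hw.2 ?_
    simp [lev, pt]

theorem ts_qv_bound {u v : ℤ × ℤ} (h : u ≤ v) {τ B s : ℝ} (hτ : 0 ≤ τ) (hB : 1 ≤ B) (hs : 0 < s) :
    ∀ᵐ ω ∂(PI (ℤ × ℤ)), ω ∉ {ω : ℤ × ℤ → ℝ | ∃ z, u ≤ z ∧ z ≤ v ∧ B < ω z} →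
      ω ∉ {ω : ℤ × ℤ → ℝ | ∃ x : ℤ → ℤ, UR x (lev u) (lev v) ∧ pt x (lev u) = u ∧
      pt x (lev v) = v ∧
      160 * (((lev v - lev u : ℤ) : ℝ) + 1) + (B + 1) ^ 3 <
        ∑ l ∈ Finset.Icc (lev u) (lev v), ω (pt x l) ^ 2} →
      (PI (ℤ × ℤ)) {U | 320 * τ * (((lev v - lev u : ℤ) : ℝ) + 1) + 2 * (B + 1) ^ 3 +
        (B + 1) ^ 2 * s < QV ω {z | U z < τ} u v} ≤ ENNReal.ofReal (Real.exp (-s)) := by
  filter_upwards [ae_nonneg, ae_via_unique] with ω h0 h1 h2 h3
  set R : ℝ := ((lev v - lev u : ℤ) : ℝ) + 1 with hR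
  have hR1 : 1 ≤ R := by
    have := lev_le_lev h
    have : (0:ℝ) ≤ ((lev v - lev u : ℤ) : ℝ) := by exact_mod_cast sub_nonneg.2 this
    linarith
  simp only [not_exists, not_and, not_lt] at h2 h3
  obtain ⟨Γ, g1, g2⟩ := ts_via_sum h (fun w w' => h1 u v w w') (fun x x1 x2 x3 => h3 x x1 x2 x3)
  have hQ : ∀ U : ℤ × ℤ → ℝ, QV ω {z | U z < τ} u v =
      ∑ z ∈ Γ, if U z < τ then ω z ^ 2 else 0 := by
    intro U
    classical
    unfold QV
    have e1 : ∀ z ∈ Finset.Icc u v, (if z ∈ {z | U z < τ} ∧ Via ω u z v then ω z ^ 2 else 0) =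
        if z ∈ Γ then (if U z < τ then ω z ^ 2 else 0) else 0 := by
      intro z _
      by_cases a1 : Via ω u z v
      · have a3 : z ∈ Γ := (g1 z).2 a1
        by_cases a2 : U z < τ <;> simp [a1, a2, a3]
      · have a3 : z ∉ Γ := fun hc => a1 ((g1 z).1 hc)
        simp [a1, a3]
    rw [Finset.sum_congr rfl e1, ← Finset.sum_filter]
    refine Finset.sum_congr ?_ fun _ _ => rfl
    ext z
    rw [Finset.mem_filter, Finset.mem_Icc]
    exact ⟨fun h => h.2, fun h => ⟨⟨((g1 z).1 h).1, ((g1 z).1 h).2.1⟩, h⟩⟩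
  have hsq : ∀ z ∈ Γ, 0 ≤ ω z ^ 2 ∧ ω z ^ 2 ≤ B ^ 2 := by
    intro z hz
    refine ⟨sq_nonneg _, pow_le_pow_left₀ (h0 z) (h2 z ((g1 z).1 hz).1 ((g1 z).1 hz).2.1) 2⟩
  have hB3 : 0 ≤ (B + 1) ^ 3 := by positivity
  have hB2s : 0 ≤ (B + 1) ^ 2 * s := by positivity
  by_cases hτ1 : τ ≤ 1
  · have ht := thin Γ (fun z => ω z ^ 2) (b := B ^ 2) (τ := τ) (y := B ^ 2 * s) (by positivity)
      hτ hsq
    have e2 : B ^ 2 * s / B ^ 2 = s := by field_simp
    rw [e2] at ht
    have hsub : {U : ℤ × ℤ → ℝ | 320 * τ * R + 2 * (B + 1) ^ 3 + (B + 1) ^ 2 * s <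
        QV ω {z | U z < τ} u v} ⊆ {U : ℤ × ℤ → ℝ | 2 * τ * (∑ z ∈ Γ, ω z ^ 2) + B ^ 2 * s ≤
          ∑ z ∈ Γ, if U z < τ then ω z ^ 2 else 0} := by
      intro U hU
      simp only [mem_ofPred_eq] at hU ⊢
      rw [hQ] at hU
      refine le_trans ?_ hU.le
      have a1 : 2 * τ * (∑ z ∈ Γ, ω z ^ 2) ≤ 2 * τ * (160 * R + (B + 1) ^ 3) :=
        mul_le_mul_of_nonneg_left g2 (by positivity)
      have a2 : τ * (B + 1) ^ 3 ≤ (B + 1) ^ 3 := by nlinarith
      have a3 : B ^ 2 * s ≤ (B + 1) ^ 2 * s := by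
        apply mul_le_mul_of_nonneg_right _ hs.le
        nlinarith
      linarith
    refine (measure_mono hsub).trans ?_
    rw [← ofReal_measureReal (measure_ne_top _ _)]
    exact ENNReal.ofReal_le_ofReal ht
  · have : {U : ℤ × ℤ → ℝ | 320 * τ * R + 2 * (B + 1) ^ 3 + (B + 1) ^ 2 * s <
        QV ω {z | U z < τ} u v} = ∅ := by
      ext U
      simp only [mem_ofPred_eq, mem_empty_iff_false, iff_false, not_lt]
      rw [hQ]
      have a1 : (∑ z ∈ Γ, if U z < τ then ω z ^ 2 else 0) ≤ ∑ z ∈ Γ, ω z ^ 2 := by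
        refine Finset.sum_le_sum fun z _ => ?_
        split_ifs
        · exact le_refl _
        · positivity
      push Not at hτ1
      have a2 : 160 * R ≤ 320 * τ * R := by nlinarith
      linarith
    rw [this, measure_empty]
    exact zero_le

theorem ts_qv_tail {u v : ℤ × ℤ} (h : u ≤ v) {τ B s : ℝ} (hτ : 0 ≤ τ) (hs : 0 < s)
    (hBdef : B = s + 2 * Real.log (((lev v - lev u : ℤ) : ℝ) + 2)) (hB : 1 ≤ B) :
    ∫⁻ ω, (PI (ℤ × ℤ)) {U | 320 * τ * (((lev v - lev u : ℤ) : ℝ) + 1) + 2 * (B + 1) ^ 3 +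
        (B + 1) ^ 2 * s < QV ω {z | U z < τ} u v} ∂(PI (ℤ × ℤ)) ≤
      ENNReal.ofReal (4 * Real.exp (-s)) := by
  set R : ℝ := ((lev v - lev u : ℤ) : ℝ) + 1 with hR
  have hR1 : 1 ≤ R := by
    have := lev_le_lev h
    have : (0:ℝ) ≤ ((lev v - lev u : ℤ) : ℝ) := by exact_mod_cast sub_nonneg.2 this
    linarith
  have hRB : R ^ 2 * Real.exp (-B) ≤ Real.exp (-s) := by
    have e1 : ((lev v - lev u : ℤ) : ℝ) + 2 = R + 1 := by rw [hR]; ring
    rw [hBdef, e1]
    have e2 : Real.exp (-(s + 2 * Real.log (R + 1))) = Real.exp (-s) / (R + 1) ^ 2 := by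
      rw [neg_add, Real.exp_add, Real.exp_neg (2 * _), two_mul, Real.exp_add,
        Real.exp_log (by linarith), sq]
      rfl
    rw [e2]
    have : R ^ 2 * (Real.exp (-s) / (R + 1) ^ 2) = Real.exp (-s) * (R ^ 2 / (R + 1) ^ 2) := by
      ring
    rw [this]
    apply mul_le_of_le_one_right (Real.exp_nonneg _)
    rw [div_le_one (by positivity)]
    exact pow_le_pow_left₀ (by linarith) (by linarith) 2
  set A1 : Set (ℤ × ℤ → ℝ) := {ω : ℤ × ℤ → ℝ | ∃ z, u ≤ z ∧ z ≤ v ∧ B < ω z} with hA1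
  set A2 : Set (ℤ × ℤ → ℝ) := {ω : ℤ × ℤ → ℝ | ∃ x : ℤ → ℤ, UR x (lev u) (lev v) ∧
      pt x (lev u) = u ∧ pt x (lev v) = v ∧
      160 * R + (B + 1) ^ 3 <
        ∑ l ∈ Finset.Icc (lev u) (lev v), ω (pt x l) ^ 2} with hA2
  set G : (ℤ × ℤ → ℝ) → ℝ≥0∞ := fun ω => (PI (ℤ × ℤ)) {U | 320 * τ * R + 2 * (B + 1) ^ 3 +
        (B + 1) ^ 2 * s < QV ω {z | U z < τ} u v} with hG
  have h1 := max_tail u v h (B := B) (by linarith)
  have h2 := sq_paths h hB
  have hq := ts_qv_bound h hτ hB hs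
  rw [← hR, ← hA1] at h1
  rw [← hR, ← hA2] at h2
  set A := toMeasurable (PI (ℤ × ℤ)) (A1 ∪ A2) with hA
  have hAm : MeasurableSet A := measurableSet_toMeasurable _ _
  have hAle : PI (ℤ × ℤ) A ≤ ENNReal.ofReal (3 * Real.exp (-s)) := by
    rw [hA, measure_toMeasurable]
    refine (measure_union_le _ _).trans ?_
    rw [← ofReal_measureReal (measure_ne_top _ A1), ← ofReal_measureReal (measure_ne_top _ A2),
      ← ENNReal.ofReal_add measureReal_nonneg measureReal_nonneg]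
    apply ENNReal.ofReal_le_ofReal
    linarith
  have hGA : ∀ᵐ ω ∂(PI (ℤ × ℤ)), G ω ≤ A.indicator (fun _ => 1) ω +
      ENNReal.ofReal (Real.exp (-s)) := by
    filter_upwards [hq] with ω hω
    by_cases hωA : ω ∈ A
    · rw [indicator_of_mem hωA]
      exact le_trans prob_le_one le_self_add
    · have hω1 : ω ∉ A1 ∪ A2 := fun hc => hωA (subset_toMeasurable _ _ hc)
      rw [mem_union, not_or] at hω1
      refine le_trans (hω hω1.1 hω1.2) le_add_self
  refine (lintegral_mono_ae hGA).trans ?_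
  rw [lintegral_add_right _ measurable_const, lintegral_indicator_const hAm, lintegral_const,
    measure_univ, one_mul, mul_one]
  refine (add_le_add hAle le_rfl).trans ?_
  rw [← ENNReal.ofReal_add (by positivity) (by positivity)]
  apply ENNReal.ofReal_le_ofReal
  linarith

theorem time_stab : ∃ C c : ℝ, 0 < C ∧ 0 < c ∧ ∀ u v : ℤ × ℤ, u ≤ v → ∀ τ y : ℝ, 0 ≤ τ →
    1 ≤ y →
    mu3.real {x : Env3 |
      y * (√(τ * (((lev v - lev u : ℤ) : ℝ) + 1)) +
        Real.log (((lev v - lev u : ℤ) : ℝ) + 3) ^ 3) ≤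
        |T (evo τ x) u v - T x.1 u v|} ≤ C * Real.exp (-(c * y ^ (1 / 4 : ℝ))) := by
  refine ⟨52, 1/5120, by norm_num, by norm_num, ?_⟩
  intro u v h τ y hτ hy
  set R : ℝ := ((lev v - lev u : ℤ) : ℝ) + 1 with hR
  have hR1 : 1 ≤ R := by
    have := lev_le_lev h
    have : (0:ℝ) ≤ ((lev v - lev u : ℤ) : ℝ) := by exact_mod_cast sub_nonneg.2 this
    linarith
  have e3 : ((lev v - lev u : ℤ) : ℝ) + 3 = R + 2 := by rw [hR]; ring
  rw [e3]
  set L := Real.log (R + 2) with hL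
  have hL1 : 1 ≤ L := by
    rw [hL, Real.le_log_iff_exp_le (by linarith)]
    have := Real.exp_one_lt_d9
    linarith
  set s := y ^ (1 / 4 : ℝ) with hs
  have hs1 : 1 ≤ s := Real.one_le_rpow hy (by norm_num)
  have hs4 : s ^ 4 = y := by
    rw [hs, ← Real.rpow_natCast, ← Real.rpow_mul (by linarith)]; norm_num
  obtain ⟨B, hB⟩ : ∃ B, B = s + 2 * Real.log (((lev v - lev u : ℤ) : ℝ) + 2) := ⟨_, rfl⟩
  have hlog : Real.log (((lev v - lev u : ℤ) : ℝ) + 2) ≤ L := by
    rw [hL]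
    apply Real.log_le_log
    · linarith
    · linarith
  have hlog0 : 0 ≤ Real.log (((lev v - lev u : ℤ) : ℝ) + 2) := by
    apply Real.log_nonneg; linarith
  have hB1 : 1 ≤ B := by linarith
  have hBL : B + 1 ≤ 4 * (s * L) := by nlinarith
  obtain ⟨q, hq⟩ : ∃ q, q = 320 * τ * R + 2 * (B + 1) ^ 3 + (B + 1) ^ 2 * s := ⟨_, rfl⟩
  have hq0 : 0 < q := by
    rw [hq]; positivity
  obtain ⟨z, hz⟩ : ∃ z, z = y * (√(τ * R) + L ^ 3) / 2 := ⟨_, rfl⟩
  have hz0 : 0 ≤ z := by rw [hz]; positivity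
  have h2z : 2 * z = y * (√(τ * R) + L ^ 3) := by rw [hz]; ring
  rw [← h2z]
  have main := ts_avg_conc (τ := τ) h hz0 hq0
  have tail := ts_qv_tail (B := B) h hτ (by linarith : 0 < s) hB hB1
  rw [← hR, ← hq] at tail
  have hexp : Real.exp (-(z ^ 2 / (4 * q))) ≤ Real.exp (-(1 / 5120 * s)) := by
    apply Real.exp_le_exp.2
    apply neg_le_neg
    rw [le_div_iff₀ (by positivity)]
    have hBL3 : (B + 1) ^ 3 ≤ (4 * (s * L)) ^ 3 := pow_le_pow_left₀ (by linarith) hBL 3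
    have hBL2 : (B + 1) ^ 2 ≤ (4 * (s * L)) ^ 2 := pow_le_pow_left₀ (by linarith) hBL 2
    have hqle : q ≤ 320 * s ^ 4 * (τ * R + L ^ 6) := by
      have t0 : 0 ≤ τ * R := by positivity
      have s3 : s ^ 3 ≤ s ^ 4 := pow_le_pow_right₀ hs1 (by norm_num)
      have L3 : L ^ 3 ≤ L ^ 6 := pow_le_pow_right₀ hL1 (by norm_num)
      have L2 : L ^ 2 ≤ L ^ 6 := pow_le_pow_right₀ hL1 (by norm_num)
      have s41 : 1 ≤ s ^ 4 := one_le_pow₀ hs1
      have a1 : s ^ 3 * L ^ 3 ≤ s ^ 4 * L ^ 6 := mul_le_mul s3 L3 (by positivity) (by positivity)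
      have a2 : s ^ 3 * L ^ 2 ≤ s ^ 4 * L ^ 6 := mul_le_mul s3 L2 (by positivity) (by positivity)
      have a3 : (B + 1) ^ 2 * s ≤ (4 * (s * L)) ^ 2 * s :=
        mul_le_mul_of_nonneg_right hBL2 (by linarith)
      have a4 : 320 * τ * R ≤ 320 * s ^ 4 * (τ * R) := by nlinarith
      have a5 : (4 * (s * L)) ^ 3 = 64 * (s ^ 3 * L ^ 3) := by ring
      have a6 : (4 * (s * L)) ^ 2 * s = 16 * (s ^ 3 * L ^ 2) := by ring
      have a7 : 0 ≤ s ^ 4 * L ^ 6 := by positivity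
      rw [hq]
      nlinarith
    have hzge : s ^ 8 * (τ * R + L ^ 6) ≤ 4 * z ^ 2 := by
      have : 4 * z ^ 2 = s ^ 8 * (√(τ * R) + L ^ 3) ^ 2 := by
        rw [hz, ← hs4]; ring
      rw [this]
      apply mul_le_mul_of_nonneg_left _ (by positivity)
      have hsq : √(τ * R) ^ 2 = τ * R := Real.sq_sqrt (by positivity)
      have : 0 ≤ √(τ * R) * L ^ 3 := by positivity
      nlinarith
    have h8 : s * s ^ 4 ≤ s ^ 8 := by
      have : s * s ^ 4 = s ^ 5 := by ring
      rw [this]; exact pow_le_pow_right₀ hs1 (by norm_num)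
    have hX : 0 ≤ τ * R + L ^ 6 := by positivity
    calc 1 / 5120 * s * (4 * q) ≤ 1 / 5120 * s * (4 * (320 * s ^ 4 * (τ * R + L ^ 6))) := by
          apply mul_le_mul_of_nonneg_left _ (by positivity)
          linarith
      _ = 1/4 * (s * s ^ 4) * (τ * R + L ^ 6) := by ring
      _ ≤ 1/4 * s ^ 8 * (τ * R + L ^ 6) := by
          apply mul_le_mul_of_nonneg_right _ hX
          linarith
      _ ≤ z ^ 2 := by linarith
  have hexp2 : Real.exp (-s) ≤ Real.exp (-(1 / 5120 * s)) := by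
    apply Real.exp_le_exp.2
    linarith
  have fin : mu3 {x : Env3 | 2 * z ≤ |T (evo τ x) u v - T x.1 u v|} ≤
      ENNReal.ofReal (52 * Real.exp (-(1 / 5120 * s))) := by
    refine main.trans ((add_le_add le_rfl (mul_le_mul_right tail _)).trans ?_)
    rw [show (10:ℝ≥0∞) = ENNReal.ofReal 10 by norm_num, ← ENNReal.ofReal_mul (by norm_num),
      ← ENNReal.ofReal_add (by positivity) (by positivity)]
    apply ENNReal.ofReal_le_ofReal
    linarith
  rw [measureReal_def]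
  exact ENNReal.toReal_le_of_le_ofReal (by positivity) fin

end BGE
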