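import Pool.Agent.BGE.Defs2
import Pool.Agent.BGE.AllTail
import Pool.Agent.BGE.ConeTail
import Pool.Agent.BGE.Unique
import Pool.Agent.BGE.TimeStab

/-!
BGE / G1, G2. Probability of crude regularity and crude time stability.

`crE_prob`: union bound over the at most `((2m+1)(2m+2))²` pairs `p ≤ q` of the box, `all_tail` and
`cone_tail` (with `κ/4`), `ae_nonneg`, and `P(ω z > lam) = e^{-lam}`.
`crT_prob`: union bound over the pairs, `time_stab` with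
`y = lam/(1 + (log (4m+5))³)` (the distance is at most `4m + 1`); if `y < 1` the bound is trivial for
`C ≥ e`. Then `y (√(τ(l+1)) + log³) ≤ lam (√(τ (l+1)) + 1)`.
-/

namespace BGE

open MeasureTheory ProbabilityTheory

/-- the box as a finite set -/
noncomputable def cpBox (m : ℕ) : Finset (ℤ × ℤ) :=
  Finset.Icc (-(m : ℤ)) m ×ˢ Finset.Icc (-(m : ℤ)) (m + 1)

theorem cp_mem_box {m : ℕ} {z : ℤ × ℤ} : z ∈ cpBox m ↔ z ∈ Bx m := by
  simp only [cpBox, Bx, Finset.mem_product, Finset.mem_Icc, Set.mem_ofPred_eq]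
  tauto

theorem cp_card_box {m : ℕ} (hm : 1 ≤ m) : ((cpBox m).card : ℝ) ≤ 12 * (m : ℝ) ^ 2 := by
  have h1 : (cpBox m).card = (2 * m + 1) * (2 * m + 2) := by
    rw [cpBox, Finset.card_product, Int.card_Icc, Int.card_Icc]
    congr 1 <;> omega
  rw [h1]
  push_cast
  have : (1 : ℝ) ≤ m := by exact_mod_cast hm
  nlinarith

/-- union bound over pairs in the box -/
theorem cp_pairs_le {Ω : Type*} [MeasurableSpace Ω] (μ : Measure Ω) [IsProbabilityMeasure μ]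
    {m : ℕ} (hm : 1 ≤ m) (E : ℤ × ℤ → ℤ × ℤ → Set Ω) {b : ℝ} (hb : 0 ≤ b)
    (hE : ∀ p ∈ Bx m, ∀ q ∈ Bx m, p ≤ q → μ.real (E p q) ≤ b) :
    μ.real {x | ∃ p ∈ Bx m, ∃ q ∈ Bx m, p ≤ q ∧ x ∈ E p q} ≤ 144 * (m : ℝ) ^ 4 * b := by
  classical
  have h0 : {x | ∃ p ∈ Bx m, ∃ q ∈ Bx m, p ≤ q ∧ x ∈ E p q} ⊆
      ⋃ r ∈ (cpBox m ×ˢ cpBox m).filter (fun r => r.1 ≤ r.2), E r.1 r.2 := by
    rintro x ⟨p, hp, q, hq, hpq, hx⟩
    simp only [Set.mem_iUnion]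
    exact ⟨(p, q), Finset.mem_filter.2 ⟨Finset.mem_product.2 ⟨cp_mem_box.2 hp, cp_mem_box.2 hq⟩, hpq⟩, hx⟩
  calc μ.real {x | ∃ p ∈ Bx m, ∃ q ∈ Bx m, p ≤ q ∧ x ∈ E p q}
      ≤ μ.real (⋃ r ∈ (cpBox m ×ˢ cpBox m).filter (fun r => r.1 ≤ r.2), E r.1 r.2) :=
        measureReal_mono h0 (measure_ne_top _ _)
    _ ≤ ∑ r ∈ (cpBox m ×ˢ cpBox m).filter (fun r => r.1 ≤ r.2), μ.real (E r.1 r.2) :=
        measureReal_biUnion_finset_le _ _
    _ ≤ ∑ r ∈ (cpBox m ×ˢ cpBox m).filter (fun r => r.1 ≤ r.2), b := by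
        apply Finset.sum_le_sum
        intro r hr
        rw [Finset.mem_filter, Finset.mem_product] at hr
        exact hE _ (cp_mem_box.1 hr.1.1) _ (cp_mem_box.1 hr.1.2) hr.2
    _ = (((cpBox m ×ˢ cpBox m).filter (fun r => r.1 ≤ r.2)).card : ℝ) * b := by
        rw [Finset.sum_const, nsmul_eq_mul]
    _ ≤ 144 * (m : ℝ) ^ 4 * b := by
        apply mul_le_mul_of_nonneg_right _ hb
        have h1 : (((cpBox m ×ˢ cpBox m).filter (fun r => r.1 ≤ r.2)).card : ℝ) ≤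
            ((cpBox m).card : ℝ) * (cpBox m).card := by
          rw [← Nat.cast_mul, ← Finset.card_product]
          exact_mod_cast Finset.card_filter_le _ _
        have h2 := cp_card_box hm
        have h3 : (0 : ℝ) ≤ (cpBox m).card := Nat.cast_nonneg _
        calc _ ≤ ((cpBox m).card : ℝ) * (cpBox m).card := h1
          _ ≤ (12 * (m : ℝ) ^ 2) * (12 * (m : ℝ) ^ 2) := mul_le_mul h2 h2 h3 (by positivity)
          _ = 144 * (m : ℝ) ^ 4 := by ring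

/-- union bound over the sites of the box -/
theorem cp_sites_le {Ω : Type*} [MeasurableSpace Ω] (μ : Measure Ω) [IsProbabilityMeasure μ]
    {m : ℕ} (hm : 1 ≤ m) (E : ℤ × ℤ → Set Ω) {b : ℝ} (hb : 0 ≤ b)
    (hE : ∀ p ∈ Bx m, μ.real (E p) ≤ b) :
    μ.real {x | ∃ p ∈ Bx m, x ∈ E p} ≤ 12 * (m : ℝ) ^ 2 * b := by
  have h0 : {x | ∃ p ∈ Bx m, x ∈ E p} ⊆ ⋃ r ∈ cpBox m, E r := by
    rintro x ⟨p, hp, hx⟩
    simp only [Set.mem_iUnion]
    exact ⟨p, cp_mem_box.2 hp, hx⟩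
  calc μ.real {x | ∃ p ∈ Bx m, x ∈ E p}
      ≤ μ.real (⋃ r ∈ cpBox m, E r) := measureReal_mono h0 (measure_ne_top _ _)
    _ ≤ ∑ r ∈ cpBox m, μ.real (E r) := measureReal_biUnion_finset_le _ _
    _ ≤ ∑ r ∈ cpBox m, b := by
        apply Finset.sum_le_sum
        intro r hr
        exact hE _ (cp_mem_box.1 hr)
    _ = ((cpBox m).card : ℝ) * b := by rw [Finset.sum_const, nsmul_eq_mul]
    _ ≤ 12 * (m : ℝ) ^ 2 * b := mul_le_mul_of_nonneg_right (cp_card_box hm) hb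

theorem cp_site_tail (z : ℤ × ℤ) {B : ℝ} (hB : 0 ≤ B) :
    (PI (ℤ × ℤ)).real {ω | B < ω z} ≤ Real.exp (-B) := by
  have h1 := max_tail z z le_rfl hB
  have h2 : {ω : ℤ × ℤ → ℝ | B < ω z} ⊆ {ω | ∃ w, z ≤ w ∧ w ≤ z ∧ B < ω w} :=
    fun ω h => ⟨z, le_rfl, le_rfl, h⟩
  refine (measureReal_mono h2 (measure_ne_top _ _)).trans (h1.trans ?_)
  simp

theorem cp_exp_mono {c c' x : ℝ} (h : c ≤ c') (hx : 0 ≤ x) :
    Real.exp (-(c' * x)) ≤ Real.exp (-(c * x)) := by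
  apply Real.exp_le_exp.2
  have := mul_le_mul_of_nonneg_right h hx
  linarith

theorem crE_prob {κ : ℝ} (hκ : 0 < κ) : ∃ C c : ℝ, 1 ≤ C ∧ 0 < c ∧ ∀ (lam : ℝ) (m : ℕ),
    1 ≤ lam → 1 ≤ m →
    (PI (ℤ × ℤ)).real {ω | ¬ CrE κ lam m ω} ≤ C * (m : ℝ) ^ 4 * Real.exp (-(c * lam)) := by
  obtain ⟨C1, c1, hC1, hc1, H1⟩ := all_tail
  obtain ⟨C2, c2, hC2, hc2, H2⟩ := cone_tail (κ := κ / 4) (by positivity)
  refine ⟨12 + 144 * C1 + 144 * C2, min 1 (min c1 c2), by linarith [hC1, hC2],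
    lt_min one_pos (lt_min hc1 hc2), ?_⟩
  intro lam m hlam hm
  have hl0 : 0 ≤ lam := by linarith
  set c := min 1 (min c1 c2) with hc
  have hcle1 : c ≤ 1 := min_le_left _ _
  have hcle2 : c ≤ c1 := (min_le_right _ _).trans (min_le_left _ _)
  have hcle3 : c ≤ c2 := (min_le_right _ _).trans (min_le_right _ _)
  set N : Set (ℤ × ℤ → ℝ) := {ω | ¬ ∀ z, 0 ≤ ω z} with hN
  have hN0 : (PI (ℤ × ℤ)).real N = 0 := by
    rw [measureReal_def, ae_iff.1 ae_nonneg, ENNReal.toReal_zero]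
  set A1 : Set (ℤ × ℤ → ℝ) := {ω | ∃ z ∈ Bx m, ω ∈ {ω : ℤ × ℤ → ℝ | lam < ω z}} with hA1
  set E2 : ℤ × ℤ → ℤ × ℤ → Set (ℤ × ℤ → ℝ) := fun u v => {ω | lam * √((lev v - lev u : ℤ) + 1) ≤
      T ω u v - mu ((v.1 - u.1 : ℤ)) ((v.2 - u.2 : ℤ))} with hE2
  set E3 : ℤ × ℤ → ℤ × ℤ → Set (ℤ × ℤ → ℝ) := fun u v =>
    {ω | Cone (κ / 4) u v ∧ lam * (((lev v - lev u : ℤ) : ℝ) + 1) ^ (1 / 3 : ℝ) ≤
      |T ω u v - mu ((v.1 - u.1 : ℤ)) ((v.2 - u.2 : ℤ))|} with hE3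
  set A2 : Set (ℤ × ℤ → ℝ) := {ω | ∃ p ∈ Bx m, ∃ q ∈ Bx m, p ≤ q ∧ ω ∈ E2 p q} with hA2
  set A3 : Set (ℤ × ℤ → ℝ) := {ω | ∃ p ∈ Bx m, ∃ q ∈ Bx m, p ≤ q ∧ ω ∈ E3 p q} with hA3
  have hsub : {ω | ¬ CrE κ lam m ω} ⊆ N ∪ (A1 ∪ (A2 ∪ A3)) := by
    intro ω hω
    by_contra hcon
    apply hω
    simp only [Set.mem_union, not_or] at hcon
    obtain ⟨h1, h2, h3, h4⟩ := hcon
    have hnn : ∀ z, 0 ≤ ω z := by
      by_contra hc
      exact h1 hc
    refine ⟨fun z hz => ⟨hnn z, ?_⟩, fun p hp q hq hpq => ⟨?_, ?_⟩⟩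
    · by_contra hc
      exact h2 ⟨z, hz, not_le.1 hc⟩
    · by_contra hc
      apply h3
      refine ⟨p, hp, q, hq, hpq, ?_⟩
      rw [not_le] at hc
      show lam * √((lev q - lev p : ℤ) + 1) ≤ T ω p q - mu ((q.1 - p.1 : ℤ)) ((q.2 - p.2 : ℤ))
      have : muz p q + lam * √(dl p q + 1) < T ω p q := hc
      unfold muz dl at this
      linarith
    · intro hcone
      by_contra hc
      apply h4
      refine ⟨p, hp, q, hq, hpq, hcone, ?_⟩
      rw [not_le] at hc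
      exact hc.le
  have hP1 : (PI (ℤ × ℤ)).real A1 ≤ 12 * (m : ℝ) ^ 2 * Real.exp (-(c * lam)) := by
    apply cp_sites_le _ hm _ (Real.exp_pos _).le
    intro z _
    refine (cp_site_tail z hl0).trans ?_
    have := cp_exp_mono hcle1 hl0
    simpa using this
  have hP2 : (PI (ℤ × ℤ)).real A2 ≤ 144 * (m : ℝ) ^ 4 * (C1 * Real.exp (-(c * lam))) := by
    apply cp_pairs_le _ hm _ (by positivity)
    intro p _ q _ hpq
    refine (H1 p q hpq lam hl0).trans ?_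
    exact mul_le_mul_of_nonneg_left (cp_exp_mono hcle2 hl0) hC1.le
  have hP3 : (PI (ℤ × ℤ)).real A3 ≤ 144 * (m : ℝ) ^ 4 * (C2 * Real.exp (-(c * lam))) := by
    apply cp_pairs_le _ hm _ (by positivity)
    intro p _ q _ hpq
    by_cases hcone : Cone (κ / 4) p q
    · have h1 : E3 p q ⊆ {ω | lam * (((lev q - lev p : ℤ) : ℝ) + 1) ^ (1 / 3 : ℝ) ≤
          |T ω p q - mu ((q.1 - p.1 : ℤ)) ((q.2 - p.2 : ℤ))|} := fun ω h => h.2
      refine (measureReal_mono h1 (measure_ne_top _ _)).trans ?_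
      obtain ⟨_, hc1, hc2⟩ := hcone
      refine (H2 p q hpq hc1 hc2 lam hl0).trans ?_
      exact mul_le_mul_of_nonneg_left (cp_exp_mono hcle3 hl0) hC2.le
    · have h1 : E3 p q = ∅ := by
        ext ω
        simp only [hE3, Set.mem_ofPred_eq, Set.mem_empty_iff_false, iff_false]
        exact fun h => hcone h.1
      rw [h1]
      simp only [measureReal_empty]
      positivity
  have hm1 : (1 : ℝ) ≤ m := by exact_mod_cast hm
  calc (PI (ℤ × ℤ)).real {ω | ¬ CrE κ lam m ω}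
      ≤ (PI (ℤ × ℤ)).real (N ∪ (A1 ∪ (A2 ∪ A3))) := measureReal_mono hsub (measure_ne_top _ _)
    _ ≤ (PI (ℤ × ℤ)).real N + ((PI (ℤ × ℤ)).real A1 +
        ((PI (ℤ × ℤ)).real A2 + (PI (ℤ × ℤ)).real A3)) := by
        refine (measureReal_union_le _ _).trans ?_
        gcongr
        refine (measureReal_union_le _ _).trans ?_
        gcongr
        exact measureReal_union_le _ _
    _ ≤ 0 + (12 * (m : ℝ) ^ 2 * Real.exp (-(c * lam)) +
        (144 * (m : ℝ) ^ 4 * (C1 * Real.exp (-(c * lam))) +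
          144 * (m : ℝ) ^ 4 * (C2 * Real.exp (-(c * lam))))) := by
        rw [hN0]
        gcongr
    _ ≤ (12 + 144 * C1 + 144 * C2) * (m : ℝ) ^ 4 * Real.exp (-(c * lam)) := by
        have h1 : (m : ℝ) ^ 2 ≤ (m : ℝ) ^ 4 := pow_le_pow_right₀ hm1 (by norm_num)
        have h2 := mul_le_mul_of_nonneg_right h1 (Real.exp_pos (-(c * lam))).le
        nlinarith [Real.exp_pos (-(c * lam))]

theorem cp_lev_sub {m : ℕ} {p q : ℤ × ℤ} (hp : p ∈ Bx m) (hq : q ∈ Bx m) :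
    lev q - lev p ≤ 4 * m + 1 := by
  obtain ⟨h1, h2, h3, h4⟩ := hp
  obtain ⟨h5, h6, h7, h8⟩ := hq
  unfold lev
  omega

theorem crT_prob : ∃ C c : ℝ, 1 ≤ C ∧ 0 < c ∧ ∀ (lam τ : ℝ) (m : ℕ), 1 ≤ lam → 1 ≤ m → 0 ≤ τ →
    mu3.real {x | ¬ CrT lam m τ x.1 (evo τ x)} ≤ C * (m : ℝ) ^ 4 *
      Real.exp (-(c * (lam / (1 + Real.log (4 * m + 5) ^ 3)) ^ (1 / 4 : ℝ))) := by
  obtain ⟨C1, c1, hC1, hc1, H1⟩ := time_stab
  refine ⟨144 * C1 + Real.exp c1, c1, ?_, hc1, ?_⟩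
  · have := Real.one_le_exp hc1.le
    linarith
  intro lam τ m hlam hm hτ
  have hm1 : (1 : ℝ) ≤ m := by exact_mod_cast hm
  have hL : 0 ≤ Real.log (4 * m + 5) := Real.log_nonneg (by linarith)
  set L := Real.log (4 * m + 5) with hLdef
  have hD : 1 ≤ 1 + L ^ 3 := by
    have := pow_nonneg hL 3
    linarith
  have hD0 : 0 < 1 + L ^ 3 := by linarith
  set y := lam / (1 + L ^ 3) with hy
  have hy0 : 0 < y := div_pos (by linarith) hD0
  have hm4 : (1 : ℝ) ≤ (m : ℝ) ^ 4 := one_le_pow₀ hm1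
  rcases lt_or_ge y 1 with hy1 | hy1
  · have h1 : y ^ (1 / 4 : ℝ) ≤ 1 := Real.rpow_le_one hy0.le hy1.le (by norm_num)
    have h2 : Real.exp (-c1) ≤ Real.exp (-(c1 * y ^ (1 / 4 : ℝ))) := by
      apply Real.exp_le_exp.2
      nlinarith
    have h3 : 1 ≤ (144 * C1 + Real.exp c1) * (m : ℝ) ^ 4 *
        Real.exp (-(c1 * y ^ (1 / 4 : ℝ))) := by
      calc (1 : ℝ) = Real.exp c1 * 1 * Real.exp (-c1) := by
            rw [mul_one, ← Real.exp_add]; simp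
        _ ≤ (144 * C1 + Real.exp c1) * (m : ℝ) ^ 4 * Real.exp (-(c1 * y ^ (1 / 4 : ℝ))) := by
            gcongr
            · linarith
    exact measureReal_le_one.trans h3
  · have hyl : y ≤ lam := div_le_self (by linarith) hD
    have hyL : y * L ^ 3 ≤ lam := by
      have : y * (1 + L ^ 3) = lam := by
        rw [hy]; field_simp
      nlinarith
    set E : ℤ × ℤ → ℤ × ℤ → Set Env3 := fun u v => {x : Env3 |
      y * (√(τ * (((lev v - lev u : ℤ) : ℝ) + 1)) +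
        Real.log (((lev v - lev u : ℤ) : ℝ) + 3) ^ 3) ≤
        |T (evo τ x) u v - T x.1 u v|} with hE
    have hsub : {x : Env3 | ¬ CrT lam m τ x.1 (evo τ x)} ⊆
        {x | ∃ p ∈ Bx m, ∃ q ∈ Bx m, p ≤ q ∧ x ∈ E p q} := by
      intro x hx
      by_contra hcon
      apply hx
      intro p hp q hq hpq
      by_contra hc
      apply hcon
      refine ⟨p, hp, q, hq, hpq, ?_⟩
      rw [not_le] at hc
      refine le_trans ?_ hc.le
      have hl0 : (0 : ℝ) ≤ ((lev q - lev p : ℤ) : ℝ) := by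
        have : lev p ≤ lev q := add_le_add hpq.1 hpq.2
        exact_mod_cast sub_nonneg.2 this
      have hl1 : ((lev q - lev p : ℤ) : ℝ) ≤ 4 * m + 1 := by
        exact_mod_cast cp_lev_sub hp hq
      have h1 : Real.log (((lev q - lev p : ℤ) : ℝ) + 3) ≤ L :=
        Real.log_le_log (by linarith) (by linarith)
      have h2 : 0 ≤ Real.log (((lev q - lev p : ℤ) : ℝ) + 3) := Real.log_nonneg (by linarith)
      have h3 : Real.log (((lev q - lev p : ℤ) : ℝ) + 3) ^ 3 ≤ L ^ 3 := pow_le_pow_left₀ h2 h1 3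
      have h4 : y * Real.log (((lev q - lev p : ℤ) : ℝ) + 3) ^ 3 ≤ lam :=
        (mul_le_mul_of_nonneg_left h3 hy0.le).trans hyL
      have h5 : y * √(τ * (((lev q - lev p : ℤ) : ℝ) + 1)) ≤
          lam * √(τ * (((lev q - lev p : ℤ) : ℝ) + 1)) :=
        mul_le_mul_of_nonneg_right hyl (Real.sqrt_nonneg _)
      show y * (√(τ * (((lev q - lev p : ℤ) : ℝ) + 1)) +
        Real.log (((lev q - lev p : ℤ) : ℝ) + 3) ^ 3) ≤ lam * (√(τ * (dl p q + 1)) + 1)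
      unfold dl
      linarith
    refine (measureReal_mono hsub (measure_ne_top _ _)).trans ?_
    have h6 : mu3.real {x | ∃ p ∈ Bx m, ∃ q ∈ Bx m, p ≤ q ∧ x ∈ E p q} ≤
        144 * (m : ℝ) ^ 4 * (C1 * Real.exp (-(c1 * y ^ (1 / 4 : ℝ)))) := by
      apply cp_pairs_le _ hm _ (by positivity)
      intro p _ q _ hpq
      exact H1 p q hpq τ y hτ hy1
    refine h6.trans ?_
    have h7 : 0 < Real.exp (-(c1 * y ^ (1 / 4 : ℝ))) := Real.exp_pos _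
    have h8 : 0 < Real.exp c1 * (m : ℝ) ^ 4 * Real.exp (-(c1 * y ^ (1 / 4 : ℝ))) := by positivity
    nlinarith

end BGE
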