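import Pool.Agent.BGE.Defs3

/-!
BGE / M4. Measurability and dependence of the events of the recursion. All from `Meas` (`res`
versions, `depOn_res`, `depOn_rotE`, `depOn_dyn`, `depOn_Upd`). `RR` is symmetric under `rot` and
increasing in the scale.
-/

namespace BGE

open MeasureTheory ProbabilityTheory

variable {κ σ lam h η : ℝ} {n r N0 M j : ℕ}

theorem RR_rot {z : ℤ × ℤ} : rot z ∈ RR σ lam n ↔ z ∈ RR σ lam n := by
  have h1 : lev (rot z) = 1 - lev z := by
    unfold lev rot
    simp only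
    ring
  have h2 : dev σ (rot z) = -dev σ z := by
    unfold dev
    rw [h1]
    unfold rot
    push_cast
    ring
  unfold RR Rgn
  simp only [Set.mem_ofPred_eq]
  rw [h1, h2, abs_neg]
  constructor
  · rintro ⟨ha, hb, hc⟩
    exact ⟨by omega, by omega, hc⟩
  · rintro ⟨ha, hb, hc⟩
    exact ⟨by omega, by omega, hc⟩

theorem RR_mono (hl : 0 ≤ lam) (hr : r ≤ n) : RR σ lam r ⊆ RR σ lam n := by
  rintro z ⟨h1, h2, h3⟩
  have hrn : (r : ℝ) ≤ n := by exact_mod_cast hr
  have h4 : arc lam r ≤ arc lam n := by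
    unfold arc
    have : (r : ℝ) ^ (2 / 3 : ℝ) ≤ (n : ℝ) ^ (2 / 3 : ℝ) :=
      Real.rpow_le_rpow (Nat.cast_nonneg r) hrn (by norm_num)
    exact mul_le_mul_of_nonneg_left this (by linarith)
  exact ⟨by omega, by omega, by linarith⟩

/-- the event of the middle block for a general environment -/
private def midP (κ σ lam h : ℝ) (j : ℕ) (ω : ℤ × ℤ → ℝ) : Prop :=
  NR σ (4 * arc lam (rou h lam j)) (rou h lam j) (Kc κ lam (rin h lam j))
        (Ic lam (rou h lam j)) (3 * th h j * √(2 ^ j)) ω ∧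
      (Clo σ (4 * arc lam (rou h lam j)) (rou h lam j) (Kc κ lam (rin h lam j)) (2 ^ (j - 1))
        (th h j * √(2 ^ j)) ω ∨
       Wd σ (4 * arc lam (rou h lam j)) (rou h lam j) (Kc κ lam (rin h lam j)) (4 * 2 ^ (j - 1)) ω)

private def outP (κ σ lam h : ℝ) (n r N0 : ℕ) (ω : ℤ × ℤ → ℝ) : Prop :=
  NR σ (4 * arc lam n) n (Kc κ lam r) N0 (lam ^ 3 * (r : ℝ) ^ (1 / 3 : ℝ)) ω ∧
      NR σ (4 * arc lam n) n (Kc κ lam r) (Ic lam n)
        (lam ^ 3 * (r : ℝ) ^ (1 / 3 : ℝ) + 4 * sl h lam n) ω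

private def lowP (σ lam h : ℝ) (ω : ℤ × ℤ → ℝ) : Prop :=
  NR σ (4 * arc lam (rL h)) (rL h) 0 (Ic lam (rL h)) 0 ω ∧
      Wd σ (4 * arc lam (rL h)) (rL h) 0 (4 * 2 ^ jL h) ω

theorem measurableSet_MidS : MeasurableSet (MidS κ σ lam h j) := by
  have h1 : MeasurableSet {ω | midP κ σ lam h j ω} :=
    measurableSet_NR.inter (measurableSet_Clo.union measurableSet_Wd)
  exact measurableSet_res h1 _

theorem measurableSet_OutS : MeasurableSet (OutS κ σ lam h n r N0) := by
  have h1 : MeasurableSet {ω | outP κ σ lam h n r N0 ω} :=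
    measurableSet_NR.inter measurableSet_NR
  exact measurableSet_res h1 _

theorem measurableSet_LowS : MeasurableSet (LowS σ lam h) := by
  have h1 : MeasurableSet {ω | lowP σ lam h ω} :=
    measurableSet_NR.inter measurableSet_Wd
  exact measurableSet_res h1 _

private theorem measurableSet_MidS_rot : MeasurableSet {ω | rotE ω ∈ MidS κ σ lam h j} :=
  measurable_rotE measurableSet_MidS

private theorem measurableSet_LowS_rot : MeasurableSet {ω | rotE ω ∈ LowS σ lam h} :=
  measurable_rotE measurableSet_LowS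

theorem measurableSet_FailJ : MeasurableSet (FailJ κ σ lam h η M n j) := by
  have h1 := measurableSet_dyn_ex
    (measurableSet_AnS (σ := σ) (a := arc lam (rin h lam j)) (n := rin h lam j)) η M
  have h2 := measurableSet_dyn (measurableSet_MidS (κ := κ) (σ := σ) (lam := lam) (h := h)
    (j := j)) η 0
  have h3 := measurableSet_dyn (measurableSet_MidS_rot (κ := κ) (σ := σ) (lam := lam) (h := h)
    (j := j)) η 0
  have h4 := measurableSet_dyn (measurableSet_OutS (κ := κ) (σ := σ) (lam := lam) (h := h)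
    (n := n) (r := rou h lam j) (N0 := 2 ^ jT h lam n)) η 0
  exact h1.inter ((h2.union h3).inter h4)

theorem measurableSet_FailL : MeasurableSet (FailL κ σ lam h η M n) := by
  have h1 := measurableSet_Upd η M (RR σ lam (rL h))
  have h2 := measurableSet_dyn (measurableSet_LowS (σ := σ) (lam := lam) (h := h)) η 0
  have h3 := measurableSet_dyn (measurableSet_LowS_rot (σ := σ) (lam := lam) (h := h)) η 0
  have h4 := measurableSet_dyn (measurableSet_OutS (κ := κ) (σ := σ) (lam := lam) (h := h)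
    (n := n) (r := rL h) (N0 := 2 ^ jT h lam n)) η 0
  exact (h1.union (h2.union h3)).inter h4

theorem measurableSet_FailX : MeasurableSet (FailX κ σ lam h η M n) := by
  have h1 : MeasurableSet (⋃ j ∈ {j : ℕ | jL h ≤ j ∧ j < jT h lam n},
      FailJ κ σ lam h η M n j) :=
    MeasurableSet.biUnion (Set.to_countable _) fun j _ => measurableSet_FailJ
  have h2 : FailX κ σ lam h η M n = (⋃ j ∈ {j : ℕ | jL h ≤ j ∧ j < jT h lam n},
      FailJ κ σ lam h η M n j) ∪ FailL κ σ lam h η M n := by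
    ext x
    unfold FailX
    simp only [Set.mem_ofPred_eq, Set.mem_union, Set.mem_iUnion, exists_prop, and_assoc]
  rw [h2]
  exact h1.union measurableSet_FailL

theorem measurableSet_HitX : MeasurableSet (HitX σ lam η M n) :=
  measurableSet_dyn_ex measurableSet_AnS η M

theorem depOn_MidS : DepOn (RR σ lam (rou h lam j) \ RR σ lam (rin h lam j))
    (MidS κ σ lam h j) := depOn_res (midP κ σ lam h j) _

theorem depOn_MidS_rot : DepOn (RR σ lam (rou h lam j) \ RR σ lam (rin h lam j))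
    {ω | rotE ω ∈ MidS κ σ lam h j} :=
  depOn_rotE (fun z => by rw [Set.mem_sdiff, Set.mem_sdiff, RR_rot, RR_rot]) depOn_MidS

theorem depOn_OutS : DepOn (RR σ lam n \ RR σ lam r) (OutS κ σ lam h n r N0) :=
  depOn_res (outP κ σ lam h n r N0) _

theorem depOn_LowS : DepOn (RR σ lam (rL h)) (LowS σ lam h) := depOn_res (lowP σ lam h) _

theorem depOn_LowS_rot : DepOn (RR σ lam (rL h)) {ω | rotE ω ∈ LowS σ lam h} :=
  depOn_rotE (fun _ => RR_rot) depOn_LowS

theorem depOn_HitX : DepOn (nz (RR σ lam n)) (HitX σ lam η M n) :=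
  depOn_dyn_ex (depOn_AnS (σ := σ) (a := arc lam n) (n := n)) η M

/-- `FailX` at the scale `n` depends only on the noise in `RR n`, if all the scales used are at most
`n` -/
theorem depOn_FailX (hl : 0 ≤ lam) (h1 : rL h ≤ n)
    (h2 : ∀ j, jL h ≤ j → j < jT h lam n → rin h lam j ≤ n ∧ rou h lam j ≤ n) :
    DepOn (nz (RR σ lam n)) (FailX κ σ lam h η M n) := by
  have hsub : ∀ {r : ℕ}, r ≤ n → nz (RR σ lam r) ⊆ nz (RR σ lam n) :=
    fun hr _ hd => RR_mono hl hr hd
  have hOut : ∀ r : ℕ, DepOn (nz (RR σ lam n))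
      {x | dyn η x 0 ∈ OutS κ σ lam h n r (2 ^ jT h lam n)} := by
    intro r
    refine (depOn_dyn depOn_OutS η 0).mono ?_
    exact fun d hd => hd.1
  have hJ : ∀ j, jL h ≤ j → j < jT h lam n →
      DepOn (nz (RR σ lam n)) (FailJ κ σ lam h η M n j) := by
    intro j hj1 hj2
    obtain ⟨ha, hb⟩ := h2 j hj1 hj2
    have e1 : DepOn (nz (RR σ lam n))
        {x | ∃ t ≤ M, dyn η x t ∈ AnS σ (arc lam (rin h lam j)) (rin h lam j)} :=
      (depOn_dyn_ex (depOn_AnS (σ := σ) (a := arc lam (rin h lam j)) (n := rin h lam j)) η M).mono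
        (hsub ha)
    have e2 : DepOn (nz (RR σ lam n)) {x | dyn η x 0 ∈ MidS κ σ lam h j} := by
      refine (depOn_dyn depOn_MidS η 0).mono ?_
      exact fun d hd => RR_mono hl hb hd.1
    have e3 : DepOn (nz (RR σ lam n)) {x | dyn η x 0 ∈ {ω | rotE ω ∈ MidS κ σ lam h j}} := by
      refine (depOn_dyn depOn_MidS_rot η 0).mono ?_
      exact fun d hd => RR_mono hl hb hd.1
    exact e1.inter ((e2.union e3).inter (hOut _))
  have hL : DepOn (nz (RR σ lam n)) (FailL κ σ lam h η M n) := by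
    have e1 : DepOn (nz (RR σ lam n)) (Upd η M (RR σ lam (rL h))) :=
      (depOn_Upd η M _).mono (hsub h1)
    have e2 : DepOn (nz (RR σ lam n)) {x | dyn η x 0 ∈ LowS σ lam h} :=
      (depOn_dyn depOn_LowS η 0).mono (hsub h1)
    have e3 : DepOn (nz (RR σ lam n)) {x | dyn η x 0 ∈ {ω | rotE ω ∈ LowS σ lam h}} :=
      (depOn_dyn depOn_LowS_rot η 0).mono (hsub h1)
    exact (e1.union (e2.union e3)).inter (hOut _)
  intro x y hxy
  refine or_congr ?_ (hL x y hxy)
  refine exists_congr fun j => ?_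
  constructor
  · rintro ⟨ha, hb, hc⟩
    exact ⟨ha, hb, (hJ j ha hb x y hxy).1 hc⟩
  · rintro ⟨ha, hb, hc⟩
    exact ⟨ha, hb, (hJ j ha hb x y hxy).2 hc⟩

end BGE
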