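import Pool.Agent.BGE.Base2

/-!
BGE / A2. The quadrangle inequality (planarity), and its consequences.

`quad`: let `u1` be to the north-west of `u2` (`u1.1 ≤ u2.1`, `u2.2 ≤ u1.2`) and `v1` to the
north-west of `v2`, with `u1 ≤ v2`, `u2 ≤ v1`. Then
`T u1 v2 + T u2 v1 ≤ T u1 v1 + T u2 v2`.

Proof. Take optimal paths `x` from `u1` to `v2` and `x'` from `u2` to `v1` (`exists_path`).
Let `a = max (lev u1) (lev u2)`, `b = min (lev v1) (lev v2)`; `a ≤ b` since each of the `u`'s is
below each of the `v`'s (`u1 ≤ v1` and `u2 ≤ v2` follow from the hypotheses). At level `a`: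
`x a ≤ x' a` (if `a = lev u1` then `x a = u1.1 ≤ u2.1 ≤ x' a`; if `a = lev u2` then the second
coordinate `a - x a ≥ u1.2 ≥ u2.2 = a - x' a`). At level `b`: `x' b ≤ x b` (if `b = lev v1` then
`x' b = v1.1` and `b - x b ≤ v2.2 ≤ v1.2 = b - v1.1`; if `b = lev v2` then
`x b = v2.1 ≥ v1.1 ≥ x' b`). As `x' - x` changes by at most one in each step, there is a level
`l` in `[a, b]` with `x l = x' l` (discrete intermediate value). At the common site `p` exchange
the ends: `T u1 v2 + T u2 v1 = (wt x up to p) + (wt x after p) + (same for x')` and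
`wt x (lev u1) l + wt x' l (lev v1) - ω p ≤ T u1 v1` etc.

`incr_left_le`: if all geodesics (one is enough) from `z` to `v2` pass through a site `q` which is
to the north-west of `q'`, then the increment from `v1` to `v2` (`v1` north-west of `v2`) seen
from `z` is at most the one seen from `q'`:
`T z v2 - T z v1 ≤ T q v2 - T q v1 ≤ T q' v2 - T q' v1`; the first inequality is `Via` for `v2`
and superadditivity for `v1`, the second one is `quad`.
-/

namespace BGE

variable {ω : ℤ × ℤ → ℝ} {u1 u2 v1 v2 z q q' : ℤ × ℤ}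

private theorem quad_wt_split (ω : ℤ × ℤ → ℝ) (x : ℤ → ℤ) {a l b : ℤ} (h1 : a ≤ l) (h2 : l ≤ b) :
    wt ω x a b = wt ω x a l + wt ω x l b - ω (pt x l) := by
  have e1 : Finset.Icc a b = Finset.Icc a l ∪ Finset.Ioc l b := by
    ext m
    simp only [Finset.mem_union, Finset.mem_Icc, Finset.mem_Ioc]
    omega
  have e2 : Disjoint (Finset.Icc a l) (Finset.Ioc l b) := by
    rw [Finset.disjoint_left]
    intro m hm hm'
    rw [Finset.mem_Icc] at hm
    rw [Finset.mem_Ioc] at hm'
    omega
  have e3 : Finset.Icc l b = {l} ∪ Finset.Ioc l b := by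
    ext m
    simp only [Finset.mem_union, Finset.mem_Icc, Finset.mem_Ioc, Finset.mem_singleton]
    omega
  have e4 : Disjoint ({l} : Finset ℤ) (Finset.Ioc l b) := by
    rw [Finset.disjoint_left]
    intro m hm hm'
    rw [Finset.mem_singleton] at hm
    rw [Finset.mem_Ioc] at hm'
    omega
  unfold wt
  rw [e1, Finset.sum_union e2, e3, Finset.sum_union e4, Finset.sum_singleton]
  ring

private theorem quad_ivt {x x' : ℤ → ℤ} {a b : ℤ} (hx : UR x a b) (hx' : UR x' a b) (hab : a ≤ b)
    (h1 : x a ≤ x' a) (h2 : x' b ≤ x b) : ∃ l, a ≤ l ∧ l ≤ b ∧ x l = x' l := by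
  by_contra hne
  push Not at hne
  have key : ∀ n : ℕ, a + n ≤ b → x (a + n) < x' (a + n) := by
    intro n
    induction n with
    | zero =>
      intro _
      have h3 := hne a le_rfl hab
      simp only [Nat.cast_zero, add_zero]
      omega
    | succ n ih =>
      intro hn
      push_cast at hn ⊢
      have h3 := ih (by omega)
      have h4 := hx (a + n) (by omega) (by omega)
      have h5 := hx' (a + n) (by omega) (by omega)
      have h6 := hne (a + n + 1) (by omega) (by omega)
      rw [← add_assoc]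
      omega
  have h3 := key (b - a).toNat (by omega)
  have h4 : a + ((b - a).toNat : ℤ) = b := by omega
  rw [h4] at h3
  omega

theorem quad (hu : u1.1 ≤ u2.1) (hu' : u2.2 ≤ u1.2) (hv : v1.1 ≤ v2.1) (hv' : v2.2 ≤ v1.2)
    (h12 : u1 ≤ v2) (h21 : u2 ≤ v1) :
    T ω u1 v2 + T ω u2 v1 ≤ T ω u1 v1 + T ω u2 v2 := by
  have h11 : u1 ≤ v1 := ⟨hu.trans h21.1, h12.2.trans hv'⟩
  have h22 : u2 ≤ v2 := ⟨h21.1.trans hv, hu'.trans h12.2⟩
  obtain ⟨x, hx, hxa, hxb, hxw⟩ := exists_path ω h12
  obtain ⟨x', hx', hxa', hxb', hxw'⟩ := exists_path ω h21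
  set a := max (lev u1) (lev u2) with ha
  set b := min (lev v1) (lev v2) with hb
  have hab : a ≤ b := by
    rw [ha, hb]
    exact max_le (le_min (lev_le_lev h11) (lev_le_lev h12))
      (le_min (lev_le_lev h21) (lev_le_lev h22))
  have ha1 : lev u1 ≤ a := le_max_left _ _
  have ha2 : lev u2 ≤ a := le_max_right _ _
  have hb1 : b ≤ lev v1 := min_le_left _ _
  have hb2 : b ≤ lev v2 := min_le_right _ _
  have p1 : ∀ l, lev u1 ≤ l → l ≤ lev v2 → u1 ≤ pt x l ∧ pt x l ≤ v2 := by
    intro l hl hl'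
    refine ⟨?_, ?_⟩
    · rw [← hxa]
      exact pt_le_pt hx le_rfl hl hl'
    · rw [← hxb]
      exact pt_le_pt hx hl hl' le_rfl
  have p2 : ∀ l, lev u2 ≤ l → l ≤ lev v1 → u2 ≤ pt x' l ∧ pt x' l ≤ v1 := by
    intro l hl hl'
    refine ⟨?_, ?_⟩
    · rw [← hxa']
      exact pt_le_pt hx' le_rfl hl hl'
    · rw [← hxb']
      exact pt_le_pt hx' hl hl' le_rfl
  have hA : x a ≤ x' a := by
    rcases le_total (lev u1) (lev u2) with h | h
    · have h3 : a = lev u2 := max_eq_right h
      have h4 : x' a = u2.1 := by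
        rw [h3]
        exact congrArg Prod.fst hxa'
      have h5 := (p1 a ha1 (hab.trans hb2)).1.2
      simp only [pt] at h5
      have h6 : a = u2.1 + u2.2 := h3
      omega
    · have h3 : a = lev u1 := max_eq_left h
      have h4 : x a = u1.1 := by
        rw [h3]
        exact congrArg Prod.fst hxa
      have h5 := (p2 a ha2 (hab.trans hb1)).1.1
      simp only [pt] at h5
      omega
  have hB : x' b ≤ x b := by
    rcases le_total (lev v1) (lev v2) with h | h
    · have h3 : b = lev v1 := min_eq_left h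
      have h4 : x' b = v1.1 := by
        rw [h3]
        exact congrArg Prod.fst hxb'
      have h5 := (p1 b (ha1.trans hab) hb2).2.2
      simp only [pt] at h5
      have h6 : b = v1.1 + v1.2 := h3
      omega
    · have h3 : b = lev v2 := min_eq_right h
      have h4 : x b = v2.1 := by
        rw [h3]
        exact congrArg Prod.fst hxb
      have h5 := (p2 b (ha2.trans hab) hb1).2.1
      simp only [pt] at h5
      omega
  obtain ⟨l, hal, hlb, hl⟩ := quad_ivt (hx.mono ha1 hb2) (hx'.mono ha2 hb1) hab hA hB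
  have hp : pt x' l = pt x l := by
    simp only [pt, hl]
  have q1 := p1 l (ha1.trans hal) (hlb.trans hb2)
  have q2 := p2 l (ha2.trans hal) (hlb.trans hb1)
  rw [hp] at q2
  have s1 := quad_wt_split ω x (ha1.trans hal) (hlb.trans hb2)
  have s2 := quad_wt_split ω x' (ha2.trans hal) (hlb.trans hb1)
  rw [hp] at s2
  have t1 := wt_le_T (ω := ω) (hx.mono le_rfl (hlb.trans hb2)) (ha1.trans hal)
  have t2 := wt_le_T (ω := ω) (hx.mono (ha1.trans hal) le_rfl) (hlb.trans hb2)
  have t3 := wt_le_T (ω := ω) (hx'.mono le_rfl (hlb.trans hb1)) (ha2.trans hal)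
  have t4 := wt_le_T (ω := ω) (hx'.mono (ha2.trans hal) le_rfl) (hlb.trans hb1)
  rw [hxa] at t1
  rw [hxb] at t2
  rw [hxa', hp] at t3
  rw [hxb', hp] at t4
  have r1 := T_add_le (ω := ω) q1.1 q2.2
  have r2 := T_add_le (ω := ω) q2.1 q1.2
  linarith

theorem incr_le_of_via (hq : Via ω z q v2) (hq1 : q ≤ v1) :
    T ω z v2 - T ω z v1 ≤ T ω q v2 - T ω q v1 := by
  have h1 := hq.2.2
  have h2 := T_add_le (ω := ω) hq.1 hq1
  linarith

theorem le_incr_of_via (hq : Via ω z q v1) (hq1 : q ≤ v2) :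
    T ω q v2 - T ω q v1 ≤ T ω z v2 - T ω z v1 := by
  have h1 := hq.2.2
  have h2 := T_add_le (ω := ω) hq.1 hq1
  linarith

/-- start point further to the north-west: smaller increments to the right -/
theorem incr_mono (hq : q.1 ≤ q'.1) (hq' : q'.2 ≤ q.2) (hv : v1.1 ≤ v2.1) (hv' : v2.2 ≤ v1.2)
    (h12 : q ≤ v2) (h21 : q' ≤ v1) :
    T ω q v2 - T ω q v1 ≤ T ω q' v2 - T ω q' v1 := by
  have h := quad (ω := ω) hq hq' hv hv' h12 h21
  linarith

/-- end point further to the north-west: the passage time decreases more when the start point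
moves to the right -/
theorem decr_mono (hq : q.1 ≤ q'.1) (hq' : q'.2 ≤ q.2) (hv : v1.1 ≤ v2.1) (hv' : v2.2 ≤ v1.2)
    (h12 : v1 ≤ q') (h21 : v2 ≤ q) :
    T ω v2 q - T ω v1 q ≤ T ω v2 q' - T ω v1 q' := by
  have h := quad (ω := ω) hv hv' hq hq' h12 h21
  linarith

end BGE
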