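import Pool.Agent.BGE.Pos
import Pool.Agent.BGE.Quad

/-!
BGE / D3. The event that the edge `(0,0) → (0,1)` is on a geodesic at scale `n`.

`a = Y n^{2/3}`. In all the proofs: `n ≥ g0 ≥ C0 lam³` and `C0 ≤ Y ≤ 2 lam`, so `Y n^{2/3}` is at most
`(small) n` and `10 √Y n^{2/3} · 2 ≤ (1/100) Y n^{2/3}`; `dev σ (0,0) = σ/2`.

* `ans_iff`: the restricted and the unrestricted event coincide. `T_res_eq` for the three pairs
  `(z, (0,0))`, `((0,1), w)`, `(z, w)`: by `pos` all sites on the geodesics have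
  `|dev| ≤ max (|dev| of the ends) + 10 √Y (2n+1)^{2/3} ≤ 6 a` and levels between `-n` and `n+1`.
  (Cones: `|dev z| ≤ a` and `lev z = -n` give `Cone (3κ/4) z (0,0)`, etc. For the pair
  `((0,1), w)` work in `rotE ω`, or directly with `pos`.)
* `thru_down`: going down from the scale `n` to a scale `r ≤ n/2`. If `z, w` are as in `Thru`
  then `z → (0,0) → (0,1) → w` is a geodesic. Take `z'` on a geodesic from `z` to `(0,0)` at the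
  level `-r`, `w'` on a geodesic from `(0,1)` to `w` at the level `r + 1`. By `pos`
  `|dev z'| ≤ 1 + (r/n) a_n + 10 √Y r^{2/3} ≤ Y r^{2/3} ((1/2)^{1/3} + small) ≤ Y r^{2/3}`; the same
  for `w'` by rotation. And `T z' w' = T z' (0,0) + T (0,1) w'` because otherwise the path from `z`
  to `w` could be improved (`T_add_le`).
* `rec_of_thru`: no regularity is needed. For `i ≥ 0`, `P = PLp σ A n` is to the left of `z` on the
  same level and `q = rot (PRp σ A n)` (level `n + 1`, deviation `≤ -A`) to the left of `w`. From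
  `T z (i,0) + T (i,1) w ≤ T z w = T z (0,0) + T (0,1) w` (`T_edge_le`), `incr_mono`
  (`T P (i,0) - T P (0,0) ≤ T z (i,0) - T z (0,0)`) and `decr_mono`
  (`T (i,1) q - T (0,1) q ≤ T (i,1) w - T (0,1) w`) we get `FLp i ≤ FLp 0`
  (`T (rotE ω) PR (-i,0) = T ω (i,1) q` by `T_rotE`). The second statement is the first one for
  `rotE ω`. All the points are comparable because `A ≤ 4 Y n^{2/3}` and `i ≤ Y n^{2/3}` are much
  smaller than `κ n`.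
-/

namespace BGE

private theorem gA_par_mono {C0 C1 κ σ lam Y g0 : ℝ} {n : ℕ} (hC1 : 1 ≤ C1) (h : C1 ≤ C0)
    (hP : Par C0 κ σ lam Y g0 n) : Par C1 κ σ lam Y g0 n := by
  obtain ⟨h1, h2, h3, h4, h5, h6⟩ := hP
  have hl : 0 ≤ lam := by linarith
  exact ⟨h1, h2, h.trans h3, h4, (mul_le_mul_of_nonneg_right h (by positivity)).trans h5, h6⟩

/-- the constants -/
private structure Cst (κ σ lam Y g0 : ℝ) (n : ℕ) : Prop where
  s1 : κ ≤ σ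
  s2 : σ ≤ 1 - κ
  Yl : Y ≤ 2 * lam
  l1 : 1 ≤ lam
  g1 : 1 ≤ g0
  gn : g0 ≤ n
  N1 : (1 : ℝ) ≤ n
  P1 : 1 ≤ (n : ℝ) ^ (2 / 3 : ℝ)
  YN : Y * (n : ℝ) ^ (2 / 3 : ℝ) ≤ κ / 500 * n
  Y1 : 10 ^ 8 ≤ Y
  sq1 : 10 ^ 4 ≤ √Y
  sq2 : 10 ^ 4 * √Y ≤ Y

private theorem gA_cst {κ : ℝ} (hκ : 0 < κ) {C0 σ lam Y g0 : ℝ} {n : ℕ}
    (h1 : (1000 / κ) ^ 3 ≤ C0) (h2 : 10 ^ 8 ≤ C0) (hP : Par C0 κ σ lam Y g0 n) :
    Cst κ σ lam Y g0 n := by
  obtain ⟨a1, a2, a3, a4, a5, a6⟩ := hP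
  have hY : 10 ^ 8 ≤ Y := h2.trans a3
  have hl : 1 ≤ lam := by linarith
  have hg1 : 1 ≤ g0 := by
    have : 1 ≤ lam ^ 3 := one_le_pow₀ hl
    nlinarith
  have hN1 : (1 : ℝ) ≤ n := hg1.trans a6
  have hN0 : (0 : ℝ) ≤ n := by linarith
  have hP1 : 1 ≤ (n : ℝ) ^ (2 / 3 : ℝ) := Real.one_le_rpow hN1 (by norm_num)
  have hs : 10 ^ 4 ≤ √Y := by
    rw [Real.le_sqrt (by norm_num) (by linarith)]
    linarith
  have hs2 : 10 ^ 4 * √Y ≤ Y := by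
    have h3 : √Y * √Y = Y := Real.mul_self_sqrt (by linarith)
    calc 10 ^ 4 * √Y ≤ √Y * √Y := mul_le_mul_of_nonneg_right hs (Real.sqrt_nonneg _)
      _ = Y := h3
  have hYN : Y * (n : ℝ) ^ (2 / 3 : ℝ) ≤ κ / 500 * n := by
    have h3 : (1000 * lam / κ) ^ 3 ≤ n := by
      have e : (1000 * lam / κ) ^ 3 = (1000 / κ) ^ 3 * lam ^ 3 := by ring
      rw [e]
      exact (mul_le_mul_of_nonneg_right h1 (by positivity)).trans (a5.trans a6)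
    have h4 : 1000 * lam / κ ≤ (n : ℝ) ^ (1 / 3 : ℝ) := by
      have h5 : ((n : ℝ) ^ (1 / 3 : ℝ)) ^ 3 = n := by
        rw [← Real.rpow_natCast, ← Real.rpow_mul hN0]
        norm_num
      rw [← h5] at h3
      exact le_of_pow_le_pow_left₀ (by norm_num) (by positivity) h3
    have h6 : (n : ℝ) ^ (2 / 3 : ℝ) * (n : ℝ) ^ (1 / 3 : ℝ) = n := by
      rw [← Real.rpow_add (by linarith)]
      norm_num
    have h7 : (n : ℝ) ^ (2 / 3 : ℝ) * (1000 * lam / κ) ≤ n := by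
      calc _ ≤ (n : ℝ) ^ (2 / 3 : ℝ) * (n : ℝ) ^ (1 / 3 : ℝ) :=
            mul_le_mul_of_nonneg_left h4 (by linarith)
        _ = n := h6
    calc Y * (n : ℝ) ^ (2 / 3 : ℝ) ≤ 2 * lam * (n : ℝ) ^ (2 / 3 : ℝ) :=
          mul_le_mul_of_nonneg_right a4 (by linarith)
      _ = κ / 500 * ((n : ℝ) ^ (2 / 3 : ℝ) * (1000 * lam / κ)) := by
          field_simp
          ring
      _ ≤ κ / 500 * n := mul_le_mul_of_nonneg_left h7 (by positivity)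
  exact ⟨a1, a2, a4, hl, hg1, a6, hN1, hP1, hYN, hY, hs, hs2⟩

private theorem gA_cone {κ σ : ℝ} (hκ : 0 < κ) (s1 : κ ≤ σ) (s2 : σ ≤ 1 - κ) {p q : ℤ × ℤ} {b : ℝ}
    (hp : |dev σ p| ≤ b) (hq : |dev σ q| ≤ b) (hL : 2 * b ≤ κ / 4 * dl p q) (hL0 : 0 ≤ dl p q) :
    Cone (3 * κ / 4) p q := by
  have e1 : ((q.1 - p.1 : ℤ) : ℝ) = dev σ q - dev σ p + σ * dl p q := by
    simp only [dev, dl]
    push_cast
    ring
  have e2 : ((q.2 - p.2 : ℤ) : ℝ) = dl p q - ((q.1 - p.1 : ℤ) : ℝ) := by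
    simp only [dl, lev]
    push_cast
    ring
  have h1 := abs_le.1 hp
  have h2 := abs_le.1 hq
  have h3 : κ * dl p q ≤ σ * dl p q := mul_le_mul_of_nonneg_right s1 hL0
  have h4 : σ * dl p q ≤ (1 - κ) * dl p q := mul_le_mul_of_nonneg_right s2 hL0
  have c1 : 3 * κ / 4 * dl p q ≤ ((q.1 - p.1 : ℤ) : ℝ) := by
    rw [e1]
    linarith [h1.1, h1.2, h2.1, h2.2]
  have c2 : 3 * κ / 4 * dl p q ≤ ((q.2 - p.2 : ℤ) : ℝ) := by
    rw [e2, e1]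
    linarith [h1.1, h1.2, h2.1, h2.2]
  have c0 : 0 ≤ 3 * κ / 4 * dl p q := by positivity
  refine ⟨⟨?_, ?_⟩, c1, c2⟩
  · have : (0 : ℝ) ≤ ((q.1 - p.1 : ℤ) : ℝ) := c0.trans c1
    have := Int.cast_nonneg_iff.1 this
    omega
  · have : (0 : ℝ) ≤ ((q.2 - p.2 : ℤ) : ℝ) := c0.trans c2
    have := Int.cast_nonneg_iff.1 this
    omega

private theorem gA_dev0 {κ σ : ℝ} (hκ : 0 < κ) (s1 : κ ≤ σ) (s2 : σ ≤ 1 - κ) :
    |dev σ (0, 0)| ≤ 1 / 2 ∧ |dev σ (0, 1)| ≤ 1 / 2 := by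
  have e0 : dev σ (0, 0) = σ / 2 := by
    simp only [dev, lev]
    push_cast
    ring
  have e1 : dev σ (0, 1) = -(σ / 2) := by
    simp only [dev, lev]
    push_cast
    ring
  rw [e0, e1, abs_neg, abs_of_pos (by linarith)]
  constructor <;> linarith

private theorem gA_res_eq {ω : ℤ × ℤ → ℝ} {u v : ℤ × ℤ} {R : Set (ℤ × ℤ)} (h : u ≤ v)
    (hω : ∀ z, u ≤ z → z ≤ v → 0 ≤ ω z) (hR : ∀ w, Via ω u w v → w ∈ R) :
    T (res R ω) u v = T ω u v := by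
  classical
  set ω' : ℤ × ℤ → ℝ := fun z => if u ≤ z ∧ z ≤ v then ω z else 0 with hω'
  have heq : ∀ z, u ≤ z → z ≤ v → ω' z = ω z := fun z h1 h2 => if_pos ⟨h1, h2⟩
  have h0 : ∀ z, 0 ≤ ω' z := by
    intro z
    simp only [hω']
    split_ifs with hz
    · exact hω z hz.1 hz.2
    · exact le_rfl
  have hT : ∀ p q, u ≤ p → p ≤ q → q ≤ v → T ω' p q = T ω p q := fun p q h1 h2 h3 =>
    T_congr h2 fun z hz hz' => heq z (h1.trans hz) (hz'.trans h3)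
  have hV : ∀ w, Via ω' u w v → w ∈ R := by
    rintro w ⟨h1, h2, h3⟩
    refine hR w ⟨h1, h2, ?_⟩
    rw [hT u v le_rfl h le_rfl, hT u w le_rfl h1 h2, hT w v h1 h2 le_rfl, heq w h1 h2] at h3
    exact h3
  have h4 := T_res_eq (R := R) h h0 hV
  rw [hT u v le_rfl h le_rfl] at h4
  rw [← h4]
  refine T_congr h fun z hz hz' => ?_
  simp only [res]
  rw [heq z hz hz']

/-- bound for the deviation of a point between two points -/
private theorem gA_mid {x d1 d2 t b E c : ℝ} (h : |x - (1 - t) * d1 - t * d2| ≤ E) (ht0 : 0 ≤ t)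
    (ht1 : t ≤ 1) (h1 : |d1| ≤ b) (h2 : |d2| ≤ c) : |x| ≤ (1 - t) * b + t * c + E := by
  rw [abs_le] at *
  have a1 := mul_le_mul_of_nonneg_left h1.1 (sub_nonneg.2 ht1)
  have a2 := mul_le_mul_of_nonneg_left h1.2 (sub_nonneg.2 ht1)
  have a3 := mul_le_mul_of_nonneg_left h2.1 ht0
  have a4 := mul_le_mul_of_nonneg_left h2.2 ht0
  constructor <;> linarith [h.1, h.2]

/-- all the sites on a geodesic between two points in the thin region are in the larger region -/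
private theorem gA_in {κ : ℝ} {C1 σ lam Y g0 : ℝ} {n : ℕ} {ω : ℤ × ℤ → ℝ} (hκ : 0 < κ)
    (hpos : ∀ (σ lam Y g0 : ℝ) (n : ℕ)
    (ω : ℤ × ℤ → ℝ), Par C1 κ σ lam Y g0 n → GoodE κ σ lam Y g0 n ω → ∀ u v w : ℤ × ℤ,
    u ∈ Rgn σ (20 * lam * (n : ℝ) ^ (2 / 3 : ℝ)) n →
    v ∈ Rgn σ (20 * lam * (n : ℝ) ^ (2 / 3 : ℝ)) n → Cone (3 * κ / 4) u v → g0 ≤ dl u v →
    Via ω u w v →
    |dev σ w - (1 - dl w v / dl u v) * dev σ v - dl w v / dl u v * dev σ u| ≤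
        10 * √Y * (max (dl w v) g0) ^ (2 / 3 : ℝ) ∧
    |dev σ w - (1 - dl w v / dl u v) * dev σ v - dl w v / dl u v * dev σ u| ≤
        10 * √Y * (max (dl u w) g0) ^ (2 / 3 : ℝ))
    (hP : Par C1 κ σ lam Y g0 n) (hG : GoodE κ σ lam Y g0 n ω) (hc : Cst κ σ lam Y g0 n)
    {u v : ℤ × ℤ} (hu1 : -(n : ℤ) ≤ lev u) (hv1 : lev v ≤ n + 1) (hl : lev u + n ≤ lev v)
    (hu : |dev σ u| ≤ Y * (n : ℝ) ^ (2 / 3 : ℝ)) (hv : |dev σ v| ≤ Y * (n : ℝ) ^ (2 / 3 : ℝ)) :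
    u ≤ v ∧ ∀ w, Via ω u w v → w ∈ Rgn σ (6 * (Y * (n : ℝ) ^ (2 / 3 : ℝ))) n := by
  have hN1 := hc.N1
  have hP1 := hc.P1
  have hY1 := hc.Y1
  have hYl := hc.Yl
  have hl1 := hc.l1
  have hg1 := hc.g1
  have hgn := hc.gn
  have hs2 := hc.sq2
  have hYN := hc.YN
  have ha20 : Y * (n : ℝ) ^ (2 / 3 : ℝ) ≤ 20 * lam * (n : ℝ) ^ (2 / 3 : ℝ) :=
    mul_le_mul_of_nonneg_right (by linarith) (by linarith)
  have hdl : (n : ℝ) ≤ dl u v := by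
    have : ((lev u + n : ℤ) : ℝ) ≤ ((lev v : ℤ) : ℝ) := by exact_mod_cast hl
    simp only [dl]
    push_cast at this ⊢
    linarith
  have hdl2 : dl u v ≤ 3 * n := by
    have h1 : ((-(n : ℤ) : ℤ) : ℝ) ≤ ((lev u : ℤ) : ℝ) := by exact_mod_cast hu1
    have h2 : ((lev v : ℤ) : ℝ) ≤ ((n + 1 : ℤ) : ℝ) := by exact_mod_cast hv1
    simp only [dl]
    push_cast at h1 h2 ⊢
    linarith
  have hdl0 : 0 < dl u v := by linarith
  have hcone := gA_cone hκ hc.s1 hc.s2 hu hv (by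
    have : κ / 4 * n ≤ κ / 4 * dl u v := mul_le_mul_of_nonneg_left hdl (by positivity)
    have h3 : 0 < κ * n := by positivity
    linarith) hdl0.le
  refine ⟨hcone.1, fun w hw => ?_⟩
  have hlu := lev_le_lev hw.1
  have hlv := lev_le_lev hw.2.1
  have hwv : 0 ≤ dl w v := by
    simp only [dl]
    have : (0 : ℤ) ≤ lev v - lev w := by omega
    exact_mod_cast this
  have hwv2 : dl w v ≤ dl u v := by
    simp only [dl]
    have : lev v - lev w ≤ lev v - lev u := by omega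
    exact_mod_cast this
  have h := (hpos σ lam Y g0 n ω hP hG u v w ⟨hu1, by omega, hu.trans ha20⟩
    ⟨by omega, hv1, hv.trans ha20⟩ hcone (hgn.trans hdl) hw).1
  have ht0 : 0 ≤ dl w v / dl u v := by positivity
  have ht1 : dl w v / dl u v ≤ 1 := by rwa [div_le_one hdl0]
  have h2 := gA_mid h ht0 ht1 hv hu
  have h3 : (max (dl w v) g0) ^ (2 / 3 : ℝ) ≤ 3 * (n : ℝ) ^ (2 / 3 : ℝ) := by
    calc (max (dl w v) g0) ^ (2 / 3 : ℝ) ≤ (3 * (n : ℝ)) ^ (2 / 3 : ℝ) :=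
          Real.rpow_le_rpow (by positivity) (max_le (hwv2.trans hdl2) (by linarith)) (by norm_num)
      _ = (3 : ℝ) ^ (2 / 3 : ℝ) * (n : ℝ) ^ (2 / 3 : ℝ) :=
          Real.mul_rpow (by norm_num) (by linarith)
      _ ≤ 3 * (n : ℝ) ^ (2 / 3 : ℝ) := by
          apply mul_le_mul_of_nonneg_right _ (by linarith)
          calc (3 : ℝ) ^ (2 / 3 : ℝ) ≤ (3 : ℝ) ^ (1 : ℝ) :=
                Real.rpow_le_rpow_of_exponent_le (by norm_num) (by norm_num)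
            _ = 3 := Real.rpow_one 3
  have h4 : 10 * √Y * (max (dl w v) g0) ^ (2 / 3 : ℝ) ≤ Y * (n : ℝ) ^ (2 / 3 : ℝ) := by
    calc 10 * √Y * (max (dl w v) g0) ^ (2 / 3 : ℝ)
        ≤ 10 * √Y * (3 * (n : ℝ) ^ (2 / 3 : ℝ)) :=
          mul_le_mul_of_nonneg_left h3 (by positivity)
      _ = (30 * √Y) * (n : ℝ) ^ (2 / 3 : ℝ) := by ring
      _ ≤ Y * (n : ℝ) ^ (2 / 3 : ℝ) := by
          apply mul_le_mul_of_nonneg_right _ (by linarith)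
          have := Real.sqrt_nonneg Y
          linarith
  refine ⟨by omega, by omega, ?_⟩
  have h5 : 0 ≤ Y * (n : ℝ) ^ (2 / 3 : ℝ) := by positivity
  linarith

theorem ans_iff {κ : ℝ} (hκ : 0 < κ) : ∃ C0 : ℝ, 1 ≤ C0 ∧ ∀ (σ lam Y g0 : ℝ) (n : ℕ)
    (ω : ℤ × ℤ → ℝ), Par C0 κ σ lam Y g0 n → GoodE κ σ lam Y g0 n ω →
    (ω ∈ AnS σ (Y * (n : ℝ) ^ (2 / 3 : ℝ)) n ↔ Thru σ (Y * (n : ℝ) ^ (2 / 3 : ℝ)) n ω) := by
  obtain ⟨C1, hC1, hpos⟩ := pos hκ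
  refine ⟨max C1 (max ((1000 / κ) ^ 3) (10 ^ 8)), hC1.trans (le_max_left _ _), ?_⟩
  intro σ lam Y g0 n ω hP hG
  have hc := gA_cst hκ ((le_max_left _ _).trans (le_max_right _ _))
    ((le_max_right _ _).trans (le_max_right _ _)) hP
  have hP1 := gA_par_mono hC1 (le_max_left _ _) hP
  obtain ⟨d0, d1⟩ := gA_dev0 hκ hc.s1 hc.s2
  have ha : 1 / 2 ≤ Y * (n : ℝ) ^ (2 / 3 : ℝ) := by
    have h1 := hc.Y1
    have h2 := hc.P1
    have : 1 * 1 ≤ Y * (n : ℝ) ^ (2 / 3 : ℝ) :=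
      mul_le_mul (by linarith) h2 (by norm_num) (by linarith)
    linarith
  set R := Rgn σ (6 * (Y * (n : ℝ) ^ (2 / 3 : ℝ))) n with hR
  -- the three passage times
  have key : ∀ z w : ℤ × ℤ, lev z = -(n : ℤ) → |dev σ z| ≤ Y * (n : ℝ) ^ (2 / 3 : ℝ) →
      lev w = n + 1 → |dev σ w| ≤ Y * (n : ℝ) ^ (2 / 3 : ℝ) → z ≤ (0, 0) → (0, 1) ≤ w →
      T (res R ω) z w = T ω z w ∧ T (res R ω) z (0, 0) = T ω z (0, 0) ∧
        T (res R ω) (0, 1) w = T ω (0, 1) w := by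
    intro z w hz hz' hw hw' hz0 hw0
    have hnn : ∀ p : ℤ × ℤ, z ≤ p → p ≤ w → 0 ≤ ω p := by
      intro p hp hp'
      refine (hG.1.1 p ?_).1
      have z1 := hz0.1
      have z2 := hz0.2
      have w1 := hw0.1
      have w2 := hw0.2
      have p1 := hp.1
      have p2 := hp.2
      have p3 := hp'.1
      have p4 := hp'.2
      simp only [lev] at hz hw
      simp only at z1 z2 w1 w2
      simp only [Bx, Set.mem_ofPred_eq]
      push_cast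
      refine ⟨?_, ?_, ?_, ?_⟩ <;> linarith
    have h01 : ((0, 0) : ℤ × ℤ) ≤ (0, 1) := ⟨le_refl _, by norm_num⟩
    have l0 : lev (0, 0) = 0 := rfl
    have l1 : lev (0, 1) = 1 := rfl
    have n0 : (0 : ℤ) ≤ n := Int.natCast_nonneg n
    obtain ⟨a1, a2⟩ := gA_in (u := z) (v := w) hκ hpos hP1 hG hc (by omega) (by omega) (by omega)
      hz' hw'
    obtain ⟨b1, b2⟩ := gA_in (u := z) (v := (0, 0)) hκ hpos hP1 hG hc (by omega) (by omega)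
      (by omega) hz' (d0.trans ha)
    obtain ⟨c1, c2⟩ := gA_in (u := (0, 1)) (v := w) hκ hpos hP1 hG hc (by omega) (by omega)
      (by omega) (d1.trans ha) hw'
    exact ⟨gA_res_eq a1 hnn a2,
      gA_res_eq b1 (fun p h1 h2 => hnn p h1 (h2.trans (h01.trans hw0))) b2,
      gA_res_eq c1 (fun p h1 h2 => hnn p ((hz0.trans h01).trans h1) h2) c2⟩
  constructor
  · rintro ⟨z, w, h1, h2, h3, h4, h5, h6, h7⟩
    obtain ⟨k1, k2, k3⟩ := key z w h1 h2 h3 h4 h5 h6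
    rw [← hR] at h7
    exact ⟨z, w, h1, h2, h3, h4, h5, h6, by rw [← k1, ← k2, ← k3]; exact h7⟩
  · rintro ⟨z, w, h1, h2, h3, h4, h5, h6, h7⟩
    obtain ⟨k1, k2, k3⟩ := key z w h1 h2 h3 h4 h5 h6
    refine ⟨z, w, h1, h2, h3, h4, h5, h6, ?_⟩
    rw [← hR, k1, k2, k3]
    exact h7

theorem thru_down {κ : ℝ} (hκ : 0 < κ) : ∃ C0 : ℝ, 1 ≤ C0 ∧ ∀ (σ lam Y g0 : ℝ) (n : ℕ)
    (ω : ℤ × ℤ → ℝ), Par C0 κ σ lam Y g0 n → GoodE κ σ lam Y g0 n ω →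
    Thru σ (Y * (n : ℝ) ^ (2 / 3 : ℝ)) n ω → ∀ r : ℕ, g0 ≤ r → 2 * r ≤ n →
    Thru σ (Y * (r : ℝ) ^ (2 / 3 : ℝ)) r ω := by
  obtain ⟨C1, hC1, hpos⟩ := pos hκ
  refine ⟨max C1 (max ((1000 / κ) ^ 3) (10 ^ 8)), hC1.trans (le_max_left _ _), ?_⟩
  intro σ lam Y g0 n ω hP hG hT r hgr hrn
  have hc := gA_cst hκ ((le_max_left _ _).trans (le_max_right _ _))
    ((le_max_right _ _).trans (le_max_right _ _)) hP
  have hP1 := gA_par_mono hC1 (le_max_left _ _) hP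
  obtain ⟨d0, d1⟩ := gA_dev0 hκ hc.s1 hc.s2
  obtain ⟨z, w, hz, hz', hw, hw', hz0, hw0, hE⟩ := hT
  have hN1 := hc.N1
  have hN23 := hc.P1
  have hY1 := hc.Y1
  have hYl := hc.Yl
  have hg1 := hc.g1
  have hgn := hc.gn
  have hs2 := hc.sq2
  have hYN := hc.YN
  have hr1 : (1 : ℝ) ≤ r := hg1.trans hgr
  have hr0 : (0 : ℝ) < r := by linarith
  have hrn' : 2 * (r : ℝ) ≤ n := by exact_mod_cast hrn
  have hn0 : (0 : ℝ) < n := by linarith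
  have hr23 : 1 ≤ (r : ℝ) ^ (2 / 3 : ℝ) := Real.one_le_rpow hr1 (by norm_num)
  have ha1 : 1 ≤ Y * (n : ℝ) ^ (2 / 3 : ℝ) := by
    have : 1 * 1 ≤ Y * (n : ℝ) ^ (2 / 3 : ℝ) :=
      mul_le_mul (by linarith) hN23 (by norm_num) (by linarith)
    linarith
  have ha20 : Y * (n : ℝ) ^ (2 / 3 : ℝ) ≤ 20 * lam * (n : ℝ) ^ (2 / 3 : ℝ) :=
    mul_le_mul_of_nonneg_right (by linarith [hc.l1]) (by linarith)
  have l0 : lev (0, 0) = 0 := rfl
  have l1 : lev (0, 1) = 1 := rfl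
  have n0 : (0 : ℤ) ≤ n := Int.natCast_nonneg n
  have hκn : 0 < κ * n := by positivity
  -- the ratio
  have hratio : (r : ℝ) / n * (Y * (n : ℝ) ^ (2 / 3 : ℝ)) ≤ 4 / 5 * (Y * (r : ℝ) ^ (2 / 3 : ℝ)) := by
    have hx0 : 0 ≤ (r : ℝ) / n := by positivity
    have hx1 : (r : ℝ) / n ≤ 1 / 2 := by
      rw [div_le_iff₀ hn0]
      linarith
    have e1 : (r : ℝ) ^ (2 / 3 : ℝ) = ((r : ℝ) / n) ^ (2 / 3 : ℝ) * (n : ℝ) ^ (2 / 3 : ℝ) := by
      rw [← Real.mul_rpow hx0 hn0.le, div_mul_cancel₀ _ hn0.ne']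
    have e2 : (r : ℝ) / n ≤ 4 / 5 * ((r : ℝ) / n) ^ (2 / 3 : ℝ) := by
      set x : ℝ := (r : ℝ) / n with hx
      have hxp : 0 < x := by positivity
      have e3 : x = x ^ (1 / 3 : ℝ) * x ^ (2 / 3 : ℝ) := by
        rw [← Real.rpow_add hxp]
        norm_num
      have e4 : x ^ (1 / 3 : ℝ) ≤ 4 / 5 := by
        have h8 : (x ^ (1 / 3 : ℝ)) ^ 3 ≤ (4 / 5 : ℝ) ^ 3 := by
          rw [← Real.rpow_natCast, ← Real.rpow_mul hx0]
          norm_num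
          linarith
        exact le_of_pow_le_pow_left₀ (by norm_num) (by norm_num) h8
      calc x = x ^ (1 / 3 : ℝ) * x ^ (2 / 3 : ℝ) := e3
        _ ≤ 4 / 5 * x ^ (2 / 3 : ℝ) := mul_le_mul_of_nonneg_right e4 (by positivity)
    rw [e1]
    calc (r : ℝ) / n * (Y * (n : ℝ) ^ (2 / 3 : ℝ))
        ≤ 4 / 5 * ((r : ℝ) / n) ^ (2 / 3 : ℝ) * (Y * (n : ℝ) ^ (2 / 3 : ℝ)) :=
          mul_le_mul_of_nonneg_right e2 (by linarith)
      _ = _ := by ring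
  have hYr : 100 * √Y * (r : ℝ) ^ (2 / 3 : ℝ) ≤ 1 / 100 * (Y * (r : ℝ) ^ (2 / 3 : ℝ)) := by
    calc 100 * √Y * (r : ℝ) ^ (2 / 3 : ℝ) = 1 / 100 * (10 ^ 4 * √Y * (r : ℝ) ^ (2 / 3 : ℝ)) := by
          ring
      _ ≤ 1 / 100 * (Y * (r : ℝ) ^ (2 / 3 : ℝ)) := by gcongr
  have hYr1 : 10 ≤ Y * (r : ℝ) ^ (2 / 3 : ℝ) := by
    have : 10 * 1 ≤ Y * (r : ℝ) ^ (2 / 3 : ℝ) :=
      mul_le_mul (by linarith) hr23 (by norm_num) (by linarith)
    linarith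
  have hsr : 0 ≤ √Y * (r : ℝ) ^ (2 / 3 : ℝ) := by positivity
  have hmax : max (r : ℝ) g0 = r := max_eq_left hgr
  -- the lower point
  have dlz : dl z (0, 0) = n := by
    simp only [dl, l0, hz]
    push_cast
    ring
  have hcz : Cone (3 * κ / 4) z (0, 0) := gA_cone hκ hc.s1 hc.s2 hz'
    (d0.trans (by linarith : (1 : ℝ) / 2 ≤ Y * (n : ℝ) ^ (2 / 3 : ℝ))) (by rw [dlz]; linarith)
    (by rw [dlz]; linarith)
  obtain ⟨z', hz'l, hz'v⟩ := exists_via ω hz0 (l := -(r : ℤ)) (by rw [hz]; omega)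
    (by rw [l0]; omega)
  have pz := (hpos σ lam Y g0 n ω hP1 hG z (0, 0) z' ⟨by omega, by omega, hz'.trans ha20⟩
    ⟨by omega, by omega, d0.trans (by linarith)⟩ hcz (by rw [dlz]; exact hgn) hz'v).1
  have dlz' : dl z' (0, 0) = r := by
    simp only [dl, l0, hz'l]
    push_cast
    ring
  rw [dlz, dlz', hmax] at pz
  have hx0 : 0 ≤ (r : ℝ) / n := by positivity
  have hx1 : (r : ℝ) / n ≤ 1 := by
    rw [div_le_one hn0]
    linarith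
  have bz := gA_mid pz hx0 hx1 d0 hz'
  -- the upper point
  have dlw : dl (0, 1) w = n := by
    simp only [dl, l1, hw]
    push_cast
    ring
  have hcw : Cone (3 * κ / 4) (0, 1) w := gA_cone hκ hc.s1 hc.s2
    (d1.trans (by linarith : (1 : ℝ) / 2 ≤ Y * (n : ℝ) ^ (2 / 3 : ℝ))) hw'
    (by rw [dlw]; linarith) (by rw [dlw]; linarith)
  obtain ⟨w', hw'l, hw'v⟩ := exists_via ω hw0 (l := (r : ℤ) + 1) (by rw [l1]; omega)
    (by rw [hw]; omega)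
  have pw := (hpos σ lam Y g0 n ω hP1 hG (0, 1) w w' ⟨by omega, by omega, d1.trans (by linarith)⟩
    ⟨by omega, by omega, hw'.trans ha20⟩ hcw (by rw [dlw]; exact hgn) hw'v).2
  have dlw' : dl (0, 1) w' = r := by
    simp only [dl, l1, hw'l]
    push_cast
    ring
  have dlw'' : dl w' w = n - r := by
    simp only [dl, hw, hw'l]
    push_cast
    ring
  rw [dlw, dlw', dlw'', hmax] at pw
  have ht : 1 - ((n : ℝ) - r) / n = r / n := by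
    field_simp
    ring
  have ht' : ((n : ℝ) - r) / n = 1 - r / n := by linarith
  rw [ht, ht'] at pw
  have pw' : |dev σ w' - (1 - (r : ℝ) / n) * dev σ (0, 1) - r / n * dev σ w| ≤
      10 * √Y * (r : ℝ) ^ (2 / 3 : ℝ) := by
    convert pw using 2
    ring
  have bw := gA_mid pw' hx0 hx1 d1 hw'
  have hfin : (1 - (r : ℝ) / n) * (1 / 2) + r / n * (Y * (n : ℝ) ^ (2 / 3 : ℝ)) +
      10 * √Y * (r : ℝ) ^ (2 / 3 : ℝ) ≤ Y * (r : ℝ) ^ (2 / 3 : ℝ) := by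
    have : (1 - (r : ℝ) / n) * (1 / 2) ≤ 1 / 2 := by linarith
    linarith
  refine ⟨z', w', hz'l, bz.trans hfin, hw'l, bw.trans hfin, hz'v.2.1, hw'v.1, ?_⟩
  -- the passage time
  have h01 : ((0, 0) : ℤ × ℤ) ≤ (0, 1) := ⟨le_refl _, by norm_num⟩
  have hz'w' : z' ≤ w' := (hz'v.2.1.trans h01).trans hw'v.1
  have e1 := T_add_le (ω := ω) hz'v.1 (hz'w'.trans hw'v.2.1)
  have e2 := T_add_le (ω := ω) hz'w' hw'v.2.1
  have e3 := hz'v.2.2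
  have e4 := hw'v.2.2
  have e5 := T_edge_le (ω := ω) (w' := (0, 1)) hz'v.2.1 (Or.inr (by norm_num)) hw'v.1
  linarith

private theorem gA_rec {κ : ℝ} (hκ : 0 < κ) {σ lam Y g0 : ℝ} {n : ℕ}
    (hc : Cst κ σ lam Y g0 n) {ω : ℤ × ℤ → ℝ} {a A : ℝ} (ha : 0 ≤ a) (haA : a + 1 ≤ A)
    (hA : A ≤ 4 * Y * (n : ℝ) ^ (2 / 3 : ℝ)) (hT : Thru σ a n ω) {i : ℤ} (hi : 0 ≤ i)
    (hi' : (i : ℝ) ≤ Y * (n : ℝ) ^ (2 / 3 : ℝ)) : FLp σ A n ω i ≤ FLp σ A n ω 0 := by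
  obtain ⟨z, w, hz, hz', hw, hw', hz0, hw0, hE⟩ := hT
  have hN1 := hc.N1
  have hYN := hc.YN
  have hs1 := hc.s1
  have hs2 := hc.s2
  have ha1 : 1 ≤ Y * (n : ℝ) ^ (2 / 3 : ℝ) := by
    have : 1 * 1 ≤ Y * (n : ℝ) ^ (2 / 3 : ℝ) :=
      mul_le_mul (by linarith [hc.Y1]) hc.P1 (by norm_num) (by linarith [hc.Y1])
    linarith
  have hκ1 : κ ≤ 1 := by linarith
  have hκn : κ * n ≤ σ * n := mul_le_mul_of_nonneg_right hs1 (by linarith)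
  have hκn2 : σ * n ≤ (1 - κ) * n := mul_le_mul_of_nonneg_right hs2 (by linarith)
  have hσ0 : 0 < σ := by linarith
  have hi0 : (0 : ℝ) ≤ i := by exact_mod_cast hi
  -- the points
  set P := PLp σ A n with hPd
  set Q := PRp σ A n with hQd
  have P1a : (P.1 : ℝ) ≤ -(σ * ((n : ℝ) + 1 / 2)) - A := Int.floor_le _
  have P1b : -(σ * ((n : ℝ) + 1 / 2)) - A < (P.1 : ℝ) + 1 := Int.lt_floor_add_one _
  have P2 : (P.2 : ℝ) = -(n : ℝ) - P.1 := by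
    rw [hPd]
    simp only [PLp]
    push_cast
    ring
  have Q1a : -(σ * ((n : ℝ) + 1 / 2)) + A ≤ (Q.1 : ℝ) := Int.le_ceil _
  have Q1b : (Q.1 : ℝ) < -(σ * ((n : ℝ) + 1 / 2)) + A + 1 := Int.ceil_lt_add_one _
  have Q2 : (Q.2 : ℝ) = -(n : ℝ) - Q.1 := by
    rw [hQd]
    simp only [PRp]
    push_cast
    ring
  have z1 : (z.1 : ℝ) = dev σ z - σ * ((n : ℝ) + 1 / 2) := by
    simp only [dev, hz]
    push_cast
    ring
  have z2 : (z.2 : ℝ) = -(n : ℝ) - z.1 := by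
    have : z.2 = -(n : ℤ) - z.1 := by
      simp only [lev] at hz
      omega
    rw [this]
    push_cast
    ring
  have w1 : (w.1 : ℝ) = dev σ w + σ * ((n : ℝ) + 1 / 2) := by
    simp only [dev, hw]
    push_cast
    ring
  have w2 : (w.2 : ℝ) = (n : ℝ) + 1 - w.1 := by
    have : w.2 = (n : ℤ) + 1 - w.1 := by
      simp only [lev] at hw
      omega
    rw [this]
    push_cast
    ring
  have az := abs_le.1 hz'
  have aw := abs_le.1 hw'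
  have castle : ∀ p q : ℤ, (p : ℝ) ≤ q → p ≤ q := fun p q h => by exact_mod_cast h
  -- comparisons
  have c1 : P.1 ≤ z.1 := castle _ _ (by linarith)
  have c2 : z.2 ≤ P.2 := castle _ _ (by
    have : (P.1 : ℝ) ≤ z.1 := by exact_mod_cast c1
    linarith)
  have c3 : -Q.1 ≤ w.1 := castle _ _ (by
    push_cast
    linarith)
  have c4 : w.2 ≤ 1 - Q.2 := castle _ _ (by
    have : ((-Q.1 : ℤ) : ℝ) ≤ w.1 := by exact_mod_cast c3
    push_cast at this ⊢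
    linarith)
  have c5 : P.1 ≤ 0 := castle _ _ (by
    push_cast
    have : 0 ≤ σ * ((n : ℝ) + 1 / 2) := by positivity
    linarith)
  have c6 : P.2 ≤ 0 := castle _ _ (by
    push_cast
    rw [P2]
    linarith)
  have c7 : i ≤ -Q.1 := castle _ _ (by
    push_cast
    linarith)
  have c8 : Q.2 ≤ 0 := castle _ _ (by
    push_cast
    rw [Q2]
    linarith)
  have c9 : i ≤ w.1 := castle _ _ (by linarith)
  have hzi : z ≤ (i, 0) := ⟨hz0.1.trans hi, hz0.2⟩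
  have hiw : ((i, 1) : ℤ × ℤ) ≤ w := ⟨c9, hw0.2⟩
  -- the three inequalities
  have e1 := T_edge_le (ω := ω) (w' := (i, 0 + 1)) (v := w) hzi (Or.inr rfl)
    (by rw [zero_add]; exact hiw)
  rw [zero_add] at e1
  have e2 := incr_mono (ω := ω) (q := P) (q' := z) (v1 := (0, 0)) (v2 := (i, 0)) c1 c2 hi le_rfl
    ⟨c5.trans hi, c6⟩ hz0
  have e3 := decr_mono (ω := ω) (q := rot Q) (q' := w) (v1 := (0, 1)) (v2 := (i, 1)) c3 c4 hi le_rfl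
    hw0 ⟨c7, by simp only [rot]; omega⟩
  have r1 : T (rotE ω) Q (-i, 0) = T ω (i, 1) (rot Q) := by
    rw [T_rotE ⟨by simp only; omega, c8⟩]
    simp [rot]
  have r0 : T (rotE ω) Q (-0, 0) = T ω (0, 1) (rot Q) := by
    rw [T_rotE ⟨by simp only; omega, c8⟩]
    simp [rot]
  unfold FLp
  rw [← hPd, ← hQd, r1, r0]
  linarith

theorem rec_of_thru {κ : ℝ} (hκ : 0 < κ) : ∃ C0 : ℝ, 1 ≤ C0 ∧ ∀ (σ lam Y g0 : ℝ) (n : ℕ)
    (ω : ℤ × ℤ → ℝ) (a A : ℝ), Par C0 κ σ lam Y g0 n → 0 ≤ a → a + 1 ≤ A →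
    A ≤ 4 * Y * (n : ℝ) ^ (2 / 3 : ℝ) → Thru σ a n ω → ∀ i : ℤ, 0 ≤ i →
    (i : ℝ) ≤ Y * (n : ℝ) ^ (2 / 3 : ℝ) →
    FLp σ A n ω i ≤ FLp σ A n ω 0 ∧ FRp σ A n ω (-i) ≤ FRp σ A n ω 0 := by
  refine ⟨max 1 (max ((1000 / κ) ^ 3) (10 ^ 8)), le_max_left _ _, ?_⟩
  intro σ lam Y g0 n ω a A hP ha haA hA hT i hi hi'
  have hc := gA_cst hκ ((le_max_left _ _).trans (le_max_right _ _))
    ((le_max_right _ _).trans (le_max_right _ _)) hP
  refine ⟨gA_rec hκ hc ha haA hA hT hi hi', ?_⟩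
  have h := gA_rec hκ hc ha haA hA (thru_rot.2 hT) hi hi'
  rw [FLp_rot, FLp_rot, neg_zero] at h
  exact h

end BGE
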