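import Pool.Agent.BGE.Pos
import Pool.Agent.BGE.Quad

/-!
BGE / D4, helper file of `GeoB`: numerical consequences of the standing assumptions, and the
position of geodesics from the level `-n` to the level of `(i, 0)` (also when `n + i < g0`).
-/

namespace BGE

theorem gb_cb {x : ℝ} (hx : 0 ≤ x) : ∃ a : ℝ, 0 ≤ a ∧ a ^ 3 = x ∧
    x ^ (1 / 3 : ℝ) = a ∧ x ^ (2 / 3 : ℝ) = a ^ 2 := by
  refine ⟨x ^ (1 / 3 : ℝ), Real.rpow_nonneg hx _, ?_, rfl, ?_⟩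
  · rw [← Real.rpow_natCast, ← Real.rpow_mul hx]
    norm_num
  · rw [← Real.rpow_natCast, ← Real.rpow_mul hx]
    norm_num

/-- the numerical consequences of the standing assumptions -/
theorem gb_num {κ σ lam Y g0 c : ℝ} {n : ℕ} (hκ : 0 < κ) (hc : 10 ^ 5 / κ ^ 2 ≤ c)
    (h : Par (c ^ 3) κ σ lam Y g0 n) :
    κ ≤ 1 / 2 ∧ 4 * 10 ^ 5 ≤ c ∧ 10 ^ 5 ≤ κ * c ∧ 1 ≤ lam ∧ c ≤ Y ∧ 1 ≤ g0 ∧
      √Y ≤ Y / 10 ^ 5 ∧ ∀ x b : ℝ, g0 ≤ x → 0 ≤ b → b ^ 3 = x → c * lam ≤ b ∧ c * Y ≤ 2 * b ∧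
        Y * b ^ 2 ≤ κ / 10 ^ 4 * x ∧ 1 ≤ b ∧ b ≤ b ^ 2 := by
  obtain ⟨h1, h2, h3, h4, h5, h6⟩ := h
  have hk : κ ≤ 1 / 2 := by linarith
  have hk2 : 0 < κ ^ 2 := by positivity
  have hc1 : 10 ^ 5 ≤ c * κ ^ 2 := by
    rwa [div_le_iff₀ hk2] at hc
  have hc0 : 0 < c := by
    by_contra hneg
    push Not at hneg
    nlinarith
  have hkc : 10 ^ 5 ≤ κ * c := by nlinarith
  have hc4 : 4 * 10 ^ 5 ≤ c := by nlinarith
  have hcc : c ≤ c ^ 3 := by nlinarith [mul_pos hc0 hc0]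
  have hcY : c ≤ Y := hcc.trans h3
  have hlam : 1 ≤ lam := by linarith
  have hg : 1 ≤ g0 := by
    have e1 : 1 ≤ c ^ 3 := by linarith
    have e2 : 1 ≤ lam ^ 3 := one_le_pow₀ hlam
    nlinarith
  have hY0 : 0 ≤ Y := by linarith
  have hsq : √Y ≤ Y / 10 ^ 5 := by
    rw [Real.sqrt_le_left (by positivity)]
    rw [div_pow, le_div_iff₀ (by positivity)]
    have : (10 ^ 5) ^ 2 ≤ Y := by
      have e1 : c ^ 2 ≤ c ^ 3 := by nlinarith [mul_pos hc0 hc0]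
      have e2 : ((10 : ℝ) ^ 5) ^ 2 ≤ c ^ 2 := by
        apply pow_le_pow_left₀ (by norm_num)
        linarith
      linarith
    nlinarith
  refine ⟨hk, hc4, hkc, hlam, hcY, hg, hsq, ?_⟩
  intro x b hx hb hbx
  have e1 : (c * lam) ^ 3 ≤ b ^ 3 := by
    rw [hbx, mul_pow]
    linarith
  have e2 : c * lam ≤ b := by
    by_contra hcon
    push Not at hcon
    have := pow_lt_pow_left₀ hcon hb (by norm_num : (3 : ℕ) ≠ 0)
    linarith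
  have e3 : c * Y ≤ 2 * b := by nlinarith
  have e4 : 1 ≤ b := by nlinarith
  refine ⟨e2, e3, ?_, e4, by nlinarith⟩
  have e5 : Y * b ^ 2 * c ≤ 2 * x := by
    rw [← hbx]
    nlinarith [mul_nonneg hb hb]
  have e6 : 0 ≤ x := by linarith
  -- Y b² ≤ 2x/c ≤ 2 κ x/10^5
  have e7 : Y * b ^ 2 * c ≤ κ / 10 ^ 4 * x * c := by
    nlinarith
  exact le_of_mul_le_mul_right e7 hc0

theorem gb_adj {κ σ lam Y g0 c : ℝ} {n : ℕ} {ω : ℤ × ℤ → ℝ} (hκ : 0 < κ)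
    (hc : 10 ^ 5 / κ ^ 2 ≤ c) (h : Par (c ^ 3) κ σ lam Y g0 n) (hG : GoodE κ σ lam Y g0 n ω)
    (hC : 2 ≤ c) :
    ∃ Y', Y ≤ Y' ∧ Y' ≤ 2 * Y ∧ Y' ≤ 2 * lam ∧ GoodE κ σ lam Y' (g0 / 2) n ω := by
  obtain ⟨hk, hc4, hkc, hlam, hcY, hg, hsq, hb⟩ := gb_num hκ hc h
  obtain ⟨h1, h2, h3, h4, h5, h6⟩ := h
  rcases le_or_gt Y lam with hY | hY
  · refine ⟨2 * Y, by linarith, le_rfl, by linarith, hG.1, ?_⟩
    intro p hp q hq hcone
    refine (hG.2 p hp q hq hcone).trans ?_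
    have hM : 0 ≤ max (dl p q) (g0 / 2) := le_max_of_le_right (by linarith)
    obtain ⟨a, ha0, ha3, ha1, -⟩ := gb_cb hM
    have hT : 0 ≤ max (dl p q) g0 := le_max_of_le_right (by linarith)
    obtain ⟨t, ht0, ht3, ht1, -⟩ := gb_cb hT
    rw [ha1, ht1]
    have e1 : max (dl p q) g0 ≤ 2 * max (dl p q) (g0 / 2) := by
      refine max_le ?_ ?_
      · have := le_max_left (dl p q) (g0 / 2)
        linarith
      · have := le_max_right (dl p q) (g0 / 2)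
        linarith
    have e2 : t ≤ 2 * a := by
      by_contra hcon
      push Not at hcon
      have := pow_lt_pow_left₀ hcon (by linarith) (by norm_num : (3 : ℕ) ≠ 0)
      rw [mul_pow, ha3, ht3] at this
      linarith
    have hY0 : 0 ≤ Y := by linarith
    nlinarith
  · refine ⟨2 * lam, by linarith, by linarith, le_rfl, ?_⟩
    refine goodE_of_crE (by linarith) (by linarith) hlam ?_ ?_ hG.1
    · have e1 : c ≤ c ^ 3 := by nlinarith [mul_pos (show (0:ℝ) < c by linarith) (show (0:ℝ) < c by linarith)]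
      have e2 : 1 ≤ lam ^ 3 := one_le_pow₀ hlam
      nlinarith
    · obtain ⟨b, hb0, hb3, hb1, -⟩ := gb_cb (Nat.cast_nonneg (α := ℝ) n)
      rw [hb1]
      have := (hb n b h6 hb0 hb3).1
      nlinarith

theorem gb_geo {κ σ lam Y g0 c : ℝ} {n : ℕ} (hκ : 0 < κ)
    (hc : 10 ^ 5 / κ ^ 2 ≤ c) (h : Par (c ^ 3) κ σ lam Y g0 n) {P : ℤ × ℤ}
    (hP : lev P = -(n : ℤ)) {b : ℝ} (hb0 : 0 ≤ b) (hb3 : b ^ 3 = n)
    (hdev : |dev σ P| ≤ 4 * Y * b ^ 2 + 1) {i : ℤ} (hi : |(i : ℝ)| ≤ Y * b ^ 2 / 8) :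
    P ≤ (i, 0) ∧ -(2 * (n : ℤ)) ≤ P.1 ∧ -(2 * (n : ℤ)) ≤ P.2 ∧ Cone (3 * κ / 4) P (i, 0) ∧
    P ∈ Rgn σ (20 * lam * b ^ 2) n ∧ ((i, 0) : ℤ × ℤ) ∈ Rgn σ (20 * lam * b ^ 2) n ∧
    dl P (i, 0) = n + i ∧ |(i : ℝ)| ≤ n / 10 ^ 4 ∧ |dev σ (i, 0)| ≤ |(i : ℝ)| + 1 / 2 ∧
    κ * |(i : ℝ)| - 1 / 2 ≤ |dev σ (i, 0)| ∧ 10 ^ 5 ≤ κ * n := by
  obtain ⟨hk, hc4, hkc, hlam, hcY, hg, hsq, hb⟩ := gb_num hκ hc h
  obtain ⟨h1, h2, h3, h4, h5, h6⟩ := h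
  obtain ⟨hb1, hb2, hb4, hb5, hb6⟩ := hb n b h6 hb0 hb3
  have hn : 10 ^ 5 ≤ κ * n := by
    have e1 : b ≤ n := by
      rw [← hb3]
      calc b ≤ b ^ 2 := hb6
        _ = b ^ 2 * 1 := by ring
        _ ≤ b ^ 2 * b := mul_le_mul_of_nonneg_left hb5 (by positivity)
        _ = b ^ 3 := by ring
    have e2 : c ≤ b := by
      calc c = c * 1 := by ring
        _ ≤ c * lam := mul_le_mul_of_nonneg_left hlam (by linarith)
        _ ≤ b := hb1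
    exact hkc.trans (mul_le_mul_of_nonneg_left (e2.trans e1) hκ.le)
  have hn0 : (0 : ℝ) ≤ n := Nat.cast_nonneg n
  obtain ⟨hi1, hi2⟩ := abs_le.1 hi
  obtain ⟨hd1, hd2⟩ := abs_le.1 hdev
  have hlevP : ((lev P : ℤ) : ℝ) = -(n : ℝ) := by
    rw [hP]
    push_cast
    rfl
  have hP1 : (P.1 : ℝ) = dev σ P - σ * (n + 1 / 2) := by
    unfold dev
    rw [hlevP]
    ring
  have hP2 : (P.2 : ℝ) = -n - P.1 := by
    have : lev P = P.1 + P.2 := rfl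
    have e := hlevP
    rw [this] at e
    push_cast at e
    linarith
  have hlevi : lev ((i, 0) : ℤ × ℤ) = i := by
    unfold lev
    simp
  have hdl : dl P (i, 0) = n + i := by
    unfold dl
    rw [hlevi]
    push_cast
    rw [hlevP]
    ring
  have hkn : κ * n ≤ n / 2 := by
    have := mul_le_mul_of_nonneg_right hk hn0
    linarith
  have hq0 : 0 ≤ Y * b ^ 2 := by
    have : 0 ≤ Y := by linarith
    positivity
  have hσn1 : κ * n ≤ σ * n := mul_le_mul_of_nonneg_right h1 hn0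
  have hσn2 : κ * n ≤ (1 - σ) * n := mul_le_mul_of_nonneg_right (by linarith) hn0
  have hκi : κ * i ≤ Y * b ^ 2 / 8 := by
    calc κ * i ≤ κ * |(i : ℝ)| := mul_le_mul_of_nonneg_left (le_abs_self _) hκ.le
      _ ≤ 1 * |(i : ℝ)| := mul_le_mul_of_nonneg_right (by linarith) (abs_nonneg _)
      _ ≤ Y * b ^ 2 / 8 := by linarith
  have hσ0 : 0 ≤ σ := by linarith
  have hi4 : |(i : ℝ)| ≤ n / 10 ^ 4 := by
    refine hi.trans ?_
    linarith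
  obtain ⟨hi3, hi5⟩ := abs_le.1 hi4
  have hq2 : Y * b ^ 2 ≤ n / 10 ^ 4 := by linarith
  have hκ3 : 3 * κ / 4 * (n + i) ≤ 3 / 4 * (κ * n) + 3 / 32 * (Y * b ^ 2) := by linarith
  have hni : (0 : ℝ) ≤ n + i := by linarith
  have hκni : 0 ≤ 3 * κ / 4 * (n + i) := by positivity
  have hlb : 1 ≤ lam * b ^ 2 := one_le_mul_of_one_le_of_one_le hlam (one_le_pow₀ hb5)
  have hYl : Y * b ^ 2 ≤ 2 * lam * b ^ 2 := mul_le_mul_of_nonneg_right h4 (by positivity)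
  have hc1 : 3 * κ / 4 * (n + i) ≤ i - P.1 := by
    rw [hP1]
    linarith
  have hc2 : 3 * κ / 4 * (n + i) ≤ 0 - P.2 := by
    rw [hP2, hP1]
    linarith
  have hle : P ≤ (i, 0) := by
    constructor
    · have : (P.1 : ℝ) ≤ i := by linarith
      exact_mod_cast this
    · have : (P.2 : ℝ) ≤ 0 := by linarith
      exact_mod_cast this
  have hdi : dev σ (i, 0) = (1 - σ) * i + σ / 2 := by
    unfold dev
    rw [hlevi]
    simp only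
    ring
  refine ⟨hle, ?_, ?_, ⟨hle, ?_, ?_⟩, ⟨?_, ?_, ?_⟩, ⟨?_, ?_, ?_⟩, hdl, ?_, ?_, ?_, hn⟩
  · have : (-(2 * (n : ℝ))) ≤ P.1 := by
      rw [hP1]
      linarith
    exact_mod_cast this
  · have : (-(2 * (n : ℝ))) ≤ P.2 := by
      rw [hP2, hP1]
      linarith
    exact_mod_cast this
  · rw [hdl]
    push_cast
    exact hc1
  · rw [hdl]
    push_cast
    simpa using hc2
  · rw [hP]
  · rw [hP]
    omega
  · refine hdev.trans ?_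
    linarith
  · rw [hlevi]
    have : (-(n : ℝ)) ≤ i := by linarith
    exact_mod_cast this
  · rw [hlevi]
    have : (i : ℝ) ≤ n + 1 := by linarith
    exact_mod_cast this
  · have e1 : |(i : ℝ)| ≤ lam * b ^ 2 := by linarith
    have e2 : |(1 - σ) * i + σ / 2| ≤ |(i : ℝ)| + 1 / 2 := by
      calc |(1 - σ) * i + σ / 2| ≤ |(1 - σ) * i| + |σ / 2| := abs_add_le _ _
        _ = (1 - σ) * |(i : ℝ)| + σ / 2 := by
          rw [abs_mul, abs_of_nonneg (by linarith : (0:ℝ) ≤ 1 - σ), abs_of_nonneg (by linarith : (0:ℝ) ≤ σ / 2)]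
        _ ≤ |(i : ℝ)| + 1 / 2 := by
          have := mul_nonneg hσ0 (abs_nonneg (i : ℝ))
          linarith
    rw [hdi]
    refine e2.trans ?_
    linarith
  · exact hi4
  · rw [hdi]
    calc |(1 - σ) * i + σ / 2| ≤ |(1 - σ) * i| + |σ / 2| := abs_add_le _ _
      _ = (1 - σ) * |(i : ℝ)| + σ / 2 := by
        rw [abs_mul, abs_of_nonneg (by linarith : (0:ℝ) ≤ 1 - σ), abs_of_nonneg (by linarith : (0:ℝ) ≤ σ / 2)]
      _ ≤ |(i : ℝ)| + 1 / 2 := by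
        have := mul_nonneg hσ0 (abs_nonneg (i : ℝ))
        linarith
  · rw [hdi]
    have e1 : |(1 - σ) * i| - |-(σ / 2)| ≤ |(1 - σ) * i - (-(σ / 2))| := abs_sub_abs_le_abs_sub _ _
    rw [sub_neg_eq_add, abs_neg, abs_mul, abs_of_nonneg (by linarith : (0:ℝ) ≤ 1 - σ),
      abs_of_nonneg (by linarith : (0:ℝ) ≤ σ / 2)] at e1
    have e2 : κ * |(i : ℝ)| ≤ (1 - σ) * |(i : ℝ)| :=
      mul_le_mul_of_nonneg_right (by linarith) (abs_nonneg _)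
    linarith

theorem gb_core {κ : ℝ} (hκ : 0 < κ) : ∃ c : ℝ, 10 ^ 5 / κ ^ 2 ≤ c ∧ 2 ≤ c ∧
    ∀ (σ lam Y g0 : ℝ) (n : ℕ) (ω : ℤ × ℤ → ℝ), Par (c ^ 3) κ σ lam Y g0 n →
    GoodE κ σ lam Y g0 n ω → ∀ P : ℤ × ℤ, lev P = -(n : ℤ) → ∀ b : ℝ, 0 ≤ b → b ^ 3 = n →
    |dev σ P| ≤ 4 * Y * b ^ 2 + 1 → ∀ i : ℤ, |(i : ℝ)| ≤ Y * b ^ 2 / 8 →
    ∀ w, Via ω P w (i, 0) → ∀ m : ℝ, 0 ≤ m → m ^ 3 = max (i - lev w : ℝ) g0 →
    |dev σ w - (1 - (i - lev w) / (n + i)) * dev σ (i, 0) - (i - lev w) / (n + i) * dev σ P| ≤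
      15 * √Y * m ^ 2 := by
  obtain ⟨C0', hC0', hpos⟩ := pos hκ
  refine ⟨max (10 ^ 5 / κ ^ 2) (2 * C0'), le_max_left _ _, ?_, ?_⟩
  · have := le_max_right (10 ^ 5 / κ ^ 2) (2 * C0')
    linarith
  intro σ lam Y g0 n ω h hG P hP b hb0 hb3 hdev i hi w hw m hm0 hm3
  set c := max (10 ^ 5 / κ ^ 2) (2 * C0') with hcdef
  have hc : 10 ^ 5 / κ ^ 2 ≤ c := le_max_left _ _
  have hcC : 2 * C0' ≤ c := le_max_right _ _
  have hc2 : 2 ≤ c := by linarith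
  obtain ⟨Y', hY1, hY2, hY3, hG'⟩ := gb_adj hκ hc h hG hc2
  obtain ⟨-, -, -, hcone, hPr, hir, hdl, hi4, -, -, -⟩ := gb_geo hκ hc h hP hb0 hb3 hdev hi
  obtain ⟨hk, hc4, hkc, hlam, hcY, hg, hsq, hb⟩ := gb_num hκ hc h
  have hn0 : (0 : ℝ) ≤ n := Nat.cast_nonneg n
  obtain ⟨b', hb'0, hb'3, -, hb'2⟩ := gb_cb hn0
  have hbb : b' = b := by
    have e : b' ^ 3 = b ^ 3 := by rw [hb'3, hb3]
    exact (pow_left_inj₀ hb'0 hb0 (by norm_num)).1 e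
  rw [hbb] at hb'2
  rw [← hb'2] at hPr hir
  have hc0 : 0 ≤ c := by linarith
  have hcc : c ≤ c ^ 3 := by
    have e1 : 1 ≤ c ^ 2 := one_le_pow₀ (by linarith)
    calc c = c * 1 := (mul_one c).symm
      _ ≤ c * c ^ 2 := mul_le_mul_of_nonneg_left e1 hc0
      _ = c ^ 3 := by ring
  have hPar' : Par C0' κ σ lam Y' (g0 / 2) n := by
    obtain ⟨h1, h2, h3, h4, h5, h6⟩ := h
    refine ⟨h1, h2, by linarith, hY3, ?_, by linarith⟩
    have e1 : 0 ≤ lam ^ 3 := by positivity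
    have e2 : 2 * C0' * lam ^ 3 ≤ c ^ 3 * lam ^ 3 :=
      mul_le_mul_of_nonneg_right (hcC.trans hcc) e1
    linarith
  have hni : g0 / 2 ≤ dl P (i, 0) := by
    rw [hdl]
    have h6 := h.2.2.2.2.2
    have := (abs_le.1 hi4).1
    have : g0 ≤ n := h6
    nlinarith
  have key := (hpos σ lam Y' (g0 / 2) n ω hPar' hG' P (i, 0) w hPr hir hcone hni hw).1
  have hlevi : lev ((i, 0) : ℤ × ℤ) = i := by
    unfold lev
    simp
  have hdw : dl w (i, 0) = i - lev w := by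
    unfold dl
    rw [hlevi]
    push_cast
    ring
  rw [hdl, hdw] at key
  refine key.trans ?_
  have hM : 0 ≤ max ((i : ℝ) - lev w) (g0 / 2) := le_max_of_le_right (by linarith)
  obtain ⟨t, ht0, ht3, -, ht2⟩ := gb_cb hM
  rw [ht2]
  have htm : t ≤ m := by
    have e : t ^ 3 ≤ m ^ 3 := by
      rw [ht3, hm3]
      exact max_le_max le_rfl (by linarith)
    exact (pow_le_pow_iff_left₀ ht0 hm0 (by norm_num)).1 e
  have hY0 : 0 ≤ Y := by linarith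
  have hsY : √Y' ≤ 3 / 2 * √Y := by
    rw [Real.sqrt_le_left (by positivity), mul_pow, Real.sq_sqrt hY0]
    linarith
  have e1 : t ^ 2 ≤ m ^ 2 := pow_le_pow_left₀ ht0 htm 2
  calc 10 * √Y' * t ^ 2 ≤ 10 * (3 / 2 * √Y) * m ^ 2 := by gcongr
    _ = 15 * √Y * m ^ 2 := by ring

end BGE
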