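import Pool.Agent.BGE.Pos
import Pool.Agent.BGE.Quad
import Pool.Agent.BGE.GeoB0

/-!
BGE / D4. Order of the increments at different scales, and geodesics avoiding the inner
parallelogram.

In all the proofs: `n ≥ g0 ≥ C0 lam³`, `C0 ≤ Y ≤ 2 lam`, so `Y n^{2/3} ≤ (small) n`, the same for
`r`, and `10 √Y (2 r)^{2/3} ≤ (1/100) Y r^{2/3}`. `dev σ (i,0) = (1-σ) i + σ/2`. `P` is any site of
the level `-n` with `|dev σ P| ≤ 4 Y n^{2/3} + 1`; the pair `(P, (i,0))` is in the cone `3κ/4`, its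
length is `n + i`.

* `order`: for `|i|, |j| ≤ Y r^{2/3}/8`, `i ≤ j`, `8 r ≤ n`:
  `T PL_r (j,0) - T PL_r (i,0) ≤ T P (j,0) - T P (i,0) ≤ T PR_r (j,0) - T PR_r (i,0)` with
  `PL_r = PLp σ (4 Y r^{2/3}) r`.
  Proof. First inequality: let `q` be on a geodesic from `P` to `(i,0)` at the level `-r`
  (`exists_via`), `g = r + i`, `l = n + i`. By `pos`
  `dev q ≥ (1 - g/l) dev (i,0) - (g/l) (4 Y n^{2/3} + 1) - 10 √Y g^{2/3}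
        ≥ -Y r^{2/3}/8 - 1 - 4.8 Y r^{2/3} (r/n)^{1/3} - Y r^{2/3}/50 - 1 > -4 Y r^{2/3}`
  as `(r/n)^{1/3} ≤ 1/2`. So `PL_r` is to the left of `q` (same level), and
  `T PL_r (j,0) - T PL_r (i,0) ≤ T q (j,0) - T q (i,0) ≤ T P (j,0) - T P (i,0)` by `incr_mono` and
  `le_incr_of_via`. Second inequality: `q'` on a geodesic from `P` to `(j,0)` at the level `-r` has
  `dev q' < 4 Y r^{2/3}`, use `incr_le_of_via` and `incr_mono`.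
* `orderF`: the consequences for the profiles; in the second term of `FLp` the increments are
  decreasing differences, `PR` has the largest ones.
* `inside`: all sites on geodesics from `P` to `(i,0)`, `|i| ≤ Y n^{2/3}/8`, are in
  `Rgn σ (6 Y n^{2/3}) n`. By `pos` (`|dev| ≤ 4 Y n^{2/3} + 1 + 10 √Y (2n)^{2/3}`); levels between
  `-n` and `i ≤ n`.
* `avoid`: if moreover `(96/κ) Y r^{2/3} ≤ |i|` then no site on a geodesic from `P` to `(i,0)` is in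
  `Rgn σ (6 Y r^{2/3}) r`. For a site `w` of level `≥ -r`: `g = dl w (i,0) ≤ r + i`. By `pos`, for
  `i > 0`: `dev w ≥ (1 - g/l) dev (i,0) - (g/l)(4 Y n^{2/3} + 1) - 10 √Y (max g g0)^{2/3}` with
  `(1 - g/l) dev (i,0) ≥ (3/4) κ i`, `(g/l) 4 Y n^{2/3} ≤ 5 Y (r + i) n^{-1/3}
  ≤ 2.5 Y r^{2/3} + (κ/100) i` and `10 √Y (max g g0)^{2/3} ≤ 10 √Y (r^{2/3} + g0^{2/3} + i^{2/3})
  ≤ Y r^{2/3} + (κ/100) i` (`i ≥ 96 Y r^{2/3}/κ`, `r ≥ g0 ≥ C0 lam³`, so `√Y i^{2/3} ≤ small κ i`);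
  hence `dev w ≥ (κ/2) i - 4 Y r^{2/3} > 6 Y r^{2/3}`. For `i < 0` the same with reversed signs.
* `FLp_res`: consequence for the profiles of the environment restricted to a set `R` which contains
  `Rgn σ (6 Y n^{2/3}) n \ Rgn σ (6 Y r^{2/3}) r` (`T_res_eq`; the second term by rotation:
  `res_rotE`, `rgn_rot`). `FLp_res0`: the version without inner parallelogram.
-/

namespace BGE

/-- the conclusion of `gb_core` -/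
private def GbCore (κ c : ℝ) : Prop :=
    ∀ (σ lam Y g0 : ℝ) (n : ℕ) (ω : ℤ × ℤ → ℝ), Par (c ^ 3) κ σ lam Y g0 n →
    GoodE κ σ lam Y g0 n ω → ∀ P : ℤ × ℤ, lev P = -(n : ℤ) → ∀ b : ℝ, 0 ≤ b → b ^ 3 = n →
    |dev σ P| ≤ 4 * Y * b ^ 2 + 1 → ∀ i : ℤ, |(i : ℝ)| ≤ Y * b ^ 2 / 8 →
    ∀ w, Via ω P w (i, 0) → ∀ m : ℝ, 0 ≤ m → m ^ 3 = max (i - lev w : ℝ) g0 →
    |dev σ w - (1 - (i - lev w) / (n + i)) * dev σ (i, 0) - (i - lev w) / (n + i) * dev σ P| ≤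
      15 * √Y * m ^ 2

private theorem gb_two {a b : ℝ} (ha : 0 ≤ a) (hb : 0 ≤ b) (h : 8 * a ^ 3 ≤ b ^ 3) :
    2 * a ≤ b := by
  have e : (2 * a) ^ 3 ≤ b ^ 3 := by
    rw [mul_pow]
    linarith
  exact (pow_le_pow_iff_left₀ (by linarith) hb (by norm_num)).1 e

private theorem gb_mid {κ σ lam Y g0 c : ℝ} {n : ℕ} {ω : ℤ × ℤ → ℝ} (hκ : 0 < κ)
    (hc : 10 ^ 5 / κ ^ 2 ≤ c) (hcore : GbCore κ c) (h : Par (c ^ 3) κ σ lam Y g0 n)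
    (hG : GoodE κ σ lam Y g0 n ω) {P : ℤ × ℤ} (hP : lev P = -(n : ℤ)) {b : ℝ} (hb0 : 0 ≤ b)
    (hb3 : b ^ 3 = n) (hdev : |dev σ P| ≤ 4 * Y * b ^ 2 + 1) {r : ℕ} (hr : g0 ≤ r)
    (hrn : 8 * r ≤ n) {a : ℝ} (ha0 : 0 ≤ a) (ha3 : a ^ 3 = r) {i : ℤ}
    (hi : |(i : ℝ)| ≤ Y * a ^ 2 / 8) {q : ℤ × ℤ} (hq : lev q = -(r : ℤ))
    (hvia : Via ω P q (i, 0)) : |dev σ q| ≤ 3 * (Y * a ^ 2) := by
  obtain ⟨hk, hc4, hkc, hlam, hcY, hg, hsq, hb⟩ := gb_num hκ hc h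
  have hY0 : 0 ≤ Y := by linarith
  have hrn' : 8 * (r : ℝ) ≤ n := by exact_mod_cast hrn
  have hab : 2 * a ≤ b := gb_two ha0 hb0 (by rw [ha3, hb3]; exact hrn')
  have hab2 : a ^ 2 ≤ b ^ 2 := pow_le_pow_left₀ ha0 (by linarith) 2
  have hi' : |(i : ℝ)| ≤ Y * b ^ 2 / 8 := by
    refine hi.trans ?_
    have := mul_le_mul_of_nonneg_left hab2 hY0
    linarith
  obtain ⟨hle, -, -, -, -, -, -, hi4, hdi, -, hn5⟩ := gb_geo hκ hc h hP hb0 hb3 hdev hi'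
  obtain ⟨ha1, ha2, ha4, ha5, ha6⟩ := hb r a hr ha0 ha3
  have hrr : (0 : ℝ) ≤ r := Nat.cast_nonneg r
  have hir : |(i : ℝ)| ≤ r / 10 ^ 4 := by
    refine hi.trans ?_
    have : κ / 10 ^ 4 * r ≤ 1 / 2 / 10 ^ 4 * r := by
      apply mul_le_mul_of_nonneg_right _ hrr
      linarith
    linarith
  obtain ⟨hi1, hi2⟩ := abs_le.1 hir
  have hlq : ((lev q : ℤ) : ℝ) = -(r : ℝ) := by
    rw [hq]
    push_cast
    rfl
  have hM : 0 ≤ max ((i : ℝ) - lev q) g0 := le_max_of_le_right (by linarith)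
  obtain ⟨m, hm0, hm3, -, -⟩ := gb_cb hM
  have key := hcore σ lam Y g0 n ω h hG P hP b hb0 hb3 hdev i hi' q hvia m hm0 hm3
  rw [hlq] at key hm3
  have hm2a : m ≤ 2 * a := by
    have e : m ^ 3 ≤ (2 * a) ^ 3 := by
      rw [hm3, mul_pow, ha3]
      refine max_le ?_ ?_
      · linarith
      · linarith
    exact (pow_le_pow_iff_left₀ hm0 (by linarith) (by norm_num)).1 e
  have hm2 : m ^ 2 ≤ 4 * a ^ 2 := by
    have := pow_le_pow_left₀ hm0 hm2a 2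
    linarith [mul_pow 2 a 2]
  have hYa : 0 ≤ Y * a ^ 2 := by positivity
  have herr : 15 * √Y * m ^ 2 ≤ Y * a ^ 2 / 10 ^ 2 := by
    calc 15 * √Y * m ^ 2 ≤ 15 * (Y / 10 ^ 5) * (4 * a ^ 2) := by gcongr
      _ ≤ Y * a ^ 2 / 10 ^ 2 := by linarith
  set θ : ℝ := ((i : ℝ) - -r) / (n + i) with hθ
  have hni : (0 : ℝ) < n + i := by linarith
  have hθ0 : 0 ≤ θ := div_nonneg (by linarith) hni.le
  have hθ1 : θ ≤ 1 := by
    rw [hθ, div_le_one hni]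
    linarith
  have hθb : θ * b ^ 2 ≤ 6 / 10 * a ^ 2 := by
    rw [hθ, div_mul_eq_mul_div, div_le_iff₀ hni]
    have e1 : ((i : ℝ) - -r) * b ^ 2 ≤ 101 / 100 * a ^ 3 * b ^ 2 := by
      apply mul_le_mul_of_nonneg_right _ (by positivity)
      rw [ha3]
      linarith
    have e2 : 6 / 10 * a ^ 2 * (99 / 100 * b ^ 3) ≤ 6 / 10 * a ^ 2 * (n + i) := by
      apply mul_le_mul_of_nonneg_left _ (by positivity)
      rw [hb3]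
      linarith
    have e3 : 101 / 100 * a ^ 3 * b ^ 2 ≤ 6 / 10 * a ^ 2 * (99 / 100 * b ^ 3) := by
      have e4 : 0 ≤ a ^ 2 * b ^ 2 * (b - 2 * a) := by
        apply mul_nonneg (by positivity)
        linarith
      have e5 : 0 ≤ a ^ 3 * b ^ 2 := by positivity
      have e6 : a ^ 2 * b ^ 2 * (b - 2 * a) = a ^ 2 * b ^ 3 - 2 * (a ^ 3 * b ^ 2) := by ring
      have e7 : 6 / 10 * a ^ 2 * (99 / 100 * b ^ 3) = 594 / 1000 * (a ^ 2 * b ^ 3) := by ring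
      have e8 : 101 / 100 * a ^ 3 * b ^ 2 = 101 / 100 * (a ^ 3 * b ^ 2) := by ring
      rw [e7, e8]
      rw [e6] at e4
      linarith
    linarith
  have hdP : θ * |dev σ P| ≤ 24 / 10 * (Y * a ^ 2) + 1 := by
    calc θ * |dev σ P| ≤ θ * (4 * Y * b ^ 2 + 1) := by gcongr
      _ = 4 * Y * (θ * b ^ 2) + θ := by ring
      _ ≤ 4 * Y * (6 / 10 * a ^ 2) + 1 := by gcongr
      _ = 24 / 10 * (Y * a ^ 2) + 1 := by ring
  have hdv : (1 - θ) * |dev σ (i, 0)| ≤ Y * a ^ 2 / 8 + 1 / 2 := by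
    calc (1 - θ) * |dev σ (i, 0)| ≤ 1 * |dev σ (i, 0)| := by
          apply mul_le_mul_of_nonneg_right _ (abs_nonneg _)
          linarith
      _ ≤ Y * a ^ 2 / 8 + 1 / 2 := by linarith
  have hbig : 100 ≤ Y * a ^ 2 := by
    have h1 : 1 ≤ a ^ 2 := one_le_pow₀ ha5
    have h2 := mul_le_mul_of_nonneg_left h1 hY0
    linarith
  have e1 : |dev σ q| ≤ |dev σ q - (1 - θ) * dev σ (i, 0) - θ * dev σ P| +
      |(1 - θ) * dev σ (i, 0)| + |θ * dev σ P| := by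
    have e2 : dev σ q = (dev σ q - (1 - θ) * dev σ (i, 0) - θ * dev σ P) +
      (1 - θ) * dev σ (i, 0) + θ * dev σ P := by ring
    calc |dev σ q| = |(dev σ q - (1 - θ) * dev σ (i, 0) - θ * dev σ P) +
      (1 - θ) * dev σ (i, 0) + θ * dev σ P| := by rw [← e2]
      _ ≤ _ := abs_add_three _ _ _
  rw [abs_mul (1 - θ), abs_mul θ, abs_of_nonneg (by linarith : (0:ℝ) ≤ 1 - θ),
    abs_of_nonneg hθ0] at e1
  linarith

private theorem gb_levPL (σ A : ℝ) (n : ℕ) : lev (PLp σ A n) = -(n : ℤ) := by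
  unfold lev PLp
  ring

private theorem gb_levPR (σ A : ℝ) (n : ℕ) : lev (PRp σ A n) = -(n : ℤ) := by
  unfold lev PRp
  ring

private theorem gb_devPL {σ A : ℝ} (hA : 0 ≤ A) (n : ℕ) : |dev σ (PLp σ A n)| ≤ A + 1 := by
  have h1 : dev σ (PLp σ A n) = (PLp σ A n).1 + σ * (n + 1 / 2) := by
    unfold dev
    rw [gb_levPL]
    push_cast
    ring
  have h2 : (((PLp σ A n).1 : ℤ) : ℝ) ≤ -(σ * ((n : ℝ) + 1 / 2)) - A := Int.floor_le _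
  have h3 : -(σ * ((n : ℝ) + 1 / 2)) - A < (((PLp σ A n).1 : ℤ) : ℝ) + 1 := Int.lt_floor_add_one _
  rw [h1, abs_le]
  constructor <;> linarith

private theorem gb_devPR {σ A : ℝ} (hA : 0 ≤ A) (n : ℕ) : |dev σ (PRp σ A n)| ≤ A + 1 := by
  have h1 : dev σ (PRp σ A n) = (PRp σ A n).1 + σ * (n + 1 / 2) := by
    unfold dev
    rw [gb_levPR]
    push_cast
    ring
  have h2 : -(σ * ((n : ℝ) + 1 / 2)) + A ≤ (((PRp σ A n).1 : ℤ) : ℝ) := Int.le_ceil _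
  have h3 : (((PRp σ A n).1 : ℤ) : ℝ) < -(σ * ((n : ℝ) + 1 / 2)) + A + 1 := Int.ceil_lt_add_one _
  rw [h1, abs_le]
  constructor <;> linarith

private theorem gb_order {κ σ lam Y g0 c : ℝ} {n : ℕ} {ω : ℤ × ℤ → ℝ} (hκ : 0 < κ)
    (hc : 10 ^ 5 / κ ^ 2 ≤ c) (hcore : GbCore κ c) (h : Par (c ^ 3) κ σ lam Y g0 n)
    (hG : GoodE κ σ lam Y g0 n ω) {P : ℤ × ℤ} (hP : lev P = -(n : ℤ)) {b : ℝ} (hb0 : 0 ≤ b)
    (hb3 : b ^ 3 = n) (hdev : |dev σ P| ≤ 4 * Y * b ^ 2 + 1) {r : ℕ} (hr : g0 ≤ r)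
    (hrn : 8 * r ≤ n) {a : ℝ} (ha0 : 0 ≤ a) (ha3 : a ^ 3 = r) {i j : ℤ}
    (hi : -(Y * a ^ 2 / 8) ≤ i) (hij : i ≤ j) (hj : (j : ℝ) ≤ Y * a ^ 2 / 8) :
    T ω (PLp σ (4 * Y * a ^ 2) r) (j, 0) - T ω (PLp σ (4 * Y * a ^ 2) r) (i, 0) ≤
        T ω P (j, 0) - T ω P (i, 0) ∧
      T ω P (j, 0) - T ω P (i, 0) ≤
        T ω (PRp σ (4 * Y * a ^ 2) r) (j, 0) - T ω (PRp σ (4 * Y * a ^ 2) r) (i, 0) := by
  obtain ⟨hk, hc4, hkc, hlam, hcY, hg, hsq, hb⟩ := gb_num hκ hc h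
  have hij' : (i : ℝ) ≤ j := by exact_mod_cast hij
  have hia : |(i : ℝ)| ≤ Y * a ^ 2 / 8 := abs_le.2 ⟨hi, by linarith⟩
  have hja : |(j : ℝ)| ≤ Y * a ^ 2 / 8 := abs_le.2 ⟨by linarith, hj⟩
  have hY0 : 0 ≤ Y := by linarith
  have hrn' : 8 * (r : ℝ) ≤ n := by exact_mod_cast hrn
  have hab : 2 * a ≤ b := gb_two ha0 hb0 (by rw [ha3, hb3]; exact hrn')
  have hab2 : a ^ 2 ≤ b ^ 2 := pow_le_pow_left₀ ha0 (by linarith) 2
  have hYab : Y * a ^ 2 ≤ Y * b ^ 2 := mul_le_mul_of_nonneg_left hab2 hY0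
  have hlePi := (gb_geo hκ hc h hP hb0 hb3 hdev (hia.trans (by linarith))).1
  have hlePj := (gb_geo hκ hc h hP hb0 hb3 hdev (hja.trans (by linarith))).1
  obtain ⟨ha1, ha2, ha4, ha5, ha6⟩ := hb r a hr ha0 ha3
  have hrr : (0 : ℝ) ≤ r := Nat.cast_nonneg r
  have h1σ : κ ≤ σ := h.1
  have h2σ : σ ≤ 1 - κ := h.2.1
  have hlevi : ∀ i : ℤ, lev ((i, 0) : ℤ × ℤ) = i := by
    intro i
    unfold lev
    simp
  have hκr : 10 ^ 5 ≤ κ * r := by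
    have e1 : a ≤ r := by
      rw [← ha3]
      calc a ≤ a ^ 2 := ha6
        _ = a ^ 2 * 1 := by ring
        _ ≤ a ^ 2 * a := mul_le_mul_of_nonneg_left ha5 (by positivity)
        _ = a ^ 3 := by ring
    have e2 : c ≤ a := by
      calc c = c * 1 := by ring
        _ ≤ c * lam := mul_le_mul_of_nonneg_left hlam (by linarith)
        _ ≤ a := ha1
    calc (10 : ℝ) ^ 5 ≤ κ * c := hkc
      _ ≤ κ * r := mul_le_mul_of_nonneg_left (e2.trans e1) hκ.le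
  have hκr1 : κ * r ≤ r / 2 := by
    have := mul_le_mul_of_nonneg_right hk hrr
    linarith
  have hσr1 : κ * r ≤ σ * r := mul_le_mul_of_nonneg_right h1σ hrr
  have hσr2 : σ * r ≤ r - κ * r := by
    have := mul_le_mul_of_nonneg_right h2σ hrr
    linarith
  obtain ⟨hi1, hi2⟩ := abs_le.1 hia
  obtain ⟨hj1, hj2⟩ := abs_le.1 hja
  have hlev1 : lev P ≤ -(r : ℤ) := by
    rw [hP]
    omega
  have hlev2 : ∀ i : ℤ, |(i : ℝ)| ≤ Y * a ^ 2 / 8 → -(r : ℤ) ≤ lev ((i, 0) : ℤ × ℤ) := by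
    intro i hi
    rw [hlevi]
    have : -(r : ℝ) ≤ i := by
      have := (abs_le.1 hi).1
      linarith
    exact_mod_cast this
  have hdevr : ∀ q : ℤ × ℤ, lev q = -(r : ℤ) → (q.1 : ℝ) = dev σ q - σ * (r + 1 / 2) ∧
      q.2 = -(r : ℤ) - q.1 := by
    intro q hq
    constructor
    · unfold dev
      rw [hq]
      push_cast
      ring
    · unfold lev at hq
      omega
  have hPL1 : (((PLp σ (4 * Y * a ^ 2) r).1 : ℤ) : ℝ) ≤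
      -(σ * ((r : ℝ) + 1 / 2)) - 4 * Y * a ^ 2 := Int.floor_le _
  have hPL2 : -(r : ℤ) ≤ (PLp σ (4 * Y * a ^ 2) r).1 := by
    apply Int.le_floor.2
    push_cast
    linarith
  have hPR1 : -(σ * ((r : ℝ) + 1 / 2)) + 4 * Y * a ^ 2 ≤
      (((PRp σ (4 * Y * a ^ 2) r).1 : ℤ) : ℝ) := Int.le_ceil _
  have hPR2 : (PRp σ (4 * Y * a ^ 2) r).1 ≤ i := by
    apply Int.ceil_le.2
    linarith
  constructor
  · obtain ⟨q, hq, hvia⟩ := exists_via ω hlePi hlev1 (hlev2 i hia)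
    have hdq := gb_mid hκ hc hcore h hG hP hb0 hb3 hdev hr hrn ha0 ha3 hia hq hvia
    obtain ⟨hd1, hd2⟩ := abs_le.1 hdq
    obtain ⟨hq1, hq2⟩ := hdevr q hq
    have e1 : (PLp σ (4 * Y * a ^ 2) r).1 ≤ q.1 := by
      have : (((PLp σ (4 * Y * a ^ 2) r).1 : ℤ) : ℝ) ≤ q.1 := by
        rw [hq1]
        have : 0 ≤ Y * a ^ 2 := by positivity
        linarith
      exact_mod_cast this
    have e2 : q.2 ≤ (PLp σ (4 * Y * a ^ 2) r).2 := by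
      rw [hq2]
      show _ ≤ -(r : ℤ) - (PLp σ (4 * Y * a ^ 2) r).1
      omega
    have hqi : q ≤ (i, 0) := hvia.2.1
    have hqj : q ≤ (j, 0) := ⟨hqi.1.trans hij, hqi.2⟩
    refine (incr_mono (q := PLp σ (4 * Y * a ^ 2) r) (q' := q) (v1 := (i, 0)) (v2 := (j, 0)) e1 e2
      hij le_rfl ?_ hqi).trans (le_incr_of_via (v1 := (i, 0)) (v2 := (j, 0)) hvia hqj)
    refine ⟨e1.trans hqj.1, ?_⟩
    show -(r : ℤ) - (PLp σ (4 * Y * a ^ 2) r).1 ≤ 0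
    omega
  · obtain ⟨q, hq, hvia⟩ := exists_via ω hlePj hlev1 (hlev2 j hja)
    have hdq := gb_mid hκ hc hcore h hG hP hb0 hb3 hdev hr hrn ha0 ha3 hja hq hvia
    obtain ⟨hd1, hd2⟩ := abs_le.1 hdq
    obtain ⟨hq1, hq2⟩ := hdevr q hq
    have hqj : q ≤ (j, 0) := hvia.2.1
    have hqi : q ≤ (i, 0) := by
      refine ⟨?_, hqj.2⟩
      have : (q.1 : ℝ) ≤ i := by
        rw [hq1]
        linarith
      exact_mod_cast this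
    have e1 : q.1 ≤ (PRp σ (4 * Y * a ^ 2) r).1 := by
      have : (q.1 : ℝ) ≤ (((PRp σ (4 * Y * a ^ 2) r).1 : ℤ) : ℝ) := by
        rw [hq1]
        have : 0 ≤ Y * a ^ 2 := by positivity
        linarith
      exact_mod_cast this
    have e2 : (PRp σ (4 * Y * a ^ 2) r).2 ≤ q.2 := by
      rw [hq2]
      show -(r : ℤ) - (PRp σ (4 * Y * a ^ 2) r).1 ≤ _
      omega
    refine (incr_le_of_via (v1 := (i, 0)) (v2 := (j, 0)) hvia hqi).trans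
      (incr_mono (q := q) (q' := PRp σ (4 * Y * a ^ 2) r) (v1 := (i, 0)) (v2 := (j, 0)) e1 e2
        hij le_rfl hqj ?_)
    refine ⟨hPR2, ?_⟩
    show -(r : ℤ) - (PRp σ (4 * Y * a ^ 2) r).1 ≤ 0
    have : -(r : ℤ) ≤ (PRp σ (4 * Y * a ^ 2) r).1 := by
      have : -(r : ℝ) ≤ (((PRp σ (4 * Y * a ^ 2) r).1 : ℤ) : ℝ) := by
        have : 0 ≤ Y * a ^ 2 := by positivity
        linarith
      exact_mod_cast this
    omega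

private theorem gb_orderF {κ σ lam Y g0 c A : ℝ} {n : ℕ} {ω : ℤ × ℤ → ℝ} (hκ : 0 < κ)
    (hc : 10 ^ 5 / κ ^ 2 ≤ c) (hcore : GbCore κ c) (h : Par (c ^ 3) κ σ lam Y g0 n)
    (hG : GoodE κ σ lam Y g0 n ω) {b : ℝ} (hb0 : 0 ≤ b)
    (hb3 : b ^ 3 = n) (hA0 : 0 ≤ A) (hA : A ≤ 4 * Y * b ^ 2) {r : ℕ} (hr : g0 ≤ r)
    (hrn : 8 * r ≤ n) {a : ℝ} (ha0 : 0 ≤ a) (ha3 : a ^ 3 = r) {i j : ℤ}
    (hi : -(Y * a ^ 2 / 8) ≤ i) (hij : i ≤ j) (hj : (j : ℝ) ≤ Y * a ^ 2 / 8) :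
    FLp σ (4 * Y * a ^ 2) r ω j - FLp σ (4 * Y * a ^ 2) r ω i ≤
        FLp σ A n ω j - FLp σ A n ω i ∧
      FLp σ A n ω j - FLp σ A n ω i ≤ FRp σ A n ω j - FRp σ A n ω i ∧
      FRp σ A n ω j - FRp σ A n ω i ≤
        FRp σ (4 * Y * a ^ 2) r ω j - FRp σ (4 * Y * a ^ 2) r ω i := by
  have hG' : GoodE κ σ lam Y g0 n (rotE ω) := goodE_rot.2 hG
  have hdL : |dev σ (PLp σ A n)| ≤ 4 * Y * b ^ 2 + 1 := (gb_devPL hA0 n).trans (by linarith)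
  have hdR : |dev σ (PRp σ A n)| ≤ 4 * Y * b ^ 2 + 1 := (gb_devPR hA0 n).trans (by linarith)
  have hi' : (((-i : ℤ)) : ℝ) ≤ Y * a ^ 2 / 8 := by
    push_cast
    linarith
  have hj' : -(Y * a ^ 2 / 8) ≤ (((-j : ℤ)) : ℝ) := by
    push_cast
    linarith
  have hij' : -j ≤ -i := neg_le_neg hij
  have oL := gb_order hκ hc hcore h hG (gb_levPL σ A n) hb0 hb3 hdL hr hrn ha0 ha3 hi hij hj
  have oR := gb_order hκ hc hcore h hG (gb_levPR σ A n) hb0 hb3 hdR hr hrn ha0 ha3 hi hij hj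
  have oL' := gb_order hκ hc hcore h hG' (gb_levPL σ A n) hb0 hb3 hdL hr hrn ha0 ha3 hj' hij' hi'
  have oR' := gb_order hκ hc hcore h hG' (gb_levPR σ A n) hb0 hb3 hdR hr hrn ha0 ha3 hj' hij' hi'
  obtain ⟨hk, hc4, hkc, hlam, hcY, hg, hsq, hb⟩ := gb_num hκ hc h
  have hY0 : 0 ≤ Y := by linarith
  have hrn' : 8 * (r : ℝ) ≤ n := by exact_mod_cast hrn
  have hab : 2 * a ≤ b := gb_two ha0 hb0 (by rw [ha3, hb3]; exact hrn')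
  have hab2 : a ^ 2 ≤ b ^ 2 := pow_le_pow_left₀ ha0 (by linarith) 2
  have hYab : Y * a ^ 2 ≤ Y * b ^ 2 := mul_le_mul_of_nonneg_left hab2 hY0
  have hij'' : (i : ℝ) ≤ j := by exact_mod_cast hij
  have hia : |(i : ℝ)| ≤ Y * b ^ 2 / 8 := abs_le.2 ⟨by linarith, by linarith⟩
  have hja : |(j : ℝ)| ≤ Y * b ^ 2 / 8 := abs_le.2 ⟨by linarith, by linarith⟩
  have hia' : |((-i : ℤ) : ℝ)| ≤ Y * b ^ 2 / 8 := by
    push_cast
    rwa [abs_neg]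
  have hja' : |((-j : ℤ) : ℝ)| ≤ Y * b ^ 2 / 8 := by
    push_cast
    rwa [abs_neg]
  have eLj := (gb_geo hκ hc h (gb_levPL σ A n) hb0 hb3 hdL hja).1
  have eRi := (gb_geo hκ hc h (gb_levPR σ A n) hb0 hb3 hdR hia).1
  have eLi' := (gb_geo hκ hc h (gb_levPL σ A n) hb0 hb3 hdL hia').1
  have eRj' := (gb_geo hκ hc h (gb_levPR σ A n) hb0 hb3 hdR hja').1
  have e1 : (PLp σ A n).1 ≤ (PRp σ A n).1 := by
    have h1 : (((PLp σ A n).1 : ℤ) : ℝ) ≤ -(σ * ((n : ℝ) + 1 / 2)) - A := Int.floor_le _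
    have h2 : -(σ * ((n : ℝ) + 1 / 2)) + A ≤ (((PRp σ A n).1 : ℤ) : ℝ) := Int.le_ceil _
    have : (((PLp σ A n).1 : ℤ) : ℝ) ≤ (((PRp σ A n).1 : ℤ) : ℝ) := by linarith
    exact_mod_cast this
  have e2 : (PRp σ A n).2 ≤ (PLp σ A n).2 := by
    show -(n : ℤ) - (PRp σ A n).1 ≤ -(n : ℤ) - (PLp σ A n).1
    omega
  have m1 := incr_mono (ω := ω) (q := PLp σ A n) (q' := PRp σ A n) (v1 := (i, 0)) (v2 := (j, 0))
    e1 e2 hij le_rfl eLj eRi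
  have m2 := incr_mono (ω := rotE ω) (q := PLp σ A n) (q' := PRp σ A n) (v1 := (-j, 0))
    (v2 := (-i, 0)) e1 e2 hij' le_rfl eLi' eRj'
  unfold FLp FRp
  refine ⟨?_, ?_, ?_⟩
  · linarith [oL.1, oR'.2]
  · linarith
  · linarith [oR.2, oL'.1]

private theorem gb_tri {x y z D : ℝ} {e : ℝ} (h : |x - y - z| ≤ e) (hD : |y| + |z| + e ≤ D) :
    |x| ≤ D := by
  have e1 : |x| ≤ |x - y - z| + |y| + |z| := by
    calc |x| = |(x - y - z) + y + z| := by ring_nf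
      _ ≤ _ := abs_add_three _ _ _
  linarith

private theorem gb_inside {κ σ lam Y g0 c : ℝ} {n : ℕ} {ω : ℤ × ℤ → ℝ} (hκ : 0 < κ)
    (hc : 10 ^ 5 / κ ^ 2 ≤ c) (hcore : GbCore κ c) (h : Par (c ^ 3) κ σ lam Y g0 n)
    (hG : GoodE κ σ lam Y g0 n ω) {P : ℤ × ℤ} (hP : lev P = -(n : ℤ)) {b : ℝ} (hb0 : 0 ≤ b)
    (hb3 : b ^ 3 = n) (hdev : |dev σ P| ≤ 4 * Y * b ^ 2 + 1) {i : ℤ}
    (hi : |(i : ℝ)| ≤ Y * b ^ 2 / 8) {w : ℤ × ℤ} (hvia : Via ω P w (i, 0)) :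
    w ∈ Rgn σ (6 * (Y * b ^ 2)) n := by
  obtain ⟨hk, hc4, hkc, hlam, hcY, hg, hsq, hb⟩ := gb_num hκ hc h
  have hY0 : 0 ≤ Y := by linarith
  obtain ⟨hle, -, -, -, -, -, -, hi4, hdi, -, hn5⟩ := gb_geo hκ hc h hP hb0 hb3 hdev hi
  obtain ⟨hb1, hb2, hb4, hb5, hb6⟩ := hb n b h.2.2.2.2.2 hb0 hb3
  have hn0 : (0 : ℝ) ≤ n := Nat.cast_nonneg n
  obtain ⟨hi1, hi2⟩ := abs_le.1 hi4
  have hlevi : lev ((i, 0) : ℤ × ℤ) = i := by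
    unfold lev
    simp
  have hl1 : -(n : ℤ) ≤ lev w := by
    rw [← hP]
    exact lev_le_lev hvia.1
  have hl2 : lev w ≤ i := by
    have := lev_le_lev hvia.2.1
    rwa [hlevi] at this
  have hl1' : -(n : ℝ) ≤ lev w := by exact_mod_cast hl1
  have hl2' : (lev w : ℝ) ≤ i := by exact_mod_cast hl2
  have hM : 0 ≤ max ((i : ℝ) - lev w) g0 := le_max_of_le_right (by linarith)
  obtain ⟨m, hm0, hm3, -, -⟩ := gb_cb hM
  have key := hcore σ lam Y g0 n ω h hG P hP b hb0 hb3 hdev i hi w hvia m hm0 hm3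
  have hgn : g0 ≤ n := h.2.2.2.2.2
  have hm2b : m ≤ 2 * b := by
    have e : m ^ 3 ≤ (2 * b) ^ 3 := by
      rw [hm3, mul_pow, hb3]
      refine max_le ?_ ?_
      · linarith
      · linarith
    exact (pow_le_pow_iff_left₀ hm0 (by linarith) (by norm_num)).1 e
  have hm2 : m ^ 2 ≤ 4 * b ^ 2 := by
    have := pow_le_pow_left₀ hm0 hm2b 2
    linarith [mul_pow 2 b 2]
  have hYb : 0 ≤ Y * b ^ 2 := by positivity
  have herr : 15 * √Y * m ^ 2 ≤ Y * b ^ 2 / 10 ^ 2 := by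
    calc 15 * √Y * m ^ 2 ≤ 15 * (Y / 10 ^ 5) * (4 * b ^ 2) := by gcongr
      _ ≤ Y * b ^ 2 / 10 ^ 2 := by linarith
  have hbig : 100 ≤ Y * b ^ 2 := by
    have h1 : 1 ≤ b ^ 2 := one_le_pow₀ hb5
    have h2 := mul_le_mul_of_nonneg_left h1 hY0
    linarith
  set θ : ℝ := ((i : ℝ) - lev w) / (n + i) with hθ
  have hni : (0 : ℝ) < n + i := by
    have : (0 : ℝ) < n := by linarith
    linarith
  have hθ0 : 0 ≤ θ := div_nonneg (by linarith) hni.le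
  have hθ1 : θ ≤ 1 := by
    rw [hθ, div_le_one hni]
    linarith
  refine ⟨hl1, ?_, ?_⟩
  · have : (lev w : ℝ) ≤ n + 1 := by linarith
    exact_mod_cast this
  · refine gb_tri key ?_
    rw [abs_mul (1 - θ), abs_mul θ, abs_of_nonneg (by linarith : (0:ℝ) ≤ 1 - θ),
      abs_of_nonneg hθ0]
    have e1 : (1 - θ) * |dev σ (i, 0)| ≤ (1 - θ) * (4 * Y * b ^ 2 + 1) := by
      apply mul_le_mul_of_nonneg_left _ (by linarith)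
      linarith
    have e2 : θ * |dev σ P| ≤ θ * (4 * Y * b ^ 2 + 1) := mul_le_mul_of_nonneg_left hdev hθ0
    have e3 : (1 - θ) * (4 * Y * b ^ 2 + 1) + θ * (4 * Y * b ^ 2 + 1) = 4 * (Y * b ^ 2) + 1 := by
      ring
    linarith

private theorem gb_avoid {κ σ lam Y g0 c : ℝ} {n : ℕ} {ω : ℤ × ℤ → ℝ} (hκ : 0 < κ)
    (hc : 10 ^ 5 / κ ^ 2 ≤ c) (hcore : GbCore κ c) (h : Par (c ^ 3) κ σ lam Y g0 n)
    (hG : GoodE κ σ lam Y g0 n ω) {P : ℤ × ℤ} (hP : lev P = -(n : ℤ)) {b : ℝ} (hb0 : 0 ≤ b)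
    (hb3 : b ^ 3 = n) (hdev : |dev σ P| ≤ 4 * Y * b ^ 2 + 1) {r : ℕ} (hr : g0 ≤ r)
    (hrn : 8 * r ≤ n) {a : ℝ} (ha0 : 0 ≤ a) (ha3 : a ^ 3 = r) {i : ℤ}
    (hi : |(i : ℝ)| ≤ Y * b ^ 2 / 8) (hbi : 96 / κ * (Y * a ^ 2) ≤ |(i : ℝ)|) {w : ℤ × ℤ}
    (hvia : Via ω P w (i, 0)) : w ∉ Rgn σ (6 * (Y * a ^ 2)) r := by
  rintro ⟨hw1, hw2, hw3⟩
  obtain ⟨hk, hc4, hkc, hlam, hcY, hg, hsq, hb⟩ := gb_num hκ hc h
  have hY0 : 0 ≤ Y := by linarith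
  have hrn' : 8 * (r : ℝ) ≤ n := by exact_mod_cast hrn
  have hab : 2 * a ≤ b := gb_two ha0 hb0 (by rw [ha3, hb3]; exact hrn')
  obtain ⟨hle, -, -, -, -, -, -, hi4, hdi, hdi', hn5⟩ := gb_geo hκ hc h hP hb0 hb3 hdev hi
  obtain ⟨hb1, hb2, hb4, hb5, hb6⟩ := hb n b h.2.2.2.2.2 hb0 hb3
  obtain ⟨ha1, ha2, ha4, ha5, ha6⟩ := hb r a hr ha0 ha3
  have hn0 : (0 : ℝ) ≤ n := Nat.cast_nonneg n
  have hrr : (0 : ℝ) ≤ r := Nat.cast_nonneg r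
  obtain ⟨hi1, hi2⟩ := abs_le.1 hi4
  have hlevi : lev ((i, 0) : ℤ × ℤ) = i := by
    unfold lev
    simp
  have hl2 : lev w ≤ i := by
    have := lev_le_lev hvia.2.1
    rwa [hlevi] at this
  have hl1' : -(r : ℝ) ≤ lev w := by exact_mod_cast hw1
  have hl2' : (lev w : ℝ) ≤ i := by exact_mod_cast hl2
  set D : ℝ := |(i : ℝ)| with hD
  have hiD : (i : ℝ) ≤ D := le_abs_self _
  have hM : 0 ≤ max ((i : ℝ) - lev w) g0 := le_max_of_le_right (by linarith)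
  obtain ⟨m, hm0, hm3, -, -⟩ := gb_cb hM
  have key := hcore σ lam Y g0 n ω h hG P hP b hb0 hb3 hdev i hi w hvia m hm0 hm3
  have hD0 : 0 ≤ D := abs_nonneg _
  obtain ⟨d, hd0, hd3, -, -⟩ := gb_cb hD0
  have hmad : m ≤ d + a := by
    have e : m ^ 3 ≤ (d + a) ^ 3 := by
      rw [hm3]
      have e1 : (d + a) ^ 3 = d ^ 3 + a ^ 3 + 3 * d * a * (d + a) := by ring
      have e2 : 0 ≤ 3 * d * a * (d + a) := by positivity
      rw [e1, hd3, ha3]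
      refine max_le ?_ ?_
      · linarith
      · linarith
    exact (pow_le_pow_iff_left₀ hm0 (by linarith) (by norm_num)).1 e
  have hm2 : m ^ 2 ≤ 2 * d ^ 2 + 2 * a ^ 2 := by
    have e1 := pow_le_pow_left₀ hm0 hmad 2
    have e2 : (d + a) ^ 2 = 2 * d ^ 2 + 2 * a ^ 2 - (d - a) ^ 2 := by ring
    have e3 := sq_nonneg (d - a)
    linarith
  have hYa : 0 ≤ Y * a ^ 2 := by positivity
  have hbig : 100 ≤ Y * a ^ 2 := by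
    have h1 : 1 ≤ a ^ 2 := one_le_pow₀ ha5
    have h2 := mul_le_mul_of_nonneg_left h1 hY0
    linarith
  -- `√Y` is small compared with `κ d`
  have hκi : κ * D = κ * |(i : ℝ)| := rfl
  have hbi' : 96 * (Y * a ^ 2) ≤ κ * D := by
    have := mul_le_mul_of_nonneg_left hbi hκ.le
    calc 96 * (Y * a ^ 2) = κ * (96 / κ * (Y * a ^ 2)) := by field_simp
      _ ≤ κ * D := this
  have hsd : 3000 * √Y ≤ κ * d := by
    have hs0 : 0 ≤ √Y := Real.sqrt_nonneg _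
    have hsY : √Y * √Y = Y := Real.mul_self_sqrt hY0
    have e : (3000 * √Y) ^ 3 ≤ (κ * d) ^ 3 := by
      have e1 : (3000 * √Y) ^ 3 = 27 * 10 ^ 9 * (Y * √Y) := by
        rw [mul_pow]
        have : √Y ^ 3 = Y * √Y := by
          rw [pow_succ, pow_two, hsY]
        rw [this]
        norm_num
      have e2 : (κ * d) ^ 3 = κ ^ 2 * (κ * D) := by
        rw [mul_pow, hd3]
        ring
      rw [e1, e2]
      have e3 : √Y ≤ Y := by linarith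
      have e4 : κ ^ 2 * (96 * (Y * a ^ 2)) ≤ κ ^ 2 * (κ * D) :=
        mul_le_mul_of_nonneg_left hbi' (by positivity)
      have e5 : (10 : ℝ) ^ 5 * Y ≤ κ * (2 * a) := by
        calc (10 : ℝ) ^ 5 * Y ≤ κ * c * Y := mul_le_mul_of_nonneg_right hkc hY0
          _ = κ * (c * Y) := by ring
          _ ≤ κ * (2 * a) := mul_le_mul_of_nonneg_left ha2 hκ.le
      have e6 : ((10 : ℝ) ^ 5 * Y) ^ 2 ≤ (κ * (2 * a)) ^ 2 :=
        pow_le_pow_left₀ (by positivity) e5 2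
      have e7 : 27 * 10 ^ 9 * (Y * √Y) ≤ 27 * 10 ^ 9 * (Y * Y) := by gcongr
      have e8 : 10 ^ 10 / 4 * Y ^ 2 ≤ κ ^ 2 * a ^ 2 := by
        have : (10 : ℝ) ^ 10 * Y ^ 2 ≤ κ ^ 2 * (4 * a ^ 2) := by
          calc (10 : ℝ) ^ 10 * Y ^ 2 = ((10 : ℝ) ^ 5 * Y) ^ 2 := by ring
            _ ≤ (κ * (2 * a)) ^ 2 := e6
            _ = κ ^ 2 * (4 * a ^ 2) := by ring
        linarith
      have e9 : 96 * Y * (10 ^ 10 / 4 * Y ^ 2) ≤ 96 * Y * (κ ^ 2 * a ^ 2) :=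
        mul_le_mul_of_nonneg_left e8 (by positivity)
      have e10 : Y * Y ≤ Y * Y ^ 2 := by
        apply mul_le_mul_of_nonneg_left _ hY0
        exact le_self_pow₀ (by linarith) (by norm_num)
      have e11 : κ ^ 2 * (96 * (Y * a ^ 2)) = 96 * Y * (κ ^ 2 * a ^ 2) := by ring
      have e12 : 0 ≤ Y * Y ^ 2 := by positivity
      linarith
    exact (pow_le_pow_iff_left₀ (by positivity) (by positivity) (by norm_num)).1 e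
  have herr : 15 * √Y * m ^ 2 ≤ κ * D / 100 + Y * a ^ 2 / 10 ^ 3 := by
    have e1 : 15 * √Y * m ^ 2 ≤ 15 * √Y * (2 * d ^ 2 + 2 * a ^ 2) :=
      mul_le_mul_of_nonneg_left hm2 (by positivity)
    have e2 : 3000 * √Y * d ^ 2 ≤ κ * d * d ^ 2 := mul_le_mul_of_nonneg_right hsd (by positivity)
    have e3 : κ * d * d ^ 2 = κ * D := by
      rw [← hd3]
      ring
    have e4 : √Y * a ^ 2 ≤ Y / 10 ^ 5 * a ^ 2 := mul_le_mul_of_nonneg_right hsq (by positivity)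
    linarith
  set θ : ℝ := ((i : ℝ) - lev w) / (n + i) with hθ
  have hn1 : (0 : ℝ) < n := by
    by_contra hcon
    push Not at hcon
    have : κ * n ≤ 0 := mul_nonpos_of_nonneg_of_nonpos hκ.le hcon
    linarith
  have hni : (0 : ℝ) < n + i := by linarith
  have hθ0 : 0 ≤ θ := div_nonneg (by linarith) hni.le
  have hθ1 : θ ≤ 1 / 4 := by
    rw [hθ, div_le_iff₀ hni]
    linarith
  -- the contribution of `P`
  have hθb : θ * b ^ 2 ≤ 6 / 10 * a ^ 2 + 101 / 100 * D / b := by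
    have hb0' : 0 < b := by linarith
    have e0 : θ ≤ 101 / 100 * (D + r) / n := by
      rw [hθ, div_le_div_iff₀ hni hn1]
      have e1 : ((i : ℝ) - lev w) * n ≤ (D + r) * n :=
        mul_le_mul_of_nonneg_right (by linarith) hn0
      have e2 : (D + r) * (101 / 100 * n - n) ≥ 0 := mul_nonneg (by linarith) (by linarith)
      have e3 : (D + r) * n ≤ (D + r) * (101 / 100 * (n + i)) := by
        apply mul_le_mul_of_nonneg_left _ (by linarith)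
        linarith
      linarith
    calc θ * b ^ 2 ≤ 101 / 100 * (D + r) / n * b ^ 2 :=
          mul_le_mul_of_nonneg_right e0 (by positivity)
      _ = 101 / 100 * (D + a ^ 3) / b := by
          rw [← hb3, ← ha3]
          field_simp
      _ = 101 / 100 * D / b + 101 / 100 * a ^ 3 / b := by ring
      _ ≤ 6 / 10 * a ^ 2 + 101 / 100 * D / b := by
          have : 101 / 100 * a ^ 3 / b ≤ 6 / 10 * a ^ 2 := by
            rw [div_le_iff₀ hb0']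
            have e1 : a ^ 2 * (2 * a) ≤ a ^ 2 * b := mul_le_mul_of_nonneg_left hab (by positivity)
            have e2 : 0 ≤ a ^ 3 := by positivity
            have e3 : a ^ 2 * (2 * a) = 2 * a ^ 3 := by ring
            linarith
          linarith
  have hYDb : Y * (D / b) ≤ κ * D / 10 ^ 4 := by
    have hb0' : 0 < b := by linarith
    have e1 : (10 : ℝ) ^ 5 * Y ≤ κ * (2 * b) := by
      calc (10 : ℝ) ^ 5 * Y ≤ κ * c * Y := mul_le_mul_of_nonneg_right hkc hY0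
        _ = κ * (c * Y) := by ring
        _ ≤ κ * (2 * b) := mul_le_mul_of_nonneg_left hb2 hκ.le
    rw [← mul_div_assoc, div_le_iff₀ hb0']
    have e2 : (10 : ℝ) ^ 5 * Y * D ≤ κ * (2 * b) * D := mul_le_mul_of_nonneg_right e1 hD0
    have e3 : 0 ≤ κ * D * b := by positivity
    linarith
  have hdP : θ * |dev σ P| ≤ 24 / 10 * (Y * a ^ 2) + κ * D / 100 + 1 := by
    calc θ * |dev σ P| ≤ θ * (4 * Y * b ^ 2 + 1) := by gcongr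
      _ = 4 * Y * (θ * b ^ 2) + θ := by ring
      _ ≤ 4 * Y * (6 / 10 * a ^ 2 + 101 / 100 * D / b) + 1 := by
          have e1 : 4 * Y * (θ * b ^ 2) ≤ 4 * Y * (6 / 10 * a ^ 2 + 101 / 100 * D / b) :=
            mul_le_mul_of_nonneg_left hθb (by positivity)
          linarith
      _ = 24 / 10 * (Y * a ^ 2) + 404 / 100 * (Y * (D / b)) + 1 := by ring
      _ ≤ 24 / 10 * (Y * a ^ 2) + κ * D / 100 + 1 := by
          have : 0 ≤ κ * D := by positivity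
          linarith
  have hdv : 3 / 4 * (κ * D - 1 / 2) ≤ (1 - θ) * |dev σ (i, 0)| := by
    have e1 : 3 / 4 * |dev σ (i, 0)| ≤ (1 - θ) * |dev σ (i, 0)| :=
      mul_le_mul_of_nonneg_right (by linarith) (abs_nonneg _)
    linarith
  have e1 : |(1 - θ) * dev σ (i, 0)| ≤ |dev σ w| +
      |dev σ w - (1 - θ) * dev σ (i, 0) - θ * dev σ P| + |θ * dev σ P| := by
    have e2 : (1 - θ) * dev σ (i, 0) = dev σ w +
      (-(dev σ w - (1 - θ) * dev σ (i, 0) - θ * dev σ P)) + (-(θ * dev σ P)) := by ring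
    calc |(1 - θ) * dev σ (i, 0)| = |dev σ w +
      (-(dev σ w - (1 - θ) * dev σ (i, 0) - θ * dev σ P)) + (-(θ * dev σ P))| := by rw [← e2]
      _ ≤ |dev σ w| + |(-(dev σ w - (1 - θ) * dev σ (i, 0) - θ * dev σ P))| +
          |(-(θ * dev σ P))| := abs_add_three _ _ _
      _ = _ := by rw [abs_neg, abs_neg]
  rw [abs_mul (1 - θ), abs_mul θ, abs_of_nonneg (by linarith : (0:ℝ) ≤ 1 - θ),
    abs_of_nonneg hθ0] at e1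
  linarith

private theorem gb_Tres {ω : ℤ × ℤ → ℝ} {R : Set (ℤ × ℤ)} {u v : ℤ × ℤ} (h : u ≤ v)
    (hω : ∀ z, u ≤ z → z ≤ v → 0 ≤ ω z) (hR : ∀ w, Via ω u w v → w ∈ R) :
    T (res R ω) u v = T ω u v := by
  classical
  set ω' : ℤ × ℤ → ℝ := fun z => max (ω z) 0 with hω'
  have e0 : ∀ z, u ≤ z → z ≤ v → ω z = ω' z := by
    intro z h1 h2
    rw [hω']
    exact (max_eq_left (hω z h1 h2)).symm
  have e1 : ∀ u' v', u ≤ u' → u' ≤ v' → v' ≤ v → T ω u' v' = T ω' u' v' := by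
    intro u' v' h1 h2 h3
    exact T_congr h2 fun z h4 h5 => e0 z (h1.trans h4) (h5.trans h3)
  have e2 : T (res R ω) u v = T (res R ω') u v := by
    refine T_congr h fun z h4 h5 => ?_
    unfold res
    rw [e0 z h4 h5]
  rw [e2, e1 u v le_rfl h le_rfl]
  refine T_res_eq h (fun z => le_max_right _ _) ?_
  intro w hw
  apply hR
  obtain ⟨h1, h2, h3⟩ := hw
  refine ⟨h1, h2, ?_⟩
  rw [e1 u v le_rfl h le_rfl, e1 u w le_rfl h1 h2, e1 w v h1 h2 le_rfl, e0 w h1 h2]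
  exact h3

private theorem gb_nonneg {κ σ lam Y g0 c : ℝ} {n : ℕ} {ω : ℤ × ℤ → ℝ} (hκ : 0 < κ)
    (hc : 10 ^ 5 / κ ^ 2 ≤ c) (h : Par (c ^ 3) κ σ lam Y g0 n)
    (hG : GoodE κ σ lam Y g0 n ω) {P : ℤ × ℤ} (hP : lev P = -(n : ℤ)) {b : ℝ} (hb0 : 0 ≤ b)
    (hb3 : b ^ 3 = n) (hdev : |dev σ P| ≤ 4 * Y * b ^ 2 + 1) {i : ℤ}
    (hi : |(i : ℝ)| ≤ Y * b ^ 2 / 8) (z : ℤ × ℤ) (h1 : P ≤ z) (h2 : z ≤ (i, 0)) : 0 ≤ ω z := by
  obtain ⟨hle, hP1, hP2, -, -, -, -, hi4, -, -, -⟩ := gb_geo hκ hc h hP hb0 hb3 hdev hi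
  have hin : (i : ℝ) ≤ n := by
    have := (abs_le.1 hi4).2
    have hn0 : (0 : ℝ) ≤ n := Nat.cast_nonneg n
    linarith
  have hin' : i ≤ n := by exact_mod_cast hin
  have h3 := h1.1
  have h4 := h1.2
  have h5 := h2.1
  have h6 := h2.2
  simp only at h5 h6
  refine (hG.1.1 z ⟨?_, ?_, ?_, ?_⟩).1
  · push_cast
    omega
  · push_cast
    omega
  · push_cast
    omega
  · push_cast
    omega

private theorem gb_FLp {κ σ lam Y g0 c A : ℝ} {n : ℕ} {ω : ℤ × ℤ → ℝ} (hκ : 0 < κ)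
    (hc : 10 ^ 5 / κ ^ 2 ≤ c) (h : Par (c ^ 3) κ σ lam Y g0 n)
    (hG : GoodE κ σ lam Y g0 n ω) {b : ℝ} (hb0 : 0 ≤ b) (hb3 : b ^ 3 = n)
    (hA0 : 0 ≤ A) (hA : A ≤ 4 * Y * b ^ 2) {R : Set (ℤ × ℤ)} {i : ℤ}
    (hi : |(i : ℝ)| ≤ Y * b ^ 2 / 8)
    (h1 : ∀ P : ℤ × ℤ, lev P = -(n : ℤ) → |dev σ P| ≤ 4 * Y * b ^ 2 + 1 →
      ∀ w, Via ω P w (i, 0) → w ∈ R)
    (h2 : ∀ P : ℤ × ℤ, lev P = -(n : ℤ) → |dev σ P| ≤ 4 * Y * b ^ 2 + 1 →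
      ∀ w, Via (rotE ω) P w (-i, 0) → rot w ∈ R) :
    FLp σ A n (res R ω) i = FLp σ A n ω i ∧ FRp σ A n (res R ω) i = FRp σ A n ω i := by
  have hG' : GoodE κ σ lam Y g0 n (rotE ω) := goodE_rot.2 hG
  have hdL : |dev σ (PLp σ A n)| ≤ 4 * Y * b ^ 2 + 1 := (gb_devPL hA0 n).trans (by linarith)
  have hdR : |dev σ (PRp σ A n)| ≤ 4 * Y * b ^ 2 + 1 := (gb_devPR hA0 n).trans (by linarith)
  have hi' : |((-i : ℤ) : ℝ)| ≤ Y * b ^ 2 / 8 := by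
    push_cast
    rwa [abs_neg]
  have k1 : ∀ P : ℤ × ℤ, lev P = -(n : ℤ) → |dev σ P| ≤ 4 * Y * b ^ 2 + 1 →
      T (res R ω) P (i, 0) = T ω P (i, 0) := by
    intro P hP hdev
    exact gb_Tres (gb_geo hκ hc h hP hb0 hb3 hdev hi).1
      (gb_nonneg hκ hc h hG hP hb0 hb3 hdev hi) (h1 P hP hdev)
  have k2 : ∀ P : ℤ × ℤ, lev P = -(n : ℤ) → |dev σ P| ≤ 4 * Y * b ^ 2 + 1 →
      T (rotE (res R ω)) P (-i, 0) = T (rotE ω) P (-i, 0) := by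
    intro P hP hdev
    rw [res_rotE]
    exact gb_Tres (gb_geo hκ hc h hP hb0 hb3 hdev hi').1
      (gb_nonneg hκ hc h hG' hP hb0 hb3 hdev hi') (h2 P hP hdev)
  unfold FLp FRp
  rw [k1 _ (gb_levPL σ A n) hdL, k1 _ (gb_levPR σ A n) hdR, k2 _ (gb_levPL σ A n) hdL,
    k2 _ (gb_levPR σ A n) hdR]
  exact ⟨rfl, rfl⟩

theorem order {κ : ℝ} (hκ : 0 < κ) : ∃ C0 : ℝ, 1 ≤ C0 ∧ ∀ (σ lam Y g0 : ℝ) (n : ℕ)
    (ω : ℤ × ℤ → ℝ), Par C0 κ σ lam Y g0 n → GoodE κ σ lam Y g0 n ω → ∀ P : ℤ × ℤ,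
    lev P = -(n : ℤ) → |dev σ P| ≤ 4 * Y * (n : ℝ) ^ (2 / 3 : ℝ) + 1 → ∀ r : ℕ, g0 ≤ r →
    8 * r ≤ n → ∀ i j : ℤ, -(Y * (r : ℝ) ^ (2 / 3 : ℝ) / 8) ≤ i → i ≤ j →
    (j : ℝ) ≤ Y * (r : ℝ) ^ (2 / 3 : ℝ) / 8 →
    T ω (PLp σ (4 * Y * (r : ℝ) ^ (2 / 3 : ℝ)) r) (j, 0) -
        T ω (PLp σ (4 * Y * (r : ℝ) ^ (2 / 3 : ℝ)) r) (i, 0) ≤ T ω P (j, 0) - T ω P (i, 0) ∧
      T ω P (j, 0) - T ω P (i, 0) ≤ T ω (PRp σ (4 * Y * (r : ℝ) ^ (2 / 3 : ℝ)) r) (j, 0) -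
        T ω (PRp σ (4 * Y * (r : ℝ) ^ (2 / 3 : ℝ)) r) (i, 0) := by
  obtain ⟨c, hc, hc2, hcore⟩ := gb_core hκ
  refine ⟨c ^ 3, one_le_pow₀ (by linarith), ?_⟩
  intro σ lam Y g0 n ω h hG P hP hdev r hr hrn i j hi hij hj
  obtain ⟨b, hb0, hb3, -, hb2⟩ := gb_cb (Nat.cast_nonneg (α := ℝ) n)
  obtain ⟨a, ha0, ha3, -, ha2⟩ := gb_cb (Nat.cast_nonneg (α := ℝ) r)
  rw [hb2] at hdev
  rw [ha2] at hi hj ⊢
  exact gb_order hκ hc hcore h hG hP hb0 hb3 hdev hr hrn ha0 ha3 hi hij hj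

theorem orderF {κ : ℝ} (hκ : 0 < κ) : ∃ C0 : ℝ, 1 ≤ C0 ∧ ∀ (σ lam Y g0 A : ℝ) (n : ℕ)
    (ω : ℤ × ℤ → ℝ), Par C0 κ σ lam Y g0 n → GoodE κ σ lam Y g0 n ω → 0 ≤ A →
    A ≤ 4 * Y * (n : ℝ) ^ (2 / 3 : ℝ) → ∀ r : ℕ, g0 ≤ r →
    8 * r ≤ n → ∀ i j : ℤ, -(Y * (r : ℝ) ^ (2 / 3 : ℝ) / 8) ≤ i → i ≤ j →
    (j : ℝ) ≤ Y * (r : ℝ) ^ (2 / 3 : ℝ) / 8 →
    FLp σ (4 * Y * (r : ℝ) ^ (2 / 3 : ℝ)) r ω j - FLp σ (4 * Y * (r : ℝ) ^ (2 / 3 : ℝ)) r ω i ≤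
        FLp σ A n ω j - FLp σ A n ω i ∧
      FLp σ A n ω j - FLp σ A n ω i ≤ FRp σ A n ω j - FRp σ A n ω i ∧
      FRp σ A n ω j - FRp σ A n ω i ≤
        FRp σ (4 * Y * (r : ℝ) ^ (2 / 3 : ℝ)) r ω j -
          FRp σ (4 * Y * (r : ℝ) ^ (2 / 3 : ℝ)) r ω i := by
  obtain ⟨c, hc, hc2, hcore⟩ := gb_core hκ
  refine ⟨c ^ 3, one_le_pow₀ (by linarith), ?_⟩
  intro σ lam Y g0 A n ω h hG hA0 hA r hr hrn i j hi hij hj
  obtain ⟨b, hb0, hb3, -, hb2⟩ := gb_cb (Nat.cast_nonneg (α := ℝ) n)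
  obtain ⟨a, ha0, ha3, -, ha2⟩ := gb_cb (Nat.cast_nonneg (α := ℝ) r)
  rw [hb2] at hA
  rw [ha2] at hi hj ⊢
  exact gb_orderF hκ hc hcore h hG hb0 hb3 hA0 hA hr hrn ha0 ha3 hi hij hj

theorem inside {κ : ℝ} (hκ : 0 < κ) : ∃ C0 : ℝ, 1 ≤ C0 ∧ ∀ (σ lam Y g0 : ℝ) (n : ℕ)
    (ω : ℤ × ℤ → ℝ), Par C0 κ σ lam Y g0 n → GoodE κ σ lam Y g0 n ω → ∀ P : ℤ × ℤ,
    lev P = -(n : ℤ) → |dev σ P| ≤ 4 * Y * (n : ℝ) ^ (2 / 3 : ℝ) + 1 → ∀ i : ℤ,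
    |(i : ℝ)| ≤ Y * (n : ℝ) ^ (2 / 3 : ℝ) / 8 → P ≤ (i, 0) ∧
    ∀ w, Via ω P w (i, 0) → w ∈ Rgn σ (6 * (Y * (n : ℝ) ^ (2 / 3 : ℝ))) n := by
  obtain ⟨c, hc, hc2, hcore⟩ := gb_core hκ
  refine ⟨c ^ 3, one_le_pow₀ (by linarith), ?_⟩
  intro σ lam Y g0 n ω h hG P hP hdev i hi
  obtain ⟨b, hb0, hb3, -, hb2⟩ := gb_cb (Nat.cast_nonneg (α := ℝ) n)
  rw [hb2] at hdev hi ⊢
  exact ⟨(gb_geo hκ hc h hP hb0 hb3 hdev hi).1,
    fun w hw => gb_inside hκ hc hcore h hG hP hb0 hb3 hdev hi hw⟩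

theorem avoid {κ : ℝ} (hκ : 0 < κ) : ∃ C0 : ℝ, 1 ≤ C0 ∧ ∀ (σ lam Y g0 : ℝ) (n : ℕ)
    (ω : ℤ × ℤ → ℝ), Par C0 κ σ lam Y g0 n → GoodE κ σ lam Y g0 n ω → ∀ P : ℤ × ℤ,
    lev P = -(n : ℤ) → |dev σ P| ≤ 4 * Y * (n : ℝ) ^ (2 / 3 : ℝ) + 1 → ∀ r : ℕ, g0 ≤ r →
    8 * r ≤ n → ∀ i : ℤ, |(i : ℝ)| ≤ Y * (n : ℝ) ^ (2 / 3 : ℝ) / 8 →
    96 / κ * Y * (r : ℝ) ^ (2 / 3 : ℝ) ≤ |(i : ℝ)| →
    ∀ w, Via ω P w (i, 0) → w ∉ Rgn σ (6 * (Y * (r : ℝ) ^ (2 / 3 : ℝ))) r := by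
  obtain ⟨c, hc, hc2, hcore⟩ := gb_core hκ
  refine ⟨c ^ 3, one_le_pow₀ (by linarith), ?_⟩
  intro σ lam Y g0 n ω h hG P hP hdev r hr hrn i hi hbi w hw
  obtain ⟨b, hb0, hb3, -, hb2⟩ := gb_cb (Nat.cast_nonneg (α := ℝ) n)
  obtain ⟨a, ha0, ha3, -, ha2⟩ := gb_cb (Nat.cast_nonneg (α := ℝ) r)
  rw [hb2] at hdev hi
  rw [ha2] at hbi ⊢
  rw [mul_assoc] at hbi
  exact gb_avoid hκ hc hcore h hG hP hb0 hb3 hdev hr hrn ha0 ha3 hi hbi hw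

theorem FLp_res {κ : ℝ} (hκ : 0 < κ) : ∃ C0 : ℝ, 1 ≤ C0 ∧ ∀ (σ lam Y g0 A : ℝ) (n : ℕ)
    (ω : ℤ × ℤ → ℝ), Par C0 κ σ lam Y g0 n → GoodE κ σ lam Y g0 n ω → 0 ≤ A →
    A ≤ 4 * Y * (n : ℝ) ^ (2 / 3 : ℝ) → ∀ r : ℕ, g0 ≤ r → 8 * r ≤ n → ∀ R : Set (ℤ × ℤ),
    Rgn σ (6 * (Y * (n : ℝ) ^ (2 / 3 : ℝ))) n \ Rgn σ (6 * (Y * (r : ℝ) ^ (2 / 3 : ℝ))) r ⊆ R →
    ∀ i : ℤ, |(i : ℝ)| ≤ Y * (n : ℝ) ^ (2 / 3 : ℝ) / 8 →
    96 / κ * Y * (r : ℝ) ^ (2 / 3 : ℝ) ≤ |(i : ℝ)| →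
    FLp σ A n (res R ω) i = FLp σ A n ω i ∧ FRp σ A n (res R ω) i = FRp σ A n ω i := by
  obtain ⟨c, hc, hc2, hcore⟩ := gb_core hκ
  refine ⟨c ^ 3, one_le_pow₀ (by linarith), ?_⟩
  intro σ lam Y g0 A n ω h hG hA0 hA r hr hrn R hR i hi hbi
  obtain ⟨b, hb0, hb3, -, hb2⟩ := gb_cb (Nat.cast_nonneg (α := ℝ) n)
  obtain ⟨a, ha0, ha3, -, ha2⟩ := gb_cb (Nat.cast_nonneg (α := ℝ) r)
  rw [hb2] at hA hi hR
  rw [ha2] at hbi hR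
  rw [mul_assoc] at hbi
  have hG' : GoodE κ σ lam Y g0 n (rotE ω) := goodE_rot.2 hG
  have hi' : |((-i : ℤ) : ℝ)| ≤ Y * b ^ 2 / 8 := by
    push_cast
    rwa [abs_neg]
  have hbi' : 96 / κ * (Y * a ^ 2) ≤ |((-i : ℤ) : ℝ)| := by
    push_cast
    rwa [abs_neg]
  refine gb_FLp hκ hc h hG hb0 hb3 hA0 hA hi ?_ ?_
  · intro P hP hdev w hw
    exact hR ⟨gb_inside hκ hc hcore h hG hP hb0 hb3 hdev hi hw,
      gb_avoid hκ hc hcore h hG hP hb0 hb3 hdev hr hrn ha0 ha3 hi hbi hw⟩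
  · intro P hP hdev w hw
    refine hR ⟨rgn_rot.2 (gb_inside hκ hc hcore h hG' hP hb0 hb3 hdev hi' hw), fun hcon => ?_⟩
    exact gb_avoid hκ hc hcore h hG' hP hb0 hb3 hdev hr hrn ha0 ha3 hi' hbi' hw (rgn_rot.1 hcon)

theorem FLp_res0 {κ : ℝ} (hκ : 0 < κ) : ∃ C0 : ℝ, 1 ≤ C0 ∧ ∀ (σ lam Y g0 A : ℝ) (n : ℕ)
    (ω : ℤ × ℤ → ℝ), Par C0 κ σ lam Y g0 n → GoodE κ σ lam Y g0 n ω → 0 ≤ A →
    A ≤ 4 * Y * (n : ℝ) ^ (2 / 3 : ℝ) → ∀ R : Set (ℤ × ℤ),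
    Rgn σ (6 * (Y * (n : ℝ) ^ (2 / 3 : ℝ))) n ⊆ R →
    ∀ i : ℤ, |(i : ℝ)| ≤ Y * (n : ℝ) ^ (2 / 3 : ℝ) / 8 →
    FLp σ A n (res R ω) i = FLp σ A n ω i ∧ FRp σ A n (res R ω) i = FRp σ A n ω i := by
  obtain ⟨c, hc, hc2, hcore⟩ := gb_core hκ
  refine ⟨c ^ 3, one_le_pow₀ (by linarith), ?_⟩
  intro σ lam Y g0 A n ω h hG hA0 hA R hR i hi
  obtain ⟨b, hb0, hb3, -, hb2⟩ := gb_cb (Nat.cast_nonneg (α := ℝ) n)
  rw [hb2] at hA hi hR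
  have hG' : GoodE κ σ lam Y g0 n (rotE ω) := goodE_rot.2 hG
  have hi' : |((-i : ℤ) : ℝ)| ≤ Y * b ^ 2 / 8 := by
    push_cast
    rwa [abs_neg]
  refine gb_FLp hκ hc h hG hb0 hb3 hA0 hA hi ?_ ?_
  · intro P hP hdev w hw
    exact hR (gb_inside hκ hc hcore h hG hP hb0 hb3 hdev hi hw)
  · intro P hP hdev w hw
    exact hR (rgn_rot.2 (gb_inside hκ hc hcore h hG' hP hb0 hb3 hdev hi' hw))

end BGE
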