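import Pool.Agent.BGE.StatA
import Pool.Agent.BGE.WalkMax
import Pool.Agent.BGE.Meas

/-!
BGE / S7. Near record and closeness or different slopes (static estimates ST2, ST3).

Proof of `st2`. `to_walk` with `I = K + N`. Let `α = rA`, `β = rB`, `γ = α - β = 2 B Y n^{-1/3}`.
`Q` is the union of
(i) `{stR ∈ Stay s N, ∃ m ∈ [k, 4k], Sw (stR) m ≥ -b, stL ∈ Stay s N}`,
(ii) `{stR ∈ Stay s N, stL ∈ Stay s N, K_q/γ ≤ ζ or K_q'/γ ≤ ζ}` (`K_q, K_q'` the last components),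
(iii) `{M > ζ or M' > ζ}` where `M` is the maximum over `1 ≤ j ≤ K + 4k` of
`∑_{u ≤ j} bp u/β - ∑_{u < j} ap u/α` for `c.1` and `M'` the maximum of
`∑_{u ≤ j} bm' u/β - ∑_{u < j} am' u/α` for `c.2`.
If (ii), (iii) do not occur then the no-idle conditions hold up to `K + 4k` and
`FLp (K+m) - FLp K = Sw (stR) m` for `m ≤ 4k`, so closeness gives (i). The walks stay `≤ s` as in ST1.
Probabilities: (i) `persist_close` for `k` and for `2k` (`16 k ≤ N`) and `persist` for the left walk;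
(ii) `walk_pair_K` and `persist`; (iii) `walk_max` for the two centred sums with `z = ζ/4`
(rates in `[κ/4, 1]`, `K + 4k ≤ 5k` terms, `ζ ≤ k`); the drift `5k (1/β - 1/α) ≤ C k Y n^{-1/3} ≤ ζ/4`
because `C0 Y² (K+N) ≤ n^{2/3}`, `16 k ≤ N`, `√k ≤ ζ`.
`st3`: the same with (ii), (iii) only: if they do not occur then
`dT ω PL i = dT ω PR i` and `dT (rotE ω) PR (1-i) = dT (rotE ω) PL (1-i)` for `1 ≤ i ≤ K + 4k`, so
the increments of `FLp` and `FRp` at `i` coincide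
(`FRp i - FRp (i-1) = dT ω PR i - dT (rotE ω) PL (1-i)`).
-/

namespace BGE

open MeasureTheory ProbabilityTheory


/-! ### The sets -/

/-- the walk comes back -/
def scBack (k : ℕ) (b : ℝ) : Set (ℕ → ℝ) := {x | ∃ i, k ≤ i ∧ i ≤ 4 * k ∧ -b ≤ Sw x i}

def scQA (α β : ℝ) (K k N : ℕ) (s b : ℝ) : Set (BN × BN) :=
  {c | stR α β K c ∈ Stay s N ∩ scBack k b ∧ stL α β K c ∈ Stay s N}

def scQB (α β γ : ℝ) (K N : ℕ) (s ζ : ℝ) : Set (BN × BN) :=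
  {c | stR α β K c ∈ Stay s N ∧ stL α β K c ∈ Stay s N ∧
      (c.1.2.2.2.2 / γ ≤ ζ ∨ c.2.2.2.2.2 / γ ≤ ζ)}

/-- the event of a large centred maximum -/
def scM (α β : ℝ) (J : ℕ) (ζ : ℝ) : Set ((ℕ → ℝ) × (ℕ → ℝ)) :=
  {p | ∃ j : ℕ, 1 ≤ j ∧ j ≤ J ∧
    ζ < (∑ u ∈ Finset.Icc 1 j, p.1 u / β) - (∑ u ∈ Finset.Ico 1 j, p.2 u / α)}

def scQC (α β : ℝ) (J : ℕ) (ζ : ℝ) : Set (BN × BN) :=
  {c | (c.1.2.1, c.1.1) ∈ scM α β J ζ ∨ (c.2.2.2.2.1, c.2.2.2.1) ∈ scM α β J ζ}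

theorem scBack_meas (k : ℕ) (b : ℝ) : MeasurableSet (scBack k b) := by
  have e : scBack k b = ⋃ i ∈ Finset.Icc k (4 * k), {x : ℕ → ℝ | -b ≤ Sw x i} := by
    ext x
    simp only [scBack, Set.mem_ofPred_eq, Set.mem_iUnion, Finset.mem_Icc, exists_prop, and_assoc]
  rw [e]
  exact Finset.measurableSet_biUnion _ fun i _ => measurableSet_le measurable_const (wSw_meas i)

theorem scM_meas (α β : ℝ) (J : ℕ) (ζ : ℝ) : MeasurableSet (scM α β J ζ) := by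
  have e : scM α β J ζ = ⋃ j ∈ Finset.Icc 1 J, {p : (ℕ → ℝ) × (ℕ → ℝ) |
      ζ < (∑ u ∈ Finset.Icc 1 j, p.1 u / β) - (∑ u ∈ Finset.Ico 1 j, p.2 u / α)} := by
    ext x
    simp only [scM, Set.mem_ofPred_eq, Set.mem_iUnion, Finset.mem_Icc, exists_prop, and_assoc]
  rw [e]
  refine Finset.measurableSet_biUnion _ fun j _ => measurableSet_lt measurable_const ?_
  refine Measurable.sub ?_ ?_
  · exact Finset.measurable_sum _ fun i _ => by fun_prop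
  · exact Finset.measurable_sum _ fun i _ => by fun_prop

theorem stR_meas (α β : ℝ) (K : ℕ) : Measurable (stR α β K) := by
  refine measurable_pi_iff.2 fun i => ?_
  unfold stR
  fun_prop

theorem stL_meas (α β : ℝ) (K : ℕ) : Measurable (stL α β K) := by
  refine measurable_pi_iff.2 fun i => ?_
  unfold stL
  fun_prop

theorem scQA_meas (α β : ℝ) (K k N : ℕ) (s b : ℝ) : MeasurableSet (scQA α β K k N s b) :=
  ((stR_meas α β K) ((wstay_meas s N).inter (scBack_meas k b))).inter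
    ((stL_meas α β K) (wstay_meas s N))

theorem scQB_meas (α β γ : ℝ) (K N : ℕ) (s ζ : ℝ) : MeasurableSet (scQB α β γ K N s ζ) := by
  refine ((stR_meas α β K) (wstay_meas s N)).inter
    (((stL_meas α β K) (wstay_meas s N)).inter ?_)
  refine MeasurableSet.union ?_ ?_
  · exact measurableSet_le (show Measurable (fun c : BN × BN => c.1.2.2.2.2 / γ) by fun_prop)
      measurable_const
  · exact measurableSet_le (show Measurable (fun c : BN × BN => c.2.2.2.2.2 / γ) by fun_prop)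
      measurable_const

theorem scQC_meas (α β : ℝ) (J : ℕ) (ζ : ℝ) : MeasurableSet (scQC α β J ζ) := by
  refine MeasurableSet.union ?_ ?_
  · exact (show Measurable (fun c : BN × BN => (c.1.2.1, c.1.1)) by fun_prop) (scM_meas α β J ζ)
  · exact (show Measurable (fun c : BN × BN => (c.2.2.2.2.1, c.2.2.2.1)) by fun_prop)
      (scM_meas α β J ζ)

/-! ### The deterministic part -/

theorem Sw_stR {α β : ℝ} {K : ℕ} {c : BN × BN} (m : ℕ) :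
    Sw (stR α β K c) m = ∑ i ∈ Finset.range m, (c.1.1 (K + i + 1) / α -
      c.2.2.2.2.1 (K + i + 1) / β) := rfl

theorem tele (F : ℤ → ℝ) (K m : ℕ) :
    ∑ i ∈ Finset.range m, (F ((K + i + 1 : ℕ) : ℤ) - F (((K + i + 1 : ℕ) : ℤ) - 1)) =
      F ((K + m : ℕ) : ℤ) - F (K : ℤ) := by
  induction m with
  | zero => simp
  | succ m ih =>
    rw [Finset.sum_range_succ, ih]
    have e : (((K + m + 1 : ℕ) : ℤ) - 1) = ((K + m : ℕ) : ℤ) := by push_cast; ring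
    have e2 : ((K + (m + 1) : ℕ) : ℤ) = ((K + m + 1 : ℕ) : ℤ) := by push_cast; ring
    rw [e, e2]
    ring

theorem sc_stay {σ B Y A : ℝ} {n K N : ℕ} {s : ℝ} {ω : ℤ × ℤ → ℝ} {c : BN × BN} (hs : 0 ≤ s)
    (h1 : CRel σ B Y A n (K + N) ω c.1) (h2 : CRel σ B Y A n (K + N) (rotE ω) c.2)
    (hN : NR σ A n K (K + N) s ω) :
    stR (rA σ B Y n) (rB σ B Y n) K c ∈ Stay s N ∧
      stL (rA σ B Y n) (rB σ B Y n) K c ∈ Stay s N := by
  constructor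
  · intro m hm
    rcases Nat.eq_zero_or_pos m with rfl | hm0
    · simpa [Sw] using hs
    refine le_trans ?_ ((hN ((K + m : ℕ) : ℤ) (by push_cast; omega) (by push_cast; omega)).1)
    rw [← tele (fun i => FLp σ A n ω i) K m]
    refine Finset.sum_le_sum fun i hi => ?_
    rw [Finset.mem_range] at hi
    have e := FLp_succ σ A n ω ((K + i + 1 : ℕ) : ℤ)
    have k1 := h1.1 (K + i + 1) (by omega) (by omega)
    have k2 := h2.2.1 (K + i + 1) (by omega) (by omega)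
    rw [e]
    unfold stR
    linarith
  · intro m hm
    rcases Nat.eq_zero_or_pos m with rfl | hm0
    · simpa [Sw] using hs
    refine le_trans ?_ ((hN ((K + m : ℕ) : ℤ) (by push_cast; omega) (by push_cast; omega)).2)
    rw [← tele (fun i => FRp σ A n ω (-i)) K m]
    refine Finset.sum_le_sum fun i hi => ?_
    rw [Finset.mem_range] at hi
    have e := FRp_succ σ A n ω ((K + i + 1 : ℕ) : ℤ)
    have k1 := h2.1 (K + i + 1) (by omega) (by omega)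
    have k2 := h1.2.1 (K + i + 1) (by omega) (by omega)
    show _ ≤ FRp σ A n ω (-((K + i + 1 : ℕ) : ℤ)) - FRp σ A n ω (-(((K + i + 1 : ℕ) : ℤ) - 1))
    rw [e]
    unfold stL
    linarith

theorem sc_noidle {σ B Y A : ℝ} {n I J : ℕ} {ζ : ℝ} {ω : ℤ × ℤ → ℝ} {c : BN × BN}
    (h1 : CRel σ B Y A n I ω c.1) (h2 : CRel σ B Y A n I (rotE ω) c.2) (hJ : J ≤ I)
    (hC : c ∉ scQC (rA σ B Y n) (rB σ B Y n) J ζ)
    (hK1 : ζ < c.1.2.2.2.2 / (rA σ B Y n - rB σ B Y n))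
    (hK2 : ζ < c.2.2.2.2.2 / (rA σ B Y n - rB σ B Y n)) :
    ∀ i : ℕ, 1 ≤ i → i ≤ J →
      (dT ω (PLp σ A n) i = c.1.1 i / rA σ B Y n ∧ dT ω (PRp σ A n) i = c.1.1 i / rA σ B Y n) ∧
      (dT (rotE ω) (PLp σ A n) (1 - i) = c.2.2.2.2.1 i / rB σ B Y n ∧
        dT (rotE ω) (PRp σ A n) (1 - i) = c.2.2.2.2.1 i / rB σ B Y n) := by
  simp only [scQC, scM, Set.mem_ofPred_eq, not_or, not_exists, not_and, not_lt] at hC
  obtain ⟨hC1, hC2⟩ := hC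
  intro i hi1 hiJ
  refine ⟨h1.2.2.2.1 J hJ (fun j hj1 hjJ => (hC1 j hj1 hjJ).trans hK1.le) i hi1 hiJ,
    h2.2.2.2.2 J hJ (fun j hj1 hjJ => (hC2 j hj1 hjJ).trans hK2.le) i hi1 hiJ⟩

theorem FRp_succ' (σ A : ℝ) (n : ℕ) (ω : ℤ × ℤ → ℝ) (i : ℤ) :
    FRp σ A n ω i - FRp σ A n ω (i - 1) =
      dT ω (PRp σ A n) i - dT (rotE ω) (PLp σ A n) (1 - i) := by
  unfold FRp dT
  have e1 : (-(i - 1) : ℤ) = 1 - i := by ring
  have e2 : (1 - i - 1 : ℤ) = -i := by ring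
  rw [e1, e2]
  ring

theorem sc_clo {σ B Y A : ℝ} {n K k N : ℕ} {s b ζ : ℝ} {ω : ℤ × ℤ → ℝ} {c : BN × BN} (hs : 0 ≤ s)
    (hkN : 4 * k ≤ N)
    (h1 : CRel σ B Y A n (K + N) ω c.1) (h2 : CRel σ B Y A n (K + N) (rotE ω) c.2)
    (hN : NR σ A n K (K + N) s ω) (hC : Clo σ A n K k b ω) :
    c ∈ scQA (rA σ B Y n) (rB σ B Y n) K k N s b ∪
      (scQB (rA σ B Y n) (rB σ B Y n) (rA σ B Y n - rB σ B Y n) K N s ζ ∪
        scQC (rA σ B Y n) (rB σ B Y n) (K + 4 * k) ζ) := by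
  obtain ⟨hR, hL⟩ := sc_stay hs h1 h2 hN
  by_cases hq : c ∈ scQC (rA σ B Y n) (rB σ B Y n) (K + 4 * k) ζ
  · exact Or.inr (Or.inr hq)
  by_cases hK : c.1.2.2.2.2 / (rA σ B Y n - rB σ B Y n) ≤ ζ ∨
      c.2.2.2.2.2 / (rA σ B Y n - rB σ B Y n) ≤ ζ
  · exact Or.inr (Or.inl ⟨hR, hL, hK⟩)
  push Not at hK
  left
  refine ⟨⟨hR, ?_⟩, hL⟩
  obtain ⟨i, hi1, hi2, hi3⟩ := hC
  obtain ⟨m, rfl⟩ : ∃ m : ℕ, i = ((K + m : ℕ) : ℤ) := ⟨(i - K).toNat, by push_cast; omega⟩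
  have hm1 : k ≤ m := by push_cast at hi1; omega
  have hm2 : m ≤ 4 * k := by push_cast at hi2; omega
  refine ⟨m, hm1, hm2, hi3.trans (le_of_eq ?_)⟩
  rw [← tele (fun i => FLp σ A n ω i) K m]
  refine Finset.sum_congr rfl fun i hi => ?_
  rw [Finset.mem_range] at hi
  have e := FLp_succ σ A n ω ((K + i + 1 : ℕ) : ℤ)
  have h := sc_noidle h1 h2 (J := K + 4 * k) (by omega) hq hK.1 hK.2 (K + i + 1) (by omega)
    (by omega)
  rw [e, h.1.1, h.2.2]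
  rfl

theorem sc_wd {σ B Y A : ℝ} {n K k N : ℕ} {s ζ : ℝ} {ω : ℤ × ℤ → ℝ} {c : BN × BN} (hs : 0 ≤ s)
    (hkN : 4 * k ≤ N)
    (h1 : CRel σ B Y A n (K + N) ω c.1) (h2 : CRel σ B Y A n (K + N) (rotE ω) c.2)
    (hN : NR σ A n K (K + N) s ω) (hC : Wd σ A n K (4 * k) ω) :
    c ∈ scQB (rA σ B Y n) (rB σ B Y n) (rA σ B Y n - rB σ B Y n) K N s ζ ∪
        scQC (rA σ B Y n) (rB σ B Y n) (K + 4 * k) ζ := by
  obtain ⟨hR, hL⟩ := sc_stay hs h1 h2 hN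
  by_cases hq : c ∈ scQC (rA σ B Y n) (rB σ B Y n) (K + 4 * k) ζ
  · exact Or.inr hq
  by_cases hK : c.1.2.2.2.2 / (rA σ B Y n - rB σ B Y n) ≤ ζ ∨
      c.2.2.2.2.2 / (rA σ B Y n - rB σ B Y n) ≤ ζ
  · exact Or.inl ⟨hR, hL, hK⟩
  push Not at hK
  exfalso
  obtain ⟨i, hi1, hi2, hi3⟩ := hC
  obtain ⟨m, rfl⟩ : ∃ m : ℕ, i = (m : ℤ) := ⟨i.toNat, by omega⟩
  have h := sc_noidle h1 h2 (J := K + 4 * k) (by omega) hq hK.1 hK.2 m (by omega) (by omega)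
  rw [FLp_succ, FRp_succ', h.1.1, h.1.2, h.2.1, h.2.2] at hi3
  exact lt_irrefl _ hi3

/-! ### Probabilities -/

theorem mp_bn1 : MeasurePreserving (fun b : BN => b.1) muBN (PI ℕ) := by
  unfold muBN
  exact measurePreserving_fst

theorem mp_bn2 : MeasurePreserving (fun b : BN => b.2.1) muBN (PI ℕ) := by
  unfold muBN
  exact measurePreserving_fst.comp measurePreserving_snd

theorem mp_bn3 : MeasurePreserving (fun b : BN => b.2.2.1) muBN (PI ℕ) := by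
  unfold muBN
  exact (measurePreserving_fst.comp measurePreserving_snd).comp measurePreserving_snd

theorem mp_bn4 : MeasurePreserving (fun b : BN => b.2.2.2.1) muBN (PI ℕ) := by
  unfold muBN
  exact ((measurePreserving_fst.comp measurePreserving_snd).comp measurePreserving_snd).comp
    measurePreserving_snd

/-- a large deviation of the centred sums -/
def scD (a z : ℝ) (w : ℕ) : Set (ℕ → ℝ) :=
  {x : ℕ → ℝ | ∃ k : ℕ, k ≤ w ∧ z ≤ |∑ i ∈ Finset.Icc 1 k, (x i / a - 1 / a)|}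

theorem scD_meas (a z : ℝ) (w : ℕ) : MeasurableSet (scD a z w) := by
  have e : scD a z w = ⋃ k ∈ Finset.range (w + 1),
      {x : ℕ → ℝ | z ≤ |∑ i ∈ Finset.Icc 1 k, (x i / a - 1 / a)|} := by
    ext x
    simp only [scD, Set.mem_ofPred_eq, Set.mem_iUnion, Finset.mem_range, exists_prop]
    constructor
    · rintro ⟨k, h1, h2⟩
      exact ⟨k, by omega, h2⟩
    · rintro ⟨k, h1, h2⟩
      exact ⟨k, by omega, h2⟩
  rw [e]
  refine Finset.measurableSet_biUnion _ fun k _ => measurableSet_le measurable_const ?_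
  refine Measurable.abs ?_
  exact Finset.measurable_sum _ fun i _ => by fun_prop

/-- a large maximum forces a large deviation of one of the two sums -/
theorem scM_sub {α β ζ : ℝ} {J w : ℕ} (hJ : J ≤ w)
    (hd : 1 / α + w * |1 / α - 1 / β| ≤ ζ / 2) {p : (ℕ → ℝ) × (ℕ → ℝ)} (hp : p ∈ scM α β J ζ) :
    p.1 ∈ scD β (ζ / 4) w ∨ p.2 ∈ scD α (ζ / 4) w := by
  obtain ⟨j, hj1, hjJ, hj⟩ := hp
  by_contra hcon
  push Not at hcon
  obtain ⟨h1, h2⟩ := hcon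
  simp only [scD, Set.mem_ofPred_eq, not_exists, not_and, not_le] at h1 h2
  have k1 := h1 j (hjJ.trans hJ)
  have k2 := h2 (j - 1) (by omega)
  have e1 : ∑ i ∈ Finset.Icc 1 j, (p.1 i / β - 1 / β) =
      (∑ i ∈ Finset.Icc 1 j, p.1 i / β) - j * (1 / β) := by
    rw [Finset.sum_sub_distrib]
    simp
  have e2 : ∑ i ∈ Finset.Icc 1 (j - 1), (p.2 i / α - 1 / α) =
      (∑ i ∈ Finset.Ico 1 j, p.2 i / α) - (j - 1) * (1 / α) := by
    rw [Finset.sum_sub_distrib]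
    have : Finset.Icc 1 (j - 1) = Finset.Ico 1 j := by
      ext x
      simp only [Finset.mem_Icc, Finset.mem_Ico]
      omega
    rw [this]
    simp
    left
    rw [Nat.cast_sub hj1]
    simp
  rw [e1] at k1
  rw [e2] at k2
  have k3 := (abs_lt.1 k1).2
  have k4 := (abs_lt.1 k2).1
  have hj' : (j : ℝ) ≤ w := by exact_mod_cast hjJ.trans hJ
  have k5 : (j : ℝ) * (1 / β - 1 / α) ≤ w * |1 / α - 1 / β| := by
    calc (j : ℝ) * (1 / β - 1 / α) ≤ j * |1 / α - 1 / β| := by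
          apply mul_le_mul_of_nonneg_left _ (Nat.cast_nonneg j)
          rw [abs_sub_comm]
          exact le_abs_self _
      _ ≤ _ := mul_le_mul_of_nonneg_right hj' (abs_nonneg _)
  nlinarith

theorem scQC_prob {α β ζ : ℝ} {J w : ℕ} (hJ : J ≤ w) (hα : 0 < α) (hβ : 0 < β) (hα1 : α ≤ 1)
    (hβ1 : β ≤ 1) {a : ℝ} (ha : 0 < a) (haα : a ≤ α) (haβ : a ≤ β)
    (hζ : 0 < ζ) (hζw : ζ ≤ w)
    (hd : 1 / α + w * |1 / α - 1 / β| ≤ ζ / 2) :
    (muBN.prod muBN).real (scQC α β J ζ) ≤ 8 * Real.exp (-(a ^ 2 * ζ ^ 2 / (64 * w))) := by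
  have hw0 : (0 : ℝ) < w := lt_of_lt_of_le hζ hζw
  have hb : ∀ ρ : ℝ, 0 < ρ → ρ ≤ 1 → a ≤ ρ →
      (PI ℕ).real (scD ρ (ζ / 4) w) ≤ 2 * Real.exp (-(a ^ 2 * ζ ^ 2 / (64 * w))) := by
    intro ρ hρ hρ1 haρ
    have := walk_max (a := ρ) (z := ζ / 4) hρ (by positivity) w (by nlinarith)
    refine this.trans ?_
    refine mul_le_mul_of_nonneg_left (Real.exp_le_exp.2 ?_) (by norm_num)
    rw [neg_le_neg_iff]
    have e : ρ ^ 2 * (ζ / 4) ^ 2 / (4 * w) = ρ ^ 2 * ζ ^ 2 / (64 * w) := by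
      field_simp
      ring
    rw [e]
    gcongr
  have hsub : scQC α β J ζ ⊆
      (((fun c : BN × BN => c.1.2.1) ⁻¹' scD β (ζ / 4) w ∪
        (fun c : BN × BN => c.1.1) ⁻¹' scD α (ζ / 4) w) ∪
      ((fun c : BN × BN => c.2.2.2.2.1) ⁻¹' scD β (ζ / 4) w ∪
        (fun c : BN × BN => c.2.2.2.1) ⁻¹' scD α (ζ / 4) w)) := by
    rintro c (hc | hc)
    · left
      exact scM_sub hJ hd hc
    · right
      exact scM_sub hJ hd hc
  have m1 : (muBN.prod muBN).real ((fun c : BN × BN => c.1.2.1) ⁻¹' scD β (ζ / 4) w) =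
      (PI ℕ).real (scD β (ζ / 4) w) := by
    have := (mp_bn2.comp (measurePreserving_fst (μ := muBN) (ν := muBN))).measure_preimage
      (scD_meas β (ζ / 4) w).nullMeasurableSet
    simp only [Measure.real]
    rw [← this]
    rfl
  have m2 : (muBN.prod muBN).real ((fun c : BN × BN => c.1.1) ⁻¹' scD α (ζ / 4) w) =
      (PI ℕ).real (scD α (ζ / 4) w) := by
    have := (mp_bn1.comp (measurePreserving_fst (μ := muBN) (ν := muBN))).measure_preimage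
      (scD_meas α (ζ / 4) w).nullMeasurableSet
    simp only [Measure.real]
    rw [← this]
    rfl
  have m3 : (muBN.prod muBN).real ((fun c : BN × BN => c.2.2.2.2.1) ⁻¹' scD β (ζ / 4) w) =
      (PI ℕ).real (scD β (ζ / 4) w) := by
    have := (mp_bn4.comp (measurePreserving_snd (μ := muBN) (ν := muBN))).measure_preimage
      (scD_meas β (ζ / 4) w).nullMeasurableSet
    simp only [Measure.real]
    rw [← this]
    rfl
  have m4 : (muBN.prod muBN).real ((fun c : BN × BN => c.2.2.2.1) ⁻¹' scD α (ζ / 4) w) =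
      (PI ℕ).real (scD α (ζ / 4) w) := by
    have := (mp_bn3.comp (measurePreserving_snd (μ := muBN) (ν := muBN))).measure_preimage
      (scD_meas α (ζ / 4) w).nullMeasurableSet
    simp only [Measure.real]
    rw [← this]
    rfl
  have b1 := hb β hβ hβ1 haβ
  have b2 := hb α hα hα1 haα
  calc (muBN.prod muBN).real (scQC α β J ζ) ≤ _ := measureReal_mono hsub (measure_ne_top _ _)
    _ ≤ _ := measureReal_union_le _ _
    _ ≤ _ := add_le_add (measureReal_union_le _ _) (measureReal_union_le _ _)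
    _ ≤ _ := by
        rw [m1, m2, m3, m4]
        linarith

theorem scQA_prob {κ : ℝ} (hκ : 0 < κ) : ∃ C c₁ : ℝ, 0 < C ∧ 0 < c₁ ∧ ∀ p q : ℝ,
    κ ≤ p → p ≤ 1 → κ ≤ q → q ≤ 1 → ∀ K k N : ℕ, 1 ≤ k → 16 * k ≤ N →
    |1 / p - 1 / q| * √N ≤ c₁ → ∀ s b : ℝ, 0 ≤ s → 0 ≤ b →
    (muBN.prod muBN).real (scQA p q K k N s b) ≤
      C * ((s + 1) ^ 2 * (s + b + 1) / (N * √k)) := by
  obtain ⟨C, c₁, hC, hc₁, H⟩ := persist hκ
  obtain ⟨C', c₁', hC', hc₁', H'⟩ := persist_close hκ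
  refine ⟨2 * C' * C, min c₁ c₁', by positivity, lt_min hc₁ hc₁', ?_⟩
  intro p q hp hp1 hq hq1 K k N hk hN hm s b hs hb
  have hkr : (1 : ℝ) ≤ k := by exact_mod_cast hk
  have hNr : (16 * k : ℝ) ≤ N := by exact_mod_cast hN
  have hsk : 0 < √(k : ℝ) := Real.sqrt_pos.2 (by linarith)
  have hsN : 0 < √(N : ℝ) := Real.sqrt_pos.2 (by linarith)
  have e1 := (H p q hp hp1 hq hq1 N (by omega) (hm.trans (min_le_left _ _)) s hs).1
  have e2 := H' p q hp hp1 hq hq1 k N hk (by omega) (hm.trans (min_le_right _ _)) s b hs hb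
  have e3 := H' p q hp hp1 hq hq1 (2 * k) N (by omega) (by omega) (hm.trans (min_le_right _ _))
    s b hs hb
  have e4 : C' * (s + 1) * (s + b + 1) / (√((2 * k : ℕ) : ℝ) * √N) ≤
      C' * (s + 1) * (s + b + 1) / (√k * √N) := by
    apply div_le_div_of_nonneg_left (by positivity) (by positivity)
    apply mul_le_mul_of_nonneg_right _ hsN.le
    apply Real.sqrt_le_sqrt
    push_cast
    linarith
  have hsub : Stay s N ∩ scBack k b ⊆
      (Stay s N ∩ {x | ∃ i, k ≤ i ∧ i ≤ 2 * k ∧ -b ≤ Sw x i}) ∪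
      (Stay s N ∩ {x | ∃ i, 2 * k ≤ i ∧ i ≤ 2 * (2 * k) ∧ -b ≤ Sw x i}) := by
    rintro x ⟨hx, i, hi1, hi2, hi3⟩
    rcases le_total i (2 * k) with h | h
    · exact Or.inl ⟨hx, i, hi1, h, hi3⟩
    · exact Or.inr ⟨hx, i, h, by omega, hi3⟩
  have e5 : (walkM p q).real (Stay s N ∩ scBack k b) ≤
      2 * (C' * (s + 1) * (s + b + 1) / (√k * √N)) := by
    calc _ ≤ _ := measureReal_mono hsub (measure_ne_top _ _)
      _ ≤ _ := measureReal_union_le _ _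
      _ ≤ _ := by linarith
  have e6 : (muBN.prod muBN).real (scQA p q K k N s b) =
      (walkM p q).real (Stay s N ∩ scBack k b) * (walkM p q).real (Stay s N) := by
    have := walk_pair p q K ((wstay_meas s N).inter (scBack_meas k b)) (wstay_meas s N)
    simp only [Measure.real, scQA]
    rw [this, ENNReal.toReal_mul]
  rw [e6]
  calc _ ≤ (2 * (C' * (s + 1) * (s + b + 1) / (√k * √N))) * (C * (s + 1) / √N) :=
        mul_le_mul e5 e1 measureReal_nonneg (by positivity)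
    _ = _ := by
        have hNN : (N : ℝ) = √N * √N := (Real.mul_self_sqrt (by linarith)).symm
        have h3 : (2 * (C' * (s + 1) * (s + b + 1) / (√k * √N))) * (C * (s + 1) / √N) =
            2 * C' * C * ((s + 1) ^ 2 * (s + b + 1) / ((√N * √N) * √k)) := by
          field_simp
        rw [h3, ← hNN]

theorem scQB_prob {κ : ℝ} (hκ : 0 < κ) : ∃ C c₁ : ℝ, 0 < C ∧ 0 < c₁ ∧ ∀ p q : ℝ,
    κ ≤ p → p ≤ 1 → κ ≤ q → q ≤ 1 → ∀ K N : ℕ, 1 ≤ N →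
    |1 / p - 1 / q| * √N ≤ c₁ → ∀ s γ ζ : ℝ, 0 ≤ s → 0 < γ → 0 ≤ ζ →
    (muBN.prod muBN).real (scQB p q γ K N s ζ) ≤ C * ((s + 1) ^ 2 * (γ * ζ) / N) := by
  obtain ⟨C, c₁, hC, hc₁, H⟩ := persist hκ
  refine ⟨2 * C ^ 2, c₁, by positivity, hc₁, ?_⟩
  intro p q hp hp1 hq hq1 K N hN hm s γ ζ hs hγ hζ
  have hNr : (1 : ℝ) ≤ N := by exact_mod_cast hN
  have hsN : 0 < √(N : ℝ) := Real.sqrt_pos.2 (by linarith)
  have e1 := (H p q hp hp1 hq hq1 N hN hm s hs).1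
  have e2 := walk_pair_K (α := p) (β := q) hγ hζ K (wstay_meas s N) (wstay_meas s N)
  refine e2.trans ?_
  have e3 : (walkM p q).real (Stay s N) * (walkM p q).real (Stay s N) ≤
      (C * (s + 1) / √N) * (C * (s + 1) / √N) :=
    mul_le_mul e1 e1 measureReal_nonneg (by positivity)
  calc _ ≤ 2 * (γ * ζ) * ((C * (s + 1) / √N) * (C * (s + 1) / √N)) :=
        mul_le_mul_of_nonneg_left e3 (by positivity)
    _ = _ := by
        have hNN : (N : ℝ) = √N * √N := (Real.mul_self_sqrt (by linarith)).symm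
        have h3 : 2 * (γ * ζ) * ((C * (s + 1) / √N) * (C * (s + 1) / √N)) =
            2 * C ^ 2 * ((s + 1) ^ 2 * (γ * ζ) / (√N * √N)) := by
          field_simp
        rw [h3, ← hNN]


/-- the arithmetic of the parameters -/
theorem sc_param {κ : ℝ} (hκ : 0 < κ) (Cr c M : ℝ) (hCr : 1 ≤ Cr) (hc : 0 < c) (hM : 1 ≤ M)
    (Cw : ℝ) (hCw : 1 ≤ Cw) :
    ∃ C0 : ℝ, 1 ≤ C0 ∧ M ≤ C0 ∧ ∀ (σ lam Y g0 : ℝ) (n : ℕ), Par C0 κ σ lam Y g0 n →
      ∀ K k N : ℕ, 1 ≤ k → K ≤ k → 16 * k ≤ N → C0 * Y ^ 2 * (K + N) ≤ (n : ℝ) ^ (2 / 3 : ℝ) →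
      Par Cw κ σ lam Y g0 n ∧ κ ≤ σ ∧ σ ≤ 1 - κ ∧ 0 < Y ∧ Cr * Y ^ 3 ≤ n ∧
      0 < (n : ℝ) ^ (1 / 3 : ℝ) ∧ ((K + N : ℕ) : ℝ) + 1 ≤ (n : ℝ) ^ (2 / 3 : ℝ) ∧
      Cr * Y * √N / (n : ℝ) ^ (1 / 3 : ℝ) ≤ c ∧
      5 * k * (Cr * Y / (n : ℝ) ^ (1 / 3 : ℝ)) ≤ √k / 4 := by
  refine ⟨max M (max Cw (max (8 * Cr) (max (Cr ^ 2 / c ^ 2) (max 2 (25 * Cr ^ 2))))), ?_, ?_, ?_⟩
  · exact hM.trans (le_max_left _ _)
  · exact le_max_left _ _
  intro σ lam Y g0 n hP K k N hk hK hN hn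
  set C0 := max M (max Cw (max (8 * Cr) (max (Cr ^ 2 / c ^ 2) (max 2 (25 * Cr ^ 2))))) with hC0
  have g1 : Cw ≤ C0 := (le_max_left _ _).trans (le_max_right _ _)
  have g2 : 8 * Cr ≤ C0 := ((le_max_left _ _).trans (le_max_right _ _)).trans (le_max_right _ _)
  have g3 : Cr ^ 2 / c ^ 2 ≤ C0 := (((le_max_left _ _).trans (le_max_right _ _)).trans
    (le_max_right _ _)).trans (le_max_right _ _)
  have g4 : (2 : ℝ) ≤ C0 := ((((le_max_left _ _).trans (le_max_right _ _)).trans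
    (le_max_right _ _)).trans (le_max_right _ _)).trans (le_max_right _ _)
  have g5 : 25 * Cr ^ 2 ≤ C0 := ((((le_max_right _ _).trans (le_max_right _ _)).trans
    (le_max_right _ _)).trans (le_max_right _ _)).trans (le_max_right _ _)
  obtain ⟨p1, p2, p3, p4, p5, p6⟩ := hP
  have hY : 2 ≤ Y := g4.trans p3
  have hl : 1 ≤ lam := by linarith
  have hl3 : 0 < lam ^ 3 := by positivity
  have hkr : (1 : ℝ) ≤ k := by exact_mod_cast hk
  have hNr : (16 * k : ℝ) ≤ N := by exact_mod_cast hN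
  have hK0 : (0 : ℝ) ≤ K := Nat.cast_nonneg K
  have hl31 : 1 ≤ lam ^ 3 := one_le_pow₀ hl
  have hn1 : (1 : ℝ) ≤ n := by
    have : 2 * 1 ≤ C0 * lam ^ 3 := mul_le_mul g4 hl31 (by norm_num) (by linarith)
    linarith
  have hn0 : (0 : ℝ) < n := by linarith
  have hn3 : 0 < (n : ℝ) ^ (1 / 3 : ℝ) := by positivity
  have hn23 : (n : ℝ) ^ (2 / 3 : ℝ) = ((n : ℝ) ^ (1 / 3 : ℝ)) ^ 2 := by
    rw [← Real.rpow_natCast, ← Real.rpow_mul hn0.le]
    norm_num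
  have hY3 : Y ^ 3 ≤ 8 * lam ^ 3 := by
    calc Y ^ 3 ≤ (2 * lam) ^ 3 := pow_le_pow_left₀ (by linarith) p4 3
      _ = _ := by ring
  have hs : (Y / (n : ℝ) ^ (1 / 3 : ℝ)) ^ 2 * (C0 * N) ≤ 1 := by
    rw [div_pow, div_mul_eq_mul_div, div_le_one (by positivity), ← hn23]
    nlinarith [mul_nonneg (mul_nonneg (by linarith : (0:ℝ) ≤ C0) (sq_nonneg Y)) hK0]
  set t := Y / (n : ℝ) ^ (1 / 3 : ℝ) with ht
  have ht0 : 0 < t := by positivity
  have hsN : 0 < √(N : ℝ) := Real.sqrt_pos.2 (by linarith)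
  have hNN : √(N : ℝ) ^ 2 = N := Real.sq_sqrt (by linarith)
  have hsk : 0 < √(k : ℝ) := Real.sqrt_pos.2 (by linarith)
  have hkk : √(k : ℝ) ^ 2 = k := Real.sq_sqrt (by linarith)
  refine ⟨⟨p1, p2, g1.trans p3, p4, (mul_le_mul_of_nonneg_right g1 hl3.le).trans p5, p6⟩, p1, p2,
    by linarith, ?_, hn3, ?_, ?_, ?_⟩
  · nlinarith
  · push_cast
    have : 8 * ((K : ℝ) + N) ≤ C0 * Y ^ 2 * (K + N) := by
      apply mul_le_mul_of_nonneg_right _ (by linarith)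
      nlinarith
    linarith
  · have e : Cr * Y * √N / (n : ℝ) ^ (1 / 3 : ℝ) = Cr * (t * √N) := by rw [ht]; ring
    rw [e]
    refine (sq_le_sq₀ (by positivity) hc.le).1 ?_
    have h1 : Cr ^ 2 ≤ C0 * c ^ 2 := by rwa [div_le_iff₀ (by positivity)] at g3
    have h2 : (Cr * (t * √N)) ^ 2 = Cr ^ 2 * (t ^ 2 * N) := by rw [mul_pow, mul_pow, hNN]
    rw [h2]
    calc Cr ^ 2 * (t ^ 2 * N) ≤ (C0 * c ^ 2) * (t ^ 2 * N) :=
          mul_le_mul_of_nonneg_right h1 (by positivity)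
      _ = c ^ 2 * (t ^ 2 * (C0 * N)) := by ring
      _ ≤ c ^ 2 * 1 := mul_le_mul_of_nonneg_left hs (by positivity)
      _ = c ^ 2 := mul_one _
  · have e : 5 * k * (Cr * Y / (n : ℝ) ^ (1 / 3 : ℝ)) = 5 * k * (Cr * t) := by rw [ht]; ring
    rw [e]
    -- `t ≤ 1 / (4 √C0 √k)`
    have h1 : (5 * Cr * t * √k) ^ 2 ≤ (1 / 4) ^ 2 := by
      have : (5 * Cr * t * √k) ^ 2 = 25 * Cr ^ 2 * (t ^ 2 * k) := by
        rw [mul_pow, mul_pow, mul_pow, hkk]; ring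
      rw [this]
      have h2 : t ^ 2 * (C0 * (16 * k)) ≤ 1 := by
        refine le_trans ?_ hs
        apply mul_le_mul_of_nonneg_left _ (by positivity)
        apply mul_le_mul_of_nonneg_left hNr (by linarith)
      have h3 : 25 * Cr ^ 2 * (t ^ 2 * k) ≤ C0 * (t ^ 2 * k) :=
        mul_le_mul_of_nonneg_right g5 (by positivity)
      nlinarith
    have h2 : 5 * Cr * t * √k ≤ 1 / 4 := by
      exact (sq_le_sq₀ (by positivity) (by norm_num)).1 h1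
    have hkk' : (k : ℝ) = √k * √k := by rw [← sq]; exact hkk.symm
    have h5 : 5 * k * (Cr * t) = (5 * Cr * t * √k) * √k := by
      linear_combination (5 * Cr * t) * hkk'
    calc 5 * k * (Cr * t) = (5 * Cr * t * √k) * √k := h5
      _ ≤ 1 / 4 * √k := mul_le_mul_of_nonneg_right h2 hsk.le
      _ = _ := by ring

theorem sc_main {κ : ℝ} (hκ : 0 < κ) : ∃ C0 : ℝ, 1 ≤ C0 ∧ ∀ (σ lam Y g0 A : ℝ) (n : ℕ),
    Par C0 κ σ lam Y g0 n → 1 ≤ A → A ≤ 4 * Y * (n : ℝ) ^ (2 / 3 : ℝ) →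
    ∀ K k N : ℕ, 1 ≤ k → K ≤ k → 16 * k ≤ N → C0 * Y ^ 2 * (K + N) ≤ (n : ℝ) ^ (2 / 3 : ℝ) →
    ∀ s ζ : ℝ, 0 ≤ s → √k ≤ ζ → ζ ≤ k →
    (∀ b : ℝ, 0 ≤ b → (PI (ℤ × ℤ)).real {ω | GoodE κ σ lam Y g0 (2 * n) ω ∧
      NR σ A n K (K + N) s ω ∧ Clo σ A n K k b ω} ≤
        C0 * (s + 1) ^ 2 * (s + b + 1) / (N * √k) +
        C0 * (s + 1) ^ 2 * (Y * ζ) / (N * (n : ℝ) ^ (1 / 3 : ℝ)) +
        C0 * Real.exp (-(ζ ^ 2 / (C0 * k)))) ∧
    (PI (ℤ × ℤ)).real {ω | GoodE κ σ lam Y g0 (2 * n) ω ∧ NR σ A n K (K + N) s ω ∧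
      Wd σ A n K (4 * k) ω} ≤ C0 * (s + 1) ^ 2 * (Y * ζ) / (N * (n : ℝ) ^ (1 / 3 : ℝ)) +
        C0 * Real.exp (-(ζ ^ 2 / (C0 * k))) := by
  obtain ⟨B, hB, Cw, hCw, HW⟩ := to_walk hκ
  obtain ⟨Cr, hCr, HR⟩ := rates hκ hB
  have hκ4 : 0 < κ / 4 := by positivity
  obtain ⟨CA, cA, hCA, hcA, HA⟩ := scQA_prob hκ4
  obtain ⟨CB, cB, hCB, hcB, HB⟩ := scQB_prob hκ4
  set M : ℝ := 20 + (32 / κ) ^ 2 + 5120 / κ ^ 2 + 2 * CA + 4 * B * CB with hM
  have hM0 : 0 < 5120 / κ ^ 2 := by positivity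
  have hM1 : 0 ≤ (32 / κ) ^ 2 := by positivity
  have hM2 : 0 < 4 * B * CB := by positivity
  obtain ⟨C0, hC1, hMC, HP⟩ := sc_param hκ Cr (min cA cB) M hCr (lt_min hcA hcB)
    (by rw [hM]; linarith) Cw hCw
  refine ⟨C0, hC1, ?_⟩
  intro σ lam Y g0 A n hP hA1 hA2 K k N hk hK hN hn s ζ hs hζ1 hζ2
  obtain ⟨hPw, q1, q2, hY, q3, hn3, hI, hc, hd⟩ := HP σ lam Y g0 n hP K k N hk hK hN hn
  obtain ⟨r1, r2, r3, r4, r5⟩ := HR σ Y n q1 q2 hY q3
  have hkr : (1 : ℝ) ≤ k := by exact_mod_cast hk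
  have hk0 : (0 : ℝ) < k := by linarith
  have hNr : (16 * k : ℝ) ≤ N := by exact_mod_cast hN
  have hN0 : (0 : ℝ) < N := by linarith
  have hsk : 0 < √(k : ℝ) := Real.sqrt_pos.2 hk0
  have hsk1 : 1 ≤ √(k : ℝ) := Real.one_le_sqrt.2 hkr
  have hζ0 : 0 < ζ := by linarith
  have hC0 : 0 < C0 := by linarith
  have hcc := (r5 N).trans hc
  set α := rA σ B Y n with hα
  set β := rB σ B Y n with hβ
  have hβ0 : 0 < β := by linarith
  have hα0 : 0 < α := by linarith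
  have hα1 : α ≤ 1 := by linarith
  have hβ1 : β ≤ 1 := by linarith
  have hex : 0 < Real.exp (-(ζ ^ 2 / (C0 * k))) := Real.exp_pos _
  by_cases hcase : ζ < 32 / κ * √k
  · -- trivial case
    have h1 : ζ ^ 2 ≤ C0 * k := by
      have : ζ ^ 2 ≤ (32 / κ * √k) ^ 2 := pow_le_pow_left₀ hζ0.le hcase.le 2
      refine this.trans ?_
      rw [mul_pow, Real.sq_sqrt hk0.le]
      apply mul_le_mul_of_nonneg_right _ hk0.le
      refine le_trans ?_ hMC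
      rw [hM]
      linarith
    have h2 : ζ ^ 2 / (C0 * k) ≤ 1 := (div_le_one (by positivity)).2 h1
    have h3 : Real.exp (-1) ≤ Real.exp (-(ζ ^ 2 / (C0 * k))) := Real.exp_le_exp.2 (by linarith)
    have h4 : (1 / 3 : ℝ) ≤ Real.exp (-1) := by
      rw [Real.exp_neg, one_div]
      exact inv_anti₀ (Real.exp_pos _) (by linarith [Real.exp_one_lt_d9])
    have h5 : (3 : ℝ) ≤ C0 := le_trans (by rw [hM]; linarith) hMC
    have h6 : 1 ≤ C0 * Real.exp (-(ζ ^ 2 / (C0 * k))) := by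
      have : 3 * (1 / 3) ≤ C0 * Real.exp (-(ζ ^ 2 / (C0 * k))) :=
        mul_le_mul h5 (h4.trans h3) (by norm_num) hC0.le
      linarith
    have h7 : 0 ≤ C0 * (s + 1) ^ 2 * (Y * ζ) / (N * (n : ℝ) ^ (1 / 3 : ℝ)) := by positivity
    refine ⟨fun b hb => ?_, ?_⟩
    · have h8 : 0 ≤ C0 * (s + 1) ^ 2 * (s + b + 1) / (N * √k) := by positivity
      exact measureReal_le_one.trans (by linarith)
    · exact measureReal_le_one.trans (by linarith)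
  push Not at hcase
  have hw : ((5 * k : ℕ) : ℝ) = 5 * k := by push_cast; ring
  have hdrift : 1 / α + ((5 * k : ℕ) : ℝ) * |1 / α - 1 / β| ≤ ζ / 2 := by
    have e1 : 1 / α ≤ 4 / κ := by
      rw [div_le_div_iff₀ hα0 hκ]
      linarith
    have e2 : 32 / κ ≤ ζ := by
      refine le_trans ?_ hcase
      have : 0 < 32 / κ := by positivity
      nlinarith
    have e3 : 4 / κ = (32 / κ) / 8 := by ring
    have e4 : |1 / α - 1 / β| ≤ Cr * Y / (n : ℝ) ^ (1 / 3 : ℝ) := by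
      have := r5 1
      simpa using this
    have e5 : ((5 * k : ℕ) : ℝ) * |1 / α - 1 / β| ≤ 5 * k * (Cr * Y / (n : ℝ) ^ (1 / 3 : ℝ)) := by
      rw [hw]
      exact mul_le_mul_of_nonneg_left e4 (by positivity)
    linarith
  have hQC := scQC_prob (J := K + 4 * k) (w := 5 * k) (by omega) hα0 hβ0 hα1 hβ1 hκ4
    (by linarith) r1 hζ0 (by rw [hw]; linarith) hdrift
  have hQC' : 2 * (muBN.prod muBN).real (scQC α β (K + 4 * k) ζ) ≤
      C0 * Real.exp (-(ζ ^ 2 / (C0 * k))) := by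
    have e1 : Real.exp (-((κ / 4) ^ 2 * ζ ^ 2 / (64 * ((5 * k : ℕ) : ℝ)))) ≤
        Real.exp (-(ζ ^ 2 / (C0 * k))) := by
      apply Real.exp_le_exp.2
      rw [neg_le_neg_iff, hw]
      have e2 : (κ / 4) ^ 2 * ζ ^ 2 / (64 * (5 * k)) = ζ ^ 2 / ((5120 / κ ^ 2) * k) := by
        field_simp
        ring
      rw [e2]
      apply div_le_div_of_nonneg_left (by positivity) (by positivity)
      apply mul_le_mul_of_nonneg_right _ hk0.le
      refine le_trans ?_ hMC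
      rw [hM]
      linarith
    have h5 : (16 : ℝ) ≤ C0 := le_trans (by rw [hM]; linarith) hMC
    calc 2 * (muBN.prod muBN).real (scQC α β (K + 4 * k) ζ) ≤
          16 * Real.exp (-((κ / 4) ^ 2 * ζ ^ 2 / (64 * ((5 * k : ℕ) : ℝ)))) := by linarith
      _ ≤ C0 * Real.exp (-(ζ ^ 2 / (C0 * k))) :=
          mul_le_mul h5 e1 (Real.exp_pos _).le hC0.le
  have hγ : 0 < α - β := by linarith
  have hQB := HB α β (by linarith) hα1 r1 hβ1 K N (by omega) (hcc.trans (min_le_right _ _)) s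
    (α - β) ζ hs hγ hζ0.le
  have hQB' : 2 * (muBN.prod muBN).real (scQB α β (α - β) K N s ζ) ≤
      C0 * (s + 1) ^ 2 * (Y * ζ) / (N * (n : ℝ) ^ (1 / 3 : ℝ)) := by
    have h5 : 4 * B * CB ≤ C0 := le_trans (by rw [hM]; linarith) hMC
    calc 2 * (muBN.prod muBN).real (scQB α β (α - β) K N s ζ) ≤
          2 * (CB * ((s + 1) ^ 2 * ((α - β) * ζ) / N)) := by linarith
      _ = (4 * B * CB) * ((s + 1) ^ 2 * (Y * ζ) / (N * (n : ℝ) ^ (1 / 3 : ℝ))) := by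
          rw [r4]
          field_simp
          ring
      _ ≤ C0 * ((s + 1) ^ 2 * (Y * ζ) / (N * (n : ℝ) ^ (1 / 3 : ℝ))) :=
          mul_le_mul_of_nonneg_right h5 (by positivity)
      _ = _ := by ring
  have hGm := measurableSet_GoodE (κ := κ) (σ := σ) (lam := lam) (Y := Y) (g0 := g0) (n := 2 * n)
  have hNm := measurableSet_NR (σ := σ) (A := A) (n := n) (K := K) (I := K + N) (s := s)
  have hI' : (((K + N : ℕ) : ℕ) : ℝ) + 1 ≤ (n : ℝ) ^ (2 / 3 : ℝ) := hI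
  refine ⟨fun b hb => ?_, ?_⟩
  · have hCm := measurableSet_Clo (σ := σ) (A := A) (n := n) (K := K) (k := k) (b := b)
    have hE := HW σ lam Y g0 A n (K + N) hPw hA1 hA2 hI'
      {ω | GoodE κ σ lam Y g0 (2 * n) ω ∧ NR σ A n K (K + N) s ω ∧ Clo σ A n K k b ω}
      (scQA α β K k N s b ∪ (scQB α β (α - β) K N s ζ ∪ scQC α β (K + 4 * k) ζ))
      (hGm.inter (hNm.inter hCm))
      ((scQA_meas _ _ _ _ _ _ _).union ((scQB_meas _ _ _ _ _ _ _).union (scQC_meas _ _ _ _)))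
      (fun ω hω => hω.1)
      (fun ω hω c h1 h2 => sc_clo hs (by omega) h1 h2 hω.2.1 hω.2.2)
    have hQA := HA α β (by linarith) hα1 r1 hβ1 K k N hk hN (hcc.trans (min_le_left _ _)) s b hs hb
    have hQA' : 2 * (muBN.prod muBN).real (scQA α β K k N s b) ≤
        C0 * (s + 1) ^ 2 * (s + b + 1) / (N * √k) := by
      have h5 : 2 * CA ≤ C0 := le_trans (by rw [hM]; linarith) hMC
      calc 2 * (muBN.prod muBN).real (scQA α β K k N s b) ≤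
            (2 * CA) * ((s + 1) ^ 2 * (s + b + 1) / (N * √k)) := by linarith
        _ ≤ C0 * ((s + 1) ^ 2 * (s + b + 1) / (N * √k)) :=
            mul_le_mul_of_nonneg_right h5 (by positivity)
        _ = _ := by ring
    have hU := measureReal_union_le (μ := muBN.prod muBN) (scQA α β K k N s b)
      (scQB α β (α - β) K N s ζ ∪ scQC α β (K + 4 * k) ζ)
    have hU2 := measureReal_union_le (μ := muBN.prod muBN)
      (scQB α β (α - β) K N s ζ) (scQC α β (K + 4 * k) ζ)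
    linarith
  · have hCm := measurableSet_Wd (σ := σ) (A := A) (n := n) (K := K) (k := 4 * k)
    have hE := HW σ lam Y g0 A n (K + N) hPw hA1 hA2 hI'
      {ω | GoodE κ σ lam Y g0 (2 * n) ω ∧ NR σ A n K (K + N) s ω ∧ Wd σ A n K (4 * k) ω}
      (scQB α β (α - β) K N s ζ ∪ scQC α β (K + 4 * k) ζ)
      (hGm.inter (hNm.inter hCm))
      ((scQB_meas _ _ _ _ _ _ _).union (scQC_meas _ _ _ _))
      (fun ω hω => hω.1)
      (fun ω hω c h1 h2 => sc_wd hs (by omega) h1 h2 hω.2.1 hω.2.2)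
    have hU2 := measureReal_union_le (μ := muBN.prod muBN)
      (scQB α β (α - β) K N s ζ) (scQC α β (K + 4 * k) ζ)
    linarith

theorem st2 {κ : ℝ} (hκ : 0 < κ) : ∃ C0 : ℝ, 1 ≤ C0 ∧ ∀ (σ lam Y g0 A : ℝ) (n : ℕ),
    Par C0 κ σ lam Y g0 n → 1 ≤ A → A ≤ 4 * Y * (n : ℝ) ^ (2 / 3 : ℝ) →
    ∀ K k N : ℕ, 1 ≤ k → K ≤ k → 16 * k ≤ N → C0 * Y ^ 2 * (K + N) ≤ (n : ℝ) ^ (2 / 3 : ℝ) →
    ∀ s b ζ : ℝ, 0 ≤ s → 0 ≤ b → √k ≤ ζ → ζ ≤ k →
    (PI (ℤ × ℤ)).real {ω | GoodE κ σ lam Y g0 (2 * n) ω ∧ NR σ A n K (K + N) s ω ∧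
      Clo σ A n K k b ω} ≤ C0 * (s + 1) ^ 2 * (s + b + 1) / (N * √k) +
        C0 * (s + 1) ^ 2 * (Y * ζ) / (N * (n : ℝ) ^ (1 / 3 : ℝ)) +
        C0 * Real.exp (-(ζ ^ 2 / (C0 * k))) := by
  obtain ⟨C0, h1, H⟩ := sc_main hκ
  refine ⟨C0, h1, ?_⟩
  intro σ lam Y g0 A n hP hA1 hA2 K k N hk hK hN hn s b ζ hs hb hζ1 hζ2
  exact (H σ lam Y g0 A n hP hA1 hA2 K k N hk hK hN hn s ζ hs hζ1 hζ2).1 b hb

theorem st3 {κ : ℝ} (hκ : 0 < κ) : ∃ C0 : ℝ, 1 ≤ C0 ∧ ∀ (σ lam Y g0 A : ℝ) (n : ℕ),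
    Par C0 κ σ lam Y g0 n → 1 ≤ A → A ≤ 4 * Y * (n : ℝ) ^ (2 / 3 : ℝ) →
    ∀ K k N : ℕ, 1 ≤ k → K ≤ k → 16 * k ≤ N → C0 * Y ^ 2 * (K + N) ≤ (n : ℝ) ^ (2 / 3 : ℝ) →
    ∀ s ζ : ℝ, 0 ≤ s → √k ≤ ζ → ζ ≤ k →
    (PI (ℤ × ℤ)).real {ω | GoodE κ σ lam Y g0 (2 * n) ω ∧ NR σ A n K (K + N) s ω ∧
      Wd σ A n K (4 * k) ω} ≤ C0 * (s + 1) ^ 2 * (Y * ζ) / (N * (n : ℝ) ^ (1 / 3 : ℝ)) +
        C0 * Real.exp (-(ζ ^ 2 / (C0 * k))) := by
  obtain ⟨C0, h1, H⟩ := sc_main hκ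
  refine ⟨C0, h1, ?_⟩
  intro σ lam Y g0 A n hP hA1 hA2 K k N hk hK hN hn s ζ hs hζ1 hζ2
  exact (H σ lam Y g0 A n hP hA1 hA2 K k N hk hK hN hn s ζ hs hζ1 hζ2).2

end BGE
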