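import Pool.Agent.BGE.ParJ
import Pool.Agent.BGE.DepB
import Pool.Agent.BGE.GeoA
import Pool.Agent.BGE.GeoB
import Pool.Agent.BGE.StatNR
import Pool.Agent.BGE.StatClo
import Pool.Agent.BGE.CrProb

/-!
BGE / M5a. Probabilities of the blocks (static, law `PI`): basic ones.


Common: `Y = 2 lam`, `g0 = C0 lam³`. `¬ CrE κ lam (8 n)` has probability at most `h^10` for
`n ≤ h⁻³` (`crE_prob`; `lam = log^20`, so `exp (-c lam)` is smaller than any power of `h`), on `CrE` the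
environment is `GoodE` at the scale `2n` (`good_crude`) and the restricted profiles coincide with
the unrestricted ones for the relevant `i` (`FLp_res`, `FLp_res0`). `crE_bad` is this bound.

* `ans_prob`: on `CrE`, `AnS` implies `Thru`, hence an exact record (`rec_of_thru`), `st1` with
  `K = 0`, `N0 = N1 = Ic n`, `s1 = s2 = 0`.
* `nr_prob`: `st1` with `K = 0`, `s1 = 0`.
-/

namespace BGE

open MeasureTheory ProbabilityTheory

private theorem ba_par_mono {C0 C1 κ σ lam Y g0 : ℝ} {n : ℕ} (hl : 0 ≤ lam) (h : C1 ≤ C0)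
    (hP : Par C0 κ σ lam Y g0 n) : Par C1 κ σ lam Y g0 n := by
  obtain ⟨h1, h2, h3, h4, h5, h6⟩ := hP
  exact ⟨h1, h2, h.trans h3, h4, (mul_le_mul_of_nonneg_right h (by positivity)).trans h5, h6⟩

theorem crE_bad {κ : ℝ} (hκ : 0 < κ) : ∃ C1 : ℝ, 2 ≤ C1 ∧ ∀ (h lam : ℝ) (m : ℕ), HP C1 h lam →
    (m : ℝ) ≤ h⁻¹ ^ 4 → (PI (ℤ × ℤ)).real {ω | ¬ CrE κ lam m ω} ≤ h ^ 10 := by
  obtain ⟨C, c, hC, hc, H⟩ := crE_prob hκ
  have hc27 : 0 < 27 / c := by positivity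
  refine ⟨2 + 27 / c + C, by linarith, ?_⟩
  intro h lam m hp hm
  obtain ⟨b1, -, -⟩ := hp_basic (by linarith) hp
  obtain ⟨p1, p2, p3, p4, -⟩ := hp
  set ℓ : ℝ := Real.log (1 / h) with hℓ
  have hlam1 : 1 ≤ lam := by linarith
  have hh : h = Real.exp (-ℓ) := by
    rw [hℓ, one_div, Real.log_inv, neg_neg, Real.exp_log p1]
  have hx1 : 1 ≤ h⁻¹ := (one_le_inv₀ p1).2 p2.le
  set m' : ℕ := max m 1 with hm'
  have hm1 : 1 ≤ m' := le_max_right _ _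
  have hmm : (m' : ℝ) ≤ h⁻¹ ^ 4 := by
    rw [hm', Nat.cast_max]
    refine max_le hm ?_
    rw [Nat.cast_one]
    exact one_le_pow₀ hx1
  have h1 : (PI (ℤ × ℤ)).real {ω | ¬ CrE κ lam m ω} ≤
      (PI (ℤ × ℤ)).real {ω | ¬ CrE κ lam m' ω} := by
    refine measureReal_mono ?_ (measure_ne_top _ _)
    intro ω hω hω'
    exact hω (crE_mono hω' (le_max_left _ _))
  refine h1.trans ((H lam m' hlam1 hm1).trans ?_)
  have hℓ1 : 1 ≤ ℓ := by linarith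
  have hinv : h⁻¹ = Real.exp ℓ := by rw [hh, ← Real.exp_neg, neg_neg]
  have h2 : (m' : ℝ) ^ 4 ≤ Real.exp (16 * ℓ) := by
    calc (m' : ℝ) ^ 4 ≤ (h⁻¹ ^ 4) ^ 4 := by gcongr
      _ = Real.exp (16 * ℓ) := by
        rw [hinv, ← pow_mul, ← Real.exp_nat_mul]
        norm_num
  have h3 : C ≤ Real.exp ℓ := by
    have e1 : C ≤ ℓ := by linarith
    have e2 := Real.add_one_le_exp ℓ
    linarith
  have h4 : 27 * ℓ ≤ c * lam := by
    have e1 : 27 / c ≤ ℓ := by linarith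
    have e2 : 27 ≤ c * ℓ := by
      rw [div_le_iff₀ hc] at e1
      linarith
    have e3 : ℓ ^ 2 ≤ ℓ ^ 20 := pow_le_pow_right₀ hℓ1 (by norm_num)
    rw [p4]
    calc 27 * ℓ ≤ (c * ℓ) * ℓ := by gcongr
      _ = c * ℓ ^ 2 := by ring
      _ ≤ c * ℓ ^ 20 := by gcongr
  calc C * (m' : ℝ) ^ 4 * Real.exp (-(c * lam))
      ≤ Real.exp ℓ * Real.exp (16 * ℓ) * Real.exp (-(27 * ℓ)) := by
        gcongr
    _ = Real.exp (-ℓ) ^ 10 := by
        rw [← Real.exp_add, ← Real.exp_add, ← Real.exp_nat_mul]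
        congr 1
        push_cast
        ring
    _ = h ^ 10 := by rw [← hh]

/-- the common part: reduction to regular environments and `st1` -/
private theorem ba_core {κ : ℝ} (hκ : 0 < κ) : ∃ C0 C1 : ℝ, 1 ≤ C0 ∧ 2 ≤ C1 ∧
    ∀ (σ h lam A : ℝ) (n N0 : ℕ), HP C1 h lam → κ ≤ σ → σ ≤ 1 - κ → C0 * lam ^ 3 ≤ n →
    (n : ℝ) ≤ h⁻¹ ^ 3 → 1 ≤ A → A ≤ 4 * arc lam n → 1 ≤ N0 → N0 ≤ Ic lam n →
    ∀ (s : ℝ), 0 ≤ s → s ≤ √N0 → ∀ E : Set (ℤ × ℤ → ℝ),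
    (∀ ω ∈ E, CrE κ lam (8 * n) ω → NR σ A n 0 N0 0 ω ∧ NR σ A n 0 (Ic lam n) s ω) →
    (PI (ℤ × ℤ)).real E ≤ lam ^ 5 / (n : ℝ) ^ (2 / 3 : ℝ) := by
  obtain ⟨Cs, hCs, Hs⟩ := st1 hκ
  obtain ⟨Cg, hCg, Hg⟩ := good_crude hκ
  obtain ⟨Cb, hCb, Hb⟩ := crE_bad hκ
  obtain ⟨C0, hC0⟩ : ∃ C0, C0 = Cs + Cg := ⟨_, rfl⟩
  have hC01 : 1 ≤ C0 := by linarith
  obtain ⟨Cp, hCp, Hp⟩ := par_crude hκ hC01
  refine ⟨C0, Cp + Cg + Cb + 4 * C0 + 8, hC01, by linarith, ?_⟩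
  intro σ h lam A n N0 hp h1 h2 hn hn3 hA hA' hN0 hN0I s hs hs' E hE
  obtain ⟨b1, b2, b3⟩ := hp_basic (by linarith) hp
  obtain ⟨p1, p2, p3, p4, p5⟩ := hp
  have hpp : HP Cp h lam := ⟨p1, p2, by linarith, p4, p5⟩
  have hpg : HP Cg h lam := ⟨p1, p2, by linarith, p4, p5⟩
  have hpb : HP Cb h lam := ⟨p1, p2, by linarith, p4, p5⟩
  have hlam1 : 1 ≤ lam := by linarith
  have hlam0 : 0 < lam := by linarith
  have hx8 : 8 ≤ h⁻¹ := by
    have e1 : Real.log (1 / h) ≤ 1 / h := by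
      have := Real.log_le_sub_one_of_pos (x := 1 / h) (by positivity)
      linarith
    rw [one_div] at e1 p3
    linarith
  have hx1 : 1 ≤ h⁻¹ := by linarith
  have h8n : ((8 * n : ℕ) : ℝ) ≤ h⁻¹ ^ 4 := by
    push_cast
    calc (8 : ℝ) * n ≤ h⁻¹ * h⁻¹ ^ 3 := by gcongr
      _ = h⁻¹ ^ 4 := by ring
  have hbad := Hb h lam (8 * n) hpb h8n
  have hPn := Hp σ h lam n hpp h1 h2 hn
  have hn0 : (0 : ℝ) < n := lt_of_lt_of_le (by positivity) hn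
  have hn1 : (1 : ℝ) ≤ n := by
    have : 0 < n := by exact_mod_cast hn0
    exact_mod_cast this
  set P : ℝ := (n : ℝ) ^ (2 / 3 : ℝ) with hP
  have hP0 : 0 < P := by positivity
  set N1 : ℕ := Ic lam n with hN1
  have hN1r : (N1 : ℝ) ≤ P / lam ^ 3 := Nat.floor_le (by positivity)
  have hN11 : 1 ≤ N1 := hN0.trans hN0I
  have hN11' : (1 : ℝ) ≤ N1 := by exact_mod_cast hN11
  have hN1l : P / (2 * lam ^ 3) ≤ N1 := by
    have e1 : P / lam ^ 3 < N1 + 1 := Nat.lt_floor_add_one _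
    have e2 : P / (2 * lam ^ 3) = (P / lam ^ 3) / 2 := by field_simp
    rw [e2]
    linarith
  have hst := Hs σ lam (2 * lam) (C0 * lam ^ 3) A n (ba_par_mono hlam0.le (by linarith) hPn) hA
    (hA'.trans (le_of_eq (by unfold arc; ring))) 0 N0 N1 hN0 hN0I (by
      rw [Nat.cast_zero, zero_add]
      calc Cs * (2 * lam) ^ 2 * N1 ≤ C0 * (2 * lam) ^ 2 * (P / lam ^ 3) := by
            gcongr
            linarith
        _ = (4 * C0) / lam * P := by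
            field_simp
            ring
        _ ≤ 1 * P := by
            gcongr
            rw [div_le_one hlam0]
            linarith
        _ = P := one_mul _) 0 s le_rfl hs hs'
  rw [zero_add, zero_add] at hst
  have hsub : E ⊆ {ω | ¬ CrE κ lam (8 * n) ω} ∪
      {ω | GoodE κ σ lam (2 * lam) (C0 * lam ^ 3) (2 * n) ω ∧ NR σ A n 0 N0 0 ω ∧
        NR σ A n 0 N1 s ω} := by
    intro ω hω
    by_cases hcr : CrE κ lam (8 * n) ω
    · right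
      refine ⟨?_, hE ω hω hcr⟩
      exact Hg C0 σ h lam (2 * n) (8 * n) ω (by linarith) hpg h1 h2 (by push_cast; linarith)
        (by omega) hcr
    · exact Or.inl hcr
  have h5 : (PI (ℤ × ℤ)).real E ≤ h ^ 10 + Cs * (0 + 1) ^ 2 / N1 :=
    (measureReal_mono hsub (measure_ne_top _ _)).trans
      ((measureReal_union_le _ _).trans (add_le_add hbad hst))
  refine h5.trans ?_
  have h6 : h ^ 10 ≤ 1 / P := by
    have e1 : P ≤ n := by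
      calc P ≤ (n : ℝ) ^ (1 : ℝ) := Real.rpow_le_rpow_of_exponent_le hn1 (by norm_num)
        _ = n := Real.rpow_one _
    have e2 : P ≤ h⁻¹ ^ 10 :=
      e1.trans (hn3.trans (pow_le_pow_right₀ hx1 (by norm_num)))
    rw [le_div_iff₀ hP0]
    calc h ^ 10 * P ≤ h ^ 10 * h⁻¹ ^ 10 := by gcongr
      _ = 1 := by
        rw [← mul_pow, mul_inv_cancel₀ p1.ne', one_pow]
  have h7 : Cs * (0 + 1) ^ 2 / N1 ≤ 2 * Cs * lam ^ 3 / P := by
    rw [div_le_div_iff₀ (by linarith) hP0]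
    have e1 : P ≤ 2 * lam ^ 3 * N1 := by
      rw [div_le_iff₀ (by positivity)] at hN1l
      linarith
    calc Cs * (0 + 1) ^ 2 * P = Cs * P := by ring
      _ ≤ Cs * (2 * lam ^ 3 * N1) := by gcongr
      _ = 2 * Cs * lam ^ 3 * N1 := by ring
  have h8 : 1 + 2 * Cs * lam ^ 3 ≤ lam ^ 5 := by
    have e1 : (1 : ℝ) ≤ lam ^ 3 := one_le_pow₀ hlam1
    have e2 : 1 + 2 * Cs * lam ^ 3 ≤ (1 + 2 * Cs) * lam ^ 3 := by linarith
    have e3 : (1 + 2 * Cs) ≤ lam := by linarith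
    have e4 : (1 + 2 * Cs) * lam ^ 3 ≤ lam * lam ^ 3 := by gcongr
    have e5 : lam ^ 4 ≤ lam ^ 5 := pow_le_pow_right₀ hlam1 (by norm_num)
    have e6 : lam * lam ^ 3 = lam ^ 4 := by ring
    linarith
  calc h ^ 10 + Cs * (0 + 1) ^ 2 / N1 ≤ 1 / P + 2 * Cs * lam ^ 3 / P := add_le_add h6 h7
    _ = (1 + 2 * Cs * lam ^ 3) / P := by ring
    _ ≤ lam ^ 5 / P := by gcongr

theorem ans_prob {κ : ℝ} (hκ : 0 < κ) : ∃ C1 : ℝ, 2 ≤ C1 ∧ ∀ (σ h lam : ℝ) (n : ℕ),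
    HP C1 h lam → κ ≤ σ → σ ≤ 1 - κ → 1 ≤ n → (n : ℝ) ≤ h⁻¹ ^ 3 →
    (PI (ℤ × ℤ)).real (AnS σ (arc lam n) n) ≤ lam ^ 5 / (n : ℝ) ^ (2 / 3 : ℝ) := by
  obtain ⟨Cc, C1, hCc, hC1, H⟩ := ba_core hκ
  obtain ⟨Ca, hCa, Ha⟩ := ans_iff hκ
  obtain ⟨Cr, hCr, Hr⟩ := rec_of_thru hκ
  obtain ⟨Cg, hCg, Hg⟩ := good_crude hκ
  obtain ⟨C0, hC0⟩ : ∃ C0, C0 = Cc + Ca + Cr + Cg := ⟨_, rfl⟩
  have hC01 : 1 ≤ C0 := by linarith
  obtain ⟨Cp, hCp, Hp⟩ := par_crude hκ hC01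
  refine ⟨C1 + Cp + Cg + C0, by linarith, ?_⟩
  intro σ h lam n hp h1 h2 hn1 hn3
  obtain ⟨b1, b2, b3⟩ := hp_basic (by linarith) hp
  obtain ⟨p1, p2, p3, p4, p5⟩ := hp
  have hpp : HP Cp h lam := ⟨p1, p2, by linarith, p4, p5⟩
  have hpg : HP Cg h lam := ⟨p1, p2, by linarith, p4, p5⟩
  have hpc : HP C1 h lam := ⟨p1, p2, by linarith, p4, p5⟩
  have hlam1 : 1 ≤ lam := by linarith
  have hlam0 : 0 < lam := by linarith
  have hn1' : (1 : ℝ) ≤ n := by exact_mod_cast hn1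
  rcases le_or_gt ((n : ℝ) ^ (2 / 3 : ℝ)) (lam ^ 5) with hle | hlt
  · refine measureReal_le_one.trans ?_
    rw [one_le_div (by positivity)]
    exact hle
  have hPn : (n : ℝ) ^ (2 / 3 : ℝ) ≤ n := by
    calc (n : ℝ) ^ (2 / 3 : ℝ) ≤ (n : ℝ) ^ (1 : ℝ) :=
          Real.rpow_le_rpow_of_exponent_le hn1' (by norm_num)
      _ = n := Real.rpow_one _
  have hg : C0 * lam ^ 3 ≤ n := by
    have e1 : C0 * lam ^ 3 ≤ lam * lam ^ 3 := by
      gcongr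
      linarith
    have e2 : lam * lam ^ 3 ≤ lam ^ 5 := by
      have : lam * lam ^ 3 = lam ^ 4 := by ring
      rw [this]
      exact pow_le_pow_right₀ hlam1 (by norm_num)
    linarith
  have hPP := Hp σ h lam n hpp h1 h2 hg
  set P : ℝ := (n : ℝ) ^ (2 / 3 : ℝ) with hP
  have hP1 : 1 ≤ P := (one_le_pow₀ hlam1).trans hlt.le
  have earc : arc lam n = 2 * lam * P := rfl
  have hI : 1 ≤ Ic lam n := by
    unfold Ic
    rw [Nat.le_floor_iff (by positivity), Nat.cast_one, one_le_div (by positivity)]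
    have : lam ^ 3 ≤ lam ^ 5 := pow_le_pow_right₀ hlam1 (by norm_num)
    linarith
  have hIle : ((Ic lam n : ℕ) : ℝ) ≤ P := by
    have e1 : ((Ic lam n : ℕ) : ℝ) ≤ P / lam ^ 3 := Nat.floor_le (by positivity)
    refine e1.trans ?_
    rw [div_le_iff₀ (by positivity)]
    have : (1 : ℝ) ≤ lam ^ 3 := one_le_pow₀ hlam1
    nlinarith
  refine H σ h lam (4 * arc lam n) n (Ic lam n) hpc h1 h2 ?_ hn3 ?_ le_rfl hI le_rfl 0 le_rfl
    (Real.sqrt_nonneg _) _ ?_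
  · refine le_trans ?_ hg
    gcongr
    linarith
  · rw [earc]
    nlinarith
  · intro ω hω hcr
    have hG := Hg C0 σ h lam n (8 * n) ω (by linarith) hpg h1 h2 hg (by omega) hcr
    have hthru : Thru σ (2 * lam * P) n ω :=
      (Ha σ lam (2 * lam) _ n ω (ba_par_mono hlam0.le (by linarith) hPP) hG).1 hω
    have hrec := Hr σ lam (2 * lam) _ n ω (2 * lam * P) (4 * arc lam n)
      (ba_par_mono hlam0.le (by linarith) hPP) (by positivity) (by rw [earc]; nlinarith)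
      (by rw [earc]; exact le_of_eq (by ring)) hthru
    have hnr : NR σ (4 * arc lam n) n 0 (Ic lam n) 0 ω := by
      intro i hi hi'
      have hi0 : (0 : ℤ) < i := by simpa using hi
      have hir : (i : ℝ) ≤ ((Ic lam n : ℕ) : ℝ) := by exact_mod_cast hi'
      have k := hrec i hi0.le (by nlinarith)
      simp only [Nat.cast_zero, neg_zero]
      constructor <;> linarith [k.1, k.2]
    exact ⟨hnr, hnr⟩

theorem nr_prob {κ : ℝ} (hκ : 0 < κ) : ∃ C0 C1 : ℝ, 1 ≤ C0 ∧ 2 ≤ C1 ∧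
    ∀ (σ h lam A : ℝ) (n N0 : ℕ), HP C1 h lam → κ ≤ σ → σ ≤ 1 - κ → C0 * lam ^ 3 ≤ n →
    (n : ℝ) ≤ h⁻¹ ^ 3 → 1 ≤ A → A ≤ 4 * arc lam n → 1 ≤ N0 → 4 * sl h lam n ≤ √N0 →
    (N0 : ℝ) ≤ (n : ℝ) ^ (2 / 3 : ℝ) / lam ^ 4 →
    (PI (ℤ × ℤ)).real {ω | NR σ A n 0 N0 0 ω ∧ NR σ A n 0 (Ic lam n) (4 * sl h lam n) ω} ≤
      lam ^ 5 / (n : ℝ) ^ (2 / 3 : ℝ) := by
  obtain ⟨Cc, C1, hCc, hC1, H⟩ := ba_core hκ
  refine ⟨Cc, C1, hCc, hC1, ?_⟩
  intro σ h lam A n N0 hp h1 h2 hn hn3 hA hA' hN0 hsl hN0P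
  obtain ⟨b1, b2, b3⟩ := hp_basic hC1 hp
  have hlam1 : 1 ≤ lam := by linarith
  have hlam0 : 0 < lam := by linarith
  have hNI : N0 ≤ Ic lam n := by
    unfold Ic
    refine Nat.le_floor (hN0P.trans ?_)
    have : lam ^ 3 ≤ lam ^ 4 := pow_le_pow_right₀ hlam1 (by norm_num)
    gcongr
  have hsl0 : 0 ≤ 4 * sl h lam n := by
    unfold sl
    positivity
  exact H σ h lam A n N0 hp h1 h2 hn hn3 hA hA' hN0 hNI (4 * sl h lam n) hsl0 hsl _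
    (fun ω hω _ => hω)


end BGE
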