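import Pool.Agent.BGE.ParJ
import Pool.Agent.BGE.DepB
import Pool.Agent.BGE.GeoA
import Pool.Agent.BGE.GeoB
import Pool.Agent.BGE.StatNR
import Pool.Agent.BGE.StatClo
import Pool.Agent.BGE.CrProb
import Pool.Agent.BGE.BlockA

/-!
BGE / M5b. Probability of the middle block (static, law `PI`).


Common: `Y = 2 lam`, `g0 = C0 lam³`. `¬ CrE κ lam (8 n)` has probability at most `h^10` for
`n ≤ h⁻³` (`crE_prob`; `lam = log^20`, so `exp (-c lam)` is smaller than any power of `h`), on `CrE` the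
environment is `GoodE` at the scale `2n` (`good_crude`) and the restricted profiles coincide with
the unrestricted ones for the relevant `i` (`FLp_res`, `FLp_res0`). `crE_bad` is this bound.

* `mid_prob`: `n = rou`, `K = Kc rin ≤ k = 2^(j-1)`, `K + N = Ic rou`, `16 k ≤ N`,
  `C0 Y² (K+N) ≤ rou^{2/3}`, `s = 3 θ √(2^j) ≥ 1`, `b = θ √(2^j)`, `ζ = lam √k ≤ k`. By `st2`
  `C (s+1)² (s+b+1)/(N √k) ≤ C' θ³ 2^j lam³/rou^{2/3}`, the second term is
  `≤ C θ² 2^j lam² √(2^j) lam³/(rou^{2/3} rou^{1/3})` with `rou^{1/3} ≥ lam^10 2^{j/2} θ^-2`, hence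
  smaller; `exp (-lam²/C) ≤ h^10`; `st3` for `Wd`. And `h^10 ≤ θ³ 2^j/rou^{2/3}`.
-/

namespace BGE

open MeasureTheory ProbabilityTheory

private theorem bm_par_mono {C0 C1 κ σ lam Y g0 : ℝ} {n : ℕ} (hl : 0 ≤ lam) (h : C1 ≤ C0)
    (hP : Par C0 κ σ lam Y g0 n) : Par C1 κ σ lam Y g0 n := by
  obtain ⟨h1, h2, h3, h4, h5, h6⟩ := hP
  exact ⟨h1, h2, h.trans h3, h4, (mul_le_mul_of_nonneg_right h (by positivity)).trans h5, h6⟩

/-- first term, pure inequality -/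
private theorem bm_t1 {C lam θ D N n23 k : ℝ} (hC : 0 < C) (hl : 0 < lam) (hθ : 0 < θ)
    (hD : 0 < D) (hx : 1 ≤ θ * √D) (hn : 0 < n23) (hk : k = D / 2)
    (hN : n23 / (2 * lam ^ 3) ≤ N) :
    C * (3 * θ * √D + 1) ^ 2 * (3 * θ * √D + θ * √D + 1) / (N * √k) ≤
      320 * C * lam ^ 3 * (θ ^ 3 * D / n23) := by
  have hs : 0 < √D := Real.sqrt_pos.2 hD
  have hss : √D ^ 2 = D := Real.sq_sqrt hD.le
  have hk2 : √D / 2 ≤ √k := by
    rw [hk]
    refine Real.le_sqrt_of_sq_le ?_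
    rw [div_pow, hss]
    linarith
  have hden : n23 * √D / (4 * lam ^ 3) ≤ N * √k := by
    calc n23 * √D / (4 * lam ^ 3) = n23 / (2 * lam ^ 3) * (√D / 2) := by ring
      _ ≤ N * √k := mul_le_mul hN hk2 (by positivity) ((by positivity : 0 ≤ n23 / (2 * lam ^ 3)).trans hN)
  have hnum : C * (3 * θ * √D + 1) ^ 2 * (3 * θ * √D + θ * √D + 1) ≤
      80 * C * (θ ^ 3 * D * √D) := by
    set x := θ * √D with hxd
    have e1 : 3 * θ * √D = 3 * x := by rw [hxd]; ring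
    have e2 : θ ^ 3 * D * √D = x ^ 3 := by
      rw [hxd, mul_pow]
      calc θ ^ 3 * D * √D = θ ^ 3 * (√D ^ 2 * √D) := by rw [hss]; ring
        _ = θ ^ 3 * √D ^ 3 := by ring
    rw [e1, e2]
    have h1 : (3 * x + 1) ^ 2 ≤ (4 * x) ^ 2 := by
      apply pow_le_pow_left₀ (by linarith)
      linarith
    have h2 : 3 * x + x + 1 ≤ 5 * x := by linarith
    calc C * (3 * x + 1) ^ 2 * (3 * x + x + 1) ≤ C * (4 * x) ^ 2 * (5 * x) := by
          gcongr
      _ = 80 * C * x ^ 3 := by ring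
  have hd0 : 0 < n23 * √D / (4 * lam ^ 3) := by positivity
  calc C * (3 * θ * √D + 1) ^ 2 * (3 * θ * √D + θ * √D + 1) / (N * √k)
      ≤ (80 * C * (θ ^ 3 * D * √D)) / (n23 * √D / (4 * lam ^ 3)) :=
        div_le_div₀ (by positivity) hnum hd0 hden
    _ = 320 * C * lam ^ 3 * (θ ^ 3 * D / n23) := by
        field_simp
        ring

/-- second term, pure inequality -/
private theorem bm_t2 {C lam θ D N n23 n13 k : ℝ} (hC : 0 < C) (hl : 1 ≤ lam) (hθ : 0 < θ)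
    (hθ1 : θ ≤ 1)
    (hD : 0 < D) (hx : 1 ≤ θ * √D) (hn : 0 < n23) (hk : k = D / 2)
    (hN : n23 / (2 * lam ^ 3) ≤ N) (hn13 : lam ^ 10 * √D / θ ^ 2 ≤ n13) :
    C * (3 * θ * √D + 1) ^ 2 * (2 * lam * (lam * √k)) / (N * n13) ≤
      64 * C * (θ ^ 3 * D / n23) := by
  have hl0 : 0 < lam := by linarith
  have hs : 0 < √D := Real.sqrt_pos.2 hD
  have hss : √D ^ 2 = D := Real.sq_sqrt hD.le
  have hk2 : √k ≤ √D := by
    rw [hk]
    exact Real.sqrt_le_sqrt (by linarith)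
  have hden : n23 * (lam ^ 7 * √D) / (2 * θ ^ 2) ≤ N * n13 := by
    calc n23 * (lam ^ 7 * √D) / (2 * θ ^ 2)
        = n23 / (2 * lam ^ 3) * (lam ^ 10 * √D / θ ^ 2) := by field_simp
      _ ≤ N * n13 := mul_le_mul hN hn13 (by positivity)
          ((by positivity : 0 ≤ n23 / (2 * lam ^ 3)).trans hN)
  have hnum : C * (3 * θ * √D + 1) ^ 2 * (2 * lam * (lam * √k)) ≤
      32 * C * lam ^ 2 * (θ ^ 2 * D * √D) := by
    set x := θ * √D with hxd
    have e1 : 3 * θ * √D = 3 * x := by rw [hxd]; ring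
    have e2 : θ ^ 2 * D = x ^ 2 := by rw [hxd, mul_pow, hss]
    rw [e1, e2]
    have h1 : (3 * x + 1) ^ 2 ≤ (4 * x) ^ 2 := by
      apply pow_le_pow_left₀ (by linarith)
      linarith
    calc C * (3 * x + 1) ^ 2 * (2 * lam * (lam * √k)) ≤
          C * (4 * x) ^ 2 * (2 * lam * (lam * √D)) := by gcongr
      _ = 32 * C * lam ^ 2 * (x ^ 2 * √D) := by ring
  have hd0 : 0 < n23 * (lam ^ 7 * √D) / (2 * θ ^ 2) := by positivity
  calc C * (3 * θ * √D + 1) ^ 2 * (2 * lam * (lam * √k)) / (N * n13)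
      ≤ (32 * C * lam ^ 2 * (θ ^ 2 * D * √D)) / (n23 * (lam ^ 7 * √D) / (2 * θ ^ 2)) :=
        div_le_div₀ (by positivity) hnum hd0 hden
    _ = 64 * C * (θ ^ 3 * D / n23) * (θ / lam ^ 5) := by
        field_simp
        ring
    _ ≤ 64 * C * (θ ^ 3 * D / n23) * 1 := by
        refine mul_le_mul_of_nonneg_left ?_ (by positivity)
        rw [div_le_one (by positivity)]
        exact hθ1.trans (one_le_pow₀ hl)
    _ = 64 * C * (θ ^ 3 * D / n23) := by ring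

/-- third term -/
private theorem bm_t3 {C lam h k : ℝ} (hC : 1 ≤ C) (hh : 0 < h) (hh1 : h < 1)
    (hL : 12 * C ≤ Real.log (1 / h)) (hl : Real.log (1 / h) ≤ lam) (hk : 0 < k) :
    C * Real.exp (-((lam * √k) ^ 2 / (C * k))) ≤ h ^ 10 := by
  have hL0 : 0 < Real.log (1 / h) := by linarith
  set L := Real.log (1 / h) with hLd
  have hexp : Real.exp (-L) = h := by
    rw [hLd, Real.log_div one_ne_zero hh.ne', Real.log_one, zero_sub, neg_neg, Real.exp_log hh]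
  have e1 : (lam * √k) ^ 2 / (C * k) = lam ^ 2 / C := by
    rw [mul_pow, Real.sq_sqrt hk.le]
    field_simp
  rw [e1]
  have h1 : 12 * L ≤ lam ^ 2 / C := by
    rw [le_div_iff₀ (by linarith)]
    calc 12 * L * C = 12 * C * L := by ring
      _ ≤ L * L := mul_le_mul_of_nonneg_right hL hL0.le
      _ ≤ lam * lam := mul_le_mul hl hl hL0.le (hL0.le.trans hl)
      _ = lam ^ 2 := by ring
  have h2 : Real.exp (-(lam ^ 2 / C)) ≤ h ^ 12 := by
    calc Real.exp (-(lam ^ 2 / C)) ≤ Real.exp (((12 : ℕ) : ℝ) * (-L)) := by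
          apply Real.exp_le_exp.2
          push_cast
          linarith
      _ = h ^ 12 := by rw [Real.exp_nat_mul, hexp]
  have h3 : C * h ≤ 1 := by
    have h4 : C ≤ 1 / h := by
      have h5 : L + 1 ≤ Real.exp L := Real.add_one_le_exp L
      have h6 : Real.exp L = 1 / h := Real.exp_log (by positivity)
      rw [h6] at h5
      linarith
    calc C * h ≤ 1 / h * h := by gcongr
      _ = 1 := by field_simp
  calc C * Real.exp (-(lam ^ 2 / C)) ≤ C * h ^ 12 := by gcongr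
    _ = (C * h) * h * h ^ 10 := by ring
    _ ≤ 1 * 1 * h ^ 10 := by gcongr
    _ = h ^ 10 := by ring

/-- all numerical facts on the parameters -/
private theorem bm_num {κ : ℝ} (hκ : 0 < κ) (C0 : ℝ) (hC0 : 1 ≤ C0) : ∃ C1 : ℝ, 2 ≤ C1 ∧
    ∀ (h lam : ℝ) (j : ℕ), HP C1 h lam → jL h ≤ j → th h j * lam ^ 25 ≤ 1 →
    (rou h lam j : ℝ) ≤ h⁻¹ ^ 3 →
    0 < h ∧ h < 1 ∧ 64 * C0 + 64 ≤ Real.log (1 / h) ∧ Real.log (1 / h) ≤ lam ∧
    64 * C0 + 64 ≤ lam ∧ 1 ≤ j ∧ 0 < th h j ∧ th h j ≤ 1 ∧ 1 ≤ th h j * √(2 ^ j) ∧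
    lam ^ 50 ≤ (2 : ℝ) ^ j ∧
    C0 * lam ^ 3 ≤ rin h lam j ∧ 8 * rin h lam j ≤ rou h lam j ∧
    Kc κ lam (rin h lam j) ≤ 2 ^ (j - 1) ∧
    17 * 2 ^ (j - 1) ≤ Ic lam (rou h lam j) ∧
    lam ^ 10 * √(2 ^ j) / th h j ^ 2 ≤ (rou h lam j : ℝ) ^ (1 / 3 : ℝ) ∧
    0 < (rou h lam j : ℝ) ^ (2 / 3 : ℝ) ∧
    (rou h lam j : ℝ) ^ (2 / 3 : ℝ) / (2 * lam ^ 3) ≤
      ((Ic lam (rou h lam j) - Kc κ lam (rin h lam j) : ℕ) : ℝ) ∧
    h ^ 10 ≤ (th h j ^ 3 * 2 ^ j / (rou h lam j : ℝ) ^ (2 / 3 : ℝ)) := by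
  obtain ⟨Ca, hCa, Ha⟩ := rin_bounds C0
  obtain ⟨Cb, hCb, Hb⟩ := rou_bounds
  have hm1 : Ca ≤ max (max Ca Cb) (max (64 * C0 + 64) (400 / κ)) :=
    (le_max_left _ _).trans (le_max_left _ _)
  have hm2 : Cb ≤ max (max Ca Cb) (max (64 * C0 + 64) (400 / κ)) :=
    (le_max_right _ _).trans (le_max_left _ _)
  have hm3 : 64 * C0 + 64 ≤ max (max Ca Cb) (max (64 * C0 + 64) (400 / κ)) :=
    (le_max_left _ _).trans (le_max_right _ _)
  have hm4 : 400 / κ ≤ max (max Ca Cb) (max (64 * C0 + 64) (400 / κ)) :=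
    (le_max_right _ _).trans (le_max_right _ _)
  refine ⟨max (max Ca Cb) (max (64 * C0 + 64) (400 / κ)), hCa.trans hm1, ?_⟩
  intro h lam j hp hj hth hrou
  obtain ⟨r1, r2, r3, r4, r5⟩ := Ha h lam j (hp.mono hm1) hj
  obtain ⟨s1, s2⟩ := Hb h lam j (hp.mono hm2)
  obtain ⟨b1, b2, b3⟩ := hp_basic (hCa.trans hm1) hp
  obtain ⟨hh, hh1, hL, -, -⟩ := hp
  have l1 : 64 * C0 + 64 ≤ lam := hm3.trans b1
  have l2 : 400 / κ ≤ lam := hm4.trans b1
  have l128 : 128 ≤ lam := by linarith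
  have l0 : 0 < lam := by linarith
  have l11 : 1 ≤ lam := by linarith
  set D : ℝ := (2 : ℝ) ^ j with hD
  have hD0 : 0 < D := by positivity
  have hth0 : 0 < th h j := by
    unfold th
    exact Real.rpow_pos_of_pos (by positivity) _
  have hth1 : th h j ≤ 1 := by
    calc th h j = th h j * 1 := by ring
      _ ≤ th h j * lam ^ 25 := mul_le_mul_of_nonneg_left (one_le_pow₀ l11) hth0.le
      _ ≤ 1 := hth
  have hinv : 1 ≤ h⁻¹ := (one_le_inv₀ hh).2 hh1.le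
  have hx2 : 1 ≤ th h j ^ 2 * D := (Real.one_le_rpow hinv (by norm_num)).trans r5
  have hDD : lam ^ 50 ≤ D := by
    have e1 : (th h j * lam ^ 25) ^ 2 ≤ 1 := pow_le_one₀ (by positivity) hth
    calc lam ^ 50 = lam ^ 50 * 1 := by ring
      _ ≤ lam ^ 50 * (th h j ^ 2 * D) := mul_le_mul_of_nonneg_left hx2 (by positivity)
      _ = (th h j * lam ^ 25) ^ 2 * D := by ring
      _ ≤ 1 * D := mul_le_mul_of_nonneg_right e1 hD0.le
      _ = D := one_mul D
  have hlD : lam ≤ D := by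
    calc lam = lam ^ 1 := (pow_one lam).symm
      _ ≤ lam ^ 50 := pow_le_pow_right₀ l11 (by norm_num)
      _ ≤ D := hDD
  set P : ℝ := (rou h lam j : ℝ) ^ (2 / 3 : ℝ) with hP
  have hD4 : D ≤ D / th h j ^ 4 := by
    rw [le_div_iff₀ (by positivity)]
    have : th h j ^ 4 ≤ 1 := pow_le_one₀ hth0.le hth1
    exact mul_le_of_le_one_right hD0.le this
  have hPD : lam ^ 20 * D ≤ P := by
    calc lam ^ 20 * D ≤ lam ^ 20 * (D / th h j ^ 4) := by gcongr
      _ = lam ^ 20 * D / th h j ^ 4 := by ring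
      _ ≤ P := s1
  have hP0 : 0 < P := lt_of_lt_of_le (by positivity) hPD
  have hk : ((2 ^ (j - 1) : ℕ) : ℝ) = D / 2 := by
    push_cast
    rw [hD]
    obtain ⟨i, rfl⟩ : ∃ i, j = i + 1 := ⟨j - 1, by omega⟩
    simp only [Nat.add_sub_cancel, pow_succ]
    ring
  have hPl : lam ^ 17 * D ≤ P / lam ^ 3 := by
    rw [le_div_iff₀ (by positivity)]
    calc lam ^ 17 * D * lam ^ 3 = lam ^ 20 * D := by ring
      _ ≤ P := hPD
  have hl17 : 128 ≤ lam ^ 17 := by
    calc (128 : ℝ) ≤ lam ^ 1 := by rw [pow_one]; exact l128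
      _ ≤ lam ^ 17 := pow_le_pow_right₀ l11 (by norm_num)
  have hPl2 : 128 * D ≤ P / lam ^ 3 := (mul_le_mul_of_nonneg_right hl17 hD0.le).trans hPl
  have hthD : th h j ^ 2 * D / lam ^ 6 ≤ D / lam ^ 6 := by
    have : th h j ^ 2 ≤ 1 := pow_le_one₀ hth0.le hth1
    exact div_le_div_of_nonneg_right (mul_le_of_le_one_left hD0.le this) (by positivity)
  have hK : Kc κ lam (rin h lam j) ≤ 2 ^ (j - 1) := by
    unfold Kc
    rw [Nat.ceil_le, hk]
    have hk4 : 96 / κ * (2 * lam) ≤ lam ^ 6 / 2 := by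
      have e1 : 96 / κ ≤ lam / 4 := by
        have : 96 / κ * 4 ≤ 400 / κ := by
          rw [div_mul_eq_mul_div]
          gcongr
          norm_num
        linarith
      have e2 : lam ^ 2 ≤ lam ^ 6 := pow_le_pow_right₀ l11 (by norm_num)
      calc 96 / κ * (2 * lam) ≤ lam / 4 * (2 * lam) := by gcongr
        _ = lam ^ 2 / 2 := by ring
        _ ≤ lam ^ 6 / 2 := by linarith
    calc 96 / κ * (2 * lam) * (rin h lam j : ℝ) ^ (2 / 3 : ℝ)
        ≤ lam ^ 6 / 2 * (D / lam ^ 6) :=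
          mul_le_mul hk4 (r4.trans hthD) (by positivity) (by positivity)
      _ = D / 2 := by field_simp
  have hI : 17 * 2 ^ (j - 1) ≤ Ic lam (rou h lam j) := by
    unfold Ic
    refine Nat.le_floor ?_
    rw [Nat.cast_mul, hk]
    push_cast
    linarith
  refine ⟨hh, hh1, hm3.trans hL, b2, l1, r1, hth0, hth1, ?_, hDD, r2, ?_, hK, hI, ?_, hP0, ?_, ?_⟩
  · have e : 1 ≤ (th h j * √D) ^ 2 := by
      rw [mul_pow, Real.sq_sqrt hD0.le]
      exact hx2
    have e0 : 0 ≤ th h j * √D := by positivity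
    by_contra hc
    push Not at hc
    have : (th h j * √D) ^ 2 < 1 := pow_lt_one₀ e0 hc (by norm_num)
    linarith
  · by_contra hc
    push Not at hc
    have e1 : (rou h lam j : ℝ) ≤ 8 * (rin h lam j : ℝ) := by exact_mod_cast hc.le
    have e2 : P ≤ (8 * (rin h lam j : ℝ)) ^ (2 / 3 : ℝ) :=
      Real.rpow_le_rpow (Nat.cast_nonneg _) e1 (by norm_num)
    have e3 : (8 : ℝ) ^ (2 / 3 : ℝ) = 4 := by
      have : (8 : ℝ) = (2 : ℝ) ^ (3 : ℝ) := by norm_num
      rw [this, ← Real.rpow_mul (by norm_num)]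
      norm_num
    rw [Real.mul_rpow (by norm_num) (Nat.cast_nonneg _), e3] at e2
    have e4 : (rin h lam j : ℝ) ^ (2 / 3 : ℝ) ≤ D := by
      refine (r4.trans hthD).trans ?_
      rw [div_le_iff₀ (by positivity)]
      have : 1 ≤ lam ^ 6 := one_le_pow₀ l11
      exact le_mul_of_one_le_right hD0.le this
    have e5 : 128 ≤ lam ^ 20 := by
      calc (128 : ℝ) ≤ lam ^ 1 := by rw [pow_one]; exact l128
        _ ≤ lam ^ 20 := pow_le_pow_right₀ l11 (by norm_num)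
    have e6 : 128 * D ≤ P := (mul_le_mul_of_nonneg_right e5 hD0.le).trans hPD
    linarith
  · have ht : P = ((rou h lam j : ℝ) ^ (1 / 3 : ℝ)) ^ 2 := by
      rw [hP, ← Real.rpow_natCast, ← Real.rpow_mul (Nat.cast_nonneg _)]
      norm_num
    have e0 : 0 ≤ (rou h lam j : ℝ) ^ (1 / 3 : ℝ) := Real.rpow_nonneg (Nat.cast_nonneg _) _
    refine le_of_pow_le_pow_left₀ (two_ne_zero) e0 ?_
    rw [← ht]
    calc (lam ^ 10 * √D / th h j ^ 2) ^ 2 = lam ^ 20 * √D ^ 2 / th h j ^ 4 := by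
          rw [div_pow, mul_pow]; ring
      _ = lam ^ 20 * D / th h j ^ 4 := by rw [Real.sq_sqrt hD0.le]
      _ ≤ P := s1
  · have hle : Kc κ lam (rin h lam j) ≤ Ic lam (rou h lam j) := by omega
    rw [Nat.cast_sub hle]
    have e1 : (Kc κ lam (rin h lam j) : ℝ) ≤ D / 2 := by
      rw [← hk]
      exact_mod_cast hK
    have e2 : P / lam ^ 3 - 1 < (Ic lam (rou h lam j) : ℝ) := by
      unfold Ic
      exact Nat.sub_one_lt_floor _
    have e3 : P / (2 * lam ^ 3) = P / lam ^ 3 / 2 := by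
      field_simp
    rw [e3]
    linarith
  · have e1 : P ≤ h⁻¹ ^ 2 := by
      have e2 : P ≤ (h⁻¹ ^ 3) ^ (2 / 3 : ℝ) :=
        Real.rpow_le_rpow (Nat.cast_nonneg _) hrou (by norm_num)
      refine e2.trans (le_of_eq ?_)
      rw [← Real.rpow_natCast, ← Real.rpow_mul (by positivity), ← Real.rpow_natCast]
      norm_num
    have e3 : h ≤ th h j := by
      have e4 : th h j ^ 20 = h ^ 2 * D := by
        unfold th
        rw [← Real.rpow_natCast, ← Real.rpow_mul (by positivity)]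
        norm_num
        exact Or.inl hD.symm
      by_contra hc
      push Not at hc
      have e5 : th h j ^ 20 < h ^ 20 := pow_lt_pow_left₀ hc hth0.le (by norm_num)
      have e6 : h ^ 20 ≤ h ^ 2 := pow_le_pow_of_le_one hh.le hh1.le (by norm_num)
      have e7 : h ^ 2 * 1 ≤ h ^ 2 * D := mul_le_mul_of_nonneg_left (by linarith) (by positivity)
      linarith
    have e8 : h ≤ th h j ^ 3 * D := by
      calc h ≤ th h j := e3
        _ = th h j * 1 := by ring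
        _ ≤ th h j * (th h j ^ 2 * D) := mul_le_mul_of_nonneg_left hx2 hth0.le
        _ = th h j ^ 3 * D := by ring
    rw [le_div_iff₀ hP0]
    calc h ^ 10 * P ≤ h ^ 10 * h⁻¹ ^ 2 := by gcongr
      _ = h ^ 8 := by field_simp
      _ ≤ h ^ 1 := pow_le_pow_of_le_one hh.le hh1.le (by norm_num)
      _ = h := pow_one h
      _ ≤ th h j ^ 3 * D := e8

theorem mid_prob {κ : ℝ} (hκ : 0 < κ) : ∃ C1 : ℝ, 2 ≤ C1 ∧ ∀ (σ h lam : ℝ) (j : ℕ),
    HP C1 h lam → κ ≤ σ → σ ≤ 1 - κ → jL h ≤ j → th h j * lam ^ 25 ≤ 1 →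
    (rou h lam j : ℝ) ≤ h⁻¹ ^ 3 →
    (PI (ℤ × ℤ)).real (MidS κ σ lam h j) ≤
      lam ^ 5 * th h j ^ 3 * 2 ^ j / (rou h lam j : ℝ) ^ (2 / 3 : ℝ) := by
  obtain ⟨Ca, hCa, Ha⟩ := st2 hκ
  obtain ⟨Cb, hCb, Hb⟩ := st3 hκ
  obtain ⟨Cc, hCc, Hc⟩ := FLp_res hκ
  obtain ⟨Cd, hCd, Hd⟩ := good_crude hκ
  set C0 : ℝ := Ca + Cb + Cc + Cd with hC0
  have hC01 : 1 ≤ C0 := by linarith
  obtain ⟨Ce, hCe, He⟩ := par_crude hκ hC01
  obtain ⟨Cf, hCf, Hf⟩ := crE_bad hκ
  obtain ⟨Cg, hCg, Hg⟩ := bm_num hκ C0 hC01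
  refine ⟨Cd + Ce + Cf + Cg, by linarith, ?_⟩
  intro σ h lam j hp hσ1 hσ2 hj hth hrou
  obtain ⟨hh, hh1, hL, hLl, hlC, hj1, hth0, hth1, hx, hD50, hrin, h8, hK, hI, hn13, hP0, hN, hh10⟩ :=
    Hg h lam j (hp.mono (by linarith)) hj hth hrou
  have hl128 : 128 ≤ lam := by linarith
  have hl0 : 0 < lam := by linarith
  have hl1 : 1 ≤ lam := by linarith
  set n := rou h lam j with hn
  set r := rin h lam j with hr
  set K := Kc κ lam r with hKd
  set D : ℝ := (2 : ℝ) ^ j with hD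
  set P : ℝ := (n : ℝ) ^ (2 / 3 : ℝ) with hPd
  have hD0 : 0 < D := by positivity
  set k : ℕ := 2 ^ (j - 1) with hkd
  have hk : (k : ℝ) = D / 2 := by
    rw [hkd, hD]
    push_cast
    obtain ⟨i, hi⟩ : ∃ i, j = i + 1 := ⟨j - 1, by omega⟩
    rw [hi]
    simp only [Nat.add_sub_cancel, pow_succ]
    ring
  have hk1 : 1 ≤ k := Nat.one_le_two_pow
  have hk0 : (0 : ℝ) < k := by exact_mod_cast hk1
  set N : ℕ := Ic lam n - K with hNd
  have hKN : K + N = Ic lam n := by omega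
  have h16 : 16 * k ≤ N := by omega
  have hrn : r ≤ n := by omega
  have hg0n : C0 * lam ^ 3 ≤ n := hrin.trans (by exact_mod_cast hrn)
  have hpar : Par C0 κ σ lam (2 * lam) (C0 * lam ^ 3) n :=
    He σ h lam n (hp.mono (by linarith)) hσ1 hσ2 hg0n
  have hn1 : 1 ≤ n := by
    have : (1 : ℝ) ≤ n := by
      have : 1 ≤ lam ^ 3 := one_le_pow₀ hl1
      exact (one_le_mul_of_one_le_of_one_le hC01 this).trans hg0n
    exact_mod_cast this
  have hA1 : 1 ≤ 4 * arc lam n := by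
    unfold arc
    have : 1 ≤ P := Real.one_le_rpow (by exact_mod_cast hn1) (by norm_num)
    rw [← hPd]
    have h2 : 1 ≤ lam * P := one_le_mul_of_one_le_of_one_le hl1 this
    linarith
  have hA2 : 4 * arc lam n ≤ 4 * (2 * lam) * (n : ℝ) ^ (2 / 3 : ℝ) := by
    unfold arc
    linarith
  have hIc : (Ic lam n : ℝ) ≤ P / lam ^ 3 := by
    unfold Ic
    exact Nat.floor_le (by positivity)
  -- the range
  have hrange : ∀ C : ℝ, 0 ≤ C → C ≤ C0 →
      C * (2 * lam) ^ 2 * ((K : ℝ) + (N : ℝ)) ≤ (n : ℝ) ^ (2 / 3 : ℝ) := by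
    intro C hC hCC
    have e1 : (K : ℝ) + N = Ic lam n := by exact_mod_cast hKN
    rw [e1, ← hPd]
    calc C * (2 * lam) ^ 2 * (Ic lam n : ℝ) ≤ C0 * (2 * lam) ^ 2 * (P / lam ^ 3) := by gcongr
      _ = (4 * C0 / lam) * P := by field_simp; ring
      _ ≤ 1 * P := by
        refine mul_le_mul_of_nonneg_right ?_ hP0.le
        rw [div_le_one hl0]
        linarith
      _ = P := one_mul P
  -- the events
  set ζ : ℝ := lam * √k with hζ
  set s : ℝ := 3 * th h j * √D with hs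
  set b : ℝ := th h j * √D with hb
  have hζ1 : √(k : ℝ) ≤ ζ := by
    rw [hζ]
    exact le_mul_of_one_le_left (Real.sqrt_nonneg (k : ℝ)) hl1
  have hζ2 : ζ ≤ k := by
    have e1 : lam ≤ √(k : ℝ) := by
      refine Real.le_sqrt_of_sq_le ?_
      rw [hk]
      have e2 : lam ^ 3 ≤ D := (pow_le_pow_right₀ hl1 (by norm_num)).trans hD50
      have e3 : lam ^ 2 * 2 ≤ lam ^ 2 * lam :=
        mul_le_mul_of_nonneg_left (by linarith) (sq_nonneg _)
      have e4 : lam ^ 2 * lam = lam ^ 3 := by ring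
      linarith
    calc ζ = lam * √k := hζ
      _ ≤ √k * √k := mul_le_mul_of_nonneg_right e1 (Real.sqrt_nonneg _)
      _ = k := Real.mul_self_sqrt hk0.le
  have hs0 : 0 ≤ s := by positivity
  have hb0 : 0 ≤ b := by positivity
  have hsub : MidS κ σ lam h j ⊆ {ω | ¬ CrE κ lam (8 * n) ω} ∪
      ({ω | GoodE κ σ lam (2 * lam) (C0 * lam ^ 3) (2 * n) ω ∧
        NR σ (4 * arc lam n) n K (K + N) s ω ∧ Clo σ (4 * arc lam n) n K k b ω} ∪
      {ω | GoodE κ σ lam (2 * lam) (C0 * lam ^ 3) (2 * n) ω ∧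
        NR σ (4 * arc lam n) n K (K + N) s ω ∧ Wd σ (4 * arc lam n) n K (4 * k) ω}) := by
    intro ω hω
    by_cases hcr : CrE κ lam (8 * n) ω
    swap
    · exact Or.inl hcr
    right
    have hG2 : GoodE κ σ lam (2 * lam) (C0 * lam ^ 3) (2 * n) ω := by
      refine Hd C0 σ h lam (2 * n) (8 * n) ω (by linarith) (hp.mono (by linarith)) hσ1 hσ2 ?_
        (by omega) hcr
      push_cast
      linarith [(Nat.cast_nonneg n : (0 : ℝ) ≤ n)]
    have hG1 : GoodE κ σ lam (2 * lam) (C0 * lam ^ 3) n ω :=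
      Hd C0 σ h lam n (8 * n) ω (by linarith) (hp.mono (by linarith)) hσ1 hσ2 hg0n
        (by omega) hcr
    have hres : ∀ i : ℤ, (K : ℤ) ≤ |i| → |i| ≤ (Ic lam n : ℤ) →
        FLp σ (4 * arc lam n) n (res (RR σ lam n \ RR σ lam r) ω) i =
          FLp σ (4 * arc lam n) n ω i ∧
        FRp σ (4 * arc lam n) n (res (RR σ lam n \ RR σ lam r) ω) i =
          FRp σ (4 * arc lam n) n ω i := by
      intro i hi1 hi2
      refine Hc σ lam (2 * lam) (C0 * lam ^ 3) (4 * arc lam n) n ω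
        (bm_par_mono hl0.le (by linarith) hpar) hG1 (by linarith) hA2 r hrin h8 _ ?_ i ?_ ?_
      · unfold RR arc
        exact subset_rfl
      · rw [← hPd]
        have e1 : |(i : ℝ)| ≤ (Ic lam n : ℝ) := by exact_mod_cast hi2
        refine (e1.trans hIc).trans ?_
        rw [div_le_iff₀ (by positivity)]
        have e2 : 1 ≤ lam ^ 3 := one_le_pow₀ hl1
        have e3 : 1 ≤ 2 * lam / 8 * lam ^ 3 :=
          one_le_mul_of_one_le_of_one_le (by linarith) e2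
        calc P = 1 * P := (one_mul P).symm
          _ ≤ (2 * lam / 8 * lam ^ 3) * P := mul_le_mul_of_nonneg_right e3 hP0.le
          _ = 2 * lam * P / 8 * lam ^ 3 := by ring
      · have e1 : (K : ℝ) ≤ |(i : ℝ)| := by exact_mod_cast hi1
        refine le_trans ?_ e1
        rw [hKd]
        unfold Kc
        exact Nat.le_ceil _
    obtain ⟨hNR, hor⟩ := hω
    have hKI : (K : ℤ) ≤ (Ic lam n : ℤ) := by exact_mod_cast (by omega : K ≤ Ic lam n)
    have hK0 : (0 : ℤ) ≤ (K : ℤ) := Int.natCast_nonneg _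
    have hresK := hres (K : ℤ) (by rw [abs_of_nonneg hK0]) (by rw [abs_of_nonneg hK0]; exact hKI)
    have hresK' := hres (-(K : ℤ)) (by rw [abs_neg, abs_of_nonneg hK0])
      (by rw [abs_neg, abs_of_nonneg hK0]; exact hKI)
    have hNR' : NR σ (4 * arc lam n) n K (K + N) s ω := by
      intro i hi hi'
      rw [hKN] at hi'
      have hi0 : 0 ≤ i := by omega
      have e := hNR i hi hi'
      rw [(hres i (by rw [abs_of_nonneg hi0]; omega) (by rw [abs_of_nonneg hi0]; exact hi')).1,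
        hresK.1,
        (hres (-i) (by rw [abs_neg, abs_of_nonneg hi0]; omega)
          (by rw [abs_neg, abs_of_nonneg hi0]; exact hi')).2, hresK'.2] at e
      exact e
    have h5 : ((K + 4 * k : ℕ) : ℤ) ≤ (Ic lam n : ℤ) := by exact_mod_cast (by omega : K + 4 * k ≤ Ic lam n)
    rcases hor with hclo | hwd
    · left
      refine ⟨hG2, hNR', ?_⟩
      obtain ⟨i, hi, hi', hi3⟩ := hclo
      refine ⟨i, hi, hi', ?_⟩
      have hi0 : 0 ≤ i := le_trans (Int.natCast_nonneg _) hi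
      have hKk : (K : ℤ) ≤ ((K + k : ℕ) : ℤ) := by exact_mod_cast Nat.le_add_right K k
      have hKi : (K : ℤ) ≤ i := hKk.trans hi
      rw [(hres i (by rw [abs_of_nonneg hi0]; exact hKi)
        (by rw [abs_of_nonneg hi0]; exact hi'.trans h5)).1, hresK.1] at hi3
      exact hi3
    · right
      refine ⟨hG2, hNR', ?_⟩
      obtain ⟨i, hi, hi', hi3⟩ := hwd
      refine ⟨i, hi, hi', ?_⟩
      have hKi : (K : ℤ) < i := hi
      have hi0 : 0 ≤ i := hK0.trans hKi.le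
      have hi1 : 0 ≤ i - 1 := Int.sub_nonneg_of_le (Int.add_one_le_of_lt (hK0.trans_lt hKi))
      have q1 := hres i (by rw [abs_of_nonneg hi0]; exact hKi.le)
        (by rw [abs_of_nonneg hi0]; exact hi'.trans h5)
      have q2 := hres (i - 1) (by rw [abs_of_nonneg hi1]; exact Int.le_sub_one_of_lt hKi)
        (by rw [abs_of_nonneg hi1]; exact (Int.sub_le_self i (by norm_num)).trans (hi'.trans h5))
      rw [q1.1, q1.2, q2.1, q2.2] at hi3
      exact hi3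
  -- the probabilities
  have hbad : (PI (ℤ × ℤ)).real {ω | ¬ CrE κ lam (8 * n) ω} ≤ h ^ 10 := by
    refine Hf h lam (8 * n) (hp.mono (by linarith)) ?_
    push_cast
    have h8' : (8 : ℝ) ≤ h⁻¹ := by
      have e1 := Real.add_one_le_exp (Real.log (1 / h))
      rw [Real.exp_log (by positivity), one_div] at e1
      rw [one_div] at hL
      linarith
    calc 8 * (n : ℝ) ≤ h⁻¹ * h⁻¹ ^ 3 := by gcongr
      _ = h⁻¹ ^ 4 := by ring
  have hparA : Par Ca κ σ lam (2 * lam) (C0 * lam ^ 3) n :=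
    bm_par_mono hl0.le (by linarith) hpar
  have hparB : Par Cb κ σ lam (2 * lam) (C0 * lam ^ 3) n :=
    bm_par_mono hl0.le (by linarith) hpar
  have h2 := Ha σ lam (2 * lam) (C0 * lam ^ 3) (4 * arc lam n) n hparA hA1 hA2 K k N hk1 hK h16
    (hrange Ca (by linarith) (by linarith)) s b ζ hs0 hb0 hζ1 hζ2
  have h3 := Hb σ lam (2 * lam) (C0 * lam ^ 3) (4 * arc lam n) n hparB hA1 hA2 K k N hk1 hK h16
    (hrange Cb (by linarith) (by linarith)) s ζ hs0 hζ1 hζ2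
  set X : ℝ := th h j ^ 3 * D / P with hX
  have hX0 : 0 < X := by positivity
  have t1 := bm_t1 (C := Ca) (by linarith) hl0 hth0 hD0 hx hP0 hk hN
  have t2 := bm_t2 (C := Ca) (by linarith) hl1 hth0 hth1 hD0 hx hP0 hk hN hn13
  have t2' := bm_t2 (C := Cb) (by linarith) hl1 hth0 hth1 hD0 hx hP0 hk hN hn13
  have t3 := bm_t3 (C := Ca) hCa hh hh1 (by linarith) hLl hk0
  have t3' := bm_t3 (C := Cb) hCb hh hh1 (by linarith) hLl hk0
  have hfin : (PI (ℤ × ℤ)).real (MidS κ σ lam h j) ≤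
      h ^ 10 + ((320 * Ca * lam ^ 3 * X + 64 * Ca * X + h ^ 10) + (64 * Cb * X + h ^ 10)) := by
    refine (measureReal_mono hsub (measure_ne_top _ _)).trans ?_
    refine (measureReal_union_le _ _).trans (add_le_add hbad ?_)
    refine (measureReal_union_le _ _).trans (add_le_add ?_ ?_)
    · refine h2.trans (add_le_add (add_le_add ?_ ?_) t3)
      · exact t1
      · exact t2
    · exact h3.trans (add_le_add t2' t3')
  refine hfin.trans ?_
  have e1 : lam ^ 5 * th h j ^ 3 * 2 ^ j / P = lam ^ 5 * X := by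
    rw [hX]
    ring
  rw [e1]
  have hCab : Ca + Cb ≤ C0 := by linarith
  have h5 : 320 * C0 * lam ^ 3 + 64 * C0 + 3 ≤ lam ^ 5 := by
    have q1 : 1 ≤ lam ^ 3 := one_le_pow₀ hl1
    have q2 : 384 * C0 + 3 ≤ lam ^ 2 := by
      have q0 : 128 * lam ≤ lam * lam := mul_le_mul_of_nonneg_right hl128 hl0.le
      rw [sq]
      linarith
    have q6 : C0 ≤ C0 * lam ^ 3 := le_mul_of_one_le_right (by linarith) q1
    calc 320 * C0 * lam ^ 3 + 64 * C0 + 3 ≤ 320 * C0 * lam ^ 3 + 64 * C0 * lam ^ 3 + 3 * lam ^ 3 := by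
          linarith
      _ = (384 * C0 + 3) * lam ^ 3 := by ring
      _ ≤ lam ^ 2 * lam ^ 3 := by gcongr
      _ = lam ^ 5 := by ring
  have q3 : 320 * Ca * lam ^ 3 * X ≤ 320 * C0 * lam ^ 3 * X := by
    have : Ca ≤ C0 := by linarith
    gcongr
  have q4 : 64 * Ca * X + 64 * Cb * X ≤ 64 * C0 * X := by
    have : 64 * (Ca + Cb) * X ≤ 64 * C0 * X := by gcongr
    linarith
  have q5 : (320 * C0 * lam ^ 3 + 64 * C0 + 3) * X ≤ lam ^ 5 * X :=
    mul_le_mul_of_nonneg_right h5 hX0.le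
  linarith [hh10]

end BGE
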