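import Pool.Agent.BGE.Defs

/-!
BGE / B1. The local Burke property.

`burkeMap (U, V, w) = (w + (U - V)^+, w + (V - U)^+, min U V)`.

`local_burke`: if `U ~ Exp(a)`, `V ~ Exp(b)`, `w ~ Exp(a + b)` are independent then the image has
the same law.

Proof. Let `m = min U V`, `D = U - V`. Then `U = m + D^+`, `V = m + D^-` (`D^- = (-D)^+`) and
`burkeMap (U, V, w) = (w + D^+, w + D^-, m)`: in the coordinates `(D, m, w)` the map exchanges `m`
and `w`. The map `burkeMap` is a composition of shears and of an exchange of coordinates, so it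
preserves Lebesgue measure, and the density is invariant.

`burke_move`: the same inside a finite product (iterated integrals, `lmarginal`).
-/

namespace BGE

open MeasureTheory ProbabilityTheory

theorem burkeMap_burkeMap (x : ℝ × ℝ × ℝ) : burkeMap (burkeMap x) = x := by
  obtain ⟨U, V, w⟩ := x
  unfold burkeMap
  simp only [Prod.mk.injEq]
  rcases le_total U V with h | h
  · have h1 : max (U - V) 0 = 0 := max_eq_right (by linarith)
    have h2 : max (V - U) 0 = V - U := max_eq_left (by linarith)
    have h3 : min U V = U := min_eq_left h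
    rw [h1, h2, h3]
    have h4 : max (w + 0 - (w + (V - U))) 0 = 0 := max_eq_right (by linarith)
    have h5 : max (w + (V - U) - (w + 0)) 0 = V - U := by
      rw [max_eq_left (by linarith)]; ring
    have h6 : min (w + 0) (w + (V - U)) = w + 0 := min_eq_left (by linarith)
    rw [h4, h5, h6]
    refine ⟨?_, ?_, ?_⟩ <;> ring
  · have h1 : max (U - V) 0 = U - V := max_eq_left (by linarith)
    have h2 : max (V - U) 0 = 0 := max_eq_right (by linarith)
    have h3 : min U V = V := min_eq_right h
    rw [h1, h2, h3]
    have h4 : max (w + (U - V) - (w + 0)) 0 = U - V := by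
      rw [max_eq_left (by linarith)]; ring
    have h5 : max (w + 0 - (w + (U - V))) 0 = 0 := max_eq_right (by linarith)
    have h6 : min (w + (U - V)) (w + 0) = w + 0 := min_eq_right (by linarith)
    rw [h4, h5, h6]
    refine ⟨?_, ?_, ?_⟩ <;> ring

theorem measurable_burkeMap : Measurable burkeMap := by
  unfold burkeMap
  fun_prop

private theorem shear_left {β : Type*} [MeasurableSpace β] (ν : Measure β) [SFinite ν]
    {f : β → ℝ} (hf : Measurable f) :
    MeasurePreserving (fun p : ℝ × β => (p.1 + f p.2, p.2))
      ((volume : Measure ℝ).prod ν) ((volume : Measure ℝ).prod ν) := by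
  have h1 : MeasurePreserving (fun p : β × ℝ => (id p.1, p.2 + f p.1))
      (ν.prod (volume : Measure ℝ)) (ν.prod (volume : Measure ℝ)) := by
    refine (MeasurePreserving.id ν).skew_product (g := fun a c => c + f a) ?_ ?_
    · unfold Function.uncurry
      fun_prop
    · exact Filter.Eventually.of_forall fun a => (measurePreserving_add_right volume (f a)).map_eq
  have h2 := (Measure.measurePreserving_swap (μ := (volume : Measure ℝ)) (ν := ν))
  have h3 := (Measure.measurePreserving_swap (μ := ν) (ν := (volume : Measure ℝ)))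
  exact (h3.comp (h1.comp h2))

private theorem shear_mid {f : ℝ → ℝ} (hf : Measurable f) :
    MeasurePreserving (fun p : ℝ × ℝ × ℝ => (p.1, p.2.1 + f p.1, p.2.2))
      ((volume : Measure ℝ).prod ((volume : Measure ℝ).prod (volume : Measure ℝ)))
      ((volume : Measure ℝ).prod ((volume : Measure ℝ).prod (volume : Measure ℝ))) := by
  refine (MeasurePreserving.id (volume : Measure ℝ)).skew_product
    (g := fun a (c : ℝ × ℝ) => (c.1 + f a, c.2)) ?_ ?_
  · unfold Function.uncurry
    fun_prop
  · refine Filter.Eventually.of_forall fun a => ?_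
    exact ((measurePreserving_add_right volume (f a)).prod
      (MeasurePreserving.id (volume : Measure ℝ))).map_eq

theorem burkeMap_volume :
    MeasurePreserving burkeMap
      ((volume : Measure ℝ).prod ((volume : Measure ℝ).prod (volume : Measure ℝ)))
      ((volume : Measure ℝ).prod ((volume : Measure ℝ).prod (volume : Measure ℝ))) := by
  have hA := shear_left ((volume : Measure ℝ).prod (volume : Measure ℝ))
    (f := fun c : ℝ × ℝ => -c.1) (by fun_prop)
  have hB := shear_mid (f := fun d => - max (-d) 0) (by fun_prop)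
  have hC := (MeasurePreserving.id (volume : Measure ℝ)).prod
    (Measure.measurePreserving_swap (μ := (volume : Measure ℝ)) (ν := (volume : Measure ℝ)))
  have hD := shear_mid (f := fun d => max (-d) 0) (by fun_prop)
  have hE := shear_left ((volume : Measure ℝ).prod (volume : Measure ℝ))
    (f := fun c : ℝ × ℝ => c.1) (by fun_prop)
  have h := hE.comp (hD.comp (hC.comp (hB.comp hA)))
  convert h using 1
  funext x
  obtain ⟨U, V, w⟩ := x
  simp only [burkeMap, Function.comp, Prod.map, id, Prod.swap, Prod.mk.injEq]
  rcases le_total U V with h | h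
  · have h1 : max (U - V) 0 = 0 := max_eq_right (by linarith)
    have h2 : max (V - U) 0 = V - U := max_eq_left (by linarith)
    have h3 : min U V = U := min_eq_left h
    have h4 : max (-(U + -V)) 0 = V - U := by rw [max_eq_left (by linarith)]; ring
    rw [h1, h2, h3, h4]
    refine ⟨?_, ?_, ?_⟩ <;> ring
  · have h1 : max (U - V) 0 = U - V := max_eq_left (by linarith)
    have h2 : max (V - U) 0 = 0 := max_eq_right (by linarith)
    have h3 : min U V = V := min_eq_right h
    have h4 : max (-(U + -V)) 0 = 0 := max_eq_right (by linarith)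
    rw [h1, h2, h3, h4]
    refine ⟨?_, ?_, ?_⟩ <;> ring

/-- the density -/
private noncomputable def dens (a b : ℝ) (x : ℝ × ℝ × ℝ) : ENNReal :=
  exponentialPDF a x.1 * (exponentialPDF b x.2.1 * exponentialPDF (a + b) x.2.2)

private theorem dens_pos {a b : ℝ} (ha : 0 < a) (hb : 0 < b) {x : ℝ × ℝ × ℝ}
    (h1 : 0 ≤ x.1) (h2 : 0 ≤ x.2.1) (h3 : 0 ≤ x.2.2) :
    dens a b x = ENNReal.ofReal (a * b * (a + b) *
      Real.exp (-(a * x.1 + b * x.2.1 + (a + b) * x.2.2))) := by
  unfold dens
  rw [exponentialPDF_of_nonneg h1, exponentialPDF_of_nonneg h2, exponentialPDF_of_nonneg h3,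
    ← ENNReal.ofReal_mul (by positivity), ← ENNReal.ofReal_mul (by positivity)]
  congr 1
  have : Real.exp (-(a * x.1 + b * x.2.1 + (a + b) * x.2.2)) =
      Real.exp (-(a * x.1)) * (Real.exp (-(b * x.2.1)) * Real.exp (-((a + b) * x.2.2))) := by
    rw [← Real.exp_add, ← Real.exp_add]
    congr 1
    ring
  rw [this]
  ring

private theorem dens_zero {a b : ℝ} {x : ℝ × ℝ × ℝ}
    (h : ¬ (0 ≤ x.1 ∧ 0 ≤ x.2.1 ∧ 0 ≤ x.2.2)) : dens a b x = 0 := by
  unfold dens
  by_cases h1 : 0 ≤ x.1
  · by_cases h2 : 0 ≤ x.2.1
    · have h3 : x.2.2 < 0 := by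
        by_contra h3
        exact h ⟨h1, h2, not_lt.1 h3⟩
      rw [exponentialPDF_of_neg h3, mul_zero, mul_zero]
    · rw [exponentialPDF_of_neg (not_le.1 h2), zero_mul, mul_zero]
  · rw [exponentialPDF_of_neg (not_le.1 h1), zero_mul]

private theorem burke_nonneg {x : ℝ × ℝ × ℝ} (h : 0 ≤ x.1 ∧ 0 ≤ x.2.1 ∧ 0 ≤ x.2.2) :
    0 ≤ (burkeMap x).1 ∧ 0 ≤ (burkeMap x).2.1 ∧ 0 ≤ (burkeMap x).2.2 := by
  obtain ⟨h1, h2, h3⟩ := h
  unfold burkeMap
  exact ⟨add_nonneg h3 (le_max_right _ _), add_nonneg h3 (le_max_right _ _), le_min h1 h2⟩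

private theorem dens_burke {a b : ℝ} (ha : 0 < a) (hb : 0 < b) (x : ℝ × ℝ × ℝ) :
    dens a b (burkeMap x) = dens a b x := by
  by_cases h : 0 ≤ x.1 ∧ 0 ≤ x.2.1 ∧ 0 ≤ x.2.2
  · have h' := burke_nonneg h
    rw [dens_pos ha hb h.1 h.2.1 h.2.2, dens_pos ha hb h'.1 h'.2.1 h'.2.2]
    congr 3
    obtain ⟨U, V, w⟩ := x
    unfold burkeMap
    simp only
    rcases le_total U V with h | h
    · have h1 : max (U - V) 0 = 0 := max_eq_right (by linarith)
      have h2 : max (V - U) 0 = V - U := max_eq_left (by linarith)
      have h3 : min U V = U := min_eq_left h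
      rw [h1, h2, h3]
      ring
    · have h1 : max (U - V) 0 = U - V := max_eq_left (by linarith)
      have h2 : max (V - U) 0 = 0 := max_eq_right (by linarith)
      have h3 : min U V = V := min_eq_right h
      rw [h1, h2, h3]
      ring
  · rw [dens_zero h, dens_zero]
    intro h'
    apply h
    have := burke_nonneg h'
    rwa [burkeMap_burkeMap] at this

private theorem measurable_pdf (r : ℝ) : Measurable (exponentialPDF r) := by
  unfold exponentialPDF
  exact (measurable_exponentialPDFReal r).ennreal_ofReal

private theorem exp_eq (r : ℝ) :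
    expMeasure r = (volume : Measure ℝ).withDensity (exponentialPDF r) := rfl

theorem local_burke {a b : ℝ} (ha : 0 < a) (hb : 0 < b) :
    MeasurePreserving burkeMap
      ((expMeasure a).prod ((expMeasure b).prod (expMeasure (a + b))))
      ((expMeasure a).prod ((expMeasure b).prod (expMeasure (a + b)))) := by
  have hm1 : Measurable fun p : ℝ × ℝ => exponentialPDF b p.1 * exponentialPDF (a + b) p.2 :=
    ((measurable_pdf b).comp measurable_fst).mul ((measurable_pdf (a + b)).comp measurable_snd)
  have hm : Measurable (dens a b) :=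
    ((measurable_pdf a).comp measurable_fst).mul (hm1.comp measurable_snd)
  have hμ : (expMeasure a).prod ((expMeasure b).prod (expMeasure (a + b))) =
      ((volume : Measure ℝ).prod ((volume : Measure ℝ).prod
        (volume : Measure ℝ))).withDensity (dens a b) := by
    rw [exp_eq, exp_eq, exp_eq]
    have := isProbabilityMeasure_expMeasure ha
    have := isProbabilityMeasure_expMeasure hb
    have := isProbabilityMeasure_expMeasure (add_pos ha hb)
    rw [prod_withDensity (measurable_pdf b) (measurable_pdf (a + b)),
      prod_withDensity (measurable_pdf a) hm1]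
    rfl
  rw [hμ]
  refine ⟨measurable_burkeMap, ?_⟩
  ext s hs
  rw [Measure.map_apply measurable_burkeMap hs,
    withDensity_apply _ (measurable_burkeMap hs), withDensity_apply _ hs,
    ← burkeMap_volume.setLIntegral_comp_preimage hs hm]
  simp only [dens_burke ha hb]

theorem measurable_move {ι : Type*} [DecidableEq ι] (i j k : ι) :
    Measurable (move i j k) := by
  unfold move
  refine measurable_pi_iff.2 fun l => ?_
  simp only [Function.update_apply]
  split_ifs <;> fun_prop

theorem burke_move {ι : Type*} [Fintype ι] [DecidableEq ι] (r : ι → ℝ) (hr : ∀ i, 0 < r i)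
    {i j k : ι} (hij : i ≠ j) (hik : i ≠ k) (hjk : j ≠ k) (h : r k = r i + r j) :
    MeasurePreserving (move i j k) (Measure.pi fun i => expMeasure (r i))
      (Measure.pi fun i => expMeasure (r i)) := by
  have : ∀ i, IsProbabilityMeasure (expMeasure (r i)) := fun i =>
    isProbabilityMeasure_expMeasure (hr i)
  have hmm := measurable_move i j k
  refine ⟨hmm, ?_⟩
  set μ : ι → Measure ℝ := fun i => expMeasure (r i) with hμ
  have : ∀ i, IsProbabilityMeasure (μ i) := this
  ext s hs
  rw [Measure.map_apply hmm hs, ← lintegral_indicator_one (hmm hs), ← lintegral_indicator_one hs]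
  set f : (ι → ℝ) → ENNReal := s.indicator 1 with hf
  have hfm : Measurable f := measurable_one.indicator hs
  have e1 : (move i j k ⁻¹' s).indicator (1 : (ι → ℝ) → ENNReal) = f ∘ move i j k := rfl
  rw [e1]
  refine lintegral_eq_of_lmarginal_eq ({i, j, k} : Finset ι) (hfm.comp hmm) hfm ?_
  have key : ∀ g : (ι → ℝ) → ENNReal, Measurable g → ∀ x : ι → ℝ,
      lmarginal μ ({i, j, k} : Finset ι) g x =
      ∫⁻ t : ℝ × ℝ × ℝ, g (Function.update (Function.update (Function.update x i t.1) j t.2.1)
        k t.2.2) ∂((μ i).prod ((μ j).prod (μ k))) := by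
    intro g hg x
    have hi : i ∉ ({j, k} : Finset ι) := by simp [hij, hik]
    have hj : j ∉ ({k} : Finset ι) := by simp [hjk]
    have hgm : Measurable fun t : ℝ × ℝ × ℝ =>
        g (Function.update (Function.update (Function.update x i t.1) j t.2.1) k t.2.2) := by
      refine hg.comp (measurable_pi_iff.2 fun l => ?_)
      simp only [Function.update_apply]
      split_ifs <;> fun_prop
    rw [lmarginal_insert _ hg hi, lintegral_prod _ hgm.aemeasurable]
    refine lintegral_congr fun t1 => ?_
    have hgm1 : Measurable fun t : ℝ × ℝ =>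
        g (Function.update (Function.update (Function.update x i t1) j t.1) k t.2) :=
      hgm.comp (measurable_const.prodMk measurable_id)
    rw [lmarginal_insert _ hg hj, lintegral_prod _ hgm1.aemeasurable]
    refine lintegral_congr fun t2 => ?_
    rw [lmarginal_singleton]
  funext x
  rw [key _ (hfm.comp hmm), key _ hfm]
  have hlb := local_burke (hr i) (hr j)
  rw [← h] at hlb
  have hgm : Measurable fun t : ℝ × ℝ × ℝ =>
      f (Function.update (Function.update (Function.update x i t.1) j t.2.1) k t.2.2) := by
    refine hfm.comp (measurable_pi_iff.2 fun l => ?_)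
    simp only [Function.update_apply]
    split_ifs <;> fun_prop
  rw [← hlb.lintegral_comp hgm]
  refine lintegral_congr fun t => ?_
  have hji := hij.symm
  have hki := hik.symm
  have hkj := hjk.symm
  refine congrArg f ?_
  funext l
  simp only [move, burkeMap, Function.update_apply]
  by_cases h1 : l = k
  · subst h1
    simp [hij, hik, hjk]
  · by_cases h2 : l = j
    · subst h2
      simp [h1, hij, hjk, hik]
    · by_cases h3 : l = i
      · subst h3
        simp [h1, h2, hij, hik, hjk]
      · simp [h1, h2, h3]

end BGE
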