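import Pool.Agent.BGE.CrProb
import Pool.Agent.BGE.Meas

/-!
BGE / G3. Regularity at all times.

`good_all`: let `M η ≤ h ≤ 1`, `J ≥ 1`. The probability that for some `i ≤ M` the environment
`dyn (i0 + i)` is not `CrE` or `CrT lam m h (dyn i0) (dyn (i0+i))` fails is at most
`(J+1) (p1 + p2) + J (C m² (h/J + η))²`, where `p1, p2` are the bounds of `crE_prob`, `crT_prob`.

Proof. Let `M' = ⌈M/J⌉`, so `M' η ≤ h/J + η` and the times `j M'`, `j = 0, ..., J`, cover `[0, M]`.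
If in the cell `[j M', (j+1) M']` at most one weight of the box `Bx m` is refreshed (at most one
pair (site, step)), then at every time of the cell the environment in the box is equal to the one at
the beginning or at the end of the cell. (If `(j+1) M' > M` this still makes sense, the dynamics is
defined for all times; choose `τ`: the time difference of a grid time is `min`: for the last cell
the grid time may be larger than `M`; use then the smaller of `(j+1) M'` and `M` as the end of the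
cell.) The probability of at least two refreshments in a cell is at most `(|Bx m| M' η)²`
(union bound over pairs, independence). At the grid times use `dyn_law`, `dyn_pair` (time difference
`t η ≤ h`, and `CrT` for `τ = t η` implies `CrT` for `τ = h`); `CrE`, `CrT` depend only on the
weights in the box.
-/

namespace BGE

open MeasureTheory ProbabilityTheory

namespace Cells

/-! ### dependence of the regularity on the box -/

theorem mem_box {m : ℕ} {p q z : ℤ × ℤ} (hp : p ∈ Bx m) (hq : q ∈ Bx m) (h1 : p ≤ z)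
    (h2 : z ≤ q) : z ∈ Bx m := by
  obtain ⟨a1, a2, a3, a4⟩ := hp
  obtain ⟨b1, b2, b3, b4⟩ := hq
  obtain ⟨c1, c2⟩ := h1
  obtain ⟨d1, d2⟩ := h2
  exact ⟨a1.trans c1, d1.trans b2, a3.trans c2, d2.trans b4⟩

theorem box_mono {m m' : ℕ} (h : m ≤ m') : Bx m ⊆ Bx m' := by
  have h' : (m : ℤ) ≤ m' := by exact_mod_cast h
  rintro z ⟨a1, a2, a3, a4⟩
  exact ⟨by omega, by omega, by omega, by omega⟩

theorem crE_congr {κ lam : ℝ} {m : ℕ} {ω ω' : ℤ × ℤ → ℝ} (h : ∀ z ∈ Bx m, ω z = ω' z)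
    (hω : CrE κ lam m ω) : CrE κ lam m ω' := by
  refine ⟨fun z hz => ?_, fun p hp q hq hpq => ?_⟩
  · rw [← h z hz]
    exact hω.1 z hz
  · rw [← T_congr hpq fun z h1 h2 => h z (mem_box hp hq h1 h2)]
    exact hω.2 p hp q hq hpq

theorem crT_congr {lam τ : ℝ} {m : ℕ} {ω ω' ω'' : ℤ × ℤ → ℝ} (h : ∀ z ∈ Bx m, ω' z = ω'' z)
    (hω : CrT lam m τ ω ω') : CrT lam m τ ω ω'' := by
  intro p hp q hq hpq
  rw [← T_congr hpq fun z h1 h2 => h z (mem_box hp hq h1 h2)]
  exact hω p hp q hq hpq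

theorem dl_nonneg {p q : ℤ × ℤ} (h : p ≤ q) : 0 ≤ dl p q := by
  have := lev_le_lev h
  unfold dl
  exact_mod_cast (by omega : 0 ≤ lev q - lev p)

theorem crT_mono {lam τ τ' : ℝ} {m : ℕ} {ω ω' : ℤ × ℤ → ℝ} (hlam : 0 ≤ lam) (h : τ ≤ τ')
    (hω : CrT lam m τ ω ω') : CrT lam m τ' ω ω' := by
  intro p hp q hq hpq
  refine (hω p hp q hq hpq).trans ?_
  have h1 := dl_nonneg hpq
  have h2 : √(τ * (dl p q + 1)) ≤ √(τ' * (dl p q + 1)) := by
    apply Real.sqrt_le_sqrt
    exact mul_le_mul_of_nonneg_right h (by linarith)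
  exact mul_le_mul_of_nonneg_left (by linarith) hlam

theorem crE_box {κ lam : ℝ} {m m' : ℕ} {ω : ℤ × ℤ → ℝ} (h : m ≤ m') (hω : CrE κ lam m' ω) :
    CrE κ lam m ω :=
  ⟨fun z hz => hω.1 z (box_mono h hz),
    fun p hp q hq hpq => hω.2 p (box_mono h hp) q (box_mono h hq) hpq⟩

theorem crT_box {lam τ : ℝ} {m m' : ℕ} {ω ω' : ℤ × ℤ → ℝ} (h : m ≤ m')
    (hω : CrT lam m' τ ω ω') : CrT lam m τ ω ω' :=
  fun p hp q hq hpq => hω p (box_mono h hp) q (box_mono h hq) hpq

/-! ### the dynamics without refreshments -/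

theorem dyn_const {η : ℝ} {x : DI → ℝ} {v : ℤ × ℤ} {a : ℕ} (k : ℕ)
    (h : ∀ s, a < s → s ≤ a + k → ¬ x (v, s, false) < η) : dyn η x (a + k) v = dyn η x a v := by
  induction k with
  | zero => rfl
  | succ k ih =>
    have h1 : dyn η x (a + (k + 1)) v = dyn η x (a + k) v := by
      change (if x (v, a + k + 1, false) < η then _ else _) = _
      rw [if_neg (h (a + k + 1) (by omega) (by omega))]
      rfl
    rw [h1]
    exact ih fun s h2 h3 => h s h2 (by omega)

theorem dyn_const' {η : ℝ} {x : DI → ℝ} {v : ℤ × ℤ} {a b : ℕ} (hab : a ≤ b)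
    (h : ∀ s, a < s → s ≤ b → ¬ x (v, s, false) < η) : dyn η x b v = dyn η x a v := by
  obtain ⟨k, rfl⟩ := Nat.exists_eq_add_of_le hab
  exact dyn_const k h

/-! ### two refreshments in a cell -/

/-- the box as a finite set -/
noncomputable def bx (m : ℕ) : Finset (ℤ × ℤ) := Finset.Icc (-(m : ℤ)) m ×ˢ Finset.Icc (-(m : ℤ)) (m + 1)

theorem mem_bx {m : ℕ} {z : ℤ × ℤ} : z ∈ bx m ↔ z ∈ Bx m := by
  simp only [bx, Finset.mem_product, Finset.mem_Icc, Bx, Set.mem_ofPred_eq]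
  tauto

theorem card_bx {m : ℕ} (hm : 1 ≤ m) : ((bx m).card : ℝ) ≤ 12 * (m : ℝ) ^ 2 := by
  have h1 : (bx m).card = (2 * m + 1) * (2 * m + 2) := by
    rw [bx, Finset.card_product, Int.card_Icc, Int.card_Icc]
    congr 1 <;> omega
  have h2 : (1 : ℝ) ≤ m := by exact_mod_cast hm
  rw [h1]
  push_cast
  nlinarith

/-- the pairs (site of the box, step) of a cell -/
noncomputable def cell (m a b : ℕ) : Finset ((ℤ × ℤ) × ℕ) := bx m ×ˢ Finset.Ioc a b

/-- two weights are refreshed in the cell -/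
def two (η : ℝ) (m a b : ℕ) : Set (DI → ℝ) :=
  {x | ∃ P ∈ cell m a b, ∃ Q ∈ cell m a b, P ≠ Q ∧ x (P.1, P.2, false) < η ∧
    x (Q.1, Q.2, false) < η}

theorem E1_Iio_le {η : ℝ} (hη : 0 ≤ η) : E1 (Set.Iio η) ≤ ENNReal.ofReal η := by
  rw [dyn_Iio hη]
  apply ENNReal.ofReal_le_ofReal
  have := Real.add_one_le_exp (-η)
  linarith

theorem two_pair {η : ℝ} (hη : 0 ≤ η) {d d' : DI} (hd : d ≠ d') :
    (PI DI).real {x | x d < η ∧ x d' < η} ≤ η ^ 2 := by
  classical
  have h1 : {x : DI → ℝ | x d < η ∧ x d' < η} =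
      Set.pi (({d, d'} : Finset DI) : Set DI) (fun _ => Set.Iio η) := by
    ext x
    simp
  have h2 : (PI DI) {x | x d < η ∧ x d' < η} ≤ ENNReal.ofReal (η ^ 2) := by
    rw [h1]
    unfold PI
    rw [Measure.infinitePi_pi _ fun _ _ => measurableSet_Iio, Finset.prod_pair hd,
      sq, ENNReal.ofReal_mul hη]
    exact mul_le_mul' (E1_Iio_le hη) (E1_Iio_le hη)
  exact ENNReal.toReal_le_of_le_ofReal (by positivity) h2

theorem two_prob {η : ℝ} (hη : 0 ≤ η) (m a b : ℕ) :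
    (PI DI).real (two η m a b) ≤ (((cell m a b).card : ℝ) * η) ^ 2 := by
  classical
  set S := (cell m a b ×ˢ cell m a b).filter (fun p => p.1 ≠ p.2) with hS
  have h1 : two η m a b ⊆ ⋃ p ∈ S, {x : DI → ℝ | x (p.1.1, p.1.2, false) < η ∧
      x (p.2.1, p.2.2, false) < η} := by
    rintro x ⟨P, hP, Q, hQ, hne, h2, h3⟩
    simp only [Set.mem_iUnion]
    refine ⟨(P, Q), ?_, h2, h3⟩
    rw [hS, Finset.mem_filter, Finset.mem_product]
    exact ⟨⟨hP, hQ⟩, hne⟩
  have h2 : (S.card : ℝ) ≤ ((cell m a b).card : ℝ) ^ 2 := by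
    have : S.card ≤ (cell m a b).card ^ 2 := by
      rw [hS, sq, ← Finset.card_product]
      exact Finset.card_filter_le _ _
    exact_mod_cast this
  calc (PI DI).real (two η m a b)
      ≤ (PI DI).real (⋃ p ∈ S, {x : DI → ℝ | x (p.1.1, p.1.2, false) < η ∧
          x (p.2.1, p.2.2, false) < η}) := measureReal_mono h1 (measure_ne_top _ _)
    _ ≤ ∑ p ∈ S, (PI DI).real {x : DI → ℝ | x (p.1.1, p.1.2, false) < η ∧
          x (p.2.1, p.2.2, false) < η} := measureReal_biUnion_finset_le _ _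
    _ ≤ ∑ p ∈ S, η ^ 2 := by
        refine Finset.sum_le_sum fun p hp => two_pair hη ?_
        rw [hS, Finset.mem_filter] at hp
        intro h
        apply hp.2
        simp only [Prod.mk.injEq, and_true] at h
        exact Prod.ext h.1 h.2
    _ = S.card * η ^ 2 := by rw [Finset.sum_const, nsmul_eq_mul]
    _ ≤ ((cell m a b).card : ℝ) ^ 2 * η ^ 2 := mul_le_mul_of_nonneg_right h2 (by positivity)
    _ = (((cell m a b).card : ℝ) * η) ^ 2 := by ring

/-- if not two weights are refreshed in the cell then the environment in the box is always the one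
at the beginning or the one at the end -/
theorem one_refresh {η : ℝ} {m a b i : ℕ} {x : DI → ℝ} (hx : x ∉ two η m a b) (h1 : a ≤ i)
    (h2 : i ≤ b) : (∀ v ∈ Bx m, dyn η x a v = dyn η x i v) ∨
      (∀ v ∈ Bx m, dyn η x b v = dyn η x i v) := by
  by_cases h : ∃ v ∈ Bx m, ∃ s, a < s ∧ s ≤ i ∧ x (v, s, false) < η
  · obtain ⟨v, hv, s, hs1, hs2, hs3⟩ := h
    refine Or.inr fun w hw => dyn_const' h2 fun t ht1 ht2 ht3 => hx ?_
    refine ⟨(v, s), ?_, (w, t), ?_, ?_, hs3, ht3⟩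
    · rw [cell, Finset.mem_product, Finset.mem_Ioc]
      exact ⟨mem_bx.2 hv, hs1, hs2.trans h2⟩
    · rw [cell, Finset.mem_product, Finset.mem_Ioc]
      exact ⟨mem_bx.2 hw, lt_of_le_of_lt h1 ht1, ht2⟩
    · intro h3
      have : s = t := congrArg Prod.snd h3
      omega
  · push Not at h
    exact Or.inl fun w hw => (dyn_const' h1 fun t ht1 ht2 => not_lt.2 (h w hw t ht1 ht2)).symm

/-! ### grid times -/

theorem grid_E {κ lam : ℝ} {m : ℕ} {p : ℝ} (h : (PI (ℤ × ℤ)).real {ω | ¬ CrE κ lam m ω} ≤ p)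
    (η : ℝ) (k : ℕ) : (PI DI).real {x | ¬ CrE κ lam m (dyn η x k)} ≤ p := by
  have h1 := (dyn_law η k).measureReal_preimage
    (s := {ω | ¬ CrE κ lam m ω}) (measurableSet_CrE.compl).nullMeasurableSet
  rw [← h1] at h
  exact h

theorem grid_T {lam : ℝ} {m : ℕ} {p η h : ℝ} (hlam : 0 ≤ lam) (hη : 0 ≤ η) (i0 t : ℕ)
    (ht : t * η ≤ h)
    (hp : mu3.real {x | ¬ CrT lam m (t * η) x.1 (evo (t * η) x)} ≤ p) :
    (PI DI).real {x | ¬ CrT lam m h (dyn η x i0) (dyn η x (i0 + t))} ≤ p := by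
  have h0 : MeasurableSet {z : (ℤ × ℤ → ℝ) × (ℤ × ℤ → ℝ) | ¬ CrT lam m (t * η) z.1 z.2} :=
    measurableSet_CrT.compl
  have h1 : Measurable (fun x : DI → ℝ => (dyn η x i0, dyn η x (i0 + t))) :=
    (measurable_dyn η i0).prodMk (measurable_dyn η (i0 + t))
  have h2 : Measurable (fun y : Env3 => (y.1, evo (t * η) y)) :=
    measurable_fst.prodMk (ts_measurable_evo _)
  have h3 : (PI DI) {x | ¬ CrT lam m (t * η) (dyn η x i0) (dyn η x (i0 + t))} =
      mu3 {x | ¬ CrT lam m (t * η) x.1 (evo (t * η) x)} := by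
    have h4 : Measure.map (fun x : DI → ℝ => (dyn η x i0, dyn η x (i0 + t))) (PI DI)
        {z : (ℤ × ℤ → ℝ) × (ℤ × ℤ → ℝ) | ¬ CrT lam m (t * η) z.1 z.2} =
        Measure.map (fun y : Env3 => (y.1, evo (t * η) y)) mu3
          {z : (ℤ × ℤ → ℝ) × (ℤ × ℤ → ℝ) | ¬ CrT lam m (t * η) z.1 z.2} := by
      rw [dyn_pair hη i0 t]
    rw [Measure.map_apply h1 h0, Measure.map_apply h2 h0] at h4
    exact h4
  calc (PI DI).real {x | ¬ CrT lam m h (dyn η x i0) (dyn η x (i0 + t))}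
      ≤ (PI DI).real {x | ¬ CrT lam m (t * η) (dyn η x i0) (dyn η x (i0 + t))} :=
        measureReal_mono (fun x hx hx' => hx (crT_mono hlam ht hx')) (measure_ne_top _ _)
    _ = mu3.real {x | ¬ CrT lam m (t * η) x.1 (evo (t * η) x)} := by
        unfold Measure.real
        rw [h3]
    _ ≤ p := hp

theorem find_cell {t : ℕ → ℕ} (h0 : t 0 = 0) {i J : ℕ} (hi : i ≤ t J) (hJ : 1 ≤ J) :
    ∃ j < J, t j ≤ i ∧ i ≤ t (j + 1) := by
  classical
  induction J with
  | zero => omega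
  | succ J ih =>
    by_cases h : t J ≤ i
    · exact ⟨J, by omega, h, hi⟩
    · push Not at h
      rcases Nat.eq_zero_or_pos J with rfl | hJ'
      · rw [h0] at h
        omega
      · obtain ⟨j, hj, h1, h2⟩ := ih h.le hJ'
        exact ⟨j, by omega, h1, h2⟩

end Cells

open Cells

theorem good_all {κ : ℝ} (hκ : 0 < κ) : ∃ C c : ℝ, 1 ≤ C ∧ 0 < c ∧ ∀ (lam η h : ℝ) (m M J i0 : ℕ),
    1 ≤ lam → 1 ≤ m → 0 < η → M * η ≤ h → h ≤ 1 → 1 ≤ J →
    (PI DI).real {x | ∃ i ≤ M, ¬ CrE κ lam m (dyn η x (i0 + i)) ∨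
      ¬ CrT lam m h (dyn η x i0) (dyn η x (i0 + i))} ≤
      (J + 1) * (C * (m : ℝ) ^ 4 * (Real.exp (-(c * lam)) +
        Real.exp (-(c * (lam / (1 + Real.log (4 * m + 5) ^ 3)) ^ (1 / 4 : ℝ))))) +
      J * (C * (m : ℝ) ^ 2 * (h / J + η)) ^ 2 := by
  obtain ⟨C1, c1, hC1, hc1, hE⟩ := crE_prob hκ
  obtain ⟨C2, c2, hC2, hc2, hT⟩ := crT_prob
  refine ⟨max 12 (max C1 C2), min c1 c2, le_trans (by norm_num) (le_max_left _ _),
    lt_min hc1 hc2, ?_⟩
  intro lam η h m M J i0 hlam hm hη hM h1 hJ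
  set C := max 12 (max C1 C2) with hC
  set c := min c1 c2 with hc
  have hC12 : 12 ≤ C := le_max_left _ _
  have hC1' : C1 ≤ C := (le_max_left _ _).trans (le_max_right _ _)
  have hC2' : C2 ≤ C := (le_max_right _ _).trans (le_max_right _ _)
  have hc1' : c ≤ c1 := min_le_left _ _
  have hc2' : c ≤ c2 := min_le_right _ _
  have hmR : (1 : ℝ) ≤ m := by exact_mod_cast hm
  have hJR : (1 : ℝ) ≤ J := by exact_mod_cast hJ
  have hlog : 0 ≤ Real.log (4 * m + 5) := Real.log_nonneg (by linarith)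
  set y : ℝ := (lam / (1 + Real.log (4 * m + 5) ^ 3)) ^ (1 / 4 : ℝ) with hy
  have hy0 : 0 ≤ y := by positivity
  set pE : ℝ := C * (m : ℝ) ^ 4 * Real.exp (-(c * lam)) with hpE
  set pT : ℝ := C * (m : ℝ) ^ 4 * Real.exp (-(c * y)) with hpT
  have hm4 : 0 ≤ (m : ℝ) ^ 4 := by positivity
  -- the bounds at one time
  have hE1 : ∀ k, (PI DI).real {x | ¬ CrE κ lam m (dyn η x k)} ≤ pE := by
    intro k
    refine (grid_E (hE lam m hlam hm) η k).trans ?_
    have k1 : Real.exp (-(c1 * lam)) ≤ Real.exp (-(c * lam)) := by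
      apply Real.exp_le_exp.2
      have := mul_le_mul_of_nonneg_right hc1' (by linarith : (0 : ℝ) ≤ lam)
      linarith
    exact mul_le_mul (mul_le_mul_of_nonneg_right hC1' hm4) k1 (Real.exp_pos _).le (by positivity)
  have hT1 : ∀ t, t ≤ M → (PI DI).real {x | ¬ CrT lam m h (dyn η x i0) (dyn η x (i0 + t))} ≤
      pT := by
    intro t ht
    have k0 : (t : ℝ) * η ≤ h := by
      refine le_trans ?_ hM
      exact mul_le_mul_of_nonneg_right (by exact_mod_cast ht) hη.le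
    refine (grid_T (by linarith) hη.le i0 t k0
      (hT lam (t * η) m hlam hm (by positivity))).trans ?_
    have k1 : Real.exp (-(c2 * y)) ≤ Real.exp (-(c * y)) := by
      apply Real.exp_le_exp.2
      have := mul_le_mul_of_nonneg_right hc2' hy0
      linarith
    exact mul_le_mul (mul_le_mul_of_nonneg_right hC2' hm4) k1 (Real.exp_pos _).le (by positivity)
  -- the grid
  obtain ⟨M', hM'⟩ : ∃ M' : ℕ, M' = (M + J - 1) / J := ⟨_, rfl⟩
  have hM1 : M ≤ J * M' := by
    have := Nat.lt_div_mul_add (a := M + J - 1) (b := J) (by omega)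
    rw [hM']
    rw [mul_comm]
    omega
  have hM2 : (M' : ℝ) ≤ M / J + 1 := by
    have k1 : M' * J ≤ M + J - 1 := by
      rw [hM']
      exact Nat.div_mul_le_self _ _
    have k2 : M' * J ≤ M + J := by omega
    have k3 : (M' : ℝ) * J ≤ M + J := by exact_mod_cast k2
    rw [← sub_nonneg]
    have k4 : (M : ℝ) / J + 1 - M' = (M + J - M' * J) / J := by
      field_simp
    rw [k4]
    exact div_nonneg (by linarith) (by linarith)
  have hM3 : (M' : ℝ) * η ≤ h / J + η := by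
    calc (M' : ℝ) * η ≤ (M / J + 1) * η := mul_le_mul_of_nonneg_right hM2 hη.le
      _ = (M * η) / J + η := by ring
      _ ≤ h / J + η := by
          have : (M * η) / J ≤ h / J := div_le_div_of_nonneg_right hM (by linarith)
          linarith
  set t : ℕ → ℕ := fun j => min (j * M') M with ht
  have ht0 : t 0 = 0 := by simp [ht]
  have htJ : t J = M := min_eq_right hM1
  have htM : ∀ j, t j ≤ M := fun j => min_le_right _ _
  have hts : ∀ j, t (j + 1) ≤ t j + M' := by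
    intro j
    simp only [ht]
    rw [show (j + 1) * M' = j * M' + M' by ring]
    omega
  -- the exceptional sets
  have hcell : ∀ j, (PI DI).real (two η m (i0 + t j) (i0 + t (j + 1))) ≤
      (C * (m : ℝ) ^ 2 * (h / J + η)) ^ 2 := by
    intro j
    refine (two_prob hη.le _ _ _).trans ?_
    have k1 : ((cell m (i0 + t j) (i0 + t (j + 1))).card : ℝ) ≤ 12 * (m : ℝ) ^ 2 * M' := by
      rw [cell, Finset.card_product, Nat.card_Ioc]
      push_cast [Nat.cast_mul]
      have k2 : ((i0 + t (j + 1) - (i0 + t j) : ℕ) : ℝ) ≤ M' := by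
        have := hts j
        exact_mod_cast (by omega : i0 + t (j + 1) - (i0 + t j) ≤ M')
      exact mul_le_mul (card_bx hm) k2 (Nat.cast_nonneg _) (by positivity)
    have k3 : ((cell m (i0 + t j) (i0 + t (j + 1))).card : ℝ) * η ≤
        C * (m : ℝ) ^ 2 * (h / J + η) := by
      calc ((cell m (i0 + t j) (i0 + t (j + 1))).card : ℝ) * η
          ≤ 12 * (m : ℝ) ^ 2 * M' * η := mul_le_mul_of_nonneg_right k1 hη.le
        _ = 12 * (m : ℝ) ^ 2 * (M' * η) := by ring
        _ ≤ C * (m : ℝ) ^ 2 * (h / J + η) := by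
            refine mul_le_mul (mul_le_mul_of_nonneg_right hC12 (by positivity)) hM3
              (by positivity) (by positivity)
    exact pow_le_pow_left₀ (by positivity) k3 2
  have hsub : {x | ∃ i ≤ M, ¬ CrE κ lam m (dyn η x (i0 + i)) ∨
      ¬ CrT lam m h (dyn η x i0) (dyn η x (i0 + i))} ⊆
      ((⋃ j ∈ Finset.range (J + 1), {x | ¬ CrE κ lam m (dyn η x (i0 + t j))}) ∪
        (⋃ j ∈ Finset.range (J + 1), {x | ¬ CrT lam m h (dyn η x i0) (dyn η x (i0 + t j))})) ∪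
        (⋃ j ∈ Finset.range J, two η m (i0 + t j) (i0 + t (j + 1))) := by
    intro x hx
    by_contra hcon
    simp only [Set.mem_union, Set.mem_iUnion, Set.mem_ofPred_eq, not_or, not_exists,
      Finset.mem_range, not_not] at hcon
    obtain ⟨⟨g1, g2⟩, g3⟩ := hcon
    obtain ⟨i, hi, hbad⟩ := hx
    rw [← htJ] at hi
    obtain ⟨j, hj, hj1, hj2⟩ := find_cell ht0 hi hJ
    have g4 := one_refresh (g3 j hj) (i := i0 + i) (by omega) (by omega)
    rcases g4 with g4 | g4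
    · rcases hbad with hbad | hbad
      · exact hbad (crE_congr g4 (g1 j (by omega)))
      · exact hbad (crT_congr g4 (g2 j (by omega)))
    · rcases hbad with hbad | hbad
      · exact hbad (crE_congr g4 (g1 (j + 1) (by omega)))
      · exact hbad (crT_congr g4 (g2 (j + 1) (by omega)))
  calc (PI DI).real {x | ∃ i ≤ M, ¬ CrE κ lam m (dyn η x (i0 + i)) ∨
      ¬ CrT lam m h (dyn η x i0) (dyn η x (i0 + i))}
      ≤ (PI DI).real (((⋃ j ∈ Finset.range (J + 1), {x | ¬ CrE κ lam m (dyn η x (i0 + t j))}) ∪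
        (⋃ j ∈ Finset.range (J + 1), {x | ¬ CrT lam m h (dyn η x i0) (dyn η x (i0 + t j))})) ∪
        (⋃ j ∈ Finset.range J, two η m (i0 + t j) (i0 + t (j + 1)))) :=
        measureReal_mono hsub (measure_ne_top _ _)
    _ ≤ (PI DI).real (⋃ j ∈ Finset.range (J + 1), {x | ¬ CrE κ lam m (dyn η x (i0 + t j))}) +
        (PI DI).real (⋃ j ∈ Finset.range (J + 1),
          {x | ¬ CrT lam m h (dyn η x i0) (dyn η x (i0 + t j))}) +
        (PI DI).real (⋃ j ∈ Finset.range J, two η m (i0 + t j) (i0 + t (j + 1))) :=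
        (measureReal_union_le _ _).trans (by
          gcongr
          exact measureReal_union_le _ _)
    _ ≤ (J + 1) * pE + (J + 1) * pT + J * (C * (m : ℝ) ^ 2 * (h / J + η)) ^ 2 := by
        have e1 : (PI DI).real (⋃ j ∈ Finset.range (J + 1),
            {x | ¬ CrE κ lam m (dyn η x (i0 + t j))}) ≤ (J + 1) * pE := by
          refine (measureReal_biUnion_finset_le _ _).trans ?_
          refine (Finset.sum_le_sum fun j _ => hE1 (i0 + t j)).trans ?_
          rw [Finset.sum_const, Finset.card_range, nsmul_eq_mul]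
          push_cast
          exact le_rfl
        have e2 : (PI DI).real (⋃ j ∈ Finset.range (J + 1),
            {x | ¬ CrT lam m h (dyn η x i0) (dyn η x (i0 + t j))}) ≤ (J + 1) * pT := by
          refine (measureReal_biUnion_finset_le _ _).trans ?_
          refine (Finset.sum_le_sum fun j _ => hT1 (t j) (htM j)).trans ?_
          rw [Finset.sum_const, Finset.card_range, nsmul_eq_mul]
          push_cast
          exact le_rfl
        have e3 : (PI DI).real (⋃ j ∈ Finset.range J, two η m (i0 + t j) (i0 + t (j + 1))) ≤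
            J * (C * (m : ℝ) ^ 2 * (h / J + η)) ^ 2 := by
          refine (measureReal_biUnion_finset_le _ _).trans ?_
          refine (Finset.sum_le_sum fun j _ => hcell j).trans ?_
          rw [Finset.sum_const, Finset.card_range, nsmul_eq_mul]
        linarith
    _ = (J + 1) * (C * (m : ℝ) ^ 4 * (Real.exp (-(c * lam)) + Real.exp (-(c * y)))) +
      J * (C * (m : ℝ) ^ 2 * (h / J + η)) ^ 2 := by
        rw [hpE, hpT]
        ring

/-- a convenient form: with `L = log (1/h)`, `lam = L^20`, `m ≤ h⁻⁴`, `η ≤ h^30` the probability is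
at most `h^10` for small `h` (take `J = ⌈h⁻³⁰⌉`). -/
theorem good_all' {κ : ℝ} (hκ : 0 < κ) : ∃ h0 : ℝ, 0 < h0 ∧ h0 < 1 ∧
    ∀ (h η lam : ℝ) (m M i0 : ℕ), 0 < h → h ≤ h0 → lam = Real.log (1 / h) ^ 20 → (m : ℝ) ≤ h⁻¹ ^ 4 →
    0 < η → η ≤ h ^ 30 → M * η ≤ h →
    (PI DI).real {x | ∃ i ≤ M, ¬ CrE κ lam m (dyn η x (i0 + i)) ∨
      ¬ CrT lam m h (dyn η x i0) (dyn η x (i0 + i))} ≤ h ^ 10 := by
  obtain ⟨C, c, hC, hc, hmain⟩ := good_all hκ
  set K : ℝ := 126 + 60 / c + 14 * C ^ 2 with hK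
  have hK1 : 126 ≤ K := by
    have : 0 ≤ 60 / c := by positivity
    have : 0 ≤ 14 * C ^ 2 := by positivity
    linarith
  have hK2 : 60 / c ≤ K := by
    have : 0 ≤ 14 * C ^ 2 := by positivity
    linarith
  have hK3 : 14 * C ^ 2 ≤ K := by
    have : 0 ≤ 60 / c := by positivity
    linarith
  refine ⟨Real.exp (-K), Real.exp_pos _, by rw [← Real.exp_zero]; exact Real.exp_lt_exp.2 (by linarith), ?_⟩
  intro h η lam m M i0 h0 hh0 hlam hm hη hη30 hM
  set L : ℝ := Real.log (1 / h) with hL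
  have hexpL : h = Real.exp (-L) := by
    rw [hL, one_div, Real.log_inv, neg_neg, Real.exp_log h0]
  have hLK : K ≤ L := by
    rw [hL, one_div, Real.log_inv]
    have : Real.log h ≤ -K := by
      rw [← Real.log_exp (-K)]
      exact Real.log_le_log h0 hh0
    linarith
  have hL126 : 126 ≤ L := hK1.trans hLK
  have hL1 : 1 ≤ L := by linarith
  have hlt1 : h ≤ 1 := by
    rw [hexpL]
    exact Real.exp_le_one_iff.2 (by linarith)
  have hpow : ∀ n : ℕ, h ^ n = Real.exp (-(n * L)) := by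
    intro n
    rw [hexpL, ← Real.exp_nat_mul]
    congr 1
    ring
  have hh14 : 14 * C ^ 2 * h ≤ 1 := by
    have k1 : h * L ≤ 1 := by
      rw [hexpL, Real.exp_neg, inv_mul_le_iff₀ (Real.exp_pos _), mul_one]
      have := Real.add_one_le_exp L
      linarith
    calc 14 * C ^ 2 * h ≤ L * h := mul_le_mul_of_nonneg_right (hK3.trans hLK) h0.le
      _ = h * L := mul_comm _ _
      _ ≤ 1 := k1
  -- the box
  set m1 : ℕ := max m 1 with hm1
  have hinv : 1 ≤ h⁻¹ := (one_le_inv₀ h0).2 hlt1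
  have hm1' : (m1 : ℝ) ≤ h⁻¹ ^ 4 := by
    rw [hm1, Nat.cast_max, Nat.cast_one]
    exact max_le hm (one_le_pow₀ hinv)
  have hm1R : (1 : ℝ) ≤ m1 := by exact_mod_cast le_max_right m 1
  have hlam1 : 1 ≤ lam := by
    rw [hlam]
    exact one_le_pow₀ hL1
  -- the number of cells
  set J : ℕ := ⌈h⁻¹ ^ 30⌉₊ with hJ
  have hJ1 : h⁻¹ ^ 30 ≤ J := Nat.le_ceil _
  have hJ2 : (J : ℝ) ≤ h⁻¹ ^ 30 + 1 := (Nat.ceil_lt_add_one (by positivity)).le
  have hi30 : 1 ≤ h⁻¹ ^ 30 := one_le_pow₀ hinv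
  have hJone : 1 ≤ J := by
    have : (1 : ℝ) ≤ J := hi30.trans hJ1
    exact_mod_cast this
  have hJpos : (0 : ℝ) < J := by
    have : (1 : ℝ) ≤ J := hi30.trans hJ1
    linarith
  have key := hmain lam η h m1 M J i0 hlam1 (le_max_right _ _) hη hM hlt1 hJone
  refine (measureReal_mono ?_ (measure_ne_top _ _)).trans (key.trans ?_)
  · rintro x ⟨i, hi, hbad⟩
    refine ⟨i, hi, ?_⟩
    rcases hbad with hbad | hbad
    · exact Or.inl fun hx => hbad (crE_box (le_max_left m 1) hx)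
    · exact Or.inr fun hx => hbad (crT_box (le_max_left m 1) hx)
  -- numerical estimates
  have hmul : ∀ a b : ℕ, h⁻¹ ^ a * h ^ (a + b) = h ^ b := by
    intro a b
    rw [pow_add, ← mul_assoc, ← mul_pow, inv_mul_cancel₀ h0.ne', one_pow, one_mul]
  have hcL : 60 ≤ c * L := by
    have := (div_le_iff₀ hc).1 (hK2.trans hLK)
    linarith
  have hexp : ∀ y : ℝ, L ^ 4 ≤ y → Real.exp (-(c * y)) ≤ h ^ 60 := by
    intro y hy
    rw [hpow]
    apply Real.exp_le_exp.2
    have k1 : c * L ^ 4 ≤ c * y := mul_le_mul_of_nonneg_left hy hc.le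
    have k2 : L ≤ L ^ 3 := by
      calc L = L ^ 1 := (pow_one L).symm
        _ ≤ L ^ 3 := pow_le_pow_right₀ hL1 (by norm_num)
    have k3 : 60 * L ≤ c * L ^ 4 := by
      calc 60 * L ≤ 60 * L ^ 3 := by linarith
        _ ≤ (c * L) * L ^ 3 := mul_le_mul_of_nonneg_right hcL (by positivity)
        _ = c * L ^ 4 := by ring
    push_cast
    linarith
  have hlog0 : 0 ≤ Real.log (4 * m1 + 5) := Real.log_nonneg (by linarith)
  have hlog : Real.log (4 * m1 + 5) ≤ 5 * L := by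
    have k1 : (4 : ℝ) * m1 + 5 ≤ Real.exp (5 * L) := by
      have k2 : h⁻¹ = Real.exp L := by
        rw [hexpL, Real.exp_neg, inv_inv]
      have k3 : (9 : ℝ) ≤ Real.exp L := by
        have := Real.add_one_le_exp L
        linarith
      calc (4 : ℝ) * m1 + 5 ≤ 9 * h⁻¹ ^ 4 := by
            have := one_le_pow₀ hinv (n := 4)
            linarith
        _ ≤ Real.exp L * Real.exp L ^ 4 := by
            rw [k2]
            exact mul_le_mul_of_nonneg_right k3 (by positivity)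
        _ = Real.exp (5 * L) := by
            rw [← pow_succ', ← Real.exp_nat_mul]
            norm_num
    calc Real.log (4 * m1 + 5) ≤ Real.log (Real.exp (5 * L)) :=
          Real.log_le_log (by linarith) k1
      _ = 5 * L := Real.log_exp _
  have hy : L ^ 4 ≤ (lam / (1 + Real.log (4 * m1 + 5) ^ 3)) ^ (1 / 4 : ℝ) := by
    have k1 : 1 + Real.log (4 * m1 + 5) ^ 3 ≤ L ^ 4 := by
      have k2 : Real.log (4 * m1 + 5) ^ 3 ≤ (5 * L) ^ 3 := pow_le_pow_left₀ hlog0 hlog 3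
      have k3 : 1 ≤ L ^ 3 := one_le_pow₀ hL1
      calc 1 + Real.log (4 * m1 + 5) ^ 3 ≤ L ^ 3 + (5 * L) ^ 3 := by linarith
        _ = 126 * L ^ 3 := by ring
        _ ≤ L * L ^ 3 := mul_le_mul_of_nonneg_right hL126 (by positivity)
        _ = L ^ 4 := by ring
    have k4 : (L ^ 4) ^ (4 : ℕ) ≤ lam / (1 + Real.log (4 * m1 + 5) ^ 3) := by
      rw [le_div_iff₀ (by positivity), hlam]
      calc (L ^ 4) ^ (4 : ℕ) * (1 + Real.log (4 * m1 + 5) ^ 3) ≤ (L ^ 4) ^ (4 : ℕ) * L ^ 4 :=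
            mul_le_mul_of_nonneg_left k1 (by positivity)
        _ = L ^ 20 := by ring
    calc L ^ 4 = ((L ^ 4) ^ (4 : ℕ)) ^ (1 / 4 : ℝ) := by
          rw [← Real.rpow_natCast (L ^ 4) 4, ← Real.rpow_mul (by positivity)]
          norm_num
      _ ≤ _ := Real.rpow_le_rpow (by positivity) k4 (by norm_num)
  have hlamL : L ^ 4 ≤ lam := by
    rw [hlam]
    exact pow_le_pow_right₀ hL1 (by norm_num)
  have hsum : Real.exp (-(c * lam)) + Real.exp (-(c * (lam / (1 + Real.log (4 * m1 + 5) ^ 3)) ^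
      (1 / 4 : ℝ))) ≤ 2 * h ^ 60 := by
    have := hexp _ hlamL
    have := hexp _ hy
    linarith
  have hm4 : (m1 : ℝ) ^ 4 ≤ h⁻¹ ^ 16 := by
    calc (m1 : ℝ) ^ 4 ≤ (h⁻¹ ^ 4) ^ 4 := pow_le_pow_left₀ (by positivity) hm1' 4
      _ = h⁻¹ ^ 16 := by ring
  have hm2 : (m1 : ℝ) ^ 2 ≤ h⁻¹ ^ 8 := by
    calc (m1 : ℝ) ^ 2 ≤ (h⁻¹ ^ 4) ^ 2 := pow_le_pow_left₀ (by positivity) hm1' 2
      _ = h⁻¹ ^ 8 := by ring
  have hfirst : ((J : ℝ) + 1) * (C * (m1 : ℝ) ^ 4 * (Real.exp (-(c * lam)) +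
      Real.exp (-(c * (lam / (1 + Real.log (4 * m1 + 5) ^ 3)) ^ (1 / 4 : ℝ))))) ≤
      6 * C * h ^ 14 := by
    calc ((J : ℝ) + 1) * (C * (m1 : ℝ) ^ 4 * (Real.exp (-(c * lam)) +
        Real.exp (-(c * (lam / (1 + Real.log (4 * m1 + 5) ^ 3)) ^ (1 / 4 : ℝ)))))
        ≤ (3 * h⁻¹ ^ 30) * (C * h⁻¹ ^ 16 * (2 * h ^ 60)) := by
          refine mul_le_mul (by linarith) ?_ (by positivity) (by positivity)
          refine mul_le_mul ?_ hsum (by positivity) (by positivity)
          exact mul_le_mul_of_nonneg_left hm4 (by linarith)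
      _ = 6 * C * (h⁻¹ ^ 46 * h ^ (46 + 14)) := by ring
      _ = 6 * C * h ^ 14 := by rw [hmul]
  have hhJ : h / J + η ≤ 2 * h ^ 30 := by
    have k1 : h / J ≤ h ^ 30 := by
      rw [div_le_iff₀ hJpos]
      calc h ≤ 1 := hlt1
        _ = h⁻¹ ^ 30 * h ^ (30 + 0) := by rw [hmul, pow_zero]
        _ = h ^ 30 * h⁻¹ ^ 30 := by ring
        _ ≤ h ^ 30 * J := mul_le_mul_of_nonneg_left hJ1 (by positivity)
    linarith
  have hsecond : (J : ℝ) * (C * (m1 : ℝ) ^ 2 * (h / J + η)) ^ 2 ≤ 8 * C ^ 2 * h ^ 14 := by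
    have k1 : C * (m1 : ℝ) ^ 2 * (h / J + η) ≤ 2 * C * h ^ 22 := by
      calc C * (m1 : ℝ) ^ 2 * (h / J + η) ≤ C * h⁻¹ ^ 8 * (2 * h ^ 30) := by
            refine mul_le_mul ?_ hhJ (by positivity) (by positivity)
            exact mul_le_mul_of_nonneg_left hm2 (by linarith)
        _ = 2 * C * (h⁻¹ ^ 8 * h ^ (8 + 22)) := by ring
        _ = 2 * C * h ^ 22 := by rw [hmul]
    calc (J : ℝ) * (C * (m1 : ℝ) ^ 2 * (h / J + η)) ^ 2
        ≤ (2 * h⁻¹ ^ 30) * (2 * C * h ^ 22) ^ 2 := by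
          refine mul_le_mul (by linarith) (pow_le_pow_left₀ (by positivity) k1 2)
            (by positivity) (by positivity)
      _ = 8 * C ^ 2 * (h⁻¹ ^ 30 * h ^ (30 + 14)) := by ring
      _ = 8 * C ^ 2 * h ^ 14 := by rw [hmul]
  have hC2 : C ≤ C ^ 2 := by nlinarith
  calc _ ≤ 6 * C * h ^ 14 + 8 * C ^ 2 * h ^ 14 := add_le_add hfirst hsecond
    _ = (6 * C + 8 * C ^ 2) * h ^ 14 := by ring
    _ ≤ (14 * C ^ 2) * h ^ 14 := mul_le_mul_of_nonneg_right (by linarith) (by positivity)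
    _ = (14 * C ^ 2 * h) * h ^ 13 := by ring
    _ ≤ 1 * h ^ 13 := mul_le_mul_of_nonneg_right hh14 (by positivity)
    _ = h ^ 13 := one_mul _
    _ ≤ h ^ 10 := pow_le_pow_of_le_one h0.le hlt1 (by norm_num)

end BGE
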