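import Pool.Agent.BGE.Meas

/-!
BGE / N0. All mesh times from grid times, for an event depending on finitely many weights.

`cells_gen`: let `E` be a measurable event depending only on the weights in the finite set `F`,
`M η ≤ h`, `J ≥ 1`. Then
`P(∃ i ≤ M, dyn i ∈ E) ≤ (J+1) PI(E) + J (|F| (h/J + η))²`.
Proof: as in `Cells` (`good_all`, see the tools there). Let `M' = ⌈M/J⌉`, `M' η ≤ h/J + η`; if in
the cell `[j M', (j+1) M']` at most one weight of `F` is refreshed (one pair (site, step)) then at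
every time of the cell the environment on `F` is the one at the beginning or at the end of the
cell. At the `J + 1` grid times use `dyn_law`. Two refreshments in a cell: union bound over pairs
of distinct (site, step), `P ≤ (|F| M' η)²` for each cell.
-/

namespace BGE

open MeasureTheory ProbabilityTheory

namespace CellsG

/-! ### the dynamics without refreshments -/

theorem dyn_const {η : ℝ} {x : DI → ℝ} {v : ℤ × ℤ} {a : ℕ} (k : ℕ)
    (h : ∀ s, a < s → s ≤ a + k → ¬ x (v, s, false) < η) : dyn η x (a + k) v = dyn η x a v := by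
  induction k with
  | zero => rfl
  | succ k ih =>
    have h1 : dyn η x (a + (k + 1)) v = dyn η x (a + k) v := by
      change (if x (v, a + k + 1, false) < η then _ else _) = _
      rw [if_neg (h (a + k + 1) (by omega) (by omega))]
      rfl
    rw [h1]
    exact ih fun s h2 h3 => h s h2 (by omega)

theorem dyn_const' {η : ℝ} {x : DI → ℝ} {v : ℤ × ℤ} {a b : ℕ} (hab : a ≤ b)
    (h : ∀ s, a < s → s ≤ b → ¬ x (v, s, false) < η) : dyn η x b v = dyn η x a v := by
  obtain ⟨k, rfl⟩ := Nat.exists_eq_add_of_le hab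
  exact dyn_const k h

/-! ### two refreshments in a cell -/

/-- the pairs (site, step) of a cell -/
def cell (F : Finset (ℤ × ℤ)) (a b : ℕ) : Finset ((ℤ × ℤ) × ℕ) := F ×ˢ Finset.Ioc a b

/-- two weights are refreshed in the cell -/
def two (η : ℝ) (F : Finset (ℤ × ℤ)) (a b : ℕ) : Set (DI → ℝ) :=
  {x | ∃ P ∈ cell F a b, ∃ Q ∈ cell F a b, P ≠ Q ∧ x (P.1, P.2, false) < η ∧
    x (Q.1, Q.2, false) < η}

theorem E1_Iio_le {η : ℝ} (hη : 0 ≤ η) : E1 (Set.Iio η) ≤ ENNReal.ofReal η := by
  rw [dyn_Iio hη]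
  apply ENNReal.ofReal_le_ofReal
  have := Real.add_one_le_exp (-η)
  linarith

theorem two_pair {η : ℝ} (hη : 0 ≤ η) {d d' : DI} (hd : d ≠ d') :
    (PI DI).real {x | x d < η ∧ x d' < η} ≤ η ^ 2 := by
  classical
  have h1 : {x : DI → ℝ | x d < η ∧ x d' < η} =
      Set.pi (({d, d'} : Finset DI) : Set DI) (fun _ => Set.Iio η) := by
    ext x
    simp
  have h2 : (PI DI) {x | x d < η ∧ x d' < η} ≤ ENNReal.ofReal (η ^ 2) := by
    rw [h1]
    unfold PI
    rw [Measure.infinitePi_pi _ fun _ _ => measurableSet_Iio, Finset.prod_pair hd,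
      sq, ENNReal.ofReal_mul hη]
    exact mul_le_mul' (E1_Iio_le hη) (E1_Iio_le hη)
  exact ENNReal.toReal_le_of_le_ofReal (by positivity) h2

theorem two_prob {η : ℝ} (hη : 0 ≤ η) (F : Finset (ℤ × ℤ)) (a b : ℕ) :
    (PI DI).real (two η F a b) ≤ (((cell F a b).card : ℝ) * η) ^ 2 := by
  classical
  set S := (cell F a b ×ˢ cell F a b).filter (fun p => p.1 ≠ p.2) with hS
  have h1 : two η F a b ⊆ ⋃ p ∈ S, {x : DI → ℝ | x (p.1.1, p.1.2, false) < η ∧
      x (p.2.1, p.2.2, false) < η} := by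
    rintro x ⟨P, hP, Q, hQ, hne, h2, h3⟩
    simp only [Set.mem_iUnion]
    refine ⟨(P, Q), ?_, h2, h3⟩
    rw [hS, Finset.mem_filter, Finset.mem_product]
    exact ⟨⟨hP, hQ⟩, hne⟩
  have h2 : (S.card : ℝ) ≤ ((cell F a b).card : ℝ) ^ 2 := by
    have : S.card ≤ (cell F a b).card ^ 2 := by
      rw [hS, sq, ← Finset.card_product]
      exact Finset.card_filter_le _ _
    exact_mod_cast this
  calc (PI DI).real (two η F a b)
      ≤ (PI DI).real (⋃ p ∈ S, {x : DI → ℝ | x (p.1.1, p.1.2, false) < η ∧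
          x (p.2.1, p.2.2, false) < η}) := measureReal_mono h1 (measure_ne_top _ _)
    _ ≤ ∑ p ∈ S, (PI DI).real {x : DI → ℝ | x (p.1.1, p.1.2, false) < η ∧
          x (p.2.1, p.2.2, false) < η} := measureReal_biUnion_finset_le _ _
    _ ≤ ∑ p ∈ S, η ^ 2 := by
        refine Finset.sum_le_sum fun p hp => two_pair hη ?_
        rw [hS, Finset.mem_filter] at hp
        intro h
        apply hp.2
        simp only [Prod.mk.injEq, and_true] at h
        exact Prod.ext h.1 h.2
    _ = S.card * η ^ 2 := by rw [Finset.sum_const, nsmul_eq_mul]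
    _ ≤ ((cell F a b).card : ℝ) ^ 2 * η ^ 2 := mul_le_mul_of_nonneg_right h2 (by positivity)
    _ = (((cell F a b).card : ℝ) * η) ^ 2 := by ring

/-- if not two weights are refreshed in the cell then the environment on `F` is always the one
at the beginning or the one at the end -/
theorem one_refresh {η : ℝ} {F : Finset (ℤ × ℤ)} {a b i : ℕ} {x : DI → ℝ}
    (hx : x ∉ two η F a b) (h1 : a ≤ i)
    (h2 : i ≤ b) : (∀ v ∈ F, dyn η x a v = dyn η x i v) ∨
      (∀ v ∈ F, dyn η x b v = dyn η x i v) := by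
  by_cases h : ∃ v ∈ F, ∃ s, a < s ∧ s ≤ i ∧ x (v, s, false) < η
  · obtain ⟨v, hv, s, hs1, hs2, hs3⟩ := h
    refine Or.inr fun w hw => dyn_const' h2 fun t ht1 ht2 ht3 => hx ?_
    refine ⟨(v, s), ?_, (w, t), ?_, ?_, hs3, ht3⟩
    · rw [cell, Finset.mem_product, Finset.mem_Ioc]
      exact ⟨hv, hs1, hs2.trans h2⟩
    · rw [cell, Finset.mem_product, Finset.mem_Ioc]
      exact ⟨hw, lt_of_le_of_lt h1 ht1, ht2⟩
    · intro h3
      have : s = t := congrArg Prod.snd h3
      omega
  · push Not at h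
    exact Or.inl fun w hw => (dyn_const' h1 fun t ht1 ht2 => not_lt.2 (h w hw t ht1 ht2)).symm

theorem find_cell {t : ℕ → ℕ} (h0 : t 0 = 0) {i J : ℕ} (hi : i ≤ t J) (hJ : 1 ≤ J) :
    ∃ j < J, t j ≤ i ∧ i ≤ t (j + 1) := by
  classical
  induction J with
  | zero => omega
  | succ J ih =>
    by_cases h : t J ≤ i
    · exact ⟨J, by omega, h, hi⟩
    · push Not at h
      rcases Nat.eq_zero_or_pos J with rfl | hJ'
      · rw [h0] at h
        omega
      · obtain ⟨j, hj, h1, h2⟩ := ih h.le hJ'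
        exact ⟨j, by omega, h1, h2⟩

end CellsG

theorem cells_gen {F : Finset (ℤ × ℤ)} {E : Set (ℤ × ℤ → ℝ)} (hE : MeasurableSet E)
    (hdep : DepOn (F : Set (ℤ × ℤ)) E) {η h : ℝ} {M J : ℕ} (hη : 0 < η) (hM : M * η ≤ h)
    (hJ : 1 ≤ J) :
    (PI DI).real {x | ∃ i ≤ M, dyn η x i ∈ E} ≤
      (J + 1) * (PI (ℤ × ℤ)).real E + J * (F.card * (h / J + η)) ^ 2 := by
  have hJR : (1 : ℝ) ≤ J := by exact_mod_cast hJ
  -- the bound at one time
  have hE1 : ∀ k, (PI DI).real {x | dyn η x k ∈ E} = (PI (ℤ × ℤ)).real E := fun k =>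
    (dyn_law η k).measureReal_preimage hE.nullMeasurableSet
  -- the grid
  obtain ⟨M', hM'⟩ : ∃ M' : ℕ, M' = (M + J - 1) / J := ⟨_, rfl⟩
  have hM1 : M ≤ J * M' := by
    have := Nat.lt_div_mul_add (a := M + J - 1) (b := J) (by omega)
    rw [hM']
    rw [mul_comm]
    omega
  have hM2 : (M' : ℝ) ≤ M / J + 1 := by
    have k1 : M' * J ≤ M + J - 1 := by
      rw [hM']
      exact Nat.div_mul_le_self _ _
    have k2 : M' * J ≤ M + J := by omega
    have k3 : (M' : ℝ) * J ≤ M + J := by exact_mod_cast k2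
    rw [← sub_nonneg]
    have k4 : (M : ℝ) / J + 1 - M' = (M + J - M' * J) / J := by
      field_simp
    rw [k4]
    exact div_nonneg (by linarith) (by linarith)
  have hM3 : (M' : ℝ) * η ≤ h / J + η := by
    calc (M' : ℝ) * η ≤ (M / J + 1) * η := mul_le_mul_of_nonneg_right hM2 hη.le
      _ = (M * η) / J + η := by ring
      _ ≤ h / J + η := by
          have : (M * η) / J ≤ h / J := div_le_div_of_nonneg_right hM (by linarith)
          linarith
  set t : ℕ → ℕ := fun j => min (j * M') M with ht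
  have ht0 : t 0 = 0 := by simp [ht]
  have htJ : t J = M := min_eq_right hM1
  have hts : ∀ j, t (j + 1) ≤ t j + M' := by
    intro j
    simp only [ht]
    rw [show (j + 1) * M' = j * M' + M' by ring]
    omega
  -- the exceptional sets
  have hcell : ∀ j, (PI DI).real (CellsG.two η F (t j) (t (j + 1))) ≤
      (F.card * (h / J + η)) ^ 2 := by
    intro j
    refine (CellsG.two_prob hη.le _ _ _).trans ?_
    have k1 : ((CellsG.cell F (t j) (t (j + 1))).card : ℝ) ≤ F.card * M' := by
      rw [CellsG.cell, Finset.card_product, Nat.card_Ioc]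
      push_cast [Nat.cast_mul]
      have k2 : ((t (j + 1) - t j : ℕ) : ℝ) ≤ M' := by
        have := hts j
        exact_mod_cast (by omega : t (j + 1) - t j ≤ M')
      exact mul_le_mul_of_nonneg_left k2 (Nat.cast_nonneg _)
    have k3 : ((CellsG.cell F (t j) (t (j + 1))).card : ℝ) * η ≤
        F.card * (h / J + η) := by
      calc ((CellsG.cell F (t j) (t (j + 1))).card : ℝ) * η
          ≤ F.card * M' * η := mul_le_mul_of_nonneg_right k1 hη.le
        _ = F.card * (M' * η) := by ring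
        _ ≤ F.card * (h / J + η) := mul_le_mul_of_nonneg_left hM3 (Nat.cast_nonneg _)
    exact pow_le_pow_left₀ (by positivity) k3 2
  have hsub : {x | ∃ i ≤ M, dyn η x i ∈ E} ⊆
      (⋃ j ∈ Finset.range (J + 1), {x | dyn η x (t j) ∈ E}) ∪
        (⋃ j ∈ Finset.range J, CellsG.two η F (t j) (t (j + 1))) := by
    intro x hx
    by_contra hcon
    simp only [Set.mem_union, Set.mem_iUnion, Set.mem_ofPred_eq, not_or, not_exists,
      Finset.mem_range] at hcon
    obtain ⟨g1, g3⟩ := hcon
    obtain ⟨i, hi, hbad⟩ := hx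
    rw [← htJ] at hi
    obtain ⟨j, hj, hj1, hj2⟩ := CellsG.find_cell ht0 hi hJ
    rcases CellsG.one_refresh (g3 j hj) hj1 hj2 with g4 | g4
    · exact g1 j (by omega) ((hdep _ _ fun v hv => g4 v hv).2 hbad)
    · exact g1 (j + 1) (by omega) ((hdep _ _ fun v hv => g4 v hv).2 hbad)
  calc (PI DI).real {x | ∃ i ≤ M, dyn η x i ∈ E}
      ≤ (PI DI).real ((⋃ j ∈ Finset.range (J + 1), {x | dyn η x (t j) ∈ E}) ∪
        (⋃ j ∈ Finset.range J, CellsG.two η F (t j) (t (j + 1)))) :=
        measureReal_mono hsub (measure_ne_top _ _)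
    _ ≤ (PI DI).real (⋃ j ∈ Finset.range (J + 1), {x | dyn η x (t j) ∈ E}) +
        (PI DI).real (⋃ j ∈ Finset.range J, CellsG.two η F (t j) (t (j + 1))) :=
        measureReal_union_le _ _
    _ ≤ (J + 1) * (PI (ℤ × ℤ)).real E + J * (F.card * (h / J + η)) ^ 2 := by
        have e1 : (PI DI).real (⋃ j ∈ Finset.range (J + 1), {x | dyn η x (t j) ∈ E}) ≤
            (J + 1) * (PI (ℤ × ℤ)).real E := by
          refine (measureReal_biUnion_finset_le _ _).trans ?_
          refine (Finset.sum_le_sum fun j _ => (hE1 (t j)).le).trans ?_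
          rw [Finset.sum_const, Finset.card_range, nsmul_eq_mul]
          push_cast
          exact le_rfl
        have e3 : (PI DI).real (⋃ j ∈ Finset.range J, CellsG.two η F (t j) (t (j + 1))) ≤
            J * (F.card * (h / J + η)) ^ 2 := by
          refine (measureReal_biUnion_finset_le _ _).trans ?_
          refine (Finset.sum_le_sum fun j _ => hcell j).trans ?_
          rw [Finset.sum_const, Finset.card_range, nsmul_eq_mul]
        linarith

end BGE
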