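import Pool.Agent.BGE.Talagrand
import Pool.Agent.BGE.Base2

/-!
BGE / T2, T5. Stability of the last passage time under resampling of a small random set of
weights.

`mix K x a`: weights `x` on `K`, weights `a` elsewhere. `QV ω K u v`: the sum of the squares of the
weights in `K` over the sites `z` with `Via ω u z v`.

`conc_pair`: for nonnegative `a`, under the law `PI` of `x`, `f x = T (mix K x a) u v`:
`P(f ≤ M) P(f ≥ M + z, QV ≤ q) ≤ exp (-z²/(4q))`.
Proof. Only the coordinates in the finite set `ι = [u, v]` matter. Let `R` be the number of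
sites of a path from `u` to `v`. Let `N ≥ 1`, `D t = min (⌊N t⌋, N²)/N` (for `t ≥ 0`), values in a
finite set; the coordinates `D (x z)` are independent. Let `At` be the set of the discrete
configurations `y` with `T (mix K y a) u v ≤ M`; as `D x ≤ x`, `P(D x ∈ At) ≥ P(f ≤ M)`. Let `Bt`
be the set of the `D x`, `x ≥ 0` with `x z < N` for `z ∈ ι`, `f x ≥ M + z`, `QV ≤ q`.
For such `x` let `Γ` be a geodesic for `mix K x a` (`exists_path`); all its sites satisfy `Via`, so
`∑_{Γ ∩ K} (x z)² ≤ q`. For `y ∈ At`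
`z ≤ f x - T (mix K y a) u v ≤ ∑_{Γ ∩ K} (x z - y z)
   ≤ ∑_{Γ ∩ K, D (x z) ≠ y z} x z + ∑_{Γ ∩ K, D (x z) = y z} (x z - D (x z))`
and the last sum is `≤ R/N`. So the hypothesis of `talagrand` holds with `c z = x z/√q` on
`Γ ∩ K`, zero elsewhere, and `u = (z - R/N)^+/√q`. Hence
`P(f ≤ M) P(f ≥ M + z, QV ≤ q, x < N on ι) ≤ exp (-((z - R/N)^+)²/(4q))`; let `N → ∞`.

-/

namespace BGE

open MeasureTheory ProbabilityTheory Finset

/-! ### paths -/

private theorem cp_split (ω : ℤ × ℤ → ℝ) (x : ℤ → ℤ) {a l b : ℤ} (h1 : a ≤ l) (h2 : l ≤ b) :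
    wt ω x a b = wt ω x a l + wt ω x l b - ω (pt x l) := by
  unfold wt
  have e1 : Icc a b = Icc a l ∪ Icc (l + 1) b := by
    ext k
    simp only [mem_union, mem_Icc]
    omega
  have e2 : Icc l b = insert l (Icc (l + 1) b) := by
    ext k
    simp only [mem_insert, mem_Icc]
    omega
  have hd : Disjoint (Icc a l) (Icc (l + 1) b) := by
    rw [Finset.disjoint_left]
    intro k hk hk'
    simp only [mem_Icc] at hk hk'
    omega
  rw [e1, sum_union hd, e2, sum_insert (by simp)]
  ring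

private theorem cp_lev_pt (x : ℤ → ℤ) (l : ℤ) : lev (pt x l) = l := by
  unfold lev pt
  simp

/-- geodesic paths consist of `Via` sites -/
private theorem cp_via {ω : ℤ × ℤ → ℝ} {u v : ℤ × ℤ} {x : ℤ → ℤ}
    (hx : UR x (lev u) (lev v)) (hu : pt x (lev u) = u) (hv : pt x (lev v) = v)
    (hw : wt ω x (lev u) (lev v) = T ω u v) {l : ℤ} (h1 : lev u ≤ l) (h2 : l ≤ lev v) :
    Via ω u (pt x l) v := by
  have a1 : u ≤ pt x l := by
    have := pt_le_pt hx le_rfl h1 h2
    rwa [hu] at this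
  have a2 : pt x l ≤ v := by
    have := pt_le_pt hx h1 h2 le_rfl
    rwa [hv] at this
  refine ⟨a1, a2, ?_⟩
  have b1 := wt_le_T (ω := ω) (hx.mono le_rfl h2) h1
  have b2 := wt_le_T (ω := ω) (hx.mono h1 le_rfl) h2
  rw [hu] at b1
  rw [hv] at b2
  have b3 := cp_split ω x h1 h2
  have b4 := T_add_le (ω := ω) a1 a2
  linarith

private theorem cp_sum {u v : ℤ × ℤ} {x : ℤ → ℤ}
    (hx : UR x (lev u) (lev v)) (hu : pt x (lev u) = u) (hv : pt x (lev v) = v)
    (g : ℤ × ℤ → ℝ) :
    ∑ i ∈ Icc u v, (if pt x (lev i) = i then g i else 0) =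
      ∑ l ∈ Icc (lev u) (lev v), g (pt x l) := by
  rw [← sum_filter]
  refine sum_nbij' (fun i => lev i) (fun l => pt x l) ?_ ?_ ?_ ?_ ?_
  · intro i hi
    rw [mem_filter, mem_Icc] at hi
    exact mem_Icc.2 ⟨lev_le_lev hi.1.1, lev_le_lev hi.1.2⟩
  · intro l hl
    rw [mem_Icc] at hl
    rw [mem_filter, mem_Icc]
    refine ⟨⟨?_, ?_⟩, ?_⟩
    · have := pt_le_pt hx le_rfl hl.1 hl.2
      rwa [hu] at this
    · have := pt_le_pt hx hl.1 hl.2 le_rfl
      rwa [hv] at this
    · rw [cp_lev_pt]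
  · intro i hi
    rw [mem_filter] at hi
    exact hi.2
  · intro l _
    exact cp_lev_pt x l
  · intro i hi
    rw [mem_filter] at hi
    rw [hi.2]

/-! ### discretisation -/

private noncomputable def dd (N : ℕ) (t : ℝ) : Fin (N ^ 2 + 1) :=
  ⟨min ⌊N * t⌋₊ (N ^ 2), Nat.lt_succ_of_le (min_le_right _ _)⟩

private noncomputable def vv (N : ℕ) (k : Fin (N ^ 2 + 1)) : ℝ := (k : ℝ) / N

private theorem vv_nonneg (N : ℕ) (k : Fin (N ^ 2 + 1)) : 0 ≤ vv N k := by
  unfold vv
  positivity

private theorem vv_le {N : ℕ} (hN : 0 < N) {t : ℝ} (ht : 0 ≤ t) : vv N (dd N t) ≤ t := by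
  have hN' : (0 : ℝ) < N := by exact_mod_cast hN
  unfold vv dd
  simp only
  rw [div_le_iff₀ hN']
  calc ((min ⌊(N : ℝ) * t⌋₊ (N ^ 2) : ℕ) : ℝ) ≤ (⌊(N : ℝ) * t⌋₊ : ℝ) := by
        exact_mod_cast min_le_left _ _
    _ ≤ N * t := Nat.floor_le (by positivity)
    _ = t * N := mul_comm _ _

private theorem le_vv {N : ℕ} (hN : 0 < N) {t : ℝ} (ht' : t < N) :
    t ≤ vv N (dd N t) + 1 / N := by
  have hN' : (0 : ℝ) < N := by exact_mod_cast hN
  have h1 : ⌊(N : ℝ) * t⌋₊ ≤ N ^ 2 := by
    refine Nat.floor_le_of_le ?_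
    push_cast
    nlinarith
  unfold vv dd
  simp only
  rw [min_eq_left h1, ← add_div, le_div_iff₀ hN']
  have := (Nat.lt_floor_add_one ((N : ℝ) * t)).le
  linarith

private theorem measurable_dd (N : ℕ) : Measurable (dd N) := by
  have h1 : Measurable fun t : ℝ => min ⌊(N : ℝ) * t⌋₊ (N ^ 2) := by
    have : Measurable fun t : ℝ => ⌊(N : ℝ) * t⌋₊ := Nat.measurable_floor.comp (by fun_prop)
    exact this.min measurable_const
  refine measurable_to_countable' fun k => ?_
  have : dd N ⁻¹' {k} = (fun t : ℝ => min ⌊(N : ℝ) * t⌋₊ (N ^ 2)) ⁻¹' {(k : ℕ)} := by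
    ext t
    simp [dd, Fin.ext_iff]
  rw [this]
  exact h1 (measurableSet_singleton _)

/-- the law of the discretised configuration -/
private theorem cp_law (N : ℕ) (s : Finset (ℤ × ℤ)) (S : Finset (s → Fin (N ^ 2 + 1))) :
    (PI (ℤ × ℤ)).real {x | (fun i : s => dd N (x i)) ∈ S} =
      ∑ y ∈ S, ∏ i, E1.real (dd N ⁻¹' {y i}) := by
  classical
  have h1 : ∀ y : s → Fin (N ^ 2 + 1), (PI (ℤ × ℤ)).real {x | (fun i : s => dd N (x i)) = y} =
      ∏ i, E1.real (dd N ⁻¹' {y i}) := by
    intro y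
    have e1 : {x : ℤ × ℤ → ℝ | (fun i : s => dd N (x i)) = y} =
        Set.pi (s : Set (ℤ × ℤ)) (fun i => if h : i ∈ s then dd N ⁻¹' {y ⟨i, h⟩} else Set.univ) := by
      ext x
      simp only [Set.mem_ofPred_eq, Set.mem_pi, mem_coe]
      constructor
      · intro h i hi
        rw [dif_pos hi, ← h]
        rfl
      · intro h
        funext i
        have := h i i.2
        rw [dif_pos i.2] at this
        exact this
    rw [measureReal_def, e1, PI, Measure.infinitePi_pi, ENNReal.toReal_prod, ← prod_coe_sort]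
    · refine prod_congr rfl fun i _ => ?_
      rw [dif_pos i.2]
      rfl
    · intro i hi
      rw [dif_pos hi]
      exact measurable_dd N (measurableSet_singleton _)
  have h2 : {x : ℤ × ℤ → ℝ | (fun i : s => dd N (x i)) ∈ S} =
      ⋃ y ∈ S, {x | (fun i : s => dd N (x i)) = y} := by
    ext x
    simp
  have hme : ∀ y : s → Fin (N ^ 2 + 1),
      MeasurableSet {x : ℤ × ℤ → ℝ | (fun i : s => dd N (x i)) = y} := by
    intro y
    have hm : Measurable fun x : ℤ × ℤ → ℝ => (fun i : s => dd N (x i)) :=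
      measurable_pi_iff.2 fun i => (measurable_dd N).comp (measurable_pi_apply _)
    exact hm (measurableSet_singleton y)
  rw [h2, measureReal_biUnion_finset]
  · exact sum_congr rfl fun y _ => h1 y
  · intro y _ y' _ hyy
    rw [Function.onFun, Set.disjoint_left]
    rintro x hx hx'
    exact hyy (hx.symm.trans hx')
  · intro y _
    exact hme y

private theorem E1_neg : E1 (Set.Iio 0) = 0 := by
  have : E1 = (volume : Measure ℝ).withDensity (exponentialPDF 1) := rfl
  rw [this, withDensity_apply _ measurableSet_Iio]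
  exact lintegral_exponentialPDF_of_nonpos le_rfl

private theorem cp_ae_nonneg (s : Finset (ℤ × ℤ)) :
    ∀ᵐ x ∂(PI (ℤ × ℤ)), ∀ i ∈ s, 0 ≤ x i := by
  rw [Filter.eventually_all_finset]
  intro i _
  have h := (measurePreserving_eval_infinitePi (fun _ : ℤ × ℤ => E1) i).quasiMeasurePreserving
  have h1 : ∀ᵐ t ∂E1, 0 ≤ t := by
    rw [ae_iff]
    have : {t : ℝ | ¬ 0 ≤ t} = Set.Iio 0 := by
      ext t
      simp
    rw [this, E1_neg]
  exact h.ae h1

open Classical in
/-- the environment given by a discrete configuration -/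
private noncomputable def ext' (N : ℕ) (s : Finset (ℤ × ℤ)) (y : s → Fin (N ^ 2 + 1)) :
    ℤ × ℤ → ℝ := fun z => if h : z ∈ s then vv N (y ⟨z, h⟩) else 0

/-- the statement for fixed `N` -/
private theorem cp_fixed (K : Set (ℤ × ℤ)) (a : ℤ × ℤ → ℝ) {u v : ℤ × ℤ}
    (h : u ≤ v) {M z q : ℝ} (hq : 0 < q) {N : ℕ} (hN : 0 < N) :
    (PI (ℤ × ℤ)).real {x | T (mix K x a) u v ≤ M} *
      (PI (ℤ × ℤ)).real {x | (∀ i ∈ Icc u v, x i < N) ∧
        (M + z ≤ T (mix K x a) u v ∧ QV (mix K x a) K u v ≤ q)} ≤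
      Real.exp (-((max (z - ((lev v - lev u : ℤ) + 1) / N) 0 / √q) ^ 2 / 4)) := by
  classical
  have hN' : (0 : ℝ) < N := by exact_mod_cast hN
  set s : Finset (ℤ × ℤ) := Icc u v with hs
  set At : Finset (s → Fin (N ^ 2 + 1)) :=
    univ.filter fun y => T (mix K (ext' N s y) a) u v ≤ M with hAt
  set Bt : Finset (s → Fin (N ^ 2 + 1)) :=
    univ.filter fun y => ∃ x : ℤ × ℤ → ℝ, (∀ i ∈ s, 0 ≤ x i ∧ x i < N) ∧
      (M + z ≤ T (mix K x a) u v ∧ QV (mix K x a) K u v ≤ q) ∧
      (fun i : s => dd N (x i)) = y with hBt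
  have hA : (PI (ℤ × ℤ)).real {x | T (mix K x a) u v ≤ M} ≤
      ∑ y ∈ At, ∏ i, E1.real (dd N ⁻¹' {y i}) := by
    rw [← cp_law]
    refine ENNReal.toReal_mono (measure_ne_top _ _) (measure_mono_ae ?_)
    filter_upwards [cp_ae_nonneg s] with x hx hxM
    change (fun i : s => dd N (x i)) ∈ At
    rw [hAt, mem_filter]
    refine ⟨mem_univ _, le_trans (T_mono h ?_) hxM⟩
    intro w hw1 hw2
    have hws : w ∈ s := mem_Icc.2 ⟨hw1, hw2⟩
    unfold mix
    split_ifs with hK
    · unfold ext'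
      rw [dif_pos hws]
      exact vv_le hN (hx w hws)
    · exact le_rfl
  have hB : (PI (ℤ × ℤ)).real {x | (∀ i ∈ s, x i < N) ∧
        (M + z ≤ T (mix K x a) u v ∧ QV (mix K x a) K u v ≤ q)} ≤
      ∑ y ∈ Bt, ∏ i, E1.real (dd N ⁻¹' {y i}) := by
    rw [← cp_law]
    refine ENNReal.toReal_mono (measure_ne_top _ _) (measure_mono_ae ?_)
    filter_upwards [cp_ae_nonneg s] with x hx hxM
    change (fun i : s => dd N (x i)) ∈ Bt
    rw [hBt, mem_filter]
    exact ⟨mem_univ _, x, fun i hi => ⟨hx i hi, hxM.1 i hi⟩, hxM.2, rfl⟩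
  have hs1 : ∀ i : s, ∑ k, E1.real (dd N ⁻¹' {k}) = 1 := by
    intro _
    have := measureReal_biUnion_finset (μ := E1) (s := (univ : Finset (Fin (N ^ 2 + 1))))
      (f := fun k => dd N ⁻¹' {k}) (by
        intro k _ k' _ hkk
        rw [Function.onFun, Set.disjoint_left]
        intro t ht ht'
        exact hkk (ht.symm.trans ht')) (fun k _ => measurable_dd N (measurableSet_singleton _))
    rw [← this]
    have e : (⋃ k ∈ (univ : Finset (Fin (N ^ 2 + 1))), dd N ⁻¹' {k}) = Set.univ := by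
      ext t
      simp
    rw [e]
    simp
  have hsq : 0 < √q := Real.sqrt_pos.2 hq
  refine le_trans (mul_le_mul hA hB measureReal_nonneg (sum_nonneg fun y _ =>
    prod_nonneg fun i _ => measureReal_nonneg)) ?_
  refine talagrand (ι := s) (α := Fin (N ^ 2 + 1)) (fun _ k => E1.real (dd N ⁻¹' {k}))
    (fun _ _ => measureReal_nonneg) hs1 At Bt (u := max (z - ((lev v - lev u : ℤ) + 1) / N) 0 / √q)
    (by positivity) ?_
  intro yB hyB
  rw [hBt, mem_filter] at hyB
  obtain ⟨-, x, hx, ⟨hxM, hxq⟩, rfl⟩ := hyB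
  obtain ⟨g, hg, hgu, hgv, hgw⟩ := exists_path (mix K x a) h
  refine ⟨fun i => if pt g (lev i.1) = i.1 then (if i.1 ∈ K then x i.1 / √q else 0) else 0,
    ?_, ?_, ?_⟩
  · intro i
    beta_reduce
    split_ifs
    · exact div_nonneg (hx i.1 i.2).1 hsq.le
    · exact le_rfl
    · exact le_rfl
  · -- sum of squares
    have e1 : ∑ i : s, (if pt g (lev i.1) = i.1 then (if i.1 ∈ K then x i.1 / √q else 0) else 0) ^ 2
        = ∑ i ∈ s, (if pt g (lev i) = i then (if i ∈ K then x i ^ 2 else 0) else 0) / q := by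
      rw [← sum_coe_sort s (fun i => (if pt g (lev i) = i then (if i ∈ K then x i ^ 2 else 0)
        else 0) / q)]
      refine sum_congr rfl fun i _ => ?_
      split_ifs
      · rw [div_pow, Real.sq_sqrt hq.le]
      · simp
      · simp
    rw [e1, ← sum_div, div_le_one hq]
    refine le_trans ?_ hxq
    unfold QV
    refine sum_le_sum fun i hi => ?_
    have hi' := mem_Icc.1 hi
    by_cases h1 : pt g (lev i) = i
    · by_cases h2 : i ∈ K
      · have h3 : Via (mix K x a) u i v := by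
          have := cp_via hg hgu hgv hgw (lev_le_lev hi'.1) (lev_le_lev hi'.2)
          rwa [h1] at this
        rw [if_pos h1, if_pos h2, if_pos ⟨h2, h3⟩]
        unfold mix
        rw [if_pos h2]
      · rw [if_pos h1, if_neg h2]
        split_ifs <;> positivity
    · rw [if_neg h1]
      split_ifs <;> positivity
  · intro y hy
    rw [hAt, mem_filter] at hy
    have hyM := hy.2
    have b1 : wt (mix K (ext' N s y) a) g (lev u) (lev v) ≤ T (mix K (ext' N s y) a) u v := by
      have := wt_le_T (ω := mix K (ext' N s y) a) hg (lev_le_lev h)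
      rwa [hgu, hgv] at this
    have b2 : z ≤ wt (mix K x a) g (lev u) (lev v) -
        wt (mix K (ext' N s y) a) g (lev u) (lev v) := by
      rw [hgw]
      linarith
    have hmem : ∀ l ∈ Icc (lev u) (lev v), pt g l ∈ s := by
      intro l hl
      rw [mem_Icc] at hl
      have c1 := pt_le_pt hg le_rfl hl.1 hl.2
      have c2 := pt_le_pt hg hl.1 hl.2 le_rfl
      rw [hgu] at c1
      rw [hgv] at c2
      exact mem_Icc.2 ⟨c1, c2⟩
    -- comparison
    have b3 : wt (mix K x a) g (lev u) (lev v) -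
        wt (mix K (ext' N s y) a) g (lev u) (lev v) ≤
        ∑ l ∈ Icc (lev u) (lev v), ((if h : pt g l ∈ s then
          (if pt g l ∈ K then (if dd N (x (pt g l)) ≠ y ⟨pt g l, h⟩ then x (pt g l) else 0)
            else 0) else 0) + 1 / N) := by
      unfold wt
      rw [← sum_sub_distrib]
      refine sum_le_sum fun l hl => ?_
      have hls := hmem l hl
      rw [dif_pos hls]
      have hN1 : (0 : ℝ) ≤ 1 / N := by positivity
      by_cases hK : pt g l ∈ K
      · have e1 : mix K x a (pt g l) = x (pt g l) := by unfold mix; rw [if_pos hK]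
        have e2 : mix K (ext' N s y) a (pt g l) = vv N (y ⟨pt g l, hls⟩) := by
          unfold mix
          rw [if_pos hK]
          unfold ext'
          rw [dif_pos hls]
        rw [e1, e2, if_pos hK]
        by_cases hd : dd N (x (pt g l)) = y ⟨pt g l, hls⟩
        · rw [if_neg (not_not.2 hd), ← hd]
          have := le_vv hN (hx _ hls).2
          linarith
        · rw [if_pos hd]
          have := vv_nonneg N (y ⟨pt g l, hls⟩)
          linarith
      · have e1 : mix K x a (pt g l) = a (pt g l) := by unfold mix; rw [if_neg hK]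
        have e2 : mix K (ext' N s y) a (pt g l) = a (pt g l) := by
          unfold mix
          rw [if_neg hK]
        rw [e1, e2, if_neg hK]
        linarith
    rw [sum_add_distrib, sum_const, Int.card_Icc, nsmul_eq_mul] at b3
    have hcard : (((lev v + 1 - lev u).toNat : ℕ) : ℝ) = ((lev v - lev u : ℤ) : ℝ) + 1 := by
      have h1 : ((lev v + 1 - lev u).toNat : ℤ) = lev v + 1 - lev u :=
        Int.toNat_of_nonneg (by have := lev_le_lev h; omega)
      have h2 : (((lev v + 1 - lev u).toNat : ℕ) : ℝ) = ((lev v + 1 - lev u : ℤ) : ℝ) := by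
        exact_mod_cast h1
      rw [h2]
      push_cast
      ring
    rw [hcard] at b3
    have b4 := cp_sum hg hgu hgv (fun i => if h : i ∈ s then
          (if i ∈ K then (if dd N (x i) ≠ y ⟨i, h⟩ then x i else 0) else 0) else 0)
    rw [← b4] at b3
    have e5 : (∑ i : s, if (fun i : s => dd N (x i)) i ≠ y i then
        (if pt g (lev i.1) = i.1 then (if i.1 ∈ K then x i.1 / √q else 0) else 0) else 0) =
        (∑ i ∈ s, if pt g (lev i) = i then (if h : i ∈ s then
          (if i ∈ K then (if dd N (x i) ≠ y ⟨i, h⟩ then x i else 0) else 0) else 0) else 0) / √q := by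
      rw [sum_div, ← sum_coe_sort s]
      refine sum_congr rfl fun i _ => ?_
      rw [dif_pos i.2]
      by_cases h1 : dd N (x i.1) = y i
      · have h1' : ¬ (dd N (x i.1) ≠ y ⟨i.1, i.2⟩) := not_not.2 h1
        rw [if_neg (not_not.2 h1), if_neg h1']
        simp
      · have h1' : dd N (x i.1) ≠ y ⟨i.1, i.2⟩ := h1
        rw [if_pos h1, if_pos h1']
        split_ifs <;> simp
    rw [e5]
    refine (div_le_div_iff_of_pos_right hsq).2 (max_le ?_ ?_)
    · have : ((lev v - lev u : ℤ) + 1 : ℝ) * (1 / N) = ((lev v - lev u : ℤ) + 1) / N := by ring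
      rw [this] at b3
      linarith
    · refine sum_nonneg fun i hi => ?_
      split_ifs
      · exact (hx i hi).1
      · exact le_rfl
      · exact le_rfl
      · exact le_rfl

theorem conc_pair (K : Set (ℤ × ℤ)) (a : ℤ × ℤ → ℝ) (ha : ∀ z, 0 ≤ a z) {u v : ℤ × ℤ}
    (h : u ≤ v) {M z q : ℝ} (hz : 0 ≤ z) (hq : 0 < q) :
    (PI (ℤ × ℤ)).real {x | T (mix K x a) u v ≤ M} *
      (PI (ℤ × ℤ)).real {x | M + z ≤ T (mix K x a) u v ∧ QV (mix K x a) K u v ≤ q} ≤
      Real.exp (-(z ^ 2 / (4 * q))) := by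
  set A : Set (ℤ × ℤ → ℝ) := {x | T (mix K x a) u v ≤ M} with hA
  set B : Set (ℤ × ℤ → ℝ) := {x | M + z ≤ T (mix K x a) u v ∧ QV (mix K x a) K u v ≤ q} with hB
  set S : ℕ → Set (ℤ × ℤ → ℝ) := fun N => {x | (∀ i ∈ Icc u v, x i < N) ∧
        (M + z ≤ T (mix K x a) u v ∧ QV (mix K x a) K u v ≤ q)} with hS
  have hmono : Monotone S := by
    intro N N' hNN x hx
    refine ⟨fun i hi => lt_of_lt_of_le (hx.1 i hi) (by exact_mod_cast hNN), hx.2⟩
  have hU : (⋃ N, S N) = B := by
    ext x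
    simp only [Set.mem_iUnion]
    constructor
    · rintro ⟨N, hN⟩
      exact hN.2
    · intro hx
      obtain ⟨N, hN⟩ := exists_nat_gt (∑ i ∈ Icc u v, |x i|)
      refine ⟨N, fun i hi => lt_of_le_of_lt ?_ hN, hx⟩
      exact (le_abs_self _).trans (single_le_sum (f := fun i => |x i|)
        (fun i _ => abs_nonneg _) hi)
  have hlim1 : Filter.Tendsto (fun N => (PI (ℤ × ℤ)).real (S N)) Filter.atTop
      (nhds ((PI (ℤ × ℤ)).real B)) := by
    have := tendsto_measure_iUnion_atTop (μ := PI (ℤ × ℤ)) hmono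
    rw [hU] at this
    exact (ENNReal.tendsto_toReal (measure_ne_top _ _)).comp this
  have hlim2 := hlim1.const_mul ((PI (ℤ × ℤ)).real A)
  have hlim3 : Filter.Tendsto (fun N : ℕ =>
      Real.exp (-((max (z - ((lev v - lev u : ℤ) + 1) / (N : ℝ)) 0 / √q) ^ 2 / 4)))
      Filter.atTop (nhds (Real.exp (-((max (z - 0) 0 / √q) ^ 2 / 4)))) := by
    have h1 : Filter.Tendsto (fun N : ℕ => (((lev v - lev u : ℤ) : ℝ) + 1) / (N : ℝ))
        Filter.atTop (nhds 0) := tendsto_const_div_atTop_nhds_zero_nat _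
    have h2 : Continuous fun t : ℝ => Real.exp (-((max (z - t) 0 / √q) ^ 2 / 4)) := by
      fun_prop
    exact (h2.tendsto 0).comp h1
  have e : Real.exp (-((max (z - 0) 0 / √q) ^ 2 / 4)) = Real.exp (-(z ^ 2 / (4 * q))) := by
    rw [sub_zero, max_eq_left hz, div_pow, Real.sq_sqrt hq.le]
    congr 2
    field_simp
  rw [e] at hlim3
  refine le_of_tendsto_of_tendsto hlim2 hlim3 ?_
  filter_upwards [Filter.eventually_gt_atTop 0] with N hN
  exact cp_fixed K a h hq hN

end BGE
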