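import Pool.Agent.BGE.RowMart
import Pool.Agent.BGE.Indep
import Mathlib.Probability.CentralLimitTheorem

/-!
BGE / N3b. Linear statistics of the dynamics stay large for a unit time with positive probability.

Notation as in `RowMart`: `Z i = ∑_{v ∈ F} (dyn η x i v - 1)`; `e^{iη} Z i` is a martingale.

* `cond_max`: there are `p1, c1 > 0` (absolute) such that for all `m ≥ 1` there is `k0` with: for all
  `F` with `|F| = k ≥ k0` and all `η ∈ (0,1]`, `M η ≤ 1`:
  `P(∀ i ≤ M, Z i ≥ (c1 √m - C1) √k) ≥ p1^m/2`, `C1` absolute.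
  Proof. Split `F` into `m` groups of size between `k/(2m)` and `2k/m`. For each group `G`,
  `P(∑_G (X - 1) ≥ c √(k/m), ∑_G (X-1)² ≤ C k/m) ≥ p1` (Paley-Zygmund for the positive part:
  `U = ∑_G (X-1)` has `E U² = |G|`, `E U⁴ ≤ 9 |G|²`, hence `E |U| ≥ c √|G|`, `E U^+ = E|U|/2`,
  `P(U ≥ c' √|G|) ≥ 2 p1`; and Markov's inequality for `∑ (X-1)²` with `C` large). By independence
  of the groups all these events occur with probability `≥ p1^m`, and then `Z 0 ≥ c √m √k`,
  `∑_F (X-1)² ≤ C k`. Given the environment at the time 0, `e^{iη} Z i - Z 0` is a martingale with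
  variance at most `e² ∑_F (1 + (X-1)²) ≤ C' k` at the time `M`; by Doob's inequality
  (conditionally on the time 0) `P(max_i |e^{iη} Z i - Z 0| ≥ 2 √(C' k) | time 0) ≤ 1/2`. On this
  event `Z i ≥ e^{-1} c √m √k - 2 √(C' k)`.
  (The conditional version of Doob's inequality: restrict the martingale `e^{iη} Z i - Z 0` to the
  event, i.e. multiply by the indicator function of the event at the time 0; this is again a
  martingale.)

  Implementation: the events at the time 0 are obtained from the central limit theorem (for all the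
  sites of `F` at once, no groups) and Chebyshev's inequality for `∑ (X - 1)²`.
-/

namespace BGE

open MeasureTheory ProbabilityTheory Filter

section Ind

variable {ι : Type*}

private def cmDep (S : Set ι) (g : (ι → ℝ) → ℝ) : Prop :=
  ∀ x y : ι → ℝ, (∀ i ∈ S, x i = y i) → g x = g y

private theorem cm_glue {S : Set ι} {f g : (ι → ℝ) → ℝ} (hf : cmDep S f) (hg : cmDep Sᶜ g)
    (z : (ι → ℝ) × (ι → ℝ)) : f (glue S z.1 z.2) * g (glue S z.1 z.2) = f z.1 * g z.2 := by
  have h1 : f (glue S z.1 z.2) = f z.1 := hf _ _ fun i hi => by rw [glue, if_pos hi]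
  have h2 : g (glue S z.1 z.2) = g z.2 := hg _ _ fun i hi => by rw [glue, if_neg hi]
  rw [h1, h2]

private theorem cm_ind {S : Set ι} {f g : (ι → ℝ) → ℝ} (hfm : Measurable f) (hgm : Measurable g)
    (hf : cmDep S f) (hg : cmDep Sᶜ g) :
    ∫ x, f x * g x ∂PI ι = (∫ x, f x ∂PI ι) * ∫ x, g x ∂PI ι := by
  have h := measurePreserving_glue (fun _ : ι => E1) S
  have h1 : ∫ x, f x * g x ∂PI ι =
      ∫ z, f (glue S z.1 z.2) * g (glue S z.1 z.2) ∂((PI ι).prod (PI ι)) := by
    have h2 := integral_map (μ := (Measure.infinitePi fun _ : ι => E1).prod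
      (Measure.infinitePi fun _ : ι => E1)) (f := fun x => f x * g x) h.measurable.aemeasurable
      (hfm.mul hgm).aestronglyMeasurable
    rw [h.map_eq] at h2
    exact h2
  rw [h1]
  simp_rw [cm_glue hf hg]
  exact integral_prod_mul f g

/-- the same with the sets of coordinates given -/
private theorem cm_ind' {S T : Set ι} (hST : Disjoint S T) {f g : (ι → ℝ) → ℝ}
    (hfm : Measurable f) (hgm : Measurable g)
    (hf : cmDep S f) (hg : cmDep T g) :
    ∫ x, f x * g x ∂PI ι = (∫ x, f x ∂PI ι) * ∫ x, g x ∂PI ι :=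
  cm_ind hfm hgm hf fun x y h => hg x y fun i hi => h i fun hi' => Set.disjoint_left.1 hST hi' hi

end Ind

/-! ### one coordinate -/

private theorem cm_memLp1 : MemLp (fun x : ℝ => x - 1) 2 E1 :=
  (memLp_two_iff_integrable_sq (by fun_prop)).2 (wk_u_int 2)

private theorem cm_eval {ι : Type*} (v : ι) : MeasurePreserving (fun x : ι → ℝ => x v) (PI ι) E1 :=
  measurePreserving_eval_infinitePi (fun _ : ι => E1) v

private theorem cm_memLp {ι : Type*} (v : ι) : MemLp (fun x : ι → ℝ => x v - 1) 2 (PI ι) :=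
  cm_memLp1.comp_measurePreserving (cm_eval v)

private theorem cm_int {ι : Type*} (v : ι) {F : ℝ → ℝ} (hF : Measurable F) :
    ∫ x : ι → ℝ, F (x v) ∂PI ι = ∫ y, F y ∂E1 := by
  have h := cm_eval v
  have h2 := integral_map (μ := PI ι) (f := F) h.measurable.aemeasurable hF.aestronglyMeasurable
  rw [h.map_eq] at h2
  exact h2.symm

private theorem cm_mean {ι : Type*} (v : ι) : ∫ x : ι → ℝ, (x v - 1) ∂PI ι = 0 :=
  (cm_int v (F := fun y => y - 1) (by fun_prop)).trans wk_u1

private theorem cm_var {ι : Type*} (v : ι) : ∫ x : ι → ℝ, (x v - 1) ^ 2 ∂PI ι = 1 :=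
  (cm_int v (F := fun y => (y - 1) ^ 2) (by fun_prop)).trans wk_u2

private theorem cm_im {α : Type*} [MeasurableSpace α] {μ : Measure α} {f g : α → ℝ}
    (hf : MemLp f 2 μ) (hg : MemLp g 2 μ) : Integrable (fun x => f x * g x) μ :=
  hf.integrable_mul hg

/-! ### the sum of the squares -/

private noncomputable def cmH (t : ℝ) : ℝ := (t - 1) ^ 2 - 1

private theorem cmH_meas : Measurable cmH := by
  unfold cmH
  fun_prop

private theorem cmH_sq (t : ℝ) : cmH t ^ 2 = (t - 1) ^ 4 - 2 * (t - 1) ^ 2 + 1 := by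
  unfold cmH
  ring

private theorem cmH_memLp1 : MemLp cmH 2 E1 := by
  refine (memLp_two_iff_integrable_sq cmH_meas.aestronglyMeasurable).2 ?_
  simp_rw [cmH_sq]
  exact ((wk_u_int 4).sub ((wk_u_int 2).const_mul 2)).add (integrable_const 1)

private theorem cm_u4 : ∫ x, (x - 1) ^ 4 ∂E1 = 9 := by
  have h1 : ∀ x : ℝ, (x - 1) ^ 4 = x ^ 4 - 4 * x ^ 3 + 6 * x ^ 2 - 4 * x ^ 1 + 1 := by
    intro x
    ring
  simp_rw [h1]
  have i4 := wk_pow_int 4
  have i3 := (wk_pow_int 3).const_mul 4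
  have i2 := (wk_pow_int 2).const_mul 6
  have i1 := (wk_pow_int 1).const_mul 4
  have i0 : Integrable (fun _ : ℝ => (1 : ℝ)) E1 := integrable_const 1
  have j1 : Integrable (fun x : ℝ => x ^ 4 - 4 * x ^ 3) E1 := i4.sub i3
  have j2 : Integrable (fun x : ℝ => x ^ 4 - 4 * x ^ 3 + 6 * x ^ 2) E1 := j1.add i2
  have j3 : Integrable (fun x : ℝ => x ^ 4 - 4 * x ^ 3 + 6 * x ^ 2 - 4 * x ^ 1) E1 := j2.sub i1
  rw [integral_add j3 i0, integral_sub j2 i1, integral_add j1 i2, integral_sub i4 i3,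
    integral_const_mul, integral_const_mul, integral_const_mul, wk_pow, wk_pow, wk_pow, wk_pow]
  simp [Nat.factorial]
  norm_num

private theorem cmH_mean : ∫ x, cmH x ∂E1 = 0 := by
  unfold cmH
  rw [integral_sub (wk_u_int 2) (integrable_const 1), wk_u2]
  simp

private theorem cmH_var : ∫ x, cmH x ^ 2 ∂E1 = 8 := by
  simp_rw [cmH_sq]
  have i4 := wk_u_int 4
  have i2 := (wk_u_int 2).const_mul 2
  have i0 : Integrable (fun _ : ℝ => (1 : ℝ)) E1 := integrable_const 1
  have j1 : Integrable (fun x : ℝ => (x - 1) ^ 4 - 2 * (x - 1) ^ 2) E1 := i4.sub i2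
  rw [integral_add j1 i0, integral_sub i4 i2, integral_const_mul, wk_u2, cm_u4]
  simp
  norm_num

private theorem cmH_sum {ι : Type*} (F : Finset ι) :
    ∫ x : ι → ℝ, (∑ v ∈ F, cmH (x v)) ^ 2 ∂PI ι = 8 * F.card := by
  classical
  have hm : ∀ v : ι, MemLp (fun x : ι → ℝ => cmH (x v)) 2 (PI ι) := fun v =>
    cmH_memLp1.comp_measurePreserving (cm_eval v)
  have hms : ∀ F : Finset ι, MemLp (fun x : ι → ℝ => ∑ v ∈ F, cmH (x v)) 2 (PI ι) := fun F =>
    memLp_finsetSum _ fun v _ => hm v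
  have hme : ∀ v : ι, Measurable (fun x : ι → ℝ => cmH (x v)) := fun v =>
    cmH_meas.comp (measurable_pi_apply v)
  induction F using Finset.induction_on with
  | empty => simp
  | insert v F hv ih =>
    have h1 : ∀ x : ι → ℝ, (∑ u ∈ insert v F, cmH (x u)) ^ 2 =
        cmH (x v) ^ 2 + 2 * (cmH (x v) * ∑ u ∈ F, cmH (x u)) + (∑ u ∈ F, cmH (x u)) ^ 2 := by
      intro x
      rw [Finset.sum_insert hv]
      ring
    have h2 : ∫ x : ι → ℝ, cmH (x v) * ∑ u ∈ F, cmH (x u) ∂PI ι = 0 := by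
      rw [cm_ind' (S := {v}) (T := (F : Set ι))
        (by rw [Set.disjoint_singleton_left]; exact_mod_cast hv) (hme v)
        (Finset.measurable_fun_sum _ fun u _ => hme u)
        (fun x y h => by rw [h v rfl])
        (fun x y h => Finset.sum_congr rfl fun u hu => by rw [h u (by exact_mod_cast hu)]),
        cm_int v cmH_meas, cmH_mean, zero_mul]
    have i1 : Integrable (fun x : ι → ℝ => cmH (x v) ^ 2) (PI ι) := (hm v).integrable_sq
    have i2 : Integrable (fun x : ι → ℝ => 2 * (cmH (x v) * ∑ u ∈ F, cmH (x u))) (PI ι) :=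
      (cm_im (hm v) (hms F)).const_mul 2
    have i3 : Integrable (fun x : ι → ℝ => (∑ u ∈ F, cmH (x u)) ^ 2) (PI ι) :=
      (hms F).integrable_sq
    have i4 : Integrable (fun x : ι → ℝ => cmH (x v) ^ 2 +
      2 * (cmH (x v) * ∑ u ∈ F, cmH (x u))) (PI ι) := i1.add i2
    have h3 : ∫ x : ι → ℝ, cmH (x v) ^ 2 ∂PI ι = 8 :=
      (cm_int v (F := fun y => cmH y ^ 2) (cmH_meas.pow_const 2)).trans cmH_var
    simp_rw [h1]
    rw [integral_add i4 i3, integral_add i1 i2, integral_const_mul, h2, ih, h3,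
      Finset.card_insert_of_notMem hv]
    push_cast
    ring

private theorem cm_sq (k : ℕ) (hk : 0 < k) : (PI ℕ).real {y : ℕ → ℝ |
    ¬ ∑ u ∈ Finset.range k, (y u - 1) ^ 2 ≤ 2 * (k : ℝ)} ≤ 8 / k := by
  have h0 := cmH_sum (Finset.range k)
  rw [Finset.card_range] at h0
  have hk' : (0 : ℝ) < k := by exact_mod_cast hk
  have hm : MemLp (fun x : ℕ → ℝ => ∑ v ∈ Finset.range k, cmH (x v)) 2 (PI ℕ) :=
    memLp_finsetSum _ fun v _ => cmH_memLp1.comp_measurePreserving (cm_eval v)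
  have h1 := mul_meas_ge_le_integral_of_nonneg (μ := PI ℕ)
    (f := fun x : ℕ → ℝ => (∑ v ∈ Finset.range k, cmH (x v)) ^ 2)
    (Eventually.of_forall fun x => sq_nonneg _) hm.integrable_sq ((k : ℝ) ^ 2)
  rw [h0] at h1
  have h2 : {y : ℕ → ℝ | ¬ ∑ u ∈ Finset.range k, (y u - 1) ^ 2 ≤ 2 * (k : ℝ)} ⊆
      {x | (k : ℝ) ^ 2 ≤ (∑ v ∈ Finset.range k, cmH (x v)) ^ 2} := by
    intro y hy
    have hy' : ¬ ∑ u ∈ Finset.range k, (y u - 1) ^ 2 ≤ 2 * (k : ℝ) := hy
    have h3 : ∑ v ∈ Finset.range k, cmH (y v) = ∑ u ∈ Finset.range k, (y u - 1) ^ 2 - k := by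
      unfold cmH
      rw [Finset.sum_sub_distrib]
      simp
    change (k : ℝ) ^ 2 ≤ (∑ v ∈ Finset.range k, cmH (y v)) ^ 2
    rw [h3]
    exact pow_le_pow_left₀ hk'.le (by linarith [not_le.1 hy']) 2
  have h3 := measureReal_mono (μ := PI ℕ) h2
  refine h3.trans ?_
  rw [le_div_iff₀ hk']
  have h4 : (k : ℝ) ^ 2 * (PI ℕ).real {x | (k : ℝ) ^ 2 ≤ (∑ v ∈ Finset.range k, cmH (x v)) ^ 2} ≤
      8 * k := h1
  have h5 : (k : ℝ) * ((PI ℕ).real {x | (k : ℝ) ^ 2 ≤ (∑ v ∈ Finset.range k, cmH (x v)) ^ 2} * k) ≤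
      k * 8 := by nlinarith
  exact le_of_mul_le_mul_left h5 hk'


/-! ### the martingale property -/

/-- noise up to the time `l` -/
private def cmP (l : ℕ) : Set DI := {p | p.2.1 ≤ l}

/-- noise at the other sites or up to the time `l` -/
private def cmQ (v : ℤ × ℤ) (l : ℕ) : Set DI := {p | p.1 ≠ v ∨ p.2.1 ≤ l}

private noncomputable def cmD (η : ℝ) (i : ℕ) (v : ℤ × ℤ) (x : DI → ℝ) : ℝ := dyn η x i v - 1

private theorem cmD_meas (η : ℝ) (i : ℕ) (v : ℤ × ℤ) : Measurable (cmD η i v) :=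
  ((measurable_pi_apply v).comp (measurable_dyn η i)).sub_const 1

private theorem cmD_dep (η : ℝ) (i : ℕ) (v : ℤ × ℤ) : cmDep (cmP i) (cmD η i v) := by
  intro x y h
  unfold cmD
  rw [dyn_eq, dyn_eq, dyn1_congr η i fun p hp => h (v, p) hp]

private theorem cmD_dep' (η : ℝ) (i : ℕ) (v : ℤ × ℤ) : cmDep {p : DI | p.1 = v} (cmD η i v) := by
  intro x y h
  unfold cmD
  rw [dyn_eq, dyn_eq, dyn1_congr η i fun p _ => h (v, p) rfl]

private theorem cmD_memLp (η : ℝ) (i : ℕ) (v : ℤ × ℤ) : MemLp (cmD η i v) 2 (PI DI) :=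
  (cm_memLp v).comp_measurePreserving (dyn_law η i)

/-- the clock -/
private noncomputable def cmC (η : ℝ) (l : ℕ) (v : ℤ × ℤ) (x : DI → ℝ) : ℝ :=
  if x (v, l + 1, false) < η then 1 else 0

private theorem cmC_meas (η : ℝ) (l : ℕ) (v : ℤ × ℤ) : Measurable (cmC η l v) :=
  Measurable.ite (measurableSet_lt (measurable_pi_apply _) measurable_const) measurable_const
    measurable_const

private theorem cmC_dep (η : ℝ) (l : ℕ) (v : ℤ × ℤ) :
    cmDep {((v, l + 1, false) : DI)} (cmC η l v) := by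
  intro x y h
  unfold cmC
  rw [h _ rfl]

private theorem cmC_le (η : ℝ) (l : ℕ) (v : ℤ × ℤ) (x : DI → ℝ) : |cmC η l v x| ≤ 1 := by
  unfold cmC
  split_ifs <;> simp

private theorem cmC_le' (η : ℝ) (l : ℕ) (v : ℤ × ℤ) (x : DI → ℝ) : |1 - cmC η l v x| ≤ 1 := by
  unfold cmC
  split_ifs <;> simp

private theorem cmC_int {η : ℝ} (hη : 0 ≤ η) (l : ℕ) (v : ℤ × ℤ) :
    ∫ x, (1 - cmC η l v x) ∂PI DI = Real.exp (-η) := by
  have h1 : (fun x : DI → ℝ => 1 - cmC η l v x) =
      fun x => (Set.Ici η).indicator (fun _ => (1 : ℝ)) (x (v, l + 1, false)) := by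
    funext x
    simp only [cmC, Set.indicator, Set.mem_Ici]
    by_cases h : x (v, l + 1, false) < η
    · rw [if_pos h, if_neg (not_le.2 h)]
      ring
    · rw [if_neg h, if_pos (not_lt.1 h)]
      ring
  rw [h1, cm_int (v, l + 1, false) (F := (Set.Ici η).indicator fun _ => (1 : ℝ))
    (measurable_const.indicator measurableSet_Ici), integral_indicator_const _ measurableSet_Ici,
    smul_eq_mul, mul_one, Measure.real, dyn_Ici hη, ENNReal.toReal_ofReal (Real.exp_pos _).le]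

private theorem cmC_int' {η : ℝ} (hη : 0 ≤ η) (l : ℕ) (v : ℤ × ℤ) :
    ∫ x, cmC η l v x ∂PI DI = 1 - Real.exp (-η) := by
  have hi : Integrable (fun x : DI → ℝ => 1 - cmC η l v x) (PI DI) := by
    refine (integrable_const (1 : ℝ)).mono (measurable_const.sub (cmC_meas η l v)).aestronglyMeasurable
      (Eventually.of_forall fun x => ?_)
    rw [Real.norm_eq_abs, Real.norm_eq_abs, abs_one]
    exact cmC_le' η l v x
  have h := integral_sub (integrable_const (1 : ℝ)) hi
  rw [cmC_int hη] at h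
  simp only [sub_sub_cancel] at h
  rw [h]
  simp

private theorem cmD_step {η : ℝ} (hη : 0 ≤ η) {l : ℕ} (v : ℤ × ℤ) {g : (DI → ℝ) → ℝ}
    (hg : Measurable g) (hg2 : MemLp g 2 (PI DI)) (hgd : cmDep (cmQ v l) g) :
    ∫ x, g x * cmD η (l + 1) v x ∂PI DI = Real.exp (-η) * ∫ x, g x * cmD η l v x ∂PI DI := by
  classical
  set p0 : DI := (v, l + 1, false) with hp0
  set p1 : DI := (v, l + 1, true) with hp1
  set c : (DI → ℝ) → ℝ := cmC η l v with hc
  have hcm : Measurable c := cmC_meas η l v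
  have hcm' : Measurable fun x => 1 - c x := measurable_const.sub hcm
  have hm1 : Measurable fun x : DI → ℝ => x p1 - 1 := by fun_prop
  have hpt : ∀ x, g x * cmD η (l + 1) v x =
      g x * (c x * (x p1 - 1)) + (g x * cmD η l v x) * (1 - c x) := by
    intro x
    unfold cmD
    simp only [dyn, hc, hp1, cmC]
    split_ifs with h
    · ring
    · ring
  have hm2 : MemLp (fun x => c x * (x p1 - 1)) 2 (PI DI) := by
    refine (cm_memLp p1).mono (hcm.mul hm1).aestronglyMeasurable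
      (Filter.Eventually.of_forall fun x => ?_)
    rw [Real.norm_eq_abs, Real.norm_eq_abs, abs_mul]
    exact mul_le_of_le_one_left (abs_nonneg _) (cmC_le η l v x)
  have hm3 : Integrable (fun x => g x * cmD η l v x) (PI DI) := hg2.integrable_mul (cmD_memLp η l v)
  have hm4 : Integrable (fun x => (g x * cmD η l v x) * (1 - c x)) (PI DI) := by
    refine hm3.mono ((hg.mul (cmD_meas η l v)).mul hcm').aestronglyMeasurable
      (Filter.Eventually.of_forall fun x => ?_)
    rw [Real.norm_eq_abs, Real.norm_eq_abs, abs_mul]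
    exact mul_le_of_le_one_right (abs_nonneg _) (cmC_le' η l v x)
  have hp0q : p0 ∉ cmQ v l := by
    rintro (h | h)
    · exact h rfl
    · have : l + 1 ≤ l := h
      omega
  have hp1q : p1 ∉ cmQ v l := by
    rintro (h | h)
    · exact h rfl
    · have : l + 1 ≤ l := h
      omega
  have hd0 : Disjoint (cmQ v l) {p0} := by
    rw [Set.disjoint_singleton_right]
    exact hp0q
  have hd01 : Disjoint (cmQ v l) {p0, p1} := by
    rw [Set.disjoint_left]
    rintro p hp (rfl | rfl)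
    · exact hp0q hp
    · exact hp1q hp
  have hcd : cmDep {p0} c := cmC_dep η l v
  have hcd' : cmDep {p0} fun x => 1 - c x := by
    intro x y h
    change 1 - c x = 1 - c y
    rw [hcd x y h]
  have e1 : ∫ x, c x * (x p1 - 1) ∂PI DI = 0 := by
    rw [cm_ind' (S := {p0}) (T := {p1}) ?_ hcm hm1 hcd (fun x y h => by rw [h p1 rfl]), cm_mean,
      mul_zero]
    rw [Set.disjoint_singleton]
    simp [hp0, hp1]
  have e2 : ∫ x, (1 - c x) ∂PI DI = Real.exp (-η) := cmC_int hη l v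
  have e3 : ∫ x, g x * (c x * (x p1 - 1)) ∂PI DI = 0 := by
    rw [cm_ind' (S := cmQ v l) (T := {p0, p1}) (g := fun x => c x * (x p1 - 1)) hd01 hg
      (hcm.mul hm1) hgd, e1, mul_zero]
    intro x y h
    change c x * (x p1 - 1) = c y * (y p1 - 1)
    rw [hcd x y fun i hi => h i (Or.inl hi), h p1 (Or.inr rfl)]
  have e4 : ∫ x, (g x * cmD η l v x) * (1 - c x) ∂PI DI =
      (∫ x, g x * cmD η l v x ∂PI DI) * Real.exp (-η) := by
    rw [cm_ind' (S := cmQ v l) (T := {p0}) (f := fun x => g x * cmD η l v x) hd0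
      (hg.mul (cmD_meas η l v)) hcm' ?_ hcd', e2]
    intro x y h
    change g x * cmD η l v x = g y * cmD η l v y
    rw [hgd x y h, cmD_dep η l v x y fun p hp => h p (Or.inr hp)]
  simp_rw [hpt]
  rw [integral_add (cm_im hg2 hm2) hm4, e3, e4]
  ring

private theorem cmD_iter {η : ℝ} (hη : 0 ≤ η) {i M : ℕ} (hiM : i ≤ M) (v : ℤ × ℤ)
    {g : (DI → ℝ) → ℝ} (hg : Measurable g) (hg2 : MemLp g 2 (PI DI)) (hgd : cmDep (cmQ v i) g) :
    ∫ x, g x * cmD η M v x ∂PI DI =
      Real.exp (-(((M - i : ℕ) : ℝ) * η)) * ∫ x, g x * cmD η i v x ∂PI DI := by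
  induction M, hiM using Nat.le_induction with
  | base => simp
  | succ M hM ih =>
    have hgd' : cmDep (cmQ v M) g := fun x y h => hgd x y fun p hp => h p
      (hp.imp id fun h1 => le_trans h1 hM)
    rw [cmD_step hη v hg hg2 hgd', ih, ← mul_assoc, ← Real.exp_add]
    congr 2
    rw [show M + 1 - i = (M - i) + 1 by omega]
    push_cast
    ring

/-- the square -/
private theorem cmD_sq {η : ℝ} (hη : 0 ≤ η) (v : ℤ × ℤ) {g : (DI → ℝ) → ℝ}
    (hg : Measurable g) (hg0 : ∀ x, 0 ≤ g x) (hg1 : ∀ x, g x ≤ 1) (hgd : cmDep (cmP 0) g) (M : ℕ) :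
    ∫ x, g x * cmD η M v x ^ 2 ∂PI DI ≤
      (∫ x, g x ∂PI DI) + ∫ x, g x * cmD η 0 v x ^ 2 ∂PI DI := by
  classical
  have hgi : Integrable g (PI DI) := by
    refine (integrable_const (1 : ℝ)).mono hg.aestronglyMeasurable (Eventually.of_forall fun x => ?_)
    rw [Real.norm_eq_abs, Real.norm_eq_abs, abs_one, abs_of_nonneg (hg0 x)]
    exact hg1 x
  have hgI : 0 ≤ ∫ x, g x ∂PI DI := integral_nonneg hg0
  have hbd : ∀ {F : (DI → ℝ) → ℝ}, Integrable F (PI DI) → Measurable F →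
      Integrable (fun x => g x * F x) (PI DI) := by
    intro F hF hFm
    refine hF.mono (hg.mul hFm).aestronglyMeasurable (Eventually.of_forall fun x => ?_)
    rw [Real.norm_eq_abs, Real.norm_eq_abs, abs_mul, abs_of_nonneg (hg0 x)]
    exact mul_le_of_le_one_left (abs_nonneg _) (hg1 x)
  have hD0 : 0 ≤ ∫ x, g x * cmD η 0 v x ^ 2 ∂PI DI :=
    integral_nonneg fun x => mul_nonneg (hg0 x) (sq_nonneg _)
  induction M with
  | zero => linarith
  | succ l ih =>
    set p0 : DI := (v, l + 1, false) with hp0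
    set p1 : DI := (v, l + 1, true) with hp1
    set c : (DI → ℝ) → ℝ := cmC η l v with hc
    have hcm : Measurable c := cmC_meas η l v
    have hcm' : Measurable fun x => 1 - c x := measurable_const.sub hcm
    have hm1 : Measurable fun x : DI → ℝ => (x p1 - 1) ^ 2 := by fun_prop
    have hpt : ∀ x, g x * cmD η (l + 1) v x ^ 2 =
        g x * (c x * (x p1 - 1) ^ 2) + (g x * cmD η l v x ^ 2) * (1 - c x) := by
      intro x
      unfold cmD
      simp only [dyn, hc, hp1, cmC]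
      split_ifs with h
      · ring
      · ring
    have i1 : Integrable (fun x => c x * (x p1 - 1) ^ 2) (PI DI) := by
      refine (cm_memLp p1).integrable_sq.mono (hcm.mul hm1).aestronglyMeasurable
        (Filter.Eventually.of_forall fun x => ?_)
      rw [Real.norm_eq_abs, Real.norm_eq_abs, abs_mul]
      exact mul_le_of_le_one_left (abs_nonneg _) (cmC_le η l v x)
    have i2 : Integrable (fun x => g x * (c x * (x p1 - 1) ^ 2)) (PI DI) := hbd i1 (hcm.mul hm1)
    have i3 : Integrable (fun x => g x * cmD η l v x ^ 2) (PI DI) :=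
      hbd (cmD_memLp η l v).integrable_sq ((cmD_meas η l v).pow_const 2)
    have i4 : Integrable (fun x => (g x * cmD η l v x ^ 2) * (1 - c x)) (PI DI) := by
      refine i3.mono ((hg.mul ((cmD_meas η l v).pow_const 2)).mul hcm').aestronglyMeasurable
        (Filter.Eventually.of_forall fun x => ?_)
      rw [Real.norm_eq_abs, Real.norm_eq_abs, abs_mul]
      exact mul_le_of_le_one_right (abs_nonneg _) (cmC_le' η l v x)
    have hcd : cmDep {p0} c := cmC_dep η l v
    have hcd' : cmDep {p0} fun x => 1 - c x := by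
      intro x y h
      change 1 - c x = 1 - c y
      rw [hcd x y h]
    have e1 : ∫ x, c x * (x p1 - 1) ^ 2 ∂PI DI = 1 - Real.exp (-η) := by
      rw [cm_ind' (S := {p0}) (T := {p1}) ?_ hcm hm1 hcd (fun x y h => by rw [h p1 rfl]), cm_var,
        mul_one]
      · exact cmC_int' hη l v
      · rw [Set.disjoint_singleton]
        simp [hp0, hp1]
    have e3 : ∫ x, g x * (c x * (x p1 - 1) ^ 2) ∂PI DI = (∫ x, g x ∂PI DI) * (1 - Real.exp (-η)) := by
      rw [cm_ind' (S := cmP 0) (T := {p0, p1}) (g := fun x => c x * (x p1 - 1) ^ 2) ?_ hg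
        (hcm.mul hm1) hgd, e1]
      · intro x y h
        change c x * (x p1 - 1) ^ 2 = c y * (y p1 - 1) ^ 2
        rw [hcd x y fun i hi => h i (Or.inl hi), h p1 (Or.inr rfl)]
      · rw [Set.disjoint_left]
        rintro p hp (rfl | rfl)
        · have : l + 1 ≤ 0 := hp
          omega
        · have : l + 1 ≤ 0 := hp
          omega
    have e4 : ∫ x, (g x * cmD η l v x ^ 2) * (1 - c x) ∂PI DI =
        (∫ x, g x * cmD η l v x ^ 2 ∂PI DI) * Real.exp (-η) := by
      rw [cm_ind' (S := cmP l) (T := {p0}) (f := fun x => g x * cmD η l v x ^ 2) ?_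
        (hg.mul ((cmD_meas η l v).pow_const 2)) hcm' ?_ hcd', cmC_int hη l v]
      · rw [Set.disjoint_singleton_right]
        intro h
        have : l + 1 ≤ l := h
        omega
      · intro x y h
        change g x * cmD η l v x ^ 2 = g y * cmD η l v y ^ 2
        rw [hgd x y fun p hp => h p (le_trans hp (Nat.zero_le l)), cmD_dep η l v x y h]
    simp_rw [hpt]
    rw [integral_add i2 i4, e3, e4]
    have hq0 : 0 < Real.exp (-η) := Real.exp_pos _
    have hq1 : Real.exp (-η) ≤ 1 := Real.exp_le_one_iff.2 (by linarith)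
    nlinarith [mul_le_mul_of_nonneg_right ih hq0.le]


/-- the linear statistic -/
private noncomputable def cmR (η : ℝ) (F : Finset (ℤ × ℤ)) (i : ℕ) (x : DI → ℝ) : ℝ :=
  ∑ v ∈ F, cmD η i v x

private theorem cmR_meas (η : ℝ) (F : Finset (ℤ × ℤ)) (i : ℕ) : Measurable (cmR η F i) := by
  unfold cmR
  exact Finset.measurable_fun_sum _ fun v _ => cmD_meas η i v

private theorem cmR_dep (η : ℝ) (F : Finset (ℤ × ℤ)) (i : ℕ) : cmDep (cmP i) (cmR η F i) :=
  fun x y h => Finset.sum_congr rfl fun v _ => cmD_dep η i v x y h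

private theorem cmR_memLp (η : ℝ) (F : Finset (ℤ × ℤ)) (i : ℕ) : MemLp (cmR η F i) 2 (PI DI) :=
  memLp_finsetSum _ fun v _ => cmD_memLp η i v

private theorem cmR_iter {η : ℝ} (hη : 0 ≤ η) {i M : ℕ} (hiM : i ≤ M) (F : Finset (ℤ × ℤ))
    {g : (DI → ℝ) → ℝ} (hg : Measurable g) (hg2 : MemLp g 2 (PI DI)) (hgd : cmDep (cmP i) g) :
    ∫ x, g x * cmR η F M x ∂PI DI =
      Real.exp (-(((M - i : ℕ) : ℝ) * η)) * ∫ x, g x * cmR η F i x ∂PI DI := by
  have h2 : ∀ j, ∫ x, g x * cmR η F j x ∂PI DI = ∑ v ∈ F, ∫ x, g x * cmD η j v x ∂PI DI := by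
    intro j
    rw [← integral_finsetSum _ fun v _ => cm_im hg2 (cmD_memLp η j v)]
    refine integral_congr_ae (Filter.Eventually.of_forall fun x => ?_)
    simp only [cmR, Finset.mul_sum]
  rw [h2, h2, Finset.mul_sum]
  exact Finset.sum_congr rfl fun v _ => cmD_iter hη hiM v hg hg2
    fun x y h => hgd x y fun p hp => h p (Or.inr hp)

/-- the increment of the martingale -/
private noncomputable def cmW (η : ℝ) (F : Finset (ℤ × ℤ)) (i : ℕ) (x : DI → ℝ) : ℝ :=
  Real.exp (i * η) * cmR η F i x - cmR η F 0 x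

private theorem cmW_meas (η : ℝ) (F : Finset (ℤ × ℤ)) (i : ℕ) : Measurable (cmW η F i) :=
  ((cmR_meas η F i).const_mul _).sub (cmR_meas η F 0)

private theorem cmW_dep (η : ℝ) (F : Finset (ℤ × ℤ)) (i : ℕ) : cmDep (cmP i) (cmW η F i) := by
  intro x y h
  unfold cmW
  rw [cmR_dep η F i x y h, cmR_dep η F 0 x y fun p hp => h p (le_trans hp (Nat.zero_le i))]

private theorem cmW_memLp (η : ℝ) (F : Finset (ℤ × ℤ)) (i : ℕ) : MemLp (cmW η F i) 2 (PI DI) :=
  ((cmR_memLp η F i).const_mul _).sub (cmR_memLp η F 0)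

/-- the basic inequality -/
private theorem cm_basic {η : ℝ} (hη : 0 ≤ η) {i M : ℕ} (hiM : i ≤ M)
    (F : Finset (ℤ × ℤ)) {A : Set (DI → ℝ)} (hA : MeasurableSet A) (hAd : DepOn (cmP i) A) :
    ∫ x in A, cmW η F i x ^ 2 ∂PI DI ≤ ∫ x in A, cmW η F M x ^ 2 ∂PI DI := by
  classical
  set g : (DI → ℝ) → ℝ := A.indicator (cmW η F i) with hg
  have hgm : Measurable g := (cmW_meas η F i).indicator hA
  have hg2 : MemLp g 2 (PI DI) := (cmW_memLp η F i).indicator hA
  have hgd : cmDep (cmP i) g := by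
    intro x y h
    simp only [hg, Set.indicator]
    by_cases hx : x ∈ A
    · rw [if_pos hx, if_pos ((hAd x y h).1 hx), cmW_dep η F i x y h]
    · rw [if_neg hx, if_neg fun hy => hx ((hAd x y h).2 hy)]
  have hW : ∀ j, ∫ x, g x * cmW η F j x ∂PI DI =
      Real.exp (j * η) * (∫ x, g x * cmR η F j x ∂PI DI) - ∫ x, g x * cmR η F 0 x ∂PI DI := by
    intro j
    rw [← integral_const_mul, ← integral_sub ((cm_im hg2 (cmR_memLp η F j)).const_mul _)
      (cm_im hg2 (cmR_memLp η F 0))]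
    refine integral_congr_ae (Filter.Eventually.of_forall fun x => ?_)
    simp only [cmW]
    ring
  have h1 : ∫ x, g x * cmW η F M x ∂PI DI = ∫ x, g x * cmW η F i x ∂PI DI := by
    rw [hW, hW, cmR_iter hη hiM F hgm hg2 hgd, ← mul_assoc, ← Real.exp_add]
    congr 3
    rw [Nat.cast_sub hiM]
    ring
  set I1 : ℝ := ∫ x in A, cmW η F i x ^ 2 ∂PI DI with hI1
  set I2 : ℝ := ∫ x in A, cmW η F M x ^ 2 ∂PI DI with hI2
  have h3 : ∫ x, g x * cmW η F i x ∂PI DI = I1 := by
    rw [hI1, ← integral_indicator hA]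
    refine integral_congr_ae (Filter.Eventually.of_forall fun x => ?_)
    simp only [hg, Set.indicator]
    split_ifs <;> ring
  have h4 : ∫ x, g x * cmW η F M x ∂PI DI = ∫ x in A, cmW η F i x * cmW η F M x ∂PI DI := by
    rw [← integral_indicator hA]
    refine integral_congr_ae (Filter.Eventually.of_forall fun x => ?_)
    simp only [hg, Set.indicator]
    split_ifs <;> ring
  have j1 : Integrable (fun x => cmW η F i x ^ 2) ((PI DI).restrict A) :=
    (cmW_memLp η F i).integrable_sq.integrableOn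
  have j2 : Integrable (fun x => cmW η F M x ^ 2) ((PI DI).restrict A) :=
    (cmW_memLp η F M).integrable_sq.integrableOn
  have j3 : Integrable (fun x => cmW η F i x * cmW η F M x) ((PI DI).restrict A) :=
    (cm_im (cmW_memLp η F i) (cmW_memLp η F M)).integrableOn
  have h5 : ∫ x in A, cmW η F i x * cmW η F M x ∂PI DI ≤ 1 / 2 * I1 + 1 / 2 * I2 := by
    rw [hI1, hI2, ← integral_const_mul, ← integral_const_mul,
      ← integral_add (j1.const_mul _) (j2.const_mul _)]
    refine integral_mono j3 ((j1.const_mul _).add (j2.const_mul _)) fun x => ?_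
    change cmW η F i x * cmW η F M x ≤ 1 / 2 * cmW η F i x ^ 2 + 1 / 2 * cmW η F M x ^ 2
    nlinarith [sq_nonneg (cmW η F i x - cmW η F M x)]
  rw [← h4, h1, h3] at h5
  linarith

/-- the second moment of the increment on an event at the time 0 -/
private theorem cm_second {η : ℝ} (hη : 0 ≤ η) {M : ℕ} (hM : M * η ≤ 1)
    (F : Finset (ℤ × ℤ)) {G : Set (DI → ℝ)} (hG : MeasurableSet G) (hGd : DepOn (cmP 0) G)
    (hGs : ∀ x ∈ G, ∑ v ∈ F, cmD η 0 v x ^ 2 ≤ 2 * (F.card : ℝ)) :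
    ∫ x in G, cmW η F M x ^ 2 ∂PI DI ≤ 3 * Real.exp 2 * F.card * (PI DI).real G := by
  classical
  set g : (DI → ℝ) → ℝ := G.indicator (fun _ => (1 : ℝ)) with hg
  have hgm : Measurable g := measurable_const.indicator hG
  have hg0 : ∀ x, 0 ≤ g x := fun x => Set.indicator_nonneg (fun _ _ => zero_le_one) x
  have hg1 : ∀ x, g x ≤ 1 := by
    intro x
    simp only [hg, Set.indicator]
    split_ifs <;> norm_num
  have hgd : cmDep (cmP 0) g := by
    intro x y h
    simp only [hg, Set.indicator]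
    by_cases hx : x ∈ G
    · rw [if_pos hx, if_pos ((hGd x y h).1 hx)]
    · rw [if_neg hx, if_neg fun hy => hx ((hGd x y h).2 hy)]
  have hgI : ∫ x, g x ∂PI DI = (PI DI).real G := by
    rw [hg, integral_indicator_const _ hG, smul_eq_mul, mul_one]
  have hgm2 : ∀ {f : (DI → ℝ) → ℝ}, Measurable f → MemLp f 2 (PI DI) →
      MemLp (fun x => g x * f x) 2 (PI DI) := by
    intro f hfm hf
    refine hf.mono (hgm.mul hfm).aestronglyMeasurable (Eventually.of_forall fun x => ?_)
    rw [Real.norm_eq_abs, Real.norm_eq_abs, abs_mul, abs_of_nonneg (hg0 x)]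
    exact mul_le_of_le_one_left (abs_nonneg _) (hg1 x)
  set b : ℝ := Real.exp (M * η) with hb
  have hbinv : b * Real.exp (-(((M - 0 : ℕ) : ℝ) * η)) = 1 := by
    rw [hb, ← Real.exp_add]
    simp
  have hb2 : b ^ 2 ≤ Real.exp 2 := by
    rw [hb, ← Real.exp_nat_mul]
    refine Real.exp_le_exp.2 ?_
    push_cast
    linarith
  set V : ℤ × ℤ → (DI → ℝ) → ℝ := fun v x => b * cmD η M v x - cmD η 0 v x with hV
  have hVm : ∀ v, Measurable (V v) := fun v =>
    ((cmD_meas η M v).const_mul _).sub (cmD_meas η 0 v)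
  have hV2 : ∀ v, MemLp (V v) 2 (PI DI) := fun v =>
    ((cmD_memLp η M v).const_mul _).sub (cmD_memLp η 0 v)
  have hVd : ∀ v, cmDep {p : DI | p.1 = v} (V v) := by
    intro v x y h
    simp only [hV]
    rw [cmD_dep' η M v x y h, cmD_dep' η 0 v x y h]
  -- the integral against one increment
  have hone : ∀ (v : ℤ × ℤ) (f : (DI → ℝ) → ℝ), Measurable f → MemLp f 2 (PI DI) →
      cmDep (cmQ v 0) f → ∫ x, f x * V v x ∂PI DI = 0 := by
    intro v f hfm hf hfd
    have e1 : ∫ x, f x * V v x ∂PI DI =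
        b * (∫ x, f x * cmD η M v x ∂PI DI) - ∫ x, f x * cmD η 0 v x ∂PI DI := by
      rw [← integral_const_mul, ← integral_sub ((cm_im hf (cmD_memLp η M v)).const_mul _)
        (cm_im hf (cmD_memLp η 0 v))]
      refine integral_congr_ae (Filter.Eventually.of_forall fun x => ?_)
      simp only [hV]
      ring
    rw [e1, cmD_iter hη (Nat.zero_le M) v hfm hf hfd, ← mul_assoc, hbinv]
    ring
  have hcross : ∀ v v', v ≠ v' → ∫ x, (g x * V v x) * V v' x ∂PI DI = 0 := by
    intro v v' hvv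
    refine hone v' _ (hgm.mul (hVm v)) (hgm2 (hVm v) (hV2 v)) ?_
    intro x y h
    have a1 : g x = g y := hgd x y fun p hp => h p (Or.inr hp)
    have a2 : V v x = V v y := hVd v x y fun p hp => h p (Or.inl fun hh => hvv (by rw [← hh]; exact hp.symm))
    simp only [a1, a2]
  have hdiag : ∀ v, ∫ x, (g x * V v x) * V v x ∂PI DI ≤
      Real.exp 2 * ((PI DI).real G + ∫ x, g x * cmD η 0 v x ^ 2 ∂PI DI) := by
    intro v
    have e0 : ∫ x, (g x * cmD η 0 v x) * V v x ∂PI DI = 0 := by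
      refine hone v _ (hgm.mul (cmD_meas η 0 v)) (hgm2 (cmD_meas η 0 v) (cmD_memLp η 0 v)) ?_
      intro x y h
      have a1 : g x = g y := hgd x y fun p hp => h p (Or.inr hp)
      have a2 : cmD η 0 v x = cmD η 0 v y := cmD_dep η 0 v x y fun p hp => h p (Or.inr hp)
      simp only [a1, a2]
    have i1 : Integrable (fun x => g x * cmD η M v x ^ 2) (PI DI) := by
      have := cm_im (hgm2 (cmD_meas η M v) (cmD_memLp η M v)) (cmD_memLp η M v)
      refine this.congr (Eventually.of_forall fun x => ?_)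
      simp only
      ring
    have i2 : Integrable (fun x => g x * cmD η 0 v x ^ 2) (PI DI) := by
      have := cm_im (hgm2 (cmD_meas η 0 v) (cmD_memLp η 0 v)) (cmD_memLp η 0 v)
      refine this.congr (Eventually.of_forall fun x => ?_)
      simp only
      ring
    have i3 : Integrable (fun x => (g x * cmD η 0 v x) * V v x) (PI DI) :=
      cm_im (hgm2 (cmD_meas η 0 v) (cmD_memLp η 0 v)) (hV2 v)
    have hpt : ∀ x, (g x * V v x) * V v x = b ^ 2 * (g x * cmD η M v x ^ 2) -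
        g x * cmD η 0 v x ^ 2 - 2 * ((g x * cmD η 0 v x) * V v x) := by
      intro x
      simp only [hV]
      ring
    have j1 := i1.const_mul (b ^ 2)
    have j2 : Integrable (fun x => b ^ 2 * (g x * cmD η M v x ^ 2) - g x * cmD η 0 v x ^ 2) (PI DI) :=
      j1.sub i2
    simp_rw [hpt]
    rw [integral_sub j2 (i3.const_mul 2), integral_sub j1 i2, integral_const_mul,
      integral_const_mul, e0]
    have hsq := cmD_sq hη v hgm hg0 hg1 hgd M
    rw [hgI] at hsq
    have hn : 0 ≤ ∫ x, g x * cmD η 0 v x ^ 2 ∂PI DI :=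
      integral_nonneg fun x => mul_nonneg (hg0 x) (sq_nonneg _)
    have hn2 : 0 ≤ ∫ x, g x * cmD η M v x ^ 2 ∂PI DI :=
      integral_nonneg fun x => mul_nonneg (hg0 x) (sq_nonneg _)
    have h1 : b ^ 2 * ∫ x, g x * cmD η M v x ^ 2 ∂PI DI ≤
        Real.exp 2 * ((PI DI).real G + ∫ x, g x * cmD η 0 v x ^ 2 ∂PI DI) :=
      mul_le_mul hb2 hsq hn2 (Real.exp_pos _).le
    linarith
  have hWV : ∀ x, cmW η F M x = ∑ v ∈ F, V v x := by
    intro x
    simp only [cmW, cmR, hV, Finset.mul_sum, ← Finset.sum_sub_distrib, hb]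
  have hsum : ∫ x in G, cmW η F M x ^ 2 ∂PI DI =
      ∑ v ∈ F, ∑ v' ∈ F, ∫ x, (g x * V v x) * V v' x ∂PI DI := by
    have hint : ∀ v v', Integrable (fun x => (g x * V v x) * V v' x) (PI DI) := fun v v' =>
      cm_im (hgm2 (hVm v) (hV2 v)) (hV2 v')
    have hint2 : ∀ v, Integrable (fun x => ∑ v' ∈ F, (g x * V v x) * V v' x) (PI DI) := fun v =>
      integrable_finsetSum _ fun v' _ => hint v v'
    have e1 : ∀ v ∈ F, ∑ v' ∈ F, ∫ x, (g x * V v x) * V v' x ∂PI DI =
        ∫ x, ∑ v' ∈ F, (g x * V v x) * V v' x ∂PI DI := fun v _ =>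
      (integral_finsetSum _ fun v' _ => hint v v').symm
    rw [Finset.sum_congr rfl e1, ← integral_finsetSum _ fun v _ => hint2 v,
      ← integral_indicator hG]
    refine integral_congr_ae (Filter.Eventually.of_forall fun x => ?_)
    simp only
    have e2 : ∀ v ∈ F, ∑ v' ∈ F, (g x * V v x) * V v' x = (g x * V v x) * ∑ v' ∈ F, V v' x :=
      fun v _ => (Finset.mul_sum _ _ _).symm
    rw [Finset.sum_congr rfl e2, ← Finset.sum_mul, ← Finset.mul_sum]
    simp only [hg, Set.indicator, hWV]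
    split_ifs <;> ring
  rw [hsum]
  have hrow : ∀ v ∈ F, ∑ v' ∈ F, ∫ x, (g x * V v x) * V v' x ∂PI DI ≤
      Real.exp 2 * ((PI DI).real G + ∫ x, g x * cmD η 0 v x ^ 2 ∂PI DI) := by
    intro v hv
    rw [Finset.sum_eq_single_of_mem v hv fun v' _ hne => hcross v v' hne.symm]
    exact hdiag v
  refine (Finset.sum_le_sum hrow).trans ?_
  rw [← Finset.mul_sum, Finset.sum_add_distrib, Finset.sum_const, nsmul_eq_mul]
  have hs2 : ∑ v ∈ F, ∫ x, g x * cmD η 0 v x ^ 2 ∂PI DI ≤ 2 * F.card * (PI DI).real G := by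
    have i2 : ∀ v, Integrable (fun x => g x * cmD η 0 v x ^ 2) (PI DI) := by
      intro v
      have := cm_im (hgm2 (cmD_meas η 0 v) (cmD_memLp η 0 v)) (cmD_memLp η 0 v)
      refine this.congr (Eventually.of_forall fun x => ?_)
      simp only
      ring
    have hgi : Integrable g (PI DI) := by
      refine (integrable_const (1 : ℝ)).mono hgm.aestronglyMeasurable
        (Eventually.of_forall fun x => ?_)
      rw [Real.norm_eq_abs, Real.norm_eq_abs, abs_one, abs_of_nonneg (hg0 x)]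
      exact hg1 x
    rw [← integral_finsetSum _ fun v _ => i2 v, ← hgI, ← integral_const_mul]
    refine integral_mono (integrable_finsetSum _ fun v _ => i2 v) (hgi.const_mul _) fun x => ?_
    change ∑ v ∈ F, g x * cmD η 0 v x ^ 2 ≤ 2 * F.card * g x
    rw [← Finset.mul_sum]
    by_cases hx : x ∈ G
    · have : g x = 1 := by simp [hg, hx]
      rw [this, one_mul, mul_one]
      exact hGs x hx
    · have : g x = 0 := by simp [hg, hx]
      rw [this]
      simp
  have he := Real.exp_pos 2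
  calc Real.exp 2 * ((F.card : ℝ) * (PI DI).real G + ∑ v ∈ F, ∫ x, g x * cmD η 0 v x ^ 2 ∂PI DI)
      ≤ Real.exp 2 * ((F.card : ℝ) * (PI DI).real G + 2 * F.card * (PI DI).real G) := by
        refine mul_le_mul_of_nonneg_left ?_ he.le
        linarith
    _ = 3 * Real.exp 2 * F.card * (PI DI).real G := by ring

/-- Doob's inequality on an event at the time 0 -/
private theorem cm_doob {η a : ℝ} {M : ℕ} (hη : 0 < η) (hM : M * η ≤ 1) (ha : 0 < a)
    (F : Finset (ℤ × ℤ)) {G : Set (DI → ℝ)} (hG : MeasurableSet G) (hGd : DepOn (cmP 0) G)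
    (hGs : ∀ x ∈ G, ∑ v ∈ F, cmD η 0 v x ^ 2 ≤ 2 * (F.card : ℝ)) :
    a ^ 2 * (PI DI).real {x | x ∈ G ∧ ∃ i ≤ M, a ≤ |cmW η F i x|} ≤
      3 * Real.exp 2 * F.card * (PI DI).real G := by
  classical
  set E : ℕ → Set (DI → ℝ) := fun t => {x | a ≤ |cmW η F t x|} with hE
  set B : ℕ → Set (DI → ℝ) := fun n => {x | x ∈ G ∧ ∃ t < n, x ∈ E t} with hB
  have hEm : ∀ t, MeasurableSet (E t) := fun t =>
    measurableSet_le measurable_const (cmW_meas _ _ _).abs
  have hEd : ∀ t, DepOn (cmP t) (E t) := by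
    intro t x y h
    change a ≤ |cmW η F t x| ↔ a ≤ |cmW η F t y|
    rw [cmW_dep η _ _ x y h]
  have hBs : ∀ n, B (n + 1) = B n ∪ ((G ∩ E n) \ B n) := by
    intro n
    ext x
    constructor
    · rintro ⟨hxG, t, ht, hx⟩
      by_cases hb : x ∈ B n
      · exact Or.inl hb
      · refine Or.inr ⟨⟨hxG, ?_⟩, hb⟩
        rcases Nat.lt_or_ge t n with h | h
        · exact absurd ⟨hxG, t, h, hx⟩ hb
        · obtain rfl : t = n := by omega
          exact hx
    · rintro (⟨hxG, t, ht, hx⟩ | ⟨hx, -⟩)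
      · exact ⟨hxG, t, by omega, hx⟩
      · exact ⟨hx.1, n, by omega, hx.2⟩
  have hBm : ∀ n, MeasurableSet (B n) := by
    intro n
    induction n with
    | zero =>
      have : B 0 = ∅ := by
        ext x
        simp [hB]
      rw [this]
      exact MeasurableSet.empty
    | succ n ih =>
      rw [hBs]
      exact ih.union ((hG.inter (hEm n)).diff ih)
  have hGd' : ∀ n, DepOn (cmP n) G := fun n x y h => hGd x y fun p hp =>
    h p (le_trans hp (Nat.zero_le n))
  have hBd : ∀ n, DepOn (cmP n) (B n) := by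
    intro n x y h
    have hh : ∀ t < n, (x ∈ E t ↔ y ∈ E t) := fun t ht => hEd t x y fun p hp =>
      h p (le_trans hp ht.le)
    have hg := hGd' n x y h
    constructor
    · rintro ⟨hxG, t, ht, hx⟩
      exact ⟨hg.1 hxG, t, ht, (hh t ht).1 hx⟩
    · rintro ⟨hxG, t, ht, hx⟩
      exact ⟨hg.2 hxG, t, ht, (hh t ht).2 hx⟩
  have hYi : Integrable (fun x => cmW η F M x ^ 2) (PI DI) := (cmW_memLp η F M).integrable_sq
  have hmain : ∀ n ≤ M + 1, a ^ 2 * (PI DI).real (B n) ≤
      ∫ x in B n, cmW η F M x ^ 2 ∂PI DI := by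
    intro n
    induction n with
    | zero =>
      intro _
      have : B 0 = ∅ := by
        ext x
        simp [hB]
      rw [this]
      simp
    | succ n ih =>
      intro hn
      have hiM : n ≤ M := by omega
      set A : Set (DI → ℝ) := (G ∩ E n) \ B n with hA
      have hAm : MeasurableSet A := (hG.inter (hEm n)).diff (hBm n)
      have hAd : DepOn (cmP n) A := fun x y h =>
        and_congr (and_congr (hGd' n x y h) (hEd n x y h)) (not_congr (hBd n x y h))
      have hdis : Disjoint (B n) A := Set.disjoint_sdiff_right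
      have h1 := cm_basic hη.le hiM F hAm hAd
      have h2 : a ^ 2 * (PI DI).real A ≤ ∫ x in A, cmW η F n x ^ 2 ∂PI DI := by
        have h3 : ∫ _x in A, a ^ 2 ∂PI DI = a ^ 2 * (PI DI).real A := by
          rw [setIntegral_const, smul_eq_mul, mul_comm]
        rw [← h3]
        refine setIntegral_mono_on (integrable_const _).integrableOn
          (cmW_memLp η _ _).integrable_sq.integrableOn hAm fun x hx => ?_
        have h4 : a ≤ |cmW η F n x| := hx.1.2
        rw [← sq_abs (cmW η F n x)]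
        exact pow_le_pow_left₀ ha.le h4 2
      rw [hBs, measureReal_union hdis hAm, setIntegral_union hdis hAm hYi.integrableOn
        hYi.integrableOn, mul_add]
      exact add_le_add (ih (by omega)) (h2.trans h1)
  have hfin := hmain _ le_rfl
  have hset : {x : DI → ℝ | x ∈ G ∧ ∃ i ≤ M, a ≤ |cmW η F i x|} = B (M + 1) := by
    ext x
    constructor
    · rintro ⟨hxG, i, hi, hx⟩
      exact ⟨hxG, i, by omega, hx⟩
    · rintro ⟨hxG, i, hi, hx⟩
      exact ⟨hxG, i, by omega, hx⟩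
  rw [hset]
  refine hfin.trans (le_trans ?_ (cm_second hη.le hM F hG hGd hGs))
  refine setIntegral_mono_set hYi.integrableOn (Eventually.of_forall fun x => sq_nonneg _) ?_
  exact (show B (M + 1) ⊆ G from fun x hx => hx.1).eventuallyLE

/-! ### the central limit theorem at the time 0 -/

private theorem cm_gauss (m : ℕ) :
    ENNReal.ofReal (Real.exp (-(m + 1)) / 3) ≤ gaussianReal 0 1 (Set.Ioi √(m : ℝ)) := by
  have h1 : ∀ x ∈ Set.Ioo √(m : ℝ) (√(m : ℝ) + 1),
      ENNReal.ofReal (Real.exp (-(m + 1)) / 3) ≤ gaussianPDF 0 1 x := by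
    intro x hx
    rw [gaussianPDF]
    refine ENNReal.ofReal_le_ofReal ?_
    rw [gaussianPDFReal]
    have hm : √(m : ℝ) ^ 2 = m := Real.sq_sqrt (Nat.cast_nonneg m)
    have h0 : 0 ≤ √(m : ℝ) := Real.sqrt_nonneg _
    have h2 : √(2 * Real.pi * (1 : NNReal)) ≤ 3 := by
      rw [Real.sqrt_le_left (by norm_num)]
      have := Real.pi_lt_d2
      push_cast
      linarith
    have h3 : 0 < √(2 * Real.pi * (1 : NNReal)) := by
      refine Real.sqrt_pos.2 ?_
      have := Real.pi_pos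
      push_cast
      linarith
    have h4 : Real.exp (-(m + 1)) ≤ Real.exp (-(x - 0) ^ 2 / (2 * (1 : NNReal))) := by
      refine Real.exp_le_exp.2 ?_
      have h5 : x ^ 2 ≤ (√(m : ℝ) + 1) ^ 2 :=
        pow_le_pow_left₀ (h0.trans hx.1.le) hx.2.le 2
      push_cast
      nlinarith [sq_nonneg (√(m : ℝ) - 1)]
    have h5 : (3 : ℝ)⁻¹ ≤ (√(2 * Real.pi * (1 : NNReal)))⁻¹ := inv_anti₀ h3 h2
    calc Real.exp (-(m + 1)) / 3 = (3 : ℝ)⁻¹ * Real.exp (-(m + 1)) := by ring
      _ ≤ (√(2 * Real.pi * (1 : NNReal)))⁻¹ * Real.exp (-(x - 0) ^ 2 / (2 * (1 : NNReal))) :=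
        mul_le_mul h5 h4 (Real.exp_pos _).le (by positivity)
  calc ENNReal.ofReal (Real.exp (-(m + 1)) / 3)
      = ∫⁻ _x in Set.Ioo √(m : ℝ) (√(m : ℝ) + 1), ENNReal.ofReal (Real.exp (-(m + 1)) / 3) := by
        rw [setLIntegral_const, Real.volume_Ioo]
        simp
    _ ≤ ∫⁻ x in Set.Ioo √(m : ℝ) (√(m : ℝ) + 1), gaussianPDF 0 1 x :=
        setLIntegral_mono' measurableSet_Ioo h1
    _ = gaussianReal 0 1 (Set.Ioo √(m : ℝ) (√(m : ℝ) + 1)) :=
        (gaussianReal_apply 0 one_ne_zero _).symm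
    _ ≤ gaussianReal 0 1 (Set.Ioi √(m : ℝ)) := measure_mono Set.Ioo_subset_Ioi_self

private theorem cm_clt (m : ℕ) : ∃ k1 : ℕ, ∀ k ≥ k1, Real.exp (-(m + 1)) / 6 ≤
    (PI ℕ).real {y | √(m : ℝ) < (√(k : ℝ))⁻¹ * ∑ u ∈ Finset.range k, (y u - 1)} := by
  set X : ℕ → (ℕ → ℝ) → ℝ := fun u y => y u - 1 with hX
  have hid : HasLaw (id : ℝ → ℝ) (gaussianReal 0 1) (gaussianReal 0 1) := HasLaw.id
  have hev : ∀ u : ℕ, MeasurePreserving (fun y : ℕ → ℝ => y u) (PI ℕ) E1 := fun u =>
    measurePreserving_eval_infinitePi (fun _ : ℕ => E1) u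
  have hint : ∀ (u : ℕ) (F : ℝ → ℝ), Measurable F → ∫ y, F (y u) ∂PI ℕ = ∫ t, F t ∂E1 := by
    intro u F hF
    have h2 := integral_map (μ := PI ℕ) (f := F) (hev u).measurable.aemeasurable
      hF.aestronglyMeasurable
    rw [(hev u).map_eq] at h2
    exact h2.symm
  have h0 : (PI ℕ)[X 0] = 0 := (hint 0 (fun t => t - 1) (by fun_prop)).trans wk_u1
  have h1 : (PI ℕ)[X 0 ^ 2] = 1 := (hint 0 (fun t => (t - 1) ^ 2) (by fun_prop)).trans wk_u2
  have hind0 : iIndepFun (fun (p : ℕ) (y : ℕ → ℝ) => y p) (PI ℕ) :=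
    iIndepFun_infinitePi (P := fun _ : ℕ => E1) (X := fun _ x => x) (fun _ => measurable_id)
  have hind : iIndepFun X (PI ℕ) := hind0.comp (fun _ t => t - 1) (fun _ => by fun_prop)
  have hident : ∀ i, IdentDistrib (X i) (X 0) (PI ℕ) (PI ℕ) := by
    intro i
    have h : IdentDistrib (fun y : ℕ → ℝ => y i) (fun y : ℕ → ℝ => y 0) (PI ℕ) (PI ℕ) :=
      ⟨(hev i).measurable.aemeasurable, (hev 0).measurable.aemeasurable,
        (hev i).map_eq.trans (hev 0).map_eq.symm⟩
    exact h.comp (u := fun t : ℝ => t - 1) (by fun_prop)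
  have hclt := (tendstoInDistribution_inv_sqrt_mul_sum hid h0 h1 hind hident)
  have hlim := ProbabilityMeasure.le_liminf_measure_open_of_tendsto hclt.tendsto
    (isOpen_Ioi (a := √(m : ℝ)))
  have hG := cm_gauss m
  have hlt : ENNReal.ofReal (Real.exp (-(m + 1)) / 6) < gaussianReal 0 1 (Set.Ioi √(m : ℝ)) := by
    refine lt_of_lt_of_le ?_ hG
    have := Real.exp_pos (-((m : ℝ) + 1))
    exact (ENNReal.ofReal_lt_ofReal_iff (by positivity)).2 (by linarith)
  have hlim2 : ENNReal.ofReal (Real.exp (-(m + 1)) / 6) < liminf (fun n : ℕ =>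
      (PI ℕ) {y | √(m : ℝ) < (√(n : ℝ))⁻¹ * ∑ u ∈ Finset.range n, (y u - 1)}) atTop := by
    refine lt_of_lt_of_le hlt ?_
    have e1 : gaussianReal 0 1 (Set.Ioi √(m : ℝ)) =
        (Measure.map id (gaussianReal 0 1)) (Set.Ioi √(m : ℝ)) := by rw [Measure.map_id]
    have e2 : (fun n : ℕ =>
        (PI ℕ) {y | √(m : ℝ) < (√(n : ℝ))⁻¹ * ∑ u ∈ Finset.range n, (y u - 1)}) =
        fun n : ℕ => (Measure.map (fun ω => (√(n : ℝ))⁻¹ * ∑ k ∈ Finset.range n, X k ω) (PI ℕ))
          (Set.Ioi √(m : ℝ)) := by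
      funext n
      rw [Measure.map_apply (by fun_prop) measurableSet_Ioi]
      rfl
    rw [e1, e2]
    exact hlim
  have hev2 := eventually_lt_of_lt_liminf hlim2
  obtain ⟨k1, hk1⟩ := eventually_atTop.1 hev2
  refine ⟨k1, fun k hk => ?_⟩
  have h := (hk1 k hk).le
  rw [Measure.real]
  exact (ENNReal.ofReal_le_iff_le_toReal (measure_ne_top _ _)).1 h

/-- reindexing an i.i.d. family along an injection -/
private theorem cm_inj {ι κ : Type*} (f : κ → ι) (hf : Function.Injective f) :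
    MeasurePreserving (fun (x : ι → ℝ) (k : κ) => x (f k)) (PI ι) (PI κ) := by
  refine ⟨by fun_prop, ?_⟩
  unfold PI
  exact Measure.map_infinitePi_infinitePi_of_inj (P := fun _ : ι => E1) hf

/-- the event at the time 0, for a sequence -/
private def cmA (m k : ℕ) : Set (ℕ → ℝ) := {y | √(m : ℝ) * √(k : ℝ) ≤ ∑ u ∈ Finset.range k, (y u - 1) ∧
  ∑ u ∈ Finset.range k, (y u - 1) ^ 2 ≤ 2 * (k : ℝ)}

private theorem cmA_prob (m : ℕ) : ∃ k1 : ℕ, 0 < k1 ∧ ∀ k ≥ k1, Real.exp (-(m + 1)) / 12 ≤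
    (PI ℕ).real (cmA m k) := by
  obtain ⟨k1, hk1⟩ := cm_clt m
  set γ : ℝ := Real.exp (-((m : ℝ) + 1)) with hγ
  have hγ0 : 0 < γ := Real.exp_pos _
  obtain ⟨k2, hk2⟩ := exists_nat_ge (96 / γ)
  refine ⟨max k1 k2 + 1, by omega, fun k hk => ?_⟩
  have hk0 : 0 < k := by omega
  have hk' : (0 : ℝ) < k := by exact_mod_cast hk0
  have h1 := hk1 k (by omega)
  have h2 := cm_sq k hk0
  have h3 : 8 / (k : ℝ) ≤ γ / 12 := by
    have h4 : (k2 : ℝ) ≤ k := by exact_mod_cast (by omega : k2 ≤ k)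
    have h5 : 96 / γ ≤ k := hk2.trans h4
    rw [div_le_iff₀ hγ0] at h5
    rw [div_le_div_iff₀ hk' (by norm_num)]
    linarith
  have hsub : {y : ℕ → ℝ | √(m : ℝ) < (√(k : ℝ))⁻¹ * ∑ u ∈ Finset.range k, (y u - 1)} ⊆
      cmA m k ∪ {y : ℕ → ℝ | ¬ ∑ u ∈ Finset.range k, (y u - 1) ^ 2 ≤ 2 * (k : ℝ)} := by
    intro y hy
    by_cases hc : ∑ u ∈ Finset.range k, (y u - 1) ^ 2 ≤ 2 * (k : ℝ)
    · refine Or.inl ⟨?_, hc⟩
      have hy' : √(m : ℝ) < (√(k : ℝ))⁻¹ * ∑ u ∈ Finset.range k, (y u - 1) := hy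
      have hs : 0 < √(k : ℝ) := Real.sqrt_pos.2 hk'
      have h4 : √(m : ℝ) * √(k : ℝ) < (√(k : ℝ))⁻¹ * (∑ u ∈ Finset.range k, (y u - 1)) * √(k : ℝ) :=
        mul_lt_mul_of_pos_right hy' hs
      have h5 : (√(k : ℝ))⁻¹ * (∑ u ∈ Finset.range k, (y u - 1)) * √(k : ℝ) =
          ∑ u ∈ Finset.range k, (y u - 1) := by
        field_simp
      rw [h5] at h4
      exact h4.le
    · exact Or.inr hc
  have h6 := (measureReal_mono (μ := PI ℕ) hsub).trans (measureReal_union_le _ _)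
  linarith

theorem cond_max : ∃ p1 c1 C1 : ℝ, 0 < p1 ∧ 0 < c1 ∧ 0 < C1 ∧ ∀ m : ℕ, 1 ≤ m → ∃ k0 : ℕ,
    ∀ (F : Finset (ℤ × ℤ)), k0 ≤ F.card → ∀ (η : ℝ) (M : ℕ), 0 < η → M * η ≤ 1 →
    p1 ^ m / 2 ≤ (PI DI).real {x | ∀ i ≤ M,
      (c1 * √m - C1) * √(F.card) ≤ ∑ v ∈ F, (dyn η x i v - 1)} := by
  classical
  refine ⟨Real.exp (-2) / 12, Real.exp (-1), √(6 * Real.exp 2), by positivity, by positivity,
    by positivity, fun m hm => ?_⟩
  obtain ⟨k1, hk1pos, hk1⟩ := cmA_prob m
  refine ⟨k1, fun F hF η M hη hM => ?_⟩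
  set k : ℕ := F.card with hk
  have hk0 : 0 < k := by omega
  have hk' : (0 : ℝ) < k := by exact_mod_cast hk0
  -- an enumeration
  obtain ⟨e, he⟩ : ∃ e : ℕ → ℤ × ℤ, Set.InjOn e (Set.Iio k) ∧
      (Finset.range k).image e = F := by
    have e0 := F.equivFin
    refine ⟨fun u => if h : u < k then (e0.symm ⟨u, h⟩ : ℤ × ℤ) else 0, ?_, ?_⟩
    · intro a ha b hb hab
      have ha' : a < k := ha
      have hb' : b < k := hb
      simp only [dif_pos ha', dif_pos hb'] at hab
      have h1 := e0.symm.injective (Subtype.ext hab)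
      exact congrArg Fin.val h1
    · ext v
      simp only [Finset.mem_image, Finset.mem_range]
      constructor
      · rintro ⟨u, hu, rfl⟩
        rw [dif_pos hu]
        exact (e0.symm ⟨u, hu⟩).2
      · intro hv
        refine ⟨(e0 ⟨v, hv⟩ : ℕ), (e0 ⟨v, hv⟩).2, ?_⟩
        rw [dif_pos (e0 ⟨v, hv⟩).2]
        simp
  set f : ℕ → DI := fun u => if u < k then (e u, 0, true) else ((0, 0), u + 1, true) with hf
  have hfi : Function.Injective f := by
    intro a b hab
    simp only [hf] at hab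
    split_ifs at hab with h1 h2 h2
    · exact he.1 h1 h2 (Prod.mk.inj hab).1
    · exact absurd (Prod.mk.inj (Prod.mk.inj hab).2).1 (by omega)
    · exact absurd (Prod.mk.inj (Prod.mk.inj hab).2).1 (by omega)
    · have := (Prod.mk.inj (Prod.mk.inj hab).2).1
      omega
  have hmp := cm_inj f hfi
  have hsumF : ∀ h : ℤ × ℤ → ℝ, ∑ v ∈ F, h v = ∑ u ∈ Finset.range k, h (e u) := by
    intro h
    rw [← he.2, Finset.sum_image]
    intro a ha b hb hab
    exact he.1 (by simpa using ha) (by simpa using hb) hab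
  set G : Set (DI → ℝ) := {x | √(m : ℝ) * √(k : ℝ) ≤ cmR η F 0 x ∧
    ∑ v ∈ F, cmD η 0 v x ^ 2 ≤ 2 * (k : ℝ)} with hG
  have hGm : MeasurableSet G :=
    (measurableSet_le measurable_const (cmR_meas η F 0)).inter
      (measurableSet_le (Finset.measurable_fun_sum _ fun v _ => (cmD_meas η 0 v).pow_const 2)
        measurable_const)
  have hAm : MeasurableSet (cmA m k) := by
    have h1 : Measurable fun y : ℕ → ℝ => ∑ u ∈ Finset.range k, (y u - 1) := by fun_prop
    have h2 : Measurable fun y : ℕ → ℝ => ∑ u ∈ Finset.range k, (y u - 1) ^ 2 := by fun_prop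
    have h3 : MeasurableSet {y : ℕ → ℝ | √(m : ℝ) * √(k : ℝ) ≤ ∑ u ∈ Finset.range k, (y u - 1)} :=
      measurableSet_le measurable_const h1
    have h4 : MeasurableSet {y : ℕ → ℝ | ∑ u ∈ Finset.range k, (y u - 1) ^ 2 ≤ 2 * (k : ℝ)} :=
      measurableSet_le h2 measurable_const
    exact h3.inter h4
  have hGpre : (fun (x : DI → ℝ) (u : ℕ) => x (f u)) ⁻¹' (cmA m k) = G := by
    ext x
    have a1 : ∑ u ∈ Finset.range k, (x (f u) - 1) = cmR η F 0 x := by
      rw [cmR, hsumF]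
      refine Finset.sum_congr rfl fun u hu => ?_
      simp only [hf, if_pos (Finset.mem_range.1 hu)]
      rfl
    have a2 : ∑ u ∈ Finset.range k, (x (f u) - 1) ^ 2 = ∑ v ∈ F, cmD η 0 v x ^ 2 := by
      rw [hsumF]
      refine Finset.sum_congr rfl fun u hu => ?_
      simp only [hf, if_pos (Finset.mem_range.1 hu)]
      rfl
    change (√(m : ℝ) * √(k : ℝ) ≤ ∑ u ∈ Finset.range k, (x (f u) - 1) ∧
      ∑ u ∈ Finset.range k, (x (f u) - 1) ^ 2 ≤ 2 * (k : ℝ)) ↔ _
    rw [a1, a2]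
    rfl
  have hPG : Real.exp (-(m + 1)) / 12 ≤ (PI DI).real G := by
    have h1 : (PI DI).real G = (PI ℕ).real (cmA m k) := by
      rw [← hGpre, Measure.real, Measure.real, hmp.measure_preimage hAm.nullMeasurableSet]
    rw [h1]
    exact hk1 k hF
  have hGd : DepOn (cmP 0) G := by
    intro x y h
    have a1 : cmR η F 0 x = cmR η F 0 y := cmR_dep η F 0 x y h
    have a2 : ∀ v, cmD η 0 v x = cmD η 0 v y := fun v => cmD_dep η 0 v x y h
    change (_ ∧ _) ↔ (_ ∧ _)
    simp only [a1, a2]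
  set a : ℝ := √(6 * Real.exp 2) * √(k : ℝ) with ha
  have ha0 : 0 < a := by positivity
  have ha2 : a ^ 2 = 6 * Real.exp 2 * k := by
    rw [ha, mul_pow, Real.sq_sqrt (by positivity), Real.sq_sqrt hk'.le]
  have hD := cm_doob hη hM ha0 F hGm hGd (fun x hx => hx.2)
  rw [ha2] at hD
  set Bd : Set (DI → ℝ) := {x | x ∈ G ∧ ∃ i ≤ M, a ≤ |cmW η F i x|} with hBd
  have hBd2 : (PI DI).real Bd ≤ (PI DI).real G / 2 := by
    have h1 : 0 < 3 * Real.exp 2 * (k : ℝ) := by positivity
    have h2 : 3 * Real.exp 2 * (k : ℝ) * (2 * (PI DI).real Bd) ≤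
        3 * Real.exp 2 * k * (PI DI).real G := by
      calc 3 * Real.exp 2 * (k : ℝ) * (2 * (PI DI).real Bd)
          = 6 * Real.exp 2 * k * (PI DI).real Bd := by ring
        _ ≤ _ := hD
    have h3 := le_of_mul_le_mul_left h2 h1
    linarith
  have hfinal : G ⊆ {x | ∀ i ≤ M, (Real.exp (-1) * √(m : ℝ) - √(6 * Real.exp 2)) * √(k : ℝ) ≤
      ∑ v ∈ F, (dyn η x i v - 1)} ∪ Bd := by
    intro x hx
    by_cases hb : x ∈ Bd
    · exact Or.inr hb
    · refine Or.inl fun i hi => ?_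
      have h1 : |cmW η F i x| < a := by
        by_contra hc
        exact hb ⟨hx, i, hi, not_lt.1 hc⟩
      have h2 : -a < cmW η F i x := (abs_lt.1 h1).1
      have h3 : √(m : ℝ) * √(k : ℝ) ≤ cmR η F 0 x := hx.1
      have h4 : √(m : ℝ) * √(k : ℝ) - a ≤ Real.exp (i * η) * cmR η F i x := by
        unfold cmW at h2
        linarith
      have h5 : Real.exp (-(i * η)) * (√(m : ℝ) * √(k : ℝ) - a) ≤ cmR η F i x := by
        have h6 := mul_le_mul_of_nonneg_left h4 (Real.exp_pos (-(i * η))).le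
        rw [← mul_assoc, ← Real.exp_add, neg_add_cancel, Real.exp_zero, one_mul] at h6
        exact h6
      have hiη : (i : ℝ) * η ≤ 1 := by
        refine le_trans (mul_le_mul_of_nonneg_right ?_ hη.le) hM
        exact_mod_cast hi
      have hiη0 : 0 ≤ (i : ℝ) * η := by positivity
      have h7 : Real.exp (-1) ≤ Real.exp (-(i * η)) := Real.exp_le_exp.2 (by linarith)
      have h8 : Real.exp (-(i * η)) ≤ 1 := Real.exp_le_one_iff.2 (by linarith)
      have h9 : 0 ≤ √(m : ℝ) * √(k : ℝ) := by positivity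
      change _ ≤ cmR η F i x
      refine le_trans ?_ h5
      have h10 := mul_le_mul_of_nonneg_right h7 h9
      have h11 := mul_le_mul_of_nonneg_right h8 ha0.le
      have h12 : (Real.exp (-1) * √(m : ℝ) - √(6 * Real.exp 2)) * √(k : ℝ) =
          Real.exp (-1) * (√(m : ℝ) * √(k : ℝ)) - a := by
        rw [ha]
        ring
      rw [h12]
      linarith
  have h1 := (measureReal_mono (μ := PI DI) hfinal).trans (measureReal_union_le _ _)
  have h2 : (Real.exp (-2) / 12) ^ m ≤ Real.exp (-((m : ℝ) + 1)) / 12 := by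
    rw [div_pow, ← Real.exp_nat_mul]
    have h3 : Real.exp ((m : ℝ) * -2) ≤ Real.exp (-((m : ℝ) + 1)) := by
      refine Real.exp_le_exp.2 ?_
      have : (1 : ℝ) ≤ m := by exact_mod_cast hm
      linarith
    have h4 : (12 : ℝ) ≤ 12 ^ m := le_self_pow₀ (by norm_num) (by omega)
    exact div_le_div₀ (Real.exp_pos _).le h3 (by norm_num) h4
  linarith

end BGE
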