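import Pool.Agent.BGE.TSMoves

/-!
BGE / B6b. The two-slope coupling: the law of a row.

`ts_law`: fix `n` (the row) and `i0` (a column). There is a measure-preserving map `Ψ = (A, B, K)`
from `TSx` to `(ℕ → ℝ) × (ℕ → ℝ) × ℝ` (i.i.d. exponentials of rate one) such that, when all
coordinates of `x` are nonnegative, with `s = (y1n, y2n, κn) = tsRow α β x n` the state of the row
`n`, `D = rowD y1n y2n κn`, `K_i = rowK y1n y2n κn i`:
 (1) `y1n i = A i/α` and `y2n i = B i/β` for `i > i0`;  (2) `D i = B i/β` for `1 ≤ i ≤ i0`;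
 (3) `K_{i0} = K/(α-β)`;
 (4) for `1 ≤ i ≤ i0`: `y1n i = min (B i/β) (K_i)`, `K_{i-1} = A i/α + (K_i - B i/β)^+`.
Proof. For every row, `rowStep` preserves the product law of (`y1` with rate `α`, `y2` with rate
`β`, `κ` with rate `α-β`) given independent `z` (rate `1-α`), `j2` (rate `1-β`) and weights of the
row (rate `1`): it is a composition of local moves `(z, κ, j2)`, then `(y1 i, J1, ω i)` with rates
`α, 1-α, 1` for `i = 1, 2, ...`, then `(y2 i, J', wc i)` with rates `β, 1-β, 1` (`local_burke`,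
`burke_move`). So the state of the row `n` has the product law with rates `α, β, α-β`, by
induction on `n` (the inputs of the row `n + 1` are independent of the state of the row `n`).
Finally apply the local moves `(y2 i, K_{i-1}, y1 i)` (rates `β, α-β, α`) for `i = 1, ..., i0`: the
results are `(D i, K_i, C_i)` with `C_i = min (y2 i) (K_{i-1})`, again independent. Put
`B i = β D i`, `A i = α C_i` for `1 ≤ i ≤ i0`, `K = (α-β) K_{i0}`, and `A i = α y1n i`,
`B i = β y2n i` for `i > i0` and for `i = 0`. `burkeMap` is an involution: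
`(y2 i, K_{i-1}, y1 i) = burkeMap (D i, K_i, C_i)`, which gives (4).
(Infinite sequences: it suffices to treat finitely many coordinates; a probability measure on a
product is determined by its finite-dimensional marginals, `Measure.eq_infinitePi`.)
-/

namespace BGE

open MeasureTheory ProbabilityTheory

theorem rowK_congr {y1 y2 y1' y2' : ℕ → ℝ} {κ : ℝ} {N : ℕ}
    (h1 : ∀ i, 1 ≤ i → i ≤ N → y1 i = y1' i) (h2 : ∀ i, 1 ≤ i → i ≤ N → y2 i = y2' i) :
    ∀ i, i ≤ N → rowK y1 y2 κ i = rowK y1' y2' κ i := by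
  intro i
  induction i with
  | zero => intro _; rfl
  | succ n ih =>
    intro hn
    rw [rowK, rowK, ih (by omega), h1 (n + 1) (by omega) hn, h2 (n + 1) (by omega) hn]

theorem qJ_eq (w y : ℕ → ℝ) (J : ℝ) (i : ℕ) : qJ w y J i = rowK w y J i := by
  induction i with
  | zero => rfl
  | succ n ih => rw [qJ, rowK, ih]

theorem qI_eq (w y : ℕ → ℝ) (J : ℝ) {i : ℕ} (hi : i ≠ 0) : qI w y J i = rowD w y J i := by
  unfold qI rowD
  rw [if_neg hi, qJ_eq]

theorem rowD_congr {y1 y2 y1' y2' : ℕ → ℝ} {κ : ℝ} {N : ℕ}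
    (h1 : ∀ i, 1 ≤ i → i ≤ N → y1 i = y1' i) (h2 : ∀ i, i ≤ N → y2 i = y2' i) :
    ∀ i, i ≤ N → rowD y1 y2 κ i = rowD y1' y2' κ i := by
  intro i hi
  unfold rowD
  by_cases h : i = 0
  · rw [if_pos h, if_pos h, h2 0 (by omega)]
  · rw [if_neg h, if_neg h, h1 i (by omega) hi, h2 i hi,
      rowK_congr h1 (fun i _ hi => h2 i hi) (i - 1) (by omega)]

/-- the services of the row `m` -/
abbrev iR (m i : ℕ) : TI := iW ((i : ℤ), (m : ℤ))

/-- the moves of the rows `1, ..., m`, in the columns `1, ..., N` -/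
noncomputable def rMoves (α β : ℝ) (N : ℕ) : ℕ → (TI → ℝ) → TI → ℝ
  | 0 => id
  | m + 1 => qMoves β (1 - β) iB (iR (m + 1)) (iJ (m + 1)) N ∘
      (qMoves α (1 - α) iA (iR (m + 1)) (iZ (m + 1)) N ∘
        (moveN (1 - α) (α - β) (iZ (m + 1)) iK (iJ (m + 1)) ∘ rMoves α β N m))

theorem rMoves_mp {α β : ℝ} (h0 : 0 < β) (h1 : β < α) (h2 : α < 1) (N m : ℕ) :
    MeasurePreserving (rMoves α β N m) (PI TI) (PI TI) := by
  have ha : 0 < 1 - α := by linarith
  have hb : 0 < α - β := by linarith
  have hc : 0 < 1 - β := by linarith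
  have hα : 0 < α := by linarith
  induction m with
  | zero => exact MeasurePreserving.id _
  | succ n ih =>
    exact (qMoves_mp h0 hc (by simp) (by simp) (by simp) N).comp
      ((qMoves_mp hα ha (by simp) (by simp) (by simp) N).comp
        ((moveN_PI ha hb (by simp) (by simp) (by simp)).comp ih))

theorem rMoves_spec {α β : ℝ} (h0 : 0 < β) (h1 : β < α) (h2 : α < 1) (N m : ℕ) (x : TSx) :
    (∀ i, i ≤ N → rMoves α β N m (ofTS x) (iA i) = α * (tsRow α β x m).1 i) ∧
    (∀ i, i ≤ N → rMoves α β N m (ofTS x) (iB i) = β * (tsRow α β x m).2.1 i) ∧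
    rMoves α β N m (ofTS x) iK = (α - β) * (tsRow α β x m).2.2 ∧
    (∀ v : ℤ × ℤ, (m : ℤ) < v.2 → rMoves α β N m (ofTS x) (iW v) = x.1 v) ∧
    (∀ j : ℕ, m < j → rMoves α β N m (ofTS x) (iZ j) = x.2.2.2.1 j) ∧
    (∀ j : ℕ, m < j → rMoves α β N m (ofTS x) (iJ j) = x.2.2.2.2.1 j) := by
  have ha : 0 < 1 - α := by linarith
  have hb : 0 < α - β := by linarith
  have hc : 0 < 1 - β := by linarith
  have hα : 0 < α := by linarith
  induction m with
  | zero =>
    refine ⟨?_, ?_, ?_, ?_, ?_, ?_⟩
    · intro i _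
      change x.2.1 i = α * (x.2.1 i / α)
      field_simp
    · intro i _
      change x.2.2.1 i = β * (x.2.2.1 i / β)
      field_simp
    · change x.2.2.2.2.2 = (α - β) * (x.2.2.2.2.2 / (α - β))
      field_simp
    · intro v _; rfl
    · intro v _; rfl
    · intro v _; rfl
  | succ m ih =>
    obtain ⟨i1, i2, i3, i4, i5, i6⟩ := ih
    set R := tsRow α β x m with hR
    set g0 := rMoves α β N m (ofTS x) with hg0
    set g1 := moveN (1 - α) (α - β) (iZ (m + 1)) iK (iJ (m + 1)) g0 with hg1
    set g2 := qMoves α (1 - α) iA (iR (m + 1)) (iZ (m + 1)) N g1 with hg2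
    set g3 := qMoves β (1 - β) iB (iR (m + 1)) (iJ (m + 1)) N g2 with hg3
    have hgoal : rMoves α β N (m + 1) (ofTS x) = g3 := rfl
    rw [hgoal]
    set w : ℕ → ℝ := fun i => x.1 ((i : ℤ), ((m + 1 : ℕ) : ℤ)) with hw
    set z : ℝ := x.2.2.2.1 (m + 1) / (1 - α) with hz
    set j2 : ℝ := x.2.2.2.2.1 (m + 1) / (1 - β) with hj2
    set J0 : ℝ := j2 + max (z - R.2.2) 0 with hJ0
    set J0' : ℝ := min z R.2.2 with hJ0'
    have hR' : tsRow α β x (m + 1) = rowStep w z j2 R := rfl
    have hs : (1 - α) + (α - β) = 1 - β := by ring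
    -- stage 1
    have z0 : g0 (iZ (m + 1)) / (1 - α) = z := by rw [i5 _ (Nat.lt_succ_self m)]
    have j0 : g0 (iJ (m + 1)) / (1 - β) = j2 := by rw [i6 _ (Nat.lt_succ_self m)]
    have k0 : g0 iK / (α - β) = R.2.2 := by rw [i3]; field_simp
    have g1Z : g1 (iZ (m + 1)) / (1 - α) = J0 := by
      rw [hg1, moveN_i (by simp) (by simp), hs, j0, z0, k0]
      exact mul_div_cancel_left₀ _ ha.ne'
    have g1J : g1 (iJ (m + 1)) / (1 - β) = J0' := by
      rw [hg1, moveN_k, hs, z0, k0]
      exact mul_div_cancel_left₀ _ hc.ne'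
    have g1K : g1 iK = (α - β) * (j2 + max (R.2.2 - z) 0) := by
      rw [hg1, moveN_j (by simp), hs, j0, z0, k0]
    have g1o : ∀ l, l ≠ iZ (m + 1) → l ≠ iK → l ≠ iJ (m + 1) → g1 l = g0 l := by
      intro l a b c
      rw [hg1, moveN_ne a b c]
    -- stage 2
    have hinjR : Function.Injective (iR (m + 1)) := by
      intro a b h
      simpa [iR] using h
    obtain ⟨p1, p2, p3, p4, p5, p6⟩ := qMoves_spec hα ha (p := iA) (q := iR (m + 1))
      (k := iZ (m + 1)) (fun a b h => by simpa using h) hinjR (by simp) (by simp) (by simp) N g1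
      (fun i => g1 (iR (m + 1) i) / (α + (1 - α))) (fun i => g1 (iA i) / α)
      (g1 (iZ (m + 1)) / (1 - α)) (fun i => rfl) (fun i => rfl) rfl
    rw [← hg2] at p1 p2 p3 p4 p5 p6
    have ew : ∀ i, g1 (iR (m + 1) i) / (α + (1 - α)) = w i := by
      intro i
      rw [g1o _ (by simp) (by simp) (by simp), i4 _ (by simp), show α + (1 - α) = 1 by ring,
        div_one]
    have eA : ∀ i, i ≤ N → g1 (iA i) / α = R.1 i := by
      intro i hi
      rw [g1o _ (by simp) (by simp) (by simp), i1 i hi]
      field_simp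
    have ew' : (fun i => g1 (iR (m + 1) i) / (α + (1 - α))) = w := funext ew
    rw [ew', g1Z] at p1 p3 p5
    have cK : ∀ i, i ≤ N → rowK w (fun i => g1 (iA i) / α) J0 i = qJ w R.1 J0 i := by
      intro i hi
      rw [qJ_eq]
      exact rowK_congr (fun _ _ _ => rfl) (fun k _ hk => eA k hk) i hi
    have cD : ∀ i, i ≤ N → i ≠ 0 → rowD w (fun i => g1 (iA i) / α) J0 i = qI w R.1 J0 i := by
      intro i hi h
      rw [qI_eq _ _ _ h]
      exact rowD_congr (fun _ _ _ => rfl) (fun k hk => eA k hk) i hi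
    -- stage 3
    obtain ⟨r1, r2, r3, r4, r5, r6⟩ := qMoves_spec h0 hc (p := iB) (q := iR (m + 1))
      (k := iJ (m + 1)) (fun a b h => by simpa using h) hinjR (by simp) (by simp) (by simp) N g2
      (fun i => g2 (iR (m + 1) i) / (β + (1 - β))) (fun i => g2 (iB i) / β)
      (g2 (iJ (m + 1)) / (1 - β)) (fun i => rfl) (fun i => rfl) rfl
    rw [← hg3] at r1 r2 r3 r4 r5 r6
    have g2J : g2 (iJ (m + 1)) / (1 - β) = J0' := by
      rw [p6 _ (by simp) (by simp) (by simp), g1J]
    have eB : ∀ i, i ≤ N → g2 (iB i) / β = R.2.1 i := by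
      intro i hi
      rw [p6 _ (by simp) (by simp) (by simp), g1o _ (by simp) (by simp) (by simp), i2 i hi]
      field_simp
    have eC : ∀ i, 1 ≤ i → i ≤ N → g2 (iR (m + 1) i) / (β + (1 - β)) = qC w R.1 J0 i := by
      intro i hi hi'
      rw [p3 i hi hi', eA i hi', cK _ (by omega), show α + (1 - α) = 1 by ring,
        show β + (1 - β) = 1 by ring, one_mul, div_one]
      rfl
    rw [g2J] at r1 r3 r5
    have cD' : ∀ i, i ≤ N → i ≠ 0 → rowD (fun i => g2 (iR (m + 1) i) / (β + (1 - β)))
        (fun i => g2 (iB i) / β) J0' i = qI (qC w R.1 J0) R.2.1 J0' i := by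
      intro i hi h
      rw [qI_eq _ _ _ h]
      exact rowD_congr eC (fun k hk => eB k hk) i hi
    refine ⟨?_, ?_, ?_, ?_, ?_, ?_⟩
    · intro i hi
      rw [r6 _ (by simp) (by simp) (by simp), p1 i hi, hR']
      congr 1
      simp only [rowStep]
      by_cases h : i = 0
      · subst h
        simp only [if_true, rowD]
        exact eA 0 hi
      · rw [if_neg h]
        exact cD i hi h
    · intro i hi
      rw [r1 i hi, hR']
      congr 1
      simp only [rowStep]
      by_cases h : i = 0
      · subst h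
        simp only [if_true, rowD]
        exact eB 0 hi
      · rw [if_neg h]
        exact cD' i hi h
    · rw [r6 _ (by simp) (by simp) (by simp), p6 _ (by simp) (by simp) (by simp), g1K, hR']
      rfl
    · intro v hv
      have hne : ∀ i, iW v ≠ iR (m + 1) i := by
        intro i h
        have : v = ((i : ℤ), ((m + 1 : ℕ) : ℤ)) := by simpa [iR] using h
        rw [this] at hv
        simp at hv
      rw [r6 _ (by simp) hne (by simp), p6 _ (by simp) hne (by simp),
        g1o _ (by simp) (by simp) (by simp), i4 v (by push_cast at hv; omega)]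
    · intro j hj
      have hne : (iZ j) ≠ iZ (m + 1) := by
        intro h
        have : j = m + 1 := by simpa using h
        omega
      rw [r6 _ (by simp) (by simp) (by simp), p6 _ (by simp) (by simp) hne,
        g1o _ hne (by simp) (by simp), i5 j (by omega)]
    · intro j hj
      have hne : (iJ j) ≠ iJ (m + 1) := by
        intro h
        have : j = m + 1 := by simpa using h
        omega
      rw [r6 _ (by simp) (by simp) hne, p6 _ (by simp) (by simp) (by simp),
        g1o _ (by simp) (by simp) hne, i6 j (by omega)]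

/-- `burkeMap` is an involution -/
theorem burke_invol (u v w : ℝ) :
    w = min (w + max (u - v) 0) (w + max (v - u) 0) ∧
    v = min u v + max ((w + max (v - u) 0) - (w + max (u - v) 0)) 0 := by
  rcases le_total u v with h | h
  · rw [max_eq_right (by linarith : u - v ≤ 0), max_eq_left (by linarith : 0 ≤ v - u),
      min_eq_left (by linarith), min_eq_left h, max_eq_left (by linarith)]
    constructor <;> ring
  · rw [max_eq_left (by linarith : 0 ≤ u - v), max_eq_right (by linarith : v - u ≤ 0),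
      min_eq_right (by linarith), min_eq_right h, max_eq_right (by linarith)]
    constructor <;> ring

theorem ts_law {α β : ℝ} (h0 : 0 < β) (h1 : β < α) (h2 : α < 1) (n i0 : ℕ) :
    ∃ Ψ : TSx → (ℕ → ℝ) × (ℕ → ℝ) × ℝ,
      MeasurePreserving Ψ muTS ((PI ℕ).prod ((PI ℕ).prod E1)) ∧
      ∀ x : TSx, TSnn x →
          (∀ i, i0 < i → (tsRow α β x n).1 i = (Ψ x).1 i / α ∧
            (tsRow α β x n).2.1 i = (Ψ x).2.1 i / β) ∧
          (∀ i, 1 ≤ i → i ≤ i0 →
            rowD (tsRow α β x n).1 (tsRow α β x n).2.1 (tsRow α β x n).2.2 i = (Ψ x).2.1 i / β ∧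
            (tsRow α β x n).1 i = min ((Ψ x).2.1 i / β)
              (rowK (tsRow α β x n).1 (tsRow α β x n).2.1 (tsRow α β x n).2.2 i) ∧
            rowK (tsRow α β x n).1 (tsRow α β x n).2.1 (tsRow α β x n).2.2 (i - 1) =
              (Ψ x).1 i / α + max (rowK (tsRow α β x n).1 (tsRow α β x n).2.1
                (tsRow α β x n).2.2 i - (Ψ x).2.1 i / β) 0) ∧
          rowK (tsRow α β x n).1 (tsRow α β x n).2.1 (tsRow α β x n).2.2 i0 =
            (Ψ x).2.2 / (α - β) := by
  have hb : 0 < α - β := by linarith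
  have hα : 0 < α := by linarith
  set K : TSx → ℕ → ℝ := fun x =>
    rowK (tsRow α β x n).1 (tsRow α β x n).2.1 (tsRow α β x n).2.2 with hK
  set D : TSx → ℕ → ℝ := fun x =>
    rowD (tsRow α β x n).1 (tsRow α β x n).2.1 (tsRow α β x n).2.2 with hD
  set Ψ : TSx → (ℕ → ℝ) × (ℕ → ℝ) × ℝ := fun x =>
    (fun i => α * (if 1 ≤ i ∧ i ≤ i0 then min ((tsRow α β x n).2.1 i) (K x (i - 1))
      else (tsRow α β x n).1 i),
     fun i => β * (if i ≤ i0 then D x i else (tsRow α β x n).2.1 i),
     (α - β) * K x i0) with hΨ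
  refine ⟨Ψ, ?_, ?_⟩
  · -- measure preserving
    have key : MeasurePreserving (fun x => glueS ((Ψ x).1, glueS ((Ψ x).2.1, fun _ : Unit =>
        (Ψ x).2.2))) muTS (PI (ℕ ⊕ ℕ ⊕ Unit)) := by
      apply mp_of_local
      intro s
      obtain ⟨N, hN1, hN2, hN3⟩ : ∃ N : ℕ, (∀ j : ℕ, (Sum.inl j : ℕ ⊕ ℕ ⊕ Unit) ∈ s → j ≤ N) ∧
          (∀ j : ℕ, (Sum.inr (Sum.inl j) : ℕ ⊕ ℕ ⊕ Unit) ∈ s → j ≤ N) ∧ i0 ≤ N := by
        refine ⟨(s.toLeft).sup id ⊔ ((s.toRight.toLeft).sup id ⊔ i0), fun j hj => ?_,
          fun j hj => ?_, le_trans le_sup_right le_sup_right⟩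
        · exact le_trans (Finset.le_sup (f := id) (by simpa using hj)) le_sup_left
        · exact le_trans (Finset.le_sup (f := id) (by simpa using hj))
            (le_trans le_sup_left le_sup_right)
      set f : ℕ ⊕ ℕ ⊕ Unit → TI := Sum.elim iA (Sum.elim iB (fun _ => iK)) with hf
      have hfi : Function.Injective f := by
        rintro (a | a | a) (b | b | b) h <;> simp_all
      have hM := qMoves_mp h0 hb (p := iB) (q := iA) (k := iK) (by simp) (by simp) (by simp) i0
      refine ⟨_, (sub_mp f hfi).comp (hM.comp ((rMoves_mp h0 h1 h2 N n).comp ofTS_mp)), ?_⟩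
      intro x l hl
      obtain ⟨s1, s2, s3, -, -, -⟩ := rMoves_spec h0 h1 h2 N n x
      simp only [Function.comp_apply]
      set g := rMoves α β N n (ofTS x) with hg
      have hab : β + (α - β) = α := by ring
      obtain ⟨q1, q2, q3, q4, q5, -⟩ := qMoves_spec h0 hb (p := iB) (q := iA) (k := iK)
        (fun a b h => by simpa using h) (fun a b h => by simpa using h)
        (by simp) (by simp) (by simp) i0 g (fun i => g (iA i) / α)
        (fun i => g (iB i) / β) (g iK / (α - β)) (by simp [hab]) (by simp) (by simp)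
      have eA : ∀ i, i ≤ N → g (iA i) / α = (tsRow α β x n).1 i := by
        intro i hi
        rw [s1 i hi]
        field_simp
      have eB : ∀ i, i ≤ N → g (iB i) / β = (tsRow α β x n).2.1 i := by
        intro i hi
        rw [s2 i hi]
        field_simp
      have eK : g iK / (α - β) = (tsRow α β x n).2.2 := by
        rw [s3]
        field_simp
      have cK : ∀ i, i ≤ N → rowK (fun i => g (iA i) / α) (fun i => g (iB i) / β)
          (g iK / (α - β)) i = K x i := by
        intro i hi
        rw [eK]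
        exact rowK_congr (fun k _ hk => eA k hk) (fun k _ hk => eB k hk) i hi
      have cD : ∀ i, i ≤ N → rowD (fun i => g (iA i) / α) (fun i => g (iB i) / β)
          (g iK / (α - β)) i = D x i := by
        intro i hi
        rw [eK]
        exact rowD_congr (fun k _ hk => eA k hk) (fun k hk => eB k hk) i hi
      rcases l with (i | i | u)
      · have hi := hN1 i hl
        simp only [glueS, Sum.elim_inl, hf, hΨ]
        by_cases h : 1 ≤ i ∧ i ≤ i0
        · rw [if_pos h, q3 i h.1 h.2, eB i hi, cK _ (by omega), hab]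
        · rw [if_neg h, q4 i (by omega), s1 i hi]
      · have hi := hN2 i hl
        simp only [glueS, Sum.elim_inl, Sum.elim_inr, hf, hΨ]
        by_cases h : i ≤ i0
        · rw [if_pos h, q1 i h, cD i hi]
        · rw [if_neg h, q2 i (by omega), s2 i hi]
      · simp only [glueS, Sum.elim_inr, hf, hΨ]
        rw [q5, cK i0 hN3]
    have e1 := splitS_mp ℕ (ℕ ⊕ Unit)
    have e2 := (MeasurePreserving.id (PI ℕ)).prod (splitS_mp ℕ Unit)
    have e3 := (MeasurePreserving.id (PI ℕ)).prod ((MeasurePreserving.id (PI ℕ)).prod unit_mp')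
    exact (e3.comp (e2.comp e1)).comp key
  · intro x _
    refine ⟨?_, ?_, ?_⟩
    · intro i hi
      constructor
      · simp only [hΨ]
        rw [if_neg (by omega)]
        field_simp
      · simp only [hΨ]
        rw [if_neg (by omega)]
        field_simp
    · intro i hi1 hi2
      have hA : (Ψ x).1 i / α = min ((tsRow α β x n).2.1 i) (K x (i - 1)) := by
        simp only [hΨ]
        rw [if_pos ⟨hi1, hi2⟩]
        field_simp
      have hB : (Ψ x).2.1 i / β = D x i := by
        simp only [hΨ]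
        rw [if_pos hi2]
        field_simp
      have eD : D x i = (tsRow α β x n).1 i + max ((tsRow α β x n).2.1 i - K x (i - 1)) 0 := by
        simp only [hD, rowD]
        rw [if_neg (by omega)]
      have eKi : K x i = (tsRow α β x n).1 i + max (K x (i - 1) - (tsRow α β x n).2.1 i) 0 := by
        obtain ⟨k, rfl⟩ : ∃ k, i = k + 1 := ⟨i - 1, by omega⟩
        rfl
      have hinv := burke_invol ((tsRow α β x n).2.1 i) (K x (i - 1)) ((tsRow α β x n).1 i)
      refine ⟨hB.symm, ?_, ?_⟩
      · rw [hB]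
        change (tsRow α β x n).1 i = min (D x i) (K x i)
        rw [eD, eKi]
        exact hinv.1
      · rw [hB, hA]
        change K x (i - 1) = min ((tsRow α β x n).2.1 i) (K x (i - 1)) + max (K x i - D x i) 0
        rw [eD, eKi]
        exact hinv.2
    · change K x i0 = (α - β) * K x i0 / (α - β)
      field_simp

end BGE
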