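import Pool.Agent.BGE.ExitDet
import Pool.Agent.BGE.TSMain
import Pool.Agent.BGE.Quad

/-!
BGE / S3. The two-slope coupling around the profiles.

`dT ω P u = T ω P (u,0) - T ω P (u-1,0)`. For fixed parameters there is a measure preserving map
`φ` from `Env × BN` to `BN`, `φ (ω, b) = (ap, bp, am, bm, K)`, such that for every `(ω, b)` with
nonnegative `ω`, `WG σ B Y n b`, for which `ω` agrees on the rows `≤ 0` with some `ω'` with
`GoodE κ σ lam Y g0 (2n) ω'`; for `1 ≤ i ≤ I` (`I + 1 ≤ n^{2/3}`), `α = rA`, `β = rB`: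
(1) `ap i/α ≤ dT ω PL i`; (2) `dT ω PR (1-i) ≤ bm i/β`; (3) `dT ω PL u ≤ dT ω PR u`, `|u| ≤ I`;
(4) if `k ≤ I` and for all `1 ≤ j ≤ k`: `∑_{1 ≤ u ≤ j} bp u/β - ∑_{1 ≤ u < j} ap u/α ≤ K/(α-β)`, then
    for `1 ≤ i ≤ k`: `dT ω PL i = dT ω PR i = ap i/α`;
(5) the same with `bm, am`: then `dT ω PL (1-i) = dT ω PR (1-i) = bm i/β`.

Proof. Let `c = cor σ A n`, `x = tsx σ A n ω b`, `N = -c.2` (row index of the row `0`), `i0 = -c.1`
(index of the column `0`); `i0 ≥ I` . `L1 α β x v = T (bfield ω (s1 ..) (w1 ..) c) c (v + c)`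
(`T_translate`), where the boundary sequences depend on `b` only.
Sandwich: for `|u| ≤ I`
`ΔL1 (i0+u) ≤ dT ω PL u ≤ dT ω PR u ≤ ΔL2 (i0+u)` (`ΔL i = L (i,N) - L (i-1,N)`): the middle
inequality is `incr_mono`. First inequality: `exit_det` for the target `(I,0)` and `ω'` (all
passage times involved only use rows `≤ 0`, so `ω'` may be replaced by `ω`, `T_congr`), then
`incr_exitW` with `h0 = (PL.2 - c.2).toNat`, `v0 = (I,0)`. Third inequality: `exit_det` for the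
target `(-I-1, 0)` and `incr_exitS`.
Now apply `ts_main` with `n := N`, this `i0`: it gives `(A, B, K)`. Put `ap u = A (i0+u)`,
`bp u = B (i0+u)`, `am u = A (i0+1-u)`, `bm u = B (i0+1-u)` for `1 ≤ u ≤ I` and choose the other
coordinates of the four sequences among the remaining coordinates of `A, B` in an injective way
(e.g. `ap u = A (i0+2u)`, `am u = A (i0+2u+1)` for `u > I`, and for `u = 0` two other ones): an
injective re-indexing of an i.i.d. family is i.i.d. `(ω, b) ↦ x` is measure preserving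
(translation of the bulk). (1)-(5) are (a)-(e) of `ts_main`.
-/

namespace BGE

open MeasureTheory ProbabilityTheory

/-- increments along the row `0` -/
noncomputable def dT (ω : ℤ × ℤ → ℝ) (P : ℤ × ℤ) (u : ℤ) : ℝ := T ω P (u, 0) - T ω P (u - 1, 0)

/-- re-indexing to the right of `i0` -/
private def cpF (i0 I : ℕ) (u : ℕ) : ℕ := if 1 ≤ u ∧ u ≤ I then i0 + u else i0 + I + 1 + 2 * u

/-- re-indexing to the left of `i0` -/
private def cpG (i0 I : ℕ) (u : ℕ) : ℕ :=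
  if 1 ≤ u ∧ u ≤ I then i0 + 1 - u else i0 + I + 2 + 2 * u

private theorem cpF_inj (i0 I : ℕ) {u v : ℕ} (h : cpF i0 I u = cpF i0 I v) : u = v := by
  unfold cpF at h
  split_ifs at h <;> omega

private theorem cpG_inj {i0 I : ℕ} (h0 : I ≤ i0) {u v : ℕ} (h : cpG i0 I u = cpG i0 I v) :
    u = v := by
  unfold cpG at h
  split_ifs at h <;> omega

private theorem cpFG {i0 I : ℕ} (h0 : I ≤ i0) (u v : ℕ) : cpF i0 I u ≠ cpG i0 I v := by
  unfold cpF cpG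
  intro h
  split_ifs at h <;> omega

/-- the index map -/
private def cpE (i0 I : ℕ) : ℕ ⊕ ℕ ⊕ ℕ ⊕ ℕ ⊕ Unit → ℕ ⊕ ℕ ⊕ Unit
  | Sum.inl u => Sum.inl (cpF i0 I u)
  | Sum.inr (Sum.inl u) => Sum.inr (Sum.inl (cpF i0 I u))
  | Sum.inr (Sum.inr (Sum.inl u)) => Sum.inl (cpG i0 I u)
  | Sum.inr (Sum.inr (Sum.inr (Sum.inl u))) => Sum.inr (Sum.inl (cpG i0 I u))
  | Sum.inr (Sum.inr (Sum.inr (Sum.inr u))) => Sum.inr (Sum.inr u)

private theorem cpE_inj {i0 I : ℕ} (h0 : I ≤ i0) : Function.Injective (cpE i0 I) := by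
  rintro (u | u | u | u | u) (v | v | v | v | v) h <;>
    simp only [cpE, Sum.inl.injEq, Sum.inr.injEq, reduceCtorEq] at h
  · rw [cpF_inj _ _ h]
  · exact (cpFG h0 _ _ h).elim
  · rw [cpF_inj _ _ h]
  · exact (cpFG h0 _ _ h).elim
  · exact (cpFG h0 _ _ h.symm).elim
  · rw [cpG_inj h0 h]
  · exact (cpFG h0 _ _ h.symm).elim
  · rw [cpG_inj h0 h]
  · rfl

private theorem cp_mp {i0 I : ℕ} (h0 : I ≤ i0) : MeasurePreserving
    (fun y : (ℕ → ℝ) × (ℕ → ℝ) × ℝ => ((fun u => y.1 (cpF i0 I u), fun u => y.2.1 (cpF i0 I u),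
      fun u => y.1 (cpG i0 I u), fun u => y.2.1 (cpG i0 I u), y.2.2) : BN))
    ((PI ℕ).prod ((PI ℕ).prod E1)) muBN := by
  have h3 := (glueS_mp ℕ Unit).comp ((MeasurePreserving.id (PI ℕ)).prod unit_mp)
  have h2 := (glueS_mp ℕ _).comp ((MeasurePreserving.id (PI ℕ)).prod h3)
  have h1 := sub_mp (cpE i0 I) (cpE_inj h0)
  have s4 := ((MeasurePreserving.id (PI ℕ)).prod unit_mp').comp (splitS_mp ℕ Unit)
  have s3 := ((MeasurePreserving.id (PI ℕ)).prod s4).comp (splitS_mp ℕ (ℕ ⊕ Unit))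
  have s2 := ((MeasurePreserving.id (PI ℕ)).prod s3).comp (splitS_mp ℕ (ℕ ⊕ ℕ ⊕ Unit))
  have s1 := ((MeasurePreserving.id (PI ℕ)).prod s2).comp (splitS_mp ℕ (ℕ ⊕ ℕ ⊕ ℕ ⊕ Unit))
  exact (s1.comp h1).comp h2

private theorem cp_tsx (σ A : ℝ) (n : ℕ) : MeasurePreserving
    (fun y : (ℤ × ℤ → ℝ) × BN => tsx σ A n y.1 y.2) ((PI (ℤ × ℤ)).prod muBN) muTS :=
  (sub_mp (fun z : ℤ × ℤ => z + cor σ A n) (add_left_injective _)).prod
    (MeasurePreserving.id muBN)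

private theorem cp_bfield (ω : ℤ × ℤ → ℝ) (S W : ℕ → ℝ) (c : ℤ × ℤ) :
    bfield (fun z => ω (z + c)) S W 0 = fun z => bfield ω S W c (z + c) := by
  funext z
  unfold bfield
  have e1 : ((z + c).2 = c.2) = (z.2 = (0 : ℤ × ℤ).2) := by
    apply propext
    rw [Prod.snd_add, Prod.snd_zero]
    constructor <;> intro h <;> omega
  have e2 : ((z + c).1 = c.1) = (z.1 = (0 : ℤ × ℤ).1) := by
    apply propext
    rw [Prod.fst_add, Prod.fst_zero]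
    constructor <;> intro h <;> omega
  have e3 : ((z + c).1 - c.1).toNat = (z.1 - (0 : ℤ × ℤ).1).toNat := by
    rw [Prod.fst_add, Prod.fst_zero]
    congr 1
    ring
  have e4 : ((z + c).2 - c.2).toNat = (z.2 - (0 : ℤ × ℤ).2).toNat := by
    rw [Prod.snd_add, Prod.snd_zero]
    congr 1
    ring
  simp only [e1, e2, e3, e4]

private theorem cp_L (ω : ℤ × ℤ → ℝ) (S W : ℕ → ℝ) (c v : ℤ × ℤ) :
    T (bfield (fun z => ω (z + c)) S W 0) 0 v = T (bfield ω S W c) c (v + c) := by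
  rw [cp_bfield, T_translate, zero_add]

private theorem cp_par {κ B C0 σ lam Y g0 : ℝ} {n : ℕ} (hκ : 0 < κ) (hB : 1 ≤ B) (hC : 1 ≤ C0)
    (hC' : (8 * B / κ) ^ 3 ≤ C0) (hP : Par C0 κ σ lam Y g0 n) :
    0 < rB σ B Y n ∧ rB σ B Y n < rA σ B Y n ∧ rA σ B Y n < 1 ∧
      (n : ℝ) ^ (2 / 3 : ℝ) ≤ κ * n := by
  obtain ⟨h1, h2, h3, h4, h5, h6⟩ := hP
  have hn0 : (0 : ℝ) ≤ n := Nat.cast_nonneg n
  have hlam : 1 / 2 ≤ lam := by linarith
  have hY : 0 < Y := by linarith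
  have hκ1 : κ ≤ 1 / 2 := by linarith
  have hσ0 : 0 < σ := by linarith
  have hσ1 : 0 < 1 - σ := by linarith
  obtain ⟨t, ht⟩ : ∃ t : ℝ, t = (n : ℝ) ^ (1 / 3 : ℝ) := ⟨_, rfl⟩
  have ht0 : 0 ≤ t := by rw [ht]; exact Real.rpow_nonneg hn0 _
  have ht3 : t ^ 3 = n := by
    rw [ht, ← Real.rpow_natCast, ← Real.rpow_mul hn0]
    norm_num
  have ht2 : (n : ℝ) ^ (2 / 3 : ℝ) = t ^ 2 := by
    rw [ht, ← Real.rpow_natCast, ← Real.rpow_mul hn0]
    norm_num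
  have hM0 : 0 < 8 * B / κ := by positivity
  have h7 : (8 * B / κ * lam) ^ 3 ≤ t ^ 3 := by
    rw [ht3, mul_pow]
    have h8 : (8 * B / κ) ^ 3 * lam ^ 3 ≤ C0 * lam ^ 3 :=
      mul_le_mul_of_nonneg_right hC' (by positivity)
    linarith
  have h8 : 8 * B / κ * lam ≤ t := le_of_pow_le_pow_left₀ (by norm_num) ht0 h7
  have ht1 : 0 < t := lt_of_lt_of_le (by positivity) h8
  have h9 : 8 * B * lam ≤ κ * t := by
    have := mul_le_mul_of_nonneg_left h8 hκ.le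
    have e : κ * (8 * B / κ * lam) = 8 * B * lam := by field_simp
    linarith
  have h10 : B * Y / t ≤ κ / 4 := by
    rw [div_le_iff₀ ht1]
    nlinarith
  have h11 : 0 < B * Y / t := by positivity
  -- the critical rate
  have hs1 : κ ≤ √σ := by
    apply Real.le_sqrt_of_sq_le
    nlinarith
  have hs2 : κ ≤ √(1 - σ) := by
    apply Real.le_sqrt_of_sq_le
    nlinarith
  have hs3 : √σ ≤ 1 := by
    rw [Real.sqrt_le_one]
    linarith
  have hs4 : √(1 - σ) ≤ 1 := by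
    rw [Real.sqrt_le_one]
    linarith
  have hs5 : 0 < √σ + √(1 - σ) := by linarith
  have ha1 : κ / 2 ≤ alc σ := by
    unfold alc
    rw [le_div_iff₀ hs5]
    nlinarith
  have ha2 : alc σ ≤ 1 - κ / 2 := by
    unfold alc
    rw [div_le_iff₀ hs5]
    nlinarith
  unfold rA rB
  rw [← ht, ht2, ← ht3]
  refine ⟨by linarith, by linarith, by linarith, ?_⟩
  have h12 : 1 ≤ κ * t := by nlinarith
  nlinarith [sq_nonneg t]

private theorem cp_sum (i0 j : ℕ) (F : ℕ → ℝ) :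
    ∑ u ∈ Finset.Ioc i0 (i0 + j), F u = ∑ u ∈ Finset.Icc 1 j, F (i0 + u) := by
  symm
  apply Finset.sum_bij (fun u _ => i0 + u)
  · intro a ha
    rw [Finset.mem_Icc] at ha
    rw [Finset.mem_Ioc]
    omega
  · intro a _ b _ h
    omega
  · intro b hb
    rw [Finset.mem_Ioc] at hb
    exact ⟨b - i0, by rw [Finset.mem_Icc]; omega, by omega⟩
  · intro a _
    rfl

private theorem cp_sum' (i0 j : ℕ) (F : ℕ → ℝ) :
    ∑ u ∈ Finset.Ioo i0 (i0 + j), F u = ∑ u ∈ Finset.Ico 1 j, F (i0 + u) := by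
  symm
  apply Finset.sum_bij (fun u _ => i0 + u)
  · intro a ha
    rw [Finset.mem_Ico] at ha
    rw [Finset.mem_Ioo]
    omega
  · intro a _ b _ h
    omega
  · intro b hb
    rw [Finset.mem_Ioo] at hb
    exact ⟨b - i0, by rw [Finset.mem_Ico]; omega, by omega⟩
  · intro a _
    rfl

private theorem cp_sum2 {i0 j : ℕ} (hj : j ≤ i0) (F : ℕ → ℝ) :
    ∑ u ∈ Finset.Icc (i0 + 1 - j) i0, F u = ∑ u ∈ Finset.Icc 1 j, F (i0 + 1 - u) := by
  symm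
  apply Finset.sum_bij (fun u _ => i0 + 1 - u)
  · intro a ha
    rw [Finset.mem_Icc] at ha
    rw [Finset.mem_Icc]
    omega
  · intro a ha b hb h
    rw [Finset.mem_Icc] at ha hb
    omega
  · intro b hb
    rw [Finset.mem_Icc] at hb
    exact ⟨i0 + 1 - b, by rw [Finset.mem_Icc]; omega, by omega⟩
  · intro a _
    rfl

private theorem cp_sum2' {i0 j : ℕ} (hj : j ≤ i0) (F : ℕ → ℝ) :
    ∑ u ∈ Finset.Ioc (i0 + 1 - j) i0, F u = ∑ u ∈ Finset.Ico 1 j, F (i0 + 1 - u) := by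
  symm
  apply Finset.sum_bij (fun u _ => i0 + 1 - u)
  · intro a ha
    rw [Finset.mem_Ico] at ha
    rw [Finset.mem_Ioc]
    omega
  · intro a ha b hb h
    rw [Finset.mem_Ico] at ha hb
    omega
  · intro b hb
    rw [Finset.mem_Ioc] at hb
    exact ⟨i0 + 1 - b, by rw [Finset.mem_Ico]; omega, by omega⟩
  · intro a _
    rfl

theorem coup {κ : ℝ} (hκ : 0 < κ) : ∃ B : ℝ, 1 ≤ B ∧ ∃ C0 : ℝ, 1 ≤ C0 ∧
    ∀ (σ lam Y g0 A : ℝ) (n I : ℕ), Par C0 κ σ lam Y g0 n → 1 ≤ A →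
    A ≤ 4 * Y * (n : ℝ) ^ (2 / 3 : ℝ) → (I : ℝ) + 1 ≤ (n : ℝ) ^ (2 / 3 : ℝ) →
    ∃ φ : (ℤ × ℤ → ℝ) × BN → BN,
      MeasurePreserving φ ((PI (ℤ × ℤ)).prod muBN) muBN ∧
      ∀ (ω ω' : ℤ × ℤ → ℝ) (b : BN), (∀ z, 0 ≤ ω z) → (∀ z : ℤ × ℤ, z.2 ≤ 0 → ω' z = ω z) →
      GoodE κ σ lam Y g0 (2 * n) ω' → WG σ B Y n b →
      (∀ i : ℕ, 1 ≤ i → i ≤ I → (φ (ω, b)).1 i / rA σ B Y n ≤ dT ω (PLp σ A n) i) ∧
      (∀ i : ℕ, 1 ≤ i → i ≤ I →
        dT ω (PRp σ A n) (1 - i) ≤ (φ (ω, b)).2.2.2.1 i / rB σ B Y n) ∧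
      (∀ u : ℤ, |u| ≤ I → dT ω (PLp σ A n) u ≤ dT ω (PRp σ A n) u) ∧
      (∀ k : ℕ, k ≤ I →
        (∀ j : ℕ, 1 ≤ j → j ≤ k → (∑ u ∈ Finset.Icc 1 j, (φ (ω, b)).2.1 u / rB σ B Y n) -
          (∑ u ∈ Finset.Ico 1 j, (φ (ω, b)).1 u / rA σ B Y n) ≤
            (φ (ω, b)).2.2.2.2 / (rA σ B Y n - rB σ B Y n)) →
        ∀ i : ℕ, 1 ≤ i → i ≤ k → dT ω (PLp σ A n) i = (φ (ω, b)).1 i / rA σ B Y n ∧
          dT ω (PRp σ A n) i = (φ (ω, b)).1 i / rA σ B Y n) ∧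
      (∀ k : ℕ, k ≤ I →
        (∀ j : ℕ, 1 ≤ j → j ≤ k → (∑ u ∈ Finset.Icc 1 j, (φ (ω, b)).2.2.2.1 u / rB σ B Y n) -
          (∑ u ∈ Finset.Ico 1 j, (φ (ω, b)).2.2.1 u / rA σ B Y n) ≤
            (φ (ω, b)).2.2.2.2 / (rA σ B Y n - rB σ B Y n)) →
        ∀ i : ℕ, 1 ≤ i → i ≤ k →
          dT ω (PLp σ A n) (1 - i) = (φ (ω, b)).2.2.2.1 i / rB σ B Y n ∧
          dT ω (PRp σ A n) (1 - i) = (φ (ω, b)).2.2.2.1 i / rB σ B Y n) := by
  obtain ⟨B, hB1, hB⟩ := exit_det hκ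
  obtain ⟨C1, hC1, hE⟩ := hB B le_rfl
  refine ⟨B, hB1, max C1 ((8 * B / κ) ^ 3), le_max_of_le_left hC1, ?_⟩
  intro σ lam Y g0 A n I hP hA1 hA hI
  obtain ⟨hβ, hαβ, hα, hn⟩ := cp_par hκ hB1 (le_max_of_le_left hC1) (le_max_right _ _) hP
  have hP1 : Par C1 κ σ lam Y g0 n := by
    obtain ⟨h1, h2, h3, h4, h5, h6⟩ := hP
    refine ⟨h1, h2, (le_max_left _ _).trans h3, h4, ?_, h6⟩
    have hl : 0 ≤ lam := by
      have := (le_max_left C1 ((8 * B / κ) ^ 3)).trans h3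
      linarith
    exact (mul_le_mul_of_nonneg_right (le_max_left _ _) (by positivity)).trans h5
  have hσ : κ ≤ σ := hP.1
  -- geometry
  obtain ⟨c, hc⟩ : ∃ c, c = cor σ A n := ⟨_, rfl⟩
  obtain ⟨p, hp⟩ : ∃ p, p = PLp σ A n := ⟨_, rfl⟩
  obtain ⟨q, hq⟩ : ∃ q, q = PRp σ A n := ⟨_, rfl⟩
  have hc1 : c.1 = p.1 - 1 := by rw [hc, hp]; rfl
  have hc2 : c.2 = q.2 - 1 := by rw [hc, hq]; rfl
  have hp2 : p.2 = -(n : ℤ) - p.1 := by rw [hp]; rfl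
  have hq2 : q.2 = -(n : ℤ) - q.1 := by rw [hq]; rfl
  have hp1 : (p.1 : ℝ) ≤ -(σ * ((n : ℝ) + 1 / 2)) - A := by
    rw [hp]
    exact Int.floor_le _
  have hq1 : -(σ * ((n : ℝ) + 1 / 2)) + A ≤ (q.1 : ℝ) := by
    rw [hq]
    exact Int.le_ceil _
  have hpq : p.1 < q.1 := by
    have : (p.1 : ℝ) < q.1 := by linarith
    exact_mod_cast this
  have hcI : c.1 ≤ -(I : ℤ) - 2 := by
    have h1 : (p.1 : ℝ) ≤ -(I : ℝ) - 1 := by
      have h2 : κ * n ≤ σ * n := mul_le_mul_of_nonneg_right hσ (Nat.cast_nonneg n)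
      have h3 : 0 < σ := by linarith
      linarith
    have h2 : p.1 ≤ -(I : ℤ) - 1 := by exact_mod_cast h1
    omega
  obtain ⟨i0, hi0⟩ : ∃ i0 : ℕ, (i0 : ℤ) = -c.1 := ⟨(-c.1).toNat, by omega⟩
  have hIi : I ≤ i0 := by omega
  obtain ⟨Ψ, hΨ, hts⟩ := ts_main hβ hαβ hα (-c.2).toNat i0
  refine ⟨fun y => ((fun u => (Ψ (tsx σ A n y.1 y.2)).1 (cpF i0 I u),
    fun u => (Ψ (tsx σ A n y.1 y.2)).2.1 (cpF i0 I u),
    fun u => (Ψ (tsx σ A n y.1 y.2)).1 (cpG i0 I u),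
    fun u => (Ψ (tsx σ A n y.1 y.2)).2.1 (cpG i0 I u), (Ψ (tsx σ A n y.1 y.2)).2.2) : BN),
    ((cp_mp hIi).comp hΨ).comp (cp_tsx σ A n), ?_⟩
  intro ω ω' b hω hωω hG hW
  obtain ⟨x, hx⟩ : ∃ x, x = tsx σ A n ω b := ⟨_, rfl⟩
  simp only [← hx, ← hp, ← hq]
  obtain ⟨hW0, hW1, hW2, hW3, hW4⟩ := hW
  have hxnn : TSnn x := by
    rw [hx]
    exact ⟨fun v => hω _, hW0.2⟩
  obtain ⟨ha, hb, -, hd, he⟩ := hts x hxnn
  obtain ⟨α, hα'⟩ : ∃ α, α = rA σ B Y n := ⟨_, rfl⟩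
  obtain ⟨β, hβ'⟩ : ∃ β, β = rB σ B Y n := ⟨_, rfl⟩
  rw [← hα', ← hβ'] at ha hb hd he
  rw [← hα', ← hβ'] at hαβ
  rw [← hα'] at hα hW1 hW2
  rw [← hβ'] at hβ hW4
  rw [← hα', ← hβ']
  -- the two exits
  have hE1 := (hE σ lam Y g0 A n ω' hP1 hG hA1 hA (s1 α x) (w1 α β x) (I : ℤ) (by
    rw [Int.cast_natCast, abs_of_nonneg (Nat.cast_nonneg I)]
    linarith)).1
  have hE2 := (hE σ lam Y g0 A n ω' hP1 hG hA1 hA (s2 α β x) (w2 β x) (-(I : ℤ) - 1) (by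
    push_cast
    rw [abs_le]
    have : (0 : ℝ) ≤ I := Nat.cast_nonneg I
    constructor <;> linarith)).2
  rw [← hα', ← hp, ← hc] at hE1
  rw [← hβ', ← hq, ← hc] at hE2
  rw [← hβ'] at hW2
  rw [← hα', ← hβ'] at hW3
  obtain ⟨h, hh1, hh2, hh3⟩ := hE1 (by rw [hx]; exact hW1) (by rw [hx]; exact hW2)
  obtain ⟨k, hk1, hk2, hk3⟩ := hE2 (by rw [hx]; exact hW3) (by rw [hx]; exact hW4)
  have hN : (((-c.2).toNat : ℕ) : ℤ) = -c.2 := by omega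
  have hcI0 : c ≤ ((I : ℤ), (0 : ℤ)) := ⟨by show c.1 ≤ (I : ℤ); omega, by show c.2 ≤ 0; omega⟩
  have hcI1 : c ≤ (-(I : ℤ) - 1, (0 : ℤ)) :=
    ⟨by show c.1 ≤ -(I : ℤ) - 1; omega, by show c.2 ≤ 0; omega⟩
  have hbf : ∀ (S W : ℕ → ℝ) (z : ℤ × ℤ), z.2 ≤ 0 → bfield ω' S W c z = bfield ω S W c z := by
    intro S W z hz
    unfold bfield
    rw [hωω z hz]
  have hx1 : x.1 = fun z => ω (z + c) := by rw [hx, hc]; rfl
  have hL1 : ∀ v, L1 α β x v = T (bfield ω (s1 α x) (w1 α β x) c) c (v + c) := by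
    intro v
    unfold L1
    rw [hx1, cp_L]
  have hL2 : ∀ v, L2 α β x v = T (bfield ω (s2 α β x) (w2 β x) c) c (v + c) := by
    intro v
    unfold L2
    rw [hx1, cp_L]
  have hh4 : T (bfield ω (s1 α x) (w1 α β x) c) c ((I : ℤ), 0) =
      (∑ j ∈ Finset.Icc 1 h, w1 α β x j) + T ω (c.1 + 1, c.2 + (h : ℤ)) ((I : ℤ), 0) := by
    rw [T_congr hcI0 (fun z _ hz' => (hbf (s1 α x) (w1 α β x) z hz'.2).symm), hh3,
      T_congr (ω := ω') (ω' := ω) (u := (c.1 + 1, c.2 + (h : ℤ))) (v := ((I : ℤ), 0))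
        ⟨by show c.1 + 1 ≤ (I : ℤ); omega, hh2⟩ (fun z _ hz' => hωω z hz'.2)]
  have hk4 : T (bfield ω (s2 α β x) (w2 β x) c) c (-(I : ℤ) - 1, 0) =
      (∑ j ∈ Finset.Icc 1 k, s2 α β x j) + T ω (c.1 + (k : ℤ), c.2 + 1) (-(I : ℤ) - 1, 0) := by
    rw [T_congr hcI1 (fun z _ hz' => (hbf (s2 α β x) (w2 β x) z hz'.2).symm), hk3,
      T_congr (ω := ω') (ω' := ω) (u := (c.1 + (k : ℤ), c.2 + 1)) (v := (-(I : ℤ) - 1, 0))
        ⟨hk2, by show c.2 + 1 ≤ 0; omega⟩ (fun z _ hz' => hωω z hz'.2)]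
  have key : ∀ u : ℤ, |u| ≤ I → ∀ i : ℕ, (i : ℤ) = i0 + u →
      L1 α β x ((i : ℤ), ((-c.2).toNat : ℤ)) - L1 α β x ((i : ℤ) - 1, ((-c.2).toNat : ℤ)) ≤
        dT ω p u ∧ dT ω p u ≤ dT ω q u ∧
      dT ω q u ≤
        L2 α β x ((i : ℤ), ((-c.2).toNat : ℤ)) - L2 α β x ((i : ℤ) - 1, ((-c.2).toNat : ℤ)) := by
    intro u hu i hi
    rw [abs_le] at hu
    have e1 : (((i : ℤ), ((-c.2).toNat : ℤ)) : ℤ × ℤ) + c = (u, 0) := by
      ext
      · show (i : ℤ) + c.1 = u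
        omega
      · show ((-c.2).toNat : ℤ) + c.2 = 0
        omega
    have e2 : (((i : ℤ) - 1, ((-c.2).toNat : ℤ)) : ℤ × ℤ) + c = (u - 1, 0) := by
      ext
      · show (i : ℤ) - 1 + c.1 = u - 1
        omega
      · show ((-c.2).toNat : ℤ) + c.2 = 0
        omega
    rw [hL1, hL1, hL2, hL2, e1, e2]
    refine ⟨?_, ?_, ?_⟩
    · have h5 := incr_exitW (ω := ω) (S := s1 α x) (W := w1 α β x) (c := c) (v0 := ((I : ℤ), 0))
        (v1 := (u - 1, 0)) (v2 := (u, 0)) (h0 := (p.2 - c.2).toNat) (h := h) (by omega) (by omega)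
        (by show c.1 < u - 1; omega) (by show c.2 + (h : ℤ) ≤ 0; omega) hh4
        (by show u - 1 ≤ u; omega) le_rfl hu.2 le_rfl
      have e3 : ((c.1 + 1, c.2 + ((p.2 - c.2).toNat : ℤ)) : ℤ × ℤ) = p := by
        ext
        · show c.1 + 1 = p.1
          omega
        · show c.2 + ((p.2 - c.2).toNat : ℤ) = p.2
          omega
      rw [e3] at h5
      exact h5
    · exact incr_mono (ω := ω) (q := p) (q' := q) (v1 := (u - 1, 0)) (v2 := (u, 0)) hpq.le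
        (by omega) (by show u - 1 ≤ u; omega) le_rfl
        ⟨by show p.1 ≤ u; omega, by show p.2 ≤ 0; omega⟩
        ⟨by show q.1 ≤ u - 1; omega, by show q.2 ≤ 0; omega⟩
    · have h5 := incr_exitS (ω := ω) (S := s2 α β x) (W := w2 β x) (c := c)
        (v0 := (-(I : ℤ) - 1, 0))
        (v1 := (u - 1, 0)) (v2 := (u, 0)) (k0 := (q.1 - c.1).toNat) (k := k) (by omega) (by omega)
        (by show c.2 < 0; omega) hk2 hk4
        (by show -(I : ℤ) - 1 ≤ u - 1; omega) le_rfl (by show u - 1 ≤ u; omega) le_rfl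
      have e3 : ((c.1 + ((q.1 - c.1).toNat : ℤ), c.2 + 1) : ℤ × ℤ) = q := by
        ext
        · show c.1 + ((q.1 - c.1).toNat : ℤ) = q.1
          omega
        · show c.2 + 1 = q.2
          omega
      rw [e3] at h5
      exact h5
  have hF : ∀ i : ℕ, 1 ≤ i → i ≤ I → cpF i0 I i = i0 + i := by
    intro i h1 h2
    unfold cpF
    rw [if_pos ⟨h1, h2⟩]
  have hG' : ∀ i : ℕ, 1 ≤ i → i ≤ I → cpG i0 I i = i0 + 1 - i := by
    intro i h1 h2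
    unfold cpG
    rw [if_pos ⟨h1, h2⟩]
  refine ⟨?_, ?_, ?_, ?_, ?_⟩
  · intro i h1 h2
    rw [hF i h1 h2, ← ha (i0 + i) (by omega)]
    exact (key (i : ℤ) (by rw [abs_of_nonneg] <;> omega) (i0 + i) (by push_cast; ring)).1
  · intro i h1 h2
    rw [hG' i h1 h2, ← hb (i0 + 1 - i) (by omega) (by omega)]
    exact (key (1 - (i : ℤ)) (by rw [abs_le]; constructor <;> omega) (i0 + 1 - i) (by omega)).2.2
  · intro u hu
    exact (key u hu (i0 + u).toNat (by rw [abs_le] at hu; omega)).2.1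
  · intro k hk hyp i h1 h2
    have h3 := hd (i0 + k) (by omega) (by
      intro j hj1 hj2
      obtain ⟨j', rfl⟩ : ∃ j', j = i0 + j' := ⟨j - i0, by omega⟩
      have h4 := hyp j' (by omega) (by omega)
      rw [cp_sum, cp_sum']
      have e1 : ∑ u ∈ Finset.Icc 1 j', (Ψ x).2.1 (cpF i0 I u) / β =
          ∑ u ∈ Finset.Icc 1 j', (Ψ x).2.1 (i0 + u) / β := by
        refine Finset.sum_congr rfl fun u hu => ?_
        rw [Finset.mem_Icc] at hu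
        rw [hF u hu.1 (by omega)]
      have e2 : ∑ u ∈ Finset.Ico 1 j', (Ψ x).1 (cpF i0 I u) / α =
          ∑ u ∈ Finset.Ico 1 j', (Ψ x).1 (i0 + u) / α := by
        refine Finset.sum_congr rfl fun u hu => ?_
        rw [Finset.mem_Ico] at hu
        rw [hF u hu.1 (by omega)]
      rw [← e1, ← e2]
      exact h4) (i0 + i) (by omega) (by omega)
    have h4 := ha (i0 + i) (by omega)
    have h5 := key (i : ℤ) (by rw [abs_of_nonneg] <;> omega) (i0 + i) (by push_cast; ring)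
    rw [h3, h4] at h5
    rw [hF i h1 (by omega)]
    exact ⟨le_antisymm (h5.2.1.trans h5.2.2) h5.1, le_antisymm h5.2.2 (h5.1.trans h5.2.1)⟩
  · intro k hk hyp i h1 h2
    have h3 := he (i0 - k) (by omega) (by
      intro j hj1 hj2
      obtain ⟨j', hj', rfl⟩ : ∃ j', j' ≤ i0 ∧ j = i0 + 1 - j' := ⟨i0 + 1 - j, by omega, by omega⟩
      have h4 := hyp j' (by omega) (by omega)
      rw [cp_sum2 hj', cp_sum2' hj']
      have e1 : ∑ u ∈ Finset.Icc 1 j', (Ψ x).2.1 (cpG i0 I u) / β =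
          ∑ u ∈ Finset.Icc 1 j', (Ψ x).2.1 (i0 + 1 - u) / β := by
        refine Finset.sum_congr rfl fun u hu => ?_
        rw [Finset.mem_Icc] at hu
        rw [hG' u hu.1 (by omega)]
      have e2 : ∑ u ∈ Finset.Ico 1 j', (Ψ x).1 (cpG i0 I u) / α =
          ∑ u ∈ Finset.Ico 1 j', (Ψ x).1 (i0 + 1 - u) / α := by
        refine Finset.sum_congr rfl fun u hu => ?_
        rw [Finset.mem_Ico] at hu
        rw [hG' u hu.1 (by omega)]
      rw [← e1, ← e2]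
      exact h4) (i0 + 1 - i) (by omega) (by omega)
    have h4 := hb (i0 + 1 - i) (by omega) (by omega)
    have h5 := key (1 - (i : ℤ)) (by rw [abs_le]; constructor <;> omega) (i0 + 1 - i) (by omega)
    rw [h3, h4] at h5
    rw [hG' i h1 (by omega)]
    exact ⟨le_antisymm (h5.2.1.trans h5.2.2) h5.1, le_antisymm h5.2.2 (h5.1.trans h5.2.1)⟩

end BGE
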