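import Pool.Agent.BGE.BlockA
import Pool.Agent.BGE.BlockMid
import Pool.Agent.BGE.BlockOut
import Pool.Agent.BGE.BlockLow
import Pool.Agent.BGE.Indep

/-!
BGE / M6. Probability of `FailX`, given the bound for the hits at the smaller scales.

Proof. Window `j`: the three events of `FailJ` depend on the noise in `RR rin`, `RR rou \ RR rin`,
`RR n \ RR rou`; `indep3`, `dyn_law` for `i = 0` (`dyn η x 0` has law `PI`), `measurePreserving_rotE`.
So `P(FailJ) ≤ 2 (lam^6/rin^{2/3}) (lam^5 θ³ 2^j/rou^{2/3}) (lam^12 rou^{2/3}/n^{2/3})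
 ≤ 4 lam^29 θ_j/n^{2/3}` (`rin_bounds`); `∑_{j < jT} θ_j ≤ 30 θ_max` (ratio `2^{1/20}`),
`θ_max ≤ (h² n^{2/3})^{1/20}` (`jT_spec`).
Low window: `P(Upd (RR rL)) ≤ card · h ≤ C lam rL^{5/3} h ≤ lam² h^{0.3}` (`card_Rgn`, `upd_prob`,
`low_bounds`), `P(LowS) ≤ h^{0.31}`, both independent of `OutS` with
`P(OutS) ≤ lam^12 rL^{2/3}/n^{2/3} ≤ lam^13 h^{-0.28}/n^{2/3}`.
The hypotheses of `out_prob` with `N0 = 2^(jT n)` are given by `jT_spec`; `n ≤ h⁻³` follows from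
`h n^{1/3} lam^300 ≤ 1`; `th h j * lam^25 ≤ 1` from `jT_spec` (5) and `h n^{1/3} lam^300 ≤ 1`.
-/

namespace BGE

open MeasureTheory ProbabilityTheory

/-- geometric sum of the gains -/
private theorem fp_geo {h : ℝ} (hh : 0 < h) (J : ℕ) :
    ∑ j ∈ Finset.range (J + 1), th h j ≤ 30 * th h J := by
  have hpos : ∀ j, 0 ≤ th h j := fun j => by unfold th; positivity
  have hstep : ∀ j, th h j ≤ 29 / 30 * th h (j + 1) := by
    intro j
    have e : th h (j + 1) = (2 : ℝ) ^ (1 / 20 : ℝ) * th h j := by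
      unfold th
      rw [← Real.mul_rpow (by norm_num) (by positivity)]
      congr 1
      rw [pow_succ]
      ring
    have h2 : (30 / 29 : ℝ) ≤ (2 : ℝ) ^ (1 / 20 : ℝ) := by
      have h3 : (30 / 29 : ℝ) = ((30 / 29 : ℝ) ^ (20 : ℕ)) ^ (1 / 20 : ℝ) := by
        rw [← Real.rpow_natCast, ← Real.rpow_mul (by norm_num)]
        norm_num
      rw [h3]
      exact Real.rpow_le_rpow (by positivity) (by norm_num) (by norm_num)
    rw [e]
    have := mul_le_mul_of_nonneg_right h2 (hpos j)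
    linarith
  induction J with
  | zero =>
    rw [Finset.sum_range_one]
    linarith [hpos 0]
  | succ J ih =>
    rw [Finset.sum_range_succ]
    have := hstep J
    linarith

/-- the same for all `j < J`, all the terms at most `m` -/
private theorem fp_geo2 {h m : ℝ} (hh : 0 < h) (hm : 0 ≤ m) (J : ℕ)
    (hJ : ∀ j, j < J → th h j ≤ m) : ∑ j ∈ Finset.range J, th h j ≤ 30 * m := by
  rcases Nat.eq_zero_or_pos J with rfl | hJ0
  · simp only [Finset.range_zero, Finset.sum_empty]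
    positivity
  · obtain ⟨J', rfl⟩ : ∃ J', J = J' + 1 := ⟨J - 1, by omega⟩
    have h1 := fp_geo hh J'
    have h2 := hJ J' (by omega)
    linarith

/-- the law of the environment at the time `0` -/
private theorem fp_law (η : ℝ) {E : Set (ℤ × ℤ → ℝ)} (hE : MeasurableSet E) :
    (PI DI).real {x | dyn η x 0 ∈ E} = (PI (ℤ × ℤ)).real E := by
  have h := (dyn_law η 0).measure_preimage hE.nullMeasurableSet
  rw [measureReal_def, measureReal_def]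
  exact congrArg ENNReal.toReal h

private theorem fp_law_rot (η : ℝ) {E : Set (ℤ × ℤ → ℝ)} (hE : MeasurableSet E) :
    (PI DI).real {x | rotE (dyn η x 0) ∈ E} = (PI (ℤ × ℤ)).real E := by
  have h1 : MeasurableSet {ω : ℤ × ℤ → ℝ | rotE ω ∈ E} := measurable_rotE hE
  have h := fp_law η h1
  have h2 := measurePreserving_rotE.measure_preimage hE.nullMeasurableSet
  have h3 : (PI (ℤ × ℤ)).real {ω : ℤ × ℤ → ℝ | rotE ω ∈ E} = (PI (ℤ × ℤ)).real E := by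
    rw [measureReal_def, measureReal_def]
    exact congrArg ENNReal.toReal h2
  rw [← h3, ← h]
  rfl

private theorem fp_real3 {A B C : Set (DI → ℝ)} {S S' S'' : Set DI} (hS : Disjoint S S')
    (hS2 : Disjoint S S'') (hS3 : Disjoint S' S'') (hA : MeasurableSet A) (hB : MeasurableSet B)
    (hC : MeasurableSet C) (hA' : DepOn S A) (hB' : DepOn S' B) (hC' : DepOn S'' C) :
    (PI DI).real (A ∩ (B ∩ C)) = (PI DI).real A * ((PI DI).real B * (PI DI).real C) := by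
  have h := indep3 (fun _ : DI => E1) hS hS2 hS3 hA hB hC hA' hB' hC'
  have h' : PI DI (A ∩ (B ∩ C)) = PI DI A * (PI DI B * PI DI C) := h
  rw [measureReal_def, h', ENNReal.toReal_mul, ENNReal.toReal_mul]
  rfl

private theorem fp_real2 {A B : Set (DI → ℝ)} {S S' : Set DI} (hS : Disjoint S S')
    (hA : MeasurableSet A) (hB : MeasurableSet B) (hA' : DepOn S A) (hB' : DepOn S' B) :
    (PI DI).real (A ∩ B) = (PI DI).real A * (PI DI).real B := by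
  have h := indep2 (fun _ : DI => E1) hS hA hB hA' hB'
  have h' : PI DI (A ∩ B) = PI DI A * PI DI B := h
  rw [measureReal_def, h', ENNReal.toReal_mul]
  rfl

private theorem fp_nz {R R' : Set (ℤ × ℤ)} (h : Disjoint R R') : Disjoint (nz R) (nz R') := by
  rw [Set.disjoint_left] at h ⊢
  intro d h1 h2
  exact h h1 h2

/-- the window `j` -/
private theorem fp_win {κ σ lam h η : ℝ} {M n j : ℕ} (hl : 1 ≤ lam) (hh : 0 < h)
    (hri : (1 : ℝ) ≤ rin h lam j) (hrr : rin h lam j ≤ rou h lam j) (hrn : rou h lam j ≤ n)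
    (h1 : th h j ^ 2 * 2 ^ j / (2 * lam ^ 6) ≤ (rin h lam j : ℝ) ^ (2 / 3 : ℝ))
    (hH : (PI DI).real (HitX σ lam η M (rin h lam j)) ≤
      lam ^ 6 / (rin h lam j : ℝ) ^ (2 / 3 : ℝ))
    (hM : (PI (ℤ × ℤ)).real (MidS κ σ lam h j) ≤
      lam ^ 5 * th h j ^ 3 * 2 ^ j / (rou h lam j : ℝ) ^ (2 / 3 : ℝ))
    (hO : (PI (ℤ × ℤ)).real (OutS κ σ lam h n (rou h lam j) (2 ^ jT h lam n)) ≤
      lam ^ 12 * (rou h lam j : ℝ) ^ (2 / 3 : ℝ) / (n : ℝ) ^ (2 / 3 : ℝ)) :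
    (PI DI).real (FailJ κ σ lam h η M n j) ≤
      4 * lam ^ 29 * th h j / (n : ℝ) ^ (2 / 3 : ℝ) := by
  have hl0 : 0 < lam := by linarith
  have hth : 0 < th h j := by unfold th; positivity
  have hro : (1 : ℝ) ≤ rou h lam j := hri.trans (Nat.cast_le.2 hrr)
  have hn : (1 : ℝ) ≤ n := hro.trans (Nat.cast_le.2 hrn)
  have e : FailJ κ σ lam h η M n j = HitX σ lam η M (rin h lam j) ∩
      ({x | dyn η x 0 ∈ {ω | ω ∈ MidS κ σ lam h j ∨ rotE ω ∈ MidS κ σ lam h j}} ∩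
        {x | dyn η x 0 ∈ OutS κ σ lam h n (rou h lam j) (2 ^ jT h lam n)}) := by
    rfl
  have hBm : MeasurableSet {ω : ℤ × ℤ → ℝ | ω ∈ MidS κ σ lam h j ∨ rotE ω ∈ MidS κ σ lam h j} :=
    measurableSet_MidS.union (measurable_rotE measurableSet_MidS)
  have hBd : DepOn (RR σ lam (rou h lam j) \ RR σ lam (rin h lam j))
      {ω : ℤ × ℤ → ℝ | ω ∈ MidS κ σ lam h j ∨ rotE ω ∈ MidS κ σ lam h j} :=
    DepOn.union depOn_MidS depOn_MidS_rot
  have hsub1 : RR σ lam (rin h lam j) ⊆ RR σ lam (rou h lam j) := RR_mono hl0.le hrr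
  have d1 : Disjoint (RR σ lam (rin h lam j))
      (RR σ lam (rou h lam j) \ RR σ lam (rin h lam j)) := Set.disjoint_sdiff_right
  have d2 : Disjoint (RR σ lam (rin h lam j)) (RR σ lam n \ RR σ lam (rou h lam j)) := by
    rw [Set.disjoint_left]
    intro z hz hz2
    exact hz2.2 (hsub1 hz)
  have d3 : Disjoint (RR σ lam (rou h lam j) \ RR σ lam (rin h lam j))
      (RR σ lam n \ RR σ lam (rou h lam j)) := by
    rw [Set.disjoint_left]
    intro z hz hz2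
    exact hz2.2 hz.1
  rw [e, fp_real3 (fp_nz d1) (fp_nz d2) (fp_nz d3) measurableSet_HitX
    (measurableSet_dyn hBm η 0) (measurableSet_dyn measurableSet_OutS η 0) depOn_HitX
    (depOn_dyn hBd η 0) (depOn_dyn depOn_OutS η 0), fp_law η measurableSet_OutS]
  have hB : (PI DI).real {x | dyn η x 0 ∈
      {ω | ω ∈ MidS κ σ lam h j ∨ rotE ω ∈ MidS κ σ lam h j}} ≤
      2 * (lam ^ 5 * th h j ^ 3 * 2 ^ j / (rou h lam j : ℝ) ^ (2 / 3 : ℝ)) := by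
    have e2 : {x : DI → ℝ | dyn η x 0 ∈
      {ω | ω ∈ MidS κ σ lam h j ∨ rotE ω ∈ MidS κ σ lam h j}} =
        {x | dyn η x 0 ∈ MidS κ σ lam h j} ∪ {x | rotE (dyn η x 0) ∈ MidS κ σ lam h j} := by
      rfl
    rw [e2]
    have h3 := measureReal_union_le (μ := PI DI) {x | dyn η x 0 ∈ MidS κ σ lam h j}
      {x | rotE (dyn η x 0) ∈ MidS κ σ lam h j}
    rw [fp_law η measurableSet_MidS, fp_law_rot η measurableSet_MidS] at h3
    linarith
  have hA : (PI DI).real (HitX σ lam η M (rin h lam j)) ≤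
      2 * lam ^ 12 / (th h j ^ 2 * 2 ^ j) := by
    refine hH.trans ?_
    rw [div_le_div_iff₀ (by positivity) (by positivity)]
    rw [div_le_iff₀ (by positivity)] at h1
    calc lam ^ 6 * (th h j ^ 2 * 2 ^ j)
        ≤ lam ^ 6 * ((rin h lam j : ℝ) ^ (2 / 3 : ℝ) * (2 * lam ^ 6)) := by gcongr
      _ = 2 * lam ^ 12 * (rin h lam j : ℝ) ^ (2 / 3 : ℝ) := by ring
  calc (PI DI).real (HitX σ lam η M (rin h lam j)) * ((PI DI).real {x | dyn η x 0 ∈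
        {ω | ω ∈ MidS κ σ lam h j ∨ rotE ω ∈ MidS κ σ lam h j}} *
        (PI (ℤ × ℤ)).real (OutS κ σ lam h n (rou h lam j) (2 ^ jT h lam n)))
      ≤ 2 * lam ^ 12 / (th h j ^ 2 * 2 ^ j) *
        (2 * (lam ^ 5 * th h j ^ 3 * 2 ^ j / (rou h lam j : ℝ) ^ (2 / 3 : ℝ)) *
          (lam ^ 12 * (rou h lam j : ℝ) ^ (2 / 3 : ℝ) / (n : ℝ) ^ (2 / 3 : ℝ))) := by
        gcongr
    _ = 4 * lam ^ 29 * th h j / (n : ℝ) ^ (2 / 3 : ℝ) := by
        have : (0 : ℝ) < (rou h lam j : ℝ) ^ (2 / 3 : ℝ) := by positivity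
        have : (0 : ℝ) < (n : ℝ) ^ (2 / 3 : ℝ) := by positivity
        field_simp
        ring

/-- the low window -/
private theorem fp_low {κ σ lam h η : ℝ} {M n : ℕ} (hl : 2 ≤ lam) (hh : 0 < h) (hh1 : h < 1)
    (hη : 0 < η) (hMη : M * η ≤ h) (hrn : (rL h : ℝ) ≤ n)
    (hlam : h ^ (1 / 1000 : ℝ) * lam ^ 1000 ≤ 1)
    (h1 : (1 : ℝ) ≤ rL h) (h2 : (rL h : ℝ) ≤ 2 * h⁻¹ ^ (21 / 50 : ℝ))
    (hL : (PI (ℤ × ℤ)).real (LowS σ lam h) ≤ h ^ (31 / 100 : ℝ))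
    (hO : (PI (ℤ × ℤ)).real (OutS κ σ lam h n (rL h) (2 ^ jT h lam n)) ≤
      lam ^ 12 * (rL h : ℝ) ^ (2 / 3 : ℝ) / (n : ℝ) ^ (2 / 3 : ℝ)) :
    (PI DI).real (FailL κ σ lam h η M n) ≤ h ^ (1 / 100 : ℝ) / (n : ℝ) ^ (2 / 3 : ℝ) := by
  have hl0 : 0 < lam := by linarith
  have hl1 : 1 ≤ lam := by linarith
  have hn : (1 : ℝ) ≤ n := h1.trans hrn
  have e : FailL κ σ lam h η M n = (Upd η M (RR σ lam (rL h)) ∪
      ({x | dyn η x 0 ∈ LowS σ lam h} ∪ {x | rotE (dyn η x 0) ∈ LowS σ lam h})) ∩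
        {x | dyn η x 0 ∈ OutS κ σ lam h n (rL h) (2 ^ jT h lam n)} := by
    rfl
  have hm1 : MeasurableSet {x : DI → ℝ | rotE (dyn η x 0) ∈ LowS σ lam h} :=
    measurableSet_dyn (E := {ω | rotE ω ∈ LowS σ lam h}) (measurable_rotE measurableSet_LowS) η 0
  have hAm : MeasurableSet (Upd η M (RR σ lam (rL h)) ∪
      ({x | dyn η x 0 ∈ LowS σ lam h} ∪ {x | rotE (dyn η x 0) ∈ LowS σ lam h})) :=
    (measurableSet_Upd η M _).union ((measurableSet_dyn measurableSet_LowS η 0).union hm1)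
  have hAd : DepOn (nz (RR σ lam (rL h))) (Upd η M (RR σ lam (rL h)) ∪
      ({x | dyn η x 0 ∈ LowS σ lam h} ∪ {x | rotE (dyn η x 0) ∈ LowS σ lam h})) :=
    DepOn.union (depOn_Upd η M _) (DepOn.union (depOn_dyn depOn_LowS η 0)
      (depOn_dyn depOn_LowS_rot η 0))
  rw [e, fp_real2 (fp_nz Set.disjoint_sdiff_right) hAm (measurableSet_dyn measurableSet_OutS η 0)
    hAd (depOn_dyn depOn_OutS η 0), fp_law η measurableSet_OutS]
  -- powers of h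
  have hi : 1 ≤ h⁻¹ := by
    rw [one_le_inv₀ hh]
    exact hh1.le
  have hr23 : (rL h : ℝ) ^ (2 / 3 : ℝ) ≤ 2 * h ^ (-(28 / 100) : ℝ) := by
    calc (rL h : ℝ) ^ (2 / 3 : ℝ) ≤ (2 * h⁻¹ ^ (21 / 50 : ℝ)) ^ (2 / 3 : ℝ) := by
          apply Real.rpow_le_rpow (by positivity) h2 (by norm_num)
      _ = (2 : ℝ) ^ (2 / 3 : ℝ) * h ^ (-(28 / 100) : ℝ) := by
          rw [Real.mul_rpow (by norm_num) (by positivity), ← Real.rpow_mul (by positivity),
            Real.inv_rpow hh.le, ← Real.rpow_neg hh.le]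
          norm_num
      _ ≤ (2 : ℝ) ^ (1 : ℝ) * h ^ (-(28 / 100) : ℝ) := by
          gcongr
          · norm_num
          · norm_num
      _ = 2 * h ^ (-(28 / 100) : ℝ) := by rw [Real.rpow_one]
  have hr42 : (rL h : ℝ) ≤ 2 * h ^ (-(42 / 100) : ℝ) := by
    refine h2.trans (le_of_eq ?_)
    rw [Real.inv_rpow hh.le, ← Real.rpow_neg hh.le]
    norm_num
  have hU : (PI DI).real (Upd η M (RR σ lam (rL h))) ≤ 400 * lam * h ^ (3 / 10 : ℝ) := by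
    obtain ⟨R, hR, hRc⟩ := card_Rgn σ (a := 6 * arc lam (rL h)) (by unfold arc; positivity) (rL h)
    have hR' : (R : Set (ℤ × ℤ)) = RR σ lam (rL h) := hR
    have h3 := upd_prob hη.le M R
    rw [hR'] at h3
    refine h3.trans ?_
    have h4 : (1 : ℝ) ≤ lam * (rL h : ℝ) ^ (2 / 3 : ℝ) := by
      have : (1 : ℝ) ≤ (rL h : ℝ) ^ (2 / 3 : ℝ) := Real.one_le_rpow h1 (by norm_num)
      nlinarith
    have h5 : (2 * (rL h : ℝ) + 2) * (2 * (6 * arc lam (rL h)) + 1) ≤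
        (4 * (rL h : ℝ)) * (25 * lam * (rL h : ℝ) ^ (2 / 3 : ℝ)) := by
      unfold arc
      gcongr
      · linarith
      · linarith
    have harc : 0 ≤ arc lam (rL h) := by unfold arc; positivity
    calc (R.card : ℝ) * (M * η) ≤ ((2 * (rL h : ℝ) + 2) * (2 * (6 * arc lam (rL h)) + 1)) * h :=
          mul_le_mul hRc hMη (by positivity) (by positivity)
      _ ≤ ((4 * (rL h : ℝ)) * (25 * lam * (rL h : ℝ) ^ (2 / 3 : ℝ))) * h := by gcongr
      _ ≤ ((4 * (2 * h ^ (-(42 / 100) : ℝ))) * (25 * lam * (2 * h ^ (-(28 / 100) : ℝ)))) *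
          h ^ (1 : ℝ) := by
          rw [Real.rpow_one]
          gcongr
      _ = 400 * lam * (h ^ (-(42 / 100) : ℝ) * h ^ (-(28 / 100) : ℝ) * h ^ (1 : ℝ)) := by ring
      _ = 400 * lam * h ^ (3 / 10 : ℝ) := by
          rw [← Real.rpow_add hh, ← Real.rpow_add hh]
          norm_num
  have hLow : (PI (ℤ × ℤ)).real (LowS σ lam h) ≤ h ^ (3 / 10 : ℝ) :=
    hL.trans (Real.rpow_le_rpow_of_exponent_ge hh hh1.le (by norm_num))
  have hA : (PI DI).real (Upd η M (RR σ lam (rL h)) ∪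
      ({x | dyn η x 0 ∈ LowS σ lam h} ∪ {x | rotE (dyn η x 0) ∈ LowS σ lam h})) ≤
      401 * lam * h ^ (3 / 10 : ℝ) := by
    have h3 := measureReal_union_le (μ := PI DI) (Upd η M (RR σ lam (rL h)))
      ({x | dyn η x 0 ∈ LowS σ lam h} ∪ {x | rotE (dyn η x 0) ∈ LowS σ lam h})
    have h4 := measureReal_union_le (μ := PI DI) {x | dyn η x 0 ∈ LowS σ lam h}
      {x | rotE (dyn η x 0) ∈ LowS σ lam h}
    rw [fp_law η measurableSet_LowS, fp_law_rot η measurableSet_LowS] at h4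
    have h5 : 2 * h ^ (3 / 10 : ℝ) ≤ lam * h ^ (3 / 10 : ℝ) := by gcongr
    linarith
  have hp : h ^ (1 / 100 : ℝ) * (802 * lam ^ 13) ≤ 1 := by
    have h3 : h ^ (1 / 100 : ℝ) ≤ h ^ (1 / 1000 : ℝ) :=
      Real.rpow_le_rpow_of_exponent_ge hh hh1.le (by norm_num)
    have h4 : 802 * lam ^ 13 ≤ lam ^ 1000 := by
      calc 802 * lam ^ 13 ≤ 2 ^ 10 * lam ^ 13 := by gcongr; norm_num
        _ ≤ lam ^ 10 * lam ^ 13 := by gcongr
        _ = lam ^ 23 := by ring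
        _ ≤ lam ^ 1000 := pow_le_pow_right₀ hl1 (by norm_num)
    calc h ^ (1 / 100 : ℝ) * (802 * lam ^ 13) ≤ h ^ (1 / 1000 : ℝ) * lam ^ 1000 := by gcongr
      _ ≤ 1 := hlam
  calc (PI DI).real (Upd η M (RR σ lam (rL h)) ∪
        ({x | dyn η x 0 ∈ LowS σ lam h} ∪ {x | rotE (dyn η x 0) ∈ LowS σ lam h})) *
        (PI (ℤ × ℤ)).real (OutS κ σ lam h n (rL h) (2 ^ jT h lam n))
      ≤ (401 * lam * h ^ (3 / 10 : ℝ)) *
        (lam ^ 12 * (2 * h ^ (-(28 / 100) : ℝ)) / (n : ℝ) ^ (2 / 3 : ℝ)) := by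
        have : lam ^ 12 * (rL h : ℝ) ^ (2 / 3 : ℝ) / (n : ℝ) ^ (2 / 3 : ℝ) ≤
          lam ^ 12 * (2 * h ^ (-(28 / 100) : ℝ)) / (n : ℝ) ^ (2 / 3 : ℝ) := by gcongr
        exact mul_le_mul hA (hO.trans this) measureReal_nonneg (by positivity)
    _ = (802 * lam ^ 13) * (h ^ (3 / 10 : ℝ) * h ^ (-(28 / 100) : ℝ)) /
        (n : ℝ) ^ (2 / 3 : ℝ) := by ring
    _ = (h ^ (1 / 100 : ℝ) * (802 * lam ^ 13)) * h ^ (1 / 100 : ℝ) / (n : ℝ) ^ (2 / 3 : ℝ) := by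
        rw [← Real.rpow_add hh]
        have : h ^ (3 / 10 + -(28 / 100) : ℝ) = h ^ (1 / 100 : ℝ) * h ^ (1 / 100 : ℝ) := by
          rw [← Real.rpow_add hh]
          norm_num
        rw [this]
        ring
    _ ≤ 1 * h ^ (1 / 100 : ℝ) / (n : ℝ) ^ (2 / 3 : ℝ) := by gcongr
    _ = h ^ (1 / 100 : ℝ) / (n : ℝ) ^ (2 / 3 : ℝ) := by rw [one_mul]

theorem fail_prob {κ : ℝ} (hκ : 0 < κ) : ∃ C1 : ℝ, 2 ≤ C1 ∧ ∀ (σ h lam η : ℝ) (n M : ℕ),
    HP C1 h lam → κ ≤ σ → σ ≤ 1 - κ → 0 < η → M * η ≤ h → lam ^ 12 * rL h ≤ n →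
    h * (n : ℝ) ^ (1 / 3 : ℝ) * lam ^ 300 ≤ 1 →
    (∀ r : ℕ, 1 ≤ r → r < n →
      (PI DI).real (HitX σ lam η M r) ≤ lam ^ 6 / (r : ℝ) ^ (2 / 3 : ℝ)) →
    (PI DI).real (FailX κ σ lam h η M n) ≤
      (lam ^ 31 * (h ^ 2 * (n : ℝ) ^ (2 / 3 : ℝ)) ^ (1 / 20 : ℝ) + h ^ (1 / 100 : ℝ)) /
        (n : ℝ) ^ (2 / 3 : ℝ) := by
  obtain ⟨Cm, hCm, hmid⟩ := mid_prob hκ
  obtain ⟨C0, Co, hC0, hCo, hout⟩ := out_prob hκ
  obtain ⟨Cl, hCl, hlow⟩ := low_prob hκ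
  obtain ⟨Cr, hCr, hrin⟩ := rin_bounds C0
  obtain ⟨Cu, hCu, hrou⟩ := rou_bounds
  obtain ⟨Cj, hCj, hjT⟩ := jT_spec
  obtain ⟨Cb, hCb, hlb⟩ := low_bounds
  refine ⟨120 + C0 + Cm + Co + Cl + Cr + Cu + Cj + Cb, by linarith, ?_⟩
  intro σ h lam η n M hp hσ1 hσ2 hη hMη hn hsm hind
  have hb := hp_basic (by linarith) hp
  have hl120 : 120 ≤ lam := by linarith [hb.1]
  have hl1 : 1 ≤ lam := by linarith
  have hl0 : 0 < lam := by linarith
  have hC0l : C0 ≤ lam := by linarith [hb.1]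
  have hh : 0 < h := hp.1
  have hh1 : h < 1 := hp.2.1
  obtain ⟨b1, b2, b3, b4⟩ := hlb h lam (hp.mono (by linarith))
  obtain ⟨j1, j2, j3, j4, j5⟩ := hjT h lam n (hp.mono (by linarith)) hn hsm
  have hi : 1 ≤ h⁻¹ := by
    rw [one_le_inv₀ hh]
    exact hh1.le
  -- rL is large
  have hrL : C0 * lam ^ 3 ≤ rL h := by
    have h1 : lam ^ 1000 ≤ h⁻¹ ^ (1 / 1000 : ℝ) := hp.2.2.2.2
    calc C0 * lam ^ 3 ≤ lam * lam ^ 3 := by gcongr
      _ = lam ^ 4 := by ring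
      _ ≤ lam ^ 1000 := pow_le_pow_right₀ hl1 (by norm_num)
      _ ≤ h⁻¹ ^ (1 / 1000 : ℝ) := h1
      _ ≤ h⁻¹ ^ (21 / 50 : ℝ) := Real.rpow_le_rpow_of_exponent_le hi (by norm_num)
      _ ≤ rL h := b3
  have hl12 : 1 ≤ lam ^ 12 := one_le_pow₀ hl1
  have hrL1 : (1 : ℝ) ≤ rL h := by
    have h3 : 1 ≤ lam ^ 3 := one_le_pow₀ hl1
    nlinarith
  have hrLn : (rL h : ℝ) ≤ n := by
    refine le_trans ?_ hn
    nlinarith
  have hn1 : (1 : ℝ) ≤ n := hrL1.trans hrLn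
  have hn0 : (0 : ℝ) < n := by linarith
  -- n ≤ h⁻³
  have hsm1 : h * (n : ℝ) ^ (1 / 3 : ℝ) ≤ 1 := by
    refine le_trans ?_ hsm
    have h1 : 1 ≤ lam ^ 300 := one_le_pow₀ hl1
    have h2 : 0 ≤ h * (n : ℝ) ^ (1 / 3 : ℝ) := by positivity
    nlinarith
  have hnh : (n : ℝ) ≤ h⁻¹ ^ 3 := by
    have h1 : (n : ℝ) ^ (1 / 3 : ℝ) ≤ h⁻¹ := by
      rw [inv_eq_one_div, le_div_iff₀ hh, mul_comm]
      exact hsm1
    calc (n : ℝ) = ((n : ℝ) ^ (1 / 3 : ℝ)) ^ 3 := by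
          rw [← Real.rpow_natCast, ← Real.rpow_mul hn0.le]
          norm_num
      _ ≤ h⁻¹ ^ 3 := by gcongr
  -- the maximal gain
  set θ : ℝ := (h ^ 2 * (n : ℝ) ^ (2 / 3 : ℝ)) ^ (1 / 20 : ℝ) with hθ
  have hθ0 : 0 ≤ θ := by positivity
  have hθ1 : θ * lam ^ 25 ≤ 1 := by
    have e1 : θ = (h * (n : ℝ) ^ (1 / 3 : ℝ)) ^ (1 / 10 : ℝ) := by
      have e2 : h ^ 2 * (n : ℝ) ^ (2 / 3 : ℝ) = (h * (n : ℝ) ^ (1 / 3 : ℝ)) ^ (2 : ℝ) := by
        rw [Real.mul_rpow hh.le (by positivity), ← Real.rpow_mul hn0.le]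
        norm_num
      rw [hθ, e2, ← Real.rpow_mul (by positivity)]
      norm_num
    have e3 : lam ^ 25 ≤ (lam ^ 300) ^ (1 / 10 : ℝ) := by
      have : (lam ^ 300) ^ (1 / 10 : ℝ) = lam ^ 30 := by
        rw [← Real.rpow_natCast, ← Real.rpow_mul hl0.le, ← Real.rpow_natCast]
        norm_num
      rw [this]
      exact pow_le_pow_right₀ hl1 (by norm_num)
    rw [e1]
    calc (h * (n : ℝ) ^ (1 / 3 : ℝ)) ^ (1 / 10 : ℝ) * lam ^ 25
        ≤ (h * (n : ℝ) ^ (1 / 3 : ℝ)) ^ (1 / 10 : ℝ) * (lam ^ 300) ^ (1 / 10 : ℝ) := by gcongr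
      _ = (h * (n : ℝ) ^ (1 / 3 : ℝ) * lam ^ 300) ^ (1 / 10 : ℝ) := by
          rw [← Real.mul_rpow (by positivity) (by positivity)]
      _ ≤ 1 := Real.rpow_le_one (by positivity) hsm (by norm_num)
  have hN0 : (((2 ^ jT h lam n : ℕ) : ℕ) : ℝ) = (2 : ℝ) ^ jT h lam n := by push_cast; rfl
  -- windows
  have hwin : ∀ j, jL h ≤ j → j < jT h lam n → (PI DI).real (FailJ κ σ lam h η M n j) ≤
      4 * lam ^ 29 * th h j / (n : ℝ) ^ (2 / 3 : ℝ) := by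
    intro j hj1 hj2
    obtain ⟨r1, r2, r3, r4, r5⟩ := hrin h lam j (hp.mono (by linarith)) hj1
    obtain ⟨u1, u2⟩ := hrou h lam j (hp.mono (by linarith))
    have hth0 : 0 < th h j := by unfold th; positivity
    have hthl : th h j * lam ^ 25 ≤ 1 :=
      (mul_le_mul_of_nonneg_right (j5 j hj2) (by positivity)).trans hθ1
    have hth1 : th h j ≤ 1 := by
      have h1 : 1 ≤ lam ^ 25 := one_le_pow₀ hl1
      nlinarith
    have hri : (1 : ℝ) ≤ rin h lam j := by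
      have h3 : 1 ≤ lam ^ 3 := one_le_pow₀ hl1
      nlinarith
    have hrr : (rin h lam j : ℝ) ≤ rou h lam j := by
      have h1 : (rin h lam j : ℝ) ^ (2 / 3 : ℝ) ≤ (rou h lam j : ℝ) ^ (2 / 3 : ℝ) := by
        refine r4.trans (le_trans ?_ u1)
        calc th h j ^ 2 * 2 ^ j / lam ^ 6 ≤ 1 ^ 2 * 2 ^ j / 1 := by
              gcongr
              exact one_le_pow₀ hl1
          _ = 1 * 2 ^ j / 1 ^ 4 := by ring
          _ ≤ lam ^ 20 * 2 ^ j / th h j ^ 4 := by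
              gcongr
              exact one_le_pow₀ hl1
      exact (Real.rpow_le_rpow_iff (by positivity) (by positivity) (by norm_num)).1 h1
    have hro1 : (1 : ℝ) ≤ rou h lam j := hri.trans hrr
    have hron : lam ^ 12 * (rou h lam j : ℝ) ≤ n := j2 j hj1 hj2
    have hron' : (rou h lam j : ℝ) < n := by
      refine lt_of_lt_of_le ?_ hron
      have : (1 : ℝ) < lam ^ 12 := one_lt_pow₀ (by linarith) (by norm_num)
      nlinarith
    refine fp_win hl1 hh hri (Nat.cast_le.1 hrr) (Nat.cast_le.1 hron'.le) r3 ?_ ?_ ?_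
    · refine hind _ (by exact_mod_cast hri) ?_
      exact_mod_cast hrr.trans_lt hron'
    · exact hmid σ h lam j (hp.mono (by linarith)) hσ1 hσ2 hj1 hthl (hron'.le.trans hnh)
    · refine hout σ h lam n (rou h lam j) (2 ^ jT h lam n) (hp.mono (by linarith)) hσ1 hσ2
        (r2.trans hrr) hron hnh Nat.one_le_two_pow ?_ ?_
      · rw [hN0]
        exact j3
      · rw [hN0]
        exact j4
  have hlw : (PI DI).real (FailL κ σ lam h η M n) ≤ h ^ (1 / 100 : ℝ) / (n : ℝ) ^ (2 / 3 : ℝ) := by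
    refine fp_low (by linarith) hh hh1 hη hMη hrLn hb.2.2 hrL1 b4
      (hlow σ h lam (hp.mono (by linarith)) hσ1 hσ2) ?_
    refine hout σ h lam n (rL h) (2 ^ jT h lam n) (hp.mono (by linarith)) hσ1 hσ2
      hrL hn hnh Nat.one_le_two_pow ?_ ?_
    · rw [hN0]
      exact j3
    · rw [hN0]
      exact j4
  -- union
  have hsub : FailX κ σ lam h η M n ⊆
      (⋃ j ∈ Finset.Ico (jL h) (jT h lam n), FailJ κ σ lam h η M n j) ∪
        FailL κ σ lam h η M n := by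
    rintro x (⟨j, hj1, hj2, hx⟩ | hx)
    · left
      simp only [Set.mem_iUnion]
      exact ⟨j, Finset.mem_Ico.2 ⟨hj1, hj2⟩, hx⟩
    · exact Or.inr hx
  have hsum : ∑ j ∈ Finset.Ico (jL h) (jT h lam n), th h j ≤ 30 * θ := by
    refine le_trans ?_ (fp_geo2 hh hθ0 (jT h lam n) j5)
    refine Finset.sum_le_sum_of_subset_of_nonneg ?_ fun j _ _ => by unfold th; positivity
    intro j hj
    exact Finset.mem_range.2 (Finset.mem_Ico.1 hj).2
  calc (PI DI).real (FailX κ σ lam h η M n)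
      ≤ (PI DI).real ((⋃ j ∈ Finset.Ico (jL h) (jT h lam n), FailJ κ σ lam h η M n j) ∪
        FailL κ σ lam h η M n) := measureReal_mono hsub (measure_ne_top _ _)
    _ ≤ (PI DI).real (⋃ j ∈ Finset.Ico (jL h) (jT h lam n), FailJ κ σ lam h η M n j) +
        (PI DI).real (FailL κ σ lam h η M n) := measureReal_union_le _ _
    _ ≤ (∑ j ∈ Finset.Ico (jL h) (jT h lam n), (PI DI).real (FailJ κ σ lam h η M n j)) +
        h ^ (1 / 100 : ℝ) / (n : ℝ) ^ (2 / 3 : ℝ) :=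
        add_le_add (measureReal_biUnion_finset_le _ _) hlw
    _ ≤ (∑ j ∈ Finset.Ico (jL h) (jT h lam n), 4 * lam ^ 29 * th h j / (n : ℝ) ^ (2 / 3 : ℝ)) +
        h ^ (1 / 100 : ℝ) / (n : ℝ) ^ (2 / 3 : ℝ) := by
        gcongr with j hj
        exact hwin j (Finset.mem_Ico.1 hj).1 (Finset.mem_Ico.1 hj).2
    _ = (4 * lam ^ 29 * (∑ j ∈ Finset.Ico (jL h) (jT h lam n), th h j) +
        h ^ (1 / 100 : ℝ)) / (n : ℝ) ^ (2 / 3 : ℝ) := by
        rw [← Finset.sum_div, ← Finset.mul_sum]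
        ring
    _ ≤ (4 * lam ^ 29 * (30 * θ) + h ^ (1 / 100 : ℝ)) / (n : ℝ) ^ (2 / 3 : ℝ) := by gcongr
    _ ≤ (lam ^ 31 * θ + h ^ (1 / 100 : ℝ)) / (n : ℝ) ^ (2 / 3 : ℝ) := by
        have h1 : 120 ≤ lam ^ 2 := by nlinarith
        have h2 : 4 * lam ^ 29 * (30 * θ) ≤ lam ^ 31 * θ := by
          calc 4 * lam ^ 29 * (30 * θ) = 120 * (lam ^ 29 * θ) := by ring
            _ ≤ lam ^ 2 * (lam ^ 29 * θ) := by gcongr
            _ = lam ^ 31 * θ := by ring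
        gcongr

end BGE
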