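import Pool.Agent.BGE.ZDefs
import Pool.Agent.BGE.Dyn
import Pool.Agent.BGE.Unique

/-!
BGE / Z3. The continuous time dynamics sampled at the times `s, s + η, ..., s + M η` has the law of
the discrete dynamics with mesh `η`.

Proof. Both sides are images of i.i.d. families indexed by the sites, so it suffices to treat one
site (`dyn_curry`). One site: noise `y : ℕ × Bool → ℝ`, i.i.d. exponential; `clY y t` is the weight at
the time `t`, `clF s y` the vector of the weights at the times `s + i η`, `i ≤ M`.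
Decomposition of the noise after the first ring: `cl_lint`.
* `cl_good`: almost surely there are infinitely many rings, in the sense that the ring times tend to
  infinity: the probability `g t` that all ring times are `≤ t` satisfies
  `g t ≤ ∫_{e ≤ t} g (t - e)`, and `cl_contr` (contraction) gives `g = 0`.
* `cl_A`: the law of `clF s` does not depend on `s ≥ 0`: the renewal equation
  `H s = ∫_{e ≤ s} H (s - e) + e^{-s} H 0` and `cl_contr` for `H s - H 0`.
* `cl_B`, `cl_C`: the laws of `clF` and of the discrete dynamics with `M + 2` times satisfy the same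
  recursion: with probability `e^{-η}` the first value is repeated, otherwise the first value is
  independent of the rest.
-/

namespace BGE

open MeasureTheory ProbabilityTheory
open scoped ENNReal

/-- number of rings of one clock -/
private noncomputable def clC (y : ℕ × Bool → ℝ) (t : ℝ) : ℕ :=
  sInf {n : ℕ | t < ∑ i ∈ Finset.range (n + 1), y (i, false)}

/-- the weight at the time `t` -/
private noncomputable def clY (y : ℕ × Bool → ℝ) (t : ℝ) : ℝ := y (clC y t, true)

/-- the noise with first ring time `e`, initial weight `a`, then the noise `y` -/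
private def clcn (e a : ℝ) (y : ℕ × Bool → ℝ) : ℕ × Bool → ℝ := fun p => match p with
  | (0, false) => e
  | (0, true) => a
  | (k + 1, b) => y (k, b)

private theorem clcn_meas :
    Measurable (fun z : (ℝ × ℝ) × (ℕ × Bool → ℝ) => clcn z.1.1 z.1.2 z.2) := by
  refine measurable_pi_iff.2 fun p => ?_
  match p with
  | (0, false) => exact measurable_fst.comp measurable_fst
  | (0, true) => exact measurable_snd.comp measurable_fst
  | (k + 1, b) => exact (measurable_pi_apply (k, b)).comp measurable_snd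

private theorem clcn_law :
    Measure.map (fun z : (ℝ × ℝ) × (ℕ × Bool → ℝ) => clcn z.1.1 z.1.2 z.2)
      ((E1.prod E1).prod (PI (ℕ × Bool))) = PI (ℕ × Bool) := by
  set e : Bool ⊕ (ℕ × Bool) → ℕ × Bool := fun k => match k with
    | .inl b => (0, b)
    | .inr (k, b) => (k + 1, b) with he
  have hinj : Function.Injective e := by
    rintro (a | ⟨k, a⟩) (b | ⟨l, b⟩) h <;> simp_all
  have h1 : Measure.map (fun (y : ℕ × Bool → ℝ) i => y (e i)) (PI (ℕ × Bool)) =
      PI (Bool ⊕ (ℕ × Bool)) :=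
    Measure.map_infinitePi_infinitePi_of_inj (P := fun _ : ℕ × Bool => E1) hinj
  have h2 := dyn_sum Bool (ℕ × Bool)
  have h3 : Measure.map (fun w : Bool → ℝ => (w false, w true)) (PI Bool) = E1.prod E1 :=
    Measure.infinitePi_map_eval_prod (P := fun _ : Bool => E1) (by simp)
  have hm1 : Measurable (fun (y : ℕ × Bool → ℝ) i => y (e i)) :=
    measurable_pi_iff.2 fun i => measurable_pi_apply _
  have hm2 : Measurable (fun x : Bool ⊕ (ℕ × Bool) → ℝ => ((fun i => x (.inl i),
      fun k => x (.inr k)) : (Bool → ℝ) × (ℕ × Bool → ℝ))) :=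
    (measurable_pi_iff.2 fun i => measurable_pi_apply _).prodMk
      (measurable_pi_iff.2 fun i => measurable_pi_apply _)
  have hm3 : Measurable (fun w : Bool → ℝ => (w false, w true)) := by fun_prop
  have h4 : (E1.prod E1).prod (PI (ℕ × Bool)) =
      Measure.map (Prod.map (fun w : Bool → ℝ => (w false, w true))
        (id : (ℕ × Bool → ℝ) → (ℕ × Bool → ℝ))) ((PI Bool).prod (PI (ℕ × Bool))) := by
    have := Measure.map_prod_map (PI Bool) (PI (ℕ × Bool)) hm3
      (measurable_id (α := ℕ × Bool → ℝ))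
    rw [h3, Measure.map_id] at this
    exact this
  rw [h4, ← h2, ← h1, Measure.map_map hm2 hm1,
    Measure.map_map (hm3.prodMap measurable_id) (hm2.comp hm1),
    Measure.map_map clcn_meas ((hm3.prodMap measurable_id).comp (hm2.comp hm1))]
  have h5 : ((fun z : (ℝ × ℝ) × (ℕ × Bool → ℝ) => clcn z.1.1 z.1.2 z.2) ∘
      (Prod.map (fun w : Bool → ℝ => (w false, w true))
        (id : (ℕ × Bool → ℝ) → (ℕ × Bool → ℝ))) ∘
      (fun x : Bool ⊕ (ℕ × Bool) → ℝ => ((fun i => x (.inl i),
      fun k => x (.inr k)) : (Bool → ℝ) × (ℕ × Bool → ℝ))) ∘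
      (fun (y : ℕ × Bool → ℝ) i => y (e i))) = id := by
    funext y p
    match p with
    | (0, false) => rfl
    | (0, true) => rfl
    | (k + 1, b) => rfl
  rw [h5, Measure.map_id]

private theorem cl_lint {φ : (ℕ × Bool → ℝ) → ℝ≥0∞} (hφ : Measurable φ) :
    ∫⁻ y, φ y ∂(PI (ℕ × Bool)) =
      ∫⁻ e, ∫⁻ a, ∫⁻ y, φ (clcn e a y) ∂(PI (ℕ × Bool)) ∂E1 ∂E1 := by
  have h1 : Measurable (fun z : (ℝ × ℝ) × (ℕ × Bool → ℝ) => φ (clcn z.1.1 z.1.2 z.2)) :=
    hφ.comp clcn_meas
  calc ∫⁻ y, φ y ∂(PI (ℕ × Bool)) = ∫⁻ y, φ y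
        ∂(Measure.map (fun z : (ℝ × ℝ) × (ℕ × Bool → ℝ) => clcn z.1.1 z.1.2 z.2)
      ((E1.prod E1).prod (PI (ℕ × Bool)))) := by rw [clcn_law]
    _ = ∫⁻ z, φ (clcn z.1.1 z.1.2 z.2) ∂((E1.prod E1).prod (PI (ℕ × Bool))) :=
        lintegral_map hφ clcn_meas
    _ = ∫⁻ w, ∫⁻ y, φ (clcn w.1 w.2 y) ∂(PI (ℕ × Bool)) ∂(E1.prod E1) :=
        lintegral_prod _ h1.aemeasurable
    _ = _ := lintegral_prod _ h1.lintegral_prod_right'.aemeasurable

/-! ### the process of one site -/

private theorem cl_sum (e a : ℝ) (y : ℕ × Bool → ℝ) (n : ℕ) :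
    ∑ i ∈ Finset.range (n + 1), clcn e a y (i, false) =
      e + ∑ i ∈ Finset.range n, y (i, false) := by
  rw [Finset.sum_range_succ', add_comm]
  rfl

private theorem clC_zero {e a t : ℝ} {y : ℕ × Bool → ℝ} (h : t < e) :
    clC (clcn e a y) t = 0 := by
  unfold clC
  refine Nat.sInf_eq_zero.2 (Or.inl ?_)
  change t < _
  rw [cl_sum, Finset.sum_range_zero, add_zero]
  exact h

private theorem clY_zero {e a t : ℝ} {y : ℕ × Bool → ℝ} (h : t < e) :
    clY (clcn e a y) t = a := by
  unfold clY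
  rw [clC_zero h]
  rfl

private theorem clY_shift (e a s t : ℝ) (y : ℕ × Bool → ℝ) :
    clY (clcn e a y) (s + t) = clY (clcn (e - s) a y) t := by
  have h1 : clC (clcn e a y) (s + t) = clC (clcn (e - s) a y) t := by
    unfold clC
    congr 1
    ext n
    change s + t < _ ↔ t < _
    rw [cl_sum, cl_sum]
    constructor <;> intro h <;> linarith
  unfold clY
  rw [h1]
  generalize clC (clcn (e - s) a y) t = m
  cases m <;> rfl

private def clG (y : ℕ × Bool → ℝ) : Prop :=
  ∀ t : ℝ, ∃ n : ℕ, t < ∑ i ∈ Finset.range (n + 1), y (i, false)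

private theorem clY_ring {e a t : ℝ} {y : ℕ × Bool → ℝ} (hy : clG y) (h : e ≤ t) :
    clY (clcn e a y) t = clY y (t - e) := by
  have hne : {n : ℕ | t - e < ∑ i ∈ Finset.range (n + 1), y (i, false)}.Nonempty := hy (t - e)
  have hmem : ∀ n : ℕ, n + 1 ∈ {n : ℕ | t < ∑ i ∈ Finset.range (n + 1), clcn e a y (i, false)} ↔
      n ∈ {n : ℕ | t - e < ∑ i ∈ Finset.range (n + 1), y (i, false)} := by
    intro n
    change t < _ ↔ t - e < _
    rw [cl_sum]
    constructor <;> intro h <;> linarith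
  have hz : (0 : ℕ) ∉ {n : ℕ | t < ∑ i ∈ Finset.range (n + 1), clcn e a y (i, false)} := by
    intro h0
    have h0' : t < ∑ i ∈ Finset.range (0 + 1), clcn e a y (i, false) := h0
    rw [cl_sum, Finset.sum_range_zero, add_zero] at h0'
    linarith
  have hB := (hmem _).2 (Nat.sInf_mem hne)
  have hC := Nat.sInf_mem ⟨_, hB⟩
  have h1 : clC (clcn e a y) t = clC y (t - e) + 1 := by
    unfold clC
    refine le_antisymm (Nat.sInf_le hB) ?_
    obtain ⟨k, hk⟩ : ∃ k, sInf {n : ℕ | t < ∑ i ∈ Finset.range (n + 1), clcn e a y (i, false)} =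
        k + 1 := by
      refine ⟨sInf {n : ℕ | t < ∑ i ∈ Finset.range (n + 1), clcn e a y (i, false)} - 1, ?_⟩
      have : sInf {n : ℕ | t < ∑ i ∈ Finset.range (n + 1), clcn e a y (i, false)} ≠ 0 := by
        intro h0
        rw [h0] at hC
        exact hz hC
      omega
    rw [hk] at hC
    have h2 := Nat.sInf_le ((hmem k).1 hC)
    omega
  unfold clY
  rw [h1]
  rfl

private theorem clS_meas (t : ℝ) (n : ℕ) :
    MeasurableSet {y : ℕ × Bool → ℝ | t < ∑ i ∈ Finset.range (n + 1), y (i, false)} :=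
  measurableSet_lt measurable_const (Finset.measurable_sum _ fun _ _ => measurable_pi_apply _)

private theorem clC_meas (t : ℝ) : Measurable (fun y : ℕ × Bool → ℝ => clC y t) := by
  refine measurable_of_Iic fun k => ?_
  have he : (fun y : ℕ × Bool → ℝ => clC y t) ⁻¹' Set.Iic k =
      (⋃ n ∈ Finset.range (k + 1),
        {y : ℕ × Bool → ℝ | t < ∑ i ∈ Finset.range (n + 1), y (i, false)}) ∪
      ⋂ n : ℕ, {y : ℕ × Bool → ℝ | t < ∑ i ∈ Finset.range (n + 1), y (i, false)}ᶜ := by
    ext y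
    simp only [Set.mem_preimage, Set.mem_Iic, Set.mem_union, Set.mem_iUnion, Set.mem_iInter,
      Set.mem_compl_iff, Finset.mem_range]
    constructor
    · intro h
      by_cases hne : ∃ n : ℕ, t < ∑ i ∈ Finset.range (n + 1), y (i, false)
      · left
        exact ⟨clC y t, by omega, Nat.sInf_mem hne⟩
      · right
        intro n hn
        exact hne ⟨n, hn⟩
    · rintro (⟨n, hn, h⟩ | h)
      · have h2 : clC y t ≤ n := Nat.sInf_le h
        omega
      · have h2 : {n : ℕ | t < ∑ i ∈ Finset.range (n + 1), y (i, false)} = ∅ :=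
          Set.eq_empty_of_forall_notMem fun n hn => h n hn
        unfold clC
        rw [h2, Nat.sInf_empty]
        omega
  rw [he]
  refine MeasurableSet.union ?_ (MeasurableSet.iInter fun n => (clS_meas t n).compl)
  exact Finset.measurableSet_biUnion _ fun n _ => clS_meas t n

private theorem clY_meas (t : ℝ) : Measurable (fun y : ℕ × Bool → ℝ => clY y t) := by
  have h : Measurable (fun z : ℕ × (ℕ × Bool → ℝ) => z.2 (z.1, true)) :=
    measurable_from_prod_countable_right fun n => measurable_pi_apply (n, true)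
  exact h.comp ((clC_meas t).prodMk measurable_id)

/-! ### contraction -/

private theorem cl_Iic (t : ℝ) : E1 (Set.Iic t) = E1 (Set.Iio t) := by
  have : NullSingletonClass E1 := ⟨uq_E1_singleton⟩
  exact measure_congr Iio_ae_eq_Iic.symm

private theorem cl_Ioi (t : ℝ) : E1 (Set.Ioi t) = E1 (Set.Ici t) := by
  have : NullSingletonClass E1 := ⟨uq_E1_singleton⟩
  exact measure_congr Ioi_ae_eq_Ici

private theorem cl_contr {g : ℝ → ℝ≥0∞} (h1 : ∀ t, g t ≤ 1)
    (h : ∀ t, 0 ≤ t → g t ≤ ∫⁻ e in Set.Iic t, g (t - e) ∂E1) (T : ℝ) (hT : 0 ≤ T) :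
    g T = 0 := by
  set D : ℝ≥0∞ := ⨆ t ∈ Set.Icc (0 : ℝ) T, g t with hD
  have hD1 : D ≤ 1 := iSup₂_le fun t _ => h1 t
  have hρ1 : E1 (Set.Iio (T + 1)) < 1 := by
    rw [dyn_Iio (by linarith), ← ENNReal.ofReal_one]
    refine (ENNReal.ofReal_lt_ofReal_iff one_pos).2 ?_
    have := Real.exp_pos (-(T + 1))
    linarith
  have hDρ : D ≤ D * E1 (Set.Iio (T + 1)) := by
    refine iSup₂_le fun t ht => ?_
    have hae : Set.Iic t =ᵐ[E1] Set.Icc 0 t := by
      rw [ae_eq_set]
      constructor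
      · refine measure_mono_null ?_ uq_E1_Iio_zero
        rintro x ⟨hx1, hx2⟩
        rw [Set.mem_Icc, not_and_or] at hx2
        rcases hx2 with hx2 | hx2
        · exact not_le.1 hx2
        · exact absurd hx1 hx2
      · rw [Set.sdiff_eq_empty.2 fun x hx => hx.2]
        exact measure_empty
    calc g t ≤ ∫⁻ e in Set.Iic t, g (t - e) ∂E1 := h t ht.1
      _ = ∫⁻ e in Set.Icc 0 t, g (t - e) ∂E1 := setLIntegral_congr hae
      _ ≤ ∫⁻ e in Set.Icc 0 t, D ∂E1 := by
          refine setLIntegral_mono' measurableSet_Icc fun e he => ?_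
          have hmem : t - e ∈ Set.Icc (0 : ℝ) T := ⟨by linarith [he.2], by linarith [he.1, ht.2]⟩
          exact le_iSup₂_of_le (t - e) hmem le_rfl
      _ = D * E1 (Set.Icc 0 t) := setLIntegral_const _ _
      _ ≤ D * E1 (Set.Iio (T + 1)) := by
          gcongr
          intro x hx
          exact lt_of_le_of_lt (hx.2.trans ht.2) (by linarith)
  have hD0 : D = 0 := by
    by_contra hne
    have h2 : D * E1 (Set.Iio (T + 1)) < D * 1 :=
      (ENNReal.mul_lt_mul_iff_right hne (ne_top_of_le_ne_top ENNReal.one_ne_top hD1)).2 hρ1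
    rw [mul_one] at h2
    exact absurd hDρ (not_le.2 h2)
  have h3 : g T ≤ D := le_iSup₂_of_le T ⟨hT, le_rfl⟩ le_rfl
  rw [hD0] at h3
  exact le_antisymm h3 (zero_le)

private theorem cl_good : ∀ᵐ y ∂(PI (ℕ × Bool)), clG y := by
  set S : ℝ → Set (ℕ × Bool → ℝ) := fun t =>
    {y | ∀ n : ℕ, ∑ i ∈ Finset.range (n + 1), y (i, false) ≤ t} with hS
  have hSm : ∀ t, MeasurableSet (S t) := by
    intro t
    have : S t = ⋂ n : ℕ, {y : ℕ × Bool → ℝ | t < ∑ i ∈ Finset.range (n + 1), y (i, false)}ᶜ := by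
      ext y
      simp only [Set.mem_iInter, Set.mem_compl_iff]
      exact forall_congr' fun n => not_lt.symm
    rw [this]
    exact MeasurableSet.iInter fun n => (clS_meas t n).compl
  have key : ∀ T : ℝ, 0 ≤ T → PI (ℕ × Bool) (S T) = 0 := by
    refine cl_contr (g := fun t => PI (ℕ × Bool) (S t)) (fun t => prob_le_one) fun t ht => ?_
    have hφ : Measurable ((S t).indicator (1 : (ℕ × Bool → ℝ) → ℝ≥0∞)) :=
      measurable_one.indicator (hSm t)
    have e1 : PI (ℕ × Bool) (S t) = ∫⁻ y, (S t).indicator 1 y ∂(PI (ℕ × Bool)) :=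
      (lintegral_indicator_one (hSm t)).symm
    change PI (ℕ × Bool) (S t) ≤ ∫⁻ e in Set.Iic t, PI (ℕ × Bool) (S (t - e)) ∂E1
    rw [e1, cl_lint hφ, ← lintegral_add_compl _ (measurableSet_Iic (a := t))]
    have e2 : ∫⁻ e in (Set.Iic t)ᶜ, ∫⁻ a, ∫⁻ y, (S t).indicator (1 : (ℕ × Bool → ℝ) → ℝ≥0∞)
        (clcn e a y) ∂(PI (ℕ × Bool)) ∂E1 ∂E1 = 0 := by
      rw [setLIntegral_congr_fun (g := fun _ => (0 : ℝ≥0∞)) measurableSet_Iic.compl]
      · simp
      · intro e he
        have he' : t < e := not_le.1 he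
        have : ∀ (a : ℝ) (y : ℕ × Bool → ℝ),
            (S t).indicator (1 : (ℕ × Bool → ℝ) → ℝ≥0∞) (clcn e a y) = 0 := by
          intro a y
          refine Set.indicator_of_notMem ?_ _
          intro hmem
          have h0 := hmem 0
          rw [cl_sum, Finset.sum_range_zero, add_zero] at h0
          linarith
        simp only [this, lintegral_zero]
    rw [e2, add_zero]
    refine setLIntegral_mono' measurableSet_Iic fun e he => ?_
    have he' : e ≤ t := he
    calc ∫⁻ a, ∫⁻ y, (S t).indicator (1 : (ℕ × Bool → ℝ) → ℝ≥0∞)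
            (clcn e a y) ∂(PI (ℕ × Bool)) ∂E1
        ≤ ∫⁻ _a, ∫⁻ y, (S (t - e)).indicator (1 : (ℕ × Bool → ℝ) → ℝ≥0∞) y
          ∂(PI (ℕ × Bool)) ∂E1 := by
          refine lintegral_mono fun a => lintegral_mono fun y => ?_
          by_cases hmem : clcn e a y ∈ S t
          · have h2 : y ∈ S (t - e) := by
              intro n
              have h3 := hmem (n + 1)
              rw [cl_sum] at h3
              linarith
            rw [Set.indicator_of_mem h2, Set.indicator_of_mem hmem]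
            exact le_rfl
          · rw [Set.indicator_of_notMem hmem]
            exact zero_le
      _ = PI (ℕ × Bool) (S (t - e)) := by
          rw [lintegral_const, measure_univ, mul_one, lintegral_indicator_one (hSm _)]
  have h2 : ∀ᵐ y ∂(PI (ℕ × Bool)), ∀ T : ℕ, y ∉ S (T : ℝ) := by
    rw [ae_all_iff]
    intro T
    rw [ae_iff]
    simp only [not_not]
    exact key T (Nat.cast_nonneg T)
  filter_upwards [h2] with y hy t
  obtain ⟨T, hT⟩ := exists_nat_ge t
  by_contra hcon
  push Not at hcon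
  exact hy T fun n => (hcon n).trans hT

/-! ### renewal -/

private noncomputable def clF (η : ℝ) (M : ℕ) (s : ℝ) (y : ℕ × Bool → ℝ) : Fin (M + 1) → ℝ :=
  fun i => clY y (s + (i : ℕ) * η)

private theorem clF_meas (η : ℝ) (M : ℕ) (s : ℝ) : Measurable (clF η M s) :=
  measurable_pi_iff.2 fun _ => clY_meas _

private theorem cl_mem {s : ℝ} (hs : 0 ≤ s) {K : ℝ → ℝ≥0∞} (hK : Measurable K) :
    ∫⁻ e in Set.Ioi s, K (e - s) ∂E1 = ENNReal.ofReal (Real.exp (-s)) * ∫⁻ e, K e ∂E1 := by
  have hm : Measurable (fun e : ℝ => e - s) := by fun_prop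
  have h1 : Measure.map (fun e => e - s) (E1.restrict (Set.Ioi s)) =
      ENNReal.ofReal (Real.exp (-s)) • E1 := by
    refine Measure.ext_of_Ici _ _ fun a => ?_
    rw [Measure.map_apply hm measurableSet_Ici, Measure.restrict_apply (hm measurableSet_Ici),
      Measure.smul_apply, smul_eq_mul]
    rcases le_or_gt a 0 with ha | ha
    · have e1 : (fun e => e - s) ⁻¹' Set.Ici a ∩ Set.Ioi s = Set.Ioi s := by
        ext x
        simp only [Set.mem_inter_iff, Set.mem_preimage, Set.mem_Ici, Set.mem_Ioi,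
          and_iff_right_iff_imp]
        intro h
        linarith
      have e2 : E1 (Set.Ici a) = 1 := by
        have h2 : E1 (Set.Iio a) = 0 :=
          measure_mono_null (Set.Iio_subset_Iio ha) uq_E1_Iio_zero
        have h3 : E1 (Set.Iio a) + E1 (Set.Ici a) = 1 := by
          rw [← Set.compl_Iio]
          exact prob_add_prob_compl measurableSet_Iio
        rwa [h2, zero_add] at h3
      rw [e1, e2, mul_one, cl_Ioi, dyn_Ici hs]
    · have e1 : (fun e => e - s) ⁻¹' Set.Ici a ∩ Set.Ioi s = Set.Ici (a + s) := by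
        ext x
        simp only [Set.mem_inter_iff, Set.mem_preimage, Set.mem_Ici, Set.mem_Ioi]
        constructor
        · rintro ⟨h, -⟩
          linarith
        · intro h
          exact ⟨by linarith, by linarith⟩
      rw [e1, dyn_Ici (by linarith), dyn_Ici ha.le, ← ENNReal.ofReal_mul (Real.exp_pos _).le,
        ← Real.exp_add]
      congr 2
      ring
  calc ∫⁻ e in Set.Ioi s, K (e - s) ∂E1
      = ∫⁻ e, K e ∂(Measure.map (fun e => e - s) (E1.restrict (Set.Ioi s))) :=
        (lintegral_map hK hm).symm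
    _ = ENNReal.ofReal (Real.exp (-s)) * ∫⁻ e, K e ∂E1 := by
        rw [h1, lintegral_smul_measure, smul_eq_mul]

private theorem cl_K {φ : (ℕ × Bool → ℝ) → ℝ≥0∞} (hφ : Measurable φ) :
    Measurable fun e : ℝ => ∫⁻ a, ∫⁻ y, φ (clcn e a y) ∂(PI (ℕ × Bool)) ∂E1 := by
  have h1 : Measurable (fun z : (ℝ × ℝ) × (ℕ × Bool → ℝ) => φ (clcn z.1.1 z.1.2 z.2)) :=
    hφ.comp clcn_meas
  exact h1.lintegral_prod_right'.lintegral_prod_right'

private theorem clF_ring {η : ℝ} (hη : 0 < η) (M : ℕ) {e a s : ℝ} {y : ℕ × Bool → ℝ} (hy : clG y)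
    (h : e ≤ s) : clF η M s (clcn e a y) = clF η M (s - e) y := by
  funext i
  unfold clF
  have h2 : (0 : ℝ) ≤ (i : ℕ) * η := by positivity
  rw [clY_ring hy (by linarith)]
  congr 1
  ring

private theorem clF_shift (η : ℝ) (M : ℕ) (e a s : ℝ) (y : ℕ × Bool → ℝ) :
    clF η M s (clcn e a y) = clF η M 0 (clcn (e - s) a y) := by
  funext i
  unfold clF
  rw [clY_shift, zero_add]

private theorem cl_renew {η : ℝ} (hη : 0 < η) (M : ℕ) {φ : (Fin (M + 1) → ℝ) → ℝ≥0∞}
    (hφ : Measurable φ) {s : ℝ} (hs : 0 ≤ s) :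
    ∫⁻ y, φ (clF η M s y) ∂(PI (ℕ × Bool)) =
      (∫⁻ e in Set.Iic s, (∫⁻ y, φ (clF η M (s - e) y) ∂(PI (ℕ × Bool))) ∂E1) +
        ENNReal.ofReal (Real.exp (-s)) * ∫⁻ y, φ (clF η M 0 y) ∂(PI (ℕ × Bool)) := by
  rw [cl_lint (φ := fun y => φ (clF η M s y)) (hφ.comp (clF_meas η M s)),
    cl_lint (φ := fun y => φ (clF η M 0 y)) (hφ.comp (clF_meas η M 0)),
    ← lintegral_add_compl _ (measurableSet_Iic (a := s)), Set.compl_Iic]
  congr 1
  · refine setLIntegral_congr_fun measurableSet_Iic fun e he => ?_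
    have h1 : ∀ a : ℝ, ∫⁻ y, φ (clF η M s (clcn e a y)) ∂(PI (ℕ × Bool)) =
        ∫⁻ y, φ (clF η M (s - e) y) ∂(PI (ℕ × Bool)) := by
      intro a
      refine lintegral_congr_ae ?_
      filter_upwards [cl_good] with y hy
      rw [clF_ring hη M hy he]
    simp only [h1]
    rw [lintegral_const, measure_univ, mul_one]
  · rw [← cl_mem hs (cl_K (φ := fun y => φ (clF η M 0 y)) (hφ.comp (clF_meas η M 0)))]
    refine setLIntegral_congr_fun measurableSet_Ioi fun e _ => ?_
    simp only [clF_shift η M e _ s]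

private theorem cl_A {η : ℝ} (hη : 0 < η) (M : ℕ) {s : ℝ} (hs : 0 ≤ s) :
    Measure.map (clF η M s) (PI (ℕ × Bool)) = Measure.map (clF η M 0) (PI (ℕ × Bool)) := by
  have : IsProbabilityMeasure (Measure.map (clF η M s) (PI (ℕ × Bool))) :=
    Measure.isProbabilityMeasure_map (clF_meas η M s).aemeasurable
  have : IsProbabilityMeasure (Measure.map (clF η M 0) (PI (ℕ × Bool))) :=
    Measure.isProbabilityMeasure_map (clF_meas η M 0).aemeasurable
  refine Measure.eq_of_le_of_isProbabilityMeasure (Measure.le_iff.2 fun B hB => ?_)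
  rw [Measure.map_apply (clF_meas η M s) hB, Measure.map_apply (clF_meas η M 0) hB]
  set H : ℝ → ℝ≥0∞ := fun s => PI (ℕ × Bool) (clF η M s ⁻¹' B) with hH
  have hHi : ∀ s, H s = ∫⁻ y, B.indicator (1 : (Fin (M + 1) → ℝ) → ℝ≥0∞) (clF η M s y)
      ∂(PI (ℕ × Bool)) := by
    intro s
    have e1 : ∀ y : ℕ × Bool → ℝ, B.indicator (1 : (Fin (M + 1) → ℝ) → ℝ≥0∞) (clF η M s y) =
        (clF η M s ⁻¹' B).indicator 1 y := fun y => rfl
    simp only [e1]
    exact (lintegral_indicator_one (clF_meas η M s hB)).symm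
  have hren : ∀ s, 0 ≤ s → H s = (∫⁻ e in Set.Iic s, H (s - e) ∂E1) +
      ENNReal.ofReal (Real.exp (-s)) * H 0 := by
    intro s hs
    have h1 := cl_renew hη M (measurable_one.indicator hB) hs
    simp only [← hHi] at h1
    exact h1
  have hg : ∀ s, 0 ≤ s → H s - H 0 = 0 := by
    refine cl_contr (g := fun s => H s - H 0) (fun t => tsub_le_self.trans prob_le_one)
      fun t ht => ?_
    rw [tsub_le_iff_left, hren t ht]
    have h1 : ∫⁻ e in Set.Iic t, H (t - e) ∂E1 ≤
        H 0 * E1 (Set.Iic t) + ∫⁻ e in Set.Iic t, (H (t - e) - H 0) ∂E1 := by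
      rw [← setLIntegral_const, ← lintegral_add_left measurable_const]
      exact lintegral_mono fun e => le_add_tsub
    have h2 : E1 (Set.Iic t) + ENNReal.ofReal (Real.exp (-t)) = 1 := by
      rw [← dyn_Ici ht, cl_Iic, ← Set.compl_Iio]
      exact prob_add_prob_compl measurableSet_Iio
    calc (∫⁻ e in Set.Iic t, H (t - e) ∂E1) + ENNReal.ofReal (Real.exp (-t)) * H 0
        ≤ (H 0 * E1 (Set.Iic t) + ∫⁻ e in Set.Iic t, (H (t - e) - H 0) ∂E1) +
          ENNReal.ofReal (Real.exp (-t)) * H 0 := by gcongr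
      _ = H 0 * (E1 (Set.Iic t) + ENNReal.ofReal (Real.exp (-t))) +
          ∫⁻ e in Set.Iic t, (H (t - e) - H 0) ∂E1 := by ring
      _ = H 0 + ∫⁻ e in Set.Iic t, (H (t - e) - H 0) ∂E1 := by rw [h2, mul_one]
  exact tsub_eq_zero_iff_le.1 (hg s hs)

private theorem cl_A' {η : ℝ} (hη : 0 < η) (M : ℕ) {s : ℝ} (hs : 0 ≤ s)
    {φ : (Fin (M + 1) → ℝ) → ℝ≥0∞} (hφ : Measurable φ) :
    ∫⁻ y, φ (clF η M s y) ∂(PI (ℕ × Bool)) = ∫⁻ y, φ (clF η M 0 y) ∂(PI (ℕ × Bool)) := by
  rw [← lintegral_map hφ (clF_meas η M s), cl_A hη M hs, lintegral_map hφ (clF_meas η M 0)]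

/-! ### the two recursions -/

/-- prepend a value -/
private def clK {M : ℕ} (a : ℝ) (w : Fin (M + 1) → ℝ) : Fin (M + 1 + 1) → ℝ :=
  Fin.cons (α := fun _ => ℝ) a w

private theorem clK_meas {M : ℕ} :
    Measurable (fun z : ℝ × (Fin (M + 1) → ℝ) => clK z.1 z.2) := by
  refine measurable_pi_iff.2 fun i => ?_
  refine Fin.cases ?_ (fun i => ?_) i
  · exact measurable_fst
  · exact (measurable_pi_apply i).comp measurable_snd

private theorem clK_meas1 {M : ℕ} (a : ℝ) : Measurable (fun w : Fin (M + 1) → ℝ => clK a w) := by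
  have h : Measurable (fun w : Fin (M + 1) → ℝ => (a, w)) :=
    measurable_const.prodMk measurable_id
  exact clK_meas.comp h

private theorem clK_meas2 {M : ℕ} : Measurable (fun w : Fin (M + 1) → ℝ => clK (w 0) w) := by
  have h : Measurable (fun w : Fin (M + 1) → ℝ => (w 0, w)) :=
    (measurable_pi_apply 0).prodMk measurable_id
  exact clK_meas.comp h

private theorem cl_B {η : ℝ} (hη : 0 < η) (M : ℕ) {φ : (Fin (M + 1 + 1) → ℝ) → ℝ≥0∞}
    (hφ : Measurable φ) :
    ∫⁻ y, φ (clF η (M + 1) 0 y) ∂(PI (ℕ × Bool)) =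
      (∫⁻ a, ∫⁻ y, φ (clK a (clF η M 0 y)) ∂(PI (ℕ × Bool)) ∂E1) * E1 (Set.Iio η) +
        E1 (Set.Ici η) *
          ∫⁻ y, φ (clK (clF η M 0 y 0) (clF η M 0 y)) ∂(PI (ℕ × Bool)) := by
  have hm2 : Measurable fun y : ℕ × Bool → ℝ => φ (clK (clF η M 0 y 0) (clF η M 0 y)) :=
    hφ.comp (clK_meas2.comp (clF_meas η M 0))
  rw [cl_lint (φ := fun y => φ (clF η (M + 1) 0 y)) (hφ.comp (clF_meas η (M + 1) 0)),
    cl_lint hm2,
    ← lintegral_add_compl _ (measurableSet_Iic (a := η)), Set.compl_Iic]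
  congr 1
  · rw [← cl_Iic, ← setLIntegral_const]
    have hpos : ∀ᵐ e ∂(E1.restrict (Set.Iic η)), 0 < e := by
      refine ae_restrict_of_ae ?_
      rw [ae_iff]
      have : {a : ℝ | ¬ 0 < a} = Set.Iic 0 := by
        ext t
        exact not_lt
      rw [this, cl_Iic]
      exact uq_E1_Iio_zero
    have hle : ∀ᵐ e ∂(E1.restrict (Set.Iic η)), e ≤ η := ae_restrict_mem measurableSet_Iic
    refine lintegral_congr_ae ?_
    filter_upwards [hpos, hle] with e he0 he1
    refine lintegral_congr fun a => ?_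
    have h1 : ∫⁻ y, φ (clK a (clF η M 0 y)) ∂(PI (ℕ × Bool)) =
        ∫⁻ y, φ (clK a (clF η M (η - e) y)) ∂(PI (ℕ × Bool)) :=
      (cl_A' hη M (sub_nonneg.2 he1) (hφ.comp (clK_meas1 a))).symm
    rw [h1]
    refine lintegral_congr_ae ?_
    filter_upwards [cl_good] with y hy
    congr 1
    funext i
    refine Fin.cases ?_ (fun i => ?_) i
    · change clY (clcn e a y) (0 + ((0 : ℕ) : ℝ) * η) = a
      rw [Nat.cast_zero, zero_mul, add_zero, clY_zero he0]
    · change clY (clcn e a y) (0 + (((i : ℕ) + 1 : ℕ) : ℝ) * η) = clY y (η - e + (i : ℕ) * η)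
      have h2 : (0 : ℝ) ≤ (i : ℕ) * η := by positivity
      rw [clY_ring hy (by push_cast; linarith)]
      congr 1
      push_cast
      ring
  · rw [dyn_Ici hη.le, ← cl_mem hη.le (cl_K hm2)]
    refine setLIntegral_congr_fun measurableSet_Ioi fun e he => ?_
    have he' : η < e := he
    refine lintegral_congr fun a => lintegral_congr fun y => ?_
    have h0 : clF η M 0 (clcn (e - η) a y) 0 = a := by
      change clY (clcn (e - η) a y) (0 + ((0 : ℕ) : ℝ) * η) = a
      rw [Nat.cast_zero, zero_mul, add_zero, clY_zero (by linarith)]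
    rw [h0]
    congr 1
    funext i
    refine Fin.cases ?_ (fun i => ?_) i
    · change clY (clcn e a y) (0 + ((0 : ℕ) : ℝ) * η) = a
      rw [Nat.cast_zero, zero_mul, add_zero, clY_zero (by linarith)]
    · change clY (clcn e a y) (0 + (((i : ℕ) + 1 : ℕ) : ℝ) * η) =
        clY (clcn (e - η) a y) (0 + (i : ℕ) * η)
      rw [← clY_shift]
      congr 1
      push_cast
      ring

/-- the discrete dynamics at one site -/
private noncomputable def clD (η : ℝ) (M : ℕ) (y : ℕ × Bool → ℝ) : Fin (M + 1) → ℝ :=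
  fun i => dyn1 η y (i : ℕ)

private theorem clD_meas (η : ℝ) (M : ℕ) : Measurable (clD η M) :=
  measurable_pi_iff.2 fun _ => dyn1_meas η _

private theorem clD_first (η u v a : ℝ) (y : ℕ × Bool → ℝ) (i : ℕ) :
    dyn1 η (clcn u a y) i = dyn1 η (clcn v a y) i := by
  induction i with
  | zero => rfl
  | succ i ih =>
    simp only [dyn1]
    rw [ih]
    rfl

private theorem clD_step (η b a u x : ℝ) (y : ℕ × Bool → ℝ) (i : ℕ) :
    dyn1 η (clcn b a (clcn u x y)) (i + 1) =
      if u < η then dyn1 η (clcn 0 x y) i else dyn1 η (clcn 0 a y) i := by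
  induction i with
  | zero => rfl
  | succ i ih =>
    rw [dyn1, ih]
    change (if y (i, false) < η then y (i, true) else _) = _
    have h1 : dyn1 η (clcn 0 x y) (i + 1) =
        if y (i, false) < η then y (i, true) else dyn1 η (clcn 0 x y) i := rfl
    have h2 : dyn1 η (clcn 0 a y) (i + 1) =
        if y (i, false) < η then y (i, true) else dyn1 η (clcn 0 a y) i := rfl
    rw [h1, h2]
    split_ifs <;> rfl

private theorem cl_C (η : ℝ) (M : ℕ) {φ : (Fin (M + 1 + 1) → ℝ) → ℝ≥0∞}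
    (hφ : Measurable φ) :
    ∫⁻ y, φ (clD η (M + 1) y) ∂(PI (ℕ × Bool)) =
      (∫⁻ a, ∫⁻ y, φ (clK a (clD η M y)) ∂(PI (ℕ × Bool)) ∂E1) * E1 (Set.Iio η) +
        E1 (Set.Ici η) * ∫⁻ y, φ (clK (clD η M y 0) (clD η M y)) ∂(PI (ℕ × Bool)) := by
  have hm : Measurable fun y : ℕ × Bool → ℝ => φ (clD η (M + 1) y) := hφ.comp (clD_meas η (M + 1))
  have hcm : ∀ b a : ℝ, Measurable (fun y : ℕ × Bool → ℝ => clcn b a y) := by
    intro b a
    have h : Measurable (fun y : ℕ × Bool → ℝ => (((b, a) : ℝ × ℝ), y)) :=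
      measurable_const.prodMk measurable_id
    exact clcn_meas.comp h
  -- the two parts
  set P : ℝ → ℝ≥0∞ := fun a => ∫⁻ y, φ (clK a (clD η M y)) ∂(PI (ℕ × Bool)) with hP
  set R : ℝ → ℝ≥0∞ := fun a => ∫⁻ y, φ (clK a (clD η M (clcn 0 a y))) ∂(PI (ℕ × Bool)) with hR
  have hPm : Measurable P := by
    have h1 : Measurable (fun z : ℝ × (ℕ × Bool → ℝ) => φ (clK z.1 (clD η M z.2))) :=
      hφ.comp (clK_meas.comp (measurable_fst.prodMk ((clD_meas η M).comp measurable_snd)))
    exact h1.lintegral_prod_right'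
  -- the inner integral for fixed initial noise
  have hin : ∀ b a : ℝ, ∫⁻ y, φ (clD η (M + 1) (clcn b a y)) ∂(PI (ℕ × Bool)) =
      P a * E1 (Set.Iio η) + R a * E1 (Set.Ici η) := by
    intro b a
    rw [cl_lint (φ := fun y => φ (clD η (M + 1) (clcn b a y))) (hm.comp (hcm b a)), ← lintegral_add_compl _ (measurableSet_Iio (a := η)),
      Set.compl_Iio]
    have hval : ∀ u x : ℝ, ∀ y : ℕ × Bool → ℝ, clD η (M + 1) (clcn b a (clcn u x y)) =
        clK a (if u < η then clD η M (clcn 0 x y) else clD η M (clcn 0 a y)) := by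
      intro u x y
      funext i
      refine Fin.cases ?_ (fun i => ?_) i
      · rfl
      · change dyn1 η (clcn b a (clcn u x y)) ((i : ℕ) + 1) =
          (if u < η then clD η M (clcn 0 x y) else clD η M (clcn 0 a y)) i
        rw [clD_step]
        split_ifs <;> rfl
    congr 1
    · -- ring
      have hPa : P a = ∫⁻ x, ∫⁻ y, φ (clK a (clD η M (clcn 0 x y))) ∂(PI (ℕ × Bool)) ∂E1 := by
        have h2 : Measurable fun y : ℕ × Bool → ℝ => φ (clK a (clD η M y)) :=
          hφ.comp ((clK_meas1 a).comp (clD_meas η M))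
        change ∫⁻ y, φ (clK a (clD η M y)) ∂(PI (ℕ × Bool)) = _
        rw [cl_lint h2]
        have h3 : ∀ u : ℝ, ∫⁻ x, ∫⁻ y, φ (clK a (clD η M (clcn u x y))) ∂(PI (ℕ × Bool)) ∂E1 =
            ∫⁻ x, ∫⁻ y, φ (clK a (clD η M (clcn 0 x y))) ∂(PI (ℕ × Bool)) ∂E1 := by
          intro u
          refine lintegral_congr fun x => lintegral_congr fun y => ?_
          have : clD η M (clcn u x y) = clD η M (clcn 0 x y) := by
            funext i
            exact clD_first η u 0 x y _
          rw [this]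
        simp only [h3]
        rw [lintegral_const, measure_univ, mul_one]
      rw [hPa, ← setLIntegral_const]
      refine setLIntegral_congr_fun measurableSet_Iio fun u hu => ?_
      refine lintegral_congr fun x => lintegral_congr fun y => ?_
      have hu' : u < η := hu
      change φ (clD η (M + 1) (clcn b a (clcn u x y))) = _
      rw [hval, if_pos hu']
    · rw [← setLIntegral_const]
      refine setLIntegral_congr_fun measurableSet_Ici fun u hu => ?_
      have hu' : ¬ u < η := not_lt.2 hu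
      have h3 : ∀ x : ℝ, ∫⁻ y, φ (clD η (M + 1) (clcn b a (clcn u x y))) ∂(PI (ℕ × Bool)) =
          R a := by
        intro x
        refine lintegral_congr fun y => ?_
        rw [hval, if_neg hu']
      change ∫⁻ x, ∫⁻ y, φ (clD η (M + 1) (clcn b a (clcn u x y))) ∂(PI (ℕ × Bool)) ∂E1 = R a
      simp only [h3]
      rw [lintegral_const, measure_univ, mul_one]
  have hRint : ∫⁻ y, φ (clK (clD η M y 0) (clD η M y)) ∂(PI (ℕ × Bool)) = ∫⁻ a, R a ∂E1 := by
    have h2 : Measurable fun y : ℕ × Bool → ℝ => φ (clK (clD η M y 0) (clD η M y)) :=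
      hφ.comp (clK_meas2.comp (clD_meas η M))
    rw [cl_lint h2]
    have h3 : ∀ u : ℝ, ∫⁻ x, ∫⁻ y, φ (clK (clD η M (clcn u x y) 0) (clD η M (clcn u x y)))
        ∂(PI (ℕ × Bool)) ∂E1 = ∫⁻ a, R a ∂E1 := by
      intro u
      refine lintegral_congr fun x => lintegral_congr fun y => ?_
      have e1 : clD η M (clcn u x y) = clD η M (clcn 0 x y) := by
        funext i
        exact clD_first η u 0 x y _
      rw [e1]
      rfl
    simp only [h3]
    rw [lintegral_const, measure_univ, mul_one]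
  rw [cl_lint hm]
  simp only [hin]
  rw [lintegral_const, measure_univ, mul_one, lintegral_add_left (hPm.mul_const _),
    lintegral_mul_const' _ _ (measure_ne_top _ _), lintegral_mul_const' _ _ (measure_ne_top _ _),
    hRint, mul_comm (∫⁻ a, R a ∂E1)]

private theorem cl_main {η : ℝ} (hη : 0 < η) (M : ℕ) :
    ∀ φ : (Fin (M + 1) → ℝ) → ℝ≥0∞, Measurable φ →
      ∫⁻ y, φ (clF η M 0 y) ∂(PI (ℕ × Bool)) = ∫⁻ y, φ (clD η M y) ∂(PI (ℕ × Bool)) := by
  induction M with
  | zero =>
    intro φ hφ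
    rw [cl_lint (φ := fun y => φ (clF η 0 0 y)) (hφ.comp (clF_meas η 0 0)),
      cl_lint (φ := fun y => φ (clD η 0 y)) (hφ.comp (clD_meas η 0))]
    have hpos : ∀ᵐ e ∂E1, 0 < e := by
      rw [ae_iff]
      have : {a : ℝ | ¬ 0 < a} = Set.Iic 0 := by
        ext t
        exact not_lt
      rw [this, cl_Iic]
      exact uq_E1_Iio_zero
    refine lintegral_congr_ae ?_
    filter_upwards [hpos] with e he
    refine lintegral_congr fun a => lintegral_congr fun y => ?_
    congr 1
    funext i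
    have hi : (i : ℕ) = 0 := by omega
    unfold clF clD
    rw [hi, Nat.cast_zero, zero_mul, add_zero, clY_zero he]
    rfl
  | succ M ih =>
    intro φ hφ
    rw [cl_B hη M hφ, cl_C η M hφ]
    congr 1
    · congr 1
      refine lintegral_congr fun a => ?_
      exact ih (fun w => φ (clK a w)) (hφ.comp (clK_meas1 a))
    · congr 1
      exact ih (fun w => φ (clK (w 0) w)) (hφ.comp clK_meas2)

/-! ### all sites -/

theorem measurable_ct (t : ℝ) : Measurable (fun x : DI → ℝ => ct x t) := by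
  refine measurable_pi_iff.2 fun v => ?_
  have h : Measurable (fun (x : DI → ℝ) (p : ℕ × Bool) => x (v, p)) :=
    measurable_pi_iff.2 fun p => measurable_pi_apply (v, p)
  exact (clY_meas t).comp h

theorem ct_law {s η : ℝ} (hs : 0 ≤ s) (hη : 0 < η) (M : ℕ) :
    Measure.map (fun (x : DI → ℝ) (i : Fin (M + 1)) => ct x (s + (i : ℕ) * η)) (PI DI) =
      Measure.map (fun (x : DI → ℝ) (i : Fin (M + 1)) => dyn η x (i : ℕ)) (PI DI) := by
  have h1 : Measure.map (clF η M s) (PI (ℕ × Bool)) = Measure.map (clD η M) (PI (ℕ × Bool)) := by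
    rw [cl_A hη M hs]
    refine Measure.ext_of_lintegral _ fun φ hφ => ?_
    rw [lintegral_map hφ (clF_meas η M 0), lintegral_map hφ (clD_meas η M)]
    exact cl_main hη M φ hφ
  have h2 := dyn_curry (ι := ℤ × ℤ) (clF_meas η M s)
  have h3 := dyn_curry (ι := ℤ × ℤ) (clD_meas η M)
  rw [← h1] at h3
  have h4 := h2.trans h3.symm
  have hsw : Measurable (fun (w : ℤ × ℤ → Fin (M + 1) → ℝ) (i : Fin (M + 1)) (v : ℤ × ℤ) =>
      w v i) :=
    measurable_pi_iff.2 fun i => measurable_pi_iff.2 fun v =>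
      (measurable_pi_apply i).comp (measurable_pi_apply v)
  have hm1 : Measurable (fun (x : (ℤ × ℤ) × (ℕ × Bool) → ℝ) (v : ℤ × ℤ) =>
      clF η M s fun p => x (v, p)) := by
    refine measurable_pi_iff.2 fun v => (clF_meas η M s).comp ?_
    exact measurable_pi_iff.2 fun p => measurable_pi_apply (v, p)
  have hm2 : Measurable (fun (x : (ℤ × ℤ) × (ℕ × Bool) → ℝ) (v : ℤ × ℤ) =>
      clD η M fun p => x (v, p)) := by
    refine measurable_pi_iff.2 fun v => (clD_meas η M).comp ?_
    exact measurable_pi_iff.2 fun p => measurable_pi_apply (v, p)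
  have h5 := congrArg (Measure.map (fun (w : ℤ × ℤ → Fin (M + 1) → ℝ) (i : Fin (M + 1))
    (v : ℤ × ℤ) => w v i)) h4
  rw [Measure.map_map hsw hm1, Measure.map_map hsw hm2] at h5
  have e1 : (fun (x : DI → ℝ) (i : Fin (M + 1)) => ct x (s + (i : ℕ) * η)) =
      (fun (w : ℤ × ℤ → Fin (M + 1) → ℝ) (i : Fin (M + 1)) (v : ℤ × ℤ) => w v i) ∘
        (fun (x : (ℤ × ℤ) × (ℕ × Bool) → ℝ) (v : ℤ × ℤ) => clF η M s fun p => x (v, p)) := rfl
  have e2 : (fun (x : DI → ℝ) (i : Fin (M + 1)) => dyn η x (i : ℕ)) =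
      (fun (w : ℤ × ℤ → Fin (M + 1) → ℝ) (i : Fin (M + 1)) (v : ℤ × ℤ) => w v i) ∘
        (fun (x : (ℤ × ℤ) × (ℕ × Bool) → ℝ) (v : ℤ × ℤ) => clD η M fun p => x (v, p)) := by
    funext x i v
    exact dyn_eq η x i v
  rw [e1, e2]
  exact h5

end BGE
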