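import Pool.Agent.BGE.ZDefs
import Pool.Agent.BGE.Unique

/-!
BGE / Z5. Symmetries of the continuous time dynamics.

`trn φ x d = x (φ d.1, d.2)`. `ct (trn φ x) t v = ct x t (φ v)`; for an injective `φ` the map `trn φ`
preserves `PI DI` (re-indexing an i.i.d. family along an injective map). All the noise variables are
a.s. nonnegative, so `ct x t ≥ 0` for all `t`.
-/

namespace BGE

open MeasureTheory ProbabilityTheory

theorem ct_trn (φ : ℤ × ℤ → ℤ × ℤ) (x : DI → ℝ) (t : ℝ) :
    ct (trn φ x) t = fun v => ct x t (φ v) := rfl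

theorem mp_trn {φ : ℤ × ℤ → ℤ × ℤ} (hφ : Function.Injective φ) :
    MeasurePreserving (trn φ) (PI DI) (PI DI) := by
  have hf : Function.Injective (fun d : DI => ((φ d.1, d.2) : DI)) := by
    rintro ⟨a, b⟩ ⟨c, d⟩ h
    have h1 : φ a = φ c := congrArg Prod.fst h
    have h2 : b = d := congrArg Prod.snd h
    rw [hφ h1, h2]
  refine ⟨measurable_pi_iff.2 fun d => measurable_pi_apply _, ?_⟩
  unfold PI
  exact Measure.map_infinitePi_infinitePi_of_inj (P := fun _ : DI => E1) hf

theorem ae_ct_nonneg : ∀ᵐ x ∂(PI DI), ∀ (t : ℝ) (v : ℤ × ℤ), 0 ≤ ct x t v := by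
  filter_upwards [ae_nonneg' DI] with x hx t v
  exact hx _

/-- an almost sure property holds simultaneously for countably many symmetries -/
theorem ae_trn {P : (DI → ℝ) → Prop} (hP : ∀ᵐ x ∂(PI DI), P x) {ι : Type*} [Countable ι]
    (φ : ι → ℤ × ℤ → ℤ × ℤ) (hφ : ∀ i, Function.Injective (φ i)) :
    ∀ᵐ x ∂(PI DI), ∀ i, P (trn (φ i) x) :=
  ae_all_iff.2 fun i => (mp_trn (hφ i)).quasiMeasurePreserving.ae hP

end BGE
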