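import Mathlib

/-!
Project BGE (MP_ab3734_pr, exceptional times for bigeodesics), owner helper58.

All definitions: last passage times on the lattice, levels, boundary fields, zeroed environments,
i.i.d. exponential fields, random walks, the two-slope queues, the dynamics.
-/

namespace BGE

open MeasureTheory ProbabilityTheory

/-! ### Last passage times -/

/-- level of a site -/
def lev (u : ℤ × ℤ) : ℤ := u.1 + u.2

/-- last passage time from the site `u` to the site `u + (m, n)`, both end sites counted -/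
noncomputable def LP (ω : ℤ × ℤ → ℝ) (u : ℤ × ℤ) : ℕ → ℕ → ℝ
  | 0, 0 => ω u
  | m + 1, 0 => LP ω u m 0 + ω (u.1 + (m + 1), u.2)
  | 0, n + 1 => LP ω u 0 n + ω (u.1, u.2 + (n + 1))
  | m + 1, n + 1 => max (LP ω u m (n + 1)) (LP ω u (m + 1) n) + ω (u.1 + (m + 1), u.2 + (n + 1))

/-- last passage time from `u` to `v` (meaningful for `u ≤ v` in the product order) -/
noncomputable def T (ω : ℤ × ℤ → ℝ) (u v : ℤ × ℤ) : ℝ :=
  LP ω u (v.1 - u.1).toNat (v.2 - u.2).toNat

/-- the site `w` lies on a geodesic from `u` to `v` -/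
def Via (ω : ℤ × ℤ → ℝ) (u w v : ℤ × ℤ) : Prop :=
  u ≤ w ∧ w ≤ v ∧ T ω u v = T ω u w + T ω w v - ω w

/-- up-right paths, given by the first coordinate as a function of the level -/
def UR (x : ℤ → ℤ) (a b : ℤ) : Prop :=
  ∀ l, a ≤ l → l < b → x (l + 1) = x l ∨ x (l + 1) = x l + 1

/-- the site of the path `x` at level `l` -/
def pt (x : ℤ → ℤ) (l : ℤ) : ℤ × ℤ := (x l, l - x l)

/-- weight of the path `x` between the levels `a` and `b` (both included) -/
noncomputable def wt (ω : ℤ × ℤ → ℝ) (x : ℤ → ℤ) (a b : ℤ) : ℝ :=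
  ∑ l ∈ Finset.Icc a b, ω (pt x l)

open Classical in
/-- the environment with all weights outside `R` put to zero -/
noncomputable def res (R : Set (ℤ × ℤ)) (ω : ℤ × ℤ → ℝ) : ℤ × ℤ → ℝ :=
  fun v => if v ∈ R then ω v else 0

/-- the environment with boundary weights `S i` on the row of `c`, `W j` on the column of `c`,
zero at the corner `c`, and the bulk weights `ω` elsewhere -/
def bfield (ω : ℤ × ℤ → ℝ) (S W : ℕ → ℝ) (c : ℤ × ℤ) : ℤ × ℤ → ℝ := fun v =>
  if v.2 = c.2 then (if v.1 = c.1 then 0 else S (v.1 - c.1).toNat)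
  else if v.1 = c.1 then W (v.2 - c.2).toNat else ω v

/-! ### The shape function -/

/-- the shape function: the value of the last passage time to the displacement `(a, b)` -/
noncomputable def mu (a b : ℝ) : ℝ := a + b + 2 * √(a * b)

/-- the tangent functional of `mu` at the direction `(σ, 1 - σ)` -/
noncomputable def ell (σ a b : ℝ) : ℝ := a + b + √((1 - σ) / σ) * a + b / √((1 - σ) / σ)

/-- critical rate of a box with `m` columns and `n` rows -/
noncomputable def al (m n : ℝ) : ℝ := √m / (√m + √n)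

noncomputable def Ph (m n : ℝ) : ℝ := (√m + √n) ^ 4 / (√m * √n)

noncomputable def ff (m n ρ : ℝ) : ℝ := m / ρ + n / (1 - ρ)

/-! ### Laws -/

/-- the exponential law with rate one -/
noncomputable def E1 : Measure ℝ := expMeasure 1

instance : IsProbabilityMeasure E1 := isProbabilityMeasure_expMeasure one_pos

/-- the law of an i.i.d. family of exponential variables with rate one, indexed by `ι` -/
noncomputable def PI (ι : Type*) : Measure (ι → ℝ) := Measure.infinitePi (fun _ : ι => E1)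

instance (ι : Type*) : IsProbabilityMeasure (PI ι) := by unfold PI; infer_instance

/-- bulk weights, S weights, W weights; all of rate one -/
abbrev SW := (ℤ × ℤ → ℝ) × (ℕ → ℝ) × (ℕ → ℝ)

noncomputable def muSW : Measure SW := (PI (ℤ × ℤ)).prod ((PI ℕ).prod (PI ℕ))

instance : IsProbabilityMeasure muSW := by unfold muSW; infer_instance

/-- passage time with corner `0`, S weights of rate `a`, W weights of rate `b` -/
noncomputable def bl (a b : ℝ) (x : SW) (v : ℤ × ℤ) : ℝ :=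
  T (bfield x.1 (fun i => x.2.1 i / a) (fun j => x.2.2 j / b) 0) 0 v

/-- the environment seen from the corner `(0, w)` (stationary case `b = 1 - a`) -/
noncomputable def shiftSW (a : ℝ) (w : ℕ) (x : SW) : SW :=
  (fun v => x.1 (v.1, v.2 + w),
   fun i => a * (bl a (1 - a) x ((i : ℤ), (w : ℤ)) - bl a (1 - a) x ((i : ℤ) - 1, (w : ℤ))),
   fun j => x.2.2 (j + w))

/-- the passage time `bl a b x (m, n)` is attained by an exit on the S side -/
def ExS (a b : ℝ) (m n : ℕ) : Set SW := {x : SW | ∃ k : ℕ, 1 ≤ k ∧ k ≤ m ∧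
  bl a b x ((m : ℤ), (n : ℤ)) =
    (∑ i ∈ Finset.Icc 1 k, x.2.1 i / a) + T x.1 ((k : ℤ), 1) ((m : ℤ), (n : ℤ))}

/-- the passage time `bl a b x (m, n)` is attained by an exit on the W side at a height `≤ w` -/
def ExW (a b : ℝ) (m n w : ℕ) : Set SW := {x : SW | ∃ k : ℕ, 1 ≤ k ∧ k ≤ n ∧ k ≤ w ∧
  bl a b x ((m : ℤ), (n : ℤ)) =
    (∑ j ∈ Finset.Icc 1 k, x.2.2 j / b) + T x.1 (1, (k : ℤ)) ((m : ℤ), (n : ℤ))}

/-! ### Burke moves -/

noncomputable def burkeMap (x : ℝ × ℝ × ℝ) : ℝ × ℝ × ℝ :=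
  (x.2.2 + max (x.1 - x.2.1) 0, x.2.2 + max (x.2.1 - x.1) 0, min x.1 x.2.1)

/-- the move replacing `(x i, x j, x k)` by its image under `burkeMap` -/
noncomputable def move {ι : Type*} [DecidableEq ι] (i j k : ι) (x : ι → ℝ) : ι → ℝ :=
  Function.update (Function.update (Function.update x i (x k + max (x i - x j) 0))
    j (x k + max (x j - x i) 0)) k (min (x i) (x j))

/-! ### The two-slope queues -/

/-- the edge relation -/
def ER (Kd J1 J2 J' Ku : ℝ) : Prop :=
  (J' = Kd ∧ J2 ≤ J1 ∧ Ku = J2) ∨ (J' ≤ Kd ∧ J1 = J2 ∧ Ku = J2 + Kd - J')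

/-- the queue recursion for the vertical variable: `qJ w y J0 i` is the vertical increment at the
column `i` when the row below has horizontal increments `y` and the weights are `w` -/
noncomputable def qJ (w y : ℕ → ℝ) (J0 : ℝ) : ℕ → ℝ
  | 0 => J0
  | i + 1 => w (i + 1) + max (qJ w y J0 i - y (i + 1)) 0

/-- the new horizontal increment (`i ≥ 1`) -/
noncomputable def qI (w y : ℕ → ℝ) (J0 : ℝ) (i : ℕ) : ℝ :=
  w i + max (y i - qJ w y J0 (i - 1)) 0

/-- the new weights (`i ≥ 1`) -/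
noncomputable def qC (w y : ℕ → ℝ) (J0 : ℝ) (i : ℕ) : ℝ := min (y i) (qJ w y J0 (i - 1))

/-- state of a row -/
abbrev RowSt := (ℕ → ℝ) × (ℕ → ℝ) × ℝ

/-- one row of the two-slope dynamics; index `0` of the sequences is left unchanged -/
noncomputable def rowStep (w : ℕ → ℝ) (z j2 : ℝ) (s : RowSt) : RowSt :=
  let J0 := j2 + max (z - s.2.2) 0
  let J0' := min z s.2.2
  (fun i => if i = 0 then s.1 0 else qI w s.1 J0 i,
   fun i => if i = 0 then s.2.1 0 else qI (qC w s.1 J0) s.2.1 J0' i,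
   j2 + max (s.2.2 - z) 0)

/-- the state of the row `n`; the weights of the row `j` are `ω (i, j)` -/
noncomputable def rowSt (ω : ℤ × ℤ → ℝ) (y1 y2 : ℕ → ℝ) (κ : ℝ) (z j2 : ℕ → ℝ) : ℕ → RowSt
  | 0 => (y1, y2, κ)
  | n + 1 => rowStep (fun i => ω ((i : ℤ), ((n + 1 : ℕ) : ℤ))) (z (n + 1)) (j2 (n + 1))
      (rowSt ω y1 y2 κ z j2 n)

/-- the queue with arrivals `y2` and services `y1` -/
noncomputable def rowK (y1 y2 : ℕ → ℝ) (κ : ℝ) : ℕ → ℝ
  | 0 => κ
  | i + 1 => y1 (i + 1) + max (rowK y1 y2 κ i - y2 (i + 1)) 0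

/-- the departure process (`i ≥ 1`); at `0` we put `y2 0` -/
noncomputable def rowD (y1 y2 : ℕ → ℝ) (κ : ℝ) (i : ℕ) : ℝ :=
  if i = 0 then y2 0 else y1 i + max (y2 i - rowK y1 y2 κ (i - 1)) 0

/-- the queue length on the left column -/
noncomputable def colK (κ : ℝ) (z j2 : ℕ → ℝ) : ℕ → ℝ
  | 0 => κ
  | j + 1 => j2 (j + 1) + max (colK κ z j2 j - z (j + 1)) 0

/-- the W weights of the first system; at `0` we put `z 0` -/
noncomputable def colJ (κ : ℝ) (z j2 : ℕ → ℝ) (j : ℕ) : ℝ :=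
  if j = 0 then z 0 else j2 j + max (z j - colK κ z j2 (j - 1)) 0

abbrev TSx := (ℤ × ℤ → ℝ) × (ℕ → ℝ) × (ℕ → ℝ) × (ℕ → ℝ) × (ℕ → ℝ) × ℝ

noncomputable def muTS : Measure TSx :=
  (PI (ℤ × ℤ)).prod ((PI ℕ).prod ((PI ℕ).prod ((PI ℕ).prod ((PI ℕ).prod E1))))

instance : IsProbabilityMeasure muTS := by unfold muTS; infer_instance

/-- all coordinates are nonnegative -/
def TSnn (x : TSx) : Prop := (∀ v, 0 ≤ x.1 v) ∧ (∀ i, 0 ≤ x.2.1 i) ∧ (∀ i, 0 ≤ x.2.2.1 i) ∧
  (∀ i, 0 ≤ x.2.2.2.1 i) ∧ (∀ i, 0 ≤ x.2.2.2.2.1 i) ∧ 0 ≤ x.2.2.2.2.2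

/-- boundary weights of the first system -/
noncomputable def s1 (α : ℝ) (x : TSx) (i : ℕ) : ℝ := x.2.1 i / α
noncomputable def w1 (α β : ℝ) (x : TSx) : ℕ → ℝ :=
  colJ (x.2.2.2.2.2 / (α - β)) (fun j => x.2.2.2.1 j / (1 - α)) (fun j => x.2.2.2.2.1 j / (1 - β))

/-- boundary weights of the second system -/
noncomputable def s2 (α β : ℝ) (x : TSx) : ℕ → ℝ :=
  rowD (fun i => x.2.1 i / α) (fun i => x.2.2.1 i / β) (x.2.2.2.2.2 / (α - β))
noncomputable def w2 (β : ℝ) (x : TSx) (j : ℕ) : ℝ := x.2.2.2.2.1 j / (1 - β)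

/-- the state of the row `n` in the two-slope coupling -/
noncomputable def tsRow (α β : ℝ) (x : TSx) (n : ℕ) : RowSt :=
  rowSt x.1 (fun i => x.2.1 i / α) (fun i => x.2.2.1 i / β) (x.2.2.2.2.2 / (α - β))
    (fun j => x.2.2.2.1 j / (1 - α)) (fun j => x.2.2.2.2.1 j / (1 - β)) n

noncomputable def L1 (α β : ℝ) (x : TSx) (v : ℤ × ℤ) : ℝ :=
  T (bfield x.1 (s1 α x) (w1 α β x) 0) 0 v
noncomputable def L2 (α β : ℝ) (x : TSx) (v : ℤ × ℤ) : ℝ :=
  T (bfield x.1 (s2 α β x) (w2 β x) 0) 0 v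

/-! ### Random walks -/

noncomputable def stepLaw (p q : ℝ) : Measure ℝ :=
  Measure.map (fun x : ℝ × ℝ => x.1 / p - x.2 / q) (E1.prod E1)

instance (p q : ℝ) : IsProbabilityMeasure (stepLaw p q) := by
  unfold stepLaw
  exact Measure.isProbabilityMeasure_map (by fun_prop)

/-- the law of the steps `X/p - X'/q` -/
noncomputable def walkM (p q : ℝ) : Measure (ℕ → ℝ) := Measure.infinitePi fun _ => stepLaw p q

instance (p q : ℝ) : IsProbabilityMeasure (walkM p q) := by unfold walkM; infer_instance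

noncomputable def Sw (x : ℕ → ℝ) (n : ℕ) : ℝ := ∑ i ∈ Finset.range n, x i

/-- the event that the walk stays below `a` up to time `N` -/
def Stay (a : ℝ) (N : ℕ) : Set (ℕ → ℝ) := {x | ∀ n ≤ N, Sw x n ≤ a}

/-! ### Resampling, dynamics, independence -/

open Classical in
/-- weights `x` on `K` and `a` elsewhere -/
noncomputable def mix (K : Set (ℤ × ℤ)) (x a : ℤ × ℤ → ℝ) : ℤ × ℤ → ℝ :=
  fun z => if z ∈ K then x z else a z

open Classical in
/-- sum of the squares of the weights in `K` on geodesics from `u` to `v` -/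
noncomputable def QV (ω : ℤ × ℤ → ℝ) (K : Set (ℤ × ℤ)) (u v : ℤ × ℤ) : ℝ :=
  ∑ z ∈ Finset.Icc u v, if z ∈ K ∧ Via ω u z v then ω z ^ 2 else 0

/-- triples of environments -/
abbrev Env3 := (ℤ × ℤ → ℝ) × (ℤ × ℤ → ℝ) × (ℤ × ℤ → ℝ)

noncomputable def mu3 : Measure Env3 :=
  (PI (ℤ × ℤ)).prod ((PI (ℤ × ℤ)).prod (PI (ℤ × ℤ)))

instance : IsProbabilityMeasure mu3 := by unfold mu3; infer_instance

/-- the environment `x.1` with the weights at the sites with `x.2.2 z < τ` replaced by `x.2.1` -/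
noncomputable def evo (τ : ℝ) (x : Env3) : ℤ × ℤ → ℝ := mix {z | x.2.2 z < τ} x.2.1 x.1

def DepOn {ι X : Type*} (S : Set ι) (A : Set (ι → X)) : Prop :=
  ∀ x y : ι → X, (∀ i ∈ S, x i = y i) → (x ∈ A ↔ y ∈ A)

open Classical in
noncomputable def glue {ι X : Type*} (S : Set ι) (y x : ι → X) : ι → X :=
  fun i => if i ∈ S then y i else x i

/-- index set of the noise: site, time, (fresh weight or clock variable) -/
abbrev DI := (ℤ × ℤ) × ℕ × Bool

open Classical in
/-- the environment at the time `i` (mesh `η`) -/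
noncomputable def dyn (η : ℝ) (x : DI → ℝ) : ℕ → ℤ × ℤ → ℝ
  | 0 => fun v => x (v, 0, true)
  | i + 1 => fun v => if x (v, i + 1, false) < η then x (v, i + 1, true) else dyn η x i v

end BGE
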