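import Pool.Agent.BGE.Defs

/-!
Project BGE (MP_ab3734_pr), owner helper58. Second set of definitions: rotation, deviations from a
line, regular environments, profiles, the events of the multi-scale argument.
-/

namespace BGE

open MeasureTheory ProbabilityTheory

/-! ### Rotation by 180 degrees exchanging the end points of the edge `(0,0) → (0,1)` -/

def rot (z : ℤ × ℤ) : ℤ × ℤ := (-z.1, 1 - z.2)

def rotE (ω : ℤ × ℤ → ℝ) : ℤ × ℤ → ℝ := fun z => ω (rot z)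

/-! ### Geometry -/

/-- distance in levels -/
noncomputable def dl (u v : ℤ × ℤ) : ℝ := ((lev v - lev u : ℤ) : ℝ)

/-- the shape function for the displacement from `u` to `v` -/
noncomputable def muz (u v : ℤ × ℤ) : ℝ := mu ((v.1 - u.1 : ℤ)) ((v.2 - u.2 : ℤ))

/-- the displacement from `u` to `v` is in the cone `κ` -/
def Cone (κ : ℝ) (u v : ℤ × ℤ) : Prop :=
  u ≤ v ∧ κ * dl u v ≤ ((v.1 - u.1 : ℤ) : ℝ) ∧ κ * dl u v ≤ ((v.2 - u.2 : ℤ) : ℝ)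

/-- horizontal deviation from the line of direction `(σ, 1 - σ)` through the middle of the edge
`(0,0) → (0,1)` -/
noncomputable def dev (σ : ℝ) (z : ℤ × ℤ) : ℝ := (z.1 : ℝ) - σ * ((lev z : ℝ) - 1 / 2)

/-- the parallelogram of height `n` and half width `a` -/
def Rgn (σ a : ℝ) (n : ℕ) : Set (ℤ × ℤ) :=
  {z | -(n : ℤ) ≤ lev z ∧ lev z ≤ n + 1 ∧ |dev σ z| ≤ a}

/-- the box -/
def Bx (m : ℕ) : Set (ℤ × ℤ) := {z | -(m : ℤ) ≤ z.1 ∧ z.1 ≤ m ∧ -(m : ℤ) ≤ z.2 ∧ z.2 ≤ m + 1}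

/-! ### Regular environments -/

/-- crude regularity in the box -/
def CrE (κ lam : ℝ) (m : ℕ) (ω : ℤ × ℤ → ℝ) : Prop :=
  (∀ z ∈ Bx m, 0 ≤ ω z ∧ ω z ≤ lam) ∧
  ∀ p ∈ Bx m, ∀ q ∈ Bx m, p ≤ q →
    T ω p q ≤ muz p q + lam * √(dl p q + 1) ∧
    (Cone (κ / 4) p q → |T ω p q - muz p q| ≤ lam * (dl p q + 1) ^ (1 / 3 : ℝ))

/-- crude time stability in the box -/
def CrT (lam : ℝ) (m : ℕ) (τ : ℝ) (ω ω' : ℤ × ℤ → ℝ) : Prop :=
  ∀ p ∈ Bx m, ∀ q ∈ Bx m, p ≤ q → |T ω' p q - T ω p q| ≤ lam * (√(τ * (dl p q + 1)) + 1)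

/-- fine regularity in a parallelogram -/
def FiE (κ σ Y g0 W : ℝ) (n : ℕ) (ω : ℤ × ℤ → ℝ) : Prop :=
  ∀ p ∈ Rgn σ W n, ∀ q ∈ Rgn σ W n, Cone (κ / 4) p q →
    |T ω p q - muz p q| ≤ Y * (max (dl p q) g0) ^ (1 / 3 : ℝ)

/-- regularity at all scales up to `n` -/
def GoodE (κ σ lam Y g0 : ℝ) (n : ℕ) (ω : ℤ × ℤ → ℝ) : Prop :=
  CrE κ lam (4 * n) ω ∧ FiE κ σ Y g0 (40 * lam * (n : ℝ) ^ (2 / 3 : ℝ)) n ω

/-- standing assumptions on the parameters; `C0` is a large constant depending on `κ` only -/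
def Par (C0 κ σ lam Y g0 : ℝ) (n : ℕ) : Prop :=
  κ ≤ σ ∧ σ ≤ 1 - κ ∧ C0 ≤ Y ∧ Y ≤ 2 * lam ∧ C0 * lam ^ 3 ≤ g0 ∧ g0 ≤ n

/-! ### Profiles -/

/-- the lower left point at level `-n`, deviation in `(-A - 1, -A]` -/
noncomputable def PLp (σ A : ℝ) (n : ℕ) : ℤ × ℤ :=
  (⌊-(σ * ((n : ℝ) + 1 / 2)) - A⌋, -(n : ℤ) - ⌊-(σ * ((n : ℝ) + 1 / 2)) - A⌋)

/-- the lower right point at level `-n`, deviation in `[A, A + 1)` -/
noncomputable def PRp (σ A : ℝ) (n : ℕ) : ℤ × ℤ :=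
  (⌈-(σ * ((n : ℝ) + 1 / 2)) + A⌉, -(n : ℤ) - ⌈-(σ * ((n : ℝ) + 1 / 2)) + A⌉)

/-- the passage time through the edge `(i, 0) → (i, 1)` between the left points -/
noncomputable def FLp (σ A : ℝ) (n : ℕ) (ω : ℤ × ℤ → ℝ) (i : ℤ) : ℝ :=
  T ω (PLp σ A n) (i, 0) + T (rotE ω) (PRp σ A n) (-i, 0)

/-- the passage time through the edge `(i, 0) → (i, 1)` between the right points -/
noncomputable def FRp (σ A : ℝ) (n : ℕ) (ω : ℤ × ℤ → ℝ) (i : ℤ) : ℝ :=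
  T ω (PRp σ A n) (i, 0) + T (rotE ω) (PLp σ A n) (-i, 0)

/-- the edge `(0,0) → (0,1)` is on a geodesic between points at the levels `-n`, `n + 1` with
deviation at most `a` -/
def Thru (σ a : ℝ) (n : ℕ) (ω : ℤ × ℤ → ℝ) : Prop :=
  ∃ z w : ℤ × ℤ, lev z = -(n : ℤ) ∧ |dev σ z| ≤ a ∧ lev w = n + 1 ∧ |dev σ w| ≤ a ∧
    z ≤ (0, 0) ∧ (0, 1) ≤ w ∧ T ω z w = T ω z (0, 0) + T ω (0, 1) w

/-- the same for the environment restricted to the parallelogram -/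
def AnS (σ a : ℝ) (n : ℕ) : Set (ℤ × ℤ → ℝ) := {ω | Thru σ a n (res (Rgn σ (6 * a) n) ω)}

/-- near record: on both sides, between the distances `K` and `I`, with slack `s` -/
def NR (σ A : ℝ) (n K I : ℕ) (s : ℝ) (ω : ℤ × ℤ → ℝ) : Prop :=
  ∀ i : ℤ, (K : ℤ) < i → i ≤ I →
    FLp σ A n ω i - FLp σ A n ω K ≤ s ∧ FRp σ A n ω (-i) - FRp σ A n ω (-(K : ℤ)) ≤ s

/-- a point on the right which nearly attains the value at `K` -/
def Clo (σ A : ℝ) (n K k : ℕ) (b : ℝ) (ω : ℤ × ℤ → ℝ) : Prop :=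
  ∃ i : ℤ, ((K + k : ℕ) : ℤ) ≤ i ∧ i ≤ ((K + 4 * k : ℕ) : ℤ) ∧
    -b ≤ FLp σ A n ω i - FLp σ A n ω K

/-- the increments of the two profiles differ somewhere on `(K, K + k]` -/
def Wd (σ A : ℝ) (n K k : ℕ) (ω : ℤ × ℤ → ℝ) : Prop :=
  ∃ i : ℤ, (K : ℤ) < i ∧ i ≤ ((K + k : ℕ) : ℤ) ∧
    FLp σ A n ω i - FLp σ A n ω (i - 1) < FRp σ A n ω i - FRp σ A n ω (i - 1)

/-! ### The two-slope coupling around the profiles -/

/-- the corner of the boundary models, to the lower left of both lower points -/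
noncomputable def cor (σ A : ℝ) (n : ℕ) : ℤ × ℤ := ((PLp σ A n).1 - 1, (PRp σ A n).2 - 1)

/-- the critical rate in the direction `(σ, 1 - σ)` -/
noncomputable def alc (σ : ℝ) : ℝ := √σ / (√σ + √(1 - σ))

noncomputable def rA (σ B Y : ℝ) (n : ℕ) : ℝ := alc σ + B * Y / (n : ℝ) ^ (1 / 3 : ℝ)
noncomputable def rB (σ B Y : ℝ) (n : ℕ) : ℝ := alc σ - B * Y / (n : ℝ) ^ (1 / 3 : ℝ)

/-- the sequence of boundary weights of rate `ρ` is close to its mean -/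
def WalkGood (ρ Y : ℝ) (n : ℕ) (S : ℕ → ℝ) : Prop :=
  (∀ i, 0 ≤ S i) ∧ ∀ k : ℕ, k ≤ 4 * n → |∑ i ∈ Finset.Icc 1 k, (S i - 1 / ρ)| ≤
    Y * ((n : ℝ) ^ (1 / 3 : ℝ) + k / (n : ℝ) ^ (1 / 3 : ℝ))

/-- the boundary noise -/
abbrev BN := (ℕ → ℝ) × (ℕ → ℝ) × (ℕ → ℝ) × (ℕ → ℝ) × ℝ

noncomputable def muBN : Measure BN := (PI ℕ).prod ((PI ℕ).prod ((PI ℕ).prod ((PI ℕ).prod E1)))

instance : IsProbabilityMeasure muBN := by unfold muBN; infer_instance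

/-- the two-slope space with bulk `ω` seen from the corner -/
noncomputable def tsx (σ A : ℝ) (n : ℕ) (ω : ℤ × ℤ → ℝ) (b : BN) : TSx :=
  (fun z => ω (z + cor σ A n), b)

/-- all four boundary sequences are good (this depends on the boundary noise only) -/
def WG (σ B Y : ℝ) (n : ℕ) (b : BN) : Prop :=
  TSnn ((fun _ => 0, b) : TSx) ∧
  WalkGood (rA σ B Y n) Y n (s1 (rA σ B Y n) ((fun _ => 0, b) : TSx)) ∧
  WalkGood (1 - rA σ B Y n) Y n (w1 (rA σ B Y n) (rB σ B Y n) ((fun _ => 0, b) : TSx)) ∧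
  WalkGood (rB σ B Y n) Y n (s2 (rA σ B Y n) (rB σ B Y n) ((fun _ => 0, b) : TSx)) ∧
  WalkGood (1 - rB σ B Y n) Y n (w2 (rB σ B Y n) ((fun _ => 0, b) : TSx))

end BGE
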