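import Pool.Agent.BGE.Meas

/-!
Project BGE (MP_ab3734_pr), owner helper58. Third set of definitions: parameters and events of the
crude multi-scale recursion.

Parameters: `h` is the length of the time interval, `lam = (log (1/h))^20` the crude slack.
-/

namespace BGE

open MeasureTheory ProbabilityTheory

/-- relation between `h` and `lam`; `h` is very small (in terms of `C0`) -/
def HP (C0 h lam : ℝ) : Prop :=
  0 < h ∧ h < 1 ∧ C0 ≤ Real.log (1 / h) ∧ lam = Real.log (1 / h) ^ 20 ∧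
    lam ^ 1000 ≤ h⁻¹ ^ (1 / 1000 : ℝ)

/-- crude arcs -/
noncomputable def arc (lam : ℝ) (n : ℕ) : ℝ := 2 * lam * (n : ℝ) ^ (2 / 3 : ℝ)

/-- crude parallelograms -/
noncomputable def RR (σ lam : ℝ) (n : ℕ) : Set (ℤ × ℤ) := Rgn σ (6 * arc lam n) n

/-- outside of `RR σ lam r`, seen on the row `0` -/
noncomputable def Kc (κ lam : ℝ) (r : ℕ) : ℕ := ⌈96 / κ * (2 * lam) * (r : ℝ) ^ (2 / 3 : ℝ)⌉₊

/-- range of the walks at scale `n` -/
noncomputable def Ic (lam : ℝ) (n : ℕ) : ℕ := ⌊(n : ℝ) ^ (2 / 3 : ℝ) / lam ^ 3⌋₊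

/-- the gain at the distance `2^j` -/
noncomputable def th (h : ℝ) (j : ℕ) : ℝ := (h ^ 2 * 2 ^ j) ^ (1 / 20 : ℝ)

/-- the inner scale of the window `j` -/
noncomputable def rin (h lam : ℝ) (j : ℕ) : ℕ :=
  ⌊(th h j ^ 2 * 2 ^ j / lam ^ 6) ^ (3 / 2 : ℝ)⌋₊

/-- the scale of the middle block of the window `j` -/
noncomputable def rou (h lam : ℝ) (j : ℕ) : ℕ :=
  ⌈(lam ^ 20 * 2 ^ j / th h j ^ 4) ^ (3 / 2 : ℝ)⌉₊

/-- the low scale -/
noncomputable def rL (h : ℝ) : ℕ := ⌈h⁻¹ ^ (21 / 50 : ℝ)⌉₊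

/-- the first window -/
noncomputable def jL (h : ℝ) : ℕ := ⌊Real.logb 2 (h⁻¹ ^ (21 / 100 : ℝ))⌋₊

/-- the windows `jL ≤ j < jT` are used at the scale `n` -/
noncomputable def jT (h lam : ℝ) (n : ℕ) : ℕ :=
  sInf {j : ℕ | jL h ≤ j ∧ (n : ℝ) < lam ^ 12 * rou h lam j}

/-- crude time stability at the scale `n` -/
noncomputable def sl (h lam : ℝ) (n : ℕ) : ℝ := lam * (√(2 * h * n) + 1)

/-- the middle block of the window `j` -/
def MidS (κ σ lam h : ℝ) (j : ℕ) : Set (ℤ × ℤ → ℝ) :=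
  {ω | NR σ (4 * arc lam (rou h lam j)) (rou h lam j) (Kc κ lam (rin h lam j))
        (Ic lam (rou h lam j)) (3 * th h j * √(2 ^ j))
        (res (RR σ lam (rou h lam j) \ RR σ lam (rin h lam j)) ω) ∧
      (Clo σ (4 * arc lam (rou h lam j)) (rou h lam j) (Kc κ lam (rin h lam j)) (2 ^ (j - 1))
        (th h j * √(2 ^ j)) (res (RR σ lam (rou h lam j) \ RR σ lam (rin h lam j)) ω) ∨
       Wd σ (4 * arc lam (rou h lam j)) (rou h lam j) (Kc κ lam (rin h lam j)) (4 * 2 ^ (j - 1))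
        (res (RR σ lam (rou h lam j) \ RR σ lam (rin h lam j)) ω))}

/-- the outer block at the scale `n` around the scale `r`; exactness up to `N0` -/
def OutS (κ σ lam h : ℝ) (n r N0 : ℕ) : Set (ℤ × ℤ → ℝ) :=
  {ω | NR σ (4 * arc lam n) n (Kc κ lam r) N0 (lam ^ 3 * (r : ℝ) ^ (1 / 3 : ℝ))
        (res (RR σ lam n \ RR σ lam r) ω) ∧
      NR σ (4 * arc lam n) n (Kc κ lam r) (Ic lam n)
        (lam ^ 3 * (r : ℝ) ^ (1 / 3 : ℝ) + 4 * sl h lam n)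
        (res (RR σ lam n \ RR σ lam r) ω)}

/-- the low event -/
def LowS (σ lam h : ℝ) : Set (ℤ × ℤ → ℝ) :=
  {ω | NR σ (4 * arc lam (rL h)) (rL h) 0 (Ic lam (rL h)) 0 (res (RR σ lam (rL h)) ω) ∧
      Wd σ (4 * arc lam (rL h)) (rL h) 0 (4 * 2 ^ jL h) (res (RR σ lam (rL h)) ω)}

/-- failure of the exactness of the record in the window `j` -/
def FailJ (κ σ lam h η : ℝ) (M n j : ℕ) : Set (DI → ℝ) :=
  {x | (∃ t ≤ M, dyn η x t ∈ AnS σ (arc lam (rin h lam j)) (rin h lam j)) ∧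
      (dyn η x 0 ∈ MidS κ σ lam h j ∨ rotE (dyn η x 0) ∈ MidS κ σ lam h j) ∧
      dyn η x 0 ∈ OutS κ σ lam h n (rou h lam j) (2 ^ jT h lam n)}

/-- failure of the exactness in the low window -/
def FailL (κ σ lam h η : ℝ) (M n : ℕ) : Set (DI → ℝ) :=
  {x | (x ∈ Upd η M (RR σ lam (rL h)) ∨ dyn η x 0 ∈ LowS σ lam h ∨
        rotE (dyn η x 0) ∈ LowS σ lam h) ∧
      dyn η x 0 ∈ OutS κ σ lam h n (rL h) (2 ^ jT h lam n)}

/-- failure of the exactness of the record, scale `n` -/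
def FailX (κ σ lam h η : ℝ) (M n : ℕ) : Set (DI → ℝ) :=
  {x | (∃ j, jL h ≤ j ∧ j < jT h lam n ∧ x ∈ FailJ κ σ lam h η M n j) ∨
    x ∈ FailL κ σ lam h η M n}

/-- hit at the scale `n` in the direction `σ` at some time -/
def HitX (σ lam η : ℝ) (M n : ℕ) : Set (DI → ℝ) :=
  {x | ∃ t ≤ M, dyn η x t ∈ AnS σ (arc lam n) n}

/-- crude regularity at the times `0` and `t` -/
def GdT (κ lam h η : ℝ) (m t : ℕ) (x : DI → ℝ) : Prop :=
  CrE κ lam m (dyn η x 0) ∧ CrE κ lam m (dyn η x t) ∧ CrT lam m h (dyn η x 0) (dyn η x t)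

end BGE
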