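import Pool.Agent.BGE.Quad

/-!
BGE / A3. Last passage times with boundary weights: exit points and comparison of increments.

`L v := T (bfield ω S W c) c v`: boundary weights `S i` at `c + (i, 0)`, `W j` at `c + (0, j)`,
zero at `c`, bulk weights `ω` at all the other sites.

* `Lrow`, `Lcol`: `L` on the boundary is a sum of boundary weights (induction).
* `exitS_le`, `exitW_le`: a path may follow the boundary to `c + (k, 0)`, go up to `c + (k, 1)`
  and continue in the bulk (`T_edge_le` and `T_congr`: the bulk field and `bfield` agree on the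
  sites `z ≥ c + (k, 1)`).
* `exists_exit`: an optimal path leaves the boundary somewhere. Induction on `v` with `T_rec`, or
  from `exists_path`.
* `incr_exitW` (comparison). Suppose that for `v0` the exit at height `h ≥ h0` on the W side is
  optimal and let `z = c + (1, h0)`. If `v1` is to the north-west of `v2` and `v2` to the
  north-west of `v0` then `L v2 - L v1 ≤ T ω z v2 - T ω z v1`.
  Proof. Put `p = c + (1, h)`, `s = ∑ j ≤ h, W j`. Let `e` be another exit point which is on the S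
  side or on the W side at a height `h' < h`, with boundary sum `s'`. By `quad`
  (`p` north-west of `e`, `v2` north-west of `v0`) `T p v0 + T e v2 ≤ T p v2 + T e v0`, hence
  `s' + T e v2 ≤ (s' + T e v0) + T p v2 - T p v0 ≤ (s + T p v0) + T p v2 - T p v0 = s + T p v2`.
  So for `v2` there is an optimal exit on the W side at a height `h2 ≥ h ≥ h0`; let
  `p2 = c + (1, h2)`. Then `L v2 - L v1 ≤ T p2 v2 - T p2 v1 ≤ T z v2 - T z v1` by `quad` again
  (`p2` north-west of `z`).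
* `incr_exitS` is the mirror image (apply the previous statement to the swapped field, or repeat
  the proof): if for `v0` the exit at `k ≥ k0` on the S side is optimal, `z = c + (k0, 1)`, `v0`
  north-west of `v1`, `v1` north-west of `v2`, then `T ω z v2 - T ω z v1 ≤ L v2 - L v1`.
-/

namespace BGE

variable {ω : ℤ × ℤ → ℝ} {S W : ℕ → ℝ} {c v v0 v1 v2 : ℤ × ℤ}

theorem bfield_row (ω : ℤ × ℤ → ℝ) (S W : ℕ → ℝ) (c : ℤ × ℤ) {k : ℕ} (hk : 1 ≤ k) :
    bfield ω S W c (c.1 + k, c.2) = S k := by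
  unfold bfield
  have h : ¬ (c.1 + (k : ℤ) = c.1) := by omega
  simp only [if_true, h, if_false]
  congr 1
  omega

theorem bfield_col (ω : ℤ × ℤ → ℝ) (S W : ℕ → ℝ) (c : ℤ × ℤ) {k : ℕ} (hk : 1 ≤ k) :
    bfield ω S W c (c.1, c.2 + k) = W k := by
  unfold bfield
  have h : ¬ (c.2 + (k : ℤ) = c.2) := by omega
  simp only [if_true, h, if_false]
  congr 1
  omega

theorem bfield_bulk (ω : ℤ × ℤ → ℝ) (S W : ℕ → ℝ) {c z : ℤ × ℤ} (h1 : c.1 < z.1)
    (h2 : c.2 < z.2) : bfield ω S W c z = ω z := by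
  unfold bfield
  have h : ¬ (z.1 = c.1) := by omega
  have h' : ¬ (z.2 = c.2) := by omega
  simp only [h, h', if_false]

theorem bfield_corner (ω : ℤ × ℤ → ℝ) (S W : ℕ → ℝ) (c : ℤ × ℤ) : bfield ω S W c c = 0 := by
  simp [bfield]

theorem T_bulk (ω : ℤ × ℤ → ℝ) (S W : ℕ → ℝ) {c u v : ℤ × ℤ} (huv : u ≤ v) (h1 : c.1 < u.1)
    (h2 : c.2 < u.2) : T (bfield ω S W c) u v = T ω u v :=
  T_congr huv fun _ hz _ => bfield_bulk ω S W (h1.trans_le hz.1) (h2.trans_le hz.2)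

theorem Lrow (ω : ℤ × ℤ → ℝ) (S W : ℕ → ℝ) (c : ℤ × ℤ) (k : ℕ) :
    T (bfield ω S W c) c (c.1 + k, c.2) = ∑ i ∈ Finset.Icc 1 k, S i := by
  induction k with
  | zero =>
    have h : ((c.1 + ((0 : ℕ) : ℤ), c.2) : ℤ × ℤ) = c := by ext <;> simp
    rw [h, T_self, bfield_corner]
    simp
  | succ k ih =>
    have h1 : c.1 < ((c.1 + ((k + 1 : ℕ) : ℤ), c.2) : ℤ × ℤ).1 := by
      show c.1 < c.1 + ((k + 1 : ℕ) : ℤ)
      push_cast; omega
    rw [T_row h1 rfl, bfield_row ω S W c (by omega), Finset.sum_Icc_succ_top (by omega), ← ih]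
    have h2 : (((c.1 + ((k + 1 : ℕ) : ℤ), c.2) : ℤ × ℤ).1 - 1,
        ((c.1 + ((k + 1 : ℕ) : ℤ), c.2) : ℤ × ℤ).2) = ((c.1 + (k : ℤ), c.2) : ℤ × ℤ) := by
      ext
      · simp only; push_cast; ring
      · rfl
    rw [h2]

theorem Lcol (ω : ℤ × ℤ → ℝ) (S W : ℕ → ℝ) (c : ℤ × ℤ) (k : ℕ) :
    T (bfield ω S W c) c (c.1, c.2 + k) = ∑ j ∈ Finset.Icc 1 k, W j := by
  induction k with
  | zero =>
    have h : ((c.1, c.2 + ((0 : ℕ) : ℤ)) : ℤ × ℤ) = c := by ext <;> simp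
    rw [h, T_self, bfield_corner]
    simp
  | succ k ih =>
    have h1 : c.2 < ((c.1, c.2 + ((k + 1 : ℕ) : ℤ)) : ℤ × ℤ).2 := by
      show c.2 < c.2 + ((k + 1 : ℕ) : ℤ)
      push_cast; omega
    rw [T_col (u := c) (v := (c.1, c.2 + ((k + 1 : ℕ) : ℤ))) rfl h1,
      bfield_col ω S W c (by omega), Finset.sum_Icc_succ_top (by omega), ← ih]
    have h2 : (((c.1, c.2 + ((k + 1 : ℕ) : ℤ)) : ℤ × ℤ).1,
        ((c.1, c.2 + ((k + 1 : ℕ) : ℤ)) : ℤ × ℤ).2 - 1) = ((c.1, c.2 + (k : ℤ)) : ℤ × ℤ) := by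
      ext
      · rfl
      · simp only; push_cast; ring
    rw [h2]

theorem exitS_le (hv : c.2 < v.2) (k : ℕ) (hk : 1 ≤ k) (hk' : c.1 + k ≤ v.1) :
    (∑ i ∈ Finset.Icc 1 k, S i) + T ω (c.1 + k, c.2 + 1) v ≤ T (bfield ω S W c) c v := by
  have h1 : c ≤ ((c.1 + (k : ℤ), c.2) : ℤ × ℤ) := ⟨by show c.1 ≤ c.1 + (k : ℤ); omega, le_rfl⟩
  have h3 : ((c.1 + (k : ℤ), c.2 + 1) : ℤ × ℤ) ≤ v := ⟨hk', by show c.2 + 1 ≤ v.2; omega⟩
  have h := T_edge_le (ω := bfield ω S W c) h1 (Or.inr rfl :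
    ((c.1 + (k : ℤ), c.2 + 1) : ℤ × ℤ) = (((c.1 + (k : ℤ), c.2) : ℤ × ℤ).1 + 1,
      ((c.1 + (k : ℤ), c.2) : ℤ × ℤ).2) ∨
    ((c.1 + (k : ℤ), c.2 + 1) : ℤ × ℤ) = (((c.1 + (k : ℤ), c.2) : ℤ × ℤ).1,
      ((c.1 + (k : ℤ), c.2) : ℤ × ℤ).2 + 1)) h3
  rw [Lrow, T_bulk ω S W h3 (by show c.1 < c.1 + (k : ℤ); omega)
    (by show c.2 < c.2 + 1; omega)] at h
  exact h

theorem exitW_le (hv : c.1 < v.1) (k : ℕ) (hk : 1 ≤ k) (hk' : c.2 + k ≤ v.2) :
    (∑ j ∈ Finset.Icc 1 k, W j) + T ω (c.1 + 1, c.2 + k) v ≤ T (bfield ω S W c) c v := by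
  have h1 : c ≤ ((c.1, c.2 + (k : ℤ)) : ℤ × ℤ) := ⟨le_rfl, by show c.2 ≤ c.2 + (k : ℤ); omega⟩
  have h3 : ((c.1 + 1, c.2 + (k : ℤ)) : ℤ × ℤ) ≤ v := ⟨by show c.1 + 1 ≤ v.1; omega, hk'⟩
  have h := T_edge_le (ω := bfield ω S W c) h1 (Or.inl rfl :
    ((c.1 + 1, c.2 + (k : ℤ)) : ℤ × ℤ) = (((c.1, c.2 + (k : ℤ)) : ℤ × ℤ).1 + 1,
      ((c.1, c.2 + (k : ℤ)) : ℤ × ℤ).2) ∨
    ((c.1 + 1, c.2 + (k : ℤ)) : ℤ × ℤ) = (((c.1, c.2 + (k : ℤ)) : ℤ × ℤ).1,
      ((c.1, c.2 + (k : ℤ)) : ℤ × ℤ).2 + 1)) h3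
  rw [Lcol, T_bulk ω S W h3 (by show c.1 < c.1 + 1; omega)
    (by show c.2 < c.2 + (k : ℤ); omega)] at h
  exact h

/-- one more step to the right -/
theorem T_stepR (ω : ℤ × ℤ → ℝ) {u v : ℤ × ℤ} (h1 : u.1 < v.1) (h2 : u.2 ≤ v.2) :
    T ω u (v.1 - 1, v.2) + ω v ≤ T ω u v := by
  rcases eq_or_lt_of_le h2 with h | h
  · rw [← T_row h1 h]
  · rw [T_rec h1 h]
    exact add_le_add (le_max_left _ _) le_rfl

/-- one more step up -/
theorem T_stepU (ω : ℤ × ℤ → ℝ) {u v : ℤ × ℤ} (h1 : u.1 ≤ v.1) (h2 : u.2 < v.2) :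
    T ω u (v.1, v.2 - 1) + ω v ≤ T ω u v := by
  rcases eq_or_lt_of_le h1 with h | h
  · rw [← T_col h h2]
  · rw [T_rec h h2]
    exact add_le_add (le_max_right _ _) le_rfl

theorem exists_exit_aux (ω : ℤ × ℤ → ℝ) (S W : ℕ → ℝ) (c : ℤ × ℤ) (n : ℕ) :
    ∀ v : ℤ × ℤ, (v.1 - c.1 + (v.2 - c.2)).toNat ≤ n → c.1 < v.1 → c.2 < v.2 →
    (∃ k : ℕ, 1 ≤ k ∧ c.1 + k ≤ v.1 ∧
      T (bfield ω S W c) c v = (∑ i ∈ Finset.Icc 1 k, S i) + T ω (c.1 + k, c.2 + 1) v) ∨
    (∃ k : ℕ, 1 ≤ k ∧ c.2 + k ≤ v.2 ∧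
      T (bfield ω S W c) c v = (∑ j ∈ Finset.Icc 1 k, W j) + T ω (c.1 + 1, c.2 + k) v) := by
  induction n with
  | zero => intro v hv h1 h2; omega
  | succ n ih =>
    intro v hn h1 h2
    have hrec := T_rec (ω := bfield ω S W c) h1 h2
    rw [bfield_bulk ω S W h1 h2] at hrec
    rcases max_choice (T (bfield ω S W c) c (v.1 - 1, v.2))
      (T (bfield ω S W c) c (v.1, v.2 - 1)) with hm | hm
    · rw [hm] at hrec
      rcases eq_or_lt_of_le (show c.1 ≤ v.1 - 1 by omega) with h | h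
      · -- the predecessor is on the column of `c`
        refine Or.inr ⟨(v.2 - c.2).toNat, by omega, by omega, ?_⟩
        have e1 : ((v.1 - 1, v.2) : ℤ × ℤ) = (c.1, c.2 + ((v.2 - c.2).toNat : ℤ)) := by
          ext
          · simp only; omega
          · simp only; omega
        have e2 : ((c.1 + 1, c.2 + ((v.2 - c.2).toNat : ℤ)) : ℤ × ℤ) = v := by
          ext
          · simp only; omega
          · simp only; omega
        rw [hrec, e1, Lcol, e2, T_self]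
      · rcases ih (v.1 - 1, v.2) (by simp only; omega) h h2 with
          ⟨k, hk, hkv, he⟩ | ⟨k, hk, hkv, he⟩
        · simp only at hkv
          refine Or.inl ⟨k, hk, by omega, le_antisymm ?_ (exitS_le h2 k hk (by omega))⟩
          rw [hrec, he, add_assoc]
          exact add_le_add le_rfl (T_stepR ω (by show c.1 + (k : ℤ) < v.1; omega)
            (by show c.2 + 1 ≤ v.2; omega))
        · simp only at hkv
          refine Or.inr ⟨k, hk, by omega, le_antisymm ?_ (exitW_le h1 k hk (by omega))⟩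
          rw [hrec, he, add_assoc]
          exact add_le_add le_rfl (T_stepR ω (by show c.1 + 1 < v.1; omega)
            (by show c.2 + (k : ℤ) ≤ v.2; omega))
    · rw [hm] at hrec
      rcases eq_or_lt_of_le (show c.2 ≤ v.2 - 1 by omega) with h | h
      · refine Or.inl ⟨(v.1 - c.1).toNat, by omega, by omega, ?_⟩
        have e1 : ((v.1, v.2 - 1) : ℤ × ℤ) = (c.1 + ((v.1 - c.1).toNat : ℤ), c.2) := by
          ext
          · simp only; omega
          · simp only; omega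
        have e2 : ((c.1 + ((v.1 - c.1).toNat : ℤ), c.2 + 1) : ℤ × ℤ) = v := by
          ext
          · simp only; omega
          · simp only; omega
        rw [hrec, e1, Lrow, e2, T_self]
      · rcases ih (v.1, v.2 - 1) (by simp only; omega) h1 h with
          ⟨k, hk, hkv, he⟩ | ⟨k, hk, hkv, he⟩
        · simp only at hkv
          refine Or.inl ⟨k, hk, by omega, le_antisymm ?_ (exitS_le h2 k hk (by omega))⟩
          rw [hrec, he, add_assoc]
          exact add_le_add le_rfl (T_stepU ω (by show c.1 + (k : ℤ) ≤ v.1; omega)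
            (by show c.2 + 1 < v.2; omega))
        · simp only at hkv
          refine Or.inr ⟨k, hk, by omega, le_antisymm ?_ (exitW_le h1 k hk (by omega))⟩
          rw [hrec, he, add_assoc]
          exact add_le_add le_rfl (T_stepU ω (by show c.1 + 1 ≤ v.1; omega)
            (by show c.2 + (k : ℤ) < v.2; omega))

theorem exists_exit (ω : ℤ × ℤ → ℝ) (S W : ℕ → ℝ) (h1 : c.1 < v.1) (h2 : c.2 < v.2) :
    (∃ k : ℕ, 1 ≤ k ∧ c.1 + k ≤ v.1 ∧
      T (bfield ω S W c) c v = (∑ i ∈ Finset.Icc 1 k, S i) + T ω (c.1 + k, c.2 + 1) v) ∨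
    (∃ k : ℕ, 1 ≤ k ∧ c.2 + k ≤ v.2 ∧
      T (bfield ω S W c) c v = (∑ j ∈ Finset.Icc 1 k, W j) + T ω (c.1 + 1, c.2 + k) v) :=
  exists_exit_aux ω S W c _ v le_rfl h1 h2

theorem incr_exitW {h0 h : ℕ} (hh0 : 1 ≤ h0) (hh : h0 ≤ h) (hc : c.1 < v1.1)
    (hhv : c.2 + h ≤ v0.2)
    (hexit : T (bfield ω S W c) c v0 =
      (∑ j ∈ Finset.Icc 1 h, W j) + T ω (c.1 + 1, c.2 + h) v0)
    (h12 : v1.1 ≤ v2.1) (h12' : v2.2 ≤ v1.2) (h20 : v2.1 ≤ v0.1) (h20' : v0.2 ≤ v2.2) :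
    T (bfield ω S W c) c v2 - T (bfield ω S W c) c v1 ≤
      T ω (c.1 + 1, c.2 + h0) v2 - T ω (c.1 + 1, c.2 + h0) v1 := by
  -- an exit for `v2` on the W side at a height `≥ h`
  have key : ∃ h2 : ℕ, h ≤ h2 ∧ c.2 + h2 ≤ v2.2 ∧
      T (bfield ω S W c) c v2 = (∑ j ∈ Finset.Icc 1 h2, W j) + T ω (c.1 + 1, c.2 + h2) v2 := by
    have hle := exitW_le (ω := ω) (S := S) (W := W) (c := c) (v := v2) (by omega) h (by omega)
      (by omega)
    rcases exists_exit (c := c) (v := v2) ω S W (by omega) (by omega) with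
      ⟨k, hk, hkv, he⟩ | ⟨k, hk, hkv, he⟩
    · refine ⟨h, le_rfl, by omega, le_antisymm ?_ hle⟩
      have hq := quad (ω := ω) (u1 := (c.1 + 1, c.2 + (h : ℤ))) (u2 := (c.1 + (k : ℤ), c.2 + 1))
        (v1 := v2) (v2 := v0) (by show c.1 + 1 ≤ c.1 + (k : ℤ); omega)
        (by show c.2 + 1 ≤ c.2 + (h : ℤ); omega) h20 h20'
        ⟨by show c.1 + 1 ≤ v0.1; omega, hhv⟩ ⟨hkv, by show c.2 + 1 ≤ v2.2; omega⟩
      have hx := exitS_le (ω := ω) (S := S) (W := W) (c := c) (v := v0) (by omega) k hk (by omega)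
      rw [he]
      linarith
    · rcases Nat.lt_or_ge k h with hkh | hkh
      · refine ⟨h, le_rfl, by omega, le_antisymm ?_ hle⟩
        have hq := quad (ω := ω) (u1 := (c.1 + 1, c.2 + (h : ℤ)))
          (u2 := (c.1 + 1, c.2 + (k : ℤ)))
          (v1 := v2) (v2 := v0) le_rfl
          (by show c.2 + (k : ℤ) ≤ c.2 + (h : ℤ); omega) h20 h20'
          ⟨by show c.1 + 1 ≤ v0.1; omega, hhv⟩ ⟨by show c.1 + 1 ≤ v2.1; omega, hkv⟩
        have hx := exitW_le (ω := ω) (S := S) (W := W) (c := c) (v := v0) (by omega) k hk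
          (by omega)
        rw [he]
        linarith
      · exact ⟨k, hkh, hkv, he⟩
  obtain ⟨m, hm, hmv, he⟩ := key
  have h5 := exitW_le (ω := ω) (S := S) (W := W) (c := c) (v := v1) hc m (by omega) (by omega)
  have h6 := incr_mono (ω := ω) (q := (c.1 + 1, c.2 + (m : ℤ))) (q' := (c.1 + 1, c.2 + (h0 : ℤ)))
    (v1 := v1) (v2 := v2) le_rfl (by show c.2 + (h0 : ℤ) ≤ c.2 + (m : ℤ); omega) h12 h12'
    ⟨by show c.1 + 1 ≤ v2.1; omega, hmv⟩
    ⟨by show c.1 + 1 ≤ v1.1; omega, by show c.2 + (h0 : ℤ) ≤ v1.2; omega⟩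
  rw [he]
  linarith

theorem incr_exitS {k0 k : ℕ} (hk0 : 1 ≤ k0) (hk : k0 ≤ k) (hc : c.2 < v2.2)
    (hkv : c.1 + k ≤ v0.1)
    (hexit : T (bfield ω S W c) c v0 =
      (∑ i ∈ Finset.Icc 1 k, S i) + T ω (c.1 + k, c.2 + 1) v0)
    (h01 : v0.1 ≤ v1.1) (h01' : v1.2 ≤ v0.2) (h12 : v1.1 ≤ v2.1) (h12' : v2.2 ≤ v1.2) :
    T ω (c.1 + k0, c.2 + 1) v2 - T ω (c.1 + k0, c.2 + 1) v1 ≤
      T (bfield ω S W c) c v2 - T (bfield ω S W c) c v1 := by
  have key : ∃ k2 : ℕ, k ≤ k2 ∧ c.1 + k2 ≤ v1.1 ∧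
      T (bfield ω S W c) c v1 = (∑ i ∈ Finset.Icc 1 k2, S i) + T ω (c.1 + k2, c.2 + 1) v1 := by
    have hle := exitS_le (ω := ω) (S := S) (W := W) (c := c) (v := v1) (by omega) k (by omega)
      (by omega)
    rcases exists_exit (c := c) (v := v1) ω S W (by omega) (by omega) with
      ⟨j, hj, hjv, he⟩ | ⟨j, hj, hjv, he⟩
    · rcases Nat.lt_or_ge j k with hjk | hjk
      · refine ⟨k, le_rfl, by omega, le_antisymm ?_ hle⟩
        have hq := quad (ω := ω) (u1 := (c.1 + (j : ℤ), c.2 + 1))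
          (u2 := (c.1 + (k : ℤ), c.2 + 1)) (v1 := v0) (v2 := v1)
          (by show c.1 + (j : ℤ) ≤ c.1 + (k : ℤ); omega) le_rfl h01 h01'
          ⟨hjv, by show c.2 + 1 ≤ v1.2; omega⟩ ⟨hkv, by show c.2 + 1 ≤ v0.2; omega⟩
        have hx := exitS_le (ω := ω) (S := S) (W := W) (c := c) (v := v0) (by omega) j hj
          (by omega)
        rw [he]
        linarith
      · exact ⟨j, hjk, hjv, he⟩
    · refine ⟨k, le_rfl, by omega, le_antisymm ?_ hle⟩
      have hq := quad (ω := ω) (u1 := (c.1 + 1, c.2 + (j : ℤ)))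
        (u2 := (c.1 + (k : ℤ), c.2 + 1)) (v1 := v0) (v2 := v1)
        (by show c.1 + 1 ≤ c.1 + (k : ℤ); omega) (by show c.2 + 1 ≤ c.2 + (j : ℤ); omega)
        h01 h01'
        ⟨by show c.1 + 1 ≤ v1.1; omega, hjv⟩ ⟨hkv, by show c.2 + 1 ≤ v0.2; omega⟩
      have hx := exitW_le (ω := ω) (S := S) (W := W) (c := c) (v := v0) (by omega) j hj
        (by omega)
      rw [he]
      linarith
  obtain ⟨m, hm, hmv, he⟩ := key
  have h5 := exitS_le (ω := ω) (S := S) (W := W) (c := c) (v := v2) hc m (by omega) (by omega)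
  have h6 := incr_mono (ω := ω) (q := (c.1 + (k0 : ℤ), c.2 + 1)) (q' := (c.1 + (m : ℤ), c.2 + 1))
    (v1 := v1) (v2 := v2) (by show c.1 + (k0 : ℤ) ≤ c.1 + (m : ℤ); omega) le_rfl h12 h12'
    ⟨by show c.1 + (k0 : ℤ) ≤ v2.1; omega, by show c.2 + 1 ≤ v2.2; omega⟩
    ⟨hmv, by show c.2 + 1 ≤ v1.2; omega⟩
  rw [he]
  linarith

theorem shift_row_aux (ω : ℤ × ℤ → ℝ) (S W : ℕ → ℝ) (w : ℕ) (c : ℤ × ℤ) (n : ℕ) :
    ∀ v : ℤ × ℤ, (v.1 - c.1 + (v.2 - c.2 - w)).toNat ≤ n → c.1 ≤ v.1 → c.2 + w ≤ v.2 →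
    T (bfield ω S W c) c v = (∑ j ∈ Finset.Icc 1 w, W j) +
      T (bfield ω
        (fun i => T (bfield ω S W c) c (c.1 + i, c.2 + w) -
          T (bfield ω S W c) c (c.1 + i - 1, c.2 + w))
        (fun j => W (w + j)) (c.1, c.2 + w)) (c.1, c.2 + w) v := by
  set S' : ℕ → ℝ := fun i => T (bfield ω S W c) c (c.1 + i, c.2 + w) -
          T (bfield ω S W c) c (c.1 + i - 1, c.2 + w) with hS'
  set W' : ℕ → ℝ := fun j => W (w + j) with hW'
  -- the row
  have hrow : ∀ k : ℕ, T (bfield ω S W c) c (c.1 + k, c.2 + w) = (∑ j ∈ Finset.Icc 1 w, W j) +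
      T (bfield ω S' W' (c.1, c.2 + w)) (c.1, c.2 + w) (c.1 + k, c.2 + w) := by
    intro k
    have h := Lrow ω S' W' ((c.1, c.2 + w) : ℤ × ℤ) k
    simp only at h
    rw [h]
    induction k with
    | zero =>
      have := Lcol ω S W c w
      simp only [Nat.cast_zero, add_zero]
      rw [this]; simp
    | succ k ih =>
      have ih' := ih (Lrow ω S' W' ((c.1, c.2 + w) : ℤ × ℤ) k)
      rw [Finset.sum_Icc_succ_top (by omega), ← add_assoc, ← ih']
      simp only [hS']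
      have e : c.1 + ((k + 1 : ℕ) : ℤ) - 1 = c.1 + (k : ℤ) := by push_cast; ring
      rw [e]; ring
  -- the column
  have hcol : ∀ k : ℕ, T (bfield ω S W c) c (c.1, c.2 + w + k) = (∑ j ∈ Finset.Icc 1 w, W j) +
      T (bfield ω S' W' (c.1, c.2 + w)) (c.1, c.2 + w) (c.1, c.2 + w + k) := by
    intro k
    have h := Lcol ω S' W' ((c.1, c.2 + w) : ℤ × ℤ) k
    simp only at h
    rw [h]
    have h2 := Lcol ω S W c (w + k)
    have e : c.2 + ((w + k : ℕ) : ℤ) = c.2 + (w : ℤ) + (k : ℤ) := by push_cast; ring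
    rw [e] at h2
    rw [h2]
    clear h h2 e
    induction k with
    | zero => simp
    | succ k ih =>
      rw [← add_assoc w k 1, Finset.sum_Icc_succ_top (by omega),
        Finset.sum_Icc_succ_top (b := k) (by omega), ih]
      simp only [hW']
      rw [add_assoc, add_assoc]
  induction n with
  | zero =>
    intro v hn h1 h2
    have e : v = ((c.1 + ((0 : ℕ) : ℤ), c.2 + w) : ℤ × ℤ) := by
      ext
      · simp only; omega
      · simp only; omega
    rw [e]; exact hrow 0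
  | succ n ih =>
    intro v hn h1 h2
    rcases eq_or_lt_of_le h2 with h | h
    · have e : v = ((c.1 + ((v.1 - c.1).toNat : ℤ), c.2 + w) : ℤ × ℤ) := by
        ext
        · simp only; omega
        · simp only; omega
      rw [e]; exact hrow _
    · rcases eq_or_lt_of_le h1 with h' | h'
      · have e : v = ((c.1, c.2 + w + ((v.2 - c.2 - w).toNat : ℤ)) : ℤ × ℤ) := by
          ext
          · simp only; omega
          · simp only; omega
        rw [e]; exact hcol _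
      · have hc2 : c.2 < v.2 := by omega
        rw [T_rec (ω := bfield ω S W c) h' hc2,
          T_rec (ω := bfield ω S' W' (c.1, c.2 + w)) (u := (c.1, c.2 + w)) h' h,
          bfield_bulk ω S W h' hc2, bfield_bulk ω S' W' (c := (c.1, c.2 + w)) h' h,
          ih (v.1 - 1, v.2) (by simp only; omega) (by simp only; omega) h2,
          ih (v.1, v.2 - 1) (by simp only; omega) h1 (by simp only; omega),
          max_add_add_left]
        ring

/-- the stationary structure: the passage time above the row `c.2 + w` is again a passage time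
with boundary weights, the new S weights being the increments on that row -/
theorem shift_row (ω : ℤ × ℤ → ℝ) (S W : ℕ → ℝ) (w : ℕ) (h1 : c.1 ≤ v.1) (h2 : c.2 + w ≤ v.2) :
    T (bfield ω S W c) c v = (∑ j ∈ Finset.Icc 1 w, W j) +
      T (bfield ω
        (fun i => T (bfield ω S W c) c (c.1 + i, c.2 + w) -
          T (bfield ω S W c) c (c.1 + i - 1, c.2 + w))
        (fun j => W (w + j)) (c.1, c.2 + w)) (c.1, c.2 + w) v :=
  shift_row_aux ω S W w c _ v le_rfl h1 h2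

end BGE
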