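import Pool.Agent.BGE.Defs

/-!
BGE / C3a. Algebra for the critical rate: `s = √m + √n`, `al = √m/s`, `Ph = s⁴/(√m √n)`,
`ff ρ = m/ρ + n/(1-ρ)`. `√m = al s`, `√n = (1 - al) s`; and
`ff ρ - s² = (√m (1-ρ) - √n ρ)²/(ρ (1-ρ)) = s² (al - ρ)²/(ρ (1-ρ))`.
-/

namespace BGE

lemma exitAlg_sq {m : ℝ} (hm : 0 < m) : ∃ p : ℝ, 0 < p ∧ m = p ^ 2 ∧ √m = p :=
  ⟨√m, Real.sqrt_pos.2 hm, (Real.sq_sqrt hm.le).symm, rfl⟩

/-- `ff ρ - s² = s² (ρ - al)²/(ρ (1 - ρ))` -/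
theorem ff_eq {m n ρ : ℝ} (hm : 0 < m) (hn : 0 < n) (h0 : 0 < ρ) (h1 : ρ < 1) :
    ff m n ρ = (√m + √n) ^ 2 + (√m + √n) ^ 2 * (ρ - al m n) ^ 2 / (ρ * (1 - ρ)) := by
  obtain ⟨p, hp, hmp, hsp⟩ := exitAlg_sq hm
  obtain ⟨q, hq, hnq, hsq⟩ := exitAlg_sq hn
  unfold ff al
  rw [hsp, hsq, hmp, hnq]
  have h2 : 1 - ρ ≠ 0 := by linarith
  have h3 : p + q ≠ 0 := by positivity
  field_simp
  ring

theorem al_pos {m n : ℝ} (hm : 0 < m) (hn : 0 < n) : 0 < al m n := by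
  unfold al
  have := Real.sqrt_pos.2 hm
  have := Real.sqrt_pos.2 hn
  positivity

theorem al_lt_one {m n : ℝ} (hm : 0 < m) (hn : 0 < n) : al m n < 1 := by
  unfold al
  have h1 := Real.sqrt_pos.2 hm
  have h2 := Real.sqrt_pos.2 hn
  rw [div_lt_one (by positivity)]
  linarith

theorem m_eq {m n : ℝ} (hm : 0 < m) (hn : 0 < n) : m = al m n ^ 2 * (√m + √n) ^ 2 := by
  obtain ⟨p, hp, hmp, hsp⟩ := exitAlg_sq hm
  obtain ⟨q, hq, hnq, hsq⟩ := exitAlg_sq hn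
  unfold al
  rw [hsp, hsq]
  have h3 : p + q ≠ 0 := by positivity
  rw [div_pow, div_mul_cancel₀ _ (pow_ne_zero 2 h3)]
  exact hmp

theorem n_eq {m n : ℝ} (hm : 0 < m) (hn : 0 < n) : n = (1 - al m n) ^ 2 * (√m + √n) ^ 2 := by
  obtain ⟨p, hp, hmp, hsp⟩ := exitAlg_sq hm
  obtain ⟨q, hq, hnq, hsq⟩ := exitAlg_sq hn
  unfold al
  rw [hsp, hsq]
  have h3 : p + q ≠ 0 := by positivity
  have h4 : 1 - p / (p + q) = q / (p + q) := by field_simp; ring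
  rw [h4, div_pow, div_mul_cancel₀ _ (pow_ne_zero 2 h3)]
  exact hnq

theorem Ph_eq {m n : ℝ} (hm : 0 < m) (hn : 0 < n) :
    Ph m n = (√m + √n) ^ 2 / (al m n * (1 - al m n)) := by
  obtain ⟨p, hp, hmp, hsp⟩ := exitAlg_sq hm
  obtain ⟨q, hq, hnq, hsq⟩ := exitAlg_sq hn
  unfold Ph al
  rw [hsp, hsq]
  have h3 : p + q ≠ 0 := by positivity
  have h4 : 1 - p / (p + q) = q / (p + q) := by field_simp; ring
  rw [h4]
  field_simp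

theorem al_swap {m n : ℝ} (hm : 0 < m) (hn : 0 < n) : al n m = 1 - al m n := by
  obtain ⟨p, hp, hmp, hsp⟩ := exitAlg_sq hm
  obtain ⟨q, hq, hnq, hsq⟩ := exitAlg_sq hn
  unfold al
  rw [hsp, hsq]
  have h3 : p + q ≠ 0 := by positivity
  have h4 : q + p ≠ 0 := by positivity
  field_simp
  ring

theorem Ph_swap (m n : ℝ) : Ph n m = Ph m n := by
  unfold Ph
  rw [add_comm (√n) (√m), mul_comm (√n) (√m)]

theorem ff_swap (m n ρ : ℝ) : ff n m ρ = ff m n (1 - ρ) := by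
  unfold ff
  rw [sub_sub_cancel, add_comm]

/-- `m/al³ + n/(1-al)³ = Ph` -/
theorem Ph_eq' {m n : ℝ} (hm : 0 < m) (hn : 0 < n) :
    m / al m n ^ 3 + n / (1 - al m n) ^ 3 = Ph m n := by
  obtain ⟨p, hp, hmp, hsp⟩ := exitAlg_sq hm
  obtain ⟨q, hq, hnq, hsq⟩ := exitAlg_sq hn
  unfold Ph al
  rw [hsp, hsq, hmp, hnq]
  have h3 : p + q ≠ 0 := by positivity
  have h4 : 1 - p / (p + q) = q / (p + q) := by field_simp; ring
  rw [h4]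
  field_simp
  ring

/-- `m/a² - n/(1-a)²` in terms of `al` -/
theorem dff_eq {m n a : ℝ} (hm : 0 < m) (hn : 0 < n) (h0 : 0 < a) (h1 : a < 1) :
    m / a ^ 2 - n / (1 - a) ^ 2 = (√m + √n) ^ 2 * (al m n - a) / (a * (1 - a)) *
      (al m n / a + (1 - al m n) / (1 - a)) := by
  obtain ⟨p, hp, hmp, hsp⟩ := exitAlg_sq hm
  obtain ⟨q, hq, hnq, hsq⟩ := exitAlg_sq hn
  unfold al
  rw [hsp, hsq, hmp, hnq]
  have h2 : 1 - a ≠ 0 := by linarith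
  have h3 : p + q ≠ 0 := by positivity
  field_simp
  ring

end BGE
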