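import Pool.Agent.BGE.Defs

/-!
BGE / D1. Elementary inequalities for the shape function `mu a b = a + b + 2 √(a b)` and its
tangent functional `ell σ a b = a + b + p a + b/p`, `p = √((1-σ)/σ)`. Note `ell σ a b` is linear
in `(a, b)`; `1 + p² = 1/σ`, `p + 1/p = 1/√(σ(1-σ)) ≥ 2`.

Basic identity, for `a, b ≥ 0`, `p > 0`: `2 √(a b) = p a + b/p - (√(p a) - √(b/p))²`. With
`l = a + b`, `d = a - σ l`: `p a - b/p = (p + 1/p) d`, and
`(√(pa) - √(b/p))² (√(pa) + √(b/p))² = (p a - b/p)²`.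

* `ell_sub_mu`: `ell σ a b - mu a b ≥ 2 d²/l` (`(√(pa) + √(b/p))² ≤ (p + 1/p)(a + b)` by
  Cauchy-Schwarz).
* `ell_sub_mu_le`: if `κ ≤ σ ≤ 1-κ` and `a, b ≥ κ l/2` then `ell σ a b - mu a b ≤ (2/κ²) d²/l`
  (`(√(pa) + √(b/p))² ≥ p a + b/p ≥ (p + 1/p) κ l/2` and `p + 1/p ≤ 1/κ`).
* `mu_concave`: for `a1, b1, a2, b2 ≥ 0`, `l1 = a1 + b1 > 0`, `l2 = a2 + b2 > 0`,
  `d = a1 - l1 (a1+a2)/(l1+l2)`:
  `mu a1 b1 + mu a2 b2 ≤ mu (a1+a2) (b1+b2) - 2 d² (1/l1 + 1/l2)`.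
  Proof: let `A = a1+a2`, `B = b1+b2`. If `A = 0` or `B = 0` then `d = 0` and equality holds.
  Otherwise take `σ = A/(A+B)`; `ell σ A B = mu A B`, `ell` is additive and `ell_sub_mu` applies to
  both terms, with `d` and `-d`.
* `mu_superadd`: `mu a1 b1 + mu a2 b2 ≤ mu (a1+a2) (b1+b2)` for nonnegative arguments.
* `mu_mono`, and `mu a b ≤ 2 (a + b)`.
-/

namespace BGE

/-- `p = √((1-σ)/σ)` satisfies `σ p² = 1 - σ`. -/
private theorem mg_p {σ : ℝ} (h0 : 0 < σ) (h1 : σ < 1) :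
    0 < √((1 - σ) / σ) ∧ σ * √((1 - σ) / σ) ^ 2 = 1 - σ := by
  have h2 : 0 < (1 - σ) / σ := div_pos (by linarith) h0
  refine ⟨Real.sqrt_pos.2 h2, ?_⟩
  rw [Real.sq_sqrt h2.le]
  field_simp

/-- The difference of the tangent functional and the shape function. -/
private theorem mg_diff {σ a b : ℝ} (h0 : 0 < σ) (h1 : σ < 1) (ha : 0 ≤ a) (hb : 0 ≤ b) :
    ell σ a b - mu a b = (√((1 - σ) / σ) * √a - √b) ^ 2 / √((1 - σ) / σ) := by
  obtain ⟨hp, -⟩ := mg_p h0 h1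
  unfold ell mu
  set p := √((1 - σ) / σ)
  rw [Real.sqrt_mul ha, eq_div_iff hp.ne']
  have e1 : b / p * p = b := div_mul_cancel₀ _ hp.ne'
  have e2 := Real.sq_sqrt ha
  have e3 := Real.sq_sqrt hb
  calc (a + b + p * a + b / p - (a + b + 2 * (√a * √b))) * p
      = p ^ 2 * a + b / p * p - 2 * p * √a * √b := by ring
    _ = p ^ 2 * a + b - 2 * p * √a * √b := by rw [e1]
    _ = p ^ 2 * (√a) ^ 2 + (√b) ^ 2 - 2 * p * √a * √b := by rw [e2, e3]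
    _ = (p * √a - √b) ^ 2 := by ring

private theorem mg_d {σ a b : ℝ} (h0 : 0 < σ) (h1 : σ < 1) (ha : 0 ≤ a) (hb : 0 ≤ b) :
    a - σ * (a + b) = σ * ((√((1 - σ) / σ) * √a - √b) * (√((1 - σ) / σ) * √a + √b)) := by
  obtain ⟨hp, hp2⟩ := mg_p h0 h1
  set p := √((1 - σ) / σ)
  have e2 := Real.sq_sqrt ha
  have e3 := Real.sq_sqrt hb
  calc a - σ * (a + b) = (1 - σ) * a - σ * b := by ring
    _ = (σ * p ^ 2) * (√a) ^ 2 - σ * (√b) ^ 2 := by rw [hp2, e2, e3]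
    _ = _ := by ring

theorem ell_add (σ a b a' b' : ℝ) : ell σ (a + a') (b + b') = ell σ a b + ell σ a' b' := by
  unfold ell
  ring

theorem ell_sub_mu {σ a b : ℝ} (h0 : 0 < σ) (h1 : σ < 1) (ha : 0 ≤ a) (hb : 0 ≤ b)
    (hab : 0 < a + b) : 2 * (a - σ * (a + b)) ^ 2 / (a + b) ≤ ell σ a b - mu a b := by
  obtain ⟨hp, hp2⟩ := mg_p h0 h1
  rw [mg_diff h0 h1 ha hb, mg_d h0 h1 ha hb, div_le_div_iff₀ hab hp]
  set p := √((1 - σ) / σ)
  have e2 := Real.sq_sqrt ha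
  have e3 := Real.sq_sqrt hb
  have c1 : σ * (p * √a + √b) ^ 2 ≤ a + b := by
    have h2 : (p * √a + √b) ^ 2 ≤ (p ^ 2 + 1) * (a + b) := by
      calc (p * √a + √b) ^ 2 ≤ (p ^ 2 + 1) * (√a ^ 2 + √b ^ 2) := by
            nlinarith [sq_nonneg (√a - p * √b)]
        _ = (p ^ 2 + 1) * (a + b) := by rw [e2, e3]
    calc σ * (p * √a + √b) ^ 2 ≤ σ * ((p ^ 2 + 1) * (a + b)) := by gcongr
      _ = (σ * p ^ 2 + σ) * (a + b) := by ring
      _ = a + b := by rw [hp2]; ring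
  have c2 : 2 * σ * p ≤ 1 := by
    have h2 : 2 * σ * p ≤ σ * (1 + p ^ 2) := by nlinarith [sq_nonneg (p - 1)]
    have h3 : σ * (1 + p ^ 2) = 1 := by
      calc σ * (1 + p ^ 2) = σ + σ * p ^ 2 := by ring
        _ = 1 := by rw [hp2]; ring
    linarith
  have hd : 0 ≤ (p * √a - √b) ^ 2 := sq_nonneg _
  calc 2 * (σ * ((p * √a - √b) * (p * √a + √b))) ^ 2 * p
      = (p * √a - √b) ^ 2 * ((2 * σ * p) * (σ * (p * √a + √b) ^ 2)) := by ring
    _ ≤ (p * √a - √b) ^ 2 * (1 * (a + b)) := by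
        refine mul_le_mul_of_nonneg_left ?_ hd
        exact mul_le_mul c2 c1 (by positivity) zero_le_one
    _ = (p * √a - √b) ^ 2 * (a + b) := by rw [one_mul]

theorem mu_le_ell {σ a b : ℝ} (h0 : 0 < σ) (h1 : σ < 1) (ha : 0 ≤ a) (hb : 0 ≤ b) :
    mu a b ≤ ell σ a b := by
  obtain ⟨hp, -⟩ := mg_p h0 h1
  have h2 := mg_diff h0 h1 ha hb
  have h3 : 0 ≤ (√((1 - σ) / σ) * √a - √b) ^ 2 / √((1 - σ) / σ) := by positivity
  linarith

theorem ell_sub_mu_le {κ σ a b : ℝ} (hκ : 0 < κ) (h0 : κ ≤ σ) (h1 : σ ≤ 1 - κ)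
    (hab : 0 < a + b) (ha : κ / 2 * (a + b) ≤ a) (hb : κ / 2 * (a + b) ≤ b) :
    ell σ a b - mu a b ≤ 2 / κ ^ 2 * (a - σ * (a + b)) ^ 2 / (a + b) := by
  have ha0 : 0 ≤ a := le_trans (by positivity) ha
  have hb0 : 0 ≤ b := le_trans (by positivity) hb
  have hσ0 : 0 < σ := lt_of_lt_of_le hκ h0
  have hσ1 : σ < 1 := by linarith
  obtain ⟨hp, hp2⟩ := mg_p hσ0 hσ1
  rw [mg_diff hσ0 hσ1 ha0 hb0, mg_d hσ0 hσ1 ha0 hb0, div_le_div_iff₀ hp hab]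
  set p := √((1 - σ) / σ)
  have e2 := Real.sq_sqrt ha0
  have e3 := Real.sq_sqrt hb0
  have c1 : κ / 2 * (a + b) ≤ σ * (p * √a + √b) ^ 2 := by
    have h2 : p ^ 2 * a + b ≤ (p * √a + √b) ^ 2 := by
      have h3 : 0 ≤ 2 * p * √a * √b := by positivity
      calc p ^ 2 * a + b = p ^ 2 * (√a) ^ 2 + (√b) ^ 2 := by rw [e2, e3]
        _ ≤ p ^ 2 * (√a) ^ 2 + (√b) ^ 2 + 2 * p * √a * √b := by linarith
        _ = (p * √a + √b) ^ 2 := by ring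
    have h4 : κ / 2 * (a + b) ≤ σ * (p ^ 2 * a + b) := by
      have h5 : σ * (p ^ 2 * a + b) = (1 - σ) * a + σ * b := by
        calc σ * (p ^ 2 * a + b) = (σ * p ^ 2) * a + σ * b := by ring
          _ = _ := by rw [hp2]
      rw [h5]
      have h6 : (1 - σ) * (κ / 2 * (a + b)) ≤ (1 - σ) * a :=
        mul_le_mul_of_nonneg_left ha (by linarith)
      have h7 : σ * (κ / 2 * (a + b)) ≤ σ * b := mul_le_mul_of_nonneg_left hb hσ0.le
      linarith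
    exact h4.trans (mul_le_mul_of_nonneg_left h2 hσ0.le)
  have c2 : κ ≤ σ * p := by
    have h2 : κ ^ 2 ≤ (σ * p) ^ 2 := by
      have h3 : (σ * p) ^ 2 = σ * (1 - σ) := by
        calc (σ * p) ^ 2 = σ * (σ * p ^ 2) := by ring
          _ = _ := by rw [hp2]
      rw [h3]
      nlinarith [mul_nonneg (sub_nonneg.2 h0) (sub_nonneg.2 h1)]
    exact le_of_sq_le_sq h2 (by positivity)
  have hd : 0 ≤ (p * √a - √b) ^ 2 := sq_nonneg _
  have h8 : κ ^ 2 / 2 * (a + b) ≤ (σ * p) * (σ * (p * √a + √b) ^ 2) := by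
    calc κ ^ 2 / 2 * (a + b) = κ * (κ / 2 * (a + b)) := by ring
      _ ≤ _ := mul_le_mul c2 c1 (by positivity) (by positivity)
  calc (p * √a - √b) ^ 2 * (a + b)
      = 2 / κ ^ 2 * (p * √a - √b) ^ 2 * (κ ^ 2 / 2 * (a + b)) := by field_simp
    _ ≤ 2 / κ ^ 2 * (p * √a - √b) ^ 2 * ((σ * p) * (σ * (p * √a + √b) ^ 2)) :=
        mul_le_mul_of_nonneg_left h8 (by positivity)
    _ = 2 / κ ^ 2 * (σ * ((p * √a - √b) * (p * √a + √b))) ^ 2 * p := by ring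

theorem mu_concave {a1 b1 a2 b2 : ℝ} (ha1 : 0 ≤ a1) (hb1 : 0 ≤ b1) (ha2 : 0 ≤ a2)
    (hb2 : 0 ≤ b2) (h1 : 0 < a1 + b1) (h2 : 0 < a2 + b2) :
    mu a1 b1 + mu a2 b2 ≤ mu (a1 + a2) (b1 + b2) -
      2 * (a1 - (a1 + b1) * (a1 + a2) / (a1 + b1 + (a2 + b2))) ^ 2 *
        (1 / (a1 + b1) + 1 / (a2 + b2)) := by
  rcases (add_nonneg ha1 ha2).eq_or_lt with hA | hA
  · have e1 : a1 = 0 := by linarith
    have e2 : a2 = 0 := by linarith
    subst e1 e2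
    unfold mu
    simp
  rcases (add_nonneg hb1 hb2).eq_or_lt with hB | hB
  · have e1 : b1 = 0 := by linarith
    have e2 : b2 = 0 := by linarith
    subst e1 e2
    have h3 : a1 - (a1 + 0) * (a1 + a2) / (a1 + 0 + (a2 + 0)) = 0 := by
      rw [add_zero, add_zero, mul_div_assoc, div_self hA.ne', mul_one, sub_self]
    rw [h3]
    unfold mu
    simp
  set A := a1 + a2 with hAdef
  set B := b1 + b2 with hBdef
  set σ := A / (A + B) with hσ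
  have hAB : 0 < A + B := by linarith
  have hσ0 : 0 < σ := div_pos hA hAB
  have hσ1 : σ < 1 := by
    rw [hσ, div_lt_one hAB]
    linarith
  have hσA : σ * (A + B) = A := div_mul_cancel₀ _ hAB.ne'
  have hell : ell σ A B = mu A B := by
    have h3 := mg_diff hσ0 hσ1 hA.le hB.le
    have h4 : (1 - σ) / σ = B / A := by
      have h5 : 1 - σ = B / (A + B) := by
        rw [hσ]
        field_simp
        ring
      rw [h5, hσ]
      field_simp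
    rw [h4, Real.sqrt_div hB.le, div_mul_cancel₀ _ (Real.sqrt_pos.2 hA).ne', sub_self] at h3
    simp only [ne_eq, OfNat.ofNat_ne_zero, not_false_eq_true, zero_pow, zero_div] at h3
    linarith
  have hd : a1 - (a1 + b1) * A / (a1 + b1 + (a2 + b2)) = a1 - σ * (a1 + b1) := by
    have h3 : a1 + b1 + (a2 + b2) = A + B := by rw [hAdef, hBdef]; ring
    rw [h3, hσ]
    ring
  rw [hd]
  have k1 := ell_sub_mu hσ0 hσ1 ha1 hb1 h1
  have k2 := ell_sub_mu hσ0 hσ1 ha2 hb2 h2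
  have k3 := ell_add σ a1 b1 a2 b2
  have k4 : a2 - σ * (a2 + b2) = -(a1 - σ * (a1 + b1)) := by
    have h3 : σ * (A + B) = σ * (a1 + b1) + σ * (a2 + b2) := by rw [hAdef, hBdef]; ring
    linarith
  rw [k4, neg_sq] at k2
  rw [← hell, k3]
  have k5 : 2 * (a1 - σ * (a1 + b1)) ^ 2 * (1 / (a1 + b1) + 1 / (a2 + b2)) =
      2 * (a1 - σ * (a1 + b1)) ^ 2 / (a1 + b1) + 2 * (a1 - σ * (a1 + b1)) ^ 2 / (a2 + b2) := by
    ring
  rw [k5]
  linarith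

theorem mu_superadd {a1 b1 a2 b2 : ℝ} (ha1 : 0 ≤ a1) (hb1 : 0 ≤ b1) (ha2 : 0 ≤ a2)
    (hb2 : 0 ≤ b2) : mu a1 b1 + mu a2 b2 ≤ mu (a1 + a2) (b1 + b2) := by
  rcases (add_nonneg ha1 hb1).eq_or_lt with h1 | h1
  · have e1 : a1 = 0 := by linarith
    have e2 : b1 = 0 := by linarith
    subst e1 e2
    unfold mu
    simp
  rcases (add_nonneg ha2 hb2).eq_or_lt with h2 | h2
  · have e1 : a2 = 0 := by linarith
    have e2 : b2 = 0 := by linarith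
    subst e1 e2
    unfold mu
    simp
  have h3 := mu_concave ha1 hb1 ha2 hb2 h1 h2
  have h4 : 0 ≤ 2 * (a1 - (a1 + b1) * (a1 + a2) / (a1 + b1 + (a2 + b2))) ^ 2 *
      (1 / (a1 + b1) + 1 / (a2 + b2)) := by positivity
  linarith

theorem mu_mono {a b a' b' : ℝ} (ha : 0 ≤ a) (hb : 0 ≤ b) (h1 : a ≤ a') (h2 : b ≤ b') :
    mu a b ≤ mu a' b' := by
  unfold mu
  have h3 : √(a * b) ≤ √(a' * b') :=
    Real.sqrt_le_sqrt (mul_le_mul h1 h2 hb (ha.trans h1))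
  linarith

theorem mu_le_two {a b : ℝ} (ha : 0 ≤ a) (hb : 0 ≤ b) : mu a b ≤ 2 * (a + b) := by
  unfold mu
  rw [Real.sqrt_mul ha]
  have e2 := Real.sq_sqrt ha
  have e3 := Real.sq_sqrt hb
  nlinarith [sq_nonneg (√a - √b)]

end BGE
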