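import Pool.Agent.BGE.Rot
import Pool.Agent.BGE.Exit
import Pool.Agent.BGE.ExitAlg
import Pool.Agent.BGE.MuGeo

/-!
BGE / S1. Exit points in a regular environment (deterministic).

Corner `c = cor σ A n`, `PL = (c.1 + 1, PL.2)`, `PR = (PR.1, c.2 + 1)`; target `(I, 0)`,
`|I| ≤ n^{2/3}`. With S weights of rate `ρ = rA = alc σ + B Y n^{-1/3}` and W weights of rate `1 - ρ`
(in the sense of `WalkGood`) the exit is on the W side at a site not below `PL`; with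
`ρ = rB = alc σ - B Y n^{-1/3}` it is on the S side at a site not to the left of `PR`. The constant
`B` depends on `κ` only, `C0` on `κ` and `B`.

Proof (first part; the second one is the mirror image). Let `m = I - c.1`, `n' = -c.2`, both are
between `(κ/2) n` and `2 n`. `alc σ = al (σ n) ((1-σ) n)`, `|m - σ n|, |n' - (1-σ) n| ≤ 5 Y n^{2/3}`,
so `|al m n' - alc σ| ≤ C Y n^{-1/3}`. `ff m n' ρ = m/ρ + n'/(1-ρ)` and (`ff_eq`)
`ff a b ρ = mu a b + (√a + √b)² (ρ - al a b)²/(ρ (1-ρ))`.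
Write `D` for `n^{1/3}`.
(1) S exit at `k`: its value is at most `k/ρ + Y (D + k/D) + mu (m-k) n' + err`, where
`k/ρ + mu (m-k) n' = ff m n' ρ - (√(m-k)+√n')² (ρ - al (m-k) n')²/(ρ(1-ρ))` and
`ρ - al (m-k) n' ≥ (B/2) Y/D + c k/n`, so it is at most
`ff m n' ρ - c (B² Y² D + B Y k/D + k²/n) + Y (D + k/D) + err`. Here `err` bounds
`T ω (c.1+k, c.2+1) (I,0) - muz`: if the exit site is in `Rgn σ (40 lam (2n)^{2/3}) (2n)`, in
particular if `k ≤ 30 lam n^{2/3}`, and the pair is in the cone `κ/4` then `err ≤ 2 Y D`; if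
`k > 30 lam n^{2/3}` and the pair is in the cone then `err ≤ 3 lam D ≤ (c/4) k²/n`; if the pair is not
in the cone then `k ≥ c n` and `err ≤ lam √(4n) ≤ (c/4) k²/n` (`n ≥ C0 lam³`). So for `B` large every
S exit has a value `≤ ff m n' ρ - (c/2) B² Y² D`.
(2) W exit at a height `j` with `c.2 + j < PL.2`, i.e. `j ≤ 9 Y n^{2/3}`: here
`ρ - al m (n'-j) ≥ (B - C) Y/D ≥ (B/2) Y/D`; the value is at most
`ff m n' ρ - c B² Y² D + Y (D + j/D) + 2 Y D ≤ ff m n' ρ - (c/2) B² Y² D` for `B` large.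
(3) W exit at the height `j*`, an integer with `|al m (n'-j*) - ρ| ≤ C/n`; then `j* ≤ C B Y n^{2/3}`
and the value is at least `ff m n' ρ - C - Y (D + j*/D) - err ≥ ff m n' ρ - C'' B Y² D`, where
`err ≤ 2 Y D` if the exit site is in the parallelogram of `FiE`; otherwise `j* > 30 lam n^{2/3}`, so
`lam ≤ C B Y` and the crude bound `err ≤ 3 lam D ≤ 3 C B Y D` is enough.
For `B` large (`(c/2) B² > C'' B`) the optimal exit (`exists_exit`, `exitW_le`) is on the W side at a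
height `h` with `PL.2 ≤ c.2 + h`.
-/

namespace BGE

/-! ### The rate `al` -/

private theorem xd_mu {a b : ℝ} (ha : 0 ≤ a) (hb : 0 ≤ b) : mu a b = (√a + √b) ^ 2 := by
  unfold mu
  rw [Real.sqrt_mul ha]
  have e1 := Real.sq_sqrt ha
  have e2 := Real.sq_sqrt hb
  linear_combination -e1 - e2

private theorem xd_mu_comm (a b : ℝ) : mu a b = mu b a := by
  unfold mu
  rw [mul_comm a b, add_comm a b]

private theorem xd_al_sub {a a' b : ℝ} (ha : 0 < a) (ha' : 0 ≤ a') (hb : 0 < b) :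
    al a b - al a' b = √b * (a - a') / ((√a + √a') * (√a + √b) * (√a' + √b)) := by
  unfold al
  have e1 := Real.sq_sqrt ha.le
  have e2 := Real.sq_sqrt ha'
  have e3 := Real.sq_sqrt hb.le
  have p1 := Real.sqrt_pos.2 ha
  have p2 := Real.sqrt_nonneg a'
  have p3 := Real.sqrt_pos.2 hb
  set p := √a
  set q := √a'
  set s := √b
  rw [← e1, ← e2]
  have h1 : p + q ≠ 0 := by positivity
  have h2 : p + s ≠ 0 := by positivity
  have h3 : q + s ≠ 0 := by positivity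
  field_simp
  ring

private theorem xd_al_low {κ N a a' b : ℝ} (hκ : 0 < κ) (hκ2 : κ ≤ 1 / 2) (hN : 0 < N)
    (ha : 0 < a) (ha' : 0 ≤ a') (haa : a' ≤ a) (haN : a ≤ N) (hb : κ / 2 * N ≤ b) (hbN : b ≤ N) :
    κ / 8 * ((a - a') / N) ≤ al a b - al a' b := by
  have hb0 : 0 < b := lt_of_lt_of_le (by positivity) hb
  rw [xd_al_sub ha ha' hb0]
  have p1 := Real.sqrt_pos.2 ha
  have p2 := Real.sqrt_nonneg a'
  have p3 := Real.sqrt_pos.2 hb0
  have t0 := Real.sqrt_pos.2 hN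
  have tt := Real.sq_sqrt hN.le
  have q1 : √a ≤ √N := Real.sqrt_le_sqrt haN
  have q2 : √a' ≤ √N := Real.sqrt_le_sqrt (haa.trans haN)
  have q3 : √b ≤ √N := Real.sqrt_le_sqrt hbN
  have q4 : κ * √N ≤ √b := by
    apply Real.le_sqrt_of_sq_le
    have : (κ * √N) ^ 2 = κ ^ 2 * N := by rw [mul_pow, tt]
    rw [this]
    refine le_trans ?_ hb
    apply mul_le_mul_of_nonneg_right _ hN.le
    calc κ ^ 2 = κ * κ := by ring
      _ ≤ κ * (1 / 2) := mul_le_mul_of_nonneg_left hκ2 hκ.le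
      _ = κ / 2 := by ring
  set p := √a
  set q := √a'
  set s := √b
  set t := √N
  have hd : 0 < (p + q) * (p + s) * (q + s) := by positivity
  rw [le_div_iff₀ hd]
  have hden : (p + q) * (p + s) * (q + s) ≤ (2 * t) * (2 * t) * (2 * t) := by
    gcongr
    · linarith
    · linarith
    · linarith
  have h1 : 0 ≤ (a - a') / N := div_nonneg (by linarith) hN.le
  have h2 : κ / 8 * ((a - a') / N) * ((p + q) * (p + s) * (q + s)) ≤
      κ / 8 * ((a - a') / N) * ((2 * t) * (2 * t) * (2 * t)) :=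
    mul_le_mul_of_nonneg_left hden (by positivity)
  refine h2.trans ?_
  have h3 : κ / 8 * ((a - a') / N) * ((2 * t) * (2 * t) * (2 * t)) = κ * t * (a - a') := by
    have h4 : κ / 8 * ((a - a') / N) * ((2 * t) * (2 * t) * (2 * t)) =
        κ * t * (a - a') * (t ^ 2 / N) := by ring
    rw [h4, tt, div_self hN.ne', mul_one]
  rw [h3]
  exact mul_le_mul_of_nonneg_right q4 (by linarith)

private theorem xd_al_up {κ N a a' b : ℝ} (hκ : 0 < κ) (hN : 0 < N)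
    (ha : κ / 2 * N ≤ a) (ha' : κ / 2 * N ≤ a') (hb : 0 < b) :
    |al a b - al a' b| ≤ 2 * |a - a'| / (κ * N) := by
  have ha0 : 0 < a := lt_of_lt_of_le (by positivity) ha
  have ha0' : 0 < a' := lt_of_lt_of_le (by positivity) ha'
  rw [xd_al_sub ha0 ha0'.le hb, abs_div, abs_mul]
  have p1 := Real.sqrt_pos.2 ha0
  have p2 := Real.sqrt_pos.2 ha0'
  have p3 := Real.sqrt_pos.2 hb
  have hc : 0 < κ / 2 * N := by positivity
  have c0 := Real.sqrt_pos.2 hc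
  have cc := Real.sq_sqrt hc.le
  have q1 : √(κ / 2 * N) ≤ √a := Real.sqrt_le_sqrt ha
  have q2 : √(κ / 2 * N) ≤ √a' := Real.sqrt_le_sqrt ha'
  set p := √a
  set q := √a'
  set s := √b
  set t := √(κ / 2 * N)
  have hd : 0 < (p + q) * (p + s) * (q + s) := by positivity
  rw [abs_of_pos hd, abs_of_pos p3, div_le_div_iff₀ hd (by positivity)]
  have hden : κ / 2 * N * s ≤ (p + q) * (p + s) * (q + s) := by
    calc κ / 2 * N * s = t * s * t := by rw [← cc]; ring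
      _ ≤ (p + q) * (p + s) * (q + s) := by
          gcongr
          · linarith
          · linarith
          · linarith
  calc s * |a - a'| * (κ * N) = 2 * |a - a'| * (κ / 2 * N * s) := by ring
    _ ≤ 2 * |a - a'| * ((p + q) * (p + s) * (q + s)) :=
        mul_le_mul_of_nonneg_left hden (by positivity)

/-- the identity for `ff`, with `m ≥ 0` -/
private theorem xd_ff {m n ρ : ℝ} (hm : 0 ≤ m) (hn : 0 < n) (h0 : 0 < ρ) (h1 : ρ < 1) :
    ff m n ρ = mu m n + (√m + √n) ^ 2 * (ρ - al m n) ^ 2 / (ρ * (1 - ρ)) := by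
  rw [xd_mu hm hn.le]
  unfold ff al
  have e1 := Real.sq_sqrt hm
  have e2 := Real.sq_sqrt hn.le
  have p1 := Real.sqrt_nonneg m
  have p2 := Real.sqrt_pos.2 hn
  set p := √m
  set q := √n
  rw [← e1, ← e2]
  have h2 : 1 - ρ ≠ 0 := by linarith
  have h3 : p + q ≠ 0 := by positivity
  field_simp
  ring

/-! ### The core estimates -/

private structure CoreH (κ D N Y B r a b : ℝ) : Prop where
  k0 : 0 < κ
  k1 : κ ≤ 1 / 2
  D1 : 1 ≤ D
  N3 : N = D ^ 3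
  Nb : 128 / κ ^ 4 ≤ N
  Y1 : 1 ≤ Y
  Bb : 2000 / κ ^ 2 ≤ B
  a1 : 15 / 16 * κ * N ≤ a
  a2 : a ≤ N
  b1 : 15 / 16 * κ * N ≤ b
  b2 : b ≤ N
  r0 : κ / 4 ≤ r
  r1 : κ / 4 ≤ 1 - r
  lo : B / 2 * (Y / D) ≤ r - al a b
  hi : r - al a b ≤ 2 * B * (Y / D)
  sm : 17 / κ * B * Y * D ^ 2 ≤ κ / 16 * N

section core

variable {κ D N Y B r a b : ℝ}

private theorem CoreH.pos (h : CoreH κ D N Y B r a b) :
    0 < D ∧ 0 < N ∧ 0 < B ∧ 8000 ≤ B ∧ 0 < a ∧ 0 < b ∧ 0 < r ∧ r < 1 ∧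
      κ / 2 * N ≤ a ∧ κ / 2 * N ≤ b ∧ 2000 ≤ κ ^ 2 * B ∧ 2000 ≤ κ * B ∧ 10000 ≤ κ * B ^ 2 := by
  have k0 := h.k0
  have k1 := h.k1
  have hD : 0 < D := by linarith [h.D1]
  have hN : 0 < N := by rw [h.N3]; positivity
  have hkN : 0 < κ * N := by positivity
  have hkB : 2000 ≤ κ ^ 2 * B := by
    have := h.Bb
    rwa [div_le_iff₀ (by positivity), mul_comm] at this
  have hB8 : 8000 ≤ B := by
    refine le_trans ?_ h.Bb
    rw [le_div_iff₀ (by positivity)]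
    have : κ ^ 2 ≤ (1 / 2) ^ 2 := pow_le_pow_left₀ k0.le k1 2
    linarith
  have hB0 : 0 < B := by linarith
  have hkB1 : 2000 ≤ κ * B := by
    have h1 : κ ^ 2 * B = κ * (κ * B) := by ring
    have h2 : κ * (κ * B) ≤ 1 / 2 * (κ * B) := mul_le_mul_of_nonneg_right k1 (by positivity)
    have h3 : 0 < κ * B := by positivity
    linarith
  have hkB2 : 10000 ≤ κ * B ^ 2 := by
    have h1 : κ * B ^ 2 = κ * B * B := by ring
    rw [h1]
    have h2 : (2000 : ℝ) * 8000 ≤ κ * B * B := mul_le_mul hkB1 hB8 (by norm_num) (by positivity)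
    linarith
  have ha : κ / 2 * N ≤ a := by
    have := h.a1
    linarith
  have hb : κ / 2 * N ≤ b := by
    have := h.b1
    linarith
  have hkN2 : 0 < κ / 2 * N := by positivity
  exact ⟨hD, hN, hB0, hB8, by linarith, by linarith, by linarith [h.r0],
    by linarith [h.r1], ha, hb, hkB, hkB1, hkB2⟩

/-- exits on the bad side -/
private theorem xd_bad (h : CoreH κ D N Y B r a b) (k : ℝ) (hk0 : 0 ≤ k) (hk : k ≤ a)
    (s t e : ℝ) (hs : s ≤ k / r + Y * (D + k / D)) (ht : t ≤ mu (a - k) b + e)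
    (he : e ≤ κ / 32 * (B ^ 2 * Y ^ 2 * D) + κ ^ 3 / 128 * (k ^ 2 / N)) :
    s + t ≤ ff a b r - κ / 64 * (B ^ 2 * Y ^ 2 * D) := by
  obtain ⟨hD, hN, hB, hB8, ha, hb, hr, hr1, ha2, hb2, hkB, hkB1, hkB2⟩ := h.pos
  have k0 := h.k0
  have k1 := h.k1
  have Y1 := h.Y1
  have hak : 0 ≤ a - k := by linarith
  have e1 := xd_ff hak hb hr hr1
  have e2 : k / r + ff (a - k) b r = ff a b r := by
    unfold ff
    ring
  have hlow := xd_al_low k0 k1 hN ha hak (by linarith) h.a2 hb2 h.b2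
  rw [sub_sub_cancel] at hlow
  have hlo := h.lo
  set u : ℝ := B / 2 * (Y / D) with hu
  set v : ℝ := κ / 8 * (k / N) with hv
  have hu0 : 0 ≤ u := by positivity
  have hv0 : 0 ≤ v := by positivity
  have hgap1 : (u + v) ^ 2 ≤ (r - al (a - k) b) ^ 2 :=
    pow_le_pow_left₀ (by positivity) (by linarith) 2
  have hrr : r * (1 - r) ≤ 1 := mul_le_one₀ hr1.le (by linarith) (by linarith)
  have hrr0 : 0 < r * (1 - r) := mul_pos hr (by linarith)
  have hsq : κ / 2 * N ≤ (√(a - k) + √b) ^ 2 := by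
    have q1 := Real.sqrt_nonneg (a - k)
    have q2 := Real.sqrt_nonneg b
    calc κ / 2 * N ≤ b := hb2
      _ = √b ^ 2 := (Real.sq_sqrt hb.le).symm
      _ ≤ (√(a - k) + √b) ^ 2 := pow_le_pow_left₀ q2 (by linarith) 2
  have hgap : κ / 2 * N * (u + v) ^ 2 ≤
      (√(a - k) + √b) ^ 2 * (r - al (a - k) b) ^ 2 / (r * (1 - r)) := by
    rw [le_div_iff₀ hrr0]
    have h1 : κ / 2 * N * (u + v) ^ 2 ≤ (√(a - k) + √b) ^ 2 * (r - al (a - k) b) ^ 2 :=
      mul_le_mul hsq hgap1 (sq_nonneg _) (sq_nonneg _)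
    have h2 : 0 ≤ κ / 2 * N * (u + v) ^ 2 := by positivity
    exact (mul_le_of_le_one_right h2 hrr).trans h1
  have hexp : κ / 2 * N * (u + v) ^ 2 = κ / 8 * (B ^ 2 * Y ^ 2 * D) +
      κ ^ 2 / 16 * B * Y * (k / D) + κ ^ 3 / 128 * (k ^ 2 / N) := by
    rw [hu, hv, h.N3]
    field_simp
    ring
  have hw : 0 ≤ k / D := by positivity
  have hYw : Y * (k / D) ≤ κ ^ 2 / 16 * B * Y * (k / D) := by
    have h1 : 0 ≤ Y * (k / D) := by positivity
    have h2 : κ ^ 2 / 16 * B * Y * (k / D) = (κ ^ 2 * B / 16) * (Y * (k / D)) := by ring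
    rw [h2]
    exact le_mul_of_one_le_left h1 (by linarith)
  have hYD : Y * D ≤ κ / 32 * (B ^ 2 * Y ^ 2 * D) := by
    have h1 : 0 < Y * D := by positivity
    have h2 : 10000 ≤ κ * B ^ 2 * Y := hkB2.trans (le_mul_of_one_le_right (by positivity) Y1)
    have h3 : κ / 32 * (B ^ 2 * Y ^ 2 * D) = (κ * B ^ 2 * Y) / 32 * (Y * D) := by ring
    rw [h3]
    exact le_mul_of_one_le_left h1.le (by linarith)
  have hU : 0 ≤ κ * (B ^ 2 * Y ^ 2 * D) := by positivity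
  have hmul : Y * (D + k / D) = Y * D + Y * (k / D) := by ring
  rw [hmul] at hs
  linarith

/-- exits on the good side which are too low -/
private theorem xd_low (h : CoreH κ D N Y B r a b) (j : ℝ) (hj0 : 0 ≤ j) (hj : j ≤ 9 * Y * D ^ 2)
    (s t : ℝ) (hs : s ≤ j / (1 - r) + Y * (D + j / D))
    (ht : t ≤ mu a (b - j) + 2 * Y * D) :
    s + t ≤ ff a b r - κ / 64 * (B ^ 2 * Y ^ 2 * D) := by
  obtain ⟨hD, hN, hB, hB8, ha, hb, hr, hr1, ha2, hb2, hkB, hkB1, hkB2⟩ := h.pos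
  have k0 := h.k0
  have k1 := h.k1
  have Y1 := h.Y1
  have hjN : j ≤ κ / 16 * N := by
    refine hj.trans (le_trans ?_ h.sm)
    have h1 : 0 < Y * D ^ 2 := by positivity
    have h2 : (9 : ℝ) ≤ 17 / κ * B := by
      rw [div_mul_eq_mul_div, le_div_iff₀ k0]
      linarith
    calc 9 * Y * D ^ 2 = 9 * (Y * D ^ 2) := by ring
      _ ≤ 17 / κ * B * (Y * D ^ 2) := mul_le_mul_of_nonneg_right h2 h1.le
      _ = 17 / κ * B * Y * D ^ 2 := by ring
  have hbj : κ / 2 * N ≤ b - j := by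
    have := h.b1
    have : 0 < κ * N := by positivity
    linarith
  have hbj0 : 0 < b - j := lt_of_lt_of_le (by positivity) hbj
  have e1 := xd_ff ha.le hbj0 hr hr1
  have e2 : j / (1 - r) + ff a (b - j) r = ff a b r := by
    unfold ff
    ring
  have hup := xd_al_up k0 hN hb2 hbj ha
  rw [sub_sub_cancel, abs_of_nonneg hj0] at hup
  have hsw1 := al_swap hb ha
  have hsw2 := al_swap hbj0 ha
  have hdiff : al a (b - j) - al a b ≤ 18 / κ * (Y / D) := by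
    have h1 : al a (b - j) - al a b = al b a - al (b - j) a := by rw [hsw1, hsw2]; ring
    rw [h1]
    refine (le_abs_self _).trans (hup.trans ?_)
    rw [div_le_iff₀ (by positivity), h.N3]
    have h2 : 18 / κ * (Y / D) * (κ * D ^ 3) = 18 * Y * D ^ 2 := by
      field_simp
    rw [h2]
    linarith
  have hlo := h.lo
  set u : ℝ := B / 4 * (Y / D) with hu
  have hYD0 : 0 < Y / D := by positivity
  have hu1 : u ≤ r - al a (b - j) := by
    have h1 : 18 / κ ≤ B / 4 := by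
      rw [div_le_iff₀ k0]
      linarith
    have h2 : 18 / κ * (Y / D) ≤ B / 4 * (Y / D) := mul_le_mul_of_nonneg_right h1 hYD0.le
    have h3 : B / 2 * (Y / D) = u + B / 4 * (Y / D) := by rw [hu]; ring
    linarith
  have hu0 : 0 ≤ u := by positivity
  have hgap1 : u ^ 2 ≤ (r - al a (b - j)) ^ 2 := pow_le_pow_left₀ hu0 hu1 2
  have hrr : r * (1 - r) ≤ 1 := mul_le_one₀ hr1.le (by linarith) (by linarith)
  have hrr0 : 0 < r * (1 - r) := mul_pos hr (by linarith)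
  have hsq : κ / 2 * N ≤ (√a + √(b - j)) ^ 2 := by
    have q1 := Real.sqrt_nonneg a
    have q2 := Real.sqrt_nonneg (b - j)
    calc κ / 2 * N ≤ a := ha2
      _ = √a ^ 2 := (Real.sq_sqrt ha.le).symm
      _ ≤ (√a + √(b - j)) ^ 2 := pow_le_pow_left₀ q1 (by linarith) 2
  have hgap : κ / 2 * N * u ^ 2 ≤
      (√a + √(b - j)) ^ 2 * (r - al a (b - j)) ^ 2 / (r * (1 - r)) := by
    rw [le_div_iff₀ hrr0]
    have h1 : κ / 2 * N * u ^ 2 ≤ (√a + √(b - j)) ^ 2 * (r - al a (b - j)) ^ 2 :=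
      mul_le_mul hsq hgap1 (sq_nonneg _) (sq_nonneg _)
    have h2 : 0 ≤ κ / 2 * N * u ^ 2 := by positivity
    exact (mul_le_of_le_one_right h2 hrr).trans h1
  have hexp : κ / 2 * N * u ^ 2 = κ / 32 * (B ^ 2 * Y ^ 2 * D) := by
    rw [hu, h.N3]
    field_simp
    ring
  have hjD : Y * (j / D) ≤ 9 * Y ^ 2 * D := by
    have h1 : j / D ≤ 9 * Y * D := by
      rw [div_le_iff₀ hD]
      calc j ≤ 9 * Y * D ^ 2 := hj
        _ = 9 * Y * D * D := by ring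
    calc Y * (j / D) ≤ Y * (9 * Y * D) := mul_le_mul_of_nonneg_left h1 (by linarith)
      _ = 9 * Y ^ 2 * D := by ring
  have hYD : 3 * Y * D + 9 * Y ^ 2 * D ≤ κ / 64 * (B ^ 2 * Y ^ 2 * D) := by
    have h1 : 0 < Y ^ 2 * D := by positivity
    have h2 : Y * D ≤ Y ^ 2 * D := by
      have : Y ^ 2 * D = Y * (Y * D) := by ring
      rw [this]
      exact le_mul_of_one_le_left (by positivity) Y1
    have h4 : κ / 64 * (B ^ 2 * Y ^ 2 * D) = (κ * B ^ 2) / 64 * (Y ^ 2 * D) := by ring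
    rw [h4]
    have h5 : 12 * (Y ^ 2 * D) ≤ (κ * B ^ 2) / 64 * (Y ^ 2 * D) :=
      mul_le_mul_of_nonneg_right (by linarith) h1.le
    linarith
  have hmul : Y * (D + j / D) = Y * D + Y * (j / D) := by ring
  rw [hmul] at hs
  linarith

/-- the exit on the good side -/
private theorem xd_good (h : CoreH κ D N Y B r a b) : ∃ j : ℕ, 1 ≤ j ∧
    (j : ℝ) ≤ 17 / κ * B * Y * D ^ 2 ∧ (j : ℝ) ≤ κ / 16 * N ∧ ff a b r - 6 / κ ≤
      (j : ℝ) / (1 - r) + mu (a - 1) (b - j) := by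
  obtain ⟨hD, hN, hB, hB8, ha, hb, hr, hr1, ha2, hb2, hkB, hkB1, hkB2⟩ := h.pos
  have k0 := h.k0
  have k1 := h.k1
  have Y1 := h.Y1
  have D1 := h.D1
  have h1r : 0 < 1 - r := by linarith
  have hYD0 : 0 < Y / D := by positivity
  -- the critical height
  set x : ℝ := a * (1 - r) ^ 2 / r ^ 2 with hx
  have hx0 : 0 < x := by positivity
  have hsx : √x = √a * (1 - r) / r := by
    have h1 : x = (√a * (1 - r) / r) ^ 2 := by
      rw [hx, div_pow, mul_pow, Real.sq_sqrt ha.le]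
    rw [h1]
    exact Real.sqrt_sq (by positivity)
  have hpa := Real.sqrt_pos.2 ha
  have hal : al a x = r := by
    unfold al
    rw [hsx]
    field_simp
    ring
  have hsw1 := al_swap hb ha
  have hsw2 := al_swap hx0 ha
  have hlo := h.lo
  have hhi := h.hi
  have halb : al a b < r := by
    have : 0 < B / 2 * (Y / D) := by positivity
    linarith
  have hxb : x < b := by
    by_contra hcon
    push Not at hcon
    have h1 : 0 ≤ al x a - al b a := by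
      rw [xd_al_sub hx0 hb.le ha]
      have : 0 ≤ x - b := by linarith
      positivity
    linarith
  have hlow := xd_al_low k0 k1 hN hb hx0.le hxb.le h.b2 ha2 h.a2
  have hbx : b - x ≤ 16 / κ * B * Y * D ^ 2 := by
    have h1 : al b a - al x a = r - al a b := by rw [← hal, hsw1, hsw2]; ring
    rw [h1] at hlow
    have h2 : κ / 8 * ((b - x) / N) ≤ 2 * B * (Y / D) := hlow.trans hhi
    have h3 : κ / 8 * ((b - x) / N) = κ * (b - x) / (8 * N) := by ring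
    rw [h3, div_le_iff₀ (by positivity), h.N3] at h2
    have h4 : 2 * B * (Y / D) * (8 * D ^ 3) = 16 * B * Y * D ^ 2 := by
      field_simp
      ring
    rw [h4] at h2
    have h5 : 16 / κ * B * Y * D ^ 2 = 16 * B * Y * D ^ 2 / κ := by ring
    rw [h5, le_div_iff₀ k0]
    linarith
  -- the integer
  set j : ℕ := ⌈b - x⌉₊ with hj
  have hj1 : b - x ≤ (j : ℝ) := Nat.le_ceil _
  have hj2 : (j : ℝ) < b - x + 1 := Nat.ceil_lt_add_one (by linarith)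
  have hjpos : 1 ≤ j := Nat.one_le_iff_ne_zero.2 (fun h0 => by
    rw [h0, Nat.cast_zero] at hj1
    linarith)
  have hBY : (1 : ℝ) ≤ 1 / κ * B * Y * D ^ 2 := by
    have h1 : (1 : ℝ) ≤ 1 / κ * B := by
      rw [div_mul_eq_mul_div, le_div_iff₀ k0]
      linarith
    have h2 : (1 : ℝ) ≤ D ^ 2 := one_le_pow₀ D1
    exact one_le_mul_of_one_le_of_one_le (one_le_mul_of_one_le_of_one_le h1 Y1) h2
  have hj3 : (j : ℝ) ≤ 17 / κ * B * Y * D ^ 2 := by
    have h1 : 17 / κ * B * Y * D ^ 2 = 16 / κ * B * Y * D ^ 2 + 1 / κ * B * Y * D ^ 2 := by ring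
    linarith
  have hj4 : (j : ℝ) ≤ κ / 16 * N := hj3.trans h.sm
  refine ⟨j, hjpos, hj3, hj4, ?_⟩
  have hbj : κ / 2 * N ≤ b - j := by
    have := h.b1
    have : 0 < κ * N := by positivity
    linarith
  have hbj0 : 0 < b - j := lt_of_lt_of_le (by positivity) hbj
  have hxN : κ / 2 * N ≤ x := by linarith
  have e1 := xd_ff ha.le hbj0 hr hr1
  have e2 : (j : ℝ) / (1 - r) + ff a (b - j) r = ff a b r := by
    unfold ff
    ring
  have hsw3 := al_swap hbj0 ha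
  have hup := xd_al_up k0 hN hxN hbj ha
  have hxj : |x - (b - j)| ≤ 1 := by
    rw [abs_le]
    constructor
    · linarith
    · linarith
  have hdiff : |r - al a (b - j)| ≤ 2 / (κ * N) := by
    have h1 : r - al a (b - j) = -(al x a - al (b - j) a) := by rw [← hal, hsw2, hsw3]; ring
    rw [h1, abs_neg]
    refine hup.trans ?_
    apply div_le_div_of_nonneg_right _ (by positivity)
    linarith
  have hN128 : 128 ≤ κ ^ 4 * N := by
    have := h.Nb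
    rwa [div_le_iff₀ (by positivity), mul_comm] at this
  have hgap : (√a + √(b - j)) ^ 2 * (r - al a (b - j)) ^ 2 / (r * (1 - r)) ≤ 1 := by
    have hrr0 : 0 < r * (1 - r) := mul_pos hr h1r
    rw [div_le_one hrr0]
    have h1 : (r - al a (b - j)) ^ 2 ≤ (2 / (κ * N)) ^ 2 := by
      rw [← sq_abs]
      exact pow_le_pow_left₀ (abs_nonneg _) hdiff 2
    have hsN := Real.sq_sqrt hN.le
    have h2 : (√a + √(b - j)) ^ 2 ≤ 4 * N := by
      have q1 : √a ≤ √N := Real.sqrt_le_sqrt h.a2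
      have q2 : √(b - j) ≤ √N := Real.sqrt_le_sqrt (by
        have := h.b2
        have : (0 : ℝ) ≤ j := Nat.cast_nonneg j
        linarith)
      have q3 := Real.sqrt_nonneg a
      have q4 := Real.sqrt_nonneg (b - j)
      calc (√a + √(b - j)) ^ 2 ≤ (2 * √N) ^ 2 := pow_le_pow_left₀ (by positivity) (by linarith) 2
        _ = 4 * √N ^ 2 := by ring
        _ = 4 * N := by rw [hsN]
    have h3 : κ ^ 2 / 8 ≤ r * (1 - r) := by
      have q1 := h.r0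
      have q2 := h.r1
      rcases le_total r (1 / 2) with h5 | h5
      · calc κ ^ 2 / 8 = κ / 4 * (κ / 2) := by ring
          _ ≤ r * (1 - r) := mul_le_mul q1 (by linarith) (by positivity) hr.le
      · calc κ ^ 2 / 8 = κ / 2 * (κ / 4) := by ring
          _ ≤ r * (1 - r) := mul_le_mul (by linarith) q2 (by positivity) hr.le
    refine le_trans ?_ h3
    calc (√a + √(b - j)) ^ 2 * (r - al a (b - j)) ^ 2 ≤ 4 * N * (2 / (κ * N)) ^ 2 :=
          mul_le_mul h2 h1 (sq_nonneg _) (by positivity)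
      _ = 16 / (κ ^ 2 * N) := by
          field_simp
          ring
      _ ≤ κ ^ 2 / 8 := by
          rw [div_le_iff₀ (by positivity)]
          have h9 : κ ^ 2 / 8 * (κ ^ 2 * N) = κ ^ 4 * N / 8 := by ring
          rw [h9]
          linarith
  -- removing one column
  have hcol : mu a (b - j) - 5 / κ ≤ mu (a - 1) (b - j) := by
    have haN2 : 16 ≤ κ / 2 * N := by
      have h1 : κ ^ 4 * N ≤ κ / 8 * N := by
        have : κ ^ 4 ≤ κ / 8 := by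
          have h5 : κ ^ 3 ≤ (1 / 2) ^ 3 := pow_le_pow_left₀ k0.le k1 3
          calc κ ^ 4 = κ * κ ^ 3 := by ring
            _ ≤ κ * (1 / 2) ^ 3 := mul_le_mul_of_nonneg_left h5 k0.le
            _ = κ / 8 := by ring
        exact mul_le_mul_of_nonneg_right this hN.le
      linarith
    have ha1 : 0 < a - 1 := by linarith
    rw [xd_mu ha.le hbj0.le, xd_mu ha1.le hbj0.le]
    have e3 := Real.sq_sqrt ha.le
    have e4 := Real.sq_sqrt ha1.le
    have e5 := Real.sq_sqrt hbj0.le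
    have q1 := Real.sqrt_pos.2 ha
    have q2 := Real.sqrt_pos.2 ha1
    have q3 := Real.sqrt_pos.2 hbj0
    -- √(b-j) ≤ (2/κ) √a
    have q4 : √(b - j) ≤ 2 / κ * √a := by
      apply Real.sqrt_le_iff.2
      refine ⟨by positivity, ?_⟩
      rw [mul_pow, e3]
      have h5 : b - j ≤ N := by
        have := h.b2
        have : (0 : ℝ) ≤ j := Nat.cast_nonneg j
        linarith
      have h6 : N ≤ (2 / κ) ^ 2 * (κ / 2 * N) := by
        have h7 : (2 / κ) ^ 2 * (κ / 2 * N) = 2 / κ * N := by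
          field_simp
        rw [h7]
        have h8 : (1 : ℝ) ≤ 2 / κ := by
          rw [le_div_iff₀ k0]
          linarith
        exact le_mul_of_one_le_left hN.le h8
      have h9 : (2 / κ) ^ 2 * (κ / 2 * N) ≤ (2 / κ) ^ 2 * a :=
        mul_le_mul_of_nonneg_left ha2 (by positivity)
      linarith
    -- √a - √(a-1) ≤ 1/√a
    have q6 : 0 ≤ √a - √(a - 1) := by
      have := Real.sqrt_le_sqrt (show a - 1 ≤ a by linarith)
      linarith
    have q5 : (√a - √(a - 1)) * √a ≤ 1 := by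
      have h5 : (√a - √(a - 1)) * √a ≤ (√a - √(a - 1)) * (√a + √(a - 1)) :=
        mul_le_mul_of_nonneg_left (by linarith) q6
      have h6 : (√a - √(a - 1)) * (√a + √(a - 1)) = √a ^ 2 - √(a - 1) ^ 2 := by ring
      rw [h6, e3, e4] at h5
      linarith
    have q7 : (√a - √(a - 1)) * √(b - j) ≤ 2 / κ := by
      calc (√a - √(a - 1)) * √(b - j) ≤ (√a - √(a - 1)) * (2 / κ * √a) :=
            mul_le_mul_of_nonneg_left q4 q6
        _ = 2 / κ * ((√a - √(a - 1)) * √a) := by ring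
        _ ≤ 2 / κ * 1 := mul_le_mul_of_nonneg_left q5 (by positivity)
        _ = 2 / κ := mul_one _
    have q8 : (1 : ℝ) ≤ 1 / κ := by
      rw [le_div_iff₀ k0]
      linarith
    have q9 : 5 / κ = 1 / κ + 2 * (2 / κ) := by ring
    rw [q9]
    have q10 : (√a + √(b - ↑j)) ^ 2 - (√(a - 1) + √(b - ↑j)) ^ 2 =
        (√a ^ 2 - √(a - 1) ^ 2) + 2 * ((√a - √(a - 1)) * √(b - ↑j)) := by ring
    rw [e3, e4] at q10
    linarith
  have h6 : 6 / κ = 5 / κ + 1 / κ := by ring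
  have h7 : (1 : ℝ) ≤ 1 / κ := by
    rw [le_div_iff₀ k0]
    linarith
  rw [h6]
  linarith

end core

/-- comparison of the exits -/
private theorem xd_main {κ D N Y B r a b : ℝ} (h : CoreH κ D N Y B r a b)
    (Sb Tb Sg Tg : ℕ → ℝ)
    (hSb : ∀ k : ℕ, 1 ≤ k → (k : ℝ) ≤ N → Sb k ≤ k / r + Y * (D + k / D))
    (hSg : ∀ k : ℕ, 1 ≤ k → (k : ℝ) ≤ N → |Sg k - k / (1 - r)| ≤ Y * (D + k / D))
    (hTb : ∀ k : ℕ, 1 ≤ k → (k : ℝ) ≤ a → Tb k ≤ mu (a - k) b +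
      (κ / 32 * (B ^ 2 * Y ^ 2 * D) + κ ^ 3 / 128 * ((k : ℝ) ^ 2 / N)))
    (hTg1 : ∀ k : ℕ, 1 ≤ k → (k : ℝ) ≤ 9 * Y * D ^ 2 → Tg k ≤ mu a (b - k) + 2 * Y * D)
    (hTg2 : ∀ k : ℕ, 1 ≤ k → (k : ℝ) ≤ κ / 16 * N → (k : ℝ) ≤ 17 / κ * B * Y * D ^ 2 →
      mu (a - 1) (b - k) - (2 * Y * D + 3 / κ * B * Y * D) ≤ Tg k) :
    ∃ j : ℕ, 1 ≤ j ∧ (j : ℝ) ≤ κ / 16 * N ∧
      (∀ k : ℕ, 1 ≤ k → (k : ℝ) ≤ a → Sb k + Tb k < Sg j + Tg j) ∧
      (∀ k : ℕ, 1 ≤ k → (k : ℝ) ≤ 9 * Y * D ^ 2 → Sg k + Tg k < Sg j + Tg j) := by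
  obtain ⟨hD, hN, hB, hB8, ha, hb, hr, hr1, ha2, hb2, hkB, hkB1, hkB2⟩ := h.pos
  have k0 := h.k0
  have k1 := h.k1
  have Y1 := h.Y1
  have D1 := h.D1
  obtain ⟨j, hj1, hj2, hj3, hj4⟩ := xd_good h
  have hkN : κ / 16 * N ≤ N := by
    have : κ / 16 ≤ 1 := by linarith
    calc κ / 16 * N ≤ 1 * N := mul_le_mul_of_nonneg_right this hN.le
      _ = N := one_mul N
  have hlow : ff a b r - 30 / κ * (B * Y ^ 2 * D) ≤ Sg j + Tg j := by
    have h1 := (abs_le.1 (hSg j hj1 (hj3.trans hkN))).1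
    have h2 := hTg2 j hj1 hj3 hj2
    have h3 : (j : ℝ) / D ≤ 17 / κ * B * Y * D := by
      rw [div_le_iff₀ hD]
      calc (j : ℝ) ≤ 17 / κ * B * Y * D ^ 2 := hj2
        _ = 17 / κ * B * Y * D * D := by ring
    have h4 : Y * ((j : ℝ) / D) ≤ 17 / κ * (B * Y ^ 2 * D) := by
      calc Y * ((j : ℝ) / D) ≤ Y * (17 / κ * B * Y * D) :=
            mul_le_mul_of_nonneg_left h3 (by linarith)
        _ = 17 / κ * (B * Y ^ 2 * D) := by ring
    have hk1 : (1 : ℝ) ≤ 1 / κ := by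
      rw [le_div_iff₀ k0]
      linarith
    have hB1 : (1 : ℝ) ≤ B := by linarith
    have hYD : (1 : ℝ) ≤ Y * D := one_le_mul_of_one_le_of_one_le Y1 D1
    have hBYD : Y * D ≤ B * Y ^ 2 * D := by
      have : B * Y ^ 2 * D = (B * Y) * (Y * D) := by ring
      rw [this]
      exact le_mul_of_one_le_left (by linarith) (one_le_mul_of_one_le_of_one_le hB1 Y1)
    have hBYD2 : B * Y * D ≤ B * Y ^ 2 * D := by
      have : B * Y ^ 2 * D = Y * (B * Y * D) := by ring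
      rw [this]
      exact le_mul_of_one_le_left (by positivity) Y1
    have h5 : Y * D ≤ 1 / κ * (B * Y ^ 2 * D) :=
      hBYD.trans (le_mul_of_one_le_left (by positivity) hk1)
    have h6 : 1 / κ ≤ 1 / κ * (B * Y ^ 2 * D) :=
      le_mul_of_one_le_right (by positivity) (hYD.trans hBYD)
    have h7 : 1 / κ * (B * Y * D) ≤ 1 / κ * (B * Y ^ 2 * D) :=
      mul_le_mul_of_nonneg_left hBYD2 (by positivity)
    have e1 : 6 / κ = 6 * (1 / κ) := by ring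
    have e2 : 3 / κ * B * Y * D = 3 * (1 / κ * (B * Y * D)) := by ring
    have e3 : 17 / κ * (B * Y ^ 2 * D) = 17 * (1 / κ * (B * Y ^ 2 * D)) := by ring
    have e4 : 30 / κ * (B * Y ^ 2 * D) = 30 * (1 / κ * (B * Y ^ 2 * D)) := by ring
    have e5 : Y * (D + (j : ℝ) / D) = Y * D + Y * ((j : ℝ) / D) := by ring
    rw [e5] at h1
    rw [e1] at hj4
    rw [e2] at h2
    rw [e3] at h4
    rw [e4]
    linarith
  have hcmp : 30 / κ * (B * Y ^ 2 * D) < κ / 64 * (B ^ 2 * Y ^ 2 * D) := by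
    have h1 : 0 < B * Y ^ 2 * D := by positivity
    have h2 : κ / 64 * (B ^ 2 * Y ^ 2 * D) = κ * B / 64 * (B * Y ^ 2 * D) := by ring
    rw [h2]
    apply mul_lt_mul_of_pos_right _ h1
    rw [div_lt_div_iff₀ k0 (by norm_num)]
    have h3 : κ * B * κ = κ ^ 2 * B := by ring
    rw [h3]
    linarith
  refine ⟨j, hj1, hj3, fun k hk1 hk2 => ?_, fun k hk1 hk2 => ?_⟩
  · have h1 := xd_bad h k (Nat.cast_nonneg k) hk2 (Sb k) (Tb k) _
      (hSb k hk1 (hk2.trans h.a2)) (hTb k hk1 hk2) le_rfl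
    linarith
  · have hkN' : (k : ℝ) ≤ N := by
      refine hk2.trans (le_trans ?_ (h.sm.trans hkN))
      have h1 : 0 < Y * D ^ 2 := by positivity
      have h2 : (9 : ℝ) ≤ 17 / κ * B := by
        rw [div_mul_eq_mul_div, le_div_iff₀ k0]
        linarith
      calc 9 * Y * D ^ 2 = 9 * (Y * D ^ 2) := by ring
        _ ≤ 17 / κ * B * (Y * D ^ 2) := mul_le_mul_of_nonneg_right h2 h1.le
        _ = 17 / κ * B * Y * D ^ 2 := by ring
    have h3 := (abs_le.1 (hSg k hk1 hkN')).2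
    have h1 := xd_low h k (Nat.cast_nonneg k) hk2 (Sg k) (Tg k) (by linarith) (hTg1 k hk1 hk2)
    linarith

/-! ### The errors of the last passage times -/

private theorem xd_root {D : ℝ} (hD : 0 ≤ D) : (8 * D ^ 3) ^ (1 / 3 : ℝ) = 2 * D := by
  have h1 : 8 * D ^ 3 = (2 * D) ^ (3 : ℕ) := by ring
  rw [h1, ← Real.rpow_natCast, ← Real.rpow_mul (by linarith)]
  norm_num

/-- the standing facts on the geometry: `c` is the corner, `m = I - c.1`, `nn = -c.2` -/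
private structure GeoH (κ σ lam Y g0 D : ℝ) (n : ℕ) (c : ℤ × ℤ) (I : ℤ) (m nn : ℝ) : Prop where
  k0 : 0 < κ
  k1 : κ ≤ 1 / 2
  s0 : κ ≤ σ
  s1 : σ ≤ 1 - κ
  D1 : 1 ≤ D
  nD : (n : ℝ) = D ^ 3
  D2 : (n : ℝ) ^ (2 / 3 : ℝ) = D ^ 2
  Y1 : 8 ≤ Y
  Yl : Y ≤ 2 * lam
  gn : g0 ≤ n
  hI : |(I : ℝ)| ≤ D ^ 2
  hm : m = (I : ℝ) - c.1
  hn : nn = -(c.2 : ℝ)
  m1 : |m - σ * D ^ 3| ≤ 5 * Y * D ^ 2
  n1 : |nn - (1 - σ) * D ^ 3| ≤ 5 * Y * D ^ 2
  sm : 80 * Y * D ^ 2 ≤ κ * D ^ 3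

section err

variable {κ σ lam Y g0 D m nn : ℝ} {n : ℕ} {c : ℤ × ℤ} {I : ℤ} {ω : ℤ × ℤ → ℝ}

private theorem GeoH.bds (h : GeoH κ σ lam Y g0 D n c I m nn) :
    15 / 16 * κ * D ^ 3 ≤ m ∧ m ≤ D ^ 3 ∧ 15 / 16 * κ * D ^ 3 ≤ nn ∧ nn ≤ D ^ 3 ∧
      640 ≤ κ * D ^ 3 ∧ D ^ 2 ≤ D ^ 3 / 640 ∧ 5 * Y * D ^ 2 ≤ D ^ 3 / 32 := by
  have hD : 0 < D := by linarith [h.D1]
  have hD3 : 0 < D ^ 3 := by positivity
  have hm := abs_le.1 h.m1
  have hn := abs_le.1 h.n1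
  have hs1 : κ * D ^ 3 ≤ σ * D ^ 3 := mul_le_mul_of_nonneg_right h.s0 hD3.le
  have hs2 : σ * D ^ 3 ≤ (1 - κ) * D ^ 3 := mul_le_mul_of_nonneg_right h.s1 hD3.le
  have hsm := h.sm
  have hD2 : 1 ≤ D ^ 2 := one_le_pow₀ h.D1
  have hY := h.Y1
  have hYD : 8 * D ^ 2 ≤ Y * D ^ 2 := mul_le_mul_of_nonneg_right hY (by positivity)
  have hk : κ * D ^ 3 ≤ 1 / 2 * D ^ 3 := mul_le_mul_of_nonneg_right h.k1 hD3.le
  have hkD : 0 < κ * D ^ 3 := mul_pos h.k0 hD3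
  refine ⟨by linarith [hm.1], by linarith [hm.2], by linarith [hn.1], by linarith [hn.2],
    by linarith, by linarith, by linarith⟩

private theorem xd_geo (h : GeoH κ σ lam Y g0 D n c I m nn) (x y : ℕ) (hx : (x : ℝ) ≤ m)
    (hy : (y : ℝ) ≤ nn) :
    ((c.1 + x, c.2 + y) : ℤ × ℤ) ≤ (I, 0) ∧
      dl (c.1 + x, c.2 + y) (I, 0) = (m - x) + (nn - y) ∧
      muz (c.1 + x, c.2 + y) (I, 0) = mu (m - x) (nn - y) := by
  have e1 : ((I - (c.1 + x) : ℤ) : ℝ) = m - x := by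
    rw [h.hm]
    push_cast
    ring
  have e2 : ((0 - (c.2 + y) : ℤ) : ℝ) = nn - y := by
    rw [h.hn]
    push_cast
    ring
  refine ⟨⟨?_, ?_⟩, ?_, ?_⟩
  · have h1 : (0 : ℝ) ≤ ((I - (c.1 + x) : ℤ) : ℝ) := by rw [e1]; linarith
    have h2 : (0 : ℤ) ≤ I - (c.1 + x) := by exact_mod_cast h1
    show c.1 + (x : ℤ) ≤ I
    omega
  · have h1 : (0 : ℝ) ≤ ((0 - (c.2 + y) : ℤ) : ℝ) := by rw [e2]; linarith
    have h2 : (0 : ℤ) ≤ 0 - (c.2 + y) := by exact_mod_cast h1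
    show c.2 + (y : ℤ) ≤ 0
    omega
  · unfold dl lev
    rw [← e1, ← e2]
    push_cast
    ring
  · unfold muz
    rw [← e1, ← e2]

private theorem xd_box (h : GeoH κ σ lam Y g0 D n c I m nn) (x y : ℕ) (hx : (x : ℝ) ≤ m)
    (hy : (y : ℝ) ≤ nn) :
    ((c.1 + x, c.2 + y) : ℤ × ℤ) ∈ Bx (4 * (2 * n)) ∧ ((I, 0) : ℤ × ℤ) ∈ Bx (4 * (2 * n)) := by
  obtain ⟨b1, b2, b3, b4, b5, b6, b7⟩ := h.bds
  have hI := abs_le.1 h.hI
  have hnD := h.nD
  have hx0 : (0 : ℝ) ≤ x := Nat.cast_nonneg x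
  have hy0 : (0 : ℝ) ≤ y := Nat.cast_nonneg y
  have hn0 : (0 : ℝ) ≤ n := Nat.cast_nonneg n
  have hm := h.hm
  have hn := h.hn
  unfold Bx
  rw [Set.mem_ofPred_eq, Set.mem_ofPred_eq]
  refine ⟨⟨?_, ?_, ?_, ?_⟩, ?_, ?_, ?_, ?_⟩
  · have : (-((4 * (2 * n) : ℕ) : ℝ)) ≤ ((c.1 + x : ℤ) : ℝ) := by push_cast; linarith
    exact_mod_cast this
  · have : ((c.1 + x : ℤ) : ℝ) ≤ ((4 * (2 * n) : ℕ) : ℝ) := by push_cast; linarith
    exact_mod_cast this
  · have : (-((4 * (2 * n) : ℕ) : ℝ)) ≤ ((c.2 + y : ℤ) : ℝ) := by push_cast; linarith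
    exact_mod_cast this
  · have : ((c.2 + y : ℤ) : ℝ) ≤ ((4 * (2 * n) : ℕ) : ℝ) + 1 := by push_cast; linarith
    exact_mod_cast this
  · have : (-((4 * (2 * n) : ℕ) : ℝ)) ≤ (I : ℝ) := by push_cast; linarith
    exact_mod_cast this
  · have : (I : ℝ) ≤ ((4 * (2 * n) : ℕ) : ℝ) := by push_cast; linarith
    exact_mod_cast this
  · show -((4 * (2 * n) : ℕ) : ℤ) ≤ 0
    omega
  · show (0 : ℤ) ≤ ((4 * (2 * n) : ℕ) : ℤ) + 1
    omega

private theorem xd_e1 (h : GeoH κ σ lam Y g0 D n c I m nn) (hω : CrE κ lam (4 * (2 * n)) ω)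
    (x y : ℕ) (hx : (x : ℝ) ≤ m) (hy : (y : ℝ) ≤ nn) :
    T ω (c.1 + x, c.2 + y) (I, 0) ≤ mu (m - x) (nn - y) + 2 * lam * √(D ^ 3) := by
  obtain ⟨b1, b2, b3, b4, b5, b6, b7⟩ := h.bds
  obtain ⟨g1, g2, g3⟩ := xd_geo h x y hx hy
  obtain ⟨q1, q2⟩ := xd_box h x y hx hy
  have h1 := (hω.2 _ q1 _ q2 g1).1
  rw [g2, g3] at h1
  have hlam : 0 < lam := by linarith [h.Y1, h.Yl]
  have hx0 : (0 : ℝ) ≤ x := Nat.cast_nonneg x
  have hy0 : (0 : ℝ) ≤ y := Nat.cast_nonneg y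
  have hk : κ * D ^ 3 ≤ 1 / 2 * D ^ 3 :=
    mul_le_mul_of_nonneg_right h.k1 (by have := h.D1; positivity)
  have h2 : √(m - x + (nn - y) + 1) ≤ 2 * √(D ^ 3) := by
    have h3 : √(m - x + (nn - y) + 1) ≤ √(2 ^ 2 * D ^ 3) := Real.sqrt_le_sqrt (by linarith)
    rw [Real.sqrt_mul (by norm_num), Real.sqrt_sq (by norm_num)] at h3
    exact h3
  have h4 := mul_le_mul_of_nonneg_left h2 hlam.le
  linarith

private theorem xd_cone (h : GeoH κ σ lam Y g0 D n c I m nn) (x y : ℕ)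
    (hx : (x : ℝ) ≤ κ / 4 * D ^ 3 + 1) (hy : (y : ℝ) ≤ κ / 4 * D ^ 3 + 1) :
    Cone (κ / 4) (c.1 + x, c.2 + y) (I, 0) := by
  obtain ⟨b1, b2, b3, b4, b5, b6, b7⟩ := h.bds
  have hx' : (x : ℝ) ≤ m := by linarith
  have hy' : (y : ℝ) ≤ nn := by linarith
  obtain ⟨g1, g2, g3⟩ := xd_geo h x y hx' hy'
  have hx0 : (0 : ℝ) ≤ x := Nat.cast_nonneg x
  have hy0 : (0 : ℝ) ≤ y := Nat.cast_nonneg y
  have k0 := h.k0
  have h1 : κ / 4 * (m - x + (nn - y)) ≤ κ / 4 * (2 * D ^ 3) :=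
    mul_le_mul_of_nonneg_left (by linarith) (by positivity)
  refine ⟨g1, ?_, ?_⟩
  · rw [g2]
    have e1 : (((I, 0) : ℤ × ℤ).1 - ((c.1 + x, c.2 + y) : ℤ × ℤ).1 : ℤ) = I - (c.1 + x) := rfl
    rw [e1]
    push_cast
    have := h.hm
    linarith
  · rw [g2]
    have e1 : (((I, 0) : ℤ × ℤ).2 - ((c.1 + x, c.2 + y) : ℤ × ℤ).2 : ℤ) = 0 - (c.2 + y) := rfl
    rw [e1]
    push_cast
    have := h.hn
    linarith

private theorem xd_e2 (h : GeoH κ σ lam Y g0 D n c I m nn) (hω : CrE κ lam (4 * (2 * n)) ω)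
    (x y : ℕ) (hx : (x : ℝ) ≤ κ / 4 * D ^ 3 + 1) (hy : (y : ℝ) ≤ κ / 4 * D ^ 3 + 1) :
    |T ω (c.1 + x, c.2 + y) (I, 0) - mu (m - x) (nn - y)| ≤ 2 * lam * D := by
  obtain ⟨b1, b2, b3, b4, b5, b6, b7⟩ := h.bds
  have hx' : (x : ℝ) ≤ m := by linarith
  have hy' : (y : ℝ) ≤ nn := by linarith
  obtain ⟨g1, g2, g3⟩ := xd_geo h x y hx' hy'
  obtain ⟨q1, q2⟩ := xd_box h x y hx' hy'
  have h1 := (hω.2 _ q1 _ q2 g1).2 (xd_cone h x y hx hy)
  rw [g2, g3] at h1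
  have hlam : 0 < lam := by linarith [h.Y1, h.Yl]
  have hx0 : (0 : ℝ) ≤ x := Nat.cast_nonneg x
  have hy0 : (0 : ℝ) ≤ y := Nat.cast_nonneg y
  have hD : 0 ≤ D := by linarith [h.D1]
  have hk : κ * D ^ 3 ≤ 1 / 2 * D ^ 3 := mul_le_mul_of_nonneg_right h.k1 (by positivity)
  have h2 : (m - x + (nn - y) + 1) ^ (1 / 3 : ℝ) ≤ 2 * D := by
    rw [← xd_root hD]
    exact Real.rpow_le_rpow (by linarith) (by linarith) (by norm_num)
  have h4 := mul_le_mul_of_nonneg_left h2 hlam.le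
  refine h1.trans (h4.trans (le_of_eq ?_))
  ring

private theorem xd_e3 (h : GeoH κ σ lam Y g0 D n c I m nn)
    (hω : FiE κ σ Y g0 (40 * lam * ((2 * n : ℕ) : ℝ) ^ (2 / 3 : ℝ)) (2 * n) ω)
    (x y : ℕ) (hx : (x : ℝ) ≤ κ / 4 * D ^ 3 + 1) (hy : (y : ℝ) ≤ κ / 4 * D ^ 3 + 1)
    (hxy : (x : ℝ) + y ≤ 28 * lam * D ^ 2) :
    |T ω (c.1 + x, c.2 + y) (I, 0) - mu (m - x) (nn - y)| ≤ 2 * Y * D := by
  obtain ⟨b1, b2, b3, b4, b5, b6, b7⟩ := h.bds
  have hx' : (x : ℝ) ≤ m := by linarith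
  have hy' : (y : ℝ) ≤ nn := by linarith
  obtain ⟨g1, g2, g3⟩ := xd_geo h x y hx' hy'
  have hlam : 2 ≤ lam := by linarith [h.Y1, h.Yl]
  have hx0 : (0 : ℝ) ≤ x := Nat.cast_nonneg x
  have hy0 : (0 : ℝ) ≤ y := Nat.cast_nonneg y
  have hD : 0 ≤ D := by linarith [h.D1]
  have hD2 : 1 ≤ D ^ 2 := one_le_pow₀ h.D1
  have hk : κ * D ^ 3 ≤ 1 / 2 * D ^ 3 := mul_le_mul_of_nonneg_right h.k1 (by positivity)
  have hI := abs_le.1 h.hI
  have hmm := abs_le.1 h.m1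
  have hnn := abs_le.1 h.n1
  have hlD : 2 * D ^ 2 ≤ lam * D ^ 2 := mul_le_mul_of_nonneg_right hlam (by positivity)
  have hYl : Y * D ^ 2 ≤ 2 * lam * D ^ 2 := mul_le_mul_of_nonneg_right h.Yl (by positivity)
  have hs0 : 0 ≤ σ := h.k0.le.trans h.s0
  have hs1 : 0 ≤ 1 - σ := by linarith [h.k0, h.s1]
  have hW : 40 * lam * D ^ 2 ≤ 40 * lam * ((2 * n : ℕ) : ℝ) ^ (2 / 3 : ℝ) := by
    apply mul_le_mul_of_nonneg_left _ (by linarith)
    rw [← h.D2]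
    apply Real.rpow_le_rpow (Nat.cast_nonneg n) _ (by norm_num)
    push_cast
    have : (0 : ℝ) ≤ n := Nat.cast_nonneg n
    linarith
  have hnD := h.nD
  have hm := h.hm
  have hn := h.hn
  have hp : ((c.1 + x, c.2 + y) : ℤ × ℤ) ∈
      Rgn σ (40 * lam * ((2 * n : ℕ) : ℝ) ^ (2 / 3 : ℝ)) (2 * n) := by
    unfold Rgn
    rw [Set.mem_ofPred_eq]
    refine ⟨?_, ?_, ?_⟩
    · have : (-((2 * n : ℕ) : ℝ)) ≤ ((lev (c.1 + x, c.2 + y) : ℤ) : ℝ) := by
        unfold lev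
        push_cast
        linarith
      exact_mod_cast this
    · have : ((lev (c.1 + x, c.2 + y) : ℤ) : ℝ) ≤ ((2 * n : ℕ) : ℝ) + 1 := by
        unfold lev
        push_cast
        linarith
      exact_mod_cast this
    · refine le_trans ?_ hW
      have e1 : dev σ (c.1 + x, c.2 + y) = σ * (nn - (1 - σ) * D ^ 3) -
          (1 - σ) * (m - σ * D ^ 3) + (1 - σ) * x - σ * y + (1 - σ) * I + σ / 2 := by
        unfold dev lev
        rw [hm, hn]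
        push_cast
        ring
      rw [e1, abs_le]
      have a1 : σ * (nn - (1 - σ) * D ^ 3) ≤ σ * (5 * Y * D ^ 2) :=
        mul_le_mul_of_nonneg_left hnn.2 hs0
      have a2 : σ * (-(5 * Y * D ^ 2)) ≤ σ * (nn - (1 - σ) * D ^ 3) :=
        mul_le_mul_of_nonneg_left hnn.1 hs0
      have a3 : (1 - σ) * (m - σ * D ^ 3) ≤ (1 - σ) * (5 * Y * D ^ 2) :=
        mul_le_mul_of_nonneg_left hmm.2 hs1
      have a4 : (1 - σ) * (-(5 * Y * D ^ 2)) ≤ (1 - σ) * (m - σ * D ^ 3) :=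
        mul_le_mul_of_nonneg_left hmm.1 hs1
      have a5 : 0 ≤ (1 - σ) * x := mul_nonneg hs1 hx0
      have a6 : 0 ≤ σ * y := mul_nonneg hs0 hy0
      have a7 : (1 - σ) * x ≤ x := mul_le_of_le_one_left hx0 (by linarith)
      have a8 : σ * y ≤ y := mul_le_of_le_one_left hy0 (by linarith)
      have a9 : (1 - σ) * (I : ℝ) ≤ (1 - σ) * D ^ 2 := mul_le_mul_of_nonneg_left hI.2 hs1
      have a10 : (1 - σ) * (-(D ^ 2)) ≤ (1 - σ) * (I : ℝ) := mul_le_mul_of_nonneg_left hI.1 hs1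
      have a11 : (1 - σ) * D ^ 2 ≤ D ^ 2 := mul_le_of_le_one_left (by positivity) (by linarith)
      have e2 : σ * (5 * Y * D ^ 2) + (1 - σ) * (5 * Y * D ^ 2) = 5 * Y * D ^ 2 := by ring
      constructor
      · linarith
      · linarith
  have hq : ((I, 0) : ℤ × ℤ) ∈
      Rgn σ (40 * lam * ((2 * n : ℕ) : ℝ) ^ (2 / 3 : ℝ)) (2 * n) := by
    unfold Rgn
    rw [Set.mem_ofPred_eq]
    refine ⟨?_, ?_, ?_⟩
    · have : (-((2 * n : ℕ) : ℝ)) ≤ ((lev (I, 0) : ℤ) : ℝ) := by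
        unfold lev
        push_cast
        linarith
      exact_mod_cast this
    · have : ((lev (I, 0) : ℤ) : ℝ) ≤ ((2 * n : ℕ) : ℝ) + 1 := by
        unfold lev
        push_cast
        linarith
      exact_mod_cast this
    · refine le_trans ?_ hW
      have e1 : dev σ (I, 0) = (1 - σ) * I + σ / 2 := by
        unfold dev lev
        push_cast
        ring
      rw [e1, abs_le]
      have a9 : (1 - σ) * (I : ℝ) ≤ (1 - σ) * D ^ 2 := mul_le_mul_of_nonneg_left hI.2 hs1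
      have a10 : (1 - σ) * (-(D ^ 2)) ≤ (1 - σ) * (I : ℝ) := mul_le_mul_of_nonneg_left hI.1 hs1
      have a11 : (1 - σ) * D ^ 2 ≤ D ^ 2 := mul_le_of_le_one_left (by positivity) (by linarith)
      constructor
      · linarith
      · linarith
  have h1 := hω _ hp _ hq (xd_cone h x y hx hy)
  rw [g2, g3] at h1
  have h2 : (max (m - x + (nn - y)) g0) ^ (1 / 3 : ℝ) ≤ 2 * D := by
    rw [← xd_root hD]
    refine Real.rpow_le_rpow ((by linarith : (0 : ℝ) ≤ m - x + (nn - y)).trans (le_max_left _ _))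
      (max_le (by linarith) ?_) (by norm_num)
    have := h.gn
    linarith
  have hY0 : 0 ≤ Y := by linarith [h.Y1]
  have h4 := mul_le_mul_of_nonneg_left h2 hY0
  refine h1.trans (h4.trans (le_of_eq ?_))
  ring

end err

/-! ### Selection of the exit -/

private structure ErrH (κ lam Y D m nn : ℝ) (F : ℕ → ℕ → ℝ) : Prop where
  e1 : ∀ x y : ℕ, (x : ℝ) ≤ m → (y : ℝ) ≤ nn →
    F x y ≤ mu (m - x) (nn - y) + 2 * lam * √(D ^ 3)
  e2 : ∀ x y : ℕ, (x : ℝ) ≤ κ / 4 * D ^ 3 + 1 → (y : ℝ) ≤ κ / 4 * D ^ 3 + 1 →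
    |F x y - mu (m - x) (nn - y)| ≤ 2 * lam * D
  e3 : ∀ x y : ℕ, (x : ℝ) ≤ κ / 4 * D ^ 3 + 1 → (y : ℝ) ≤ κ / 4 * D ^ 3 + 1 →
    (x : ℝ) + y ≤ 28 * lam * D ^ 2 → |F x y - mu (m - x) (nn - y)| ≤ 2 * Y * D

private theorem ErrH.swap {κ lam Y D m nn : ℝ} {F : ℕ → ℕ → ℝ} (h : ErrH κ lam Y D m nn F) :
    ErrH κ lam Y D nn m (fun x y => F y x) := by
  refine ⟨fun x y hx hy => ?_, fun x y hx hy => ?_, fun x y hx hy hxy => ?_⟩
  · rw [xd_mu_comm]
    exact h.e1 y x hy hx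
  · rw [xd_mu_comm]
    exact h.e2 y x hy hx
  · rw [xd_mu_comm]
    exact h.e3 y x hy hx (by linarith)

/-- the conditions on the parameters which are used for the errors -/
private structure ParH (κ lam Y D : ℝ) : Prop where
  Y8 : 8 ≤ Y
  Yl : Y ≤ 2 * lam
  hl : 1 ≤ κ ^ 3 * lam
  he : 2 * lam * √(D ^ 3) ≤ κ ^ 5 * D ^ 3 / 2048
  sm : 80 * Y * D ^ 2 ≤ κ * D ^ 3

private theorem xd_tb {κ D N Y B r a b lam : ℝ} (h : CoreH κ D N Y B r a b)
    {F : ℕ → ℕ → ℝ} (e : ErrH κ lam Y D a b F) (p : ParH κ lam Y D) (k : ℕ) (hk1 : 1 ≤ k)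
    (hka : (k : ℝ) ≤ a) :
    F k 1 ≤ mu (a - k) b + (κ / 32 * (B ^ 2 * Y ^ 2 * D) + κ ^ 3 / 128 * ((k : ℝ) ^ 2 / N)) := by
  obtain ⟨hD, hN, hB, hB8, ha, hb, hr, hr1, ha2, hb2, hkB, hkB1, hkB2⟩ := h.pos
  have k0 := h.k0
  have k1 := h.k1
  have Y1 := h.Y1
  have D1 := h.D1
  have hN3 := h.N3
  have D2 : (1 : ℝ) ≤ D ^ 2 := one_le_pow₀ D1
  have hYD2 : 8 * D ^ 2 ≤ Y * D ^ 2 := mul_le_mul_of_nonneg_right p.Y8 (by positivity)
  have hb1 : ((1 : ℕ) : ℝ) ≤ b := by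
    rw [Nat.cast_one]
    have := p.sm
    rw [← hN3] at this
    linarith
  have hk0 : (0 : ℝ) ≤ k := Nat.cast_nonneg k
  have hmono : mu (a - k) (b - ((1 : ℕ) : ℝ)) ≤ mu (a - k) b :=
    mu_mono (by linarith) (by linarith) le_rfl (by rw [Nat.cast_one]; linarith)
  have t1 : 0 ≤ κ / 32 * (B ^ 2 * Y ^ 2 * D) := by positivity
  have t2 : 0 ≤ κ ^ 3 / 128 * ((k : ℝ) ^ 2 / N) := by positivity
  have hone : ((1 : ℕ) : ℝ) ≤ κ / 4 * D ^ 3 + 1 := by
    rw [Nat.cast_one]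
    have : 0 ≤ κ / 4 * D ^ 3 := by positivity
    linarith
  rcases le_or_gt (k : ℝ) (κ / 4 * D ^ 3) with hk | hk
  · rcases le_or_gt ((k : ℝ) + ((1 : ℕ) : ℝ)) (28 * lam * D ^ 2) with h28 | h28
    · have h3 := (abs_le.1 (e.e3 k 1 (by linarith) hone h28)).2
      have h4 : 2 * Y * D ≤ κ / 32 * (B ^ 2 * Y ^ 2 * D) := by
        have h5 : 10000 ≤ κ * B ^ 2 * Y := hkB2.trans (le_mul_of_one_le_right (by positivity) Y1)
        have h6 : κ / 32 * (B ^ 2 * Y ^ 2 * D) = κ * B ^ 2 * Y / 64 * (2 * Y * D) := by ring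
        rw [h6]
        exact le_mul_of_one_le_left (by positivity) (by linarith)
      linarith
    · have h3 := (abs_le.1 (e.e2 k 1 (by linarith) hone)).2
      have hlam : 4 ≤ lam := by linarith [p.Y8, p.Yl]
      have hlD : 1 ≤ lam * D ^ 2 := one_le_mul_of_one_le_of_one_le (by linarith) D2
      rw [Nat.cast_one] at h28
      have h27 : 27 * (lam * D ^ 2) ≤ k := by linarith
      have h4 : 2 * lam * D ≤ κ ^ 3 / 128 * ((k : ℝ) ^ 2 / N) := by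
        have h5 : (27 * (lam * D ^ 2)) ^ 2 ≤ (k : ℝ) ^ 2 := pow_le_pow_left₀ (by positivity) h27 2
        have h6 : κ ^ 3 / 128 * ((27 * (lam * D ^ 2)) ^ 2 / N) ≤
            κ ^ 3 / 128 * ((k : ℝ) ^ 2 / N) := by gcongr
        refine le_trans ?_ h6
        have h7 : κ ^ 3 / 128 * ((27 * (lam * D ^ 2)) ^ 2 / N) =
            729 / 256 * (κ ^ 3 * lam) * (2 * lam * D) := by
          rw [hN3]
          field_simp
          ring
        rw [h7]
        have := p.hl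
        exact le_mul_of_one_le_left (by positivity) (by linarith)
      linarith
  · have h3 := e.e1 k 1 hka hb1
    have h4 : κ ^ 5 * D ^ 3 / 2048 ≤ κ ^ 3 / 128 * ((k : ℝ) ^ 2 / N) := by
      have h5 : (κ / 4 * D ^ 3) ^ 2 ≤ (k : ℝ) ^ 2 := pow_le_pow_left₀ (by positivity) hk.le 2
      have h6 : κ ^ 3 / 128 * ((κ / 4 * D ^ 3) ^ 2 / N) ≤
          κ ^ 3 / 128 * ((k : ℝ) ^ 2 / N) := by gcongr
      refine le_trans (le_of_eq ?_) h6
      rw [hN3]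
      field_simp
      ring
    have := p.he
    linarith

private theorem xd_sel {κ D N Y B r a b lam : ℝ} (h : CoreH κ D N Y B r a b)
    {F : ℕ → ℕ → ℝ} (e : ErrH κ lam Y D a b F) (p : ParH κ lam Y D) (Sb Sg : ℕ → ℝ)
    (hSb : ∀ k : ℕ, 1 ≤ k → (k : ℝ) ≤ N → |Sb k - k / r| ≤ Y * (D + k / D))
    (hSg : ∀ k : ℕ, 1 ≤ k → (k : ℝ) ≤ N → |Sg k - k / (1 - r)| ≤ Y * (D + k / D)) :
    ∃ j : ℕ, 1 ≤ j ∧ (j : ℝ) ≤ κ / 16 * N ∧
      (∀ k : ℕ, 1 ≤ k → (k : ℝ) ≤ a → Sb k + F k 1 < Sg j + F 1 j) ∧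
      (∀ k : ℕ, 1 ≤ k → (k : ℝ) ≤ 9 * Y * D ^ 2 → Sg k + F 1 k < Sg j + F 1 j) := by
  obtain ⟨hD, hN, hB, hB8, ha, hb, hr, hr1, ha2, hb2, hkB, hkB1, hkB2⟩ := h.pos
  have k0 := h.k0
  have k1 := h.k1
  have Y1 := h.Y1
  have D1 := h.D1
  have hN3 := h.N3
  have D2 : (1 : ℝ) ≤ D ^ 2 := one_le_pow₀ D1
  have hYD2 : 8 * D ^ 2 ≤ Y * D ^ 2 := mul_le_mul_of_nonneg_right p.Y8 (by positivity)
  have hsm := p.sm
  have hYl2 : Y * D ^ 2 ≤ 2 * lam * D ^ 2 := mul_le_mul_of_nonneg_right p.Yl (by positivity)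
  have ha1 : 1 ≤ a := by
    rw [← hN3] at hsm
    linarith
  have hone : ((1 : ℕ) : ℝ) ≤ κ / 4 * D ^ 3 + 1 := by
    rw [Nat.cast_one]
    have : 0 ≤ κ / 4 * D ^ 3 := by positivity
    linarith
  have hz : 1 ≤ 1 / κ * B * Y * D ^ 2 := by
    have h1 : (1 : ℝ) ≤ 1 / κ * B := by
      rw [div_mul_eq_mul_div, le_div_iff₀ k0]
      linarith
    exact one_le_mul_of_one_le_of_one_le (one_le_mul_of_one_le_of_one_le h1 Y1) D2
  refine xd_main h Sb (fun k => F k 1) Sg (fun k => F 1 k)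
    (fun k hk1 hk2 => by linarith [(abs_le.1 (hSb k hk1 hk2)).2]) hSg
    (fun k hk1 hk2 => xd_tb h e p k hk1 hk2) (fun k hk1 hk2 => ?_) (fun k hk1 hk2 hk3 => ?_)
  · have hk0 : (0 : ℝ) ≤ k := Nat.cast_nonneg k
    have hk4 : (k : ℝ) ≤ κ / 4 * D ^ 3 := by linarith
    have h3 := (abs_le.1 (e.e3 1 k hone (by linarith) (by rw [Nat.cast_one]; linarith))).2
    have hkb : (k : ℝ) ≤ b := by
      rw [hN3] at hb2
      have : 0 < κ * D ^ 3 := by positivity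
      linarith
    have hmono : mu (a - ((1 : ℕ) : ℝ)) (b - k) ≤ mu a (b - k) :=
      mu_mono (by rw [Nat.cast_one]; linarith) (by linarith) (by rw [Nat.cast_one]; linarith)
        le_rfl
    show F 1 k ≤ _
    linarith
  · have hk0 : (0 : ℝ) ≤ k := Nat.cast_nonneg k
    have hk4 : (k : ℝ) ≤ κ / 4 * D ^ 3 + 1 := by
      rw [hN3] at hk2
      have : 0 < κ * D ^ 3 := by positivity
      linarith
    show _ ≤ F 1 k
    rcases le_or_gt (((1 : ℕ) : ℝ) + (k : ℝ)) (28 * lam * D ^ 2) with h28 | h28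
    · have h3 := (abs_le.1 (e.e3 1 k hone hk4 h28)).1
      rw [Nat.cast_one] at h3
      have h4 : 0 ≤ 3 / κ * B * Y * D := by positivity
      linarith
    · have h3 := (abs_le.1 (e.e2 1 k hone hk4)).1
      rw [Nat.cast_one] at h3 h28
      have h4 : 2 * lam * D ≤ 3 / κ * B * Y * D := by
        have h5 : 2 * lam * D * D ≤ 3 / κ * B * Y * D * D := by
          have e1 : 17 / κ * B * Y * D ^ 2 = 17 * (1 / κ * B * Y * D ^ 2) := by ring
          have e2 : 3 / κ * B * Y * D * D = 3 * (1 / κ * B * Y * D ^ 2) := by ring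
          have e3 : 2 * lam * D * D = 2 * (lam * D ^ 2) := by ring
          have e4 : 28 * lam * D ^ 2 = 28 * (lam * D ^ 2) := by ring
          rw [e1] at hk3
          rw [e4] at h28
          rw [e2, e3]
          linarith
        exact le_of_mul_le_mul_right h5 hD
      have h5 : 0 ≤ 2 * Y * D := by positivity
      linarith

/-! ### The parameters -/

private theorem xd_alc {κ σ N m nn X : ℝ} (k0 : 0 < κ) (hN : 0 < N) (hs0 : κ ≤ σ)
    (hs1 : σ ≤ 1 - κ) (hm : κ / 2 * N ≤ m) (hn : κ / 2 * N ≤ nn) (h1 : |m - σ * N| ≤ X)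
    (h2 : |nn - (1 - σ) * N| ≤ X) : |al m nn - alc σ| ≤ 4 * X / (κ * N) := by
  have hkN : 0 < κ * N := by positivity
  have hs : κ / 2 * N ≤ σ * N := by
    have : κ * N ≤ σ * N := mul_le_mul_of_nonneg_right hs0 hN.le
    linarith
  have hs' : κ / 2 * N ≤ (1 - σ) * N := by
    have : κ * N ≤ (1 - σ) * N := mul_le_mul_of_nonneg_right (by linarith) hN.le
    linarith
  have hm0 : 0 < m := by linarith
  have hn0 : 0 < nn := by linarith
  have hs2 : 0 < σ * N := by linarith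
  have hs3 : 0 < (1 - σ) * N := by linarith
  have e0 : alc σ = al (σ * N) ((1 - σ) * N) := by
    unfold alc al
    have t0 := Real.sqrt_pos.2 hN
    have hs4 : 0 < σ := by linarith
    have t1 := Real.sqrt_pos.2 hs4
    have t2 := Real.sqrt_nonneg (1 - σ)
    rw [Real.sqrt_mul hs4.le, Real.sqrt_mul (by linarith)]
    have t3 : √σ + √(1 - σ) ≠ 0 := by positivity
    field_simp
  have e1 := al_swap hn0 hs2
  have e2 := al_swap hs3 hs2
  have e3 : al m nn - alc σ = (al m nn - al (σ * N) nn) -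
      (al nn (σ * N) - al ((1 - σ) * N) (σ * N)) := by
    rw [e0, e1, e2]
    ring
  have u1 := xd_al_up k0 hN hm hs hn0
  have u2 := xd_al_up k0 hN hn hs' hs2
  have v1 : 2 * |m - σ * N| / (κ * N) ≤ 2 * X / (κ * N) :=
    div_le_div_of_nonneg_right (by linarith) hkN.le
  have v2 : 2 * |nn - (1 - σ) * N| / (κ * N) ≤ 2 * X / (κ * N) :=
    div_le_div_of_nonneg_right (by linarith) hkN.le
  have v3 : 4 * X / (κ * N) = 2 * X / (κ * N) + 2 * X / (κ * N) := by ring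
  rw [e3, v3]
  exact (abs_sub _ _).trans (by linarith)

private theorem xd_alc_bd {κ σ : ℝ} (k0 : 0 < κ) (hs0 : κ ≤ σ) (hs1 : σ ≤ 1 - κ) :
    κ / 2 ≤ alc σ ∧ κ / 2 ≤ 1 - alc σ := by
  have h1 : 0 < σ := by linarith
  have h2 : 0 < 1 - σ := by linarith
  have hk1 : κ ≤ 1 := by linarith
  have hkk : κ ^ 2 ≤ κ := by
    calc κ ^ 2 = κ * κ := by ring
      _ ≤ κ * 1 := mul_le_mul_of_nonneg_left hk1 k0.le
      _ = κ := mul_one κ
  have p1 := Real.sqrt_pos.2 h1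
  have p2 := Real.sqrt_pos.2 h2
  have q1 : κ ≤ √σ := Real.le_sqrt_of_sq_le (by linarith)
  have q2 : κ ≤ √(1 - σ) := Real.le_sqrt_of_sq_le (by linarith)
  have r1 : √σ ≤ 1 := Real.sqrt_le_one.2 (by linarith)
  have r2 : √(1 - σ) ≤ 1 := Real.sqrt_le_one.2 (by linarith)
  have hk : κ / 2 * (√σ + √(1 - σ)) ≤ κ / 2 * 2 := mul_le_mul_of_nonneg_left (by linarith)
    (by linarith)
  have e1 : 1 - alc σ = √(1 - σ) / (√σ + √(1 - σ)) := by
    unfold alc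
    field_simp
    ring
  rw [e1]
  unfold alc
  constructor
  · rw [le_div_iff₀ (by positivity)]
    linarith
  · rw [le_div_iff₀ (by positivity)]
    linarith

private theorem xd_par {κ B : ℝ} (hκ : 0 < κ) (hB : 0 < B) {C0 σ lam Y g0 : ℝ} {n : ℕ}
    (hC : 8 + 8 * (80 / κ + 272 * B / κ ^ 2) ^ 3 + (4096 / κ ^ 5) ^ 2 + 2 / κ ^ 3 +
      128 / κ ^ 4 ≤ C0) (hP : Par C0 κ σ lam Y g0 n) {D : ℝ} (hDD : D = (n : ℝ) ^ (1 / 3 : ℝ)) :
    κ ≤ 1 / 2 ∧ 1 ≤ D ∧ (n : ℝ) = D ^ 3 ∧ (n : ℝ) ^ (2 / 3 : ℝ) = D ^ 2 ∧ 128 / κ ^ 4 ≤ D ^ 3 ∧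
      ParH κ lam Y D ∧ 17 / κ * B * Y * D ^ 2 ≤ κ / 16 * D ^ 3 ∧ B * Y / D ≤ κ / 4 := by
  obtain ⟨hs0, hs1, hCY, hYl, hCg, hgn⟩ := hP
  set K : ℝ := 80 / κ + 272 * B / κ ^ 2 with hK
  have hK0 : 0 < K := by positivity
  have c1 : 0 ≤ 8 * K ^ 3 := by positivity
  have c2 : 0 ≤ (4096 / κ ^ 5) ^ 2 := by positivity
  have c3 : 0 ≤ 2 / κ ^ 3 := by positivity
  have c4 : 0 ≤ 128 / κ ^ 4 := by positivity
  have k1 : κ ≤ 1 / 2 := by linarith
  have Y8 : 8 ≤ Y := by linarith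
  have hlam : 4 ≤ lam := by linarith
  have hlam0 : 0 ≤ lam := by linarith
  have hlam1 : 1 ≤ lam := by linarith
  have hC0 : 0 ≤ C0 := by linarith
  have hlam3 : 1 ≤ lam ^ 3 := one_le_pow₀ hlam1
  have hCn : C0 * lam ^ 3 ≤ n := hCg.trans hgn
  have hCn' : C0 ≤ n := (le_mul_of_one_le_right hC0 hlam3).trans hCn
  have hn1 : (1 : ℝ) ≤ n := by linarith
  have hn0 : (0 : ℝ) ≤ n := by linarith
  have hD3 : (n : ℝ) = D ^ 3 := by
    rw [hDD, ← Real.rpow_natCast, ← Real.rpow_mul hn0]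
    norm_num
  have hD2 : (n : ℝ) ^ (2 / 3 : ℝ) = D ^ 2 := by
    rw [hDD, ← Real.rpow_natCast, ← Real.rpow_mul hn0]
    norm_num
  have D1 : 1 ≤ D := by
    rw [hDD]
    exact Real.one_le_rpow hn1 (by norm_num)
  have hD0 : 0 < D := by linarith
  -- the main comparison
  have hKY : K * Y ≤ D := by
    have h1 : (K * Y) ^ 3 ≤ D ^ 3 := by
      rw [← hD3]
      have h2 : Y ^ 3 ≤ (2 * lam) ^ 3 := pow_le_pow_left₀ (by linarith) hYl 3
      calc (K * Y) ^ 3 = K ^ 3 * Y ^ 3 := by ring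
        _ ≤ K ^ 3 * (2 * lam) ^ 3 := mul_le_mul_of_nonneg_left h2 (by positivity)
        _ = 8 * K ^ 3 * lam ^ 3 := by ring
        _ ≤ C0 * lam ^ 3 := mul_le_mul_of_nonneg_right (by linarith) (by positivity)
        _ ≤ n := hCn
    exact (pow_le_pow_iff_left₀ (by positivity) hD0.le (by norm_num)).1 h1
  have hK1 : 80 / κ * Y ≤ D := by
    refine le_trans ?_ hKY
    apply mul_le_mul_of_nonneg_right _ (by linarith)
    have : 0 ≤ 272 * B / κ ^ 2 := by positivity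
    linarith
  have hK2 : 272 * B / κ ^ 2 * Y ≤ D := by
    refine le_trans ?_ hKY
    apply mul_le_mul_of_nonneg_right _ (by linarith)
    have : 0 ≤ 80 / κ := by positivity
    linarith
  have hN4 : 128 / κ ^ 4 ≤ D ^ 3 := by
    rw [← hD3]
    linarith
  refine ⟨k1, D1, hD3, hD2, hN4, ⟨Y8, hYl, ?_, ?_, ?_⟩, ?_, ?_⟩
  · have h1 : 2 / κ ^ 3 ≤ 2 * lam := by linarith
    rw [div_le_iff₀ (by positivity)] at h1
    linarith
  · have hs : 4096 / κ ^ 5 * lam ≤ √(D ^ 3) := by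
      apply Real.le_sqrt_of_sq_le
      rw [← hD3]
      calc (4096 / κ ^ 5 * lam) ^ 2 = (4096 / κ ^ 5) ^ 2 * lam ^ 2 := by ring
        _ ≤ (4096 / κ ^ 5) ^ 2 * lam ^ 3 :=
            mul_le_mul_of_nonneg_left (pow_le_pow_right₀ hlam1 (by norm_num)) c2
        _ ≤ C0 * lam ^ 3 := mul_le_mul_of_nonneg_right (by linarith) (by positivity)
        _ ≤ n := hCn
    have hss : √(D ^ 3) ^ 2 = D ^ 3 := Real.sq_sqrt (by positivity)
    have hs0' := Real.sqrt_nonneg (D ^ 3)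
    calc 2 * lam * √(D ^ 3) = κ ^ 5 / 2048 * ((4096 / κ ^ 5 * lam) * √(D ^ 3)) := by
          field_simp
          ring
      _ ≤ κ ^ 5 / 2048 * (√(D ^ 3) * √(D ^ 3)) :=
          mul_le_mul_of_nonneg_left (mul_le_mul_of_nonneg_right hs hs0') (by positivity)
      _ = κ ^ 5 / 2048 * √(D ^ 3) ^ 2 := by ring
      _ = κ ^ 5 * D ^ 3 / 2048 := by
          rw [hss]
          ring
  · have h1 : κ * D ^ 2 * (80 / κ * Y) ≤ κ * D ^ 2 * D :=
      mul_le_mul_of_nonneg_left hK1 (by positivity)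
    calc 80 * Y * D ^ 2 = κ * D ^ 2 * (80 / κ * Y) := by
          field_simp
      _ ≤ κ * D ^ 2 * D := h1
      _ = κ * D ^ 3 := by ring
  · have h1 : κ / 16 * D ^ 2 * (272 * B / κ ^ 2 * Y) ≤ κ / 16 * D ^ 2 * D :=
      mul_le_mul_of_nonneg_left hK2 (by positivity)
    calc 17 / κ * B * Y * D ^ 2 = κ / 16 * D ^ 2 * (272 * B / κ ^ 2 * Y) := by
          field_simp
          ring
      _ ≤ κ / 16 * D ^ 2 * D := h1
      _ = κ / 16 * D ^ 3 := by ring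
  · rw [div_le_iff₀ hD0]
    have h1 : κ / 4 * (272 * B / κ ^ 2 * Y) ≤ κ / 4 * D := mul_le_mul_of_nonneg_left hK2
      (by positivity)
    refine le_trans ?_ h1
    have h2 : κ / 4 * (272 * B / κ ^ 2 * Y) = 68 / κ * (B * Y) := by
      field_simp
      ring
    rw [h2]
    have h3 : (1 : ℝ) ≤ 68 / κ := by
      rw [le_div_iff₀ hκ]
      linarith
    exact le_mul_of_one_le_left (by positivity) h3

private theorem xd_cor {σ A Y D : ℝ} {n : ℕ} {I : ℤ} (hs0 : 0 ≤ σ) (hs1 : σ ≤ 1) (D1 : 1 ≤ D)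
    (nD : (n : ℝ) = D ^ 3) (Y8 : 8 ≤ Y) (hA1 : 1 ≤ A) (hA : A ≤ 4 * Y * D ^ 2)
    (hI : |(I : ℝ)| ≤ D ^ 2) :
    |((I : ℝ) - ((cor σ A n).1 : ℝ)) - σ * D ^ 3| ≤ 5 * Y * D ^ 2 ∧
      |-((cor σ A n).2 : ℝ) - (1 - σ) * D ^ 3| ≤ 5 * Y * D ^ 2 ∧
      (PRp σ A n).1 - (cor σ A n).1 = (PLp σ A n).2 - (cor σ A n).2 ∧
      (((PLp σ A n).2 - (cor σ A n).2 : ℤ) : ℝ) ≤ 9 * Y * D ^ 2 := by
  have D2 : (1 : ℝ) ≤ D ^ 2 := one_le_pow₀ D1
  have hYD2 : 8 * D ^ 2 ≤ Y * D ^ 2 := mul_le_mul_of_nonneg_right Y8 (by positivity)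
  have hI' := abs_le.1 hI
  unfold cor PLp PRp
  simp only
  set X : ℝ := -(σ * ((n : ℝ) + 1 / 2)) with hX
  have f1 := Int.floor_le (X - A)
  have f2 := Int.lt_floor_add_one (X - A)
  have g1 := Int.le_ceil (X + A)
  have g2 := Int.ceil_lt_add_one (X + A)
  set fl : ℤ := ⌊X - A⌋
  set cl : ℤ := ⌈X + A⌉
  have hXe : X = -(σ * D ^ 3) - σ / 2 := by
    rw [hX, nD]
    ring
  refine ⟨?_, ?_, by ring, ?_⟩
  · push_cast
    rw [abs_le]
    constructor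
    · linarith
    · linarith
  · push_cast
    rw [nD, abs_le]
    constructor
    · linarith
    · linarith
  · push_cast
    linarith

private theorem xd_wg {ρ Y : ℝ} {n : ℕ} {S : ℕ → ℝ} (h : WalkGood ρ Y n S) (k : ℕ)
    (hk : (k : ℝ) ≤ n) : |(∑ i ∈ Finset.Icc 1 k, S i) - k / ρ| ≤
      Y * ((n : ℝ) ^ (1 / 3 : ℝ) + k / (n : ℝ) ^ (1 / 3 : ℝ)) := by
  have hk' : k ≤ n := by exact_mod_cast hk
  have h1 := h.2 k (by omega)
  rw [Finset.sum_sub_distrib, Finset.sum_const, Nat.card_Icc, nsmul_eq_mul] at h1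
  have e : ((k + 1 - 1 : ℕ) : ℝ) * (1 / ρ) = k / ρ := by
    rw [Nat.add_sub_cancel]
    ring
  rwa [e] at h1

private theorem xd_core {κ σ D Y B m nn ρ : ℝ} (k0 : 0 < κ) (k1 : κ ≤ 1 / 2) (hs0 : κ ≤ σ)
    (hs1 : σ ≤ 1 - κ) (D1 : 1 ≤ D) (Nb : 128 / κ ^ 4 ≤ D ^ 3) (Y1 : 1 ≤ Y)
    (Bb : 2000 / κ ^ 2 ≤ B) (a1 : 15 / 16 * κ * D ^ 3 ≤ m) (a2 : m ≤ D ^ 3)
    (b1 : 15 / 16 * κ * D ^ 3 ≤ nn) (b2 : nn ≤ D ^ 3) (h1 : |m - σ * D ^ 3| ≤ 5 * Y * D ^ 2)
    (h2 : |nn - (1 - σ) * D ^ 3| ≤ 5 * Y * D ^ 2)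
    (sm : 17 / κ * B * Y * D ^ 2 ≤ κ / 16 * D ^ 3) (hBD : B * Y / D ≤ κ / 4)
    (hρ : ρ = alc σ + B * Y / D) : CoreH κ D (D ^ 3) Y B ρ m nn := by
  have hD : 0 < D := by linarith
  have hD3 : 0 < D ^ 3 := by positivity
  have hkN : 0 < κ * D ^ 3 := by positivity
  obtain ⟨c1, c2⟩ := xd_alc_bd k0 hs0 hs1
  have hB0 : 0 < B := lt_of_lt_of_le (by positivity) Bb
  have hBY : 0 < B * Y / D := by positivity
  have hd := xd_alc k0 hD3 hs0 hs1 (by linarith) (by linarith) h1 h2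
  have e1 : 4 * (5 * Y * D ^ 2) / (κ * D ^ 3) = 20 / κ * (Y / D) := by
    field_simp
    ring
  rw [e1] at hd
  have hYD : 0 < Y / D := by positivity
  have h20 : 20 / κ ≤ B / 2 := by
    have h3 : 20 / κ ≤ 2000 / κ ^ 2 / 2 := by
      rw [div_div, div_le_div_iff₀ k0 (by positivity)]
      have : κ ^ 2 = κ * κ := by ring
      rw [this]
      have h4 : κ * κ ≤ κ * 1 := mul_le_mul_of_nonneg_left (by linarith) k0.le
      linarith
    linarith
  have h21 : 20 / κ * (Y / D) ≤ B / 2 * (Y / D) := mul_le_mul_of_nonneg_right h20 hYD.le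
  have e2 : B * Y / D = B * (Y / D) := by ring
  have e3 : B / 2 * (Y / D) = B * (Y / D) / 2 := by ring
  have e4 : 2 * B * (Y / D) = 2 * (B * (Y / D)) := by ring
  have hd' := abs_le.1 hd
  have hBYD : 0 < B * (Y / D) := by positivity
  rw [e3] at h21
  refine ⟨k0, k1, D1, rfl, Nb, Y1, Bb, a1, a2, b1, b2, ?_, ?_, ?_, ?_, sm⟩
  · rw [hρ]
    linarith
  · rw [hρ]
    linarith
  · rw [hρ, e3, e2]
    linarith [hd'.1, hd'.2]
  · rw [hρ, e4, e2]
    linarith [hd'.1, hd'.2]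

theorem exit_det {κ : ℝ} (hκ : 0 < κ) : ∃ B0 : ℝ, 1 ≤ B0 ∧ ∀ B : ℝ, B0 ≤ B → ∃ C0 : ℝ, 1 ≤ C0 ∧
    ∀ (σ lam Y g0 A : ℝ) (n : ℕ) (ω : ℤ × ℤ → ℝ), Par C0 κ σ lam Y g0 n →
    GoodE κ σ lam Y g0 (2 * n) ω → 1 ≤ A → A ≤ 4 * Y * (n : ℝ) ^ (2 / 3 : ℝ) →
    ∀ (S W : ℕ → ℝ) (I : ℤ), |(I : ℝ)| ≤ (n : ℝ) ^ (2 / 3 : ℝ) →
    (WalkGood (rA σ B Y n) Y n S → WalkGood (1 - rA σ B Y n) Y n W → ∃ h : ℕ,
      (PLp σ A n).2 ≤ (cor σ A n).2 + h ∧ (cor σ A n).2 + h ≤ 0 ∧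
      T (bfield ω S W (cor σ A n)) (cor σ A n) (I, 0) =
        (∑ j ∈ Finset.Icc 1 h, W j) + T ω ((cor σ A n).1 + 1, (cor σ A n).2 + h) (I, 0)) ∧
    (WalkGood (rB σ B Y n) Y n S → WalkGood (1 - rB σ B Y n) Y n W → ∃ k : ℕ,
      (PRp σ A n).1 ≤ (cor σ A n).1 + k ∧ (cor σ A n).1 + k ≤ I ∧
      T (bfield ω S W (cor σ A n)) (cor σ A n) (I, 0) =
        (∑ j ∈ Finset.Icc 1 k, S j) + T ω ((cor σ A n).1 + k, (cor σ A n).2 + 1) (I, 0)) := by
  have hκ2 : 0 ≤ 2000 / κ ^ 2 := by positivity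
  refine ⟨1 + 2000 / κ ^ 2, by linarith, fun B hB => ?_⟩
  have hB0 : 0 < B := by linarith
  have Bb : 2000 / κ ^ 2 ≤ B := by linarith
  have c1 : 0 ≤ 8 * (80 / κ + 272 * B / κ ^ 2) ^ 3 := by positivity
  have c2 : 0 ≤ (4096 / κ ^ 5) ^ 2 := by positivity
  have c3 : 0 ≤ 2 / κ ^ 3 := by positivity
  have c4 : 0 ≤ 128 / κ ^ 4 := by positivity
  refine ⟨8 + 8 * (80 / κ + 272 * B / κ ^ 2) ^ 3 + (4096 / κ ^ 5) ^ 2 + 2 / κ ^ 3 +
    128 / κ ^ 4, by linarith, ?_⟩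
  intro σ lam Y g0 A n ω hP hG hA1 hA S W I hI
  obtain ⟨D, hDD⟩ : ∃ D : ℝ, D = (n : ℝ) ^ (1 / 3 : ℝ) := ⟨_, rfl⟩
  obtain ⟨k1, D1, nD, hD2, Nb, hp, sm, hBD⟩ := xd_par hκ hB0 le_rfl hP hDD
  obtain ⟨hs0, hs1, hCY, hYl, hCg, hgn⟩ := hP
  rw [hD2] at hA hI
  have hD : 0 < D := by linarith
  have hD3 : 0 < D ^ 3 := by positivity
  have hkN : 0 < κ * D ^ 3 := by positivity
  have Y1 : 1 ≤ Y := by linarith [hp.Y8]
  obtain ⟨q1, q2, q3, q4⟩ := xd_cor (σ := σ) (A := A) (Y := Y) (D := D) (n := n) (I := I)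
    (by linarith) (by linarith) D1 nD hp.Y8 hA1 hA hI
  obtain ⟨c, hc⟩ : ∃ c : ℤ × ℤ, c = cor σ A n := ⟨_, rfl⟩
  rw [← hc] at q1 q2 q3 q4 ⊢
  obtain ⟨m, hm⟩ : ∃ m : ℝ, m = (I : ℝ) - (c.1 : ℝ) := ⟨_, rfl⟩
  obtain ⟨nn, hn⟩ : ∃ nn : ℝ, nn = -(c.2 : ℝ) := ⟨_, rfl⟩
  rw [← hm] at q1
  rw [← hn] at q2
  have hg : GeoH κ σ lam Y g0 D n c I m nn :=
    ⟨hκ, k1, hs0, hs1, D1, nD, hD2, hp.Y8, hYl, hgn, hI, hm, hn, q1, q2, hp.sm⟩
  obtain ⟨b1, b2, b3, b4, b5, b6, b7⟩ := hg.bds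
  have hE : ErrH κ lam Y D m nn (fun x y => T ω (c.1 + x, c.2 + y) (I, 0)) :=
    ⟨fun x y hx hy => xd_e1 hg hG.1 x y hx hy, fun x y hx hy => xd_e2 hg hG.1 x y hx hy,
      fun x y hx hy hxy => xd_e3 hg hG.2 x y hx hy hxy⟩
  have hkD : κ / 16 * D ^ 3 ≤ 15 / 16 * κ * D ^ 3 := by linarith
  have hc1 : c.1 < I := by
    have h1 : (0 : ℝ) < (I : ℝ) - (c.1 : ℝ) := by linarith
    have h2 : (c.1 : ℝ) < (I : ℝ) := by linarith
    exact_mod_cast h2
  have hc2 : c.2 < 0 := by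
    have h2 : (c.2 : ℝ) < (0 : ℝ) := by linarith
    exact_mod_cast h2
  have hone : (((1 : ℕ) : ℤ)) = 1 := Nat.cast_one
  constructor
  · intro hS hW
    have hcore := xd_core (ρ := rA σ B Y n) hκ k1 hs0 hs1 D1 Nb Y1 Bb b1 b2 b3 b4 q1 q2 sm hBD
      (by rw [hDD]; rfl)
    obtain ⟨j, hj1, hj2, hj3, hj4⟩ := xd_sel hcore hE hp (fun k => ∑ i ∈ Finset.Icc 1 k, S i)
      (fun k => ∑ i ∈ Finset.Icc 1 k, W i)
      (fun k _ hk2 => by
        have := xd_wg hS k (by rw [nD]; exact hk2)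
        rw [← hDD] at this
        exact this)
      (fun k _ hk2 => by
        have := xd_wg hW k (by rw [nD]; exact hk2)
        rw [← hDD] at this
        exact this)
    simp only [hone] at hj3 hj4
    have hjn : c.2 + (j : ℤ) ≤ 0 := by
      have h1 : (j : ℝ) ≤ nn := by linarith
      have h2 : ((c.2 + (j : ℤ) : ℤ) : ℝ) ≤ ((0 : ℤ) : ℝ) := by
        push_cast
        linarith
      exact_mod_cast h2
    have hopt := exitW_le (ω := ω) (S := S) (W := W) (c := c) (v := (I, 0)) hc1 j hj1 hjn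
    rcases exists_exit (c := c) (v := (I, 0)) ω S W hc1 hc2 with
      ⟨k, hk1, hk2, hk3⟩ | ⟨k, hk1, hk2, hk3⟩
    · exfalso
      have h1 : (k : ℝ) ≤ m := by
        have h2 : ((c.1 + (k : ℤ) : ℤ) : ℝ) ≤ ((I : ℤ) : ℝ) := by exact_mod_cast hk2
        push_cast at h2
        linarith
      have h3 := hj3 k hk1 h1
      linarith
    · refine ⟨k, ?_, hk2, hk3⟩
      by_contra hlt
      push Not at hlt
      have h1 : (k : ℝ) ≤ 9 * Y * D ^ 2 := by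
        have h2 : (k : ℤ) ≤ (PLp σ A n).2 - c.2 := by omega
        have h3 : ((k : ℤ) : ℝ) ≤ (((PLp σ A n).2 - c.2 : ℤ) : ℝ) := by exact_mod_cast h2
        rw [Int.cast_natCast] at h3
        linarith
      have h3 := hj4 k hk1 h1
      linarith
  · intro hS hW
    have hal := al_swap (m := m) (n := nn) (by linarith) (by linarith)
    have hsw : |nn - (1 - (1 - (1 - σ))) * D ^ 3| ≤ 5 * Y * D ^ 2 := by
      have : (1 : ℝ) - (1 - (1 - σ)) = 1 - σ := by ring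
      rw [this]
      exact q2
    have hr2 : 1 - (1 - rB σ B Y n) = rB σ B Y n := by ring
    have hcore := xd_core (σ := 1 - σ) (m := nn) (nn := m) (ρ := 1 - rB σ B Y n) hκ k1
      (by linarith) (by linarith) D1 Nb Y1 Bb b3 b4 b1 b2 q2
      (by
        have : (1 : ℝ) - (1 - σ) = σ := by ring
        rw [this]
        exact q1) sm hBD
      (by
        have h1 : 0 < σ := by linarith
        have h2 : 0 < 1 - σ := by linarith
        have p1 := Real.sqrt_pos.2 h1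
        have p2 := Real.sqrt_pos.2 h2
        have h3 : alc (1 - σ) = 1 - alc σ := by
          unfold alc
          rw [sub_sub_cancel]
          field_simp
          ring
        rw [h3, hDD]
        unfold rB
        ring)
    obtain ⟨j, hj1, hj2, hj3, hj4⟩ := xd_sel hcore hE.swap hp
      (fun k => ∑ i ∈ Finset.Icc 1 k, W i) (fun k => ∑ i ∈ Finset.Icc 1 k, S i)
      (fun k _ hk2 => by
        have := xd_wg hW k (by rw [nD]; exact hk2)
        rw [← hDD] at this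
        exact this)
      (fun k _ hk2 => by
        have := xd_wg hS k (by rw [nD]; exact hk2)
        rw [← hDD] at this
        rw [hr2]
        exact this)
    simp only [hone] at hj3 hj4
    have hjn : c.1 + (j : ℤ) ≤ I := by
      have h1 : (j : ℝ) ≤ m := by linarith
      have h2 : ((c.1 + (j : ℤ) : ℤ) : ℝ) ≤ ((I : ℤ) : ℝ) := by
        push_cast
        linarith
      exact_mod_cast h2
    have hopt := exitS_le (ω := ω) (S := S) (W := W) (c := c) (v := (I, 0)) hc2 j hj1 hjn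
    rcases exists_exit (c := c) (v := (I, 0)) ω S W hc1 hc2 with
      ⟨k, hk1, hk2, hk3⟩ | ⟨k, hk1, hk2, hk3⟩
    · refine ⟨k, ?_, hk2, hk3⟩
      by_contra hlt
      push Not at hlt
      have h1 : (k : ℝ) ≤ 9 * Y * D ^ 2 := by
        have h2 : (k : ℤ) ≤ (PLp σ A n).2 - c.2 := by omega
        have h3 : ((k : ℤ) : ℝ) ≤ (((PLp σ A n).2 - c.2 : ℤ) : ℝ) := by exact_mod_cast h2
        rw [Int.cast_natCast] at h3
        linarith
      have h3 := hj4 k hk1 h1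
      linarith
    · exfalso
      have h1 : (k : ℝ) ≤ nn := by
        have h2 : ((c.2 + (k : ℤ) : ℤ) : ℝ) ≤ ((0 : ℤ) : ℝ) := by exact_mod_cast hk2
        push_cast at h2
        linarith
      have h3 := hj3 k hk1 h1
      linarith

end BGE
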