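import Pool.Agent.BGE.ExitAlg
import Pool.Agent.BGE.MgfS

/-!
BGE / C3. Exit localisation.

Notation for a box of `m` columns and `n` rows: `s = √m + √n`, `al = √m/s` (the critical rate),
`Ph = s⁴/(√m √n)`; so `m = al² s²`, `n = (1 - al)² s²`, `Ph = s²/(al (1 - al))`, and
`ff ρ = m/ρ + n/(1-ρ)`; `ff al = s²`, and `m/al³ + n/(1-al)³ = Ph`.

`exit_loc`: let `q = min al (1 - al)`, `a = al - t'`, `0 ≤ t' ≤ q/4`, `1 ≤ w < m`,
`10 a² t' Ph ≤ w`. Then
`P(∃ k, w < k ≤ m, ff a - w²/(768 a⁴ Ph) ≤ ∑_{i ≤ k} S_i/a + T ω (k,1) (m,n))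
   ≤ 2 exp (- w³/(2359296 a⁶ Ph²))`.

Proof. Write the sum as `S_w' + V'` with `S_w' = ∑_{i ≤ w} S_i/a` and `V'` the maximum over
`k > w` of `∑_{w < i ≤ k} S_i/a + T ω (k,1) (m,n)`. Let `z1 = w²/(384 a⁴ Ph)`. It suffices to
bound `P(V' ≥ ff a - w/a - z1)` and `P(S_w' ≥ w/a + z1/2)`.

(1) By `mgfS` the first one is at most `exp (θ z1 + E)` where `E` is the exponent
`n log (1 + θ/(1-a)) - (m - w) log (1 - θ/a) - θ (ff a - w/a)`. With
`log (1+x) ≤ x - x²/2 + x³/3` (`x ≥ 0`) and `-log (1-x) ≤ x + x²/2 + (2/3) x³` (`0 ≤ x ≤ 1/2`):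
`E ≤ (θ²/2) [ (m - w)/a² - n/(1-a)² ] + θ³ (m/a³ + n/(1-a)³)`.
Now `m/a² - n/(1-a)² = s² (al/a - (1-al)/(1-a)) (al/a + (1-al)/(1-a))
 = s² t'/(a (1-a)) (al/a + (1-al)/(1-a)) ≤ 5 t' Ph` (as `al/a ≤ 4/3`, `(1-al)/(1-a) ≤ 1`) which is
`≤ w/(2a²)`; so the bracket is `≤ - w/(2a²)`. And
`m/a³ + n/(1-a)³ ≤ (64/27) Ph ≤ 3 Ph`. With `θ = w/(24 a² Ph)`, which is `≤ a/2` because
`a³ Ph ≥ (27/64) m` and `w < m`, we get `E ≤ -θ² w/(4a²) + 3 Ph θ³ = -θ² w/(8a²)`, and
`θ z1 = θ² w/(16 a²)`. Total exponent `≤ -θ² w/(16 a²) = - w³/(9216 a⁶ Ph²)`.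

(2) Chernoff: for `0 ≤ θ' ≤ a/2`, `E exp (θ' (S_w' - w/a)) ≤ exp (w θ'²/a²)` since
`-log (1-x) - x ≤ x²` for `0 ≤ x ≤ 1/2`. With `θ' = a² z1/(4w) = θ/64` the probability is at most
`exp (- a² z1²/(16 w)) = exp (- w³/(2359296 a⁶ Ph²))`.
-/

namespace BGE

open MeasureTheory ProbabilityTheory
open scoped ENNReal

theorem log_one_add_le3 {x : ℝ} (hx : 0 ≤ x) : Real.log (1 + x) ≤ x - x ^ 2 / 2 + x ^ 3 / 3 := by
  have hd : ∀ y : ℝ, 0 ≤ y → HasDerivAt (fun y : ℝ => y - y ^ 2 / 2 + y ^ 3 / 3 - Real.log (1 + y))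
      (y ^ 3 / (1 + y)) y := by
    intro y hy
    have h1 : HasDerivAt (fun y : ℝ => 1 + y) 1 y := by simpa using (hasDerivAt_id y).const_add 1
    have h2 := h1.log (by linarith)
    have h3 := ((hasDerivAt_id y).sub ((hasDerivAt_pow 2 y).div_const 2)).add
      ((hasDerivAt_pow 3 y).div_const 3)
    refine (h3.sub h2).congr_deriv ?_
    have h4 : 1 + y ≠ 0 := by linarith
    push_cast
    field_simp
    ring
  have hm : MonotoneOn (fun y : ℝ => y - y ^ 2 / 2 + y ^ 3 / 3 - Real.log (1 + y)) (Set.Ici 0) := by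
    refine monotoneOn_of_deriv_nonneg (convex_Ici 0)
      (fun y hy => (hd y hy).continuousAt.continuousWithinAt) ?_ ?_
    · intro y hy
      rw [interior_Ici] at hy
      exact (hd y (le_of_lt hy)).differentiableAt.differentiableWithinAt
    · intro y hy
      rw [interior_Ici] at hy
      have hy' : 0 < y := hy
      rw [(hd y hy'.le).deriv]
      positivity
  have h := hm (Set.mem_Ici.2 le_rfl) (Set.mem_Ici.2 hx) hx
  simp only [add_zero, Real.log_one] at h
  norm_num at h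
  linarith

theorem neg_log_one_sub_le3 {x : ℝ} (hx : 0 ≤ x) (hx1 : x ≤ 1 / 2) :
    -Real.log (1 - x) ≤ x + x ^ 2 / 2 + 2 / 3 * x ^ 3 := by
  have hd : ∀ y : ℝ, y ≤ 1 / 2 → HasDerivAt
      (fun y : ℝ => y + y ^ 2 / 2 + 2 / 3 * y ^ 3 + Real.log (1 - y))
      (y ^ 2 * (1 - 2 * y) / (1 - y)) y := by
    intro y hy
    have h1 : HasDerivAt (fun y : ℝ => 1 - y) (-1) y := by
      simpa using (hasDerivAt_id y).const_sub 1
    have h2 := h1.log (by linarith)
    have h3 := ((hasDerivAt_id y).add ((hasDerivAt_pow 2 y).div_const 2)).add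
      ((hasDerivAt_pow 3 y).const_mul (2 / 3))
    refine (h3.add h2).congr_deriv ?_
    have h4 : 1 - y ≠ 0 := by linarith
    push_cast
    field_simp
    ring
  have hm : MonotoneOn (fun y : ℝ => y + y ^ 2 / 2 + 2 / 3 * y ^ 3 + Real.log (1 - y))
      (Set.Icc 0 (1 / 2)) := by
    refine monotoneOn_of_deriv_nonneg (convex_Icc 0 (1 / 2))
      (fun y hy => (hd y hy.2).continuousAt.continuousWithinAt) ?_ ?_
    · intro y hy
      rw [interior_Icc] at hy
      exact (hd y (le_of_lt hy.2)).differentiableAt.differentiableWithinAt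
    · intro y hy
      rw [interior_Icc] at hy
      rw [(hd y hy.2.le).deriv]
      have h1 := hy.1
      have h2 := hy.2
      exact div_nonneg (mul_nonneg (by positivity) (by linarith)) (by linarith)
  have h := hm (Set.mem_Icc.2 ⟨le_rfl, by norm_num⟩) (Set.mem_Icc.2 ⟨hx, hx1⟩) hx
  simp only [sub_zero, Real.log_one] at h
  norm_num at h
  linarith

/-- the Chernoff bound for a sum of exponential variables -/
theorem chernoffS {a θ : ℝ} (hθ : 0 < θ) (hθa : θ < a) (w : ℕ) (z : ℝ) :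
    muSW.real {x : SW | z ≤ ∑ i ∈ Finset.Icc 1 w, x.2.1 i / a} ≤
      (a / (a - θ)) ^ w * Real.exp (-(θ * z)) := by
  have ha : 0 < a := hθ.trans hθa
  have hp : MeasurePreserving (fun x : SW => x.2.1) muSW (PI ℕ) := by
    have h1 : MeasurePreserving (Prod.snd : SW → (ℕ → ℝ) × (ℕ → ℝ)) muSW ((PI ℕ).prod (PI ℕ)) :=
      measurePreserving_snd
    have h2 : MeasurePreserving (Prod.fst : (ℕ → ℝ) × (ℕ → ℝ) → (ℕ → ℝ)) ((PI ℕ).prod (PI ℕ))
      (PI ℕ) := measurePreserving_fst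
    exact h2.comp h1
  have h1 : muSW {x : SW | z ≤ ∑ i ∈ Finset.Icc 1 w, x.2.1 i / a} =
      (PI ℕ) {y : ℕ → ℝ | z ≤ ∑ i ∈ Finset.Icc 1 w, y i / a} := by
    rw [← hp.measure_preimage (by
      refine (measurableSet_le measurable_const ?_).nullMeasurableSet
      fun_prop)]
    rfl
  have h2 := lint_col ha hθa w
  have h3 := (mul_meas_ge_le_lintegral (μ := PI ℕ)
    (f := fun y : ℕ → ℝ => ENNReal.ofReal (Real.exp (θ * ∑ j ∈ Finset.Icc 1 w, y j / a)))
    (by fun_prop) (ENNReal.ofReal (Real.exp (θ * z)))).trans h2.le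
  have h5 : ENNReal.ofReal (Real.exp (-(θ * z))) * ENNReal.ofReal (Real.exp (θ * z)) = 1 := by
    rw [← ENNReal.ofReal_mul (Real.exp_pos _).le, ← Real.exp_add]
    simp
  have h7 : 0 < a / (a - θ) := div_pos ha (by linarith)
  have h8 : (PI ℕ) {y : ℕ → ℝ | z ≤ ∑ i ∈ Finset.Icc 1 w, y i / a} ≤
      ENNReal.ofReal ((a / (a - θ)) ^ w * Real.exp (-(θ * z))) := by
    calc (PI ℕ) {y : ℕ → ℝ | z ≤ ∑ i ∈ Finset.Icc 1 w, y i / a}
        ≤ (PI ℕ) {y : ℕ → ℝ | ENNReal.ofReal (Real.exp (θ * z)) ≤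
          ENNReal.ofReal (Real.exp (θ * ∑ j ∈ Finset.Icc 1 w, y j / a))} := by
          refine measure_mono fun y hy => ?_
          exact ENNReal.ofReal_le_ofReal (Real.exp_le_exp.2 (mul_le_mul_of_nonneg_left hy hθ.le))
      _ = ENNReal.ofReal (Real.exp (-(θ * z))) * (ENNReal.ofReal (Real.exp (θ * z)) *
          (PI ℕ) {y : ℕ → ℝ | ENNReal.ofReal (Real.exp (θ * z)) ≤
          ENNReal.ofReal (Real.exp (θ * ∑ j ∈ Finset.Icc 1 w, y j / a))}) := by
          rw [← mul_assoc, h5, one_mul]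
      _ ≤ ENNReal.ofReal (Real.exp (-(θ * z))) * ENNReal.ofReal (a / (a - θ)) ^ w :=
          mul_le_mul_right h3 _
      _ = _ := by
          rw [← ENNReal.ofReal_pow h7.le, ← ENNReal.ofReal_mul (Real.exp_pos _).le, mul_comm]
  rw [measureReal_def, h1]
  exact ENNReal.toReal_le_of_le_ofReal (by positivity) h8

theorem inv_one_sub_le_exp {a θ : ℝ} (ha : 0 < a) (hθ : 0 ≤ θ) (h : θ ≤ a / 2) :
    a / (a - θ) ≤ Real.exp (θ / a + (θ / a) ^ 2 / 2 + 2 / 3 * (θ / a) ^ 3) := by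
  have h1 : θ / a ≤ 1 / 2 := by
    rw [div_le_iff₀ ha]
    linarith
  have h2 := neg_log_one_sub_le3 (x := θ / a) (by positivity) h1
  have h3 : a / (a - θ) = (1 - θ / a)⁻¹ := by
    have : a - θ ≠ 0 := by linarith
    have h4 : 1 - θ / a = (a - θ) / a := by field_simp
    rw [h4, inv_div]
  rw [h3, ← Real.log_le_iff_le_exp (inv_pos.2 (by linarith)), Real.log_inv]
  exact h2

theorem one_add_le_exp {b θ : ℝ} (hb : 0 < b) (hθ : 0 ≤ θ) :
    (b + θ) / b ≤ Real.exp (θ / b - (θ / b) ^ 2 / 2 + (θ / b) ^ 3 / 3) := by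
  have h2 := log_one_add_le3 (x := θ / b) (by positivity)
  have h3 : (b + θ) / b = 1 + θ / b := by field_simp
  rw [h3, ← Real.log_le_iff_le_exp (by positivity)]
  exact h2

set_option linter.unusedVariables false in
theorem exit_loc {m n w : ℕ} (hn : 1 ≤ n) (hw : 1 ≤ w) (hwm : w < m) {t' a : ℝ} (ht' : 0 ≤ t')
    (ht1 : t' ≤ al m n / 4) (ht2 : t' ≤ (1 - al m n) / 4) (ha : a = al m n - t')
    (hwt : 10 * a ^ 2 * t' * Ph m n ≤ w) :
    muSW.real {x : SW | ∃ k : ℕ, w < k ∧ k ≤ m ∧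
      ff m n a - w ^ 2 / (768 * a ^ 4 * Ph m n) ≤
        (∑ i ∈ Finset.Icc 1 k, x.2.1 i / a) + T x.1 ((k : ℤ), 1) ((m : ℤ), (n : ℤ))} ≤
      2 * Real.exp (-(w ^ 3 / (2359296 * a ^ 6 * Ph m n ^ 2))) := by
  have hm0 : (0 : ℝ) < m := by
    have : 0 < m := by omega
    exact_mod_cast this
  have hn0 : (0 : ℝ) < n := by exact_mod_cast hn
  have hw0 : (0 : ℝ) < w := by exact_mod_cast hw
  have hwm' : (w : ℝ) < m := by exact_mod_cast hwm
  have hal0 := al_pos hm0 hn0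
  have hal1 := al_lt_one hm0 hn0
  have hPeq := Ph_eq hm0 hn0
  have hPeq' := Ph_eq' hm0 hn0
  have hd := dff_eq (a := a) hm0 hn0 (by linarith) (by linarith)
  set α := al m n with hα
  set P := Ph m n with hP
  set s := √(m : ℝ) + √(n : ℝ) with hs
  have ha0 : 0 < a := by linarith
  have ha1 : a < 1 := by linarith
  have hb0 : 0 < 1 - a := by linarith
  have hβ0 : 0 < 1 - α := by linarith
  have hs0 : 0 < s := by
    have := Real.sqrt_pos.2 hm0
    have := Real.sqrt_pos.2 hn0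
    positivity
  have hP0 : 0 < P := by
    rw [hPeq]
    positivity
  have haα : 3 / 4 * α ≤ a := by linarith
  have haα' : a ≤ α := by linarith
  -- bounds for the first bracket
  have c1 : (m : ℝ) / a ^ 2 - n / (1 - a) ^ 2 ≤ w / (2 * a ^ 2) := by
    rw [hd]
    have e1 : s ^ 2 = P * (α * (1 - α)) := by
      rw [hPeq]
      field_simp
    have e2 : α / a ≤ 4 / 3 := by
      rw [div_le_iff₀ ha0]
      linarith
    have e3 : (1 - α) / (1 - a) ≤ 1 := by
      rw [div_le_one hb0]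
      linarith
    have e4 : α * (1 - α) / (a * (1 - a)) ≤ 4 / 3 := by
      have : α * (1 - α) / (a * (1 - a)) = α / a * ((1 - α) / (1 - a)) := by
        field_simp
      rw [this]
      calc α / a * ((1 - α) / (1 - a)) ≤ 4 / 3 * 1 :=
            mul_le_mul e2 e3 (by positivity) (by norm_num)
        _ = 4 / 3 := by norm_num
    have e5 : s ^ 2 * (α - a) / (a * (1 - a)) * (α / a + (1 - α) / (1 - a)) =
        P * t' * (α * (1 - α) / (a * (1 - a))) * (α / a + (1 - α) / (1 - a)) := by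
      rw [e1]
      have : α - a = t' := by linarith
      rw [this]
      ring
    rw [e5]
    have e6 : P * t' * (α * (1 - α) / (a * (1 - a))) * (α / a + (1 - α) / (1 - a)) ≤
        P * t' * (4 / 3) * (7 / 3) := by
      refine mul_le_mul (mul_le_mul_of_nonneg_left e4 (by positivity)) (by linarith)
        (by positivity) (by positivity)
    refine e6.trans ?_
    rw [le_div_iff₀ (by positivity)]
    have e7 : 0 ≤ a ^ 2 * t' * P := by positivity
    nlinarith
  have c3 : (m : ℝ) / a ^ 3 + n / (1 - a) ^ 3 ≤ 3 * P := by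
    have e1 : (m : ℝ) / a ^ 3 ≤ 64 / 27 * (m / α ^ 3) := by
      have : (3 / 4 * α) ^ 3 ≤ a ^ 3 := pow_le_pow_left₀ (by positivity) haα 3
      have h2 : 64 / 27 * ((m : ℝ) / α ^ 3) = m / (3 / 4 * α) ^ 3 := by
        field_simp
        norm_num
      rw [h2]
      exact div_le_div_of_nonneg_left hm0.le (by positivity) this
    have e2 : (n : ℝ) / (1 - a) ^ 3 ≤ n / (1 - α) ^ 3 :=
      div_le_div_of_nonneg_left hn0.le (by positivity) (pow_le_pow_left₀ hβ0.le (by linarith) 3)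
    have e3 : 0 ≤ (n : ℝ) / (1 - α) ^ 3 := by positivity
    have e4 : 0 ≤ (m : ℝ) / α ^ 3 := by positivity
    linarith
  have c4 : (w : ℝ) ≤ 12 * a ^ 3 * P := by
    have e1 : (m : ℝ) ≤ α ^ 3 * P := by
      have e2 : (m : ℝ) / α ^ 3 ≤ P := by
        have : 0 ≤ (n : ℝ) / (1 - α) ^ 3 := by positivity
        linarith
      rw [div_le_iff₀ (by positivity)] at e2
      linarith
    have e3 : (3 / 4 * α) ^ 3 ≤ a ^ 3 := pow_le_pow_left₀ (by positivity) haα 3
    have e4 : (3 / 4 * α) ^ 3 * P ≤ a ^ 3 * P := mul_le_mul_of_nonneg_right e3 hP0.le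
    nlinarith
  -- the parameter
  set θ : ℝ := w / (24 * a ^ 2 * P) with hθ
  have hθ0 : 0 < θ := by positivity
  have hθa : θ ≤ a / 2 := by
    rw [hθ, div_le_iff₀ (by positivity)]
    nlinarith
  have hθw : (w : ℝ) = 24 * a ^ 2 * P * θ := by
    rw [hθ]
    field_simp
  set z1 : ℝ := w ^ 2 / (384 * a ^ 4 * P) with hz1
  have hz1' : z1 = θ * w / (16 * a ^ 2) := by
    rw [hz1, hθ]
    field_simp
    norm_num
  set D : ℝ := w ^ 3 / (2359296 * a ^ 6 * P ^ 2) with hD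
  have hD' : D = θ ^ 2 * w / (4096 * a ^ 2) := by
    rw [hD, hθ]
    field_simp
    norm_num
  have hDpos : 0 ≤ D := by positivity
  -- the first event
  have b1 : muSW.real {x : SW | ∃ k : ℕ, w < k ∧ k ≤ m ∧
      ff m n a - w / a - z1 ≤ (∑ i ∈ Finset.Ioc w k, x.2.1 i / a) +
        T x.1 ((k : ℤ), 1) ((m : ℤ), (n : ℤ))} ≤ Real.exp (-D) := by
    refine (mgfS hθ0 (by linarith) ha1 m n w hwm hn (ff m n a - w / a - z1)).trans ?_
    have e1 := one_add_le_exp hb0 hθ0.le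
    have e2 := inv_one_sub_le_exp ha0 hθ0.le hθa
    have e3 : 0 ≤ (1 - a + θ) / (1 - a) := by positivity
    have e4 : 0 ≤ a / (a - θ) := div_nonneg ha0.le (by linarith)
    calc ((1 - a + θ) / (1 - a)) ^ n * (a / (a - θ)) ^ (m - w) *
          Real.exp (-(θ * (ff m n a - w / a - z1)))
        ≤ Real.exp (θ / (1 - a) - (θ / (1 - a)) ^ 2 / 2 + (θ / (1 - a)) ^ 3 / 3) ^ n *
          Real.exp (θ / a + (θ / a) ^ 2 / 2 + 2 / 3 * (θ / a) ^ 3) ^ (m - w) *
          Real.exp (-(θ * (ff m n a - w / a - z1))) := by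
          refine mul_le_mul_of_nonneg_right ?_ (Real.exp_pos _).le
          exact mul_le_mul (pow_le_pow_left₀ e3 e1 n) (pow_le_pow_left₀ e4 e2 (m - w))
            (by positivity) (by positivity)
      _ = Real.exp (θ ^ 2 / 2 * ((m / a ^ 2 - n / (1 - a) ^ 2) - w / a ^ 2) +
          θ ^ 3 * (2 / 3 * ((m - w) / a ^ 3) + 1 / 3 * (n / (1 - a) ^ 3)) + θ * z1) := by
          rw [← Real.exp_nat_mul, ← Real.exp_nat_mul, ← Real.exp_add, ← Real.exp_add]
          congr 1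
          rw [Nat.cast_sub hwm.le]
          unfold ff
          field_simp
          ring
      _ ≤ Real.exp (-D) := by
          refine Real.exp_le_exp.2 ?_
          have e5 : θ ^ 2 / 2 * ((m / a ^ 2 - n / (1 - a) ^ 2) - w / a ^ 2) ≤
              θ ^ 2 / 2 * (w / (2 * a ^ 2) - w / a ^ 2) :=
            mul_le_mul_of_nonneg_left (by linarith) (by positivity)
          have e6 : θ ^ 3 * (2 / 3 * ((m - w) / a ^ 3) + 1 / 3 * (n / (1 - a) ^ 3)) ≤
              θ ^ 3 * (3 * P) := by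
            refine mul_le_mul_of_nonneg_left ?_ (by positivity)
            have e7 : ((m : ℝ) - w) / a ^ 3 ≤ m / a ^ 3 :=
              div_le_div_of_nonneg_right (by linarith) (by positivity)
            have e8 : 0 ≤ (m : ℝ) / a ^ 3 := by positivity
            have e9 : 0 ≤ (n : ℝ) / (1 - a) ^ 3 := by positivity
            linarith
          have e10 : θ ^ 3 * (3 * P) = θ ^ 2 * w / (8 * a ^ 2) := by
            rw [hθw]
            field_simp
            norm_num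
          have e11 : θ ^ 2 / 2 * (w / (2 * a ^ 2) - w / a ^ 2) = -(θ ^ 2 * w / (4 * a ^ 2)) := by
            field_simp
            ring
          have e12 : θ * z1 = θ ^ 2 * w / (16 * a ^ 2) := by
            rw [hz1']
            ring
          have e13 : 0 ≤ θ ^ 2 * w / a ^ 2 := by positivity
          have e14 : θ ^ 2 * w / (8 * a ^ 2) = (1 / 8) * (θ ^ 2 * w / a ^ 2) := by
            field_simp
          have e15 : θ ^ 2 * w / (4 * a ^ 2) = (1 / 4) * (θ ^ 2 * w / a ^ 2) := by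
            field_simp
          have e16 : θ ^ 2 * w / (16 * a ^ 2) = (1 / 16) * (θ ^ 2 * w / a ^ 2) := by
            field_simp
          have e17 : D = (1 / 4096) * (θ ^ 2 * w / a ^ 2) := by
            rw [hD']
            field_simp
          rw [e12, e16, e17]
          rw [e10, e14] at e6
          rw [e11, e15] at e5
          linarith
  -- the second event
  have b2 : muSW.real {x : SW | w / a + z1 / 2 ≤ ∑ i ∈ Finset.Icc 1 w, x.2.1 i / a} ≤
      Real.exp (-D) := by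
    have hθ' : 0 < θ / 64 := by positivity
    refine (chernoffS hθ' (show θ / 64 < a by linarith) w (w / a + z1 / 2)).trans ?_
    have e2 := inv_one_sub_le_exp (θ := θ / 64) ha0 hθ'.le (by linarith)
    have e4 : 0 ≤ a / (a - θ / 64) := div_nonneg ha0.le (by linarith)
    have e5 : θ / 64 / a ≤ 1 / 2 := by
      rw [div_le_iff₀ ha0]
      linarith
    have e6 : 0 ≤ θ / 64 / a := by positivity
    calc (a / (a - θ / 64)) ^ w * Real.exp (-(θ / 64 * (w / a + z1 / 2)))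
        ≤ Real.exp (θ / 64 / a + (θ / 64 / a) ^ 2 / 2 + 2 / 3 * (θ / 64 / a) ^ 3) ^ w *
          Real.exp (-(θ / 64 * (w / a + z1 / 2))) := by
          refine mul_le_mul_of_nonneg_right ?_ (Real.exp_pos _).le
          exact pow_le_pow_left₀ e4 e2 w
      _ ≤ Real.exp (θ / 64 / a + (θ / 64 / a) ^ 2) ^ w *
          Real.exp (-(θ / 64 * (w / a + z1 / 2))) := by
          refine mul_le_mul_of_nonneg_right ?_ (Real.exp_pos _).le
          refine pow_le_pow_left₀ (Real.exp_pos _).le (Real.exp_le_exp.2 ?_) w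
          have e7 : (θ / 64 / a) ^ 3 ≤ (θ / 64 / a) ^ 2 * (1 / 2) := by
            rw [pow_succ]
            exact mul_le_mul_of_nonneg_left e5 (by positivity)
          have e8 : 0 ≤ (θ / 64 / a) ^ 2 := by positivity
          linarith
      _ = Real.exp (-D) := by
          rw [← Real.exp_nat_mul, ← Real.exp_add]
          congr 1
          rw [hD', hz1']
          field_simp
          ring
  -- union bound
  have hsub : {x : SW | ∃ k : ℕ, w < k ∧ k ≤ m ∧
      ff m n a - w ^ 2 / (768 * a ^ 4 * P) ≤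
        (∑ i ∈ Finset.Icc 1 k, x.2.1 i / a) + T x.1 ((k : ℤ), 1) ((m : ℤ), (n : ℤ))} ⊆
      {x : SW | ∃ k : ℕ, w < k ∧ k ≤ m ∧
      ff m n a - w / a - z1 ≤ (∑ i ∈ Finset.Ioc w k, x.2.1 i / a) +
        T x.1 ((k : ℤ), 1) ((m : ℤ), (n : ℤ))} ∪
      {x : SW | w / a + z1 / 2 ≤ ∑ i ∈ Finset.Icc 1 w, x.2.1 i / a} := by
    rintro x ⟨k, hk1, hk2, hk3⟩
    by_contra hx
    simp only [Set.mem_union, Set.mem_ofPred_eq, not_or, not_exists, not_and, not_le] at hx
    obtain ⟨hx1, hx2⟩ := hx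
    have h1 := hx1 k hk1 hk2
    have h2 : ∑ i ∈ Finset.Icc 1 k, x.2.1 i / a =
        ∑ i ∈ Finset.Icc 1 w, x.2.1 i / a + ∑ i ∈ Finset.Ioc w k, x.2.1 i / a := by
      have h3 : Finset.Icc 1 w = Finset.Ioc 0 w := rfl
      have h4 : Finset.Icc 1 k = Finset.Ioc 0 k := rfl
      rw [h3, h4, Finset.sum_Ioc_consecutive _ (by omega) hk1.le]
    have h5 : (w : ℝ) ^ 2 / (768 * a ^ 4 * P) = z1 / 2 := by
      rw [hz1]
      field_simp
      norm_num
    rw [h2, h5] at hk3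
    linarith
  calc _ ≤ muSW.real ({x : SW | ∃ k : ℕ, w < k ∧ k ≤ m ∧
      ff m n a - w / a - z1 ≤ (∑ i ∈ Finset.Ioc w k, x.2.1 i / a) +
        T x.1 ((k : ℤ), 1) ((m : ℤ), (n : ℤ))} ∪
      {x : SW | w / a + z1 / 2 ≤ ∑ i ∈ Finset.Icc 1 w, x.2.1 i / a}) := measureReal_mono hsub
    _ ≤ _ := measureReal_union_le _ _
    _ ≤ Real.exp (-D) + Real.exp (-D) := add_le_add b1 b2
    _ = 2 * Real.exp (-D) := by ring

end BGE
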