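import Pool.Agent.BGE.StatRow

/-!
BGE / B3b. Shifted corners.

`stat_shift` is the version needed for shifted corners: the increments of the row `w` together
with the W weights above `w` and the bulk weights above the row `w` have again the law of an
i.i.d. family (after rescaling); it follows since the increments on the row `w` depend only on the
weights on rows `≤ w`, which are independent of those above.

Details. Let `w` be fixed. The weights of the box in the environment `shiftSW a w x` are: bulk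
`x.1 (i, j + w)`, S weights `a (L (i, w) - L (i-1, w))`, W weights `x.2.2 (j + w)`. By `stat_row`
(with `n = w`) the increments `L (i, w) - L (i-1, w)`, `1 ≤ i ≤ m`, are i.i.d. `Exp(a)`; they depend
only on `x.1` on the rows `1, ..., w`, on `x.2.1` and on `x.2.2 1, ..., x.2.2 w`, while the other
weights are `x.1` on rows `> w` and `x.2.2 j` for `j > w`. The law of `a X` for `X ~ Exp(a)` is
`E1`. So the finite family of all weights in the box has the same law under `shiftSW` as originally.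
-/

namespace BGE

open MeasureTheory ProbabilityTheory

/-- the weights of a box recovered from a configuration -/
noncomputable def unconf (a : ℝ) (m n : ℕ) (c : Slot m n → ℝ) : SW :=
  (fun v => if h : 1 ≤ v.1 ∧ v.1 ≤ m ∧ 1 ≤ v.2 ∧ v.2 ≤ n then
      c (.inl (⟨(v.1 - 1).toNat, by omega⟩, ⟨(v.2 - 1).toNat, by omega⟩)) else 0,
    fun i => if h : 1 ≤ i ∧ i ≤ m then a * c (.inr (.inl ⟨i - 1, by omega⟩)) else 0,
    fun j => if h : 1 ≤ j ∧ j ≤ n then (1 - a) * c (.inr (.inr ⟨j - 1, by omega⟩)) else 0)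

theorem measurable_unconf (a : ℝ) (m n : ℕ) : Measurable (unconf a m n) := by
  unfold unconf
  refine Measurable.prodMk (measurable_pi_iff.2 fun v => ?_)
    (Measurable.prodMk (measurable_pi_iff.2 fun v => ?_) (measurable_pi_iff.2 fun v => ?_))
  · by_cases h : 1 ≤ v.1 ∧ v.1 ≤ m ∧ 1 ≤ v.2 ∧ v.2 ≤ n
    · simp only [dif_pos h]
      fun_prop
    · simp only [dif_neg h]
      fun_prop
  · by_cases h : 1 ≤ v ∧ v ≤ m
    · simp only [dif_pos h]
      fun_prop
    · simp only [dif_neg h]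
      fun_prop
  · by_cases h : 1 ≤ v ∧ v ≤ n
    · simp only [dif_pos h]
      fun_prop
    · simp only [dif_neg h]
      fun_prop

/-- the slots above the row `w` -/
def slotUp (m n w : ℕ) : Slot m n → Slot m (w + n)
  | .inl p => .inl (p.1, ⟨w + p.2, by omega⟩)
  | .inr (.inl i) => .inr (.inl i)
  | .inr (.inr j) => .inr (.inr ⟨w + j, by omega⟩)

theorem slotUp_inj (m n w : ℕ) : Function.Injective (slotUp m n w) := by
  rintro (⟨i, j⟩ | i | i) (⟨i', j'⟩ | i' | i') h
  · simp only [slotUp, Sum.inl.injEq, Prod.mk.injEq, Fin.mk.injEq] at h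
    have h2 : j = j' := by apply Fin.ext; omega
    rw [h.1, h2]
  all_goals simp only [slotUp, Sum.inl.injEq, Sum.inr.injEq, reduceCtorEq, Fin.mk.injEq] at h
  · rw [h]
  · have h1 : i = i' := by apply Fin.ext; omega
    rw [h1]

theorem slotRate_up (a : ℝ) (m n w : ℕ) (k : Slot m n) :
    slotRate a (slotUp m n w k) = slotRate a k := by
  rcases k with k | k | k <;> rfl

theorem mem_iff_unconf0 {a : ℝ} (ha : 0 < a) (ha1 : a < 1) (m n : ℕ) (A : Set SW)
    (hdep : ∀ x y : SW, (∀ i j : ℤ, 1 ≤ i → i ≤ m → 1 ≤ j → j ≤ n → x.1 (i, j) = y.1 (i, j)) →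
      (∀ i : ℕ, 1 ≤ i → i ≤ m → x.2.1 i = y.2.1 i) →
      (∀ j : ℕ, 1 ≤ j → j ≤ n → x.2.2 j = y.2.2 j) → (x ∈ A ↔ y ∈ A)) (x : SW) :
    x ∈ A ↔ unconf a m n (conf0 a m n x) ∈ A := by
  refine hdep _ _ ?_ ?_ ?_
  · intro i j h1 h2 h3 h4
    have h : 1 ≤ (i, j).1 ∧ (i, j).1 ≤ (m : ℤ) ∧ 1 ≤ (i, j).2 ∧ (i, j).2 ≤ (n : ℤ) :=
      ⟨h1, h2, h3, h4⟩
    simp only [unconf]
    rw [dif_pos h]
    simp only [conf0, flat, slotEmb, slotRate, Sum.elim_inl, div_one]
    have h5 : (((i - 1).toNat : ℕ) : ℤ) + 1 = i := by omega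
    have h6 : (((j - 1).toNat : ℕ) : ℤ) + 1 = j := by omega
    rw [h5, h6]
  · intro i h1 h2
    simp only [unconf]
    rw [dif_pos ⟨h1, h2⟩]
    simp only [conf0, flat, slotEmb, slotRate, Sum.elim_inl, Sum.elim_inr]
    rw [Nat.sub_add_cancel h1]
    field_simp
  · intro i h1 h2
    have h3 : 1 - a ≠ 0 := by linarith
    simp only [unconf]
    rw [dif_pos ⟨h1, h2⟩]
    simp only [conf0, flat, slotEmb, slotRate, Sum.elim_inr]
    rw [Nat.sub_add_cancel h1]
    field_simp

theorem mem_iff_unconf {a : ℝ} (ha1 : a < 1) (m n w : ℕ) (A : Set SW)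
    (hdep : ∀ x y : SW, (∀ i j : ℤ, 1 ≤ i → i ≤ m → 1 ≤ j → j ≤ n → x.1 (i, j) = y.1 (i, j)) →
      (∀ i : ℕ, 1 ≤ i → i ≤ m → x.2.1 i = y.2.1 i) →
      (∀ j : ℕ, 1 ≤ j → j ≤ n → x.2.2 j = y.2.2 j) → (x ∈ A ↔ y ∈ A)) (x : SW) :
    shiftSW a w x ∈ A ↔
      unconf a m n (fun k => conf a m (w + n) x w 0 (slotUp m n w k)) ∈ A := by
  refine hdep _ _ ?_ ?_ ?_
  · intro i j h1 h2 h3 h4
    have h : 1 ≤ (i, j).1 ∧ (i, j).1 ≤ (m : ℤ) ∧ 1 ≤ (i, j).2 ∧ (i, j).2 ≤ (n : ℤ) :=
      ⟨h1, h2, h3, h4⟩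
    simp only [unconf, shiftSW]
    rw [dif_pos h]
    simp only [slotUp]
    rw [conf_inl, if_neg (by simp)]
    have h5 : (((i - 1).toNat : ℕ) : ℤ) + 1 = i := by omega
    have h6 : ((w + (j - 1).toNat : ℕ) : ℤ) + 1 = j + w := by omega
    simp only [h5, h6]
  · intro i h1 h2
    simp only [unconf, shiftSW]
    rw [dif_pos ⟨h1, h2⟩]
    simp only [slotUp]
    rw [conf_inrl, if_neg (by omega)]
    unfold Lb
    have h3 : ((i - 1 : ℕ) : ℤ) = (i : ℤ) - 1 := by omega
    have h4 : i - 1 + 1 = i := by omega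
    rw [h3, h4]
  · intro j h1 h2
    have h3 : 1 - a ≠ 0 := by linarith
    simp only [unconf, shiftSW]
    rw [dif_pos ⟨h1, h2⟩]
    simp only [slotUp]
    rw [conf_inrr, if_neg (by simp)]
    have h4 : w + (j - 1) + 1 = j + w := by omega
    split_ifs with h5
    · simp only at h5
      have h6 : j = 1 := by omega
      rw [Lb_col_succ, h6, add_comm w 1]
      field_simp
    · simp only [h4]
      field_simp

/-- The environment seen from the corner `(0, w)` gives to all events which depend only on the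
weights in a box (sites `(i, j)` with `1 ≤ i ≤ m`, `1 ≤ j ≤ n`, S weights `1 ≤ i ≤ m`, W weights
`1 ≤ j ≤ n`) the same probability as the original one. -/
theorem stat_shift {a : ℝ} (ha : 0 < a) (ha1 : a < 1) (m n w : ℕ) (A : Set SW)
    (hA : MeasurableSet A)
    (hdep : ∀ x y : SW, (∀ i j : ℤ, 1 ≤ i → i ≤ m → 1 ≤ j → j ≤ n → x.1 (i, j) = y.1 (i, j)) →
      (∀ i : ℕ, 1 ≤ i → i ≤ m → x.2.1 i = y.2.1 i) →
      (∀ j : ℕ, 1 ≤ j → j ≤ n → x.2.2 j = y.2.2 j) → (x ∈ A ↔ y ∈ A)) :
    muSW (shiftSW a w ⁻¹' A) = muSW A := by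
  have : ∀ k : Slot m (w + n), IsProbabilityMeasure (expMeasure (slotRate a k)) := fun k =>
    isProbabilityMeasure_expMeasure (slotRate_pos ha ha1 k)
  have hB := measurable_unconf a m n hA
  have h1 : muSW A = muSW (conf0 a m n ⁻¹' (unconf a m n ⁻¹' A)) := by
    congr 1
    ext x
    exact mem_iff_unconf0 ha ha1 m n A hdep x
  have h2 : muSW (shiftSW a w ⁻¹' A) =
      muSW (((fun (c : Slot m (w + n) → ℝ) k => c (slotUp m n w k)) ∘
        (fun x => conf a m (w + n) x w 0)) ⁻¹' (unconf a m n ⁻¹' A)) := by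
    congr 1
    ext x
    exact mem_iff_unconf ha1 m n w A hdep x
  have hm : Measurable (fun (c : Slot m (w + n) → ℝ) k => c (slotUp m n w k)) := by fun_prop
  rw [h1, h2, ← Measure.map_apply (measurable_conf0 a m n) hB,
    ← Measure.map_apply (hm.comp (conf_measurable a m (w + n) w 0)) hB,
    ← Measure.map_map hm (conf_measurable a m (w + n) w 0), map_conf0 ha ha1 m n,
    map_conf ha ha1 m (w + n) w (by omega),
    pi_reindex (fun k : Slot m (w + n) => expMeasure (slotRate a k)) (slotUp m n w)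
      (slotUp_inj m n w)]
  simp only [slotRate_up]

end BGE
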