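import Pool.Agent.BGE.ExitSide
import Pool.Agent.BGE.StatShift

/-!
BGE / C5. Exits with a shifted corner.

`exit_side_shift`: let `w0 < n`, `ρ = al m (n - w0) + δ` with `δ` as above for the box `m × (n-w0)`.
Then the probability that `L (m,n)` is attained by an S exit or by a W exit at a height `≤ w0` is at
most `6 exp (-δ³ Ph m (n-w0)/(2·10⁸))`.
Proof. In that case the corresponding path crosses from the row `w0` to the row `w0 + 1` at a column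
`k ≥ 1`, hence by `shift_row` in the environment seen from `(0, w0)` (`shiftSW`), the passage time
to `(m, n - w0)` is attained by an S exit. Use `stat_shift` and `exit_side`.
-/

namespace BGE

open MeasureTheory ProbabilityTheory

private theorem exitShift_key {m n w0 : ℕ} (hm : 1 ≤ m) (hw : w0 < n) {ρ : ℝ} (h0 : 0 < ρ) (x : SW)
    (hx : x ∈ ExS ρ (1 - ρ) m n ∪ ExW ρ (1 - ρ) m n w0) :
    shiftSW ρ w0 x ∈ ExS ρ (1 - ρ) m (n - w0) := by
  obtain ⟨n', rfl⟩ : ∃ n', n = n' + w0 := ⟨n - w0, by omega⟩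
  have hn' : n' + w0 - w0 = n' := by omega
  rw [hn']
  have hn1 : 1 ≤ n' := by omega
  set S : ℕ → ℝ := fun i => x.2.1 i / ρ with hS
  set W : ℕ → ℝ := fun j => x.2.2 j / (1 - ρ) with hW
  set L : ℤ × ℤ → ℝ := fun v => T (bfield x.1 S W 0) 0 v with hL
  have hLbl : ∀ v, bl ρ (1 - ρ) x v = L v := fun v => rfl
  set S' : ℕ → ℝ := fun i => L ((i : ℤ), (w0 : ℤ)) - L ((i : ℤ) - 1, (w0 : ℤ)) with hS'
  set v : ℤ × ℤ := ((m : ℤ), ((n' + w0 : ℕ) : ℤ)) with hv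
  have hshift : L v = (∑ j ∈ Finset.Icc 1 w0, W j) +
      T (bfield x.1 S' (fun j => W (w0 + j)) (0, (w0 : ℤ))) (0, (w0 : ℤ)) v := by
    have h := shift_row (c := 0) (v := v) x.1 S W w0 (by simp [hv]) (by simp [hv])
    simp only [Prod.fst_zero, Prod.snd_zero, zero_add] at h
    exact h
  have hbl : bl ρ (1 - ρ) (shiftSW ρ w0 x) ((m : ℤ), (n' : ℤ)) =
      T (bfield x.1 S' (fun j => W (w0 + j)) (0, (w0 : ℤ))) (0, (w0 : ℤ)) v := by
    have h := T_translate (bfield x.1 S' (fun j => W (w0 + j)) (0, (w0 : ℤ))) (0, (w0 : ℤ)) 0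
      ((m : ℤ), (n' : ℤ))
    have e1 : (0 : ℤ × ℤ) + (0, (w0 : ℤ)) = (0, (w0 : ℤ)) := zero_add _
    have e2 : ((m : ℤ), (n' : ℤ)) + (0, (w0 : ℤ)) = v := by
      rw [hv, Prod.mk_add_mk, add_zero]
      push_cast
      rfl
    rw [e1, e2] at h
    rw [← h]
    unfold bl
    congr 1
    funext z
    unfold bfield
    have e3 : (z + (0, (w0 : ℤ))).2 = (0, (w0 : ℤ)).2 ↔ z.2 = (0 : ℤ × ℤ).2 := by
      simp
    have e4 : (z + (0, (w0 : ℤ))).1 = (0, (w0 : ℤ)).1 ↔ z.1 = (0 : ℤ × ℤ).1 := by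
      simp
    simp only [e3, e4]
    have e5 : (z + (0, (w0 : ℤ))).1 - (0, (w0 : ℤ)).1 = z.1 - (0 : ℤ × ℤ).1 := by
      simp
    have e6 : (z + (0, (w0 : ℤ))).2 - (0, (w0 : ℤ)).2 = z.2 - (0 : ℤ × ℤ).2 := by
      simp
    rw [e5, e6]
    have e7 : ∀ i : ℕ, (shiftSW ρ w0 x).2.1 i / ρ = S' i := by
      intro i
      show ρ * (bl ρ (1 - ρ) x ((i : ℤ), (w0 : ℤ)) - bl ρ (1 - ρ) x ((i : ℤ) - 1, (w0 : ℤ))) / ρ
        = S' i
      rw [mul_div_cancel_left₀ _ h0.ne']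
      rfl
    have e8 : ∀ j : ℕ, (shiftSW ρ w0 x).2.2 j / (1 - ρ) = W (w0 + j) := by
      intro j
      show x.2.2 (j + w0) / (1 - ρ) = x.2.2 (w0 + j) / (1 - ρ)
      rw [add_comm]
    have e9 : (shiftSW ρ w0 x).1 z = x.1 (z + (0, (w0 : ℤ))) := by
      show x.1 (z.1, z.2 + w0) = x.1 (z.1 + 0, z.2 + w0)
      rw [add_zero]
    rw [e7, e8, e9]
  have hT : ∀ i : ℕ, T (shiftSW ρ w0 x).1 ((i : ℤ), 1) ((m : ℤ), (n' : ℤ)) =
      T x.1 ((i : ℤ), (w0 : ℤ) + 1) v := by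
    intro i
    have h := T_translate x.1 (0, (w0 : ℤ)) ((i : ℤ), 1) ((m : ℤ), (n' : ℤ))
    have e1 : ((i : ℤ), (1 : ℤ)) + (0, (w0 : ℤ)) = ((i : ℤ), (w0 : ℤ) + 1) := by
      rw [Prod.mk_add_mk, add_zero, add_comm (1 : ℤ)]
    have e2 : ((m : ℤ), (n' : ℤ)) + (0, (w0 : ℤ)) = v := by
      rw [hv, Prod.mk_add_mk, add_zero]
      push_cast
      rfl
    rw [e1, e2] at h
    rw [← h]
    congr 1
    funext z
    show x.1 (z.1, z.2 + w0) = x.1 (z.1 + 0, z.2 + w0)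
    rw [add_zero]
  have htele : ∀ i : ℕ, ∑ i' ∈ Finset.Icc 1 i, S' i' = L ((i : ℤ), (w0 : ℤ)) -
      L (0, (w0 : ℤ)) := by
    intro i
    induction i with
    | zero => simp
    | succ i ih =>
      rw [Finset.sum_Icc_succ_top (by omega), ih, hS']
      push_cast
      rw [add_sub_cancel_right]
      ring
  have hcol : L (0, (w0 : ℤ)) = ∑ j ∈ Finset.Icc 1 w0, W j := by
    have h := Lcol x.1 S W 0 w0
    simp only [Prod.fst_zero, Prod.snd_zero, zero_add] at h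
    exact h
  obtain ⟨i, hi1, him, heq⟩ : ∃ i : ℕ, 1 ≤ i ∧ i ≤ m ∧
      L v ≤ L ((i : ℤ), (w0 : ℤ)) + T x.1 ((i : ℤ), (w0 : ℤ) + 1) v := by
    rcases hx with ⟨k, hk1, hkm, hk⟩ | ⟨k, hk1, -, hkw, hk⟩
    · change L v = (∑ i ∈ Finset.Icc 1 k, S i) + T x.1 ((k : ℤ), 1) v at hk
      rcases Nat.eq_zero_or_pos w0 with hw0 | hw0
      · refine ⟨k, hk1, hkm, ?_⟩
        have h := Lrow x.1 S W 0 k
        simp only [Prod.fst_zero, Prod.snd_zero, zero_add] at h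
        have h' : L ((k : ℤ), (w0 : ℤ)) = ∑ i ∈ Finset.Icc 1 k, S i := by
          rw [hw0]
          exact h
        have h'' : ((k : ℤ), (w0 : ℤ) + 1) = ((k : ℤ), (1 : ℤ)) := by
          rw [hw0]
          simp
        rw [hk, h', h'']
      · obtain ⟨i, hi1, hi2, hi3⟩ := exists_row_cross x.1 (u := ((k : ℤ), 1)) (v := v)
          (by
            rw [hv]
            refine ⟨?_, ?_⟩
            · show (k : ℤ) ≤ m
              exact_mod_cast hkm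
            · show (1 : ℤ) ≤ ((n' + w0 : ℕ) : ℤ)
              exact_mod_cast (by omega : 1 ≤ n' + w0))
          (j := (w0 : ℤ)) (by show (1 : ℤ) ≤ w0; exact_mod_cast hw0)
          (by show (w0 : ℤ) < ((n' + w0 : ℕ) : ℤ); exact_mod_cast (by omega : w0 < n' + w0))
        have hi1' : (k : ℤ) ≤ i := hi1
        have hi2' : i ≤ (m : ℤ) := hi2
        obtain ⟨i', rfl⟩ := Int.eq_ofNat_of_zero_le (by omega : 0 ≤ i)
        refine ⟨i', by omega, by omega, ?_⟩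
        have h := exitS_le (ω := x.1) (S := S) (W := W) (c := 0) (v := ((i' : ℤ), (w0 : ℤ)))
          (by show (0 : ℤ) < w0; exact_mod_cast hw0) k hk1
          (by show (0 : ℤ) + k ≤ i'; omega)
        simp only [Prod.fst_zero, Prod.snd_zero, zero_add] at h
        have h' : (∑ i ∈ Finset.Icc 1 k, S i) + T x.1 ((k : ℤ), 1) ((i' : ℤ), (w0 : ℤ)) ≤
          L ((i' : ℤ), (w0 : ℤ)) := h
        rw [hk, hi3]
        linarith
    · change L v = (∑ j ∈ Finset.Icc 1 k, W j) + T x.1 (1, (k : ℤ)) v at hk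
      obtain ⟨i, hi1, hi2, hi3⟩ := exists_row_cross x.1 (u := (1, (k : ℤ))) (v := v)
        (by
          rw [hv]
          refine ⟨?_, ?_⟩
          · show (1 : ℤ) ≤ m
            exact_mod_cast hm
          · show (k : ℤ) ≤ ((n' + w0 : ℕ) : ℤ)
            exact_mod_cast (by omega : k ≤ n' + w0))
        (j := (w0 : ℤ)) (by show (k : ℤ) ≤ w0; exact_mod_cast hkw)
        (by show (w0 : ℤ) < ((n' + w0 : ℕ) : ℤ); exact_mod_cast (by omega : w0 < n' + w0))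
      have hi1' : (1 : ℤ) ≤ i := hi1
      have hi2' : i ≤ (m : ℤ) := hi2
      obtain ⟨i', rfl⟩ := Int.eq_ofNat_of_zero_le (by omega : 0 ≤ i)
      refine ⟨i', by omega, by omega, ?_⟩
      have h := exitW_le (ω := x.1) (S := S) (W := W) (c := 0) (v := ((i' : ℤ), (w0 : ℤ)))
        (by show (0 : ℤ) < i'; omega) k hk1
        (by show (0 : ℤ) + k ≤ w0; omega)
      simp only [Prod.fst_zero, Prod.snd_zero, zero_add] at h
      have h' : (∑ j ∈ Finset.Icc 1 k, W j) + T x.1 (1, (k : ℤ)) ((i' : ℤ), (w0 : ℤ)) ≤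
        L ((i' : ℤ), (w0 : ℤ)) := h
      rw [hk, hi3]
      linarith
  have hle := exitS_le (ω := x.1) (S := S') (W := fun j => W (w0 + j)) (c := (0, (w0 : ℤ)))
    (v := v) (by show (w0 : ℤ) < ((n' + w0 : ℕ) : ℤ); exact_mod_cast (by omega : w0 < n' + w0))
    i hi1 (by show (0 : ℤ) + i ≤ m; omega)
  simp only [zero_add] at hle
  have hsum : ∑ i' ∈ Finset.Icc 1 i, (shiftSW ρ w0 x).2.1 i' / ρ = ∑ i' ∈ Finset.Icc 1 i, S' i' := by
    refine Finset.sum_congr rfl fun i' _ => ?_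
    show ρ * (bl ρ (1 - ρ) x ((i' : ℤ), (w0 : ℤ)) - bl ρ (1 - ρ) x ((i' : ℤ) - 1, (w0 : ℤ))) / ρ
      = S' i'
    rw [mul_div_cancel_left₀ _ h0.ne']
    rfl
  refine ⟨i, hi1, him, ?_⟩
  rw [hbl, hT, hsum, htele, hcol]
  rw [htele, hcol] at hle
  linarith

private theorem exitShift_meas (ρ : ℝ) (m n : ℕ) : MeasurableSet (ExS ρ (1 - ρ) m n) := by
  have e : ExS ρ (1 - ρ) m n = ⋃ k ∈ Finset.Icc 1 m, {x : SW |
      bl ρ (1 - ρ) x ((m : ℤ), (n : ℤ)) =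
        (∑ i ∈ Finset.Icc 1 k, x.2.1 i / ρ) + T x.1 ((k : ℤ), 1) ((m : ℤ), (n : ℤ))} := by
    ext x
    simp only [Set.mem_iUnion, Finset.mem_Icc, Set.mem_ofPred_eq, ExS, exists_prop, and_assoc]
  rw [e]
  refine Finset.measurableSet_biUnion _ fun k _ => ?_
  refine measurableSet_eq_fun (measurable_bl _ _ _) ?_
  refine Measurable.add ?_ ((measurable_T _ _).comp measurable_fst)
  refine Finset.measurable_sum _ fun i _ => ?_
  fun_prop

private theorem exitShift_dep {ρ : ℝ} {m n : ℕ} (hn : 1 ≤ n) (x y : SW)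
    (h1 : ∀ i j : ℤ, 1 ≤ i → i ≤ m → 1 ≤ j → j ≤ n → x.1 (i, j) = y.1 (i, j))
    (h2 : ∀ i : ℕ, 1 ≤ i → i ≤ m → x.2.1 i = y.2.1 i)
    (h3 : ∀ j : ℕ, 1 ≤ j → j ≤ n → x.2.2 j = y.2.2 j) (hx : x ∈ ExS ρ (1 - ρ) m n) :
    y ∈ ExS ρ (1 - ρ) m n := by
  obtain ⟨k, hk1, hkm, hk⟩ := hx
  refine ⟨k, hk1, hkm, ?_⟩
  have e1 : bl ρ (1 - ρ) x ((m : ℤ), (n : ℤ)) = bl ρ (1 - ρ) y ((m : ℤ), (n : ℤ)) := by
    unfold bl
    apply T_congr
    · exact ⟨by show (0 : ℤ) ≤ m; omega, by show (0 : ℤ) ≤ n; omega⟩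
    · rintro ⟨i, j⟩ ⟨hi, hj⟩ ⟨hi', hj'⟩
      change (0 : ℤ) ≤ i at hi
      change (0 : ℤ) ≤ j at hj
      change i ≤ (m : ℤ) at hi'
      change j ≤ (n : ℤ) at hj'
      unfold bfield
      simp only [Prod.fst_zero, Prod.snd_zero, sub_zero]
      by_cases hj0 : j = 0
      · rw [if_pos hj0, if_pos hj0]
        by_cases hi0 : i = 0
        · rw [if_pos hi0, if_pos hi0]
        · rw [if_neg hi0, if_neg hi0, h2 _ (by omega) (by omega)]
      · rw [if_neg hj0, if_neg hj0]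
        by_cases hi0 : i = 0
        · rw [if_pos hi0, if_pos hi0, h3 _ (by omega) (by omega)]
        · rw [if_neg hi0, if_neg hi0, h1 _ _ (by omega) hi' (by omega) hj']
  have e2 : T x.1 ((k : ℤ), 1) ((m : ℤ), (n : ℤ)) = T y.1 ((k : ℤ), 1) ((m : ℤ), (n : ℤ)) := by
    apply T_congr
    · exact ⟨by show (k : ℤ) ≤ m; omega, by show (1 : ℤ) ≤ n; omega⟩
    · rintro ⟨i, j⟩ ⟨hi, hj⟩ ⟨hi', hj'⟩
      change (k : ℤ) ≤ i at hi
      change (1 : ℤ) ≤ j at hj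
      change i ≤ (m : ℤ) at hi'
      change j ≤ (n : ℤ) at hj'
      exact h1 _ _ (by omega) hi' hj hj'
  have e3 : ∑ i ∈ Finset.Icc 1 k, x.2.1 i / ρ = ∑ i ∈ Finset.Icc 1 k, y.2.1 i / ρ := by
    refine Finset.sum_congr rfl fun i hi => ?_
    rw [Finset.mem_Icc] at hi
    rw [h2 i hi.1 (by omega)]
  rw [← e1, ← e2, ← e3]
  exact hk

theorem exit_side_shift {m n w0 : ℕ} (hm : 1 ≤ m) (hw : w0 < n) {δ ρ : ℝ} (hδ : 0 < δ)
    (h1 : δ ≤ al m (n - w0) / 16) (h2 : δ ≤ (1 - al m (n - w0)) / 16)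
    (hρ : ρ = al m (n - w0) + δ) :
    muSW.real (ExS ρ (1 - ρ) m n ∪ ExW ρ (1 - ρ) m n w0) ≤
      6 * Real.exp (-(δ ^ 3 * Ph m (n - w0) / (2 * 10 ^ 8))) := by
  have hc : ((n - w0 : ℕ) : ℝ) = (n : ℝ) - w0 := Nat.cast_sub hw.le
  have hn1 : 1 ≤ n - w0 := by omega
  have hmR : (0 : ℝ) < m := by exact_mod_cast hm
  have hnR : (0 : ℝ) < ((n - w0 : ℕ) : ℝ) := by exact_mod_cast hn1
  rw [← hc] at h1 h2 hρ ⊢
  have ha0 := al_pos hmR hnR
  have ha1 := al_lt_one hmR hnR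
  have hρ0 : 0 < ρ := by rw [hρ]; linarith
  have hρ1 : ρ < 1 := by rw [hρ]; linarith
  have hsub : ExS ρ (1 - ρ) m n ∪ ExW ρ (1 - ρ) m n w0 ⊆
      shiftSW ρ w0 ⁻¹' ExS ρ (1 - ρ) m (n - w0) := fun x hx => exitShift_key hm hw hρ0 x hx
  have hst := stat_shift hρ0 hρ1 m (n - w0) w0 (ExS ρ (1 - ρ) m (n - w0))
    (exitShift_meas ρ m (n - w0)) (fun x y e1 e2 e3 =>
      ⟨exitShift_dep hn1 x y e1 e2 e3,
        exitShift_dep hn1 y x (fun i j a b c d => (e1 i j a b c d).symm)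
          (fun i a b => (e2 i a b).symm) (fun j a b => (e3 j a b).symm)⟩)
  have hex := exit_side hm hn1 hδ h1 h2
  rw [← hρ] at hex
  refine le_trans ?_ hex
  calc muSW.real (ExS ρ (1 - ρ) m n ∪ ExW ρ (1 - ρ) m n w0)
      ≤ muSW.real (shiftSW ρ w0 ⁻¹' ExS ρ (1 - ρ) m (n - w0)) := measureReal_mono hsub
    _ = muSW.real (ExS ρ (1 - ρ) m (n - w0)) := by
      rw [measureReal_def, measureReal_def, hst]

end BGE
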