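import Pool.Agent.BGE.ExitLoc
import Pool.Agent.BGE.BigLow
import Pool.Agent.BGE.Base2

/-!
BGE / C4, C5. The stationary model with a rate larger than the critical one exits through the W
side.

Notation as in `ExitLoc`: `s = √m + √n`, `al`, `Ph`, `ff`. Let `0 < δ ≤ al/16`, `δ ≤ (1-al)/16`,
`ρ = al + δ`, `z = δ² Ph/96`. `L = bl ρ (1 - ρ)`.

`exit_side`: `P(L (m,n) is attained by an exit on the S side) ≤ 6 exp (-δ³ Ph/(2·10⁸))`.

Proof. If `δ³ Ph < 1` the right side is larger than 1. Assume `δ³ Ph ≥ 1`.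

(a) `VS`, the best value of an S exit in the model of rate `ρ`, satisfies
`P(VS ≥ ff ρ - z) ≤ exp (-δ³ Ph/1152)`: `mgfS` with `w = 0`, `a = ρ`, `θ = δ/12`; the exponent
(see the header of `ExitLoc`) is at most
`θ z + (θ²/2)(m/ρ² - n/(1-ρ)²) + θ³ (m/ρ³ + n/(1-ρ)³)`, where
`m/ρ² - n/(1-ρ)² = -s² δ/(ρ(1-ρ)) (al/ρ + (1-al)/(1-ρ)) ≤ -δ Ph` (as `ρ ≤ (17/16) al`,
`1-ρ ≤ 1-al`, `al/ρ ≥ 16/17`) and `m/ρ³ + n/(1-ρ)³ ≤ 3 Ph`; so it is
`≤ θ z - θ² δ Ph/2 + 3 Ph θ³ = θ z - θ² δ Ph/4 = -θ² δ Ph/8` since `z = θ δ Ph/8`.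
The same with `δ' = δ - t/2` below.

(b) Let `t = δ/200000` and consider on the same space `Lb = bl (ρ - t/2) (1 - ρ - t/2)` (the
boundary weights are larger than those of `L`). By `big_low`,
`P(Lb (m,n) ≤ ff ρ - z/8) ≤ exp (-t z/8) = exp (-δ³ Ph/(1.536·10⁸))`.

(c) S exits of `Lb`: the S rate is `a = al + δ'` with `δ' = δ - t/2`; `al ≤ a ≤ ρ` gives
`ff a ≤ ff ρ` (`ff_eq`, or monotonicity). By (a) for `δ'`, with probability at least
`1 - exp (-δ'³ Ph/1152)` the best S exit of `Lb` is `< ff a - δ'² Ph/96 ≤ ff ρ - z/8`.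

(d) W exits of `Lb` at height `> w`, `w = ⌈70 b² δ Ph⌉`, `b = 1 - ρ - t/2`: by the mirror image of
`exit_loc` (exchange the coordinates: `al n m = 1 - al m n`, `Ph n m = Ph m n`,
`ff n m b = ff m n (1 - b)`; `t' = δ + t/2`), with probability at least `1 - 2 exp (-δ³ Ph/7)`
their value is less than `ff (1 - b) - w²/(768 b⁴ Ph) ≤ s² + 1.2 δ² Ph - 6.3 δ² Ph < ff ρ - z/8`.

(e) If the exit of `Lb` is on the W side at a height `k ≤ w` then
`Lb - L ≤ (1/b - 1/(1-ρ)) ∑_{j ≤ w} W_j`, and outside of an event of probability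
`exp (-3w/10)` the sum is at most `2 w`; `w ≤ 71 b² δ Ph` since `b ≥ 14 δ`, so the difference is
`≤ 71 t δ Ph ≤ z/8`. Hence `L ≥ ff ρ - z/4`, and by (a) no S exit can attain `L`.
The probabilities add up to at most `6 exp (-δ³ Ph/(2·10⁸))`.

-/

namespace BGE

open MeasureTheory ProbabilityTheory

/-! #### probability -/

private theorem exs_E1 : E1 = volume.withDensity (exponentialPDF 1) := rfl

private theorem exs_E1_neg : E1 {x : ℝ | x < 0} = 0 := by
  have hS : MeasurableSet {x : ℝ | x < 0} := measurableSet_Iio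
  rw [exs_E1, withDensity_apply _ hS]
  rw [setLIntegral_congr_fun (g := fun _ => 0) hS]
  · simp
  · intro x hx
    exact exponentialPDF_of_neg hx

private theorem exs_lint : ∫⁻ x, ENNReal.ofReal (Real.exp (1 / 2 * x)) ∂E1 = 2 := by
  have hm : Measurable (exponentialPDF 1) :=
    (measurable_exponentialPDFReal 1).ennreal_ofReal
  rw [exs_E1, lintegral_withDensity_eq_lintegral_mul _ hm (by fun_prop)]
  have e1 : ∀ x, (exponentialPDF 1 * fun x => ENNReal.ofReal (Real.exp (1 / 2 * x))) x =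
      2 * exponentialPDF (1 / 2) x := by
    intro x
    simp only [Pi.mul_apply]
    rcases lt_or_ge x 0 with h | h
    · rw [exponentialPDF_of_neg h, exponentialPDF_of_neg h, zero_mul, mul_zero]
    · rw [exponentialPDF_of_nonneg h, exponentialPDF_of_nonneg h,
        ← ENNReal.ofReal_mul (by positivity)]
      have h2 : (2 : ENNReal) = ENNReal.ofReal 2 := by simp
      rw [h2, ← ENNReal.ofReal_mul (by norm_num)]
      congr 1
      rw [show 1 * Real.exp (-(1 * x)) * Real.exp (1 / 2 * x) =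
        Real.exp (-(1 * x)) * Real.exp (1 / 2 * x) by ring, ← Real.exp_add]
      rw [show -(1 * x) + 1 / 2 * x = -(1 / 2 * x) by ring]
      ring
  rw [lintegral_congr e1, lintegral_const_mul' _ _ (by simp),
    lintegral_exponentialPDF_eq_one (by norm_num), mul_one]

private theorem exs_int : Integrable (fun x : ℝ => Real.exp (1 / 2 * x)) E1 := by
  refine ⟨by fun_prop, ?_⟩
  rw [hasFiniteIntegral_iff_ofReal (ae_of_all _ fun x => (Real.exp_pos _).le), exs_lint]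
  simp

private theorem exs_mgf : ∫ x, Real.exp (1 / 2 * x) ∂E1 = 2 := by
  rw [integral_eq_lintegral_of_nonneg_ae (ae_of_all _ fun x => (Real.exp_pos _).le)
    (by fun_prop), exs_lint]
  simp

private theorem exs_chernoff (w : ℕ) :
    (PI ℕ).real {x : ℕ → ℝ | 2 * (w : ℝ) ≤ ∑ j ∈ Finset.Icc 1 w, x j} ≤
      Real.exp (-(3 * w / 10)) := by
  set X : ℕ → (ℕ → ℝ) → ℝ := fun i x => x i with hX
  have hind : iIndepFun X (PI ℕ) := by
    unfold PI
    exact iIndepFun_infinitePi (X := fun _ x => x) (fun _ => measurable_id)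
  have hmap : ∀ i, Measure.map (X i) (PI ℕ) = E1 := by
    intro i
    unfold PI
    exact Measure.infinitePi_map_eval (fun _ : ℕ => E1) i
  have hmeas : ∀ i, Measurable (X i) := fun i => measurable_pi_apply i
  have hint : ∀ i, Integrable (fun x => Real.exp (1 / 2 * X i x)) (PI ℕ) := by
    intro i
    have h1 := exs_int
    rw [← hmap i] at h1
    exact h1.comp_measurable (hmeas i)
  have hmgf : ∀ i, mgf (X i) (PI ℕ) (1 / 2) = 2 := by
    intro i
    unfold mgf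
    have h1 := exs_mgf
    rw [← hmap i, integral_map (hmeas i).aemeasurable (by fun_prop)] at h1
    exact h1
  have h2 := measure_ge_le_exp_mul_mgf (μ := PI ℕ) (X := ∑ i ∈ Finset.Icc 1 w, X i)
    (t := 1 / 2) (2 * w) (by norm_num)
    (hind.integrable_exp_mul_sum hmeas (fun i _ => hint i))
  rw [hind.mgf_sum hmeas, Finset.prod_congr rfl fun i _ => hmgf i, Finset.prod_const,
    Nat.card_Icc, Nat.add_sub_cancel] at h2
  have h3 : {x : ℕ → ℝ | 2 * (w : ℝ) ≤ ∑ j ∈ Finset.Icc 1 w, x j} =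
      {x : ℕ → ℝ | 2 * (w : ℝ) ≤ (∑ i ∈ Finset.Icc 1 w, X i) x} := by
    ext x
    simp only [Set.mem_ofPred_eq, Finset.sum_apply, hX]
  rw [h3]
  refine h2.trans ?_
  have h4 : (2 : ℝ) = Real.exp (Real.log 2) := (Real.exp_log (by norm_num)).symm
  have h5 : (2 : ℝ) ^ w = Real.exp (w * Real.log 2) := by
    nth_rewrite 1 [h4]
    rw [← Real.exp_nat_mul]
  rw [h5, ← Real.exp_add]
  apply Real.exp_le_exp.2
  have h6 := Real.log_two_lt_d9
  have h7 : (0 : ℝ) ≤ w := Nat.cast_nonneg _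
  nlinarith

private theorem exs_marg : Measure.map (fun x : SW => x.2.2) muSW = PI ℕ := by
  have h1 : (fun x : SW => x.2.2) = (Prod.snd ∘ Prod.snd) := rfl
  rw [h1, ← Measure.map_map measurable_snd measurable_snd]
  unfold muSW
  rw [Measure.map_snd_prod, measure_univ, one_smul, Measure.map_snd_prod, measure_univ, one_smul]

private theorem exs_real_comp {f : SW → ℕ → ℝ} (hf : Measurable f)
    (hm : Measure.map f muSW = PI ℕ) (s : Set (ℕ → ℝ)) :
    muSW.real (f ⁻¹' s) ≤ (PI ℕ).real s := by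
  unfold Measure.real
  apply ENNReal.toReal_mono (measure_ne_top _ _)
  rw [← hm]
  exact Measure.le_map_apply hf.aemeasurable s

private theorem exs_neg : muSW {x : SW | ∃ j, x.2.2 j < 0} = 0 := by
  have h1 : {x : SW | ∃ j, x.2.2 j < 0} = ⋃ j, {x : SW | x.2.2 j < 0} := by
    ext x
    simp
  rw [h1, measure_iUnion_null_iff]
  intro j
  have h2 : Measure.map (fun x : SW => x.2.2 j) muSW = E1 := by
    have h3 : (fun x : SW => x.2.2 j) = (fun y : ℕ → ℝ => y j) ∘ (fun x : SW => x.2.2) := rfl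
    rw [h3, ← Measure.map_map (by fun_prop) (by fun_prop), exs_marg]
    unfold PI
    exact Measure.infinitePi_map_eval (fun _ : ℕ => E1) j
  have h4 := exs_E1_neg
  have hS : MeasurableSet {x : ℝ | x < 0} := measurableSet_Iio
  rw [← h2, Measure.map_apply (by fun_prop) hS] at h4
  exact h4

/-- exchange of the coordinates -/
private def exsSw (x : SW) : SW := (fun v => x.1 v.swap, x.2.2, x.2.1)

private theorem exs_sw_meas : Measurable exsSw := by
  unfold exsSw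
  fun_prop

private theorem exs_sw_map : Measure.map exsSw muSW = muSW := by
  have h1 : Measure.map (fun (ω : ℤ × ℤ → ℝ) (v : ℤ × ℤ) => ω v.swap) (PI (ℤ × ℤ)) =
      PI (ℤ × ℤ) := by
    unfold PI
    exact Measure.map_infinitePi_infinitePi_of_inj (P := fun _ : ℤ × ℤ => E1)
      (f := Prod.swap) Prod.swap_injective
  have h2 : exsSw = Prod.map (fun (ω : ℤ × ℤ → ℝ) (v : ℤ × ℤ) => ω v.swap) Prod.swap := rfl
  rw [h2]
  unfold muSW
  rw [← Measure.map_prod_map _ _ (by fun_prop) measurable_swap, h1, Measure.prod_swap]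

private theorem exs_sw_real (s : Set SW) : muSW.real (exsSw ⁻¹' s) ≤ muSW.real s := by
  unfold Measure.real
  apply ENNReal.toReal_mono (measure_ne_top _ _)
  nth_rewrite 2 [← exs_sw_map]
  exact Measure.le_map_apply exs_sw_meas.aemeasurable s


/-! #### calculus -/

private theorem exs_log_add {x : ℝ} (h0 : 0 ≤ x) (h1 : x ≤ 1 / 2) :
    1 + x ≤ Real.exp (x - x ^ 2 / 2 + 2 * x ^ 3) := by
  have hx : |-x| < 1 := by rw [abs_neg, abs_of_nonneg h0]; linarith
  have h := Real.abs_log_sub_add_sum_range_le hx 2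
  rw [Finset.sum_range_succ, Finset.sum_range_one, abs_neg, abs_of_nonneg h0] at h
  have h2 := (abs_le.1 h).2
  have h3 : x ^ (2 + 1) / (1 - x) ≤ 2 * x ^ 3 := by
    rw [div_le_iff₀ (by linarith), show x ^ (2 + 1) = x ^ 3 from rfl]
    have : 0 ≤ x ^ 3 := by positivity
    nlinarith
  have h4 : Real.log (1 + x) ≤ x - x ^ 2 / 2 + 2 * x ^ 3 := by
    have e1 : 1 - -x = 1 + x := by ring
    rw [e1] at h2
    push_cast at h2
    nlinarith
  calc 1 + x = Real.exp (Real.log (1 + x)) := (Real.exp_log (by linarith)).symm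
    _ ≤ _ := Real.exp_le_exp.2 h4

private theorem exs_log_sub {x : ℝ} (h0 : 0 ≤ x) (h1 : x ≤ 1 / 2) :
    1 / (1 - x) ≤ Real.exp (x + x ^ 2 / 2 + 2 * x ^ 3) := by
  have hx : |x| < 1 := by rw [abs_of_nonneg h0]; linarith
  have h := Real.abs_log_sub_add_sum_range_le hx 2
  rw [Finset.sum_range_succ, Finset.sum_range_one, abs_of_nonneg h0] at h
  have h2 := (abs_le.1 h).1
  have h3 : x ^ (2 + 1) / (1 - x) ≤ 2 * x ^ 3 := by
    rw [div_le_iff₀ (by linarith), show x ^ (2 + 1) = x ^ 3 from rfl]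
    have : 0 ≤ x ^ 3 := by positivity
    nlinarith
  have h4 : Real.log (1 / (1 - x)) ≤ x + x ^ 2 / 2 + 2 * x ^ 3 := by
    rw [one_div, Real.log_inv]
    push_cast at h2
    nlinarith
  calc 1 / (1 - x) = Real.exp (Real.log (1 / (1 - x))) :=
        (Real.exp_log (one_div_pos.2 (by linarith))).symm
    _ ≤ _ := Real.exp_le_exp.2 h4

/-- the algebra of `A = al m n`, `P = Ph m n`, `s2 = (√m + √n)²` -/
private structure Exs (m n A P s2 : ℝ) : Prop where
  A0 : 0 < A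
  A1 : A < 1
  P0 : 0 < P
  hs : s2 = P * (A * (1 - A))
  m : m = A ^ 2 * s2
  n : n = (1 - A) ^ 2 * s2

private theorem exs_data {m n : ℝ} (hm : 0 < m) (hn : 0 < n) :
    Exs m n (al m n) (Ph m n) ((√m + √n) ^ 2) := by
  have h1 := al_pos hm hn
  have h2 := al_lt_one hm hn
  have h3 : 0 < (√m + √n) ^ 2 := by
    have := Real.sqrt_pos.2 hm
    have := Real.sqrt_pos.2 hn
    positivity
  have h4 : 0 < al m n * (1 - al m n) := mul_pos h1 (by linarith)
  have h5 := Ph_eq hm hn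
  refine ⟨h1, h2, ?_, ?_, m_eq hm hn, n_eq hm hn⟩
  · rw [h5]
    positivity
  · rw [h5, div_mul_cancel₀ _ h4.ne']

private theorem Exs.pos {m n A P s2 : ℝ} (h : Exs m n A P s2) : 0 < s2 := by
  rw [h.hs]
  exact mul_pos h.P0 (mul_pos h.A0 (by linarith [h.A1]))

/-- the bracket -/
private theorem Exs.br {m n A P s2 : ℝ} (h : Exs m n A P s2) {δ : ℝ} (hδ : 0 < δ)
    (h1 : δ ≤ A / 16) (h2 : δ ≤ (1 - A) / 16) :
    m / (A + δ) ^ 2 - n / (1 - (A + δ)) ^ 2 ≤ -(δ * P) := by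
  have hA := h.A0
  have hA1 := h.A1
  have hr : 0 < A + δ := by linarith
  have hr1 : 0 < 1 - (A + δ) := by linarith
  have hP := h.P0
  rw [h.m, h.n, h.hs]
  set u := A / (A + δ) with hu
  set v := (1 - A) / (1 - (A + δ)) with hv
  have hu1 : 16 / 17 ≤ u := by
    rw [hu, le_div_iff₀ hr]
    linarith
  have hv1 : 1 ≤ v := by
    rw [hv, le_div_iff₀ hr1]
    linarith
  have e1 : A ^ 2 * (P * (A * (1 - A))) / (A + δ) ^ 2 -
      (1 - A) ^ 2 * (P * (A * (1 - A))) / (1 - (A + δ)) ^ 2 = -(δ * P * (u * v * (u + v))) := by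
    rw [hu, hv]
    field_simp
    ring
  rw [e1]
  have h5 : 1 ≤ u * v * (u + v) := by
    have h6 : 16 / 17 ≤ u * v := by nlinarith
    have h7 : 33 / 17 ≤ u + v := by linarith
    nlinarith
  have h8 : 0 < δ * P := by positivity
  nlinarith

private theorem Exs.cub {m n A P s2 : ℝ} (h : Exs m n A P s2) {δ : ℝ} (hδ : 0 < δ)
    (h1 : δ ≤ A / 16) (h2 : δ ≤ (1 - A) / 16) :
    m / (A + δ) ^ 3 + n / (1 - (A + δ)) ^ 3 ≤ 13 / 10 * P := by
  have hA := h.A0
  have hA1 := h.A1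
  have hr : 0 < A + δ := by linarith
  have hr1 : 0 < 1 - (A + δ) := by linarith
  have hP := h.P0
  rw [h.m, h.n, h.hs]
  set u := A / (A + δ) with hu
  set v := (1 - A) / (1 - (A + δ)) with hv
  have hu0 : 0 < u := by positivity
  have hv0 : 0 < v := div_pos (by linarith) hr1
  have hu1 : u ≤ 1 := by
    rw [hu, div_le_one hr]
    linarith
  have hv1 : v ≤ 16 / 15 := by
    rw [hv, div_le_iff₀ hr1]
    linarith
  have e1 : A ^ 2 * (P * (A * (1 - A))) / (A + δ) ^ 3 +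
      (1 - A) ^ 2 * (P * (A * (1 - A))) / (1 - (A + δ)) ^ 3 =
      P * ((1 - A) * u ^ 3 + A * v ^ 3) := by
    rw [hu, hv]
    field_simp
  rw [e1]
  have h3 : u ^ 3 ≤ 1 := pow_le_one₀ hu0.le hu1
  have h4 : v ^ 3 ≤ (16 / 15) ^ 3 := pow_le_pow_left₀ hv0.le hv1 3
  have h5 : (1 - A) * u ^ 3 + A * v ^ 3 ≤ 13 / 10 := by
    have h6 : (1 - A) * u ^ 3 ≤ (1 - A) * 1 := mul_le_mul_of_nonneg_left h3 (by linarith)
    have h7 : A * v ^ 3 ≤ A * (16 / 15) ^ 3 := mul_le_mul_of_nonneg_left h4 hA.le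
    nlinarith
  nlinarith

/-- the exits on the S side -/
private theorem exs_S {m n : ℕ} (hm : 1 ≤ m) (hn : 1 ≤ n) {δ : ℝ} (hδ : 0 < δ)
    (h1 : δ ≤ al m n / 16) (h2 : δ ≤ (1 - al m n) / 16) :
    muSW.real {x : SW | ∃ k : ℕ, 0 < k ∧ k ≤ m ∧
      ff m n (al m n + δ) - δ ^ 2 * Ph m n / 96 ≤
      (∑ i ∈ Finset.Ioc 0 k, x.2.1 i / (al m n + δ)) + T x.1 ((k : ℤ), 1) ((m : ℤ), (n : ℤ))} ≤
      Real.exp (-(δ ^ 3 * Ph m n / 1152)) := by
  have hm0 : (0 : ℝ) < m := by exact_mod_cast hm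
  have hn0 : (0 : ℝ) < n := by exact_mod_cast hn
  have D := exs_data hm0 hn0
  have B := D.br hδ h1 h2
  have C := D.cub hδ h1 h2
  set A := al m n with hA
  set P := Ph m n with hP
  have hA0 := D.A0
  have hA1 := D.A1
  have hP0 := D.P0
  have hr : 0 < A + δ := by linarith
  have hr1 : 0 < 1 - (A + δ) := by linarith
  set θ := δ / 12 with hθ
  have hθ0 : 0 < θ := by positivity
  have key := mgfS (a := A + δ) (θ := θ) hθ0 (by rw [hθ]; linarith) (by linarith) m n 0 (by omega)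
    hn (ff m n (A + δ) - δ ^ 2 * P / 96)
  refine key.trans ?_
  set x := θ / (1 - (A + δ)) with hx
  set y := θ / (A + δ) with hy
  have hx0 : 0 ≤ x := by positivity
  have hy0 : 0 ≤ y := by positivity
  have hx1 : x ≤ 1 / 2 := by
    rw [hx, div_le_iff₀ hr1, hθ]
    linarith
  have hy1 : y ≤ 1 / 2 := by
    rw [hy, div_le_iff₀ hr, hθ]
    linarith
  have f1 : (1 - (A + δ) + θ) / (1 - (A + δ)) = 1 + x := by
    rw [hx]
    field_simp
  have f2 : (A + δ) / (A + δ - θ) = 1 / (1 - y) := by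
    have h3 : A + δ - θ ≠ 0 := by
      rw [hθ]
      have : 0 < A + δ - δ / 12 := by linarith
      exact this.ne'
    have h4 : 1 - y = (A + δ - θ) / (A + δ) := by
      rw [hy]
      field_simp
    rw [h4, one_div_div]
  have g1 := exs_log_add hx0 hx1
  have g2 := exs_log_sub hy0 hy1
  have k1 : (1 + x) ^ n ≤ Real.exp (n * (x - x ^ 2 / 2 + 2 * x ^ 3)) := by
    rw [Real.exp_nat_mul]
    exact pow_le_pow_left₀ (by linarith) g1 n
  have k2 : (1 / (1 - y)) ^ m ≤ Real.exp (m * (y + y ^ 2 / 2 + 2 * y ^ 3)) := by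
    rw [Real.exp_nat_mul]
    exact pow_le_pow_left₀ (one_div_pos.2 (by linarith)).le g2 m
  rw [f1, f2, Nat.sub_zero]
  have k3 : (1 + x) ^ n * (1 / (1 - y)) ^ m ≤ Real.exp (n * (x - x ^ 2 / 2 + 2 * x ^ 3)) *
      Real.exp (m * (y + y ^ 2 / 2 + 2 * y ^ 3)) :=
    mul_le_mul k1 k2 (pow_nonneg (one_div_pos.2 (by linarith)).le m) (Real.exp_pos _).le
  refine (mul_le_mul_of_nonneg_right k3 (Real.exp_pos _).le).trans ?_
  rw [← Real.exp_add, ← Real.exp_add]
  apply Real.exp_le_exp.2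
  have q1 : n * x + m * y = θ * ff m n (A + δ) := by
    rw [hx, hy]
    unfold ff
    ring
  have q2 : m * y ^ 2 / 2 - n * x ^ 2 / 2 =
      θ ^ 2 / 2 * (m / (A + δ) ^ 2 - n / (1 - (A + δ)) ^ 2) := by
    rw [hx, hy]
    field_simp
  have q3 : m * (2 * y ^ 3) + n * (2 * x ^ 3) =
      2 * θ ^ 3 * (m / (A + δ) ^ 3 + n / (1 - (A + δ)) ^ 3) := by
    rw [hx, hy]
    field_simp
  have q4 : θ ^ 2 / 2 * (m / (A + δ) ^ 2 - n / (1 - (A + δ)) ^ 2) ≤ θ ^ 2 / 2 * -(δ * P) :=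
    mul_le_mul_of_nonneg_left B (by positivity)
  have q5 : 2 * θ ^ 3 * (m / (A + δ) ^ 3 + n / (1 - (A + δ)) ^ 3) ≤ 2 * θ ^ 3 * (13 / 10 * P) :=
    mul_le_mul_of_nonneg_left C (by positivity)
  have q6 : n * (x - x ^ 2 / 2 + 2 * x ^ 3) + m * (y + y ^ 2 / 2 + 2 * y ^ 3) +
      -(θ * (ff m n (A + δ) - δ ^ 2 * P / 96)) =
      (n * x + m * y - θ * ff m n (A + δ)) + (m * y ^ 2 / 2 - n * x ^ 2 / 2) +
      (m * (2 * y ^ 3) + n * (2 * x ^ 3)) + θ * (δ ^ 2 * P / 96) := by ring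
  rw [q6, q1, sub_self, q2, q3]
  have q7 : θ ^ 2 / 2 * -(δ * P) + 2 * θ ^ 3 * (13 / 10 * P) + θ * (δ ^ 2 * P / 96) ≤
      -(δ ^ 3 * P / 1152) := by
    rw [hθ]
    have : 0 < δ ^ 3 * P := by positivity
    nlinarith
  linarith


/-- the shape function is increasing to the right of the critical rate -/
private theorem Exs.mono {m n A P s2 : ℝ} (h : Exs m n A P s2) {a ρ : ℝ} (h1 : A ≤ a)
    (h2 : a ≤ ρ) (h3 : ρ < 1) : ff m n a ≤ ff m n ρ := by
  have hA := h.A0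
  have hs := h.pos
  have ha0 : 0 < a := by linarith
  have hr0 : 0 < ρ := by linarith
  have ha1 : 0 < 1 - a := by linarith
  have hr1 : 0 < 1 - ρ := by linarith
  unfold ff
  have e1 : m / ρ + n / (1 - ρ) - (m / a + n / (1 - a)) =
      (ρ - a) * s2 * ((1 - A) ^ 2 / ((1 - a) * (1 - ρ)) - A ^ 2 / (a * ρ)) := by
    rw [h.m, h.n]
    field_simp
    ring
  have e2 : A ^ 2 / (a * ρ) ≤ 1 := by
    rw [div_le_one (by positivity)]
    nlinarith
  have e3 : 1 ≤ (1 - A) ^ 2 / ((1 - a) * (1 - ρ)) := by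
    rw [one_le_div (by positivity)]
    nlinarith
  have e4 : 0 ≤ (ρ - a) * s2 * ((1 - A) ^ 2 / ((1 - a) * (1 - ρ)) - A ^ 2 / (a * ρ)) := by
    apply mul_nonneg (mul_nonneg (by linarith) hs.le)
    linarith
  linarith

/-- the numbers for the high exits on the W side -/
private theorem exs_num {A P s2 δ t b w : ℝ} (hP : 0 < P)
    (hs : s2 = P * (A * (1 - A))) (hδ : 0 < δ) (h1 : δ ≤ A / 16) (h2 : δ ≤ (1 - A) / 16)
    (ht : t = δ / 200000) (hb : b = 1 - A - δ - t / 2) (hw : 70 * b ^ 2 * δ * P ≤ w) :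
    s2 + s2 * ((1 - b) - A) ^ 2 / ((1 - b) * (1 - (1 - b))) - w ^ 2 / (768 * b ^ 4 * P) ≤
      s2 - δ ^ 2 * P / 96 / 8 := by
  have hb0 : 0 < b := by rw [hb, ht]; linarith
  have hb1 : 0 < 1 - b := by rw [hb, ht]; linarith
  have e0 : 1 - (1 - b) = b := by ring
  have e1 : (1 - b) - A = δ + t / 2 := by rw [hb]; ring
  rw [e0, e1]
  have hAb : A ≤ 1 - b := by rw [hb, ht]; linarith
  have hAb' : 1 - A ≤ 27 / 25 * b := by rw [hb, ht]; linarith
  have e2 : s2 * (δ + t / 2) ^ 2 / ((1 - b) * b) ≤ 6 / 5 * δ ^ 2 * P := by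
    rw [div_le_iff₀ (by positivity), hs]
    have f1 : A * (1 - A) ≤ (1 - b) * (27 / 25 * b) :=
      mul_le_mul hAb hAb' (by linarith) hb1.le
    have f2 : (δ + t / 2) ^ 2 ≤ 10 / 9 * δ ^ 2 := by
      rw [ht]
      nlinarith
    have f3 : A * (1 - A) * (δ + t / 2) ^ 2 ≤ (1 - b) * (27 / 25 * b) * (10 / 9 * δ ^ 2) :=
      mul_le_mul f1 f2 (by positivity) (by positivity)
    calc P * (A * (1 - A)) * (δ + t / 2) ^ 2 = P * (A * (1 - A) * (δ + t / 2) ^ 2) := by ring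
      _ ≤ P * ((1 - b) * (27 / 25 * b) * (10 / 9 * δ ^ 2)) := mul_le_mul_of_nonneg_left f3 hP.le
      _ = 6 / 5 * δ ^ 2 * P * ((1 - b) * b) := by ring
  have e3 : 6 * δ ^ 2 * P ≤ w ^ 2 / (768 * b ^ 4 * P) := by
    rw [le_div_iff₀ (by positivity)]
    have f1 : (70 * b ^ 2 * δ * P) ^ 2 ≤ w ^ 2 := pow_le_pow_left₀ (by positivity) hw 2
    have f2 : 6 * δ ^ 2 * P * (768 * b ^ 4 * P) ≤ (70 * b ^ 2 * δ * P) ^ 2 := by
      have : 0 ≤ b ^ 4 * δ ^ 2 * P ^ 2 := by positivity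
      nlinarith
    linarith
  have e4 : 0 < δ ^ 2 * P := by positivity
  linarith

theorem exit_side {m n : ℕ} (hm : 1 ≤ m) (hn : 1 ≤ n) {δ : ℝ} (hδ : 0 < δ)
    (h1 : δ ≤ al m n / 16) (h2 : δ ≤ (1 - al m n) / 16) :
    muSW.real (ExS (al m n + δ) (1 - (al m n + δ)) m n) ≤
      6 * Real.exp (-(δ ^ 3 * Ph m n / (2 * 10 ^ 8))) := by
  have hm0 : (0 : ℝ) < m := by exact_mod_cast hm
  have hn0 : (0 : ℝ) < n := by exact_mod_cast hn
  have D := exs_data hm0 hn0
  have D' := exs_data hn0 hm0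
  have hS := exs_S hm hn hδ h1 h2
  have hff := fun (ρ : ℝ) (h0 : 0 < ρ) (h1 : ρ < 1) => ff_eq hm0 hn0 h0 h1
  have hswA := al_swap hm0 hn0
  have hswP := Ph_swap (m : ℝ) n
  set A := al m n with hA
  set P := Ph m n with hP
  set s2 := (√(m : ℝ) + √(n : ℝ)) ^ 2 with hs2
  have hA0 := D.A0
  have hA1 := D.A1
  have hP0 := D.P0
  have hs0 := D.pos
  rcases lt_or_ge (δ ^ 3 * P) 1 with hsmall | hlarge
  · have q1 : muSW.real (ExS (A + δ) (1 - (A + δ)) m n) ≤ 1 := measureReal_le_one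
    have q2 := Real.add_one_le_exp (-(δ ^ 3 * P / (2 * 10 ^ 8)))
    have q3 : δ ^ 3 * P / (2 * 10 ^ 8) ≤ 1 / 2 := by
      rw [div_le_iff₀ (by norm_num)]
      linarith
    linarith
  set t := δ / 200000 with ht
  have ht0 : 0 < t := by positivity
  set b := 1 - A - δ - t / 2 with hb
  set δ' := δ - t / 2 with hδ'
  have hδ0' : 0 < δ' := by rw [hδ', ht]; linarith
  have hδ1' : δ' ≤ δ := by rw [hδ']; linarith
  have hδ2' : 9 / 10 * δ ≤ δ' := by rw [hδ', ht]; linarith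
  have hS' := exs_S hm hn hδ0' (by rw [← hA]; linarith) (by rw [← hA]; linarith)
  rw [← hA, ← hP] at hS'
  have hb0 : 14 * δ ≤ b := by rw [hb, ht]; linarith
  have hb1 : 0 < b := by linarith
  set w := ⌈70 * b ^ 2 * δ * P⌉₊ with hw
  have hw0 : 0 < 70 * b ^ 2 * δ * P := by positivity
  have hw1 : 1 ≤ w := Nat.ceil_pos.2 hw0
  have hw2 : 70 * b ^ 2 * δ * P ≤ w := Nat.le_ceil _
  have hb2 : 196 * (δ ^ 3 * P) ≤ b ^ 2 * δ * P := by
    have f1 : (14 * δ) ^ 2 ≤ b ^ 2 := pow_le_pow_left₀ (by positivity) hb0 2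
    have f2 : (14 * δ) ^ 2 * (δ * P) ≤ b ^ 2 * (δ * P) :=
      mul_le_mul_of_nonneg_right f1 (by positivity)
    have f3 : (14 * δ) ^ 2 * (δ * P) = 196 * (δ ^ 3 * P) := by ring
    have f4 : b ^ 2 * (δ * P) = b ^ 2 * δ * P := by ring
    rw [f3, f4] at f2
    exact f2
  have hw3 : (w : ℝ) ≤ 71 * b ^ 2 * δ * P := by
    have := (Nat.ceil_lt_add_one hw0.le).le
    have h3 : (1 : ℝ) ≤ b ^ 2 * δ * P := by linarith
    linarith
  set Y := δ ^ 3 * P with hY
  -- the events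
  set S1 : Set SW := {x : SW | ∃ k : ℕ, 0 < k ∧ k ≤ m ∧
      ff m n (A + δ) - δ ^ 2 * P / 96 ≤
      (∑ i ∈ Finset.Ioc 0 k, x.2.1 i / (A + δ)) + T x.1 ((k : ℤ), 1) ((m : ℤ), (n : ℤ))} with hS1
  set S3 : Set SW := {x : SW | ∃ k : ℕ, 0 < k ∧ k ≤ m ∧
      ff m n (A + δ') - δ' ^ 2 * P / 96 ≤
      (∑ i ∈ Finset.Ioc 0 k, x.2.1 i / (A + δ')) + T x.1 ((k : ℤ), 1) ((m : ℤ), (n : ℤ))} with hS3
  set S2 : Set SW := {x : SW | bl (A + δ - t / 2) (1 - (A + δ) - t / 2) x ((m : ℤ), (n : ℤ)) ≤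
      m / (A + δ) + n / (1 - (A + δ)) - δ ^ 2 * P / 96 / 8} with hS2
  set S4 : Set SW := {x : SW | ∃ k : ℕ, w < k ∧ k ≤ n ∧
      ff n m b - w ^ 2 / (768 * b ^ 4 * P) ≤
        (∑ j ∈ Finset.Icc 1 k, x.2.2 j / b) + T x.1 (1, (k : ℤ)) ((m : ℤ), (n : ℤ))} with hS4
  set S5 : Set SW := {x : SW | 2 * (w : ℝ) ≤ ∑ j ∈ Finset.Icc 1 w, x.2.2 j} with hS5
  set S6 : Set SW := {x : SW | ∃ j, x.2.2 j < 0} with hS6
  have p1 : muSW.real S1 ≤ Real.exp (-(Y / (2 * 10 ^ 8))) := by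
    refine hS.trans (Real.exp_le_exp.2 ?_)
    have : 0 < Y := by linarith
    rw [neg_le_neg_iff]
    exact div_le_div_of_nonneg_left this.le (by norm_num) (by norm_num)
  have p3 : muSW.real S3 ≤ Real.exp (-(Y / (2 * 10 ^ 8))) := by
    refine hS'.trans (Real.exp_le_exp.2 ?_)
    rw [neg_le_neg_iff]
    have f1 : (9 / 10 * δ) ^ 3 ≤ δ' ^ 3 := pow_le_pow_left₀ (by positivity) hδ2' 3
    have f2 : (9 / 10 * δ) ^ 3 * P ≤ δ' ^ 3 * P := mul_le_mul_of_nonneg_right f1 hP0.le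
    have f3 : (9 / 10 * δ) ^ 3 * P = 729 / 1000 * Y := by rw [hY]; ring
    rw [f3] at f2
    rw [div_le_div_iff₀ (by norm_num) (by norm_num)]
    linarith
  have p2 : muSW.real S2 ≤ Real.exp (-(Y / (2 * 10 ^ 8))) := by
    refine (big_low (ρ := A + δ) (t := t) ht0 (by rw [ht]; linarith) (by rw [ht]; linarith) m n
      hm hn (δ ^ 2 * P / 96 / 8)).trans (Real.exp_le_exp.2 ?_)
    have f3 : t * (δ ^ 2 * P / 96 / 8) * (2 * 10 ^ 8) =
        Y * ((2 * 10 ^ 8) / (200000 * 96 * 8)) := by rw [hY, ht]; ring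
    rw [neg_le_neg_iff, div_le_iff₀ (by norm_num), f3]
    linarith
  have p4 : muSW.real S4 ≤ 2 * Real.exp (-(Y / (2 * 10 ^ 8))) := by
    rcases le_or_gt n w with hnw | hnw
    · have : S4 = ∅ := by
        ext x
        simp only [hS4, Set.mem_ofPred_eq, Set.mem_empty_iff_false, iff_false]
        rintro ⟨k, k1, k2, _⟩
        omega
      rw [this, measureReal_empty]
      positivity
    · have hloc := exit_loc (m := n) (n := m) (w := w) hm hw1 hnw (t' := δ + t / 2) (a := b)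
        (by positivity) (by rw [hswA, ht]; linarith) (by rw [hswA, ht]; linarith)
        (by rw [hswA, hb]; ring) (by
          rw [hswP]
          refine le_trans ?_ hw2
          have f1 : 0 < b ^ 2 * P := by positivity
          have f2 : 10 * (δ + t / 2) ≤ 70 * δ := by rw [ht]; linarith
          calc 10 * b ^ 2 * (δ + t / 2) * P = (b ^ 2 * P) * (10 * (δ + t / 2)) := by ring
            _ ≤ (b ^ 2 * P) * (70 * δ) := mul_le_mul_of_nonneg_left f2 f1.le
            _ = 70 * b ^ 2 * δ * P := by ring)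
      rw [hswP] at hloc
      set S4' : Set SW := {x : SW | ∃ k : ℕ, w < k ∧ k ≤ n ∧
        ff n m b - w ^ 2 / (768 * b ^ 4 * P) ≤
          (∑ i ∈ Finset.Icc 1 k, x.2.1 i / b) + T x.1 ((k : ℤ), 1) ((n : ℤ), (m : ℤ))} with hS4'
      have hsub : S4 = exsSw ⁻¹' S4' := by
        ext x
        simp only [hS4, hS4', Set.mem_ofPred_eq, Set.mem_preimage, exsSw]
        refine exists_congr fun k => and_congr_right fun _ => and_congr_right fun _ => ?_
        rw [T_swap]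
        rfl
      rw [hsub]
      refine (exs_sw_real S4').trans (hloc.trans ?_)
      refine mul_le_mul_of_nonneg_left (Real.exp_le_exp.2 ?_) (by norm_num)
      rw [neg_le_neg_iff]
      have f1 : (70 * b ^ 2 * δ * P) ^ 3 ≤ (w : ℝ) ^ 3 := pow_le_pow_left₀ hw0.le hw2 3
      rw [div_le_div_iff₀ (by norm_num) (by positivity)]
      have f2 : (70 * b ^ 2 * δ * P) ^ 3 * (2 * 10 ^ 8) =
          (343000 * (2 * 10 ^ 8)) * (b ^ 6 * (δ ^ 3 * P ^ 3)) := by ring
      have f3 : Y * (2359296 * b ^ 6 * P ^ 2) = 2359296 * (b ^ 6 * (δ ^ 3 * P ^ 3)) := by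
        rw [hY]; ring
      have f4 : 0 < b ^ 6 * (δ ^ 3 * P ^ 3) := by positivity
      rw [f3]
      linarith
  have p5 : muSW.real S5 ≤ Real.exp (-(Y / (2 * 10 ^ 8))) := by
    have f1 := exs_real_comp (f := fun x : SW => x.2.2) (by fun_prop) exs_marg
      {x : ℕ → ℝ | 2 * (w : ℝ) ≤ ∑ j ∈ Finset.Icc 1 w, x j}
    refine (f1.trans (exs_chernoff w)).trans (Real.exp_le_exp.2 ?_)
    rw [neg_le_neg_iff, div_le_iff₀ (by norm_num)]
    linarith
  have p6 : muSW.real S6 = 0 := by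
    unfold Measure.real
    rw [exs_neg]
    rfl
  -- the inclusion
  have hincl : ExS (A + δ) (1 - (A + δ)) m n ⊆ S1 ∪ S2 ∪ S3 ∪ S4 ∪ S5 ∪ S6 := by
    rintro x ⟨k₀, hk₀, hk₀', hx⟩
    by_contra hno
    simp only [Set.mem_union, not_or] at hno
    obtain ⟨⟨⟨⟨⟨n1, n2⟩, n3⟩, n4⟩, n5⟩, n6⟩ := hno
    have hnn : ∀ j, 0 ≤ x.2.2 j := by
      intro j
      by_contra hj
      exact n6 ⟨j, not_le.1 hj⟩
    have hz0 : 0 < δ ^ 2 * P / 96 := by positivity
    -- upper bound of `L`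
    have hL : bl (A + δ) (1 - (A + δ)) x ((m : ℤ), (n : ℤ)) < ff m n (A + δ) - δ ^ 2 * P / 96 := by
      by_contra hcon
      apply n1
      refine ⟨k₀, by omega, hk₀', ?_⟩
      rw [show Finset.Ioc 0 k₀ = Finset.Icc 1 k₀ from rfl, ← hx]
      exact not_lt.1 hcon
    -- lower bound of the enlarged model
    have hLb : ff m n (A + δ) - δ ^ 2 * P / 96 / 8 <
        bl (A + δ - t / 2) (1 - (A + δ) - t / 2) x ((m : ℤ), (n : ℤ)) := not_le.1 n2
    have eb : 1 - (A + δ) - t / 2 = b := by rw [hb]; ring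
    have ea : A + δ - t / 2 = A + δ' := by rw [hδ']; ring
    rw [eb, ea] at hLb
    have hfge : s2 ≤ ff m n (A + δ) := by
      rw [hff (A + δ) (by linarith) (by linarith)]
      have : 0 ≤ s2 * (A + δ - A) ^ 2 / ((A + δ) * (1 - (A + δ))) := by
        apply div_nonneg (by positivity)
        exact mul_nonneg (by linarith) (by linarith)
      linarith
    have hex := exists_exit (c := 0) (v := ((m : ℤ), (n : ℤ))) x.1
      (fun i => x.2.1 i / (A + δ')) (fun j => x.2.2 j / b)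
      (by simp only [Prod.fst_zero]; omega) (by simp only [Prod.snd_zero]; omega)
    simp only [Prod.fst_zero, Prod.snd_zero, zero_add] at hex
    rcases hex with ⟨k, hk, hk', he⟩ | ⟨k, hk, hk', he⟩
    · -- S exit
      have he' : bl (A + δ') b x ((m : ℤ), (n : ℤ)) =
        (∑ i ∈ Finset.Icc 1 k, x.2.1 i / (A + δ')) + T x.1 ((k : ℤ), 1) ((m : ℤ), (n : ℤ)) := he
      have h5 : (∑ i ∈ Finset.Icc 1 k, x.2.1 i / (A + δ')) +
          T x.1 ((k : ℤ), 1) ((m : ℤ), (n : ℤ)) < ff m n (A + δ') - δ' ^ 2 * P / 96 := by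
        by_contra hcon
        exact n3 ⟨k, by omega, by omega, not_lt.1 hcon⟩
      have h6 : ff m n (A + δ') ≤ ff m n (A + δ) := D.mono (by linarith) (by linarith)
        (by linarith)
      have h7 : δ ^ 2 * P / 96 / 8 ≤ δ' ^ 2 * P / 96 := by
        have f1 : (9 / 10 * δ) ^ 2 ≤ δ' ^ 2 := pow_le_pow_left₀ (by positivity) hδ2' 2
        have f2 : (9 / 10 * δ) ^ 2 * P ≤ δ' ^ 2 * P := mul_le_mul_of_nonneg_right f1 hP0.le
        have f3 : 0 < δ ^ 2 * P := by positivity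
        have f4 : (9 / 10 * δ) ^ 2 * P = 81 / 100 * (δ ^ 2 * P) := by ring
        rw [f4] at f2
        linarith
      rw [he'] at hLb
      linarith
    · -- W exit
      have he' : bl (A + δ') b x ((m : ℤ), (n : ℤ)) =
        (∑ j ∈ Finset.Icc 1 k, x.2.2 j / b) + T x.1 (1, (k : ℤ)) ((m : ℤ), (n : ℤ)) := he
      rcases lt_or_ge w k with hwk | hwk
      · have h5 : (∑ j ∈ Finset.Icc 1 k, x.2.2 j / b) +
            T x.1 (1, (k : ℤ)) ((m : ℤ), (n : ℤ)) < ff n m b - w ^ 2 / (768 * b ^ 4 * P) := by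
          by_contra hcon
          exact n4 ⟨k, hwk, by omega, not_lt.1 hcon⟩
        have h6 := exs_num hP0 D.hs hδ h1 h2 ht hb hw2
        rw [ff_swap, hff (1 - b) (by rw [hb]; linarith) (by linarith)] at h5
        rw [he'] at hLb
        linarith
      · have h5 := exitW_le (ω := x.1) (S := fun i => x.2.1 i / (A + δ))
          (W := fun j => x.2.2 j / (1 - (A + δ))) (c := 0) (v := ((m : ℤ), (n : ℤ)))
          (by simp only [Prod.fst_zero]; omega) k hk (by simp only [Prod.snd_zero]; omega)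
        simp only [Prod.fst_zero, Prod.snd_zero, zero_add] at h5
        have h6 : (∑ j ∈ Finset.Icc 1 k, x.2.2 j / (1 - (A + δ))) +
            T x.1 (1, (k : ℤ)) ((m : ℤ), (n : ℤ)) ≤
            bl (A + δ) (1 - (A + δ)) x ((m : ℤ), (n : ℤ)) := h5
        have h7 : ∑ j ∈ Finset.Icc 1 k, x.2.2 j ≤ ∑ j ∈ Finset.Icc 1 w, x.2.2 j :=
          Finset.sum_le_sum_of_subset_of_nonneg (Finset.Icc_subset_Icc le_rfl hwk)
            (fun j _ _ => hnn j)
        have h8 : ∑ j ∈ Finset.Icc 1 w, x.2.2 j < 2 * (w : ℝ) := not_le.1 n5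
        rw [← Finset.sum_div] at h6
        rw [he', ← Finset.sum_div] at hLb
        set Wk := ∑ j ∈ Finset.Icc 1 k, x.2.2 j with hWk
        have hc : 0 < 1 - (A + δ) := by linarith
        have h9 : Wk / b - Wk / (1 - (A + δ)) = Wk * (t / 2 / (b * (1 - (A + δ)))) := by
          have : t / 2 = (1 - (A + δ)) - b := by rw [hb]; ring
          rw [this]
          field_simp
        have h10 : t / 2 / (b * (1 - (A + δ))) ≤ t / 2 / b ^ 2 := by
          apply div_le_div_of_nonneg_left (by positivity) (by positivity)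
          have : b ≤ 1 - (A + δ) := by rw [hb]; linarith
          rw [sq]
          exact mul_le_mul_of_nonneg_left this hb1.le
        have h11 : Wk * (t / 2 / (b * (1 - (A + δ)))) ≤ (142 * b ^ 2 * δ * P) * (t / 2 / b ^ 2) := by
          apply mul_le_mul _ h10 (by positivity) (by positivity)
          linarith
        have h12 : (142 * b ^ 2 * δ * P) * (t / 2 / b ^ 2) = 71 * δ * P * t := by
          field_simp
          ring
        have h13 : 71 * δ * P * t ≤ δ ^ 2 * P / 96 / 8 := by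
          have f3 : 0 < δ ^ 2 * P := by positivity
          have f4 : 71 * δ * P * t = 71 / 200000 * (δ ^ 2 * P) := by rw [ht]; ring
          rw [f4]
          linarith
        linarith
  calc muSW.real (ExS (A + δ) (1 - (A + δ)) m n)
      ≤ muSW.real (S1 ∪ S2 ∪ S3 ∪ S4 ∪ S5 ∪ S6) := measureReal_mono hincl
    _ ≤ muSW.real S1 + muSW.real S2 + muSW.real S3 + muSW.real S4 + muSW.real S5 +
        muSW.real S6 := by
      refine (measureReal_union_le _ _).trans (add_le_add_left ?_ _)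
      refine (measureReal_union_le _ _).trans (add_le_add_left ?_ _)
      refine (measureReal_union_le _ _).trans (add_le_add_left ?_ _)
      refine (measureReal_union_le _ _).trans (add_le_add_left ?_ _)
      exact measureReal_union_le _ _
    _ ≤ 6 * Real.exp (-(Y / (2 * 10 ^ 8))) := by linarith

end BGE
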