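import Pool.Agent.BGE.FPar
import Pool.Agent.BGE.GeoB

/-!
BGE / F5, helper file of `FAnn`: the numerical facts.
-/

namespace BGE

private theorem fa_esc {k : ℕ} (hk : k ≤ 25) : esc k ≤ 22740 := by
  unfold esc
  have h1 : (3 / 2 : ℝ) ^ k ≤ (3 / 2) ^ 25 := pow_le_pow_right₀ (by norm_num) hk
  have h2 : (9 / 10 : ℝ) * (3 / 2) ^ 25 ≤ 22740 := by norm_num
  linarith

private theorem fa_big {h lam : ℝ} {k : ℕ} (hP : HP 2 h lam) (hk : k ≤ 25) (hl : 1000 ≤ lam)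
    (hb : h⁻¹ / Real.log (1 / h) ^ esc k / 2 ≤ (nn h k : ℝ) ^ (1 / 3 : ℝ)) :
    lam ^ 2000 ≤ (nn h k : ℝ) ^ (1 / 3 : ℝ) ∧ lam ^ 4000 ≤ h * nn h k := by
  obtain ⟨h0, h1, h2, h3, h4⟩ := hP
  set L := Real.log (1 / h) with hL
  have hL1 : 1 ≤ L := by linarith
  have hl1 : 1 ≤ lam := by linarith
  have hl0 : 0 < lam := by linarith
  have e1 : L ^ esc k ≤ lam ^ 1137 := by
    calc L ^ esc k ≤ L ^ (22740 : ℝ) := Real.rpow_le_rpow_of_exponent_le hL1 (fa_esc hk)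
      _ = L ^ (22740 : ℕ) := by
          rw [← Real.rpow_natCast]
          norm_num
      _ = (L ^ 20) ^ 1137 := by rw [← pow_mul]
      _ = lam ^ 1137 := by rw [← h3]
  have hi1 : 1 ≤ h⁻¹ := (one_le_inv₀ h0).2 h1.le
  have hi0 : 0 < h⁻¹ := by positivity
  have e2 : lam ^ 4000 ≤ h⁻¹ := by
    calc lam ^ 4000 = (lam ^ 1000) ^ 4 := by rw [← pow_mul]
      _ ≤ (h⁻¹ ^ (1 / 1000 : ℝ)) ^ 4 := by gcongr
      _ = h⁻¹ ^ (4 / 1000 : ℝ) := by
          rw [← Real.rpow_natCast, ← Real.rpow_mul hi0.le]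
          norm_num
      _ ≤ h⁻¹ ^ (1 : ℝ) := Real.rpow_le_rpow_of_exponent_le hi1 (by norm_num)
      _ = h⁻¹ := Real.rpow_one _
  have hLk : 0 < L ^ esc k := Real.rpow_pos_of_pos (by linarith) _
  obtain ⟨x, hx0, hx3, hx1, -⟩ := gb_cb (Nat.cast_nonneg (α := ℝ) (nn h k))
  have hxb : h⁻¹ / (2 * lam ^ 1137) ≤ x := by
    rw [hx1] at hb
    refine le_trans ?_ hb
    rw [div_div]
    apply div_le_div_of_nonneg_left hi0.le (by positivity)
    linarith
  constructor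
  · rw [hx1]
    refine le_trans ?_ hxb
    rw [le_div_iff₀ (by positivity)]
    refine le_trans ?_ e2
    calc lam ^ 2000 * (2 * lam ^ 1137) = 2 * lam ^ 3137 := by ring
      _ ≤ lam * lam ^ 3137 := by gcongr; linarith
      _ = lam ^ 3138 := by ring
      _ ≤ lam ^ 4000 := pow_le_pow_right₀ hl1 (by norm_num)
  · rw [← hx3]
    have e3 : (h⁻¹ / (2 * lam ^ 1137)) ^ 3 ≤ x ^ 3 := by gcongr
    have e4 : h * (h⁻¹ / (2 * lam ^ 1137)) ^ 3 = h⁻¹ ^ 2 / (8 * lam ^ 3411) := by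
      field_simp
      ring
    refine le_trans ?_ (mul_le_mul_of_nonneg_left e3 h0.le)
    rw [e4, le_div_iff₀ (by positivity)]
    have e5 : (lam ^ 4000) ^ 2 ≤ h⁻¹ ^ 2 := by gcongr
    refine le_trans ?_ e5
    calc lam ^ 4000 * (8 * lam ^ 3411) = 8 * lam ^ 7411 := by ring
      _ ≤ lam * lam ^ 7411 := by gcongr; linarith
      _ = lam ^ 7412 := by ring
      _ ≤ lam ^ 8000 := pow_le_pow_right₀ hl1 (by norm_num)
      _ = (lam ^ 4000) ^ 2 := by rw [← pow_mul]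

/-- the numerical facts -/
structure FaNum (κ C0 h lam : ℝ) (k : ℕ) : Prop where
  h0 : 0 < h
  l1 : 1000 ≤ lam
  y1 : C0 ≤ yy h
  y2 : yy h ≤ lam
  hn0 : nn h k ≤ nn h 0
  hr1 : nn h 25 ≤ nn h (k + 1)
  hn1 : nn h 25 ≤ nn h k
  g : C0 * lam ^ 3 ≤ nn h 25
  rn : C0 * nn h (k + 1) ≤ nn h k
  r8 : 8 * nn h (k + 1) ≤ nn h k
  sq : √(h * nn h k) ≤ 2 * (nn h (k + 1) : ℝ) ^ (1 / 3 : ℝ)
  sq2 : lam * (√(2 * h / GG lam * (2 * nn h k)) + 1) ≤ √(h * nn h k)
  Klo : 96 / κ * yy h * (nn h (k + 1) : ℝ) ^ (2 / 3 : ℝ) ≤ Kf κ h (nn h (k + 1))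
  Khi : (Kf κ h (nn h (k + 1)) : ℝ) ≤ 100 / κ * yy h * (nn h (k + 1) : ℝ) ^ (2 / 3 : ℝ)
  Kb : 96 / κ * (2 * lam) * (nb h lam : ℝ) ^ (2 / 3 : ℝ) ≤ Kf κ h (nn h (k + 1))
  KdI : dI h lam ≤ Kf κ h (nn h (k + 1))
  Iu : 2 * (If h (nn h k) : ℝ) ≤ yy h * (nn h k : ℝ) ^ (2 / 3 : ℝ) / 8
  In : 2 * (If h (nn h k) : ℝ) + 1 ≤ nn h k
  cc : ∀ x : ℝ, 0 ≤ x → x * dI h lam ≤ 2 * If h (nn h k) → x ≤ lam ^ 3500
  a1 : 1 ≤ yy h * (nn h k : ℝ) ^ (2 / 3 : ℝ)
  rho : ∃ ρ : ℕ, (dI h lam : ℝ) ≤ (ρ : ℝ) ^ (2 / 3 : ℝ) ∧ C0 * lam ^ 3 ≤ ρ ∧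
    C0 * ρ ≤ nn h k ∧ C0 * lam ^ 2 * (ρ : ℝ) ^ (1 / 3 : ℝ) ≤ (nn h (k + 1) : ℝ) ^ (1 / 3 : ℝ)
  d1 : 1 ≤ dI h lam
  b8 : 8 * nb h lam ≤ nn h k
  bg : C0 * lam ^ 3 ≤ nb h lam

theorem fa_num {κ C0 : ℝ} (hκ : 0 < κ) (hκ1 : κ ≤ 1) (hC0 : 1000 / κ ≤ C0) :
    ∃ C1 : ℝ, 2 ≤ C1 ∧ ∀ (h lam : ℝ) (k : ℕ), HP C1 h lam → k < 25 → FaNum κ C0 h lam k := by
  obtain ⟨D1, hD1, hfy⟩ := fy C0
  obtain ⟨D2, hD2, hfn⟩ := fn C0
  obtain ⟨D3, hD3, hfb⟩ := fb C0
  have hC01 : 1000 ≤ C0 := by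
    refine le_trans ?_ hC0
    rw [le_div_iff₀ hκ]
    linarith
  refine ⟨max D1 (max D2 (max D3 C0)), hD1.trans (le_max_left _ _), ?_⟩
  intro h lam k hP hk
  have hP1 := hP.mono (le_max_left D1 (max D2 (max D3 C0)))
  have hP2 := hP.mono ((le_max_left D2 (max D3 C0)).trans (le_max_right D1 _))
  have hP3 := hP.mono (((le_max_left D3 C0).trans (le_max_right D2 _)).trans (le_max_right D1 _))
  have hP4 := hP.mono (((le_max_right D3 C0).trans (le_max_right D2 _)).trans (le_max_right D1 _))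
  have hlC : C0 ≤ lam := (hp_basic (by linarith) hP4).1
  have hP5 : HP 2 h lam := hP4.mono (by linarith)
  have hl : 1000 ≤ lam := by linarith
  have hl1 : 1 ≤ lam := by linarith
  have hl0 : 0 < lam := by linarith
  obtain ⟨y1, y2, -⟩ := hfy h lam hP1
  obtain ⟨n1, n2, -, n3, -⟩ := hfn h lam hP2
  obtain ⟨-, b1, b2, -, b3, -, -, -, -, b4⟩ := hfb h lam hP3
  obtain ⟨p1, -, -, p2, p3, p4⟩ := n1 k hk.le
  obtain ⟨q1, -, -, q2, q3, q4⟩ := n1 (k + 1) (by omega)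
  obtain ⟨s1, -, -, s2, -, -⟩ := n1 25 le_rfl
  obtain ⟨m1, m2, -⟩ := n2 k hk
  obtain ⟨X1, X2⟩ := fa_big hP5 hk.le hl p1
  obtain ⟨B1, B2⟩ := fa_big hP5 le_rfl hl s1
  have h0 := hP.1
  obtain ⟨X, X0, X3, X13, X23⟩ := gb_cb (Nat.cast_nonneg (α := ℝ) (nn h k))
  obtain ⟨R, R0, R3, R13, R23⟩ := gb_cb (Nat.cast_nonneg (α := ℝ) (nn h (k + 1)))
  obtain ⟨b, b0, b33, b13, b23⟩ := gb_cb (Nat.cast_nonneg (α := ℝ) (nn h 25))
  obtain ⟨a, a0, a33, a13, a23⟩ := gb_cb (Nat.cast_nonneg (α := ℝ) (nb h lam))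
  have hlp : ∀ j : ℕ, 1 ≤ lam ^ j := fun j => one_le_pow₀ hl1
  have hy0 : 0 < yy h := by linarith
  have hRb : b ≤ R := by
    have : (nn h 25 : ℝ) ≤ nn h (k + 1) := by exact_mod_cast q3
    rw [← R3, ← b33] at this
    exact le_of_pow_le_pow_left₀ (by norm_num) R0 this
  have hXR : b ≤ X := by
    have : (nn h 25 : ℝ) ≤ nn h k := by exact_mod_cast p3
    rw [← X3, ← b33] at this
    exact le_of_pow_le_pow_left₀ (by norm_num) X0 this
  rw [X13] at X1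
  rw [b13] at B1
  have hX1 : 1 ≤ X := (hlp 2000).trans X1
  have hb1 : 1 ≤ b := (hlp 2000).trans B1
  have hbl : lam ^ 30 ≤ b := (pow_le_pow_right₀ hl1 (by norm_num)).trans B1
  have hXl : lam ≤ X := (le_self_pow₀ hl1 (by norm_num)).trans X1
  -- `dI`
  have D1 : (dI h lam : ℝ) ≤ b ^ 2 / lam ^ 12 := by
    unfold dI
    rw [b23]
    exact Nat.floor_le (by positivity)
  have D2 : b ^ 2 / (2 * lam ^ 12) ≤ (dI h lam : ℝ) := by
    have e1 : b ^ 2 / lam ^ 12 < (dI h lam : ℝ) + 1 := by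
      unfold dI
      rw [b23]
      exact Nat.lt_floor_add_one _
    have e2 : 2 ≤ b ^ 2 / lam ^ 12 := by
      rw [le_div_iff₀ (by positivity)]
      calc 2 * lam ^ 12 ≤ lam * lam ^ 12 := by gcongr; linarith
        _ = lam ^ 13 := by ring
        _ ≤ (lam ^ 30) ^ 2 := by
            rw [← pow_mul]
            exact pow_le_pow_right₀ hl1 (by norm_num)
        _ ≤ b ^ 2 := by gcongr
    have e3 : b ^ 2 / (2 * lam ^ 12) = b ^ 2 / lam ^ 12 / 2 := by
      field_simp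
    rw [e3]
    linarith
  have D3 : (dI h lam : ℝ) ≤ b ^ 2 := D1.trans (div_le_self (by positivity) (hlp 12))
  have hK1 : 1 ≤ 96 / κ := by
    rw [le_div_iff₀ hκ]
    linarith
  have hR1 : 1 ≤ R := hb1.trans hRb
  have hbR2 : b ^ 2 ≤ R ^ 2 := by gcongr
  have hI : (If h (nn h k) : ℝ) ≤ X ^ 2 / yy h ^ 3 := by
    unfold If
    rw [X23]
    exact Nat.floor_le (by positivity)
  have hy3 : 1000 ≤ yy h ^ 3 := by
    have e1 : yy h ≤ yy h ^ 3 := le_self_pow₀ (by linarith) (by norm_num)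
    linarith
  have hI2 : (If h (nn h k) : ℝ) ≤ X ^ 2 / 1000 := hI.trans
    (div_le_div_of_nonneg_left (by positivity) (by norm_num) hy3)
  have hK0 : 96 / κ * yy h * R ^ 2 ≤ Kf κ h (nn h (k + 1)) := by
    unfold Kf
    rw [R23]
    exact Nat.le_ceil _
  have hyR : b ^ 2 ≤ yy h * R ^ 2 :=
    hbR2.trans (le_mul_of_one_le_left (by positivity) (by linarith))
  have hκyR : b ^ 2 ≤ 96 / κ * yy h * R ^ 2 := by
    rw [mul_assoc]
    exact hyR.trans (le_mul_of_one_le_left (by positivity) hK1)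
  refine ⟨h0, hl, y1, y2, p4, q3, p3, s2, m1, ?_, m2, ?_, ?_, ?_, ?_, ?_, ?_, ?_, ?_, ?_, ?_, b4,
    b2.trans p3, b1⟩
  · have e1 : (8 : ℝ) * nn h (k + 1) ≤ C0 * nn h (k + 1) := by
      apply mul_le_mul_of_nonneg_right (by linarith) (Nat.cast_nonneg _)
    exact_mod_cast e1.trans m1
  · set s : ℝ := √(h * nn h k) with hs
    have hs0 : 0 ≤ s := Real.sqrt_nonneg _
    have hs2 : s ^ 2 = h * nn h k := Real.sq_sqrt (by positivity)
    have hsl : lam ^ 2000 ≤ s := by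
      refine le_of_pow_le_pow_left₀ (n := 2) (by norm_num) hs0 ?_
      rw [hs2, ← pow_mul]
      exact X2
    have hsl2 : 2 * lam ≤ s := by
      refine le_trans ?_ hsl
      calc 2 * lam ≤ lam * lam := by gcongr; linarith
        _ = lam ^ 2 := by ring
        _ ≤ lam ^ 2000 := pow_le_pow_right₀ hl1 (by norm_num)
    have hG : lam ^ 3 ≤ GG lam := by
      have e1 : lam ^ 2300 ≤ GG lam := Nat.le_ceil _
      exact (pow_le_pow_right₀ hl1 (by norm_num)).trans e1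
    have hG0 : (0 : ℝ) < GG lam := lt_of_lt_of_le (by positivity) hG
    have e1 : √(2 * h / GG lam * (2 * nn h k)) ≤ s / (2 * lam) := by
      apply Real.sqrt_le_iff.2
      refine ⟨by positivity, ?_⟩
      rw [div_pow, hs2, div_mul_eq_mul_div, div_le_div_iff₀ hG0 (by positivity)]
      have e2 : 16 * lam ^ 2 ≤ (GG lam : ℝ) := by
        refine le_trans ?_ hG
        calc 16 * lam ^ 2 ≤ lam * lam ^ 2 := by gcongr; linarith
          _ = lam ^ 3 := by ring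
      have e3 : 0 ≤ h * (nn h k : ℝ) := by positivity
      calc 2 * h * (2 * (nn h k : ℝ)) * (2 * lam) ^ 2 = (h * nn h k) * (16 * lam ^ 2) := by ring
        _ ≤ (h * nn h k) * GG lam := mul_le_mul_of_nonneg_left e2 e3
    calc lam * (√(2 * h / GG lam * (2 * nn h k)) + 1) ≤ lam * (s / (2 * lam) + 1) := by gcongr
      _ = s / 2 + lam := by field_simp
      _ ≤ s := by linarith
  · rw [R23]
    exact hK0
  · have e1 : (Kf κ h (nn h (k + 1)) : ℝ) ≤ 96 / κ * yy h * R ^ 2 + 1 := by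
      unfold Kf
      rw [R23]
      exact (Nat.ceil_lt_add_one (by positivity)).le
    rw [R23]
    have e2 : 1 ≤ 4 / κ * yy h * R ^ 2 := by
      have e3 : 1 ≤ 4 / κ := by
        rw [le_div_iff₀ hκ]
        linarith
      have e4 : 1 ≤ 4 / κ * yy h := one_le_mul_of_one_le_of_one_le e3 (by linarith)
      exact one_le_mul_of_one_le_of_one_le e4 (one_le_pow₀ hR1)
    have e3 : 100 / κ * yy h * R ^ 2 = 96 / κ * yy h * R ^ 2 + 4 / κ * yy h * R ^ 2 := by ring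
    linarith
  · rw [a23]
    refine le_trans ?_ hK0
    have e1 : a ≤ b / lam ^ 4 := by
      refine le_of_pow_le_pow_left₀ (n := 3) (by norm_num) (by positivity) ?_
      have e0 : (lam ^ 4) ^ 3 = lam ^ 12 := by rw [← pow_mul]
      rw [div_pow, a33, b33, e0, le_div_iff₀ (by positivity), mul_comm]
      exact b3
    have e2 : 2 * lam * a ^ 2 ≤ yy h * R ^ 2 := by
      calc 2 * lam * a ^ 2 ≤ 2 * lam * (b / lam ^ 4) ^ 2 := by gcongr
        _ = b ^ 2 * (2 / lam ^ 7) := by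
            field_simp
        _ ≤ b ^ 2 * 1 := by
            apply mul_le_mul_of_nonneg_left _ (by positivity)
            rw [div_le_one (by positivity)]
            have := le_self_pow₀ hl1 (show (7 : ℕ) ≠ 0 by norm_num)
            linarith
        _ ≤ yy h * R ^ 2 := by rw [mul_one]; exact hyR
    calc 96 / κ * (2 * lam) * a ^ 2 = 96 / κ * (2 * lam * a ^ 2) := by ring
      _ ≤ 96 / κ * (yy h * R ^ 2) := by gcongr
      _ = 96 / κ * yy h * R ^ 2 := by ring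
  · have e1 : (dI h lam : ℝ) ≤ Kf κ h (nn h (k + 1)) := by linarith
    exact_mod_cast e1
  · rw [X23]
    have e1 : X ^ 2 / 1000 * 2 ≤ yy h * X ^ 2 / 8 := by
      have e2 : 0 ≤ X ^ 2 := by positivity
      have e3 : X ^ 2 ≤ yy h * X ^ 2 := le_mul_of_one_le_left e2 (by linarith)
      linarith
    linarith
  · rw [← X3]
    have e1 : 1000 * X ^ 2 ≤ X ^ 3 := by
      calc 1000 * X ^ 2 ≤ X * X ^ 2 := by gcongr; linarith
        _ = X ^ 3 := by ring
    have e2 : 1 ≤ X ^ 2 := one_le_pow₀ hX1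
    linarith
  · intro x hx0 hx
    have e1 : X ^ 2 ≤ lam ^ 2275 * b ^ 2 := by
      rw [← X23, ← b23]
      refine le_trans ?_ n3
      exact Real.rpow_le_rpow (by positivity) (by exact_mod_cast p4) (by norm_num)
    have e2 : x * (b ^ 2 / (2 * lam ^ 12)) ≤ lam ^ 2275 * b ^ 2 := by
      calc x * (b ^ 2 / (2 * lam ^ 12)) ≤ x * dI h lam := by gcongr
        _ ≤ 2 * If h (nn h k) := hx
        _ ≤ 2 * (X ^ 2 / 1000) := by gcongr
        _ ≤ X ^ 2 := by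
            have : 0 ≤ X ^ 2 := by positivity
            linarith
        _ ≤ lam ^ 2275 * b ^ 2 := e1
    have e3 : x ≤ 2 * lam ^ 2287 := by
      have e4 : 0 < b ^ 2 := by positivity
      rw [mul_div_assoc', div_le_iff₀ (by positivity)] at e2
      have e5 : x * b ^ 2 ≤ 2 * lam ^ 2287 * b ^ 2 := by
        refine e2.trans (le_of_eq ?_)
        ring
      exact le_of_mul_le_mul_right e5 e4
    refine e3.trans ?_
    calc 2 * lam ^ 2287 ≤ lam * lam ^ 2287 := by gcongr; linarith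
      _ = lam ^ 2288 := by ring
      _ ≤ lam ^ 3500 := pow_le_pow_right₀ hl1 (by norm_num)
  · rw [X23]
    exact one_le_mul_of_one_le_of_one_le (by linarith) (one_le_pow₀ hX1)
  · have hD0 : (0 : ℝ) ≤ dI h lam := Nat.cast_nonneg _
    set D : ℝ := (dI h lam : ℝ) with hD
    set E : ℝ := D ^ (3 / 2 : ℝ) with hE
    have hE0 : 0 ≤ E := by positivity
    have hE2 : E ^ 2 = D ^ 3 := by
      rw [hE, ← Real.rpow_natCast, ← Real.rpow_mul hD0, ← Real.rpow_natCast]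
      norm_num
    have hE3 : E ≤ b ^ 3 / lam ^ 18 := by
      refine le_of_pow_le_pow_left₀ (n := 2) (by norm_num) (by positivity) ?_
      rw [hE2]
      calc D ^ 3 ≤ (b ^ 2 / lam ^ 12) ^ 3 := by gcongr
        _ = (b ^ 3 / lam ^ 18) ^ 2 := by
            rw [div_pow, div_pow, ← pow_mul, ← pow_mul, ← pow_mul, ← pow_mul]
    have hE4 : b ^ 3 / (3 * lam ^ 18) ≤ E := by
      refine le_of_pow_le_pow_left₀ (n := 2) (by norm_num) hE0 ?_
      rw [hE2]
      calc (b ^ 3 / (3 * lam ^ 18)) ^ 2 = b ^ 6 / (9 * lam ^ 36) := by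
            rw [div_pow, mul_pow, ← pow_mul, ← pow_mul]
            norm_num
        _ ≤ b ^ 6 / (8 * lam ^ 36) := by
            apply div_le_div_of_nonneg_left (by positivity) (by positivity)
            have : 0 ≤ lam ^ 36 := by positivity
            linarith
        _ = (b ^ 2 / (2 * lam ^ 12)) ^ 3 := by
            rw [div_pow, mul_pow, ← pow_mul, ← pow_mul]
            norm_num
        _ ≤ D ^ 3 := by gcongr
    have hbl3 : lam ^ 90 ≤ b ^ 3 := by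
      calc lam ^ 90 = (lam ^ 30) ^ 3 := by rw [← pow_mul]
        _ ≤ b ^ 3 := by gcongr
    have hρ1 : E ≤ (⌈E⌉₊ : ℝ) := Nat.le_ceil _
    have hρ2 : (⌈E⌉₊ : ℝ) ≤ 2 * b ^ 3 / lam ^ 18 := by
      have e1 : (⌈E⌉₊ : ℝ) ≤ E + 1 := (Nat.ceil_lt_add_one hE0).le
      have e2 : 1 ≤ b ^ 3 / lam ^ 18 := by
        rw [le_div_iff₀ (by positivity), one_mul]
        exact (pow_le_pow_right₀ hl1 (by norm_num)).trans hbl3
      have e3 : 2 * b ^ 3 / lam ^ 18 = b ^ 3 / lam ^ 18 + b ^ 3 / lam ^ 18 := by ring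
      linarith
    refine ⟨⌈E⌉₊, ?_, ?_, ?_, ?_⟩
    · calc D = E ^ (2 / 3 : ℝ) := by
            rw [hE, ← Real.rpow_mul hD0]
            norm_num
        _ ≤ _ := Real.rpow_le_rpow hE0 hρ1 (by norm_num)
    · refine le_trans ?_ (hE4.trans hρ1)
      rw [le_div_iff₀ (by positivity)]
      refine le_trans ?_ hbl3
      calc C0 * lam ^ 3 * (3 * lam ^ 18) = C0 * 3 * lam ^ 21 := by ring
        _ ≤ lam * lam * lam ^ 21 := by
            gcongr
            linarith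
        _ = lam ^ 23 := by ring
        _ ≤ lam ^ 90 := pow_le_pow_right₀ hl1 (by norm_num)
    · rw [← X3]
      have e1 : b ^ 3 ≤ X ^ 3 := by gcongr
      refine le_trans ?_ e1
      calc C0 * (⌈E⌉₊ : ℝ) ≤ C0 * (2 * b ^ 3 / lam ^ 18) := by gcongr
        _ = b ^ 3 * (2 * C0 / lam ^ 18) := by ring
        _ ≤ b ^ 3 * 1 := by
            apply mul_le_mul_of_nonneg_left _ (by positivity)
            rw [div_le_one (by positivity)]
            calc 2 * C0 ≤ lam * lam := by gcongr; linarith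
              _ = lam ^ 2 := by ring
              _ ≤ lam ^ 18 := pow_le_pow_right₀ hl1 (by norm_num)
        _ = b ^ 3 := mul_one _
    · obtain ⟨e, e0, e3, e13, -⟩ := gb_cb (Nat.cast_nonneg (α := ℝ) ⌈E⌉₊)
      rw [e13, R13]
      have f1 : e ≤ 2 * b / lam ^ 6 := by
        refine le_of_pow_le_pow_left₀ (n := 3) (by norm_num) (by positivity) ?_
        rw [e3]
        refine hρ2.trans ?_
        rw [div_pow, mul_pow, ← pow_mul]
        apply div_le_div_of_nonneg_right _ (by positivity)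
        have : 0 ≤ b ^ 3 := by positivity
        linarith
      calc C0 * lam ^ 2 * e ≤ C0 * lam ^ 2 * (2 * b / lam ^ 6) := by gcongr
        _ = b * (2 * C0 / lam ^ 4) := by
            field_simp
        _ ≤ b * 1 := by
            apply mul_le_mul_of_nonneg_left _ b0
            rw [div_le_one (by positivity)]
            calc 2 * C0 ≤ lam * lam := by gcongr; linarith
              _ = lam ^ 2 := by ring
              _ ≤ lam ^ 4 := pow_le_pow_right₀ hl1 (by norm_num)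
        _ ≤ R := by linarith

end BGE
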