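import Pool.Agent.BGE.Pos
import Pool.Agent.BGE.Quad

/-!
BGE / D5. Bound for the increments of the profiles (deterministic).

`incr_bound`: let `P, P'` be sites of the level `-n` with deviation at most `4 Y n^{2/3} + 1`,
`g0 ≤ r`, `C0 r ≤ n`, `|i|, |j| ≤ (100/κ) Y r^{2/3}`. Then
`(T ω P (i,0) - T ω P (j,0)) + (T (rotE ω) P' (-i,0) - T (rotE ω) P' (-j,0)) ≤ C0 Y² r^{1/3}`.
(Exchanging `i` and `j` gives the bound for the absolute value.)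
Proof. Let `q` be on a geodesic from `P` to `(i,0)` at the level `-r` and `q'` on a geodesic from
`P'` to `(-i,0)` for `rotE ω` at the level `-r`. By `pos`, `|dev q| ≤ C Y r^{2/3}`, `C = C(κ)`
(`dev (i,0) = (1-σ) i + σ/2`, `(g/l)(4 Y n^{2/3}+1) ≤ 5 Y r^{2/3}`), so `q ≤ (j,0)` and the pairs
`(q, (i,0))`, `(q, (j,0))` are in the cone `κ/4` (as `r ≥ C0 lam³` is much larger than `Y r^{2/3}`).
`T ω P (i,0) - T ω P (j,0) ≤ T ω q (i,0) - T ω q (j,0) ≤ muz q (i,0) - muz q (j,0)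
   + 2 Y (2r)^{1/3}` (`Via` and `T_add_le`, `FiE`; all the sites are in the wide parallelogram).
By `ell_sub_mu_le` and `mu_le_ell`, `muz q (i,0) ≤ ell σ (i - q.1) (-q.2)` and
`muz q (j,0) ≥ ell σ (j - q.1) (-q.2) - (2/κ²) D²/(r/2)` where
`D = (j - q.1) - σ (j + r) = dev (j,0) - dev q`, so `D² ≤ C Y² r^{4/3}`. Hence (by `ell_add`)
`T ω P (i,0) - T ω P (j,0) ≤ ell σ (i - j) 0 + C Y² r^{1/3}`. The same for the rotated environment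
with `-i, -j`, and `ell σ (i-j) 0 + ell σ (j-i) 0 = 0`.
-/

namespace BGE

private theorem geoC_rt {r : ℝ} (hr : 0 ≤ r) :
    (r ^ (1 / 3 : ℝ)) ^ 3 = r ∧ r ^ (2 / 3 : ℝ) = (r ^ (1 / 3 : ℝ)) ^ 2 := by
  constructor
  · rw [← Real.rpow_natCast, ← Real.rpow_mul hr]
    norm_num
  · rw [← Real.rpow_natCast, ← Real.rpow_mul hr]
    norm_num

private theorem geoC_third {a b : ℝ} (ha : 0 ≤ a) (hb : 0 ≤ b) (h : a ≤ 8 * b) :
    a ^ (1 / 3 : ℝ) ≤ 2 * b ^ (1 / 3 : ℝ) := by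
  calc a ^ (1 / 3 : ℝ) ≤ (8 * b) ^ (1 / 3 : ℝ) := Real.rpow_le_rpow ha h (by norm_num)
    _ = 8 ^ (1 / 3 : ℝ) * b ^ (1 / 3 : ℝ) := Real.mul_rpow (by norm_num) hb
    _ = 2 * b ^ (1 / 3 : ℝ) := by
      congr 1
      rw [show (8 : ℝ) = 2 ^ (3 : ℝ) by norm_num, ← Real.rpow_mul (by norm_num)]
      norm_num

private theorem geoC_twothird {a b : ℝ} (ha : 0 ≤ a) (hb : 0 ≤ b) (h : a ≤ 8 * b) :
    a ^ (2 / 3 : ℝ) ≤ 4 * (b ^ (1 / 3 : ℝ)) ^ 2 := by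
  rw [(geoC_rt ha).2]
  have h1 := geoC_third ha hb h
  have h2 : 0 ≤ a ^ (1 / 3 : ℝ) := Real.rpow_nonneg ha _
  nlinarith

private theorem geoC_dev {σ : ℝ} (h0 : 0 < σ) (h1 : σ < 1) (i : ℤ) :
    |dev σ (i, 0)| ≤ |(i : ℝ)| + 1 / 2 := by
  have e : dev σ (i, 0) = (1 - σ) * i + σ / 2 := by
    unfold dev lev
    push_cast
    ring
  rw [e]
  have h2 : |(1 - σ) * (i : ℝ)| ≤ |(i : ℝ)| := by
    rw [abs_mul, abs_of_pos (by linarith : 0 < 1 - σ)]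
    have := abs_nonneg (i : ℝ)
    nlinarith
  have h3 : |σ / 2| ≤ 1 / 2 := by
    rw [abs_of_pos (by linarith)]
    linarith
  exact (abs_add_le _ _).trans (add_le_add h2 h3)

/-- coordinates in terms of levels and deviations -/
private theorem geoC_fst (σ : ℝ) (u v : ℤ × ℤ) :
    ((v.1 - u.1 : ℤ) : ℝ) = σ * dl u v + (dev σ v - dev σ u) := by
  unfold dl dev
  push_cast
  ring

private theorem geoC_snd (σ : ℝ) (u v : ℤ × ℤ) :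
    ((v.2 - u.2 : ℤ) : ℝ) = (1 - σ) * dl u v - (dev σ v - dev σ u) := by
  unfold dl dev lev
  push_cast
  ring

/-- a criterion for being in a cone -/
private theorem geoC_cone {κ σ c : ℝ} {u v : ℤ × ℤ} (h0 : κ ≤ σ) (h1 : σ ≤ 1 - κ)
    (hl : 0 < dl u v) (hc : 0 < c) (h : |dev σ v - dev σ u| ≤ (κ - c) * dl u v) :
    Cone c u v := by
  rw [abs_le] at h
  have e1 := geoC_fst σ u v
  have e2 := geoC_snd σ u v
  have f1 : c * dl u v ≤ ((v.1 - u.1 : ℤ) : ℝ) := by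
    rw [e1]
    nlinarith [h.1]
  have f2 : c * dl u v ≤ ((v.2 - u.2 : ℤ) : ℝ) := by
    rw [e2]
    nlinarith [h.2]
  have g1 : (0 : ℝ) < ((v.1 - u.1 : ℤ) : ℝ) := lt_of_lt_of_le (mul_pos hc hl) f1
  have g2 : (0 : ℝ) < ((v.2 - u.2 : ℤ) : ℝ) := lt_of_lt_of_le (mul_pos hc hl) f2
  have g1' : 0 < v.1 - u.1 := by exact_mod_cast g1
  have g2' : 0 < v.2 - u.2 := by exact_mod_cast g2
  exact ⟨⟨by omega, by omega⟩, f1, f2⟩

/-- the numerical inequalities -/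
private theorem geoC_num {κ lam Y x y L : ℝ} (hκ : 0 < κ) (hk2 : κ ≤ 1 / 2) (hY1 : 1 ≤ Y)
    (hlam : 1 / 2 ≤ lam) (hYl : Y ≤ 2 * lam) (hx0 : 0 ≤ x) (hy0 : 0 ≤ y)
    (hL : L = 10 ^ 4 / κ ^ 2) (hLκ : L * κ ^ 2 = 10 ^ 4) (hL0 : 0 < L) (hL4 : 40000 ≤ L)
    (hxl : L * lam ≤ x) (hyx : L * x ≤ y) :
    20000 ≤ x ∧ x ≤ y ∧ 1 ≤ Y * x ^ 2 ∧ 1 / κ * (Y * x ^ 2) ≤ κ * x ^ 3 / 5000 ∧
    2 * (Y * x ^ 2) ≤ 1 / κ * (Y * x ^ 2) := by
  have hlam0 : 0 < lam := by linarith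
  have hx1 : 20000 ≤ x := by nlinarith
  have hxpos : 0 < x := by linarith
  have hYx : L * Y ≤ 2 * x := by nlinarith
  have hxy : x ≤ y := by nlinarith
  have hB : Y * x ^ 2 ≤ κ ^ 2 * x ^ 3 / 5000 := by
    have h1 : 10 ^ 4 * Y ≤ 2 * x * κ ^ 2 := by
      rw [← hLκ]
      have h3 := mul_le_mul_of_nonneg_right hYx (sq_nonneg κ)
      linarith
    have h2 := mul_le_mul_of_nonneg_right h1 (sq_nonneg x)
    nlinarith
  have hB0 : 1 ≤ Y * x ^ 2 := by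
    have h1 : (1 : ℝ) ≤ x ^ 2 := by nlinarith
    nlinarith
  have hBk : 1 / κ * (Y * x ^ 2) ≤ κ * x ^ 3 / 5000 := by
    rw [one_div, inv_mul_le_iff₀ hκ]
    calc Y * x ^ 2 ≤ κ ^ 2 * x ^ 3 / 5000 := hB
      _ = κ * (κ * x ^ 3 / 5000) := by ring
  have hkinv : 2 ≤ 1 / κ := by
    rw [le_div_iff₀ hκ]
    linarith
  exact ⟨hx1, hxy, hB0, hBk, mul_le_mul_of_nonneg_right hkinv (by linarith)⟩

private theorem geoC_num2 {κ lam Y x y L : ℝ} (hκ : 0 < κ) (hk2 : κ ≤ 1 / 2) (hY1 : 1 ≤ Y)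
    (hlam : 1 / 2 ≤ lam) (hYl : Y ≤ 2 * lam) (hx0 : 0 ≤ x) (hy0 : 0 ≤ y)
    (hL : L = 10 ^ 4 / κ ^ 2) (hLκ : L * κ ^ 2 = 10 ^ 4) (hL0 : 0 < L) (hL4 : 40000 ≤ L)
    (hxl : L * lam ≤ x) (hyx : L * x ≤ y) (hxy : x ≤ y) (hx1 : 20000 ≤ x) :
    lam * y ^ 2 ≤ κ * y ^ 3 / (2 * 10 ^ 4) ∧ lam * y ^ 2 ≤ y ^ 3 / (4 * 10 ^ 4) ∧
    1 ≤ lam * y ^ 2 := by
  have hlam0 : 0 < lam := by linarith
  have hly : L * lam ≤ y := hxl.trans hxy
  have hly2 : L * (lam * y ^ 2) ≤ y ^ 3 := by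
    have h1 := mul_le_mul_of_nonneg_right hly (sq_nonneg y)
    nlinarith
  have hlyk : lam * y ^ 2 ≤ κ ^ 2 * y ^ 3 / 10 ^ 4 := by
    have h1 := mul_le_mul_of_nonneg_right hly2 (sq_nonneg κ)
    have h2 : L * (lam * y ^ 2) * κ ^ 2 = 10 ^ 4 * (lam * y ^ 2) := by
      rw [← hLκ]; ring
    rw [h2] at h1
    linarith
  have hlyk2 : lam * y ^ 2 ≤ κ * y ^ 3 / (2 * 10 ^ 4) := by
    have h1 : κ ^ 2 * y ^ 3 ≤ κ * y ^ 3 / 2 := by
      have : 0 ≤ κ * y ^ 3 := by positivity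
      nlinarith
    linarith
  have hlyn : lam * y ^ 2 ≤ y ^ 3 / (4 * 10 ^ 4) := by
    have h1 : κ * y ^ 3 ≤ y ^ 3 / 2 := by
      have : 0 ≤ y ^ 3 := by positivity
      nlinarith
    linarith
  have hly1 : 1 ≤ lam * y ^ 2 := by
    have h0 : (20000 : ℝ) ≤ y := hx1.trans hxy
    have h1 : (20000 : ℝ) ^ 2 ≤ y ^ 2 := pow_le_pow_left₀ (by norm_num) h0 2
    nlinarith
  exact ⟨hlyk2, hlyn, hly1⟩

private theorem geoC_num3 {κ lam Y x y L B : ℝ} (hκ : 0 < κ) (hk2 : κ ≤ 1 / 2) (hY1 : 1 ≤ Y)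
    (hYl : Y ≤ 2 * lam) (hx0 : 0 ≤ x) (hB : 0 ≤ B) (hkinv : 2 ≤ 1 / κ)
    (hL : L = 10 ^ 4 / κ ^ 2) (hL0 : 0 < L) (hL4 : 40000 ≤ L)
    (hyx : L * x ≤ y) (hBdef : B = 1 / κ * (Y * x ^ 2)) :
    1000 * B ≤ lam * y ^ 2 := by
  have h1 : x ^ 2 * L ^ 2 ≤ y ^ 2 := by
    have := pow_le_pow_left₀ (by positivity) hyx 2
    rw [mul_pow] at this
    linarith
  have h2 : Y * x ^ 2 * L ^ 2 ≤ 2 * (lam * y ^ 2) := by
    have h3 := mul_le_mul_of_nonneg_left h1 (by linarith : (0 : ℝ) ≤ Y)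
    have h4 := mul_le_mul_of_nonneg_right hYl (sq_nonneg y)
    linarith
  have h5 : Y * x ^ 2 = κ * B := by
    rw [hBdef]
    field_simp
  rw [h5] at h2
  have h6 : κ * L ^ 2 = 10 ^ 4 * (1 / κ) * L := by
    rw [hL]
    field_simp
  have h7 : 8 * 10 ^ 8 ≤ κ * L ^ 2 := by
    rw [h6]
    nlinarith
  have h8 : κ * B * L ^ 2 = κ * L ^ 2 * B := by ring
  rw [h8] at h2
  have h9 := mul_le_mul_of_nonneg_right h7 hB
  linarith

/-- the deviation of the point `q` -/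
private theorem geoC_q {g G di dP dq x y Y B : ℝ} (hY : 0 ≤ Y) (hx0 : 0 ≤ x) (hxy : x ≤ y)
    (hypos : 0 < y) (hg0 : 0 ≤ g) (hG : y ^ 3 / 2 ≤ G) (hgG : g ≤ G) (hg2 : g ≤ 2 * x ^ 3)
    (hdi : |di| ≤ 101 * B) (hdP : |dP| ≤ 5 * Y * y ^ 2) (hYB : 2 * (Y * x ^ 2) ≤ B)
    (hq : |dq - (1 - g / G) * di - g / G * dP| ≤ 40 * (Y * x ^ 2)) : |dq| ≤ 131 * B := by
  have hGpos : 0 < G := by
    have : 0 < y ^ 3 := by positivity
    linarith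
  have ht0 : 0 ≤ g / G := div_nonneg hg0 hGpos.le
  have ht1 : g / G ≤ 1 := by
    rw [div_le_one hGpos]
    exact hgG
  have ht2 : g / G * y ^ 2 ≤ 4 * x ^ 2 := by
    rw [div_mul_eq_mul_div, div_le_iff₀ hGpos]
    have h1 : g * y ^ 2 ≤ 2 * x ^ 3 * y ^ 2 :=
      mul_le_mul_of_nonneg_right hg2 (sq_nonneg y)
    have h2 : 4 * x ^ 2 * (y ^ 3 / 2) ≤ 4 * x ^ 2 * G :=
      mul_le_mul_of_nonneg_left hG (by positivity)
    have h3 : 2 * x ^ 3 * y ^ 2 ≤ 2 * x ^ 2 * y ^ 3 := by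
      have h4 := mul_le_mul_of_nonneg_left hxy (by positivity : 0 ≤ 2 * x ^ 2 * y ^ 2)
      linarith
    linarith
  have e1 : |(1 - g / G) * di| ≤ 101 * B := by
    rw [abs_mul, abs_of_nonneg (by linarith : 0 ≤ 1 - g / G)]
    have h1 := mul_le_mul_of_nonneg_right (by linarith : 1 - g / G ≤ 1) (abs_nonneg di)
    linarith
  have e2 : |g / G * dP| ≤ 20 * (Y * x ^ 2) := by
    rw [abs_mul, abs_of_nonneg ht0]
    calc g / G * |dP| ≤ g / G * (5 * Y * y ^ 2) := mul_le_mul_of_nonneg_left hdP ht0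
      _ = 5 * Y * (g / G * y ^ 2) := by ring
      _ ≤ 5 * Y * (4 * x ^ 2) := mul_le_mul_of_nonneg_left ht2 (by linarith)
      _ = 20 * (Y * x ^ 2) := by ring
  rw [abs_le] at e1 e2 hq
  rw [abs_le]
  constructor
  · linarith [e1.1, e2.1, hq.1]
  · linarith [e1.2, e2.2, hq.2]

/-- upper bound for the shape function -/
private theorem geoC_mi {σ : ℝ} (hσ0 : 0 < σ) (hσ1 : σ < 1) {q : ℤ × ℤ} {i : ℤ}
    (hq : q ≤ (i, 0)) : muz q (i, 0) ≤ ell σ ((i : ℝ) - q.1) (-(q.2 : ℝ)) := by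
  have h1 := hq.1
  have h2 := hq.2
  simp only at h1 h2
  have h1' : (q.1 : ℝ) ≤ i := by exact_mod_cast h1
  have h2' : (q.2 : ℝ) ≤ 0 := by exact_mod_cast h2
  have h3 := mu_le_ell (σ := σ) hσ0 hσ1 (a := (i : ℝ) - q.1) (b := -(q.2 : ℝ)) (by linarith)
    (by linarith)
  refine le_trans (le_of_eq ?_) h3
  unfold muz
  push_cast
  congr 1
  ring

/-- lower bound for the shape function -/
private theorem geoC_mj {κ σ Y x B : ℝ} (hκ : 0 < κ) (hs1 : κ ≤ σ) (hs2 : σ ≤ 1 - κ)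
    {q : ℤ × ℤ} {j : ℤ} (hx : 0 < x) (hcj : Cone (κ / 2) q (j, 0))
    (hgj1 : x ^ 3 / 2 ≤ dl q (j, 0)) (hDj : |dev σ (j, 0) - dev σ q| ≤ 232 * B)
    (hBdef : B = 1 / κ * (Y * x ^ 2)) :
    ell σ ((j : ℝ) - q.1) (-(q.2 : ℝ)) - 215296 / κ ^ 4 * (Y ^ 2 * x) ≤ muz q (j, 0) := by
  have hx3pos : 0 < x ^ 3 := by positivity
  have e1 : ((j : ℝ) - q.1) + -(q.2 : ℝ) = dl q (j, 0) := by
    unfold dl lev
    push_cast
    ring
  have e2 : ((j : ℝ) - q.1) - σ * (((j : ℝ) - q.1) + -(q.2 : ℝ)) =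
      dev σ (j, 0) - dev σ q := by
    have := geoC_fst σ q (j, 0)
    rw [e1]
    push_cast at this
    linarith
  have h1 := hcj.2.1
  have h2 := hcj.2.2
  push_cast at h1 h2
  have h3 := ell_sub_mu_le (κ := κ) (σ := σ) hκ hs1 hs2 (a := (j : ℝ) - q.1)
    (b := -(q.2 : ℝ)) (by rw [e1]; linarith) (by rw [e1]; linarith) (by rw [e1]; linarith)
  rw [e2, e1] at h3
  have h4 : muz q (j, 0) = mu ((j : ℝ) - q.1) (-(q.2 : ℝ)) := by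
    unfold muz
    push_cast
    congr 1
    ring
  rw [h4]
  have hBk2 : B ^ 2 = 1 / κ ^ 2 * (Y ^ 2 * x ^ 4) := by
    rw [hBdef]
    field_simp
  have h5 : (dev σ (j, 0) - dev σ q) ^ 2 ≤ 53824 * B ^ 2 := by
    have h6 := abs_le.1 hDj
    nlinarith [h6.1, h6.2]
  have h7 : 2 / κ ^ 2 * (dev σ (j, 0) - dev σ q) ^ 2 / dl q (j, 0) ≤
      215296 / κ ^ 4 * (Y ^ 2 * x) := by
    rw [div_le_iff₀ (by linarith)]
    calc 2 / κ ^ 2 * (dev σ (j, 0) - dev σ q) ^ 2 ≤ 2 / κ ^ 2 * (53824 * B ^ 2) :=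
          mul_le_mul_of_nonneg_left h5 (by positivity)
      _ = 215296 / κ ^ 4 * (Y ^ 2 * x) * (x ^ 3 / 2) := by
          rw [hBk2]
          field_simp
          ring
      _ ≤ 215296 / κ ^ 4 * (Y ^ 2 * x) * dl q (j, 0) :=
          mul_le_mul_of_nonneg_left hgj1 (by positivity)
  linarith

private theorem geoC_fin {κ Y x : ℝ} (hκ : 0 < κ) (hk2 : κ ≤ 1 / 2) (hY1 : 1 ≤ Y)
    (hx : 0 < x) :
    4 * (Y * x) + 215296 / κ ^ 4 * (Y ^ 2 * x) ≤ 250000 / κ ^ 4 * Y ^ 2 * x := by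
  have h1 : Y * x ≤ Y ^ 2 * x := by
    have := mul_le_mul_of_nonneg_right hY1 (by positivity : 0 ≤ Y * x)
    nlinarith
  have h2 : 4 ≤ 34704 / κ ^ 4 := by
    rw [le_div_iff₀ (by positivity)]
    have h3 : κ ^ 4 ≤ 1 := pow_le_one₀ hκ.le (by linarith)
    linarith
  have h4 : 4 * (Y ^ 2 * x) ≤ 34704 / κ ^ 4 * (Y ^ 2 * x) :=
    mul_le_mul_of_nonneg_right h2 (by positivity)
  have e : 250000 / κ ^ 4 * Y ^ 2 * x = 215296 / κ ^ 4 * (Y ^ 2 * x) +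
      34704 / κ ^ 4 * (Y ^ 2 * x) := by ring
  rw [e]
  linarith

private theorem geoC_one {κ : ℝ} (hκ : 0 < κ) : ∃ C0 : ℝ, 1 ≤ C0 ∧
    (κ ≤ 1 / 2 → 500000 / κ ^ 4 ≤ C0) ∧ ∀ (σ lam Y g0 : ℝ) (n : ℕ)
    (ω : ℤ × ℤ → ℝ), Par C0 κ σ lam Y g0 n → GoodE κ σ lam Y g0 n ω → ∀ P : ℤ × ℤ,
    lev P = -(n : ℤ) → |dev σ P| ≤ 4 * Y * (n : ℝ) ^ (2 / 3 : ℝ) + 1 →
    ∀ r : ℕ, g0 ≤ r →
    C0 * r ≤ n → ∀ i j : ℤ, |(i : ℝ)| ≤ 100 / κ * Y * (r : ℝ) ^ (2 / 3 : ℝ) →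
    |(j : ℝ)| ≤ 100 / κ * Y * (r : ℝ) ^ (2 / 3 : ℝ) →
    T ω P (i, 0) - T ω P (j, 0) ≤ ell σ (i - j) 0 +
      250000 / κ ^ 4 * Y ^ 2 * (r : ℝ) ^ (1 / 3 : ℝ) := by
  obtain ⟨Cp, hCp1, hpos⟩ := pos hκ
  refine ⟨max Cp (10 ^ 12 / κ ^ 6), hCp1.trans (le_max_left _ _), ?_, ?_⟩
  · intro hk
    refine le_trans ?_ (le_max_right _ _)
    rw [div_le_div_iff₀ (by positivity) (by positivity)]
    have h1 : κ ^ 2 ≤ 1 := by nlinarith
    have h2 : 0 < κ ^ 4 := by positivity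
    nlinarith
  intro σ lam Y g0 n ω hpar hgood P hPl hPd r hgr hrn i j hi hj
  have hparC := hpar
  obtain ⟨hs1, hs2, hY, hYl, hg0, hgn⟩ := hpar
  have hk2 : κ ≤ 1 / 2 := by linarith
  have hσ0 : 0 < σ := by linarith
  have hσ1 : σ < 1 := by linarith
  set C0 := max Cp (10 ^ 12 / κ ^ 6) with hC0
  have hC1 : 1 ≤ C0 := hCp1.trans (le_max_left _ _)
  have hCK : 10 ^ 12 / κ ^ 6 ≤ C0 := le_max_right _ _
  have hY1 : 1 ≤ Y := hC1.trans hY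
  have hlam : 1 / 2 ≤ lam := by linarith
  have hlam0 : 0 < lam := by linarith
  -- the constant `L`
  obtain ⟨L, hL⟩ : ∃ L : ℝ, L = 10 ^ 4 / κ ^ 2 := ⟨_, rfl⟩
  have hLκ : L * κ ^ 2 = 10 ^ 4 := by
    rw [hL]
    field_simp
  have hL0 : 0 < L := by rw [hL]; positivity
  have hL3 : L ^ 3 ≤ C0 := by
    refine le_trans (le_of_eq ?_) hCK
    rw [hL]
    ring
  have hL4 : 40000 ≤ L := by
    rw [hL, le_div_iff₀ (by positivity)]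
    have h1 : κ ^ 2 ≤ (1 / 2) ^ 2 := pow_le_pow_left₀ hκ.le hk2 2
    linarith only [h1]
  -- cube roots
  have hr0 : (0 : ℝ) ≤ (r : ℝ) := Nat.cast_nonneg r
  have hn0 : (0 : ℝ) ≤ (n : ℝ) := Nat.cast_nonneg n
  obtain ⟨hx3, hx2⟩ := geoC_rt hr0
  obtain ⟨hy3, hy2⟩ := geoC_rt hn0
  rw [hx2] at hi hj
  rw [hy2] at hPd
  obtain ⟨x, hx⟩ : ∃ x : ℝ, x = (r : ℝ) ^ (1 / 3 : ℝ) := ⟨_, rfl⟩
  obtain ⟨y, hy⟩ : ∃ y : ℝ, y = (n : ℝ) ^ (1 / 3 : ℝ) := ⟨_, rfl⟩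
  have hx0 : 0 ≤ x := by rw [hx]; exact Real.rpow_nonneg hr0 _
  have hy0 : 0 ≤ y := by rw [hy]; exact Real.rpow_nonneg hn0 _
  have hthird := fun {a : ℝ} (ha : 0 ≤ a) (h : a ≤ 8 * r) => geoC_third ha hr0 h
  have htwo := fun {a : ℝ} (ha : 0 ≤ a) (h : a ≤ 8 * r) => geoC_twothird ha hr0 h
  rw [← hx] at hx3 hx2 hi hj hthird htwo ⊢
  rw [← hy] at hy3 hy2 hPd
  have hxl : L * lam ≤ x := by
    refine le_of_pow_le_pow_left₀ (n := 3) (by norm_num) hx0 ?_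
    rw [hx3, mul_pow]
    have h1 : L ^ 3 * lam ^ 3 ≤ C0 * lam ^ 3 := mul_le_mul_of_nonneg_right hL3 (by positivity)
    linarith
  have hyx : L * x ≤ y := by
    refine le_of_pow_le_pow_left₀ (n := 3) (by norm_num) hy0 ?_
    rw [hy3, mul_pow, hx3]
    have h1 : L ^ 3 * (r : ℝ) ≤ C0 * r := mul_le_mul_of_nonneg_right hL3 hr0
    linarith
  obtain ⟨hx1, hxy, hB0, hBk, hYB⟩ := geoC_num hκ hk2 hY1 hlam hYl hx0 hy0 hL hLκ hL0 hL4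
    hxl hyx
  obtain ⟨hlyk2, hlyn, hly1⟩ := geoC_num2 hκ hk2 hY1 hlam hYl hx0 hy0 hL hLκ hL0 hL4
    hxl hyx hxy hx1
  have hxpos : 0 < x := by linarith
  have hypos : 0 < y := by linarith
  have hkinv : 2 ≤ 1 / κ := by
    rw [le_div_iff₀ hκ]
    linarith
  obtain ⟨B, hBdef⟩ : ∃ B : ℝ, B = 1 / κ * (Y * x ^ 2) := ⟨_, rfl⟩
  rw [← hBdef] at hBk hYB
  have hB1 : 2 ≤ B := by linarith
  have hBl := geoC_num3 hκ hk2 hY1 hYl hx0 (by linarith) hkinv hL hL0 hL4 hyx hBdef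
  have hx3pos : 0 < x ^ 3 := by positivity
  have hkx : κ * x ^ 3 ≤ x ^ 3 / 2 := by
    have := mul_le_mul_of_nonneg_right hk2 hx3pos.le
    linarith only [this]
  have hi' : |(i : ℝ)| ≤ 100 * B := by
    refine hi.trans (le_of_eq ?_)
    rw [hBdef]
    ring
  have hj' : |(j : ℝ)| ≤ 100 * B := by
    refine hj.trans (le_of_eq ?_)
    rw [hBdef]
    ring
  have hBx : 100 * B ≤ x ^ 3 / 100 := by linarith
  have hix : |(i : ℝ)| ≤ x ^ 3 / 100 := hi'.trans hBx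
  have hjx : |(j : ℝ)| ≤ x ^ 3 / 100 := hj'.trans hBx
  -- `lam` and `n`
  have hx3y : x ^ 3 ≤ y ^ 3 := pow_le_pow_left₀ hx0 hxy 3
  -- deviations
  have hdi : |dev σ (i, 0)| ≤ 101 * B := by
    have := geoC_dev hσ0 hσ1 i
    linarith
  have hdj : |dev σ (j, 0)| ≤ 101 * B := by
    have := geoC_dev hσ0 hσ1 j
    linarith
  have hPd' : |dev σ P| ≤ 5 * Y * y ^ 2 := by
    have h1 : (1 : ℝ) ≤ Y * y ^ 2 :=
      one_le_mul_of_one_le_of_one_le hY1 (one_le_pow₀ (by linarith))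
    linarith
  have hPd2 : |dev σ P| ≤ 10 * (lam * y ^ 2) := by
    have h4 := mul_le_mul_of_nonneg_right hYl (sq_nonneg y)
    linarith
  -- levels
  have hli : lev ((i, 0) : ℤ × ℤ) = i := by unfold lev; simp
  have hlj : lev ((j, 0) : ℤ × ℤ) = j := by unfold lev; simp
  have hdPi : dl P (i, 0) = n + i := by
    unfold dl
    rw [hli, hPl]
    push_cast
    ring
  rw [abs_le] at hix hjx
  have hdPi1 : y ^ 3 / 2 ≤ dl P (i, 0) := by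
    rw [hdPi, ← hy3]
    linarith
  have hdPi2 : 0 < dl P (i, 0) := by
    have : 0 < y ^ 3 := by positivity
    linarith
  have hC40 : 2 * (r : ℝ) ≤ n := by
    have h1 : (2 : ℝ) ≤ C0 := by
      have : (40000 : ℝ) ^ 3 ≤ L ^ 3 := pow_le_pow_left₀ (by norm_num) hL4 3
      linarith
    have h2 := mul_le_mul_of_nonneg_right h1 hr0
    linarith
  -- regions
  have hPR : P ∈ Rgn σ (20 * lam * (n : ℝ) ^ (2 / 3 : ℝ)) n := by
    unfold Rgn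
    rw [Set.mem_ofPred_eq, hPl, hy2]
    refine ⟨le_rfl, by omega, hPd2.trans ?_⟩
    have h1 : 0 ≤ lam * y ^ 2 := by positivity
    have h2 : 20 * lam * y ^ 2 = 20 * (lam * y ^ 2) := by ring
    rw [h2]
    linarith only [h1]
  have hireg : ∀ k : ℤ, |(k : ℝ)| ≤ 100 * B → ∀ c : ℝ, 1 ≤ c →
      (k, 0) ∈ Rgn σ (c * lam * (n : ℝ) ^ (2 / 3 : ℝ)) n := by
    intro k hk c hc
    have hk2 : |(k : ℝ)| ≤ n := by
      rw [← hy3]
      have : 0 ≤ y ^ 3 := by positivity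
      linarith
    rw [abs_le] at hk2
    have hk3 : -(n : ℤ) ≤ k := by exact_mod_cast hk2.1
    have hk4 : k ≤ (n : ℤ) := by exact_mod_cast hk2.2
    unfold Rgn
    rw [Set.mem_ofPred_eq, hy2]
    have hlk : lev ((k, 0) : ℤ × ℤ) = k := by unfold lev; simp
    rw [hlk]
    refine ⟨hk3, by omega, ?_⟩
    have h1 := geoC_dev hσ0 hσ1 k
    have h2 : lam * y ^ 2 ≤ c * lam * y ^ 2 := by
      have := mul_le_mul_of_nonneg_right hc (by linarith : (0 : ℝ) ≤ lam * y ^ 2)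
      linarith
    linarith
  have hcone : Cone (3 * κ / 4) P (i, 0) := by
    refine geoC_cone hs1 hs2 hdPi2 (by linarith) ?_
    have h1 : |dev σ (i, 0) - dev σ P| ≤ |dev σ (i, 0)| + |dev σ P| := abs_sub _ _
    have h2 : |dev σ (i, 0)| + |dev σ P| ≤ 11 * (lam * y ^ 2) := by linarith
    have h3 : (κ - 3 * κ / 4) * (y ^ 3 / 2) ≤ (κ - 3 * κ / 4) * dl P (i, 0) :=
      mul_le_mul_of_nonneg_left hdPi1 (by linarith)
    have h4 : 0 ≤ κ * y ^ 3 := by positivity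
    have h5 : (κ - 3 * κ / 4) * (y ^ 3 / 2) = κ * y ^ 3 / 8 := by ring
    linarith only [h1, h2, h3, h4, h5, hlyk2]
  have hgl : g0 ≤ dl P (i, 0) := by
    have h1 : x ^ 3 ≤ y ^ 3 / 2 := by
      rw [hx3, hy3]
      linarith
    linarith
  have hPv : P ≤ (i, 0) := hcone.1
  have hr1 : (1 : ℝ) ≤ r := by
    rw [← hx3]
    exact one_le_pow₀ (by linarith)
  have hrn' : r ≤ n := by
    have : (r : ℝ) ≤ n := by linarith
    exact_mod_cast this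
  have hri : -(r : ℤ) ≤ i := by
    have : (-(r : ℝ)) ≤ i := by
      rw [← hx3]
      linarith [hix.1]
    exact_mod_cast this
  obtain ⟨q, hql, hqv⟩ := exists_via ω hPv (l := -(r : ℤ)) (by rw [hPl]; omega)
    (by rw [hli]; exact hri)
  -- the point `q`
  have hgi : dl q (i, 0) = r + i := by
    unfold dl
    rw [hli, hql]
    push_cast
    ring
  have hgj : dl q (j, 0) = r + j := by
    unfold dl
    rw [hlj, hql]
    push_cast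
    ring
  have hgi1 : x ^ 3 / 2 ≤ dl q (i, 0) := by
    rw [hgi, ← hx3]
    linarith
  have hgj1 : x ^ 3 / 2 ≤ dl q (j, 0) := by
    rw [hgj, ← hx3]
    linarith
  have hgi2 : dl q (i, 0) ≤ 2 * x ^ 3 := by
    rw [hgi, ← hx3]
    linarith
  have hgj2 : dl q (j, 0) ≤ 2 * x ^ 3 := by
    rw [hgj, ← hx3]
    linarith
  have hmaxi : max (dl q (i, 0)) g0 ≤ 8 * r := by
    refine max_le ?_ ?_
    · rw [← hx3]
      linarith
    · linarith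
  have hmaxj : max (dl q (j, 0)) g0 ≤ 8 * r := by
    refine max_le ?_ ?_
    · rw [← hx3]
      linarith
    · linarith
  have hmi0 : 0 ≤ max (dl q (i, 0)) g0 := le_trans (by linarith) (le_max_left _ _)
  have hmj0 : 0 ≤ max (dl q (j, 0)) g0 := le_trans (by linarith) (le_max_left _ _)
  have hparP : Par Cp κ σ lam Y g0 n := by
    refine ⟨hs1, hs2, (le_max_left _ _).trans hY, hYl, ?_, hgn⟩
    exact (mul_le_mul_of_nonneg_right (le_max_left _ _) (by positivity)).trans hg0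
  have hq1 := (hpos σ lam Y g0 n ω hparP hgood P (i, 0) q hPR (hireg i hi' 20 (by norm_num))
    hcone hgl hqv).1
  have hsqY : √Y ≤ Y := by
    rw [Real.sqrt_le_left (by linarith)]
    exact le_self_pow₀ hY1 (by norm_num)
  have hsqY0 := Real.sqrt_nonneg Y
  have hq2 : 10 * √Y * (max (dl q (i, 0)) g0) ^ (2 / 3 : ℝ) ≤ 40 * (Y * x ^ 2) := by
    have h1 := htwo hmi0 hmaxi
    calc 10 * √Y * (max (dl q (i, 0)) g0) ^ (2 / 3 : ℝ) ≤ 10 * Y * (4 * x ^ 2) := by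
          apply mul_le_mul _ h1 (Real.rpow_nonneg hmi0 _) (by linarith)
          linarith
      _ = 40 * (Y * x ^ 2) := by ring
  have hqd : |dev σ q| ≤ 131 * B := by
    refine geoC_q (by linarith) hx0 hxy hypos (by linarith) hdPi1 ?_ hgi2 hdi hPd' hYB
      (hq1.trans hq2)
    rw [hgi, hdPi]
    linarith
  have hqR : q ∈ Rgn σ (40 * lam * (n : ℝ) ^ (2 / 3 : ℝ)) n := by
    unfold Rgn
    rw [Set.mem_ofPred_eq, hql, hy2]
    have h1 : 0 ≤ lam * y ^ 2 := by positivity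
    have h2 : 40 * lam * y ^ 2 = 40 * (lam * y ^ 2) := by ring
    refine ⟨by omega, by omega, ?_⟩
    rw [h2]
    linarith only [h1, hqd, hBl, hB1]
  have hDi : |dev σ (i, 0) - dev σ q| ≤ 232 * B := by
    have := abs_sub (dev σ (i, 0)) (dev σ q)
    linarith
  have hDj : |dev σ (j, 0) - dev σ q| ≤ 232 * B := by
    have := abs_sub (dev σ (j, 0)) (dev σ q)
    linarith
  have hconeq : ∀ k : ℤ, |dev σ (k, 0) - dev σ q| ≤ 232 * B → x ^ 3 / 2 ≤ dl q (k, 0) →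
      Cone (κ / 2) q (k, 0) := by
    intro k h1 h2
    refine geoC_cone hs1 hs2 (by linarith) (by linarith) (h1.trans ?_)
    have h3 : (κ - κ / 2) * (x ^ 3 / 2) ≤ (κ - κ / 2) * dl q (k, 0) :=
      mul_le_mul_of_nonneg_left h2 (by linarith)
    have h4 : 0 ≤ κ * x ^ 3 := by positivity
    linarith
  have hci := hconeq i hDi hgi1
  have hcj := hconeq j hDj hgj1
  have hcone4 : ∀ k : ℤ, Cone (κ / 2) q (k, 0) → x ^ 3 / 2 ≤ dl q (k, 0) →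
      Cone (κ / 4) q (k, 0) := by
    intro k h1 h2
    have h3 : 0 ≤ κ * dl q (k, 0) := mul_nonneg hκ.le (by linarith)
    exact ⟨h1.1, by linarith [h1.2.1], by linarith [h1.2.2]⟩
  have hFi := hgood.2 q hqR (i, 0) (hireg i hi' 40 (by norm_num)) (hcone4 i hci hgi1)
  have hFj := hgood.2 q hqR (j, 0) (hireg j hj' 40 (by norm_num)) (hcone4 j hcj hgj1)
  have hTi := hthird hmi0 hmaxi
  have hTj := hthird hmj0 hmaxj
  have hFi2 : T ω q (i, 0) ≤ muz q (i, 0) + 2 * (Y * x) := by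
    have h1 := (abs_le.1 hFi).2
    have h2 := mul_le_mul_of_nonneg_left hTi (by linarith : (0 : ℝ) ≤ Y)
    linarith
  have hFj2 : muz q (j, 0) - 2 * (Y * x) ≤ T ω q (j, 0) := by
    have h1 := (abs_le.1 hFj).1
    have h2 := mul_le_mul_of_nonneg_left hTj (by linarith : (0 : ℝ) ≤ Y)
    linarith
  have hinc := incr_le_of_via (v1 := (j, 0)) hqv hcj.1
  -- the shape function
  have hmi := geoC_mi hσ0 hσ1 hci.1
  have hmj := geoC_mj (Y := Y) hκ hs1 hs2 hxpos hcj hgj1 hDj hBdef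
  have hell : ell σ ((i : ℝ) - q.1) (-(q.2 : ℝ)) - ell σ ((j : ℝ) - q.1) (-(q.2 : ℝ)) =
      ell σ (i - j) 0 := by
    unfold ell
    ring
  have hfin := geoC_fin hκ hk2 hY1 hxpos
  linarith

theorem incr_bound {κ : ℝ} (hκ : 0 < κ) : ∃ C0 : ℝ, 1 ≤ C0 ∧ ∀ (σ lam Y g0 : ℝ) (n : ℕ)
    (ω : ℤ × ℤ → ℝ), Par C0 κ σ lam Y g0 n → GoodE κ σ lam Y g0 n ω → ∀ P P' : ℤ × ℤ,
    lev P = -(n : ℤ) → |dev σ P| ≤ 4 * Y * (n : ℝ) ^ (2 / 3 : ℝ) + 1 →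
    lev P' = -(n : ℤ) → |dev σ P'| ≤ 4 * Y * (n : ℝ) ^ (2 / 3 : ℝ) + 1 → ∀ r : ℕ, g0 ≤ r →
    C0 * r ≤ n → ∀ i j : ℤ, |(i : ℝ)| ≤ 100 / κ * Y * (r : ℝ) ^ (2 / 3 : ℝ) →
    |(j : ℝ)| ≤ 100 / κ * Y * (r : ℝ) ^ (2 / 3 : ℝ) →
    (T ω P (i, 0) - T ω P (j, 0)) + (T (rotE ω) P' (-i, 0) - T (rotE ω) P' (-j, 0)) ≤
      C0 * Y ^ 2 * (r : ℝ) ^ (1 / 3 : ℝ) := by
  obtain ⟨C0, h1, h2, h⟩ := geoC_one hκ
  refine ⟨C0, h1, ?_⟩
  intro σ lam Y g0 n ω hpar hgood P P' hP hP2 hP' hP2' r hr hrn i j hi hj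
  have hk : κ ≤ 1 / 2 := by
    have := hpar.1
    have := hpar.2.1
    linarith
  have a1 := h σ lam Y g0 n ω hpar hgood P hP hP2 r hr hrn i j hi hj
  have a2 := h σ lam Y g0 n (rotE ω) hpar (goodE_rot.mpr hgood) P' hP' hP2' r hr hrn (-i) (-j)
    (by push_cast; rw [abs_neg]; exact hi) (by push_cast; rw [abs_neg]; exact hj)
  have e : ell σ ((i : ℝ) - j) 0 + ell σ (((-i : ℤ) : ℝ) - ((-j : ℤ) : ℝ)) 0 = 0 := by
    unfold ell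
    push_cast
    ring
  have h3 : 500000 / κ ^ 4 * (Y ^ 2 * (r : ℝ) ^ (1 / 3 : ℝ)) ≤
      C0 * (Y ^ 2 * (r : ℝ) ^ (1 / 3 : ℝ)) :=
    mul_le_mul_of_nonneg_right (h2 hk)
      (mul_nonneg (sq_nonneg _) (Real.rpow_nonneg (Nat.cast_nonneg r) _))
  have e2 : 250000 / κ ^ 4 * Y ^ 2 * (r : ℝ) ^ (1 / 3 : ℝ) +
      250000 / κ ^ 4 * Y ^ 2 * (r : ℝ) ^ (1 / 3 : ℝ) =
      500000 / κ ^ 4 * (Y ^ 2 * (r : ℝ) ^ (1 / 3 : ℝ)) := by ring
  linarith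

private theorem geoC_PL {σ A : ℝ} (hA : 0 ≤ A) (n : ℕ) :
    lev (PLp σ A n) = -(n : ℤ) ∧ |dev σ (PLp σ A n)| ≤ A + 1 := by
  constructor
  · unfold lev PLp
    simp only
    ring
  · have h1 := Int.floor_le (-(σ * ((n : ℝ) + 1 / 2)) - A)
    have h2 := Int.lt_floor_add_one (-(σ * ((n : ℝ) + 1 / 2)) - A)
    unfold dev lev PLp
    simp only
    push_cast
    rw [abs_le]
    constructor
    · linarith
    · linarith

private theorem geoC_PR {σ A : ℝ} (hA : 0 ≤ A) (n : ℕ) :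
    lev (PRp σ A n) = -(n : ℤ) ∧ |dev σ (PRp σ A n)| ≤ A + 1 := by
  constructor
  · unfold lev PRp
    simp only
    ring
  · have h1 := Int.le_ceil (-(σ * ((n : ℝ) + 1 / 2)) + A)
    have h2 := Int.ceil_lt_add_one (-(σ * ((n : ℝ) + 1 / 2)) + A)
    unfold dev lev PRp
    simp only
    push_cast
    rw [abs_le]
    constructor
    · linarith
    · linarith

/-- the bound for the profiles -/
theorem incr_boundF {κ : ℝ} (hκ : 0 < κ) : ∃ C0 : ℝ, 1 ≤ C0 ∧ ∀ (σ lam Y g0 A : ℝ) (n : ℕ)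
    (ω : ℤ × ℤ → ℝ), Par C0 κ σ lam Y g0 n → GoodE κ σ lam Y g0 n ω → 0 ≤ A →
    A ≤ 4 * Y * (n : ℝ) ^ (2 / 3 : ℝ) → ∀ r : ℕ, g0 ≤ r → C0 * r ≤ n → ∀ i j : ℤ,
    |(i : ℝ)| ≤ 100 / κ * Y * (r : ℝ) ^ (2 / 3 : ℝ) →
    |(j : ℝ)| ≤ 100 / κ * Y * (r : ℝ) ^ (2 / 3 : ℝ) →
    |FLp σ A n ω i - FLp σ A n ω j| ≤ C0 * Y ^ 2 * (r : ℝ) ^ (1 / 3 : ℝ) ∧
    |FRp σ A n ω i - FRp σ A n ω j| ≤ C0 * Y ^ 2 * (r : ℝ) ^ (1 / 3 : ℝ) := by
  obtain ⟨C0, h1, h⟩ := incr_bound hκ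
  refine ⟨C0, h1, ?_⟩
  intro σ lam Y g0 A n ω hpar hgood hA hA2 r hr hrn i j hi hj
  obtain ⟨l1, l2⟩ := geoC_PL (σ := σ) hA n
  obtain ⟨r1, r2⟩ := geoC_PR (σ := σ) hA n
  have l3 : |dev σ (PLp σ A n)| ≤ 4 * Y * (n : ℝ) ^ (2 / 3 : ℝ) + 1 := by linarith
  have r3 : |dev σ (PRp σ A n)| ≤ 4 * Y * (n : ℝ) ^ (2 / 3 : ℝ) + 1 := by linarith
  have a1 := h σ lam Y g0 n ω hpar hgood _ _ l1 l3 r1 r3 r hr hrn i j hi hj
  have a2 := h σ lam Y g0 n ω hpar hgood _ _ l1 l3 r1 r3 r hr hrn j i hj hi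
  have a3 := h σ lam Y g0 n ω hpar hgood _ _ r1 r3 l1 l3 r hr hrn i j hi hj
  have a4 := h σ lam Y g0 n ω hpar hgood _ _ r1 r3 l1 l3 r hr hrn j i hj hi
  unfold FLp FRp
  rw [abs_le, abs_le]
  refine ⟨⟨?_, ?_⟩, ⟨?_, ?_⟩⟩
  · linarith
  · linarith
  · linarith
  · linarith

end BGE
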