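import Pool.Agent.BGE.ParJ
import Pool.Agent.BGE.GeoC

/-!
BGE / F4. Local increments of the profiles (crude, deterministic).

`incr_local`: let `CrE κ lam m ω`, `8 n ≤ m`, `0 ≤ A ≤ 4 lam n^{2/3}`, `|i|, |i'| ≤ lam n^{2/3}/8`,
`|i - i'| ≤ ρ^{2/3}`, `C0 lam³ ≤ ρ`, `C0 ρ ≤ n`. Then
`|FLp σ A n ω i - FLp σ A n ω i'| ≤ C0 lam² ρ^{1/3}`, the same for `FRp`.
Proof. This is `incr_bound` centred at `(i, 0)` instead of `(0, 0)`. The proof of `incr_bound` in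
`GeoC` can be repeated (see its header): let `q` be on a geodesic from `P` to `(i,0)` at the level
`i - ρ`, so `g = ρ`, `l = n + i`; by `pos` (with `Y = 2 lam`) or directly by `cs`
`|dev q - dev (i,0)| ≤ (ρ/l) (|dev P| + |dev (i,0)|) + 10 √(2 lam) ρ^{2/3} ≤ C lam ρ^{2/3}`, so
`T ω P (i,0) - T ω P (i',0) ≤ T ω q (i,0) - T ω q (i',0) ≤ muz q (i,0) - muz q (i',0) + C lam ρ^{1/3}
 ≤ ell σ (i - i') 0 + C lam² ρ^{1/3}`, and the same for the rotated environment with `-i, -i'`; the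
`ell` terms cancel. (Alternatively: apply `incr_bound` type estimates to the translated
environment.)
-/

namespace BGE

private theorem fi_pow {x : ℝ} (hx : 0 ≤ x) : x ^ (1 / 3 : ℝ) * x ^ (2 / 3 : ℝ) = x := by
  rw [← Real.rpow_add_of_nonneg hx (by norm_num) (by norm_num)]
  norm_num

private theorem fi_third {x c : ℝ} (hc : 0 ≤ c) (h : c ^ 3 ≤ x) : c ≤ x ^ (1 / 3 : ℝ) := by
  have h4 : (c ^ 3 : ℝ) ^ (1 / 3 : ℝ) = c := by
    rw [← Real.rpow_natCast, ← Real.rpow_mul hc]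
    norm_num
  calc c = (c ^ 3 : ℝ) ^ (1 / 3 : ℝ) := h4.symm
    _ ≤ x ^ (1 / 3 : ℝ) := Real.rpow_le_rpow (by positivity) h (by norm_num)

private theorem fi_cone {κ c σ : ℝ} (hc : 0 ≤ c) (h0 : κ ≤ σ) (h1 : σ ≤ 1 - κ) {u v : ℤ × ℤ}
    (hl : 0 ≤ dl u v) (h : |dev σ v - dev σ u| ≤ (κ - c) * dl u v) : Cone c u v := by
  have e1 : ((v.1 - u.1 : ℤ) : ℝ) = σ * dl u v + (dev σ v - dev σ u) := by
    unfold dl dev
    push_cast
    ring
  have e2 : ((v.2 - u.2 : ℤ) : ℝ) = (1 - σ) * dl u v - (dev σ v - dev σ u) := by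
    unfold dl dev lev
    push_cast
    ring
  rw [abs_le] at h
  have h3 : c * dl u v ≤ ((v.1 - u.1 : ℤ) : ℝ) := by
    rw [e1]
    have := mul_le_mul_of_nonneg_right h0 hl
    linarith [h.1]
  have h4 : c * dl u v ≤ ((v.2 - u.2 : ℤ) : ℝ) := by
    rw [e2]
    have := mul_le_mul_of_nonneg_right (show κ ≤ 1 - σ by linarith) hl
    linarith [h.2]
  have h5 : 0 ≤ c * dl u v := mul_nonneg hc hl
  refine ⟨?_, h3, h4⟩
  have h6 : (0 : ℤ) ≤ v.1 - u.1 := by exact_mod_cast h5.trans h3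
  have h7 : (0 : ℤ) ≤ v.2 - u.2 := by exact_mod_cast h5.trans h4
  exact Prod.mk_le_mk.2 ⟨by omega, by omega⟩

private theorem fi_devPL (σ : ℝ) {A : ℝ} (hA : 0 ≤ A) (n : ℕ) :
    lev (PLp σ A n) = -(n : ℤ) ∧ |dev σ (PLp σ A n)| ≤ A + 1 := by
  have h1 : lev (PLp σ A n) = -(n : ℤ) := by
    unfold lev PLp
    simp
  refine ⟨h1, ?_⟩
  unfold dev
  rw [h1]
  unfold PLp
  have h2 := Int.floor_le (-(σ * ((n : ℝ) + 1 / 2)) - A)
  have h3 := Int.lt_floor_add_one (-(σ * ((n : ℝ) + 1 / 2)) - A)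
  push_cast
  rw [abs_le]
  constructor <;> nlinarith

private theorem fi_devPR (σ : ℝ) {A : ℝ} (hA : 0 ≤ A) (n : ℕ) :
    lev (PRp σ A n) = -(n : ℤ) ∧ |dev σ (PRp σ A n)| ≤ A + 1 := by
  have h1 : lev (PRp σ A n) = -(n : ℤ) := by
    unfold lev PRp
    simp
  refine ⟨h1, ?_⟩
  unfold dev
  rw [h1]
  unfold PRp
  have h2 := Int.le_ceil (-(σ * ((n : ℝ) + 1 / 2)) + A)
  have h3 := Int.ceil_lt_add_one (-(σ * ((n : ℝ) + 1 / 2)) + A)
  push_cast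
  rw [abs_le]
  constructor <;> nlinarith

/-- one side -/
private theorem fi_side {κ : ℝ} (hκ : 0 < κ) : ∃ C0 C1 : ℝ, 1 ≤ C0 ∧ 2 ≤ C1 ∧
    ∀ (σ h lam : ℝ) (n m ρ : ℕ) (ω : ℤ × ℤ → ℝ) (P : ℤ × ℤ) (i i' : ℤ), HP C1 h lam → κ ≤ σ →
    σ ≤ 1 - κ → 8 * n ≤ m → CrE κ lam m ω → lev P = -(n : ℤ) →
    |dev σ P| ≤ 4 * lam * (n : ℝ) ^ (2 / 3 : ℝ) + 1 →
    |(i : ℝ)| ≤ lam * (n : ℝ) ^ (2 / 3 : ℝ) / 8 → |(i' : ℝ)| ≤ lam * (n : ℝ) ^ (2 / 3 : ℝ) / 8 →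
    |(i : ℝ) - i'| ≤ (ρ : ℝ) ^ (2 / 3 : ℝ) → C0 * lam ^ 3 ≤ ρ → C0 * ρ ≤ n →
    T ω P (i, 0) - T ω P (i', 0) ≤
      ell σ ((i : ℝ) - i') 0 + (3844 / κ ^ 2 + 6) * lam ^ 2 * (ρ : ℝ) ^ (1 / 3 : ℝ) := by
  obtain ⟨Cp, hCp1, hpos⟩ := pos hκ
  obtain ⟨Cg, hCg1, hgood⟩ := good_crude hκ
  obtain ⟨Cq, hCq1, hpar⟩ := par_crude hκ (le_max_of_le_left hCp1 : (1 : ℝ) ≤ max Cp Cg)
  refine ⟨max (max Cp Cg) ((300 / κ) ^ 3), max Cg Cq, ?_, le_max_of_le_left hCg1, ?_⟩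
  · exact le_max_of_le_left (le_max_of_le_left hCp1)
  intro σ h lam n m ρ ω P i i' hHP hσ0 hσ1 hm hCr hlP hdP hi hi' hii hρ hn
  have hκ1 : κ ≤ 1 / 2 := by linarith
  set C0 := max (max Cp Cg) ((300 / κ) ^ 3) with hC0
  have hC0a : max Cp Cg ≤ C0 := le_max_left _ _
  have hC0b : (300 / κ) ^ 3 ≤ C0 := le_max_right _ _
  have hC01 : 1 ≤ C0 := (le_max_of_le_left hCp1).trans hC0a
  have hHPg : HP Cg h lam := hHP.mono (le_max_left _ _)
  have hHPq : HP Cq h lam := hHP.mono (le_max_right _ _)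
  have hlam1 : 1 ≤ lam := by
    have := (hp_basic hCg1 hHPg).1
    linarith
  have hlam0 : 0 < lam := by linarith
  have hl3 : 0 < lam ^ 3 := by positivity
  -- the scale ρ
  have hρ1 : (1 : ℝ) ≤ ρ := by
    have h1 : (1 : ℝ) ≤ lam ^ 3 := one_le_pow₀ hlam1
    calc (1 : ℝ) ≤ C0 * lam ^ 3 := one_le_mul_of_one_le_of_one_le hC01 h1
      _ ≤ ρ := hρ
  have hρ0 : (0 : ℝ) ≤ ρ := by linarith
  have hn1 : (1 : ℝ) ≤ n := by
    calc (1 : ℝ) ≤ C0 * ρ := one_le_mul_of_one_le_of_one_le hC01 hρ1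
      _ ≤ n := hn
  have hn0 : (0 : ℝ) ≤ n := by linarith
  have hρn : (ρ : ℝ) ≤ n := by
    calc (ρ : ℝ) ≤ C0 * ρ := le_mul_of_one_le_left hρ0 hC01
      _ ≤ n := hn
  set r3 := (ρ : ℝ) ^ (1 / 3 : ℝ) with hr3
  set r23 := (ρ : ℝ) ^ (2 / 3 : ℝ) with hr23
  set n3 := (n : ℝ) ^ (1 / 3 : ℝ) with hn3
  set n23 := (n : ℝ) ^ (2 / 3 : ℝ) with hn23
  have hrr : r3 * r23 = ρ := fi_pow hρ0
  have hnn : n3 * n23 = n := fi_pow hn0
  have hr31 : 1 ≤ r3 := Real.one_le_rpow hρ1 (by norm_num)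
  have hr231 : 1 ≤ r23 := Real.one_le_rpow hρ1 (by norm_num)
  have hn231 : 1 ≤ n23 := Real.one_le_rpow hn1 (by norm_num)
  have hr3n3 : r3 ≤ n3 := Real.rpow_le_rpow hρ0 hρn (by norm_num)
  have hr23n23 : r23 ≤ n23 := Real.rpow_le_rpow hρ0 hρn (by norm_num)
  have hk300 : (300 / κ) ^ 3 * lam ^ 3 ≤ ρ := by
    calc (300 / κ) ^ 3 * lam ^ 3 ≤ C0 * lam ^ 3 := mul_le_mul_of_nonneg_right hC0b hl3.le
      _ ≤ ρ := hρ
  have hr3l : 300 / κ * lam ≤ r3 := by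
    apply fi_third (by positivity)
    rw [mul_pow]
    exact hk300
  have hlr : lam * r23 ≤ κ / 300 * ρ := by
    have h1 : 300 / κ * lam * r23 ≤ ρ := by
      rw [← hrr]
      exact mul_le_mul_of_nonneg_right hr3l (by linarith)
    have h2 : lam * r23 = κ / 300 * (300 / κ * lam * r23) := by
      field_simp
    rw [h2]
    exact mul_le_mul_of_nonneg_left h1 (by positivity)
  have hln : lam * n23 ≤ κ / 300 * n := by
    have h0 : 300 / κ * lam ≤ n3 := hr3l.trans hr3n3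
    have h1 : 300 / κ * lam * n23 ≤ n := by
      rw [← hnn]
      exact mul_le_mul_of_nonneg_right h0 (by linarith)
    have h2 : lam * n23 = κ / 300 * (300 / κ * lam * n23) := by
      field_simp
    rw [h2]
    exact mul_le_mul_of_nonneg_left h1 (by positivity)
  have hκn : κ * n ≤ 1 / 2 * n := mul_le_mul_of_nonneg_right hκ1 hn0
  have hκρ : κ * ρ ≤ 1 / 2 * ρ := mul_le_mul_of_nonneg_right hκ1 hρ0
  have hln1 : lam * n23 ≤ n / 600 := by linarith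
  have hlr1 : lam * r23 ≤ ρ / 600 := by linarith
  have hln2 : 1 ≤ lam * n23 := one_le_mul_of_one_le_of_one_le hlam1 hn231
  have hlr2 : 1 ≤ lam * r23 := one_le_mul_of_one_le_of_one_le hlam1 hr231
  have hr23l : r23 ≤ lam * r23 := le_mul_of_one_le_left (by linarith) hlam1
  -- parameters
  set g0 := max Cp Cg * lam ^ 3 with hg0
  have hg0ρ : g0 ≤ ρ := (mul_le_mul_of_nonneg_right hC0a hl3.le).trans hρ
  have hg0n : g0 ≤ n := hg0ρ.trans hρn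
  have hPar := hpar σ h lam n hHPq hσ0 hσ1 hg0n
  have hPar' : Par Cp κ σ lam (2 * lam) g0 n := by
    obtain ⟨a1, a2, a3, a4, a5, a6⟩ := hPar
    exact ⟨a1, a2, (le_max_left _ _).trans a3, a4,
      (mul_le_mul_of_nonneg_right (le_max_left _ _) hl3.le).trans a5, a6⟩
  have hGood : GoodE κ σ lam (2 * lam) g0 n ω :=
    hgood (max Cp Cg) σ h lam n m ω (le_max_right _ _) hHPg hσ0 hσ1 hg0n (by omega) hCr
  -- the points
  have hdi : ∀ j : ℤ, dev σ (j, 0) = (1 - σ) * j + σ / 2 := by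
    intro j
    unfold dev lev
    push_cast
    ring
  have hσ01 : 0 < σ := by linarith
  have hσ11 : σ < 1 := by linarith
  have hdi' : ∀ j : ℤ, |(j : ℝ)| ≤ lam * n23 / 8 → |dev σ (j, 0)| ≤ lam * n23 / 8 + 1 / 2 := by
    intro j hj
    rw [hdi]
    have h1 : |(1 - σ) * (j : ℝ) + σ / 2| ≤ |(1 - σ) * (j : ℝ)| + |σ / 2| := abs_add_le _ _
    rw [abs_mul, abs_of_nonneg (by linarith : (0 : ℝ) ≤ 1 - σ),
      abs_of_nonneg (by linarith : (0 : ℝ) ≤ σ / 2)] at h1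
    have h2 : (1 - σ) * |(j : ℝ)| ≤ 1 * |(j : ℝ)| :=
      mul_le_mul_of_nonneg_right (by linarith) (abs_nonneg _)
    linarith
  have hdl : ∀ j : ℤ, dl P (j, 0) = n + j := by
    intro j
    unfold dl
    rw [hlP]
    unfold lev
    push_cast
    ring
  have hia := abs_le.1 hi
  have hia' := abs_le.1 hi'
  have hiia := abs_le.1 hii
  have hl : (n : ℝ) / 2 ≤ dl P (i, 0) := by
    rw [hdl]
    linarith [hia.1]
  have hl0 : 0 < dl P (i, 0) := by linarith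
  have hPR : P ∈ Rgn σ (20 * lam * n23) n := by
    refine ⟨by rw [hlP], by rw [hlP]; omega, hdP.trans ?_⟩
    linarith
  have hilev : ∀ j : ℤ, |(j : ℝ)| ≤ lam * n23 / 8 → -(n : ℤ) ≤ j ∧ j ≤ n + 1 := by
    intro j hj
    rw [abs_le] at hj
    have h1 : (-(n : ℝ)) ≤ j := by linarith [hj.1]
    have h2 : (j : ℝ) ≤ n + 1 := by linarith [hj.2]
    constructor
    · exact_mod_cast h1
    · exact_mod_cast h2
  have hvR : ((i, 0) : ℤ × ℤ) ∈ Rgn σ (20 * lam * n23) n := by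
    obtain ⟨h1, h2⟩ := hilev i hi
    refine ⟨by unfold lev; simpa using h1, by unfold lev; simpa using h2, (hdi' i hi).trans ?_⟩
    linarith
  have hsum : |dev σ (i, 0)| + |dev σ P| ≤ 6 * (lam * n23) := by
    have h1 := hdi' i hi
    linarith
  have hcone : Cone (3 * κ / 4) P (i, 0) := by
    refine fi_cone (by positivity) hσ0 hσ1 hl0.le ?_
    have h1 : |dev σ (i, 0) - dev σ P| ≤ |dev σ (i, 0)| + |dev σ P| := abs_sub _ _
    have h2 : (κ - 3 * κ / 4) * dl P (i, 0) = κ / 4 * dl P (i, 0) := by ring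
    rw [h2]
    have h3 : κ / 4 * (n / 2) ≤ κ / 4 * dl P (i, 0) :=
      mul_le_mul_of_nonneg_left hl (by positivity)
    have h4 : 6 * (lam * n23) ≤ κ / 4 * (n / 2) := by
      have : 0 ≤ κ * n := by positivity
      linarith
    linarith
  -- the point q
  have hle : (P : ℤ × ℤ) ≤ (i, 0) := hcone.1
  have hρ600 : (ρ : ℝ) ≤ n / 600 := by
    have h300 : (600 : ℝ) ≤ 300 / κ := by
      rw [le_div_iff₀ hκ]
      linarith
    have h27 : (600 : ℝ) ≤ (300 / κ) ^ 3 := by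
      calc (600 : ℝ) ≤ 300 / κ := h300
        _ = (300 / κ) ^ 1 := (pow_one _).symm
        _ ≤ (300 / κ) ^ 3 := pow_le_pow_right₀ (by linarith) (by norm_num)
    have h28 : 600 * (ρ : ℝ) ≤ n := by
      calc 600 * (ρ : ℝ) ≤ C0 * ρ := mul_le_mul_of_nonneg_right (h27.trans hC0b) hρ0
        _ ≤ n := hn
    linarith
  have hρz : (-(n : ℤ)) ≤ i - ρ := by
    have h1 : (-(n : ℝ)) ≤ (i : ℝ) - ρ := by linarith [hia.1]
    exact_mod_cast h1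
  obtain ⟨q, hql, hqv⟩ := exists_via ω hle (l := i - ρ) (by rw [hlP]; exact hρz)
    (by unfold lev; simp)
  have hdqv : dl q (i, 0) = ρ := by
    unfold dl
    rw [hql]
    unfold lev
    push_cast
    ring
  have hdqv' : dl q (i', 0) = ρ + (i' - i) := by
    unfold dl
    rw [hql]
    unfold lev
    push_cast
    ring
  have hp := (hpos σ lam (2 * lam) g0 n ω hPar' hGood P (i, 0) q hPR hvR hcone
    (by linarith) hqv).1
  rw [hdqv, max_eq_left hg0ρ] at hp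
  have hsq : √(2 * lam) ≤ 3 / 2 * lam := by
    rw [Real.sqrt_le_left (by positivity)]
    have : lam ≤ lam * lam := le_mul_of_one_le_left hlam0.le hlam1
    linarith [show (3 / 2 * lam) ^ 2 = 9 / 4 * (lam * lam) by ring]
  have hfrac : (ρ : ℝ) / dl P (i, 0) * (|dev σ (i, 0)| + |dev σ P|) ≤ 12 * (lam * r23) := by
    rw [div_mul_eq_mul_div, div_le_iff₀ hl0]
    have h1 : (ρ : ℝ) * (|dev σ (i, 0)| + |dev σ P|) ≤ ρ * (6 * (lam * n23)) :=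
      mul_le_mul_of_nonneg_left hsum hρ0
    have h2 : (ρ : ℝ) * n23 ≤ r23 * n := by
      calc (ρ : ℝ) * n23 = r23 * (r3 * n23) := by rw [← hrr]; ring
        _ ≤ r23 * (n3 * n23) := mul_le_mul_of_nonneg_left
          (mul_le_mul_of_nonneg_right hr3n3 (by linarith)) (by linarith)
        _ = r23 * n := by rw [hnn]
    have h3 : (ρ : ℝ) * (6 * (lam * n23)) ≤ 6 * (lam * r23) * n := by
      calc (ρ : ℝ) * (6 * (lam * n23)) = 6 * lam * (ρ * n23) := by ring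
        _ ≤ 6 * lam * (r23 * n) := mul_le_mul_of_nonneg_left h2 (by positivity)
        _ = _ := by ring
    have h4 : 6 * (lam * r23) * n ≤ 12 * (lam * r23) * dl P (i, 0) := by
      have : 12 * (lam * r23) * (n / 2) ≤ 12 * (lam * r23) * dl P (i, 0) :=
        mul_le_mul_of_nonneg_left hl (by positivity)
      linarith
    linarith
  have hdq : |dev σ (i, 0) - dev σ q| ≤ 27 * (lam * r23) := by
    have e1 : dev σ (i, 0) - dev σ q = -(dev σ q - (1 - ρ / dl P (i, 0)) * dev σ (i, 0) -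
        ρ / dl P (i, 0) * dev σ P) + ρ / dl P (i, 0) * (dev σ (i, 0) - dev σ P) := by ring
    rw [e1]
    refine (abs_add_le _ _).trans ?_
    rw [abs_neg, abs_mul, abs_of_nonneg (div_nonneg hρ0 hl0.le)]
    have h1 : (ρ : ℝ) / dl P (i, 0) * |dev σ (i, 0) - dev σ P| ≤
        ρ / dl P (i, 0) * (|dev σ (i, 0)| + |dev σ P|) :=
      mul_le_mul_of_nonneg_left (abs_sub _ _) (div_nonneg hρ0 hl0.le)
    have h2 : 10 * √(2 * lam) * r23 ≤ 15 * (lam * r23) := by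
      calc 10 * √(2 * lam) * r23 ≤ 10 * (3 / 2 * lam) * r23 :=
            mul_le_mul_of_nonneg_right (mul_le_mul_of_nonneg_left hsq (by norm_num))
              (by linarith)
        _ = _ := by ring
    linarith
  have hdq' : |dev σ (i', 0) - dev σ q| ≤ 31 * (lam * r23) := by
    have e1 : dev σ (i', 0) - dev σ q = (dev σ (i, 0) - dev σ q) - (1 - σ) * (i - i') := by
      rw [hdi, hdi]
      ring
    rw [e1]
    refine (abs_sub _ _).trans ?_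
    rw [abs_mul, abs_of_nonneg (by linarith : (0 : ℝ) ≤ 1 - σ)]
    have h1 : (1 - σ) * |(i : ℝ) - i'| ≤ 1 * r23 :=
      mul_le_mul (by linarith) hii (abs_nonneg _) (by norm_num)
    linarith
  have hρ2 : (ρ : ℝ) / 2 ≤ dl q (i', 0) := by
    rw [hdqv']
    linarith [hiia.2]
  have hρ2' : dl q (i', 0) ≤ 2 * ρ := by
    rw [hdqv']
    linarith [hiia.1]
  have hc1 : Cone (κ / 4) q (i, 0) := by
    refine fi_cone (by positivity) hσ0 hσ1 (by rw [hdqv]; exact hρ0) (hdq.trans ?_)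
    rw [hdqv]
    have : 0 ≤ κ * ρ := by positivity
    linarith
  have hc2 : Cone (κ / 2) q (i', 0) := by
    refine fi_cone (by positivity) hσ0 hσ1 (by linarith) (hdq'.trans ?_)
    have h1 : (κ - κ / 2) * (ρ / 2) ≤ (κ - κ / 2) * dl q (i', 0) :=
      mul_le_mul_of_nonneg_left hρ2 (by linarith)
    have : 0 ≤ κ * ρ := by positivity
    linarith
  have hc3 : Cone (κ / 4) q (i', 0) := by
    refine ⟨hc2.1, le_trans ?_ hc2.2.1, le_trans ?_ hc2.2.2⟩ <;>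
    · refine mul_le_mul_of_nonneg_right (by linarith) (by linarith)
  -- membership in the wide parallelogram
  have hqR : q ∈ Rgn σ (40 * lam * n23) n := by
    have h1 := hdi' i hi
    have h2 : |dev σ q| ≤ |dev σ (i, 0)| + |dev σ (i, 0) - dev σ q| := by
      have := abs_sub_abs_le_abs_sub (dev σ q) (dev σ (i, 0))
      rw [abs_sub_comm] at this
      linarith
    have h3 : lam * r23 ≤ lam * n23 := mul_le_mul_of_nonneg_left hr23n23 hlam0.le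
    refine ⟨by rw [hql]; exact hρz, ?_, ?_⟩
    · rw [hql]
      have := (hilev i hi).2
      omega
    · linarith
  have hjR : ∀ j : ℤ, |(j : ℝ)| ≤ lam * n23 / 8 → ((j, 0) : ℤ × ℤ) ∈ Rgn σ (40 * lam * n23) n := by
    intro j hj
    obtain ⟨h1, h2⟩ := hilev j hj
    refine ⟨by unfold lev; simpa using h1, by unfold lev; simpa using h2, (hdi' j hj).trans ?_⟩
    linarith
  have hF := hGood.2
  have hF1 := hF q hqR (i, 0) (hjR i hi) hc1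
  have hF2 := hF q hqR (i', 0) (hjR i' hi') hc3
  rw [hdqv, max_eq_left hg0ρ] at hF1
  have hF2' : |T ω q (i', 0) - muz q (i', 0)| ≤ 4 * lam * r3 := by
    refine hF2.trans ?_
    have h1 : (max (dl q (i', 0)) g0) ^ (1 / 3 : ℝ) ≤ 2 * r3 := by
      have h2 : max (dl q (i', 0)) g0 ≤ 8 * ρ := max_le (by linarith) (by linarith)
      have h3 : 0 ≤ max (dl q (i', 0)) g0 := le_max_of_le_left (by linarith)
      refine (Real.rpow_le_rpow h3 h2 (by norm_num)).trans ?_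
      rw [Real.mul_rpow (by norm_num) hρ0]
      have h4 : (8 : ℝ) ^ (1 / 3 : ℝ) = 2 := by
        rw [show (8 : ℝ) = 2 ^ (3 : ℝ) by norm_num, ← Real.rpow_mul (by norm_num)]
        norm_num
      rw [h4]
    calc 2 * lam * (max (dl q (i', 0)) g0) ^ (1 / 3 : ℝ) ≤ 2 * lam * (2 * r3) :=
          mul_le_mul_of_nonneg_left h1 (by positivity)
      _ = _ := by ring
  have hvia := incr_le_of_via hqv hc2.1
  -- the shape function
  have hnq : ∀ v : ℤ × ℤ, q ≤ v → 0 ≤ ((v.1 - q.1 : ℤ) : ℝ) ∧ 0 ≤ ((v.2 - q.2 : ℤ) : ℝ) := by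
    intro v hv
    have h1 : q.1 ≤ v.1 := hv.1
    have h2 : q.2 ≤ v.2 := hv.2
    constructor
    · have : (0 : ℤ) ≤ v.1 - q.1 := by omega
      exact_mod_cast this
    · have : (0 : ℤ) ≤ v.2 - q.2 := by omega
      exact_mod_cast this
  have hmu1 : muz q (i, 0) ≤ ell σ ((i - q.1 : ℤ) : ℝ) ((0 - q.2 : ℤ) : ℝ) := by
    obtain ⟨h1, h2⟩ := hnq _ hc1.1
    exact mu_le_ell hσ01 hσ11 h1 h2
  have hab : ((i' - q.1 : ℤ) : ℝ) + ((0 - q.2 : ℤ) : ℝ) = dl q (i', 0) := by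
    unfold dl lev
    push_cast
    ring
  have hdd : ((i' - q.1 : ℤ) : ℝ) - σ * (((i' - q.1 : ℤ) : ℝ) + ((0 - q.2 : ℤ) : ℝ)) =
      dev σ (i', 0) - dev σ q := by
    unfold dev lev
    push_cast
    ring
  have hmu2 : ell σ ((i' - q.1 : ℤ) : ℝ) ((0 - q.2 : ℤ) : ℝ) - muz q (i', 0) ≤
      3844 / κ ^ 2 * lam ^ 2 * r3 := by
    have h1 : 0 < ((i' - q.1 : ℤ) : ℝ) + ((0 - q.2 : ℤ) : ℝ) := by
      rw [hab]
      linarith
    have h2 := ell_sub_mu_le hκ hσ0 hσ1 h1 (by rw [hab]; exact hc2.2.1)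
      (by rw [hab]; exact hc2.2.2)
    rw [hdd, hab] at h2
    refine h2.trans ?_
    have hdl0 : 0 < dl q (i', 0) := by linarith
    rw [div_le_iff₀ hdl0]
    have h3 : (dev σ (i', 0) - dev σ q) ^ 2 ≤ (31 * (lam * r23)) ^ 2 := by
      rw [← sq_abs]
      exact pow_le_pow_left₀ (abs_nonneg _) hdq' 2
    have h4 : (31 * (lam * r23)) ^ 2 = 961 * lam ^ 2 * (r23 * r23) := by ring
    have h5 : r23 * r23 = r3 * ρ := by
      rw [hr23, hr3, ← Real.rpow_add_of_nonneg hρ0 (by norm_num) (by norm_num)]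
      nth_rewrite 3 [← Real.rpow_one (ρ : ℝ)]
      rw [← Real.rpow_add_of_nonneg hρ0 (by norm_num) (by norm_num)]
      norm_num
    have h6 : 2 / κ ^ 2 * (dev σ (i', 0) - dev σ q) ^ 2 ≤
        2 / κ ^ 2 * (961 * lam ^ 2 * (r3 * ρ)) := by
      rw [← h5, ← h4]
      exact mul_le_mul_of_nonneg_left h3 (by positivity)
    have h7 : 3844 / κ ^ 2 * lam ^ 2 * r3 * (ρ / 2) ≤ 3844 / κ ^ 2 * lam ^ 2 * r3 * dl q (i', 0) :=
      mul_le_mul_of_nonneg_left hρ2 (by positivity)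
    have h8 : 2 / κ ^ 2 * (961 * lam ^ 2 * (r3 * ρ)) = 3844 / κ ^ 2 * lam ^ 2 * r3 * (ρ / 2) := by
      ring
    linarith
  have hell : ell σ ((i - q.1 : ℤ) : ℝ) ((0 - q.2 : ℤ) : ℝ) -
      ell σ ((i' - q.1 : ℤ) : ℝ) ((0 - q.2 : ℤ) : ℝ) = ell σ ((i : ℝ) - i') 0 := by
    unfold ell
    push_cast
    ring
  have hf1 := (abs_le.1 hF1).2
  have hf2 := (abs_le.1 hF2').1
  have hlast : 2 * lam * r3 + 4 * lam * r3 ≤ 6 * lam ^ 2 * r3 := by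
    have h1 : lam * r3 ≤ lam ^ 2 * r3 := by
      have : lam ≤ lam ^ 2 := by
        rw [sq]
        exact le_mul_of_one_le_left hlam0.le hlam1
      exact mul_le_mul_of_nonneg_right this (by linarith)
    linarith
  have hexp : (3844 / κ ^ 2 + 6) * lam ^ 2 * r3 =
      3844 / κ ^ 2 * lam ^ 2 * r3 + 6 * lam ^ 2 * r3 := by ring
  rw [hexp]
  linarith

private theorem fi_half {κ : ℝ} (hκ : 0 < κ) : ∃ C0 C1 : ℝ, 1 ≤ C0 ∧ 2 ≤ C1 ∧
    ∀ (σ h lam A : ℝ) (n m ρ : ℕ) (ω : ℤ × ℤ → ℝ) (i i' : ℤ), HP C1 h lam → κ ≤ σ → σ ≤ 1 - κ →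
    8 * n ≤ m → CrE κ lam m ω → 0 ≤ A → A ≤ 4 * lam * (n : ℝ) ^ (2 / 3 : ℝ) →
    |(i : ℝ)| ≤ lam * (n : ℝ) ^ (2 / 3 : ℝ) / 8 → |(i' : ℝ)| ≤ lam * (n : ℝ) ^ (2 / 3 : ℝ) / 8 →
    |(i : ℝ) - i'| ≤ (ρ : ℝ) ^ (2 / 3 : ℝ) → C0 * lam ^ 3 ≤ ρ → C0 * ρ ≤ n →
    FLp σ A n ω i - FLp σ A n ω i' ≤ C0 * lam ^ 2 * (ρ : ℝ) ^ (1 / 3 : ℝ) := by
  obtain ⟨C0, C1, h0, h1, hs⟩ := fi_side hκ
  refine ⟨max C0 (2 * (3844 / κ ^ 2 + 6)), C1, le_max_of_le_left h0, h1, ?_⟩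
  intro σ h lam A n m ρ ω i i' hHP hσ0 hσ1 hm hCr hA0 hA hi hi' hii hρ hn
  have hlam0 : 0 ≤ lam := by
    rw [hHP.2.2.2.1]
    positivity
  have hρ' : C0 * lam ^ 3 ≤ ρ :=
    (mul_le_mul_of_nonneg_right (le_max_left _ _) (by positivity)).trans hρ
  have hn' : C0 * ρ ≤ n :=
    (mul_le_mul_of_nonneg_right (le_max_left _ _) (Nat.cast_nonneg _)).trans hn
  obtain ⟨a1, a2⟩ := fi_devPL σ hA0 n
  obtain ⟨b1, b2⟩ := fi_devPR σ hA0 n
  have e1 := hs σ h lam n m ρ ω (PLp σ A n) i i' hHP hσ0 hσ1 hm hCr a1 (by linarith) hi hi' hii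
    hρ' hn'
  have e2 := hs σ h lam n m ρ (rotE ω) (PRp σ A n) (-i) (-i') hHP hσ0 hσ1 hm (crE_rot.2 hCr) b1
    (by linarith) (by push_cast; rw [abs_neg]; exact hi) (by push_cast; rw [abs_neg]; exact hi')
    (by
      push_cast
      rw [← abs_neg]
      have : -(-(i : ℝ) - -(i' : ℝ)) = i - i' := by ring
      rw [this]
      exact hii) hρ' hn'
  have e3 : ell σ ((i : ℝ) - i') 0 + ell σ (((-i : ℤ) : ℝ) - ((-i' : ℤ) : ℝ)) 0 = 0 := by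
    unfold ell
    push_cast
    ring
  have e4 : 2 * (3844 / κ ^ 2 + 6) * lam ^ 2 * (ρ : ℝ) ^ (1 / 3 : ℝ) ≤
      max C0 (2 * (3844 / κ ^ 2 + 6)) * lam ^ 2 * (ρ : ℝ) ^ (1 / 3 : ℝ) := by
    refine mul_le_mul_of_nonneg_right ?_ (Real.rpow_nonneg (Nat.cast_nonneg _) _)
    exact mul_le_mul_of_nonneg_right (le_max_right _ _) (by positivity)
  unfold FLp
  linarith

theorem incr_local {κ : ℝ} (hκ : 0 < κ) : ∃ C0 C1 : ℝ, 1 ≤ C0 ∧ 2 ≤ C1 ∧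
    ∀ (σ h lam A : ℝ) (n m ρ : ℕ) (ω : ℤ × ℤ → ℝ) (i i' : ℤ), HP C1 h lam → κ ≤ σ → σ ≤ 1 - κ →
    8 * n ≤ m → CrE κ lam m ω → 0 ≤ A → A ≤ 4 * lam * (n : ℝ) ^ (2 / 3 : ℝ) →
    |(i : ℝ)| ≤ lam * (n : ℝ) ^ (2 / 3 : ℝ) / 8 → |(i' : ℝ)| ≤ lam * (n : ℝ) ^ (2 / 3 : ℝ) / 8 →
    |(i : ℝ) - i'| ≤ (ρ : ℝ) ^ (2 / 3 : ℝ) → C0 * lam ^ 3 ≤ ρ → C0 * ρ ≤ n →
    |FLp σ A n ω i - FLp σ A n ω i'| ≤ C0 * lam ^ 2 * (ρ : ℝ) ^ (1 / 3 : ℝ) ∧
    |FRp σ A n ω i - FRp σ A n ω i'| ≤ C0 * lam ^ 2 * (ρ : ℝ) ^ (1 / 3 : ℝ) := by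
  obtain ⟨C0, C1, h0, h1, hs⟩ := fi_half hκ
  refine ⟨C0, C1, h0, h1, ?_⟩
  intro σ h lam A n m ρ ω i i' hHP hσ0 hσ1 hm hCr hA0 hA hi hi' hii hρ hn
  have key : ∀ (ω : ℤ × ℤ → ℝ) (j j' : ℤ), CrE κ lam m ω →
      |(j : ℝ)| ≤ lam * (n : ℝ) ^ (2 / 3 : ℝ) / 8 → |(j' : ℝ)| ≤ lam * (n : ℝ) ^ (2 / 3 : ℝ) / 8 →
      |(j : ℝ) - j'| ≤ (ρ : ℝ) ^ (2 / 3 : ℝ) →
      |FLp σ A n ω j - FLp σ A n ω j'| ≤ C0 * lam ^ 2 * (ρ : ℝ) ^ (1 / 3 : ℝ) := by
    intro ω j j' hC hj hj' hjj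
    rw [abs_le]
    constructor
    · have := hs σ h lam A n m ρ ω j' j hHP hσ0 hσ1 hm hC hA0 hA hj' hj
        (by rw [abs_sub_comm]; exact hjj) hρ hn
      linarith
    · exact hs σ h lam A n m ρ ω j j' hHP hσ0 hσ1 hm hC hA0 hA hj hj' hjj hρ hn
  refine ⟨key ω i i' hCr hi hi' hii, ?_⟩
  have := key (rotE ω) (-i) (-i') (crE_rot.2 hCr) (by push_cast; rw [abs_neg]; exact hi)
    (by push_cast; rw [abs_neg]; exact hi') (by
      push_cast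
      rw [← abs_neg]
      have : -(-(i : ℝ) - -(i' : ℝ)) = i - i' := by ring
      rw [this]
      exact hii)
  rw [FLp_rot, FLp_rot, neg_neg, neg_neg] at this
  exact this

end BGE
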