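import Pool.Agent.BGE.FPar
import Pool.Agent.BGE.FIncr
import Pool.Agent.BGE.GeoA
import Pool.Agent.BGE.GeoB
import Pool.Agent.BGE.GeoC
import Pool.Agent.BGE.FAnn0

/-!
BGE / F5. The annulus events at the time `0` follow from a fine hit at the time `t`
(deterministic).

Notation: `n = nn h k`, `r = nn h (k+1)`, `n1 = nn h 25`, `y = yy h`, `A = 4 farc n`,
`K = Kf r`, `I = If n`. `ω0, ωg, ωt`: times `0`, grid time `g`, `t`.
Proof of `ann_incl`.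
(1) For a multiple `i = c dI` with `K ≤ |i| ≤ 2 I`, `P ∈ {PLp, PRp}`:
`|T ωt P (i,0) - T ω0 P (i,0)| ≤ lam (√((2h/GG) 2n) + 1) + y^5 √(h n) ≤ 2 y^5 √(h n)`: the first term by
`CrT` between `ωg` and `ωt` (`GG ≥ lam^2300`), and `T ωg P (i,0) = T (res Sc ωg) P (i,0)`,
`T ω0 P (i,0) = T (res Sc ω0) P (i,0)` since the geodesics avoid the centre (`avoid` with `Y = 2 lam`,
`r = nb`, as in `FTail`), and `ftsE`. The same for the rotated environments. So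
`|FLp ωt i - FLp ω0 i| ≤ 4 y^5 √(h n)` and the same for `FRp`, for these `i`.
(2) For every `i` with `K ≤ i ≤ I` (or `-I ≤ i ≤ -K`) there is a multiple `i'` of `dI` with
`|i - i'| ≤ dI`, `K ≤ |i'| ≤ 2 I`, and by `incr_local` (`ρ = ⌈dI^{3/2}⌉ ~ n1/lam^18`, both at the
times `0` and `t`) `|F i - F i'| ≤ C0 lam² ρ^{1/3} ≤ n1^{1/3}`. So
`|FLp ωt i - FLp ω0 i| ≤ 4 y^5 √(h n) + 2 n1^{1/3} ≤ 9 y^5 r^{1/3}` for all `K ≤ i ≤ I` (`fn`: `√(h n) ≤ 2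
r^{1/3}`, `n1 ≤ r`).
(3) `rec_of_thru` for `ωt` (`a = farc n`, `a + 1 ≤ A`): `FLp ωt i ≤ FLp ωt 0`; `incr_boundF` for `ωt`
(`Y = y`, `g0 = n1`, `C0 r ≤ n`): `FLp ωt 0 - FLp ωt K ≤ C0 y² r^{1/3}`. Hence
`FLp ω0 i - FLp ω0 K ≤ (18 y^5 + C0 y²) r^{1/3} ≤ y^6 r^{1/3}`. The same for `FRp`.
(4) `FLp_res` for `ω0` (`Y = y`, annulus between the parallelograms of the scales `r` and `n`).
-/

namespace BGE

private theorem fa_Tres {ω : ℤ × ℤ → ℝ} {R : Set (ℤ × ℤ)} {u v : ℤ × ℤ} (h : u ≤ v)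
    (hω : ∀ z, u ≤ z → z ≤ v → 0 ≤ ω z) (hR : ∀ w, Via ω u w v → w ∈ R) :
    T (res R ω) u v = T ω u v := by
  classical
  set ω' : ℤ × ℤ → ℝ := fun z => max (ω z) 0 with hω'
  have e0 : ∀ z, u ≤ z → z ≤ v → ω z = ω' z := by
    intro z h1 h2
    rw [hω']
    exact (max_eq_left (hω z h1 h2)).symm
  have e1 : ∀ u' v', u ≤ u' → u' ≤ v' → v' ≤ v → T ω u' v' = T ω' u' v' := by
    intro u' v' h1 h2 h3
    exact T_congr h2 fun z h4 h5 => e0 z (h1.trans h4) (h5.trans h3)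
  have e2 : T (res R ω) u v = T (res R ω') u v := by
    refine T_congr h fun z h4 h5 => ?_
    unfold res
    rw [e0 z h4 h5]
  rw [e2, e1 u v le_rfl h le_rfl]
  refine T_res_eq h (fun z => le_max_right _ _) ?_
  intro w hw
  apply hR
  obtain ⟨h1, h2, h3⟩ := hw
  refine ⟨h1, h2, ?_⟩
  rw [e1 u v le_rfl h le_rfl, e1 u w le_rfl h1 h2, e1 w v h1 h2 le_rfl, e0 w h1 h2]
  exact h3

private theorem fa_levPL (σ A : ℝ) (n : ℕ) : lev (PLp σ A n) = -(n : ℤ) := by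
  unfold lev PLp
  ring

private theorem fa_levPR (σ A : ℝ) (n : ℕ) : lev (PRp σ A n) = -(n : ℤ) := by
  unfold lev PRp
  ring

private theorem fa_devPL {σ A : ℝ} (hA : 0 ≤ A) (n : ℕ) : |dev σ (PLp σ A n)| ≤ A + 1 := by
  have h1 : dev σ (PLp σ A n) = (PLp σ A n).1 + σ * (n + 1 / 2) := by
    unfold dev
    rw [fa_levPL]
    push_cast
    ring
  have h2 : (((PLp σ A n).1 : ℤ) : ℝ) ≤ -(σ * ((n : ℝ) + 1 / 2)) - A := Int.floor_le _
  have h3 : -(σ * ((n : ℝ) + 1 / 2)) - A < (((PLp σ A n).1 : ℤ) : ℝ) + 1 := Int.lt_floor_add_one _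
  rw [h1, abs_le]
  constructor <;> linarith

private theorem fa_devPR {σ A : ℝ} (hA : 0 ≤ A) (n : ℕ) : |dev σ (PRp σ A n)| ≤ A + 1 := by
  have h1 : dev σ (PRp σ A n) = (PRp σ A n).1 + σ * (n + 1 / 2) := by
    unfold dev
    rw [fa_levPR]
    push_cast
    ring
  have h2 : -(σ * ((n : ℝ) + 1 / 2)) + A ≤ (((PRp σ A n).1 : ℤ) : ℝ) := Int.le_ceil _
  have h3 : (((PRp σ A n).1 : ℤ) : ℝ) < -(σ * ((n : ℝ) + 1 / 2)) + A + 1 := Int.ceil_lt_add_one _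
  rw [h1, abs_le]
  constructor <;> linarith

private theorem fa_par_mono {C0 C1 κ σ lam Y g0 : ℝ} {n : ℕ} (hl : 0 ≤ lam) (h : C1 ≤ C0)
    (hP : Par C0 κ σ lam Y g0 n) : Par C1 κ σ lam Y g0 n := by
  obtain ⟨h1, h2, h3, h4, h5, h6⟩ := hP
  exact ⟨h1, h2, h.trans h3, h4, (mul_le_mul_of_nonneg_right h (by positivity)).trans h5, h6⟩

/-- the position of the end points -/
private theorem fa_pt {P : ℤ × ℤ} {n m : ℕ} {i : ℤ} (hP : lev P = -(n : ℤ)) (hle : P ≤ (i, 0))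
    (hi : |i| + 1 ≤ n) (hm : 4 * n ≤ m) :
    P ∈ Bx m ∧ ((i, 0) : ℤ × ℤ) ∈ Bx m ∧ dl P (i, 0) + 1 ≤ 2 * n ∧
    ∀ z, P ≤ z → z ≤ (i, 0) → z ∈ Bx m := by
  have h1 : P.1 ≤ i := hle.1
  have h2 : P.2 ≤ 0 := hle.2
  have h3 : P.1 + P.2 = -(n : ℤ) := hP
  have h4 := (abs_le.1 (show |i| ≤ (n : ℤ) - 1 by linarith))
  have h5 : 4 * (n : ℤ) ≤ m := by exact_mod_cast hm
  obtain ⟨h6, h7⟩ := h4
  have key : ∀ z, P ≤ z → z ≤ (i, 0) → z ∈ Bx m := by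
    intro z hz1 hz2
    have a1 := hz1.1
    have a2 := hz1.2
    have a3 : z.1 ≤ i := hz2.1
    have a4 : z.2 ≤ 0 := hz2.2
    refine ⟨by omega, by omega, by omega, by omega⟩
  refine ⟨key P le_rfl hle, key _ hle le_rfl, ?_, key⟩
  unfold dl
  rw [hP]
  have e1 : lev ((i, 0) : ℤ × ℤ) = i := by simp [lev]
  rw [e1]
  have e2 : ((i - -(n : ℤ) + 1 : ℤ) : ℝ) ≤ ((2 * (n : ℤ) : ℤ) : ℝ) := by
    exact_mod_cast (by omega : i - -(n : ℤ) + 1 ≤ 2 * (n : ℤ))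
  push_cast at e2 ⊢
  linarith

/-- the geodesics avoid the centre -/
private theorem fa_sc {κ : ℝ} (hκ : 0 < κ) : ∃ D : ℝ, 1 ≤ D ∧ ∀ C0 : ℝ, D ≤ C0 → ∃ C1 : ℝ,
    2 ≤ C1 ∧ ∀ (σ h lam : ℝ) (k m : ℕ) (ω : ℤ × ℤ → ℝ) (P : ℤ × ℤ) (i : ℤ), HP C1 h lam →
    FaNum κ C0 h lam k → κ ≤ σ → σ ≤ 1 - κ → 4 * nn h k ≤ m → CrE κ lam m ω →
    lev P = -(nn h k : ℤ) → |dev σ P| ≤ 4 * farc h (nn h k) + 1 →
    (Kf κ h (nn h (k + 1)) : ℝ) ≤ |(i : ℝ)| → |(i : ℝ)| ≤ 2 * If h (nn h k) →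
    P ≤ (i, 0) ∧ T (res (Sc σ h lam) ω) P (i, 0) = T ω P (i, 0) := by
  obtain ⟨Ca, hCa, hav⟩ := avoid hκ
  obtain ⟨Ci, hCi, hin⟩ := inside hκ
  obtain ⟨Cg, hCg, hgood⟩ := good_crude hκ
  refine ⟨max Ca (max Ci Cg), hCa.trans (le_max_left _ _), ?_⟩
  intro C0 hC0
  have hC0a : Ca ≤ C0 := (le_max_left _ _).trans hC0
  have hC0i : Ci ≤ C0 := ((le_max_left _ _).trans (le_max_right _ _)).trans hC0
  have hC0g : Cg ≤ C0 := ((le_max_right _ _).trans (le_max_right _ _)).trans hC0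
  obtain ⟨Cp, hCp, hpar⟩ := par_crude hκ (hCa.trans hC0a)
  refine ⟨max Cp Cg, hCp.trans (le_max_left _ _), ?_⟩
  intro σ h lam k m ω P i hP hN h1 h2 hm hC hl hd hK hI
  have hl1 := hN.l1
  have hlam0 : 0 ≤ lam := by linarith
  have hnn : C0 * lam ^ 3 ≤ nn h k := hN.g.trans (by exact_mod_cast hN.hn1)
  have hPar := hpar σ h lam (nn h k) (hP.mono (le_max_left _ _)) h1 h2 hnn
  have hGood := hgood C0 σ h lam (nn h k) m ω hC0g (hP.mono (le_max_right _ _)) h1 h2 hnn hm hC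
  have hn23 : 0 ≤ (nn h k : ℝ) ^ (2 / 3 : ℝ) := by positivity
  have hyl : yy h * (nn h k : ℝ) ^ (2 / 3 : ℝ) ≤ 2 * lam * (nn h k : ℝ) ^ (2 / 3 : ℝ) := by
    apply mul_le_mul_of_nonneg_right _ hn23
    have := hN.y2
    linarith
  have hd' : |dev σ P| ≤ 4 * (2 * lam) * (nn h k : ℝ) ^ (2 / 3 : ℝ) + 1 := by
    refine hd.trans ?_
    unfold farc
    linarith
  have hi' : |(i : ℝ)| ≤ 2 * lam * (nn h k : ℝ) ^ (2 / 3 : ℝ) / 8 := by
    have := hN.Iu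
    linarith
  obtain ⟨hle, -⟩ := hin σ lam (2 * lam) (C0 * lam ^ 3) (nn h k) ω (fa_par_mono hlam0 hC0i hPar)
    hGood P hl hd' i hi'
  have hvia := hav σ lam (2 * lam) (C0 * lam ^ 3) (nn h k) ω (fa_par_mono hlam0 hC0a hPar)
    hGood P hl hd' (nb h lam) hN.bg hN.b8 i hi' (hN.Kb.trans hK)
  refine ⟨hle, ?_⟩
  have hin1 : |i| + 1 ≤ (nn h k : ℤ) := by
    have e1 : |(i : ℝ)| + 1 ≤ nn h k := by
      have := hN.In
      linarith
    exact_mod_cast e1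
  obtain ⟨-, -, -, hbx⟩ := fa_pt hl hle hin1 hm
  refine fa_Tres hle (fun z hz1 hz2 => (hC.1 z (hbx z hz1 hz2)).1) ?_
  intro w hw
  exact hvia w hw

/-- comparison of the passage times on the grid -/
private theorem fa_one {κ C0 σ h lam : ℝ} {k m : ℕ} {ω0 ωg ωt : ℤ × ℤ → ℝ} {P : ℤ × ℤ} {i : ℤ}
    (hC0 : 1 ≤ C0) (hN : FaNum κ C0 h lam k) (hm : 4 * nn h k ≤ m)
    (hl : lev P = -(nn h k : ℤ)) (hle : P ≤ (i, 0)) (hI : |(i : ℝ)| ≤ 2 * If h (nn h k))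
    (e0 : T (res (Sc σ h lam) ω0) P (i, 0) = T ω0 P (i, 0))
    (eg : T (res (Sc σ h lam) ωg) P (i, 0) = T ωg P (i, 0))
    (hT : CrT lam m (2 * h / GG lam) ωg ωt)
    (hf : |T (res (Sc σ h lam) ωg) P (i, 0) - T (res (Sc σ h lam) ω0) P (i, 0)| ≤
      yy h ^ 5 * √(h * nn h k)) :
    |T ωt P (i, 0) - T ω0 P (i, 0)| ≤ 2 * (yy h ^ 5 * √(h * nn h k)) := by
  have hin1 : |i| + 1 ≤ (nn h k : ℤ) := by
    have e1 : |(i : ℝ)| + 1 ≤ nn h k := by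
      have := hN.In
      linarith
    exact_mod_cast e1
  obtain ⟨b1, b2, b3, -⟩ := fa_pt hl hle hin1 hm
  rw [e0, eg] at hf
  have h1 := hT P b1 (i, 0) b2 hle
  have hlam0 : 0 ≤ lam := by
    have := hN.l1
    linarith
  have h2 : lam * (√(2 * h / GG lam * (dl P (i, 0) + 1)) + 1) ≤
      lam * (√(2 * h / GG lam * (2 * nn h k)) + 1) := by
    apply mul_le_mul_of_nonneg_left _ hlam0
    have h3 : √(2 * h / GG lam * (dl P (i, 0) + 1)) ≤ √(2 * h / GG lam * (2 * nn h k)) := by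
      apply Real.sqrt_le_sqrt
      apply mul_le_mul_of_nonneg_left b3
      have := hN.h0
      positivity
    linarith
  have hy : 1 ≤ yy h ^ 5 := one_le_pow₀ (hC0.trans hN.y1)
  have hs : √(h * nn h k) ≤ yy h ^ 5 * √(h * nn h k) :=
    le_mul_of_one_le_left (Real.sqrt_nonneg _) hy
  have h4 := hN.sq2
  have h5 : T ωt P (i, 0) - T ω0 P (i, 0) =
      (T ωt P (i, 0) - T ωg P (i, 0)) + (T ωg P (i, 0) - T ω0 P (i, 0)) := by ring
  rw [h5]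
  refine (abs_add_le _ _).trans ?_
  linarith

private theorem fa_tri {a b c d e f : ℝ} (h1 : |a - b| ≤ e) (h2 : |c - d| ≤ e) (h3 : |b - d| ≤ f) :
    |a - c| ≤ e + e + f := by
  rw [abs_le] at *
  constructor <;> linarith [h1.1, h1.2, h2.1, h2.2, h3.1, h3.2]

/-- the left profile -/
private theorem fa_main {κ : ℝ} (hκ : 0 < κ) : ∃ C1 : ℝ, 2 ≤ C1 ∧
    ∀ (σ h lam : ℝ) (k m : ℕ) (ω0 ωg ωt : ℤ × ℤ → ℝ), HP C1 h lam → κ ≤ σ → σ ≤ 1 - κ → k < 25 →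
    16 * nn h 0 ≤ m → CrE κ lam m ω0 → CrE κ lam m ωg → CrE κ lam m ωt →
    CrT lam m (2 * h / GG lam) ωg ωt → ftsE κ σ h lam ω0 ωg →
    GoodE κ σ lam (yy h) (nn h 25) (2 * nn h 0) ωt →
    Thru σ (farc h (nn h k)) (nn h k) ωt →
    ∀ i : ℤ, (Kf κ h (nn h (k + 1)) : ℤ) < i → i ≤ If h (nn h k) →
      FLp σ (4 * farc h (nn h k)) (nn h k) ω0 i -
        FLp σ (4 * farc h (nn h k)) (nn h k) ω0 (Kf κ h (nn h (k + 1))) ≤
      yy h ^ 6 * (nn h (k + 1) : ℝ) ^ (1 / 3 : ℝ) := by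
  by_cases hκ1 : κ ≤ 1
  swap
  · refine ⟨2, le_refl _, ?_⟩
    intro σ h lam k m ω0 ωg ωt _ h1 h2
    exfalso
    push Not at hκ1
    linarith
  obtain ⟨D, hD, hsc⟩ := fa_sc hκ
  obtain ⟨Cr, hCr, hrec⟩ := rec_of_thru hκ
  obtain ⟨Ci, hCi, hinc⟩ := incr_boundF hκ
  obtain ⟨Cl, Cl1, hCl, hCl1, hloc⟩ := incr_local hκ
  set C0 : ℝ := max D (max Cr (max (18 + Ci) (max Cl (1000 / κ)))) with hC0
  have a1 : D ≤ C0 := le_max_left _ _
  have a2 : Cr ≤ C0 := (le_max_left _ _).trans (le_max_right _ _)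
  have a3 : 18 + Ci ≤ C0 :=
    ((le_max_left _ _).trans (le_max_right _ _)).trans (le_max_right _ _)
  have a4 : Cl ≤ C0 :=
    (((le_max_left _ _).trans (le_max_right _ _)).trans (le_max_right _ _)).trans (le_max_right _ _)
  have a5 : 1000 / κ ≤ C0 :=
    (((le_max_right _ _).trans (le_max_right _ _)).trans (le_max_right _ _)).trans
      (le_max_right _ _)
  have hC01 : 1 ≤ C0 := hD.trans a1
  obtain ⟨E1, hE1, hsc'⟩ := hsc C0 a1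
  obtain ⟨E2, hE2, hnum⟩ := fa_num hκ hκ1 a5
  refine ⟨max E1 (max E2 Cl1), hE1.trans (le_max_left _ _), ?_⟩
  intro σ h lam k m ω0 ωg ωt hP h1 h2 hk hm hC0' hCg hCt hT hf hG hTh i hi1 hi2
  have hP1 := hP.mono (le_max_left E1 (max E2 Cl1))
  have hP2 := hP.mono ((le_max_left E2 Cl1).trans (le_max_right E1 _))
  have hP3 := hP.mono ((le_max_right E2 Cl1).trans (le_max_right E1 _))
  have hN := hnum h lam k hP2 hk
  set n := nn h k with hn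
  set r := nn h (k + 1) with hr
  set K := Kf κ h r with hK
  set I := If h n with hI
  set y := yy h with hy
  set A : ℝ := 4 * farc h n with hA
  set S : ℝ := √(h * n) with hS
  have hl1 := hN.l1
  have hlam0 : 0 ≤ lam := by linarith
  have hy1 : C0 ≤ y := hN.y1
  have hy0 : 0 < y := by linarith
  have hnm : 4 * n ≤ m := by
    have := hN.hn0
    omega
  have hnm8 : 8 * n ≤ m := by
    have := hN.hn0
    omega
  have hn23 : 0 ≤ (n : ℝ) ^ (2 / 3 : ℝ) := by positivity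
  have hr13 : 0 ≤ (r : ℝ) ^ (1 / 3 : ℝ) := by positivity
  have hfa : farc h n = y * (n : ℝ) ^ (2 / 3 : ℝ) := rfl
  have hfa1 : 1 ≤ farc h n := hN.a1
  have hA0 : 0 ≤ A := by linarith
  have hAY : A ≤ 4 * y * (n : ℝ) ^ (2 / 3 : ℝ) := by
    rw [hA, hfa]
    linarith
  have hylam : y * (n : ℝ) ^ (2 / 3 : ℝ) ≤ lam * (n : ℝ) ^ (2 / 3 : ℝ) :=
    mul_le_mul_of_nonneg_right hN.y2 hn23
  have hAl : A ≤ 4 * lam * (n : ℝ) ^ (2 / 3 : ℝ) := by linarith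
  have hS0 : 0 ≤ S := Real.sqrt_nonneg _
  -- the grid
  have hgrid : ∀ c : ℤ, (K : ℝ) ≤ |(c : ℝ)| * dI h lam → |(c : ℝ)| * dI h lam ≤ 2 * I →
      |FLp σ A n ωt (c * dI h lam) - FLp σ A n ω0 (c * dI h lam)| ≤ 4 * (y ^ 5 * S) := by
    intro c hc1 hc2
    have hci : |((c * (dI h lam : ℤ) : ℤ) : ℝ)| = |(c : ℝ)| * dI h lam := by
      push_cast
      rw [abs_mul, Nat.abs_cast]
    have hci' : |((-(c * (dI h lam : ℤ)) : ℤ) : ℝ)| = |(c : ℝ)| * dI h lam := by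
      rw [Int.cast_neg, abs_neg, hci]
    have hc3 : |(c : ℝ)| ≤ lam ^ 3500 := hN.cc _ (abs_nonneg _) hc2
    have dL : |dev σ (PLp σ A n)| ≤ 4 * farc h n + 1 := fa_devPL hA0 n
    have dR : |dev σ (PRp σ A n)| ≤ 4 * farc h n + 1 := fa_devPR hA0 n
    have hC0r : CrE κ lam m (rotE ω0) := crE_rot.2 hC0'
    have hCgr : CrE κ lam m (rotE ωg) := crE_rot.2 hCg
    have hTr : CrT lam m (2 * h / GG lam) (rotE ωg) (rotE ωt) := crT_rot.2 hT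
    obtain ⟨g1, g2⟩ := hsc' σ h lam k m ω0 (PLp σ A n) (c * dI h lam) hP1 hN h1 h2 hnm hC0'
      (fa_levPL σ A n) dL (by rw [hci]; exact hc1) (by rw [hci]; exact hc2)
    obtain ⟨-, g3⟩ := hsc' σ h lam k m ωg (PLp σ A n) (c * dI h lam) hP1 hN h1 h2 hnm hCg
      (fa_levPL σ A n) dL (by rw [hci]; exact hc1) (by rw [hci]; exact hc2)
    obtain ⟨g4, g5⟩ := hsc' σ h lam k m (rotE ω0) (PRp σ A n) (-(c * dI h lam)) hP1 hN h1 h2 hnm
      hC0r (fa_levPR σ A n) dR (by rw [hci']; exact hc1) (by rw [hci']; exact hc2)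
    obtain ⟨-, g6⟩ := hsc' σ h lam k m (rotE ωg) (PRp σ A n) (-(c * dI h lam)) hP1 hN h1 h2 hnm
      hCgr (fa_levPR σ A n) dR (by rw [hci']; exact hc1) (by rw [hci']; exact hc2)
    have f1 := (hf k hk c hc3 hc1 hc2 (PLp σ A n) (Or.inl rfl)).1
    have hcn : |((-c : ℤ) : ℝ)| = |(c : ℝ)| := by
      push_cast
      rw [abs_neg]
    have f2 := (hf k hk (-c) (by rw [hcn]; exact hc3) (by rw [hcn]; exact hc1)
      (by rw [hcn]; exact hc2) (PRp σ A n) (Or.inr rfl)).2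
    rw [neg_mul] at f2
    have t1 := fa_one hC01 hN hnm (fa_levPL σ A n) g1 (by rw [hci]; exact hc2) g2 g3 hT f1
    have t2 := fa_one hC01 hN hnm (fa_levPR σ A n) g4 (by rw [hci']; exact hc2) g5 g6 hTr f2
    unfold FLp
    rw [abs_le] at t1 t2 ⊢
    constructor <;> linarith [t1.1, t1.2, t2.1, t2.2]
  -- all points
  obtain ⟨ρ, r1, r2, r3, r4⟩ := hN.rho
  have hall : ∀ j : ℤ, (K : ℤ) ≤ j → j ≤ I →
      |FLp σ A n ωt j - FLp σ A n ω0 j| ≤ 9 * y ^ 5 * (r : ℝ) ^ (1 / 3 : ℝ) := by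
    intro j hj1 hj2
    set c : ℤ := j / dI h lam + 1 with hc
    have hd0 : (0 : ℤ) < dI h lam := by exact_mod_cast hN.d1
    have hc1 : j < c * dI h lam := by
      rw [hc]
      have := Int.lt_ediv_add_one_mul_self j hd0
      exact this
    have hc2 : c * dI h lam ≤ j + dI h lam := by
      rw [hc, add_mul, one_mul]
      have := Int.ediv_mul_le j hd0.ne'
      linarith
    have hKd : (dI h lam : ℤ) ≤ K := by exact_mod_cast hN.KdI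
    have hK0 : (0 : ℤ) ≤ K := Int.natCast_nonneg _
    have hc0 : 0 ≤ c * (dI h lam : ℤ) := by linarith
    have hci : |((c * (dI h lam : ℤ) : ℤ) : ℝ)| = |(c : ℝ)| * dI h lam := by
      push_cast
      rw [abs_mul, Nat.abs_cast]
    have hc0r : |((c * (dI h lam : ℤ) : ℤ) : ℝ)| = ((c * (dI h lam : ℤ) : ℤ) : ℝ) :=
      abs_of_nonneg (by exact_mod_cast hc0)
    have b1 : (K : ℝ) ≤ |(c : ℝ)| * dI h lam := by
      rw [← hci, hc0r]
      exact_mod_cast (by linarith : (K : ℤ) ≤ c * dI h lam)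
    have b2 : |(c : ℝ)| * dI h lam ≤ 2 * I := by
      rw [← hci, hc0r]
      exact_mod_cast (by linarith : c * (dI h lam : ℤ) ≤ 2 * I)
    have hg := hgrid c b1 b2
    have hIu := hN.Iu
    have hj0 : |(j : ℝ)| ≤ lam * (n : ℝ) ^ (2 / 3 : ℝ) / 8 := by
      have e1 : (0 : ℝ) ≤ j := by exact_mod_cast hK0.trans hj1
      have e2 : (j : ℝ) ≤ I := by exact_mod_cast hj2
      rw [abs_of_nonneg e1]
      have e3 : (0 : ℝ) ≤ I := Nat.cast_nonneg _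
      linarith
    have hc0' : |((c * (dI h lam : ℤ) : ℤ) : ℝ)| ≤ lam * (n : ℝ) ^ (2 / 3 : ℝ) / 8 := by
      rw [hci]
      linarith
    have hjc : |(j : ℝ) - ((c * (dI h lam : ℤ) : ℤ) : ℝ)| ≤ (ρ : ℝ) ^ (2 / 3 : ℝ) := by
      refine le_trans ?_ r1
      rw [abs_sub_comm, abs_of_nonneg]
      · have : ((c * (dI h lam : ℤ) : ℤ) : ℝ) ≤ ((j + dI h lam : ℤ) : ℝ) := by
          exact_mod_cast hc2
        push_cast at this ⊢
        linarith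
      · have : (j : ℝ) ≤ ((c * (dI h lam : ℤ) : ℤ) : ℝ) := by exact_mod_cast hc1.le
        linarith
    have r2' : Cl * lam ^ 3 ≤ ρ := (mul_le_mul_of_nonneg_right a4 (by positivity)).trans r2
    have r3' : Cl * ρ ≤ n := (mul_le_mul_of_nonneg_right a4 (by positivity)).trans r3
    have r4' : Cl * lam ^ 2 * (ρ : ℝ) ^ (1 / 3 : ℝ) ≤ (r : ℝ) ^ (1 / 3 : ℝ) := by
      refine le_trans ?_ r4
      gcongr
    have l1 := (hloc σ h lam A n m ρ ωt j (c * dI h lam) hP3 h1 h2 hnm8 hCt hA0 hAl hj0 hc0' hjc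
      r2' r3').1.trans r4'
    have l2 := (hloc σ h lam A n m ρ ω0 j (c * dI h lam) hP3 h1 h2 hnm8 hC0' hA0 hAl hj0 hc0' hjc
      r2' r3').1.trans r4'
    refine (fa_tri l1 l2 hg).trans ?_
    have hsq : S ≤ 2 * (r : ℝ) ^ (1 / 3 : ℝ) := hN.sq
    have hy5 : 2 ≤ y ^ 5 := by
      have e1 : y ≤ y ^ 5 := le_self_pow₀ (by linarith) (by norm_num)
      linarith
    have e1 : y ^ 5 * S ≤ y ^ 5 * (2 * (r : ℝ) ^ (1 / 3 : ℝ)) :=
      mul_le_mul_of_nonneg_left hsq (by positivity)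
    have e2 : 2 * (r : ℝ) ^ (1 / 3 : ℝ) ≤ y ^ 5 * (r : ℝ) ^ (1 / 3 : ℝ) :=
      mul_le_mul_of_nonneg_right hy5 hr13
    linarith
  -- conclusion
  have hi0 : 0 ≤ i := by
    have : (0 : ℤ) ≤ K := Int.natCast_nonneg _
    linarith
  have hIu := hN.Iu
  have hiI : (i : ℝ) ≤ y * (n : ℝ) ^ (2 / 3 : ℝ) := by
    have e2 : (i : ℝ) ≤ I := by exact_mod_cast hi2
    have e3 : (0 : ℝ) ≤ I := Nat.cast_nonneg _
    linarith
  have hGn : GoodE κ σ lam y (nn h 25) n ωt :=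
    goodE_mono hlam0 (by have := hN.hn0; omega) hG
  have hnn : C0 * lam ^ 3 ≤ (nn h 25 : ℝ) := hN.g
  have hPar : Par C0 κ σ lam y (nn h 25) n :=
    ⟨h1, h2, hy1, by have := hN.y2; linarith, hnn, by exact_mod_cast hN.hn1⟩
  obtain ⟨q1, -⟩ := hrec σ lam y (nn h 25) n ωt (farc h n) A (fa_par_mono hlam0 a2 hPar)
    (by linarith) (by linarith) hAY hTh i hi0 hiI
  have hKu : (K : ℝ) ≤ 100 / κ * y * (r : ℝ) ^ (2 / 3 : ℝ) := hN.Khi
  have hCi0 : Ci ≤ C0 := by linarith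
  obtain ⟨q2, -⟩ := hinc σ lam y (nn h 25) A n ωt (fa_par_mono hlam0 hCi0 hPar) hGn hA0 hAY r
    (by exact_mod_cast hN.hr1) ((mul_le_mul_of_nonneg_right hCi0 (by positivity)).trans hN.rn)
    0 K (by simp only [Int.cast_zero, abs_zero]; positivity)
    (by rw [Int.cast_natCast, Nat.abs_cast]; exact hKu)
  have q3 := hall i hi1.le hi2
  have q4 := hall K le_rfl (hi1.le.trans hi2)
  rw [abs_le] at q2 q3 q4
  have hfin : 18 * y ^ 5 * (r : ℝ) ^ (1 / 3 : ℝ) + Ci * y ^ 2 * (r : ℝ) ^ (1 / 3 : ℝ) ≤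
      y ^ 6 * (r : ℝ) ^ (1 / 3 : ℝ) := by
    rw [← add_mul]
    apply mul_le_mul_of_nonneg_right _ hr13
    have e1 : y ^ 2 ≤ y ^ 5 := pow_le_pow_right₀ (by linarith) (by norm_num)
    have e2 : Ci * y ^ 2 ≤ Ci * y ^ 5 := mul_le_mul_of_nonneg_left e1 (by linarith)
    have e3 : (18 + Ci) * y ^ 5 ≤ y * y ^ 5 := mul_le_mul_of_nonneg_right (by linarith) (by positivity)
    have e4 : y * y ^ 5 = y ^ 6 := by ring
    linarith
  linarith [q2.1, q2.2, q3.1, q3.2, q4.1, q4.2]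

private theorem fa_fts_rot {κ σ h lam : ℝ} {ω ω' : ℤ × ℤ → ℝ} (hf : ftsE κ σ h lam ω ω') :
    ftsE κ σ h lam (rotE ω) (rotE ω') := by
  intro k hk c h1 h2 h3 P hP
  obtain ⟨e1, e2⟩ := hf k hk c h1 h2 h3 P hP
  rw [rotE_rotE, rotE_rotE]
  exact ⟨e2, e1⟩

theorem ann_incl {κ : ℝ} (hκ : 0 < κ) : ∃ C1 : ℝ, 2 ≤ C1 ∧
    ∀ (σ h lam : ℝ) (k m : ℕ) (ω0 ωg ωt : ℤ × ℤ → ℝ), HP C1 h lam → κ ≤ σ → σ ≤ 1 - κ → k < 25 →
    16 * nn h 0 ≤ m → CrE κ lam m ω0 → CrE κ lam m ωg → CrE κ lam m ωt →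
    CrT lam m (2 * h / GG lam) ωg ωt → ftsE κ σ h lam ω0 ωg →
    GoodE κ σ lam (yy h) (nn h 25) (2 * nn h 0) ω0 →
    GoodE κ σ lam (yy h) (nn h 25) (2 * nn h 0) ωt →
    Thru σ (farc h (nn h k)) (nn h k) ωt → ω0 ∈ AnnS κ σ h k := by
  by_cases hκ1 : κ ≤ 1
  swap
  · refine ⟨2, le_refl _, ?_⟩
    intro σ h lam k m ω0 ωg ωt _ h1 h2
    exfalso
    push Not at hκ1
    linarith
  obtain ⟨M1, hM1, hmain⟩ := fa_main hκ
  obtain ⟨Cr, hCr, hres⟩ := FLp_res hκ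
  set C0 : ℝ := max Cr (1000 / κ) with hC0
  obtain ⟨E1, hE1, hnum⟩ := fa_num hκ hκ1 (le_max_right Cr (1000 / κ))
  refine ⟨max M1 E1, hM1.trans (le_max_left _ _), ?_⟩
  intro σ h lam k m ω0 ωg ωt hP h1 h2 hk hm hc0 hcg hct hT hf hG0 hGt hTh
  have hP1 := hP.mono (le_max_left M1 E1)
  have hN := hnum h lam k (hP.mono (le_max_right M1 E1)) hk
  have hL := hmain σ h lam k m ω0 ωg ωt hP1 h1 h2 hk hm hc0 hcg hct hT hf hGt hTh
  have hR := hmain σ h lam k m (rotE ω0) (rotE ωg) (rotE ωt) hP1 h1 h2 hk hm (crE_rot.2 hc0)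
    (crE_rot.2 hcg) (crE_rot.2 hct) (crT_rot.2 hT) (fa_fts_rot hf) (goodE_rot.2 hGt)
    (thru_rot.2 hTh)
  have hl1 := hN.l1
  have hlam0 : 0 ≤ lam := by linarith
  have hC01 : 1 ≤ C0 := hCr.trans (le_max_left _ _)
  have hy1 := hN.y1
  have hy0 : 0 < yy h := by linarith
  have hfa1 : 1 ≤ farc h (nn h k) := hN.a1
  have hGn : GoodE κ σ lam (yy h) (nn h 25) (nn h k) ω0 :=
    goodE_mono hlam0 (by have := hN.hn0; omega) hG0
  have hPar : Par C0 κ σ lam (yy h) (nn h 25) (nn h k) :=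
    ⟨h1, h2, hy1, by have := hN.y2; linarith, hN.g, by exact_mod_cast hN.hn1⟩
  have hAY : 4 * farc h (nn h k) ≤ 4 * yy h * (nn h k : ℝ) ^ (2 / 3 : ℝ) := by
    unfold farc
    linarith
  have hr := hres σ lam (yy h) (nn h 25) (4 * farc h (nn h k)) (nn h k) ω0
    (fa_par_mono hlam0 (le_max_left _ _) hPar) hGn (by linarith) hAY (nn h (k + 1))
    (by exact_mod_cast hN.hr1) hN.r8 (RF σ h (nn h k) \ RF σ h (nn h (k + 1))) (le_refl _)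
  have key : ∀ j : ℤ, (Kf κ h (nn h (k + 1)) : ℤ) ≤ |j| → |j| ≤ If h (nn h k) →
      FLp σ (4 * farc h (nn h k)) (nn h k)
          (res (RF σ h (nn h k) \ RF σ h (nn h (k + 1))) ω0) j =
        FLp σ (4 * farc h (nn h k)) (nn h k) ω0 j ∧
      FRp σ (4 * farc h (nn h k)) (nn h k)
          (res (RF σ h (nn h k) \ RF σ h (nn h (k + 1))) ω0) j =
        FRp σ (4 * farc h (nn h k)) (nn h k) ω0 j := by
    intro j hj1 hj2
    have e1 : (Kf κ h (nn h (k + 1)) : ℝ) ≤ |(j : ℝ)| := by exact_mod_cast hj1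
    have e2 : |(j : ℝ)| ≤ If h (nn h k) := by exact_mod_cast hj2
    apply hr j
    · have := hN.Iu
      have e3 : (0 : ℝ) ≤ If h (nn h k) := Nat.cast_nonneg _
      linarith
    · exact hN.Klo.trans e1
  intro i hi1 hi2
  have hK0 : (0 : ℤ) ≤ Kf κ h (nn h (k + 1)) := Int.natCast_nonneg _
  have hi0 : 0 ≤ i := by linarith
  have hai : |i| = i := abs_of_nonneg hi0
  have hai' : |(-i)| = i := by rw [abs_neg, hai]
  have haK : |(Kf κ h (nn h (k + 1)) : ℤ)| = Kf κ h (nn h (k + 1)) := abs_of_nonneg hK0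
  have haK' : |(-(Kf κ h (nn h (k + 1)) : ℤ))| = Kf κ h (nn h (k + 1)) := by rw [abs_neg, haK]
  have k1 := (key i (by rw [hai]; exact hi1.le) (by rw [hai]; exact hi2)).1
  have k2 := (key (Kf κ h (nn h (k + 1))) (by rw [haK]) (by rw [haK]; linarith)).1
  have k3 := (key (-i) (by rw [hai']; exact hi1.le) (by rw [hai']; exact hi2)).2
  have k4 := (key (-(Kf κ h (nn h (k + 1)) : ℤ)) (by rw [haK']) (by rw [haK']; linarith)).2
  rw [k1, k2, k3, k4]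
  refine ⟨hL i hi1 hi2, ?_⟩
  have := hR i hi1 hi2
  rw [FLp_rot, FLp_rot] at this
  exact this

end BGE
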