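import Pool.Agent.BGE.Defs2

/-!
BGE / N. Definitions for the near axis part.
-/

namespace BGE

open MeasureTheory ProbabilityTheory

/-- at the scale `R` a geodesic starting at the origin goes up too quickly -/
def StrBad (R : ℕ) : Set (ℤ × ℤ → ℝ) :=
  {ω | ∃ p w : ℤ × ℤ, lev p = 2 * R ∧ lev w = R ∧ (R : ℝ) ^ (99 / 100 : ℝ) ≤ p.2 ∧
    2 * p.2 ≤ R ∧ Via ω (0, 0) w p ∧ (p.2 : ℝ) / 2 + (R : ℝ) ^ (9 / 10 : ℝ) < w.2}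

/-- a geodesic from the origin to a site of small slope reaches the height `M0` at a column
`≤ K` -/
def HgtBad (δ : ℝ) (R K M0 : ℕ) : Set (ℤ × ℤ → ℝ) :=
  {ω | ∃ p q : ℤ × ℤ, lev p = R ∧ (p.2 : ℝ) ≤ δ * R ∧ 0 ≤ q.1 ∧ q.1 ≤ K ∧ q.2 = M0 ∧
    Via ω (0, 0) q p}

/-- the row `0` never beats the rows `1, ..., M0` up to the column `K` -/
def RowBad (K M0 : ℕ) : Set (ℤ × ℤ → ℝ) :=
  {ω | ∀ k : ℕ, 1 ≤ k → k ≤ K →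
    ∑ i ∈ Finset.Icc 1 k, ω ((i : ℤ), 0) ≤ T ω (0, 1) ((k : ℤ), (M0 : ℤ))}

/-- a geodesic ray which starts with the vertical edge at the origin and gets close to the
horizontal axis -/
def RayBad (ω : ℤ × ℤ → ℝ) : Prop :=
  ∃ x : ℤ → ℤ, (∀ l, 0 ≤ l → x (l + 1) = x l ∨ x (l + 1) = x l + 1) ∧ x 0 = 0 ∧ x 1 = 0 ∧
    (∀ l, 0 ≤ l → wt ω x 0 l = T ω (0, 0) (pt x l)) ∧
    ∀ δ : ℝ, 0 < δ → ∀ l0 : ℤ, ∃ l, l0 ≤ l ∧ ((l - x l : ℤ) : ℝ) ≤ δ * l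

end BGE
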