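import Pool.Agent.BGE.Defs2
import Pool.Agent.BGE.NearDefs

/-!
BGE / Z. Definitions for the final part: hits in a cone, the dynamics in continuous time,
bigeodesics.
-/

namespace BGE

open MeasureTheory ProbabilityTheory

/-- the edge `(0,0) → (0,1)` is on a geodesic of length `2m + 1` which stays in the cone `κ` from
the distance `r0` on -/
def Gm (κ : ℝ) (r0 m : ℕ) : Set (ℤ × ℤ → ℝ) :=
  {ω | ∃ x : ℤ → ℤ, UR x (-(m : ℤ)) (m + 1) ∧ x 0 = 0 ∧ x 1 = 0 ∧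
    wt ω x (-(m : ℤ)) (m + 1) = T ω (pt x (-(m : ℤ))) (pt x (m + 1)) ∧
    (∀ l : ℤ, (r0 : ℤ) ≤ l → l ≤ m + 1 → κ * l ≤ x l ∧ κ * l ≤ ((l - x l : ℤ) : ℝ)) ∧
    (∀ l : ℤ, (r0 : ℤ) ≤ -l → -(m : ℤ) ≤ l →
      κ * (-l) ≤ -(x l : ℝ) ∧ κ * (-l) ≤ -((l - x l : ℤ) : ℝ))}

/-- hit at the scale `r` in the cone `κ` -/
def Gr (κ : ℝ) (r : ℕ) : Set (ℤ × ℤ → ℝ) :=
  {ω | ∃ z w : ℤ × ℤ, lev z = -(r : ℤ) ∧ lev w = r + 1 ∧ Cone κ z (0, 0) ∧ Cone κ (0, 1) w ∧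
    T ω z w = T ω z (0, 0) + T ω (0, 1) w}

/-- the top scale -/
noncomputable def nst (h : ℝ) : ℕ := ⌊(h⁻¹ / Real.log (1 / h) ^ (9 / 10 : ℝ)) ^ 3⌋₊

/-- number of rings of the clock at `v` in `[0, t]`; the clock rings at the times
`x (v, 0, false)`, `x (v, 0, false) + x (v, 1, false)`, ... -/
noncomputable def cnt (x : DI → ℝ) (v : ℤ × ℤ) (t : ℝ) : ℕ :=
  sInf {n : ℕ | t < ∑ i ∈ Finset.range (n + 1), x (v, i, false)}

/-- the environment at the time `t`: the weight at `v` is `x (v, n, true)` after `n` rings -/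
noncomputable def ct (x : DI → ℝ) (t : ℝ) : ℤ × ℤ → ℝ := fun v => x (v, cnt x v t, true)

/-- the noise seen through a transformation of the lattice -/
def trn (φ : ℤ × ℤ → ℤ × ℤ) (x : DI → ℝ) : DI → ℝ := fun d => x (φ d.1, d.2)

/-- bigeodesics, given by the first coordinate as a function of the level -/
def BiG (ω : ℤ × ℤ → ℝ) (x : ℤ → ℤ) : Prop :=
  (∀ l, x (l + 1) = x l ∨ x (l + 1) = x l + 1) ∧
    ∀ a b : ℤ, a ≤ b → wt ω x a b = T ω (pt x a) (pt x b)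

end BGE
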