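import Pool.Agent.BGE.Defs3
import Pool.Agent.BGE.ZDefs

/-!
Project BGE (MP_ab3734_pr), owner helper58. Definitions for the top scales.

`L = log (1/h)`, `lam = L^20`, `yy = L^{1/20000}` (fine slack), scales `nn h k`, `k = 0, ..., 25`, with
`h (nn h k)^{1/3} ~ L^{- esc k}`, `esc k = (9/10)(3/2)^k`; `nn h 0 = nst h` is the top scale,
`nn h 25` the lowest one (`esc 25 = 22726.05`, between `20 · 1136` and `20 · 1137`).
-/

namespace BGE

open MeasureTheory ProbabilityTheory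
open scoped ENNReal

noncomputable def yy (h : ℝ) : ℝ := Real.log (1 / h) ^ (1 / 20000 : ℝ)

noncomputable def esc (k : ℕ) : ℝ := 9 / 10 * (3 / 2) ^ k

noncomputable def nn (h : ℝ) (k : ℕ) : ℕ := ⌊(h⁻¹ / Real.log (1 / h) ^ esc k) ^ 3⌋₊

/-- the scale below which everything is crude -/
noncomputable def nb (h lam : ℝ) : ℕ := ⌊(nn h 25 : ℝ) / lam ^ 12⌋₊

/-- level spacing of the grid -/
noncomputable def dL (h lam : ℝ) : ℕ := ⌊(nn h 25 : ℝ) / lam ^ 30⌋₊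

/-- horizontal spacing of the grid -/
noncomputable def dD (h lam : ℝ) : ℕ := ⌊(nn h 25 : ℝ) ^ (2 / 3 : ℝ) / lam ^ 20⌋₊

/-- spacing of the grid on the row `0` -/
noncomputable def dI (h lam : ℝ) : ℕ := ⌊(nn h 25 : ℝ) ^ (2 / 3 : ℝ) / lam ^ 12⌋₊

/-- grid points: level `a dL`, deviation about `b dD` -/
noncomputable def gp (σ h lam : ℝ) (a b : ℤ) : ℤ × ℤ :=
  (⌊σ * (a * dL h lam) + b * dD h lam⌋, a * dL h lam - ⌊σ * (a * dL h lam) + b * dD h lam⌋)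

/-- fine concentration on the grid, outside of the levels `-nb, ..., nb + 1` -/
def TG (κ σ h lam : ℝ) : Set (ℤ × ℤ → ℝ) :=
  {ω | ∀ a b a' b' : ℤ, |(a : ℝ)| ≤ lam ^ 3500 → |(b : ℝ)| ≤ lam ^ 3500 →
    |(a' : ℝ)| ≤ lam ^ 3500 → |(b' : ℝ)| ≤ lam ^ 3500 →
    Cone (κ / 8) (gp σ h lam a b) (gp σ h lam a' b') →
    (lev (gp σ h lam a' b') ≤ -((nb h lam : ℤ) + 1) ∨ (nb h lam : ℤ) + 2 ≤ lev (gp σ h lam a b)) →
    dl (gp σ h lam a b) (gp σ h lam a' b') ≤ 8 * nn h 0 →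
    |T ω (gp σ h lam a b) (gp σ h lam a' b') - muz (gp σ h lam a b) (gp σ h lam a' b')| ≤
      yy h / 8 * (max (dl (gp σ h lam a b) (gp σ h lam a' b')) (nn h 25)) ^ (1 / 3 : ℝ)}

/-- fine arcs and parallelograms -/
noncomputable def farc (h : ℝ) (n : ℕ) : ℝ := yy h * (n : ℝ) ^ (2 / 3 : ℝ)

noncomputable def RF (σ h : ℝ) (n : ℕ) : Set (ℤ × ℤ) := Rgn σ (6 * farc h n) n

noncomputable def Kf (κ h : ℝ) (r : ℕ) : ℕ := ⌈96 / κ * yy h * (r : ℝ) ^ (2 / 3 : ℝ)⌉₊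

noncomputable def If (h : ℝ) (n : ℕ) : ℕ := ⌊(n : ℝ) ^ (2 / 3 : ℝ) / yy h ^ 3⌋₊

/-- the static event at the lowest fine scale -/
def BotS (σ h lam : ℝ) : Set (ℤ × ℤ → ℝ) :=
  {ω | NR σ (4 * farc h (nn h 25)) (nn h 25) 0 (2 ^ jT h lam (nb h lam)) 0
        (res (RF σ h (nn h 25)) ω) ∧
      NR σ (4 * farc h (nn h 25)) (nn h 25) 0 (If h (nn h 25)) (4 * sl h lam (nn h 25))
        (res (RF σ h (nn h 25)) ω)}

/-- the static event in the annulus between the scales `nn h (k+1)` and `nn h k` -/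
def AnnS (κ σ h : ℝ) (k : ℕ) : Set (ℤ × ℤ → ℝ) :=
  {ω | NR σ (4 * farc h (nn h k)) (nn h k) (Kf κ h (nn h (k + 1))) (If h (nn h k))
        (yy h ^ 6 * (nn h (k + 1) : ℝ) ^ (1 / 3 : ℝ))
        (res (RF σ h (nn h k) \ RF σ h (nn h (k + 1))) ω)}

/-- the good environments for the direction `σ` -/
def Gam (κ σ h lam : ℝ) : Set (ℤ × ℤ → ℝ) :=
  {ω | CrE (κ / 4) lam (16 * nn h 0) ω ∧ ω ∈ TG κ σ h lam}

/-- the restriction to the lowest parallelogram has a good extension with probability `≥ 1/2` -/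
def G1S (κ σ h lam : ℝ) : Set (ℤ × ℤ → ℝ) :=
  {ω | (1 / 2 : ℝ≥0∞) ≤ PI (ℤ × ℤ) {y | glue (RF σ h (nn h 25))ᶜ y ω ∈ Gam κ σ h lam}}

/-- the static class for one direction -/
def ClS (κ σ h lam : ℝ) : Set (ℤ × ℤ → ℝ) :=
  {ω | ω ∈ BotS σ h lam ∧ ω ∈ G1S κ σ h lam ∧ ∀ k < 25, ω ∈ AnnS κ σ h k}

/-- number of directions in the unit interval -/
noncomputable def nD (h : ℝ) : ℕ := ⌈(nn h 0 : ℝ) ^ (1 / 3 : ℝ)⌉₊

/-- the direction number `q` -/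
noncomputable def dir (h : ℝ) (q : ℕ) : ℝ := (q : ℝ) / nD h

/-- the static class -/
def Cls (κ h lam : ℝ) : Set (ℤ × ℤ → ℝ) :=
  {ω | ∃ q : ℕ, q ≤ nD h ∧ κ ≤ dir h q ∧ dir h q ≤ 1 - κ ∧ ω ∈ ClS κ (dir h q) h lam}

/-- number of the grid times -/
noncomputable def GG (lam : ℝ) : ℕ := ⌈lam ^ 2300⌉₊

/-- the grid time number `g` -/
noncomputable def gt (lam : ℝ) (M g : ℕ) : ℕ := g * ⌈(M : ℝ) / GG lam⌉₊

/-- the complement of the central parallelogram -/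
noncomputable def Sc (σ h lam : ℝ) : Set (ℤ × ℤ) := (RR σ lam (nb h lam))ᶜ

/-- fine stability between two environments, on the grid of the row `0`, outside of the centre -/
def ftsE (κ σ h lam : ℝ) (ω ω' : ℤ × ℤ → ℝ) : Prop :=
  ∀ k < 25, ∀ c : ℤ, |(c : ℝ)| ≤ lam ^ 3500 →
    (Kf κ h (nn h (k + 1)) : ℝ) ≤ |(c : ℝ)| * dI h lam →
    |(c : ℝ)| * dI h lam ≤ 2 * If h (nn h k) →
    ∀ P : ℤ × ℤ, P = PLp σ (4 * farc h (nn h k)) (nn h k) ∨
        P = PRp σ (4 * farc h (nn h k)) (nn h k) →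
      |T (res (Sc σ h lam) ω') P (c * dI h lam, 0) - T (res (Sc σ h lam) ω) P (c * dI h lam, 0)| ≤
        yy h ^ 5 * √(h * nn h k) ∧
      |T (res (Sc σ h lam) (rotE ω')) P (c * dI h lam, 0) -
        T (res (Sc σ h lam) (rotE ω)) P (c * dI h lam, 0)| ≤ yy h ^ 5 * √(h * nn h k)

/-- the fine events (which do not depend on the centre) hold at all the grid times -/
def FinX (κ σ h lam η : ℝ) (M : ℕ) : Set (DI → ℝ) :=
  {x | ∀ g ≤ GG lam, dyn η x (gt lam M g) ∈ TG κ σ h lam ∧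
    ftsE κ σ h lam (dyn η x 0) (dyn η x (gt lam M g))}

end BGE
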