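import Pool.Agent.BGE.Indep

/-!
BGE / F7. Resampling lemma.

`sect`: let `A` depend only on the coordinates outside of `S`, and let `B` be such that for every
`x ∈ A` the set of the `y` with `glue S y x ∈ B` has measure at least `1/2`. Then `μ A ≤ 2 μ (A ∩ B)`.
Proof. `(y, x) ↦ glue S y x` is measure preserving (`measurePreserving_glue`), and
`glue S y x ∈ A ↔ x ∈ A`; by Fubini `μ (A ∩ B) = ∫ 1_A(x) μ {y | glue S y x ∈ B} dμ(x) ≥ μ A/2`.
`measurable_sect`: measurability of the section function.
-/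

namespace BGE

open MeasureTheory ProbabilityTheory
open scoped ENNReal

variable {ι X : Type*} [MeasurableSpace X] (ν : ι → Measure X) [∀ i, IsProbabilityMeasure (ν i)]

theorem measurable_sect {S : Set ι} {B : Set (ι → X)} (hB : MeasurableSet B) :
    Measurable (fun x => Measure.infinitePi ν {y | glue S y x ∈ B}) := by
  have hpre : MeasurableSet ((fun z : (ι → X) × (ι → X) => glue S z.1 z.2) ⁻¹' B) :=
    (measurePreserving_glue ν S).measurable hB
  exact measurable_measure_prodMk_right hpre

theorem sect {S : Set ι} {A B : Set (ι → X)} (hA : MeasurableSet A) (hB : MeasurableSet B)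
    (hA' : DepOn Sᶜ A)
    (h : ∀ x ∈ A, (1 / 2 : ℝ≥0∞) ≤ Measure.infinitePi ν {y | glue S y x ∈ B}) :
    Measure.infinitePi ν A ≤ 2 * Measure.infinitePi ν (A ∩ B) := by
  have hmp := measurePreserving_glue ν S
  have hAB := hA.inter hB
  have hpre : MeasurableSet ((fun z : (ι → X) × (ι → X) => glue S z.1 z.2) ⁻¹' (A ∩ B)) :=
    hmp.measurable hAB
  have h1 : (1 / 2 : ℝ≥0∞) * Measure.infinitePi ν A ≤ Measure.infinitePi ν (A ∩ B) := by
    rw [← hmp.measure_preimage hAB.nullMeasurableSet, Measure.prod_apply_symm hpre]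
    calc (1 / 2 : ℝ≥0∞) * Measure.infinitePi ν A
        = ∫⁻ _ in A, (1 / 2 : ℝ≥0∞) ∂Measure.infinitePi ν := by
          rw [setLIntegral_const]
      _ ≤ ∫⁻ x in A, Measure.infinitePi ν ((fun y => (y, x)) ⁻¹'
            ((fun z : (ι → X) × (ι → X) => glue S z.1 z.2) ⁻¹' (A ∩ B)))
            ∂Measure.infinitePi ν := by
          refine setLIntegral_mono' hA fun x hx => ?_
          refine (h x hx).trans (measure_mono fun y hy => ⟨?_, hy⟩)
          refine (hA' _ _ fun i hi => ?_).1 hx
          change x i = glue S y x i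
          rw [glue, if_neg hi]
      _ ≤ ∫⁻ x, Measure.infinitePi ν ((fun y => (y, x)) ⁻¹'
            ((fun z : (ι → X) × (ι → X) => glue S z.1 z.2) ⁻¹' (A ∩ B)))
            ∂Measure.infinitePi ν := setLIntegral_le_lintegral _ _
  calc Measure.infinitePi ν A = 2 * ((1 / 2 : ℝ≥0∞) * Measure.infinitePi ν A) := by
        rw [← mul_assoc, one_div, ENNReal.mul_inv_cancel two_ne_zero ENNReal.ofNat_ne_top, one_mul]
    _ ≤ 2 * Measure.infinitePi ν (A ∩ B) := by gcongr

end BGE
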