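import Pool.Agent.BGE.FPar
import Pool.Agent.BGE.ConeTail
import Pool.Agent.BGE.CrProb
import Pool.Agent.BGE.GeoB
import Pool.Agent.BGE.Meas

/-!
BGE / F3. Tails of the fine events: they fail with probability smaller than any power of
`1/L`, `L = log (1/h)`.

`tg_prob`: union bound over at most `(2 lam^3500 + 1)^4` pairs, `cone_tail` for `κ/8` with
`(y/8) (max l n1)^{1/3} ≥ (y/16) (l+1)^{1/3}`: `C exp (-c y)` with `y = L^{1/20000}`, which is smaller
than `lam^{-14100} L^{-120000}` for large `L`.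

`fts_prob`: let `(ω, ω')` be the pair of the environments at the times `0` and `τ ≤ 2h` (law of
`(x.1, evo τ x)` under `mu3`). For fixed `k, c, P` (a polylogarithmic number of choices; `P` is a site
of the level `-n`, `n = nn h k`, the pair `(P, (c dI, 0))` has length `≤ 2n`), if `ω, ω'` are `CrE` then
`T (res Sc ω) P (i,0) = T ω P (i,0)` and the same for `ω'` because the geodesics avoid `RR σ lam nb`
(`avoid` with `Y = 2 lam`, `r = nb`: `(96/κ)(2 lam) nb^{2/3} ≤ Kf ≤ |i|` since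
`Kf ≥ (96/κ) y nn25^{2/3}` and `nn25 ≥ lam^12 nb`; `|i| ≤ 2 If ≤ lam n^{2/3}/4`; then `T_res_eq`), and by
`time_stab` with `y^5/2` in place of `y`: `|T ω' - T ω| ≤ (y^5/2)(√(τ (l+1)) + (log (l+3))³)
≤ y^5 √(h n) · 2` fails with probability `C exp (-c y^{5/4})`; to get exactly `y^5 √(h n)` use
`time_stab` with `y^5/8` (`√(2h · 2n) = 2 √(h n)`, and `(log (l+3))³ ≤ (4L)³ ≤ √(h n)`).
For the rotated environments: the pair `(rotE ω, rotE ω')` has the same law.
`P(¬ CrE) ≤ h^9` (`crE_prob`). The sum is smaller than `L^{-120000}`.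
-/

namespace BGE

open MeasureTheory ProbabilityTheory

section Aux

variable {α : Type*} [MeasurableSpace α]

private theorem ft_le {f g : α → ℝ} (hf : Measurable f) (hg : Measurable g) :
    Measurable fun x => f x ≤ g x := measurableSet_setOfPred.1 (measurableSet_le hf hg)

private theorem ft_c (p : Prop) : Measurable fun _ : α => p := measurable_const

end Aux

theorem measurableSet_TG (κ σ h lam : ℝ) : MeasurableSet (TG κ σ h lam) := by
  refine measurableSet_setOfPred.2 ?_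
  refine Measurable.forall fun a => Measurable.forall fun b => Measurable.forall fun a' =>
    Measurable.forall fun b' => ?_
  refine (ft_c _).imp ((ft_c _).imp ((ft_c _).imp ((ft_c _).imp ((ft_c _).imp ((ft_c _).imp
    ((ft_c _).imp ?_))))))
  exact ft_le ((measurable_T _ _).sub_const _).abs measurable_const

theorem measurableSet_ftsE (κ σ h lam : ℝ) :
    MeasurableSet {x : (ℤ × ℤ → ℝ) × (ℤ × ℤ → ℝ) | ftsE κ σ h lam x.1 x.2} := by
  refine measurableSet_setOfPred.2 ?_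
  unfold ftsE
  refine Measurable.forall fun k => (ft_c _).imp ?_
  refine Measurable.forall fun c => (ft_c _).imp ((ft_c _).imp ((ft_c _).imp ?_))
  refine Measurable.forall fun P => (ft_c _).imp ?_
  have h1 : ∀ (R : Set (ℤ × ℤ)) (u v : ℤ × ℤ), Measurable fun ω : ℤ × ℤ → ℝ => T (res R ω) u v :=
    fun R u v => (measurable_T u v).comp (measurable_res R)
  refine (ft_le ?_ measurable_const).and (ft_le ?_ measurable_const)
  · exact (((h1 _ _ _).comp measurable_snd).sub ((h1 _ _ _).comp measurable_fst)).abs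
  · exact (((h1 _ _ _).comp (measurable_rotE.comp measurable_snd)).sub
      ((h1 _ _ _).comp (measurable_rotE.comp measurable_fst))).abs

/-- exponentials beat powers -/
private theorem ft_big (K b : ℝ) (k : ℕ) (hb : 0 < b) : ∃ y0 : ℝ, 1 ≤ y0 ∧ ∀ y, y0 ≤ y →
    K * y ^ k * Real.exp (-(b * y)) ≤ 1 := by
  have h := isLittleO_pow_exp_pos_mul_atTop (k := k) (b := b) hb
  have h2 := h.bound (c := (|K| + 1)⁻¹) (by positivity)
  rw [Filter.eventually_atTop] at h2
  obtain ⟨a, ha⟩ := h2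
  refine ⟨max a 1, le_max_right _ _, fun y hy => ?_⟩
  have h3 := ha y ((le_max_left _ _).trans hy)
  have hy1 : 1 ≤ y := (le_max_right _ _).trans hy
  have hyk : 0 ≤ y ^ k := by positivity
  rw [Real.norm_of_nonneg hyk, Real.norm_of_nonneg (Real.exp_pos _).le] at h3
  have hK : 0 < |K| + 1 := by positivity
  calc K * y ^ k * Real.exp (-(b * y)) ≤ (|K| + 1) * y ^ k * Real.exp (-(b * y)) := by
        refine mul_le_mul_of_nonneg_right (mul_le_mul_of_nonneg_right ?_ hyk) (Real.exp_pos _).le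
        linarith [le_abs_self K]
    _ ≤ (|K| + 1) * ((|K| + 1)⁻¹ * Real.exp (b * y)) * Real.exp (-(b * y)) :=
        mul_le_mul_of_nonneg_right (mul_le_mul_of_nonneg_left h3 hK.le) (Real.exp_pos _).le
    _ = 1 := by
        rw [← mul_assoc, mul_inv_cancel₀ hK.ne', one_mul, ← Real.exp_add, add_neg_cancel,
          Real.exp_zero]

private theorem ft_union {Ω J : Type*} [MeasurableSpace Ω] (μ : Measure Ω)
    [IsProbabilityMeasure μ] (S : Finset J) (E : J → Set Ω) {b : ℝ}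
    (hE : ∀ i ∈ S, μ.real (E i) ≤ b) : μ.real {x | ∃ i ∈ S, x ∈ E i} ≤ S.card * b := by
  have h0 : {x | ∃ i ∈ S, x ∈ E i} = ⋃ i ∈ S, E i := by
    ext x
    simp
  rw [h0]
  refine (measureReal_biUnion_finset_le _ _).trans ?_
  refine (Finset.sum_le_sum hE).trans ?_
  rw [Finset.sum_const, nsmul_eq_mul]

/-- the integers of absolute value at most `X` -/
private noncomputable def ftS (X : ℝ) : Finset ℤ := Finset.Icc (-⌊X⌋) ⌊X⌋

private theorem ft_mem {X : ℝ} {a : ℤ} (h : |(a : ℝ)| ≤ X) : a ∈ ftS X := by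
  have h1 := abs_le.1 h
  have h2 : a ≤ ⌊X⌋ := Int.le_floor.2 h1.2
  have h3 : -a ≤ ⌊X⌋ := by
    apply Int.le_floor.2
    push_cast
    linarith
  rw [ftS, Finset.mem_Icc]
  omega

private theorem ft_card {X : ℝ} (h : 1 ≤ X) : ((ftS X).card : ℝ) ≤ 3 * X := by
  have h1 : 0 ≤ ⌊X⌋ := Int.floor_nonneg.2 (by linarith)
  have h2 : ((ftS X).card : ℤ) = 2 * ⌊X⌋ + 1 := by
    rw [ftS, Int.card_Icc, Int.toNat_of_nonneg (by omega)]
    ring
  have h3 : ((ftS X).card : ℝ) = 2 * (⌊X⌋ : ℝ) + 1 := by exact_mod_cast h2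
  rw [h3]
  have := Int.floor_le X
  linarith

private theorem ft_max {d n : ℝ} (hd : 0 ≤ d) (hn : 1 ≤ n) :
    (d + 1) ^ (1 / 3 : ℝ) / 2 ≤ (max d n) ^ (1 / 3 : ℝ) := by
  have h1 : (d + 1) / 8 ≤ max d n := by
    have h2 := le_max_left d n
    have h3 := le_max_right d n
    linarith
  have h4 : (d + 1) ^ (1 / 3 : ℝ) / 2 = ((d + 1) / 8) ^ (1 / 3 : ℝ) := by
    rw [Real.div_rpow (by linarith) (by norm_num)]
    congr 1
    rw [show (8 : ℝ) = 2 ^ (3 : ℝ) by norm_num, ← Real.rpow_mul (by norm_num)]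
    norm_num
  rw [h4]
  exact Real.rpow_le_rpow (by linarith) h1 (by norm_num)

theorem tg_prob {κ : ℝ} (hκ : 0 < κ) : ∃ C1 : ℝ, 2 ≤ C1 ∧ ∀ (σ h lam : ℝ), HP C1 h lam →
    κ ≤ σ → σ ≤ 1 - κ →
    (PI (ℤ × ℤ)).real (TG κ σ h lam)ᶜ ≤ (Real.log (1 / h) ^ 120000)⁻¹ := by
  obtain ⟨C, c, hC, hc, H⟩ := cone_tail (κ := κ / 8) (by positivity)
  obtain ⟨y0, hy01, hy0⟩ := ft_big (81 * C) (c / 16) (20000 * (20 * (3500 * 4) + 120000))
    (by positivity)
  obtain ⟨C1, hC1, F1⟩ := fy y0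
  obtain ⟨C2, hC2, F2⟩ := fn 1
  refine ⟨max C1 C2, hC1.trans (le_max_left _ _), ?_⟩
  intro σ h lam hp _ _
  obtain ⟨hy, -, hyL⟩ := F1 h lam (hp.mono (le_max_left _ _))
  have hfn := (F2 h lam (hp.mono (le_max_right _ _))).1 25 le_rfl
  have hC12 : (2 : ℝ) ≤ max C1 C2 := hC1.trans (le_max_left _ _)
  have hb := hp_basic hC12 hp
  have hlam : 1 ≤ lam := by linarith [hb.1]
  have hlamL : lam = Real.log (1 / h) ^ 20 := hp.2.2.2.1
  set L := Real.log (1 / h) with hL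
  set y := yy h with hyd
  have hy1 : 1 ≤ y := hy01.trans hy
  have hL0 : 0 < L := by linarith [hp.2.2.1]
  have hn25 : (1 : ℝ) ≤ nn h 25 := by
    have h1 := hfn.2.2.2.1
    have h2 : (1 : ℝ) ≤ lam ^ 3 := one_le_pow₀ hlam
    linarith
  set X := lam ^ 3500 with hX
  have hX1 : 1 ≤ X := one_le_pow₀ hlam
  set S := ftS X with hS
  set E : (ℤ × ℤ) × (ℤ × ℤ) → Set (ℤ × ℤ → ℝ) := fun r =>
    {ω | Cone (κ / 8) (gp σ h lam r.1.1 r.1.2) (gp σ h lam r.2.1 r.2.2) ∧
      y / 16 * (((lev (gp σ h lam r.2.1 r.2.2) - lev (gp σ h lam r.1.1 r.1.2) : ℤ) : ℝ) + 1) ^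
        (1 / 3 : ℝ) ≤ |T ω (gp σ h lam r.1.1 r.1.2) (gp σ h lam r.2.1 r.2.2) -
        mu (((gp σ h lam r.2.1 r.2.2).1 - (gp σ h lam r.1.1 r.1.2).1 : ℤ))
          (((gp σ h lam r.2.1 r.2.2).2 - (gp σ h lam r.1.1 r.1.2).2 : ℤ))|} with hE
  have hsub : (TG κ σ h lam)ᶜ ⊆ {ω | ∃ r ∈ (S ×ˢ S) ×ˢ (S ×ˢ S), ω ∈ E r} := by
    intro ω hω
    by_contra hcon
    apply hω
    intro a b a' b' ha hb' ha' hb2 hcone _ _
    by_contra hlt
    apply hcon
    refine ⟨((a, b), (a', b')), ?_, hcone, ?_⟩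
    · simp only [Finset.mem_product]
      exact ⟨⟨ft_mem ha, ft_mem hb'⟩, ft_mem ha', ft_mem hb2⟩
    · rw [not_le] at hlt
      refine le_trans ?_ hlt.le
      have hd : 0 ≤ dl (gp σ h lam a b) (gp σ h lam a' b') := by
        unfold dl
        exact_mod_cast sub_nonneg.2 (lev_le_lev hcone.1)
      have h1 := ft_max hd hn25
      have h2 : y / 8 * ((dl (gp σ h lam a b) (gp σ h lam a' b') + 1) ^ (1 / 3 : ℝ) / 2) ≤
          y / 8 * (max (dl (gp σ h lam a b) (gp σ h lam a' b')) (nn h 25)) ^ (1 / 3 : ℝ) :=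
        mul_le_mul_of_nonneg_left h1 (by positivity)
      refine le_trans (le_of_eq ?_) h2
      simp only [dl]
      ring
  have hEb : ∀ r ∈ (S ×ˢ S) ×ˢ (S ×ˢ S), (PI (ℤ × ℤ)).real (E r) ≤
      C * Real.exp (-(c * (y / 16))) := by
    intro r _
    by_cases hcone : Cone (κ / 8) (gp σ h lam r.1.1 r.1.2) (gp σ h lam r.2.1 r.2.2)
    · have h1 : E r ⊆ {ω | y / 16 * (((lev (gp σ h lam r.2.1 r.2.2) -
          lev (gp σ h lam r.1.1 r.1.2) : ℤ) : ℝ) + 1) ^
          (1 / 3 : ℝ) ≤ |T ω (gp σ h lam r.1.1 r.1.2) (gp σ h lam r.2.1 r.2.2) -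
          mu (((gp σ h lam r.2.1 r.2.2).1 - (gp σ h lam r.1.1 r.1.2).1 : ℤ))
            (((gp σ h lam r.2.1 r.2.2).2 - (gp σ h lam r.1.1 r.1.2).2 : ℤ))|} := fun ω hω => hω.2
      refine (measureReal_mono h1 (measure_ne_top _ _)).trans ?_
      exact H _ _ hcone.1 hcone.2.1 hcone.2.2 (y / 16) (by positivity)
    · have h1 : E r = ∅ := by
        ext ω
        simp only [hE, Set.mem_ofPred_eq, Set.mem_empty_iff_false, iff_false]
        exact fun h => hcone h.1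
      rw [h1, measureReal_empty]
      positivity
  have hfin := (measureReal_mono hsub (measure_ne_top _ _)).trans
    (ft_union (PI (ℤ × ℤ)) _ E hEb)
  refine hfin.trans ?_
  have hcard : (((S ×ˢ S) ×ˢ (S ×ˢ S)).card : ℝ) ≤ 81 * X ^ 4 := by
    rw [Finset.card_product, Finset.card_product]
    push_cast
    have h1 := ft_card hX1
    have h0 : (0 : ℝ) ≤ S.card := Nat.cast_nonneg _
    calc (S.card : ℝ) * S.card * (S.card * S.card) = (S.card : ℝ) ^ 4 := by ring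
      _ ≤ (3 * X) ^ 4 := pow_le_pow_left₀ h0 h1 4
      _ = 81 * X ^ 4 := by ring
  have key := hy0 y hy
  have e1 : y ^ (20000 * (20 * (3500 * 4) + 120000)) = X ^ 4 * L ^ 120000 := by
    rw [pow_mul, hyL, pow_add, pow_mul, ← hlamL, pow_mul, ← hX]
  rw [e1] at key
  rw [← one_div, le_div_iff₀ (by positivity)]
  refine le_trans ?_ key
  have e2 : -(c * (y / 16)) = -(c / 16 * y) := by ring
  rw [e2]
  calc (((S ×ˢ S) ×ˢ (S ×ˢ S)).card : ℝ) * (C * Real.exp (-(c / 16 * y))) * L ^ 120000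
      ≤ (81 * X ^ 4) * (C * Real.exp (-(c / 16 * y))) * L ^ 120000 := by
        refine mul_le_mul_of_nonneg_right ?_ (by positivity)
        exact mul_le_mul_of_nonneg_right hcard (by positivity)
    _ = 81 * C * (X ^ 4 * L ^ 120000) * Real.exp (-(c / 16 * y)) := by ring

/-- size of `h n` -/
private theorem ft_hn {C1 h lam : ℝ} (hC1 : 2 ≤ C1) (hp : HP C1 h lam) {k : ℕ} (hk : k ≤ 25)
    {n : ℝ} (hn0 : 0 ≤ n)
    (hn : h⁻¹ / Real.log (1 / h) ^ esc k / 2 ≤ n ^ (1 / 3 : ℝ)) : lam ^ 10 ≤ h * n := by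
  obtain ⟨b, hb0, hb3, hb1, -⟩ := gb_cb hn0
  rw [hb1] at hn
  have hb := hp_basic hC1 hp
  obtain ⟨h0, h1, h2, h3, h4⟩ := hp
  set L := Real.log (1 / h) with hL
  have hL1 : 1 ≤ L := by linarith
  have hlam2 : 2 ≤ lam := by linarith [hb.1]
  have hlam1 : 1 ≤ lam := by linarith
  have hesc : esc k ≤ 22740 := by
    have e1 : esc k ≤ esc 25 := by
      unfold esc
      exact mul_le_mul_of_nonneg_left (pow_le_pow_right₀ (by norm_num) hk) (by norm_num)
    refine e1.trans ?_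
    unfold esc
    norm_num
  have hLe : L ^ esc k ≤ lam ^ 1137 := by
    have e1 : L ^ esc k ≤ L ^ (22740 : ℝ) := Real.rpow_le_rpow_of_exponent_le hL1 hesc
    refine e1.trans (le_of_eq ?_)
    rw [h3, ← pow_mul, ← Real.rpow_natCast]
    norm_num
  have hLe0 : 0 < L ^ esc k := Real.rpow_pos_of_pos (by linarith) _
  have hinv : 0 < h⁻¹ := inv_pos.2 h0
  have i1 : h⁻¹ ≤ b * (2 * lam ^ 1137) := by
    have e1 : h⁻¹ ≤ b * 2 * L ^ esc k := by
      rw [div_div, div_le_iff₀ (by positivity)] at hn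
      linarith
    refine e1.trans ?_
    have : b * 2 * L ^ esc k ≤ b * 2 * lam ^ 1137 :=
      mul_le_mul_of_nonneg_left hLe (by positivity)
    linarith
  have i2 : lam ^ (1000 * 1000) ≤ h⁻¹ := by
    have e1 := pow_le_pow_left₀ (by positivity) h4 1000
    rw [← pow_mul] at e1
    refine e1.trans (le_of_eq ?_)
    rw [← Real.rpow_natCast, ← Real.rpow_mul hinv.le]
    norm_num
  have i3 : lam ^ 1200 ≤ b := by
    have e1 : lam ^ 1200 * (2 * lam ^ 1137) ≤ b * (2 * lam ^ 1137) := by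
      calc lam ^ 1200 * (2 * lam ^ 1137) = 2 * lam ^ 2337 := by ring
        _ ≤ lam * lam ^ 2337 := mul_le_mul_of_nonneg_right hlam2 (by positivity)
        _ = lam ^ 2338 := by ring
        _ ≤ lam ^ (1000 * 1000) := pow_le_pow_right₀ hlam1 (by norm_num)
        _ ≤ h⁻¹ := i2
        _ ≤ _ := i1
    exact le_of_mul_le_mul_right e1 (by positivity)
  have i4 : 1 ≤ h * b * (2 * lam ^ 1137) := by
    have e1 := mul_le_mul_of_nonneg_left i1 h0.le
    rw [mul_inv_cancel₀ h0.ne'] at e1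
    linarith
  have i5 : lam ^ 10 * (2 * lam ^ 1137) ≤ h * n * (2 * lam ^ 1137) := by
    calc lam ^ 10 * (2 * lam ^ 1137) = 2 * lam ^ 1147 := by ring
      _ ≤ lam * lam ^ 1147 := mul_le_mul_of_nonneg_right hlam2 (by positivity)
      _ = lam ^ 1148 := by ring
      _ ≤ lam ^ (1200 * 2) := pow_le_pow_right₀ hlam1 (by norm_num)
      _ = 1 * (lam ^ 1200) ^ 2 := by rw [pow_mul, one_mul]
      _ ≤ (h * b * (2 * lam ^ 1137)) * b ^ 2 :=
          mul_le_mul i4 (pow_le_pow_left₀ (by positivity) i3 2) (by positivity)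
            (by linarith)
      _ = h * b ^ 3 * (2 * lam ^ 1137) := by ring
      _ = _ := by rw [hb3]
  exact le_of_mul_le_mul_right i5 (by positivity)

private theorem ft_num {C1 h lam : ℝ} (hC1 : 2 ≤ C1) (hp : HP C1 h lam) {k : ℕ} (hk : k ≤ 25)
    {n τ d : ℝ} (hn0 : 1 ≤ n)
    (hn : h⁻¹ / Real.log (1 / h) ^ esc k / 2 ≤ n ^ (1 / 3 : ℝ)) (hn3 : n ≤ h⁻¹ ^ 3) (hτ : 0 ≤ τ)
    (hτh : τ ≤ 2 * h) (hd : 0 ≤ d) (hdn : d + 1 ≤ 2 * n) :
    √(τ * (d + 1)) + Real.log (d + 3) ^ 3 ≤ 8 * √(h * n) := by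
  have hhn := ft_hn hC1 hp hk (by linarith) hn
  have hb := hp_basic hC1 hp
  obtain ⟨h0, h1, h2, h3, h4⟩ := hp
  set L := Real.log (1 / h) with hL
  have hL2 : 2 ≤ L := by linarith
  have hinv : 0 < h⁻¹ := inv_pos.2 h0
  have j1 : √(τ * (d + 1)) ≤ 2 * √(h * n) := by
    have e1 : τ * (d + 1) ≤ 2 ^ 2 * (h * n) := by
      calc τ * (d + 1) ≤ (2 * h) * (2 * n) := mul_le_mul hτh hdn (by linarith) (by positivity)
        _ = _ := by ring
    refine (Real.sqrt_le_sqrt e1).trans (le_of_eq ?_)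
    rw [Real.sqrt_mul (by norm_num), Real.sqrt_sq (by norm_num)]
  have hh4 : 4 ≤ h⁻¹ := by
    have e1 : Real.exp L = h⁻¹ := by
      rw [hL, Real.exp_log (by positivity), one_div]
    rw [← e1]
    have e2 : Real.exp 2 ≤ Real.exp L := Real.exp_le_exp.2 hL2
    have e3 : Real.exp 2 = Real.exp 1 * Real.exp 1 := by rw [← Real.exp_add]; norm_num
    have e4 : (2 : ℝ) ≤ Real.exp 1 := by
      have := Real.add_one_le_exp (1 : ℝ)
      linarith
    nlinarith
  have j2 : Real.log (d + 3) ≤ 4 * L := by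
    have e1 : d + 3 ≤ h⁻¹ ^ 4 := by
      calc d + 3 ≤ 4 * n := by linarith
        _ ≤ h⁻¹ * h⁻¹ ^ 3 := mul_le_mul hh4 hn3 (by linarith) hinv.le
        _ = _ := by ring
    have e2 := Real.log_le_log (by linarith) e1
    refine e2.trans (le_of_eq ?_)
    rw [Real.log_pow, hL, one_div]
    norm_num
  have j3 : Real.log (d + 3) ^ 3 ≤ 6 * √(h * n) := by
    have hlog0 : 0 ≤ Real.log (d + 3) := Real.log_nonneg (by linarith)
    have e1 : Real.log (d + 3) ^ 3 ≤ (4 * L) ^ 3 := pow_le_pow_left₀ hlog0 j2 3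
    refine e1.trans ?_
    have e2 : ((4 * L) ^ 3 / 6) ^ 2 ≤ h * n := by
      refine le_trans ?_ hhn
      have e3 : lam ^ 10 = L ^ 6 * L ^ 194 := by
        rw [h3]
        ring
      have e4 : (2 : ℝ) ^ 7 ≤ L ^ 194 :=
        (pow_le_pow_left₀ (by norm_num) hL2 7).trans (pow_le_pow_right₀ (by linarith) (by norm_num))
      rw [e3]
      calc ((4 * L) ^ 3 / 6) ^ 2 = L ^ 6 * (4096 / 36) := by ring
        _ ≤ L ^ 6 * L ^ 194 := mul_le_mul_of_nonneg_left (by linarith) (by positivity)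
    have e5 : (4 * L) ^ 3 / 6 ≤ √(h * n) := Real.le_sqrt_of_sq_le e2
    linarith
  linarith

private theorem ft_lev_dev {σ A : ℝ} (hA : 0 ≤ A) (n : ℕ) {P : ℤ × ℤ}
    (hP : P = PLp σ A n ∨ P = PRp σ A n) : lev P = -(n : ℤ) ∧ |dev σ P| ≤ A + 1 := by
  have hlev : lev P = -(n : ℤ) := by
    rcases hP with rfl | rfl
    · unfold lev PLp
      ring
    · unfold lev PRp
      ring
  refine ⟨hlev, ?_⟩
  have h1 : dev σ P = P.1 + σ * (n + 1 / 2) := by
    unfold dev
    rw [hlev]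
    push_cast
    ring
  rw [h1, abs_le]
  rcases hP with rfl | rfl
  · have h2 : (((PLp σ A n).1 : ℤ) : ℝ) ≤ -(σ * ((n : ℝ) + 1 / 2)) - A := Int.floor_le _
    have h3 : -(σ * ((n : ℝ) + 1 / 2)) - A < (((PLp σ A n).1 : ℤ) : ℝ) + 1 :=
      Int.lt_floor_add_one _
    constructor <;> linarith
  · have h2 : -(σ * ((n : ℝ) + 1 / 2)) + A ≤ (((PRp σ A n).1 : ℤ) : ℝ) := Int.le_ceil _
    have h3 : (((PRp σ A n).1 : ℤ) : ℝ) < -(σ * ((n : ℝ) + 1 / 2)) + A + 1 :=
      Int.ceil_lt_add_one _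
    constructor <;> linarith

/-- geometry of one pair, and the effect of the restriction -/
private theorem ft_geo {κ : ℝ} (hκ : 0 < κ) : ∃ C1 : ℝ, 2 ≤ C1 ∧ ∀ (σ h lam : ℝ),
    HP C1 h lam → κ ≤ σ → σ ≤ 1 - κ → ∀ k < 25, ∀ c : ℤ,
    (Kf κ h (nn h (k + 1)) : ℝ) ≤ |(c : ℝ)| * dI h lam →
    |(c : ℝ)| * dI h lam ≤ 2 * If h (nn h k) →
    ∀ P : ℤ × ℤ, P = PLp σ (4 * farc h (nn h k)) (nn h k) ∨
        P = PRp σ (4 * farc h (nn h k)) (nn h k) →
      P ≤ (c * dI h lam, 0) ∧ dl P (c * dI h lam, 0) + 1 ≤ 2 * nn h k ∧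
      ∀ ω : ℤ × ℤ → ℝ, (∀ z, 0 ≤ ω z) → CrE κ lam (4 * nn h 0) ω →
        T (res (Sc σ h lam) ω) P (c * dI h lam, 0) = T ω P (c * dI h lam, 0) := by
  obtain ⟨A0, hA0, HA⟩ := avoid hκ
  obtain ⟨G1, hG1, HG⟩ := good_crude hκ
  obtain ⟨c0, hc0⟩ : ∃ c0 : ℝ, c0 = 10 ^ 5 / κ ^ 2 := ⟨_, rfl⟩
  obtain ⟨C0, hC0⟩ : ∃ C0 : ℝ, C0 = max (max A0 G1) (c0 ^ 3) := ⟨_, rfl⟩
  have hC0A : A0 ≤ C0 := by rw [hC0]; exact (le_max_left _ _).trans (le_max_left _ _)
  have hC0G : G1 ≤ C0 := by rw [hC0]; exact (le_max_right _ _).trans (le_max_left _ _)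
  have hC0c : c0 ^ 3 ≤ C0 := by rw [hC0]; exact le_max_right _ _
  obtain ⟨F1, hF1, HF⟩ := fy 1
  obtain ⟨N1, hN1, HN⟩ := fn C0
  obtain ⟨B1, hB1, HB⟩ := fb C0
  refine ⟨max (max (max F1 N1) (max B1 C0)) (max G1 8), ?_, ?_⟩
  · exact hF1.trans (((le_max_left _ _).trans (le_max_left _ _)).trans (le_max_left _ _))
  intro σ h lam hp hσ hσ' k hk c hc1 hc2 P hP
  have hpF : HP F1 h lam :=
    hp.mono (((le_max_left _ _).trans (le_max_left _ _)).trans (le_max_left _ _))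
  have hpN : HP N1 h lam :=
    hp.mono (((le_max_right _ _).trans (le_max_left _ _)).trans (le_max_left _ _))
  have hpB : HP B1 h lam :=
    hp.mono (((le_max_left _ _).trans (le_max_right _ _)).trans (le_max_left _ _))
  have hpG : HP G1 h lam := hp.mono ((le_max_left _ _).trans (le_max_right _ _))
  have hbas := hp_basic (hF1.trans (((le_max_left _ _).trans (le_max_left _ _)).trans
    (le_max_left _ _))) hp
  have hlamC : C0 ≤ lam :=
    (((le_max_right _ _).trans (le_max_right _ _)).trans (le_max_left _ _)).trans hbas.1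
  have hlam8 : 8 ≤ lam := ((le_max_right _ _).trans (le_max_right _ _)).trans hbas.1
  have hlam1 : 1 ≤ lam := by linarith
  obtain ⟨hy1, hylam, -⟩ := HF h lam hpF
  obtain ⟨hN, -⟩ := HN h lam hpN
  obtain ⟨-, hnbC, hnb8, -, hnb25, -⟩ := HB h lam hpB
  obtain ⟨-, -, -, hnC, hn25, hn0⟩ := hN k (by omega)
  obtain ⟨-, -, -, -, hk25, -⟩ := hN (k + 1) (by omega)
  set n := nn h k with hnd
  set r := nb h lam with hr
  set i : ℤ := c * dI h lam with hi
  have hiR : |(i : ℝ)| = |(c : ℝ)| * dI h lam := by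
    rw [hi]
    push_cast
    rw [abs_mul, Nat.abs_cast]
  rw [← hiR] at hc1 hc2
  have hfarc : farc h n = yy h * (n : ℝ) ^ (2 / 3 : ℝ) := rfl
  have hn23 : 0 ≤ (n : ℝ) ^ (2 / 3 : ℝ) := by positivity
  have hy0 : 0 < yy h := by linarith
  have hA4 : 0 ≤ 4 * farc h n := by rw [hfarc]; positivity
  obtain ⟨hlevP, hdevP⟩ := ft_lev_dev hA4 n hP
  have hdevP' : |dev σ P| ≤ 4 * (2 * lam) * (n : ℝ) ^ (2 / 3 : ℝ) + 1 := by
    refine hdevP.trans ?_
    rw [hfarc]
    have : yy h * (n : ℝ) ^ (2 / 3 : ℝ) ≤ (2 * lam) * (n : ℝ) ^ (2 / 3 : ℝ) :=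
      mul_le_mul_of_nonneg_right (by linarith) hn23
    linarith
  have hi8 : |(i : ℝ)| ≤ 2 * lam * (n : ℝ) ^ (2 / 3 : ℝ) / 8 := by
    have e1 : (If h n : ℝ) ≤ (n : ℝ) ^ (2 / 3 : ℝ) := by
      have e2 : (If h n : ℝ) ≤ (n : ℝ) ^ (2 / 3 : ℝ) / yy h ^ 3 := Nat.floor_le (by positivity)
      refine e2.trans (div_le_self hn23 (one_le_pow₀ hy1))
    have e3 : 8 * (n : ℝ) ^ (2 / 3 : ℝ) ≤ lam * (n : ℝ) ^ (2 / 3 : ℝ) :=
      mul_le_mul_of_nonneg_right hlam8 hn23
    linarith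
  have hpar : ∀ A : ℝ, A ≤ C0 → Par A κ σ lam (2 * lam) (C0 * lam ^ 3) n := by
    intro A hA
    exact ⟨hσ, hσ', by linarith, le_rfl,
      mul_le_mul_of_nonneg_right hA (by positivity), hnC⟩
  -- geometry
  obtain ⟨b, hb0, hb3, -, hb2⟩ := gb_cb (Nat.cast_nonneg (α := ℝ) n)
  have hgeo := gb_geo hκ (le_of_eq hc0.symm) (hpar _ hC0c) hlevP hb0 hb3
    (by rw [← hb2]; exact hdevP') (i := i) (by rw [← hb2]; exact hi8)
  obtain ⟨hPi, -, -, -, -, -, hdl, hi4, -⟩ := hgeo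
  have hn2 : (2 : ℝ) ≤ n := by
    refine le_trans ?_ hnC
    have e1 : (1 : ℝ) ≤ lam ^ 3 := one_le_pow₀ hlam1
    have e2 : (2 : ℝ) ≤ C0 := hG1.trans hC0G
    nlinarith
  refine ⟨hPi, ?_, ?_⟩
  · rw [hdl]
    have := le_abs_self (i : ℝ)
    linarith
  intro ω hω hCr
  apply T_res_eq hPi hω
  intro w hw
  have hG := HG C0 σ h lam n (4 * nn h 0) ω hC0G hpG hσ hσ' hnC (by omega) hCr
  have hKi : 96 / κ * (2 * lam) * (r : ℝ) ^ (2 / 3 : ℝ) ≤ |(i : ℝ)| := by
    refine le_trans ?_ hc1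
    have e1 : 96 / κ * yy h * (nn h (k + 1) : ℝ) ^ (2 / 3 : ℝ) ≤ Kf κ h (nn h (k + 1)) :=
      Nat.le_ceil _
    refine le_trans ?_ e1
    have e2 : (lam ^ 12 * (r : ℝ)) ^ (2 / 3 : ℝ) ≤ (nn h (k + 1) : ℝ) ^ (2 / 3 : ℝ) := by
      refine Real.rpow_le_rpow (by positivity) (hnb25.trans ?_) (by norm_num)
      exact_mod_cast hk25
    have e3 : (lam ^ 12 * (r : ℝ)) ^ (2 / 3 : ℝ) = lam ^ 8 * (r : ℝ) ^ (2 / 3 : ℝ) := by
      rw [Real.mul_rpow (by positivity) (by positivity)]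
      congr 1
      rw [← Real.rpow_natCast, ← Real.rpow_mul (by positivity)]
      norm_num
    have e4 : 2 * lam ≤ lam ^ 8 := by
      have : lam ^ 8 = lam ^ 7 * lam := by ring
      rw [this]
      refine mul_le_mul_of_nonneg_right ?_ (by positivity)
      have : lam ^ 1 ≤ lam ^ 7 := pow_le_pow_right₀ hlam1 (by norm_num)
      linarith
    have hr23 : 0 ≤ (r : ℝ) ^ (2 / 3 : ℝ) := by positivity
    have hk0 : 0 ≤ 96 / κ := by positivity
    calc 96 / κ * (2 * lam) * (r : ℝ) ^ (2 / 3 : ℝ) = 96 / κ * ((2 * lam) * (r : ℝ) ^ (2 / 3 : ℝ)) := by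
          ring
      _ ≤ 96 / κ * (lam ^ 8 * (r : ℝ) ^ (2 / 3 : ℝ)) :=
          mul_le_mul_of_nonneg_left (mul_le_mul_of_nonneg_right e4 hr23) hk0
      _ ≤ 96 / κ * (nn h (k + 1) : ℝ) ^ (2 / 3 : ℝ) := by
          rw [← e3]
          exact mul_le_mul_of_nonneg_left e2 hk0
      _ ≤ 96 / κ * (yy h * (nn h (k + 1) : ℝ) ^ (2 / 3 : ℝ)) := by
          refine mul_le_mul_of_nonneg_left ?_ hk0
          exact le_mul_of_one_le_left (by positivity) hy1
      _ = _ := by ring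
  have hav := HA σ lam (2 * lam) (C0 * lam ^ 3) n ω (hpar _ hC0A) hG P hlevP hdevP' r hnbC
    (by omega) i hi8 hKi w hw
  exact hav

/-- the law of the evolved environment -/
private theorem ft_evo {τ : ℝ} (hτ : 0 ≤ τ) : MeasurePreserving (evo τ) mu3 (PI (ℤ × ℤ)) := by
  have hme := ts_measurable_evo τ
  refine ⟨hme, ?_⟩
  have h1 := dyn_pair hτ 0 1
  have h2 := congrArg (Measure.map Prod.snd) h1
  rw [Measure.map_map measurable_snd ((measurable_dyn τ 0).prodMk (measurable_dyn τ (0 + 1))),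
    Measure.map_map measurable_snd (measurable_fst.prodMk (ts_measurable_evo _))] at h2
  have h3 : (Prod.snd ∘ fun x : DI → ℝ => (dyn τ x 0, dyn τ x (0 + 1))) =
      fun x : DI → ℝ => dyn τ x (0 + 1) := rfl
  have h4 : (Prod.snd ∘ fun y : Env3 => (y.1, evo ((1 : ℕ) * τ) y)) = evo τ := by
    funext y
    simp
  rw [h3, h4, (dyn_law τ (0 + 1)).map_eq] at h2
  exact h2.symm

private theorem ft_fst : MeasurePreserving (fun x : Env3 => x.1) mu3 (PI (ℤ × ℤ)) := by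
  unfold mu3
  exact measurePreserving_fst

/-- the good set for one environment -/
private def ftG (κ lam : ℝ) (m : ℕ) : Set (ℤ × ℤ → ℝ) :=
  {ω | ¬ ((∀ z, 0 ≤ ω z) ∧ CrE κ lam m ω)}

private theorem ft_G_meas (κ lam : ℝ) (m : ℕ) : MeasurableSet (ftG κ lam m) := by
  refine measurableSet_setOfPred.2 (Measurable.not ?_)
  refine (Measurable.forall fun z => ft_le measurable_const (measurable_pi_apply z)).and ?_
  exact measurableSet_setOfPred.1 measurableSet_CrE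

private theorem ft_G_prob (κ lam : ℝ) (m : ℕ) : (PI (ℤ × ℤ)).real (ftG κ lam m) ≤
    (PI (ℤ × ℤ)).real {ω | ¬ CrE κ lam m ω} := by
  have h1 : ftG κ lam m ⊆ {ω | ¬ ∀ z, 0 ≤ ω z} ∪ {ω | ¬ CrE κ lam m ω} := by
    intro ω hω
    by_cases h : ∀ z, 0 ≤ ω z
    · right
      intro hc
      exact hω ⟨h, hc⟩
    · left
      exact h
  refine (measureReal_mono h1 (measure_ne_top _ _)).trans ((measureReal_union_le _ _).trans ?_)
  have h2 : (PI (ℤ × ℤ)).real {ω | ¬ ∀ z, 0 ≤ ω z} = 0 := by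
    rw [measureReal_def, ae_iff.1 ae_nonneg, ENNReal.toReal_zero]
  rw [h2, zero_add]

theorem fts_prob {κ : ℝ} (hκ : 0 < κ) : ∃ C1 : ℝ, 2 ≤ C1 ∧ ∀ (σ h lam τ : ℝ), HP C1 h lam →
    κ ≤ σ → σ ≤ 1 - κ → 0 ≤ τ → τ ≤ 2 * h →
    mu3.real {x | ¬ ftsE κ σ h lam x.1 (evo τ x)} ≤ (Real.log (1 / h) ^ 120000)⁻¹ := by
  obtain ⟨Ct, ct, hCt, hct, HT⟩ := time_stab
  obtain ⟨Ce, ce, hCe, hce, HE⟩ := crE_prob hκ
  obtain ⟨G1, hG1, HG⟩ := ft_geo hκ
  obtain ⟨y0, hy01, hy0⟩ := ft_big (600 * Ct) (ct / 8) (20000 * (20 * 3500 + 120000))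
    (by positivity)
  obtain ⟨L0, hL01, hL0⟩ := ft_big (1024 * Ce) 1 120000 one_pos
  obtain ⟨F1, hF1, HF⟩ := fy (max y0 8)
  obtain ⟨N1, hN1, HN⟩ := fn 1
  refine ⟨max (max G1 F1) (max (max N1 L0) (13 / ce)),
    hG1.trans ((le_max_left _ _).trans (le_max_left _ _)), ?_⟩
  intro σ h lam τ hp hσ hσ' hτ hτh
  have hpG : HP G1 h lam := hp.mono ((le_max_left _ _).trans (le_max_left _ _))
  have hpF : HP F1 h lam := hp.mono ((le_max_right _ _).trans (le_max_left _ _))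
  have hpN : HP N1 h lam :=
    hp.mono (((le_max_left _ _).trans (le_max_left _ _)).trans (le_max_right _ _))
  have hLL0 : L0 ≤ Real.log (1 / h) :=
    (((le_max_right _ _).trans (le_max_left _ _)).trans (le_max_right _ _)).trans hp.2.2.1
  have hLce : 13 / ce ≤ Real.log (1 / h) :=
    ((le_max_right _ _).trans (le_max_right _ _)).trans hp.2.2.1
  have hbas := hp_basic hG1 hpG
  obtain ⟨hy, -, hyL⟩ := HF h lam hpF
  obtain ⟨hN, -⟩ := HN h lam hpN
  have hgeo := HG σ h lam hpG hσ hσ'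
  have hlamL : lam = Real.log (1 / h) ^ 20 := hp.2.2.2.1
  have hL2 : 2 ≤ Real.log (1 / h) := hG1.trans hpG.2.2.1
  have hlam1 : 1 ≤ lam := by linarith [hbas.1]
  have hh0 : 0 < h := hp.1
  set L := Real.log (1 / h) with hL
  set y := yy h with hyd
  have hyy0 : y0 ≤ y := (le_max_left _ _).trans hy
  have hy8 : 8 ≤ y := (le_max_right _ _).trans hy
  have hy1 : 1 ≤ y := by linarith
  set X := lam ^ 3500 with hX
  have hX1 : 1 ≤ X := one_le_pow₀ hlam1
  set S := ftS X with hS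
  set m := 4 * nn h 0 with hm
  -- the points
  set Pt : (ℕ × ℤ) × (Bool × Bool) → ℤ × ℤ := fun r =>
    if r.2.1 = true then PLp σ (4 * farc h (nn h r.1.1)) (nn h r.1.1)
      else PRp σ (4 * farc h (nn h r.1.1)) (nn h r.1.1) with hPt
  set U : (ℕ × ℤ) × (Bool × Bool) → ℤ × ℤ := fun r =>
    if r.2.2 = true then Pt r else rot (r.1.2 * dI h lam, 0) with hU
  set V : (ℕ × ℤ) × (Bool × Bool) → ℤ × ℤ := fun r =>
    if r.2.2 = true then (r.1.2 * dI h lam, 0) else rot (Pt r) with hV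
  set E : (ℕ × ℤ) × (Bool × Bool) → Set Env3 := fun r =>
    {x | ((Kf κ h (nn h (r.1.1 + 1)) : ℝ) ≤ |(r.1.2 : ℝ)| * dI h lam ∧
      |(r.1.2 : ℝ)| * dI h lam ≤ 2 * If h (nn h r.1.1)) ∧
      y ^ 5 * √(h * nn h r.1.1) ≤ |T (evo τ x) (U r) (V r) - T x.1 (U r) (V r)|} with hE
  set J : Finset ((ℕ × ℤ) × (Bool × Bool)) := (Finset.range 25 ×ˢ S) ×ˢ Finset.univ with hJ
  have hsub : {x : Env3 | ¬ ftsE κ σ h lam x.1 (evo τ x)} ⊆
      ((fun x : Env3 => x.1) ⁻¹' ftG κ lam m ∪ evo τ ⁻¹' ftG κ lam m) ∪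
        {x | ∃ r ∈ J, x ∈ E r} := by
    intro x hx
    by_contra hcon
    rw [Set.mem_union, Set.mem_union, not_or, not_or] at hcon
    obtain ⟨⟨g1, g2⟩, g3⟩ := hcon
    have g1' : (∀ z, 0 ≤ x.1 z) ∧ CrE κ lam m x.1 := by
      by_contra hc
      exact g1 hc
    have g2' : (∀ z, 0 ≤ evo τ x z) ∧ CrE κ lam m (evo τ x) := by
      by_contra hc
      exact g2 hc
    apply hx
    intro k hk c hc hc1 hc2 P hP
    obtain ⟨hPi, -, hres⟩ := hgeo k hk c hc1 hc2 P hP
    have hkS : k ∈ Finset.range 25 := Finset.mem_range.2 hk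
    have hcS : c ∈ S := ft_mem hc
    obtain ⟨s, hs⟩ : ∃ s : Bool, ∀ t : Bool, Pt ((k, c), (s, t)) = P := by
      rcases hP with rfl | rfl
      · exact ⟨true, fun t => by simp only [hPt, if_true]⟩
      · exact ⟨false, fun t => by simp only [hPt]; rfl⟩
    have key : ∀ t : Bool, |T (evo τ x) (U ((k, c), (s, t))) (V ((k, c), (s, t))) -
        T x.1 (U ((k, c), (s, t))) (V ((k, c), (s, t)))| < y ^ 5 * √(h * nn h k) := by
      intro t
      by_contra hcon
      rw [not_lt] at hcon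
      apply g3
      refine ⟨((k, c), (s, t)), ?_, ⟨hc1, hc2⟩, hcon⟩
      simp only [hJ, Finset.mem_product, Finset.mem_univ, and_true]
      exact ⟨hkS, hcS⟩
    have hrot : ∀ ω : ℤ × ℤ → ℝ, (∀ z, 0 ≤ ω z) → ∀ z, 0 ≤ rotE ω z := fun ω hω z => hω _
    refine ⟨?_, ?_⟩
    · rw [hres _ g1'.1 g1'.2, hres _ g2'.1 g2'.2]
      have h1 := key true
      have e1 : U ((k, c), (s, true)) = P := by simp only [hU, if_true, hs]
      have e2 : V ((k, c), (s, true)) = ((c * dI h lam, 0) : ℤ × ℤ) := by simp only [hV, if_true]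
      rw [e1, e2] at h1
      exact h1.le
    · rw [hres _ (hrot _ g1'.1) (crE_rot.2 g1'.2), hres _ (hrot _ g2'.1) (crE_rot.2 g2'.2),
        T_rotE hPi, T_rotE hPi]
      have h1 := key false
      have e1 : U ((k, c), (s, false)) = rot (c * dI h lam, 0) := by
        simp only [hU]
        rfl
      have e2 : V ((k, c), (s, false)) = rot P := by
        rw [← hs false]
        simp only [hV]
        rfl
      rw [e1, e2] at h1
      exact h1.le
  have hEb : ∀ r ∈ J, mu3.real (E r) ≤ Ct * Real.exp (-(ct / 8 * y)) := by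
    intro r hr
    simp only [hJ, Finset.mem_product, Finset.mem_range, Finset.mem_univ, and_true] at hr
    by_cases hval : (Kf κ h (nn h (r.1.1 + 1)) : ℝ) ≤ |(r.1.2 : ℝ)| * dI h lam ∧
      |(r.1.2 : ℝ)| * dI h lam ≤ 2 * If h (nn h r.1.1)
    · have hPr : Pt r = PLp σ (4 * farc h (nn h r.1.1)) (nn h r.1.1) ∨
          Pt r = PRp σ (4 * farc h (nn h r.1.1)) (nn h r.1.1) := by
        simp only [hPt]
        by_cases hb : r.2.1 = true
        · left
          rw [if_pos hb]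
        · right
          rw [if_neg hb]
      obtain ⟨hPi, hdl, -⟩ := hgeo r.1.1 hr.1 r.1.2 hval.1 hval.2 (Pt r) hPr
      have hUV : U r ≤ V r ∧ dl (U r) (V r) = dl (Pt r) (r.1.2 * dI h lam, 0) := by
        simp only [hU, hV]
        by_cases hb : r.2.2 = true
        · rw [if_pos hb, if_pos hb]
          exact ⟨hPi, rfl⟩
        · rw [if_neg hb, if_neg hb]
          exact ⟨rot_le.2 hPi, dl_rot _ _⟩
      obtain ⟨hn1, -, hn3, hnC, -, -⟩ := hN r.1.1 (by omega)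
      have hn1' : (1 : ℝ) ≤ nn h r.1.1 := by
        have e1 : (1 : ℝ) ≤ lam ^ 3 := one_le_pow₀ hlam1
        linarith
      have hd0 : 0 ≤ dl (U r) (V r) := by
        unfold dl
        exact_mod_cast sub_nonneg.2 (lev_le_lev hUV.1)
      have hnum := ft_num hG1 hpG (k := r.1.1) (by omega) hn1' hn1 hn3 hτ hτh hd0
        (by rw [hUV.2]; exact hdl)
      have hy5 : 1 ≤ y ^ 5 / 8 := by
        rw [le_div_iff₀ (by norm_num)]
        have : y ^ 1 ≤ y ^ 5 := pow_le_pow_right₀ hy1 (by norm_num)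
        linarith
      have hsubE : E r ⊆ {x : Env3 |
          y ^ 5 / 8 * (√(τ * (((lev (V r) - lev (U r) : ℤ) : ℝ) + 1)) +
            Real.log (((lev (V r) - lev (U r) : ℤ) : ℝ) + 3) ^ 3) ≤
            |T (evo τ x) (U r) (V r) - T x.1 (U r) (V r)|} := by
        intro x hx
        refine le_trans ?_ hx.2
        have e1 := mul_le_mul_of_nonneg_left hnum (show 0 ≤ y ^ 5 / 8 by linarith)
        refine e1.trans (le_of_eq ?_)
        ring
      refine (measureReal_mono hsubE (measure_ne_top _ _)).trans ?_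
      refine (HT (U r) (V r) hUV.1 τ (y ^ 5 / 8) hτ hy5).trans ?_
      refine mul_le_mul_of_nonneg_left (Real.exp_le_exp.2 ?_) hCt.le
      have e2 : y / 8 ≤ (y ^ 5 / 8) ^ (1 / 4 : ℝ) := by
        have e3 : ((y / 8) ^ 4) ^ (1 / 4 : ℝ) = y / 8 := by
          rw [← Real.rpow_natCast, ← Real.rpow_mul (by positivity)]
          norm_num
        rw [← e3]
        refine Real.rpow_le_rpow (by positivity) ?_ (by norm_num)
        have e4 : y ^ 4 ≤ y ^ 5 := pow_le_pow_right₀ hy1 (by norm_num)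
        have e5 : (y / 8) ^ 4 = y ^ 4 / 4096 := by ring
        rw [e5]
        have e6 : 0 ≤ y ^ 4 := by positivity
        linarith
      have e7 := mul_le_mul_of_nonneg_left e2 hct.le
      linarith
    · have h1 : E r = ∅ := by
        ext x
        simp only [hE, Set.mem_ofPred_eq, Set.mem_empty_iff_false, iff_false]
        exact fun h => hval h.1
      rw [h1, measureReal_empty]
      positivity
  -- sum up
  have hB1 : mu3.real ((fun x : Env3 => x.1) ⁻¹' ftG κ lam m) ≤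
      Ce * (m : ℝ) ^ 4 * Real.exp (-(ce * lam)) := by
    rw [measureReal_def, ft_fst.measure_preimage (ft_G_meas κ lam m).nullMeasurableSet,
      ← measureReal_def]
    refine (ft_G_prob κ lam m).trans (HE lam m hlam1 ?_)
    obtain ⟨-, -, -, hnC, -, -⟩ := hN 0 (by norm_num)
    have e1 : (1 : ℝ) ≤ lam ^ 3 := one_le_pow₀ hlam1
    have e2 : (1 : ℝ) ≤ nn h 0 := by linarith
    have e3 : 1 ≤ nn h 0 := by exact_mod_cast e2
    omega
  have hB2 : mu3.real (evo τ ⁻¹' ftG κ lam m) ≤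
      Ce * (m : ℝ) ^ 4 * Real.exp (-(ce * lam)) := by
    rw [measureReal_def, (ft_evo hτ).measure_preimage (ft_G_meas κ lam m).nullMeasurableSet,
      ← measureReal_def]
    refine (ft_G_prob κ lam m).trans (HE lam m hlam1 ?_)
    obtain ⟨-, -, -, hnC, -, -⟩ := hN 0 (by norm_num)
    have e1 : (1 : ℝ) ≤ lam ^ 3 := one_le_pow₀ hlam1
    have e2 : (1 : ℝ) ≤ nn h 0 := by linarith
    have e3 : 1 ≤ nn h 0 := by exact_mod_cast e2
    omega
  have hcard : (J.card : ℝ) ≤ 300 * X := by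
    rw [hJ, Finset.card_product, Finset.card_product, Finset.card_range]
    have e1 : (Finset.univ : Finset (Bool × Bool)).card = 4 := rfl
    rw [e1]
    push_cast
    have := ft_card hX1
    linarith
  have hU3 := ft_union mu3 J E hEb
  have htot : mu3.real {x : Env3 | ¬ ftsE κ σ h lam x.1 (evo τ x)} ≤
      2 * (Ce * (m : ℝ) ^ 4 * Real.exp (-(ce * lam))) +
        300 * X * (Ct * Real.exp (-(ct / 8 * y))) := by
    refine (measureReal_mono hsub (measure_ne_top _ _)).trans ?_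
    refine (measureReal_union_le _ _).trans ?_
    have e1 := measureReal_union_le (μ := mu3) ((fun x : Env3 => x.1) ⁻¹' ftG κ lam m)
      (evo τ ⁻¹' ftG κ lam m)
    have e2 : (J.card : ℝ) * (Ct * Real.exp (-(ct / 8 * y))) ≤
        300 * X * (Ct * Real.exp (-(ct / 8 * y))) :=
      mul_le_mul_of_nonneg_right hcard (by positivity)
    linarith
  refine htot.trans ?_
  have hL0' : 0 < L ^ 120000 := by positivity
  rw [← one_div, le_div_iff₀ hL0', add_mul]
  have k1 : 2 * (Ce * (m : ℝ) ^ 4 * Real.exp (-(ce * lam))) * L ^ 120000 ≤ 1 / 2 := by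
    have e1 := hL0 L hLL0
    have hexpL : Real.exp L = h⁻¹ := by
      rw [hL, Real.exp_log (by positivity), one_div]
    obtain ⟨-, -, hn3, -, -, -⟩ := hN 0 (by norm_num)
    have e2 : (m : ℝ) ≤ 4 * Real.exp (3 * L) := by
      have e3 : Real.exp (3 * L) = h⁻¹ ^ 3 := by
        rw [← hexpL, ← Real.exp_nat_mul]
        norm_num
      rw [e3, hm]
      push_cast
      linarith
    have e4 : (m : ℝ) ^ 4 ≤ 256 * Real.exp (12 * L) := by
      have e5 := pow_le_pow_left₀ (Nat.cast_nonneg m) e2 4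
      have e6 : Real.exp (3 * L) ^ 4 = Real.exp (12 * L) := by
        rw [← Real.exp_nat_mul]
        congr 1
        push_cast
        ring
      refine e5.trans (le_of_eq ?_)
      rw [mul_pow, e6]
      norm_num
    have e6 : 13 * L ≤ ce * lam := by
      rw [hlamL]
      have e7 : L * L ≤ L ^ 20 := by
        rw [← pow_two]
        exact pow_le_pow_right₀ (by linarith) (by norm_num)
      have e8 : 13 ≤ ce * L := by
        rw [div_le_iff₀ hce] at hLce
        linarith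
      calc 13 * L ≤ (ce * L) * L := mul_le_mul_of_nonneg_right e8 (by linarith)
        _ = ce * (L * L) := by ring
        _ ≤ ce * L ^ 20 := mul_le_mul_of_nonneg_left e7 hce.le
    have e9 : Real.exp (-(ce * lam)) ≤ Real.exp (-(13 * L)) := Real.exp_le_exp.2 (by linarith)
    have e10 : Real.exp (12 * L) * Real.exp (-(13 * L)) = Real.exp (-(1 * L)) := by
      rw [← Real.exp_add]
      congr 1
      ring
    calc 2 * (Ce * (m : ℝ) ^ 4 * Real.exp (-(ce * lam))) * L ^ 120000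
        ≤ 2 * (Ce * (256 * Real.exp (12 * L)) * Real.exp (-(13 * L))) * L ^ 120000 := by
          refine mul_le_mul_of_nonneg_right (mul_le_mul_of_nonneg_left ?_ (by norm_num)) hL0'.le
          refine mul_le_mul ?_ e9 (Real.exp_pos _).le (by positivity)
          exact mul_le_mul_of_nonneg_left e4 (by linarith)
      _ = 1 / 2 * (1024 * Ce * L ^ 120000 * (Real.exp (12 * L) * Real.exp (-(13 * L)))) := by ring
      _ ≤ 1 / 2 * 1 := by
          rw [e10]
          exact mul_le_mul_of_nonneg_left e1 (by norm_num)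
      _ = 1 / 2 := by norm_num
  have k2 : 300 * X * (Ct * Real.exp (-(ct / 8 * y))) * L ^ 120000 ≤ 1 / 2 := by
    have key := hy0 y hyy0
    have e1 : y ^ (20000 * (20 * 3500 + 120000)) = X * L ^ 120000 := by
      rw [pow_mul, hyL, pow_add, pow_mul, ← hlamL]
    rw [e1] at key
    calc 300 * X * (Ct * Real.exp (-(ct / 8 * y))) * L ^ 120000 =
        1 / 2 * (600 * Ct * (X * L ^ 120000) * Real.exp (-(ct / 8 * y))) := by ring
      _ ≤ 1 / 2 * 1 := mul_le_mul_of_nonneg_left key (by norm_num)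
      _ = 1 / 2 := by norm_num
  linarith

end BGE
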