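import Pool.Agent.BGE.FPar
import Pool.Agent.BGE.FTail
import Pool.Agent.BGE.FSect
import Pool.Agent.BGE.DepB

/-!
BGE / F8. Measurability and dependence of the fine events.

`RR σ lam nb ⊆ RF nn25 ⊆ RF nn24 ⊆ ...` (levels: `nb ≤ nn25 ≤ ...`; widths: `12 lam nb^{2/3} ≤
6 y nn25^{2/3}` since `lam^12 nb ≤ nn25`, `fb`). `TG` depends only on weights outside of the levels
`-nb, ..., nb + 1` (the passage times between two grid points below or above the centre), hence on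
the complement of `RR σ lam nb`; `ftsE` by definition on `res (Sc)`, and `Sc` is symmetric under
`rot` (`res_rotE'`). `G1S`: `glue Rᶜ y ω` depends on `ω` only through the weights in `R`; measurable
by `measurable_sect`.
-/

namespace BGE

open MeasureTheory ProbabilityTheory

private theorem fd_Rgn {σ a b : ℝ} {m n : ℕ} (h1 : m ≤ n) (h2 : a ≤ b) : Rgn σ a m ⊆ Rgn σ b n := by
  rintro z ⟨ha, hb, hc⟩
  exact ⟨by omega, by omega, hc.trans h2⟩

private theorem fd_RF {σ h : ℝ} {m n : ℕ} (hy : 0 ≤ yy h) (h1 : m ≤ n) : RF σ h m ⊆ RF σ h n := by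
  refine fd_Rgn h1 ?_
  have h2 : (m : ℝ) ≤ n := by exact_mod_cast h1
  have h3 : (m : ℝ) ^ (2 / 3 : ℝ) ≤ (n : ℝ) ^ (2 / 3 : ℝ) :=
    Real.rpow_le_rpow (Nat.cast_nonneg m) h2 (by norm_num)
  unfold farc
  have := mul_le_mul_of_nonneg_left h3 hy
  linarith

theorem RF_sub {κ : ℝ} : ∃ C1 : ℝ, 2 ≤ C1 ∧ ∀ (σ h lam : ℝ), HP C1 h lam → κ ≤ σ → σ ≤ 1 - κ →
    RR σ lam (nb h lam) ⊆ RF σ h (nn h 25) ∧
    ∀ k < 25, RF σ h (nn h (k + 1)) ⊆ RF σ h (nn h k) := by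
  obtain ⟨A, hA2, hA⟩ := fy 1
  obtain ⟨B, hB2, hB⟩ := fn 1
  obtain ⟨C, hC2, hC⟩ := fb 1
  refine ⟨max A (max B C), hA2.trans (le_max_left _ _), ?_⟩
  intro σ h lam hp _ _
  have hb := hp_basic (hA2.trans (le_max_left _ _)) hp
  obtain ⟨hy1, -, -⟩ := hA h lam (hp.mono (le_max_left _ _))
  obtain ⟨-, hn, -⟩ := hB h lam (hp.mono ((le_max_left _ _).trans (le_max_right _ _)))
  obtain ⟨-, -, h8, -, h12, -⟩ :=
    hC h lam (hp.mono ((le_max_right _ _).trans (le_max_right _ _)))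
  have hl2 : (2 : ℝ) ≤ lam := (hA2.trans (le_max_left _ _)).trans hb.1
  refine ⟨?_, ?_⟩
  · refine fd_Rgn (by omega) ?_
    unfold arc farc
    have h1 : (lam ^ 12 * (nb h lam : ℝ)) ^ (2 / 3 : ℝ) ≤ (nn h 25 : ℝ) ^ (2 / 3 : ℝ) :=
      Real.rpow_le_rpow (by positivity) h12 (by norm_num)
    rw [Real.mul_rpow (by positivity) (Nat.cast_nonneg _)] at h1
    have h2 : (lam ^ 12) ^ (2 / 3 : ℝ) = lam ^ 8 := by
      rw [← Real.rpow_natCast, ← Real.rpow_mul (by linarith), ← Real.rpow_natCast]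
      norm_num
    rw [h2] at h1
    obtain ⟨u, hu⟩ : ∃ u : ℝ, u = (nb h lam : ℝ) ^ (2 / 3 : ℝ) := ⟨_, rfl⟩
    obtain ⟨w, hw⟩ : ∃ w : ℝ, w = (nn h 25 : ℝ) ^ (2 / 3 : ℝ) := ⟨_, rfl⟩
    have hu0 : 0 ≤ u := by
      rw [hu]
      positivity
    have hw0 : 0 ≤ w := by
      rw [hw]
      positivity
    rw [← hu, ← hw] at h1 ⊢
    have h3 : 2 * lam ≤ lam ^ 8 := by
      have h4 : (2 : ℝ) ≤ lam ^ 7 := by
        calc (2 : ℝ) ≤ lam := hl2
          _ ≤ lam ^ 7 := le_self_pow₀ (by linarith) (by norm_num)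
      calc 2 * lam ≤ lam ^ 7 * lam := mul_le_mul_of_nonneg_right h4 (by linarith)
        _ = lam ^ 8 := by ring
    have h5 : 2 * lam * u ≤ lam ^ 8 * u := mul_le_mul_of_nonneg_right h3 hu0
    have h6 : w ≤ yy h * w := by
      have := mul_le_mul_of_nonneg_right hy1 hw0
      linarith
    linarith
  · intro k hk
    have h1 := (hn k hk).1
    refine fd_RF (by linarith) ?_
    rw [one_mul] at h1
    exact_mod_cast h1

/-- the event of the lowest scale for a general environment -/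
private def fdP (σ h lam : ℝ) (ω : ℤ × ℤ → ℝ) : Prop :=
  NR σ (4 * farc h (nn h 25)) (nn h 25) 0 (2 ^ jT h lam (nb h lam)) 0 ω ∧
    NR σ (4 * farc h (nn h 25)) (nn h 25) 0 (If h (nn h 25)) (4 * sl h lam (nn h 25)) ω

theorem measurableSet_BotS (σ h lam : ℝ) : MeasurableSet (BotS σ h lam) := by
  have h1 : MeasurableSet {ω | fdP σ h lam ω} := measurableSet_NR.inter measurableSet_NR
  exact measurableSet_res h1 _

theorem measurableSet_AnnS (κ σ h : ℝ) (k : ℕ) : MeasurableSet (AnnS κ σ h k) := by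
  exact measurableSet_res measurableSet_NR _

theorem measurableSet_Gam (κ σ h lam : ℝ) : MeasurableSet (Gam κ σ h lam) := by
  have h1 : MeasurableSet {ω : ℤ × ℤ → ℝ | CrE (κ / 4) lam (16 * nn h 0) ω} := measurableSet_CrE
  exact h1.inter (measurableSet_TG κ σ h lam)

theorem measurableSet_G1S (κ σ h lam : ℝ) : MeasurableSet (G1S κ σ h lam) := by
  have h1 : Measurable (fun x => PI (ℤ × ℤ)
      {y | glue (RF σ h (nn h 25))ᶜ y x ∈ Gam κ σ h lam}) :=
    measurable_sect (fun _ : ℤ × ℤ => E1) (measurableSet_Gam κ σ h lam)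
  exact measurableSet_le measurable_const h1

theorem measurableSet_ClS (κ σ h lam : ℝ) : MeasurableSet (ClS κ σ h lam) := by
  have h1 : ClS κ σ h lam = BotS σ h lam ∩ (G1S κ σ h lam ∩ ⋂ k ∈ {k : ℕ | k < 25},
      AnnS κ σ h k) := by
    ext ω
    unfold ClS
    simp only [Set.mem_ofPred_eq, Set.mem_inter_iff, Set.mem_iInter]
  rw [h1]
  refine (measurableSet_BotS σ h lam).inter ((measurableSet_G1S κ σ h lam).inter ?_)
  exact MeasurableSet.biInter (Set.to_countable _) fun k _ => measurableSet_AnnS κ σ h k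

theorem measurableSet_Cls (κ h lam : ℝ) : MeasurableSet (Cls κ h lam) := by
  have h1 : Cls κ h lam = ⋃ q ∈ {q : ℕ | q ≤ nD h ∧ κ ≤ dir h q ∧ dir h q ≤ 1 - κ},
      ClS κ (dir h q) h lam := by
    ext ω
    unfold Cls
    simp only [Set.mem_ofPred_eq, Set.mem_iUnion, exists_prop, and_assoc]
  rw [h1]
  exact MeasurableSet.biUnion (Set.to_countable _) fun q _ => measurableSet_ClS κ _ h lam

theorem measurableSet_FinX (κ σ h lam η : ℝ) (M : ℕ) :
    MeasurableSet (FinX κ σ h lam η M) := by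
  have h1 : FinX κ σ h lam η M = ⋂ g ∈ {g : ℕ | g ≤ GG lam},
      ({x : DI → ℝ | dyn η x (gt lam M g) ∈ TG κ σ h lam} ∩
        {x : DI → ℝ | (dyn η x 0, dyn η x (gt lam M g)) ∈
          {p : (ℤ × ℤ → ℝ) × (ℤ × ℤ → ℝ) | ftsE κ σ h lam p.1 p.2}}) := by
    ext x
    unfold FinX
    simp only [Set.mem_ofPred_eq, Set.mem_inter_iff, Set.mem_iInter]
  rw [h1]
  refine MeasurableSet.biInter (Set.to_countable _) fun g _ => ?_
  refine (measurableSet_dyn (measurableSet_TG κ σ h lam) η _).inter ?_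
  exact ((measurable_dyn η 0).prodMk (measurable_dyn η (gt lam M g)))
    (measurableSet_ftsE κ σ h lam)

theorem depOn_BotS (σ h lam : ℝ) : DepOn (RF σ h (nn h 25)) (BotS σ h lam) := by
  exact depOn_res (fdP σ h lam) _

theorem depOn_AnnS (κ σ h : ℝ) (k : ℕ) :
    DepOn (RF σ h (nn h k) \ RF σ h (nn h (k + 1))) (AnnS κ σ h k) := by
  exact depOn_res (fun ω => NR σ (4 * farc h (nn h k)) (nn h k) (Kf κ h (nn h (k + 1)))
    (If h (nn h k)) (yy h ^ 6 * (nn h (k + 1) : ℝ) ^ (1 / 3 : ℝ)) ω) _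

theorem depOn_G1S (κ σ h lam : ℝ) : DepOn (RF σ h (nn h 25)) (G1S κ σ h lam) := by
  intro x y hxy
  have h1 : ∀ v : ℤ × ℤ → ℝ, glue (RF σ h (nn h 25))ᶜ v x = glue (RF σ h (nn h 25))ᶜ v y := by
    intro v
    funext i
    unfold glue
    by_cases hi : i ∈ (RF σ h (nn h 25))ᶜ
    · rw [if_pos hi, if_pos hi]
    · rw [if_neg hi, if_neg hi]
      exact hxy i (by simpa using hi)
  unfold G1S
  simp only [Set.mem_ofPred_eq, h1]

theorem depOn_TG (κ σ h lam : ℝ) : DepOn (Sc σ h lam) (TG κ σ h lam) := by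
  intro x y hxy
  have key : ∀ p q : ℤ × ℤ, p ≤ q → (lev q ≤ -((nb h lam : ℤ) + 1) ∨ (nb h lam : ℤ) + 2 ≤ lev p) →
      T x p q = T y p q := by
    intro p q hpq hlev
    refine T_congr hpq fun z hz1 hz2 => hxy z ?_
    rintro ⟨ha, hb, -⟩
    have h1 := lev_le_lev hz1
    have h2 := lev_le_lev hz2
    rcases hlev with h3 | h3 <;> omega
  unfold TG
  constructor
  · intro hx a b a' b' h1 h2 h3 h4 h5 h6 h7
    rw [← key _ _ h5.1 h6]
    exact hx a b a' b' h1 h2 h3 h4 h5 h6 h7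
  · intro hx a b a' b' h1 h2 h3 h4 h5 h6 h7
    rw [key _ _ h5.1 h6]
    exact hx a b a' b' h1 h2 h3 h4 h5 h6 h7

private theorem fd_Sc_rot {σ h lam : ℝ} {z : ℤ × ℤ} : rot z ∈ Sc σ h lam ↔ z ∈ Sc σ h lam := by
  unfold Sc
  rw [Set.mem_compl_iff, Set.mem_compl_iff, RR_rot]

private theorem fd_res {σ h lam : ℝ} {ω w : ℤ × ℤ → ℝ} (hω : ∀ z ∈ Sc σ h lam, ω z = w z) :
    res (Sc σ h lam) ω = res (Sc σ h lam) w := by
  funext z
  unfold res
  by_cases hz : z ∈ Sc σ h lam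
  · rw [if_pos hz, if_pos hz, hω z hz]
  · rw [if_neg hz, if_neg hz]

private theorem fd_res_rot {σ h lam : ℝ} {ω w : ℤ × ℤ → ℝ} (hω : ∀ z ∈ Sc σ h lam, ω z = w z) :
    res (Sc σ h lam) (rotE ω) = res (Sc σ h lam) (rotE w) :=
  fd_res fun z hz => hω (rot z) (fd_Sc_rot.2 hz)

private theorem fd_fts {κ σ h lam : ℝ} {ω ω' w w' : ℤ × ℤ → ℝ}
    (h1 : ∀ z ∈ Sc σ h lam, ω z = w z) (h2 : ∀ z ∈ Sc σ h lam, ω' z = w' z) :
    ftsE κ σ h lam ω ω' ↔ ftsE κ σ h lam w w' := by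
  unfold ftsE
  rw [fd_res h1, fd_res h2, fd_res_rot h1, fd_res_rot h2]

private theorem fd_dyn {x y : DI → ℝ} {R : Set (ℤ × ℤ)} (h : ∀ d ∈ nz R, x d = y d) (η : ℝ)
    (i : ℕ) {v : ℤ × ℤ} (hv : v ∈ R) : dyn η x i v = dyn η y i v := by
  have h1 : DepOn R {ω : ℤ × ℤ → ℝ | ω v = dyn η y i v} := by
    intro a b hab
    simp only [Set.mem_ofPred_eq, hab v hv]
  exact (depOn_dyn h1 η i x y h).2 rfl

theorem depOn_FinX (κ σ h lam η : ℝ) (M : ℕ) :
    DepOn (nz (Sc σ h lam)) (FinX κ σ h lam η M) := by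
  intro x y hxy
  unfold FinX
  refine forall_congr' fun g => imp_congr_right fun _ => ?_
  refine and_congr (depOn_dyn (depOn_TG κ σ h lam) η _ x y hxy) ?_
  exact fd_fts (fun z hz => fd_dyn hxy η _ hz) (fun z hz => fd_dyn hxy η _ hz)

end BGE
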