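import Pool.Agent.BGE.Defs2
import Pool.Agent.BGE.Base2
import Pool.Agent.BGE.MuGeo

/-!
BGE / D1. Straightness of geodesics in a regular environment (deterministic).

`cs`: let `Cone (3κ/4) u v`, `l = dl u v ≥ g0`, `s = (v.1 - u.1)/l`. For all `w` on a geodesic from
`u` to `v`, with `g = dl w v`: `|(v.1 - w.1) - s g| ≤ 10 √Y (max g g0)^{2/3}`. The constant `C0`
depends on `κ` only. (If `C0 ≤ Y ≤ 2 lam` and `C0 lam³ ≤ g0` are possible then `κ ≤ 2/3`.)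

Proof. For `w` with `Via ω u w v` let `e w = (v.1 - w.1) - s (dl w v)`. Strong (downward)
induction: assume the claim for all sites with a larger distance from `v`. Let `g = dl w v`,
`G = max g g0`. Choose `w1` with `Via ω u w1 w` as follows: if `l ≤ 2G` let `w1 = u`, so `e w1 = 0`;
otherwise let `w1` be at distance `⌈2G⌉` or so from `v` (`exists_via`), which is `> g`. Let
`l1 = dl w1 w`, `l2 = g`, `l0 = l1 + l2 = dl w1 v` (`≤ 2G + 1`). Let `s0 = (v.1 - w1.1)/l0` and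
`d = (v.1 - w.1) - s0 g`, so `e w = (g/l0) e w1 + d`, `g/l0 ≤ 1/2` in the second case.
(1) `Cone (κ/2) w1 v`: `|e w1| ≤ 10 √Y (2G+1)^{2/3} ≤ (κ/4) l0` since `G ≥ C0 lam³`, `Y ≤ 2 lam`.
Hence `T ω w1 v ≥ muz w1 v - Y l0'^{1/3}` with `l0' = max l0 g0`.
(2) `T ω w1 v = T ω w1 w + T ω w v - ω w` and `mu_concave`:
`2 d² (1/l1 + 1/l2) ≤ D0 + E1 + E2`, where `D0 = Y l0'^{1/3}` and `E1 = T ω w1 w - muz w1 w`,
`E2 = T ω w v - muz w v` (if `l1 = 0` or `l2 = 0` then `d = 0`; the weight is `≥ 0`).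
If `(w1, w)` is in the cone `κ/4` then `E1 ≤ Y l0'^{1/3}`. Otherwise `E1 ≤ lam √(l1 + 1)` and
`(κ/4) l1 ≤ |d| ≤ l1`; then `2 d²/l1 ≥ d²/l1 + κ² l1/16`, `lam √(l1+1) ≤ κ² l1/16 + 4 lam²/κ² + lam`
and `d²/l1 ≥ (κ/4) |d|`. The same for `E2`. So either both pairs are in the cone and
`4 d²/l0 · 2 ≤ 2 d² (1/l1 + 1/l2) ≤ 3 Y l0'^{1/3}` (note `1/l1 + 1/l2 ≥ 4/l0 ≥ 4/(2G+1)`), which gives
`|d| ≤ √Y G^{2/3}`, or `(κ/4) |d| ≤ 3 Y l0'^{1/3} + 2 (4 lam²/κ² + lam)`, which again gives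
`|d| ≤ √Y G^{2/3}` since `Y ≤ 2 lam`, `G ≥ C0 lam³` (and `Y ≥ 1`).
(3) `|e w| ≤ (1/2) 10 √Y (2G+1)^{2/3} + √Y G^{2/3} ≤ 10 √Y G^{2/3}` (`(1/2) 2^{2/3} < 0.8`).
-/

namespace BGE

private theorem st_dl (p q : ℤ × ℤ) :
    dl p q = ((q.1 - p.1 : ℤ) : ℝ) + ((q.2 - p.2 : ℤ) : ℝ) := by
  unfold dl lev
  push_cast
  ring

private theorem st_F {κ lam R E l d : ℝ} (hκ : 0 < κ) (hκ1 : κ ≤ 1)
    (hl : 0 < l) (h1 : E ≤ lam * √(l + 1)) (h2 : E ≤ R ∨ κ / 4 * l ≤ |d|) :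
    E ≤ R ∨ κ / 4 * |d| - (1 + 4 * lam ^ 2 / κ ^ 2) ≤ 2 * d ^ 2 / l - E := by
  rcases h2 with h2 | h2
  · exact Or.inl h2
  right
  have hs := Real.sq_sqrt (show (0 : ℝ) ≤ l + 1 by linarith)
  have h3 : lam * √(l + 1) ≤ κ ^ 2 / 16 * (l + 1) + 4 * lam ^ 2 / κ ^ 2 := by
    have h4 : 0 ≤ (κ / 4 * √(l + 1) - 2 * lam / κ) ^ 2 := sq_nonneg _
    have h5 : (κ / 4 * √(l + 1) - 2 * lam / κ) ^ 2 =
        κ ^ 2 / 16 * (l + 1) + 4 * lam ^ 2 / κ ^ 2 - lam * √(l + 1) := by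
      calc (κ / 4 * √(l + 1) - 2 * lam / κ) ^ 2
          = κ ^ 2 / 16 * √(l + 1) ^ 2 + 4 * lam ^ 2 / κ ^ 2 - lam * √(l + 1) := by
            field_simp
            ring
        _ = _ := by rw [hs]
    linarith
  have h6 : κ ^ 2 / 16 * l ≤ d ^ 2 / l := by
    rw [le_div_iff₀ hl]
    have h7 : (κ / 4 * l) ^ 2 ≤ |d| ^ 2 := pow_le_pow_left₀ (by positivity) h2 2
    rw [sq_abs] at h7
    nlinarith
  have h8 : κ / 4 * |d| ≤ d ^ 2 / l := by
    rw [le_div_iff₀ hl, ← sq_abs d]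
    nlinarith [abs_nonneg d]
  have h9 : κ ^ 2 / 16 ≤ 1 := by nlinarith
  have h10 : 2 * d ^ 2 / l = d ^ 2 / l + d ^ 2 / l := by ring
  rw [h10]
  nlinarith

private theorem st_real {κ lam Y x y l1 l2 d E1 E2 : ℝ} (hκ : 0 < κ) (hκ1 : κ ≤ 1)
    (hlam : 1 ≤ lam) (hY : 1 ≤ Y) (hY2 : Y ≤ 2 * lam) (hl1 : 0 < l1) (hl2 : 0 < l2)
    (hx0 : 0 < x) (hxy : x ≤ 1.27 * y) (hl0 : l1 + l2 ≤ x ^ 3) (hy : 100 / κ ^ 2 * lam ≤ y)
    (hmain : 2 * d ^ 2 * (1 / l1 + 1 / l2) ≤ Y * x + E1 + E2)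
    (h1 : E1 ≤ lam * √(l1 + 1)) (h2 : E2 ≤ lam * √(l2 + 1))
    (c1 : E1 ≤ Y * x ∨ κ / 4 * l1 ≤ |d|) (c2 : E2 ≤ Y * x ∨ κ / 4 * l2 ≤ |d|) :
    |d| ≤ √Y * y ^ 2 := by
  have hy0 : 0 < y := lt_of_lt_of_le (by positivity) hy
  have f1 := st_F hκ hκ1 hl1 h1 c1
  have f2 := st_F hκ hκ1 hl2 h2 c2
  have hmain' : 2 * d ^ 2 / l1 + 2 * d ^ 2 / l2 ≤ Y * x + E1 + E2 := by
    have : 2 * d ^ 2 * (1 / l1 + 1 / l2) = 2 * d ^ 2 / l1 + 2 * d ^ 2 / l2 := by ring
    linarith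
  have hYs := Real.sq_sqrt (show (0 : ℝ) ≤ Y by linarith)
  have hYx : 0 ≤ Y * x := by positivity
  by_cases hb : E1 ≤ Y * x ∧ E2 ≤ Y * x
  · have g1 : 2 * d ^ 2 * (4 / (l1 + l2)) ≤ 3 * (Y * x) := by
      have g2 : 4 / (l1 + l2) ≤ 1 / l1 + 1 / l2 := by
        rw [div_add_div _ _ hl1.ne' hl2.ne', div_le_div_iff₀ (by linarith) (by positivity)]
        nlinarith [sq_nonneg (l1 - l2)]
      have g3 : 2 * d ^ 2 * (4 / (l1 + l2)) ≤ 2 * d ^ 2 * (1 / l1 + 1 / l2) :=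
        mul_le_mul_of_nonneg_left g2 (by positivity)
      linarith [hb.1, hb.2]
    have g4 : 8 * d ^ 2 ≤ 3 * (Y * x) * (l1 + l2) := by
      have g5 : 2 * d ^ 2 * (4 / (l1 + l2)) = 8 * d ^ 2 / (l1 + l2) := by ring
      rw [g5, div_le_iff₀ (by linarith)] at g1
      exact g1
    have g6 : 3 * (Y * x) * (l1 + l2) ≤ 3 * (Y * x) * x ^ 3 :=
      mul_le_mul_of_nonneg_left hl0 (by positivity)
    have g7 : x ^ 4 ≤ (1.27 * y) ^ 4 := pow_le_pow_left₀ hx0.le hxy 4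
    have g8 : d ^ 2 ≤ (√Y * y ^ 2) ^ 2 := by
      have e1 : (√Y * y ^ 2) ^ 2 = Y * y ^ 4 := by
        calc (√Y * y ^ 2) ^ 2 = √Y ^ 2 * y ^ 4 := by ring
          _ = _ := by rw [hYs]
      rw [e1]
      have e2 : 3 * (Y * x) * x ^ 3 = 3 * Y * x ^ 4 := by ring
      have e3 : 3 * Y * x ^ 4 ≤ 3 * Y * (1.27 * y) ^ 4 :=
        mul_le_mul_of_nonneg_left g7 (by positivity)
      have e4 : 3 * Y * (1.27 * y) ^ 4 ≤ 8 * (Y * y ^ 4) := by
        have : 0 ≤ Y * y ^ 4 := by positivity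
        have e5 : 3 * Y * (1.27 * y) ^ 4 = (3 * 1.27 ^ 4) * (Y * y ^ 4) := by ring
        rw [e5]
        exact mul_le_mul_of_nonneg_right (by norm_num) this
      linarith
    exact abs_le_of_sq_le_sq g8 (by positivity)
  · have g1 : κ / 4 * |d| ≤ 2 * (Y * x) + 2 * (1 + 4 * lam ^ 2 / κ ^ 2) := by
      have p1 : 0 ≤ 2 * d ^ 2 / l1 := by positivity
      have p2 : 0 ≤ 2 * d ^ 2 / l2 := by positivity
      have p3 : 0 ≤ κ / 4 * |d| := by positivity
      have p4 : 0 ≤ 4 * lam ^ 2 / κ ^ 2 := by positivity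
      rcases f1 with f1 | f1
      · rcases f2 with f2 | f2
        · exact absurd ⟨f1, f2⟩ hb
        · linarith
      · rcases f2 with f2 | f2
        · linarith
        · linarith
    have hk2 : 1 / κ ≤ 1 / κ ^ 2 := by
      rw [div_le_div_iff₀ hκ (by positivity)]
      nlinarith
    have hys : √Y ≤ 2 * lam := by
      rw [Real.sqrt_le_left (by linarith)]
      nlinarith
    have hY1 : 1 ≤ √Y := by
      rw [Real.one_le_sqrt]
      exact hY
    have hy' : 100 * lam / κ ≤ y := by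
      refine le_trans ?_ hy
      have : 100 * lam * (1 / κ) ≤ 100 * lam * (1 / κ ^ 2) :=
        mul_le_mul_of_nonneg_left hk2 (by positivity)
      calc 100 * lam / κ = 100 * lam * (1 / κ) := by ring
        _ ≤ _ := this
        _ = _ := by ring
    have q1 : 8 / κ * (Y * x) ≤ 1 / 2 * (√Y * y ^ 2) := by
      have q2 : 8 / κ * (√Y * x) ≤ 1 / 2 * y ^ 2 := by
        have q3 : √Y * x ≤ (2 * lam) * (1.27 * y) := mul_le_mul hys hxy hx0.le (by positivity)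
        calc 8 / κ * (√Y * x) ≤ 8 / κ * ((2 * lam) * (1.27 * y)) :=
              mul_le_mul_of_nonneg_left q3 (by positivity)
          _ = (20.32 / 100) * (100 * lam / κ) * y := by ring
          _ ≤ (20.32 / 100) * y * y := by gcongr
          _ ≤ 1 / 2 * y ^ 2 := by nlinarith
      calc 8 / κ * (Y * x) = √Y * (8 / κ * (√Y * x)) := by
            calc 8 / κ * (Y * x) = 8 / κ * (√Y ^ 2 * x) := by rw [hYs]
              _ = _ := by ring
        _ ≤ √Y * (1 / 2 * y ^ 2) := mul_le_mul_of_nonneg_left q2 (by positivity)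
        _ = _ := by ring
    have q4 : 8 / κ * (1 + 4 * lam ^ 2 / κ ^ 2) ≤ 1 / 2 * (√Y * y ^ 2) := by
      have q5 : (100 / κ ^ 2 * lam) ^ 2 ≤ y ^ 2 := pow_le_pow_left₀ (by positivity) hy 2
      have q6 : 1 + 4 * lam ^ 2 / κ ^ 2 ≤ 5 * lam ^ 2 / κ ^ 2 := by
        have : 1 ≤ lam ^ 2 / κ ^ 2 := by
          rw [le_div_iff₀ (by positivity)]
          nlinarith
        calc 1 + 4 * lam ^ 2 / κ ^ 2 ≤ lam ^ 2 / κ ^ 2 + 4 * lam ^ 2 / κ ^ 2 := by linarith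
          _ = _ := by ring
      have q7 : 8 / κ * (5 * lam ^ 2 / κ ^ 2) ≤ 1 / 2 * (100 / κ ^ 2 * lam) ^ 2 := by
        have e1 : 1 / 2 * (100 / κ ^ 2 * lam) ^ 2 = 5000 * lam ^ 2 / κ ^ 4 := by
          field_simp
          norm_num
        have e2 : 8 / κ * (5 * lam ^ 2 / κ ^ 2) = 40 * lam ^ 2 / κ ^ 3 := by
          field_simp
          norm_num
        rw [e1, e2, div_le_div_iff₀ (by positivity) (by positivity)]
        have e3 : 0 ≤ lam ^ 2 * κ ^ 3 := by positivity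
        calc 40 * lam ^ 2 * κ ^ 4 = (40 * κ) * (lam ^ 2 * κ ^ 3) := by ring
          _ ≤ 5000 * (lam ^ 2 * κ ^ 3) := mul_le_mul_of_nonneg_right (by linarith) e3
          _ = _ := by ring
      have q8 : y ^ 2 ≤ √Y * y ^ 2 := by
        have : 0 ≤ y ^ 2 := sq_nonneg y
        nlinarith
      have q9 : 8 / κ * (1 + 4 * lam ^ 2 / κ ^ 2) ≤ 8 / κ * (5 * lam ^ 2 / κ ^ 2) :=
        mul_le_mul_of_nonneg_left q6 (by positivity)
      linarith
    have g2 : |d| = 4 / κ * (κ / 4 * |d|) := by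
      field_simp
    have g3 : 4 / κ * (κ / 4 * |d|) ≤
        4 / κ * (2 * (Y * x) + 2 * (1 + 4 * lam ^ 2 / κ ^ 2)) :=
      mul_le_mul_of_nonneg_left g1 (by positivity)
    have g4 : 4 / κ * (2 * (Y * x) + 2 * (1 + 4 * lam ^ 2 / κ ^ 2)) =
        8 / κ * (Y * x) + 8 / κ * (1 + 4 * lam ^ 2 / κ ^ 2) := by ring
    linarith

/-- the bound on the deviation from the segment between `w1` and `v` -/
private theorem st_step {κ lam Y g0 G : ℝ} {ω : ℤ × ℤ → ℝ} {u v w w1 : ℤ × ℤ}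
    (hκ : 0 < κ) (hκ1 : κ ≤ 1) (hlam : 1 ≤ lam) (hY : 1 ≤ Y) (hY2 : Y ≤ 2 * lam)
    (hg0 : 0 < g0) (hG : 0 < G) (hω : ∀ z, u ≤ z → z ≤ v → 0 ≤ ω z)
    (hreg : ∀ p q, Via ω u p v → Via ω p q v → T ω p q ≤ muz p q + lam * √(dl p q + 1) ∧
      (Cone (κ / 4) p q →
        |T ω p q - muz p q| ≤ Y * (max (dl p q) g0) ^ (1 / 3 : ℝ)))
    (hw : Via ω u w v) (hw1 : Via ω u w1 w) (hc : Cone (κ / 2) w1 v)
    (hl1 : 0 < dl w1 w) (hl2 : 0 < dl w v) (hG1 : max (dl w1 v) g0 ≤ 1.27 ^ 3 * G)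
    (hG2 : 100 / κ ^ 2 * lam ≤ G ^ (1 / 3 : ℝ)) :
    |((v.1 - w.1 : ℤ) : ℝ) - ((v.1 - w1.1 : ℤ) : ℝ) / dl w1 v * dl w v| ≤
      √Y * G ^ (2 / 3 : ℝ) := by
  obtain ⟨t1, t2⟩ := hw.trans_left hw1
  have hww : w ≤ v := hw.2.1
  have hww1 : w1 ≤ w := hw1.2.1
  have hw1v : w1 ≤ v := hww1.trans hww
  -- the three applications of the regularity
  have r0 := (hreg w1 v t1 (via_right hw1v)).2 ⟨hw1v, by
      refine le_trans (mul_le_mul_of_nonneg_right (by linarith) ?_) hc.2.1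
      rw [dl]
      exact_mod_cast sub_nonneg.2 (lev_le_lev hw1v), by
      refine le_trans (mul_le_mul_of_nonneg_right (by linarith) ?_) hc.2.2
      rw [dl]
      exact_mod_cast sub_nonneg.2 (lev_le_lev hw1v)⟩
  have r1 := hreg w1 w t1 t2
  have r2 := hreg w v hw (via_right hww)
  have hT := t2.2.2
  have hωw := hω w hw.1 hww
  have e1 := st_dl w1 w
  have e2 := st_dl w v
  have e0 := st_dl w1 v
  have m0 : muz w1 v = mu ((v.1 - w1.1 : ℤ) : ℝ) ((v.2 - w1.2 : ℤ) : ℝ) := rfl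
  have m1 : muz w1 w = mu ((w.1 - w1.1 : ℤ) : ℝ) ((w.2 - w1.2 : ℤ) : ℝ) := rfl
  have m2 : muz w v = mu ((v.1 - w.1 : ℤ) : ℝ) ((v.2 - w.2 : ℤ) : ℝ) := rfl
  -- the cone conditions for the two parts
  have k1 : ¬ Cone (κ / 4) w1 w → ((w.1 - w1.1 : ℤ) : ℝ) < κ / 4 * dl w1 w ∨
      ((w.2 - w1.2 : ℤ) : ℝ) < κ / 4 * dl w1 w := by
    intro h
    by_contra h'
    rw [not_or, not_lt, not_lt] at h'
    exact h ⟨hww1, h'.1, h'.2⟩
  have k2 : ¬ Cone (κ / 4) w v → ((v.1 - w.1 : ℤ) : ℝ) < κ / 4 * dl w v ∨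
      ((v.2 - w.2 : ℤ) : ℝ) < κ / 4 * dl w v := by
    intro h
    by_contra h'
    rw [not_or, not_lt, not_lt] at h'
    exact h ⟨hww, h'.1, h'.2⟩
  have eA : ((v.1 - w1.1 : ℤ) : ℝ) = ((w.1 - w1.1 : ℤ) : ℝ) + ((v.1 - w.1 : ℤ) : ℝ) := by
    push_cast; ring
  have eB : ((v.2 - w1.2 : ℤ) : ℝ) = ((w.2 - w1.2 : ℤ) : ℝ) + ((v.2 - w.2 : ℤ) : ℝ) := by
    push_cast; ring
  obtain ⟨-, hc1, hc2⟩ := hc
  rw [eA] at hc1 m0 e0 ⊢
  rw [eB] at hc2 m0 e0
  have pa1 : (0 : ℝ) ≤ ((w.1 - w1.1 : ℤ) : ℝ) := by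
    have := hww1.1
    exact_mod_cast sub_nonneg.2 this
  have pb1 : (0 : ℝ) ≤ ((w.2 - w1.2 : ℤ) : ℝ) := by
    have := hww1.2
    exact_mod_cast sub_nonneg.2 this
  have pa2 : (0 : ℝ) ≤ ((v.1 - w.1 : ℤ) : ℝ) := by
    have := hww.1
    exact_mod_cast sub_nonneg.2 this
  have pb2 : (0 : ℝ) ≤ ((v.2 - w.2 : ℤ) : ℝ) := by
    have := hww.2
    exact_mod_cast sub_nonneg.2 this
  generalize ((w.1 - w1.1 : ℤ) : ℝ) = a1 at *
  generalize ((w.2 - w1.2 : ℤ) : ℝ) = b1 at *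
  generalize ((v.1 - w.1 : ℤ) : ℝ) = a2 at *
  generalize ((v.2 - w.2 : ℤ) : ℝ) = b2 at *
  have hl0 : dl w1 v = dl w1 w + dl w v := by rw [e0, e1, e2]; ring
  have hl0p : 0 < dl w1 v := by linarith
  generalize dl w1 v = l0 at *
  generalize dl w1 w = l1 at *
  generalize dl w v = l2 at *
  have hx0 : 0 < (max l0 g0) ^ (1 / 3 : ℝ) := Real.rpow_pos_of_pos (lt_max_of_lt_right hg0) _
  have hx3 : ((max l0 g0) ^ (1 / 3 : ℝ)) ^ 3 = max l0 g0 := by
    rw [← Real.rpow_natCast, ← Real.rpow_mul (le_max_of_le_right hg0.le)]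
    norm_num
  have hy0 : 0 < G ^ (1 / 3 : ℝ) := Real.rpow_pos_of_pos hG _
  have hy3 : (G ^ (1 / 3 : ℝ)) ^ 3 = G := by
    rw [← Real.rpow_natCast, ← Real.rpow_mul hG.le]
    norm_num
  have hy2 : G ^ (2 / 3 : ℝ) = (G ^ (1 / 3 : ℝ)) ^ 2 := by
    rw [← Real.rpow_natCast, ← Real.rpow_mul hG.le]
    norm_num
  have hxl1 : (max l1 g0) ^ (1 / 3 : ℝ) ≤ (max l0 g0) ^ (1 / 3 : ℝ) :=
    Real.rpow_le_rpow (le_max_of_le_right hg0.le)
      (max_le_max (by linarith) le_rfl) (by norm_num)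
  have hxl2 : (max l2 g0) ^ (1 / 3 : ℝ) ≤ (max l0 g0) ^ (1 / 3 : ℝ) :=
    Real.rpow_le_rpow (le_max_of_le_right hg0.le)
      (max_le_max (by linarith) le_rfl) (by norm_num)
  rw [hy2]
  have hs0l : (a1 + a2) / l0 * l0 = a1 + a2 := div_mul_cancel₀ _ hl0p.ne'
  have hs1 : κ / 2 ≤ (a1 + a2) / l0 := by
    rw [le_div_iff₀ hl0p]
    exact hc1
  have hs2 : κ / 2 ≤ 1 - (a1 + a2) / l0 := by
    have : κ / 2 * l0 ≤ (1 - (a1 + a2) / l0) * l0 := by
      rw [sub_mul, one_mul, hs0l]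
      linarith
    exact le_of_mul_le_mul_right this hl0p
  have hdd : a1 - l1 * (a1 + a2) / l0 = -(a2 - (a1 + a2) / l0 * l2) := by
    have e5 : l1 * (a1 + a2) / l0 = (a1 + a2) / l0 * l1 := by ring
    rw [e5]
    have : (a1 + a2) / l0 * l0 = (a1 + a2) / l0 * l1 + (a1 + a2) / l0 * l2 := by
      rw [hl0]; ring
    linarith
  have hcv := mu_concave pa1 pb1 pa2 pb2 (by rw [← e1]; exact hl1) (by rw [← e2]; exact hl2)
  rw [← m0, ← m1, ← m2, ← e1, ← e2, ← hl0, hdd, neg_sq] at hcv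
  have hdd' : a1 = (a1 + a2) / l0 * l1 - (a2 - (a1 + a2) / l0 * l2) := by
    have e5 : l1 * (a1 + a2) / l0 = (a1 + a2) / l0 * l1 := by ring
    rw [e5] at hdd
    linarith
  generalize (a1 + a2) / l0 = s0 at *
  have hd2 : a2 = s0 * l2 + (a2 - s0 * l2) := by ring
  generalize hd : a2 - s0 * l2 = d at *
  refine st_real (x := (max l0 g0) ^ (1 / 3 : ℝ)) (l1 := l1) (l2 := l2)
    (E1 := T ω w1 w - muz w1 w) (E2 := T ω w v - muz w v) hκ hκ1 hlam hY hY2 hl1 hl2 hx0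
    ?_ ?_ hG2 ?_ ?_ ?_ ?_ ?_
  · refine le_of_pow_le_pow_left₀ three_ne_zero (by positivity) ?_
    rw [hx3, mul_pow, hy3]
    exact hG1
  · rw [hx3, ← hl0]
    exact le_max_left _ _
  · have := (abs_le.1 r0).1
    linarith
  · linarith [r1.1]
  · linarith [r2.1]
  · by_cases hc' : Cone (κ / 4) w1 w
    · left
      exact (le_abs_self _).trans ((r1.2 hc').trans
        (mul_le_mul_of_nonneg_left hxl1 (by linarith)))
    · right
      have q1 : κ / 2 * l1 ≤ s0 * l1 := mul_le_mul_of_nonneg_right hs1 hl1.le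
      have q2 : κ / 2 * l1 ≤ (1 - s0) * l1 := mul_le_mul_of_nonneg_right hs2 hl1.le
      have q3 : (1 - s0) * l1 = l1 - s0 * l1 := by ring
      rcases k1 hc' with h | h
      · have : κ / 4 * l1 ≤ d := by linarith
        exact this.trans (le_abs_self d)
      · have : κ / 4 * l1 ≤ -d := by linarith
        exact this.trans (neg_le_abs d)
  · by_cases hc' : Cone (κ / 4) w v
    · left
      exact (le_abs_self _).trans ((r2.2 hc').trans
        (mul_le_mul_of_nonneg_left hxl2 (by linarith)))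
    · right
      have q1 : κ / 2 * l2 ≤ s0 * l2 := mul_le_mul_of_nonneg_right hs1 hl2.le
      have q2 : κ / 2 * l2 ≤ (1 - s0) * l2 := mul_le_mul_of_nonneg_right hs2 hl2.le
      have q3 : (1 - s0) * l2 = l2 - s0 * l2 := by ring
      rcases k2 hc' with h | h
      · have : κ / 4 * l2 ≤ -d := by linarith
        exact this.trans (neg_le_abs d)
      · have : κ / 4 * l2 ≤ d := by linarith
        exact this.trans (le_abs_self d)

private theorem st_k1 {κ : ℝ} (hκ : 0 < κ) (hκ1 : κ ≤ 1) : 100 / κ ≤ 100 / κ ^ 2 := by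
  rw [div_le_div_iff₀ hκ (by positivity)]
  nlinarith

private theorem st_k2 {κ : ℝ} (hκ : 0 < κ) (hκ1 : κ ≤ 1) : 100 ≤ 100 / κ ^ 2 := by
  rw [le_div_iff₀ (by positivity)]
  nlinarith

private theorem st_y {Y lam : ℝ} (hlam : 1 ≤ lam) (hY : Y ≤ 2 * lam) : √Y ≤ 2 * lam := by
  rw [Real.sqrt_le_left (by linarith)]
  nlinarith

private theorem st_cbrt {t : ℝ} (ht : 0 ≤ t) : (t ^ 3) ^ (1 / 3 : ℝ) = t := by
  rw [← Real.rpow_natCast t 3, ← Real.rpow_mul ht]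
  norm_num

theorem cs {κ : ℝ} (hκ : 0 < κ) : ∃ C0 : ℝ, 1 ≤ C0 ∧ ∀ (lam Y g0 : ℝ) (ω : ℤ × ℤ → ℝ)
    (u v : ℤ × ℤ), C0 ≤ Y → Y ≤ 2 * lam → C0 * lam ^ 3 ≤ g0 → Cone (3 * κ / 4) u v →
    g0 ≤ dl u v → (∀ z, u ≤ z → z ≤ v → 0 ≤ ω z ∧ ω z ≤ lam) →
    (∀ p q, Via ω u p v → Via ω p q v → T ω p q ≤ muz p q + lam * √(dl p q + 1) ∧
      (Cone (κ / 4) p q →
        |T ω p q - muz p q| ≤ Y * (max (dl p q) g0) ^ (1 / 3 : ℝ))) →
    ∀ w, Via ω u w v →
      |((v.1 - w.1 : ℤ) : ℝ) - ((v.1 - u.1 : ℤ) : ℝ) / dl u v * dl w v| ≤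
        10 * √Y * (max (dl w v) g0) ^ (2 / 3 : ℝ) := by
  have hkk : 0 < 100 / κ ^ 2 := by positivity
  have hK1 : 1 ≤ 100 / κ ^ 2 + 2 := by linarith
  refine ⟨(100 / κ ^ 2 + 2) ^ 3, one_le_pow₀ hK1, ?_⟩
  intro lam Y g0 ω u v hY hYl hg0 hcone hl hω hreg
  have hK8 : (8 : ℝ) ≤ (100 / κ ^ 2 + 2) ^ 3 := by
    calc (8 : ℝ) = 2 ^ 3 := by norm_num
      _ ≤ (100 / κ ^ 2 + 2) ^ 3 := pow_le_pow_left₀ (by norm_num) (by linarith) 3
  have hY1 : 1 ≤ Y := by linarith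
  have hlam : 1 ≤ lam := by linarith
  have hg0' : ((100 / κ ^ 2 + 2) * lam) ^ 3 ≤ g0 := by rw [mul_pow]; exact hg0
  have hg0pos : 0 < g0 := lt_of_lt_of_le (by positivity) hg0'
  have hlpos : 0 < dl u v := by linarith
  have huv : u ≤ v := hcone.1
  have hκ1 : κ ≤ 1 := by
    have h1 := hcone.2.1
    have h2 := hcone.2.2
    have h3 := st_dl u v
    have h4 : 3 * κ / 4 * dl u v + 3 * κ / 4 * dl u v ≤ dl u v := by linarith
    have h5 : (3 * κ / 2) * dl u v ≤ 1 * dl u v := by linarith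
    have h6 := le_of_mul_le_mul_right h5 hlpos
    linarith
  have hK100 : (102 : ℝ) ≤ 100 / κ ^ 2 + 2 := by
    have : (100 : ℝ) ≤ 100 / κ ^ 2 := st_k2 hκ hκ1
    linarith
  have hg21 : 21 ≤ g0 := by
    refine le_trans ?_ hg0'
    calc (21 : ℝ) ≤ (102 * 1) ^ 3 := by norm_num
      _ ≤ _ := pow_le_pow_left₀ (by norm_num)
        (mul_le_mul hK100 hlam (by norm_num) (by linarith)) 3
  -- the slope
  have hsl : ((v.1 - u.1 : ℤ) : ℝ) / dl u v * dl u v = ((v.1 - u.1 : ℤ) : ℝ) :=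
    div_mul_cancel₀ _ hlpos.ne'
  have hs1 : 3 * κ / 4 ≤ ((v.1 - u.1 : ℤ) : ℝ) / dl u v := by
    rw [le_div_iff₀ hlpos]
    exact hcone.2.1
  have hs2 : 3 * κ / 4 ≤ 1 - ((v.1 - u.1 : ℤ) : ℝ) / dl u v := by
    have h1 := hcone.2.2
    have h3 := st_dl u v
    have : 3 * κ / 4 * dl u v ≤ (1 - ((v.1 - u.1 : ℤ) : ℝ) / dl u v) * dl u v := by
      rw [sub_mul, one_mul, hsl]
      linarith
    exact le_of_mul_le_mul_right this hlpos
  generalize hs : ((v.1 - u.1 : ℤ) : ℝ) / dl u v = s at *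
  have hYs0 : 0 ≤ √Y := Real.sqrt_nonneg _
  have hys : √Y ≤ 2 * lam := st_y hlam hYl
  -- the bound at `u`
  have heu : ((v.1 - u.1 : ℤ) : ℝ) - s * dl u v = 0 := by rw [hsl]; ring
  have main : ∀ k : ℕ, ∀ w, Via ω u w v → lev w = lev u + k →
      |((v.1 - w.1 : ℤ) : ℝ) - s * dl w v| ≤
        10 * √Y * (max (dl w v) g0) ^ (2 / 3 : ℝ) := by
    intro k
    induction k using Nat.strong_induction_on with
    | _ k ih =>
    intro w hw hk
    have hwv : w ≤ v := hw.2.1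
    have hgn : 0 ≤ dl w v := by
      rw [dl]
      exact_mod_cast sub_nonneg.2 (lev_le_lev hwv)
    have hGg0 : g0 ≤ max (dl w v) g0 := le_max_right _ _
    have hGg : dl w v ≤ max (dl w v) g0 := le_max_left _ _
    have hG0 : 0 < max (dl w v) g0 := by linarith
    have hrhs : 0 ≤ 10 * √Y * (max (dl w v) g0) ^ (2 / 3 : ℝ) := by positivity
    -- trivial cases
    by_cases hwu : w = u
    · rw [hwu, heu, abs_zero, ← hwu]
      exact hrhs
    by_cases hwv' : w = v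
    · have h1 : ((v.1 - w.1 : ℤ) : ℝ) - s * dl w v = 0 := by
        rw [hwv', dl]
        push_cast
        ring
      rw [h1, abs_zero]
      exact hrhs
    have hl2 : 0 < dl w v := by
      rw [dl]
      have h1 : lev w < lev v := by
        have h2 := hwv.1
        have h3 := hwv.2
        unfold lev
        by_contra h4
        exact hwv' (Prod.ext (by omega) (by omega))
      exact_mod_cast sub_pos.2 h1
    have hG2 : (100 / κ ^ 2 + 2) * lam ≤ (max (dl w v) g0) ^ (1 / 3 : ℝ) := by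
      have h1 : (((100 / κ ^ 2 + 2) * lam) ^ 3) ^ (1 / 3 : ℝ) ≤
          (max (dl w v) g0) ^ (1 / 3 : ℝ) :=
        Real.rpow_le_rpow (by positivity) (hg0'.trans hGg0) (by norm_num)
      refine le_trans (le_of_eq ?_) h1
      exact (st_cbrt (by positivity)).symm
    have hy3 : ((max (dl w v) g0) ^ (1 / 3 : ℝ)) ^ 3 = max (dl w v) g0 := by
      rw [← Real.rpow_natCast, ← Real.rpow_mul hG0.le]
      norm_num
    have hy2 : (max (dl w v) g0) ^ (2 / 3 : ℝ) = ((max (dl w v) g0) ^ (1 / 3 : ℝ)) ^ 2 := by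
      rw [← Real.rpow_natCast, ← Real.rpow_mul hG0.le]
      norm_num
    have hy0 : 0 < (max (dl w v) g0) ^ (1 / 3 : ℝ) := Real.rpow_pos_of_pos hG0 _
    -- the choice of `w1`
    obtain ⟨w1, hw1, hw1ne, hl0, he1⟩ : ∃ w1, Via ω u w1 w ∧ lev w1 < lev w ∧
        dl w1 v ≤ 2 * max (dl w v) g0 + 1 ∧
        (((v.1 - w1.1 : ℤ) : ℝ) - s * dl w1 v = 0 ∨
          (2 * max (dl w v) g0 ≤ dl w1 v ∧ |((v.1 - w1.1 : ℤ) : ℝ) - s * dl w1 v| ≤
            10 * √Y * (dl w1 v) ^ (2 / 3 : ℝ))) := by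
      by_cases hcase : dl u v ≤ 2 * max (dl w v) g0
      · refine ⟨u, via_left hw.1, ?_, by linarith, Or.inl heu⟩
        have h2 := hw.1.1
        have h3 := hw.1.2
        unfold lev
        by_contra h4
        exact hwu (Prod.ext (by omega) (by omega))
      · rw [not_le] at hcase
        have hc1 := Int.le_ceil (2 * max (dl w v) g0)
        have hc2 := Int.ceil_lt_add_one (2 * max (dl w v) g0)
        generalize ⌈2 * max (dl w v) g0⌉ = c at *
        have h5 : c ≤ lev v - lev u := by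
          have h6 : (2 * max (dl w v) g0) < ((lev v - lev u : ℤ) : ℝ) := hcase
          have h7 : (c : ℝ) < ((lev v - lev u + 1 : ℤ) : ℝ) := by
            push_cast at h6 ⊢
            linarith
          have h8 : c < lev v - lev u + 1 := by exact_mod_cast h7
          omega
        have h9 : lev v - c < lev w := by
          have h6 : ((lev v - lev w : ℤ) : ℝ) < c := by
            have : ((lev v - lev w : ℤ) : ℝ) = dl w v := rfl
            rw [this]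
            linarith
          have h7 : lev v - lev w < c := by exact_mod_cast h6
          omega
        obtain ⟨w1, h10, h11⟩ := exists_via ω hw.1 (l := lev v - c) (by omega) h9.le
        have h12 : dl w1 v = c := by
          rw [dl, h10]
          push_cast
          ring
        refine ⟨w1, h11, by omega, by rw [h12]; exact hc2.le, Or.inr ⟨by rw [h12]; exact hc1, ?_⟩⟩
        have h13 := hw.trans_left h11
        have h14 := lev_le_lev h11.1
        have h15 := ih (lev w1 - lev u).toNat (by omega) w1 h13.1 (by omega)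
        rwa [max_eq_left (by rw [h12]; linarith)] at h15
    have hww1 : w1 ≤ w := hw1.2.1
    have hw1v : w1 ≤ v := hww1.trans hwv
    have hl1 : 0 < dl w1 w := by
      rw [dl]
      exact_mod_cast sub_pos.2 hw1ne
    have hl12 : dl w1 v = dl w1 w + dl w v := by
      rw [dl, dl, dl]
      push_cast
      ring
    have hl0p : 0 < dl w1 v := by linarith
    -- the cone condition
    have hA := st_dl w1 v
    have hcone1 : Cone (κ / 2) w1 v := by
      rcases he1 with he1 | ⟨he0, he1⟩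
      · have h1 : ((v.1 - w1.1 : ℤ) : ℝ) = s * dl w1 v := by linarith
        have h2 : 3 * κ / 4 * dl w1 v ≤ s * dl w1 v := mul_le_mul_of_nonneg_right hs1 hl0p.le
        have h3 : 3 * κ / 4 * dl w1 v ≤ (1 - s) * dl w1 v :=
          mul_le_mul_of_nonneg_right hs2 hl0p.le
        have h4 : 0 ≤ κ * dl w1 v := by positivity
        refine ⟨hw1v, by linarith, ?_⟩
        have h5 : (1 - s) * dl w1 v = dl w1 v - s * dl w1 v := by ring
        linarith
      · have h2 : 3 * κ / 4 * dl w1 v ≤ s * dl w1 v := mul_le_mul_of_nonneg_right hs1 hl0p.le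
        have h3 : 3 * κ / 4 * dl w1 v ≤ (1 - s) * dl w1 v :=
          mul_le_mul_of_nonneg_right hs2 hl0p.le
        have h5 : (1 - s) * dl w1 v = dl w1 v - s * dl w1 v := by ring
        have h6 : 10 * √Y * (dl w1 v) ^ (2 / 3 : ℝ) ≤ κ / 4 * dl w1 v := by
          have hz0 : 0 < (dl w1 v) ^ (1 / 3 : ℝ) := Real.rpow_pos_of_pos hl0p _
          have hz3 : ((dl w1 v) ^ (1 / 3 : ℝ)) ^ 3 = dl w1 v := by
            rw [← Real.rpow_natCast, ← Real.rpow_mul hl0p.le]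
            norm_num
          have hz2 : (dl w1 v) ^ (2 / 3 : ℝ) = ((dl w1 v) ^ (1 / 3 : ℝ)) ^ 2 := by
            rw [← Real.rpow_natCast, ← Real.rpow_mul hl0p.le]
            norm_num
          have hz : 100 / κ * lam ≤ (dl w1 v) ^ (1 / 3 : ℝ) := by
            have h7 : (max (dl w v) g0) ^ (1 / 3 : ℝ) ≤ (dl w1 v) ^ (1 / 3 : ℝ) :=
              Real.rpow_le_rpow hG0.le (by linarith) (by norm_num)
            have h8 : 100 / κ ≤ 100 / κ ^ 2 := st_k1 hκ hκ1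
            calc 100 / κ * lam ≤ (100 / κ ^ 2 + 2) * lam :=
                  mul_le_mul_of_nonneg_right (by linarith) (by linarith)
              _ ≤ _ := hG2.trans h7
          rw [hz2]
          conv_rhs => rw [← hz3]
          have h9 : 40 * √Y ≤ κ * (dl w1 v) ^ (1 / 3 : ℝ) := by
            have h10 : κ * (100 / κ * lam) ≤ κ * (dl w1 v) ^ (1 / 3 : ℝ) :=
              mul_le_mul_of_nonneg_left hz hκ.le
            have h11 : κ * (100 / κ * lam) = 100 * lam := by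
              field_simp
            linarith
          have h12 := mul_le_mul_of_nonneg_right h9 (sq_nonneg ((dl w1 v) ^ (1 / 3 : ℝ)))
          have h13 : κ / 4 * ((dl w1 v) ^ (1 / 3 : ℝ)) ^ 3 =
              1 / 4 * (κ * (dl w1 v) ^ (1 / 3 : ℝ) * ((dl w1 v) ^ (1 / 3 : ℝ)) ^ 2) := by ring
          have h14 : 10 * √Y * ((dl w1 v) ^ (1 / 3 : ℝ)) ^ 2 =
              1 / 4 * (40 * √Y * ((dl w1 v) ^ (1 / 3 : ℝ)) ^ 2) := by ring
          rw [h13, h14]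
          exact mul_le_mul_of_nonneg_left h12 (by norm_num)
        have h7 := abs_le.1 he1
        refine ⟨hw1v, by linarith [h7.1], ?_⟩
        linarith [h7.2]
    have hstep := st_step (g0 := g0) (G := max (dl w v) g0) hκ hκ1 hlam hY1 hYl hg0pos hG0
      (fun z h1 h2 => (hω z h1 h2).1) hreg hw hw1 hcone1 hl1 hl2 (by
        have e3 : (1.27 : ℝ) ^ 3 = 2.048383 := by norm_num
        rw [e3]
        exact max_le (by linarith) (by linarith)) (by
        refine le_trans ?_ hG2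
        exact mul_le_mul_of_nonneg_right (by linarith) (by linarith))
    -- the recursion for the deviation
    have hrec : ((v.1 - w.1 : ℤ) : ℝ) - s * dl w v =
        (((v.1 - w.1 : ℤ) : ℝ) - ((v.1 - w1.1 : ℤ) : ℝ) / dl w1 v * dl w v) +
        dl w v / dl w1 v * (((v.1 - w1.1 : ℤ) : ℝ) - s * dl w1 v) := by
      field_simp
      ring
    rw [hrec]
    have hsq : 0 ≤ √Y * (max (dl w v) g0) ^ (2 / 3 : ℝ) := by positivity
    rcases he1 with he1 | ⟨he0, he1⟩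
    · rw [he1, mul_zero, add_zero]
      refine hstep.trans ?_
      linarith
    · refine (abs_add_le _ _).trans ?_
      rw [abs_mul, abs_of_nonneg (div_nonneg hgn hl0p.le)]
      have h1 : dl w v / dl w1 v ≤ 1 / 2 := by
        rw [div_le_div_iff₀ hl0p (by norm_num)]
        linarith
      have h2 : (dl w1 v) ^ (2 / 3 : ℝ) ≤ (1.27 ^ 3 * max (dl w v) g0) ^ (2 / 3 : ℝ) :=
        Real.rpow_le_rpow hl0p.le (by
          have e3 : (1.27 : ℝ) ^ 3 = 2.048383 := by norm_num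
          rw [e3]
          linarith) (by norm_num)
      have h3 : (1.27 ^ 3 * max (dl w v) g0) ^ (2 / 3 : ℝ) =
          1.27 ^ 2 * (max (dl w v) g0) ^ (2 / 3 : ℝ) := by
        rw [Real.mul_rpow (by positivity) hG0.le]
        congr 1
        rw [← Real.rpow_natCast, ← Real.rpow_mul (by norm_num)]
        norm_num
      rw [h3] at h2
      have h4 : dl w v / dl w1 v * |((v.1 - w1.1 : ℤ) : ℝ) - s * dl w1 v| ≤
          1 / 2 * (10 * √Y * (1.27 ^ 2 * (max (dl w v) g0) ^ (2 / 3 : ℝ))) := by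
        refine mul_le_mul h1 (he1.trans ?_) (abs_nonneg _) (by norm_num)
        exact mul_le_mul_of_nonneg_left h2 (by positivity)
      have h5 : 1 / 2 * (10 * √Y * (1.27 ^ 2 * (max (dl w v) g0) ^ (2 / 3 : ℝ))) =
          (5 * 1.27 ^ 2) * (√Y * (max (dl w v) g0) ^ (2 / 3 : ℝ)) := by ring
      rw [h5] at h4
      have h6 : (5 * 1.27 ^ 2 : ℝ) ≤ 9 := by norm_num
      have h7 := mul_le_mul_of_nonneg_right h6 hsq
      linarith
  intro w hw
  have h1 := lev_le_lev hw.1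
  exact main (lev w - lev u).toNat w hw (by omega)

end BGE
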