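import Pool.Agent.BGE.Rot
import Pool.Agent.BGE.Straight

/-!
BGE / D2. Position of geodesics in terms of the deviation from the line of direction `σ`.

`pos`: for `u, v ∈ Rgn σ (20 lam n^{2/3}) n`, `Cone (3κ/4) u v`, `l = dl u v ≥ g0`, and `w` on a
geodesic from `u` to `v`, `g = dl w v`:
`|dev w - (1 - g/l) dev v - (g/l) dev u| ≤ 10 √Y (max g g0)^{2/3}`, and also
`≤ 10 √Y (max (l - g) g0)^{2/3}`.
Proof. `dev` is affine and the level of `w` is `lev v - g`, so the expression inside the absolute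
value is `w.1 - (v.1 - s g)` with `s = (v.1 - u.1)/l`, which is the quantity in `cs`.
Step 1 (crude position): apply `cs` with `Y := 2 lam`: all sites of `[u, v]` are in `Bx (4n)`
(see `goodE_of_crE` for the size of the parallelogram; `n ≥ g0 ≥ C0 lam³`), and
`lam (l+1)^{1/3} ≤ 2 lam (max l g0)^{1/3}`. So every `w` on a geodesic has
`|dev w| ≤ 20 lam n^{2/3} + 10 √(2 lam) (2n+1)^{2/3} ≤ 40 lam n^{2/3}`, hence `w ∈ Rgn σ W n` with
`W = 40 lam n^{2/3}`. Step 2: apply `cs` with `Y`; the hypothesis on the pairs is given by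
`FiE` (both points are on a geodesic from `u` to `v`, `Via.trans_right`).
The second bound: apply the first one to `rotE ω` and the pair `rot v, rot u` (`goodE_rot`,
`via_rotE`, `dev_rot`, `cone_rot`, `rgn_rot`).
-/

namespace BGE

private theorem pos_third {lam g0 : ℝ} {n : ℕ} (hl : 0 ≤ lam)
    (h1 : 125000 * lam ^ 3 ≤ g0) (h2 : g0 ≤ n) :
    50 * lam * (n : ℝ) ^ (2 / 3 : ℝ) ≤ n := by
  have hn0 : (0 : ℝ) ≤ (n : ℝ) := Nat.cast_nonneg n
  have hn3 : ((n : ℝ) ^ (1 / 3 : ℝ)) * (n : ℝ) ^ (2 / 3 : ℝ) = n := by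
    rw [← Real.rpow_add_of_nonneg hn0 (by norm_num) (by norm_num)]
    norm_num
  have hn2 : (0 : ℝ) ≤ (n : ℝ) ^ (2 / 3 : ℝ) := Real.rpow_nonneg hn0 _
  have h50 : 50 * lam ≤ (n : ℝ) ^ (1 / 3 : ℝ) := by
    have h3 : (50 * lam) ^ 3 ≤ (n : ℝ) := by nlinarith
    have h4 : ((50 * lam) ^ 3 : ℝ) ^ (1 / 3 : ℝ) = 50 * lam := by
      rw [← Real.rpow_natCast, ← Real.rpow_mul (by positivity)]
      norm_num
    rw [← h4]
    exact Real.rpow_le_rpow (by positivity) h3 (by norm_num)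
  calc 50 * lam * (n : ℝ) ^ (2 / 3 : ℝ) ≤ (n : ℝ) ^ (1 / 3 : ℝ) * (n : ℝ) ^ (2 / 3 : ℝ) :=
        mul_le_mul_of_nonneg_right h50 hn2
    _ = n := hn3

private theorem pos_rgn_bx {σ lam : ℝ} {n : ℕ} {z : ℤ × ℤ} (h0 : 0 < σ) (hσ1 : σ < 1)
    (hl : 0 ≤ lam) (h50 : 50 * lam * (n : ℝ) ^ (2 / 3 : ℝ) ≤ n) (hn : 3 ≤ n)
    (hz : z ∈ Rgn σ (20 * lam * (n : ℝ) ^ (2 / 3 : ℝ)) n) : z ∈ Bx (4 * n) := by
  have hn0 : (0 : ℝ) ≤ (n : ℝ) := Nat.cast_nonneg n
  have hn3r : (3 : ℝ) ≤ n := by exact_mod_cast hn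
  have hP : 0 ≤ lam * (n : ℝ) ^ (2 / 3 : ℝ) := mul_nonneg hl (Real.rpow_nonneg hn0 _)
  unfold Rgn at hz
  rw [Set.mem_ofPred_eq] at hz
  obtain ⟨h1, h2, h3⟩ := hz
  unfold dev at h3
  rw [abs_le] at h3
  have hl1 : (-(n : ℝ)) ≤ (lev z : ℝ) := by exact_mod_cast h1
  have hl2 : (lev z : ℝ) ≤ n + 1 := by exact_mod_cast h2
  have hs1 : σ * ((lev z : ℝ) - 1 / 2) ≤ n + 1 / 2 := by
    have := mul_le_mul_of_nonneg_left (show (lev z : ℝ) - 1 / 2 ≤ n + 1 / 2 by linarith) h0.le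
    have h5 : σ * ((n : ℝ) + 1 / 2) ≤ 1 * ((n : ℝ) + 1 / 2) :=
      mul_le_mul_of_nonneg_right hσ1.le (by linarith)
    linarith
  have hs2 : -((n : ℝ) + 1 / 2) ≤ σ * ((lev z : ℝ) - 1 / 2) := by
    have := mul_le_mul_of_nonneg_left
      (show -((n : ℝ) + 1 / 2) ≤ (lev z : ℝ) - 1 / 2 by linarith) h0.le
    nlinarith
  have hz1 : (z.1 : ℝ) ≤ 2 * n := by nlinarith [h3.1, h3.2]
  have hz2 : -(2 * (n : ℝ)) ≤ (z.1 : ℝ) := by nlinarith [h3.1, h3.2]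
  have hz1' : z.1 ≤ 2 * (n : ℤ) := by exact_mod_cast hz1
  have hz2' : -(2 * (n : ℤ)) ≤ z.1 := by exact_mod_cast hz2
  have hn3z : (3 : ℤ) ≤ n := by exact_mod_cast hn
  unfold lev at h1 h2
  unfold Bx
  rw [Set.mem_ofPred_eq]
  push_cast
  exact ⟨by omega, by omega, by omega, by omega⟩

private theorem pos_bx_between {m : ℕ} {u v z : ℤ × ℤ} (hu : u ∈ Bx m) (hv : v ∈ Bx m)
    (h1 : u ≤ z) (h2 : z ≤ v) : z ∈ Bx m := by
  unfold Bx at hu hv ⊢
  rw [Set.mem_ofPred_eq] at hu hv ⊢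
  have a1 := h1.1
  have a2 := h1.2
  have a3 := h2.1
  have a4 := h2.2
  exact ⟨by omega, by omega, by omega, by omega⟩

/-- the affine identity -/
private theorem pos_aff {σ : ℝ} {u v w : ℤ × ℤ} (hl : dl u v ≠ 0) :
    dev σ w - (1 - dl w v / dl u v) * dev σ v - dl w v / dl u v * dev σ u =
      -(((v.1 - w.1 : ℤ) : ℝ) - ((v.1 - u.1 : ℤ) : ℝ) / dl u v * dl w v) := by
  have hg : (lev w : ℝ) = lev v - dl w v := by
    unfold dl
    push_cast
    ring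
  have hu : (lev u : ℝ) = lev v - dl u v := by
    unfold dl
    push_cast
    ring
  unfold dev
  rw [hg, hu]
  push_cast
  field_simp
  ring

private theorem pos_first {κ : ℝ} (hκ : 0 < κ) : ∃ C0 : ℝ, 1 ≤ C0 ∧ ∀ (σ lam Y g0 : ℝ) (n : ℕ)
    (ω : ℤ × ℤ → ℝ), Par C0 κ σ lam Y g0 n → GoodE κ σ lam Y g0 n ω → ∀ u v w : ℤ × ℤ,
    u ∈ Rgn σ (20 * lam * (n : ℝ) ^ (2 / 3 : ℝ)) n →
    v ∈ Rgn σ (20 * lam * (n : ℝ) ^ (2 / 3 : ℝ)) n → Cone (3 * κ / 4) u v → g0 ≤ dl u v →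
    Via ω u w v →
    |dev σ w - (1 - dl w v / dl u v) * dev σ v - dl w v / dl u v * dev σ u| ≤
        10 * √Y * (max (dl w v) g0) ^ (2 / 3 : ℝ) := by
  obtain ⟨C, hC1, hcs⟩ := cs hκ
  refine ⟨max C 125000, hC1.trans (le_max_left _ _), ?_⟩
  intro σ lam Y g0 n ω hpar hgood u v w hu hv hcone hl hw
  obtain ⟨hs1, hs2, hY, hYl, hg0, hgn⟩ := hpar
  have hCY : C ≤ Y := (le_max_left _ _).trans hY
  have hbY : (125000 : ℝ) ≤ Y := (le_max_right _ _).trans hY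
  have hlam : (62500 : ℝ) ≤ lam := by linarith
  have hlam0 : (0 : ℝ) ≤ lam := by linarith
  have hlam3 : (0 : ℝ) ≤ lam ^ 3 := by positivity
  have hCg : C * lam ^ 3 ≤ g0 :=
    (mul_le_mul_of_nonneg_right (le_max_left _ _) hlam3).trans hg0
  have hbg : 125000 * lam ^ 3 ≤ g0 :=
    (mul_le_mul_of_nonneg_right (le_max_right _ _) hlam3).trans hg0
  have hg0pos : (1 : ℝ) ≤ g0 := by
    have h3 : (1 : ℝ) ≤ lam ^ 3 := by
      have := pow_le_pow_left₀ (by norm_num : (0 : ℝ) ≤ 1) (show (1 : ℝ) ≤ lam by linarith) 3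
      simpa using this
    linarith
  have hn0 : (0 : ℝ) ≤ (n : ℝ) := Nat.cast_nonneg n
  have h50 := pos_third hlam0 hbg hgn
  have hn3 : (3 : ℝ) ≤ (n : ℝ) := by
    have h3 : (1 : ℝ) ≤ lam ^ 3 := by
      have := pow_le_pow_left₀ (by norm_num : (0 : ℝ) ≤ 1) (show (1 : ℝ) ≤ lam by linarith) 3
      simpa using this
    linarith
  have hn3' : 3 ≤ n := by exact_mod_cast hn3
  have hσ0 : 0 < σ := by linarith
  have hσ1 : σ < 1 := by linarith
  have huB := pos_rgn_bx hσ0 hσ1 hlam0 h50 hn3' hu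
  have hvB := pos_rgn_bx hσ0 hσ1 hlam0 h50 hn3' hv
  have huv : u ≤ v := hcone.1
  have hlpos : 0 < dl u v := by linarith
  have hwts : ∀ z, u ≤ z → z ≤ v → 0 ≤ ω z ∧ ω z ≤ lam := fun z h1 h2 =>
    hgood.1.1 z (pos_bx_between huB hvB h1 h2)
  have hdl0 : ∀ p q : ℤ × ℤ, p ≤ q → 0 ≤ dl p q := by
    intro p q hpq
    have := lev_le_lev hpq
    unfold dl
    exact_mod_cast (by omega : (0 : ℤ) ≤ lev q - lev p)
  -- crude step
  have hcrude : ∀ p q, Via ω u p v → Via ω p q v →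
      T ω p q ≤ muz p q + lam * √(dl p q + 1) ∧
      (Cone (κ / 4) p q →
        |T ω p q - muz p q| ≤ 2 * lam * (max (dl p q) g0) ^ (1 / 3 : ℝ)) := by
    intro p q hp hq
    have hpB := pos_bx_between huB hvB hp.1 hp.2.1
    have hqB := pos_bx_between huB hvB (hp.1.trans hq.1) hq.2.1
    obtain ⟨h1, h2⟩ := hgood.1.2 p hpB q hqB hq.1
    refine ⟨h1, fun hc => (h2 hc).trans ?_⟩
    have hd := hdl0 p q hq.1
    have hm0 : 0 ≤ max (dl p q) g0 := hd.trans (le_max_left _ _)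
    have hm : dl p q + 1 ≤ 2 * max (dl p q) g0 := by
      have h1 := le_max_left (dl p q) g0
      have h2 := le_max_right (dl p q) g0
      linarith
    have h2 : (dl p q + 1) ^ (1 / 3 : ℝ) ≤ 2 * (max (dl p q) g0) ^ (1 / 3 : ℝ) := by
      calc (dl p q + 1) ^ (1 / 3 : ℝ) ≤ (2 * max (dl p q) g0) ^ (1 / 3 : ℝ) :=
            Real.rpow_le_rpow (by linarith) hm (by norm_num)
        _ = 2 ^ (1 / 3 : ℝ) * (max (dl p q) g0) ^ (1 / 3 : ℝ) :=
            Real.mul_rpow (by norm_num) hm0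
        _ ≤ 2 * (max (dl p q) g0) ^ (1 / 3 : ℝ) := by
            apply mul_le_mul_of_nonneg_right _ (Real.rpow_nonneg hm0 _)
            calc (2 : ℝ) ^ (1 / 3 : ℝ) ≤ 2 ^ (1 : ℝ) :=
                  Real.rpow_le_rpow_of_exponent_le (by norm_num) (by norm_num)
              _ = 2 := Real.rpow_one 2
    calc lam * (dl p q + 1) ^ (1 / 3 : ℝ) ≤ lam * (2 * (max (dl p q) g0) ^ (1 / 3 : ℝ)) :=
          mul_le_mul_of_nonneg_left h2 hlam0
      _ = 2 * lam * (max (dl p q) g0) ^ (1 / 3 : ℝ) := by ring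
  have hstep1 := hcs lam (2 * lam) g0 ω u v (hCY.trans hYl) le_rfl hCg hcone hl hwts hcrude
  -- membership in the region of half width 40 lam n^(2/3)
  have huR := hu
  have hvR := hv
  unfold Rgn at huR hvR
  rw [Set.mem_ofPred_eq] at huR hvR
  obtain ⟨hu1, hu2, hu3⟩ := huR
  obtain ⟨hv1, hv2, hv3⟩ := hvR
  have hdl_le : dl u v ≤ 3 * n := by
    have h1 : lev v - lev u ≤ 2 * (n : ℤ) + 1 := by omega
    have h2 : dl u v ≤ 2 * (n : ℝ) + 1 := by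
      unfold dl
      exact_mod_cast h1
    linarith
  have hmem : ∀ p, Via ω u p v → p ∈ Rgn σ (40 * lam * (n : ℝ) ^ (2 / 3 : ℝ)) n := by
    intro p hp
    have hlp1 := lev_le_lev hp.1
    have hlp2 := lev_le_lev hp.2.1
    have hb := hstep1 p hp
    have hg := hdl0 p v hp.2.1
    have hgl : dl p v ≤ dl u v := by
      unfold dl
      exact_mod_cast (by omega : lev v - lev p ≤ lev v - lev u)
    have haff := pos_aff (σ := σ) (u := u) (v := v) (w := p) hlpos.ne'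
    have ht0 : 0 ≤ dl p v / dl u v := div_nonneg hg hlpos.le
    have ht1 : dl p v / dl u v ≤ 1 := (div_le_one hlpos).mpr hgl
    have hmax : max (dl p v) g0 ≤ 3 * n := max_le (hgl.trans hdl_le) (by linarith)
    have hmax0 : 0 ≤ max (dl p v) g0 := hg.trans (le_max_left _ _)
    have hP : 0 ≤ (n : ℝ) ^ (2 / 3 : ℝ) := Real.rpow_nonneg hn0 _
    have h3 : (max (dl p v) g0) ^ (2 / 3 : ℝ) ≤ 3 * (n : ℝ) ^ (2 / 3 : ℝ) := by
      calc (max (dl p v) g0) ^ (2 / 3 : ℝ) ≤ (3 * (n : ℝ)) ^ (2 / 3 : ℝ) :=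
            Real.rpow_le_rpow hmax0 hmax (by norm_num)
        _ = 3 ^ (2 / 3 : ℝ) * (n : ℝ) ^ (2 / 3 : ℝ) := Real.mul_rpow (by norm_num) hn0
        _ ≤ 3 * (n : ℝ) ^ (2 / 3 : ℝ) := by
            apply mul_le_mul_of_nonneg_right _ hP
            calc (3 : ℝ) ^ (2 / 3 : ℝ) ≤ 3 ^ (1 : ℝ) :=
                  Real.rpow_le_rpow_of_exponent_le (by norm_num) (by norm_num)
              _ = 3 := Real.rpow_one 3
    have hsq : √(2 * lam) ≤ lam / 2 := by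
      rw [Real.sqrt_le_left (by linarith)]
      nlinarith
    have hsq0 : 0 ≤ √(2 * lam) := Real.sqrt_nonneg _
    have hb2 : 10 * √(2 * lam) * (max (dl p v) g0) ^ (2 / 3 : ℝ) ≤
        20 * lam * (n : ℝ) ^ (2 / 3 : ℝ) := by
      calc 10 * √(2 * lam) * (max (dl p v) g0) ^ (2 / 3 : ℝ) ≤
            10 * (lam / 2) * (3 * (n : ℝ) ^ (2 / 3 : ℝ)) := by
            apply mul_le_mul _ h3 (Real.rpow_nonneg hmax0 _) (by positivity)
            linarith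
        _ ≤ 20 * lam * (n : ℝ) ^ (2 / 3 : ℝ) := by
            have := mul_nonneg hlam0 hP
            nlinarith
    have hb3 := hb.trans hb2
    rw [← abs_neg, ← haff] at hb3
    unfold Rgn
    rw [Set.mem_ofPred_eq]
    refine ⟨by omega, by omega, ?_⟩
    rw [abs_le] at hb3 hu3 hv3 ⊢
    have e1 : (1 - dl p v / dl u v) * dev σ v ≤
        (1 - dl p v / dl u v) * (20 * lam * (n : ℝ) ^ (2 / 3 : ℝ)) :=
      mul_le_mul_of_nonneg_left hv3.2 (by linarith)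
    have e2 : (1 - dl p v / dl u v) * -(20 * lam * (n : ℝ) ^ (2 / 3 : ℝ)) ≤
        (1 - dl p v / dl u v) * dev σ v :=
      mul_le_mul_of_nonneg_left hv3.1 (by linarith)
    have e3 : dl p v / dl u v * dev σ u ≤
        dl p v / dl u v * (20 * lam * (n : ℝ) ^ (2 / 3 : ℝ)) :=
      mul_le_mul_of_nonneg_left hu3.2 ht0
    have e4 : dl p v / dl u v * -(20 * lam * (n : ℝ) ^ (2 / 3 : ℝ)) ≤
        dl p v / dl u v * dev σ u :=
      mul_le_mul_of_nonneg_left hu3.1 ht0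
    constructor
    · linarith [hb3.1, hb3.2]
    · linarith [hb3.1, hb3.2]
  -- fine step
  have hfine : ∀ p q, Via ω u p v → Via ω p q v →
      T ω p q ≤ muz p q + lam * √(dl p q + 1) ∧
      (Cone (κ / 4) p q →
        |T ω p q - muz p q| ≤ Y * (max (dl p q) g0) ^ (1 / 3 : ℝ)) := by
    intro p q hp hq
    refine ⟨(hcrude p q hp hq).1, fun hc => ?_⟩
    exact hgood.2 p (hmem p hp) q (hmem q (Via.trans_right hp hq).1) hc
  have hstep2 := hcs lam Y g0 ω u v hCY hYl hCg hcone hl hwts hfine w hw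
  rw [pos_aff hlpos.ne', abs_neg]
  exact hstep2

theorem pos {κ : ℝ} (hκ : 0 < κ) : ∃ C0 : ℝ, 1 ≤ C0 ∧ ∀ (σ lam Y g0 : ℝ) (n : ℕ)
    (ω : ℤ × ℤ → ℝ), Par C0 κ σ lam Y g0 n → GoodE κ σ lam Y g0 n ω → ∀ u v w : ℤ × ℤ,
    u ∈ Rgn σ (20 * lam * (n : ℝ) ^ (2 / 3 : ℝ)) n →
    v ∈ Rgn σ (20 * lam * (n : ℝ) ^ (2 / 3 : ℝ)) n → Cone (3 * κ / 4) u v → g0 ≤ dl u v →
    Via ω u w v →
    |dev σ w - (1 - dl w v / dl u v) * dev σ v - dl w v / dl u v * dev σ u| ≤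
        10 * √Y * (max (dl w v) g0) ^ (2 / 3 : ℝ) ∧
    |dev σ w - (1 - dl w v / dl u v) * dev σ v - dl w v / dl u v * dev σ u| ≤
        10 * √Y * (max (dl u w) g0) ^ (2 / 3 : ℝ) := by
  obtain ⟨C0, hC0, h⟩ := pos_first hκ
  refine ⟨C0, hC0, ?_⟩
  intro σ lam Y g0 n ω hpar hgood u v w hu hv hcone hl hw
  refine ⟨h σ lam Y g0 n ω hpar hgood u v w hu hv hcone hl hw, ?_⟩
  have hr := h σ lam Y g0 n (rotE ω) hpar (goodE_rot.mpr hgood) (rot v) (rot u) (rot w)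
    (rgn_rot.mpr hv) (rgn_rot.mpr hu) (cone_rot.mpr hcone) (by rw [dl_rot]; exact hl)
    (via_rotE.mpr (by rw [rot_rot, rot_rot, rot_rot]; exact hw))
  rw [dl_rot, dl_rot, dev_rot, dev_rot, dev_rot] at hr
  have hg0 : 0 < g0 := by
    obtain ⟨hs1, hs2, hY, hYl, hg0, hgn⟩ := hpar
    have hlam : 0 < lam := by linarith
    have : 0 < C0 * lam ^ 3 := by positivity
    linarith
  have hlpos : 0 < dl u v := by linarith
  have hsum : dl u w = dl u v - dl w v := by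
    unfold dl
    push_cast
    ring
  have e : dev σ w - (1 - dl w v / dl u v) * dev σ v - dl w v / dl u v * dev σ u =
      -(-dev σ w - (1 - dl u w / dl u v) * -dev σ u - dl u w / dl u v * -dev σ v) := by
    rw [hsum]
    field_simp
    ring
  rw [e, abs_neg]
  exact hr

end BGE
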