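import Pool.Agent.BGE.FPar
import Pool.Agent.BGE.Pos
import Pool.Agent.BGE.Straight
import Pool.Agent.BGE.GeoA

/-!
BGE / F6. A hit in the cone is a hit in one of the grid directions (deterministic).

`n = nn h 0`. Let `ω ∈ Gr (2κ) n`: sites `z, w` of the levels `-n`, `n + 1`. Then `Cone κ z w`,
`Via ω z (0,0) w`. Let `σ0 = (w.1 - z.1)/(2n+1) ∈ [1.5 κ, 1 - 1.5 κ]` and `q` an integer with
`|dir h q - σ0| ≤ 1/nD ≤ n^{-1/3}`, `σ = dir h q`. As `dev σ0 z = dev σ0 w` and by `cs` (crude slack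
`Y = 2 lam`, from `CrE`; `v = w`, middle site `(0,0)`, `dl = n + 1`)
`|dev σ0 (0,0) - dev σ0 w| ≤ 10 √(2 lam) (n+1)^{2/3}`, so `|dev σ0 z|, |dev σ0 w| ≤ 10 √(2 lam)
(n+1)^{2/3} + 1`, and `|dev σ z - dev σ0 z| ≤ (n + 1) n^{-1/3}`, so
`|dev σ z|, |dev σ w| ≤ 2 lam n^{2/3} = arc lam n`.
If `GoodE κ σ lam (yy h) (nn h 25) (2n) ω`: by `pos` for `σ` and `Y = yy h` (`z, w` are in the
parallelogram; `|dev σ w - dev σ z| ≤ 2 n^{2/3} + 2`): `|dev σ w| ≤ 10 √y (n+1)^{2/3} + 2 n^{2/3} + 3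
≤ y n^{2/3}` as `y ≥ C0`; the same for `z`.
-/

namespace BGE

/-- the middle site is on the geodesic -/
private theorem fd_via {ω : ℤ × ℤ → ℝ} {z w : ℤ × ℤ} (hz : z ≤ (0, 0)) (hw : (0, 1) ≤ w)
    (hT : T ω z w = T ω z (0, 0) + T ω (0, 1) w) : Via ω z (0, 0) w := by
  have h01 : ((0, 0) : ℤ × ℤ) ≤ (0, 1) := ⟨le_refl _, by show (0 : ℤ) ≤ 1; norm_num⟩
  have h0w : ((0, 0) : ℤ × ℤ) ≤ w := h01.trans hw
  refine ⟨hz, h0w, le_antisymm ?_ (T_add_le hz h0w)⟩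
  have h1 := T_edge_le (ω := ω) (u := (0, 0)) (w := (0, 0)) (w' := (0, 1)) (v := w) le_rfl
    (Or.inr (by simp)) hw
  rw [T_self] at h1
  linarith

/-- the numerical inequality -/
private theorem fd_num {Y N : ℝ} (hY : 1000 ≤ Y) (hN : 1 ≤ N) :
    10 * √Y * (N + 1) ^ (2 / 3 : ℝ) + 2 * N ^ (2 / 3 : ℝ) + 1 / 2 ≤ Y * N ^ (2 / 3 : ℝ) := by
  have hN0 : 0 ≤ N := by linarith
  have h1 : (N + 1) ^ (2 / 3 : ℝ) ≤ 2 * N ^ (2 / 3 : ℝ) := by
    calc (N + 1) ^ (2 / 3 : ℝ) ≤ (2 * N) ^ (2 / 3 : ℝ) :=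
          Real.rpow_le_rpow (by linarith) (by linarith) (by norm_num)
      _ = 2 ^ (2 / 3 : ℝ) * N ^ (2 / 3 : ℝ) := Real.mul_rpow (by norm_num) hN0
      _ ≤ 2 * N ^ (2 / 3 : ℝ) := by
          apply mul_le_mul_of_nonneg_right _ (Real.rpow_nonneg hN0 _)
          calc (2 : ℝ) ^ (2 / 3 : ℝ) ≤ 2 ^ (1 : ℝ) :=
                Real.rpow_le_rpow_of_exponent_le (by norm_num) (by norm_num)
            _ = 2 := Real.rpow_one 2
  have h2 : 1 ≤ N ^ (2 / 3 : ℝ) := Real.one_le_rpow hN (by norm_num)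
  have hs : 31 ≤ √Y := Real.le_sqrt_of_sq_le (by linarith)
  have hsq : √Y * √Y = Y := Real.mul_self_sqrt (by linarith)
  have h3 : 20 * √Y + 3 ≤ Y := by nlinarith
  calc 10 * √Y * (N + 1) ^ (2 / 3 : ℝ) + 2 * N ^ (2 / 3 : ℝ) + 1 / 2
      ≤ 10 * √Y * (2 * N ^ (2 / 3 : ℝ)) + 2 * N ^ (2 / 3 : ℝ) + 1 / 2 := by
        have := mul_le_mul_of_nonneg_left h1 (show 0 ≤ 10 * √Y by positivity)
        linarith
    _ ≤ (20 * √Y + 3) * N ^ (2 / 3 : ℝ) := by nlinarith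
    _ ≤ Y * N ^ (2 / 3 : ℝ) := mul_le_mul_of_nonneg_right h3 (by linarith)

/-- deviations of the end points -/
private theorem fd_dev {n : ℕ} {z w : ℤ × ℤ} (hz : lev z = -(n : ℤ)) (hw : lev w = n + 1)
    {σ σ0 E F : ℝ} (h0 : σ0 * (2 * n + 1) = ((w.1 - z.1 : ℤ) : ℝ)) (hF : |σ - σ0| * (n + 1) ≤ F)
    (hE : |(w.1 : ℝ) - σ0 * (n + 1)| ≤ E) (hs0 : 0 ≤ σ0) (hs1 : σ0 ≤ 1) :
    |dev σ z| ≤ E + F + 1 / 2 ∧ |dev σ w| ≤ E + F + 1 / 2 := by
  have hn : (0 : ℝ) ≤ n := Nat.cast_nonneg n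
  have hz' : (lev z : ℝ) = -(n : ℝ) := by rw [hz]; push_cast; ring
  have hw' : (lev w : ℝ) = n + 1 := by rw [hw]; push_cast; ring
  have hF' : |(σ - σ0) * ((n : ℝ) + 1 / 2)| ≤ F := by
    rw [abs_mul, abs_of_nonneg (show (0 : ℝ) ≤ (n : ℝ) + 1 / 2 by linarith)]
    refine le_trans (mul_le_mul_of_nonneg_left (by linarith) (abs_nonneg _)) hF
  push_cast at h0
  have e1 : dev σ z = ((w.1 : ℝ) - σ0 * (n + 1)) + (σ - σ0) * ((n : ℝ) + 1 / 2) + σ0 / 2 := by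
    rw [dev, hz']
    linear_combination h0
  have e2 : dev σ w = ((w.1 : ℝ) - σ0 * (n + 1)) - (σ - σ0) * ((n : ℝ) + 1 / 2) + σ0 / 2 := by
    rw [dev, hw']
    ring
  rw [e1, e2]
  rw [abs_le] at hE hF'
  constructor
  · rw [abs_le]
    constructor
    · linarith [hE.1, hF'.1]
    · linarith [hE.2, hF'.2]
  · rw [abs_le]
    constructor
    · linarith [hE.1, hF'.2]
    · linarith [hE.2, hF'.1]

/-- the same from the position of the middle site -/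
private theorem fd_dev2 {n : ℕ} {z w : ℤ × ℤ} (hz : lev z = -(n : ℤ)) (hw : lev w = n + 1)
    {σ σ0 E F : ℝ} (h0 : σ0 * (2 * n + 1) = ((w.1 - z.1 : ℤ) : ℝ)) (hF : |σ - σ0| * (n + 1) ≤ F)
    (hE : |dev σ (0, 0) - (1 - dl (0, 0) w / dl z w) * dev σ w -
      dl (0, 0) w / dl z w * dev σ z| ≤ E) (hs0 : 0 ≤ σ) (hs1 : σ ≤ 1) :
    |dev σ z| ≤ E + F + 1 / 2 ∧ |dev σ w| ≤ E + F + 1 / 2 := by
  have hn : (0 : ℝ) ≤ n := Nat.cast_nonneg n
  have hz' : (lev z : ℝ) = -(n : ℝ) := by rw [hz]; push_cast; ring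
  have hw' : (lev w : ℝ) = n + 1 := by rw [hw]; push_cast; ring
  have hd1 : dl (0, 0) w = n + 1 := by
    unfold dl
    push_cast
    rw [hw']
    simp [lev]
  have hd2 : dl z w = 2 * n + 1 := by
    unfold dl
    push_cast
    rw [hw', hz']
    ring
  have hd0 : dev σ (0, 0) = σ / 2 := by
    simp only [dev, lev]
    push_cast
    ring
  have hF1 : |(σ - σ0) * ((n : ℝ) + 1)| ≤ F := by
    rw [abs_mul, abs_of_nonneg (show (0 : ℝ) ≤ (n : ℝ) + 1 by linarith)]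
    exact hF
  have hF2 : |(σ - σ0) * (n : ℝ)| ≤ F := by
    rw [abs_mul, abs_of_nonneg hn]
    refine le_trans (mul_le_mul_of_nonneg_left (by linarith) (abs_nonneg _)) hF
  push_cast at h0
  have hl : (2 * (n : ℝ) + 1) ≠ 0 := by positivity
  rw [hd1, hd2, hd0] at hE
  have hdiff : dev σ w - dev σ z = (σ0 - σ) * (2 * n + 1) := by
    rw [dev, dev, hz', hw']
    linear_combination -h0
  have e1 : σ / 2 - (1 - ((n : ℝ) + 1) / (2 * n + 1)) * dev σ w -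
      ((n : ℝ) + 1) / (2 * n + 1) * dev σ z = σ / 2 - dev σ w - (σ - σ0) * (n + 1) := by
    have e2 : dev σ z = dev σ w - (σ0 - σ) * (2 * n + 1) := by linarith
    rw [e2]
    field_simp
    ring
  rw [e1] at hE
  rw [abs_le] at hE hF1 hF2
  have e3 : dev σ z = dev σ w - (σ0 - σ) * (2 * n + 1) := by linarith
  have e4 : dev σ z = dev σ w + (σ - σ0) * (n + 1) + (σ - σ0) * n := by
    rw [e3]
    ring
  constructor
  · rw [abs_le]
    constructor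
    · linarith [hE.1, hE.2, hF2.1, hF2.2]
    · linarith [hE.1, hE.2, hF2.1, hF2.2]
  · rw [abs_le]
    constructor
    · linarith [hE.1, hE.2, hF1.1, hF1.2]
    · linarith [hE.1, hE.2, hF1.1, hF1.2]

/-- sites between the end points are in the box -/
private theorem fd_box {n m : ℕ} {z w y : ℤ × ℤ} (hz : lev z = -(n : ℤ)) (hw : lev w = n + 1)
    (hz0 : z ≤ (0, 0)) (hw0 : (0, 1) ≤ w) (hm : n ≤ m) (h1 : z ≤ y) (h2 : y ≤ w) : y ∈ Bx m := by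
  unfold lev at hz hw
  have a1 : z.1 ≤ 0 := hz0.1
  have a2 : z.2 ≤ 0 := hz0.2
  have a3 : 0 ≤ w.1 := hw0.1
  have a4 : 1 ≤ w.2 := hw0.2
  have b1 := h1.1
  have b2 := h1.2
  have b3 := h2.1
  have b4 := h2.2
  unfold Bx
  rw [Set.mem_ofPred_eq]
  exact ⟨by omega, by omega, by omega, by omega⟩

theorem dir_incl {κ : ℝ} (hκ : 0 < κ) (hκ1 : κ ≤ 1 / 4) : ∃ C1 : ℝ, 2 ≤ C1 ∧
    ∀ (h lam : ℝ) (m : ℕ) (ω : ℤ × ℤ → ℝ), HP C1 h lam → 16 * nn h 0 ≤ m → CrE κ lam m ω →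
    ω ∈ Gr (2 * κ) (nn h 0) → ∃ q : ℕ, q ≤ nD h ∧ κ ≤ dir h q ∧ dir h q ≤ 1 - κ ∧
      Thru (dir h q) (arc lam (nn h 0)) (nn h 0) ω ∧
      (GoodE κ (dir h q) lam (yy h) (nn h 25) (2 * nn h 0) ω →
        Thru (dir h q) (farc h (nn h 0)) (nn h 0) ω) := by
  obtain ⟨Cc, hCc1, hcs⟩ := cs hκ
  obtain ⟨Cp, hCp1, hpos⟩ := pos hκ
  set C0 : ℝ := max (max Cc Cp) (max 1000 ((2 / κ) ^ 3)) with hC0
  have c1 : Cc ≤ C0 := (le_max_left _ _).trans (le_max_left _ _)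
  have c2 : Cp ≤ C0 := (le_max_right _ _).trans (le_max_left _ _)
  have c3 : 1000 ≤ C0 := (le_max_left _ _).trans (le_max_right _ _)
  have c4 : (2 / κ) ^ 3 ≤ C0 := (le_max_right _ _).trans (le_max_right _ _)
  obtain ⟨C1, hC1, hfy⟩ := fy C0
  obtain ⟨C2, hC2, hfn⟩ := fn C0
  refine ⟨max C1 C2, hC1.trans (le_max_left _ _), ?_⟩
  intro h lam m ω hHP hm hCr hGr
  have hHP1 : HP C1 h lam := ⟨hHP.1, hHP.2.1, (le_max_left _ _).trans hHP.2.2.1, hHP.2.2.2⟩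
  have hHP2 : HP C2 h lam := ⟨hHP.1, hHP.2.1, (le_max_right _ _).trans hHP.2.2.1, hHP.2.2.2⟩
  obtain ⟨y1, y2, -⟩ := hfy h lam hHP1
  obtain ⟨n1, -⟩ := hfn h lam hHP2
  obtain ⟨-, -, -, n2, n3, -⟩ := n1 0 (by norm_num)
  obtain ⟨-, -, -, n4, -, -⟩ := n1 25 le_rfl
  have hlam : 1000 ≤ lam := c3.trans (y1.trans y2)
  have hlam0 : 0 ≤ lam := by linarith
  have hlam3 : 1 ≤ lam ^ 3 := one_le_pow₀ (by linarith)
  obtain ⟨z, w, hz, hw, hz0, hw0, hT⟩ := hGr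
  set n := nn h 0 with hn
  have hC0n : C0 ≤ n := by
    have : C0 * 1 ≤ C0 * lam ^ 3 := mul_le_mul_of_nonneg_left hlam3 (by linarith)
    linarith
  have hn1000 : (1000 : ℝ) ≤ n := c3.trans hC0n
  have hn0 : (0 : ℝ) < n := by linarith
  have hzle : z ≤ (0, 0) := hz0.1
  have hwle : (0, 1) ≤ w := hw0.1
  have hvia := fd_via hzle hwle hT
  have hzw : z ≤ w := hvia.1.trans hvia.2.1
  have hz' : (lev z : ℝ) = -(n : ℝ) := by rw [hz]; push_cast; ring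
  have hw' : (lev w : ℝ) = n + 1 := by rw [hw]; push_cast; ring
  have hd1 : dl (0, 0) w = n + 1 := by
    unfold dl
    push_cast
    rw [hw']
    simp [lev]
  have hd2 : dl z w = 2 * n + 1 := by
    unfold dl
    push_cast
    rw [hw', hz']
    ring
  have hd3 : dl z (0, 0) = n := by
    unfold dl
    push_cast
    rw [hz']
    simp [lev]
  have hd4 : dl (0, 1) w = n := by
    unfold dl
    push_cast
    rw [hw']
    simp [lev]
  -- the direction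
  have hz1 := hz0.2.1
  have hz2 := hz0.2.2
  have hw1 := hw0.2.1
  have hw2 := hw0.2.2
  rw [hd3] at hz1 hz2
  rw [hd4] at hw1 hw2
  push_cast at hz1 hz2 hw1 hw2
  have hl0 : (0 : ℝ) < 2 * n + 1 := by linarith
  obtain ⟨σ0, hσ0⟩ : ∃ σ0 : ℝ, σ0 * (2 * n + 1) = ((w.1 - z.1 : ℤ) : ℝ) :=
    ⟨((w.1 - z.1 : ℤ) : ℝ) / (2 * n + 1), div_mul_cancel₀ _ hl0.ne'⟩
  have hsum : ((w.1 - z.1 : ℤ) : ℝ) + ((w.2 - z.2 : ℤ) : ℝ) = 2 * n + 1 := by
    have : ((w.1 - z.1 : ℤ) : ℝ) + ((w.2 - z.2 : ℤ) : ℝ) = (lev w : ℝ) - lev z := by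
      unfold lev
      push_cast
      ring
    rw [this, hw', hz']
    ring
  have hκ1000 : κ * 1000 ≤ κ * n := mul_le_mul_of_nonneg_left hn1000 hκ.le
  have hA : 3 / 2 * κ * (2 * n + 1) ≤ ((w.1 - z.1 : ℤ) : ℝ) := by
    push_cast
    linarith
  have hB : 3 / 2 * κ * (2 * n + 1) ≤ ((w.2 - z.2 : ℤ) : ℝ) := by
    push_cast
    linarith
  have hs1 : 3 / 2 * κ ≤ σ0 := by
    rw [← hσ0] at hA
    exact le_of_mul_le_mul_right hA hl0
  have hs2 : σ0 ≤ 1 - 3 / 2 * κ := by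
    have : 3 / 2 * κ * (2 * n + 1) ≤ (1 - σ0) * (2 * n + 1) := by
      rw [sub_mul, hσ0, one_mul]
      linarith
    have := le_of_mul_le_mul_right this hl0
    linarith
  -- the number of directions
  have ht1 : (1 : ℝ) ≤ (n : ℝ) ^ (1 / 3 : ℝ) := Real.one_le_rpow (by linarith) (by norm_num)
  have hnD : (n : ℝ) ^ (1 / 3 : ℝ) ≤ nD h := Nat.le_ceil _
  have hnD0 : (0 : ℝ) < nD h := by linarith
  have ht2 : 2 / κ ≤ (n : ℝ) ^ (1 / 3 : ℝ) := by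
    have h1 : ((2 / κ) ^ 3) ^ (1 / 3 : ℝ) = 2 / κ := by
      rw [← Real.rpow_natCast, ← Real.rpow_mul (by positivity)]
      norm_num
    rw [← h1]
    exact Real.rpow_le_rpow (by positivity) (c4.trans hC0n) (by norm_num)
  have hκn : 1 ≤ κ / 2 * nD h := by
    have h1 : 2 / κ ≤ nD h := ht2.trans hnD
    rw [div_le_iff₀ hκ] at h1
    linarith
  have hq1 : ((⌊σ0 * nD h⌋₊ : ℕ) : ℝ) ≤ σ0 * nD h := Nat.floor_le (by
    have : 0 ≤ σ0 := by linarith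
    positivity)
  have hq2 : σ0 * nD h < ((⌊σ0 * nD h⌋₊ : ℕ) : ℝ) + 1 := Nat.lt_floor_add_one _
  have hdirmul : dir h ⌊σ0 * nD h⌋₊ * nD h = ((⌊σ0 * nD h⌋₊ : ℕ) : ℝ) :=
    div_mul_cancel₀ _ hnD0.ne'
  have hκd : κ ≤ dir h ⌊σ0 * nD h⌋₊ := by
    have : κ * nD h ≤ dir h ⌊σ0 * nD h⌋₊ * nD h := by
      rw [hdirmul]
      have h1 : 3 / 2 * κ * nD h ≤ σ0 * nD h := mul_le_mul_of_nonneg_right hs1 hnD0.le
      linarith
    exact le_of_mul_le_mul_right this hnD0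
  have hd_le : dir h ⌊σ0 * nD h⌋₊ ≤ σ0 := by
    have : dir h ⌊σ0 * nD h⌋₊ * nD h ≤ σ0 * nD h := by
      rw [hdirmul]
      exact hq1
    exact le_of_mul_le_mul_right this hnD0
  have hdiff : |dir h ⌊σ0 * nD h⌋₊ - σ0| * nD h ≤ 1 := by
    rw [abs_sub_comm, abs_of_nonneg (sub_nonneg.2 hd_le), sub_mul, hdirmul]
    linarith
  have hqle : ⌊σ0 * nD h⌋₊ ≤ nD h := by
    have h1 : ((⌊σ0 * nD h⌋₊ : ℕ) : ℝ) ≤ (nD h : ℝ) := by
      refine hq1.trans ?_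
      have : σ0 * nD h ≤ 1 * nD h := mul_le_mul_of_nonneg_right (by linarith) hnD0.le
      linarith
    exact_mod_cast h1
  refine ⟨⌊σ0 * nD h⌋₊, hqle, hκd, by linarith, ?_⟩
  generalize dir h ⌊σ0 * nD h⌋₊ = σ at *
  have hs1' : σ ≤ 1 - κ := by linarith
  -- the shift of the direction
  have hF : |σ - σ0| * (n + 1) ≤ 2 * (n : ℝ) ^ (2 / 3 : ℝ) := by
    have h1 : |σ - σ0| * (n : ℝ) ^ (1 / 3 : ℝ) ≤ 1 :=
      (mul_le_mul_of_nonneg_left hnD (abs_nonneg _)).trans hdiff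
    have h2 : (n : ℝ) = (n : ℝ) ^ (1 / 3 : ℝ) * (n : ℝ) ^ (2 / 3 : ℝ) := by
      rw [← Real.rpow_add hn0]
      norm_num
    have h3 : (0 : ℝ) ≤ (n : ℝ) ^ (2 / 3 : ℝ) := by positivity
    have h4 : |σ - σ0| * ((n : ℝ) + 1) ≤ |σ - σ0| * (2 * (n : ℝ)) :=
      mul_le_mul_of_nonneg_left (by linarith) (abs_nonneg _)
    have h5 : |σ - σ0| * (2 * (n : ℝ)) =
        2 * (|σ - σ0| * (n : ℝ) ^ (1 / 3 : ℝ) * (n : ℝ) ^ (2 / 3 : ℝ)) := by
      conv_lhs => rw [h2]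
      ring
    have h6 := mul_le_mul_of_nonneg_right h1 h3
    linarith
  have hcone : Cone (3 * κ / 4) z w := by
    refine ⟨hzw, ?_, ?_⟩
    · rw [hd2]
      have : 0 ≤ κ * (2 * n + 1) := by positivity
      linarith
    · rw [hd2]
      have : 0 ≤ κ * (2 * n + 1) := by positivity
      linarith
  have hnm : n ≤ m := by omega
  have hdl0 : ∀ p q : ℤ × ℤ, p ≤ q → 0 ≤ dl p q := by
    intro p q hpq
    have := lev_le_lev hpq
    unfold dl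
    exact_mod_cast (by omega : (0 : ℤ) ≤ lev q - lev p)
  have hcrude : ∀ p q, Via ω z p w → Via ω p q w →
      T ω p q ≤ muz p q + lam * √(dl p q + 1) ∧
      (Cone (κ / 4) p q →
        |T ω p q - muz p q| ≤ 2 * lam * (max (dl p q) (n : ℝ)) ^ (1 / 3 : ℝ)) := by
    intro p q hp hq
    have hpB := fd_box hz hw hzle hwle hnm hp.1 hp.2.1
    have hqB := fd_box hz hw hzle hwle hnm (hp.1.trans hq.1) hq.2.1
    obtain ⟨h1, h2⟩ := hCr.2 p hpB q hqB hq.1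
    refine ⟨h1, fun hc => (h2 hc).trans ?_⟩
    have hd := hdl0 p q hq.1
    have hm0 : 0 ≤ max (dl p q) (n : ℝ) := hd.trans (le_max_left _ _)
    have hm : dl p q + 1 ≤ 2 * max (dl p q) (n : ℝ) := by
      have h1 := le_max_left (dl p q) (n : ℝ)
      have h2 := le_max_right (dl p q) (n : ℝ)
      linarith
    have h2 : (dl p q + 1) ^ (1 / 3 : ℝ) ≤ 2 * (max (dl p q) (n : ℝ)) ^ (1 / 3 : ℝ) := by
      calc (dl p q + 1) ^ (1 / 3 : ℝ) ≤ (2 * max (dl p q) (n : ℝ)) ^ (1 / 3 : ℝ) :=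
            Real.rpow_le_rpow (by linarith) hm (by norm_num)
        _ = 2 ^ (1 / 3 : ℝ) * (max (dl p q) (n : ℝ)) ^ (1 / 3 : ℝ) :=
            Real.mul_rpow (by norm_num) hm0
        _ ≤ 2 * (max (dl p q) (n : ℝ)) ^ (1 / 3 : ℝ) := by
            apply mul_le_mul_of_nonneg_right _ (Real.rpow_nonneg hm0 _)
            calc (2 : ℝ) ^ (1 / 3 : ℝ) ≤ 2 ^ (1 : ℝ) :=
                  Real.rpow_le_rpow_of_exponent_le (by norm_num) (by norm_num)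
              _ = 2 := Real.rpow_one 2
    calc lam * (dl p q + 1) ^ (1 / 3 : ℝ) ≤
          lam * (2 * (max (dl p q) (n : ℝ)) ^ (1 / 3 : ℝ)) :=
          mul_le_mul_of_nonneg_left h2 hlam0
      _ = 2 * lam * (max (dl p q) (n : ℝ)) ^ (1 / 3 : ℝ) := by ring
  have hwts : ∀ y, z ≤ y → y ≤ w → 0 ≤ ω y ∧ ω y ≤ lam := fun y h1 h2 =>
    hCr.1 y (fd_box hz hw hzle hwle hnm h1 h2)
  -- the crude position of the end points
  have hstep := hcs lam (2 * lam) n ω z w (by linarith) le_rfl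
    ((mul_le_mul_of_nonneg_right c1 (by positivity)).trans n2) hcone (by rw [hd2]; linarith)
    hwts hcrude (0, 0) hvia
  rw [hd1, hd2, max_eq_left (by linarith : (n : ℝ) ≤ n + 1)] at hstep
  have hstep' : |(w.1 : ℝ) - σ0 * (n + 1)| ≤ 10 * √(2 * lam) * ((n : ℝ) + 1) ^ (2 / 3 : ℝ) := by
    refine le_trans (le_of_eq ?_) hstep
    rw [← hσ0, mul_div_assoc, div_self hl0.ne', mul_one]
    push_cast
    rw [sub_zero]
  have hcr := fd_dev hz hw (σ := σ) hσ0 hF hstep' (by linarith) (by linarith)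
  have hnum := fd_num (Y := 2 * lam) (N := n) (by linarith) (by linarith)
  have hthru1 : |dev σ z| ≤ arc lam n ∧ |dev σ w| ≤ arc lam n := by
    unfold arc
    exact ⟨hcr.1.trans hnum, hcr.2.trans hnum⟩
  refine ⟨⟨z, w, hz, hthru1.1, hw, hthru1.2, hzle, hwle, hT⟩, ?_⟩
  intro hG
  have hP : 0 ≤ lam * (n : ℝ) ^ (2 / 3 : ℝ) := by positivity
  have hn2 : (n : ℝ) ^ (2 / 3 : ℝ) ≤ (((2 * n : ℕ)) : ℝ) ^ (2 / 3 : ℝ) := by
    refine Real.rpow_le_rpow hn0.le ?_ (by norm_num)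
    push_cast
    linarith
  have harc : arc lam n ≤ 20 * lam * (((2 * n : ℕ)) : ℝ) ^ (2 / 3 : ℝ) := by
    unfold arc
    have h1 : 2 * lam * (n : ℝ) ^ (2 / 3 : ℝ) ≤ 20 * lam * (n : ℝ) ^ (2 / 3 : ℝ) := by linarith
    exact h1.trans (mul_le_mul_of_nonneg_left hn2 (by positivity))
  have hn25 : (nn h 25 : ℝ) ≤ n := by exact_mod_cast n3
  have hfine := (hpos σ lam (yy h) (nn h 25) (2 * n) ω ⟨hκd, hs1', c2.trans y1, by linarith,
    (mul_le_mul_of_nonneg_right c2 (by positivity)).trans n4, by push_cast; linarith⟩ hG z w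
    (0, 0) ?_ ?_ hcone (by rw [hd2]; linarith) hvia).1
  · rw [hd1, hd2, max_eq_left (by linarith : (nn h 25 : ℝ) ≤ n + 1), ← hd1, ← hd2] at hfine
    have hfi := fd_dev2 hz hw hσ0 hF hfine (by linarith) (by linarith)
    rw [hd1] at hfi
    have hnum2 := fd_num (Y := yy h) (N := n) (c3.trans y1) (by linarith)
    refine ⟨z, w, hz, ?_, hw, ?_, hzle, hwle, hT⟩
    · unfold farc
      exact hfi.1.trans hnum2
    · unfold farc
      exact hfi.2.trans hnum2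
  · unfold Rgn
    rw [Set.mem_ofPred_eq]
    refine ⟨?_, ?_, hthru1.1.trans harc⟩
    · rw [hz]; push_cast; omega
    · rw [hz]; push_cast; omega
  · unfold Rgn
    rw [Set.mem_ofPred_eq]
    refine ⟨?_, ?_, hthru1.2.trans harc⟩
    · rw [hw]; push_cast; omega
    · rw [hw]; push_cast; omega

end BGE
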