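import Pool.Agent.BGE.FPar
import Pool.Agent.BGE.Cells

/-!
BGE / F10. The crude good event for the top scales.

`GdF`: crude regularity (cone `κ/16`) at all times `t ≤ M`, crude stability between the times `0`
and `t`, and between the grid times `gt g` and the times `gt g + i`, `i ≤ ⌈M/GG⌉`, with time
parameter `2h/GG`.
`gdF_prob`: for `η ≤ h^30`, `M η ≤ h`: `P(¬ GdF) ≤ h^9`. Proof: `good_all'` (for `κ/4`,
`m = 16 nn0 ≤ h⁻⁴`) gives `h^10` for the first part. For each `g ≤ GG` use `good_all` with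
`M := ⌈M/GG⌉`, `i0 := gt g`, `h := 2h/GG` (`⌈M/GG⌉ η ≤ h/GG + η ≤ 2h/GG`), `J := ⌈h⁻³⁰⌉`; the sum over
`g ≤ GG` (`GG ≤ h^{-1}`) is at most `h^10`.
-/

namespace BGE

open MeasureTheory ProbabilityTheory

def GdF (κ lam h η : ℝ) (M m : ℕ) : Set (DI → ℝ) :=
  {x | (∀ t ≤ M, CrE (κ / 4) lam m (dyn η x t) ∧ CrT lam m h (dyn η x 0) (dyn η x t)) ∧
    ∀ g ≤ GG lam, ∀ i ≤ ⌈(M : ℝ) / GG lam⌉₊,
      CrT lam m (2 * h / GG lam) (dyn η x (gt lam M g)) (dyn η x (gt lam M g + i))}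

open Cells in
private theorem good_tau {κ : ℝ} (hκ : 0 < κ) : ∃ h0 : ℝ, 0 < h0 ∧ h0 < 1 ∧
    ∀ (h η lam τ : ℝ) (m M i0 : ℕ), 0 < h → h ≤ h0 → lam = Real.log (1 / h) ^ 20 →
    (m : ℝ) ≤ h⁻¹ ^ 4 → 0 < η → η ≤ h ^ 30 → M * η ≤ τ → τ ≤ h →
    (PI DI).real {x | ∃ i ≤ M, ¬ CrE κ lam m (dyn η x (i0 + i)) ∨
      ¬ CrT lam m τ (dyn η x i0) (dyn η x (i0 + i))} ≤ h ^ 13 := by
  obtain ⟨C, c, hC, hc, hmain⟩ := good_all hκ
  set K : ℝ := 126 + 60 / c + 14 * C ^ 2 with hK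
  have hK1 : 126 ≤ K := by
    have : 0 ≤ 60 / c := by positivity
    have : 0 ≤ 14 * C ^ 2 := by positivity
    linarith
  have hK2 : 60 / c ≤ K := by
    have : 0 ≤ 14 * C ^ 2 := by positivity
    linarith
  have hK3 : 14 * C ^ 2 ≤ K := by
    have : 0 ≤ 60 / c := by positivity
    linarith
  refine ⟨Real.exp (-K), Real.exp_pos _, by rw [← Real.exp_zero]; exact Real.exp_lt_exp.2 (by linarith), ?_⟩
  intro h η lam τ m M i0 h0 hh0 hlam hm hη hη30 hM hτh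
  have hτ0 : 0 ≤ τ := le_trans (by positivity) hM
  set L : ℝ := Real.log (1 / h) with hL
  have hexpL : h = Real.exp (-L) := by
    rw [hL, one_div, Real.log_inv, neg_neg, Real.exp_log h0]
  have hLK : K ≤ L := by
    rw [hL, one_div, Real.log_inv]
    have : Real.log h ≤ -K := by
      rw [← Real.log_exp (-K)]
      exact Real.log_le_log h0 hh0
    linarith
  have hL126 : 126 ≤ L := hK1.trans hLK
  have hL1 : 1 ≤ L := by linarith
  have hlt1 : h ≤ 1 := by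
    rw [hexpL]
    exact Real.exp_le_one_iff.2 (by linarith)
  have hpow : ∀ n : ℕ, h ^ n = Real.exp (-(n * L)) := by
    intro n
    rw [hexpL, ← Real.exp_nat_mul]
    congr 1
    ring
  have hh14 : 14 * C ^ 2 * h ≤ 1 := by
    have k1 : h * L ≤ 1 := by
      rw [hexpL, Real.exp_neg, inv_mul_le_iff₀ (Real.exp_pos _), mul_one]
      have := Real.add_one_le_exp L
      linarith
    calc 14 * C ^ 2 * h ≤ L * h := mul_le_mul_of_nonneg_right (hK3.trans hLK) h0.le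
      _ = h * L := mul_comm _ _
      _ ≤ 1 := k1
  -- the box
  set m1 : ℕ := max m 1 with hm1
  have hinv : 1 ≤ h⁻¹ := (one_le_inv₀ h0).2 hlt1
  have hm1' : (m1 : ℝ) ≤ h⁻¹ ^ 4 := by
    rw [hm1, Nat.cast_max, Nat.cast_one]
    exact max_le hm (one_le_pow₀ hinv)
  have hm1R : (1 : ℝ) ≤ m1 := by exact_mod_cast le_max_right m 1
  have hlam1 : 1 ≤ lam := by
    rw [hlam]
    exact one_le_pow₀ hL1
  -- the number of cells
  set J : ℕ := ⌈h⁻¹ ^ 30⌉₊ with hJ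
  have hJ1 : h⁻¹ ^ 30 ≤ J := Nat.le_ceil _
  have hJ2 : (J : ℝ) ≤ h⁻¹ ^ 30 + 1 := (Nat.ceil_lt_add_one (by positivity)).le
  have hi30 : 1 ≤ h⁻¹ ^ 30 := one_le_pow₀ hinv
  have hJone : 1 ≤ J := by
    have : (1 : ℝ) ≤ J := hi30.trans hJ1
    exact_mod_cast this
  have hJpos : (0 : ℝ) < J := by
    have : (1 : ℝ) ≤ J := hi30.trans hJ1
    linarith
  have key := hmain lam η τ m1 M J i0 hlam1 (le_max_right _ _) hη hM (hτh.trans hlt1) hJone
  refine (measureReal_mono ?_ (measure_ne_top _ _)).trans (key.trans ?_)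
  · rintro x ⟨i, hi, hbad⟩
    refine ⟨i, hi, ?_⟩
    rcases hbad with hbad | hbad
    · exact Or.inl fun hx => hbad (crE_box (le_max_left m 1) hx)
    · exact Or.inr fun hx => hbad (crT_box (le_max_left m 1) hx)
  -- numerical estimates
  have hmul : ∀ a b : ℕ, h⁻¹ ^ a * h ^ (a + b) = h ^ b := by
    intro a b
    rw [pow_add, ← mul_assoc, ← mul_pow, inv_mul_cancel₀ h0.ne', one_pow, one_mul]
  have hcL : 60 ≤ c * L := by
    have := (div_le_iff₀ hc).1 (hK2.trans hLK)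
    linarith
  have hexp : ∀ y : ℝ, L ^ 4 ≤ y → Real.exp (-(c * y)) ≤ h ^ 60 := by
    intro y hy
    rw [hpow]
    apply Real.exp_le_exp.2
    have k1 : c * L ^ 4 ≤ c * y := mul_le_mul_of_nonneg_left hy hc.le
    have k2 : L ≤ L ^ 3 := by
      calc L = L ^ 1 := (pow_one L).symm
        _ ≤ L ^ 3 := pow_le_pow_right₀ hL1 (by norm_num)
    have k3 : 60 * L ≤ c * L ^ 4 := by
      calc 60 * L ≤ 60 * L ^ 3 := by linarith
        _ ≤ (c * L) * L ^ 3 := mul_le_mul_of_nonneg_right hcL (by positivity)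
        _ = c * L ^ 4 := by ring
    push_cast
    linarith
  have hlog0 : 0 ≤ Real.log (4 * m1 + 5) := Real.log_nonneg (by linarith)
  have hlog : Real.log (4 * m1 + 5) ≤ 5 * L := by
    have k1 : (4 : ℝ) * m1 + 5 ≤ Real.exp (5 * L) := by
      have k2 : h⁻¹ = Real.exp L := by
        rw [hexpL, Real.exp_neg, inv_inv]
      have k3 : (9 : ℝ) ≤ Real.exp L := by
        have := Real.add_one_le_exp L
        linarith
      calc (4 : ℝ) * m1 + 5 ≤ 9 * h⁻¹ ^ 4 := by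
            have := one_le_pow₀ hinv (n := 4)
            linarith
        _ ≤ Real.exp L * Real.exp L ^ 4 := by
            rw [k2]
            exact mul_le_mul_of_nonneg_right k3 (by positivity)
        _ = Real.exp (5 * L) := by
            rw [← pow_succ', ← Real.exp_nat_mul]
            norm_num
    calc Real.log (4 * m1 + 5) ≤ Real.log (Real.exp (5 * L)) :=
          Real.log_le_log (by linarith) k1
      _ = 5 * L := Real.log_exp _
  have hy : L ^ 4 ≤ (lam / (1 + Real.log (4 * m1 + 5) ^ 3)) ^ (1 / 4 : ℝ) := by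
    have k1 : 1 + Real.log (4 * m1 + 5) ^ 3 ≤ L ^ 4 := by
      have k2 : Real.log (4 * m1 + 5) ^ 3 ≤ (5 * L) ^ 3 := pow_le_pow_left₀ hlog0 hlog 3
      have k3 : 1 ≤ L ^ 3 := one_le_pow₀ hL1
      calc 1 + Real.log (4 * m1 + 5) ^ 3 ≤ L ^ 3 + (5 * L) ^ 3 := by linarith
        _ = 126 * L ^ 3 := by ring
        _ ≤ L * L ^ 3 := mul_le_mul_of_nonneg_right hL126 (by positivity)
        _ = L ^ 4 := by ring
    have k4 : (L ^ 4) ^ (4 : ℕ) ≤ lam / (1 + Real.log (4 * m1 + 5) ^ 3) := by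
      rw [le_div_iff₀ (by positivity), hlam]
      calc (L ^ 4) ^ (4 : ℕ) * (1 + Real.log (4 * m1 + 5) ^ 3) ≤ (L ^ 4) ^ (4 : ℕ) * L ^ 4 :=
            mul_le_mul_of_nonneg_left k1 (by positivity)
        _ = L ^ 20 := by ring
    calc L ^ 4 = ((L ^ 4) ^ (4 : ℕ)) ^ (1 / 4 : ℝ) := by
          rw [← Real.rpow_natCast (L ^ 4) 4, ← Real.rpow_mul (by positivity)]
          norm_num
      _ ≤ _ := Real.rpow_le_rpow (by positivity) k4 (by norm_num)
  have hlamL : L ^ 4 ≤ lam := by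
    rw [hlam]
    exact pow_le_pow_right₀ hL1 (by norm_num)
  have hsum : Real.exp (-(c * lam)) + Real.exp (-(c * (lam / (1 + Real.log (4 * m1 + 5) ^ 3)) ^
      (1 / 4 : ℝ))) ≤ 2 * h ^ 60 := by
    have := hexp _ hlamL
    have := hexp _ hy
    linarith
  have hm4 : (m1 : ℝ) ^ 4 ≤ h⁻¹ ^ 16 := by
    calc (m1 : ℝ) ^ 4 ≤ (h⁻¹ ^ 4) ^ 4 := pow_le_pow_left₀ (by positivity) hm1' 4
      _ = h⁻¹ ^ 16 := by ring
  have hm2 : (m1 : ℝ) ^ 2 ≤ h⁻¹ ^ 8 := by
    calc (m1 : ℝ) ^ 2 ≤ (h⁻¹ ^ 4) ^ 2 := pow_le_pow_left₀ (by positivity) hm1' 2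
      _ = h⁻¹ ^ 8 := by ring
  have hfirst : ((J : ℝ) + 1) * (C * (m1 : ℝ) ^ 4 * (Real.exp (-(c * lam)) +
      Real.exp (-(c * (lam / (1 + Real.log (4 * m1 + 5) ^ 3)) ^ (1 / 4 : ℝ))))) ≤
      6 * C * h ^ 14 := by
    calc ((J : ℝ) + 1) * (C * (m1 : ℝ) ^ 4 * (Real.exp (-(c * lam)) +
        Real.exp (-(c * (lam / (1 + Real.log (4 * m1 + 5) ^ 3)) ^ (1 / 4 : ℝ)))))
        ≤ (3 * h⁻¹ ^ 30) * (C * h⁻¹ ^ 16 * (2 * h ^ 60)) := by
          refine mul_le_mul (by linarith) ?_ (by positivity) (by positivity)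
          refine mul_le_mul ?_ hsum (by positivity) (by positivity)
          exact mul_le_mul_of_nonneg_left hm4 (by linarith)
      _ = 6 * C * (h⁻¹ ^ 46 * h ^ (46 + 14)) := by ring
      _ = 6 * C * h ^ 14 := by rw [hmul]
  have hhJ : τ / J + η ≤ 2 * h ^ 30 := by
    have k1 : τ / J ≤ h ^ 30 := by
      rw [div_le_iff₀ hJpos]
      calc τ ≤ 1 := hτh.trans hlt1
        _ = h⁻¹ ^ 30 * h ^ (30 + 0) := by rw [hmul, pow_zero]
        _ = h ^ 30 * h⁻¹ ^ 30 := by ring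
        _ ≤ h ^ 30 * J := mul_le_mul_of_nonneg_left hJ1 (by positivity)
    linarith
  have hsecond : (J : ℝ) * (C * (m1 : ℝ) ^ 2 * (τ / J + η)) ^ 2 ≤ 8 * C ^ 2 * h ^ 14 := by
    have k1 : C * (m1 : ℝ) ^ 2 * (τ / J + η) ≤ 2 * C * h ^ 22 := by
      calc C * (m1 : ℝ) ^ 2 * (τ / J + η) ≤ C * h⁻¹ ^ 8 * (2 * h ^ 30) := by
            refine mul_le_mul ?_ hhJ (by positivity) (by positivity)
            exact mul_le_mul_of_nonneg_left hm2 (by linarith)
        _ = 2 * C * (h⁻¹ ^ 8 * h ^ (8 + 22)) := by ring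
        _ = 2 * C * h ^ 22 := by rw [hmul]
    calc (J : ℝ) * (C * (m1 : ℝ) ^ 2 * (τ / J + η)) ^ 2
        ≤ (2 * h⁻¹ ^ 30) * (2 * C * h ^ 22) ^ 2 := by
          refine mul_le_mul (by linarith) (pow_le_pow_left₀ (by positivity) k1 2)
            (by positivity) (by positivity)
      _ = 8 * C ^ 2 * (h⁻¹ ^ 30 * h ^ (30 + 14)) := by ring
      _ = 8 * C ^ 2 * h ^ 14 := by rw [hmul]
  have hC2 : C ≤ C ^ 2 := by nlinarith
  calc _ ≤ 6 * C * h ^ 14 + 8 * C ^ 2 * h ^ 14 := add_le_add hfirst hsecond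
    _ = (6 * C + 8 * C ^ 2) * h ^ 14 := by ring
    _ ≤ (14 * C ^ 2) * h ^ 14 := mul_le_mul_of_nonneg_right (by linarith) (by positivity)
    _ = (14 * C ^ 2 * h) * h ^ 13 := by ring
    _ ≤ 1 * h ^ 13 := mul_le_mul_of_nonneg_right hh14 (by positivity)
    _ = h ^ 13 := one_mul _

/-- consequences of `HP` -/
private theorem hp_facts {C1 h lam : ℝ} (hC1 : 2 ≤ C1) (hP : HP C1 h lam) :
    0 < h ∧ h < 1 ∧ C1 ≤ Real.log (1 / h) ∧ h ≤ Real.exp (-C1) ∧ 2 ^ 20 ≤ lam ∧ 1 ≤ h⁻¹ ∧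
      lam ^ 3000 ≤ h⁻¹ := by
  obtain ⟨h0, h1, hL, hlam, hpow⟩ := hP
  have hinv : 1 ≤ h⁻¹ := (one_le_inv₀ h0).2 h1.le
  have hL2 : 2 ≤ Real.log (1 / h) := hC1.trans hL
  have hlam2 : 2 ^ 20 ≤ lam := by
    rw [hlam]
    exact pow_le_pow_left₀ (by norm_num) hL2 20
  refine ⟨h0, h1, hL, ?_, hlam2, hinv, ?_⟩
  · rw [one_div, Real.log_inv] at hL
    rw [← Real.exp_log h0]
    exact Real.exp_le_exp.2 (by linarith)
  · calc lam ^ 3000 = (lam ^ 1000) ^ 3 := by rw [← pow_mul]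
      _ ≤ (h⁻¹ ^ (1 / 1000 : ℝ)) ^ 3 :=
          pow_le_pow_left₀ (pow_nonneg (by linarith) _) hpow 3
      _ = h⁻¹ ^ (3 / 1000 : ℝ) := by
          rw [← Real.rpow_natCast, ← Real.rpow_mul (by positivity)]
          norm_num
      _ ≤ h⁻¹ ^ (1 : ℝ) := Real.rpow_le_rpow_of_exponent_le hinv (by norm_num)
      _ = h⁻¹ := Real.rpow_one _

private theorem GG_bounds {lam : ℝ} (hlam : 2 ^ 20 ≤ lam) :
    lam ^ 2300 ≤ (GG lam : ℝ) ∧ (GG lam : ℝ) + 1 ≤ lam ^ 3000 ∧ 2 ≤ (GG lam : ℝ) := by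
  have hl2 : (2 : ℝ) ≤ lam := le_trans (by norm_num) hlam
  have hl1 : (1 : ℝ) ≤ lam := by linarith
  have h1 : lam ^ 2300 ≤ (GG lam : ℝ) := Nat.le_ceil _
  have h2 : (GG lam : ℝ) ≤ lam ^ 2300 + 1 := (Nat.ceil_lt_add_one (by positivity)).le
  have h3 : lam ≤ lam ^ 2300 := by
    calc lam = lam ^ 1 := (pow_one lam).symm
      _ ≤ lam ^ 2300 := pow_le_pow_right₀ hl1 (by norm_num)
  refine ⟨h1, ?_, by linarith⟩
  have h4 : (1 : ℝ) ≤ lam ^ 2300 := one_le_pow₀ hl1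
  calc (GG lam : ℝ) + 1 ≤ 2 * 2 * lam ^ 2300 := by linarith
    _ ≤ lam * lam * lam ^ 2300 := by
        refine mul_le_mul_of_nonneg_right ?_ (by positivity)
        exact mul_le_mul hl2 hl2 (by norm_num) (by linarith)
    _ = lam ^ 2302 := by rw [← sq, ← pow_add]
    _ ≤ lam ^ 3000 := pow_le_pow_right₀ hl1 (by norm_num)

theorem gdF_prob {κ : ℝ} (hκ : 0 < κ) : ∃ C1 : ℝ, 2 ≤ C1 ∧ ∀ (h lam η : ℝ) (M : ℕ),
    HP C1 h lam → 0 < η → η ≤ h ^ 30 → M * η ≤ h →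
    (PI DI).real (GdF κ lam h η M (16 * nn h 0))ᶜ ≤ h ^ 9 := by
  obtain ⟨ha, ha0, ha1, hA⟩ := good_tau (κ := κ / 4) (by positivity)
  obtain ⟨C2, hC2, hfn⟩ := fn 1
  refine ⟨max (max C2 (-Real.log ha)) 4, le_trans (by norm_num) (le_max_right _ _), ?_⟩
  intro h lam η M hP hη hη30 hM
  set C1 := max (max C2 (-Real.log ha)) 4 with hC1d
  have hC14 : 4 ≤ C1 := le_max_right _ _
  obtain ⟨h0, h1, hL, hexp, hlam2, hinv, hlam3⟩ := hp_facts (by linarith) hP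
  have hP2 : HP C2 h lam := by
    obtain ⟨b1, b2, b3, b4, b5⟩ := hP
    exact ⟨b1, b2, le_trans (le_trans (le_max_left _ _) (le_max_left _ _)) b3, b4, b5⟩
  have hlam : lam = Real.log (1 / h) ^ 20 := hP.2.2.2.1
  have hha : h ≤ ha := by
    refine hexp.trans ?_
    have h2 : -Real.log ha ≤ C1 := le_trans (le_max_right _ _) (le_max_left _ _)
    rw [← Real.exp_log ha0]
    exact Real.exp_le_exp.2 (by linarith)
  have hh16 : h ≤ 1 / 32 := by
    refine hexp.trans ?_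
    have h2 : Real.exp (-C1) ≤ Real.exp (-4) := Real.exp_le_exp.2 (by linarith)
    have h3 : (32 : ℝ) ≤ Real.exp 4 := by
      have h4 : (2.7 : ℝ) < Real.exp 1 := by
        have := Real.exp_one_gt_d9
        linarith
      have h5 : Real.exp 4 = Real.exp 1 ^ 4 := by
        rw [← Real.exp_nat_mul]
        norm_num
      rw [h5]
      calc (32 : ℝ) ≤ 2.7 ^ 4 := by norm_num
        _ ≤ Real.exp 1 ^ 4 := pow_le_pow_left₀ (by norm_num) h4.le 4
    refine h2.trans ?_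
    rw [Real.exp_neg, one_div]
    exact inv_anti₀ (by norm_num) h3
  have hinv32 : 32 ≤ h⁻¹ := by
    rw [le_inv_comm₀ (by norm_num) h0]
    linarith
  obtain ⟨hf1, _⟩ := hfn h lam hP2
  have hnn : (nn h 0 : ℝ) ≤ h⁻¹ ^ 3 := (hf1 0 (by norm_num)).2.2.1
  have hm : ((16 * nn h 0 : ℕ) : ℝ) ≤ h⁻¹ ^ 4 := by
    push_cast
    calc 16 * (nn h 0 : ℝ) ≤ h⁻¹ * h⁻¹ ^ 3 :=
          mul_le_mul (by linarith) hnn (Nat.cast_nonneg _) (by positivity)
      _ = h⁻¹ ^ 4 := by ring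
  obtain ⟨hG1, hG2, hG3⟩ := GG_bounds hlam2
  have hG0 : (0 : ℝ) < GG lam := by linarith
  have hGi : (GG lam : ℝ) + 1 ≤ h⁻¹ := hG2.trans hlam3
  -- the two bad events
  set m := 16 * nn h 0 with hmd
  set K := ⌈(M : ℝ) / GG lam⌉₊ with hK
  have hKη : (K : ℝ) * η ≤ 2 * h / GG lam := by
    have h2 : (K : ℝ) ≤ (M : ℝ) / GG lam + 1 := (Nat.ceil_lt_add_one (by positivity)).le
    have h3 : η ≤ h / GG lam := by
      rw [le_div_iff₀ hG0]
      calc η * GG lam ≤ h ^ 30 * h⁻¹ := mul_le_mul hη30 (by linarith) hG0.le (by positivity)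
        _ = h ^ 29 := by
            rw [pow_succ, mul_assoc, mul_inv_cancel₀ h0.ne', mul_one]
        _ ≤ h ^ 1 := pow_le_pow_of_le_one h0.le h1.le (by norm_num)
        _ = h := pow_one h
    calc (K : ℝ) * η ≤ ((M : ℝ) / GG lam + 1) * η := mul_le_mul_of_nonneg_right h2 hη.le
      _ = (M * η) / GG lam + η := by ring
      _ ≤ h / GG lam + h / GG lam := by
          refine add_le_add ?_ h3
          exact div_le_div_of_nonneg_right hM hG0.le
      _ = 2 * h / GG lam := by ring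
  have hτh : 2 * h / GG lam ≤ h := by
    rw [div_le_iff₀ hG0]
    nlinarith
  set A : Set (DI → ℝ) := {x | ∃ i ≤ M, ¬ CrE (κ / 4) lam m (dyn η x (0 + i)) ∨
    ¬ CrT lam m h (dyn η x 0) (dyn η x (0 + i))} with hAd
  set Bg : ℕ → Set (DI → ℝ) := fun g => {x | ∃ i ≤ K,
    ¬ CrE (κ / 4) lam m (dyn η x (gt lam M g + i)) ∨
    ¬ CrT lam m (2 * h / GG lam) (dyn η x (gt lam M g)) (dyn η x (gt lam M g + i))} with hBd
  have hPA : (PI DI).real A ≤ h ^ 13 :=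
    hA h η lam h m M 0 h0 hha hlam hm hη hη30 hM le_rfl
  have hPB : ∀ g, (PI DI).real (Bg g) ≤ h ^ 13 := fun g =>
    hA h η lam (2 * h / GG lam) m K (gt lam M g) h0 hha hlam hm hη hη30 hKη hτh
  have hsub : (GdF κ lam h η M m)ᶜ ⊆ A ∪ ⋃ g ∈ Finset.range (GG lam + 1), Bg g := by
    intro x hx
    by_contra hcon
    rw [Set.mem_union, not_or] at hcon
    apply hx
    refine ⟨fun t ht => ?_, fun g hg i hi => ?_⟩
    · by_contra h2
      apply hcon.1
      refine ⟨t, ht, ?_⟩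
      rw [zero_add]
      by_contra h3
      push Not at h3
      exact h2 ⟨h3.1, h3.2⟩
    · by_contra h2
      apply hcon.2
      simp only [Set.mem_iUnion]
      exact ⟨g, Finset.mem_range.2 (Nat.lt_succ_of_le hg), i, hi, Or.inr h2⟩
  calc (PI DI).real (GdF κ lam h η M m)ᶜ
      ≤ (PI DI).real (A ∪ ⋃ g ∈ Finset.range (GG lam + 1), Bg g) :=
        measureReal_mono hsub (measure_ne_top _ _)
    _ ≤ (PI DI).real A + (PI DI).real (⋃ g ∈ Finset.range (GG lam + 1), Bg g) :=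
        measureReal_union_le _ _
    _ ≤ h ^ 13 + ∑ g ∈ Finset.range (GG lam + 1), (PI DI).real (Bg g) :=
        add_le_add hPA (measureReal_biUnion_finset_le _ _)
    _ ≤ h ^ 13 + ∑ g ∈ Finset.range (GG lam + 1), h ^ 13 :=
        add_le_add le_rfl (Finset.sum_le_sum fun g _ => hPB g)
    _ = h ^ 13 + ((GG lam : ℝ) + 1) * h ^ 13 := by
        rw [Finset.sum_const, Finset.card_range, nsmul_eq_mul]
        push_cast
        ring
    _ ≤ h ^ 12 + h⁻¹ * h ^ 13 := by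
        refine add_le_add (pow_le_pow_of_le_one h0.le h1.le (by norm_num)) ?_
        exact mul_le_mul_of_nonneg_right hGi (by positivity)
    _ = 2 * h ^ 12 := by
        have h2 : h⁻¹ * h ^ 13 = h ^ 12 := by
          rw [pow_succ h 12, mul_comm (h ^ 12) h, ← mul_assoc, inv_mul_cancel₀ h0.ne', one_mul]
        rw [h2]
        ring
    _ ≤ 2 * h * h ^ 9 := by
        have h2 : h ^ 12 ≤ h ^ 10 := pow_le_pow_of_le_one h0.le h1.le (by norm_num)
        calc 2 * h ^ 12 ≤ 2 * h ^ 10 := by linarith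
          _ = 2 * h * h ^ 9 := by ring
    _ ≤ 1 * h ^ 9 := mul_le_mul_of_nonneg_right (by linarith) (by positivity)
    _ = h ^ 9 := one_mul _

private theorem dl_box {m : ℕ} {p q : ℤ × ℤ} (hp : p ∈ Bx m) (hq : q ∈ Bx m) :
    dl p q + 1 ≤ 4 * m + 2 := by
  obtain ⟨a1, a2, a3, a4⟩ := hp
  obtain ⟨b1, b2, b3, b4⟩ := hq
  have h1 : lev q - lev p + 1 ≤ 4 * (m : ℤ) + 2 := by
    unfold lev
    omega
  unfold dl
  exact_mod_cast h1

/-- closeness at a time `t` to the environment at the last grid time before -/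
theorem gdF_close : ∃ C1 : ℝ, 2 ≤ C1 ∧ ∀ (κ h lam η : ℝ) (M t : ℕ) (x : DI → ℝ),
    HP C1 h lam → t ≤ M → x ∈ GdF κ lam h η M (16 * nn h 0) → ∃ g ≤ GG lam, gt lam M g ≤ t ∧
      CrT lam (16 * nn h 0) (2 * h / GG lam) (dyn η x (gt lam M g)) (dyn η x t) ∧
      ∀ p ∈ Bx (16 * nn h 0), ∀ q ∈ Bx (16 * nn h 0), p ≤ q →
        |T (dyn η x t) p q - T (dyn η x (gt lam M g)) p q| ≤
          (nn h 25 : ℝ) ^ (1 / 3 : ℝ) / 16 := by
  obtain ⟨C2, hC2, hfn⟩ := fn (32 ^ 3)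
  refine ⟨C2, hC2, ?_⟩
  intro κ h lam η M t x hP ht hx
  obtain ⟨h0, h1, hL, hexp, hlam2, hinv, hlam3⟩ := hp_facts hC2 hP
  obtain ⟨hG1, hG2, hG3⟩ := GG_bounds hlam2
  have hG0 : (0 : ℝ) < GG lam := by linarith
  have hG0' : 0 < GG lam := by exact_mod_cast hG0
  have hl1 : (1 : ℝ) ≤ lam := le_trans (by norm_num) hlam2
  obtain ⟨hf1, hf2, hf3, hf4, _⟩ := hfn h lam hP
  set K := ⌈(M : ℝ) / GG lam⌉₊ with hK
  have hMK : M ≤ GG lam * K := by
    have h2 : (M : ℝ) / GG lam ≤ K := Nat.le_ceil _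
    rw [div_le_iff₀ hG0] at h2
    have h3 : (M : ℝ) ≤ GG lam * K := by linarith
    exact_mod_cast h3
  obtain ⟨g, hg, hgt, hgi⟩ : ∃ g ≤ GG lam, g * K ≤ t ∧ t - g * K ≤ K := by
    rcases Nat.eq_zero_or_pos K with hK0 | hK0
    · refine ⟨0, Nat.zero_le _, by omega, ?_⟩
      rw [hK0, mul_zero] at hMK
      omega
    · refine ⟨t / K, ?_, Nat.div_mul_le_self t K, ?_⟩
      · rw [Nat.div_le_iff_le_mul_add_pred hK0]
        calc t ≤ M := ht
          _ ≤ GG lam * K := hMK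
          _ = K * GG lam := mul_comm _ _
          _ ≤ _ := Nat.le_add_right _ _
      · have h2 := Nat.mod_lt t hK0
        have h3 := Nat.div_add_mod t K
        rw [mul_comm] at h3
        omega
  have hgtd : gt lam M g = g * K := rfl
  have hT : CrT lam (16 * nn h 0) (2 * h / GG lam) (dyn η x (gt lam M g)) (dyn η x t) := by
    have h2 := hx.2 g hg (t - g * K) hgi
    have h3 : gt lam M g + (t - g * K) = t := by
      rw [hgtd]
      omega
    rwa [h3] at h2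
  refine ⟨g, hg, hgtd ▸ hgt, hT, ?_⟩
  intro p hp q hq hpq
  refine (hT p hp q hq hpq).trans ?_
  have hn25 : (0 : ℝ) ≤ nn h 25 := Nat.cast_nonneg _
  have hn0 : (0 : ℝ) ≤ nn h 0 := Nat.cast_nonneg _
  set a := (nn h 25 : ℝ) ^ (1 / 3 : ℝ) with ha
  set b := (nn h 0 : ℝ) ^ (1 / 3 : ℝ) with hb
  have ha0 : 0 ≤ a := Real.rpow_nonneg hn25 _
  have hb0 : 0 ≤ b := Real.rpow_nonneg hn0 _
  have ha3 : a ^ 3 = nn h 25 := by
    rw [ha, ← Real.rpow_natCast, ← Real.rpow_mul hn25]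
    norm_num
  have hb3 : b ^ 3 = nn h 0 := by
    rw [hb, ← Real.rpow_natCast, ← Real.rpow_mul hn0]
    norm_num
  have hlama : lam ≤ a / 32 := by
    have h2 := (hf1 25 le_rfl).2.2.2.1
    rw [← ha3, ← mul_pow] at h2
    have h3 := le_of_pow_le_pow_left₀ (by norm_num) ha0 h2
    linarith
  have hbh : h * b ≤ 1 := by
    have h2 := (hf1 0 (by norm_num)).2.1
    have h3 : h⁻¹ / Real.log (1 / h) ^ esc 0 ≤ h⁻¹ := by
      refine div_le_self (by positivity) ?_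
      refine Real.one_le_rpow (by linarith) ?_
      unfold esc
      norm_num
    calc h * b ≤ h * h⁻¹ := mul_le_mul_of_nonneg_left (h2.trans h3) h0.le
      _ = 1 := mul_inv_cancel₀ h0.ne'
  have hba : b ^ 2 ≤ lam ^ 2275 * a ^ 2 := by
    have h2 : b ^ 2 = (nn h 0 : ℝ) ^ (2 / 3 : ℝ) := by
      rw [hb, ← Real.rpow_natCast, ← Real.rpow_mul hn0]
      norm_num
    have h3 : a ^ 2 = (nn h 25 : ℝ) ^ (2 / 3 : ℝ) := by
      rw [ha, ← Real.rpow_natCast, ← Real.rpow_mul hn25]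
      norm_num
    rw [h2, h3]
    exact hf4
  have hn1 : (1 : ℝ) ≤ nn h 0 := by
    have h2 := (hf1 0 (by norm_num)).2.2.2.1
    have h3 : (1 : ℝ) ≤ 32 ^ 3 * lam ^ 3 := by
      have := one_le_pow₀ hl1 (n := 3)
      linarith
    linarith
  have hsq : √(2 * h / GG lam * (dl p q + 1)) ≤ a / (64 * lam) := by
    apply Real.sqrt_le_iff.2
    refine ⟨by positivity, ?_⟩
    have h2 := dl_box hp hq
    push_cast at h2
    have h3 : dl p q + 1 ≤ 66 * nn h 0 := by linarith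
    have h4 : 2 * h / GG lam * (dl p q + 1) ≤ 2 * h / lam ^ 2300 * (66 * nn h 0) := by
      have h5 : 0 ≤ dl p q + 1 := by
        have := Cells.dl_nonneg hpq
        linarith
      refine mul_le_mul ?_ h3 h5 (by positivity)
      exact div_le_div_of_nonneg_left (by positivity) (by positivity) hG1
    refine h4.trans ?_
    rw [← hb3]
    have h5 : 2 * h / lam ^ 2300 * (66 * b ^ 3) = 132 * (h * b) * b ^ 2 / lam ^ 2300 := by ring
    rw [h5]
    have h6 : 132 * (h * b) * b ^ 2 / lam ^ 2300 ≤ 132 * (lam ^ 2275 * a ^ 2) / lam ^ 2300 := by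
      refine div_le_div_of_nonneg_right ?_ (by positivity)
      calc 132 * (h * b) * b ^ 2 ≤ 132 * 1 * b ^ 2 := by
            refine mul_le_mul_of_nonneg_right ?_ (by positivity)
            linarith
        _ ≤ 132 * (lam ^ 2275 * a ^ 2) := by linarith
    refine h6.trans ?_
    have h7 : 132 * (lam ^ 2275 * a ^ 2) / lam ^ 2300 = 132 / lam ^ 25 * a ^ 2 := by
      have h8 : lam ^ 2300 = lam ^ 2275 * lam ^ 25 := by rw [← pow_add]
      rw [h8]
      have h9 : lam ^ 2275 ≠ 0 := by positivity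
      have h10 : lam ^ 25 ≠ 0 := by positivity
      field_simp
    rw [h7, div_pow, mul_pow, div_eq_mul_one_div (a ^ 2), mul_comm (132 / lam ^ 25)]
    refine mul_le_mul_of_nonneg_left ?_ (by positivity)
    rw [div_le_div_iff₀ (by positivity) (by positivity)]
    have h11 : (132 : ℝ) * 64 ^ 2 ≤ lam ^ 2 := by
      calc (132 : ℝ) * 64 ^ 2 ≤ (2 ^ 20) ^ 2 := by norm_num
        _ ≤ lam ^ 2 := pow_le_pow_left₀ (by norm_num) hlam2 2
    calc 132 * (64 ^ 2 * lam ^ 2) = (132 * 64 ^ 2) * lam ^ 2 := by ring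
      _ ≤ lam ^ 2 * lam ^ 2 := mul_le_mul_of_nonneg_right h11 (by positivity)
      _ = lam ^ 4 := by ring
      _ ≤ lam ^ 25 := pow_le_pow_right₀ hl1 (by norm_num)
      _ = 1 * lam ^ 25 := (one_mul _).symm
  have hlam0 : 0 < lam := by linarith
  calc lam * (√(2 * h / GG lam * (dl p q + 1)) + 1) ≤ lam * (a / (64 * lam) + 1) :=
        mul_le_mul_of_nonneg_left (by linarith) hlam0.le
    _ = a / 64 + lam := by
        field_simp
    _ ≤ a / 64 + a / 32 := by linarith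
    _ ≤ a / 16 := by linarith

end BGE
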