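import Pool.Agent.BGE.FRegA
import Pool.Agent.BGE.Straight
import Pool.Agent.BGE.Rot

/-!
BGE / F2b. Fine regularity from the grid (deterministic).

`fine_reg`: the hypotheses as in `fine_out`; conclusion `GoodE κ σ lam (yy h) (nn h 25) (2 nn0) ω`.
Proof. `CrE κ` follows from `CrE (κ/4)` (smaller cone). Let `p, q ∈ Rgn σ W (2 nn0)`,
`W = 40 lam (2 nn0)^{2/3}`, `Cone (κ/4) p q`, `l = dl p q`, `n1 = nn h 25`, `b = nb h lam`. If
`l ≤ n1/lam^4` the crude bound is enough. Let `l > n1/lam^4`.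
Upper bound. Let `w1` be on a geodesic from `p` to `q` at the level `-4b` if `lev p < -4b < lev q`
(otherwise `w1 = p` if `lev p ≥ -4b`, and if `lev q ≤ -4b` use `fine_out` directly), and `w2` on a
geodesic at the level `4b + 1` between `w1` and `q` if `lev q > 4b + 1` (`w2 = q` otherwise; if
`lev p ≥ 4b+1` use `fine_out`). By `cs` for `κ/4` (`Cone (κ/4) p q` implies `Cone (3κ/16) p q`; crude
slack: `Y := 2 lam`; and the rotated version) the deviation of `w1` from the segment is at most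
`10 √(2 lam) (min (dl p w1) (dl w1 q) + C lam³)^{2/3}`. So for `dl p w1 ≥ n1/lam^4` the pair `(p, w1)` is
in the cone `κ/5` and `w1` in the parallelogram of `fine_out`, which gives
`T p w1 ≤ muz p w1 + (y/4) (max l n1)^{1/3}`; for `C lam³ ≤ dl p w1 ≤ n1/lam^4` it is in the cone `κ/16`
and the crude bound gives the error `lam^{-1/4} n1^{1/3}`; for `dl p w1 < C lam³` it is at most
`lam (C lam³ + 1)`. The same for `(w2, q)`; `(w1, w2)` has length `≤ 8b + 1`: crude bound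
`lam (8b+2)^{1/3} ≤ 3 lam^{-3} n1^{1/3}` if it is in the cone `κ/16` (true by `cs` if its length is
`≥ C lam³`). As `mu` is superadditive (`mu_superadd`)
`T p q ≤ T p w1 + T w1 w2 + T w2 q ≤ muz p q + (3 y/4) (max l n1)^{1/3}`.
Lower bound. Let `w1, w2` be lattice points on the levels `-4b`, `4b + 1` (when these are between
`lev p` and `lev q`) within distance 1 of the segment from `p` to `q`. If one of the pieces
`(p, w1)`, `(w2, q)` is shorter than `n1/lam^4`, omit this cut, i.e. use the crude bound for a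
piece of length `≤ n1/lam^4 + 8b + 1`; otherwise `fine_out` for `(p, w1)` and `(w2, q)`, the crude
bound for the middle piece, and `mu_loss3` (or `mu_loss`) with `D = 1`:
`T p q ≥ muz p q - (3 y/4) (max l n1)^{1/3}`.
-/

namespace BGE

/-- crude regularity for a smaller cone constant is stronger -/
theorem crE_cone {κ κ' lam : ℝ} {m : ℕ} {ω : ℤ × ℤ → ℝ} (h : CrE κ' lam m ω) (hκ : κ' ≤ κ) :
    CrE κ lam m ω := by
  refine ⟨h.1, fun p hp q hq hpq => ⟨(h.2 p hp q hq hpq).1, fun hc => ?_⟩⟩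
  refine (h.2 p hp q hq hpq).2 ?_
  obtain ⟨h1, h2, h3⟩ := hc
  have h0 : 0 ≤ dl p q := by
    have := lev_le_lev h1
    unfold dl
    exact_mod_cast (by omega : (0 : ℤ) ≤ lev q - lev p)
  have h4 : κ' / 4 * dl p q ≤ κ / 4 * dl p q :=
    mul_le_mul_of_nonneg_right (by linarith) h0
  exact ⟨h1, h4.trans h2, h4.trans h3⟩

private theorem frb_dl (u v : ℤ × ℤ) : dl u v = (lev v : ℝ) - lev u := by
  unfold dl
  push_cast
  ring

private theorem frb_dl' (u v : ℤ × ℤ) : dl u v = ((v.1 : ℝ) - u.1) + ((v.2 : ℝ) - u.2) := by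
  unfold dl lev
  push_cast
  ring

private theorem frb_dl0 {u v : ℤ × ℤ} (h : u ≤ v) : 0 ≤ dl u v := by
  have := lev_le_lev h
  unfold dl
  exact_mod_cast (by omega : (0 : ℤ) ≤ lev v - lev u)

private theorem frb_cone_mono {c c' : ℝ} {u v : ℤ × ℤ} (h : Cone c u v) (hc : c' ≤ c) :
    Cone c' u v := by
  obtain ⟨h1, h2, h3⟩ := h
  have h0 := frb_dl0 h1
  exact ⟨h1, (mul_le_mul_of_nonneg_right hc h0).trans h2,
    (mul_le_mul_of_nonneg_right hc h0).trans h3⟩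

private theorem frb_box {m : ℕ} {u v w : ℤ × ℤ} (hu : u ∈ Bx m) (hv : v ∈ Bx m) (h1 : u ≤ w)
    (h2 : w ≤ v) : w ∈ Bx m := by
  unfold Bx at hu hv ⊢
  rw [Set.mem_ofPred_eq] at hu hv ⊢
  obtain ⟨a1, a2, a3, a4⟩ := hu
  obtain ⟨b1, b2, b3, b4⟩ := hv
  have c1 := h1.1
  have c2 := h1.2
  have c3 := h2.1
  have c4 := h2.2
  exact ⟨by omega, by omega, by omega, by omega⟩

private theorem frb_cone {κ c δ A σ M s : ℝ} {u v w : ℤ × ℤ} (hκ : 0 < κ) (hc : Cone c u v)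
    (hc0 : κ / 40 ≤ c) (hM : 0 < M) (hδ : δ ≤ κ / 40 * M) (h1 : M ≤ dl u w) (h2 : M ≤ dl w v)
    (hs : s * dl u v = (v.1 : ℝ) - u.1) (he : |((w.1 : ℝ) - u.1) - s * dl u w| ≤ δ)
    (hu : |dev σ u| ≤ A) (hv : |dev σ v| ≤ A) :
    Cone (c - κ / 40) u w ∧ Cone (c - κ / 40) w v ∧ |dev σ w| ≤ A + δ := by
  obtain ⟨-, k2, k3⟩ := hc
  have hl : dl u v = dl u w + dl w v := by
    rw [frb_dl, frb_dl, frb_dl]
    ring
  have hl0 : 0 < dl u v := by linarith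
  have e1 := frb_dl' u v
  have e2 := frb_dl' u w
  have e3 := frb_dl' w v
  push_cast at k2 k3
  have s1 : c ≤ s := by
    have h3 : c * dl u v ≤ s * dl u v := by
      rw [hs]
      exact k2
    exact le_of_mul_le_mul_right h3 hl0
  have s2 : s ≤ 1 - c := by
    have h3 : s * dl u v ≤ (1 - c) * dl u v := by
      rw [hs, sub_mul, one_mul]
      linarith
    exact le_of_mul_le_mul_right h3 hl0
  have q1 : dev σ w = dev σ u + (s - σ) * dl u w + (((w.1 : ℝ) - u.1) - s * dl u w) := by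
    have e4 := frb_dl u w
    unfold dev
    linear_combination σ * e4
  have q2 : dev σ v = dev σ u + (s - σ) * dl u v := by
    have e4 := frb_dl u v
    unfold dev
    linear_combination σ * e4 - hs
  obtain ⟨g, hg⟩ : ∃ g, g = dl u w := ⟨_, rfl⟩
  obtain ⟨g', hg'⟩ : ∃ g', g' = dl w v := ⟨_, rfl⟩
  rw [← hg] at h1 e2 he q1
  rw [← hg'] at h2 e3
  rw [← hg, ← hg'] at hl
  have hg0 : 0 < g := by linarith
  have hg0' : 0 < g' := by linarith
  rw [abs_le] at he hu hv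
  have m1 : c * g ≤ s * g := mul_le_mul_of_nonneg_right s1 hg0.le
  have m2 : s * g ≤ (1 - c) * g := mul_le_mul_of_nonneg_right s2 hg0.le
  have m3 : c * g' ≤ s * g' := mul_le_mul_of_nonneg_right s1 hg0'.le
  have m4 : s * g' ≤ (1 - c) * g' := mul_le_mul_of_nonneg_right s2 hg0'.le
  have hd1 : δ ≤ κ / 40 * g := hδ.trans (mul_le_mul_of_nonneg_left h1 (by positivity))
  have hd2 : δ ≤ κ / 40 * g' := hδ.trans (mul_le_mul_of_nonneg_left h2 (by positivity))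
  have hsl : s * g + s * g' = (v.1 : ℝ) - u.1 := by rw [← mul_add, ← hl, hs]
  have a1 : (c - κ / 40) * g ≤ (w.1 : ℝ) - u.1 := by linarith [he.1]
  have a2 : (c - κ / 40) * g ≤ (w.2 : ℝ) - u.2 := by linarith [he.2]
  have a3 : (c - κ / 40) * g' ≤ (v.1 : ℝ) - w.1 := by linarith [he.2]
  have a4 : (c - κ / 40) * g' ≤ (v.2 : ℝ) - w.2 := by linarith [he.1]
  have p1 : 0 ≤ (c - κ / 40) * g := mul_nonneg (by linarith) hg0.le
  have p2 : 0 ≤ (c - κ / 40) * g' := mul_nonneg (by linarith) hg0'.le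
  have i1 : u.1 ≤ w.1 := by exact_mod_cast (by linarith : (u.1 : ℝ) ≤ w.1)
  have i2 : u.2 ≤ w.2 := by exact_mod_cast (by linarith : (u.2 : ℝ) ≤ w.2)
  have i3 : w.1 ≤ v.1 := by exact_mod_cast (by linarith : (w.1 : ℝ) ≤ v.1)
  have i4 : w.2 ≤ v.2 := by exact_mod_cast (by linarith : (w.2 : ℝ) ≤ v.2)
  refine ⟨⟨⟨i1, i2⟩, ?_, ?_⟩, ⟨⟨i3, i4⟩, ?_, ?_⟩, ?_⟩
  · rw [← hg]
    push_cast
    exact a1
  · rw [← hg]
    push_cast
    exact a2
  · rw [← hg']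
    push_cast
    exact a3
  · rw [← hg']
    push_cast
    exact a4
  · have hk : dl u v * (dev σ u + (s - σ) * g) = g' * dev σ u + g * dev σ v := by
      rw [q2, hl]
      ring
    have r1 : dev σ u + (s - σ) * g ≤ A := by
      have : dl u v * (dev σ u + (s - σ) * g) ≤ dl u v * A := by
        rw [hk, hl]
        nlinarith [mul_le_mul_of_nonneg_left hu.2 hg0'.le, mul_le_mul_of_nonneg_left hv.2 hg0.le]
      exact le_of_mul_le_mul_left this hl0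
    have r2 : -A ≤ dev σ u + (s - σ) * g := by
      have : dl u v * (-A) ≤ dl u v * (dev σ u + (s - σ) * g) := by
        rw [hk, hl]
        nlinarith [mul_le_mul_of_nonneg_left hu.1 hg0'.le, mul_le_mul_of_nonneg_left hv.1 hg0.le]
      exact le_of_mul_le_mul_left this hl0
    rw [q1, abs_le]
    constructor
    · linarith [he.1]
    · linarith [he.2]

private theorem frb_super {u v w : ℤ × ℤ} (h1 : u ≤ w) (h2 : w ≤ v) :
    muz u w + muz w v ≤ muz u v := by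
  have c1 : (0 : ℝ) ≤ (w.1 : ℝ) - u.1 := by
    have := h1.1
    have h3 : (u.1 : ℝ) ≤ w.1 := by exact_mod_cast this
    linarith
  have c2 : (0 : ℝ) ≤ (w.2 : ℝ) - u.2 := by
    have := h1.2
    have h3 : (u.2 : ℝ) ≤ w.2 := by exact_mod_cast this
    linarith
  have c3 : (0 : ℝ) ≤ (v.1 : ℝ) - w.1 := by
    have := h2.1
    have h3 : (w.1 : ℝ) ≤ v.1 := by exact_mod_cast this
    linarith
  have c4 : (0 : ℝ) ≤ (v.2 : ℝ) - w.2 := by
    have := h2.2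
    have h3 : (w.2 : ℝ) ≤ v.2 := by exact_mod_cast this
    linarith
  have h3 := mu_superadd c1 c2 c3 c4
  have e1 : (w.1 : ℝ) - u.1 + ((v.1 : ℝ) - w.1) = (v.1 : ℝ) - u.1 := by ring
  have e2 : (w.2 : ℝ) - u.2 + ((v.2 : ℝ) - w.2) = (v.2 : ℝ) - u.2 := by ring
  rw [e1, e2] at h3
  unfold muz
  push_cast
  exact h3

private theorem frb_loss {κ s : ℝ} {u v w : ℤ × ℤ} (hκ : 0 < κ) (h1 : Cone (κ / 8) u w)
    (h2 : Cone (κ / 8) w v) (g1 : 1 ≤ dl u w) (g2 : 1 ≤ dl w v)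
    (hs : s * dl u v = (v.1 : ℝ) - u.1) (he : |((w.1 : ℝ) - u.1) - s * dl u w| ≤ 1) :
    muz u v ≤ muz u w + muz w v + 256 / κ ^ 2 := by
  obtain ⟨-, k1, k2⟩ := h1
  obtain ⟨-, k3, k4⟩ := h2
  have hl : dl u v = dl u w + dl w v := by
    rw [frb_dl, frb_dl, frb_dl]
    ring
  push_cast at k1 k2 k3 k4
  have e2 := frb_dl' u w
  have e3 := frb_dl' w v
  have hm := mu_loss (κ := κ / 8) (a1 := (w.1 : ℝ) - u.1) (b1 := (w.2 : ℝ) - u.2)
    (a2 := (v.1 : ℝ) - w.1) (b2 := (v.2 : ℝ) - w.2) (by positivity) (by linarith) (by linarith)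
    (by rw [← e2]; exact k1) (by rw [← e2]; exact k2) (by rw [← e3]; exact k3)
    (by rw [← e3]; exact k4)
  rw [← e2, ← e3, ← hl] at hm
  have f1 : (w.1 : ℝ) - u.1 + ((v.1 : ℝ) - w.1) = (v.1 : ℝ) - u.1 := by ring
  have f2 : (w.2 : ℝ) - u.2 + ((v.2 : ℝ) - w.2) = (v.2 : ℝ) - u.2 := by ring
  rw [f1, f2, ← hs] at hm
  have hl0 : 0 < dl u v := by linarith
  have f3 : dl u w * (s * dl u v) / dl u v = s * dl u w := by
    field_simp
  rw [f3] at hm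
  have f4 : ((w.1 : ℝ) - u.1 - s * dl u w) ^ 2 ≤ 1 := by
    rw [← sq_abs]
    exact pow_le_one₀ (abs_nonneg _) he
  have f5 : 1 / dl u w ≤ 1 := by
    rw [div_le_one (by linarith)]
    exact g1
  have f6 : 1 / dl w v ≤ 1 := by
    rw [div_le_one (by linarith)]
    exact g2
  have f7 : 0 ≤ 1 / dl u w + 1 / dl w v := by
    have a1 : 0 < dl u w := by linarith
    have a2 : 0 < dl w v := by linarith
    positivity
  have f8 : 2 / (κ / 8) ^ 2 * (((w.1 : ℝ) - u.1 - s * dl u w) ^ 2) *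
      (1 / dl u w + 1 / dl w v) ≤ 256 / κ ^ 2 := by
    have g3 : 0 ≤ 2 / (κ / 8) ^ 2 := by positivity
    calc 2 / (κ / 8) ^ 2 * (((w.1 : ℝ) - u.1 - s * dl u w) ^ 2) * (1 / dl u w + 1 / dl w v)
        ≤ 2 / (κ / 8) ^ 2 * 1 * 2 := by
          refine mul_le_mul (mul_le_mul_of_nonneg_left f4 g3) (by linarith) f7 (by positivity)
      _ = 256 / κ ^ 2 := by
          field_simp
          norm_num
  have f9 : s * dl u v = ((v.1 - u.1 : ℤ) : ℝ) := by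
    rw [hs]
    push_cast
    ring
  rw [f9] at hm
  unfold muz
  push_cast at hm ⊢
  linarith

/-- the combination of the pieces -/
private theorem frb_main {κ σ y A n1 C' δ : ℝ} {b Mi n0 m : ℕ}
    (Bd : ℤ × ℤ → ℤ × ℤ → ℝ → Prop) (hκ : 0 < κ) (hy : 0 ≤ y) (hn1 : 0 < n1) (hδ : 0 ≤ δ)
    (hC' : 0 ≤ C') (hC'' : 2 * C' ≤ y / 8 * n1 ^ (1 / 3 : ℝ)) (hbM : 8 * b + 1 ≤ Mi)
    (hmono : ∀ u v E E', Bd u v E → E ≤ E' → Bd u v E')
    (hcut : ∀ (c A : ℝ) (u v : ℤ × ℤ) (a : ℤ), 3 * κ / 16 ≤ c → Cone c u v → u ∈ Bx m →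
      v ∈ Bx m → |dev σ u| ≤ A → |dev σ v| ≤ A → -(2 * (n0 : ℤ)) ≤ lev u →
      lev v ≤ 2 * (n0 : ℤ) + 1 → lev u + Mi ≤ a → a + Mi ≤ lev v →
      ∃ w, lev w = a ∧ Cone (c - κ / 40) u w ∧ Cone (c - κ / 40) w v ∧ |dev σ w| ≤ A + δ ∧
        ∀ E1 E2, Bd u w E1 → Bd w v E2 → Bd u v (E1 + E2 + C'))
    (hcrude : ∀ u v, u ∈ Bx m → v ∈ Bx m → Cone (κ / 16) u v → dl u v ≤ 5 * (Mi : ℝ) →
      Bd u v (y / 8 * n1 ^ (1 / 3 : ℝ)))
    (hfine : ∀ u v, u ∈ Rgn σ (A + 2 * δ) (2 * n0) → v ∈ Rgn σ (A + 2 * δ) (2 * n0) →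
      Cone (κ / 5) u v → (lev v ≤ -(4 * (b : ℤ)) ∨ 4 * (b : ℤ) + 1 ≤ lev u) →
      Bd u v (y / 4 * (max (dl u v) n1) ^ (1 / 3 : ℝ)))
    {p q : ℤ × ℤ} (hp : p ∈ Rgn σ A (2 * n0)) (hq : q ∈ Rgn σ A (2 * n0)) (hpB : p ∈ Bx m)
    (hqB : q ∈ Bx m) (hc : Cone (κ / 4) p q) :
    Bd p q (y * (max (dl p q) n1) ^ (1 / 3 : ℝ)) := by
  unfold Rgn at hp hq
  rw [Set.mem_ofPred_eq] at hp hq
  obtain ⟨p1, p2, p3⟩ := hp
  obtain ⟨q1, q2, q3⟩ := hq
  push_cast at p1 p2 q1 q2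
  have hRg : ∀ z : ℤ × ℤ, -(2 * (n0 : ℤ)) ≤ lev z → lev z ≤ 2 * (n0 : ℤ) + 1 →
      |dev σ z| ≤ A + 2 * δ → z ∈ Rgn σ (A + 2 * δ) (2 * n0) := by
    intro z h1 h2 h3
    unfold Rgn
    rw [Set.mem_ofPred_eq]
    push_cast
    exact ⟨h1, h2, h3⟩
  have hlpq := lev_le_lev hc.1
  obtain ⟨X, hX⟩ : ∃ X, X = (max (dl p q) n1) ^ (1 / 3 : ℝ) := ⟨_, rfl⟩
  have hX1 : n1 ^ (1 / 3 : ℝ) ≤ X := by
    rw [hX]
    exact Real.rpow_le_rpow hn1.le (le_max_right _ _) (by norm_num)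
  have hX0 : 0 ≤ X := le_trans (Real.rpow_nonneg hn1.le _) hX1
  have hXm : ∀ u v : ℤ × ℤ, dl u v ≤ dl p q → (max (dl u v) n1) ^ (1 / 3 : ℝ) ≤ X := by
    intro u v h1
    rw [hX]
    exact Real.rpow_le_rpow (hn1.le.trans (le_max_right _ _)) (max_le_max_right _ h1)
      (by norm_num)
  rw [← hX]
  have hyX : 0 ≤ y * X := mul_nonneg hy hX0
  have hyN : y / 8 * n1 ^ (1 / 3 : ℝ) ≤ y / 8 * X := mul_le_mul_of_nonneg_left hX1 (by positivity)
  by_cases hout : lev q ≤ -(4 * (b : ℤ)) ∨ 4 * (b : ℤ) + 1 ≤ lev p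
  · refine hmono _ _ _ _ (hfine p q (hRg p p1 p2 (by linarith)) (hRg q q1 q2 (by linarith))
      (frb_cone_mono hc (by linarith)) hout) ?_
    have := mul_le_mul_of_nonneg_left (hXm p q le_rfl) (show 0 ≤ y / 4 by positivity)
    linarith
  push Not at hout
  obtain ⟨ho1, ho2⟩ := hout
  -- the right part
  have hR : ∀ u : ℤ × ℤ, u ∈ Bx m → p ≤ u → Cone (κ / 4 - κ / 40) u q → |dev σ u| ≤ A + δ →
      -(4 * (b : ℤ)) - 2 * Mi ≤ lev u → lev u < 4 * (b : ℤ) + 1 →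
      Bd u q (y / 4 * X + y / 8 * n1 ^ (1 / 3 : ℝ) + C') := by
    intro u huB hpu hcu hdu hl1 hl2
    have hlpu := lev_le_lev hpu
    have hluq := lev_le_lev hcu.1
    by_cases hq5 : lev q < 4 * (b : ℤ) + 1 + 2 * Mi
    · refine hmono _ _ _ _ (hcrude u q huB hqB (frb_cone_mono hcu (by linarith)) ?_) ?_
      · unfold dl
        have : lev q - lev u ≤ 5 * (Mi : ℤ) := by omega
        exact_mod_cast this
      · have := mul_nonneg (show 0 ≤ y / 4 by positivity) hX0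
        linarith
    · push Not at hq5
      obtain ⟨w, w1, w2, w3, w4, w5⟩ := hcut (κ / 4 - κ / 40) (A + δ) u q
        (4 * (b : ℤ) + 1 + Mi) (by linarith) hcu huB hqB hdu (by linarith) (by omega) q2
        (by omega) (by omega)
      have hwB : w ∈ Bx m := frb_box huB hqB w2.1 w3.1
      have hB1 : Bd u w (y / 8 * n1 ^ (1 / 3 : ℝ)) := by
        refine hcrude u w huB hwB (frb_cone_mono w2 (by linarith)) ?_
        unfold dl
        have : lev w - lev u ≤ 5 * (Mi : ℤ) := by omega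
        exact_mod_cast this
      have hB2 : Bd w q (y / 4 * X) := by
        refine hmono _ _ _ _ (hfine w q (hRg w (by omega) (by omega) (by linarith))
          (hRg q q1 q2 (by linarith)) (frb_cone_mono w3 (by linarith)) (Or.inr (by omega))) ?_
        refine mul_le_mul_of_nonneg_left (hXm w q ?_) (by positivity)
        unfold dl
        have : lev q - lev w ≤ lev q - lev p := by omega
        exact_mod_cast this
      exact hmono _ _ _ _ (w5 _ _ hB1 hB2) (by linarith)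
  by_cases hp5 : -(4 * (b : ℤ)) - 2 * Mi < lev p
  · refine hmono _ _ _ _ (hR p hpB le_rfl (frb_cone_mono hc (by linarith)) (by linarith) hp5.le
      ho2) ?_
    linarith
  · push Not at hp5
    obtain ⟨w, w1, w2, w3, w4, w5⟩ := hcut (κ / 4) A p q (-(4 * (b : ℤ)) - Mi) (by linarith) hc
      hpB hqB p3 q3 p1 q2 (by omega) (by omega)
    have hwB : w ∈ Bx m := frb_box hpB hqB w2.1 w3.1
    have hB1 : Bd p w (y / 4 * X) := by
      refine hmono _ _ _ _ (hfine p w (hRg p p1 p2 (by linarith)) (hRg w (by omega) (by omega)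
        (by linarith)) (frb_cone_mono w2 (by linarith)) (Or.inl (by omega))) ?_
      refine mul_le_mul_of_nonneg_left (hXm p w ?_) (by positivity)
      unfold dl
      have : lev w - lev p ≤ lev q - lev p := by omega
      exact_mod_cast this
    have hB2 := hR w hwB w2.1 w3 w4 (by omega) (by omega)
    exact hmono _ _ _ _ (w5 _ _ hB1 hB2) (by linarith)

/-- the sizes -/
private theorem frb_sizes {κ : ℝ} (hκ : 0 < κ) (_hκ1 : κ ≤ 1) (C0 : ℝ) : ∃ C1 : ℝ, 2 ≤ C1 ∧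
    ∀ h lam : ℝ, HP C1 h lam → ∃ Mi : ℕ, C0 * lam ^ 3 ≤ Mi ∧ 8 * nb h lam + 1 ≤ Mi ∧
      lam * (5 * (Mi : ℝ) + 1) ^ (1 / 3 : ℝ) ≤ yy h / 8 * (nn h 25 : ℝ) ^ (1 / 3 : ℝ) ∧
      10 * √(2 * lam) * (4 * (nn h 0 : ℝ) + 1) ^ (2 / 3 : ℝ) ≤
        lam * ((2 * nn h 0 : ℕ) : ℝ) ^ (2 / 3 : ℝ) / 2 ∧
      1 ≤ lam * ((2 * nn h 0 : ℕ) : ℝ) ^ (2 / 3 : ℝ) / 2 ∧
      lam * ((2 * nn h 0 : ℕ) : ℝ) ^ (2 / 3 : ℝ) / 2 ≤ κ / 40 * Mi ∧
      2 * (256 / κ ^ 2 + lam) ≤ yy h / 8 * (nn h 25 : ℝ) ^ (1 / 3 : ℝ) ∧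
      2 * (Mi : ℝ) ≤ nn h 0 ∧ 0 ≤ yy h ∧ 1 ≤ lam ∧ C0 ≤ lam ∧ 8 ≤ nn h 0 ∧
      (0 : ℝ) < nn h 25 := by
  obtain ⟨D1, hD1, F1⟩ := fy 128
  obtain ⟨D2, hD2, F2⟩ := fn 1
  obtain ⟨D3, hD3, F3⟩ := fb 1
  have hq1 : 0 ≤ 256 / κ ^ 2 := by positivity
  have hq2 : 0 ≤ 80 / κ := by positivity
  have hq3 : 0 ≤ |C0| := abs_nonneg _
  refine ⟨D1 + D2 + D3 + |C0| + 7200 + 256 / κ ^ 2 + 80 / κ, by linarith, ?_⟩
  intro h lam hp
  obtain ⟨b1, -, -⟩ := hp_basic (by linarith) hp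
  obtain ⟨y1, y2, -⟩ := F1 h lam (hp.mono (by linarith))
  obtain ⟨n1, -, -, n4, -⟩ := F2 h lam (hp.mono (by linarith))
  obtain ⟨c1, -, c3, -, c5, -⟩ := F3 h lam (hp.mono (by linarith))
  have hl1 : 7200 ≤ lam := by linarith
  have hl2 : |C0| ≤ lam := by linarith
  have hl3 : 256 / κ ^ 2 ≤ lam := by linarith
  have hl4 : 80 / κ ≤ lam := by linarith
  have hC0 : C0 ≤ lam := (le_abs_self _).trans hl2
  have hlam1 : 1 ≤ lam := by linarith
  have hlam0 : 0 < lam := by linarith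
  obtain ⟨p1, p2, -, -, p5⟩ := hp
  have hx1 : 1 < h⁻¹ := (one_lt_inv₀ p1).2 p2
  have hx0 : 0 < h⁻¹ := by linarith
  -- n1 is large
  have hbig : lam ^ 9000 ≤ (nn h 25 : ℝ) := by
    have e1 : lam ^ 9000 = (lam ^ 1000) ^ 9 := by rw [← pow_mul]
    have e2 : (lam ^ 1000) ^ 9 ≤ (h⁻¹ ^ (1 / 1000 : ℝ)) ^ 9 :=
      pow_le_pow_left₀ (by positivity) p5 9
    have e3 : (h⁻¹ ^ (1 / 1000 : ℝ)) ^ 9 ≤ h⁻¹ ^ (21 / 50 : ℝ) := by
      rw [← Real.rpow_natCast, ← Real.rpow_mul hx0.le]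
      exact Real.rpow_le_rpow_of_exponent_le hx1.le (by norm_num)
    have e4 : h⁻¹ ^ (21 / 50 : ℝ) ≤ rL h := by
      unfold rL
      exact Nat.le_ceil _
    have e5 : (rL h : ℝ) ≤ nb h lam := by
      refine le_trans ?_ c1
      have : (0 : ℝ) ≤ rL h := Nat.cast_nonneg _
      have h12 : (1 : ℝ) ≤ lam ^ 12 := one_le_pow₀ hlam1
      nlinarith
    have e6 : (nb h lam : ℝ) ≤ nn h 25 := by
      have : nb h lam ≤ nn h 25 := by omega
      exact_mod_cast this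
    rw [e1]
    exact e2.trans (e3.trans (e4.trans (e5.trans e6)))
  obtain ⟨-, -, -, -, k0, -⟩ := n1 0 (by norm_num)
  have hn01 : (nn h 25 : ℝ) ≤ nn h 0 := by exact_mod_cast k0
  set n1' : ℝ := (nn h 25 : ℝ) with hn1'
  set n0 : ℝ := (nn h 0 : ℝ) with hn0'
  have hn1pos : 0 < n1' := lt_of_lt_of_le (by positivity) hbig
  have hn0pos : 0 < n0 := lt_of_lt_of_le hn1pos hn01
  obtain ⟨N, hN⟩ : ∃ N, N = n1' ^ (1 / 3 : ℝ) := ⟨_, rfl⟩
  have hN0 : 0 ≤ N := by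
    rw [hN]
    positivity
  have hN3 : N ^ 3 = n1' := by
    rw [hN, ← Real.rpow_natCast, ← Real.rpow_mul hn1pos.le]
    norm_num
  have hN2 : n1' ^ (2 / 3 : ℝ) = N ^ 2 := by
    rw [hN, ← Real.rpow_natCast, ← Real.rpow_mul hn1pos.le]
    norm_num
  have hNbig : lam ^ 3000 ≤ N := by
    have : (lam ^ 3000) ^ 3 ≤ N ^ 3 := by
      rw [hN3, ← pow_mul]
      exact hbig
    exact le_of_pow_le_pow_left₀ (by norm_num) hN0 this
  have hlN : lam ≤ N := (le_self_pow₀ hlam1 (by norm_num)).trans hNbig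
  obtain ⟨z, hz⟩ : ∃ z, z = n1' / lam ^ 4 := ⟨_, rfl⟩
  have hz1 : z * lam ^ 4 = n1' := by
    rw [hz]
    field_simp
  have hz4 : 4 * lam ^ 4 ≤ z := by
    rw [hz, le_div_iff₀ (by positivity)]
    calc 4 * lam ^ 4 * lam ^ 4 ≤ lam * lam ^ 4 * lam ^ 4 := by
          gcongr
          linarith
      _ = lam ^ 9 := by ring
      _ ≤ lam ^ 9000 := pow_le_pow_right₀ hlam1 (by norm_num)
      _ ≤ n1' := hbig
  have hl4p : 1 ≤ lam ^ 4 := one_le_pow₀ hlam1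
  have hz0 : 0 < z := by linarith
  have hzf := Nat.floor_le hz0.le
  have hzf2 := Nat.lt_floor_add_one z
  have hMz : z / 2 ≤ ((⌊z⌋₊ : ℕ) : ℝ) := by linarith
  have hbz : (nb h lam : ℝ) ≤ z / 32 := by
    rw [le_div_iff₀ (by norm_num), ← mul_le_mul_iff_of_pos_right (show 0 < lam ^ 4 by positivity),
      hz1]
    refine le_trans ?_ c5
    have h8 : (32 : ℝ) ≤ lam ^ 8 := by
      calc (32 : ℝ) ≤ lam := by linarith
        _ ≤ lam ^ 8 := le_self_pow₀ hlam1 (by norm_num)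
    have hb0 : (0 : ℝ) ≤ nb h lam := Nat.cast_nonneg _
    calc (nb h lam : ℝ) * 32 * lam ^ 4 ≤ (nb h lam : ℝ) * lam ^ 8 * lam ^ 4 := by gcongr
      _ = lam ^ 12 * nb h lam := by ring
  refine ⟨⌊z⌋₊, ?_, ?_, ?_, ?_, ?_, ?_, ?_, ?_, by linarith, hlam1, hC0, ?_, hn1pos⟩
  · calc C0 * lam ^ 3 ≤ lam * lam ^ 3 := mul_le_mul_of_nonneg_right hC0 (by positivity)
      _ = lam ^ 4 := by ring
      _ ≤ z / 2 := by linarith
      _ ≤ _ := hMz
  · have : ((8 * nb h lam + 1 : ℕ) : ℝ) ≤ ((⌊z⌋₊ : ℕ) : ℝ) := by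
      push_cast
      linarith
    exact_mod_cast this
  · rw [← hN]
    obtain ⟨r, hr⟩ : ∃ r, r = (5 * ((⌊z⌋₊ : ℕ) : ℝ) + 1) ^ (1 / 3 : ℝ) := ⟨_, rfl⟩
    have hr0 : 0 ≤ r := by
      rw [hr]
      positivity
    have hr3 : r ^ 3 = 5 * ((⌊z⌋₊ : ℕ) : ℝ) + 1 := by
      rw [hr, ← Real.rpow_natCast, ← Real.rpow_mul (by positivity)]
      norm_num
    rw [← hr]
    have h1 : (lam * r) ^ 3 ≤ N ^ 3 := by
      calc (lam * r) ^ 3 = lam ^ 3 * r ^ 3 := by ring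
        _ = lam ^ 3 * (5 * ((⌊z⌋₊ : ℕ) : ℝ) + 1) := by rw [hr3]
        _ ≤ lam ^ 3 * (6 * z) := by
            apply mul_le_mul_of_nonneg_left _ (by positivity)
            linarith
        _ ≤ lam ^ 3 * (lam * z) := by
            apply mul_le_mul_of_nonneg_left _ (by positivity)
            apply mul_le_mul_of_nonneg_right _ hz0.le
            linarith
        _ = z * lam ^ 4 := by ring
        _ = N ^ 3 := by rw [hz1, hN3]
    have h2 : lam * r ≤ N := le_of_pow_le_pow_left₀ (by norm_num) hN0 h1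
    have h3 : 1 * N ≤ yy h / 8 * N := mul_le_mul_of_nonneg_right (by linarith) hN0
    linarith
  · push_cast
    rw [← hn0']
    have hn8 : 1 ≤ n0 := by
      calc (1 : ℝ) ≤ lam ^ 9000 := one_le_pow₀ hlam1
        _ ≤ n1' := hbig
        _ ≤ n0 := hn01
    have h1 : (4 * n0 + 1) ^ (2 / 3 : ℝ) ≤ 3 * (2 * n0) ^ (2 / 3 : ℝ) := by
      calc (4 * n0 + 1) ^ (2 / 3 : ℝ) ≤ (3 * (2 * n0)) ^ (2 / 3 : ℝ) :=
            Real.rpow_le_rpow (by positivity) (by linarith) (by norm_num)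
        _ = 3 ^ (2 / 3 : ℝ) * (2 * n0) ^ (2 / 3 : ℝ) := Real.mul_rpow (by norm_num) (by positivity)
        _ ≤ 3 * (2 * n0) ^ (2 / 3 : ℝ) := by
            apply mul_le_mul_of_nonneg_right _ (by positivity)
            calc (3 : ℝ) ^ (2 / 3 : ℝ) ≤ 3 ^ (1 : ℝ) :=
                  Real.rpow_le_rpow_of_exponent_le (by norm_num) (by norm_num)
              _ = 3 := Real.rpow_one 3
    have h2 : √(2 * lam) ≤ lam / 60 := by
      rw [Real.sqrt_le_left (by positivity)]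
      nlinarith
    calc 10 * √(2 * lam) * (4 * n0 + 1) ^ (2 / 3 : ℝ)
        ≤ 10 * (lam / 60) * (3 * (2 * n0) ^ (2 / 3 : ℝ)) := by
          refine mul_le_mul ?_ h1 (by positivity) (by positivity)
          linarith
      _ = lam * (2 * n0) ^ (2 / 3 : ℝ) / 2 := by ring
  · push_cast
    rw [← hn0']
    have hn8 : 1 ≤ 2 * n0 := by
      have : (1 : ℝ) ≤ n0 := by
        calc (1 : ℝ) ≤ lam ^ 9000 := one_le_pow₀ hlam1
          _ ≤ n1' := hbig
          _ ≤ n0 := hn01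
      linarith
    have h1 : (1 : ℝ) ≤ (2 * n0) ^ (2 / 3 : ℝ) := Real.one_le_rpow hn8 (by norm_num)
    nlinarith
  · push_cast
    rw [← hn0']
    have h1 : (2 * n0) ^ (2 / 3 : ℝ) ≤ 2 * (lam ^ 2275 * N ^ 2) := by
      rw [Real.mul_rpow (by norm_num) hn0pos.le, ← hN2]
      refine mul_le_mul ?_ n4 (by positivity) (by norm_num)
      calc (2 : ℝ) ^ (2 / 3 : ℝ) ≤ 2 ^ (1 : ℝ) :=
            Real.rpow_le_rpow_of_exponent_le (by norm_num) (by norm_num)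
        _ = 2 := Real.rpow_one 2
    have h2 : lam * (2 * n0) ^ (2 / 3 : ℝ) / 2 ≤ lam ^ 2276 * N ^ 2 := by
      have : lam * (2 * n0) ^ (2 / 3 : ℝ) ≤ lam * (2 * (lam ^ 2275 * N ^ 2)) :=
        mul_le_mul_of_nonneg_left h1 hlam0.le
      calc lam * (2 * n0) ^ (2 / 3 : ℝ) / 2 ≤ lam * (2 * (lam ^ 2275 * N ^ 2)) / 2 := by linarith
        _ = lam ^ 2276 * N ^ 2 := by ring
    have h3 : lam ^ 2276 * N ^ 2 ≤ κ / 80 * z := by
      rw [← mul_le_mul_iff_of_pos_right (show 0 < lam ^ 4 by positivity), mul_assoc (κ / 80) z,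
        hz1, ← hN3]
      have h5 : 80 / κ * (lam ^ 2280) ≤ N := by
        calc 80 / κ * (lam ^ 2280) ≤ lam * lam ^ 2280 :=
              mul_le_mul_of_nonneg_right hl4 (by positivity)
          _ = lam ^ 2281 := by ring
          _ ≤ lam ^ 3000 := pow_le_pow_right₀ hlam1 (by norm_num)
          _ ≤ N := hNbig
      have h6 : lam ^ 2280 ≤ κ / 80 * N := by
        have e1 : κ / 80 * (80 / κ * lam ^ 2280) = lam ^ 2280 := by
          field_simp
        rw [← e1]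
        exact mul_le_mul_of_nonneg_left h5 (by positivity)
      calc lam ^ 2276 * N ^ 2 * lam ^ 4 = lam ^ 2280 * N ^ 2 := by ring
        _ ≤ κ / 80 * N * N ^ 2 := mul_le_mul_of_nonneg_right h6 (by positivity)
        _ = κ / 80 * N ^ 3 := by ring
    have h4 : κ / 80 * z ≤ κ / 40 * ((⌊z⌋₊ : ℕ) : ℝ) := by
      calc κ / 80 * z = κ / 40 * (z / 2) := by ring
        _ ≤ _ := mul_le_mul_of_nonneg_left hMz (by positivity)
    linarith
  · rw [← hN]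
    have h3 : 16 * N ≤ yy h / 8 * N := mul_le_mul_of_nonneg_right (by linarith) hN0
    linarith
  · have h1 : z ≤ n1' / 2 := by
      rw [← hz1]
      have : 2 ≤ lam ^ 4 := by
        calc (2 : ℝ) ≤ lam := by linarith
          _ ≤ lam ^ 4 := le_self_pow₀ hlam1 (by norm_num)
      nlinarith
    linarith
  · have h1 : (8 : ℝ) ≤ n0 := by
      calc (8 : ℝ) ≤ lam := by linarith
        _ ≤ lam ^ 9000 := le_self_pow₀ hlam1 (by norm_num)
        _ ≤ n1' := hbig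
        _ ≤ n0 := hn01
    have h2 : (8 : ℝ) ≤ ((nn h 0 : ℕ) : ℝ) := h1
    exact_mod_cast h2

private theorem frb_geo {κ : ℝ} (hκ : 0 < κ) : ∃ C0 : ℝ, 1 ≤ C0 ∧ ∀ (lam : ℝ) (m : ℕ)
    (ω : ℤ × ℤ → ℝ) (u v w : ℤ × ℤ), 1 ≤ lam → C0 ≤ lam → CrE (κ / 4) lam m ω → u ∈ Bx m →
    v ∈ Bx m → Cone (3 * κ / 16) u v → C0 * lam ^ 3 ≤ dl u v → Via ω u w v →
    |((v.1 - w.1 : ℤ) : ℝ) - ((v.1 - u.1 : ℤ) : ℝ) / dl u v * dl w v| ≤
      10 * √(2 * lam) * (max (dl w v) (C0 * lam ^ 3)) ^ (2 / 3 : ℝ) := by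
  obtain ⟨C0, hC0, hcs⟩ := cs (κ := κ / 4) (by positivity)
  refine ⟨C0, hC0, ?_⟩
  intro lam m ω u v w hlam hCl hcr hu hv hc hl hvia
  have hlam0 : 0 < lam := by linarith
  refine hcs lam (2 * lam) (C0 * lam ^ 3) ω u v (by linarith) le_rfl le_rfl ?_ hl ?_ ?_ w hvia
  · have e : 3 * (κ / 4) / 4 = 3 * κ / 16 := by ring
    rw [e]
    exact hc
  · intro z hz1 hz2
    exact hcr.1 z (frb_box hu hv hz1 hz2)
  · intro p q hvp hvq
    have hp : p ∈ Bx m := frb_box hu hv hvp.1 hvp.2.1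
    have hq : q ∈ Bx m := frb_box hp hv hvq.1 hvq.2.1
    have h1 := hcr.2 p hp q hq hvq.1
    refine ⟨h1.1, fun hc2 => (h1.2 hc2).trans ?_⟩
    have hd := frb_dl0 hvq.1
    have hg : 1 ≤ C0 * lam ^ 3 := by
      have : (1 : ℝ) ≤ lam ^ 3 := one_le_pow₀ hlam
      nlinarith
    have hm1 := le_max_left (dl p q) (C0 * lam ^ 3)
    have hm2 := le_max_right (dl p q) (C0 * lam ^ 3)
    have h3 : (dl p q + 1) ^ (1 / 3 : ℝ) ≤ 2 * (max (dl p q) (C0 * lam ^ 3)) ^ (1 / 3 : ℝ) := by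
      calc (dl p q + 1) ^ (1 / 3 : ℝ) ≤ (2 * max (dl p q) (C0 * lam ^ 3)) ^ (1 / 3 : ℝ) :=
            Real.rpow_le_rpow (by linarith) (by linarith) (by norm_num)
        _ = 2 ^ (1 / 3 : ℝ) * (max (dl p q) (C0 * lam ^ 3)) ^ (1 / 3 : ℝ) :=
            Real.mul_rpow (by norm_num) (by linarith)
        _ ≤ 2 * (max (dl p q) (C0 * lam ^ 3)) ^ (1 / 3 : ℝ) := by
            apply mul_le_mul_of_nonneg_right _ (Real.rpow_nonneg (by linarith) _)
            calc (2 : ℝ) ^ (1 / 3 : ℝ) ≤ 2 ^ (1 : ℝ) :=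
                  Real.rpow_le_rpow_of_exponent_le (by norm_num) (by norm_num)
              _ = 2 := Real.rpow_one 2
    calc lam * (dl p q + 1) ^ (1 / 3 : ℝ)
        ≤ lam * (2 * (max (dl p q) (C0 * lam ^ 3)) ^ (1 / 3 : ℝ)) :=
          mul_le_mul_of_nonneg_left h3 hlam0.le
      _ = 2 * lam * (max (dl p q) (C0 * lam ^ 3)) ^ (1 / 3 : ℝ) := by ring

/-- points of the parallelogram are in the box -/
private theorem frb_rgn {σ W : ℝ} {n m : ℕ} (h0 : 0 < σ) (h1 : σ < 1) (hn : 8 ≤ n)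
    (hW : W ≤ n) (hm : 16 * n ≤ m) {z : ℤ × ℤ} (hz : z ∈ Rgn σ W (2 * n)) : z ∈ Bx m := by
  unfold Rgn at hz
  rw [Set.mem_ofPred_eq] at hz
  obtain ⟨k1, k2, k3⟩ := hz
  unfold dev at k3
  rw [abs_le] at k3
  push_cast at k1 k2
  have hl1 : (-(2 * (n : ℝ))) ≤ (lev z : ℝ) := by exact_mod_cast k1
  have hl2 : (lev z : ℝ) ≤ 2 * n + 1 := by exact_mod_cast k2
  have hn0 : (8 : ℝ) ≤ n := by exact_mod_cast hn
  have hs1 : σ * ((lev z : ℝ) - 1 / 2) ≤ 2 * n + 1 / 2 := by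
    have h5 := mul_le_mul_of_nonneg_left
      (show (lev z : ℝ) - 1 / 2 ≤ 2 * n + 1 / 2 by linarith) h0.le
    have h6 : σ * (2 * (n : ℝ) + 1 / 2) ≤ 1 * (2 * (n : ℝ) + 1 / 2) :=
      mul_le_mul_of_nonneg_right h1.le (by linarith)
    linarith
  have hs2 : -(2 * (n : ℝ) + 1 / 2) ≤ σ * ((lev z : ℝ) - 1 / 2) := by
    have h5 := mul_le_mul_of_nonneg_left
      (show -(2 * (n : ℝ) + 1 / 2) ≤ (lev z : ℝ) - 1 / 2 by linarith) h0.le
    have h6 : σ * (2 * (n : ℝ) + 1 / 2) ≤ 1 * (2 * (n : ℝ) + 1 / 2) :=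
      mul_le_mul_of_nonneg_right h1.le (by linarith)
    linarith
  have hz1 : (z.1 : ℝ) ≤ 4 * n := by linarith [k3.1, k3.2]
  have hz2 : -(4 * (n : ℝ)) ≤ (z.1 : ℝ) := by linarith [k3.1, k3.2]
  have hz1' : z.1 ≤ 4 * (n : ℤ) := by exact_mod_cast hz1
  have hz2' : -(4 * (n : ℤ)) ≤ z.1 := by exact_mod_cast hz2
  unfold lev at k1 k2
  unfold Bx
  rw [Set.mem_ofPred_eq]
  exact ⟨by omega, by omega, by omega, by omega⟩

theorem fine_reg {κ : ℝ} (hκ : 0 < κ) : ∃ C1 : ℝ, 2 ≤ C1 ∧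
    ∀ (σ h lam : ℝ) (m : ℕ) (ω ω' : ℤ × ℤ → ℝ), HP C1 h lam → κ ≤ σ → σ ≤ 1 - κ →
    16 * nn h 0 ≤ m → CrE (κ / 4) lam m ω → ω' ∈ TG κ σ h lam →
    (∀ p ∈ Bx m, ∀ q ∈ Bx m, p ≤ q → |T ω p q - T ω' p q| ≤ (nn h 25 : ℝ) ^ (1 / 3 : ℝ) / 16) →
    GoodE κ σ lam (yy h) (nn h 25) (2 * nn h 0) ω := by
  by_cases hκ1 : κ ≤ 1
  swap
  · refine ⟨2, le_rfl, ?_⟩
    intro σ h lam m ω ω' _ h1 h2
    exfalso
    push Not at hκ1
    linarith
  obtain ⟨C0, hC0, hgeo⟩ := frb_geo hκ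
  obtain ⟨D1, hD1, hsz⟩ := frb_sizes hκ hκ1 C0
  obtain ⟨D2, hD2, hfo⟩ := fine_out hκ
  refine ⟨D1 + D2, by linarith, ?_⟩
  intro σ h lam m ω ω' hp h1 h2 hm hcr hTG hdiff
  have hp1 : HP D1 h lam := hp.mono (by linarith)
  have hp2 : HP D2 h lam := hp.mono (by linarith)
  obtain ⟨Mi, z1, z2, z3, z4, z5, z6, z7, z8, z9, z10, z11, z12, z13⟩ := hsz h lam hp1
  have hfine0 := hfo σ h lam m ω ω' hp2 h1 h2 hm hcr hTG hdiff
  have hσ0 : 0 < σ := by linarith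
  have hσ1 : σ < 1 := by linarith
  have hlam0 : 0 < lam := by linarith
  obtain ⟨δ, hδ⟩ : ∃ δ, δ = lam * ((2 * nn h 0 : ℕ) : ℝ) ^ (2 / 3 : ℝ) / 2 := ⟨_, rfl⟩
  rw [← hδ] at z4 z5 z6
  have hδ0 : 0 ≤ δ := by linarith
  have hMi0 : (1 : ℝ) ≤ Mi := by
    have : 1 ≤ Mi := by omega
    exact_mod_cast this
  have hC' : 0 ≤ 256 / κ ^ 2 + lam := by positivity
  -- the slope
  have hslope : ∀ u v : ℤ × ℤ, 0 < dl u v →
      ((v.1 - u.1 : ℤ) : ℝ) / dl u v * dl u v = (v.1 : ℝ) - u.1 := by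
    intro u v hpos
    push_cast
    field_simp
  refine ⟨crE_cone (crE_mono hcr (by omega)) (by linarith), ?_⟩
  intro p hpR q hqR hc
  have hW : 40 * lam * ((2 * nn h 0 : ℕ) : ℝ) ^ (2 / 3 : ℝ) ≤ nn h 0 := by
    have e1 : 40 * lam * ((2 * nn h 0 : ℕ) : ℝ) ^ (2 / 3 : ℝ) = 80 * δ := by
      rw [hδ]
      ring
    rw [e1]
    have e2 : κ / 40 * (Mi : ℝ) ≤ 1 / 40 * Mi := by
      apply mul_le_mul_of_nonneg_right _ (by linarith)
      linarith
    linarith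
  have hpB : p ∈ Bx m := frb_rgn hσ0 hσ1 z12 hW hm hpR
  have hqB : q ∈ Bx m := frb_rgn hσ0 hσ1 z12 hW hm hqR
  have hcrude : ∀ u v : ℤ × ℤ, u ∈ Bx m → v ∈ Bx m → Cone (κ / 16) u v →
      dl u v ≤ 5 * (Mi : ℝ) → |T ω u v - muz u v| ≤ yy h / 8 * (nn h 25 : ℝ) ^ (1 / 3 : ℝ) := by
    intro u v hu hv hcu hd
    have e : κ / 16 = κ / 4 / 4 := by ring
    rw [e] at hcu
    refine ((hcr.2 u hu v hv hcu.1).2 hcu).trans (le_trans ?_ z3)
    apply mul_le_mul_of_nonneg_left _ hlam0.le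
    have := frb_dl0 hcu.1
    exact Real.rpow_le_rpow (by linarith) (by linarith) (by norm_num)
  have hfine : ∀ u v : ℤ × ℤ,
      u ∈ Rgn σ (40 * lam * ((2 * nn h 0 : ℕ) : ℝ) ^ (2 / 3 : ℝ) + 2 * δ) (2 * nn h 0) →
      v ∈ Rgn σ (40 * lam * ((2 * nn h 0 : ℕ) : ℝ) ^ (2 / 3 : ℝ) + 2 * δ) (2 * nn h 0) →
      Cone (κ / 5) u v → (lev v ≤ -(4 * (nb h lam : ℤ)) ∨ 4 * (nb h lam : ℤ) + 1 ≤ lev u) →
      |T ω u v - muz u v| ≤ yy h / 4 * (max (dl u v) (nn h 25)) ^ (1 / 3 : ℝ) := by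
    intro u v hu hv hcu hlv
    have e1 : 40 * lam * ((2 * nn h 0 : ℕ) : ℝ) ^ (2 / 3 : ℝ) + 2 * δ =
        41 * lam * ((2 * nn h 0 : ℕ) : ℝ) ^ (2 / 3 : ℝ) := by
      rw [hδ]
      ring
    rw [e1] at hu hv
    exact hfine0 u hu v hv hcu hlv
  have hlevs : ∀ u v : ℤ × ℤ, ∀ a : ℤ, -(2 * (nn h 0 : ℤ)) ≤ lev u →
      lev v ≤ 2 * (nn h 0 : ℤ) + 1 → lev u + Mi ≤ a → a + Mi ≤ lev v → ∀ w : ℤ × ℤ, lev w = a →
      (Mi : ℝ) ≤ dl u w ∧ (Mi : ℝ) ≤ dl w v ∧ dl w v ≤ 4 * (nn h 0 : ℝ) + 1 ∧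
        dl u v = dl u w + dl w v := by
    intro u v a a1 a2 a3 a4 w hw
    refine ⟨?_, ?_, ?_, ?_⟩
    · unfold dl
      have : (Mi : ℤ) ≤ lev w - lev u := by omega
      exact_mod_cast this
    · unfold dl
      have : (Mi : ℤ) ≤ lev v - lev w := by omega
      exact_mod_cast this
    · unfold dl
      have : lev v - lev w ≤ 4 * (nn h 0 : ℤ) + 1 := by omega
      exact_mod_cast this
    · rw [frb_dl, frb_dl, frb_dl]
      ring
  rw [abs_le]
  constructor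
  · -- lower bound
    have key := frb_main (κ := κ) (σ := σ) (y := yy h)
      (A := 40 * lam * ((2 * nn h 0 : ℕ) : ℝ) ^ (2 / 3 : ℝ)) (n1 := (nn h 25 : ℝ))
      (C' := 256 / κ ^ 2 + lam) (δ := δ) (b := nb h lam) (Mi := Mi) (n0 := nn h 0) (m := m)
      (fun u v E => muz u v ≤ T ω u v + E) hκ z9 z13 hδ0 hC' z7 z2
      (fun u v E E' hE hEE => by
        show muz u v ≤ T ω u v + E'
        have : muz u v ≤ T ω u v + E := hE
        linarith)
      ?_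
      (fun u v hu hv hcu hd => by
        show muz u v ≤ T ω u v + _
        have := (abs_le.1 (hcrude u v hu hv hcu hd)).1
        linarith)
      (fun u v hu hv hcu hlv => by
        show muz u v ≤ T ω u v + _
        have := (abs_le.1 (hfine u v hu hv hcu hlv)).1
        linarith)
      hpR hqR hpB hqB hc
    · have key2 : muz p q ≤ T ω p q + yy h * (max (dl p q) (nn h 25)) ^ (1 / 3 : ℝ) := key
      linarith
    · intro c A u v a hc0 hcu hu hv hdu hdv a1 a2 a3 a4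
      obtain ⟨s, hs⟩ : ∃ s : ℝ, s = ((v.1 - u.1 : ℤ) : ℝ) / dl u v := ⟨_, rfl⟩
      obtain ⟨w, hw⟩ : ∃ w : ℤ × ℤ, w = (u.1 + ⌊s * ((a : ℝ) - lev u)⌋,
          a - (u.1 + ⌊s * ((a : ℝ) - lev u)⌋)) := ⟨_, rfl⟩
      have hwl : lev w = a := by
        rw [hw]
        unfold lev
        simp
      obtain ⟨d1, d2, d3, d4⟩ := hlevs u v a a1 a2 a3 a4 w hwl
      have hpos : 0 < dl u v := by linarith
      have hs' : s * dl u v = (v.1 : ℝ) - u.1 := by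
        rw [hs]
        exact hslope u v hpos
      have hdw : dl u w = (a : ℝ) - lev u := by rw [frb_dl, hwl]
      have he : |((w.1 : ℝ) - u.1) - s * dl u w| ≤ 1 := by
        have e1 : (w.1 : ℝ) = u.1 + ⌊s * ((a : ℝ) - lev u)⌋ := by
          rw [hw]
          push_cast
          ring
        rw [e1, hdw, abs_le]
        have f1 := Int.floor_le (s * ((a : ℝ) - lev u))
        have f2 := Int.lt_floor_add_one (s * ((a : ℝ) - lev u))
        constructor <;> linarith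
      obtain ⟨r1, r2, r3⟩ := frb_cone hκ hcu (by linarith) (by linarith : (0 : ℝ) < Mi) z6 d1 d2
        hs' (he.trans z5) hdu hdv
      refine ⟨w, hwl, r1, r2, r3, ?_⟩
      intro E1 E2 hE1 hE2
      show muz u v ≤ T ω u v + (E1 + E2 + (256 / κ ^ 2 + lam))
      have hE1' : muz u w ≤ T ω u w + E1 := hE1
      have hE2' : muz w v ≤ T ω w v + E2 := hE2
      have hl := frb_loss hκ (frb_cone_mono r1 (by linarith)) (frb_cone_mono r2 (by linarith))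
        (by linarith) (by linarith) hs' he
      have ht := T_add_le (ω := ω) r1.1 r2.1
      have hwB : w ∈ Bx m := frb_box hu hv r1.1 r2.1
      have hω := (hcr.1 w hwB).2
      linarith
  · -- upper bound
    have key := frb_main (κ := κ) (σ := σ) (y := yy h)
      (A := 40 * lam * ((2 * nn h 0 : ℕ) : ℝ) ^ (2 / 3 : ℝ)) (n1 := (nn h 25 : ℝ))
      (C' := 256 / κ ^ 2 + lam) (δ := δ) (b := nb h lam) (Mi := Mi) (n0 := nn h 0) (m := m)
      (fun u v E => T ω u v ≤ muz u v + E) hκ z9 z13 hδ0 hC' z7 z2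
      (fun u v E E' hE hEE => by
        show T ω u v ≤ muz u v + E'
        have : T ω u v ≤ muz u v + E := hE
        linarith)
      ?_
      (fun u v hu hv hcu hd => by
        show T ω u v ≤ muz u v + _
        have := (abs_le.1 (hcrude u v hu hv hcu hd)).2
        linarith)
      (fun u v hu hv hcu hlv => by
        show T ω u v ≤ muz u v + _
        have := (abs_le.1 (hfine u v hu hv hcu hlv)).2
        linarith)
      hpR hqR hpB hqB hc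
    · have key2 : T ω p q ≤ muz p q + yy h * (max (dl p q) (nn h 25)) ^ (1 / 3 : ℝ) := key
      linarith
    · intro c A u v a hc0 hcu hu hv hdu hdv a1 a2 a3 a4
      obtain ⟨s, hs⟩ : ∃ s : ℝ, s = ((v.1 - u.1 : ℤ) : ℝ) / dl u v := ⟨_, rfl⟩
      obtain ⟨w, hwl, hvia⟩ := exists_via ω hcu.1 (l := a) (by omega) (by omega)
      obtain ⟨d1, d2, d3, d4⟩ := hlevs u v a a1 a2 a3 a4 w hwl
      have hpos : 0 < dl u v := by linarith
      have hs' : s * dl u v = (v.1 : ℝ) - u.1 := by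
        rw [hs]
        exact hslope u v hpos
      have hg := hgeo lam m ω u v w z10 z11 hcr hu hv (frb_cone_mono hcu hc0)
        (by linarith) hvia
      rw [← hs] at hg
      have he : |((w.1 : ℝ) - u.1) - s * dl u w| ≤ δ := by
        have e1 : ((w.1 : ℝ) - u.1) - s * dl u w =
            -(((v.1 - w.1 : ℤ) : ℝ) - s * dl w v) := by
          push_cast
          rw [d4] at hs'
          linarith
        rw [e1, abs_neg]
        refine hg.trans (le_trans ?_ z4)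
        apply mul_le_mul_of_nonneg_left _ (by positivity)
        refine Real.rpow_le_rpow (le_trans (by linarith) (le_max_left _ _)) (max_le d3 ?_)
          (by norm_num)
        linarith
      obtain ⟨r1, r2, r3⟩ := frb_cone hκ hcu (by linarith) (by linarith : (0 : ℝ) < Mi) z6 d1 d2
        hs' he hdu hdv
      refine ⟨w, hwl, r1, r2, r3, ?_⟩
      intro E1 E2 hE1 hE2
      show T ω u v ≤ muz u v + (E1 + E2 + (256 / κ ^ 2 + lam))
      have hE1' : T ω u w ≤ muz u w + E1 := hE1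
      have hE2' : T ω w v ≤ muz w v + E2 := hE2
      have hl := frb_super r1.1 r2.1
      have ht := hvia.2.2
      have hwB : w ∈ Bx m := frb_box hu hv r1.1 r2.1
      have hω := (hcr.1 w hwB).1
      have hq : 0 ≤ 256 / κ ^ 2 + lam := hC'
      linarith

end BGE
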