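import Pool.Agent.BGE.ParJ
import Pool.Agent.BGE.GeoA
import Pool.Agent.BGE.GeoB
import Pool.Agent.BGE.GeoC

/-!
BGE / M2d. The low window.


Everywhere `Y = 2 lam`, `g0 = C0 lam³` with `C0` larger than all the constants of `GeoA, GeoB, GeoC`
for this `κ`; `GoodE` at all scales `≤ N` is given by `good_crude` (`4 N ≤ m`), `Par` by `par_crude`.
`ω0, ωt` are the environments at the times `0` and `t`; `Thru σ a N ωt`, `a + 1 ≤ A ≤ 8 lam N^{2/3}`,
`a ≤ 2 lam N^{2/3}`.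

(4) refers to the argument: if `Wd` does not hold, then `FLp_r ω0` and `FRp_r ω0` (`r = rL`) have the same
increments on `(0, 2^(jL+2)]`, so by `orderF` (`n := N`, `r := rL`) they are equal to the increments of
`FLp_N ω0` there.
* `low_incl`. `ans_iff` and `rec_of_thru` at the scale `rL` for `ω0`: exact record up to
  `2 lam rL^{2/3}`; if `Wd` does not hold then as in (4) `FLp_N ω0 i - FLp_N ω0 0 =
  FLp_{rL} ω0 i - FLp_{rL} ω0 0 ≤ 0`, a contradiction. `FLp_res0` for the restriction.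
-/

namespace BGE

private theorem il_par_mono {C0 C1 κ σ lam Y g0 : ℝ} {n : ℕ} (hl : 0 ≤ lam) (h : C1 ≤ C0)
    (hP : Par C0 κ σ lam Y g0 n) : Par C1 κ σ lam Y g0 n := by
  obtain ⟨h1, h2, h3, h4, h5, h6⟩ := hP
  exact ⟨h1, h2, h.trans h3, h4, (mul_le_mul_of_nonneg_right h (by positivity)).trans h5, h6⟩

theorem low_incl {κ : ℝ} (hκ : 0 < κ) : ∃ C1 : ℝ, 2 ≤ C1 ∧
    ∀ (σ h lam A : ℝ) (N m : ℕ) (ω0 : ℤ × ℤ → ℝ), HP C1 h lam → κ ≤ σ → σ ≤ 1 - κ →
    8 * rL h ≤ N → 4 * N ≤ m → CrE κ lam m ω0 → 0 ≤ A → A ≤ 4 * arc lam N →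
    ω0 ∈ AnS σ (arc lam (rL h)) (rL h) →
    ∀ i : ℤ, 0 < i → i ≤ 2 ^ jL h → FLp σ A N ω0 0 < FLp σ A N ω0 i →
    ω0 ∈ LowS σ lam h := by
  obtain ⟨Ca, hCa, Ha⟩ := ans_iff hκ
  obtain ⟨Cr, hCr, Hr⟩ := rec_of_thru hκ
  obtain ⟨Cf, hCf, Hf⟩ := FLp_res0 hκ
  obtain ⟨Co, hCo, Ho⟩ := orderF hκ
  obtain ⟨Cg, hCg, Hg⟩ := good_crude hκ
  obtain ⟨C0, hC0⟩ : ∃ C0, C0 = Ca + Cr + Cf + Co + Cg := ⟨_, rfl⟩
  have hC01 : 1 ≤ C0 := by linarith
  obtain ⟨Cp, hCp, Hp⟩ := par_crude hκ hC01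
  obtain ⟨Cl, hCl, Hl⟩ := low_bounds
  refine ⟨Cp + Cg + Cl + C0 + 16, by linarith, ?_⟩
  intro σ h lam A N m ω0 hp h1 h2 hN hm hcr hA hA' hans i hi hi' hlt
  obtain ⟨b1, b2, b3⟩ := hp_basic (by linarith) hp
  obtain ⟨p1, p2, p3, p4, p5⟩ := hp
  have hpp : HP Cp h lam := ⟨p1, p2, by linarith, p4, p5⟩
  have hpg : HP Cg h lam := ⟨p1, p2, by linarith, p4, p5⟩
  obtain ⟨l1, l2, l3, l4⟩ := Hl h lam ⟨p1, p2, by linarith, p4, p5⟩
  set r : ℕ := rL h with hr
  set x : ℝ := h⁻¹ with hx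
  have hx1 : 1 < x := (one_lt_inv₀ p1).2 p2
  have hlam16 : 16 ≤ lam := by linarith
  have hlam1 : 1 ≤ lam := by linarith
  have hlam0 : 0 < lam := by linarith
  have hCr' : C0 * lam ^ 3 ≤ r := by
    calc C0 * lam ^ 3 ≤ lam * lam ^ 3 := by
          gcongr
          linarith
      _ = lam ^ 4 := by ring
      _ ≤ lam ^ 1000 := pow_le_pow_right₀ hlam1 (by norm_num)
      _ ≤ x ^ (1 / 1000 : ℝ) := p5
      _ ≤ x ^ (21 / 50 : ℝ) := Real.rpow_le_rpow_of_exponent_le hx1.le (by norm_num)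
      _ ≤ r := l3
  have hrN : 8 * r ≤ N := hN
  have hrN' : (r : ℝ) ≤ N := by exact_mod_cast (by omega : r ≤ N)
  have hgr := Hg C0 σ h lam r m ω0 (by linarith) hpg h1 h2 hCr' (by omega) hcr
  have hgN := Hg C0 σ h lam N m ω0 (by linarith) hpg h1 h2 (hCr'.trans hrN') hm hcr
  have hPr := Hp σ h lam r hpp h1 h2 hCr'
  have hPN := Hp σ h lam N hpp h1 h2 (hCr'.trans hrN')
  set P : ℝ := (r : ℝ) ^ (2 / 3 : ℝ) with hP
  have hPx : x ^ (7 / 25 : ℝ) ≤ P := by
    have e1 : x ^ (7 / 25 : ℝ) = (x ^ (21 / 50 : ℝ)) ^ (2 / 3 : ℝ) := by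
      rw [← Real.rpow_mul (by linarith)]
      norm_num
    rw [e1, hP]
    exact Real.rpow_le_rpow (by positivity) l3 (by norm_num)
  have hP0 : 0 < P := lt_of_lt_of_le (by positivity) hPx
  have earc : arc lam r = 2 * lam * P := rfl
  have earc' : 4 * arc lam r = 4 * (2 * lam) * P := by rw [earc]; ring
  -- the record at the scale `r`
  have hthru : Thru σ (2 * lam * P) r ω0 :=
    (Ha σ lam (2 * lam) _ r ω0 (il_par_mono hlam0.le (by linarith) hPr) hgr).1 hans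
  have hP1 : 1 ≤ P := by
    refine le_trans ?_ hPx
    exact Real.one_le_rpow hx1.le (by norm_num)
  have hrec := Hr σ lam (2 * lam) _ r ω0 (2 * lam * P) (4 * (2 * lam) * P)
    (il_par_mono hlam0.le (by linarith) hPr) (by positivity) (by nlinarith) le_rfl hthru
  -- the restriction
  have hres := Hf σ lam (2 * lam) _ (4 * (2 * lam) * P) r ω0
    (il_par_mono hlam0.le (by linarith) hPr) hgr (by positivity) le_rfl
    (RR σ lam r) (by
      show Rgn σ (6 * (2 * lam * P)) r ⊆ Rgn σ (6 * arc lam r) r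
      rw [earc])
  have hwin : (4 : ℝ) * 2 ^ jL h ≤ 2 * lam * P / 8 := by
    have e1 : x ^ (21 / 100 : ℝ) ≤ x ^ (7 / 25 : ℝ) :=
      Real.rpow_le_rpow_of_exponent_le hx1.le (by norm_num)
    have e2 : (2 : ℝ) ^ jL h ≤ P := l1.trans (e1.trans hPx)
    nlinarith
  refine ⟨?_, ?_⟩
  · rw [earc']
    intro u hu hu'
    have hu0 : (0 : ℤ) < u := by simpa using hu
    have hu1 : (u : ℝ) ≤ P / lam ^ 3 := by
      have e1 : (u : ℝ) ≤ ((Ic lam r : ℕ) : ℝ) := by exact_mod_cast hu'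
      refine e1.trans ?_
      exact Nat.floor_le (by positivity)
    have hu2 : (u : ℝ) ≤ P := by
      refine hu1.trans ?_
      rw [div_le_iff₀ (by positivity)]
      have : (1 : ℝ) ≤ lam ^ 3 := one_le_pow₀ hlam1
      nlinarith
    have hu3 : (u : ℝ) ≤ 2 * lam * P / 8 := by nlinarith
    have hur : (0 : ℝ) < u := by exact_mod_cast hu0
    have k1 := hres u (by rw [abs_of_pos hur]; exact hu3)
    have k2 := hres (-u) (by push_cast; rw [abs_neg, abs_of_pos hur]; exact hu3)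
    have k3 := hres 0 (by
      rw [Int.cast_zero, abs_zero]
      positivity)
    have k4 := hrec u hu0.le (by nlinarith)
    simp only [Nat.cast_zero, neg_zero]
    rw [k1.1, k2.2, k3.1, k3.2]
    constructor <;> linarith [k4.1, k4.2]
  · rw [earc']
    by_contra hW
    simp only [Wd, not_exists, not_and, not_lt] at hW
    -- the sum of the increments
    have hsum : ∀ k : ℕ, k ≤ 2 ^ jL h →
        FRp σ (4 * (2 * lam) * P) r ω0 (k : ℤ) - FRp σ (4 * (2 * lam) * P) r ω0 0 ≤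
          FLp σ (4 * (2 * lam) * P) r ω0 (k : ℤ) - FLp σ (4 * (2 * lam) * P) r ω0 0 := by
      intro k
      induction k with
      | zero =>
        intro _
        simp
      | succ k ih =>
        intro hk
        have e1 := ih (by omega)
        have e2 := hW ((k + 1 : ℕ) : ℤ) (by push_cast; omega)
          (Int.ofNat_le.2 (by omega))
        have e3 : ((k + 1 : ℕ) : ℤ) - 1 = (k : ℤ) := by push_cast; ring
        rw [e3] at e2
        have hk' : ((k + 1 : ℕ) : ℝ) ≤ 2 ^ jL h := by exact_mod_cast hk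
        have hk0 : (0 : ℝ) ≤ k := Nat.cast_nonneg k
        have h2j : (0 : ℝ) < 2 ^ jL h := by positivity
        have k1 := hres ((k + 1 : ℕ) : ℤ) (by
          rw [Int.cast_natCast, abs_of_nonneg (Nat.cast_nonneg _)]
          linarith)
        have k2 := hres (k : ℤ) (by
          rw [Int.cast_natCast, abs_of_nonneg (Nat.cast_nonneg _)]
          push_cast at hk'
          linarith)
        rw [k1.1, k1.2, k2.1, k2.2] at e2
        linarith
    obtain ⟨k, hk⟩ : ∃ k : ℕ, (k : ℤ) = i := ⟨i.toNat, by omega⟩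
    have hk2 : k ≤ 2 ^ jL h := by
      have : ((k : ℕ) : ℤ) ≤ ((2 ^ jL h : ℕ) : ℤ) := by
        rw [hk]
        push_cast
        exact hi'
      exact_mod_cast this
    have e1 := hsum k hk2
    rw [hk] at e1
    have hir : (i : ℝ) ≤ 2 ^ jL h := by exact_mod_cast hi'
    have hi0 : (0 : ℝ) < i := by exact_mod_cast hi
    have h2j : (0 : ℝ) < 2 ^ jL h := by positivity
    have e2 := (hrec i hi.le (by linarith)).1
    have e3 := Ho σ lam (2 * lam) _ A N ω0 (il_par_mono hlam0.le (by linarith) hPN) hgN hA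
      (by
        refine hA'.trans (le_of_eq ?_)
        unfold arc
        ring) r hCr' hrN 0 i (by
        rw [Int.cast_zero]
        have : 0 ≤ 2 * lam * P / 8 := by positivity
        linarith) hi.le (by linarith)
    rw [← hP] at e3
    linarith [e3.2.1, e3.2.2]


end BGE
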