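import Pool.Agent.BGE.ParJ
import Pool.Agent.BGE.GeoA
import Pool.Agent.BGE.GeoB
import Pool.Agent.BGE.GeoC

/-!
BGE / M2a. Consequences of a hit at the time `t` for the environment at the time `0`.


Everywhere `Y = 2 lam`, `g0 = C0 lam³` with `C0` larger than all the constants of `GeoA, GeoB, GeoC`
for this `κ`; `GoodE` at all scales `≤ N` is given by `good_crude` (`4 N ≤ m`), `Par` by `par_crude`.
`ω0, ωt` are the environments at the times `0` and `t`; `Thru σ a N ωt`, `a + 1 ≤ A ≤ 8 lam N^{2/3}`,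
`a ≤ 2 lam N^{2/3}`.

* `inner_incl`: `thru_mono`, `thru_down` from `N` to `r`, and `ans_iff`.
* `nr_slack`: by `rec_of_thru` for `ωt`, `FLp ωt i ≤ FLp ωt 0`; and
  `|FLp ω0 i - FLp ωt i| ≤ 2 sl N` by `CrT` (two passage times over distances with
  `dl + 1 ≤ 2 N`; for the rotated environment `crT_rot`), the same for `FRp`. So the slack is
  `4 sl N` for all `0 < i ≤ 2 lam N^{2/3}`.
-/

namespace BGE

private theorem iA_par_mono {C0 C1 κ σ lam Y g0 : ℝ} {n : ℕ} (hl : 0 ≤ lam) (h : C1 ≤ C0)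
    (hP : Par C0 κ σ lam Y g0 n) : Par C1 κ σ lam Y g0 n := by
  obtain ⟨h1, h2, h3, h4, h5, h6⟩ := hP
  exact ⟨h1, h2, h.trans h3, h4, (mul_le_mul_of_nonneg_right h (by positivity)).trans h5, h6⟩

/-- sizes -/
private theorem iA_size {κ lam : ℝ} {N : ℕ} (hκ : 0 < κ) (hκ1 : κ ≤ 1) (hl : 1 ≤ lam)
    (h : (1000 / κ) ^ 3 * lam ^ 3 ≤ N) :
    lam * (N : ℝ) ^ (2 / 3 : ℝ) ≤ κ / 1000 * N ∧ 1000 ≤ κ * N := by
  have hN0 : (0 : ℝ) ≤ N := Nat.cast_nonneg N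
  have h1 : (1000 / κ * lam) ^ 3 ≤ N := by
    rw [mul_pow]
    exact h
  have h5 : ((N : ℝ) ^ (1 / 3 : ℝ)) ^ 3 = N := by
    rw [← Real.rpow_natCast, ← Real.rpow_mul hN0]
    norm_num
  have h4 : 1000 / κ * lam ≤ (N : ℝ) ^ (1 / 3 : ℝ) := by
    rw [← h5] at h1
    exact le_of_pow_le_pow_left₀ (by norm_num) (by positivity) h1
  have h6 : (N : ℝ) ^ (1 / 3 : ℝ) * (N : ℝ) ^ (2 / 3 : ℝ) = N := by
    rw [← Real.rpow_add_of_nonneg hN0 (by norm_num) (by norm_num)]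
    norm_num
  have h23 : 0 ≤ (N : ℝ) ^ (2 / 3 : ℝ) := Real.rpow_nonneg hN0 _
  constructor
  · have h7 : 1000 / κ * lam * (N : ℝ) ^ (2 / 3 : ℝ) ≤ N := by
      calc _ ≤ (N : ℝ) ^ (1 / 3 : ℝ) * (N : ℝ) ^ (2 / 3 : ℝ) := mul_le_mul_of_nonneg_right h4 h23
        _ = N := h6
    calc lam * (N : ℝ) ^ (2 / 3 : ℝ) = κ / 1000 * (1000 / κ * lam * (N : ℝ) ^ (2 / 3 : ℝ)) := by
          field_simp
      _ ≤ κ / 1000 * N := mul_le_mul_of_nonneg_left h7 (by positivity)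
  · have h8 : 1000 / κ ≤ N := by
      have h9 : 1 ≤ 1000 / κ := by
        rw [le_div_iff₀ hκ]
        linarith
      have h10 : 1000 / κ ≤ (1000 / κ) ^ 3 := by
        calc 1000 / κ = (1000 / κ) ^ 1 := (pow_one _).symm
          _ ≤ (1000 / κ) ^ 3 := pow_le_pow_right₀ h9 (by norm_num)
      have h11 : (1000 / κ) ^ 3 * 1 ≤ (1000 / κ) ^ 3 * lam ^ 3 :=
        mul_le_mul_of_nonneg_left (one_le_pow₀ hl) (by positivity)
      linarith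
    rw [div_le_iff₀ hκ] at h8
    linarith

/-- one passage time -/
private theorem iA_one {lam h : ℝ} {N m : ℕ} {ω0 ωt : ℤ × ℤ → ℝ} (hl : 0 ≤ lam) (hh : 0 ≤ h)
    (hT : CrT lam m h ω0 ωt) {p q : ℤ × ℤ} (hp : p ∈ Bx m) (hq : q ∈ Bx m) (hpq : p ≤ q)
    (hd : dl p q + 1 ≤ 2 * N) : |T ωt p q - T ω0 p q| ≤ sl h lam N := by
  refine (hT p hp q hq hpq).trans ?_
  unfold sl
  apply mul_le_mul_of_nonneg_left _ hl
  have : √(h * (dl p q + 1)) ≤ √(2 * h * N) := by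
    apply Real.sqrt_le_sqrt
    calc h * (dl p q + 1) ≤ h * (2 * N) := mul_le_mul_of_nonneg_left hd hh
      _ = 2 * h * N := by ring
  linarith

/-- the position of the two lower points -/
private theorem iA_pts {κ σ lam A : ℝ} {N m : ℕ} (hκ : 0 < κ) (hκ1 : κ ≤ 1) (hl : 1 ≤ lam)
    (h : (1000 / κ) ^ 3 * lam ^ 3 ≤ N) (h1 : κ ≤ σ) (h2 : σ ≤ 1 - κ) (hm : 4 * N ≤ m)
    (hA1 : 1 ≤ A) (hA : A ≤ 8 * (lam * (N : ℝ) ^ (2 / 3 : ℝ))) {i : ℤ} (hi : 0 ≤ i)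
    (hi' : (i : ℝ) ≤ 2 * (lam * (N : ℝ) ^ (2 / 3 : ℝ))) :
    PLp σ A N ∈ Bx m ∧ PRp σ A N ∈ Bx m ∧ ((i, 0) : ℤ × ℤ) ∈ Bx m ∧ ((-i, 0) : ℤ × ℤ) ∈ Bx m ∧
    PLp σ A N ≤ (i, 0) ∧ PRp σ A N ≤ (-i, 0) ∧ dl (PLp σ A N) (i, 0) + 1 ≤ 2 * N ∧
    dl (PRp σ A N) (-i, 0) + 1 ≤ 2 * N := by
  obtain ⟨s1, s2⟩ := iA_size hκ hκ1 hl h
  have hN0 : (0 : ℝ) ≤ N := Nat.cast_nonneg N
  have hN : (1000 : ℝ) ≤ N := by nlinarith
  have hκN : κ * N ≤ N := by nlinarith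
  have hi0 : (0 : ℝ) ≤ i := by exact_mod_cast hi
  have e1 : κ * N ≤ σ * N := mul_le_mul_of_nonneg_right h1 hN0
  have e2 : σ * N ≤ (1 - κ) * N := mul_le_mul_of_nonneg_right h2 hN0
  have hiN : (i : ℝ) ≤ κ * N / 500 := by linarith
  have hAN : A ≤ κ * N / 125 := by linarith
  -- left point
  have P1a : ((PLp σ A N).1 : ℝ) ≤ -(σ * ((N : ℝ) + 1 / 2)) - A := Int.floor_le _
  have P1b : -(σ * ((N : ℝ) + 1 / 2)) - A < ((PLp σ A N).1 : ℝ) + 1 := Int.lt_floor_add_one _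
  have P2 : (PLp σ A N).2 = -(N : ℤ) - (PLp σ A N).1 := rfl
  have Q1a : -(σ * ((N : ℝ) + 1 / 2)) + A ≤ ((PRp σ A N).1 : ℝ) := Int.le_ceil _
  have Q1b : ((PRp σ A N).1 : ℝ) < -(σ * ((N : ℝ) + 1 / 2)) + A + 1 := Int.ceil_lt_add_one _
  have Q2 : (PRp σ A N).2 = -(N : ℤ) - (PRp σ A N).1 := rfl
  have castle : ∀ p q : ℤ, (p : ℝ) ≤ q → p ≤ q := fun p q h => by exact_mod_cast h
  have a1 : (PLp σ A N).1 ≤ 0 := castle _ _ (by
    push_cast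
    linarith)
  have a2 : -(N : ℤ) ≤ (PLp σ A N).1 := castle _ _ (by
    push_cast
    linarith)
  have b1 : (PRp σ A N).1 ≤ -i := castle _ _ (by
    push_cast
    linarith)
  have b2 : -(N : ℤ) ≤ (PRp σ A N).1 := castle _ _ (by
    push_cast
    linarith)
  have c1 : i + 1 ≤ (N : ℤ) := castle _ _ (by
    push_cast
    linarith)
  have hm' : 4 * (N : ℤ) ≤ m := by exact_mod_cast hm
  have lP : lev (PLp σ A N) = -(N : ℤ) := by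
    unfold lev
    rw [P2]
    ring
  have lQ : lev (PRp σ A N) = -(N : ℤ) := by
    unfold lev
    rw [Q2]
    ring
  have li : lev ((i, 0) : ℤ × ℤ) = i := by
    simp [lev]
  have li' : lev ((-i, 0) : ℤ × ℤ) = -i := by
    simp [lev]
  refine ⟨?_, ?_, ?_, ?_, ?_, ?_, ?_, ?_⟩
  · unfold Bx
    rw [Set.mem_ofPred_eq]
    refine ⟨by omega, by omega, by omega, by omega⟩
  · unfold Bx
    rw [Set.mem_ofPred_eq]
    refine ⟨by omega, by omega, by omega, by omega⟩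
  · unfold Bx
    rw [Set.mem_ofPred_eq]
    refine ⟨by simp only; omega, by simp only; omega, by simp only; omega, by simp only; omega⟩
  · unfold Bx
    rw [Set.mem_ofPred_eq]
    refine ⟨by simp only; omega, by simp only; omega, by simp only; omega, by simp only; omega⟩
  · rw [Prod.le_def]
    exact ⟨by simp only; omega, by simp only; omega⟩
  · rw [Prod.le_def]
    exact ⟨by simp only; omega, by simp only; omega⟩
  · unfold dl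
    rw [lP, li]
    have : ((i - -(N : ℤ) + 1 : ℤ) : ℝ) ≤ ((2 * (N : ℤ) : ℤ) : ℝ) := by
      exact_mod_cast (by omega : i - -(N : ℤ) + 1 ≤ 2 * (N : ℤ))
    push_cast at this ⊢
    linarith
  · unfold dl
    rw [lQ, li']
    have : ((-i - -(N : ℤ) + 1 : ℤ) : ℝ) ≤ ((2 * (N : ℤ) : ℤ) : ℝ) := by
      exact_mod_cast (by omega : -i - -(N : ℤ) + 1 ≤ 2 * (N : ℤ))
    push_cast at this ⊢
    linarith

theorem inner_incl {κ : ℝ} (hκ : 0 < κ) : ∃ C0 C1 : ℝ, 1 ≤ C0 ∧ 2 ≤ C1 ∧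
    ∀ (σ h lam a : ℝ) (N r m : ℕ) (ωt : ℤ × ℤ → ℝ), HP C1 h lam → κ ≤ σ → σ ≤ 1 - κ →
    C0 * lam ^ 3 ≤ r → 2 * r ≤ N → 4 * N ≤ m → CrE κ lam m ωt → a ≤ arc lam N →
    Thru σ a N ωt → ωt ∈ AnS σ (arc lam r) r := by
  obtain ⟨Ca, hCa, hans⟩ := ans_iff hκ
  obtain ⟨Cd, hCd, hdown⟩ := thru_down hκ
  obtain ⟨Cg, hCg, hgood⟩ := good_crude hκ
  set C0 : ℝ := max Ca (max Cd Cg) with hC0
  have hC01 : 1 ≤ C0 := hCa.trans (le_max_left _ _)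
  obtain ⟨Cp, hCp, hpar⟩ := par_crude hκ hC01
  refine ⟨C0, max Cp Cg, hC01, hCp.trans (le_max_left _ _), ?_⟩
  intro σ h lam a N r m ωt hHP h1 h2 hr hrN hNm hCr ha hT
  have hHp := hHP.mono (le_max_left Cp Cg)
  have hHg := hHP.mono (le_max_right Cp Cg)
  have hlam : 0 ≤ lam := by
    have := (hp_basic hCp hHp).1
    linarith
  have hr0 : (0 : ℝ) ≤ r := Nat.cast_nonneg r
  have hrN' : 2 * (r : ℝ) ≤ N := by exact_mod_cast hrN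
  have hN : C0 * lam ^ 3 ≤ N := by linarith
  have hPN := hpar σ h lam N hHp h1 h2 hN
  have hPr := hpar σ h lam r hHp h1 h2 hr
  have hCgC0 : Cg ≤ C0 := (le_max_right Cd Cg).trans (le_max_right _ _)
  have hCdC0 : Cd ≤ C0 := (le_max_left Cd Cg).trans (le_max_right _ _)
  have hGN := hgood C0 σ h lam N m ωt hCgC0 hHg h1 h2 hN hNm hCr
  have hGr := hgood C0 σ h lam r m ωt hCgC0 hHg h1 h2 hr (by omega) hCr
  have hT' : Thru σ (2 * lam * (N : ℝ) ^ (2 / 3 : ℝ)) N ωt := thru_mono hT ha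
  have hTr := hdown σ lam (2 * lam) (C0 * lam ^ 3) N ωt (iA_par_mono hlam hCdC0 hPN) hGN hT' r hr hrN
  exact (hans σ lam (2 * lam) (C0 * lam ^ 3) r ωt (iA_par_mono hlam (le_max_left _ _) hPr) hGr).mpr hTr

theorem nr_slack {κ : ℝ} (hκ : 0 < κ) : ∃ C0 C1 : ℝ, 1 ≤ C0 ∧ 2 ≤ C1 ∧
    ∀ (σ h lam a A : ℝ) (N m I : ℕ) (ω0 ωt : ℤ × ℤ → ℝ), HP C1 h lam → κ ≤ σ → σ ≤ 1 - κ →
    C0 * lam ^ 3 ≤ N → 4 * N ≤ m → CrE κ lam m ωt → CrT lam m h ω0 ωt →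
    0 ≤ a → a + 1 ≤ A → A ≤ 4 * arc lam N → Thru σ a N ωt → (I : ℝ) ≤ arc lam N →
    NR σ A N 0 I (4 * sl h lam N) ω0 := by
  by_cases hκ1 : κ ≤ 1
  swap
  · refine ⟨1, 2, le_refl _, le_refl _, ?_⟩
    intro σ h lam a A N m I ω0 ωt _ h1 h2
    exfalso
    push Not at hκ1
    linarith
  obtain ⟨Cr, hCr1, hrec⟩ := rec_of_thru hκ
  set C0 : ℝ := max Cr ((1000 / κ) ^ 3) with hC0
  have hC01 : 1 ≤ C0 := hCr1.trans (le_max_left _ _)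
  obtain ⟨Cp, hCp, hpar⟩ := par_crude hκ hC01
  refine ⟨C0, Cp, hC01, hCp, ?_⟩
  intro σ h lam a A N m I ω0 ωt hHP h1 h2 hN hNm hCr hCT ha haA hA hT hI
  have hlam : 1 ≤ lam := by
    have := (hp_basic hCp hHP).1
    linarith
  have hlam0 : 0 ≤ lam := by linarith
  have hh : 0 ≤ h := hHP.1.le
  have hPN := hpar σ h lam N hHP h1 h2 hN
  have hPr := iA_par_mono hlam0 (le_max_left Cr ((1000 / κ) ^ 3)) hPN
  have hsz : (1000 / κ) ^ 3 * lam ^ 3 ≤ N :=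
    (mul_le_mul_of_nonneg_right (le_max_right Cr ((1000 / κ) ^ 3)) (by positivity)).trans hN
  unfold arc at hA hI
  have hA8 : A ≤ 8 * (lam * (N : ℝ) ^ (2 / 3 : ℝ)) := by
    have e : 4 * (2 * lam * (N : ℝ) ^ (2 / 3 : ℝ)) = 8 * (lam * (N : ℝ) ^ (2 / 3 : ℝ)) := by ring
    linarith
  have hA4 : A ≤ 4 * (2 * lam) * (N : ℝ) ^ (2 / 3 : ℝ) := by
    have e : 4 * (2 * lam * (N : ℝ) ^ (2 / 3 : ℝ)) = 4 * (2 * lam) * (N : ℝ) ^ (2 / 3 : ℝ) := by ring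
    linarith
  have hCTr : CrT lam m h (rotE ω0) (rotE ωt) := crT_rot.mpr hCT
  have key : ∀ i : ℤ, 0 ≤ i → (i : ℝ) ≤ 2 * (lam * (N : ℝ) ^ (2 / 3 : ℝ)) →
      |FLp σ A N ω0 i - FLp σ A N ωt i| ≤ 2 * sl h lam N ∧
      |FRp σ A N ω0 (-i) - FRp σ A N ωt (-i)| ≤ 2 * sl h lam N := by
    intro i hi hi'
    obtain ⟨b1, b2, b3, b4, b5, b6, b7, b8⟩ :=
      iA_pts hκ hκ1 hlam hsz h1 h2 hNm (by linarith : (1 : ℝ) ≤ A) hA8 hi hi'
    have t1 := iA_one hlam0 hh hCT b1 b3 b5 b7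
    have t2 := iA_one hlam0 hh hCTr b2 b4 b6 b8
    have t3 := iA_one hlam0 hh hCT b2 b4 b6 b8
    have t4 := iA_one hlam0 hh hCTr b1 b3 b5 b7
    rw [abs_le] at t1 t2 t3 t4
    unfold FLp FRp
    rw [neg_neg, abs_le, abs_le]
    refine ⟨⟨?_, ?_⟩, ⟨?_, ?_⟩⟩ <;> linarith [t1.1, t1.2, t2.1, t2.2, t3.1, t3.2, t4.1, t4.2]
  intro i hi1 hi2
  have hi0 : 0 ≤ i := by
    simp only [Nat.cast_zero] at hi1
    omega
  have hiI : (i : ℝ) ≤ 2 * lam * (N : ℝ) ^ (2 / 3 : ℝ) := by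
    have : (i : ℝ) ≤ (I : ℝ) := by exact_mod_cast hi2
    linarith
  have hiI' : (i : ℝ) ≤ 2 * (lam * (N : ℝ) ^ (2 / 3 : ℝ)) := by linarith
  have hz : ((0 : ℤ) : ℝ) ≤ 2 * (lam * (N : ℝ) ^ (2 / 3 : ℝ)) := by
    push_cast
    positivity
  obtain ⟨r1, r2⟩ := hrec σ lam (2 * lam) (C0 * lam ^ 3) N ωt a A hPr ha haA hA4 hT i hi0 hiI
  obtain ⟨k1, k2⟩ := key i hi0 hiI'
  obtain ⟨k3, k4⟩ := key 0 le_rfl hz
  rw [abs_le] at k1 k2 k3 k4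
  rw [neg_zero] at k4
  simp only [Nat.cast_zero, neg_zero]
  constructor
  · linarith [k1.1, k1.2, k3.1, k3.2]
  · linarith [k2.1, k2.2, k4.1, k4.2]

end BGE
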