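import Pool.Agent.BGE.ParJ
import Pool.Agent.BGE.GeoA
import Pool.Agent.BGE.GeoB
import Pool.Agent.BGE.GeoC
import Pool.Agent.BGE.InclA

/-!
BGE / M2b. Consequences of a hit at the time `t`: the middle block.


Everywhere `Y = 2 lam`, `g0 = C0 lam³` with `C0` larger than all the constants of `GeoA, GeoB, GeoC`
for this `κ`; `GoodE` at all scales `≤ N` is given by `good_crude` (`4 N ≤ m`), `Par` by `par_crude`.
`ω0, ωt` are the environments at the times `0` and `t`; `Thru σ a N ωt`, `a + 1 ≤ A ≤ 8 lam N^{2/3}`,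
`a ≤ 2 lam N^{2/3}`.

(`nr_slack`: see `InclA`.)
* `mid_incl`. Let `r' = rin`, `r'' = rou`, `K' = Kc r'`, `θ = th h j`, `b = θ √(2^j)`.
  (1) `thru_down` to `r''`, then as in `nr_slack` at the scale `r''`:
  `FLp_{r''} ω0 i - FLp_{r''} ω0 0 ≤ 4 sl r''` for `0 < i ≤ 2 lam r''^{2/3}`;
  (2) `|FLp_{r''} ω0 0 - FLp_{r''} ω0 K'| ≤ C0 (2 lam)² r'^{1/3} ≤ b` (`incr_boundF` with `n := r''`,
  `r := r'`; `K' ≤ (100/κ) 2 lam r'^{2/3}`; `r'^{2/3} ≤ θ² 2^j/lam^6`); the same for `FRp` and for the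
  scale `N`. (3) `4 sl r'' ≤ b`: `√(2 h r'') ≤ C h^{1/2} (lam^20 2^j θ^-4)^{3/4}
  = C lam^15 θ^2 √(2^j)` because `(h² 2^j)^{1/4} = θ^5`, and `θ lam^25 ≤ 1`; `4 lam ≤ b/8` since
  `θ² 2^j ≥ h^{-0.03}`. Hence near record from `K'` with slack `3 b`.
  (4) If `Wd` does not hold, then `FLp_{r''} ω0` and `FRp_{r''} ω0` have the same increments on
  `(K', K' + 2^(j+1)]`, so by `orderF` (`n := N`, `r := r''`) they are equal to the increments of
  `FLp_N ω0`, and `FLp_{r''} ω0 i - FLp_{r''} ω0 K' = FLp_N ω0 i - FLp_N ω0 K'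
   > FLp_N ω0 0 - FLp_N ω0 K' ≥ -b`; `i` is in the window of `Clo` because `K' ≤ 2^(j-1)`.
  (5) For `|i| ≥ K'` the profiles of the restricted environment coincide with the unrestricted ones
  (`FLp_res` with `n := r''`, `r := r'`).
-/

namespace BGE

private theorem im_par_mono {C0 C1 κ σ lam Y g0 : ℝ} {n : ℕ} (hl : 0 ≤ lam) (h : C1 ≤ C0)
    (hP : Par C0 κ σ lam Y g0 n) : Par C1 κ σ lam Y g0 n := by
  obtain ⟨h1, h2, h3, h4, h5, h6⟩ := hP
  exact ⟨h1, h2, h.trans h3, h4, (mul_le_mul_of_nonneg_right h (by positivity)).trans h5, h6⟩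

/-- the numerical facts -/
private structure ImNum (κ C0 h lam : ℝ) (j : ℕ) : Prop where
  j1 : 1 ≤ j
  g : C0 * lam ^ 3 ≤ rin h lam j
  gu : C0 * rin h lam j ≤ rou h lam j
  K2 : (Kc κ lam (rin h lam j) : ℝ) ≤ 2 ^ j / 2
  Kup : (Kc κ lam (rin h lam j) : ℝ) ≤ 100 / κ * (2 * lam) * (rin h lam j : ℝ) ^ (2 / 3 : ℝ)
  Klo : 96 / κ * (2 * lam) * (rin h lam j : ℝ) ^ (2 / 3 : ℝ) ≤ Kc κ lam (rin h lam j)
  b1 : C0 * (2 * lam) ^ 2 * (rin h lam j : ℝ) ^ (1 / 3 : ℝ) ≤ th h j * √(2 ^ j)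
  s1 : 4 * sl h lam (rou h lam j) ≤ 2 * (th h j * √(2 ^ j))
  w1 : 4 * 2 ^ j ≤ 2 * lam * (rou h lam j : ℝ) ^ (2 / 3 : ℝ) / 8

private theorem im_num {κ C0 h lam : ℝ} {j : ℕ} (hκ : 0 < κ) (hκ1 : κ ≤ 1) (hC0 : 1 ≤ C0)
    (h0 : 0 < h) (h1 : h < 1) (hl1 : 1000 / κ ≤ lam) (hl2 : 4 * C0 ≤ lam)
    (hl3 : lam ^ 1000 ≤ h⁻¹ ^ (1 / 1000 : ℝ)) (hθ : th h j * lam ^ 25 ≤ 1)
    (hj : 1 ≤ j) (hg : C0 * lam ^ 3 ≤ rin h lam j)
    (hr2 : (rin h lam j : ℝ) ^ (2 / 3 : ℝ) ≤ th h j ^ 2 * 2 ^ j / lam ^ 6)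
    (hb : h⁻¹ ^ (3 / 100 : ℝ) ≤ th h j ^ 2 * 2 ^ j)
    (hu1 : lam ^ 20 * 2 ^ j / th h j ^ 4 ≤ (rou h lam j : ℝ) ^ (2 / 3 : ℝ))
    (hu2 : (rou h lam j : ℝ) ^ (2 / 3 : ℝ) ≤ 2 * (lam ^ 20 * 2 ^ j / th h j ^ 4)) :
    ImNum κ C0 h lam j := by
  have hlam1000 : 1000 ≤ lam := by
    have : 1000 ≤ 1000 / κ := by
      rw [le_div_iff₀ hκ]
      linarith
    linarith
  have hlam0 : 0 < lam := by linarith
  have hlam1 : 1 ≤ lam := by linarith
  have hth0 : 0 < th h j := by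
    unfold th
    positivity
  have hth20 : th h j ^ 20 = h ^ 2 * 2 ^ j := by
    unfold th
    rw [← Real.rpow_natCast, ← Real.rpow_mul (by positivity)]
    norm_num
  set θ := th h j with hθdef
  set r' : ℝ := (rin h lam j : ℝ) with hr'
  set r'' : ℝ := (rou h lam j : ℝ) with hr''
  set s : ℝ := √(2 ^ j) with hs
  have hs0 : 0 < s := by
    rw [hs]
    positivity
  have hs2 : s ^ 2 = 2 ^ j := by
    rw [hs]
    exact Real.sq_sqrt (by positivity)
  have hθ1 : θ ≤ 1 := by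
    have : 1 ≤ lam ^ 25 := one_le_pow₀ hlam1
    nlinarith
  have hθ10 : θ ^ 10 = h * s := by
    have e : (θ ^ 10) ^ 2 = (h * s) ^ 2 := by
      rw [← pow_mul, mul_pow, hs2]
      norm_num
      exact hth20
    exact (pow_left_inj₀ (by positivity) (by positivity) (by norm_num)).1 e
  have hθ2 : θ ^ 2 * lam ^ 50 ≤ 1 := by
    have e : θ ^ 2 * lam ^ 50 = (θ * lam ^ 25) ^ 2 := by ring
    rw [e]
    exact pow_le_one₀ (by positivity) hθ
  rw [← hs2] at hr2 hb hu1 hu2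
  have hr'0 : 0 ≤ r' := by
    rw [hr']
    positivity
  have hr''0 : 0 ≤ r'' := by
    rw [hr'']
    positivity
  -- powers
  have hr'3 : (r' ^ (2 / 3 : ℝ)) ^ 3 = r' ^ 2 := by
    rw [← Real.rpow_natCast, ← Real.rpow_mul hr'0, ← Real.rpow_natCast]
    norm_num
  have hr''3 : (r'' ^ (2 / 3 : ℝ)) ^ 3 = r'' ^ 2 := by
    rw [← Real.rpow_natCast, ← Real.rpow_mul hr''0, ← Real.rpow_natCast]
    norm_num
  have hr13 : (r' ^ (1 / 3 : ℝ)) ^ 2 = r' ^ (2 / 3 : ℝ) := by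
    rw [← Real.rpow_natCast, ← Real.rpow_mul hr'0]
    norm_num
  have hbig : lam ^ 1000 ≤ θ ^ 2 * s ^ 2 := by
    refine hl3.trans (le_trans ?_ hb)
    refine Real.rpow_le_rpow_of_exponent_le ?_ (by norm_num)
    exact (one_le_inv₀ h0).2 h1.le
  have hs2big : lam ^ 1000 ≤ s ^ 2 := by
    have : θ ^ 2 ≤ 1 := pow_le_one₀ hth0.le hθ1
    have h3 : 0 ≤ s ^ 2 := by positivity
    nlinarith
  have hr'1 : 1 ≤ r' := by
    refine le_trans ?_ hg
    have : 1 ≤ lam ^ 3 := one_le_pow₀ hlam1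
    nlinarith
  have hr'23 : 1 ≤ r' ^ (2 / 3 : ℝ) := Real.one_le_rpow hr'1 (by norm_num)
  -- the middle scale
  have hgu : C0 * r' ≤ r'' := by
    refine le_of_pow_le_pow_left₀ (n := 2) (by norm_num) hr''0 ?_
    rw [mul_pow, ← hr'3, ← hr''3]
    have a1 : (r' ^ (2 / 3 : ℝ)) ^ 3 ≤ (θ ^ 2 * s ^ 2 / lam ^ 6) ^ 3 := by gcongr
    have a2 : (lam ^ 20 * s ^ 2 / θ ^ 4) ^ 3 ≤ (r'' ^ (2 / 3 : ℝ)) ^ 3 := by gcongr
    refine le_trans (mul_le_mul_of_nonneg_left a1 (by positivity)) (le_trans ?_ a2)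
    have b1 : (θ ^ 2 * s ^ 2 / lam ^ 6) ^ 3 ≤ (s ^ 2) ^ 3 := by
      gcongr
      rw [div_le_iff₀ (by positivity)]
      have : θ ^ 2 ≤ 1 := pow_le_one₀ hth0.le hθ1
      have h3 : 1 ≤ lam ^ 6 := one_le_pow₀ hlam1
      have h4 : 0 ≤ s ^ 2 := by positivity
      nlinarith
    have b2 : (lam ^ 20 * s ^ 2) ^ 3 ≤ (lam ^ 20 * s ^ 2 / θ ^ 4) ^ 3 := by
      gcongr
      rw [le_div_iff₀ (by positivity)]
      have : θ ^ 4 ≤ 1 := pow_le_one₀ hth0.le hθ1
      have h4 : 0 ≤ lam ^ 20 * s ^ 2 := by positivity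
      nlinarith
    refine le_trans (mul_le_mul_of_nonneg_left b1 (by positivity)) (le_trans ?_ b2)
    rw [mul_pow (lam ^ 20)]
    have b3 : C0 ^ 2 ≤ (lam ^ 20) ^ 3 := by
      calc C0 ^ 2 ≤ lam ^ 2 := by
            gcongr
            linarith
        _ ≤ lam ^ 60 := pow_le_pow_right₀ hlam1 (by norm_num)
        _ = (lam ^ 20) ^ 3 := by ring
    gcongr
  have hKlo : 96 / κ * (2 * lam) * r' ^ (2 / 3 : ℝ) ≤ Kc κ lam (rin h lam j) := Nat.le_ceil _
  have hKhi : (Kc κ lam (rin h lam j) : ℝ) ≤ 96 / κ * (2 * lam) * r' ^ (2 / 3 : ℝ) + 1 :=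
    (Nat.ceil_lt_add_one (by positivity)).le
  have hb1 : C0 * (2 * lam) ^ 2 * r' ^ (1 / 3 : ℝ) ≤ θ * s := by
    have a1 : r' ^ (1 / 3 : ℝ) ≤ θ * s / lam ^ 3 := by
      refine le_of_pow_le_pow_left₀ (n := 2) (by norm_num) (by positivity) ?_
      rw [hr13]
      refine hr2.trans (le_of_eq ?_)
      ring
    calc C0 * (2 * lam) ^ 2 * r' ^ (1 / 3 : ℝ) ≤ C0 * (2 * lam) ^ 2 * (θ * s / lam ^ 3) := by
          gcongr
      _ = θ * s * (4 * C0 / lam) := by
          field_simp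
          ring
      _ ≤ θ * s * 1 := by
          gcongr
          rw [div_le_one hlam0]
          exact hl2
      _ = θ * s := mul_one _
  have hs1 : 4 * sl h lam (rou h lam j) ≤ 2 * (θ * s) := by
    have hr''up : r'' ≤ 3 * (lam ^ 30 * s ^ 3 / θ ^ 6) := by
      refine le_of_pow_le_pow_left₀ (n := 2) (by norm_num) (by positivity) ?_
      rw [← hr''3]
      calc (r'' ^ (2 / 3 : ℝ)) ^ 3 ≤ (2 * (lam ^ 20 * s ^ 2 / θ ^ 4)) ^ 3 := by gcongr
        _ = 8 * (lam ^ 60 * s ^ 6 / θ ^ 12) := by ring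
        _ ≤ 9 * (lam ^ 60 * s ^ 6 / θ ^ 12) := by
            have : 0 ≤ lam ^ 60 * s ^ 6 / θ ^ 12 := by positivity
            linarith
        _ = (3 * (lam ^ 30 * s ^ 3 / θ ^ 6)) ^ 2 := by ring
    have hm : 2 * h * r'' ≤ (θ * s / (4 * lam)) ^ 2 := by
      calc 2 * h * r'' ≤ 2 * h * (3 * (lam ^ 30 * s ^ 3 / θ ^ 6)) := by gcongr
        _ = 6 * (h * s) * lam ^ 30 * s ^ 2 / θ ^ 6 := by ring
        _ = 6 * θ ^ 4 * lam ^ 30 * s ^ 2 := by
            rw [← hθ10]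
            field_simp
        _ = (θ * s / (4 * lam)) ^ 2 * (96 * (θ ^ 2 * lam ^ 32)) := by
            field_simp
            ring
        _ ≤ (θ * s / (4 * lam)) ^ 2 * 1 := by
            gcongr
            have e : θ ^ 2 * lam ^ 50 = (θ ^ 2 * lam ^ 32) * lam ^ 18 := by ring
            have h3 : lam ≤ lam ^ 18 := le_self_pow₀ hlam1 (by norm_num)
            have h4 : 0 ≤ θ ^ 2 * lam ^ 32 := by positivity
            have h5 : (θ ^ 2 * lam ^ 32) * 96 ≤ (θ ^ 2 * lam ^ 32) * lam ^ 18 := by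
              apply mul_le_mul_of_nonneg_left _ h4
              linarith
            linarith
        _ = (θ * s / (4 * lam)) ^ 2 := mul_one _
    have hsq : √(2 * h * r'') ≤ θ * s / (4 * lam) := Real.sqrt_le_iff.2 ⟨by positivity, hm⟩
    have hl4 : 4 * lam ≤ θ * s := by
      refine le_of_pow_le_pow_left₀ (n := 2) (by norm_num) (by positivity) ?_
      rw [mul_pow θ]
      refine le_trans ?_ hbig
      calc (4 * lam) ^ 2 = 16 * lam ^ 2 := by ring
        _ ≤ lam * lam ^ 2 := by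
            gcongr
            linarith
        _ = lam ^ 3 := by ring
        _ ≤ lam ^ 1000 := pow_le_pow_right₀ hlam1 (by norm_num)
    unfold sl
    have e : 4 * (lam * (√(2 * h * (rou h lam j : ℝ)) + 1)) =
        4 * lam * √(2 * h * r'') + 4 * lam := by
      rw [hr'']
      ring
    rw [e]
    have h5 : 4 * lam * √(2 * h * r'') ≤ θ * s := by
      calc 4 * lam * √(2 * h * r'') ≤ 4 * lam * (θ * s / (4 * lam)) := by gcongr
        _ = θ * s := by field_simp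
    linarith
  refine ⟨hj, hg, hgu, ?_, ?_, hKlo, hb1, hs1, ?_⟩
  · -- `K ≤ 2^j/2`
    rw [← hs2]
    have a1 : 96 / κ * (2 * lam) * r' ^ (2 / 3 : ℝ) ≤ s ^ 2 / 4 := by
      calc 96 / κ * (2 * lam) * r' ^ (2 / 3 : ℝ) ≤ 96 / κ * (2 * lam) * (θ ^ 2 * s ^ 2 / lam ^ 6) := by
            gcongr
        _ ≤ 96 / κ * (2 * lam) * (1 * s ^ 2 / lam ^ 2) := by
            gcongr
            · exact pow_le_one₀ hth0.le hθ1
            · norm_num
        _ = s ^ 2 * (192 / κ / lam) := by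
            field_simp
            ring
        _ ≤ s ^ 2 * (1 / 4) := by
            refine mul_le_mul_of_nonneg_left ?_ (by positivity)
            rw [div_le_iff₀ hlam0]
            have : 1000 / κ = 192 / κ * (1000 / 192) := by
              field_simp
            have h3 : 0 < 192 / κ := by positivity
            nlinarith
        _ = s ^ 2 / 4 := by ring
    have a2 : 1 ≤ s ^ 2 / 4 := by
      have : lam ≤ lam ^ 1000 := le_self_pow₀ hlam1 (by norm_num)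
      linarith
    linarith
  · refine hKhi.trans ?_
    have e : 100 / κ * (2 * lam) * r' ^ (2 / 3 : ℝ) =
        96 / κ * (2 * lam) * r' ^ (2 / 3 : ℝ) + 4 / κ * (2 * lam) * r' ^ (2 / 3 : ℝ) := by ring
    rw [e]
    have h3 : 1 ≤ 4 / κ := by
      rw [le_div_iff₀ hκ]
      linarith
    have h4 : 1 ≤ 2 * lam := by linarith
    have h5 : 1 ≤ 4 / κ * (2 * lam) := by nlinarith
    have h6 : 1 ≤ 4 / κ * (2 * lam) * r' ^ (2 / 3 : ℝ) := by nlinarith
    linarith
  · rw [← hs2]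
    have a1 : lam ^ 20 * s ^ 2 ≤ r'' ^ (2 / 3 : ℝ) := by
      refine le_trans ?_ hu1
      rw [le_div_iff₀ (by positivity)]
      have : θ ^ 4 ≤ 1 := pow_le_one₀ hth0.le hθ1
      have h4 : 0 ≤ lam ^ 20 * s ^ 2 := by positivity
      nlinarith
    have a2 : s ^ 2 ≤ r'' ^ (2 / 3 : ℝ) := by
      refine le_trans ?_ a1
      have : 1 ≤ lam ^ 20 := one_le_pow₀ hlam1
      have h4 : 0 ≤ s ^ 2 := by positivity
      nlinarith
    have h5 : 0 ≤ s ^ 2 := by positivity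
    nlinarith

theorem mid_incl {κ : ℝ} (hκ : 0 < κ) : ∃ C1 : ℝ, 2 ≤ C1 ∧
    ∀ (σ h lam a A : ℝ) (N m j : ℕ) (ω0 ωt : ℤ × ℤ → ℝ), HP C1 h lam → κ ≤ σ → σ ≤ 1 - κ →
    jL h ≤ j → 8 * rou h lam j ≤ N → th h j * lam ^ 25 ≤ 1 → 4 * N ≤ m →
    CrE κ lam m ω0 → CrE κ lam m ωt → CrT lam m h ω0 ωt →
    0 ≤ a → a ≤ arc lam N → a + 1 ≤ A → A ≤ 4 * arc lam N → Thru σ a N ωt →
    ∀ i : ℤ, 2 ^ j < i → i ≤ 2 ^ (j + 1) → FLp σ A N ω0 0 < FLp σ A N ω0 i →
    ω0 ∈ MidS κ σ lam h j := by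
  obtain ⟨Cd, hCd, Hd⟩ := thru_down hκ
  obtain ⟨Cr, hCr, Hr⟩ := FLp_res hκ
  obtain ⟨Co, hCo, Ho⟩ := orderF hκ
  obtain ⟨Cb, hCb, Hb⟩ := incr_boundF hκ
  obtain ⟨Cs, Cs1, hCs, hCs1, Hs⟩ := nr_slack hκ
  obtain ⟨Cg, hCg, Hg⟩ := good_crude hκ
  obtain ⟨C0, hC0⟩ : ∃ C0, C0 = Cd + Cr + Co + Cb + Cs + Cg + 8 := ⟨_, rfl⟩
  have hC01 : 1 ≤ C0 := by linarith
  obtain ⟨Cp, hCp, Hp⟩ := par_crude hκ hC01
  obtain ⟨Ci, hCi, Hi⟩ := rin_bounds C0
  obtain ⟨Cu, hCu, Hu⟩ := rou_bounds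
  have h1000 : 0 < 1000 / κ := by positivity
  refine ⟨Cs1 + Cg + Cp + Ci + Cu + 1000 / κ + 4 * C0, by linarith, ?_⟩
  intro σ h lam a A N m j ω0 ωt hp s1 s2 hj hN hθ hm hE0 hEt hCrT ha0 ha hA1 hA2 hT i hi1 hi2 hlt
  obtain ⟨hlC, -, -⟩ := hp_basic (by linarith) hp
  have hκ1 : κ ≤ 1 := by linarith
  have hlam0 : 0 ≤ lam := by linarith
  have hlam1 : 1 ≤ lam := by linarith
  obtain ⟨hj1, hg1, -, hr2, hb⟩ := Hi h lam j (hp.mono (by linarith)) hj
  obtain ⟨hu1, hu2⟩ := Hu h lam j (hp.mono (by linarith))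
  have hnum : ImNum κ C0 h lam j := im_num hκ hκ1 hC01 hp.1 hp.2.1 (by linarith) (by linarith)
    hp.2.2.2.2 hθ hj1 hg1 hr2 hb hu1 hu2
  obtain ⟨-, hg, hgu, hK2, hKup, hKlo, hb1, hs1, hw1⟩ := hnum
  -- sizes of the scales
  have hr0 : (0 : ℝ) ≤ rin h lam j := Nat.cast_nonneg _
  have hgr'' : C0 * lam ^ 3 ≤ rou h lam j := by
    refine hg.trans (le_trans ?_ hgu)
    nlinarith
  have hNr : (rou h lam j : ℝ) ≤ N := by
    have : rou h lam j ≤ N := by omega
    exact_mod_cast this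
  have h8r : 8 * rin h lam j ≤ rou h lam j := by
    have : 8 * (rin h lam j : ℝ) ≤ rou h lam j := by
      refine le_trans ?_ hgu
      have : 8 ≤ C0 := by linarith
      nlinarith
    exact_mod_cast this
  have hgN : C0 * lam ^ 3 ≤ N := hgr''.trans hNr
  have hlam3 : 0 ≤ lam ^ 3 := by positivity
  -- standing assumptions
  have PN : Par C0 κ σ lam (2 * lam) (C0 * lam ^ 3) N :=
    Hp σ h lam N (hp.mono (by linarith)) s1 s2 hgN
  have Pu : Par C0 κ σ lam (2 * lam) (C0 * lam ^ 3) (rou h lam j) :=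
    Hp σ h lam (rou h lam j) (hp.mono (by linarith)) s1 s2 hgr''
  have GN0 : GoodE κ σ lam (2 * lam) (C0 * lam ^ 3) N ω0 :=
    Hg C0 σ h lam N m ω0 (by linarith) (hp.mono (by linarith)) s1 s2 hgN hm hE0
  have GNt : GoodE κ σ lam (2 * lam) (C0 * lam ^ 3) N ωt :=
    Hg C0 σ h lam N m ωt (by linarith) (hp.mono (by linarith)) s1 s2 hgN hm hEt
  have Gu0 : GoodE κ σ lam (2 * lam) (C0 * lam ^ 3) (rou h lam j) ω0 :=
    Hg C0 σ h lam (rou h lam j) m ω0 (by linarith) (hp.mono (by linarith)) s1 s2 hgr''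
      (by omega) hE0
  -- the hit at the scale of the middle block
  have hTu : Thru σ (arc lam (rou h lam j)) (rou h lam j) ωt :=
    Hd σ lam (2 * lam) (C0 * lam ^ 3) N ωt (im_par_mono hlam0 (by linarith) PN) GNt
      (thru_mono hT ha) (rou h lam j) hgr'' (by omega)
  have hr''1 : (1 : ℝ) ≤ rou h lam j := by
    refine le_trans ?_ hgr''
    have : 1 ≤ lam ^ 3 := one_le_pow₀ hlam1
    nlinarith
  have hX1 : (1 : ℝ) ≤ (rou h lam j : ℝ) ^ (2 / 3 : ℝ) := Real.one_le_rpow hr''1 (by norm_num)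
  have harc1 : 1 ≤ arc lam (rou h lam j) := by
    unfold arc
    nlinarith
  have hIc : (Ic lam (rou h lam j) : ℝ) ≤ (rou h lam j : ℝ) ^ (2 / 3 : ℝ) / lam ^ 3 :=
    Nat.floor_le (by positivity)
  have hlamb : 1000 ≤ lam := by
    have : 1000 ≤ 1000 / κ := by
      rw [le_div_iff₀ hκ]
      linarith
    linarith
  have hIc2 : (Ic lam (rou h lam j) : ℝ) ≤ 2 * lam * (rou h lam j : ℝ) ^ (2 / 3 : ℝ) / 8 := by
    have h3 : 1 ≤ lam ^ 3 := one_le_pow₀ hlam1
    have h4 : (rou h lam j : ℝ) ^ (2 / 3 : ℝ) / lam ^ 3 ≤ (rou h lam j : ℝ) ^ (2 / 3 : ℝ) :=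
      div_le_self (by positivity) h3
    nlinarith
  have hNR := Hs σ h lam (arc lam (rou h lam j)) (4 * arc lam (rou h lam j)) (rou h lam j) m
    (Ic lam (rou h lam j)) ω0 ωt (hp.mono (by linarith)) s1 s2 (by
      refine le_trans ?_ hgr''
      have : Cs ≤ C0 := by linarith
      nlinarith) (by omega) hEt hCrT (by linarith) (by linarith) le_rfl hTu (by
      refine hIc2.trans ?_
      unfold arc
      have : 0 ≤ 2 * lam * (rou h lam j : ℝ) ^ (2 / 3 : ℝ) := by positivity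
      linarith)
  -- abbreviations
  set r' := rin h lam j with hr'
  set r'' := rou h lam j with hr''
  set K := Kc κ lam r' with hK
  set b := th h j * √(2 ^ j) with hbdef
  set R : Set (ℤ × ℤ) := RR σ lam r'' \ RR σ lam r' with hR
  have hA'' : 4 * (2 * lam) * (r'' : ℝ) ^ (2 / 3 : ℝ) = 4 * arc lam r'' := by
    unfold arc
    ring
  have hcbY : ∀ C : ℝ, C ≤ C0 → C * (2 * lam) ^ 2 * (r' : ℝ) ^ (1 / 3 : ℝ) ≤ b := by
    intro C hC
    refine le_trans ?_ hb1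
    gcongr
  -- restricted profiles
  have E : ∀ i : ℤ, (K : ℝ) ≤ |(i : ℝ)| →
      |(i : ℝ)| ≤ 2 * lam * (r'' : ℝ) ^ (2 / 3 : ℝ) / 8 →
      FLp σ (4 * arc lam r'') r'' (res R ω0) i = FLp σ (4 * arc lam r'') r'' ω0 i ∧
        FRp σ (4 * arc lam r'') r'' (res R ω0) i = FRp σ (4 * arc lam r'') r'' ω0 i := by
    intro i h3 h4
    exact Hr σ lam (2 * lam) (C0 * lam ^ 3) (4 * arc lam r'') r'' ω0
      (im_par_mono hlam0 (by linarith) Pu) Gu0 (by linarith) hA''.ge r' hg h8r R (by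
        rw [hR]
        rfl) i h4 (hKlo.trans h3)
  -- the boundary increments at the scale of the middle block
  have hCbr : Cb * (r' : ℝ) ≤ r'' := by
    refine le_trans ?_ hgu
    have : Cb ≤ C0 := by linarith
    nlinarith
  have B1 := Hb σ lam (2 * lam) (C0 * lam ^ 3) (4 * arc lam r'') r'' ω0
    (im_par_mono hlam0 (by linarith) Pu) Gu0 (by linarith) hA''.ge r' hg hCbr 0 K (by
      simp only [Int.cast_zero, abs_zero]
      positivity) (by
      rw [Int.cast_natCast, abs_of_nonneg (by positivity)]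
      exact hKup)
  have B2 := Hb σ lam (2 * lam) (C0 * lam ^ 3) (4 * arc lam r'') r'' ω0
    (im_par_mono hlam0 (by linarith) Pu) Gu0 (by linarith) hA''.ge r' hg hCbr 0 (-(K : ℤ)) (by
      simp only [Int.cast_zero, abs_zero]
      positivity) (by
      rw [Int.cast_neg, abs_neg, Int.cast_natCast, abs_of_nonneg (by positivity)]
      exact hKup)
  have B3 := Hb σ lam (2 * lam) (C0 * lam ^ 3) A N ω0
    (im_par_mono hlam0 (by linarith) PN) GN0 (by linarith) (by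
      refine hA2.trans (le_of_eq ?_)
      unfold arc
      ring) r' hg (hCbr.trans hNr) 0 K (by
      simp only [Int.cast_zero, abs_zero]
      positivity) (by
      rw [Int.cast_natCast, abs_of_nonneg (by positivity)]
      exact hKup)
  have hCb0 := hcbY Cb (by linarith)
  have hKwin : (K : ℝ) ≤ 2 * lam * (r'' : ℝ) ^ (2 / 3 : ℝ) / 8 := by
    refine hK2.trans (le_trans ?_ hw1)
    have : (0 : ℝ) < 2 ^ j := by positivity
    linarith
  have hKabs : (K : ℝ) ≤ |((K : ℤ) : ℝ)| ∧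
      |((K : ℤ) : ℝ)| ≤ 2 * lam * (r'' : ℝ) ^ (2 / 3 : ℝ) / 8 := by
    rw [Int.cast_natCast, abs_of_nonneg (by positivity)]
    exact ⟨le_rfl, hKwin⟩
  have hKabs' : (K : ℝ) ≤ |((-(K : ℤ) : ℤ) : ℝ)| ∧
      |((-(K : ℤ) : ℤ) : ℝ)| ≤ 2 * lam * (r'' : ℝ) ^ (2 / 3 : ℝ) / 8 := by
    rw [Int.cast_neg, abs_neg, Int.cast_natCast, abs_of_nonneg (by positivity)]
    exact ⟨le_rfl, hKwin⟩
  have EK := E K hKabs.1 hKabs.2
  have EK' := E (-(K : ℤ)) hKabs'.1 hKabs'.2
  refine ⟨?_, ?_⟩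
  · -- near record
    intro i' hi1' hi2'
    have hi0 : (0 : ℤ) < i' := by
      have : (0 : ℤ) ≤ K := Int.natCast_nonneg _
      omega
    have hiR : (0 : ℝ) < (i' : ℝ) := by exact_mod_cast hi0
    have hKi : (K : ℝ) ≤ (i' : ℝ) := by
      have : (K : ℤ) ≤ i' := hi1'.le
      exact_mod_cast this
    have hiI : (i' : ℝ) ≤ 2 * lam * (r'' : ℝ) ^ (2 / 3 : ℝ) / 8 := by
      refine le_trans ?_ hIc2
      have h3 : ((i' : ℤ) : ℝ) ≤ ((Ic lam r'' : ℤ) : ℝ) := by exact_mod_cast hi2'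
      simpa using h3
    have Ei := E i' (by rw [abs_of_pos hiR]; exact hKi) (by rw [abs_of_pos hiR]; exact hiI)
    have Ei' := E (-i') (by rw [Int.cast_neg, abs_neg, abs_of_pos hiR]; exact hKi)
      (by rw [Int.cast_neg, abs_neg, abs_of_pos hiR]; exact hiI)
    obtain ⟨n1, n2⟩ := hNR i' (by simpa using hi0) hi2'
    simp only [Nat.cast_zero, neg_zero] at n1 n2
    rw [Ei.1, EK.1, Ei'.2, EK'.2]
    have c1 := (abs_le.1 (B1.1.trans hCb0)).2
    have c2 := (abs_le.1 (B2.2.trans hCb0)).2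
    have e3 : 3 * th h j * √(2 ^ j) = 3 * b := by
      rw [hbdef]
      ring
    rw [e3]
    constructor
    · linarith
    · linarith
  · -- close point or a difference of the profiles
    by_cases hW : Wd σ (4 * arc lam r'') r'' K (4 * 2 ^ (j - 1)) (res R ω0)
    · exact Or.inr hW
    · left
      have hpow : 4 * 2 ^ (j - 1) = 2 ^ (j + 1) := by
        obtain ⟨k, rfl⟩ : ∃ k, j = k + 1 := ⟨j - 1, by omega⟩
        simp only [Nat.add_sub_cancel]
        ring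
      have hpow2 : 2 * 2 ^ (j - 1) = 2 ^ j := by
        obtain ⟨k, rfl⟩ : ∃ k, j = k + 1 := ⟨j - 1, by omega⟩
        simp only [Nat.add_sub_cancel]
        ring
      have hK3 : K ≤ 2 ^ (j - 1) := by
        have h3 : (2 : ℝ) * 2 ^ (j - 1) = 2 ^ j := by exact_mod_cast hpow2
        have h4 : (K : ℝ) ≤ 2 ^ (j - 1) := by linarith
        exact_mod_cast h4
      -- telescoping
      have tele : ∀ k : ℕ, k ≤ 4 * 2 ^ (j - 1) →
          FLp σ A N ω0 ((K + k : ℕ) : ℤ) - FLp σ A N ω0 K ≤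
            FLp σ (4 * arc lam r'') r'' ω0 ((K + k : ℕ) : ℤ) -
              FLp σ (4 * arc lam r'') r'' ω0 K := by
        intro k
        induction k with
        | zero =>
          intro _
          simp
        | succ k ih =>
          intro hk
          have ih' := ih (by omega)
          have hcast : ((K + (k + 1) : ℕ) : ℤ) - 1 = ((K + k : ℕ) : ℤ) := by
            push_cast
            ring
          -- the two sites are in the window
          have hwin : ((K + (k + 1) : ℕ) : ℝ) ≤ 2 * lam * (r'' : ℝ) ^ (2 / 3 : ℝ) / 8 := by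
            refine le_trans ?_ hw1
            have h3 : K + (k + 1) ≤ 2 ^ (j - 1) + 4 * 2 ^ (j - 1) := by omega
            have h4 : K + (k + 1) ≤ 4 * 2 ^ j := by
              have : 0 < 2 ^ (j - 1) := Nat.two_pow_pos _
              omega
            exact_mod_cast h4
          have hwin0 : ((K + k : ℕ) : ℝ) ≤ 2 * lam * (r'' : ℝ) ^ (2 / 3 : ℝ) / 8 := by
            refine le_trans ?_ hwin
            push_cast
            linarith
          have g1 : |((((K + (k + 1) : ℕ) : ℤ)) : ℝ)| = ((K + (k + 1) : ℕ) : ℝ) := by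
            rw [Int.cast_natCast, abs_of_nonneg (by positivity)]
          have g0 : |((((K + k : ℕ) : ℤ)) : ℝ)| = ((K + k : ℕ) : ℝ) := by
            rw [Int.cast_natCast, abs_of_nonneg (by positivity)]
          have E1 := E ((K + (k + 1) : ℕ) : ℤ) (by
            rw [g1]
            push_cast
            have : (0 : ℝ) ≤ k := Nat.cast_nonneg _
            linarith) (by rw [g1]; exact hwin)
          have E0 := E ((K + k : ℕ) : ℤ) (by
            rw [g0]
            push_cast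
            have : (0 : ℝ) ≤ k := Nat.cast_nonneg _
            linarith) (by rw [g0]; exact hwin0)
          have hnW : FRp σ (4 * arc lam r'') r'' (res R ω0) ((K + (k + 1) : ℕ) : ℤ) -
              FRp σ (4 * arc lam r'') r'' (res R ω0) ((K + k : ℕ) : ℤ) ≤
              FLp σ (4 * arc lam r'') r'' (res R ω0) ((K + (k + 1) : ℕ) : ℤ) -
              FLp σ (4 * arc lam r'') r'' (res R ω0) ((K + k : ℕ) : ℤ) := by
            by_contra hcon
            push Not at hcon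
            refine hW ⟨((K + (k + 1) : ℕ) : ℤ), by push_cast; omega, ?_, ?_⟩
            · exact_mod_cast (by omega : K + (k + 1) ≤ K + 4 * 2 ^ (j - 1))
            · rw [hcast]
              exact hcon
          rw [E1.1, E1.2, E0.1, E0.2] at hnW
          have ho := Ho σ lam (2 * lam) (C0 * lam ^ 3) A N ω0
            (im_par_mono hlam0 (by linarith) PN) GN0 (by linarith) (by
              refine hA2.trans (le_of_eq ?_)
              unfold arc
              ring) r'' hgr'' hN ((K + k : ℕ) : ℤ) ((K + (k + 1) : ℕ) : ℤ) (by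
              rw [Int.cast_natCast]
              have h3 : (0 : ℝ) ≤ ((K + k : ℕ) : ℝ) := Nat.cast_nonneg _
              have h4 : 0 ≤ 2 * lam * (r'' : ℝ) ^ (2 / 3 : ℝ) / 8 := by positivity
              linarith) (by push_cast; omega) (by
              rw [Int.cast_natCast]
              exact hwin)
          rw [hA''] at ho
          linarith [ho.2.1, ho.2.2]
      -- the point `i`
      have hiK : (K : ℤ) ≤ i := by
        have h3 : ((K : ℕ) : ℤ) ≤ ((2 ^ (j - 1) : ℕ) : ℤ) := by exact_mod_cast hK3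
        have h4 : ((2 * 2 ^ (j - 1) : ℕ) : ℤ) = 2 ^ j := by exact_mod_cast hpow2
        push_cast at h3 h4
        have h5 : (0 : ℤ) < 2 ^ (j - 1) := by positivity
        linarith
      obtain ⟨k, hk⟩ : ∃ k : ℕ, i = ((K + k : ℕ) : ℤ) := by
        refine ⟨(i - K).toNat, ?_⟩
        push_cast
        rw [Int.toNat_of_nonneg (by omega)]
        ring
      have hk4 : k ≤ 4 * 2 ^ (j - 1) := by
        have h4 : ((4 * 2 ^ (j - 1) : ℕ) : ℤ) = 2 ^ (j + 1) := by exact_mod_cast hpow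
        have h5 : ((K + k : ℕ) : ℤ) ≤ ((4 * 2 ^ (j - 1) : ℕ) : ℤ) := by
          rw [h4, ← hk]
          exact hi2
        have h6 : K + k ≤ 4 * 2 ^ (j - 1) := by exact_mod_cast h5
        omega
      have ht := tele k hk4
      rw [← hk] at ht
      refine ⟨i, ?_, ?_, ?_⟩
      · have h3 : ((K : ℕ) : ℤ) ≤ ((2 ^ (j - 1) : ℕ) : ℤ) := by exact_mod_cast hK3
        have h4 : ((2 * 2 ^ (j - 1) : ℕ) : ℤ) = 2 ^ j := by exact_mod_cast hpow2
        push_cast at h3 h4 ⊢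
        linarith
      · rw [hk]
        exact_mod_cast (by omega : K + k ≤ K + 4 * 2 ^ (j - 1))
      · have hiwin : |(i : ℝ)| ≤ 2 * lam * (r'' : ℝ) ^ (2 / 3 : ℝ) / 8 := by
          rw [hk, Int.cast_natCast, abs_of_nonneg (by positivity)]
          refine le_trans ?_ hw1
          have h4 : K + k ≤ 4 * 2 ^ j := by
            have : 0 < 2 ^ (j - 1) := Nat.two_pow_pos _
            omega
          exact_mod_cast h4
        have hiKR : (K : ℝ) ≤ |(i : ℝ)| := by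
          rw [hk, Int.cast_natCast, abs_of_nonneg (by positivity)]
          push_cast
          have : (0 : ℝ) ≤ k := Nat.cast_nonneg _
          linarith
        have Ei := E i hiKR hiwin
        rw [Ei.1, EK.1]
        have c3 := (abs_le.1 (B3.1.trans hCb0)).1
        linarith

end BGE
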