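import Pool.Agent.BGE.ParJ
import Pool.Agent.BGE.GeoA
import Pool.Agent.BGE.GeoB
import Pool.Agent.BGE.GeoC
import Pool.Agent.BGE.InclA

/-!
BGE / M2c. Consequences of a hit at the time `t`: the outer block.


Everywhere `Y = 2 lam`, `g0 = C0 lam³` with `C0` larger than all the constants of `GeoA, GeoB, GeoC`
for this `κ`; `GoodE` at all scales `≤ N` is given by `good_crude` (`4 N ≤ m`), `Par` by `par_crude`.
`ω0, ωt` are the environments at the times `0` and `t`; `Thru σ a N ωt`, `a + 1 ≤ A ≤ 8 lam N^{2/3}`,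
`a ≤ 2 lam N^{2/3}`.

(`nr_slack`: see `InclA`.)
* `out_incl`. `K'' = Kc r`. `FLp_n ω0 i - FLp_n ω0 0 ≤ FLp_N ω0 i - FLp_N ω0 0 ≤ 0` for
  `k1 < i ≤ N0` by `orderF` (`n := N`, `r := n`), the same for `FRp` with `-i`; `incr_boundF`
  (`n := n`, `r := r`): `FLp_n ω0 0 - FLp_n ω0 K'' ≤ C0 (2 lam)² r^{1/3} ≤ lam³ r^{1/3}`; on
  `(K'', Ic n]` use the slack `4 sl n` (`thru_down` to `n`, as in `nr_slack`). Then `FLp_res`.
-/

namespace BGE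

private theorem iO_par_mono {C0 C1 κ σ lam Y g0 : ℝ} {n : ℕ} (hl : 0 ≤ lam) (h : C1 ≤ C0)
    (hP : Par C0 κ σ lam Y g0 n) : Par C1 κ σ lam Y g0 n := by
  obtain ⟨h1, h2, h3, h4, h5, h6⟩ := hP
  exact ⟨h1, h2, h.trans h3, h4, (mul_le_mul_of_nonneg_right h (by positivity)).trans h5, h6⟩

/-- sizes -/
private theorem iO_size {κ lam : ℝ} {n r N0 : ℕ} (hκ : 0 < κ) (hκ1 : κ ≤ 1) (hl : 8 ≤ lam)
    (hl2 : 800 / κ ≤ lam) (hr1 : (1 : ℝ) ≤ r) (hrn : lam ^ 12 * r ≤ n)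
    (hN0 : (N0 : ℝ) ≤ (n : ℝ) ^ (2 / 3 : ℝ) / lam ^ 4) :
    96 / κ * (2 * lam) * (r : ℝ) ^ (2 / 3 : ℝ) ≤ (Kc κ lam r : ℝ) ∧
    (Kc κ lam r : ℝ) ≤ 100 / κ * (2 * lam) * (r : ℝ) ^ (2 / 3 : ℝ) ∧
    (Kc κ lam r : ℝ) ≤ 2 * lam * (n : ℝ) ^ (2 / 3 : ℝ) / 8 ∧
    (N0 : ℝ) ≤ 2 * lam * (n : ℝ) ^ (2 / 3 : ℝ) / 8 ∧
    (Ic lam n : ℝ) ≤ 2 * lam * (n : ℝ) ^ (2 / 3 : ℝ) / 8 := by
  have hl0 : 0 < lam := by linarith
  have hr0 : (0 : ℝ) ≤ r := by linarith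
  have hn0 : (0 : ℝ) ≤ n := Nat.cast_nonneg n
  have hr23 : 1 ≤ (r : ℝ) ^ (2 / 3 : ℝ) := Real.one_le_rpow hr1 (by norm_num)
  have hn23 : 0 ≤ (n : ℝ) ^ (2 / 3 : ℝ) := Real.rpow_nonneg hn0 _
  have a1 : 96 / κ * (2 * lam) * (r : ℝ) ^ (2 / 3 : ℝ) ≤ (Kc κ lam r : ℝ) := Nat.le_ceil _
  have hpos : 0 ≤ 96 / κ * (2 * lam) * (r : ℝ) ^ (2 / 3 : ℝ) := by positivity
  have a2 : (Kc κ lam r : ℝ) < 96 / κ * (2 * lam) * (r : ℝ) ^ (2 / 3 : ℝ) + 1 := Nat.ceil_lt_add_one hpos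
  have hone : 1 ≤ 4 / κ * (2 * lam) * (r : ℝ) ^ (2 / 3 : ℝ) := by
    have h1 : 1 ≤ 4 / κ := by
      rw [le_div_iff₀ hκ]
      linarith
    have h2 : 1 ≤ 2 * lam := by linarith
    have h3 : 1 ≤ 4 / κ * (2 * lam) := by nlinarith
    nlinarith
  have a3 : (Kc κ lam r : ℝ) ≤ 100 / κ * (2 * lam) * (r : ℝ) ^ (2 / 3 : ℝ) := by
    have e : 100 / κ * (2 * lam) * (r : ℝ) ^ (2 / 3 : ℝ) =
        96 / κ * (2 * lam) * (r : ℝ) ^ (2 / 3 : ℝ) + 4 / κ * (2 * lam) * (r : ℝ) ^ (2 / 3 : ℝ) := by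
      ring
    linarith
  have hrn2 : lam ^ 8 * (r : ℝ) ^ (2 / 3 : ℝ) ≤ (n : ℝ) ^ (2 / 3 : ℝ) := by
    have h1 : (lam ^ 12 * r) ^ (2 / 3 : ℝ) ≤ (n : ℝ) ^ (2 / 3 : ℝ) :=
      Real.rpow_le_rpow (by positivity) hrn (by norm_num)
    have h2 : (lam ^ 12 * r) ^ (2 / 3 : ℝ) = lam ^ 8 * (r : ℝ) ^ (2 / 3 : ℝ) := by
      rw [Real.mul_rpow (by positivity) hr0]
      congr 1
      rw [← Real.rpow_natCast, ← Real.rpow_mul hl0.le]
      have : ((12 : ℕ) : ℝ) * (2 / 3) = ((8 : ℕ) : ℝ) := by norm_num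
      rw [this, Real.rpow_natCast]
    linarith
  have hl8 : lam ≤ lam ^ 8 := by
    calc lam = lam ^ 1 := (pow_one _).symm
      _ ≤ lam ^ 8 := pow_le_pow_right₀ (by linarith) (by norm_num)
  have a4 : (Kc κ lam r : ℝ) ≤ 2 * lam * (n : ℝ) ^ (2 / 3 : ℝ) / 8 := by
    have h1 : lam * (r : ℝ) ^ (2 / 3 : ℝ) ≤ (n : ℝ) ^ (2 / 3 : ℝ) :=
      (mul_le_mul_of_nonneg_right hl8 (by linarith)).trans hrn2
    have h2 : 100 / κ * (2 * lam) * (r : ℝ) ^ (2 / 3 : ℝ) =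
        (200 / κ) * (lam * (r : ℝ) ^ (2 / 3 : ℝ)) := by ring
    have h3 : (200 / κ) * (lam * (r : ℝ) ^ (2 / 3 : ℝ)) ≤ (200 / κ) * (n : ℝ) ^ (2 / 3 : ℝ) :=
      mul_le_mul_of_nonneg_left h1 (by positivity)
    have h4 : 200 / κ ≤ lam / 4 := by
      have : 800 / κ = 4 * (200 / κ) := by ring
      linarith
    have h5 := mul_le_mul_of_nonneg_right h4 hn23
    linarith
  have hl4 : 1 ≤ lam ^ 4 := one_le_pow₀ (by linarith)
  have hl3 : 1 ≤ lam ^ 3 := one_le_pow₀ (by linarith)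
  have a5 : (N0 : ℝ) ≤ 2 * lam * (n : ℝ) ^ (2 / 3 : ℝ) / 8 := by
    have h1 : (n : ℝ) ^ (2 / 3 : ℝ) / lam ^ 4 ≤ (n : ℝ) ^ (2 / 3 : ℝ) := div_le_self hn23 hl4
    have h2 := mul_le_mul_of_nonneg_right hl hn23
    linarith
  have a6 : (Ic lam n : ℝ) ≤ 2 * lam * (n : ℝ) ^ (2 / 3 : ℝ) / 8 := by
    have h0 : (Ic lam n : ℝ) ≤ (n : ℝ) ^ (2 / 3 : ℝ) / lam ^ 3 := Nat.floor_le (by positivity)
    have h1 : (n : ℝ) ^ (2 / 3 : ℝ) / lam ^ 3 ≤ (n : ℝ) ^ (2 / 3 : ℝ) := div_le_self hn23 hl3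
    have h2 := mul_le_mul_of_nonneg_right hl hn23
    linarith
  exact ⟨a1, a3, a4, a5, a6⟩

theorem out_incl {κ : ℝ} (hκ : 0 < κ) : ∃ C0 C1 : ℝ, 1 ≤ C0 ∧ 2 ≤ C1 ∧
    ∀ (σ h lam a A : ℝ) (N n m r k1 N0 : ℕ) (ω0 ωt : ℤ × ℤ → ℝ), HP C1 h lam → κ ≤ σ →
    σ ≤ 1 - κ → C0 * lam ^ 3 ≤ r → lam ^ 12 * r ≤ n → 8 * n ≤ N →
    (N0 : ℝ) ≤ (n : ℝ) ^ (2 / 3 : ℝ) / lam ^ 4 → 4 * N ≤ m →
    CrE κ lam m ω0 → CrE κ lam m ωt → CrT lam m h ω0 ωt →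
    0 ≤ a → a ≤ arc lam N → a + 1 ≤ A → A ≤ 4 * arc lam N → Thru σ a N ωt →
    k1 ≤ Kc κ lam r →
    (∀ i : ℤ, (k1 : ℤ) < i → i ≤ N0 → FLp σ A N ω0 i ≤ FLp σ A N ω0 0 ∧
      FRp σ A N ω0 (-i) ≤ FRp σ A N ω0 0) →
    ω0 ∈ OutS κ σ lam h n r N0 := by
  by_cases hκ1 : κ ≤ 1
  swap
  · refine ⟨1, 2, le_refl _, le_refl _, ?_⟩
    intro σ h lam a A N n m r k1 N0 ω0 ωt _ h1 h2
    exfalso
    push Not at hκ1
    linarith
  obtain ⟨Cs, Cs1, hCs, hCs1, hslack⟩ := nr_slack hκ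
  obtain ⟨Co, hCo, horder⟩ := orderF hκ
  obtain ⟨Ci, hCi, hincr⟩ := incr_boundF hκ
  obtain ⟨Cf, hCf, hres⟩ := FLp_res hκ
  obtain ⟨Cd, hCd, hdown⟩ := thru_down hκ
  obtain ⟨Cg, hCg, hgood⟩ := good_crude hκ
  set C0 : ℝ := max Cs (max Co (max Ci (max Cf (max Cd Cg)))) with hC0
  have c1 : Cs ≤ C0 := le_max_left _ _
  have c2 : Co ≤ C0 := (le_max_left _ _).trans (le_max_right _ _)
  have c3 : Ci ≤ C0 := (le_max_left _ _).trans ((le_max_right _ _).trans (le_max_right _ _))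
  have c4 : Cf ≤ C0 := (le_max_left _ _).trans
    ((le_max_right _ _).trans ((le_max_right _ _).trans (le_max_right _ _)))
  have c5 : Cd ≤ C0 := (le_max_left _ _).trans ((le_max_right _ _).trans
    ((le_max_right _ _).trans ((le_max_right _ _).trans (le_max_right _ _))))
  have c6 : Cg ≤ C0 := (le_max_right _ _).trans ((le_max_right _ _).trans
    ((le_max_right _ _).trans ((le_max_right _ _).trans (le_max_right _ _))))
  have hC01 : 1 ≤ C0 := hCs.trans c1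
  obtain ⟨Cp, hCp, hpar⟩ := par_crude hκ hC01
  set D : ℝ := max Cp (max Cs1 (max Cg (max (4 * Ci) (max (800 / κ) 8)))) with hD
  have d1 : Cp ≤ D := le_max_left _ _
  have d2 : Cs1 ≤ D := (le_max_left _ _).trans (le_max_right _ _)
  have d3 : Cg ≤ D := (le_max_left _ _).trans ((le_max_right _ _).trans (le_max_right _ _))
  have d4 : 4 * Ci ≤ D := (le_max_left _ _).trans
    ((le_max_right _ _).trans ((le_max_right _ _).trans (le_max_right _ _)))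
  have d5 : 800 / κ ≤ D := (le_max_left _ _).trans ((le_max_right _ _).trans
    ((le_max_right _ _).trans ((le_max_right _ _).trans (le_max_right _ _))))
  have d6 : 8 ≤ D := (le_max_right _ _).trans ((le_max_right _ _).trans
    ((le_max_right _ _).trans ((le_max_right _ _).trans (le_max_right _ _))))
  have hD2 : 2 ≤ D := hCp.trans d1
  refine ⟨C0, D, hC01, hD2, ?_⟩
  intro σ h lam a A N n m r k1 N0 ω0 ωt hHP h1 h2 hr hrn hnN hN0 hNm hCr0 hCrt hCT ha haN haA hA hT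
    hk1 hrec
  have hlamD : D ≤ lam := (hp_basic hD2 hHP).1
  have hHp := hHP.mono d1
  have hHs := hHP.mono d2
  have hHg := hHP.mono d3
  have hl8 : 8 ≤ lam := d6.trans hlamD
  have hlam0 : 0 ≤ lam := by linarith
  have hlC : 4 * Ci ≤ lam := d4.trans hlamD
  have hlk : 800 / κ ≤ lam := d5.trans hlamD
  have hr0 : (0 : ℝ) ≤ r := Nat.cast_nonneg r
  have hl3 : 1 ≤ lam ^ 3 := one_le_pow₀ (by linarith)
  have hr1 : (1 : ℝ) ≤ r := by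
    have : 1 * 1 ≤ C0 * lam ^ 3 := mul_le_mul hC01 hl3 (by norm_num) (by linarith)
    linarith
  have hl12 : lam ≤ lam ^ 12 := by
    calc lam = lam ^ 1 := (pow_one _).symm
      _ ≤ lam ^ 12 := pow_le_pow_right₀ (by linarith) (by norm_num)
  have hrn' : lam * r ≤ n := (mul_le_mul_of_nonneg_right hl12 hr0).trans hrn
  have h8rn : 8 * (r : ℝ) ≤ n := (mul_le_mul_of_nonneg_right hl8 hr0).trans hrn'
  have h8rnN : 8 * r ≤ n := by exact_mod_cast h8rn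
  have hn : C0 * lam ^ 3 ≤ n := by linarith
  have hnN' : 8 * (n : ℝ) ≤ N := by exact_mod_cast hnN
  have hNN : C0 * lam ^ 3 ≤ N := by
    have : (0 : ℝ) ≤ n := Nat.cast_nonneg n
    linarith
  have hn1 : (1 : ℝ) ≤ n := by linarith
  have hn23 : 1 ≤ (n : ℝ) ^ (2 / 3 : ℝ) := Real.one_le_rpow hn1 (by norm_num)
  obtain ⟨z1, z2, z3, z4, z5⟩ := iO_size hκ hκ1 hl8 hlk hr1 hrn hN0
  -- parameters and regularity at the scales n and N
  have hPn := hpar σ h lam n hHp h1 h2 hn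
  have hPN := hpar σ h lam N hHp h1 h2 hNN
  have hG0n := hgood C0 σ h lam n m ω0 c6 hHg h1 h2 hn (by omega) hCr0
  have hG0N := hgood C0 σ h lam N m ω0 c6 hHg h1 h2 hNN hNm hCr0
  have hGtN := hgood C0 σ h lam N m ωt c6 hHg h1 h2 hNN hNm hCrt
  have e4 : 4 * (2 * lam) * (n : ℝ) ^ (2 / 3 : ℝ) = 4 * arc lam n := by
    unfold arc
    ring
  have hA4 : A ≤ 4 * (2 * lam) * (N : ℝ) ^ (2 / 3 : ℝ) := by
    unfold arc at hA
    linarith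
  have hA0 : 0 ≤ A := by linarith
  have harc : 1 ≤ arc lam n := by
    unfold arc
    nlinarith
  -- order of the increments between the scales n and N
  have hord : ∀ i : ℤ, 0 ≤ i → (i : ℝ) ≤ 2 * lam * (n : ℝ) ^ (2 / 3 : ℝ) / 8 →
      FLp σ (4 * arc lam n) n ω0 i - FLp σ (4 * arc lam n) n ω0 0 ≤
        FLp σ A N ω0 i - FLp σ A N ω0 0 ∧
      FRp σ (4 * arc lam n) n ω0 (-i) - FRp σ (4 * arc lam n) n ω0 0 ≤
        FRp σ A N ω0 (-i) - FRp σ A N ω0 0 := by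
    intro i hi hi'
    have hi0 : (0 : ℝ) ≤ i := by exact_mod_cast hi
    have q1 := (horder σ lam (2 * lam) (C0 * lam ^ 3) A N ω0 (iO_par_mono hlam0 c2 hPN) hG0N hA0 hA4
      n hn hnN 0 i (by push_cast; linarith) hi hi').1
    have q2 := (horder σ lam (2 * lam) (C0 * lam ^ 3) A N ω0 (iO_par_mono hlam0 c2 hPN) hG0N hA0 hA4
      n hn hnN (-i) 0 (by push_cast; linarith) (by omega) (by push_cast; linarith)).2.2
    rw [e4] at q1 q2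
    exact ⟨q1, by linarith⟩
  -- increments up to K
  have hinc := hincr σ lam (2 * lam) (C0 * lam ^ 3) (4 * arc lam n) n ω0
    (iO_par_mono hlam0 c3 hPn) hG0n (by linarith) (le_of_eq e4.symm) r hr
    (le_trans (mul_le_mul_of_nonneg_right (by linarith) hr0) hrn')
  have hK0 : (0 : ℝ) ≤ 100 / κ * (2 * lam) * (r : ℝ) ^ (2 / 3 : ℝ) := by positivity
  have hcst : Ci * (2 * lam) ^ 2 * (r : ℝ) ^ (1 / 3 : ℝ) ≤ lam ^ 3 * (r : ℝ) ^ (1 / 3 : ℝ) := by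
    apply mul_le_mul_of_nonneg_right _ (Real.rpow_nonneg hr0 _)
    calc Ci * (2 * lam) ^ 2 = 4 * Ci * lam ^ 2 := by ring
      _ ≤ lam * lam ^ 2 := mul_le_mul_of_nonneg_right hlC (by positivity)
      _ = lam ^ 3 := by ring
  have hiL : FLp σ (4 * arc lam n) n ω0 0 - FLp σ (4 * arc lam n) n ω0 (Kc κ lam r) ≤
      lam ^ 3 * (r : ℝ) ^ (1 / 3 : ℝ) := by
    have q := (hinc 0 (Kc κ lam r) (by simpa using hK0) (by
      rw [Int.cast_natCast, abs_of_nonneg (Nat.cast_nonneg _)]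
      exact z2)).1
    exact (le_abs_self _).trans (q.trans hcst)
  have hiR : FRp σ (4 * arc lam n) n ω0 0 - FRp σ (4 * arc lam n) n ω0 (-(Kc κ lam r : ℤ)) ≤
      lam ^ 3 * (r : ℝ) ^ (1 / 3 : ℝ) := by
    have q := (hinc 0 (-(Kc κ lam r : ℤ)) (by simpa using hK0) (by
      push_cast
      rw [abs_neg, abs_of_nonneg (Nat.cast_nonneg _)]
      exact z2)).2
    exact (le_abs_self _).trans (q.trans hcst)
  -- restriction
  have hR : Rgn σ (6 * ((2 * lam) * (n : ℝ) ^ (2 / 3 : ℝ))) n \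
      Rgn σ (6 * ((2 * lam) * (r : ℝ) ^ (2 / 3 : ℝ))) r ⊆ RR σ lam n \ RR σ lam r := by
    unfold RR arc
    exact subset_refl _
  have hrs := hres σ lam (2 * lam) (C0 * lam ^ 3) (4 * arc lam n) n ω0
    (iO_par_mono hlam0 c4 hPn) hG0n (by linarith) (le_of_eq e4.symm) r hr h8rnN _ hR
  have hcast : ∀ i : ℤ, (Kc κ lam r : ℤ) ≤ i → (Kc κ lam r : ℝ) ≤ (i : ℝ) := fun i hi => by
    exact_mod_cast hi
  have hresi : ∀ i : ℤ, (Kc κ lam r : ℤ) ≤ i → (i : ℝ) ≤ 2 * lam * (n : ℝ) ^ (2 / 3 : ℝ) / 8 →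
      FLp σ (4 * arc lam n) n (res (RR σ lam n \ RR σ lam r) ω0) i = FLp σ (4 * arc lam n) n ω0 i ∧
      FRp σ (4 * arc lam n) n (res (RR σ lam n \ RR σ lam r) ω0) (-i) =
        FRp σ (4 * arc lam n) n ω0 (-i) := by
    intro i hi hi'
    have hiK := hcast i hi
    have hi0 : (0 : ℝ) ≤ i := (Nat.cast_nonneg _).trans hiK
    have habs : |(i : ℝ)| = i := abs_of_nonneg hi0
    have habs' : |((-i : ℤ) : ℝ)| = i := by
      push_cast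
      rw [abs_neg, habs]
    exact ⟨(hrs i (by rw [habs]; exact hi') (by rw [habs]; linarith)).1,
      (hrs (-i) (by rw [habs']; exact hi') (by rw [habs']; linarith)).2⟩
  obtain ⟨rK1, rK2⟩ := hresi (Kc κ lam r) le_rfl (by
    rw [Int.cast_natCast]
    exact z3)
  -- slack at the scale n
  have hTn : Thru σ (arc lam n) n ωt := by
    have hT' : Thru σ (2 * lam * (N : ℝ) ^ (2 / 3 : ℝ)) N ωt := thru_mono hT haN
    exact hdown σ lam (2 * lam) (C0 * lam ^ 3) N ωt (iO_par_mono hlam0 c5 hPN) hGtN hT' n hn (by omega)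
  have hIc : (Ic lam n : ℝ) ≤ arc lam n := by
    unfold arc
    have : 0 ≤ 2 * lam * (n : ℝ) ^ (2 / 3 : ℝ) := by positivity
    linarith
  have hsl := hslack σ h lam (arc lam n) (4 * arc lam n) n m (Ic lam n) ω0 ωt hHs h1 h2
    ((mul_le_mul_of_nonneg_right c1 (by linarith)).trans hn) (by omega) hCrt hCT (by linarith)
    (by linarith) le_rfl hTn hIc
  refine ⟨?_, ?_⟩
  · intro i hi1 hi2
    have hi0 : 0 ≤ i := by omega
    have hi2' : (i : ℝ) ≤ (N0 : ℝ) := by exact_mod_cast hi2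
    have hi' : (i : ℝ) ≤ 2 * lam * (n : ℝ) ^ (2 / 3 : ℝ) / 8 := by linarith
    obtain ⟨e1, e2⟩ := hresi i hi1.le hi'
    obtain ⟨o1, o2⟩ := hord i hi0 hi'
    have hk1' : (k1 : ℤ) < i := lt_of_le_of_lt (by exact_mod_cast hk1) hi1
    obtain ⟨s1, s2⟩ := hrec i hk1' hi2
    rw [e1, e2, rK1, rK2]
    constructor
    · linarith
    · linarith
  · intro i hi1 hi2
    have hi0 : 0 ≤ i := by omega
    have hi2' : (i : ℝ) ≤ (Ic lam n : ℝ) := by exact_mod_cast hi2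
    have hi' : (i : ℝ) ≤ 2 * lam * (n : ℝ) ^ (2 / 3 : ℝ) / 8 := by linarith
    obtain ⟨e1, e2⟩ := hresi i hi1.le hi'
    obtain ⟨s1, s2⟩ := hsl i (by simp only [Nat.cast_zero]; omega) hi2
    simp only [Nat.cast_zero, neg_zero] at s1 s2
    rw [e1, e2, rK1, rK2]
    constructor
    · linarith
    · linarith

end BGE
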