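import Pool.Agent.BGE.InclA
import Pool.Agent.BGE.InclMid
import Pool.Agent.BGE.InclOut
import Pool.Agent.BGE.InclLow

/-!
BGE / M3. If there is a hit at the scale `N` at the time `t` and the record at the scale `N` is not
exact at the time `0` up to `2^(jT n)` then `FailX` occurs (scale `n ≤ N/8`).

Proof. Let `ω0 = dyn η x 0`, `ωt = dyn η x t`. By assumption there is `0 < i ≤ 2^(jT n)` with
`FLp ω0 i > FLp ω0 0` or `FRp ω0 (-i) > FRp ω0 0` (profiles at the scale `N` with `A`). If some such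
`i` is larger than `2^jL`, let `j` be the largest index `jL ≤ j < jT n` for which there is such an
`i` in `(2^j, 2^(j+1)]`. Then
* hit at the scale `rin`: `inner_incl`;
* `MidS`: `mid_incl` (`8 rou ≤ 8 n ≤ N`; `th h j * lam^25 ≤ 1` by `jT_spec` (5) and
  `h N^{1/3} lam^300 ≤ 1`), on the left side apply it to `rotE ω0, rotE ωt` (`thru_rot`, `crE_rot`,
  `crT_rot`, `FLp_rot`);
* `OutS`: `out_incl` with `r = rou h lam j`, `k1 = 2^(j+1) ≤ Kc rou`, `N0 = 2^(jT n)`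
  (`jT_spec`).
If all such `i` are `≤ 2^jL`: `OutS` with `r = rL`, `k1 = 2^jL ≤ Kc rL`; and if no weight in
`RR rL` is refreshed then `ωt = ω0` on `RR rL`, `ωt ∈ AnS (arc rL) rL` (`inner_incl`), so
`ω0 ∈ AnS (arc rL) rL` (`depOn_AnS`), and `low_incl` (or its version for `rotE`, `ans_rot`)
applies.
-/

namespace BGE

open MeasureTheory ProbabilityTheory

/-- dyadic position -/
private theorem fi_dyad (a b : ℕ) (i : ℤ) (h1 : 2 ^ a < i) (h2 : i ≤ 2 ^ b) :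
    ∃ j, a ≤ j ∧ j < b ∧ 2 ^ j < i ∧ i ≤ 2 ^ (j + 1) := by
  induction b with
  | zero =>
    exfalso
    have : (1 : ℤ) ≤ 2 ^ a := one_le_pow₀ (by norm_num)
    rw [pow_zero] at h2
    omega
  | succ b ih =>
    rcases le_or_gt i (2 ^ b) with hle | hgt
    · obtain ⟨j, k1, k2, k3, k4⟩ := ih hle
      exact ⟨j, k1, by omega, k3, k4⟩
    · refine ⟨b, ?_, by omega, hgt, h2⟩
      have h3 : (2 : ℤ) ^ a < 2 ^ (b + 1) := lt_of_lt_of_le h1 h2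
      have := (pow_lt_pow_iff_right₀ (by norm_num : (1 : ℤ) < 2)).1 h3
      omega

/-- bounds of `Kc` -/
private theorem fi_Kc {κ lam : ℝ} (hκ : 0 < κ) (hκ1 : κ ≤ 1) (hl : 1 ≤ lam) {k r : ℕ}
    (hk : (k : ℝ) ≤ 2 * (r : ℝ) ^ (2 / 3 : ℝ)) : k ≤ Kc κ lam r := by
  have h1 : (1 : ℝ) ≤ 96 / κ := by
    rw [le_div_iff₀ hκ]
    linarith
  have h2 : (k : ℝ) ≤ 96 / κ * (2 * lam) * (r : ℝ) ^ (2 / 3 : ℝ) := by
    have h3 : 2 ≤ 96 / κ * (2 * lam) := by nlinarith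
    have h4 : (0 : ℝ) ≤ (r : ℝ) ^ (2 / 3 : ℝ) := by positivity
    have h5 := mul_le_mul_of_nonneg_right h3 h4
    linarith
  have h3 := h2.trans (Nat.le_ceil _)
  unfold Kc
  exact_mod_cast h3

/-- the size of the gain -/
private theorem fi_th {h lam U : ℝ} {n : ℕ} (h0 : 0 < h) (hl : 1 ≤ lam)
    (hy : h * (n : ℝ) ^ (1 / 3 : ℝ) * lam ^ 300 ≤ 1)
    (hU : U ≤ (h ^ 2 * (n : ℝ) ^ (2 / 3 : ℝ)) ^ (1 / 20 : ℝ)) : U * lam ^ 25 ≤ 1 := by
  have hn0 : (0 : ℝ) ≤ n := Nat.cast_nonneg n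
  set y : ℝ := h * (n : ℝ) ^ (1 / 3 : ℝ) with hyd
  have hy0 : 0 ≤ y := by positivity
  have e1 : ((n : ℝ) ^ (1 / 3 : ℝ)) ^ 2 = (n : ℝ) ^ (2 / 3 : ℝ) := by
    rw [← Real.rpow_natCast, ← Real.rpow_mul hn0]
    norm_num
  have e2 : h ^ 2 * (n : ℝ) ^ (2 / 3 : ℝ) = y ^ 2 := by
    rw [hyd, mul_pow, e1]
  have e3 : (y ^ 2) ^ (1 / 20 : ℝ) = y ^ (1 / 10 : ℝ) := by
    rw [← Real.rpow_natCast, ← Real.rpow_mul hy0]
    norm_num
  set z : ℝ := y ^ (1 / 10 : ℝ) with hz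
  have hz0 : 0 ≤ z := by positivity
  have e4 : z ^ 10 = y := by
    rw [hz, ← Real.rpow_natCast, ← Real.rpow_mul hy0]
    norm_num
  rw [e2, e3] at hU
  have e5 : (z * lam ^ 30) ^ 10 ≤ 1 := by
    calc (z * lam ^ 30) ^ 10 = z ^ 10 * lam ^ 300 := by ring
      _ = y * lam ^ 300 := by rw [e4]
      _ ≤ 1 := hy
  have hl0 : 0 ≤ lam := by linarith
  have e6 : z * lam ^ 30 ≤ 1 := by
    by_contra hcon
    push Not at hcon
    have := one_lt_pow₀ hcon (n := 10) (by norm_num)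
    linarith
  have e7 : lam ^ 25 ≤ lam ^ 30 := pow_le_pow_right₀ hl (by norm_num)
  calc U * lam ^ 25 ≤ z * lam ^ 25 := mul_le_mul_of_nonneg_right hU (by positivity)
    _ ≤ z * lam ^ 30 := mul_le_mul_of_nonneg_left e7 hz0
    _ ≤ 1 := e6

/-- sizes in a window -/
private theorem fi_win {h lam : ℝ} (h0 : 0 < h) (hl : 1 ≤ lam) {j : ℕ}
    (hth : th h j * lam ^ 25 ≤ 1)
    (hr1 : lam ^ 20 * 2 ^ j / th h j ^ 4 ≤ (rou h lam j : ℝ) ^ (2 / 3 : ℝ))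
    (hr2 : (rin h lam j : ℝ) ^ (2 / 3 : ℝ) ≤ th h j ^ 2 * 2 ^ j / lam ^ 6) :
    (2 : ℝ) ^ j ≤ (rou h lam j : ℝ) ^ (2 / 3 : ℝ) ∧ rin h lam j ≤ rou h lam j ∧
      lam ^ 20 ≤ rou h lam j := by
  have ht0 : 0 < th h j := by
    unfold th
    positivity
  have hl25 : 1 ≤ lam ^ 25 := one_le_pow₀ hl
  have ht1 : th h j ≤ 1 := by nlinarith
  have ht4 : th h j ^ 4 ≤ 1 := pow_le_one₀ ht0.le ht1
  have ht2 : th h j ^ 2 ≤ 1 := pow_le_one₀ ht0.le ht1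
  have hl0 : 0 < lam := by linarith
  have h2j : (1 : ℝ) ≤ 2 ^ j := one_le_pow₀ (by norm_num)
  have hl20 : 1 ≤ lam ^ 20 := one_le_pow₀ hl
  have hl6 : 1 ≤ lam ^ 6 := one_le_pow₀ hl
  have e1 : lam ^ 20 * 2 ^ j ≤ (rou h lam j : ℝ) ^ (2 / 3 : ℝ) := by
    refine le_trans ?_ hr1
    rw [le_div_iff₀ (by positivity)]
    calc lam ^ 20 * 2 ^ j * th h j ^ 4 ≤ lam ^ 20 * 2 ^ j * 1 :=
          mul_le_mul_of_nonneg_left ht4 (by positivity)
      _ = lam ^ 20 * 2 ^ j := mul_one _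
  have e2 : (2 : ℝ) ^ j ≤ (rou h lam j : ℝ) ^ (2 / 3 : ℝ) := by
    refine le_trans ?_ e1
    calc (2 : ℝ) ^ j = 1 * 2 ^ j := (one_mul _).symm
      _ ≤ lam ^ 20 * 2 ^ j := mul_le_mul_of_nonneg_right hl20 (by positivity)
  have e3 : th h j ^ 2 * 2 ^ j / lam ^ 6 ≤ 2 ^ j := by
    rw [div_le_iff₀ (by positivity)]
    calc th h j ^ 2 * 2 ^ j ≤ 1 * 2 ^ j := mul_le_mul_of_nonneg_right ht2 (by positivity)
      _ = 2 ^ j * 1 := by ring
      _ ≤ 2 ^ j * lam ^ 6 := mul_le_mul_of_nonneg_left hl6 (by positivity)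
  have e4 : (rin h lam j : ℝ) ^ (2 / 3 : ℝ) ≤ (rou h lam j : ℝ) ^ (2 / 3 : ℝ) :=
    hr2.trans (e3.trans e2)
  have e5 : (rin h lam j : ℝ) ≤ rou h lam j :=
    (Real.rpow_le_rpow_iff (Nat.cast_nonneg _) (Nat.cast_nonneg _) (by norm_num)).1 e4
  have e6 : lam ^ 20 ≤ (rou h lam j : ℝ) ^ (2 / 3 : ℝ) := by
    refine le_trans ?_ e1
    calc lam ^ 20 = lam ^ 20 * 1 := (mul_one _).symm
      _ ≤ lam ^ 20 * 2 ^ j := mul_le_mul_of_nonneg_left h2j (by positivity)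
  have e7 : (1 : ℝ) ≤ rou h lam j := by
    rcases Nat.eq_zero_or_pos (rou h lam j) with hz | hz
    · rw [hz, Nat.cast_zero, Real.zero_rpow (by norm_num)] at e6
      linarith
    · exact_mod_cast hz
  refine ⟨e2, by exact_mod_cast e5, e6.trans ?_⟩
  calc (rou h lam j : ℝ) ^ (2 / 3 : ℝ) ≤ (rou h lam j : ℝ) ^ (1 : ℝ) :=
        Real.rpow_le_rpow_of_exponent_le e7 (by norm_num)
    _ = rou h lam j := Real.rpow_one _

theorem fail_incl {κ : ℝ} (hκ : 0 < κ) : ∃ C1 : ℝ, 2 ≤ C1 ∧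
    ∀ (σ h lam η a A : ℝ) (N n m M t : ℕ) (x : DI → ℝ), HP C1 h lam → κ ≤ σ → σ ≤ 1 - κ →
    lam ^ 12 * rL h ≤ n → 8 * n ≤ N → h * (N : ℝ) ^ (1 / 3 : ℝ) * lam ^ 300 ≤ 1 → 4 * N ≤ m →
    t ≤ M → GdT κ lam h η m t x → 0 ≤ a → a ≤ arc lam N → a + 1 ≤ A → A ≤ 4 * arc lam N →
    Thru σ a N (dyn η x t) → ¬ NR σ A N 0 (2 ^ jT h lam n) 0 (dyn η x 0) →
    x ∈ FailX κ σ lam h η M n := by
  obtain ⟨Ci, Di, hCi, hDi, Hi⟩ := inner_incl hκ
  obtain ⟨Dm, hDm, Hm⟩ := mid_incl hκ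
  obtain ⟨Co, Do, hCo, hDo, Ho⟩ := out_incl hκ
  obtain ⟨Dl, hDl, Hl⟩ := low_incl hκ
  obtain ⟨Dr, hDr, Hr⟩ := rin_bounds Ci
  obtain ⟨Du, hDu, Hu⟩ := rou_bounds
  obtain ⟨Dt, hDt, Ht⟩ := jT_spec
  obtain ⟨Db, hDb, Hb⟩ := low_bounds
  refine ⟨Ci + Co + Di + Dm + Do + Dl + Dr + Du + Dt + Db, by linarith, ?_⟩
  intro σ h lam η a A N n m M t x hp h1 h2 hn hN hh hm ht hG ha haN haA hA hT hNR
  obtain ⟨g1, g2, g3⟩ := hG
  obtain ⟨b1, b2, b3⟩ := hp_basic (by linarith) hp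
  have hpi : HP Di h lam := hp.mono (by linarith)
  have hpm : HP Dm h lam := hp.mono (by linarith)
  have hpo : HP Do h lam := hp.mono (by linarith)
  have hpl : HP Dl h lam := hp.mono (by linarith)
  have hpr : HP Dr h lam := hp.mono (by linarith)
  have hpu : HP Du h lam := hp.mono (by linarith)
  have hpt : HP Dt h lam := hp.mono (by linarith)
  have hpb : HP Db h lam := hp.mono (by linarith)
  obtain ⟨p1, p2, p3, p4, p5⟩ := hp
  have hκ1 : κ ≤ 1 := by linarith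
  have hlam1 : 1 ≤ lam := by linarith
  have hlam0 : 0 < lam := by linarith
  have hClam : Ci + Co ≤ lam := by linarith
  have hn0 : (0 : ℝ) ≤ n := Nat.cast_nonneg n
  have hnN : n ≤ N := by omega
  have hnN' : (n : ℝ) ≤ N := by exact_mod_cast hnN
  have hh' : h * (n : ℝ) ^ (1 / 3 : ℝ) * lam ^ 300 ≤ 1 := by
    refine le_trans ?_ hh
    have e1 : (n : ℝ) ^ (1 / 3 : ℝ) ≤ (N : ℝ) ^ (1 / 3 : ℝ) :=
      Real.rpow_le_rpow hn0 hnN' (by norm_num)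
    exact mul_le_mul_of_nonneg_right (mul_le_mul_of_nonneg_left e1 p1.le) (by positivity)
  obtain ⟨t1, t2, t3, t4, t5⟩ := Ht h lam n hpt hn hh'
  obtain ⟨l1, l2, l3, l4⟩ := Hb h lam hpb
  have hl12 : (1 : ℝ) ≤ lam ^ 12 := one_le_pow₀ hlam1
  have hN0 : (((2 ^ jT h lam n : ℕ)) : ℝ) ≤ (n : ℝ) ^ (2 / 3 : ℝ) / lam ^ 4 := by
    rw [Nat.cast_pow, Nat.cast_ofNat]
    exact t4
  set ω0 : ℤ × ℤ → ℝ := dyn η x 0 with hω0
  set ωt : ℤ × ℤ → ℝ := dyn η x t with hωt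
  -- bad indices
  obtain ⟨Bad, hBad⟩ : ∃ Bad : ℤ → Prop, Bad = fun i => FLp σ A N ω0 0 < FLp σ A N ω0 i ∨
      FRp σ A N ω0 0 < FRp σ A N ω0 (-i) := ⟨_, rfl⟩
  have hnot : ∀ i, ¬ Bad i → FLp σ A N ω0 i ≤ FLp σ A N ω0 0 ∧
      FRp σ A N ω0 (-i) ≤ FRp σ A N ω0 0 := by
    intro i hi
    rw [hBad] at hi
    push Not at hi
    exact hi
  obtain ⟨i0, hi0, hi0', hi0B⟩ : ∃ i : ℤ, 0 < i ∧ i ≤ 2 ^ jT h lam n ∧ Bad i := by
    by_contra hcon
    push Not at hcon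
    apply hNR
    intro i hi1 hi2
    have hi1' : 0 < i := by simpa using hi1
    have hi2' : i ≤ 2 ^ jT h lam n := by
      rw [Nat.cast_pow, Nat.cast_ofNat] at hi2
      exact hi2
    have := hnot i (hcon i hi1' hi2')
    simp only [Nat.cast_zero, neg_zero]
    constructor <;> linarith [this.1, this.2]
  have hrLn : rL h ≤ n := by
    have e1 : (rL h : ℝ) ≤ n := by
      refine le_trans ?_ hn
      have : (0 : ℝ) ≤ rL h := Nat.cast_nonneg _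
      nlinarith
    exact_mod_cast e1
  by_cases hex : ∃ j, jL h ≤ j ∧ j < jT h lam n ∧ ∃ i : ℤ, 2 ^ j < i ∧ i ≤ 2 ^ (j + 1) ∧ Bad i
  · -- the largest window
    obtain ⟨j, ⟨hj1, hj2, i, hij1, hij2, hiB⟩, hmax⟩ : ∃ j, (jL h ≤ j ∧ j < jT h lam n ∧
        ∃ i : ℤ, 2 ^ j < i ∧ i ≤ 2 ^ (j + 1) ∧ Bad i) ∧
        ∀ j', (jL h ≤ j' ∧ j' < jT h lam n ∧ ∃ i : ℤ, 2 ^ j' < i ∧ i ≤ 2 ^ (j' + 1) ∧ Bad i) →
          j' ≤ j := by
      classical
      obtain ⟨j0, hj0⟩ := hex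
      refine ⟨Nat.findGreatest (fun j => jL h ≤ j ∧ j < jT h lam n ∧
        ∃ i : ℤ, 2 ^ j < i ∧ i ≤ 2 ^ (j + 1) ∧ Bad i) (jT h lam n), ?_, ?_⟩
      · exact Nat.findGreatest_spec (P := fun j => jL h ≤ j ∧ j < jT h lam n ∧
          ∃ i : ℤ, 2 ^ j < i ∧ i ≤ 2 ^ (j + 1) ∧ Bad i) hj0.2.1.le hj0
      · intro j' hj'
        exact Nat.le_findGreatest (P := fun j => jL h ≤ j ∧ j < jT h lam n ∧
          ∃ i : ℤ, 2 ^ j < i ∧ i ≤ 2 ^ (j + 1) ∧ Bad i) hj'.2.1.le hj'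
    have hth : th h j * lam ^ 25 ≤ 1 := fi_th p1 hlam1 hh' (t5 j hj2)
    obtain ⟨u1, u2⟩ := Hu h lam j hpu
    obtain ⟨v1, v2, v3, v4, v5⟩ := Hr h lam j hpr hj1
    obtain ⟨w1, w2, w3⟩ := fi_win p1 hlam1 hth u1 v4
    have hrou : (lam ^ 12 * rou h lam j : ℝ) ≤ n := t2 j hj1 hj2
    have hroun : rou h lam j ≤ n := by
      have e1 : (rou h lam j : ℝ) ≤ n := by
        refine le_trans ?_ hrou
        have : (0 : ℝ) ≤ rou h lam j := Nat.cast_nonneg _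
        nlinarith
      exact_mod_cast e1
    left
    refine ⟨j, hj1, hj2, ⟨t, ht, ?_⟩, ?_, ?_⟩
    · exact Hi σ h lam a N (rin h lam j) m ωt hpi h1 h2 v2 (by omega) hm g2 haN hT
    · rw [hBad] at hiB
      rcases hiB with hb | hb
      · left
        exact Hm σ h lam a A N m j ω0 ωt hpm h1 h2 hj1 (by omega) hth hm g1 g2 g3 ha haN haA hA hT
          i hij1 hij2 hb
      · right
        refine Hm σ h lam a A N m j (rotE ω0) (rotE ωt) hpm h1 h2 hj1 (by omega) hth hm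
          (crE_rot.mpr g1) (crE_rot.mpr g2) (crT_rot.mpr g3) ha haN haA hA (thru_rot.mpr hT)
          i hij1 hij2 ?_
        rw [FLp_rot, FLp_rot, neg_zero]
        exact hb
    · refine Ho σ h lam a A N n m (rou h lam j) (2 ^ (j + 1)) (2 ^ jT h lam n) ω0 ωt hpo h1 h2
        ?_ hrou hN hN0 hm g1 g2 g3 ha haN haA hA hT ?_ ?_
      · refine le_trans ?_ w3
        calc Co * lam ^ 3 ≤ lam * lam ^ 3 :=
              mul_le_mul_of_nonneg_right (by linarith) (by positivity)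
          _ = lam ^ 4 := by ring
          _ ≤ lam ^ 20 := pow_le_pow_right₀ hlam1 (by norm_num)
      · apply fi_Kc hκ hκ1 hlam1
        rw [Nat.cast_pow, Nat.cast_ofNat, pow_succ]
        linarith
      · intro i' hi1 hi2
        rw [Nat.cast_pow, Nat.cast_ofNat] at hi1 hi2
        apply hnot
        intro hB
        obtain ⟨j', k1, k2, k3, k4⟩ := fi_dyad (j + 1) (jT h lam n) i' hi1 hi2
        have := hmax j' ⟨by omega, k2, i', k3, k4, hB⟩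
        omega
  · -- the low window
    have hgood : ∀ i : ℤ, 2 ^ jL h < i → i ≤ 2 ^ jT h lam n → ¬ Bad i := by
      intro i hi1 hi2 hB
      obtain ⟨j', k1, k2, k3, k4⟩ := fi_dyad (jL h) (jT h lam n) i hi1 hi2
      exact hex ⟨j', k1, k2, i, k3, k4, hB⟩
    have hi0L : i0 ≤ 2 ^ jL h := by
      by_contra hcon
      push Not at hcon
      exact hgood i0 hcon hi0' hi0B
    have hx1 : 1 < h⁻¹ := (one_lt_inv₀ p1).2 p2
    have hbig : (Ci + Co) * lam ^ 3 ≤ rL h := by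
      calc (Ci + Co) * lam ^ 3 ≤ lam * lam ^ 3 :=
            mul_le_mul_of_nonneg_right hClam (by positivity)
        _ = lam ^ 4 := by ring
        _ ≤ lam ^ 1000 := pow_le_pow_right₀ hlam1 (by norm_num)
        _ ≤ h⁻¹ ^ (1 / 1000 : ℝ) := p5
        _ ≤ h⁻¹ ^ (21 / 50 : ℝ) := Real.rpow_le_rpow_of_exponent_le hx1.le (by norm_num)
        _ ≤ rL h := l3
    have hl3 : 0 < lam ^ 3 := by positivity
    have hbigi : Ci * lam ^ 3 ≤ rL h := by nlinarith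
    have hbigo : Co * lam ^ 3 ≤ rL h := by nlinarith
    right
    refine ⟨?_, ?_⟩
    · by_cases hU : x ∈ Upd η M (RR σ lam (rL h))
      · exact Or.inl hU
      · right
        have hans : ωt ∈ AnS σ (arc lam (rL h)) (rL h) :=
          Hi σ h lam a N (rL h) m ωt hpi h1 h2 hbigi (by omega) hm g2 haN hT
        have hans0 : ω0 ∈ AnS σ (arc lam (rL h)) (rL h) := by
          refine (depOn_AnS ω0 ωt ?_).mpr hans
          intro v hv
          exact (upd_none hU ht hv).symm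
        rw [hBad] at hi0B
        rcases hi0B with hb | hb
        · left
          exact Hl σ h lam A N m ω0 hpl h1 h2 (by omega) hm g1 (by linarith) hA hans0 i0 hi0
            hi0L hb
        · right
          refine Hl σ h lam A N m (rotE ω0) hpl h1 h2 (by omega) hm (crE_rot.mpr g1)
            (by linarith) hA (ans_rot.mpr hans0) i0 hi0 hi0L ?_
          rw [FLp_rot, FLp_rot, neg_zero]
          exact hb
    · refine Ho σ h lam a A N n m (rL h) (2 ^ jL h) (2 ^ jT h lam n) ω0 ωt hpo h1 h2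
        hbigo hn hN hN0 hm g1 g2 g3 ha haN haA hA hT ?_ ?_
      · apply fi_Kc hκ hκ1 hlam1
        rw [Nat.cast_pow, Nat.cast_ofNat]
        have e1 : h⁻¹ ^ (21 / 100 : ℝ) ≤ (h⁻¹ ^ (21 / 50 : ℝ)) ^ (2 / 3 : ℝ) := by
          rw [← Real.rpow_mul (by linarith)]
          exact Real.rpow_le_rpow_of_exponent_le hx1.le (by norm_num)
        have e2 : (h⁻¹ ^ (21 / 50 : ℝ)) ^ (2 / 3 : ℝ) ≤ (rL h : ℝ) ^ (2 / 3 : ℝ) :=
          Real.rpow_le_rpow (by positivity) l3 (by norm_num)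
        have e3 : (0 : ℝ) ≤ (rL h : ℝ) ^ (2 / 3 : ℝ) := by positivity
        linarith
      · intro i' hi1 hi2
        rw [Nat.cast_pow, Nat.cast_ofNat] at hi1 hi2
        exact hnot i' (hgood i' hi1 hi2)

end BGE
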