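import Pool.Agent.BGE.Defs2
import Pool.Agent.BGE.MuGeo

/-!
BGE / F1. The loss of the shape function for a point close to a segment.

`mu_loss`: let `a1, b1, a2, b2 > 0`, `l_i = a_i + b_i`, both pairs in the cone `κ`
(`κ l_i ≤ a_i, b_i`), `d = a1 - l1 (a1+a2)/(l1+l2)`. Then
`mu (a1+a2) (b1+b2) ≤ mu a1 b1 + mu a2 b2 + (2/κ²) d² (1/l1 + 1/l2)`.
Proof: with `σ = (a1+a2)/(l1+l2) ∈ [κ, 1-κ]`: `mu (a1+a2) (b1+b2) = ell σ (a1+a2) (b1+b2)` and
`ell_sub_mu_le` for both terms (deviations `d` and `-d`).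
`mu_loss3`: the version with two intermediate points, for lattice points:
`muz p q ≤ muz p u + muz u v + muz v q + loss` if `u, v` are within horizontal distance `D` of the
segment from `p` to `q` (on their levels), all three displacements are in the cone `κ`, and
`dl p u, dl u v, dl v q ≥ g`: `loss = (20/κ²) D²/g`. (Apply `mu_loss` twice; the deviation of `v` from
the segment from `u` to `q` is at most `2 D`.)
-/

namespace BGE

theorem mu_loss {κ a1 b1 a2 b2 : ℝ} (hκ : 0 < κ) (h1 : 0 < a1 + b1) (h2 : 0 < a2 + b2)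
    (ha1 : κ * (a1 + b1) ≤ a1) (hb1 : κ * (a1 + b1) ≤ b1) (ha2 : κ * (a2 + b2) ≤ a2)
    (hb2 : κ * (a2 + b2) ≤ b2) :
    mu (a1 + a2) (b1 + b2) ≤ mu a1 b1 + mu a2 b2 +
      2 / κ ^ 2 * (a1 - (a1 + b1) * (a1 + a2) / (a1 + b1 + (a2 + b2))) ^ 2 *
        (1 / (a1 + b1) + 1 / (a2 + b2)) := by
  set A := a1 + a2 with hAdef
  set B := b1 + b2 with hBdef
  set σ := A / (A + B) with hσ
  have hAB : 0 < A + B := by linarith
  have hA : 0 < A := by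
    have := mul_pos hκ h1
    have := mul_pos hκ h2
    linarith
  have hB : 0 < B := by
    have := mul_pos hκ h1
    have := mul_pos hκ h2
    linarith
  have hσA : σ * (A + B) = A := div_mul_cancel₀ _ hAB.ne'
  have hσκ : κ ≤ σ := by
    rw [hσ, le_div_iff₀ hAB]
    nlinarith
  have hσκ' : σ ≤ 1 - κ := by
    rw [hσ, div_le_iff₀ hAB]
    nlinarith
  have hell : ell σ A B = mu A B := by
    have h4 : (1 - σ) / σ = B / A := by
      have h5 : 1 - σ = B / (A + B) := by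
        rw [hσ]
        field_simp
        ring
      rw [h5, hσ]
      field_simp
    have h6 : √((1 - σ) / σ) = √B / √A := by rw [h4, Real.sqrt_div hB.le]
    have sA : 0 < √A := Real.sqrt_pos.2 hA
    have sB : 0 < √B := Real.sqrt_pos.2 hB
    have e1 : √B / √A * A = √A * √B := by
      have := Real.mul_self_sqrt hA.le
      calc √B / √A * A = √B / √A * (√A * √A) := by rw [this]
        _ = √A * √B := by field_simp
    have e2 : B / (√B / √A) = √A * √B := by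
      have := Real.mul_self_sqrt hB.le
      calc B / (√B / √A) = (√B * √B) / (√B / √A) := by rw [this]
        _ = √A * √B := by field_simp
    unfold ell mu
    rw [h6, e1, e2, Real.sqrt_mul hA.le]
    ring
  have hd : a1 - (a1 + b1) * A / (a1 + b1 + (a2 + b2)) = a1 - σ * (a1 + b1) := by
    have h3 : a1 + b1 + (a2 + b2) = A + B := by rw [hAdef, hBdef]; ring
    rw [h3, hσ]
    ring
  rw [hd]
  have k1 := ell_sub_mu_le (a := a1) (b := b1) hκ hσκ hσκ' h1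
    (by nlinarith [mul_pos hκ h1]) (by nlinarith [mul_pos hκ h1])
  have k2 := ell_sub_mu_le (a := a2) (b := b2) hκ hσκ hσκ' h2
    (by nlinarith [mul_pos hκ h2]) (by nlinarith [mul_pos hκ h2])
  have k3 := ell_add σ a1 b1 a2 b2
  have k4 : a2 - σ * (a2 + b2) = -(a1 - σ * (a1 + b1)) := by
    have h3 : σ * (A + B) = σ * (a1 + b1) + σ * (a2 + b2) := by rw [hAdef, hBdef]; ring
    linarith
  rw [k4, neg_sq] at k2
  rw [← hell, k3]
  have k5 : 2 / κ ^ 2 * (a1 - σ * (a1 + b1)) ^ 2 * (1 / (a1 + b1) + 1 / (a2 + b2)) =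
      2 / κ ^ 2 * (a1 - σ * (a1 + b1)) ^ 2 / (a1 + b1) +
        2 / κ ^ 2 * (a1 - σ * (a1 + b1)) ^ 2 / (a2 + b2) := by
    ring
  rw [k5]
  linarith

private theorem mu_loss3_real {κ D g : ℝ} (hκ : 0 < κ) (hD : 0 ≤ D) (hg : 0 < g)
    {a1 b1 a2 b2 a3 b3 L : ℝ} (hL : L = a1 + b1 + (a2 + b2) + (a3 + b3))
    (ha1 : κ * (a1 + b1) ≤ a1) (hb1 : κ * (a1 + b1) ≤ b1)
    (ha2 : κ * (a2 + b2) ≤ a2) (hb2 : κ * (a2 + b2) ≤ b2)
    (ha3 : κ * (a3 + b3) ≤ a3) (hb3 : κ * (a3 + b3) ≤ b3)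
    (g1 : g ≤ a1 + b1) (g2 : g ≤ a2 + b2) (g3 : g ≤ a3 + b3)
    (d1' : |a1 - (a1 + b1) * (a1 + a2 + a3) / L| ≤ D)
    (d2' : |a1 + a2 - (a1 + b1 + (a2 + b2)) * (a1 + a2 + a3) / L| ≤ D) :
    mu (a1 + (a2 + a3)) (b1 + (b2 + b3)) ≤
      mu a1 b1 + mu a2 b2 + mu a3 b3 + 20 / κ ^ 2 * D ^ 2 / g := by
  have p1 : 0 < a1 + b1 := lt_of_lt_of_le hg g1
  have p2 : 0 < a2 + b2 := lt_of_lt_of_le hg g2
  have p3 : 0 < a3 + b3 := lt_of_lt_of_le hg g3
  have K1 := mu_loss (a1 := a1) (b1 := b1) (a2 := a2 + a3) (b2 := b2 + b3) hκ p1 (by linarith)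
    ha1 hb1 (by linarith) (by linarith)
  have K2 := mu_loss hκ p2 p3 ha2 hb2 ha3 hb3
  have hLpos : 0 < L := by linarith
  obtain ⟨δu, hδu⟩ : ∃ δu, δu = a1 - (a1 + b1) * (a1 + a2 + a3) / L := ⟨_, rfl⟩
  obtain ⟨δv, hδv⟩ : ∃ δv, δv = a1 + a2 - (a1 + b1 + (a2 + b2)) * (a1 + a2 + a3) / L := ⟨_, rfl⟩
  rw [← hδu] at d1'
  rw [← hδv] at d2'
  have e1 : a1 - (a1 + b1) * (a1 + (a2 + a3)) / (a1 + b1 + (a2 + a3 + (b2 + b3))) = δu := by
    have t1 : a1 + b1 + (a2 + a3 + (b2 + b3)) = L := by rw [hL]; ring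
    rw [hδu, t1, add_assoc a1 a2 a3]
  have e2 : a2 - (a2 + b2) * (a2 + a3) / (a2 + b2 + (a3 + b3)) =
      δv - δu * ((a3 + b3) / (a2 + b2 + (a3 + b3))) := by
    have hp23 : 0 < a2 + b2 + (a3 + b3) := by linarith
    have f1 : δu * L = a1 * L - (a1 + b1) * (a1 + a2 + a3) := by
      rw [hδu, sub_mul, div_mul_cancel₀ _ hLpos.ne']
    have f2 : δv * L = (a1 + a2) * L - (a1 + b1 + (a2 + b2)) * (a1 + a2 + a3) := by
      rw [hδv, sub_mul, div_mul_cancel₀ _ hLpos.ne']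
    have f3 : a2 * (a2 + b2 + (a3 + b3)) - (a2 + b2) * (a2 + a3) =
        δv * (a2 + b2 + (a3 + b3)) - δu * (a3 + b3) := by
      refine mul_right_cancel₀ hLpos.ne' ?_
      have f4 : (δv * (a2 + b2 + (a3 + b3)) - δu * (a3 + b3)) * L =
          (δv * L) * (a2 + b2 + (a3 + b3)) - (δu * L) * (a3 + b3) := by ring
      rw [f4, f1, f2, hL]
      ring
    have f5 : a2 - (a2 + b2) * (a2 + a3) / (a2 + b2 + (a3 + b3)) =
        (a2 * (a2 + b2 + (a3 + b3)) - (a2 + b2) * (a2 + a3)) / (a2 + b2 + (a3 + b3)) := by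
      rw [sub_div, mul_div_cancel_right₀ _ hp23.ne']
    have f6 : δv - δu * ((a3 + b3) / (a2 + b2 + (a3 + b3))) =
        (δv * (a2 + b2 + (a3 + b3)) - δu * (a3 + b3)) / (a2 + b2 + (a3 + b3)) := by
      rw [sub_div, mul_div_cancel_right₀ _ hp23.ne', mul_div_assoc]
    rw [f5, f6, f3]
  rw [e1] at K1
  rw [e2] at K2
  obtain ⟨r, hr⟩ : ∃ r, r = (a3 + b3) / (a2 + b2 + (a3 + b3)) := ⟨_, rfl⟩
  rw [← hr] at K2
  have r1 : r ≤ 1 := by
    rw [hr, div_le_one (by linarith)]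
    linarith
  have r0 : 0 ≤ r := by
    rw [hr]
    apply div_nonneg <;> linarith
  have s1 : δu ^ 2 ≤ D ^ 2 := sq_le_sq' (by linarith [(abs_le.1 d1').1]) (abs_le.1 d1').2
  have s2 : (δv - δu * r) ^ 2 ≤ (2 * D) ^ 2 := by
    have t1 : |δu * r| ≤ D := by
      rw [abs_mul, abs_of_nonneg r0]
      calc |δu| * r ≤ D * 1 := mul_le_mul d1' r1 r0 hD
        _ = D := mul_one D
    have t2 := abs_le.1 t1
    have t3 := abs_le.1 d2'
    exact sq_le_sq' (by linarith) (by linarith)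
  have w1 : 1 / (a1 + b1) + 1 / (a2 + a3 + (b2 + b3)) ≤ 2 / g := by
    have v1 : 1 / (a1 + b1) ≤ 1 / g := one_div_le_one_div_of_le hg g1
    have v2 : 1 / (a2 + a3 + (b2 + b3)) ≤ 1 / g := one_div_le_one_div_of_le hg (by linarith)
    have v3 : 2 / g = 1 / g + 1 / g := by ring
    linarith
  have w2 : 1 / (a2 + b2) + 1 / (a3 + b3) ≤ 2 / g := by
    have v1 : 1 / (a2 + b2) ≤ 1 / g := one_div_le_one_div_of_le hg g2
    have v2 : 1 / (a3 + b3) ≤ 1 / g := one_div_le_one_div_of_le hg g3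
    have v3 : 2 / g = 1 / g + 1 / g := by ring
    linarith
  have y1 : 0 < a2 + a3 + (b2 + b3) := by linarith
  have z1 : 2 / κ ^ 2 * δu ^ 2 * (1 / (a1 + b1) + 1 / (a2 + a3 + (b2 + b3))) ≤
      2 / κ ^ 2 * D ^ 2 * (2 / g) := by
    refine mul_le_mul (mul_le_mul_of_nonneg_left s1 (by positivity)) w1 (by positivity)
      (by positivity)
  have z2 : 2 / κ ^ 2 * (δv - δu * r) ^ 2 * (1 / (a2 + b2) + 1 / (a3 + b3)) ≤
      2 / κ ^ 2 * (2 * D) ^ 2 * (2 / g) := by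
    refine mul_le_mul (mul_le_mul_of_nonneg_left s2 (by positivity)) w2 (by positivity)
      (by positivity)
  have z3 : 2 / κ ^ 2 * D ^ 2 * (2 / g) + 2 / κ ^ 2 * (2 * D) ^ 2 * (2 / g) =
      20 / κ ^ 2 * D ^ 2 / g := by ring
  linarith

/-- horizontal distance of `w` from the segment from `p` to `q` -/
noncomputable def offs (p q w : ℤ × ℤ) : ℝ :=
  |((w.1 - p.1 : ℤ) : ℝ) - dl p w * ((q.1 - p.1 : ℤ) : ℝ) / dl p q|

theorem mu_loss3 {κ D g : ℝ} (hκ : 0 < κ) (hD : 0 ≤ D) (hg : 0 < g) {p u v q : ℤ × ℤ}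
    (h1 : Cone κ p u) (h2 : Cone κ u v) (h3 : Cone κ v q) (g1 : g ≤ dl p u) (g2 : g ≤ dl u v)
    (g3 : g ≤ dl v q) (d1 : offs p q u ≤ D) (d2 : offs p q v ≤ D) :
    muz p q ≤ muz p u + muz u v + muz v q + 20 / κ ^ 2 * D ^ 2 / g := by
  obtain ⟨-, ha1, hb1⟩ := h1
  obtain ⟨-, ha2, hb2⟩ := h2
  obtain ⟨-, ha3, hb3⟩ := h3
  unfold offs at d1 d2
  unfold muz
  have l1 : dl p u = ((u.1 - p.1 : ℤ) : ℝ) + ((u.2 - p.2 : ℤ) : ℝ) := by
    simp only [dl, lev]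
    push_cast
    ring
  have l2 : dl u v = ((v.1 - u.1 : ℤ) : ℝ) + ((v.2 - u.2 : ℤ) : ℝ) := by
    simp only [dl, lev]
    push_cast
    ring
  have l3 : dl v q = ((q.1 - v.1 : ℤ) : ℝ) + ((q.2 - v.2 : ℤ) : ℝ) := by
    simp only [dl, lev]
    push_cast
    ring
  have l12 : dl p v = dl p u + dl u v := by
    simp only [dl, lev]
    push_cast
    ring
  have l123 : dl p q = dl p u + dl u v + dl v q := by
    simp only [dl, lev]
    push_cast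
    ring
  have xq : ((q.1 - p.1 : ℤ) : ℝ) =
      ((u.1 - p.1 : ℤ) : ℝ) + ((v.1 - u.1 : ℤ) : ℝ) + ((q.1 - v.1 : ℤ) : ℝ) := by
    push_cast
    ring
  have xv : ((v.1 - p.1 : ℤ) : ℝ) = ((u.1 - p.1 : ℤ) : ℝ) + ((v.1 - u.1 : ℤ) : ℝ) := by
    push_cast
    ring
  have yq : ((q.2 - p.2 : ℤ) : ℝ) =
      ((u.2 - p.2 : ℤ) : ℝ) + (((v.2 - u.2 : ℤ) : ℝ) + ((q.2 - v.2 : ℤ) : ℝ)) := by
    push_cast
    ring
  rw [l123, xq, l1, l2, l3] at d1
  rw [l123, l12, xq, xv, l1, l2, l3] at d2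
  rw [l1] at ha1 hb1 g1
  rw [l2] at ha2 hb2 g2
  rw [l3] at ha3 hb3 g3
  rw [xq, yq, add_assoc]
  exact mu_loss3_real hκ hD hg rfl ha1 hb1 ha2 hb2 ha3 hb3 g1 g2 g3 d1 d2

end BGE
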