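import Pool.Agent.BGE.Defs3

/-!
BGE / M1. The parameters of the recursion (real analysis).

`hp_small`: `HP` holds for small `h` (powers of logarithms are smaller than powers).
`hp_basic`: consequences: `C0 ≤ lam`, `1 < lam`, `h^{1/1000} ≤ lam^{-1000}`.
`par_crude`: the standing assumptions for `Y = 2 lam`, `g0 = C0 lam³` at the scale `n`.

Sizes. `th = (h² 2^j)^{1/20}`, so `lam^20 2^j/th^4 = lam^20 h^{-2/5} 2^{4j/5}` and
`rou ~ lam^30 h^{-3/5} 2^{6j/5}`. For `j ≥ jL`: `2^{j+1} > h^{-21/100}`, `th ≥ h^{0.0895}`,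
`th² 2^j = h^{1/5} 2^{11j/10} ≥ h^{-0.03}`.
* `rin_bounds` (`jL ≤ j`): `C0 lam³ ≤ rin`, `th² 2^j/(2 lam^6) ≤ rin^{2/3} ≤ th² 2^j/lam^6`.
* `rou_bounds`: `lam^20 2^j/th^4 ≤ rou^{2/3} ≤ 2 lam^20 2^j/th^4`.
* `jT_spec`. The set in the definition of `jT` is not empty. Assume `lam^12 rL ≤ n` and
  `h n^{1/3} lam^300 ≤ 1`. (1) `jL ≤ jT`; (2) `lam^12 rou j ≤ n` for `jL ≤ j < jT`;
  (3) `sl n ≤ √(2^jT)/lam`; (4) `2^jT ≤ n^{2/3}/lam^4`; (5) `th j ≤ (h² n^{2/3})^{1/20}` for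
  `j < jT`.
  (3): if `jT = jL` then `n < lam^12 rou jL ≤ lam^43 h^{-0.852}`, so `h n ≤ 1`, `sl n ≤ 3 lam` and
  `√(2^jL) ≥ h^{-0.1}`. If `jT > jL`: `n < lam^12 rou jT` gives
  `2^jT ≥ n^{5/6} h^{1/2} lam^{-36}`, hence `√(h n)/√(2^jT) ≤ (h n^{1/3})^{1/4} lam^18 ≤ lam^{-57}`;
  and `√(2^jT) ≥ h^{-0.1} ≥ lam³`.
  (4): `jT = jL`: `2^jL ≤ h^{-0.21}`, `n^{2/3} ≥ lam^8 h^{-0.28}`. `jT > jL`:
  `lam^12 rou (jT-1) ≤ n` gives `2^(jT-1) ≤ n^{2/3} (h n^{1/3})^{1/2} lam^{-35}`.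
-/

namespace BGE

private theorem pj_pow_exp (C0 : ℝ) : ∃ L0 : ℝ, 1 ≤ L0 ∧ C0 ≤ L0 ∧ ∀ L : ℝ, L0 ≤ L →
    (L ^ 20) ^ 1000 ≤ Real.exp ((1 / 1000 : ℝ) * L) := by
  have h := isLittleO_pow_exp_pos_mul_atTop (k := 20 * 1000) (b := (1 / 1000 : ℝ)) (by norm_num)
  have h2 := h.bound (c := 1) one_pos
  rw [Filter.eventually_atTop] at h2
  obtain ⟨a, ha⟩ := h2
  refine ⟨max (max a C0) 1, le_max_right _ _, (le_max_right _ _).trans (le_max_left _ _), ?_⟩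
  intro L hL
  have h3 := ha L (((le_max_left _ _).trans (le_max_left _ _)).trans hL)
  have hL1 : 1 ≤ L := (le_max_right _ _).trans hL
  rw [Real.norm_eq_abs, Real.norm_eq_abs, abs_of_nonneg (by positivity),
    abs_of_pos (Real.exp_pos _), one_mul, pow_mul] at h3
  exact h3

theorem hp_small (C0 : ℝ) : ∃ h0 : ℝ, 0 < h0 ∧ ∀ h : ℝ, 0 < h → h ≤ h0 →
    HP C0 h (Real.log (1 / h) ^ 20) := by
  obtain ⟨L0, h1, h2, h3⟩ := pj_pow_exp C0
  refine ⟨Real.exp (-L0), Real.exp_pos _, ?_⟩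
  intro h hh hle
  have hL : L0 ≤ Real.log (1 / h) := by
    rw [one_div, Real.log_inv]
    have := Real.log_le_log hh hle
    rw [Real.log_exp] at this
    linarith
  have hlt : h < 1 := by
    refine hle.trans_lt ?_
    rw [Real.exp_lt_one_iff]
    linarith
  refine ⟨hh, hlt, h2.trans hL, rfl, (h3 _ hL).trans (le_of_eq ?_)⟩
  rw [Real.rpow_def_of_pos (inv_pos.mpr hh), one_div h, mul_comm]

theorem HP.mono {C0 C1 h lam : ℝ} (h1 : HP C1 h lam) (h2 : C0 ≤ C1) : HP C0 h lam :=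
  ⟨h1.1, h1.2.1, h2.trans h1.2.2.1, h1.2.2.2.1, h1.2.2.2.2⟩

theorem hp_basic {C0 h lam : ℝ} (hC : 2 ≤ C0) (hp : HP C0 h lam) :
    C0 ≤ lam ∧ Real.log (1 / h) ≤ lam ∧ h ^ (1 / 1000 : ℝ) * lam ^ 1000 ≤ 1 := by
  obtain ⟨h0, h1, h2, h3, h4⟩ := hp
  have hL1 : 1 ≤ Real.log (1 / h) := by linarith
  have hL : Real.log (1 / h) ≤ lam := by
    rw [h3]
    exact le_self_pow₀ hL1 (by norm_num)
  refine ⟨h2.trans hL, hL, ?_⟩
  have hpos : 0 < h ^ (1 / 1000 : ℝ) := Real.rpow_pos_of_pos h0 _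
  calc h ^ (1 / 1000 : ℝ) * lam ^ 1000 ≤ h ^ (1 / 1000 : ℝ) * h⁻¹ ^ (1 / 1000 : ℝ) :=
        mul_le_mul_of_nonneg_left h4 hpos.le
    _ = 1 := by
        rw [Real.inv_rpow h0.le]
        exact mul_inv_cancel₀ hpos.ne'

theorem par_crude {κ C0 : ℝ} (hκ : 0 < κ) (hC : 1 ≤ C0) : ∃ C1 : ℝ, 2 ≤ C1 ∧
    ∀ (σ h lam : ℝ) (n : ℕ), HP C1 h lam → κ ≤ σ → σ ≤ 1 - κ → C0 * lam ^ 3 ≤ n →
    Par C0 κ σ lam (2 * lam) (C0 * lam ^ 3) n := by
  refine ⟨max 2 C0, le_max_left _ _, ?_⟩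
  intro σ h lam n hp h1 h2 h3
  have hb := (hp_basic (le_max_left _ _) hp).1
  have h4 : C0 ≤ lam := (le_max_right _ _).trans hb
  exact ⟨h1, h2, by linarith, le_rfl, le_rfl, h3⟩

private theorem pj_third {lam x : ℝ} (hl : 0 ≤ lam) (h1 : 125000 * lam ^ 3 ≤ x) :
    50 * lam ≤ x ^ (1 / 3 : ℝ) := by
  have h3 : (50 * lam) ^ 3 ≤ x := by nlinarith
  have h4 : ((50 * lam) ^ 3 : ℝ) ^ (1 / 3 : ℝ) = 50 * lam := by
    rw [← Real.rpow_natCast, ← Real.rpow_mul (by positivity)]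
    norm_num
  rw [← h4]
  exact Real.rpow_le_rpow (by positivity) h3 (by norm_num)

/-- crude regularity in the box gives `GoodE` for `Y = 2 lam` -/
theorem good_crude {κ : ℝ} (hκ : 0 < κ) : ∃ C1 : ℝ, 2 ≤ C1 ∧
    ∀ (C0 σ h lam : ℝ) (n m : ℕ) (ω : ℤ × ℤ → ℝ), C1 ≤ C0 → HP C1 h lam → κ ≤ σ → σ ≤ 1 - κ →
    C0 * lam ^ 3 ≤ n → 4 * n ≤ m → CrE κ lam m ω →
    GoodE κ σ lam (2 * lam) (C0 * lam ^ 3) n ω := by
  refine ⟨125000, by norm_num, ?_⟩
  intro C0 σ h lam n m ω hC hp h1 h2 h3 h4 h5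
  have hb := (hp_basic (by norm_num) hp).1
  have hl0 : (0 : ℝ) ≤ lam := by linarith
  have hl1 : (1 : ℝ) ≤ lam := by linarith
  have hl3 : (1 : ℝ) ≤ lam ^ 3 := one_le_pow₀ hl1
  have hC3 : 125000 * lam ^ 3 ≤ C0 * lam ^ 3 := mul_le_mul_of_nonneg_right hC (by positivity)
  exact goodE_of_crE (by linarith) (by linarith) hl1 (by linarith)
    (pj_third hl0 (hC3.trans h3)) (crE_mono h5 h4)

/-! ### Logarithms -/

/-- basic facts on the logarithms -/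
private theorem pj_logs {C1 h lam : ℝ} (hC : 2 ≤ C1) (hp : HP C1 h lam) :
    0 < h ∧ 0 < lam ∧ 13 ≤ Real.log lam ∧ 1000000 * Real.log lam ≤ -Real.log h := by
  obtain ⟨h0, h1, h2, h3, h4⟩ := hp
  have hLe : Real.log (1 / h) = -Real.log h := by rw [one_div, Real.log_inv]
  have hL2 : 2 ≤ Real.log (1 / h) := hC.trans h2
  have hlam : 0 < lam := by rw [h3]; positivity
  have hl : Real.log lam = 20 * Real.log (Real.log (1 / h)) := by
    rw [h3, Real.log_pow]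
    norm_num
  have h13 : 13 ≤ Real.log lam := by
    rw [hl]
    have := Real.log_le_log (by norm_num) hL2
    have h5 := Real.log_two_gt_d9
    linarith
  refine ⟨h0, hlam, h13, ?_⟩
  have h6 := Real.log_le_log (by positivity) h4
  rw [Real.log_pow, Real.log_rpow (inv_pos.mpr h0), Real.log_inv] at h6
  push_cast at h6
  linarith

private theorem pj_log2 : (0.69 : ℝ) ≤ Real.log 2 ∧ Real.log 2 ≤ 0.7 :=
  ⟨by linarith [Real.log_two_gt_d9], by linarith [Real.log_two_lt_d9]⟩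

private theorem pj_th_pos {h : ℝ} (h0 : 0 < h) (j : ℕ) : 0 < th h j := by
  unfold th
  positivity

private theorem pj_log_th {h : ℝ} (h0 : 0 < h) (j : ℕ) :
    Real.log (th h j) = (2 * Real.log h + j * Real.log 2) / 20 := by
  unfold th
  rw [Real.log_rpow (by positivity), Real.log_mul (by positivity) (by positivity),
    Real.log_pow, Real.log_pow]
  push_cast
  ring

private theorem pj_log_X {h lam : ℝ} (h0 : 0 < h) (hl : 0 < lam) (j : ℕ) :
    Real.log (th h j ^ 2 * 2 ^ j / lam ^ 6) =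
      Real.log h / 5 + 11 / 10 * (j * Real.log 2) - 6 * Real.log lam := by
  have := pj_th_pos h0 j
  rw [Real.log_div (by positivity) (by positivity), Real.log_mul (by positivity) (by positivity),
    Real.log_pow, Real.log_pow, Real.log_pow, pj_log_th h0]
  push_cast
  ring

private theorem pj_log_Z {h lam : ℝ} (h0 : 0 < h) (hl : 0 < lam) (j : ℕ) :
    Real.log (lam ^ 20 * 2 ^ j / th h j ^ 4) =
      20 * Real.log lam + 4 / 5 * (j * Real.log 2) - 2 / 5 * Real.log h := by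
  have := pj_th_pos h0 j
  rw [Real.log_div (by positivity) (by positivity), Real.log_mul (by positivity) (by positivity),
    Real.log_pow, Real.log_pow, Real.log_pow, pj_log_th h0]
  push_cast
  ring

private theorem pj_jL {h : ℝ} (h0 : 0 < h) (h1 : h < 1) :
    (jL h : ℝ) * Real.log 2 ≤ -(21 / 100) * Real.log h ∧
    -(21 / 100) * Real.log h < (jL h + 1) * Real.log 2 := by
  have hlog : Real.log h < 0 := Real.log_neg h0 h1
  have h2 : 0 < Real.log 2 := Real.log_pos (by norm_num)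
  have hx : Real.logb 2 (h⁻¹ ^ (21 / 100 : ℝ)) * Real.log 2 = -(21 / 100) * Real.log h := by
    unfold Real.logb
    rw [div_mul_cancel₀ _ h2.ne', Real.log_rpow (inv_pos.mpr h0), Real.log_inv]
    ring
  have hx0 : 0 ≤ Real.logb 2 (h⁻¹ ^ (21 / 100 : ℝ)) := by
    by_contra hcon
    push Not at hcon
    have := mul_neg_of_neg_of_pos hcon h2
    rw [hx] at this
    linarith
  have e1 := Nat.floor_le hx0
  have e2 := Nat.lt_floor_add_one (Real.logb 2 (h⁻¹ ^ (21 / 100 : ℝ)))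
  unfold jL
  constructor
  · rw [← hx]
    exact mul_le_mul_of_nonneg_right e1 h2.le
  · rw [← hx]
    exact mul_lt_mul_of_pos_right e2 h2

/-- the low scales: `2^jL ≤ h^{-21/100} < 2^(jL+1)` etc. -/
theorem low_bounds : ∃ C1 : ℝ, 2 ≤ C1 ∧ ∀ (h lam : ℝ), HP C1 h lam →
    (2 : ℝ) ^ jL h ≤ h⁻¹ ^ (21 / 100 : ℝ) ∧ h⁻¹ ^ (21 / 100 : ℝ) < 2 ^ (jL h + 1) ∧
    h⁻¹ ^ (21 / 50 : ℝ) ≤ rL h ∧ (rL h : ℝ) ≤ 2 * h⁻¹ ^ (21 / 50 : ℝ) := by
  refine ⟨2, le_rfl, ?_⟩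
  intro h lam hp
  have h0 := hp.1
  have h1 := hp.2.1
  obtain ⟨hj1, hj2⟩ := pj_jL h0 h1
  have hi : 0 < h⁻¹ := inv_pos.mpr h0
  refine ⟨?_, ?_, ?_, ?_⟩
  · rw [← Real.log_le_log_iff (by positivity) (by positivity), Real.log_pow,
      Real.log_rpow hi, Real.log_inv]
    linarith
  · rw [← Real.log_lt_log_iff (by positivity) (by positivity), Real.log_pow,
      Real.log_rpow hi, Real.log_inv]
    push_cast
    linarith
  · unfold rL
    exact Nat.le_ceil _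
  · unfold rL
    have h2 : 1 ≤ h⁻¹ ^ (21 / 50 : ℝ) := by
      apply Real.one_le_rpow _ (by norm_num)
      exact (one_le_inv₀ h0).mpr h1.le
    have h3 := Nat.ceil_lt_add_one (show 0 ≤ h⁻¹ ^ (21 / 50 : ℝ) by positivity)
    linarith

/-- floors of `3/2` powers -/
private theorem pj_floor {X : ℝ} (hX : 2 ≤ X) :
    X / 2 ≤ ((⌊X ^ (3 / 2 : ℝ)⌋₊ : ℕ) : ℝ) ^ (2 / 3 : ℝ) ∧
    ((⌊X ^ (3 / 2 : ℝ)⌋₊ : ℕ) : ℝ) ^ (2 / 3 : ℝ) ≤ X ∧ (X / 2) ^ (3 / 2 : ℝ) ≤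
      ((⌊X ^ (3 / 2 : ℝ)⌋₊ : ℕ) : ℝ) := by
  have hX0 : 0 ≤ X := by linarith
  have e1 := Nat.floor_le (show 0 ≤ X ^ (3 / 2 : ℝ) by positivity)
  have e2 := Nat.lt_floor_add_one (X ^ (3 / 2 : ℝ))
  have e3 : (X / 2) ^ (3 / 2 : ℝ) ≤ X / 2 * (X / 2) := by
    calc (X / 2) ^ (3 / 2 : ℝ) ≤ (X / 2) ^ (2 : ℝ) :=
          Real.rpow_le_rpow_of_exponent_le (by linarith) (by norm_num)
      _ = X / 2 * (X / 2) := by rw [Real.rpow_two]; ring
  have e4 : (X / 2) ^ (3 / 2 : ℝ) * (2 : ℝ) ^ (3 / 2 : ℝ) = X ^ (3 / 2 : ℝ) := by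
    rw [← Real.mul_rpow (by linarith) (by norm_num)]
    congr 1
    ring
  have e5 : (2 : ℝ) ≤ (2 : ℝ) ^ (3 / 2 : ℝ) := by
    calc (2 : ℝ) = 2 ^ (1 : ℝ) := (Real.rpow_one 2).symm
      _ ≤ 2 ^ (3 / 2 : ℝ) := Real.rpow_le_rpow_of_exponent_le (by norm_num) (by norm_num)
  have e6 : (1 : ℝ) ≤ (X / 2) ^ (3 / 2 : ℝ) := Real.one_le_rpow (by linarith) (by norm_num)
  have e7 : (X / 2) ^ (3 / 2 : ℝ) ≤ ((⌊X ^ (3 / 2 : ℝ)⌋₊ : ℕ) : ℝ) := by
    nlinarith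
  refine ⟨?_, ?_, e7⟩
  · calc X / 2 = ((X / 2) ^ (3 / 2 : ℝ)) ^ (2 / 3 : ℝ) := by
          rw [← Real.rpow_mul (by linarith)]
          norm_num
      _ ≤ _ := Real.rpow_le_rpow (by positivity) e7 (by norm_num)
  · calc ((⌊X ^ (3 / 2 : ℝ)⌋₊ : ℕ) : ℝ) ^ (2 / 3 : ℝ) ≤ (X ^ (3 / 2 : ℝ)) ^ (2 / 3 : ℝ) :=
          Real.rpow_le_rpow (by positivity) e1 (by norm_num)
      _ = X := by
          rw [← Real.rpow_mul hX0]
          norm_num

private theorem pj_ceil {X : ℝ} (hX : 1 ≤ X) :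
    X ≤ ((⌈X ^ (3 / 2 : ℝ)⌉₊ : ℕ) : ℝ) ^ (2 / 3 : ℝ) ∧
    ((⌈X ^ (3 / 2 : ℝ)⌉₊ : ℕ) : ℝ) ^ (2 / 3 : ℝ) ≤ 2 * X := by
  have hX0 : 0 ≤ X := by linarith
  have e1 := Nat.le_ceil (X ^ (3 / 2 : ℝ))
  have e2 := Nat.ceil_lt_add_one (show 0 ≤ X ^ (3 / 2 : ℝ) by positivity)
  have e3 : (1 : ℝ) ≤ X ^ (3 / 2 : ℝ) := Real.one_le_rpow hX (by norm_num)
  have e4 : (2 * X) ^ (3 / 2 : ℝ) = (2 : ℝ) ^ (3 / 2 : ℝ) * X ^ (3 / 2 : ℝ) :=
    Real.mul_rpow (by norm_num) hX0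
  have e5 : (2 : ℝ) ≤ (2 : ℝ) ^ (3 / 2 : ℝ) := by
    calc (2 : ℝ) = 2 ^ (1 : ℝ) := (Real.rpow_one 2).symm
      _ ≤ 2 ^ (3 / 2 : ℝ) := Real.rpow_le_rpow_of_exponent_le (by norm_num) (by norm_num)
  constructor
  · calc X = (X ^ (3 / 2 : ℝ)) ^ (2 / 3 : ℝ) := by
          rw [← Real.rpow_mul hX0]
          norm_num
      _ ≤ _ := Real.rpow_le_rpow (by positivity) e1 (by norm_num)
  · calc ((⌈X ^ (3 / 2 : ℝ)⌉₊ : ℕ) : ℝ) ^ (2 / 3 : ℝ) ≤ ((2 * X) ^ (3 / 2 : ℝ)) ^ (2 / 3 : ℝ) := by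
          apply Real.rpow_le_rpow (by positivity) _ (by norm_num)
          rw [e4]
          nlinarith
      _ = 2 * X := by
          rw [← Real.rpow_mul (by linarith)]
          norm_num

theorem rin_bounds (C0 : ℝ) : ∃ C1 : ℝ, 2 ≤ C1 ∧ ∀ (h lam : ℝ) (j : ℕ), HP C1 h lam →
    jL h ≤ j → 1 ≤ j ∧ C0 * lam ^ 3 ≤ rin h lam j ∧
      th h j ^ 2 * 2 ^ j / (2 * lam ^ 6) ≤ (rin h lam j : ℝ) ^ (2 / 3 : ℝ) ∧
      (rin h lam j : ℝ) ^ (2 / 3 : ℝ) ≤ th h j ^ 2 * 2 ^ j / lam ^ 6 ∧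
      h⁻¹ ^ (3 / 100 : ℝ) ≤ th h j ^ 2 * 2 ^ j := by
  refine ⟨max 2 C0, le_max_left _ _, ?_⟩
  intro h lam j hp hj
  obtain ⟨h0, hlam, h13, hbig⟩ := pj_logs (le_max_left _ _) hp
  have h1 := hp.2.1
  have hlC : C0 ≤ lam := (le_max_right _ _).trans (hp_basic (le_max_left _ _) hp).1
  obtain ⟨hj1, hj2⟩ := pj_jL h0 h1
  obtain ⟨hlo, hhi⟩ := pj_log2
  have hjj : ((jL h : ℕ) : ℝ) * Real.log 2 ≤ (j : ℝ) * Real.log 2 := by
    apply mul_le_mul_of_nonneg_right _ (by linarith)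
    exact_mod_cast hj
  have hth := pj_th_pos h0 j
  have hlogX := pj_log_X h0 hlam j
  have hlb : 4 * Real.log lam ≤ Real.log (th h j ^ 2 * 2 ^ j / lam ^ 6) - Real.log 2 := by
    rw [hlogX]
    linarith
  set X : ℝ := th h j ^ 2 * 2 ^ j / lam ^ 6 with hX
  have hXpos : 0 < X := by positivity
  have hX2 : lam ^ 4 ≤ X / 2 := by
    rw [← Real.log_le_log_iff (by positivity) (by positivity), Real.log_pow,
      Real.log_div hXpos.ne' (by norm_num)]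
    push_cast
    exact hlb
  have hlam1 : 1 ≤ lam := by
    by_contra hcon
    push Not at hcon
    have := Real.log_nonpos hlam.le hcon.le
    linarith
  have hl4 : 1 ≤ lam ^ 4 := one_le_pow₀ hlam1
  obtain ⟨f1, f2, f3⟩ := pj_floor (X := X) (by linarith)
  have hrin : rin h lam j = ⌊X ^ (3 / 2 : ℝ)⌋₊ := rfl
  rw [hrin]
  refine ⟨?_, ?_, ?_, f2, ?_⟩
  · by_contra hcon
    have hj0 : j = 0 := by omega
    have hjL : jL h = 0 := by omega
    rw [hjL] at hj2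
    push_cast at hj2
    linarith
  · refine le_trans ?_ f3
    calc C0 * lam ^ 3 ≤ lam * lam ^ 3 := mul_le_mul_of_nonneg_right hlC (by positivity)
      _ = lam ^ 4 := by ring
      _ ≤ X / 2 := hX2
      _ = (X / 2) ^ (1 : ℝ) := (Real.rpow_one _).symm
      _ ≤ (X / 2) ^ (3 / 2 : ℝ) :=
          Real.rpow_le_rpow_of_exponent_le (by linarith) (by norm_num)
  · refine le_trans (le_of_eq ?_) f1
    rw [hX]
    field_simp
  · have hlog2 : Real.log (th h j ^ 2 * 2 ^ j) =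
        Real.log h / 5 + 11 / 10 * (j * Real.log 2) := by
      rw [Real.log_mul (by positivity) (by positivity), Real.log_pow, Real.log_pow,
        pj_log_th h0]
      push_cast
      ring
    rw [← Real.log_le_log_iff (by positivity) (by positivity), hlog2,
      Real.log_rpow (inv_pos.mpr h0), Real.log_inv]
    linarith

private theorem pj_Z_one {h lam : ℝ} (h0 : 0 < h) (h1 : h < 1) (hlam : 0 < lam)
    (h13 : 13 ≤ Real.log lam) (j : ℕ) : 1 ≤ lam ^ 20 * 2 ^ j / th h j ^ 4 := by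
  have hth := pj_th_pos h0 j
  have hlog : Real.log h < 0 := Real.log_neg h0 h1
  obtain ⟨hlo, hhi⟩ := pj_log2
  have hj0 : (0 : ℝ) ≤ (j : ℝ) * Real.log 2 := by positivity
  rw [← Real.log_le_log_iff (by norm_num) (by positivity), pj_log_Z h0 hlam, Real.log_one]
  linarith

theorem rou_bounds : ∃ C1 : ℝ, 2 ≤ C1 ∧ ∀ (h lam : ℝ) (j : ℕ), HP C1 h lam →
    lam ^ 20 * 2 ^ j / th h j ^ 4 ≤ (rou h lam j : ℝ) ^ (2 / 3 : ℝ) ∧
      (rou h lam j : ℝ) ^ (2 / 3 : ℝ) ≤ 2 * (lam ^ 20 * 2 ^ j / th h j ^ 4) := by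
  refine ⟨2, le_rfl, ?_⟩
  intro h lam j hp
  obtain ⟨h0, hlam, h13, hbig⟩ := pj_logs le_rfl hp
  exact pj_ceil (pj_Z_one h0 hp.2.1 hlam h13 j)

/-- the logarithm of the outer scale -/
private theorem pj_log_rou {h lam : ℝ} (h0 : 0 < h) (h1 : h < 1) (hlam : 0 < lam)
    (h13 : 13 ≤ Real.log lam) (j : ℕ) : 0 < (rou h lam j : ℝ) ∧
    3 / 2 * (20 * Real.log lam + 4 / 5 * (j * Real.log 2) - 2 / 5 * Real.log h) ≤
      Real.log (rou h lam j) ∧
    Real.log (rou h lam j) ≤ 3 / 2 * (Real.log 2 + (20 * Real.log lam +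
      4 / 5 * (j * Real.log 2) - 2 / 5 * Real.log h)) := by
  have hth := pj_th_pos h0 j
  have hZ := pj_Z_one h0 h1 hlam h13 j
  have hlogZ := pj_log_Z h0 hlam j
  obtain ⟨c1, c2⟩ := pj_ceil hZ
  have hrou : rou h lam j = ⌈(lam ^ 20 * 2 ^ j / th h j ^ 4) ^ (3 / 2 : ℝ)⌉₊ := rfl
  rw [← hrou] at c1 c2
  have hZpos : 0 < lam ^ 20 * 2 ^ j / th h j ^ 4 := by positivity
  have hpos : 0 < (rou h lam j : ℝ) := by
    rcases Nat.eq_zero_or_pos (rou h lam j) with hz | hz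
    · rw [hz] at c1
      rw [Nat.cast_zero, Real.zero_rpow (by norm_num)] at c1
      linarith
    · exact_mod_cast hz
  refine ⟨hpos, ?_, ?_⟩
  · have := Real.log_le_log hZpos c1
    rw [hlogZ, Real.log_rpow hpos] at this
    linarith
  · have := Real.log_le_log (Real.rpow_pos_of_pos hpos _) c2
    rw [Real.log_mul (by norm_num) hZpos.ne', hlogZ, Real.log_rpow hpos] at this
    linarith

theorem jT_spec : ∃ C1 : ℝ, 2 ≤ C1 ∧ ∀ (h lam : ℝ) (n : ℕ), HP C1 h lam →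
    lam ^ 12 * rL h ≤ n → h * (n : ℝ) ^ (1 / 3 : ℝ) * lam ^ 300 ≤ 1 →
    jL h ≤ jT h lam n ∧
    (∀ j, jL h ≤ j → j < jT h lam n → lam ^ 12 * rou h lam j ≤ n) ∧
    sl h lam n ≤ √(2 ^ jT h lam n) / lam ∧
    (2 : ℝ) ^ jT h lam n ≤ (n : ℝ) ^ (2 / 3 : ℝ) / lam ^ 4 ∧
    (∀ j, j < jT h lam n → th h j ≤ (h ^ 2 * (n : ℝ) ^ (2 / 3 : ℝ)) ^ (1 / 20 : ℝ)) := by
  refine ⟨2, le_rfl, ?_⟩
  intro h lam n hp hn1 hn2
  obtain ⟨h0, hlam, h13, hbig⟩ := pj_logs le_rfl hp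
  have h1 := hp.2.1
  obtain ⟨hj1, hj2⟩ := pj_jL h0 h1
  obtain ⟨hlo, hhi⟩ := pj_log2
  have hlam1 : 1 ≤ lam := by
    by_contra hcon
    push Not at hcon
    have := Real.log_nonpos hlam.le hcon.le
    linarith
  have hlogh : Real.log h < 0 := Real.log_neg h0 h1
  -- the scale n
  have hrL : h⁻¹ ^ (21 / 50 : ℝ) ≤ rL h := by
    unfold rL
    exact Nat.le_ceil _
  have hrLpos : 0 < (rL h : ℝ) := lt_of_lt_of_le (by positivity) hrL
  have hnpos : 0 < (n : ℝ) := lt_of_lt_of_le (by positivity) hn1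
  have hN1 : 12 * Real.log lam - 21 / 50 * Real.log h ≤ Real.log n := by
    have e1 := Real.log_le_log (by positivity) hn1
    have e2 := Real.log_le_log (by positivity) hrL
    rw [Real.log_mul (by positivity) hrLpos.ne', Real.log_pow] at e1
    rw [Real.log_rpow (inv_pos.mpr h0), Real.log_inv] at e2
    push_cast at e1
    linarith
  have hN2 : Real.log h + Real.log n / 3 + 300 * Real.log lam ≤ 0 := by
    have e1 := Real.log_le_log (by positivity) hn2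
    rw [Real.log_mul (by positivity) (by positivity), Real.log_mul h0.ne' (by positivity),
      Real.log_pow, Real.log_rpow hnpos, Real.log_one] at e1
    push_cast at e1
    linarith
  -- the set is not empty
  have hne : {j : ℕ | jL h ≤ j ∧ (n : ℝ) < lam ^ 12 * rou h lam j}.Nonempty := by
    refine ⟨max (jL h) (2 * n), le_max_left _ _, ?_⟩
    obtain ⟨hr, hr1, hr2⟩ := pj_log_rou h0 h1 hlam h13 (max (jL h) (2 * n))
    have hcast : (2 * (n : ℝ)) * Real.log 2 ≤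
        ((max (jL h) (2 * n) : ℕ) : ℝ) * Real.log 2 := by
      apply mul_le_mul_of_nonneg_right _ (by linarith)
      have : 2 * n ≤ max (jL h) (2 * n) := le_max_right _ _
      exact_mod_cast this
    have hlogn : Real.log n ≤ n := by
      have := Real.log_le_sub_one_of_pos hnpos
      linarith
    rw [← Real.log_lt_log_iff hnpos (by positivity), Real.log_mul (by positivity) hr.ne',
      Real.log_pow]
    push_cast
    have : (0.69 : ℝ) * (2 * n) ≤ (2 * (n : ℝ)) * Real.log 2 := by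
      rw [mul_comm]
      exact mul_le_mul_of_nonneg_left hlo (by positivity)
    linarith
  have hmem : jT h lam n ∈ {j : ℕ | jL h ≤ j ∧ (n : ℝ) < lam ^ 12 * rou h lam j} :=
    Nat.sInf_mem hne
  obtain ⟨hm1, hm2⟩ := hmem
  have hbelow : ∀ j, jL h ≤ j → j < jT h lam n → lam ^ 12 * rou h lam j ≤ n := by
    intro j hj hjlt
    by_contra hcon
    push Not at hcon
    exact Nat.notMem_of_lt_sInf hjlt ⟨hj, hcon⟩
  -- lower bound for 2^jT
  set J : ℝ := (jT h lam n : ℝ) * Real.log 2 with hJ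
  have hJL : -(21 / 100) * Real.log h - Real.log 2 ≤ J := by
    have : ((jL h : ℕ) : ℝ) * Real.log 2 ≤ J := by
      apply mul_le_mul_of_nonneg_right _ (by linarith)
      exact_mod_cast hm1
    linarith
  have hJN : 5 / 6 * Real.log n - 36 * Real.log lam + Real.log h / 2 ≤ J := by
    obtain ⟨hr, hr1, hr2⟩ := pj_log_rou h0 h1 hlam h13 (jT h lam n)
    have e1 := Real.log_le_log hnpos hm2.le
    rw [Real.log_mul (by positivity) hr.ne', Real.log_pow] at e1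
    push_cast at e1
    rw [← hJ] at hr2
    linarith
  -- upper bound for 2^jT
  have hJU : J ≤ 2 / 3 * Real.log n - 4 * Real.log lam := by
    rcases Nat.lt_or_ge (jL h) (jT h lam n) with hlt | hge
    · have hb := hbelow (jT h lam n - 1) (by omega) (by omega)
      obtain ⟨hr, hr1, hr2⟩ := pj_log_rou h0 h1 hlam h13 (jT h lam n - 1)
      have e1 := Real.log_le_log (by positivity) hb
      rw [Real.log_mul (by positivity) hr.ne', Real.log_pow] at e1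
      have hc : ((jT h lam n - 1 : ℕ) : ℝ) * Real.log 2 = J - Real.log 2 := by
        rw [Nat.cast_sub (by omega), hJ]
        push_cast
        ring
      rw [hc] at hr1
      push_cast at e1
      linarith
    · have heq : jT h lam n = jL h := le_antisymm hge hm1
      have : J ≤ -(21 / 100) * Real.log h := by
        rw [hJ, heq]
        exact hj1
      linarith
  have hlogJ : Real.log ((2 : ℝ) ^ jT h lam n) = J := by
    rw [Real.log_pow]
  have h2J : (2 : ℝ) ^ jT h lam n ≤ (n : ℝ) ^ (2 / 3 : ℝ) / lam ^ 4 := by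
    rw [← Real.log_le_log_iff (by positivity) (by positivity), hlogJ,
      Real.log_div (by positivity) (by positivity), Real.log_rpow hnpos, Real.log_pow]
    push_cast
    exact hJU
  refine ⟨hm1, hbelow, ?_, h2J, ?_⟩
  · -- slack
    have hs : 0 < √((2 : ℝ) ^ jT h lam n) := Real.sqrt_pos.mpr (by positivity)
    have hls : Real.log √((2 : ℝ) ^ jT h lam n) = J / 2 := by
      rw [Real.log_sqrt (by positivity), hlogJ]
    have hlq : Real.log (√((2 : ℝ) ^ jT h lam n) / (2 * lam)) =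
        J / 2 - Real.log 2 - Real.log lam := by
      rw [Real.log_div hs.ne' (by positivity), hls, Real.log_mul (by norm_num) hlam.ne']
      ring
    have e1 : lam * √(2 * h * n) ≤ √((2 : ℝ) ^ jT h lam n) / (2 * lam) := by
      have hq : 0 < √(2 * h * n) := Real.sqrt_pos.mpr (by positivity)
      rw [← Real.log_le_log_iff (by positivity) (by positivity), hlq,
        Real.log_mul hlam.ne' hq.ne', Real.log_sqrt (by positivity),
        Real.log_mul (by positivity) hnpos.ne', Real.log_mul (by norm_num) h0.ne']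
      linarith
    have e2 : lam * 1 ≤ √((2 : ℝ) ^ jT h lam n) / (2 * lam) := by
      rw [mul_one, ← Real.log_le_log_iff (by positivity) (by positivity), hlq]
      linarith
    unfold sl
    calc lam * (√(2 * h * n) + 1) = lam * √(2 * h * n) + lam * 1 := by ring
      _ ≤ √((2 : ℝ) ^ jT h lam n) / (2 * lam) + √((2 : ℝ) ^ jT h lam n) / (2 * lam) :=
          add_le_add e1 e2
      _ = √((2 : ℝ) ^ jT h lam n) / lam := by
          field_simp
          ring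
  · intro j hj
    unfold th
    apply Real.rpow_le_rpow (by positivity) _ (by norm_num)
    apply mul_le_mul_of_nonneg_left _ (by positivity)
    calc (2 : ℝ) ^ j ≤ 2 ^ jT h lam n := pow_le_pow_right₀ (by norm_num) hj.le
      _ ≤ (n : ℝ) ^ (2 / 3 : ℝ) / lam ^ 4 := h2J
      _ ≤ (n : ℝ) ^ (2 / 3 : ℝ) := div_le_self (by positivity) (one_le_pow₀ hlam1)

end BGE
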