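import Pool.Agent.BGE.FDefs
import Pool.Agent.BGE.ParJ

/-!
BGE / F0. The parameters of the top scales (real analysis).

`L = log (1/h) ≥ C1`, `lam = L^20`. `h (nn h k)^{1/3}` is between `L^{-esc k}/2` and `L^{-esc k}`
(`esc` is increasing, `esc 25 ∈ (22720, 22740)`, i.e. `lam^1136 ≤ L^{esc 25} ≤ lam^1137`), because
`h⁻¹/L^{esc k}` is large (`HP`: `lam^1000 ≤ h^{-1/1000}` hence also `lam^4000 ≤ h^{-1/250}`).
* `fy`: `C0 ≤ yy h`, `yy h ≤ lam`, and `yy^400 · C ≤ L^{1/50}`.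
* `fn`: basic bounds for `nn`. (6): `√(h nn k) = (h nn(k)^{1/3})^{1/2} nn(k)^{1/3} ≤ L^{-(3/2) esc k}/h
  = L^{-esc (k+1)}/h ≤ 2 nn(k+1)^{1/3}`. (5): `nn k/nn (k+1) ≥ c L^{3 esc k/2}`.
* `fb`: bounds for `nb = ⌊nn 25/lam^12⌋`, and for `sl` at the scale `nn 25`: with the estimate of
  `jT_spec` (3): `2^jT ≥ nb^{5/6} h^{1/2} lam^{-36}` (or `2^jL ≥ h^{-0.2}` if `jT = jL`), so
  `√(h nn25)/√(2^jT) ≤ lam^24 (h nb^{1/3})^{1/4} ≤ lam^{-200}`.
-/

namespace BGE

private theorem fp_log2 : (0.69 : ℝ) ≤ Real.log 2 ∧ Real.log 2 ≤ 0.7 :=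
  ⟨by linarith [Real.log_two_gt_d9], by linarith [Real.log_two_lt_d9]⟩

private theorem fp_esc0 : esc 0 = 9 / 10 := by
  simp [esc]

private theorem fp_escS (k : ℕ) : esc (k + 1) = 3 / 2 * esc k := by
  unfold esc
  rw [pow_succ]
  ring

private theorem fp_esc25 : 22726 ≤ esc 25 ∧ esc 25 ≤ 22727 := by
  unfold esc
  constructor <;> norm_num

private theorem fp_esc_mono {j k : ℕ} (h : j ≤ k) : esc j ≤ esc k := by
  unfold esc
  have : (3 / 2 : ℝ) ^ j ≤ (3 / 2 : ℝ) ^ k := pow_le_pow_right₀ (by norm_num) h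
  linarith

private theorem fp_esc_pos (k : ℕ) : 9 / 10 ≤ esc k := by
  rw [← fp_esc0]
  exact fp_esc_mono (Nat.zero_le k)

/-- basic facts on the logarithms -/
private theorem fp_logs {C1 h lam : ℝ} (hC : 64 ≤ C1) (hp : HP C1 h lam) :
    0 < h ∧ 64 ≤ Real.log (1 / h) ∧ 0 < lam ∧
      Real.log lam = 20 * Real.log (Real.log (1 / h)) ∧
      Real.log h = -Real.log (1 / h) ∧ 4 ≤ Real.log (Real.log (1 / h)) ∧
      20000000 * Real.log (Real.log (1 / h)) ≤ Real.log (1 / h) ∧ C1 ≤ Real.log (1 / h) := by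
  obtain ⟨h0, h1, h2, h3, h4⟩ := hp
  have hLe : Real.log (1 / h) = -Real.log h := by rw [one_div, Real.log_inv]
  have hL2 : 64 ≤ Real.log (1 / h) := hC.trans h2
  have hlam : 0 < lam := by rw [h3]; positivity
  have hl : Real.log lam = 20 * Real.log (Real.log (1 / h)) := by
    rw [h3, Real.log_pow]
    norm_num
  have h13 : 4 ≤ Real.log (Real.log (1 / h)) := by
    have h6 := Real.log_le_log (by norm_num) hL2
    have h7 : Real.log (64 : ℝ) = 6 * Real.log 2 := by
      rw [show (64 : ℝ) = 2 ^ 6 by norm_num, Real.log_pow]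
      norm_num
    have h5 := Real.log_two_gt_d9
    linarith
  refine ⟨h0, hL2, hlam, hl, by linarith, h13, ?_, h2⟩
  have h6 := Real.log_le_log (by positivity) h4
  rw [Real.log_pow, Real.log_rpow (inv_pos.mpr h0), Real.log_inv, hl] at h6
  push_cast at h6
  linarith

/-- the real scale -/
private noncomputable def fA (h : ℝ) (k : ℕ) : ℝ := h⁻¹ / Real.log (1 / h) ^ esc k

private theorem fp_A {C1 h lam : ℝ} (hC : 64 ≤ C1) (hp : HP C1 h lam) (k : ℕ) :
    0 < fA h k ∧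
      Real.log (fA h k) = Real.log (1 / h) - esc k * Real.log (Real.log (1 / h)) := by
  obtain ⟨h0, hL, hlam, e1, e2, e3, e4, -⟩ := fp_logs hC hp
  have hLp : 0 < Real.log (1 / h) := by linarith
  have hp1 : 0 < Real.log (1 / h) ^ esc k := Real.rpow_pos_of_pos hLp _
  refine ⟨div_pos (inv_pos.mpr h0) hp1, ?_⟩
  unfold fA
  rw [Real.log_div (inv_pos.mpr h0).ne' hp1.ne', Real.log_inv, Real.log_rpow hLp]
  linarith

private theorem fp_nn {C1 h lam : ℝ} (hC : 64 ≤ C1) (hp : HP C1 h lam) {k : ℕ} (hk : k ≤ 25) :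
    2 ≤ fA h k ∧ (fA h k / 2) ^ 3 ≤ (nn h k : ℝ) ∧ (nn h k : ℝ) ≤ fA h k ^ 3 ∧
      0 < (nn h k : ℝ) ∧
      fA h k / 2 ≤ (nn h k : ℝ) ^ (1 / 3 : ℝ) ∧ (nn h k : ℝ) ^ (1 / 3 : ℝ) ≤ fA h k ∧
      Real.log (nn h k) ≤ 3 * (Real.log (1 / h) - esc k * Real.log (Real.log (1 / h))) ∧
      3 * (Real.log (1 / h) - esc k * Real.log (Real.log (1 / h)) - Real.log 2) ≤
        Real.log (nn h k) := by
  obtain ⟨h0, hL, hlam, e1, e2, e3, e4, -⟩ := fp_logs hC hp
  obtain ⟨a1, a2⟩ := fp_A hC hp k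
  obtain ⟨l1, l2⟩ := fp_log2
  have hesc : esc k ≤ 22727 := (fp_esc_mono hk).trans fp_esc25.2
  have hmul : esc k * Real.log (Real.log (1 / h)) ≤ 22727 * Real.log (Real.log (1 / h)) :=
    mul_le_mul_of_nonneg_right hesc (by linarith)
  have hA2 : 2 ≤ fA h k := by
    rw [← Real.log_le_log_iff (by norm_num) a1, a2]
    linarith
  have hn : nn h k = ⌊fA h k ^ 3⌋₊ := rfl
  have f1 := Nat.floor_le (show 0 ≤ fA h k ^ 3 by positivity)
  have f2 := Nat.lt_floor_add_one (fA h k ^ 3)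
  rw [← hn] at f1 f2
  have f3 : (fA h k / 2) ^ 3 ≤ (nn h k : ℝ) := by
    have : (8 : ℝ) ≤ fA h k ^ 3 := by
      calc (8 : ℝ) = 2 ^ 3 := by norm_num
        _ ≤ fA h k ^ 3 := pow_le_pow_left₀ (by norm_num) hA2 3
    have e : (fA h k / 2) ^ 3 = fA h k ^ 3 / 8 := by ring
    rw [e]
    linarith
  have hnp : 0 < (nn h k : ℝ) := lt_of_lt_of_le (by positivity) f3
  have c1 : ∀ x : ℝ, 0 ≤ x → (x ^ 3) ^ (1 / 3 : ℝ) = x := by
    intro x hx
    rw [← Real.rpow_natCast, ← Real.rpow_mul hx]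
    norm_num
  refine ⟨hA2, f3, f1, hnp, ?_, ?_, ?_, ?_⟩
  · calc fA h k / 2 = ((fA h k / 2) ^ 3) ^ (1 / 3 : ℝ) := (c1 _ (by positivity)).symm
      _ ≤ _ := Real.rpow_le_rpow (by positivity) f3 (by norm_num)
  · calc (nn h k : ℝ) ^ (1 / 3 : ℝ) ≤ (fA h k ^ 3) ^ (1 / 3 : ℝ) :=
          Real.rpow_le_rpow (by positivity) f1 (by norm_num)
      _ = fA h k := c1 _ a1.le
  · have := Real.log_le_log hnp f1
    rw [Real.log_pow, a2] at this
    push_cast at this
    exact this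
  · have := Real.log_le_log (by positivity) f3
    rw [Real.log_pow, Real.log_div a1.ne' (by norm_num), a2] at this
    push_cast at this
    exact this

theorem nn_zero (h : ℝ) : nn h 0 = nst h := by
  unfold nn nst
  rw [fp_esc0]

theorem fy (C0 : ℝ) : ∃ C1 : ℝ, 2 ≤ C1 ∧ ∀ h lam : ℝ, HP C1 h lam →
    C0 ≤ yy h ∧ yy h ≤ lam ∧ yy h ^ 20000 = Real.log (1 / h) := by
  refine ⟨max 64 (max C0 0 ^ 20000), le_trans (by norm_num) (le_max_left _ _), ?_⟩
  intro h lam hp
  obtain ⟨h0, hL, hlam, e1, e2, e3, e4, e5⟩ := fp_logs (le_max_left _ _) hp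
  have hL0 : 0 ≤ Real.log (1 / h) := by linarith
  have hy0 : 0 ≤ yy h := by
    unfold yy
    positivity
  have h3 : yy h ^ 20000 = Real.log (1 / h) := by
    unfold yy
    rw [← Real.rpow_natCast, ← Real.rpow_mul hL0]
    norm_num
  refine ⟨?_, ?_, h3⟩
  · have h4 : max C0 0 ^ 20000 ≤ yy h ^ 20000 := by
      rw [h3]
      exact (le_max_right _ _).trans e5
    exact (le_max_left _ _).trans (le_of_pow_le_pow_left₀ (by norm_num) hy0 h4)
  · have hl3 := hp.2.2.2.1
    rw [hl3]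
    unfold yy
    calc Real.log (1 / h) ^ (1 / 20000 : ℝ) ≤ Real.log (1 / h) ^ (1 : ℝ) :=
          Real.rpow_le_rpow_of_exponent_le (by linarith) (by norm_num)
      _ = Real.log (1 / h) := Real.rpow_one _
      _ ≤ Real.log (1 / h) ^ 20 := le_self_pow₀ (by linarith) (by norm_num)

theorem fn (C0 : ℝ) : ∃ C1 : ℝ, 2 ≤ C1 ∧ ∀ (h lam : ℝ), HP C1 h lam →
    (∀ k ≤ 25, h⁻¹ / Real.log (1 / h) ^ esc k / 2 ≤ (nn h k : ℝ) ^ (1 / 3 : ℝ) ∧
      (nn h k : ℝ) ^ (1 / 3 : ℝ) ≤ h⁻¹ / Real.log (1 / h) ^ esc k ∧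
      (nn h k : ℝ) ≤ h⁻¹ ^ 3 ∧ C0 * lam ^ 3 ≤ nn h k ∧ nn h 25 ≤ nn h k ∧ nn h k ≤ nn h 0) ∧
    (∀ k < 25, C0 * nn h (k + 1) ≤ nn h k ∧
      √(h * nn h k) ≤ 2 * (nn h (k + 1) : ℝ) ^ (1 / 3 : ℝ) ∧
      Real.log (1 / h) * (nn h (k + 1) : ℝ) ^ (2 / 3 : ℝ) ≤
        Real.log (1 / h) ^ (1 / 2 : ℝ) * (nn h k : ℝ) ^ (2 / 3 : ℝ)) ∧
    h * (nn h 25 : ℝ) ^ (1 / 3 : ℝ) * lam ^ 1136 ≤ 1 ∧
    (nn h 0 : ℝ) ^ (2 / 3 : ℝ) ≤ lam ^ 2275 * (nn h 25 : ℝ) ^ (2 / 3 : ℝ) ∧
    (nn h 0 : ℝ) ≤ lam ^ 3412 * nn h 25 := by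
  refine ⟨max 64 (8 * C0), le_trans (by norm_num) (le_max_left _ _), ?_⟩
  intro h lam hp
  have h64 : (64 : ℝ) ≤ max 64 (8 * C0) := le_max_left _ _
  obtain ⟨h0, hL, hlam, e1, e2, e3, e4, e5⟩ := fp_logs h64 hp
  obtain ⟨l1, l2⟩ := fp_log2
  obtain ⟨x1, x2⟩ := fp_esc25
  have hLp : 0 < Real.log (1 / h) := by linarith
  have hL1 : 1 ≤ Real.log (1 / h) := by linarith
  have hC8 : 8 * C0 ≤ Real.log (1 / h) := (le_max_right _ _).trans e5
  have hmono : ∀ j k : ℕ, j ≤ k → nn h k ≤ nn h j := by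
    intro j k hjk
    apply Nat.floor_mono
    apply pow_le_pow_left₀ (by positivity)
    apply div_le_div_of_nonneg_left (by positivity) (by positivity)
    exact Real.rpow_le_rpow_of_exponent_le hL1 (fp_esc_mono hjk)
  set ℓ : ℝ := Real.log (Real.log (1 / h)) with hℓ
  set L : ℝ := Real.log (1 / h) with hLdef
  have hx25a : 22726 * ℓ ≤ esc 25 * ℓ := mul_le_mul_of_nonneg_right x1 (by linarith)
  have hx25b : esc 25 * ℓ ≤ 22727 * ℓ := mul_le_mul_of_nonneg_right x2 (by linarith)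
  refine ⟨?_, ?_, ?_, ?_, ?_⟩
  · intro k hk
    obtain ⟨b1, b2, b3, b4, b5, b6, b7, b8⟩ := fp_nn h64 hp hk
    obtain ⟨a1, a2⟩ := fp_A h64 hp k
    have hxk : esc k * ℓ ≤ esc 25 * ℓ :=
      mul_le_mul_of_nonneg_right (fp_esc_mono hk) (by linarith)
    refine ⟨b5, b6, ?_, ?_, hmono k 25 hk, hmono 0 k (Nat.zero_le k)⟩
    · refine b3.trans (pow_le_pow_left₀ a1.le ?_ 3)
      unfold fA
      apply div_le_self (by positivity)
      exact Real.one_le_rpow hL1 (by linarith [fp_esc_pos k])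
    · have hc : C0 ≤ L := by
        rcases le_or_gt C0 0 with hc | hc
        · linarith
        · linarith
      refine (mul_le_mul_of_nonneg_right hc (by positivity)).trans ?_
      rw [← Real.log_le_log_iff (by positivity) b4, Real.log_mul hLp.ne' (by positivity),
        Real.log_pow, e1]
      push_cast
      linarith
  · intro k hk
    obtain ⟨b1, b2, b3, b4, b5, b6, b7, b8⟩ := fp_nn h64 hp hk.le
    obtain ⟨c1, c2, c3, c4, c5, c6, c7, c8⟩ := fp_nn h64 hp (show k + 1 ≤ 25 by omega)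
    obtain ⟨a1, a2⟩ := fp_A h64 hp k
    obtain ⟨a3, a4⟩ := fp_A h64 hp (k + 1)
    have hk9 := fp_esc_pos k
    have hk9l : 9 / 10 * ℓ ≤ esc k * ℓ := mul_le_mul_of_nonneg_right hk9 (by linarith)
    rw [fp_escS k] at c7 c8 a4
    rw [← hℓ, ← hLdef] at b7 b8 c7 c8 a2 a4
    refine ⟨?_, ?_, ?_⟩
    · have hc : C0 * nn h (k + 1) ≤ L / 8 * nn h (k + 1) :=
        mul_le_mul_of_nonneg_right (by linarith) (by positivity)
      refine hc.trans ?_
      rw [← Real.log_le_log_iff (by positivity) b4, Real.log_mul (by positivity) c4.ne',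
        Real.log_div hLp.ne' (by norm_num),
        show (8 : ℝ) = 2 ^ 3 by norm_num, Real.log_pow]
      push_cast
      linarith
    · have hs : h * (nn h k : ℝ) ≤ fA h (k + 1) ^ 2 := by
        refine (mul_le_mul_of_nonneg_left b3 h0.le).trans ?_
        rw [← Real.log_le_log_iff (by positivity) (by positivity), Real.log_mul h0.ne'
          (by positivity), Real.log_pow, Real.log_pow, a2, a4, e2]
        push_cast
        linarith
      calc √(h * nn h k) ≤ √(fA h (k + 1) ^ 2) := Real.sqrt_le_sqrt hs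
        _ = fA h (k + 1) := Real.sqrt_sq a3.le
        _ ≤ 2 * (nn h (k + 1) : ℝ) ^ (1 / 3 : ℝ) := by linarith
    · rw [← Real.log_le_log_iff (by positivity) (by positivity), Real.log_mul hLp.ne'
        (by positivity), Real.log_mul (by positivity) (by positivity), Real.log_rpow c4,
        Real.log_rpow b4, Real.log_rpow hLp, ← hℓ]
      linarith
  · obtain ⟨b1, b2, b3, b4, b5, b6, b7, b8⟩ := fp_nn h64 hp (le_refl 25)
    rw [← Real.log_le_log_iff (by positivity) (by norm_num), Real.log_mul (by positivity)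
      (by positivity), Real.log_mul h0.ne' (by positivity), Real.log_rpow b4, Real.log_pow,
      Real.log_one, e1, e2]
    push_cast
    linarith
  · obtain ⟨b1, b2, b3, b4, b5, b6, b7, b8⟩ := fp_nn h64 hp (le_refl 25)
    obtain ⟨c1, c2, c3, c4, c5, c6, c7, c8⟩ := fp_nn h64 hp (Nat.zero_le 25)
    rw [fp_esc0] at c7 c8
    rw [← Real.log_le_log_iff (by positivity) (by positivity), Real.log_mul (by positivity)
      (by positivity), Real.log_rpow b4, Real.log_rpow c4, Real.log_pow, e1]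
    push_cast
    linarith
  · obtain ⟨b1, b2, b3, b4, b5, b6, b7, b8⟩ := fp_nn h64 hp (le_refl 25)
    obtain ⟨c1, c2, c3, c4, c5, c6, c7, c8⟩ := fp_nn h64 hp (Nat.zero_le 25)
    rw [fp_esc0] at c7 c8
    rw [← Real.log_le_log_iff c4 (by positivity), Real.log_mul (by positivity)
      b4.ne', Real.log_pow, e1]
    push_cast
    linarith

theorem fb (C0 : ℝ) : ∃ C1 : ℝ, 2 ≤ C1 ∧ ∀ (h lam : ℝ), HP C1 h lam →
    lam ^ 12 * rL h ≤ nb h lam ∧ C0 * lam ^ 3 ≤ nb h lam ∧ 8 * nb h lam ≤ nn h 25 ∧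
    (nn h 25 : ℝ) ≤ 2 * lam ^ 12 * nb h lam ∧ lam ^ 12 * nb h lam ≤ (nn h 25 : ℝ) ∧
    h * (nb h lam : ℝ) ^ (1 / 3 : ℝ) * lam ^ 300 ≤ 1 ∧
    sl h lam (nn h 25) ≤ √(2 ^ jT h lam (nb h lam)) / lam ∧
    1 ≤ dL h lam ∧ 1 ≤ dD h lam ∧ 1 ≤ dI h lam := by
  obtain ⟨D1, -, hD1⟩ := low_bounds
  obtain ⟨D2, -, hD2⟩ := rin_bounds 1
  obtain ⟨D3, -, hD3⟩ := rou_bounds
  obtain ⟨D4, -, hD4⟩ := jT_spec
  refine ⟨max 64 (max C0 (max D1 (max D2 (max D3 D4)))),
    le_trans (by norm_num) (le_max_left _ _), ?_⟩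
  intro h lam hp
  have h64 : (64 : ℝ) ≤ max 64 (max C0 (max D1 (max D2 (max D3 D4)))) := le_max_left _ _
  have hm1 : max C0 (max D1 (max D2 (max D3 D4))) ≤
    max 64 (max C0 (max D1 (max D2 (max D3 D4)))) := le_max_right _ _
  have hm2 : max D1 (max D2 (max D3 D4)) ≤ max C0 (max D1 (max D2 (max D3 D4))) :=
    le_max_right _ _
  have hm3 : max D2 (max D3 D4) ≤ max D1 (max D2 (max D3 D4)) := le_max_right _ _
  have hm4 : max D3 D4 ≤ max D2 (max D3 D4) := le_max_right _ _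
  have hp1 : HP D1 h lam := hp.mono ((le_max_left _ _).trans (hm2.trans hm1))
  have hp2 : HP D2 h lam := hp.mono ((le_max_left _ _).trans (hm3.trans (hm2.trans hm1)))
  have hp3 : HP D3 h lam :=
    hp.mono ((le_max_left _ _).trans (hm4.trans (hm3.trans (hm2.trans hm1))))
  have hp4 : HP D4 h lam :=
    hp.mono ((le_max_right _ _).trans (hm4.trans (hm3.trans (hm2.trans hm1))))
  obtain ⟨h0, hL, hlam, e1, e2, e3, e4, e5⟩ := fp_logs h64 hp
  have hC0 : C0 ≤ Real.log (1 / h) := ((le_max_left _ _).trans hm1).trans e5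
  obtain ⟨l1, l2⟩ := fp_log2
  obtain ⟨x1, x2⟩ := fp_esc25
  obtain ⟨b1, b2, b3, b4, b5, b6, b7, b8⟩ := fp_nn h64 hp (le_refl 25)
  obtain ⟨q1, q2, q3, q4⟩ := hD1 h lam hp1
  have hLp : 0 < Real.log (1 / h) := by linarith
  set ℓ : ℝ := Real.log (Real.log (1 / h)) with hℓ
  set L : ℝ := Real.log (1 / h) with hLdef
  have hx25a : 22726 * ℓ ≤ esc 25 * ℓ := mul_le_mul_of_nonneg_right x1 (by linarith)
  have hx25b : esc 25 * ℓ ≤ 22727 * ℓ := mul_le_mul_of_nonneg_right x2 (by linarith)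
  have hlam8 : 8 ≤ lam ^ 12 := by
    rw [← Real.log_le_log_iff (by norm_num) (by positivity), Real.log_pow, e1,
      show (8 : ℝ) = 2 ^ 3 by norm_num, Real.log_pow]
    push_cast
    linarith
  -- bounds for nb
  have hq2 : 2 ≤ (nn h 25 : ℝ) / lam ^ 12 := by
    rw [← Real.log_le_log_iff (by norm_num) (by positivity), Real.log_div b4.ne'
      (by positivity), Real.log_pow, e1]
    push_cast
    linarith
  have g1 := Nat.floor_le (show 0 ≤ (nn h 25 : ℝ) / lam ^ 12 by positivity)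
  have g2 := Nat.lt_floor_add_one ((nn h 25 : ℝ) / lam ^ 12)
  have hnb : nb h lam = ⌊(nn h 25 : ℝ) / lam ^ 12⌋₊ := rfl
  rw [← hnb] at g1 g2
  have g3 : (nn h 25 : ℝ) / lam ^ 12 / 2 ≤ nb h lam := by linarith
  have hnbp : 0 < (nb h lam : ℝ) := lt_of_lt_of_le (by positivity) g3
  have g4 : lam ^ 12 * nb h lam ≤ (nn h 25 : ℝ) := by
    have := mul_le_mul_of_nonneg_left g1 (show 0 ≤ lam ^ 12 by positivity)
    rwa [mul_div_cancel₀ _ (by positivity : lam ^ 12 ≠ 0)] at this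
  have g5 : (nn h 25 : ℝ) ≤ 2 * lam ^ 12 * nb h lam := by
    have := mul_le_mul_of_nonneg_left g3 (show 0 ≤ 2 * lam ^ 12 by positivity)
    have e : 2 * lam ^ 12 * ((nn h 25 : ℝ) / lam ^ 12 / 2) = nn h 25 := by
      field_simp
    linarith
  have g6 : Real.log (nb h lam) ≤ 3 * (L - esc 25 * ℓ) - 240 * ℓ := by
    have := Real.log_le_log (by positivity) g4
    rw [Real.log_mul (by positivity) hnbp.ne', Real.log_pow, e1] at this
    push_cast at this
    linarith
  have g7 : 3 * (L - esc 25 * ℓ - Real.log 2) - Real.log 2 - 240 * ℓ ≤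
      Real.log (nb h lam) := by
    have := Real.log_le_log b4 g5
    rw [Real.log_mul (by positivity) hnbp.ne', Real.log_mul (by norm_num) (by positivity),
      Real.log_pow, e1] at this
    push_cast at this
    linarith
  have hrp : 0 < (rL h : ℝ) := lt_of_lt_of_le (by positivity) q3
  have r1 : lam ^ 12 * rL h ≤ nb h lam := by
    rw [← Real.log_le_log_iff (by positivity) hnbp, Real.log_mul (by positivity) hrp.ne',
      Real.log_pow, e1]
    have := Real.log_le_log hrp q4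
    rw [Real.log_mul (by norm_num) (by positivity), Real.log_rpow (inv_pos.mpr h0),
      Real.log_inv, e2] at this
    push_cast
    linarith
  have r6 : h * (nb h lam : ℝ) ^ (1 / 3 : ℝ) * lam ^ 300 ≤ 1 := by
    rw [← Real.log_le_log_iff (by positivity) (by norm_num), Real.log_mul (by positivity)
      (by positivity), Real.log_mul h0.ne' (by positivity), Real.log_rpow hnbp, Real.log_pow,
      Real.log_one, e1, e2]
    push_cast
    linarith
  obtain ⟨t1, t2, t3, t4, t5⟩ := hD4 h lam (nb h lam) hp4 r1 r6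
  have hjL1 : 1 ≤ jL h := (hD2 h lam (jL h) hp2 le_rfl).1
  refine ⟨r1, ?_, ?_, g5, g4, r6, ?_, ?_, ?_, ?_⟩
  · refine (mul_le_mul_of_nonneg_right hC0 (by positivity)).trans ?_
    rw [← Real.log_le_log_iff (by positivity) hnbp, Real.log_mul hLp.ne' (by positivity),
      Real.log_pow, e1]
    push_cast
    linarith
  · have : (8 : ℝ) * nb h lam ≤ nn h 25 :=
      (mul_le_mul_of_nonneg_right hlam8 hnbp.le).trans g4
    exact_mod_cast this
  · -- the slack
    have hne : {j : ℕ | jL h ≤ j ∧ ((nb h lam : ℕ) : ℝ) < lam ^ 12 * rou h lam j}.Nonempty := by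
      by_contra hcon
      rw [Set.not_nonempty_iff_eq_empty] at hcon
      have : jT h lam (nb h lam) = 0 := by
        unfold jT
        rw [hcon, Nat.sInf_empty]
      omega
    have hmem : jT h lam (nb h lam) ∈
        {j : ℕ | jL h ≤ j ∧ ((nb h lam : ℕ) : ℝ) < lam ^ 12 * rou h lam j} := Nat.sInf_mem hne
    obtain ⟨-, hm2⟩ := hmem
    obtain ⟨-, u2⟩ := hD3 h lam (jT h lam (nb h lam)) hp3
    set J : ℝ := (jT h lam (nb h lam) : ℝ) * Real.log 2 with hJ
    have hlogJ : Real.log ((2 : ℝ) ^ jT h lam (nb h lam)) = J := by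
      rw [Real.log_pow]
    have hth : 0 < th h (jT h lam (nb h lam)) := by
      unfold th
      positivity
    have hlth : Real.log (th h (jT h lam (nb h lam))) = (-2 * L + J) / 20 := by
      unfold th
      rw [Real.log_rpow (by positivity), Real.log_mul (by positivity) (by positivity),
        hlogJ, Real.log_pow, e2]
      push_cast
      ring
    have hr0 : 0 < (rou h lam (jT h lam (nb h lam)) : ℝ) := by
      by_contra hcon
      push Not at hcon
      have : lam ^ 12 * (rou h lam (jT h lam (nb h lam)) : ℝ) ≤ 0 :=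
        mul_nonpos_of_nonneg_of_nonpos (by positivity) hcon
      linarith
    have hJN : 5 / 6 * Real.log (nb h lam) - 36 * (20 * ℓ) - L / 2 ≤ J := by
      have w1 := Real.log_le_log hnbp hm2.le
      rw [Real.log_mul (by positivity) hr0.ne', Real.log_pow, e1] at w1
      have w2 := Real.log_le_log (by positivity) u2
      rw [Real.log_rpow hr0, Real.log_mul (by norm_num) (by positivity),
        Real.log_div (by positivity) (by positivity), Real.log_mul (by positivity)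
        (by positivity), hlogJ, Real.log_pow, Real.log_pow, hlth, e1] at w2
      push_cast at w1 w2
      linarith
    have hJL : 21 / 100 * L - Real.log 2 ≤ J := by
      have w1 := Real.log_le_log (by positivity) q2.le
      rw [Real.log_rpow (inv_pos.mpr h0), Real.log_inv, e2, Real.log_pow] at w1
      have w2 : (jL h : ℝ) * Real.log 2 ≤ J := by
        apply mul_le_mul_of_nonneg_right _ (by linarith)
        exact_mod_cast t1
      push_cast at w1
      linarith
    have hs : 0 < √((2 : ℝ) ^ jT h lam (nb h lam)) := Real.sqrt_pos.mpr (by positivity)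
    have hls : Real.log √((2 : ℝ) ^ jT h lam (nb h lam)) = J / 2 := by
      rw [Real.log_sqrt (by positivity), hlogJ]
    have hlq : Real.log (√((2 : ℝ) ^ jT h lam (nb h lam)) / (2 * lam)) =
        J / 2 - Real.log 2 - 20 * ℓ := by
      rw [Real.log_div hs.ne' (by positivity), hls, Real.log_mul (by norm_num) hlam.ne', e1]
      ring
    have f1 : lam * √(2 * h * nn h 25) ≤ √((2 : ℝ) ^ jT h lam (nb h lam)) / (2 * lam) := by
      have hq : 0 < √(2 * h * nn h 25) := Real.sqrt_pos.mpr (by positivity)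
      rw [← Real.log_le_log_iff (by positivity) (by positivity), hlq,
        Real.log_mul hlam.ne' hq.ne', Real.log_sqrt (by positivity),
        Real.log_mul (by positivity) b4.ne', Real.log_mul (by norm_num) h0.ne', e1, e2]
      linarith
    have f2 : lam * 1 ≤ √((2 : ℝ) ^ jT h lam (nb h lam)) / (2 * lam) := by
      rw [mul_one, ← Real.log_le_log_iff (by positivity) (by positivity), hlq, e1]
      linarith
    unfold sl
    calc lam * (√(2 * h * nn h 25) + 1) = lam * √(2 * h * nn h 25) + lam * 1 := by ring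
      _ ≤ √((2 : ℝ) ^ jT h lam (nb h lam)) / (2 * lam) +
          √((2 : ℝ) ^ jT h lam (nb h lam)) / (2 * lam) := add_le_add f1 f2
      _ = √((2 : ℝ) ^ jT h lam (nb h lam)) / lam := by
          field_simp
          ring
  · unfold dL
    apply Nat.floor_pos.mpr
    rw [← Real.log_le_log_iff (by norm_num) (by positivity), Real.log_div b4.ne'
      (by positivity), Real.log_pow, e1, Real.log_one]
    push_cast
    linarith
  · unfold dD
    apply Nat.floor_pos.mpr
    rw [← Real.log_le_log_iff (by norm_num) (by positivity), Real.log_div (by positivity)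
      (by positivity), Real.log_pow, Real.log_rpow b4, e1, Real.log_one]
    push_cast
    linarith
  · unfold dI
    apply Nat.floor_pos.mpr
    rw [← Real.log_le_log_iff (by norm_num) (by positivity), Real.log_div (by positivity)
      (by positivity), Real.log_pow, Real.log_rpow b4, e1, Real.log_one]
    push_cast
    linarith

end BGE
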