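import Pool.Agent.BGE.FPar
import Pool.Agent.BGE.FMu
import Pool.Agent.BGE.Base2

/-!
BGE / F2a. Fine concentration outside of the centre, from the grid (deterministic).

Let `n1 = nn h 25`, `b = nb h lam ~ n1/lam^12`, `y = yy h`. `ω` is crude regular (cone `κ/16`), `ω'`
satisfies `TG`, and the passage times of `ω` and `ω'` differ by at most `n1^{1/3}/16`.
`fine_out`: for `p ≤ q` with levels in `[-(2 nn0) , 2 nn0 + 1]`, deviations at most
`41 lam (2 nn0)^{2/3}`, `Cone (κ/5) p q`, and `lev q ≤ -4b` or `4b + 1 ≤ lev p`: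
`|T ω p q - muz p q| ≤ (y/4) (max (dl p q) n1)^{1/3}`.

Proof. If `dl p q ≤ n1/lam^4` use the crude bound `lam (l+1)^{1/3} ≤ 2 lam^{-1/3} n1^{1/3}`. Let
`dl p q > n1/lam^4` and `lev q ≤ -4b` (the other case is similar). Let `s = (q.1 - p.1)/dl p q`.
Lower bound: choose grid points `u, v` with `p ≤ u ≤ v ≤ q`, `dl p u, dl v q ∈ [b/2, 2b]`, horizontal
distance from the segment from `p` to `q` at most `2 dD` (the levels of the grid points are the
multiples of `dL ~ n1/lam^30`, on each of these levels the spacing is `dD` up to rounding). Then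
`(p,u)`, `(v,q)` are in the cone `κ/16` and `(u,v)` in the cone `κ/8` (the slopes differ from `s` by at
most `4 dD/b`, tiny), `lev v ≤ -(b+1)`, and
`T ω p q ≥ T ω p u + T ω u v + T ω v q - 2 lam ≥ muz p u + muz u v + muz v q - 2 lam (2b+1)^{1/3}
  - (y/8) (max (dl u v) n1)^{1/3} - n1^{1/3}/16 - 2 lam ≥ muz p q - (errors)` by `mu_loss3` with
`D = 2 dD`, `g = b/2`: the loss is `C n1^{4/3} lam^{-40} lam^12/n1 = C lam^{-28} n1^{1/3}`; and
`lam (2b+1)^{1/3} ≤ 2 lam^{-3} n1^{1/3}`.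
Upper bound: choose grid points `u ≤ p`, `q ≤ v` with `dl u p, dl q v ∈ [b/2, 2b]`, such that `p` and `q`
are within distance `4 dD` of the segment from `u` to `v` (extend the line through `p, q`);
`lev v ≤ -4b + 2b ≤ -(b+1)`. Then `T ω u v ≥ T ω u p + T ω p q + T ω q v - 2 lam`, so
`T ω p q ≤ muz u v + (y/8) (max (dl u v) n1)^{1/3} + n1^{1/3}/16 - (muz u p - crude) - (muz q v - crude)
 + 2 lam`, and `muz u v ≤ muz u p + muz p q + muz q v + loss` by `mu_loss3`. (All the points are in the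
box `Bx m`; the indices of the grid points are at most `lam^3500` by `fn`, `fb`.)
-/

namespace BGE

/-- numerical data -/
private structure FAc (κ σ lam y : ℝ) (n0 n1 b L D : ℕ) (r ρ : ℝ) : Prop where
  κ0 : 0 < κ
  κ1 : κ ≤ 1
  σ0 : 0 ≤ σ
  σ1 : σ ≤ 1
  lamb : 10 ^ 7 / κ ^ 2 ≤ lam
  y1 : 64 ≤ y
  r3 : r ^ 3 = n1
  ρ3 : ρ ^ 3 = n0
  rl : lam ^ 5 ≤ r
  rρ : r ≤ ρ
  b1 : (1 : ℝ) ≤ b
  L1 : (1 : ℝ) ≤ L
  D1 : (1 : ℝ) ≤ D
  bu : lam ^ 12 * b ≤ r ^ 3
  bl : r ^ 3 ≤ 2 * lam ^ 12 * b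
  Lu : lam ^ 30 * L ≤ r ^ 3
  Ll : r ^ 3 ≤ 2 * lam ^ 30 * L
  Du : lam ^ 20 * D ≤ r ^ 2
  Dl : r ^ 2 ≤ 2 * lam ^ 20 * D
  ρr2 : ρ ^ 2 ≤ lam ^ 2275 * r ^ 2
  ρr3 : ρ ^ 3 ≤ lam ^ 3412 * r ^ 3

namespace FAc

variable {κ σ lam y : ℝ} {n0 n1 b L D : ℕ} {r ρ : ℝ}

private theorem lam7 (H : FAc κ σ lam y n0 n1 b L D r ρ) : 10 ^ 7 ≤ lam := by
  refine le_trans ?_ H.lamb
  rw [le_div_iff₀ (by have := H.κ0; positivity)]
  have h1 : κ ^ 2 ≤ 1 := pow_le_one₀ H.κ0.le H.κ1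
  nlinarith

private theorem κlam (H : FAc κ σ lam y n0 n1 b L D r ρ) : 10 ^ 7 ≤ κ ^ 2 * lam := by
  have h := H.lamb
  rw [div_le_iff₀ (by have := H.κ0; positivity)] at h
  linarith

private theorem κlam1 (H : FAc κ σ lam y n0 n1 b L D r ρ) : 10 ^ 7 ≤ κ * lam := by
  have h := H.κlam
  have h1 := H.lam7
  have h2 : κ ^ 2 * lam ≤ κ * lam := by
    apply mul_le_mul_of_nonneg_right _ (by linarith)
    calc κ ^ 2 = κ * κ := by ring
      _ ≤ κ * 1 := mul_le_mul_of_nonneg_left H.κ1 H.κ0.le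
      _ = κ := mul_one κ
  linarith

private theorem lampow (H : FAc κ σ lam y n0 n1 b L D r ρ) {k : ℕ} (hk : 1 ≤ k) :
    lam ≤ lam ^ k := by
  have h1 := H.lam7
  calc lam = lam ^ 1 := (pow_one _).symm
    _ ≤ lam ^ k := pow_le_pow_right₀ (by linarith) hk

private theorem lam0 (H : FAc κ σ lam y n0 n1 b L D r ρ) : 0 < lam := by
  have h1 := H.lam7
  linarith

private theorem r0 (H : FAc κ σ lam y n0 n1 b L D r ρ) : 0 < r :=
  lt_of_lt_of_le (pow_pos H.lam0 5) H.rl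

private theorem Lb (H : FAc κ σ lam y n0 n1 b L D r ρ) : 1000 * (L : ℝ) ≤ b := by
  have hl := H.lam0
  have h1 := H.Lu.trans H.bl
  have h2 : lam ^ 18 * L ≤ 2 * b := by
    have h3 : lam ^ 12 * (lam ^ 18 * L) ≤ lam ^ 12 * (2 * b) := by
      calc lam ^ 12 * (lam ^ 18 * L) = lam ^ 30 * L := by ring
        _ ≤ 2 * lam ^ 12 * b := h1
        _ = lam ^ 12 * (2 * b) := by ring
    exact le_of_mul_le_mul_left h3 (by positivity)
  have h4 : lam * L ≤ lam ^ 18 * L :=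
    mul_le_mul_of_nonneg_right (H.lampow (by norm_num)) (by linarith [H.L1])
  have h5 : 2000 * (L : ℝ) ≤ lam * L :=
    mul_le_mul_of_nonneg_right (by linarith [H.lam7]) (by linarith [H.L1])
  linarith

private theorem Db (H : FAc κ σ lam y n0 n1 b L D r ρ) : 1000 * (D : ℝ) ≤ κ * b := by
  have hl := H.lam0
  have hr := H.r0
  have h1 : lam ^ 13 * D ≤ 2 * b := by
    have h3 : lam ^ 12 * (lam ^ 13 * D) ≤ lam ^ 12 * (2 * b) := by
      calc lam ^ 12 * (lam ^ 13 * D) = lam ^ 5 * (lam ^ 20 * D) := by ring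
        _ ≤ r * r ^ 2 := mul_le_mul H.rl H.Du (by have := H.D1; positivity) hr.le
        _ = r ^ 3 := by ring
        _ ≤ 2 * lam ^ 12 * b := H.bl
        _ = lam ^ 12 * (2 * b) := by ring
    exact le_of_mul_le_mul_left h3 (by positivity)
  have h4 : lam * D ≤ lam ^ 13 * D :=
    mul_le_mul_of_nonneg_right (H.lampow (by norm_num)) (by linarith [H.D1])
  have h5 : κ * (lam * D) ≤ κ * (2 * b) := mul_le_mul_of_nonneg_left (h4.trans h1) H.κ0.le
  have h6 : 10 ^ 7 * (D : ℝ) ≤ κ * lam * D :=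
    mul_le_mul_of_nonneg_right H.κlam1 (by linarith [H.D1])
  have hD := H.D1
  nlinarith

private theorem bρ (H : FAc κ σ lam y n0 n1 b L D r ρ) : 1000 * (b : ℝ) ≤ n0 := by
  have hl := H.lam0
  have hr := H.r0
  rw [← H.ρ3]
  have h1 : r ^ 3 ≤ ρ ^ 3 := pow_le_pow_left₀ hr.le H.rρ 3
  have h4 : lam * b ≤ lam ^ 12 * b :=
    mul_le_mul_of_nonneg_right (H.lampow (by norm_num)) (by linarith [H.b1])
  have h5 : 1000 * (b : ℝ) ≤ lam * b :=
    mul_le_mul_of_nonneg_right (by linarith [H.lam7]) (by linarith [H.b1])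
  linarith [H.bu]

/-- the loss -/
private theorem loss (H : FAc κ σ lam y n0 n1 b L D r ρ) :
    20 / (κ / 16) ^ 2 * (2 * (D : ℝ)) ^ 2 / (b / 2) ≤ r / 100 := by
  have hl := H.lam0
  have hr := H.r0
  have hκ := H.κ0
  have hb : (0 : ℝ) < b := by linarith [H.b1]
  have hD : (0 : ℝ) ≤ D := by linarith [H.D1]
  have h1 : (lam ^ 20 * D) ^ 2 ≤ (r ^ 2) ^ 2 := pow_le_pow_left₀ (by positivity) H.Du 2
  have h2 : lam ^ 12 * (lam ^ 28 * (D : ℝ) ^ 2) ≤ lam ^ 12 * (2 * r * b) := by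
    calc lam ^ 12 * (lam ^ 28 * (D : ℝ) ^ 2) = (lam ^ 20 * D) ^ 2 := by ring
      _ ≤ (r ^ 2) ^ 2 := h1
      _ = r * r ^ 3 := by ring
      _ ≤ r * (2 * lam ^ 12 * b) := mul_le_mul_of_nonneg_left H.bl hr.le
      _ = lam ^ 12 * (2 * r * b) := by ring
  have h3 : lam ^ 28 * (D : ℝ) ^ 2 ≤ 2 * r * b := le_of_mul_le_mul_left h2 (by positivity)
  have h4 : lam * (D : ℝ) ^ 2 ≤ 2 * r * b :=
    (mul_le_mul_of_nonneg_right (H.lampow (by norm_num)) (by positivity)).trans h3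
  have h5 : 10 ^ 7 * (D : ℝ) ^ 2 ≤ κ ^ 2 * (2 * r * b) := by
    calc 10 ^ 7 * (D : ℝ) ^ 2 ≤ κ ^ 2 * lam * (D : ℝ) ^ 2 :=
          mul_le_mul_of_nonneg_right H.κlam (by positivity)
      _ = κ ^ 2 * (lam * (D : ℝ) ^ 2) := by ring
      _ ≤ κ ^ 2 * (2 * r * b) := mul_le_mul_of_nonneg_left h4 (by positivity)
  have e : 20 / (κ / 16) ^ 2 * (2 * (D : ℝ)) ^ 2 / (b / 2) = 40960 * (D : ℝ) ^ 2 / (κ ^ 2 * b) := by
    field_simp
    ring
  rw [e, div_le_iff₀ (by positivity)]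
  have : 0 ≤ (D : ℝ) ^ 2 := by positivity
  have h6 : κ ^ 2 * (2 * r * b) = 2 * (r * (κ ^ 2 * b)) := by ring
  have h7 : r / 100 * (κ ^ 2 * b) = r * (κ ^ 2 * b) / 100 := by ring
  rw [h7]
  rw [h6] at h5
  linarith

/-- the crude errors -/
private theorem crude (H : FAc κ σ lam y n0 n1 b L D r ρ) {g : ℝ} (hg0 : 0 ≤ g)
    (hg : g ≤ 3 / 2 * b) : lam * (g + 1) ^ (1 / 3 : ℝ) ≤ r / 100 := by
  have hl := H.lam0
  have hr := H.r0
  have hb := H.b1
  have h1 : lam ^ 12 * (g + 1) ≤ (2 * r) ^ 3 := by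
    have h2 : g + 1 ≤ 5 / 2 * b := by linarith
    have h3 : lam ^ 12 * (g + 1) ≤ lam ^ 12 * (5 / 2 * b) :=
      mul_le_mul_of_nonneg_left h2 (by positivity)
    have h4 : lam ^ 12 * (5 / 2 * b) = 5 / 2 * (lam ^ 12 * b) := by ring
    have h5 := H.bu
    have h6 : (2 * r) ^ 3 = 8 * r ^ 3 := by ring
    have h7 : 0 ≤ r ^ 3 := by positivity
    rw [h6]
    linarith
  have h2 : g + 1 ≤ (2 * r / lam ^ 4) ^ 3 := by
    have e : (2 * r / lam ^ 4) ^ 3 = (2 * r) ^ 3 / lam ^ 12 := by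
      rw [div_pow, ← pow_mul]
    rw [e, le_div_iff₀ (by positivity)]
    linarith
  have h3 : (g + 1) ^ (1 / 3 : ℝ) ≤ 2 * r / lam ^ 4 := by
    calc (g + 1) ^ (1 / 3 : ℝ) ≤ ((2 * r / lam ^ 4) ^ 3) ^ (1 / 3 : ℝ) :=
          Real.rpow_le_rpow (by linarith) h2 (by norm_num)
      _ = 2 * r / lam ^ 4 := by
          rw [← Real.rpow_natCast, ← Real.rpow_mul (by positivity)]
          norm_num
  calc lam * (g + 1) ^ (1 / 3 : ℝ) ≤ lam * (2 * r / lam ^ 4) := mul_le_mul_of_nonneg_left h3 hl.le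
    _ = 2 * r / lam ^ 3 := by
        field_simp
    _ ≤ r / 100 := by
        rw [div_le_div_iff₀ (by positivity) (by norm_num)]
        have h8 : 200 ≤ lam ^ 3 := by
          have := H.lampow (k := 3) (by norm_num)
          linarith [H.lam7]
        nlinarith

private theorem lamr (H : FAc κ σ lam y n0 n1 b L D r ρ) : 1000 * lam ≤ r := by
  have hl := H.lam0
  refine le_trans ?_ H.rl
  have h1 : lam ^ 1 ≤ lam ^ 4 := pow_le_pow_right₀ (by linarith [H.lam7]) (by norm_num)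
  rw [pow_one] at h1
  calc 1000 * lam ≤ lam ^ 4 * lam := mul_le_mul_of_nonneg_right (by linarith [H.lam7]) hl.le
    _ = lam ^ 5 := by ring

/-- the width -/
private theorem wid (H : FAc κ σ lam y n0 n1 b L D r ρ) :
    41 * lam * ((2 * n0 : ℕ) : ℝ) ^ (2 / 3 : ℝ) ≤ 82 * lam * ρ ^ 2 ∧
    82 * lam * ρ ^ 2 ≤ n0 / 10 ∧ 82 * lam * ρ ^ 2 ≤ 164 * lam ^ 2296 * D := by
  have hl := H.lam0
  have hr := H.r0
  have hρ : 0 < ρ := hr.trans_le H.rρ
  refine ⟨?_, ?_, ?_⟩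
  · have h1 : ((2 * n0 : ℕ) : ℝ) ^ (2 / 3 : ℝ) ≤ 2 * ρ ^ 2 := by
      push_cast
      rw [← H.ρ3, Real.mul_rpow (by norm_num) (by positivity)]
      have h2 : (ρ ^ 3) ^ (2 / 3 : ℝ) = ρ ^ 2 := by
        rw [← Real.rpow_natCast, ← Real.rpow_mul hρ.le]
        have : ((3 : ℕ) : ℝ) * (2 / 3) = ((2 : ℕ) : ℝ) := by norm_num
        rw [this, Real.rpow_natCast]
      rw [h2]
      apply mul_le_mul_of_nonneg_right _ (by positivity)
      calc (2 : ℝ) ^ (2 / 3 : ℝ) ≤ 2 ^ (1 : ℝ) :=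
            Real.rpow_le_rpow_of_exponent_le (by norm_num) (by norm_num)
        _ = 2 := Real.rpow_one 2
    calc 41 * lam * ((2 * n0 : ℕ) : ℝ) ^ (2 / 3 : ℝ) ≤ 41 * lam * (2 * ρ ^ 2) :=
          mul_le_mul_of_nonneg_left h1 (by positivity)
      _ = 82 * lam * ρ ^ 2 := by ring
  · rw [← H.ρ3]
    have h1 : 1000 * lam ≤ ρ := H.lamr.trans H.rρ
    have h2 : 1000 * lam * ρ ^ 2 ≤ ρ * ρ ^ 2 := mul_le_mul_of_nonneg_right h1 (by positivity)
    have h3 : ρ * ρ ^ 2 = ρ ^ 3 := by ring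
    have h4 : 0 ≤ lam * ρ ^ 2 := by positivity
    rw [h3] at h2
    linarith
  · calc 82 * lam * ρ ^ 2 ≤ 82 * lam * (lam ^ 2275 * r ^ 2) :=
          mul_le_mul_of_nonneg_left H.ρr2 (by positivity)
      _ ≤ 82 * lam * (lam ^ 2275 * (2 * lam ^ 20 * D)) := by
          apply mul_le_mul_of_nonneg_left _ (by positivity)
          exact mul_le_mul_of_nonneg_left H.Dl (by positivity)
      _ = 164 * (lam ^ 1 * lam ^ 2275 * lam ^ 20) * D := by ring
      _ = 164 * lam ^ 2296 * D := by rw [← pow_add, ← pow_add]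

/-- large indices are allowed -/
private theorem big (H : FAc κ σ lam y n0 n1 b L D r ρ) {k : ℕ} (hk : k + 1 ≤ 3500) :
    1000 * lam ^ k ≤ lam ^ 3500 := by
  have hl := H.lam0
  calc 1000 * lam ^ k ≤ lam * lam ^ k :=
        mul_le_mul_of_nonneg_right (by linarith [H.lam7]) (by positivity)
    _ = lam ^ (k + 1) := by rw [pow_succ]; ring
    _ ≤ lam ^ 3500 := pow_le_pow_right₀ (by linarith [H.lam7]) hk

end FAc

/-- horizontal offset from the line through `p` with slope `s` -/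
private noncomputable def offp (p : ℤ × ℤ) (s : ℝ) (g : ℤ × ℤ) : ℝ :=
  (g.1 : ℝ) - p.1 - s * dl p g

private theorem offp_sub (p : ℤ × ℤ) (s : ℝ) (x y : ℤ × ℤ) :
    ((y.1 - x.1 : ℤ) : ℝ) - s * dl x y = offp p s y - offp p s x := by
  simp only [offp, dl]
  push_cast
  ring

private theorem dl_add3 (x y z : ℤ × ℤ) : dl x z = dl x y + dl y z := by
  simp only [dl]
  push_cast
  ring

private theorem fA_cone {κ κ' s E : ℝ} {x y p : ℤ × ℤ} (hg : 0 ≤ dl x y) (hκ' : 0 ≤ κ')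
    (hs1 : κ / 5 ≤ s) (hs2 : s ≤ 1 - κ / 5)
    (he : |offp p s y - offp p s x| ≤ E) (hE : E ≤ (κ / 5 - κ') * dl x y) :
    Cone κ' x y := by
  rw [← offp_sub] at he
  have e2 : ((y.2 - x.2 : ℤ) : ℝ) = dl x y - ((y.1 - x.1 : ℤ) : ℝ) := by
    simp only [dl, lev]
    push_cast
    ring
  have h1 := abs_le.1 he
  have h3 : κ / 5 * dl x y ≤ s * dl x y := mul_le_mul_of_nonneg_right hs1 hg
  have h4 : s * dl x y ≤ (1 - κ / 5) * dl x y := mul_le_mul_of_nonneg_right hs2 hg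
  have c1 : κ' * dl x y ≤ ((y.1 - x.1 : ℤ) : ℝ) := by linarith [h1.1, h1.2]
  have c2 : κ' * dl x y ≤ ((y.2 - x.2 : ℤ) : ℝ) := by
    rw [e2]
    linarith [h1.1, h1.2]
  have c0 : 0 ≤ κ' * dl x y := mul_nonneg hκ' hg
  refine ⟨⟨?_, ?_⟩, c1, c2⟩
  · have : (0 : ℝ) ≤ ((y.1 - x.1 : ℤ) : ℝ) := c0.trans c1
    have := Int.cast_nonneg_iff.1 this
    omega
  · have : (0 : ℝ) ≤ ((y.2 - x.2 : ℤ) : ℝ) := c0.trans c2
    have := Int.cast_nonneg_iff.1 this
    omega

private theorem fA_offs {s E0 E1 : ℝ} {p x y w : ℤ × ℤ} (hw : |offp p s w| ≤ E0)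
    (hx : |offp p s x| ≤ E1) (hy : |offp p s y| ≤ E1) (h1 : 0 ≤ dl x w) (h2 : dl x w ≤ dl x y)
    (h3 : 0 < dl x y) : offs x y w ≤ E0 + E1 := by
  unfold offs
  have e1 : ((y.1 - x.1 : ℤ) : ℝ) = s * dl x y + (offp p s y - offp p s x) := by
    have := offp_sub p s x y
    linarith
  have e2 : ((w.1 - x.1 : ℤ) : ℝ) = s * dl x w + (offp p s w - offp p s x) := by
    have := offp_sub p s x w
    linarith
  rw [e1, e2]
  set t : ℝ := dl x w / dl x y with ht
  have ht0 : 0 ≤ t := div_nonneg h1 h3.le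
  have ht1 : t ≤ 1 := (div_le_one h3).mpr h2
  have e3 : s * dl x w + (offp p s w - offp p s x) -
      dl x w * (s * dl x y + (offp p s y - offp p s x)) / dl x y =
      offp p s w - ((1 - t) * offp p s x + t * offp p s y) := by
    rw [ht]
    field_simp
    ring
  rw [e3]
  rw [abs_le] at hw hx hy ⊢
  have a1 := mul_le_mul_of_nonneg_left hx.1 (sub_nonneg.2 ht1)
  have a2 := mul_le_mul_of_nonneg_left hx.2 (sub_nonneg.2 ht1)
  have a3 := mul_le_mul_of_nonneg_left hy.1 ht0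
  have a4 := mul_le_mul_of_nonneg_left hy.2 ht0
  constructor <;> linarith [hw.1, hw.2]

/-- the sandwich -/
private theorem fA_sand {κ σ lam y : ℝ} {n0 n1 b L D m : ℕ} {r ρ : ℝ} {ω : ℤ × ℤ → ℝ}
    (H : FAc κ σ lam y n0 n1 b L D r ρ) (hC : CrE (κ / 4) lam m ω)
    {x1 x2 x3 x4 : ℤ × ℤ} (b1 : x1 ∈ Bx m) (b2 : x2 ∈ Bx m) (b3 : x3 ∈ Bx m) (b4 : x4 ∈ Bx m)
    (c1 : Cone (κ / 16) x1 x2) (c2 : Cone (κ / 16) x2 x3) (c3 : Cone (κ / 16) x3 x4)
    (g1 : b / 2 ≤ dl x1 x2) (g1' : dl x1 x2 ≤ 3 / 2 * b) (g2 : b / 2 ≤ dl x2 x3)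
    (g3 : b / 2 ≤ dl x3 x4) (g3' : dl x3 x4 ≤ 3 / 2 * b)
    (o1 : offs x1 x4 x2 ≤ 2 * D) (o2 : offs x1 x4 x3 ≤ 2 * D) :
    (T ω x2 x3 - muz x2 x3) ≤ (T ω x1 x4 - muz x1 x4) + r / 16 := by
  have hb := H.b1
  have hD := H.D1
  have hml := mu_loss3 (κ := κ / 16) (D := 2 * D) (g := b / 2) (by have := H.κ0; positivity)
    (by positivity) (by positivity) c1 c2 c3 g1 g2 g3 o1 o2
  have hls := H.loss
  have e16 : κ / 4 / 4 = κ / 16 := by ring
  have t1 := (hC.2 x1 b1 x2 b2 c1.1).2 (by rw [e16]; exact c1)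
  have t3 := (hC.2 x3 b3 x4 b4 c3.1).2 (by rw [e16]; exact c3)
  have k1 := H.crude (by linarith : (0 : ℝ) ≤ dl x1 x2) g1'
  have k3 := H.crude (by linarith : (0 : ℝ) ≤ dl x3 x4) g3'
  have a1 := T_add_le (ω := ω) c1.1 (c2.1.trans c3.1)
  have a2 := T_add_le (ω := ω) c2.1 c3.1
  have w2 := (hC.1 x2 b2).2
  have w3 := (hC.1 x3 b3).2
  have hlr := H.lamr
  rw [abs_le] at t1 t3
  have hr := H.r0
  linarith [t1.1, t3.1]

/-- the grid points -/
private theorem fA_grid {κ σ lam y : ℝ} {n0 n1 b : ℕ} {r ρ h : ℝ}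
    (H : FAc κ σ lam y n0 n1 b (dL h lam) (dD h lam) r ρ) {p q : ℤ × ℤ} {W : ℝ}
    (hp1 : -(2 * (n0 : ℤ)) ≤ lev p) (hp2 : lev p ≤ 2 * (n0 : ℤ) + 1)
    (hq1 : -(2 * (n0 : ℤ)) ≤ lev q) (hq2 : lev q ≤ 2 * (n0 : ℤ) + 1)
    (hW : W ≤ 82 * lam * ρ ^ 2) (hpW : |dev σ p| ≤ W) (hqW : |dev σ q| ≤ W)
    (hl : 1000 * (b : ℝ) < dl p q) {s : ℝ} (hs : s * dl p q = ((q.1 - p.1 : ℤ) : ℝ))
    {t0 : ℤ} (ht1 : lev p - b ≤ t0) (ht2 : t0 ≤ lev q + b) :
    ∃ a b' : ℤ, |(a : ℝ)| ≤ lam ^ 3500 ∧ |(b' : ℝ)| ≤ lam ^ 3500 ∧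
      (lev (gp σ h lam a b') ≤ t0) ∧ (t0 : ℤ) - dL h lam < lev (gp σ h lam a b') ∧
      |offp p s (gp σ h lam a b')| ≤ 2 * dD h lam ∧
      |((gp σ h lam a b').1 : ℝ)| ≤ 5 * n0 ∧ |(lev (gp σ h lam a b') : ℝ)| ≤ 3 * n0 := by
  have hlam := H.lam0
  have hb1 := H.b1
  have hL1 := H.L1
  have hD1 := H.D1
  have hLb := H.Lb
  have hbρ := H.bρ
  have hDb := H.Db
  obtain ⟨-, w2, w3⟩ := H.wid
  have hW0 : 0 ≤ W := (abs_nonneg _).trans hpW
  have hLz : (0 : ℤ) < (dL h lam : ℤ) := by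
    have : (0 : ℝ) < (dL h lam : ℝ) := by linarith
    exact_mod_cast this
  set a : ℤ := t0 / (dL h lam : ℤ) with ha
  set t : ℤ := a * (dL h lam : ℤ) with ht
  have hta : t ≤ t0 := by
    rw [ht, ha]
    exact Int.ediv_mul_le t0 hLz.ne'
  have htb : t0 - (dL h lam : ℤ) < t := by
    have := Int.lt_ediv_add_one_mul_self t0 hLz
    rw [ht, ha]
    linarith
  set X : ℝ := (p.1 : ℝ) + s * ((t : ℝ) - lev p) with hX
  set b' : ℤ := ⌊(X - σ * t) / dD h lam⌋ with hb'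
  have hD0 : (0 : ℝ) < (dD h lam : ℝ) := by linarith
  have f1 : (b' : ℝ) * dD h lam ≤ X - σ * t := by
    have := Int.floor_le ((X - σ * t) / dD h lam)
    rw [← hb', le_div_iff₀ hD0] at this
    exact this
  have f2 : X - σ * t < (b' + 1) * dD h lam := by
    have := Int.lt_floor_add_one ((X - σ * t) / dD h lam)
    rw [← hb', div_lt_iff₀ hD0] at this
    exact this
  set g : ℤ × ℤ := gp σ h lam a b' with hg
  have hg1 : g.1 = ⌊σ * (a * dL h lam) + b' * dD h lam⌋ := rfl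
  have hg2 : g.2 = a * dL h lam - g.1 := rfl
  have hlev : lev g = t := by
    unfold lev
    rw [hg2, ht]
    ring
  have htr : ((a : ℝ) * dL h lam) = (t : ℝ) := by
    rw [ht]
    push_cast
    ring
  have g1 : (g.1 : ℝ) ≤ σ * t + b' * dD h lam := by
    have := Int.floor_le (σ * (a * dL h lam) + b' * dD h lam)
    rw [← hg1, htr] at this
    exact this
  have g2 : σ * t + b' * dD h lam < (g.1 : ℝ) + 1 := by
    have := Int.lt_floor_add_one (σ * (a * dL h lam) + b' * dD h lam)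
    rw [← hg1, htr] at this
    exact this
  have e1 : offp p s g = (g.1 : ℝ) - X := by
    unfold offp dl
    rw [hlev, hX]
    push_cast
    ring
  have hoff : |offp p s g| ≤ 2 * dD h lam := by
    rw [e1, abs_le]
    constructor
    · linarith
    · linarith
  -- real bounds for the level
  have lp1 : -(2 * (n0 : ℝ)) ≤ lev p := by exact_mod_cast hp1
  have lp2 : (lev p : ℝ) ≤ 2 * (n0 : ℝ) + 1 := by exact_mod_cast hp2
  have lq1 : -(2 * (n0 : ℝ)) ≤ lev q := by exact_mod_cast hq1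
  have lq2 : (lev q : ℝ) ≤ 2 * (n0 : ℝ) + 1 := by exact_mod_cast hq2
  have lt1 : (lev p : ℝ) - b ≤ t0 := by exact_mod_cast ht1
  have lt2 : (t0 : ℝ) ≤ lev q + b := by exact_mod_cast ht2
  have lta : (t : ℝ) ≤ t0 := by exact_mod_cast hta
  have ltb : (t0 : ℝ) - dL h lam < t := by exact_mod_cast htb
  have hn : (1000 : ℝ) ≤ n0 := by linarith
  have hlq : (lev q : ℝ) = lev p + dl p q := by
    unfold dl
    push_cast
    ring
  have htabs : |(t : ℝ)| ≤ 3 * n0 := by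
    rw [abs_le]
    constructor
    · linarith
    · linarith
  -- deviation of the line
  set th : ℝ := ((t : ℝ) - lev p) / dl p q with hth
  have hlpos : 0 < dl p q := by linarith
  have th1 : -(1 / 100) ≤ th := by
    rw [hth, le_div_iff₀ hlpos]
    linarith
  have th2 : th ≤ 1 + 1 / 100 := by
    rw [hth, div_le_iff₀ hlpos]
    linarith
  have hthl : th * dl p q = (t : ℝ) - lev p := by
    rw [hth, div_mul_cancel₀ _ hlpos.ne']
  have hdev : X - σ * ((t : ℝ) - 1 / 2) = (1 - th) * dev σ p + th * dev σ q := by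
    have e2 : dev σ q = dev σ p + (s - σ) * dl p q := by
      have e3 : (s - σ) * dl p q = ((q.1 - p.1 : ℤ) : ℝ) - σ * dl p q := by
        rw [sub_mul, hs]
      rw [e3]
      unfold dev dl
      push_cast
      ring
    rw [e2]
    have e4 : (1 - th) * dev σ p + th * (dev σ p + (s - σ) * dl p q) =
        dev σ p + (s - σ) * (th * dl p q) := by ring
    rw [e4, hthl, hX]
    unfold dev
    ring
  have hdevb : |X - σ * ((t : ℝ) - 1 / 2)| ≤ 3 * W := by
    rw [hdev]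
    refine (abs_add_le _ _).trans ?_
    rw [abs_mul, abs_mul]
    have m1 : |1 - th| ≤ 1 + 1 / 100 := by
      rw [abs_le]
      constructor <;> linarith
    have m2 : |th| ≤ 1 + 1 / 100 := by
      rw [abs_le]
      constructor <;> linarith
    have m3 := mul_le_mul m1 hpW (abs_nonneg _) (by norm_num)
    have m4 := mul_le_mul m2 hqW (abs_nonneg _) (by norm_num)
    linarith
  have hXσ : |X - σ * t| ≤ 3 * W + 1 := by
    rw [abs_le] at hdevb ⊢
    have := H.σ0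
    have := H.σ1
    constructor <;> linarith [hdevb.1, hdevb.2]
  refine ⟨a, b', ?_, ?_, ?_, ?_, hoff, ?_, ?_⟩
  · -- index a
    have h1 : |(a : ℝ)| * dL h lam ≤ 3 * n0 := by
      have : |(a : ℝ)| * dL h lam = |(t : ℝ)| := by
        rw [← htr, abs_mul, abs_of_nonneg (by linarith : (0 : ℝ) ≤ (dL h lam : ℝ))]
      rw [this]
      exact htabs
    have h2 : |(a : ℝ)| * r ^ 3 ≤ (1000 * lam ^ 3442) * r ^ 3 := by
      have hr := H.r0
      calc |(a : ℝ)| * r ^ 3 ≤ |(a : ℝ)| * (2 * lam ^ 30 * dL h lam) :=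
            mul_le_mul_of_nonneg_left H.Ll (abs_nonneg _)
        _ = 2 * lam ^ 30 * (|(a : ℝ)| * dL h lam) := by ring
        _ ≤ 2 * lam ^ 30 * (3 * n0) := mul_le_mul_of_nonneg_left h1 (by positivity)
        _ = 6 * lam ^ 30 * ρ ^ 3 := by rw [H.ρ3]; ring
        _ ≤ 6 * lam ^ 30 * (lam ^ 3412 * r ^ 3) := mul_le_mul_of_nonneg_left H.ρr3 (by positivity)
        _ = 6 * (lam ^ 30 * lam ^ 3412) * r ^ 3 := by ring
        _ = 6 * lam ^ 3442 * r ^ 3 := by rw [← pow_add]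
        _ ≤ (1000 * lam ^ 3442) * r ^ 3 := by
            apply mul_le_mul_of_nonneg_right _ (by positivity)
            exact mul_le_mul_of_nonneg_right (by norm_num) (by positivity)
    have h3 : |(a : ℝ)| ≤ 1000 * lam ^ 3442 := le_of_mul_le_mul_right h2 (by have := H.r0; positivity)
    exact h3.trans (H.big (by norm_num))
  · -- index b'
    have h1 : |(b' : ℝ)| * dD h lam ≤ 3 * W + 1 + dD h lam := by
      have e5 : |(b' : ℝ)| * dD h lam = |(b' : ℝ) * dD h lam| := by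
        rw [abs_mul, abs_of_nonneg hD0.le]
      rw [e5]
      rw [abs_le] at hXσ ⊢
      constructor <;> linarith [hXσ.1, hXσ.2]
    have h2 : |(b' : ℝ)| * dD h lam ≤ (1000 * lam ^ 2296) * dD h lam := by
      have h4 : 1 * (dD h lam : ℝ) ≤ lam ^ 2296 * dD h lam :=
        mul_le_mul_of_nonneg_right (one_le_pow₀ (by linarith [H.lam7])) hD0.le
      have h5 : 0 ≤ lam ^ 2296 * (dD h lam : ℝ) := by positivity
      nlinarith
    have h3 : |(b' : ℝ)| ≤ 1000 * lam ^ 2296 := le_of_mul_le_mul_right h2 hD0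
    exact h3.trans (H.big (by norm_num))
  · rw [hlev]
    exact hta
  · rw [hlev]
    exact htb
  · have h1 : |(g.1 : ℝ)| ≤ |(g.1 : ℝ) - X| + |X - σ * ((t : ℝ) - 1 / 2)| + |σ * ((t : ℝ) - 1 / 2)| := by
      have : (g.1 : ℝ) = ((g.1 : ℝ) - X) + (X - σ * ((t : ℝ) - 1 / 2)) + σ * ((t : ℝ) - 1 / 2) := by
        ring
      calc |(g.1 : ℝ)| = |((g.1 : ℝ) - X) + (X - σ * ((t : ℝ) - 1 / 2)) + σ * ((t : ℝ) - 1 / 2)| := by
            rw [← this]
        _ ≤ |((g.1 : ℝ) - X) + (X - σ * ((t : ℝ) - 1 / 2))| + |σ * ((t : ℝ) - 1 / 2)| := abs_add_le _ _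
        _ ≤ _ := by
            have := abs_add_le ((g.1 : ℝ) - X) (X - σ * ((t : ℝ) - 1 / 2))
            linarith
    have h2 : |σ * ((t : ℝ) - 1 / 2)| ≤ 3 * n0 + 1 := by
      rw [abs_mul, abs_of_nonneg H.σ0]
      have h3 : |(t : ℝ) - 1 / 2| ≤ 3 * n0 + 1 := by
        rw [abs_le] at htabs ⊢
        constructor <;> linarith [htabs.1, htabs.2]
      calc σ * |(t : ℝ) - 1 / 2| ≤ 1 * (3 * n0 + 1) :=
            mul_le_mul H.σ1 h3 (abs_nonneg _) (by norm_num)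
        _ = 3 * n0 + 1 := one_mul _
    rw [e1] at hoff
    have h4 : κ * (b : ℝ) ≤ b := by
      calc κ * (b : ℝ) ≤ 1 * b := mul_le_mul_of_nonneg_right H.κ1 (by linarith)
        _ = b := one_mul _
    linarith
  · rw [hlev]
    exact htabs


theorem fine_out {κ : ℝ} (hκ : 0 < κ) : ∃ C1 : ℝ, 2 ≤ C1 ∧
    ∀ (σ h lam : ℝ) (m : ℕ) (ω ω' : ℤ × ℤ → ℝ), HP C1 h lam → κ ≤ σ → σ ≤ 1 - κ →
    16 * nn h 0 ≤ m → CrE (κ / 4) lam m ω → ω' ∈ TG κ σ h lam →
    (∀ p ∈ Bx m, ∀ q ∈ Bx m, p ≤ q → |T ω p q - T ω' p q| ≤ (nn h 25 : ℝ) ^ (1 / 3 : ℝ) / 16) →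
    ∀ p ∈ Rgn σ (41 * lam * ((2 * nn h 0 : ℕ) : ℝ) ^ (2 / 3 : ℝ)) (2 * nn h 0),
    ∀ q ∈ Rgn σ (41 * lam * ((2 * nn h 0 : ℕ) : ℝ) ^ (2 / 3 : ℝ)) (2 * nn h 0),
    Cone (κ / 5) p q → (lev q ≤ -(4 * (nb h lam : ℤ)) ∨ 4 * (nb h lam : ℤ) + 1 ≤ lev p) →
    |T ω p q - muz p q| ≤ yy h / 4 * (max (dl p q) (nn h 25)) ^ (1 / 3 : ℝ) := by
  obtain ⟨Cy, hCy, hfy⟩ := fy 64
  obtain ⟨Cn, hCn, hfn⟩ := fn 1
  obtain ⟨Cb, hCb, hfb⟩ := fb 1
  set C1 : ℝ := max Cy (max Cn (max Cb (10 ^ 7 / κ ^ 2))) with hC1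
  have m1 : Cy ≤ C1 := le_max_left _ _
  have m2 : Cn ≤ C1 := (le_max_left _ _).trans (le_max_right _ _)
  have m3 : Cb ≤ C1 := (le_max_left _ _).trans ((le_max_right _ _).trans (le_max_right _ _))
  have m4 : 10 ^ 7 / κ ^ 2 ≤ C1 :=
    (le_max_right _ _).trans ((le_max_right _ _).trans (le_max_right _ _))
  have hC12 : 2 ≤ C1 := hCy.trans m1
  refine ⟨C1, hC12, ?_⟩
  intro σ h lam m ω ω' hHP h1 h2 hm hCr hTG hdiff p hp q hq hcone hlv
  have hlamC := (hp_basic hC12 hHP).1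
  obtain ⟨y64, ylam, -⟩ := hfy h lam (hHP.mono m1)
  obtain ⟨fn1, -, -, fn4, fn5⟩ := hfn h lam (hHP.mono m2)
  obtain ⟨-, fb2, -, fb4, fb5, -, -, fb8, fb9, -⟩ := hfb h lam (hHP.mono m3)
  have hκ1 : κ ≤ 1 := by linarith
  have hlam0 : 0 < lam := by linarith
  have hlam1 : 1 ≤ lam := by linarith
  have hn1 : (0 : ℝ) ≤ (nn h 25 : ℝ) := Nat.cast_nonneg _
  have hn0 : (0 : ℝ) ≤ (nn h 0 : ℝ) := Nat.cast_nonneg _
  set r : ℝ := (nn h 25 : ℝ) ^ (1 / 3 : ℝ) with hr
  set ρ : ℝ := (nn h 0 : ℝ) ^ (1 / 3 : ℝ) with hρ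
  have hr0 : 0 ≤ r := Real.rpow_nonneg hn1 _
  have hρ0 : 0 ≤ ρ := Real.rpow_nonneg hn0 _
  have r3 : r ^ 3 = (nn h 25 : ℝ) := by
    rw [hr, ← Real.rpow_natCast, ← Real.rpow_mul hn1]
    norm_num
  have ρ3 : ρ ^ 3 = (nn h 0 : ℝ) := by
    rw [hρ, ← Real.rpow_natCast, ← Real.rpow_mul hn0]
    norm_num
  have r2 : (nn h 25 : ℝ) ^ (2 / 3 : ℝ) = r ^ 2 := by
    rw [hr, ← Real.rpow_natCast, ← Real.rpow_mul hn1]
    norm_num
  have ρ2 : (nn h 0 : ℝ) ^ (2 / 3 : ℝ) = ρ ^ 2 := by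
    rw [hρ, ← Real.rpow_natCast, ← Real.rpow_mul hn0]
    norm_num
  have hb1 : (1 : ℝ) ≤ (nb h lam : ℝ) := by
    have : 1 ≤ lam ^ 3 := one_le_pow₀ hlam1
    linarith
  have hL1 : (1 : ℝ) ≤ (dL h lam : ℝ) := by exact_mod_cast fb8
  have hD1 : (1 : ℝ) ≤ (dD h lam : ℝ) := by exact_mod_cast fb9
  have H : FAc κ σ lam (yy h) (nn h 0) (nn h 25) (nb h lam) (dL h lam) (dD h lam) r ρ := by
    refine ⟨hκ, hκ1, by linarith, by linarith, m4.trans hlamC, y64, r3, ρ3, ?_, ?_, hb1, hL1, hD1,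
      ?_, ?_, ?_, ?_, ?_, ?_, ?_, ?_⟩
    · have h3 : (lam ^ 5) ^ 3 ≤ r ^ 3 := by
        rw [r3]
        refine le_trans ?_ fb5
        calc (lam ^ 5) ^ 3 = lam ^ 12 * lam ^ 3 := by ring
          _ ≤ lam ^ 12 * nb h lam := by
              apply mul_le_mul_of_nonneg_left _ (by positivity)
              linarith
      exact le_of_pow_le_pow_left₀ (by norm_num) hr0 h3
    · have h3 : nn h 25 ≤ nn h 0 := (fn1 0 (by norm_num)).2.2.2.2.1
      exact Real.rpow_le_rpow hn1 (by exact_mod_cast h3) (by norm_num)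
    · rw [r3]
      exact fb5
    · rw [r3]
      exact fb4
    · rw [r3]
      have h3 : (dL h lam : ℝ) ≤ (nn h 25 : ℝ) / lam ^ 30 := Nat.floor_le (by positivity)
      rw [le_div_iff₀ (by positivity)] at h3
      linarith
    · rw [r3]
      have h3 : (nn h 25 : ℝ) / lam ^ 30 < (dL h lam : ℝ) + 1 := Nat.lt_floor_add_one _
      rw [div_lt_iff₀ (by positivity)] at h3
      have h4 : 0 < lam ^ 30 := by positivity
      have h5 : ((dL h lam : ℝ) + 1) * lam ^ 30 ≤ 2 * lam ^ 30 * dL h lam := by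
        have : ((dL h lam : ℝ) + 1) * lam ^ 30 ≤ ((dL h lam : ℝ) + dL h lam) * lam ^ 30 :=
          mul_le_mul_of_nonneg_right (by linarith) h4.le
        linarith
      linarith
    · rw [← r2]
      have h3 : (dD h lam : ℝ) ≤ (nn h 25 : ℝ) ^ (2 / 3 : ℝ) / lam ^ 20 := Nat.floor_le (by positivity)
      rw [le_div_iff₀ (by positivity)] at h3
      linarith
    · rw [← r2]
      have h3 : (nn h 25 : ℝ) ^ (2 / 3 : ℝ) / lam ^ 20 < (dD h lam : ℝ) + 1 := Nat.lt_floor_add_one _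
      rw [div_lt_iff₀ (by positivity)] at h3
      have h4 : 0 < lam ^ 20 := by positivity
      have h5 : ((dD h lam : ℝ) + 1) * lam ^ 20 ≤ 2 * lam ^ 20 * dD h lam := by
        have : ((dD h lam : ℝ) + 1) * lam ^ 20 ≤ ((dD h lam : ℝ) + dD h lam) * lam ^ 20 :=
          mul_le_mul_of_nonneg_right (by linarith) h4.le
        linarith
      linarith
    · rw [← r2, ← ρ2]
      exact fn4
    · rw [r3, ρ3]
      exact fn5
  clear_value r ρ
  have hrpos := H.r0
  have hbρ := H.bρ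
  have hLb := H.Lb
  have hDb := H.Db
  have hlr := H.lamr
  have hlam7 := H.lam7
  have hn : (1000 : ℝ) ≤ (nn h 0 : ℝ) := by linarith
  obtain ⟨w1, w2, -⟩ := H.wid
  -- the box
  have hbox : ∀ x : ℤ × ℤ, |(x.1 : ℝ)| ≤ 5 * (nn h 0 : ℝ) → |(lev x : ℝ)| ≤ 3 * (nn h 0 : ℝ) →
      x ∈ Bx m := by
    intro x hx1 hx2
    have hx1' : |x.1| ≤ 5 * (nn h 0 : ℤ) := by exact_mod_cast hx1
    have hx2' : |lev x| ≤ 3 * (nn h 0 : ℤ) := by exact_mod_cast hx2
    rw [abs_le] at hx1' hx2'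
    have hm' : 16 * (nn h 0 : ℤ) ≤ m := by exact_mod_cast hm
    unfold lev at hx2'
    unfold Bx
    rw [Set.mem_ofPred_eq]
    exact ⟨by omega, by omega, by omega, by omega⟩
  have hnear : ∀ x ∈ Rgn σ (41 * lam * ((2 * nn h 0 : ℕ) : ℝ) ^ (2 / 3 : ℝ)) (2 * nn h 0),
      |(x.1 : ℝ)| ≤ 5 * (nn h 0 : ℝ) ∧ |(lev x : ℝ)| ≤ 3 * (nn h 0 : ℝ) := by
    intro x hx
    unfold Rgn at hx
    rw [Set.mem_ofPred_eq] at hx
    obtain ⟨x1, x2, x3⟩ := hx
    have x1' : -(2 * (nn h 0 : ℝ)) ≤ (lev x : ℝ) := by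
      have : -(2 * (nn h 0 : ℤ)) ≤ lev x := by
        push_cast at x1
        exact x1
      exact_mod_cast this
    have x2' : (lev x : ℝ) ≤ 2 * (nn h 0 : ℝ) + 1 := by
      have : lev x ≤ 2 * (nn h 0 : ℤ) + 1 := by
        push_cast at x2
        exact x2
      exact_mod_cast this
    have x4 : |(lev x : ℝ)| ≤ 3 * (nn h 0 : ℝ) := by
      rw [abs_le]
      constructor <;> linarith
    refine ⟨?_, x4⟩
    have h3 : |σ * ((lev x : ℝ) - 1 / 2)| ≤ 3 * nn h 0 + 1 := by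
      rw [abs_mul, abs_of_nonneg H.σ0]
      have h4 : |(lev x : ℝ) - 1 / 2| ≤ 3 * nn h 0 + 1 := by
        rw [abs_le] at x4 ⊢
        constructor <;> linarith [x4.1, x4.2]
      calc σ * |(lev x : ℝ) - 1 / 2| ≤ 1 * (3 * nn h 0 + 1) :=
            mul_le_mul H.σ1 h4 (abs_nonneg _) (by norm_num)
        _ = 3 * nn h 0 + 1 := one_mul _
    have h5 : (x.1 : ℝ) = dev σ x + σ * ((lev x : ℝ) - 1 / 2) := by
      unfold dev
      ring
    rw [h5]
    refine (abs_add_le _ _).trans ?_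
    linarith
  obtain ⟨bp1, bp2⟩ := hnear p hp
  obtain ⟨bq1, bq2⟩ := hnear q hq
  have hpB := hbox p bp1 bp2
  have hqB := hbox q bq1 bq2
  obtain ⟨hpq, cc1, cc2⟩ := hcone
  have hl0 : 0 ≤ dl p q := by
    have := lev_le_lev hpq
    unfold dl
    exact_mod_cast (by omega : (0 : ℤ) ≤ lev q - lev p)
  have hM : r ≤ (max (dl p q) (nn h 25)) ^ (1 / 3 : ℝ) := by
    rw [hr]
    exact Real.rpow_le_rpow hn1 (le_max_right _ _) (by norm_num)
  have e16 : κ / 4 / 4 = κ / 16 := by ring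
  by_cases hshort : dl p q * lam ^ 4 ≤ r ^ 3
  · -- short distance
    have t1 := (hCr.2 p hpB q hqB hpq).2 (by
      rw [e16]
      have : κ / 16 * dl p q ≤ κ / 5 * dl p q := mul_le_mul_of_nonneg_right (by linarith) hl0
      exact ⟨hpq, this.trans cc1, this.trans cc2⟩)
    refine t1.trans ?_
    have h3 : dl p q + 1 ≤ (2 * r / lam) ^ 3 := by
      rw [div_pow, le_div_iff₀ (by positivity)]
      have h4 : (dl p q + 1) * lam ^ 3 ≤ (dl p q + 1) * lam ^ 4 :=
        mul_le_mul_of_nonneg_left (pow_le_pow_right₀ hlam1 (by norm_num)) (by linarith)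
      have h5 : lam ^ 4 ≤ r ^ 3 := by
        have h6 : lam ^ 4 ≤ lam ^ 5 := pow_le_pow_right₀ hlam1 (by norm_num)
        have h7 : r ≤ r ^ 3 := by
          have : (1 : ℝ) ≤ r := by linarith
          calc r = r ^ 1 := (pow_one r).symm
            _ ≤ r ^ 3 := pow_le_pow_right₀ this (by norm_num)
        linarith [H.rl]
      have h6 : (2 * r) ^ 3 = 8 * r ^ 3 := by ring
      have h7 : 0 ≤ r ^ 3 := by positivity
      rw [h6]
      linarith
    have h4 : (dl p q + 1) ^ (1 / 3 : ℝ) ≤ 2 * r / lam := by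
      calc (dl p q + 1) ^ (1 / 3 : ℝ) ≤ ((2 * r / lam) ^ 3) ^ (1 / 3 : ℝ) :=
            Real.rpow_le_rpow (by linarith) h3 (by norm_num)
        _ = 2 * r / lam := by
            rw [← Real.rpow_natCast, ← Real.rpow_mul (by positivity)]
            norm_num
    calc lam * (dl p q + 1) ^ (1 / 3 : ℝ) ≤ lam * (2 * r / lam) :=
          mul_le_mul_of_nonneg_left h4 hlam0.le
      _ = 2 * r := by field_simp
      _ ≤ yy h / 4 * (max (dl p q) (nn h 25)) ^ (1 / 3 : ℝ) := by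
          have h5 : 2 ≤ yy h / 4 := by linarith
          exact mul_le_mul h5 hM hrpos.le (by linarith)
  -- long distance
  push Not at hshort
  have hlong : 1000 * (nb h lam : ℝ) < dl p q := by
    have h3 : lam ^ 12 * (nb h lam : ℝ) < dl p q * lam ^ 4 := lt_of_le_of_lt H.bu hshort
    have h4 : lam ^ 4 * (lam ^ 8 * (nb h lam : ℝ)) < lam ^ 4 * dl p q := by
      calc lam ^ 4 * (lam ^ 8 * (nb h lam : ℝ)) = lam ^ 12 * (nb h lam : ℝ) := by ring
        _ < dl p q * lam ^ 4 := h3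
        _ = lam ^ 4 * dl p q := by ring
    have h5 := lt_of_mul_lt_mul_left h4 (by positivity)
    have h6 : 1000 * (nb h lam : ℝ) ≤ lam ^ 8 * (nb h lam : ℝ) := by
      apply mul_le_mul_of_nonneg_right _ (by linarith)
      linarith [H.lampow (k := 8) (by norm_num)]
    linarith
  have hlpos : 0 < dl p q := by linarith
  set s : ℝ := ((q.1 - p.1 : ℤ) : ℝ) / dl p q with hs
  have hsl : s * dl p q = ((q.1 - p.1 : ℤ) : ℝ) := by
    rw [hs, div_mul_cancel₀ _ hlpos.ne']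
  have e22 : ((q.2 - p.2 : ℤ) : ℝ) = dl p q - ((q.1 - p.1 : ℤ) : ℝ) := by
    simp only [dl, lev]
    push_cast
    ring
  have hs1 : κ / 5 ≤ s := by
    rw [hs, le_div_iff₀ hlpos]
    exact cc1
  have hs2 : s ≤ 1 - κ / 5 := by
    rw [hs, div_le_iff₀ hlpos]
    rw [e22] at cc2
    linarith
  have op : offp p s p = 0 := by
    unfold offp dl
    simp
  have oq : offp p s q = 0 := by
    unfold offp
    rw [hsl]
    push_cast
    ring
  have hpR := hp
  have hqR := hq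
  unfold Rgn at hpR hqR
  rw [Set.mem_ofPred_eq] at hpR hqR
  obtain ⟨p1, p2, p3⟩ := hpR
  obtain ⟨q1, q2, q3⟩ := hqR
  push_cast at p1 p2 q1 q2
  have hG : ∀ t0 : ℤ, lev p - nb h lam ≤ t0 → t0 ≤ lev q + nb h lam → _ := fun t0 k1 k2 =>
    fA_grid H p1 p2 q1 q2 w1 p3 q3 hlong hsl k1 k2
  have hlevpq : lev p ≤ lev q := lev_le_lev hpq
  have hbz : (0 : ℤ) ≤ (nb h lam : ℤ) := Int.natCast_nonneg _
  have hLz : 2 * (dL h lam : ℤ) ≤ (nb h lam : ℤ) := by
    have : 2 * (dL h lam : ℝ) ≤ (nb h lam : ℝ) := by linarith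
    exact_mod_cast this
  have hbz1 : (1 : ℤ) ≤ (nb h lam : ℤ) := by exact_mod_cast hb1
  -- the grid estimate
  have hTGe : ∀ a b a' b' : ℤ, |(a : ℝ)| ≤ lam ^ 3500 → |(b : ℝ)| ≤ lam ^ 3500 →
      |(a' : ℝ)| ≤ lam ^ 3500 → |(b' : ℝ)| ≤ lam ^ 3500 →
      Cone (κ / 8) (gp σ h lam a b) (gp σ h lam a' b') →
      (lev (gp σ h lam a' b') ≤ -((nb h lam : ℤ) + 1) ∨ (nb h lam : ℤ) + 2 ≤ lev (gp σ h lam a b)) →
      dl (gp σ h lam a b) (gp σ h lam a' b') ≤ dl p q + 5 / 2 * nb h lam →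
      gp σ h lam a b ∈ Bx m → gp σ h lam a' b' ∈ Bx m →
      |T ω (gp σ h lam a b) (gp σ h lam a' b') - muz (gp σ h lam a b) (gp σ h lam a' b')| ≤
        yy h / 8 * (101 / 100 * (max (dl p q) (nn h 25)) ^ (1 / 3 : ℝ)) + r / 16 := by
    intro a b a' b' ka kb ka' kb' kc kl kd kB kB'
    have hdl8 : dl (gp σ h lam a b) (gp σ h lam a' b') ≤ 8 * nn h 0 := by
      have h3 : dl p q ≤ 4 * nn h 0 + 1 := by
        have h4 : lev q - lev p ≤ 4 * (nn h 0 : ℤ) + 1 := by omega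
        unfold dl
        exact_mod_cast h4
      linarith
    have g1 := hTG a b a' b' ka kb ka' kb' kc kl hdl8
    have g2 := hdiff _ kB _ kB' kc.1
    have hdl0 : 0 ≤ dl (gp σ h lam a b) (gp σ h lam a' b') := by
      have := lev_le_lev kc.1
      unfold dl
      exact_mod_cast (by omega : (0 : ℤ) ≤ lev (gp σ h lam a' b') - lev (gp σ h lam a b))
    have hmx : (max (dl (gp σ h lam a b) (gp σ h lam a' b')) (nn h 25)) ^ (1 / 3 : ℝ) ≤
        101 / 100 * (max (dl p q) (nn h 25)) ^ (1 / 3 : ℝ) := by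
      have hM0 : 0 ≤ max (dl p q) (nn h 25) := hl0.trans (le_max_left _ _)
      have h5 : max (dl (gp σ h lam a b) (gp σ h lam a' b')) (nn h 25) ≤
          101 / 100 * max (dl p q) (nn h 25) := by
        refine max_le ?_ ?_
        · have := le_max_left (dl p q) (nn h 25 : ℝ)
          linarith
        · have := le_max_right (dl p q) (nn h 25 : ℝ)
          linarith
      calc (max (dl (gp σ h lam a b) (gp σ h lam a' b')) (nn h 25)) ^ (1 / 3 : ℝ)
          ≤ (101 / 100 * max (dl p q) (nn h 25)) ^ (1 / 3 : ℝ) :=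
            Real.rpow_le_rpow (hdl0.trans (le_max_left _ _)) h5 (by norm_num)
        _ = (101 / 100 : ℝ) ^ (1 / 3 : ℝ) * (max (dl p q) (nn h 25)) ^ (1 / 3 : ℝ) :=
            Real.mul_rpow (by norm_num) hM0
        _ ≤ 101 / 100 * (max (dl p q) (nn h 25)) ^ (1 / 3 : ℝ) := by
            apply mul_le_mul_of_nonneg_right _ (Real.rpow_nonneg hM0 _)
            calc (101 / 100 : ℝ) ^ (1 / 3 : ℝ) ≤ (101 / 100 : ℝ) ^ (1 : ℝ) :=
                  Real.rpow_le_rpow_of_exponent_le (by norm_num) (by norm_num)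
              _ = 101 / 100 := Real.rpow_one _
    have h6 := mul_le_mul_of_nonneg_left hmx (by linarith : 0 ≤ yy h / 8)
    rw [abs_le] at g1 g2 ⊢
    constructor <;> linarith [g1.1, g1.2, g2.1, g2.2]
  set M : ℝ := (max (dl p q) (nn h 25)) ^ (1 / 3 : ℝ) with hMd
  have hfinal : yy h / 8 * (101 / 100 * M) + r / 16 + r / 16 ≤ yy h / 4 * M := by
    have h3 : 64 * M ≤ yy h * M := mul_le_mul_of_nonneg_right y64 (hrpos.le.trans hM)
    linarith
  have hκb : κ * (nb h lam : ℝ) ≤ nb h lam := by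
    calc κ * (nb h lam : ℝ) ≤ 1 * nb h lam := mul_le_mul_of_nonneg_right hκ1 (by linarith)
      _ = nb h lam := one_mul _
  have hκb0 : 0 < κ * (nb h lam : ℝ) := by positivity
  rw [abs_le]
  constructor
  · -- lower bound
    obtain ⟨a, b', i1, i2, i3, i4, i5, i6, i7⟩ := hG (lev p + nb h lam) (by omega) (by omega)
    obtain ⟨a2, b2', j1, j2, j3, j4, j5, j6, j7⟩ := hG (lev q - nb h lam) (by omega) (by omega)
    set u := gp σ h lam a b' with hu
    set v := gp σ h lam a2 b2' with hv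
    have i3' : (lev u : ℝ) ≤ lev p + nb h lam := by exact_mod_cast i3
    have i4' : (lev p : ℝ) + nb h lam - dL h lam < lev u := by exact_mod_cast i4
    have j3' : (lev v : ℝ) ≤ lev q - nb h lam := by exact_mod_cast j3
    have j4' : (lev q : ℝ) - nb h lam - dL h lam < lev v := by exact_mod_cast j4
    have dpu : dl p u = lev u - lev p := by unfold dl; push_cast; ring
    have dvq : dl v q = lev q - lev v := by unfold dl; push_cast; ring
    have duv : dl u v = lev v - lev u := by unfold dl; push_cast; ring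
    have dpq : dl p q = lev q - lev p := by unfold dl; push_cast; ring
    have hBu := hbox u i6 i7
    have hBv := hbox v j6 j7
    have cpu : Cone (κ / 16) p u := by
      refine fA_cone (p := p) (by linarith) (by linarith) hs1 hs2 (E := 2 * dD h lam) ?_ ?_
      · rw [op, sub_zero]
        exact i5
      · have h3 : (κ / 5 - κ / 16) * (nb h lam / 2) ≤ (κ / 5 - κ / 16) * dl p u :=
          mul_le_mul_of_nonneg_left (by linarith) (by linarith)
        linarith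
    have cvq : Cone (κ / 16) v q := by
      refine fA_cone (p := p) (by linarith) (by linarith) hs1 hs2 (E := 2 * dD h lam) ?_ ?_
      · rw [oq, zero_sub, abs_neg]
        exact j5
      · have h3 : (κ / 5 - κ / 16) * (nb h lam / 2) ≤ (κ / 5 - κ / 16) * dl v q :=
          mul_le_mul_of_nonneg_left (by linarith) (by linarith)
        linarith
    have hoff : |offp p s v - offp p s u| ≤ 4 * dD h lam := by
      rw [abs_le] at i5 j5 ⊢
      constructor <;> linarith [i5.1, i5.2, j5.1, j5.2]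
    have cuv8 : Cone (κ / 8) u v := by
      refine fA_cone (p := p) (by linarith) (by linarith) hs1 hs2 hoff ?_
      have h3 : (κ / 5 - κ / 8) * (nb h lam) ≤ (κ / 5 - κ / 8) * dl u v :=
        mul_le_mul_of_nonneg_left (by linarith) (by linarith)
      linarith
    have cuv : Cone (κ / 16) u v := by
      refine fA_cone (p := p) (by linarith) (by linarith) hs1 hs2 hoff ?_
      have h3 : (κ / 5 - κ / 16) * (nb h lam) ≤ (κ / 5 - κ / 16) * dl u v :=
        mul_le_mul_of_nonneg_left (by linarith) (by linarith)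
      linarith
    have o1 : offs p q u ≤ 2 * dD h lam := by
      have := fA_offs (E0 := 2 * dD h lam) (E1 := 0) (w := u) (x := p) (y := q) i5 (by rw [op]; simp)
        (by rw [oq]; simp) (by linarith) (by linarith) hlpos
      linarith
    have o2 : offs p q v ≤ 2 * dD h lam := by
      have := fA_offs (E0 := 2 * dD h lam) (E1 := 0) (w := v) (x := p) (y := q) j5 (by rw [op]; simp)
        (by rw [oq]; simp) (by
          have : dl p v = lev v - lev p := by unfold dl; push_cast; ring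
          linarith) (by
          have : dl p v = lev v - lev p := by unfold dl; push_cast; ring
          linarith) hlpos
      linarith
    have key := fA_sand H hCr hpB hBu hBv hqB cpu cuv cvq (by linarith) (by linarith) (by linarith)
      (by linarith) (by linarith) o1 o2
    have hlev4 : lev v ≤ -((nb h lam : ℤ) + 1) ∨ (nb h lam : ℤ) + 2 ≤ lev u := by
      rcases hlv with hlv | hlv
      · left
        omega
      · right
        omega
    have hdl4 : dl u v ≤ dl p q + 5 / 2 * nb h lam := by linarith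
    have htg := hTGe a b' a2 b2' i1 i2 j1 j2 cuv8 hlev4 hdl4 hBu hBv
    rw [abs_le] at htg
    linarith [htg.1]
  · -- upper bound
    obtain ⟨a, b', i1, i2, i3, i4, i5, i6, i7⟩ := hG (lev p - nb h lam) (by omega) (by omega)
    obtain ⟨a2, b2', j1, j2, j3, j4, j5, j6, j7⟩ := hG (lev q + nb h lam) (by omega) (by omega)
    set u := gp σ h lam a b' with hu
    set v := gp σ h lam a2 b2' with hv
    have i3' : (lev u : ℝ) ≤ lev p - nb h lam := by exact_mod_cast i3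
    have i4' : (lev p : ℝ) - nb h lam - dL h lam < lev u := by exact_mod_cast i4
    have j3' : (lev v : ℝ) ≤ lev q + nb h lam := by exact_mod_cast j3
    have j4' : (lev q : ℝ) + nb h lam - dL h lam < lev v := by exact_mod_cast j4
    have dup : dl u p = lev p - lev u := by unfold dl; push_cast; ring
    have dqv : dl q v = lev v - lev q := by unfold dl; push_cast; ring
    have duv : dl u v = lev v - lev u := by unfold dl; push_cast; ring
    have dpq : dl p q = lev q - lev p := by unfold dl; push_cast; ring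
    have duq : dl u q = lev q - lev u := by unfold dl; push_cast; ring
    have hBu := hbox u i6 i7
    have hBv := hbox v j6 j7
    have cup : Cone (κ / 16) u p := by
      refine fA_cone (p := p) (by linarith) (by linarith) hs1 hs2 (E := 2 * dD h lam) ?_ ?_
      · rw [op, zero_sub, abs_neg]
        exact i5
      · have h3 : (κ / 5 - κ / 16) * (nb h lam / 2) ≤ (κ / 5 - κ / 16) * dl u p :=
          mul_le_mul_of_nonneg_left (by linarith) (by linarith)
        linarith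
    have cqv : Cone (κ / 16) q v := by
      refine fA_cone (p := p) (by linarith) (by linarith) hs1 hs2 (E := 2 * dD h lam) ?_ ?_
      · rw [oq, sub_zero]
        exact j5
      · have h3 : (κ / 5 - κ / 16) * (nb h lam / 2) ≤ (κ / 5 - κ / 16) * dl q v :=
          mul_le_mul_of_nonneg_left (by linarith) (by linarith)
        linarith
    have cpq : Cone (κ / 16) p q := by
      have : κ / 16 * dl p q ≤ κ / 5 * dl p q := mul_le_mul_of_nonneg_right (by linarith) hl0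
      exact ⟨hpq, this.trans cc1, this.trans cc2⟩
    have hoff : |offp p s v - offp p s u| ≤ 4 * dD h lam := by
      rw [abs_le] at i5 j5 ⊢
      constructor <;> linarith [i5.1, i5.2, j5.1, j5.2]
    have cuv8 : Cone (κ / 8) u v := by
      refine fA_cone (p := p) (by linarith) (by linarith) hs1 hs2 hoff ?_
      have h3 : (κ / 5 - κ / 8) * (nb h lam) ≤ (κ / 5 - κ / 8) * dl u v :=
        mul_le_mul_of_nonneg_left (by linarith) (by linarith)
      linarith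
    have o1 : offs u v p ≤ 2 * dD h lam := by
      have := fA_offs (E0 := 0) (E1 := 2 * dD h lam) (w := p) (x := u) (y := v) (by rw [op]; simp)
        i5 j5 (by linarith) (by linarith) (by linarith)
      linarith
    have o2 : offs u v q ≤ 2 * dD h lam := by
      have := fA_offs (E0 := 0) (E1 := 2 * dD h lam) (w := q) (x := u) (y := v) (by rw [oq]; simp)
        i5 j5 (by linarith) (by linarith) (by linarith)
      linarith
    have key := fA_sand H hCr hBu hpB hqB hBv cup cpq cqv (by linarith) (by linarith) (by linarith)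
      (by linarith) (by linarith) o1 o2
    have hlev4 : lev v ≤ -((nb h lam : ℤ) + 1) ∨ (nb h lam : ℤ) + 2 ≤ lev u := by
      rcases hlv with hlv | hlv
      · left
        omega
      · right
        omega
    have hdl4 : dl u v ≤ dl p q + 5 / 2 * nb h lam := by linarith
    have htg := hTGe a b' a2 b2' i1 i2 j1 j2 cuv8 hlev4 hdl4 hBu hBv
    rw [abs_le] at htg
    linarith [htg.2]

end BGE
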