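import Pool.Agent.BGE.ZDefs
import Pool.Agent.BGE.Base2
import Pool.Agent.BGE.Meas

/-!
BGE / Z1. The events `Gm` and `Gr`.

`Gm κ r0 m` depends only on the weights in the box `[-(m+1), m+1]²` (all the sites of the path and
of all the competing paths are there), and only finitely many path segments matter: measurability.
`gm_sub_gr`: for `r0 ≤ r ≤ m`, `2/κ ≤ r`: cut the path at the levels `-r` and `r + 1`. With
`z = pt x (-r)`, `w = pt x (r+1)`: `T z w = wt x (-r) (r+1)` (sub-paths of geodesics are geodesics)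
`= wt x (-r) 0 + wt x 1 (r+1) = T z (0,0) + T (0,1) w`. Cones: `κ r ≤ -z.1, -z.2`; `w.1 ≥ κ (r+1)`,
`w.2 - 1 ≥ κ (r+1) - 1 ≥ (κ/2) r`.
-/

namespace BGE

open MeasureTheory ProbabilityTheory

/-- the condition on the path in the definition of `Gm` -/
private def gmP (κ : ℝ) (r0 m : ℕ) (ω : ℤ × ℤ → ℝ) (x : ℤ → ℤ) : Prop :=
  UR x (-(m : ℤ)) (m + 1) ∧ x 0 = 0 ∧ x 1 = 0 ∧
    wt ω x (-(m : ℤ)) (m + 1) = T ω (pt x (-(m : ℤ))) (pt x (m + 1)) ∧
    (∀ l : ℤ, (r0 : ℤ) ≤ l → l ≤ m + 1 → κ * l ≤ x l ∧ κ * l ≤ ((l - x l : ℤ) : ℝ)) ∧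
    (∀ l : ℤ, (r0 : ℤ) ≤ -l → -(m : ℤ) ≤ l →
      κ * (-l) ≤ -(x l : ℝ) ∧ κ * (-l) ≤ -((l - x l : ℤ) : ℝ))

private theorem gm_mem {κ : ℝ} {r0 m : ℕ} {ω : ℤ × ℤ → ℝ} :
    ω ∈ Gm κ r0 m ↔ ∃ x : ℤ → ℤ, gmP κ r0 m ω x := Iff.rfl

private theorem gm_congr {κ : ℝ} {r0 m : ℕ} {ω : ℤ × ℤ → ℝ} {x y : ℤ → ℤ}
    (h : ∀ l : ℤ, -(m : ℤ) ≤ l → l ≤ m + 1 → x l = y l) (hx : gmP κ r0 m ω x) :
    gmP κ r0 m ω y := by
  obtain ⟨h1, h2, h3, h4, h5, h6⟩ := hx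
  refine ⟨?_, ?_, ?_, ?_, ?_, ?_⟩
  · intro l hl1 hl2
    rw [← h l hl1 hl2.le, ← h (l + 1) (by omega) (by omega)]
    exact h1 l hl1 hl2
  · rw [← h 0 (by omega) (by omega)]; exact h2
  · rw [← h 1 (by omega) (by omega)]; exact h3
  · have e1 : pt y (-(m : ℤ)) = pt x (-(m : ℤ)) := by
      unfold pt; rw [h _ le_rfl (by omega)]
    have e2 : pt y (m + 1) = pt x (m + 1) := by
      unfold pt; rw [h _ (by omega) le_rfl]
    rw [e1, e2, ← h4]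
    unfold wt
    refine Finset.sum_congr rfl fun l hl => ?_
    rw [Finset.mem_Icc] at hl
    unfold pt
    rw [h l hl.1 hl.2]
  · intro l hl1 hl2
    rw [← h l (by omega) hl2]
    exact h5 l hl1 hl2
  · intro l hl1 hl2
    rw [← h l hl2 (by omega)]
    exact h6 l hl1 hl2

/-- paths given by finite lists -/
private def gmExt (m : ℕ) (L : List ℤ) : ℤ → ℤ := fun l => L.getD (l + m).toNat 0

private theorem gm_ext (m : ℕ) (x : ℤ → ℤ) : ∃ L : List ℤ, ∀ l : ℤ, -(m : ℤ) ≤ l → l ≤ m + 1 →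
    x l = gmExt m L l := by
  refine ⟨(List.range (2 * m + 2)).map (fun i : ℕ => x ((i : ℤ) - m)), fun l h1 h2 => ?_⟩
  unfold gmExt
  have h3 : (l + m).toNat < 2 * m + 2 := by omega
  rw [List.getD_eq_getElem?_getD, List.getElem?_map, List.getElem?_range h3]
  simp only [Option.map_some, Option.getD_some]
  congr 1
  omega

private theorem gm_iff {κ : ℝ} {r0 m : ℕ} {ω : ℤ × ℤ → ℝ} :
    ω ∈ Gm κ r0 m ↔ ∃ L : List ℤ, gmP κ r0 m ω (gmExt m L) := by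
  rw [gm_mem]
  constructor
  · rintro ⟨x, hx⟩
    obtain ⟨L, hL⟩ := gm_ext m x
    exact ⟨L, gm_congr hL hx⟩
  · rintro ⟨L, hL⟩
    exact ⟨_, hL⟩

private theorem gm_eqm {f g : (ℤ × ℤ → ℝ) → ℝ} (hf : Measurable f) (hg : Measurable g) :
    Measurable fun x => f x = g x := measurableSet_setOfPred.1 (measurableSet_eq_fun hf hg)

private theorem gm_wt (x : ℤ → ℤ) (a b : ℤ) : Measurable fun ω : ℤ × ℤ → ℝ => wt ω x a b := by
  unfold wt
  exact Finset.measurable_sum _ fun l _ => measurable_pi_apply _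

theorem measurableSet_Gm (κ : ℝ) (r0 m : ℕ) : MeasurableSet (Gm κ r0 m) := by
  have e : Gm κ r0 m = {ω | ∃ L : List ℤ, gmP κ r0 m ω (gmExt m L)} := by
    ext ω
    exact gm_iff
  rw [e]
  refine measurableSet_setOfPred.2 ?_
  refine Measurable.exists fun L => ?_
  unfold gmP
  refine (measurable_const).and ((measurable_const).and ((measurable_const).and
    (Measurable.and ?_ ((measurable_const).and measurable_const))))
  exact gm_eqm (gm_wt _ _ _) (measurable_T _ _)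

theorem measurableSet_Gr (κ : ℝ) (r : ℕ) : MeasurableSet (Gr κ r) := by
  unfold Gr
  refine measurableSet_setOfPred.2 ?_
  refine Measurable.exists fun z => Measurable.exists fun w => ?_
  refine (measurable_const).and ((measurable_const).and ((measurable_const).and
    ((measurable_const).and ?_)))
  exact gm_eqm (measurable_T z w) ((measurable_T _ _).add (measurable_T _ _))

private theorem gm_box {m : ℕ} {x : ℤ → ℤ} (h1 : UR x (-(m : ℤ)) (m + 1)) (h2 : x 0 = 0)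
    {z : ℤ × ℤ} (hz1 : pt x (-(m : ℤ)) ≤ z) (hz2 : z ≤ pt x (m + 1)) :
    z ∈ ((Finset.Icc ((-((m : ℤ) + 1), -((m : ℤ) + 1)) : ℤ × ℤ) ((m : ℤ) + 1, (m : ℤ) + 1) :
      Finset (ℤ × ℤ)) : Set (ℤ × ℤ)) := by
  have a1 := pt_le_pt h1 (le_refl _) (show -(m : ℤ) ≤ 0 by omega) (by omega)
  have a2 := pt_le_pt h1 (show -(m : ℤ) ≤ 0 by omega) (show (0 : ℤ) ≤ m + 1 by omega) le_rfl
  have e : pt x 0 = (0, 0) := by unfold pt; rw [h2, sub_zero]
  rw [e] at a1 a2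
  unfold pt at hz1 hz2 a1 a2
  rw [Finset.mem_coe, Finset.mem_Icc]
  obtain ⟨b1, b2⟩ := a1
  obtain ⟨b3, b4⟩ := a2
  obtain ⟨c1, c2⟩ := hz1
  obtain ⟨c3, c4⟩ := hz2
  simp only at b1 b2 b3 b4 c1 c2 c3 c4
  refine ⟨⟨?_, ?_⟩, ⟨?_, ?_⟩⟩
  · simp only; omega
  · simp only; omega
  · simp only; omega
  · simp only; omega

private theorem gm_dep {κ : ℝ} {r0 m : ℕ} {ω ω' : ℤ × ℤ → ℝ} (h : ∀ i ∈ ((Finset.Icc
      ((-((m : ℤ) + 1), -((m : ℤ) + 1)) : ℤ × ℤ) ((m : ℤ) + 1, (m : ℤ) + 1) :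
      Finset (ℤ × ℤ)) : Set (ℤ × ℤ)), ω i = ω' i) (hω : ω ∈ Gm κ r0 m) : ω' ∈ Gm κ r0 m := by
  obtain ⟨x, h1, h2, h3, h4, h5, h6⟩ := hω
  refine ⟨x, h1, h2, h3, ?_, h5, h6⟩
  have hle := pt_le_pt h1 (le_refl _) (show -(m : ℤ) ≤ m + 1 by omega) le_rfl
  rw [← T_congr hle fun z hz hz' => h z (gm_box h1 h2 hz hz'), ← h4]
  unfold wt
  refine Finset.sum_congr rfl fun l hl => ?_
  rw [Finset.mem_Icc] at hl
  exact (h _ (gm_box h1 h2 (pt_le_pt h1 le_rfl hl.1 hl.2) (pt_le_pt h1 hl.1 hl.2 le_rfl))).symm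

theorem depOn_Gm (κ : ℝ) (r0 m : ℕ) :
    DepOn ((Finset.Icc ((-((m : ℤ) + 1), -((m : ℤ) + 1)) : ℤ × ℤ) ((m : ℤ) + 1, (m : ℤ) + 1) :
      Finset (ℤ × ℤ)) : Set (ℤ × ℤ)) (Gm κ r0 m) := fun _ _ hxy =>
  ⟨fun hx => gm_dep hxy hx, fun hy => gm_dep (fun i hi => (hxy i hi).symm) hy⟩

/-- splitting the weight of a path at a site -/
private theorem gm_split (ω : ℤ × ℤ → ℝ) (x : ℤ → ℤ) {a b c : ℤ} (h1 : a ≤ b) (h2 : b ≤ c) :
    wt ω x a c = wt ω x a b + wt ω x b c - ω (pt x b) := by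
  have e1 : Finset.Icc a c = Finset.Icc a b ∪ Finset.Ioc b c := by
    ext k
    simp only [Finset.mem_union, Finset.mem_Icc, Finset.mem_Ioc]
    omega
  have e2 : Finset.Icc b c = insert b (Finset.Ioc b c) := by
    ext k
    simp only [Finset.mem_insert, Finset.mem_Icc, Finset.mem_Ioc]
    omega
  rw [wt, wt, wt, e1, e2, Finset.sum_union, Finset.sum_insert (by simp)]
  · ring
  · rw [Finset.disjoint_left]
    intro k hk hk'
    simp only [Finset.mem_Icc, Finset.mem_Ioc] at hk hk'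
    omega

/-- splitting the weight of a path at an edge -/
private theorem gm_split2 (ω : ℤ × ℤ → ℝ) (x : ℤ → ℤ) {a b c : ℤ} (h1 : a ≤ b) (h2 : b < c) :
    wt ω x a c = wt ω x a b + wt ω x (b + 1) c := by
  have e1 : Finset.Icc a c = Finset.Icc a b ∪ Finset.Icc (b + 1) c := by
    ext k
    simp only [Finset.mem_union, Finset.mem_Icc]
    omega
  rw [wt, wt, wt, e1, Finset.sum_union]
  rw [Finset.disjoint_left]
  intro k hk hk'
  simp only [Finset.mem_Icc] at hk hk'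
  omega

/-- sub-paths of geodesics are geodesics -/
private theorem gm_sub {ω : ℤ × ℤ → ℝ} {x : ℤ → ℤ} {A B a b : ℤ} (hx : UR x A B) (h1 : A ≤ a)
    (h2 : a ≤ b) (h3 : b ≤ B) (h : wt ω x A B = T ω (pt x A) (pt x B)) :
    wt ω x a b = T ω (pt x a) (pt x b) := by
  have t1 := T_add_le (ω := ω) (pt_le_pt hx le_rfl h1 (h2.trans h3))
    (pt_le_pt hx h1 (h2.trans h3) le_rfl)
  have t2 := T_add_le (ω := ω) (pt_le_pt hx h1 h2 h3) (pt_le_pt hx (h1.trans h2) h3 le_rfl)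
  have s1 := gm_split ω x h1 (h2.trans h3)
  have s2 := gm_split ω x h2 h3
  have w1 := wt_le_T (ω := ω) (hx.mono le_rfl (h2.trans h3)) h1
  have w2 := wt_le_T (ω := ω) (hx.mono h1 h3) h2
  have w3 := wt_le_T (ω := ω) (hx.mono (h1.trans h2) le_rfl) h3
  linarith

theorem gm_sub_gr {κ : ℝ} (hκ : 0 < κ) (hκ1 : κ ≤ 1 / 2) {r0 r m : ℕ} (h1 : r0 ≤ r) (h2 : r ≤ m)
    (h3 : 2 / κ ≤ r) : Gm κ r0 m ⊆ Gr (κ / 2) r := by
  rintro ω ⟨x, a1, a2, a3, a4, a5, a6⟩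
  have hr0 : (0 : ℝ) ≤ r := Nat.cast_nonneg r
  have hr1 : 2 ≤ κ * r := by rw [div_le_iff₀ hκ] at h3; linarith
  have e0 : pt x 0 = (0, 0) := by unfold pt; rw [a2, sub_zero]
  have e1 : pt x 1 = (0, 1) := by unfold pt; rw [a3, sub_zero]
  have z0 : pt x (-(r : ℤ)) ≤ (0, 0) := by
    rw [← e0]; exact pt_le_pt a1 (by omega) (by omega) (by omega)
  have w0 : (0, 1) ≤ pt x ((r : ℤ) + 1) := by
    rw [← e1]; exact pt_le_pt a1 (by omega) (by omega) (by omega)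
  obtain ⟨c1, c2⟩ := a6 (-(r : ℤ)) (by omega) (by omega)
  obtain ⟨c3, c4⟩ := a5 ((r : ℤ) + 1) (by omega) (by omega)
  refine ⟨pt x (-(r : ℤ)), pt x ((r : ℤ) + 1), ?_, ?_, ⟨z0, ?_, ?_⟩, ⟨w0, ?_, ?_⟩, ?_⟩
  · unfold lev pt; simp only; omega
  · unfold lev pt; simp only; omega
  · unfold dl lev pt
    push_cast at c1 c2 ⊢
    nlinarith
  · unfold dl lev pt
    push_cast at c1 c2 ⊢
    nlinarith
  · unfold dl lev pt
    push_cast at c3 c4 ⊢
    nlinarith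
  · unfold dl lev pt
    push_cast at c3 c4 ⊢
    nlinarith
  · refine le_antisymm ?_ (T_edge_le (w' := (0, 1)) z0 (Or.inr rfl) w0)
    rw [← gm_sub a1 (show -(m : ℤ) ≤ -(r : ℤ) by omega) (by omega) (by omega) a4,
      gm_split2 ω x (show -(r : ℤ) ≤ 0 by omega) (by omega)]
    have w1 := wt_le_T (ω := ω) (a1.mono (show -(m : ℤ) ≤ -(r : ℤ) by omega)
      (show (0 : ℤ) ≤ m + 1 by omega)) (by omega)
    have w2 := wt_le_T (ω := ω) (a1.mono (show -(m : ℤ) ≤ 0 + 1 by omega)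
      (show (r : ℤ) + 1 ≤ m + 1 by omega)) (by omega)
    rw [e0] at w1
    rw [zero_add, e1] at w2
    rw [zero_add]
    exact add_le_add w1 w2

/-- `Gm` decreases with `m` -/
theorem gm_anti (κ : ℝ) {r0 m m' : ℕ} (h : m ≤ m') : Gm κ r0 m' ⊆ Gm κ r0 m := by
  rintro ω ⟨x, a1, a2, a3, a4, a5, a6⟩
  exact ⟨x, a1.mono (by omega) (by omega), a2, a3,
    gm_sub a1 (by omega) (by omega) (by omega) a4,
    fun l h1 h2 => a5 l h1 (by omega), fun l h1 h2 => a6 l h1 (by omega)⟩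

end BGE
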