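import Mathlib

/-!
BGE / R1. Harris' inequality for products of probability measures on `ℝ`, with values in
`[0, ∞]`: if `f, g` are measurable and antitone (for the product order) then
`(∫⁻ f) (∫⁻ g) ≤ ∫⁻ f g`.

Proof. Induction on the number of coordinates. One coordinate: for bounded `f, g`
`2 (∫ f g - ∫ f ∫ g) = ∫∫ (f x - f y)(g x - g y) ≥ 0`; general case by monotone convergence
(`min f n`, `min g n` are antitone). Step: split off one coordinate (Fubini); for fixed first
coordinate `x` the induction hypothesis gives `∫⁻ f(x,y) g(x,y) dy ≥ F x G x` with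
`F x = ∫⁻ f(x,y) dy`, `G x = ∫⁻ g(x,y) dy`, which are antitone functions of `x`.
-/

namespace BGE

open MeasureTheory
open scoped ENNReal

/-- the rearrangement inequality for two pairs -/
private lemma harris_pair {a b c d : ℝ≥0∞} (hab : b ≤ a) (hcd : d ≤ c) :
    a * d + b * c ≤ a * c + b * d := by
  obtain ⟨e, rfl⟩ := exists_add_of_le hab
  obtain ⟨f, rfl⟩ := exists_add_of_le hcd
  have h1 : (b + e) * (d + f) + b * d = ((b + e) * d + b * (d + f)) + e * f := by ring
  rw [h1]
  exact le_self_add

/-- the case of one coordinate -/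
private lemma harris_one (ν : Measure ℝ) [IsProbabilityMeasure ν] {F G : ℝ → ℝ≥0∞}
    (hF : Antitone F) (hG : Antitone G) :
    (∫⁻ x, F x ∂ν) * (∫⁻ x, G x ∂ν) ≤ ∫⁻ x, F x * G x ∂ν := by
  have mF : Measurable F := hF.measurable
  have mG : Measurable G := hG.measurable
  have mFG : Measurable fun x => F x * G x := mF.mul mG
  have hpt : ∀ x y, F x * G y + F y * G x ≤ F x * G x + F y * G y := by
    intro x y
    rcases le_total x y with h | h
    · exact harris_pair (hF h) (hG h)
    · have h1 := harris_pair (hF h) (hG h)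
      calc F x * G y + F y * G x = F y * G x + F x * G y := add_comm _ _
        _ ≤ F y * G y + F x * G x := h1
        _ = _ := add_comm _ _
  have h1 : ∫⁻ x, ∫⁻ y, (F x * G y + F y * G x) ∂ν ∂ν ≤
      ∫⁻ x, ∫⁻ y, (F x * G x + F y * G y) ∂ν ∂ν :=
    lintegral_mono fun x => lintegral_mono fun y => hpt x y
  have h2 : ∀ x, ∫⁻ y, (F x * G y + F y * G x) ∂ν =
      F x * (∫⁻ y, G y ∂ν) + (∫⁻ y, F y ∂ν) * G x := by
    intro x
    rw [lintegral_add_left (mG.const_mul (F x)), lintegral_const_mul _ mG,
      lintegral_mul_const _ mF]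
  have h3 : ∀ x, ∫⁻ y, (F x * G x + F y * G y) ∂ν = F x * G x + ∫⁻ y, F y * G y ∂ν := by
    intro x
    rw [lintegral_add_left measurable_const, lintegral_const, measure_univ, mul_one]
  simp only [h2, h3] at h1
  rw [lintegral_add_left (mF.mul_const _), lintegral_mul_const _ mF, lintegral_const_mul _ mG,
    lintegral_add_left mFG, lintegral_const, measure_univ, mul_one] at h1
  by_contra hlt
  rw [not_le] at hlt
  exact absurd h1 (not_le.2 (ENNReal.add_lt_add hlt hlt))

theorem harris {N : ℕ} (ν : Fin N → Measure ℝ) [∀ i, IsProbabilityMeasure (ν i)]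
    {f g : (Fin N → ℝ) → ℝ≥0∞} (hf : Measurable f) (hg : Measurable g) (hf' : Antitone f)
    (hg' : Antitone g) :
    (∫⁻ x, f x ∂(Measure.pi ν)) * (∫⁻ x, g x ∂(Measure.pi ν)) ≤
      ∫⁻ x, f x * g x ∂(Measure.pi ν) := by
  have hfg : Measurable fun x => f x * g x := hf.mul hg
  revert hfg
  induction N with
  | zero =>
    intro hfg
    rw [Measure.pi_of_empty, lintegral_dirac' _ hf, lintegral_dirac' _ hg,
      lintegral_dirac' _ hfg]
  | succ N ih =>
    intro hfg
    set e := MeasurableEquiv.piFinSuccAbove (fun _ : Fin (N + 1) => ℝ) 0 with he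
    have hmp := (measurePreserving_piFinSuccAbove ν 0).symm
    set ν' : Measure (Fin N → ℝ) := Measure.pi fun j => ν ((0 : Fin (N + 1)).succAbove j) with hν'
    have hes : ∀ p, e.symm p = (Fin.cons p.1 p.2 : Fin (N + 1) → ℝ) := by
      intro p
      exact Fin.insertNth_zero' p.1 p.2
    have hmono : ∀ {x x' : ℝ} {y y' : Fin N → ℝ}, x ≤ x' → y ≤ y' →
        e.symm (x, y) ≤ e.symm (x', y') := by
      intro x x' y y' hx hy
      rw [hes, hes]
      intro i
      refine Fin.cases ?_ (fun j => ?_) i
      · exact hx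
      · exact hy j
    have hint : ∀ {h : (Fin (N + 1) → ℝ) → ℝ≥0∞}, Measurable h →
        ∫⁻ x, h x ∂(Measure.pi ν) = ∫⁻ x, ∫⁻ y, h (e.symm (x, y)) ∂ν' ∂(ν 0) := by
      intro h hh
      rw [← hmp.lintegral_comp hh]
      exact lintegral_prod _ (hh.comp e.symm.measurable).aemeasurable
    have hslice : ∀ {h : (Fin (N + 1) → ℝ) → ℝ≥0∞}, Measurable h → ∀ x,
        Measurable fun y : Fin N → ℝ => h (e.symm (x, y)) := by
      intro h hh x
      exact (hh.comp e.symm.measurable).comp measurable_prodMk_left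
    rw [hint hf, hint hg, hint hfg]
    refine (harris_one (ν 0) ?_ ?_).trans (lintegral_mono fun x => ?_)
    · intro x x' hx
      exact lintegral_mono fun y => hf' (hmono hx le_rfl)
    · intro x x' hx
      exact lintegral_mono fun y => hg' (hmono hx le_rfl)
    · exact ih (fun j => ν ((0 : Fin (N + 1)).succAbove j)) (hslice hf x) (hslice hg x)
        (fun y y' hy => hf' (hmono le_rfl hy)) (fun y y' hy => hg' (hmono le_rfl hy))
        ((hslice hf x).mul (hslice hg x))

end BGE
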