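import Pool.Agent.BGE.ExitSide

/-!
BGE / C7. Comparison of the increments with the stationary ones.

`ne_compare`: let `ρ = al + t`, `0 < t ≤ al/16`, `t ≤ (1-al)/16`, `L = bl ρ (1-ρ)` on `SW`. Outside
of an event of probability at most `6 exp (-t³ Ph/(2·10⁸))`, for every `1 ≤ k ≤ m`
`T x.1 (1,1) (m,n) - T x.1 (1,1) (m+1-k, n) ≥ L (m,n) - L (m+1-k, n)`.
Proof. Outside of `ExS` (`exit_side`) the exit for `v0 = (m,n)` is on the W side (`exists_exit`);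
use `incr_exitW` with `h0 = 1`, `v2 = v0`, `v1 = (m+1-k, n)`.
The increments of `L` on the row `n` are i.i.d. `Exp(ρ)` (`stat_row`).

-/

namespace BGE

open MeasureTheory ProbabilityTheory

theorem ne_compare {m n : ℕ} (hm : 1 ≤ m) (hn : 1 ≤ n) {t : ℝ} (ht : 0 < t)
    (h1 : t ≤ al m n / 16) (h2 : t ≤ (1 - al m n) / 16) :
    muSW.real {x : SW | ∃ k : ℕ, 1 ≤ k ∧ k ≤ m ∧
      T x.1 (1, 1) ((m : ℤ), (n : ℤ)) - T x.1 (1, 1) ((m : ℤ) + 1 - k, (n : ℤ)) <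
        bl (al m n + t) (1 - (al m n + t)) x ((m : ℤ), (n : ℤ)) -
          bl (al m n + t) (1 - (al m n + t)) x ((m : ℤ) + 1 - k, (n : ℤ))} ≤
      6 * Real.exp (-(t ^ 3 * Ph m n / (2 * 10 ^ 8))) := by
  refine (measureReal_mono ?_ (measure_ne_top _ _)).trans (exit_side hm hn ht h1 h2)
  rintro x ⟨k, hk1, hkm, hlt⟩
  set ρ := al m n + t with hρ
  have e1 : ((0 : ℤ × ℤ)).1 < ((m : ℤ), (n : ℤ)).1 := by
    change (0 : ℤ) < m
    omega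
  have e2 : ((0 : ℤ × ℤ)).2 < ((m : ℤ), (n : ℤ)).2 := by
    change (0 : ℤ) < n
    omega
  rcases exists_exit x.1 (fun i => x.2.1 i / ρ) (fun j => x.2.2 j / (1 - ρ)) e1 e2 with
    ⟨j, hj1, hj2, hj⟩ | ⟨j, hj1, hj2, hj⟩
  · refine ⟨j, hj1, ?_, ?_⟩
    · change (0 : ℤ) + j ≤ m at hj2
      omega
    · change T (bfield x.1 (fun i => x.2.1 i / ρ) (fun j => x.2.2 j / (1 - ρ)) 0) 0
        ((m : ℤ), (n : ℤ)) = _
      rw [hj]
      have e3 : (((0 : ℤ × ℤ)).1 + (j : ℤ), ((0 : ℤ × ℤ)).2 + 1) = ((j : ℤ), (1 : ℤ)) := by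
        simp
      rw [e3]
  · exfalso
    have h3 := incr_exitW (ω := x.1) (S := fun i => x.2.1 i / ρ) (W := fun j => x.2.2 j / (1 - ρ))
      (c := (0 : ℤ × ℤ)) (v0 := ((m : ℤ), (n : ℤ))) (v1 := ((m : ℤ) + 1 - k, (n : ℤ)))
      (v2 := ((m : ℤ), (n : ℤ))) (h0 := 1) (h := j) le_rfl hj1
      (by change (0 : ℤ) < (m : ℤ) + 1 - k; omega) hj2 hj
      (by change (m : ℤ) + 1 - k ≤ m; omega) le_rfl le_rfl le_rfl
    have e3 : (((0 : ℤ × ℤ)).1 + 1, ((0 : ℤ × ℤ)).2 + ((1 : ℕ) : ℤ)) = ((1 : ℤ), (1 : ℤ)) := by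
      simp
    rw [e3] at h3
    unfold bl at hlt
    exact absurd h3 (not_le.2 hlt)

end BGE
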