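import Pool.Agent.BGE.NearDefs
import Pool.Agent.BGE.NeComp
import Pool.Agent.BGE.Quad
import Pool.Agent.BGE.Unique
import Pool.Agent.BGE.SqPaths

/-!
BGE / N2. A geodesic to a far site close to the horizontal axis does not climb near the origin
(fixed time).

`near_a`: for `K, M0 ≥ 1` there is `δ0 > 0` such that for `0 < δ ≤ δ0`, `R ≥ δ^{-200}`:
`PI (HgtBad δ R K M0) ≤ δ^{M0/3}`.

Proof. Let `Via 0 q p` with `q = (k, M0)`, `0 ≤ k ≤ K`, `lev p = R`, `p.2 ≤ δ R`. From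
`T 0 p = T 0 q + T q p - ω q` and `T 0 p ≥ T 0 (k,0) + T (k,0) p - ω (k,0)`:
`T (k,0) p - T q p ≤ T 0 q + ω (k,0) ≤ T 0 (K, M0) + ω (k,0) ≤ X`, where `X = 2 (K + M0 + 1) B` if all
the weights of `[0,K] × [0,M0]` are at most `B`; `B = log (1/δ)²`: this fails with probability at
most `(K+1)(M0+1) exp (-B)` (`max_tail`), smaller than `δ^{M0}`.
Let `p' = (R - ⌈2 δ R⌉, ⌈2 δ R⌉)`, to the north-west of all such `p` (and of the same level). By
`decr_mono` (`v1 = (k, M0)`, `v2 = (k, 0)`, `q := p'`, `q' := p`; the points are comparable)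
`T (k,0) p' - T (k,M0) p' ≤ T (k,0) p - T (k,M0) p ≤ X`.
Now rotate the box `[(k,0), p']` by 180 degrees and exchange the coordinates (`T_neg`, `T_swap`,
`T_translate`; the law is invariant): `T (k,0) p'` becomes `T (1,1) (m,n)` with
`m = ⌈2 δ R⌉ + 1` (vertical direction), `n = R - ⌈2 δ R⌉ - k + 1`, and `T (k,M0) p'` becomes
`T (1,1) (m - M0, n)`. `ne_compare` with `t = al m n/16` (`al = √m/(√m+√n) ≤ 2 √δ`): outside of an
event of probability `6 exp (-t³ Ph/(2·10⁸))`, `t³ Ph ≥ c δ^{3/2} R/√δ = c δ R ≥ c δ^{-100}`,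
`T (1,1) (m,n) - T (1,1) (m-M0, n) ≥ X_1 + ... + X_{M0}` with `X_i` i.i.d. `Exp(ρ)`, `ρ = al + t ≤ 3 √δ`
(`ne_compare` with `k = M0 + 1`, and `stat_row` for the increments of `bl`). And
`P(X_1 + ... + X_{M0} ≤ X) ≤ ∏ P(X_i ≤ X) ≤ (ρ X)^{M0} ≤ (6 √δ (K+M0+1) B)^{M0}`, which is
`≤ δ^{M0/3}/(2 (K+1))` for small `δ`. Sum over `k ≤ K`.
-/

namespace BGE

open MeasureTheory ProbabilityTheory

private theorem na_mp (e : ℤ × ℤ ≃ ℤ × ℤ) :
    MeasurePreserving (fun (ω : ℤ × ℤ → ℝ) (z : ℤ × ℤ) => ω (e z)) (PI (ℤ × ℤ)) (PI (ℤ × ℤ)) := by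
  have hm : Measurable (fun (ω : ℤ × ℤ → ℝ) (z : ℤ × ℤ) => ω (e z)) := by fun_prop
  refine ⟨hm, ?_⟩
  unfold PI
  refine Measure.eq_infinitePi _ fun s t ht => ?_
  rw [Measure.map_apply hm (.pi s.countable_toSet fun _ _ => ht _)]
  have h1 : (fun (ω : ℤ × ℤ → ℝ) (z : ℤ × ℤ) => ω (e z)) ⁻¹' ((s : Set (ℤ × ℤ)).pi t) =
      ((s.map e.toEmbedding : Finset (ℤ × ℤ)) : Set (ℤ × ℤ)).pi (fun j => t (e.symm j)) := by
    ext x
    simp only [Set.mem_preimage, Set.mem_pi, Finset.coe_map, Equiv.coe_toEmbedding,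
      Set.mem_image, Finset.mem_coe]
    constructor
    · rintro h _ ⟨i, hi, rfl⟩
      rw [Equiv.symm_apply_apply]
      exact h i hi
    · intro h i hi
      have := h (e i) ⟨i, hi, rfl⟩
      rwa [Equiv.symm_apply_apply] at this
  rw [h1, Measure.infinitePi_pi _ (fun i _ => ht _), Finset.prod_map]
  simp

/-- rotation, exchange of the coordinates and translation -/
private def naE (c : ℤ × ℤ) : ℤ × ℤ ≃ ℤ × ℤ where
  toFun z := c - z.swap
  invFun z := (c - z).swap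
  left_inv z := by
    ext
    · simp
    · simp
  right_inv z := by
    ext
    · simp
    · simp

private theorem na_T (ω : ℤ × ℤ → ℝ) (c : ℤ × ℤ) {u v : ℤ × ℤ} (h : u ≤ v) :
    T (fun z => ω (naE c z)) u v = T ω (c - v.swap) (c - u.swap) := by
  have h' : u.swap ≤ v.swap := ⟨h.2, h.1⟩
  have e1 := T_swap (fun z => ω (c - z)) u v
  have e2 := T_neg (fun z => ω (z + c)) h'
  have e3 := T_translate ω c (-v.swap) (-u.swap)
  have e4 : (fun z : ℤ × ℤ => (fun z => ω (z + c)) (-z)) = fun z => ω (c - z) := by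
    funext z
    show ω (-z + c) = ω (c - z)
    rw [neg_add_eq_sub]
  rw [e4] at e2
  rw [neg_add_eq_sub, neg_add_eq_sub] at e3
  show T (fun z => ω (c - z.swap)) u v = _
  rw [← e3, ← e2, ← e1]

/-- the weights are nonnegative -/
private theorem na_nn : ∀ᵐ x ∂muSW, (∀ z, 0 ≤ x.1 z) ∧ (∀ i, 0 ≤ x.2.1 i) ∧ ∀ i, 0 ≤ x.2.2 i := by
  have h1 : ∀ᵐ x ∂muSW, ∀ z, 0 ≤ x.1 z := Measure.quasiMeasurePreserving_fst.ae ae_nonneg
  have h2 : ∀ᵐ y ∂((PI ℕ).prod (PI ℕ)), ∀ i, 0 ≤ y.1 i :=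
    Measure.quasiMeasurePreserving_fst.ae (ae_nonneg' ℕ)
  have h3 : ∀ᵐ y ∂((PI ℕ).prod (PI ℕ)), ∀ i, 0 ≤ y.2 i :=
    Measure.quasiMeasurePreserving_snd.ae (ae_nonneg' ℕ)
  have h4 : ∀ᵐ x ∂muSW, ∀ i, 0 ≤ x.2.1 i := Measure.quasiMeasurePreserving_snd.ae h2
  have h5 : ∀ᵐ x ∂muSW, ∀ i, 0 ≤ x.2.2 i := Measure.quasiMeasurePreserving_snd.ae h3
  filter_upwards [h1, h4, h5] with x a b c
  exact ⟨a, b, c⟩

private theorem na_bl_mono {a b : ℝ} (ha : 0 < a) (hb : 0 < b) {x : SW} (h1 : ∀ z, 0 ≤ x.1 z)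
    (h2 : ∀ i, 0 ≤ x.2.1 i) (h3 : ∀ i, 0 ≤ x.2.2 i) {v v' : ℤ × ℤ} (h : 0 ≤ v) (h' : v ≤ v') :
    bl a b x v ≤ bl a b x v' := by
  unfold bl
  refine T_mono_ends le_rfl h h' fun z _ _ => ?_
  unfold bfield
  split_ifs
  · exact le_rfl
  · exact div_nonneg (h2 _) ha.le
  · exact div_nonneg (h3 _) hb.le
  · exact h1 z

private theorem na_exp {ρ X : ℝ} (hρ : 0 < ρ) (hX : 0 ≤ X) :
    (expMeasure ρ) (Set.Iic X) ≤ ENNReal.ofReal (ρ * X) := by
  have := isProbabilityMeasure_expMeasure hρ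
  have h1 := cdf_expMeasure_eq hρ X
  rw [if_pos hX, cdf_eq_real] at h1
  rw [← ofReal_measureReal, h1]
  apply ENNReal.ofReal_le_ofReal
  have := Real.add_one_le_exp (-(ρ * X))
  linarith

private theorem na_stat {ρ X : ℝ} (hρ : 0 < ρ) (hρ1 : ρ < 1) (hX : 0 ≤ X) (m n M : ℕ)
    (hM : M ≤ m) :
    muSW.real {x : SW | bl ρ (1 - ρ) x ((m : ℤ), (n : ℤ)) -
      bl ρ (1 - ρ) x ((m : ℤ) - M, (n : ℤ)) ≤ X} ≤ (ρ * X) ^ M := by
  have := isProbabilityMeasure_expMeasure hρ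
  set S : Set (Fin m → ℝ) := Set.univ.pi fun i : Fin m => if m - M ≤ (i : ℕ) then Set.Iic X
    else Set.univ with hS
  have hSm : MeasurableSet S := by
    refine MeasurableSet.pi Set.countable_univ fun i _ => ?_
    split_ifs
    · exact measurableSet_Iic
    · exact MeasurableSet.univ
  set F : SW → Fin m → ℝ := fun x i => bl ρ (1 - ρ) x ((i : ℤ) + 1, (n : ℤ)) -
    bl ρ (1 - ρ) x ((i : ℤ), (n : ℤ)) with hF
  have hmap := stat_row hρ hρ1 m n
  have hFm : AEMeasurable F muSW := by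
    by_contra hcon
    have h1 : Measure.map F muSW = 0 := Measure.map_of_not_aemeasurable hcon
    have h2 : Measure.pi (fun _ : Fin m => expMeasure ρ) = 0 := by
      rw [← hmap]
      exact h1
    have h3 : (Measure.pi (fun _ : Fin m => expMeasure ρ)) Set.univ = 1 := measure_univ
    rw [h2] at h3
    simp at h3
  have h1 : muSW {x : SW | bl ρ (1 - ρ) x ((m : ℤ), (n : ℤ)) -
      bl ρ (1 - ρ) x ((m : ℤ) - M, (n : ℤ)) ≤ X} ≤ muSW (F ⁻¹' S) := by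
    refine measure_mono_ae ?_
    filter_upwards [na_nn] with x hx
    obtain ⟨x1, x2, x3⟩ := hx
    intro hxX
    have hxX' : bl ρ (1 - ρ) x ((m : ℤ), (n : ℤ)) -
      bl ρ (1 - ρ) x ((m : ℤ) - M, (n : ℤ)) ≤ X := hxX
    show F x ∈ S
    rw [hS, Set.mem_univ_pi]
    intro i
    split_ifs with hi
    · show bl ρ (1 - ρ) x ((i : ℤ) + 1, (n : ℤ)) - bl ρ (1 - ρ) x ((i : ℤ), (n : ℤ)) ≤ X
      have hi2 := i.2
      have m1 : bl ρ (1 - ρ) x ((i : ℤ) + 1, (n : ℤ)) ≤ bl ρ (1 - ρ) x ((m : ℤ), (n : ℤ)) :=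
        na_bl_mono hρ (by linarith) x1 x2 x3 ⟨by simp only [Prod.fst_zero]; omega,
          by simp only [Prod.snd_zero]; omega⟩ ⟨by simp only; omega, le_rfl⟩
      have m2 : bl ρ (1 - ρ) x ((m : ℤ) - M, (n : ℤ)) ≤ bl ρ (1 - ρ) x ((i : ℤ), (n : ℤ)) :=
        na_bl_mono hρ (by linarith) x1 x2 x3 ⟨by simp only [Prod.fst_zero]; omega,
          by simp only [Prod.snd_zero]; omega⟩ ⟨by simp only; omega, le_rfl⟩
      linarith
    · exact Set.mem_univ _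
  have h2 : muSW (F ⁻¹' S) = (expMeasure ρ (Set.Iic X)) ^ M := by
    rw [← Measure.map_apply_of_aemeasurable hFm hSm]
    have e1 : Measure.map F muSW = Measure.pi (fun _ : Fin m => expMeasure ρ) := hmap
    rw [e1, hS, Measure.pi_pi]
    have e2 : ∀ i : Fin m, (expMeasure ρ) (if m - M ≤ (i : ℕ) then Set.Iic X else Set.univ) =
        if m - M ≤ (i : ℕ) then (expMeasure ρ) (Set.Iic X) else 1 := by
      intro i
      split_ifs
      · rfl
      · exact measure_univ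
    simp only [e2]
    rw [Finset.prod_ite, Finset.prod_const, Finset.prod_const_one, mul_one]
    congr 1
    have e3 : (Finset.univ.filter fun i : Fin m => m - M ≤ (i : ℕ)).card =
        ((Finset.range m).filter fun i => m - M ≤ i).card := by
      rw [← Finset.card_map ⟨fun i : Fin m => (i : ℕ), Fin.val_injective⟩]
      congr 1
      ext j
      simp only [Finset.mem_map, Finset.mem_filter, Finset.mem_univ, true_and,
        Function.Embedding.coeFn_mk, Finset.mem_range]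
      constructor
      · rintro ⟨i, hi, rfl⟩
        exact ⟨i.2, hi⟩
      · rintro ⟨h1, h2⟩
        exact ⟨⟨j, h1⟩, h2, rfl⟩
    rw [e3]
    have e4 : (Finset.range m).filter (fun i => m - M ≤ i) = Finset.Ico (m - M) m := by
      ext j
      simp only [Finset.mem_filter, Finset.mem_range, Finset.mem_Ico]
      tauto
    rw [e4, Nat.card_Ico]
    omega
  have h3 : muSW {x : SW | bl ρ (1 - ρ) x ((m : ℤ), (n : ℤ)) -
      bl ρ (1 - ρ) x ((m : ℤ) - M, (n : ℤ)) ≤ X} ≤ ENNReal.ofReal ((ρ * X) ^ M) := by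
    rw [ENNReal.ofReal_pow (by positivity)]
    refine h1.trans ?_
    rw [h2]
    exact pow_le_pow_left' (na_exp hρ hX) M
  exact ENNReal.toReal_le_of_le_ofReal (by positivity) h3

private theorem na_prob {m n M : ℕ} (hM : M + 1 ≤ m) (hn : 1 ≤ n) {t X : ℝ} (ht : 0 < t)
    (h1 : t ≤ al m n / 16) (h2 : t ≤ (1 - al m n) / 16) (hX : 0 ≤ X) :
    (PI (ℤ × ℤ)).real {ω | T ω (1, 1) ((m : ℤ), (n : ℤ)) -
      T ω (1, 1) ((m : ℤ) - M, (n : ℤ)) ≤ X} ≤
      6 * Real.exp (-(t ^ 3 * Ph m n / (2 * 10 ^ 8))) + ((al m n + t) * X) ^ M := by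
  have hne := ne_compare (m := m) (n := n) (by omega) hn ht h1 h2
  have hal : 0 < al m n := by linarith
  have hal1 : al m n < 1 := by linarith
  have hst := na_stat (ρ := al m n + t) (X := X) (by linarith) (by linarith) hX m n M (by omega)
  have e1 : (PI (ℤ × ℤ)).real {ω | T ω (1, 1) ((m : ℤ), (n : ℤ)) -
      T ω (1, 1) ((m : ℤ) - M, (n : ℤ)) ≤ X} = muSW.real {x : SW | T x.1 (1, 1) ((m : ℤ), (n : ℤ)) -
      T x.1 (1, 1) ((m : ℤ) - M, (n : ℤ)) ≤ X} := by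
    have hm : MeasurableSet {ω : ℤ × ℤ → ℝ | T ω (1, 1) ((m : ℤ), (n : ℤ)) -
        T ω (1, 1) ((m : ℤ) - M, (n : ℤ)) ≤ X} :=
      measurableSet_le ((measurable_T _ _).sub (measurable_T _ _)) measurable_const
    have hmp : MeasurePreserving (Prod.fst : SW → _) muSW (PI (ℤ × ℤ)) := measurePreserving_fst
    simp only [Measure.real]
    rw [← hmp.measure_preimage hm.nullMeasurableSet]
    rfl
  rw [e1]
  have hsub : {x : SW | T x.1 (1, 1) ((m : ℤ), (n : ℤ)) -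
      T x.1 (1, 1) ((m : ℤ) - M, (n : ℤ)) ≤ X} ⊆
      {x : SW | ∃ k : ℕ, 1 ≤ k ∧ k ≤ m ∧
      T x.1 (1, 1) ((m : ℤ), (n : ℤ)) - T x.1 (1, 1) ((m : ℤ) + 1 - k, (n : ℤ)) <
        bl (al m n + t) (1 - (al m n + t)) x ((m : ℤ), (n : ℤ)) -
          bl (al m n + t) (1 - (al m n + t)) x ((m : ℤ) + 1 - k, (n : ℤ))} ∪
      {x : SW | bl (al m n + t) (1 - (al m n + t)) x ((m : ℤ), (n : ℤ)) -
      bl (al m n + t) (1 - (al m n + t)) x ((m : ℤ) - M, (n : ℤ)) ≤ X} := by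
    intro x hx
    by_cases hb : x ∈ {x : SW | ∃ k : ℕ, 1 ≤ k ∧ k ≤ m ∧
      T x.1 (1, 1) ((m : ℤ), (n : ℤ)) - T x.1 (1, 1) ((m : ℤ) + 1 - k, (n : ℤ)) <
        bl (al m n + t) (1 - (al m n + t)) x ((m : ℤ), (n : ℤ)) -
          bl (al m n + t) (1 - (al m n + t)) x ((m : ℤ) + 1 - k, (n : ℤ))}
    · exact Or.inl hb
    · right
      have hx' : T x.1 (1, 1) ((m : ℤ), (n : ℤ)) - T x.1 (1, 1) ((m : ℤ) - M, (n : ℤ)) ≤ X := hx
      show bl (al m n + t) (1 - (al m n + t)) x ((m : ℤ), (n : ℤ)) -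
        bl (al m n + t) (1 - (al m n + t)) x ((m : ℤ) - M, (n : ℤ)) ≤ X
      by_contra hc
      apply hb
      refine ⟨M + 1, by omega, hM, ?_⟩
      have e2 : (m : ℤ) + 1 - ((M + 1 : ℕ) : ℤ) = (m : ℤ) - M := by push_cast; ring
      rw [e2]
      linarith
  refine (measureReal_mono hsub (measure_ne_top _ _)).trans ((measureReal_union_le _ _).trans ?_)
  exact add_le_add hne hst

theorem measurableSet_HgtBad (δ : ℝ) (R K M0 : ℕ) : MeasurableSet (HgtBad δ R K M0) := by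
  have h : HgtBad δ R K M0 = ⋃ p : ℤ × ℤ, ⋃ q : ℤ × ℤ, ⋃ _ : (lev p = R ∧ (p.2 : ℝ) ≤ δ * R ∧
      0 ≤ q.1 ∧ q.1 ≤ K ∧ q.2 = M0 ∧ ((0, 0) : ℤ × ℤ) ≤ q ∧ q ≤ p),
      {ω : ℤ × ℤ → ℝ | T ω (0, 0) p = T ω (0, 0) q + T ω q p - ω q} := by
    ext ω
    simp only [HgtBad, Set.mem_iUnion, Set.mem_ofPred_eq, Via]
    constructor
    · rintro ⟨p, q, h1, h2, h3, h4, h5, h6, h7, h8⟩
      exact ⟨p, q, ⟨h1, h2, h3, h4, h5, h6, h7⟩, h8⟩
    · rintro ⟨p, q, ⟨h1, h2, h3, h4, h5, h6, h7⟩, h8⟩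
      exact ⟨p, q, h1, h2, h3, h4, h5, h6, h7, h8⟩
  rw [h]
  refine MeasurableSet.iUnion fun p => MeasurableSet.iUnion fun q =>
    MeasurableSet.iUnion fun _ => ?_
  exact measurableSet_eq_fun (measurable_T _ _)
    (((measurable_T _ _).add (measurable_T _ _)).sub (measurable_pi_apply _))

theorem depOn_HgtBad (δ : ℝ) (R K M0 : ℕ) :
    DepOn ((Finset.Icc ((0, 0) : ℤ × ℤ) (R, R) : Finset (ℤ × ℤ)) : Set (ℤ × ℤ))
      (HgtBad δ R K M0) := by
  have key : ∀ x y : ℤ × ℤ → ℝ, (∀ i ∈ ((Finset.Icc ((0, 0) : ℤ × ℤ) (R, R) :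
      Finset (ℤ × ℤ)) : Set (ℤ × ℤ)), x i = y i) → x ∈ HgtBad δ R K M0 →
      y ∈ HgtBad δ R K M0 := by
    rintro x y hxy ⟨p, q, h1, h2, h3, h4, h5, h6, h7, h8⟩
    have hz : ∀ z : ℤ × ℤ, (0, 0) ≤ z → z ≤ p → x z = y z := by
      intro z hz1 hz2
      apply hxy
      rw [Finset.coe_Icc, Set.mem_Icc]
      have hp0 : ((0, 0) : ℤ × ℤ) ≤ p := h6.trans h7
      have a1 : 0 ≤ p.1 := hp0.1
      have a2 : 0 ≤ p.2 := hp0.2
      unfold lev at h1
      refine ⟨hz1, hz2.1.trans ?_, hz2.2.trans ?_⟩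
      · simp only
        omega
      · simp only
        omega
    refine ⟨p, q, h1, h2, h3, h4, h5, h6, h7, ?_⟩
    rw [← T_congr (h6.trans h7) fun z a b => hz z a b, ← T_congr h6 fun z a b =>
      hz z a (b.trans h7), ← T_congr h7 fun z a b => hz z (h6.trans a) b, ← hz q h6 h7]
    exact h8
  intro x y hxy
  exact ⟨key x y hxy, key y x fun i hi => (hxy i hi).symm⟩

/-- deterministic part -/
private theorem na_det {δ B : ℝ} {R K M0 P2 : ℕ} (hδ : 0 < δ) (hP2 : 2 * (δ * R) ≤ P2)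
    (hPR : P2 + K ≤ R) {ω : ℤ × ℤ → ℝ} (hω : ∀ z, 0 ≤ ω z)
    (hB : ∀ z : ℤ × ℤ, (0, 0) ≤ z → z ≤ ((K : ℤ), (M0 : ℤ)) → ω z ≤ B)
    (h : ω ∈ HgtBad δ R K M0) :
    ∃ k : ℕ, k ≤ K ∧ T ω ((k : ℤ), 0) ((R : ℤ) - P2, (P2 : ℤ)) -
      T ω ((k : ℤ), (M0 : ℤ)) ((R : ℤ) - P2, (P2 : ℤ)) ≤ ((K : ℝ) + M0 + 2) * B := by
  obtain ⟨p, q, h1, h2, h3, h4, h5, h6, h7, h8⟩ := h
  have hR0 : 0 ≤ δ * R := by positivity
  have hB0 : 0 ≤ B := (hω (0, 0)).trans (hB (0, 0) le_rfl ⟨by simp, by simp⟩)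
  obtain ⟨k, hk⟩ : ∃ k : ℕ, (k : ℤ) = q.1 := ⟨q.1.toNat, by omega⟩
  have hq : q = ((k : ℤ), (M0 : ℤ)) := by
    ext
    · exact hk.symm
    · exact h5
  subst hq
  simp only at h3 h4 h5
  have hkK : k ≤ K := by omega
  have hkp : (k : ℤ) ≤ p.1 := h7.1
  have hMp : (M0 : ℤ) ≤ p.2 := h7.2
  have hp2 : p.2 ≤ (P2 : ℤ) := by
    have : (p.2 : ℝ) ≤ ((P2 : ℤ) : ℝ) := by
      push_cast
      linarith
    exact_mod_cast this
  unfold lev at h1
  refine ⟨k, hkK, ?_⟩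
  have k0 : ((0, 0) : ℤ × ℤ) ≤ ((k : ℤ), 0) := ⟨by simp, le_rfl⟩
  have kp : (((k : ℤ), 0) : ℤ × ℤ) ≤ p := ⟨hkp, by simp only; omega⟩
  have e1 := T_add_le (ω := ω) k0 kp
  have e2 : 0 ≤ T ω (0, 0) ((k : ℤ), 0) := T_nonneg k0 fun z _ _ => hω z
  have e3 := hω ((k : ℤ), (M0 : ℤ))
  have hkM : (((k : ℤ), (M0 : ℤ)) : ℤ × ℤ) ≤ ((K : ℤ), (M0 : ℤ)) := ⟨by simp only; omega, le_rfl⟩
  have e4 : T ω (0, 0) ((k : ℤ), (M0 : ℤ)) ≤ ((K : ℝ) + M0 + 1) * B := by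
    refine (T_le_card h6 fun z a b => hB z a (b.trans hkM)).trans ?_
    refine mul_le_mul_of_nonneg_right ?_ hB0
    unfold lev
    push_cast
    have : (k : ℝ) ≤ K := by exact_mod_cast hkK
    linarith
  have e5 : ω ((k : ℤ), 0) ≤ B := hB _ k0 ⟨by simp only; omega, by simp⟩
  have e6 := decr_mono (ω := ω) (q := ((R : ℤ) - P2, (P2 : ℤ))) (q' := p)
    (v1 := ((k : ℤ), (M0 : ℤ))) (v2 := ((k : ℤ), 0)) (by simp only; omega) hp2 le_rfl
    (by simp) h7 ⟨by simp only; omega, by simp⟩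
  linarith

/-- the law of the difference -/
private theorem na_law {R P2 k M0 m n : ℕ} {X : ℝ} (hm : m = P2 + 1) (hn : n + P2 + k = R + 1)
    (hM : M0 + 1 ≤ m) (hn1 : 1 ≤ n) :
    (PI (ℤ × ℤ)).real {ω | T ω ((k : ℤ), 0) ((R : ℤ) - P2, (P2 : ℤ)) -
      T ω ((k : ℤ), (M0 : ℤ)) ((R : ℤ) - P2, (P2 : ℤ)) ≤ X} =
    (PI (ℤ × ℤ)).real {ω | T ω (1, 1) ((m : ℤ), (n : ℤ)) -
      T ω (1, 1) ((m : ℤ) - M0, (n : ℤ)) ≤ X} := by
  set c : ℤ × ℤ := ((R : ℤ) - P2 + 1, (P2 : ℤ) + 1) with hc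
  have hmeas : MeasurableSet {ω : ℤ × ℤ → ℝ | T ω (1, 1) ((m : ℤ), (n : ℤ)) -
      T ω (1, 1) ((m : ℤ) - M0, (n : ℤ)) ≤ X} :=
    measurableSet_le ((measurable_T _ _).sub (measurable_T _ _)) measurable_const
  simp only [Measure.real]
  rw [← (na_mp (naE c)).measure_preimage hmeas.nullMeasurableSet]
  congr 2
  ext ω
  rw [Set.mem_preimage, Set.mem_ofPred_eq, Set.mem_ofPred_eq,
    na_T ω c (u := (1, 1)) (v := ((m : ℤ), (n : ℤ))) ⟨by simp only; omega, by simp only; omega⟩,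
    na_T ω c (u := (1, 1)) (v := ((m : ℤ) - M0, (n : ℤ)))
      ⟨by simp only; omega, by simp only; omega⟩]
  have a1 : c - ((m : ℤ), (n : ℤ)).swap = ((k : ℤ), 0) := by
    rw [hc]
    ext
    · simp only [Prod.swap_prod_mk, Prod.fst_sub]
      omega
    · simp only [Prod.swap_prod_mk, Prod.snd_sub]
      omega
  have a2 : c - ((1, 1) : ℤ × ℤ).swap = ((R : ℤ) - P2, (P2 : ℤ)) := by
    rw [hc]
    ext
    · simp only [Prod.swap_prod_mk, Prod.fst_sub]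
      omega
    · simp only [Prod.swap_prod_mk, Prod.snd_sub]
      omega
  have a3 : c - ((m : ℤ) - M0, (n : ℤ)).swap = ((k : ℤ), (M0 : ℤ)) := by
    rw [hc]
    ext
    · simp only [Prod.swap_prod_mk, Prod.fst_sub]
      omega
    · simp only [Prod.swap_prod_mk, Prod.snd_sub]
      omega
  rw [a1, a2, a3]

/-- the parameters -/
private theorem na_par {s D Rr : ℝ} {m n : ℕ} (hs : 0 < s) (hs1 : s ≤ 1 / 5) (hR : 0 < Rr)
    (hD : D = s ^ 2 * Rr) (hm1 : 2 * D ≤ m) (hm2 : (m : ℝ) ≤ 3 * D) (hn1 : Rr / 2 ≤ n)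
    (hn2 : (n : ℝ) ≤ Rr) :
    s / 2 ≤ al m n ∧ al m n ≤ 5 / 2 * s ∧
      D / 10 ^ 14 ≤ (al m n / 16) ^ 3 * Ph m n / (2 * 10 ^ 8) := by
  have hD0 : 0 < D := by rw [hD]; positivity
  have hm0 : (0 : ℝ) < m := by linarith
  have hn0 : (0 : ℝ) < n := by linarith
  set x : ℝ := √(m : ℝ) with hx
  set y : ℝ := √(n : ℝ) with hy
  have hx0 : 0 < x := Real.sqrt_pos.2 hm0
  have hy0 : 0 < y := Real.sqrt_pos.2 hn0
  have hx2 : x ^ 2 = m := Real.sq_sqrt hm0.le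
  have hy2 : y ^ 2 = n := Real.sq_sqrt hn0.le
  set w : ℝ := √Rr with hw
  have hw0 : 0 < w := Real.sqrt_pos.2 hR
  have hw2 : w ^ 2 = Rr := Real.sq_sqrt hR.le
  have hs2 : s ^ 2 ≤ 1 / 25 := by nlinarith
  -- bounds for `x`, `y`
  have x1 : s * w ≤ x := by
    have : (s * w) ^ 2 ≤ x ^ 2 := by
      rw [mul_pow, hw2, hx2, ← hD]
      linarith
    exact le_of_pow_le_pow_left₀ (by norm_num) hx0.le this
  have x2 : x ≤ 7 / 4 * (s * w) := by
    have : x ^ 2 ≤ (7 / 4 * (s * w)) ^ 2 := by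
      rw [hx2, mul_pow, mul_pow, hw2, ← hD]
      linarith
    exact le_of_pow_le_pow_left₀ (by norm_num) (by positivity) this
  have y1 : 7 / 10 * w ≤ y := by
    have : (7 / 10 * w) ^ 2 ≤ y ^ 2 := by
      rw [mul_pow, hw2, hy2]
      linarith
    exact le_of_pow_le_pow_left₀ (by norm_num) hy0.le this
  have y2 : y ≤ w := by
    have : y ^ 2 ≤ w ^ 2 := by
      rw [hy2, hw2]
      exact hn2
    exact le_of_pow_le_pow_left₀ (by norm_num) hw0.le this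
  have hsw : s * w ≤ w / 5 := by nlinarith
  have hal : al m n = x / (x + y) := rfl
  have b1 : s / 2 ≤ al m n := by
    rw [hal, le_div_iff₀ (by positivity)]
    have h1 : x + y ≤ 2 * w := by linarith
    have h2 : s / 2 * (x + y) ≤ s / 2 * (2 * w) := by gcongr
    linarith
  have b2 : al m n ≤ 5 / 2 * s := by
    rw [hal, div_le_iff₀ (by positivity)]
    have h1 : 7 / 10 * w ≤ x + y := by linarith
    have h2 : 5 / 2 * s * (7 / 10 * w) ≤ 5 / 2 * s * (x + y) := by gcongr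
    linarith
  refine ⟨b1, b2, ?_⟩
  have hPh : Ph m n = (x + y) ^ 4 / (x * y) := rfl
  have h3 : y ^ 3 / x ≤ Ph m n := by
    rw [hPh, div_le_div_iff₀ hx0 (by positivity)]
    have : y ^ 4 ≤ (x + y) ^ 4 := by gcongr; linarith
    calc y ^ 3 * (x * y) = y ^ 4 * x := by ring
      _ ≤ (x + y) ^ 4 * x := by gcongr
  have h4 : (7 / 10 * w) ^ 3 / (7 / 4 * (s * w)) ≤ y ^ 3 / x := by gcongr
  have h5 : (7 / 10 * w) ^ 3 / (7 / 4 * (s * w)) = 49 / 250 * (w ^ 2 / s) := by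
    field_simp
    norm_num
  have h6 : 49 / 250 * (w ^ 2 / s) ≤ Ph m n := by rw [← h5]; exact h4.trans h3
  have hal0 : 0 < al m n := by linarith
  have h7 : (s / 2 / 16) ^ 3 * (49 / 250 * (w ^ 2 / s)) ≤ (al m n / 16) ^ 3 * Ph m n := by
    gcongr
  have h8 : (s / 2 / 16) ^ 3 * (49 / 250 * (w ^ 2 / s)) = D * (49 / 250 / 32768) := by
    rw [hD, ← hw2]
    field_simp
    ring
  rw [h8] at h7
  rw [le_div_iff₀ (by norm_num)]
  calc D / 10 ^ 14 * (2 * 10 ^ 8) = D * (2 / 10 ^ 6) := by ring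
    _ ≤ D * (49 / 250 / 32768) := mul_le_mul_of_nonneg_left (by norm_num) hD0.le
    _ ≤ _ := h7

theorem near_a (K M0 : ℕ) (hK : 1 ≤ K) (hM0 : 1 ≤ M0) : ∃ δ0 : ℝ, 0 < δ0 ∧ ∀ (δ : ℝ) (R : ℕ),
    0 < δ → δ ≤ δ0 → δ⁻¹ ^ 200 ≤ R →
    (PI (ℤ × ℤ)).real (HgtBad δ R K M0) ≤ δ ^ ((M0 : ℝ) / 3) := by
  have hKr : (1 : ℝ) ≤ K := by exact_mod_cast hK
  have hMr : (1 : ℝ) ≤ M0 := by exact_mod_cast hM0
  obtain ⟨A0, hA0⟩ : ∃ A0 : ℝ, A0 = (K : ℝ) + M0 + 2 := ⟨_, rfl⟩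
  have hA04 : 4 ≤ A0 := by linarith
  obtain ⟨L0, hL0⟩ : ∃ L0 : ℝ, L0 = M0 + 4 * ((K : ℝ) + M0 + 1) ^ 2 +
    2 * (M0 + 24 * ((K : ℝ) + 1)) + 15552 * A0 * ((K : ℝ) + 1) + 4 := ⟨_, rfl⟩
  refine ⟨Real.exp (-L0), Real.exp_pos _, ?_⟩
  intro δ R hδ hδ0 hR
  obtain ⟨L, hL⟩ : ∃ L : ℝ, L = -Real.log δ := ⟨_, rfl⟩
  have hδL : δ = Real.exp (-L) := by rw [hL, neg_neg, Real.exp_log hδ]
  have hLL : L0 ≤ L := by
    have : Real.exp (-L) ≤ Real.exp (-L0) := by rw [← hδL]; exact hδ0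
    have := Real.exp_le_exp.1 this
    linarith
  have q1 : 0 ≤ 4 * ((K : ℝ) + M0 + 1) ^ 2 := by positivity
  have q2 : 0 ≤ 15552 * A0 * ((K : ℝ) + 1) := by positivity
  have hL4 : 4 ≤ L := by linarith
  have hLp : 0 < L := by linarith
  -- sizes
  have hinv : δ⁻¹ = Real.exp L := by rw [hδL, ← Real.exp_neg, neg_neg]
  have hR200 : Real.exp (200 * L) ≤ R := by
    have : δ⁻¹ ^ 200 = Real.exp (200 * L) := by
      rw [hinv, ← Real.exp_nat_mul]
      norm_num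
    rw [← this]
    exact hR
  have hRp : (0 : ℝ) < R := (Real.exp_pos _).trans_le hR200
  obtain ⟨D, hD⟩ : ∃ D : ℝ, D = δ * R := ⟨_, rfl⟩
  have hD199 : Real.exp (199 * L) ≤ D := by
    rw [hD]
    calc Real.exp (199 * L) = δ * Real.exp (200 * L) := by
          rw [hδL, ← Real.exp_add]
          congr 1
          ring
      _ ≤ δ * R := by gcongr
  have hDL : 199 * L ≤ D := by
    have := Real.add_one_le_exp (199 * L)
    linarith
  have hδ25 : δ ≤ 1 / 25 := by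
    rw [hδL, Real.exp_neg, inv_le_comm₀ (Real.exp_pos _) (by norm_num)]
    have h1 : Real.exp 4 ≤ Real.exp L := Real.exp_le_exp.2 hL4
    have h2 : (25 : ℝ) ≤ Real.exp 4 := by
      have h3 := Real.exp_one_gt_d9
      have h4 : Real.exp 4 = Real.exp 1 ^ 4 := by
        rw [← Real.exp_nat_mul]
        norm_num
      rw [h4]
      have h5 : (2.7 : ℝ) ^ 4 ≤ Real.exp 1 ^ 4 := by gcongr; linarith
      norm_num at h5 ⊢
      linarith
    linarith
  have hDR : D ≤ R / 25 := by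
    rw [hD]
    calc δ * R ≤ 1 / 25 * R := by gcongr
      _ = R / 25 := by ring
  have hKL : (K : ℝ) + M0 ≤ L := by linarith
  set P2 : ℕ := ⌈2 * D⌉₊ with hP2
  have hD0 : 0 < D := by linarith
  have c1 : 2 * D ≤ P2 := Nat.le_ceil _
  have c2 : (P2 : ℝ) < 2 * D + 1 := Nat.ceil_lt_add_one (by positivity)
  have hPK : P2 + K ≤ R := by
    have : ((P2 + K : ℕ) : ℝ) ≤ R := by
      push_cast
      linarith
    exact_mod_cast this
  obtain ⟨B, hB⟩ : ∃ B : ℝ, B = L ^ 2 := ⟨_, rfl⟩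
  have hB0 : 0 ≤ B := by rw [hB]; positivity
  obtain ⟨s, hs⟩ : ∃ s : ℝ, s = √δ := ⟨_, rfl⟩
  have hs0 : 0 < s := by rw [hs]; exact Real.sqrt_pos.2 hδ
  have hs2 : s ^ 2 = δ := by rw [hs]; exact Real.sq_sqrt hδ.le
  have hs5 : s ≤ 1 / 5 := by
    have : s ^ 2 ≤ (1 / 5 : ℝ) ^ 2 := by
      rw [hs2]
      norm_num
      linarith
    exact le_of_pow_le_pow_left₀ (by norm_num) (by norm_num) this
  have hsL : s = Real.exp (-(L / 2)) := by
    have : s ^ 2 = Real.exp (-(L / 2)) ^ 2 := by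
      rw [hs2, hδL, ← Real.exp_nat_mul]
      congr 1
      push_cast
      ring
    exact (pow_left_inj₀ hs0.le (Real.exp_pos _).le (by norm_num)).1 this
  -- the events
  have hsub : HgtBad δ R K M0 ⊆ {ω | ¬ ∀ z, 0 ≤ ω z} ∪
      ({ω | ∃ z, ((0, 0) : ℤ × ℤ) ≤ z ∧ z ≤ ((K : ℤ), (M0 : ℤ)) ∧ B < ω z} ∪
      ⋃ k ∈ Finset.range (K + 1), {ω | T ω ((k : ℤ), 0) ((R : ℤ) - P2, (P2 : ℤ)) -
        T ω ((k : ℤ), (M0 : ℤ)) ((R : ℤ) - P2, (P2 : ℤ)) ≤ A0 * B}) := by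
    intro ω hω
    by_cases h1 : ∀ z, 0 ≤ ω z
    · right
      by_cases h2 : ∃ z, ((0, 0) : ℤ × ℤ) ≤ z ∧ z ≤ ((K : ℤ), (M0 : ℤ)) ∧ B < ω z
      · exact Or.inl h2
      · right
        obtain ⟨k, hk, hk'⟩ := na_det hδ (by rw [← hD]; exact c1) hPK h1 (B := B)
          (fun z a b => not_lt.1 fun hc => h2 ⟨z, a, b, hc⟩) hω
        rw [← hA0] at hk'
        simp only [Set.mem_iUnion]
        exact ⟨k, Finset.mem_range.2 (by omega), hk'⟩
    · exact Or.inl h1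
  have hp1 : (PI (ℤ × ℤ)).real {ω | ¬ ∀ z, 0 ≤ ω z} = 0 := by
    rw [measureReal_def, ae_iff.1 ae_nonneg, ENNReal.toReal_zero]
  have hp2 := max_tail (0, 0) ((K : ℤ), (M0 : ℤ)) ⟨by simp, by simp⟩ hB0
  have hlev : ((lev ((K : ℤ), (M0 : ℤ)) - lev (0, 0) : ℤ) : ℝ) + 1 = (K : ℝ) + M0 + 1 := by
    unfold lev
    push_cast
    ring
  rw [hlev] at hp2
  have hp3 : ∀ k ∈ Finset.range (K + 1),
      (PI (ℤ × ℤ)).real {ω | T ω ((k : ℤ), 0) ((R : ℤ) - P2, (P2 : ℤ)) -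
        T ω ((k : ℤ), (M0 : ℤ)) ((R : ℤ) - P2, (P2 : ℤ)) ≤ A0 * B} ≤
      6 * Real.exp (-Real.exp L) + (3 * s * (A0 * B)) ^ M0 := by
    intro k hk
    have hkK : k ≤ K := by
      have := Finset.mem_range.1 hk
      omega
    have hkr : (k : ℝ) ≤ K := by exact_mod_cast hkK
    have hk0 : (0 : ℝ) ≤ k := Nat.cast_nonneg k
    obtain ⟨n, hn⟩ : ∃ n : ℕ, n + P2 + k = R + 1 := ⟨R + 1 - P2 - k, by omega⟩
    have hnr : (n : ℝ) + P2 + k = R + 1 := by exact_mod_cast hn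
    have hn1 : (R : ℝ) / 2 ≤ n := by linarith
    have hn2 : (n : ℝ) ≤ R := by linarith
    have hmr : (((P2 + 1 : ℕ) : ℕ) : ℝ) = P2 + 1 := by push_cast; rfl
    have hMm : M0 + 1 ≤ P2 + 1 := by
      have : (M0 : ℝ) ≤ P2 := by linarith
      have : M0 ≤ P2 := by exact_mod_cast this
      omega
    have hn1' : 1 ≤ n := by
      have h1 : (0 : ℝ) < n := by linarith
      have : 0 < n := by exact_mod_cast h1
      omega
    rw [na_law (m := P2 + 1) rfl hn hMm hn1']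
    obtain ⟨g1, g2, g3⟩ := na_par (s := s) (D := D) (Rr := R) (m := P2 + 1) (n := n) hs0 hs5 hRp
      (by rw [hs2, hD]) (by rw [hmr]; linarith) (by rw [hmr]; linarith) hn1 hn2
    have hal0 : 0 < al ((P2 + 1 : ℕ) : ℝ) n := by linarith
    have hpr := na_prob (m := P2 + 1) (n := n) (M := M0) (t := al ((P2 + 1 : ℕ) : ℝ) n / 16)
      (X := A0 * B) hMm hn1' (by positivity) le_rfl (by linarith) (by positivity)
    refine hpr.trans (add_le_add ?_ ?_)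
    · have e1 : Real.exp L ≤ D / 10 ^ 14 := by
        rw [le_div_iff₀ (by norm_num)]
        refine le_trans ?_ hD199
        have e2 : Real.exp (199 * L) = Real.exp L * Real.exp (198 * L) := by
          rw [← Real.exp_add]
          congr 1
          ring
        rw [e2]
        gcongr
        have e3 : Real.exp 198 ≤ Real.exp (198 * L) := Real.exp_le_exp.2 (by linarith)
        have e4 : (2 : ℝ) ^ 198 ≤ Real.exp 198 := by
          have e5 : Real.exp 198 = Real.exp 1 ^ 198 := by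
            rw [← Real.exp_nat_mul]
            norm_num
          rw [e5]
          have := Real.exp_one_gt_d9
          gcongr
          linarith
        have e6 : (10 : ℝ) ^ 14 ≤ 2 ^ 198 := by norm_num
        linarith
      have e7 : Real.exp (-((al ((P2 + 1 : ℕ) : ℝ) n / 16) ^ 3 * Ph ((P2 + 1 : ℕ) : ℝ) n /
          (2 * 10 ^ 8))) ≤ Real.exp (-Real.exp L) := Real.exp_le_exp.2 (by linarith)
      linarith
    · refine pow_le_pow_left₀ (by positivity) ?_ _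
      gcongr
      linarith
  have htot : (PI (ℤ × ℤ)).real (HgtBad δ R K M0) ≤ ((K : ℝ) + M0 + 1) ^ 2 * Real.exp (-B) +
      ((K : ℝ) + 1) * (6 * Real.exp (-Real.exp L) + (3 * s * (A0 * B)) ^ M0) := by
    refine (measureReal_mono hsub (measure_ne_top _ _)).trans
      ((measureReal_union_le _ _).trans ?_)
    rw [hp1, zero_add]
    refine (measureReal_union_le _ _).trans (add_le_add hp2 ?_)
    refine (measureReal_biUnion_finset_le _ _).trans ((Finset.sum_le_sum hp3).trans ?_)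
    rw [Finset.sum_const, Finset.card_range, nsmul_eq_mul]
    push_cast
    exact le_rfl
  refine htot.trans ?_
  obtain ⟨Z, hZ⟩ : ∃ Z : ℝ, Z = δ ^ ((M0 : ℝ) / 3) := ⟨_, rfl⟩
  have hZL : Z = Real.exp (-(L * (M0 / 3))) := by
    rw [hZ, hδL, ← Real.exp_mul]
    congr 1
    ring
  have hZ0 : 0 < Z := by rw [hZL]; exact Real.exp_pos _
  rw [← hZ]
  -- first term
  have t1 : ((K : ℝ) + M0 + 1) ^ 2 * Real.exp (-B) ≤ Z / 4 := by
    have h1 : 4 * ((K : ℝ) + M0 + 1) ^ 2 ≤ Real.exp (B - L * (M0 / 3)) := by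
      have h2 : L ≤ B - L * (M0 / 3) := by
        rw [hB]
        have h3 : 1 + (M0 : ℝ) / 3 ≤ L := by linarith
        have h3' := mul_nonneg hLp.le (sub_nonneg.2 h3)
        linarith
      have h4 := Real.add_one_le_exp (B - L * (M0 / 3))
      linarith
    have h5 : Real.exp (B - L * (M0 / 3)) * Real.exp (-B) = Z := by
      rw [← Real.exp_add, hZL]
      congr 1
      ring
    have h6 := mul_le_mul_of_nonneg_right h1 (Real.exp_pos (-B)).le
    rw [h5] at h6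
    linarith
  -- second term
  have t2 : ((K : ℝ) + 1) * (6 * Real.exp (-Real.exp L)) ≤ Z / 4 := by
    have h1 : 24 * ((K : ℝ) + 1) ≤ Real.exp (Real.exp L - L * (M0 / 3)) := by
      have h2 : L ^ 2 / 2 ≤ Real.exp L := by
        have := Real.pow_div_factorial_le_exp L hLp.le 2
        simpa using this
      have h3 : (M0 : ℝ) + 24 * ((K : ℝ) + 1) ≤ L / 2 := by linarith
      have h4 : 24 * ((K : ℝ) + 1) ≤ L ^ 2 / 2 - L * (M0 / 3) := by
        have i1 := mul_le_mul_of_nonneg_left h3 hLp.le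
        have i2 : 0 ≤ (L - 1) * (24 * ((K : ℝ) + 1)) :=
          mul_nonneg (by linarith) (by positivity)
        have i3 : 0 ≤ L * (M0 : ℝ) := by positivity
        linarith
      have h5 := Real.add_one_le_exp (Real.exp L - L * (M0 / 3))
      linarith
    have h5 : Real.exp (Real.exp L - L * (M0 / 3)) * Real.exp (-Real.exp L) = Z := by
      rw [← Real.exp_add, hZL]
      congr 1
      ring
    have h6 := mul_le_mul_of_nonneg_right h1 (Real.exp_pos (-Real.exp L)).le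
    rw [h5] at h6
    linarith
  -- third term
  have t3 : ((K : ℝ) + 1) * (3 * s * (A0 * B)) ^ M0 ≤ Z / 4 := by
    obtain ⟨b, hb⟩ : ∃ b : ℝ, b = 3 * A0 * L ^ 2 * Real.exp (-(L / 6)) := ⟨_, rfl⟩
    have hb0 : 0 ≤ b := by rw [hb]; positivity
    have h1 : 3 * s * (A0 * B) = b * Real.exp (-(L / 3)) := by
      have : Real.exp (-(L / 2)) = Real.exp (-(L / 6)) * Real.exp (-(L / 3)) := by
        rw [← Real.exp_add]
        congr 1
        ring
      rw [hb, hB, hsL, this]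
      ring
    have h2 : L ^ 2 * Real.exp (-(L / 6)) * L ≤ 1296 := by
      have h3 : (L / 6) ^ 3 / 6 ≤ Real.exp (L / 6) := by
        have := Real.pow_div_factorial_le_exp (L / 6) (by positivity) 3
        have e : ((Nat.factorial 3 : ℕ) : ℝ) = 6 := by norm_num [Nat.factorial]
        rwa [e] at this
      have h4 : Real.exp (L / 6) * Real.exp (-(L / 6)) = 1 := by
        rw [← Real.exp_add]
        simp
      have h5 := mul_le_mul_of_nonneg_right h3 (Real.exp_pos (-(L / 6))).le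
      rw [h4] at h5
      nlinarith
    have h6 : 4 * ((K : ℝ) + 1) * b ≤ 1 := by
      have h7 : 4 * ((K : ℝ) + 1) * b * L ≤ L := by
        calc 4 * ((K : ℝ) + 1) * b * L =
              12 * A0 * ((K : ℝ) + 1) * (L ^ 2 * Real.exp (-(L / 6)) * L) := by
              rw [hb]
              ring
          _ ≤ 12 * A0 * ((K : ℝ) + 1) * 1296 := by gcongr
          _ = 15552 * A0 * ((K : ℝ) + 1) := by ring
          _ ≤ L := by linarith
      have h8 : 4 * ((K : ℝ) + 1) * b * L ≤ 1 * L := by rw [one_mul]; exact h7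
      exact le_of_mul_le_mul_right h8 hLp
    have hb1 : b ≤ 1 := by nlinarith
    have h9 : b ^ M0 ≤ b := by
      calc b ^ M0 ≤ b ^ 1 := pow_le_pow_of_le_one hb0 hb1 hM0
        _ = b := pow_one b
    have h10 : Real.exp (-(L / 3)) ^ M0 = Z := by
      rw [hZL, ← Real.exp_nat_mul]
      congr 1
      ring
    rw [h1, mul_pow, h10]
    calc ((K : ℝ) + 1) * (b ^ M0 * Z) ≤ ((K : ℝ) + 1) * (b * Z) := by gcongr
      _ = (4 * ((K : ℝ) + 1) * b) * Z / 4 := by ring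
      _ ≤ 1 * Z / 4 := by gcongr
      _ = Z / 4 := by ring
  linarith

end BGE
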