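import Pool.Agent.BGE.Defs
import Pool.Agent.BGE.MgfS

/-!
BGE / R2. Random walks with steps `X/p - X'/q`, `X, X'` exponential of rate one: definitions,
moments.

`walkM p q` is the law of the sequence of steps `x 0, x 1, ...`; `Sw x n = x 0 + ... + x (n-1)`.

`step_mean`, `step_over`: `E x = 1/p - 1/q`; memoryless overshoot: for `b ≥ 0`,
`E[(x - b); x > b] = (1/p) P(x > b)` (given `X'` and `X/p > b + X'/q`, the overshoot has law
`Exp(p)`).

`walk_neg_part`: for `κ > 0` there is `c₂ > 0` such that for `p, q ∈ [κ, 1]`, `N ≥ 1` with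
`|1/p - 1/q| √N ≤ c₂`: `E (Sw N)^- ≥ c₂ √N`.
Proof. Let `Z = Sw N - N m`, `m = 1/p - 1/q`. `E Z² = N (1/p² + 1/q²) ≥ 2N`, and `E Z⁴ ≤ C N²`
(independent centred summands with bounded fourth moments). Hölder:
`E Z² ≤ (E |Z|)^{2/3} (E Z⁴)^{1/3}`, so `E |Z| ≥ c √N`, `E Z^- = E|Z|/2` and
`(Sw N)^- ≥ Z^- - |m| N`.
-/

namespace BGE

open MeasureTheory ProbabilityTheory

/-! ### One exponential variable -/

theorem wk_int (f : ℝ → ℝ) : ∫ x, f x ∂E1 = ∫ x in Set.Ioi 0, Real.exp (-x) * f x := by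
  have h1 : E1 = volume.withDensity (exponentialPDF 1) := rfl
  have hm : Measurable (exponentialPDF 1) := (measurable_exponentialPDFReal 1).ennreal_ofReal
  rw [h1, integral_withDensity_eq_integral_toReal_smul hm
    (Filter.Eventually.of_forall fun x => ENNReal.ofReal_lt_top),
    ← integral_Ici_eq_integral_Ioi, ← integral_indicator measurableSet_Ici]
  congr 1
  funext x
  rw [exponentialPDF_eq]
  by_cases hx : 0 ≤ x
  · rw [if_pos hx, Set.indicator_of_mem (Set.mem_Ici.2 hx), ENNReal.toReal_ofReal (by positivity)]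
    simp
  · rw [if_neg hx, Set.indicator_of_notMem (by simpa using hx)]
    simp

theorem wk_exp_int {s : ℝ} (hs : s < 1) : Integrable (fun x => Real.exp (s * x)) E1 := by
  refine ⟨by fun_prop, ?_⟩
  rw [hasFiniteIntegral_iff_enorm]
  have h2 := lintegral_exp_expMeasure (r := 1) (s := s) one_pos hs
  have e : ∀ x : ℝ, ‖Real.exp (s * x)‖ₑ = ENNReal.ofReal (Real.exp (s * x)) := fun x => by
    rw [Real.enorm_eq_ofReal (Real.exp_pos _).le]
  simp only [e]
  have e2 : E1 = expMeasure 1 := rfl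
  rw [e2, h2]
  exact ENNReal.ofReal_lt_top

theorem wk_pow (k : ℕ) : ∫ x, x ^ k ∂E1 = (k.factorial : ℝ) := by
  rw [wk_int, ← Real.Gamma_nat_eq_factorial, Real.Gamma_eq_integral (by positivity)]
  refine setIntegral_congr_fun measurableSet_Ioi fun x _ => ?_
  simp

theorem wk_pow_int (k : ℕ) : Integrable (fun x : ℝ => x ^ k) E1 :=
  integrable_pow_of_integrable_exp_mul (X := fun x : ℝ => x) (t := 1 / 2) (by norm_num)
    (wk_exp_int (by norm_num)) (wk_exp_int (by norm_num)) k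

theorem wk_nonneg : ∀ᵐ x ∂E1, 0 ≤ x := by
  rw [ae_iff]
  have h3 : {x : ℝ | ¬ 0 ≤ x} = Set.Iio 0 := by
    ext x
    simp
  rw [h3]
  unfold E1 expMeasure gammaMeasure
  rw [withDensity_apply _ measurableSet_Iio]
  exact lintegral_gammaPDF_of_nonpos le_rfl

theorem wk_over {c : ℝ} (hc : 0 ≤ c) : ∫ x, max (x - c) 0 ∂E1 = Real.exp (-c) := by
  rw [wk_int]
  have h1 : ∫ x in Set.Ioi 0, Real.exp (-x) * max (x - c) 0 =
      ∫ x in Set.Ioi c, Real.exp (-x) * (x - c) := by
    rw [← integral_indicator measurableSet_Ioi, ← integral_indicator measurableSet_Ioi]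
    congr 1
    funext x
    by_cases hx : c < x
    · rw [Set.indicator_of_mem (Set.mem_Ioi.2 hx), Set.indicator_of_mem (Set.mem_Ioi.2 (by linarith)),
        max_eq_left (by linarith)]
    · rw [Set.indicator_of_notMem (s := Set.Ioi c) (by simpa using hx)]
      by_cases hx0 : 0 < x
      · rw [Set.indicator_of_mem (Set.mem_Ioi.2 hx0), max_eq_right (by linarith [not_lt.1 hx]), mul_zero]
      · rw [Set.indicator_of_notMem (by simpa using hx0)]
  rw [h1]
  have h2 : ∫ x in Set.Ioi c, Real.exp (-x) * (x - c) =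
      ∫ x in Set.Ioi (0 : ℝ), Real.exp (-(x + c)) * x := by
    rw [← integral_indicator measurableSet_Ioi, ← integral_indicator measurableSet_Ioi,
      ← integral_add_right_eq_self _ c]
    congr 1
    funext x
    by_cases hx : 0 < x
    · rw [Set.indicator_of_mem (Set.mem_Ioi.2 (by linarith)), Set.indicator_of_mem (Set.mem_Ioi.2 hx)]
      congr 1
      ring
    · rw [Set.indicator_of_notMem (by simpa using hx), Set.indicator_of_notMem (by simpa using hx)]
  rw [h2]
  have h3 : ∫ x in Set.Ioi (0 : ℝ), Real.exp (-(x + c)) * x =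
      Real.exp (-c) * ∫ x in Set.Ioi (0 : ℝ), Real.exp (-x) * x := by
    rw [← integral_const_mul]
    refine setIntegral_congr_fun measurableSet_Ioi fun x _ => ?_
    change Real.exp (-(x + c)) * x = Real.exp (-c) * (Real.exp (-x) * x)
    rw [neg_add, Real.exp_add]
    ring
  have h4 := wk_pow 1
  rw [wk_int] at h4
  simp only [pow_one, Nat.factorial_one, Nat.cast_one] at h4
  rw [h3, h4, mul_one]

theorem wk_tail {c : ℝ} (hc : 0 ≤ c) : E1.real (Set.Ioi c) = Real.exp (-c) := by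
  have h1 : E1.real (Set.Ioi c) = ∫ x, (Set.Ioi c).indicator (fun _ => (1 : ℝ)) x ∂E1 := by
    rw [integral_indicator measurableSet_Ioi]
    simp
  rw [h1, wk_int]
  have h2 : ∫ x in Set.Ioi 0, Real.exp (-x) * (Set.Ioi c).indicator (fun _ => (1 : ℝ)) x =
      ∫ x in Set.Ioi c, Real.exp (-x) := by
    rw [← integral_indicator measurableSet_Ioi, ← integral_indicator measurableSet_Ioi]
    congr 1
    funext x
    by_cases hx : c < x
    · rw [Set.indicator_of_mem (Set.mem_Ioi.2 (by linarith : (0:ℝ) < x)),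
        Set.indicator_of_mem (Set.mem_Ioi.2 hx), Set.indicator_of_mem (Set.mem_Ioi.2 hx), mul_one]
    · rw [Set.indicator_of_notMem (s := Set.Ioi c) (by simpa using hx)]
      refine Set.indicator_apply_eq_zero.2 fun _ => ?_
      rw [Set.indicator_of_notMem (s := Set.Ioi c) (by simpa using hx), mul_zero]
  rw [h2]
  exact integral_exp_neg_Ioi c

/-! ### The step law -/

theorem wk_map_int {p q : ℝ} {F : ℝ → ℝ} (hF : Measurable F) :
    ∫ x, F x ∂(stepLaw p q) = ∫ z, F (z.1 / p - z.2 / q) ∂(E1.prod E1) := by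
  unfold stepLaw
  exact integral_map (by fun_prop) hF.aestronglyMeasurable

theorem wk_step_exp {p q t : ℝ} (hp : 0 < p) (hq : 0 < q) (h1 : t < p) (h2 : -q < t) :
    Integrable (fun x => Real.exp (t * x)) (stepLaw p q) := by
  unfold stepLaw
  rw [integrable_map_measure (by fun_prop) (by fun_prop)]
  have h3 : Integrable (fun x : ℝ => Real.exp (t / p * x)) E1 :=
    wk_exp_int (by rw [div_lt_one hp]; exact h1)
  have h4 : Integrable (fun x : ℝ => Real.exp (-t / q * x)) E1 :=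
    wk_exp_int (by rw [div_lt_one hq]; linarith)
  refine (h3.mul_prod h4).congr (Filter.Eventually.of_forall fun z => ?_)
  simp only [Function.comp]
  rw [← Real.exp_add]
  congr 1
  ring

theorem step_integrable {p q : ℝ} (hp : 0 < p) (hq : 0 < q) (k : ℕ) :
    Integrable (fun x => x ^ k) (stepLaw p q) := by
  have hm : 0 < min p q := lt_min hp hq
  have h1 := min_le_left p q
  have h2 := min_le_right p q
  exact integrable_pow_of_integrable_exp_mul (X := fun x : ℝ => x) (t := min p q / 2)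
    (by positivity) (wk_step_exp hp hq (by linarith) (by linarith))
    (wk_step_exp hp hq (by linarith) (by linarith)) k

theorem step_mean {p q : ℝ} (hp : 0 < p) (hq : 0 < q) : ∫ x, x ∂(stepLaw p q) = 1 / p - 1 / q := by
  rw [wk_map_int (p := p) (q := q) (F := fun x => x) measurable_id]
  have i0 : Integrable (fun x : ℝ => x) E1 := by simpa using wk_pow_int 1
  have i1 : Integrable (fun z : ℝ × ℝ => z.1 / p) (E1.prod E1) := (i0.div_const p).comp_fst E1
  have i2 : Integrable (fun z : ℝ × ℝ => z.2 / q) (E1.prod E1) := (i0.div_const q).comp_snd E1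
  have m1 : ∫ x, x ∂E1 = 1 := by
    have := wk_pow 1
    simpa using this
  rw [integral_sub i1 i2, integral_fun_fst (fun x => x / p), integral_fun_snd (fun x => x / q),
    integral_div, integral_div, m1]
  simp

theorem step_over {p q b : ℝ} (hp : 0 < p) (hq : 0 < q) (hb : 0 ≤ b) :
    ∫ x in Set.Ioi b, (x - b) ∂(stepLaw p q) = (1 / p) * (stepLaw p q).real (Set.Ioi b) := by
  have hcs : ∀ y : ℝ, 0 ≤ y → 0 ≤ p * (b + y / q) := fun y hy => by positivity
  -- left side
  have hL : ∫ x in Set.Ioi b, (x - b) ∂(stepLaw p q) =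
      ∫ y, (1 / p) * Real.exp (-(p * (b + y / q))) ∂E1 := by
    have e1 : ∫ x in Set.Ioi b, (x - b) ∂(stepLaw p q) = ∫ x, max (x - b) 0 ∂(stepLaw p q) := by
      rw [← integral_indicator measurableSet_Ioi]
      congr 1
      funext x
      by_cases hx : b < x
      · rw [Set.indicator_of_mem (Set.mem_Ioi.2 hx), max_eq_left (by linarith)]
      · rw [Set.indicator_of_notMem (by simpa using hx), max_eq_right (by linarith [not_lt.1 hx])]
    have i0 : Integrable (fun x : ℝ => x) E1 := by simpa using wk_pow_int 1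
    have i1 : Integrable (fun z : ℝ × ℝ => z.1 / p - z.2 / q - b) (E1.prod E1) :=
      (((i0.div_const p).comp_fst E1).sub ((i0.div_const q).comp_snd E1)).sub (integrable_const b)
    rw [e1, wk_map_int (by fun_prop), integral_prod_symm _ i1.pos_part]
    refine integral_congr_ae ?_
    filter_upwards [wk_nonneg] with y hy
    have e2 : ∀ x : ℝ, max (x / p - y / q - b) 0 = (1 / p) * max (x - p * (b + y / q)) 0 := by
      intro x
      rw [mul_max_of_nonneg _ _ (by positivity), mul_zero]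
      congr 1
      field_simp
      ring
    simp only [e2]
    rw [integral_const_mul, wk_over (hcs y hy)]
  have hR : (stepLaw p q).real (Set.Ioi b) = ∫ y, Real.exp (-(p * (b + y / q))) ∂E1 := by
    have e1 : (stepLaw p q).real (Set.Ioi b) =
        ∫ x, (Set.Ioi b).indicator (fun _ => (1 : ℝ)) x ∂(stepLaw p q) := by
      rw [integral_indicator measurableSet_Ioi]
      simp
    have hm : Measurable ((Set.Ioi b).indicator (fun _ : ℝ => (1 : ℝ))) :=
      measurable_const.indicator measurableSet_Ioi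
    have i1 : Integrable (fun z : ℝ × ℝ =>
        (Set.Ioi b).indicator (fun _ : ℝ => (1 : ℝ)) (z.1 / p - z.2 / q)) (E1.prod E1) := by
      refine Integrable.of_bound (hm.comp (by fun_prop)).aestronglyMeasurable 1
        (Filter.Eventually.of_forall fun z => ?_)
      by_cases hz : z.1 / p - z.2 / q ∈ Set.Ioi b
      · rw [Set.indicator_of_mem hz]; simp
      · rw [Set.indicator_of_notMem hz]; simp
    rw [e1, wk_map_int hm, integral_prod_symm _ i1]
    refine integral_congr_ae ?_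
    filter_upwards [wk_nonneg] with y hy
    have e2 : ∀ x : ℝ, (Set.Ioi b).indicator (fun _ : ℝ => (1 : ℝ)) (x / p - y / q) =
        (Set.Ioi (p * (b + y / q))).indicator (fun _ : ℝ => (1 : ℝ)) x := by
      intro x
      have h : x / p - y / q ∈ Set.Ioi b ↔ x ∈ Set.Ioi (p * (b + y / q)) := by
        simp only [Set.mem_Ioi]
        rw [lt_sub_iff_add_lt, lt_div_iff₀ hp, mul_comm]
      by_cases hx : x / p - y / q ∈ Set.Ioi b
      · rw [Set.indicator_of_mem hx, Set.indicator_of_mem (h.1 hx)]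
      · rw [Set.indicator_of_notMem hx, Set.indicator_of_notMem (fun h' => hx (h.2 h'))]
    simp only [e2]
    rw [integral_indicator measurableSet_Ioi, ← wk_tail (hcs y hy)]
    simp
  rw [hL, hR, integral_const_mul]

/-! ### Centred moments of a step -/

theorem wk_u2 : ∫ x, (x - 1) ^ 2 ∂E1 = 1 := by
  have e : (fun x : ℝ => (x - 1) ^ 2) = fun x : ℝ => (x ^ 2 - 2 * x ^ 1) + 1 := by
    funext x
    ring
  have i0 := wk_pow_int 1
  have i2 := wk_pow_int 2
  rw [e, integral_add (f := fun x : ℝ => x ^ 2 - 2 * x ^ 1) (g := fun _ => (1 : ℝ))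
    (i2.sub (i0.const_mul 2)) (integrable_const _),
    integral_sub i2 (i0.const_mul 2), integral_const_mul, wk_pow, wk_pow]
  norm_num [Nat.factorial]

theorem wk_u1 : ∫ x, (x - 1) ∂E1 = 0 := by
  have e : (fun x : ℝ => x - 1) = fun x : ℝ => x ^ 1 - 1 := by
    funext x
    ring
  rw [e, integral_sub (wk_pow_int 1) (integrable_const _), wk_pow]
  simp

theorem wk_u_int (k : ℕ) : Integrable (fun x : ℝ => (x - 1) ^ k) E1 := by
  refine integrable_pow_of_integrable_exp_mul (X := fun x : ℝ => x - 1) (t := 1 / 2) (by norm_num)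
    ?_ ?_ k
  · have := (wk_exp_int (s := 1 / 2) (by norm_num)).const_mul (Real.exp (-(1 / 2)))
    refine this.congr (Filter.Eventually.of_forall fun x => ?_)
    simp only
    rw [← Real.exp_add]
    congr 1
    ring
  · have := (wk_exp_int (s := -(1 / 2)) (by norm_num)).const_mul (Real.exp (1 / 2))
    refine this.congr (Filter.Eventually.of_forall fun x => ?_)
    simp only
    rw [← Real.exp_add]
    congr 1
    ring

theorem wk_v {p q : ℝ} (hp : 0 < p) (hq : 0 < q) :
    ∫ x, (x - (1 / p - 1 / q)) ^ 2 ∂(stepLaw p q) = 1 / p ^ 2 + 1 / q ^ 2 := by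
  rw [wk_map_int (by fun_prop)]
  have e : ∀ z : ℝ × ℝ, (z.1 / p - z.2 / q - (1 / p - 1 / q)) ^ 2 =
      (z.1 - 1) ^ 2 / p ^ 2 - 2 * ((z.1 - 1) / p) * ((z.2 - 1) / q) + (z.2 - 1) ^ 2 / q ^ 2 := by
    intro z
    field_simp
    ring
  have i1 : Integrable (fun x : ℝ => x - 1) E1 := by simpa using wk_u_int 1
  have i2 := wk_u_int 2
  have j1 : Integrable (fun z : ℝ × ℝ => (z.1 - 1) ^ 2 / p ^ 2) (E1.prod E1) :=
    (i2.div_const _).comp_fst E1
  have j2 : Integrable (fun z : ℝ × ℝ => (z.2 - 1) ^ 2 / q ^ 2) (E1.prod E1) :=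
    (i2.div_const _).comp_snd E1
  have j3 : Integrable (fun z : ℝ × ℝ => 2 * ((z.1 - 1) / p) * ((z.2 - 1) / q)) (E1.prod E1) :=
    ((i1.div_const p).const_mul 2).mul_prod (i1.div_const q)
  simp only [e]
  rw [integral_add (f := fun z : ℝ × ℝ => (z.1 - 1) ^ 2 / p ^ 2 -
      2 * ((z.1 - 1) / p) * ((z.2 - 1) / q)) (j1.sub j3) j2, integral_sub j1 j3,
    integral_fun_fst (fun x : ℝ => (x - 1) ^ 2 / p ^ 2),
    integral_fun_snd (fun x : ℝ => (x - 1) ^ 2 / q ^ 2),
    integral_prod_mul (fun x : ℝ => 2 * ((x - 1) / p)) (fun x : ℝ => (x - 1) / q),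
    integral_div, integral_div, integral_div, wk_u2, wk_u1]
  simp

theorem wk_w {κ p q : ℝ} (hκ : 0 < κ) (hp : κ ≤ p) (hq : κ ≤ q) :
    ∫ x, (x - (1 / p - 1 / q)) ^ 4 ∂(stepLaw p q) ≤
      16 * (∫ x, (x - 1) ^ 4 ∂E1) / κ ^ 4 := by
  have hp0 : 0 < p := lt_of_lt_of_le hκ hp
  have hq0 : 0 < q := lt_of_lt_of_le hκ hq
  rw [wk_map_int (by fun_prop)]
  have i4 := wk_u_int 4
  have j1 : Integrable (fun z : ℝ × ℝ => 8 * ((z.1 - 1) ^ 4 / κ ^ 4)) (E1.prod E1) :=
    ((i4.div_const _).const_mul 8).comp_fst E1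
  have j2 : Integrable (fun z : ℝ × ℝ => 8 * ((z.2 - 1) ^ 4 / κ ^ 4)) (E1.prod E1) :=
    ((i4.div_const _).const_mul 8).comp_snd E1
  have hpt : ∀ z : ℝ × ℝ, (z.1 / p - z.2 / q - (1 / p - 1 / q)) ^ 4 ≤
      8 * ((z.1 - 1) ^ 4 / κ ^ 4) + 8 * ((z.2 - 1) ^ 4 / κ ^ 4) := by
    intro z
    have e : z.1 / p - z.2 / q - (1 / p - 1 / q) = (z.1 - 1) / p - (z.2 - 1) / q := by ring
    rw [e]
    have h1 : ∀ a b : ℝ, (a - b) ^ 4 ≤ 8 * a ^ 4 + 8 * b ^ 4 := by
      intro a b
      nlinarith [sq_nonneg (a ^ 2 - b ^ 2), sq_nonneg ((a - b) * (a + b)), sq_nonneg (a + b),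
        sq_nonneg (a ^ 2 + b ^ 2 - (a + b) ^ 2), mul_nonneg (sq_nonneg (a + b)) (sq_nonneg (a - b)),
        mul_nonneg (sq_nonneg (a + b)) (sq_nonneg a), mul_nonneg (sq_nonneg (a + b)) (sq_nonneg b)]
    refine (h1 _ _).trans ?_
    rw [div_pow, div_pow]
    have h2 : (z.1 - 1) ^ 4 / p ^ 4 ≤ (z.1 - 1) ^ 4 / κ ^ 4 := by
      have : (0 : ℝ) ≤ (z.1 - 1) ^ 4 := by positivity
      gcongr
    have h3 : (z.2 - 1) ^ 4 / q ^ 4 ≤ (z.2 - 1) ^ 4 / κ ^ 4 := by
      have : (0 : ℝ) ≤ (z.2 - 1) ^ 4 := by positivity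
      gcongr
    linarith
  have hnn : ∀ z : ℝ × ℝ, 0 ≤ (z.1 / p - z.2 / q - (1 / p - 1 / q)) ^ 4 := fun z => by positivity
  calc ∫ z, (z.1 / p - z.2 / q - (1 / p - 1 / q)) ^ 4 ∂(E1.prod E1)
      ≤ ∫ z, (8 * ((z.1 - 1) ^ 4 / κ ^ 4) + 8 * ((z.2 - 1) ^ 4 / κ ^ 4)) ∂(E1.prod E1) :=
        integral_mono_of_nonneg (Filter.Eventually.of_forall hnn) (j1.add j2)
          (Filter.Eventually.of_forall hpt)
    _ = 16 * (∫ x, (x - 1) ^ 4 ∂E1) / κ ^ 4 := by
        rw [integral_add j1 j2, integral_fun_fst (fun x : ℝ => 8 * ((x - 1) ^ 4 / κ ^ 4)),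
          integral_fun_snd (fun x : ℝ => 8 * ((x - 1) ^ 4 / κ ^ 4)), integral_const_mul,
          integral_div]
        simp
        ring

/-! ### Moments of the walk -/

section Walk

variable {p q : ℝ}

/-- centred walk -/
noncomputable def wkZ (m : ℝ) (x : ℕ → ℝ) (n : ℕ) : ℝ := ∑ i ∈ Finset.range n, (x i - m)

theorem wkZ_succ (m : ℝ) (x : ℕ → ℝ) (n : ℕ) : wkZ m x (n + 1) = wkZ m x n + (x n - m) :=
  Finset.sum_range_succ _ _

theorem wkZ_eq (m : ℝ) (x : ℕ → ℝ) (n : ℕ) : wkZ m x n = Sw x n - n * m := by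
  unfold wkZ Sw
  rw [Finset.sum_sub_distrib]
  simp

theorem wkZ_meas (m : ℝ) (n : ℕ) : Measurable fun x : ℕ → ℝ => wkZ m x n := by
  unfold wkZ
  fun_prop

theorem wk_indep (m : ℝ) : iIndepFun (fun (i : ℕ) (x : ℕ → ℝ) => x i - m) (walkM p q) :=
  iIndepFun_infinitePi (P := fun _ : ℕ => stepLaw p q) (X := fun _ y => y - m)
    (fun _ => by fun_prop)

theorem wk_eval (i : ℕ) : MeasurePreserving (fun x : ℕ → ℝ => x i) (walkM p q) (stepLaw p q) :=
  measurePreserving_eval_infinitePi (fun _ : ℕ => stepLaw p q) i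

theorem wk_eval_int (i : ℕ) {F : ℝ → ℝ} (hF : Measurable F) :
    ∫ x, F (x i) ∂(walkM p q) = ∫ y, F y ∂(stepLaw p q) := by
  rw [← (wk_eval (p := p) (q := q) i).map_eq]
  exact (integral_map (measurable_pi_apply i).aemeasurable hF.aestronglyMeasurable).symm

theorem wk_y_int (hp : 0 < p) (hq : 0 < q) (m : ℝ) (k : ℕ) :
    Integrable (fun y => (y - m) ^ k) (stepLaw p q) := by
  have hm : 0 < min p q := lt_min hp hq
  have h1 := min_le_left p q
  have h2 := min_le_right p q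
  refine integrable_pow_of_integrable_exp_mul (X := fun x : ℝ => x - m) (t := min p q / 2)
    (by positivity) ?_ ?_ k
  · refine ((wk_step_exp (t := min p q / 2) hp hq (by linarith) (by linarith)).const_mul
      (Real.exp (-(min p q / 2 * m)))).congr (Filter.Eventually.of_forall fun x => ?_)
    simp only
    rw [← Real.exp_add]
    congr 1
    ring
  · refine ((wk_step_exp (t := -(min p q / 2)) hp hq (by linarith) (by linarith)).const_mul
      (Real.exp (min p q / 2 * m))).congr (Filter.Eventually.of_forall fun x => ?_)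
    simp only
    rw [← Real.exp_add]
    congr 1
    ring

theorem wk_Z_exp (hp : 0 < p) (hq : 0 < q) (m : ℝ) (n : ℕ) {t : ℝ} (h1 : t < p) (h2 : -q < t) :
    Integrable (fun x => Real.exp (t * wkZ m x n)) (walkM p q) := by
  have := (wk_indep (p := p) (q := q) m).integrable_exp_mul_sum (t := t)
    (s := Finset.range n) (fun i => by fun_prop) (fun i _ => ?_)
  · refine this.congr (Filter.Eventually.of_forall fun x => ?_)
    simp only [Finset.sum_apply]
    rfl
  · have h3 : Integrable (fun y => Real.exp (t * (y - m))) (stepLaw p q) := by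
      refine ((wk_step_exp (t := t) hp hq h1 h2).const_mul
        (Real.exp (-(t * m)))).congr (Filter.Eventually.of_forall fun x => ?_)
      simp only
      rw [← Real.exp_add]
      congr 1
      ring
    exact (wk_eval (p := p) (q := q) i).integrable_comp_of_integrable h3

theorem wk_Z_int (hp : 0 < p) (hq : 0 < q) (m : ℝ) (n k : ℕ) :
    Integrable (fun x => wkZ m x n ^ k) (walkM p q) := by
  have hm : 0 < min p q := lt_min hp hq
  have h1 := min_le_left p q
  have h2 := min_le_right p q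
  exact integrable_pow_of_integrable_exp_mul (X := fun x : ℕ → ℝ => wkZ m x n) (t := min p q / 2)
    (by positivity) (wk_Z_exp hp hq m n (by linarith) (by linarith))
    (wk_Z_exp hp hq m n (by linarith) (by linarith)) k

theorem wk_mul (m : ℝ) (n j l : ℕ) :
    ∫ x, wkZ m x n ^ j * (x n - m) ^ l ∂(walkM p q) =
      (∫ x, wkZ m x n ^ j ∂(walkM p q)) * ∫ y, (y - m) ^ l ∂(stepLaw p q) := by
  have h0 : IndepFun (∑ i ∈ Finset.range n, fun x : ℕ → ℝ => x i - m) (fun x => x n - m)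
      (walkM p q) :=
    (wk_indep (p := p) (q := q) m).indepFun_finsetSum_of_notMem (fun i => by fun_prop)
      Finset.notMem_range_self
  have e : (∑ i ∈ Finset.range n, fun x : ℕ → ℝ => x i - m) = fun x => wkZ m x n := by
    funext x
    simp only [Finset.sum_apply]
    rfl
  rw [e] at h0
  have h1 : IndepFun (fun x => wkZ m x n ^ j) (fun x : ℕ → ℝ => (x n - m) ^ l) (walkM p q) :=
    h0.comp (φ := fun y => y ^ j) (ψ := fun y => y ^ l) (by fun_prop) (by fun_prop)
  have h2 : Measurable fun x : ℕ → ℝ => (x n - m) ^ l := by fun_prop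
  rw [h1.integral_fun_mul_eq_mul_integral ((wkZ_meas m n).pow_const j).aestronglyMeasurable
    h2.aestronglyMeasurable]
  congr 1
  exact wk_eval_int n (F := fun y => (y - m) ^ l) (by fun_prop)

theorem wk_mul_int (hp : 0 < p) (hq : 0 < q) (m : ℝ) (n j l : ℕ) :
    Integrable (fun x => wkZ m x n ^ j * (x n - m) ^ l) (walkM p q) := by
  have h0 : IndepFun (∑ i ∈ Finset.range n, fun x : ℕ → ℝ => x i - m) (fun x => x n - m)
      (walkM p q) :=
    (wk_indep (p := p) (q := q) m).indepFun_finsetSum_of_notMem (fun i => by fun_prop)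
      Finset.notMem_range_self
  have e : (∑ i ∈ Finset.range n, fun x : ℕ → ℝ => x i - m) = fun x => wkZ m x n := by
    funext x
    simp only [Finset.sum_apply]
    rfl
  rw [e] at h0
  have h1 : IndepFun (fun x => wkZ m x n ^ j) (fun x : ℕ → ℝ => (x n - m) ^ l) (walkM p q) :=
    h0.comp (φ := fun y => y ^ j) (ψ := fun y => y ^ l) (by fun_prop) (by fun_prop)
  exact h1.integrable_mul (wk_Z_int hp hq m n j)
    ((wk_eval (p := p) (q := q) n).integrable_comp_of_integrable (wk_y_int hp hq m l))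

theorem wk_c1 (hp : 0 < p) (hq : 0 < q) :
    ∫ y, (y - (1 / p - 1 / q)) ^ 1 ∂(stepLaw p q) = 0 := by
  have i1 := step_integrable hp hq 1
  simp only [pow_one] at i1 ⊢
  rw [integral_sub i1 (integrable_const _), step_mean hp hq]
  have : IsProbabilityMeasure (stepLaw p q) := inferInstance
  simp

theorem wk_Z1 (hp : 0 < p) (hq : 0 < q) (n : ℕ) :
    ∫ x, wkZ (1 / p - 1 / q) x n ∂(walkM p q) = 0 := by
  induction n with
  | zero => simp [wkZ]
  | succ n ih =>
    have i1 : Integrable (fun x => wkZ (1 / p - 1 / q) x n) (walkM p q) := by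
      simpa using wk_Z_int hp hq (1 / p - 1 / q) n 1
    have i2 : Integrable (fun x : ℕ → ℝ => x n - (1 / p - 1 / q)) (walkM p q) := by
      simpa using wk_mul_int hp hq (1 / p - 1 / q) n 0 1
    have e2 : ∫ x : ℕ → ℝ, (x n - (1 / p - 1 / q)) ∂(walkM p q) = 0 := by
      have := wk_mul (p := p) (q := q) (1 / p - 1 / q) n 0 1
      rw [wk_c1 hp hq] at this
      simpa using this
    simp only [wkZ_succ]
    rw [integral_add i1 i2, ih, e2, add_zero]

theorem wk_Z2 (hp : 0 < p) (hq : 0 < q) (n : ℕ) :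
    ∫ x, wkZ (1 / p - 1 / q) x n ^ 2 ∂(walkM p q) = n * (1 / p ^ 2 + 1 / q ^ 2) := by
  induction n with
  | zero => simp [wkZ]
  | succ n ih =>
    have i20 := wk_mul_int hp hq (1 / p - 1 / q) n 2 0
    have i11 := wk_mul_int hp hq (1 / p - 1 / q) n 1 1
    have i02 := wk_mul_int hp hq (1 / p - 1 / q) n 0 2
    have e20 := wk_mul (p := p) (q := q) (1 / p - 1 / q) n 2 0
    have e11 := wk_mul (p := p) (q := q) (1 / p - 1 / q) n 1 1
    have e02 := wk_mul (p := p) (q := q) (1 / p - 1 / q) n 0 2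
    rw [wk_c1 hp hq, mul_zero] at e11
    rw [wk_v hp hq] at e02
    simp only [pow_zero, mul_one, one_mul, integral_const, probReal_univ, smul_eq_mul]
      at i20 i02 e20 e02
    have e : ∀ x : ℕ → ℝ, wkZ (1 / p - 1 / q) x (n + 1) ^ 2 = (wkZ (1 / p - 1 / q) x n ^ 2 +
        2 * (wkZ (1 / p - 1 / q) x n ^ 1 * (x n - (1 / p - 1 / q)) ^ 1)) +
        (x n - (1 / p - 1 / q)) ^ 2 := by
      intro x
      rw [wkZ_succ]
      ring
    simp only [e]
    rw [integral_add (f := fun x : ℕ → ℝ => wkZ (1 / p - 1 / q) x n ^ 2 +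
        2 * (wkZ (1 / p - 1 / q) x n ^ 1 * (x n - (1 / p - 1 / q)) ^ 1))
      (i20.add (i11.const_mul 2)) i02, integral_add i20 (i11.const_mul 2), integral_const_mul,
      ih, e11, e02]
    push_cast
    ring

theorem wk_Z4 (hp : 0 < p) (hq : 0 < q) (n : ℕ) :
    ∫ x, wkZ (1 / p - 1 / q) x n ^ 4 ∂(walkM p q) = 3 * n * (n - 1) * (1 / p ^ 2 + 1 / q ^ 2) ^ 2 +
      n * ∫ y, (y - (1 / p - 1 / q)) ^ 4 ∂(stepLaw p q) := by
  induction n with
  | zero => simp [wkZ]
  | succ n ih =>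
    have i40 := wk_mul_int hp hq (1 / p - 1 / q) n 4 0
    have i31 := wk_mul_int hp hq (1 / p - 1 / q) n 3 1
    have i22 := wk_mul_int hp hq (1 / p - 1 / q) n 2 2
    have i13 := wk_mul_int hp hq (1 / p - 1 / q) n 1 3
    have i04 := wk_mul_int hp hq (1 / p - 1 / q) n 0 4
    have e31 := wk_mul (p := p) (q := q) (1 / p - 1 / q) n 3 1
    have e22 := wk_mul (p := p) (q := q) (1 / p - 1 / q) n 2 2
    have e13 := wk_mul (p := p) (q := q) (1 / p - 1 / q) n 1 3
    have e04 := wk_mul (p := p) (q := q) (1 / p - 1 / q) n 0 4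
    have z1 : ∫ x, wkZ (1 / p - 1 / q) x n ^ 1 ∂(walkM p q) = 0 := by
      simpa using wk_Z1 hp hq n
    rw [wk_c1 hp hq, mul_zero] at e31
    rw [wk_v hp hq, wk_Z2 hp hq] at e22
    rw [z1, zero_mul] at e13
    simp only [pow_zero, mul_one, one_mul, integral_const, probReal_univ, smul_eq_mul]
      at i40 i04 e04
    have e : ∀ x : ℕ → ℝ, wkZ (1 / p - 1 / q) x (n + 1) ^ 4 = (((wkZ (1 / p - 1 / q) x n ^ 4 +
        4 * (wkZ (1 / p - 1 / q) x n ^ 3 * (x n - (1 / p - 1 / q)) ^ 1)) +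
        6 * (wkZ (1 / p - 1 / q) x n ^ 2 * (x n - (1 / p - 1 / q)) ^ 2)) +
        4 * (wkZ (1 / p - 1 / q) x n ^ 1 * (x n - (1 / p - 1 / q)) ^ 3)) +
        (x n - (1 / p - 1 / q)) ^ 4 := by
      intro x
      rw [wkZ_succ]
      ring
    have j1 := i40.add (i31.const_mul 4)
    have j2 := j1.add (i22.const_mul 6)
    have j3 := j2.add (i13.const_mul 4)
    have f1 := integral_add i40 (i31.const_mul 4)
    have f2 := integral_add j1 (i22.const_mul 6)
    have f3 := integral_add j2 (i13.const_mul 4)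
    have f4 := integral_add j3 i04
    simp only [Pi.add_apply] at f1 f2 f3 f4
    simp only [e]
    rw [f4, f3, f2, f1, integral_const_mul, integral_const_mul, integral_const_mul, ih, e31, e22,
      e13, e04]
    push_cast
    ring

theorem wk_pt {t z : ℝ} (ht : 0 < t) : z ^ 2 ≤ t * |z| + z ^ 4 / t ^ 2 := by
  rcases le_total |z| t with h | h
  · have h1 : z ^ 2 = |z| * |z| := by rw [← sq_abs, sq]
    have h2 : |z| * |z| ≤ t * |z| := mul_le_mul_of_nonneg_right h (abs_nonneg z)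
    have h3 : (0 : ℝ) ≤ z ^ 4 / t ^ 2 := by positivity
    linarith
  · have h1 : t ^ 2 ≤ z ^ 2 := by
      rw [← sq_abs z]
      exact pow_le_pow_left₀ ht.le h 2
    have h2 : z ^ 2 ≤ z ^ 4 / t ^ 2 := by
      rw [le_div_iff₀ (by positivity)]
      have : z ^ 4 = z ^ 2 * z ^ 2 := by ring
      rw [this]
      exact mul_le_mul_of_nonneg_left h1 (sq_nonneg z)
    have h3 : 0 ≤ t * |z| := by positivity
    linarith

end Walk

theorem walk_neg_part {κ : ℝ} (hκ : 0 < κ) : ∃ c₂ : ℝ, 0 < c₂ ∧ ∀ p q : ℝ, κ ≤ p → p ≤ 1 →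
    κ ≤ q → q ≤ 1 → ∀ N : ℕ, 1 ≤ N → |1 / p - 1 / q| * √N ≤ c₂ →
    c₂ * √N ≤ ∫ x, max (-(Sw x N)) 0 ∂(walkM p q) := by
  set M4 : ℝ := ∫ x, (x - 1) ^ 4 ∂E1 with hM4
  have hM0 : 0 ≤ M4 := integral_nonneg fun x => by positivity
  set C0 : ℝ := 12 / κ ^ 4 + 16 * M4 / κ ^ 4 with hC0
  have hC : 0 < C0 := by positivity
  refine ⟨1 / (4 * √C0), by positivity, fun p q hp hp1 hq hq1 N hN hm => ?_⟩
  have hp0 : 0 < p := lt_of_lt_of_le hκ hp
  have hq0 : 0 < q := lt_of_lt_of_le hκ hq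
  have hNr : (1 : ℝ) ≤ N := by exact_mod_cast hN
  have hN0 : (0 : ℝ) < N := by linarith
  set m : ℝ := 1 / p - 1 / q with hmd
  set v : ℝ := 1 / p ^ 2 + 1 / q ^ 2 with hv
  set w : ℝ := ∫ y, (y - m) ^ 4 ∂(stepLaw p q) with hw
  have hv2 : 2 ≤ v := by
    have h1 : 1 ≤ 1 / p ^ 2 := by
      rw [le_div_iff₀ (by positivity), one_mul]
      exact pow_le_one₀ hp0.le hp1
    have h2 : 1 ≤ 1 / q ^ 2 := by
      rw [le_div_iff₀ (by positivity), one_mul]
      exact pow_le_one₀ hq0.le hq1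
    rw [hv]
    linarith
  have hvk : v ≤ 2 / κ ^ 2 := by
    have h1 : 1 / p ^ 2 ≤ 1 / κ ^ 2 := by gcongr
    have h2 : 1 / q ^ 2 ≤ 1 / κ ^ 2 := by gcongr
    have h3 : 2 / κ ^ 2 = 1 / κ ^ 2 + 1 / κ ^ 2 := by ring
    rw [h3, hv]
    linarith
  have hw4 : w ≤ 16 * M4 / κ ^ 4 := wk_w hκ hp hq
  have hw0 : 0 ≤ w := integral_nonneg fun x => by positivity
  have hZ2 : ∫ x, wkZ m x N ^ 2 ∂(walkM p q) = N * v := wk_Z2 hp0 hq0 N
  have hZ4 : ∫ x, wkZ m x N ^ 4 ∂(walkM p q) ≤ C0 * N ^ 2 := by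
    rw [wk_Z4 hp0 hq0 N]
    have h1 : (1 / p ^ 2 + 1 / q ^ 2) ^ 2 ≤ 4 / κ ^ 4 := by
      have : (4 : ℝ) / κ ^ 4 = (2 / κ ^ 2) ^ 2 := by
        rw [div_pow]
        ring
      rw [this]
      exact pow_le_pow_left₀ (by linarith) hvk 2
    have h2 : 3 * (N : ℝ) * (N - 1) * (1 / p ^ 2 + 1 / q ^ 2) ^ 2 ≤ 3 * N * N * (4 / κ ^ 4) := by
      have h3 : 0 ≤ (N : ℝ) - 1 := by linarith
      have h4 : (N : ℝ) - 1 ≤ N := by linarith
      gcongr
    have h5 : (N : ℝ) * w ≤ N * N * (16 * M4 / κ ^ 4) := by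
      have h6 : (N : ℝ) * 1 ≤ N * N := by gcongr
      calc (N : ℝ) * w ≤ N * (16 * M4 / κ ^ 4) := by gcongr
        _ = N * 1 * (16 * M4 / κ ^ 4) := by ring
        _ ≤ N * N * (16 * M4 / κ ^ 4) := mul_le_mul_of_nonneg_right h6 (by positivity)
    calc _ ≤ 3 * (N : ℝ) * N * (4 / κ ^ 4) + N * N * (16 * M4 / κ ^ 4) := add_le_add h2 h5
      _ = C0 * N ^ 2 := by
        rw [hC0]
        ring
  have iZ1 : Integrable (fun x => wkZ m x N) (walkM p q) := by
    simpa using wk_Z_int hp0 hq0 m N 1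
  have iZ2 := wk_Z_int hp0 hq0 m N 2
  have iZ4 := wk_Z_int hp0 hq0 m N 4
  set t : ℝ := √C0 * √N with ht
  have ht0 : 0 < t := by positivity
  have ht2 : t ^ 2 = C0 * N := by
    rw [ht, mul_pow, Real.sq_sqrt hC.le, Real.sq_sqrt hN0.le]
  have hA : N * v ≤ t * ∫ x, |wkZ m x N| ∂(walkM p q) + N := by
    have h1 : ∫ x, wkZ m x N ^ 2 ∂(walkM p q) ≤
        ∫ x, (t * |wkZ m x N| + wkZ m x N ^ 4 / t ^ 2) ∂(walkM p q) :=
      integral_mono iZ2 ((iZ1.abs.const_mul t).add (iZ4.div_const _)) fun x => wk_pt ht0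
    rw [integral_add (iZ1.abs.const_mul t) (iZ4.div_const _), integral_const_mul, integral_div,
      hZ2] at h1
    have h2 : (∫ x, wkZ m x N ^ 4 ∂(walkM p q)) / t ^ 2 ≤ N := by
      rw [div_le_iff₀ (by positivity), ht2]
      calc _ ≤ _ := hZ4
        _ = N * (C0 * N) := by ring
    linarith
  have hB : √N / √C0 ≤ ∫ x, |wkZ m x N| ∂(walkM p q) := by
    have h1 : (N : ℝ) ≤ t * ∫ x, |wkZ m x N| ∂(walkM p q) := by nlinarith
    rw [div_le_iff₀ (by positivity)]
    have h2 : √(N : ℝ) * √N = N := Real.mul_self_sqrt hN0.le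
    have h3 : √(N : ℝ) * √N ≤ √N * ((∫ x, |wkZ m x N| ∂(walkM p q)) * √C0) := by
      rw [h2]
      refine h1.trans (le_of_eq ?_)
      rw [ht]
      ring
    exact le_of_mul_le_mul_left h3 (by positivity)
  have hD : ∫ x, max (-(wkZ m x N)) 0 ∂(walkM p q) = (∫ x, |wkZ m x N| ∂(walkM p q)) / 2 := by
    have e : ∀ x : ℕ → ℝ, max (-(wkZ m x N)) 0 = (|wkZ m x N| - wkZ m x N) / 2 := by
      intro x
      rcases le_total 0 (wkZ m x N) with h | h
      · rw [max_eq_right (by linarith), abs_of_nonneg h]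
        ring
      · rw [max_eq_left (by linarith), abs_of_nonpos h]
        ring
    simp only [e]
    rw [integral_div, integral_sub iZ1.abs iZ1, wk_Z1 hp0 hq0 N, sub_zero]
  have iS : Integrable (fun x => Sw x N) (walkM p q) := by
    have : (fun x => Sw x N) = fun x => wkZ m x N + N * m := by
      funext x
      rw [wkZ_eq]
      ring
    rw [this]
    exact iZ1.add (integrable_const _)
  have hE : ∫ x, max (-(wkZ m x N)) 0 ∂(walkM p q) - N * |m| ≤
      ∫ x, max (-(Sw x N)) 0 ∂(walkM p q) := by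
    have h1 : ∫ x, (max (-(wkZ m x N)) 0 - N * |m|) ∂(walkM p q) ≤
        ∫ x, max (-(Sw x N)) 0 ∂(walkM p q) := by
      refine integral_mono (iZ1.neg.pos_part.sub (integrable_const _)) iS.neg.pos_part fun x => ?_
      change max (-(wkZ m x N)) 0 - N * |m| ≤ max (-(Sw x N)) 0
      rw [wkZ_eq]
      have h2 : (N : ℝ) * m ≤ N * |m| := by
        gcongr
        exact le_abs_self m
      have h3 : 0 ≤ (N : ℝ) * |m| := by positivity
      rw [sub_le_iff_le_add]
      refine max_le ?_ ?_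
      · have := le_max_left (-(Sw x N)) 0
        linarith
      · have := le_max_right (-(Sw x N)) 0
        linarith
    have h5 : ∫ x, (max (-(wkZ m x N)) 0 - N * |m|) ∂(walkM p q) =
        ∫ x, max (-(wkZ m x N)) 0 ∂(walkM p q) - N * |m| := by
      rw [integral_sub (f := fun x => max (-(wkZ m x N)) 0) iZ1.neg.pos_part (integrable_const _)]
      simp
    rwa [h5] at h1
  have hF : (N : ℝ) * |m| ≤ 1 / (4 * √C0) * √N := by
    have h2 : √(N : ℝ) * √N = N := Real.mul_self_sqrt hN0.le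
    calc (N : ℝ) * |m| = (|m| * √N) * √N := by rw [mul_assoc, h2]; ring
      _ ≤ 1 / (4 * √C0) * √N := by gcongr
  have hG : √(N : ℝ) / √C0 / 2 - 1 / (4 * √C0) * √N = 1 / (4 * √C0) * √N := by
    have : √C0 ≠ 0 := by positivity
    field_simp
    ring
  rw [hD] at hE
  linarith

end BGE
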