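import Pool.Agent.BGE.Dyn
import Pool.Agent.BGE.Meas
import Pool.Agent.BGE.Walk

/-!
BGE / N3. Linear statistics of the dynamics (martingales).

Let `F` be a finite set of sites, `Z i = ∑_{v ∈ F} (dyn η x i v - 1)`, `0 < η ≤ 1`, `M η ≤ 1`.
`E[dyn (i+1) v - 1 | past] = e^{-η} (dyn i v - 1)` (the refresh probability is `1 - e^{-η}`, the
fresh weight has mean 1), so `e^{iη} Z i` is a martingale; `E (Z i)² = |F|`.

* `lin_max`: `P(∃ i ≤ M, |Z i| ≥ a) ≤ 8 |F|/a²` (Doob: `P(max e^{iη} |Z i| ≥ a) ≤ e² |F|/a²`).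
* `row_max`: for an ordering `v 0, ..., v (k-1)` of distinct sites, `S j i = ∑_{u < j} (dyn i (v u) - 1)`:
  `P(∃ i ≤ M, ∃ j ≤ k, |S j i| ≥ a) ≤ 40 k/a²`. Proof: `max_j |e^{iη} S j i|` is a nonnegative
  submartingale in `i` (maximum of absolute values of martingales), so Doob's inequality in `i` and
  Doob's L² inequality in `j` at the time `M` give `e² 4 k/a² ≤ 40 k/a²`. (Instead of the L² maximal
  inequality one may use any argument which gives a constant times `k/a²`; e.g.
  `E max_j (S_j)² ≤ 4 E (S_k)²`.)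
-/

namespace BGE

open MeasureTheory ProbabilityTheory

/-! ### independence, integral form -/

section Ind

variable {ι : Type*}

private def rmDep (S : Set ι) (g : (ι → ℝ) → ℝ) : Prop :=
  ∀ x y : ι → ℝ, (∀ i ∈ S, x i = y i) → g x = g y

private theorem rm_glue {S : Set ι} {f g : (ι → ℝ) → ℝ} (hf : rmDep S f) (hg : rmDep Sᶜ g)
    (z : (ι → ℝ) × (ι → ℝ)) : f (glue S z.1 z.2) * g (glue S z.1 z.2) = f z.1 * g z.2 := by
  have h1 : f (glue S z.1 z.2) = f z.1 := hf _ _ fun i hi => by rw [glue, if_pos hi]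
  have h2 : g (glue S z.1 z.2) = g z.2 := hg _ _ fun i hi => by rw [glue, if_neg hi]
  rw [h1, h2]

private theorem rm_ind {S : Set ι} {f g : (ι → ℝ) → ℝ} (hfm : Measurable f) (hgm : Measurable g)
    (hf : rmDep S f) (hg : rmDep Sᶜ g) :
    ∫ x, f x * g x ∂PI ι = (∫ x, f x ∂PI ι) * ∫ x, g x ∂PI ι := by
  have h := measurePreserving_glue (fun _ : ι => E1) S
  have h1 : ∫ x, f x * g x ∂PI ι =
      ∫ z, f (glue S z.1 z.2) * g (glue S z.1 z.2) ∂((PI ι).prod (PI ι)) := by
    have h2 := integral_map (μ := (Measure.infinitePi fun _ : ι => E1).prod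
      (Measure.infinitePi fun _ : ι => E1)) (f := fun x => f x * g x) h.measurable.aemeasurable
      (hfm.mul hgm).aestronglyMeasurable
    rw [h.map_eq] at h2
    exact h2
  rw [h1]
  simp_rw [rm_glue hf hg]
  exact integral_prod_mul f g

/-- the same with the sets of coordinates given -/
private theorem rm_ind' {S T : Set ι} (hST : Disjoint S T) {f g : (ι → ℝ) → ℝ}
    (hfm : Measurable f) (hgm : Measurable g)
    (hf : rmDep S f) (hg : rmDep T g) :
    ∫ x, f x * g x ∂PI ι = (∫ x, f x ∂PI ι) * ∫ x, g x ∂PI ι :=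
  rm_ind hfm hgm hf fun x y h => hg x y fun i hi => h i fun hi' => Set.disjoint_left.1 hST hi' hi

end Ind

/-! ### one coordinate -/

private theorem rm_memLp1 : MemLp (fun x : ℝ => x - 1) 2 E1 :=
  (memLp_two_iff_integrable_sq (by fun_prop)).2 (wk_u_int 2)

private theorem rm_eval {ι : Type*} (v : ι) : MeasurePreserving (fun x : ι → ℝ => x v) (PI ι) E1 :=
  measurePreserving_eval_infinitePi (fun _ : ι => E1) v

private theorem rm_memLp {ι : Type*} (v : ι) : MemLp (fun x : ι → ℝ => x v - 1) 2 (PI ι) :=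
  rm_memLp1.comp_measurePreserving (rm_eval v)

private theorem rm_int {ι : Type*} (v : ι) {F : ℝ → ℝ} (hF : Measurable F) :
    ∫ x : ι → ℝ, F (x v) ∂PI ι = ∫ y, F y ∂E1 := by
  have h := rm_eval v
  have h2 := integral_map (μ := PI ι) (f := F) h.measurable.aemeasurable hF.aestronglyMeasurable
  rw [h.map_eq] at h2
  exact h2.symm

private theorem rm_mean {ι : Type*} (v : ι) : ∫ x : ι → ℝ, (x v - 1) ∂PI ι = 0 :=
  (rm_int v (F := fun y => y - 1) (by fun_prop)).trans wk_u1

private theorem rm_var {ι : Type*} (v : ι) : ∫ x : ι → ℝ, (x v - 1) ^ 2 ∂PI ι = 1 :=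
  (rm_int v (F := fun y => (y - 1) ^ 2) (by fun_prop)).trans wk_u2

private theorem rm_im {α : Type*} [MeasurableSpace α] {μ : Measure α} {f g : α → ℝ}
    (hf : MemLp f 2 μ) (hg : MemLp g 2 μ) : Integrable (fun x => f x * g x) μ :=
  hf.integrable_mul hg

/-! ### second moments of sums -/

private theorem rm_sum_memLp {ι : Type*} (F : Finset ι) :
    MemLp (fun x : ι → ℝ => ∑ v ∈ F, (x v - 1)) 2 (PI ι) :=
  memLp_finsetSum _ fun v _ => rm_memLp v

private theorem rm_sum_sq {ι : Type*} (F : Finset ι) :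
    ∫ x : ι → ℝ, (∑ v ∈ F, (x v - 1)) ^ 2 ∂PI ι = F.card := by
  classical
  induction F using Finset.induction_on with
  | empty => simp
  | insert v F hv ih =>
    have h1 : ∀ x : ι → ℝ, (∑ u ∈ insert v F, (x u - 1)) ^ 2 =
        (x v - 1) ^ 2 + 2 * ((x v - 1) * ∑ u ∈ F, (x u - 1)) + (∑ u ∈ F, (x u - 1)) ^ 2 := by
      intro x
      rw [Finset.sum_insert hv]
      ring
    have h2 : ∫ x : ι → ℝ, (x v - 1) * ∑ u ∈ F, (x u - 1) ∂PI ι = 0 := by
      rw [rm_ind' (S := {v}) (T := (F : Set ι))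
        (by rw [Set.disjoint_singleton_left]; exact_mod_cast hv) (by fun_prop) (by fun_prop)
        (fun x y h => by rw [h v rfl])
        (fun x y h => Finset.sum_congr rfl fun u hu => by rw [h u (by exact_mod_cast hu)]),
        rm_mean, zero_mul]
    have i1 : Integrable (fun x : ι → ℝ => (x v - 1) ^ 2) (PI ι) := (rm_memLp v).integrable_sq
    have i2 : Integrable (fun x : ι → ℝ => 2 * ((x v - 1) * ∑ u ∈ F, (x u - 1))) (PI ι) :=
      (rm_im (rm_memLp v) (rm_sum_memLp F)).const_mul 2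
    have i3 : Integrable (fun x : ι → ℝ => (∑ u ∈ F, (x u - 1)) ^ 2) (PI ι) :=
      (rm_sum_memLp F).integrable_sq
    have i4 : Integrable (fun x : ι → ℝ => (x v - 1) ^ 2 +
      2 * ((x v - 1) * ∑ u ∈ F, (x u - 1))) (PI ι) := i1.add i2
    simp_rw [h1]
    rw [integral_add i4 i3, integral_add i1 i2, integral_const_mul, h2, ih, rm_var,
      Finset.card_insert_of_notMem hv]
    push_cast
    ring

/-! ### the maximal function of a walk (L² inequality) -/

/-- running maximum of absolute values -/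
private noncomputable def rmMx (s : ℕ → ℝ) : ℕ → ℝ
  | 0 => 0
  | j + 1 => max (rmMx s j) |s (j + 1)|

private theorem rmMx_nonneg (s : ℕ → ℝ) (j : ℕ) : 0 ≤ rmMx s j := by
  induction j with
  | zero => exact le_rfl
  | succ j ih => exact ih.trans (le_max_left _ _)

private theorem rmMx_le (s : ℕ → ℝ) (h0 : s 0 = 0) {i j : ℕ} (hij : i ≤ j) :
    |s i| ≤ rmMx s j := by
  induction j with
  | zero =>
    obtain rfl : i = 0 := by omega
    rw [h0, abs_zero]
    exact le_rfl
  | succ j ih =>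
    rcases Nat.lt_or_ge j i with h | h
    · obtain rfl : i = j + 1 := by omega
      exact le_max_right _ _
    · exact (ih h).trans (le_max_left _ _)

private theorem rmMx_path (s : ℕ → ℝ) (n : ℕ) :
    2 * ∑ j ∈ Finset.range n, rmMx s j * (|s (j + 1)| - |s j|) ≤
      2 * rmMx s n * |s n| - rmMx s n ^ 2 := by
  induction n with
  | zero => simp [rmMx]
  | succ n ih =>
    rw [Finset.sum_range_succ, rmMx]
    rcases le_total |s (n + 1)| (rmMx s n) with h | h
    · rw [max_eq_left h]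
      nlinarith
    · rw [max_eq_right h]
      nlinarith [sq_nonneg (|s (n + 1)| - rmMx s n)]

private theorem rmMx_sq (s : ℕ → ℝ) (n : ℕ) :
    rmMx s n ^ 2 ≤ 4 * s n ^ 2 -
      4 * ∑ j ∈ Finset.range n, rmMx s j * (if 0 ≤ s j then 1 else -1) * (s (j + 1) - s j) := by
  have h1 := rmMx_path s n
  have h2 : ∑ j ∈ Finset.range n, rmMx s j * (if 0 ≤ s j then 1 else -1) * (s (j + 1) - s j) ≤
      ∑ j ∈ Finset.range n, rmMx s j * (|s (j + 1)| - |s j|) := by
    refine Finset.sum_le_sum fun j _ => ?_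
    rw [mul_assoc]
    refine mul_le_mul_of_nonneg_left ?_ (rmMx_nonneg s j)
    split_ifs with h
    · rw [abs_of_nonneg h]
      linarith [le_abs_self (s (j + 1))]
    · rw [abs_of_neg (not_le.1 h)]
      linarith [neg_abs_le (s (j + 1))]
  have h3 : |s n| ^ 2 = s n ^ 2 := sq_abs _
  nlinarith [sq_nonneg (rmMx s n - 2 * |s n|)]

section Row

variable (v : ℕ → ℤ × ℤ)

/-- partial sums along a row -/
private noncomputable def rmS (x : ℤ × ℤ → ℝ) (j : ℕ) : ℝ := ∑ u ∈ Finset.range j, (x (v u) - 1)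

private theorem rmS_meas (j : ℕ) : Measurable fun x => rmS v x j := by
  unfold rmS
  fun_prop

private theorem rmS_dep (j : ℕ) : rmDep (v '' {u | u < j}) (fun x => rmS v x j) := by
  intro x y h
  refine Finset.sum_congr rfl fun u hu => ?_
  rw [h (v u) ⟨u, Finset.mem_range.1 hu, rfl⟩]

private theorem rmS_memLp (j : ℕ) : MemLp (fun x => rmS v x j) 2 (PI (ℤ × ℤ)) :=
  memLp_finsetSum _ fun u _ => rm_memLp (v u)

private theorem rmM_meas (j : ℕ) : Measurable fun x => rmMx (rmS v x) j := by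
  induction j with
  | zero => exact measurable_const
  | succ j ih => exact ih.max (rmS_meas v (j + 1)).abs

private theorem rmM_dep (j : ℕ) : rmDep (v '' {u | u < j}) (fun x => rmMx (rmS v x) j) := by
  induction j with
  | zero => exact fun _ _ _ => rfl
  | succ j ih =>
    intro x y h
    change max (rmMx (rmS v x) j) |rmS v x (j + 1)| = max (rmMx (rmS v y) j) |rmS v y (j + 1)|
    rw [show rmMx (rmS v x) j = rmMx (rmS v y) j from ih x y fun i hi => h i
      (Set.image_mono (fun u (hu : u < j) => (by exact hu.trans (Nat.lt_succ_self j) : u < j + 1)) hi),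
      show rmS v x (j + 1) = rmS v y (j + 1) from rmS_dep v (j + 1) x y h]

private theorem rmM_memLp (j : ℕ) : MemLp (fun x => rmMx (rmS v x) j) 2 (PI (ℤ × ℤ)) := by
  induction j with
  | zero => exact MemLp.zero' (p := 2)
  | succ j ih => exact ih.sup (rmS_memLp v (j + 1)).abs

private theorem rmM_int {k : ℕ} (hv : Set.InjOn v {u | u < k}) :
    ∫ x, rmMx (rmS v x) k ^ 2 ∂PI (ℤ × ℤ) ≤ 4 * k := by
  classical
  set sg : ℕ → (ℤ × ℤ → ℝ) → ℝ := fun j x => if 0 ≤ rmS v x j then 1 else -1 with hsg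
  have hsgm : ∀ j, Measurable (sg j) := fun j =>
    Measurable.ite (measurableSet_le measurable_const (rmS_meas v j)) measurable_const
      measurable_const
  have hstep : ∀ j (x : ℤ × ℤ → ℝ), rmS v x (j + 1) - rmS v x j = x (v j) - 1 := by
    intro j x
    unfold rmS
    rw [Finset.sum_range_succ]
    ring
  have hpt : ∀ x : ℤ × ℤ → ℝ, rmMx (rmS v x) k ^ 2 ≤ 4 * rmS v x k ^ 2 -
      4 * ∑ j ∈ Finset.range k, (rmMx (rmS v x) j * sg j x) * (x (v j) - 1) := by
    intro x
    have h := rmMx_sq (rmS v x) k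
    simp only [hstep] at h
    exact h
  have hmem : ∀ j, MemLp (fun x => rmMx (rmS v x) j * sg j x) 2 (PI (ℤ × ℤ)) := by
    intro j
    refine (rmM_memLp v j).mono' ((rmM_meas v j).mul (hsgm j)).aestronglyMeasurable
      (Filter.Eventually.of_forall fun x => ?_)
    rw [Real.norm_eq_abs, abs_mul, abs_of_nonneg (rmMx_nonneg _ _)]
    have : |sg j x| = 1 := by
      simp only [hsg]
      split_ifs <;> simp
    rw [this, mul_one]
  have hint : ∀ j, Integrable (fun x => (rmMx (rmS v x) j * sg j x) * (x (v j) - 1))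
      (PI (ℤ × ℤ)) := fun j => rm_im (hmem j) (rm_memLp (v j))
  have hzero : ∀ j ∈ Finset.range k,
      ∫ x, (rmMx (rmS v x) j * sg j x) * (x (v j) - 1) ∂PI (ℤ × ℤ) = 0 := by
    intro j hj
    have hjk : j < k := Finset.mem_range.1 hj
    rw [rm_ind' (S := v '' {u | u < j}) (T := {v j}) (f := fun x => rmMx (rmS v x) j * sg j x)
      (g := fun x => x (v j) - 1) ?_ ((rmM_meas v j).mul (hsgm j))
      (by fun_prop) ?_ (fun x y h => congrArg (fun t => t - 1) (h (v j) rfl)), rm_mean, mul_zero]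
    · rw [Set.disjoint_singleton_right]
      rintro ⟨u, hu, huv⟩
      have hu' : u < j := hu
      have := hv (show u < k from hu'.trans hjk) (show j < k from hjk) huv
      omega
    · intro x y h
      have h1 : rmMx (rmS v x) j = rmMx (rmS v y) j := rmM_dep v j x y h
      have h2 : rmS v x j = rmS v y j := rmS_dep v j x y h
      simp only [hsg]
      rw [h1, h2]
  have hSk : ∫ x, rmS v x k ^ 2 ∂PI (ℤ × ℤ) = k := by
    have h1 : ∀ x : ℤ × ℤ → ℝ, rmS v x k = ∑ w ∈ (Finset.range k).image v, (x w - 1) := by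
      intro x
      rw [Finset.sum_image]
      · rfl
      · intro a ha b hb hab
        exact hv (by simpa using ha) (by simpa using hb) hab
    simp_rw [h1]
    rw [rm_sum_sq, Finset.card_image_of_injOn, Finset.card_range]
    intro a ha b hb hab
    exact hv (by simpa using ha) (by simpa using hb) hab
  have i1 : Integrable (fun x => 4 * rmS v x k ^ 2) (PI (ℤ × ℤ)) :=
    (rmS_memLp v k).integrable_sq.const_mul 4
  have i2 : Integrable (fun x => 4 * ∑ j ∈ Finset.range k,
      (rmMx (rmS v x) j * sg j x) * (x (v j) - 1)) (PI (ℤ × ℤ)) :=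
    (integrable_finsetSum _ fun j _ => hint j).const_mul 4
  calc ∫ x, rmMx (rmS v x) k ^ 2 ∂PI (ℤ × ℤ)
      ≤ ∫ x, (4 * rmS v x k ^ 2 -
        4 * ∑ j ∈ Finset.range k, (rmMx (rmS v x) j * sg j x) * (x (v j) - 1)) ∂PI (ℤ × ℤ) :=
        integral_mono (rmM_memLp v k).integrable_sq (i1.sub i2) hpt
    _ = 4 * k := by
        rw [integral_sub i1 i2, integral_const_mul, integral_const_mul,
          integral_finsetSum _ fun j _ => hint j, Finset.sum_eq_zero hzero, hSk]
        ring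

end Row

/-! ### the martingale property -/

/-- noise up to the time `l` -/
private def rmP (l : ℕ) : Set DI := {p | p.2.1 ≤ l}

private noncomputable def rmD (η : ℝ) (i : ℕ) (v : ℤ × ℤ) (x : DI → ℝ) : ℝ := dyn η x i v - 1

private theorem rmD_meas (η : ℝ) (i : ℕ) (v : ℤ × ℤ) : Measurable (rmD η i v) :=
  ((measurable_pi_apply v).comp (measurable_dyn η i)).sub_const 1

private theorem rmD_dep (η : ℝ) (i : ℕ) (v : ℤ × ℤ) : rmDep (rmP i) (rmD η i v) := by
  intro x y h
  unfold rmD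
  rw [dyn_eq, dyn_eq, dyn1_congr η i fun p hp => h (v, p) hp]

private theorem rmD_memLp (η : ℝ) (i : ℕ) (v : ℤ × ℤ) : MemLp (rmD η i v) 2 (PI DI) :=
  (rm_memLp v).comp_measurePreserving (dyn_law η i)

private theorem rmD_step {η : ℝ} (hη : 0 ≤ η) {l : ℕ} (v : ℤ × ℤ) {g : (DI → ℝ) → ℝ}
    (hg : Measurable g) (hg2 : MemLp g 2 (PI DI)) (hgd : rmDep (rmP l) g) :
    ∫ x, g x * rmD η (l + 1) v x ∂PI DI = Real.exp (-η) * ∫ x, g x * rmD η l v x ∂PI DI := by
  classical
  set p0 : DI := (v, l + 1, false) with hp0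
  set p1 : DI := (v, l + 1, true) with hp1
  set c : (DI → ℝ) → ℝ := fun x => if x p0 < η then 1 else 0 with hc
  have hcm : Measurable c := Measurable.ite
    (measurableSet_lt (measurable_pi_apply _) measurable_const) measurable_const measurable_const
  have hcm' : Measurable fun x => 1 - c x := measurable_const.sub hcm
  have hm1 : Measurable fun x : DI → ℝ => x p1 - 1 := by fun_prop
  have hcb : ∀ x, |c x| ≤ 1 := by
    intro x
    simp only [hc]
    split_ifs <;> simp
  have hcb' : ∀ x, |1 - c x| ≤ 1 := by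
    intro x
    simp only [hc]
    split_ifs <;> simp
  have hpt : ∀ x, g x * rmD η (l + 1) v x =
      g x * (c x * (x p1 - 1)) + (g x * rmD η l v x) * (1 - c x) := by
    intro x
    unfold rmD
    simp only [dyn, hc, hp0, hp1]
    split_ifs with h
    · ring
    · ring
  have hm2 : MemLp (fun x => c x * (x p1 - 1)) 2 (PI DI) := by
    refine (rm_memLp p1).mono (hcm.mul hm1).aestronglyMeasurable
      (Filter.Eventually.of_forall fun x => ?_)
    rw [Real.norm_eq_abs, Real.norm_eq_abs, abs_mul]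
    exact mul_le_of_le_one_left (abs_nonneg _) (hcb x)
  have hm3 : Integrable (fun x => g x * rmD η l v x) (PI DI) := hg2.integrable_mul (rmD_memLp η l v)
  have hm4 : Integrable (fun x => (g x * rmD η l v x) * (1 - c x)) (PI DI) := by
    refine hm3.mono ((hg.mul (rmD_meas η l v)).mul hcm').aestronglyMeasurable
      (Filter.Eventually.of_forall fun x => ?_)
    rw [Real.norm_eq_abs, Real.norm_eq_abs, abs_mul]
    exact mul_le_of_le_one_right (abs_nonneg _) (hcb' x)
  have hd0 : Disjoint (rmP l) {p0} := by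
    rw [Set.disjoint_singleton_right]
    intro h
    have : l + 1 ≤ l := h
    omega
  have hd01 : Disjoint (rmP l) {p0, p1} := by
    rw [Set.disjoint_left]
    rintro p hp (rfl | rfl)
    · have : l + 1 ≤ l := hp
      omega
    · have : l + 1 ≤ l := hp
      omega
  have hcd : rmDep {p0} c := by
    intro x y h
    simp only [hc]
    rw [h p0 rfl]
  have hcd' : rmDep {p0} fun x => 1 - c x := by
    intro x y h
    change 1 - c x = 1 - c y
    rw [hcd x y h]
  have e1 : ∫ x, c x * (x p1 - 1) ∂PI DI = 0 := by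
    rw [rm_ind' (S := {p0}) (T := {p1}) ?_ hcm hm1 hcd (fun x y h => by rw [h p1 rfl]), rm_mean,
      mul_zero]
    rw [Set.disjoint_singleton]
    simp [hp0, hp1]
  have e2 : ∫ x, (1 - c x) ∂PI DI = Real.exp (-η) := by
    have h1 : (fun x : DI → ℝ => 1 - c x) =
        fun x => (Set.Ici η).indicator (fun _ => (1 : ℝ)) (x p0) := by
      funext x
      simp only [hc, Set.indicator, Set.mem_Ici]
      by_cases h : x p0 < η
      · rw [if_pos h, if_neg (not_le.2 h)]
        ring
      · rw [if_neg h, if_pos (not_lt.1 h)]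
        ring
    rw [h1, rm_int p0 (F := (Set.Ici η).indicator fun _ => (1 : ℝ))
      (measurable_const.indicator measurableSet_Ici), integral_indicator_const _ measurableSet_Ici,
      smul_eq_mul, mul_one, Measure.real, dyn_Ici hη, ENNReal.toReal_ofReal (Real.exp_pos _).le]
  have e3 : ∫ x, g x * (c x * (x p1 - 1)) ∂PI DI = 0 := by
    rw [rm_ind' (S := rmP l) (T := {p0, p1}) (g := fun x => c x * (x p1 - 1)) hd01 hg
      (hcm.mul hm1) hgd, e1, mul_zero]
    intro x y h
    change c x * (x p1 - 1) = c y * (y p1 - 1)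
    rw [hcd x y fun i hi => h i (Or.inl hi), h p1 (Or.inr rfl)]
  have e4 : ∫ x, (g x * rmD η l v x) * (1 - c x) ∂PI DI =
      (∫ x, g x * rmD η l v x ∂PI DI) * Real.exp (-η) := by
    rw [rm_ind' (S := rmP l) (T := {p0}) (f := fun x => g x * rmD η l v x) hd0
      (hg.mul (rmD_meas η l v)) hcm' ?_ hcd', e2]
    intro x y h
    change g x * rmD η l v x = g y * rmD η l v y
    rw [hgd x y h, rmD_dep η l v x y h]
  simp_rw [hpt]
  rw [integral_add (rm_im hg2 hm2) hm4, e3, e4]
  ring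

private theorem rmD_iter {η : ℝ} (hη : 0 ≤ η) {i M : ℕ} (hiM : i ≤ M) (v : ℤ × ℤ)
    {g : (DI → ℝ) → ℝ} (hg : Measurable g) (hg2 : MemLp g 2 (PI DI)) (hgd : rmDep (rmP i) g) :
    ∫ x, g x * rmD η M v x ∂PI DI =
      Real.exp (-(((M - i : ℕ) : ℝ) * η)) * ∫ x, g x * rmD η i v x ∂PI DI := by
  induction M, hiM using Nat.le_induction with
  | base => simp
  | succ M hM ih =>
    have hgd' : rmDep (rmP M) g := fun x y h => hgd x y fun p hp => h p (le_trans hp hM)
    rw [rmD_step hη v hg hg2 hgd', ih, ← mul_assoc, ← Real.exp_add]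
    congr 2
    rw [show M + 1 - i = (M - i) + 1 by omega]
    push_cast
    ring

/-- one statistic -/
private noncomputable def rmR (η : ℝ) (F : Finset (ℤ × ℤ)) (i : ℕ) (x : DI → ℝ) : ℝ :=
  ∑ v ∈ F, rmD η i v x

private theorem rmR_meas (η : ℝ) (F : Finset (ℤ × ℤ)) (i : ℕ) : Measurable (rmR η F i) := by
  unfold rmR
  exact Finset.measurable_fun_sum _ fun v _ => rmD_meas η i v

private theorem rmR_dep (η : ℝ) (F : Finset (ℤ × ℤ)) (i : ℕ) : rmDep (rmP i) (rmR η F i) :=
  fun x y h => Finset.sum_congr rfl fun v _ => rmD_dep η i v x y h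

private theorem rmR_memLp (η : ℝ) (F : Finset (ℤ × ℤ)) (i : ℕ) : MemLp (rmR η F i) 2 (PI DI) :=
  memLp_finsetSum _ fun v _ => rmD_memLp η i v

/-- the basic inequality -/
private theorem rm_basic {η : ℝ} (hη : 0 ≤ η) {i M : ℕ} (hiM : i ≤ M) (hM : M * η ≤ 1)
    (F : Finset (ℤ × ℤ)) {A : Set (DI → ℝ)} (hA : MeasurableSet A) (hAd : DepOn (rmP i) A) :
    ∫ x in A, rmR η F i x ^ 2 ∂PI DI ≤ Real.exp 2 * ∫ x in A, rmR η F M x ^ 2 ∂PI DI := by
  classical
  set c : ℝ := Real.exp (-(((M - i : ℕ) : ℝ) * η)) with hc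
  have hc0 : 0 < c := Real.exp_pos _
  set g : (DI → ℝ) → ℝ := A.indicator (rmR η F i) with hg
  have hgm : Measurable g := (rmR_meas η F i).indicator hA
  have hg2 : MemLp g 2 (PI DI) := (rmR_memLp η F i).indicator hA
  have hgd : rmDep (rmP i) g := by
    intro x y h
    simp only [hg, Set.indicator]
    by_cases hx : x ∈ A
    · rw [if_pos hx, if_pos ((hAd x y h).1 hx), rmR_dep η F i x y h]
    · rw [if_neg hx, if_neg fun hy => hx ((hAd x y h).2 hy)]
  have h1 : ∫ x, g x * rmR η F M x ∂PI DI = c * ∫ x, g x * rmR η F i x ∂PI DI := by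
    have h2 : ∀ j, ∫ x, g x * rmR η F j x ∂PI DI = ∑ v ∈ F, ∫ x, g x * rmD η j v x ∂PI DI := by
      intro j
      rw [← integral_finsetSum _ fun v _ => rm_im hg2 (rmD_memLp η j v)]
      refine integral_congr_ae (Filter.Eventually.of_forall fun x => ?_)
      simp only [rmR, Finset.mul_sum]
    rw [h2, h2, Finset.mul_sum]
    exact Finset.sum_congr rfl fun v _ => rmD_iter hη hiM v hgm hg2 hgd
  set I1 : ℝ := ∫ x in A, rmR η F i x ^ 2 ∂PI DI with hI1
  set I2 : ℝ := ∫ x in A, rmR η F M x ^ 2 ∂PI DI with hI2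
  have hI2nn : 0 ≤ I2 := integral_nonneg fun x => sq_nonneg _
  have h3 : ∫ x, g x * rmR η F i x ∂PI DI = I1 := by
    rw [hI1, ← integral_indicator hA]
    refine integral_congr_ae (Filter.Eventually.of_forall fun x => ?_)
    simp only [hg, Set.indicator]
    split_ifs <;> ring
  have h4 : ∫ x, g x * rmR η F M x ∂PI DI = ∫ x in A, rmR η F i x * rmR η F M x ∂PI DI := by
    rw [← integral_indicator hA]
    refine integral_congr_ae (Filter.Eventually.of_forall fun x => ?_)
    simp only [hg, Set.indicator]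
    split_ifs <;> ring
  have j1 : Integrable (fun x => rmR η F i x ^ 2) ((PI DI).restrict A) :=
    (rmR_memLp η F i).integrable_sq.integrableOn
  have j2 : Integrable (fun x => rmR η F M x ^ 2) ((PI DI).restrict A) :=
    (rmR_memLp η F M).integrable_sq.integrableOn
  have j3 : Integrable (fun x => rmR η F i x * rmR η F M x) ((PI DI).restrict A) :=
    (rm_im (rmR_memLp η F i) (rmR_memLp η F M)).integrableOn
  have h5 : ∫ x in A, rmR η F i x * rmR η F M x ∂PI DI ≤ c / 2 * I1 + 1 / (2 * c) * I2 := by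
    rw [hI1, hI2, ← integral_const_mul, ← integral_const_mul,
      ← integral_add (j1.const_mul _) (j2.const_mul _)]
    refine integral_mono j3 ((j1.const_mul _).add (j2.const_mul _)) fun x => ?_
    change rmR η F i x * rmR η F M x ≤ c / 2 * rmR η F i x ^ 2 + 1 / (2 * c) * rmR η F M x ^ 2
    have h6 : 0 ≤ 1 / (2 * c) * (c * rmR η F i x - rmR η F M x) ^ 2 := by positivity
    have h7 : 1 / (2 * c) * (c * rmR η F i x - rmR η F M x) ^ 2 =
        c / 2 * rmR η F i x ^ 2 + 1 / (2 * c) * rmR η F M x ^ 2 -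
          rmR η F i x * rmR η F M x := by
      field_simp
      ring
    linarith
  rw [← h4, h1, h3] at h5
  have h8 : c ^ 2 * I1 ≤ I2 := by
    have h9 : c / 2 * I1 ≤ 1 / (2 * c) * I2 := by linarith
    have h10 : 2 * c * (c / 2 * I1) ≤ 2 * c * (1 / (2 * c) * I2) :=
      mul_le_mul_of_nonneg_left h9 (by positivity)
    have h11 : 2 * c * (1 / (2 * c) * I2) = I2 := by field_simp
    rw [h11] at h10
    nlinarith
  have hI1nn : 0 ≤ I1 := integral_nonneg fun x => sq_nonneg _
  have h12 : 1 ≤ Real.exp 2 * c ^ 2 := by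
    rw [hc, ← Real.exp_nat_mul, ← Real.exp_add]
    refine Real.one_le_exp ?_
    have h13 : ((M - i : ℕ) : ℝ) * η ≤ M * η := by
      refine mul_le_mul_of_nonneg_right ?_ hη
      exact_mod_cast Nat.sub_le M i
    push_cast at *
    linarith
  calc I1 ≤ Real.exp 2 * c ^ 2 * I1 := le_mul_of_one_le_left hI1nn h12
    _ = Real.exp 2 * (c ^ 2 * I1) := by ring
    _ ≤ Real.exp 2 * I2 := mul_le_mul_of_nonneg_left h8 (Real.exp_pos _).le

/-- Doob's inequality -/
private theorem rm_doob {η a : ℝ} {M k : ℕ} (hη : 0 < η) (hM : M * η ≤ 1) (ha : 0 < a)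
    (Fs : ℕ → Finset (ℤ × ℤ)) {Z : (ℤ × ℤ → ℝ) → ℝ} (hZm : Measurable Z)
    (hZi : Integrable Z (PI (ℤ × ℤ)))
    (hZ : ∀ ω, ∀ j ≤ k, (∑ v ∈ Fs j, (ω v - 1)) ^ 2 ≤ Z ω) :
    (PI DI).real {x | ∃ i ≤ M, ∃ j ≤ k, a ≤ |∑ v ∈ Fs j, (dyn η x i v - 1)|} ≤
      Real.exp 2 * (∫ ω, Z ω ∂PI (ℤ × ℤ)) / a ^ 2 := by
  classical
  set Y : (DI → ℝ) → ℝ := fun x => Z (dyn η x M) with hY
  have hYi : Integrable Y (PI DI) := (dyn_law η M).integrable_comp_of_integrable hZi
  have hYint : ∫ x, Y x ∂PI DI = ∫ ω, Z ω ∂PI (ℤ × ℤ) := by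
    have h := dyn_law η M
    have h2 := integral_map (μ := PI DI) (f := Z) h.measurable.aemeasurable
      hZm.aestronglyMeasurable
    rw [h.map_eq] at h2
    exact h2.symm
  have hYnn : ∀ x, 0 ≤ Y x := fun x => (sq_nonneg _).trans (hZ (dyn η x M) 0 (Nat.zero_le _))
  -- the events
  set E : ℕ → Set (DI → ℝ) := fun t => {x | a ≤ |rmR η (Fs (t % (k + 1))) (t / (k + 1)) x|} with hE
  set B : ℕ → Set (DI → ℝ) := fun n => {x | ∃ t < n, x ∈ E t} with hB
  have hEm : ∀ t, MeasurableSet (E t) := fun t =>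
    measurableSet_le measurable_const (rmR_meas _ _ _).abs
  have hEd : ∀ t, DepOn (rmP (t / (k + 1))) (E t) := by
    intro t x y h
    change a ≤ |rmR η (Fs (t % (k + 1))) (t / (k + 1)) x| ↔
      a ≤ |rmR η (Fs (t % (k + 1))) (t / (k + 1)) y|
    rw [rmR_dep η _ _ x y h]
  have hBs : ∀ n, B (n + 1) = B n ∪ (E n \ B n) := by
    intro n
    ext x
    constructor
    · rintro ⟨t, ht, hx⟩
      by_cases hb : x ∈ B n
      · exact Or.inl hb
      · refine Or.inr ⟨?_, hb⟩
        rcases Nat.lt_or_ge t n with h | h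
        · exact absurd ⟨t, h, hx⟩ hb
        · obtain rfl : t = n := by omega
          exact hx
    · rintro (⟨t, ht, hx⟩ | ⟨hx, -⟩)
      · exact ⟨t, by omega, hx⟩
      · exact ⟨n, by omega, hx⟩
  have hBm : ∀ n, MeasurableSet (B n) := by
    intro n
    induction n with
    | zero =>
      have : B 0 = ∅ := by
        ext x
        simp [hB]
      rw [this]
      exact MeasurableSet.empty
    | succ n ih =>
      rw [hBs]
      exact ih.union ((hEm n).diff ih)
  have hBd : ∀ n, DepOn (rmP (n / (k + 1))) (B n) := by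
    intro n x y h
    have hh : ∀ t < n, (x ∈ E t ↔ y ∈ E t) := fun t ht => hEd t x y fun p hp =>
      h p (le_trans hp (Nat.div_le_div_right ht.le))
    constructor
    · rintro ⟨t, ht, hx⟩
      exact ⟨t, ht, (hh t ht).1 hx⟩
    · rintro ⟨t, ht, hx⟩
      exact ⟨t, ht, (hh t ht).2 hx⟩
  have hmain : ∀ n ≤ (M + 1) * (k + 1), a ^ 2 * (PI DI).real (B n) ≤
      Real.exp 2 * ∫ x in B n, Y x ∂PI DI := by
    intro n
    induction n with
    | zero =>
      intro _
      have : B 0 = ∅ := by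
        ext x
        simp [hB]
      rw [this]
      simp
    | succ n ih =>
      intro hn
      have hiM : n / (k + 1) ≤ M := by
        have : n / (k + 1) < M + 1 := Nat.div_lt_of_lt_mul (by rw [mul_comm]; omega)
        omega
      have hjk : n % (k + 1) ≤ k := Nat.lt_succ_iff.1 (Nat.mod_lt _ (Nat.succ_pos k))
      set A : Set (DI → ℝ) := E n \ B n with hA
      have hAm : MeasurableSet A := (hEm n).diff (hBm n)
      have hAd : DepOn (rmP (n / (k + 1))) A := fun x y h =>
        and_congr (hEd n x y h) (not_congr (hBd n x y h))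
      have hdis : Disjoint (B n) A := Set.disjoint_sdiff_right
      have h1 := rm_basic hη.le hiM hM (Fs (n % (k + 1))) hAm hAd
      have h2 : a ^ 2 * (PI DI).real A ≤
          ∫ x in A, rmR η (Fs (n % (k + 1))) (n / (k + 1)) x ^ 2 ∂PI DI := by
        have h3 : ∫ _x in A, a ^ 2 ∂PI DI = a ^ 2 * (PI DI).real A := by
          rw [setIntegral_const, smul_eq_mul, mul_comm]
        rw [← h3]
        refine setIntegral_mono_on (integrable_const _).integrableOn
          (rmR_memLp η _ _).integrable_sq.integrableOn hAm fun x hx => ?_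
        have h4 : a ≤ |rmR η (Fs (n % (k + 1))) (n / (k + 1)) x| := hx.1
        rw [← sq_abs (rmR η (Fs (n % (k + 1))) (n / (k + 1)) x)]
        exact pow_le_pow_left₀ ha.le h4 2
      have h5 : ∫ x in A, rmR η (Fs (n % (k + 1))) M x ^ 2 ∂PI DI ≤ ∫ x in A, Y x ∂PI DI :=
        setIntegral_mono (rmR_memLp η _ _).integrable_sq.integrableOn hYi.integrableOn
          fun x => hZ (dyn η x M) _ hjk
      rw [hBs, measureReal_union hdis hAm, setIntegral_union hdis hAm hYi.integrableOn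
        hYi.integrableOn, mul_add, mul_add]
      refine add_le_add (ih (by omega)) (h2.trans (h1.trans ?_))
      exact mul_le_mul_of_nonneg_left h5 (Real.exp_pos _).le
  have hfin := hmain _ le_rfl
  have hset : {x : DI → ℝ | ∃ i ≤ M, ∃ j ≤ k, a ≤ |∑ v ∈ Fs j, (dyn η x i v - 1)|} ⊆
      B ((M + 1) * (k + 1)) := by
    rintro x ⟨i, hi, j, hj, hx⟩
    refine ⟨j + (k + 1) * i, ?_, ?_⟩
    · have h1 : (k + 1) * i ≤ (k + 1) * M := Nat.mul_le_mul_left _ hi
      have h2 : (M + 1) * (k + 1) = (k + 1) * M + (k + 1) := by ring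
      omega
    · have h1 : (j + (k + 1) * i) % (k + 1) = j := by
        rw [Nat.add_mul_mod_self_left, Nat.mod_eq_of_lt (by omega)]
      have h2 : (j + (k + 1) * i) / (k + 1) = i := by
        rw [Nat.add_mul_div_left _ _ (Nat.succ_pos k), Nat.div_eq_of_lt (by omega), zero_add]
      change a ≤ |rmR η (Fs ((j + (k + 1) * i) % (k + 1))) ((j + (k + 1) * i) / (k + 1)) x|
      rw [h1, h2]
      exact hx
  have ha2 : 0 < a ^ 2 := by positivity
  rw [le_div_iff₀ ha2, mul_comm]
  calc a ^ 2 * (PI DI).real {x | ∃ i ≤ M, ∃ j ≤ k, a ≤ |∑ v ∈ Fs j, (dyn η x i v - 1)|}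
      ≤ a ^ 2 * (PI DI).real (B ((M + 1) * (k + 1))) :=
        mul_le_mul_of_nonneg_left (measureReal_mono hset) ha2.le
    _ ≤ Real.exp 2 * ∫ x in B ((M + 1) * (k + 1)), Y x ∂PI DI := hfin
    _ ≤ Real.exp 2 * ∫ x, Y x ∂PI DI := by
        refine mul_le_mul_of_nonneg_left ?_ (Real.exp_pos _).le
        exact setIntegral_le_integral hYi (Filter.Eventually.of_forall hYnn)
    _ = Real.exp 2 * ∫ ω, Z ω ∂PI (ℤ × ℤ) := by rw [hYint]

private theorem rm_exp2 : Real.exp 2 ≤ 8 := by
  have h := Real.exp_one_lt_d9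
  have h1 : Real.exp 2 = Real.exp 1 ^ 2 := by
    rw [← Real.exp_nat_mul]
    norm_num
  rw [h1]
  have h2 := Real.exp_pos 1
  nlinarith

theorem lin_max (F : Finset (ℤ × ℤ)) {η a : ℝ} {M : ℕ} (hη : 0 < η) (hM : M * η ≤ 1)
    (ha : 0 < a) :
    (PI DI).real {x | ∃ i ≤ M, a ≤ |∑ v ∈ F, (dyn η x i v - 1)|} ≤ 8 * F.card / a ^ 2 := by
  have h := rm_doob (k := 0) hη hM ha (fun _ => F)
    (Z := fun ω => (∑ v ∈ F, (ω v - 1)) ^ 2) (by fun_prop) (rm_sum_memLp F).integrable_sq
    (fun ω j _ => le_rfl)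
  rw [rm_sum_sq] at h
  have h1 : {x : DI → ℝ | ∃ i ≤ M, a ≤ |∑ v ∈ F, (dyn η x i v - 1)|} ⊆
      {x | ∃ i ≤ M, ∃ j ≤ 0, a ≤ |∑ v ∈ F, (dyn η x i v - 1)|} := by
    rintro x ⟨i, hi, hx⟩
    exact ⟨i, hi, 0, le_rfl, hx⟩
  refine (measureReal_mono h1).trans (h.trans ?_)
  gcongr
  exact rm_exp2

theorem row_max {k : ℕ} (v : ℕ → ℤ × ℤ) (hv : Set.InjOn v {u | u < k}) {η a : ℝ} {M : ℕ}
    (hη : 0 < η) (hM : M * η ≤ 1) (ha : 0 < a) :
    (PI DI).real {x | ∃ i ≤ M, ∃ j ≤ k, a ≤ |∑ u ∈ Finset.range j, (dyn η x i (v u) - 1)|} ≤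
      40 * k / a ^ 2 := by
  classical
  have hsum : ∀ (ω : ℤ × ℤ → ℝ), ∀ j ≤ k, ∑ w ∈ (Finset.range j).image v, (ω w - 1) =
      ∑ u ∈ Finset.range j, (ω (v u) - 1) := by
    intro ω j hj
    rw [Finset.sum_image]
    intro a ha b hb hab
    have h1 : a < j := by simpa using ha
    have h2 : b < j := by simpa using hb
    exact hv (show a < k by omega) (show b < k by omega) hab
  have h := rm_doob (k := k) hη hM ha (fun j => (Finset.range j).image v)
    (Z := fun ω => rmMx (rmS v ω) k ^ 2) ((rmM_meas v k).pow_const 2)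
    (rmM_memLp v k).integrable_sq (fun ω j hj => by
      rw [hsum ω j hj, ← sq_abs]
      exact pow_le_pow_left₀ (abs_nonneg _) (rmMx_le (rmS v ω) (by simp [rmS]) hj) 2)
  have h1 : {x : DI → ℝ | ∃ i ≤ M, ∃ j ≤ k,
      a ≤ |∑ u ∈ Finset.range j, (dyn η x i (v u) - 1)|} ⊆
      {x | ∃ i ≤ M, ∃ j ≤ k, a ≤ |∑ w ∈ (Finset.range j).image v, (dyn η x i w - 1)|} := by
    rintro x ⟨i, hi, j, hj, hx⟩
    refine ⟨i, hi, j, hj, ?_⟩
    rw [hsum (dyn η x i) j hj]
    exact hx
  refine (measureReal_mono h1).trans (h.trans ?_)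
  have h2 := rmM_int v hv
  have h3 := rm_exp2
  have h4 : 0 ≤ ∫ x, rmMx (rmS v x) k ^ 2 ∂PI (ℤ × ℤ) := integral_nonneg fun x => sq_nonneg _
  refine div_le_div_of_nonneg_right ?_ (by positivity)
  calc Real.exp 2 * ∫ x, rmMx (rmS v x) k ^ 2 ∂PI (ℤ × ℤ) ≤ 8 * (4 * k) :=
        mul_le_mul h3 h2 h4 (by norm_num)
    _ ≤ 40 * k := by
        have : (0 : ℝ) ≤ k := Nat.cast_nonneg k
        linarith

end BGE
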