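import Pool.Agent.BGE.NearDefs
import Pool.Agent.BGE.AllTail
import Pool.Agent.BGE.LowerTail
import Pool.Agent.BGE.MuGeo
import Pool.Agent.BGE.Unique

/-!
BGE / N1. Straightness near the horizontal axis at a fixed time.

`near_c`: for `R ≥ R1`: `PI (StrBad R) ≤ exp (- R^{1/10})`.
Proof. Let `p = (2R - p2, p2)` with `R^{0.99} ≤ p2 ≤ R/2` and `w = (R - w2, w2)` with `Via 0 w p` and
`w2 > p2/2 + R^{0.9}`. Then `T 0 p = T 0 w + T w p - ω w ≤ T 0 w + T w p` and by `mu_concave`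
(`d = w.1 - p.1/2 = p2/2 - w2`) `muz 0 w + muz w p ≤ muz 0 p - 4 d²/R`. Hence
`4 R^{0.8} ≤ 4 d²/R ≤ (muz 0 p - T 0 p) + (T 0 w - muz 0 w) + (T w p - muz w p)`.
Upper tails: `all_tail` with `y = R^{0.15}` for all the pairs of sites of `[0, 2R]²`: each error is
`≤ 2 R^{0.65}` outside of an event of probability `C R^4 exp (-c R^{0.15})`.
Lower tail for `T 0 p`: by translation it has the law of `T (1,1) (m,n)`, `m = 2R - p2 + 1`,
`n = p2 + 1`; `1 - al = √n/(√m+√n) ≥ R^{-0.005}/3`, `al ≥ 1/3`, so `t = R^{-0.2}` is allowed in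
`lower_tail`; `Ph = (√m+√n)⁴/√(m n) ≤ 64 R^{1.005}`, so `64 t² Ph ≤ R^{0.75}`, and `Ph ≥ R`, so the
probability is at most `21 exp (- R^{0.4}/(2·10⁸))`. (`(√m+√n)² ≥ mu (m-1) (n-1) = muz 0 p`.)
The sum of the errors is `< 4 R^{0.8}`: contradiction.
-/

namespace BGE

open MeasureTheory ProbabilityTheory

private theorem nc_via_meas (u w v : ℤ × ℤ) : MeasurableSet {ω : ℤ × ℤ → ℝ | Via ω u w v} := by
  by_cases h : u ≤ w ∧ w ≤ v
  · have e : {ω : ℤ × ℤ → ℝ | Via ω u w v} = {ω | T ω u v = T ω u w + T ω w v - ω w} := by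
      ext ω
      exact ⟨fun h' => h'.2.2, fun h' => ⟨h.1, h.2, h'⟩⟩
    rw [e]
    exact measurableSet_eq_fun (measurable_T u v)
      (((measurable_T u w).add (measurable_T w v)).sub (measurable_pi_apply w))
  · have e : {ω : ℤ × ℤ → ℝ | Via ω u w v} = ∅ := by
      ext ω
      simp only [Set.mem_ofPred_eq, Set.mem_empty_iff_false, iff_false]
      exact fun h' => h ⟨h'.1, h'.2.1⟩
    rw [e]
    exact MeasurableSet.empty

theorem measurableSet_StrBad (R : ℕ) : MeasurableSet (StrBad R) := by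
  have e : StrBad R = ⋃ x ∈ {x : (ℤ × ℤ) × (ℤ × ℤ) | lev x.1 = 2 * R ∧ lev x.2 = R ∧
      (R : ℝ) ^ (99 / 100 : ℝ) ≤ x.1.2 ∧ 2 * x.1.2 ≤ R ∧
      (x.1.2 : ℝ) / 2 + (R : ℝ) ^ (9 / 10 : ℝ) < x.2.2}, {ω | Via ω (0, 0) x.2 x.1} := by
    ext ω
    simp only [Set.mem_iUnion, exists_prop]
    constructor
    · rintro ⟨p, w, h1, h2, h3, h4, h5, h6⟩
      exact ⟨(p, w), ⟨h1, h2, h3, h4, h6⟩, h5⟩
    · rintro ⟨⟨p, w⟩, ⟨h1, h2, h3, h4, h6⟩, h5⟩
      exact ⟨p, w, h1, h2, h3, h4, h5, h6⟩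
  rw [e]
  exact MeasurableSet.biUnion (Set.to_countable _) fun x _ => nc_via_meas _ _ _

private theorem nc_dep {R : ℕ} {ω ω' : ℤ × ℤ → ℝ}
    (h : ∀ z : ℤ × ℤ, (0, 0) ≤ z → z ≤ (2 * (R : ℤ), 2 * (R : ℤ)) → ω z = ω' z) (hω : ω ∈ StrBad R) :
    ω' ∈ StrBad R := by
  obtain ⟨p, w, h1, h2, h3, h4, ⟨h5, h6, h7⟩, h8⟩ := hω
  have hp0 : ((0, 0) : ℤ × ℤ) ≤ p := h5.trans h6
  have hp : p ≤ (2 * (R : ℤ), 2 * (R : ℤ)) := by
    obtain ⟨a, b⟩ := p
    unfold lev at h1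
    obtain ⟨ha, hb⟩ := hp0
    simp only at h1 ha hb
    constructor <;> simp only <;> omega
  refine ⟨p, w, h1, h2, h3, h4, ⟨h5, h6, ?_⟩, h8⟩
  rw [← T_congr hp0 fun z hz1 hz2 => h z hz1 (hz2.trans hp),
    ← T_congr h5 fun z hz1 hz2 => h z hz1 ((hz2.trans h6).trans hp),
    ← T_congr h6 fun z hz1 hz2 => h z (h5.trans hz1) (hz2.trans hp), h7, h w h5 (h6.trans hp)]

theorem depOn_StrBad (R : ℕ) :
    DepOn ((Finset.Icc ((0, 0) : ℤ × ℤ) (2 * R, 2 * R) : Finset (ℤ × ℤ)) : Set (ℤ × ℤ))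
      (StrBad R) := by
  intro x y h
  have h' : ∀ z : ℤ × ℤ, (0, 0) ≤ z → z ≤ (2 * (R : ℤ), 2 * (R : ℤ)) → x z = y z := fun z h1 h2 =>
    h z (by rw [Finset.mem_coe, Finset.mem_Icc]; exact ⟨h1, h2⟩)
  exact ⟨nc_dep h', nc_dep fun z h1 h2 => (h' z h1 h2).symm⟩

/-! ### The asymptotic inequality -/

private theorem nc_asym (C c : ℝ) (hC : 0 < C) (hc : 0 < c) : ∀ᶠ X : ℝ in Filter.atTop,
    (X + 1) * (C * Real.exp (-(c * X ^ (3 / 20 : ℝ)))) +
      (X + 1) * (2 * X + 1) * (C * Real.exp (-(c * X ^ (3 / 20 : ℝ)))) +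
      (2 * X + 1) * (21 * Real.exp (-(X ^ (2 / 5 : ℝ) / (2 * 10 ^ 8)))) ≤
      Real.exp (-(X ^ (1 / 10 : ℝ))) := by
  have hx : Filter.Tendsto (fun X : ℝ => X ^ (1 / 20 : ℝ)) Filter.atTop Filter.atTop :=
    tendsto_rpow_atTop (by norm_num)
  have t1 : Filter.Tendsto (fun x : ℝ => 8 * C * (x ^ 40 * Real.exp (-x))) Filter.atTop
      (nhds 0) := by
    have := (Real.tendsto_pow_mul_exp_neg_atTop_nhds_zero 40).const_mul (8 * C)
    simpa using this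
  have t2 : Filter.Tendsto (fun x : ℝ => 63 * (x ^ 20 * Real.exp (-x))) Filter.atTop
      (nhds 0) := by
    have := (Real.tendsto_pow_mul_exp_neg_atTop_nhds_zero 20).const_mul 63
    simpa using this
  have e1 := hx.eventually (t1.eventually (Iic_mem_nhds (show (0 : ℝ) < 1 / 2 by norm_num)))
  have e2 := hx.eventually (t2.eventually (Iic_mem_nhds (show (0 : ℝ) < 1 / 2 by norm_num)))
  have e3 := hx.eventually_ge_atTop (2 / c)
  have e4 := hx.eventually_ge_atTop 100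
  filter_upwards [e1, e2, e3, e4, Filter.eventually_ge_atTop 1] with X h1 h2 h3 h4 hX
  have hX0 : (0 : ℝ) ≤ X := by linarith
  set x := X ^ (1 / 20 : ℝ) with hxdef
  have hx0 : 0 < x := by linarith
  have q1 : X ^ (3 / 20 : ℝ) = x ^ 3 := by
    rw [hxdef, ← Real.rpow_natCast, ← Real.rpow_mul hX0]
    norm_num
  have q2 : X ^ (2 / 5 : ℝ) = x ^ 8 := by
    rw [hxdef, ← Real.rpow_natCast, ← Real.rpow_mul hX0]
    norm_num
  have q3 : X ^ (1 / 10 : ℝ) = x ^ 2 := by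
    rw [hxdef, ← Real.rpow_natCast, ← Real.rpow_mul hX0]
    norm_num
  have q4 : X = x ^ 20 := by
    rw [hxdef, ← Real.rpow_natCast, ← Real.rpow_mul hX0]
    norm_num
  have h1' : 8 * C * (x ^ 40 * Real.exp (-x)) ≤ 1 / 2 := h1
  have h2' : 63 * (x ^ 20 * Real.exp (-x)) ≤ 1 / 2 := h2
  rw [q1, q2, q3]
  have hE : Real.exp (-(2 * x ^ 2)) ≤ Real.exp (-x) * Real.exp (-(x ^ 2)) := by
    rw [← Real.exp_add]
    refine Real.exp_le_exp.2 ?_
    nlinarith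
  have b1 : Real.exp (-(c * x ^ 3)) ≤ Real.exp (-x) * Real.exp (-(x ^ 2)) := by
    refine le_trans (Real.exp_le_exp.2 ?_) hE
    have h5 : 2 ≤ c * x := by
      rw [div_le_iff₀ hc] at h3
      linarith
    have h6 : 2 * x ^ 2 ≤ (c * x) * x ^ 2 := mul_le_mul_of_nonneg_right h5 (by positivity)
    have h7 : (c * x) * x ^ 2 = c * x ^ 3 := by ring
    linarith
  have b2 : Real.exp (-(x ^ 8 / (2 * 10 ^ 8))) ≤ Real.exp (-x) * Real.exp (-(x ^ 2)) := by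
    refine le_trans (Real.exp_le_exp.2 ?_) hE
    have h5 : (100 : ℝ) ^ 6 ≤ x ^ 6 := pow_le_pow_left₀ (by norm_num) h4 6
    have h6 : (100 : ℝ) ^ 6 * x ^ 2 ≤ x ^ 6 * x ^ 2 := mul_le_mul_of_nonneg_right h5 (by positivity)
    have h7 : x ^ 6 * x ^ 2 = x ^ 8 := by ring
    have h8 : 2 * x ^ 2 ≤ x ^ 8 / (2 * 10 ^ 8) := by
      rw [le_div_iff₀ (by norm_num)]
      norm_num at h6 ⊢
      nlinarith [sq_nonneg x]
    linarith
  have c1 : (X + 1) + (X + 1) * (2 * X + 1) ≤ 8 * x ^ 40 := by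
    have h5 : x ^ 40 = X ^ 2 := by
      rw [q4]
      ring
    rw [h5]
    nlinarith
  have c2 : (2 * X + 1) * 21 ≤ 63 * x ^ 20 := by
    rw [← q4]
    linarith
  set E := Real.exp (-(x ^ 2)) with hEdef
  have hE0 : 0 < E := Real.exp_pos _
  have hx1 : 0 < Real.exp (-x) := Real.exp_pos _
  calc _ = ((X + 1) + (X + 1) * (2 * X + 1)) * C * Real.exp (-(c * x ^ 3)) +
        ((2 * X + 1) * 21) * Real.exp (-(x ^ 8 / (2 * 10 ^ 8))) := by ring
    _ ≤ (8 * x ^ 40) * C * (Real.exp (-x) * E) + (63 * x ^ 20) * (Real.exp (-x) * E) := by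
        refine add_le_add ?_ ?_
        · refine mul_le_mul (mul_le_mul_of_nonneg_right c1 hC.le) b1 (Real.exp_pos _).le
            (by positivity)
        · exact mul_le_mul c2 b2 (Real.exp_pos _).le (by positivity)
    _ = (8 * C * (x ^ 40 * Real.exp (-x))) * E + (63 * (x ^ 20 * Real.exp (-x))) * E := by ring
    _ ≤ 1 / 2 * E + 1 / 2 * E := by
        refine add_le_add ?_ ?_
        · exact mul_le_mul_of_nonneg_right h1' hE0.le
        · exact mul_le_mul_of_nonneg_right h2' hE0.le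
    _ = E := by ring

/-! ### The lower tail from the origin -/

private theorem nc_shift_mp (c : ℤ × ℤ) :
    MeasurePreserving (fun (ω : ℤ × ℤ → ℝ) (z : ℤ × ℤ) => ω (z + c)) (PI (ℤ × ℤ))
      (PI (ℤ × ℤ)) := by
  have hm : Measurable (fun (ω : ℤ × ℤ → ℝ) (z : ℤ × ℤ) => ω (z + c)) := by fun_prop
  refine ⟨hm, ?_⟩
  unfold PI
  refine Measure.eq_infinitePi _ fun s t ht => ?_
  classical
  have hinj : Function.Injective (fun z : ℤ × ℤ => z + c) := add_left_injective c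
  have hpre : (fun (ω : ℤ × ℤ → ℝ) (z : ℤ × ℤ) => ω (z + c)) ⁻¹' (Set.pi s t) =
      Set.pi (s.image fun z => z + c) (fun j => t (j - c)) := by
    ext ω
    simp only [Set.mem_preimage, Set.mem_pi, Finset.coe_image, Set.mem_image, Finset.mem_coe]
    constructor
    · rintro h _ ⟨z, hz, rfl⟩
      simpa using h z hz
    · intro h z hz
      simpa using h (z + c) ⟨z, hz, rfl⟩
  rw [Measure.map_apply hm (MeasurableSet.pi s.countable_toSet fun i _ => ht i), hpre,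
    Measure.infinitePi_pi _ (fun i _ => ht _), Finset.prod_image (fun a _ b _ h => hinj h)]
  simp

/-- the algebra of the lower tail -/
private theorem nc_alg {X m n : ℝ} (hX : 1 ≤ X) (hm : 3 / 2 * X ≤ m) (hn : X ^ (99 / 100 : ℝ) ≤ n)
    (hnX : n ≤ X / 2 + 1) (hmn : m + n = 2 * X + 2) (h1 : 4096 ≤ X ^ (29 / 200 : ℝ))
    (h2 : 48 ≤ X ^ (39 / 200 : ℝ)) :
    X ^ (-(1 / 5) : ℝ) ≤ al m n / 16 ∧ X ^ (-(1 / 5) : ℝ) ≤ (1 - al m n) / 16 ∧
      64 * (X ^ (-(1 / 5) : ℝ)) ^ 2 * Ph m n ≤ X ^ (3 / 4 : ℝ) ∧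
      X ^ (2 / 5 : ℝ) ≤ (X ^ (-(1 / 5) : ℝ)) ^ 3 * Ph m n := by
  have hX0 : 0 < X := by linarith
  have hXp : 0 < X ^ (99 / 100 : ℝ) := Real.rpow_pos_of_pos hX0 _
  have hn0 : 0 < n := lt_of_lt_of_le hXp hn
  have hm0 : 0 < m := by linarith
  set a := √m with ha
  set b := √n with hb
  have ha0 : 0 < a := Real.sqrt_pos.2 hm0
  have hb0 : 0 < b := Real.sqrt_pos.2 hn0
  have ha2 : a ^ 2 = m := Real.sq_sqrt hm0.le
  have hb2 : b ^ 2 = n := Real.sq_sqrt hn0.le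
  set t := X ^ (-(1 / 5) : ℝ) with ht
  have ht0 : 0 < t := Real.rpow_pos_of_pos hX0 _
  set r := X ^ (99 / 200 : ℝ) with hr
  have hr0 : 0 < r := Real.rpow_pos_of_pos hX0 _
  have hr2 : r ^ 2 = X ^ (99 / 100 : ℝ) := by
    rw [hr, ← Real.rpow_natCast, ← Real.rpow_mul hX0.le]
    norm_num
  set s := X ^ (1 / 2 : ℝ) with hs
  have hs0 : 0 < s := Real.rpow_pos_of_pos hX0 _
  have hs2 : s ^ 2 = X := by
    rw [hs, ← Real.rpow_natCast, ← Real.rpow_mul hX0.le]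
    norm_num
  have hrb : r ≤ b := by
    refine le_of_sq_le_sq ?_ hb0.le
    rw [hr2, hb2]
    exact hn
  have hab : a + b ≤ 3 * s := by
    refine le_of_sq_le_sq ?_ (by positivity)
    have h3 : (a + b) ^ 2 ≤ 2 * (m + n) := by
      rw [← ha2, ← hb2]
      nlinarith [sq_nonneg (a - b)]
    rw [mul_pow, hs2]
    linarith
  have hsa : s ≤ a := by
    refine le_of_sq_le_sq ?_ ha0.le
    rw [hs2, ha2]
    linarith
  -- t · s · 48 ≤ r
  have hts : 48 * (t * s) ≤ r := by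
    have h3 : t * s * X ^ (39 / 200 : ℝ) = r := by
      rw [ht, hs, hr, ← Real.rpow_add hX0, ← Real.rpow_add hX0]
      norm_num
    calc 48 * (t * s) ≤ X ^ (39 / 200 : ℝ) * (t * s) :=
          mul_le_mul_of_nonneg_right h2 (by positivity)
      _ = r := by rw [← h3]; ring
  have hal : al m n = a / (a + b) := rfl
  have h1al : 1 - al m n = b / (a + b) := by
    rw [hal]
    field_simp
    ring
  have hPh : Ph m n = (a + b) ^ 4 / (a * b) := rfl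
  have hab0 : 0 < a + b := by positivity
  have key : t * (a + b) * 16 ≤ r := by
    calc t * (a + b) * 16 ≤ t * (3 * s) * 16 := by gcongr
      _ = 48 * (t * s) := by ring
      _ ≤ r := hts
  have hra : r ≤ a := by
    refine le_trans ?_ hsa
    rw [hr, hs]
    exact Real.rpow_le_rpow_of_exponent_le hX (by norm_num)
  refine ⟨?_, ?_, ?_, ?_⟩
  · rw [hal, div_div, le_div_iff₀ (by positivity)]
    calc t * ((a + b) * 16) = t * (a + b) * 16 := by ring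
      _ ≤ a := key.trans hra
  · rw [h1al, div_div, le_div_iff₀ (by positivity)]
    calc t * ((a + b) * 16) = t * (a + b) * 16 := by ring
      _ ≤ b := key.trans hrb
  · rw [hPh]
    have h3 : (a + b) ^ 4 ≤ 64 * X ^ 2 := by
      have h4 : (a + b) ^ 2 ≤ 8 * X := by
        have h5 : (a + b) ^ 2 ≤ 2 * (m + n) := by
          rw [← ha2, ← hb2]
          nlinarith [sq_nonneg (a - b)]
        linarith
      calc (a + b) ^ 4 = ((a + b) ^ 2) ^ 2 := by ring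
        _ ≤ (8 * X) ^ 2 := pow_le_pow_left₀ (by positivity) h4 2
        _ = 64 * X ^ 2 := by ring
    have h4 : s * r ≤ a * b := mul_le_mul hsa hrb hr0.le ha0.le
    have h5 : (a + b) ^ 4 / (a * b) ≤ 64 * X ^ 2 / (s * r) :=
      div_le_div₀ (by positivity) h3 (by positivity) h4
    have h6 : 64 * t ^ 2 * (64 * X ^ 2 / (s * r)) * X ^ (29 / 200 : ℝ) =
        4096 * X ^ (3 / 4 : ℝ) := by
      have h7 : t ^ 2 * X ^ 2 * X ^ (29 / 200 : ℝ) = X ^ (3 / 4 : ℝ) * (s * r) := by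
        have h8 : t ^ 2 = X ^ (-(2 / 5) : ℝ) := by
          rw [ht, ← Real.rpow_natCast, ← Real.rpow_mul hX0.le]
          norm_num
        have h9 : X ^ 2 = X ^ (2 : ℝ) := (Real.rpow_natCast X 2).symm
        rw [h8, h9, hs, hr, ← Real.rpow_add hX0, ← Real.rpow_add hX0, ← Real.rpow_add hX0,
          ← Real.rpow_add hX0]
        norm_num
      calc 64 * t ^ 2 * (64 * X ^ 2 / (s * r)) * X ^ (29 / 200 : ℝ)
          = 4096 * (t ^ 2 * X ^ 2 * X ^ (29 / 200 : ℝ)) / (s * r) := by ring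
        _ = 4096 * X ^ (3 / 4 : ℝ) := by
            rw [h7]
            field_simp
    have h7 : 0 < X ^ (3 / 4 : ℝ) := Real.rpow_pos_of_pos hX0 _
    have h8 : 64 * t ^ 2 * (64 * X ^ 2 / (s * r)) ≤ X ^ (3 / 4 : ℝ) := by
      have h9 : 64 * t ^ 2 * (64 * X ^ 2 / (s * r)) * 4096 ≤ 4096 * X ^ (3 / 4 : ℝ) := by
        rw [← h6]
        exact mul_le_mul_of_nonneg_left h1 (by positivity)
      linarith
    exact le_trans (mul_le_mul_of_nonneg_left h5 (by positivity)) h8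
  · rw [hPh]
    have h3 : X ≤ (a + b) ^ 4 / (a * b) := by
      rw [le_div_iff₀ (by positivity)]
      have h4 : a * b ≤ (a + b) ^ 2 := by nlinarith
      have h5 : X ≤ (a + b) ^ 2 := by
        have : (a + b) ^ 2 = m + n + 2 * (a * b) := by
          rw [← ha2, ← hb2]
          ring
        have h6 : 0 < a * b := by positivity
        linarith
      calc X * (a * b) ≤ (a + b) ^ 2 * (a + b) ^ 2 :=
            mul_le_mul h5 h4 (by positivity) (by positivity)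
        _ = (a + b) ^ 4 := by ring
    have h4 : t ^ 3 * X = X ^ (2 / 5 : ℝ) := by
      have h5 : t ^ 3 = X ^ (-(3 / 5) : ℝ) := by
        rw [ht, ← Real.rpow_natCast, ← Real.rpow_mul hX0.le]
        norm_num
      rw [h5, ← Real.rpow_add_one hX0.ne']
      norm_num
    rw [← h4]
    exact mul_le_mul_of_nonneg_left h3 (by positivity)

private theorem nc_lower {R : ℕ} (hR : 1 ≤ R) (h1 : 4096 ≤ (R : ℝ) ^ (29 / 200 : ℝ))
    (h2 : 48 ≤ (R : ℝ) ^ (39 / 200 : ℝ)) (i : ℕ) (hi1 : (R : ℝ) ^ (99 / 100 : ℝ) ≤ i)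
    (hi2 : 2 * i ≤ R) :
    (PI (ℤ × ℤ)).real {ω | T ω (0, 0) (2 * (R : ℤ) - i, (i : ℤ)) ≤
      mu (2 * (R : ℝ) - i) i - (R : ℝ) ^ (3 / 4 : ℝ)} ≤
      21 * Real.exp (-((R : ℝ) ^ (2 / 5 : ℝ) / (2 * 10 ^ 8))) := by
  have hR1 : (1 : ℝ) ≤ R := by exact_mod_cast hR
  have hi2' : (2 : ℝ) * i ≤ R := by exact_mod_cast hi2
  obtain ⟨m, hm⟩ : ∃ m : ℕ, m = 2 * R - i + 1 := ⟨_, rfl⟩
  obtain ⟨n, hn⟩ : ∃ n : ℕ, n = i + 1 := ⟨_, rfl⟩
  have hmr : (m : ℝ) = 2 * R - i + 1 := by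
    have : (m : ℤ) = 2 * R - i + 1 := by omega
    exact_mod_cast this
  have hnr : (n : ℝ) = i + 1 := by rw [hn]; push_cast; ring
  have hi0 : (0 : ℝ) ≤ i := Nat.cast_nonneg _
  obtain ⟨a1, a2, a3, a4⟩ := nc_alg (X := R) (m := m) (n := n) hR1 (by rw [hmr]; linarith)
    (by rw [hnr]; linarith) (by rw [hnr]; linarith) (by rw [hmr, hnr]; ring) h1 h2
  have h3 := lower_tail (m := m) (n := n) (by omega) (by omega)
    (Real.rpow_pos_of_pos (by linarith) _) a1 a2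
  set A : Set (ℤ × ℤ → ℝ) := {ω | T ω (1, 1) ((m : ℤ), (n : ℤ)) ≤
        (√(m : ℝ) + √(n : ℝ)) ^ 2 - 64 * ((R : ℝ) ^ (-(1 / 5) : ℝ)) ^ 2 * Ph m n} with hA
  have hAm : MeasurableSet A := measurableSet_le (measurable_T _ _) measurable_const
  have hmu : mu (2 * (R : ℝ) - i) i ≤ (√(m : ℝ) + √(n : ℝ)) ^ 2 := by
    have h4 : (√(m : ℝ) + √(n : ℝ)) ^ 2 = mu m n := by
      unfold mu
      rw [add_sq, Real.sq_sqrt (Nat.cast_nonneg _), Real.sq_sqrt (Nat.cast_nonneg _),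
        Real.sqrt_mul (Nat.cast_nonneg _)]
      ring
    rw [h4]
    exact mu_mono (by linarith) hi0 (by rw [hmr]; linarith) (by rw [hnr]; linarith)
  have hsub : {ω | T ω (0, 0) (2 * (R : ℤ) - i, (i : ℤ)) ≤
      mu (2 * (R : ℝ) - i) i - (R : ℝ) ^ (3 / 4 : ℝ)} ⊆
      (fun (ω : ℤ × ℤ → ℝ) (z : ℤ × ℤ) => ω (z + ((-1, -1) : ℤ × ℤ))) ⁻¹' A := by
    intro ω hω
    rw [hA, Set.mem_preimage, Set.mem_ofPred_eq, T_translate]
    have e1 : ((1, 1) : ℤ × ℤ) + (-1, -1) = (0, 0) := rfl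
    have e2 : (((m : ℤ), (n : ℤ)) : ℤ × ℤ) + (-1, -1) = (2 * (R : ℤ) - i, (i : ℤ)) := by
      refine Prod.ext ?_ ?_
      · show (m : ℤ) + -1 = 2 * (R : ℤ) - i
        omega
      · show (n : ℤ) + -1 = (i : ℤ)
        omega
    rw [e1, e2]
    have h5 : T ω (0, 0) (2 * (R : ℤ) - i, (i : ℤ)) ≤
      mu (2 * (R : ℝ) - i) i - (R : ℝ) ^ (3 / 4 : ℝ) := hω
    linarith
  calc _ ≤ (PI (ℤ × ℤ)).real ((fun (ω : ℤ × ℤ → ℝ) (z : ℤ × ℤ) =>
        ω (z + ((-1, -1) : ℤ × ℤ))) ⁻¹' A) := measureReal_mono hsub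
    _ = (PI (ℤ × ℤ)).real A := by
        rw [measureReal_def, (nc_shift_mp (-1, -1)).measure_preimage hAm.nullMeasurableSet,
          ← measureReal_def]
    _ ≤ _ := h3.trans (mul_le_mul_of_nonneg_left (Real.exp_le_exp.2 (neg_le_neg
        (div_le_div_of_nonneg_right a4 (by norm_num)))) (by norm_num))

/-! ### The deterministic part -/

private theorem nc_det {R : ℕ} (hR : 1 ≤ R) {ω : ℤ × ℤ → ℝ} (hω : ∀ z, 0 ≤ ω z) {p w : ℤ × ℤ}
    (hp : lev p = 2 * R) (hw : lev w = R) (hv : Via ω (0, 0) w p)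
    (h1 : (p.2 : ℝ) / 2 + (R : ℝ) ^ (9 / 10 : ℝ) < w.2)
    (h2 : mu p.1 p.2 - (R : ℝ) ^ (3 / 4 : ℝ) < T ω (0, 0) p)
    (h3 : T ω (0, 0) w - mu w.1 w.2 < (R : ℝ) ^ (3 / 20 : ℝ) * √((R : ℝ) + 1))
    (h4 : T ω w p - mu (p.1 - w.1) (p.2 - w.2) < (R : ℝ) ^ (3 / 20 : ℝ) * √((R : ℝ) + 1)) :
    False := by
  obtain ⟨hw0, hwp, hT⟩ := hv
  have hR1 : (1 : ℝ) ≤ R := by exact_mod_cast hR
  have hR0 : (0 : ℝ) < R := by linarith
  obtain ⟨p1, p2⟩ := p
  obtain ⟨w1, w2⟩ := w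
  simp only [lev] at hp hw
  obtain ⟨ha, hb⟩ := hw0
  obtain ⟨hc, hd⟩ := hwp
  simp only at *
  have ha' : (0 : ℝ) ≤ w1 := by exact_mod_cast ha
  have hb' : (0 : ℝ) ≤ w2 := by exact_mod_cast hb
  have hc' : (0 : ℝ) ≤ (p1 : ℝ) - w1 := by
    have : (w1 : ℝ) ≤ p1 := by exact_mod_cast hc
    linarith
  have hd' : (0 : ℝ) ≤ (p2 : ℝ) - w2 := by
    have : (w2 : ℝ) ≤ p2 := by exact_mod_cast hd
    linarith
  have hp' : (p1 : ℝ) + p2 = 2 * R := by exact_mod_cast hp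
  have hw' : (w1 : ℝ) + w2 = R := by exact_mod_cast hw
  have hcc := mu_concave ha' hb' hc' hd' (by linarith) (by linarith)
  have e1 : (w1 : ℝ) + ((p1 : ℝ) - w1) = p1 := by ring
  have e2 : (w2 : ℝ) + ((p2 : ℝ) - w2) = p2 := by ring
  have e3 : ((p1 : ℝ) - w1) + ((p2 : ℝ) - w2) = R := by linarith
  rw [e1, e2, e3, hw'] at hcc
  have e4 : (w1 : ℝ) - R * p1 / (R + R) = (p2 : ℝ) / 2 - w2 := by
    have : (R : ℝ) * p1 / (R + R) = p1 / 2 := by
      field_simp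
      ring
    rw [this]
    linarith
  rw [e4] at hcc
  have e5 : 2 * ((p2 : ℝ) / 2 - w2) ^ 2 * (1 / (R : ℝ) + 1 / R) = 4 * ((p2 : ℝ) / 2 - w2) ^ 2 / R := by
    ring
  rw [e5] at hcc
  set q := (R : ℝ) ^ (9 / 10 : ℝ) with hq
  have hq0 : 0 < q := Real.rpow_pos_of_pos hR0 _
  have hq2 : q ^ 2 = (R : ℝ) ^ (4 / 5 : ℝ) * R := by
    rw [hq, ← Real.rpow_natCast, ← Real.rpow_mul hR0.le, ← Real.rpow_add_one hR0.ne']
    norm_num
  have e6 : 4 * (R : ℝ) ^ (4 / 5 : ℝ) ≤ 4 * ((p2 : ℝ) / 2 - w2) ^ 2 / R := by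
    rw [le_div_iff₀ hR0, mul_assoc, ← hq2]
    have : q ^ 2 ≤ ((p2 : ℝ) / 2 - w2) ^ 2 := by
      rw [← neg_sq ((p2 : ℝ) / 2 - w2)]
      exact pow_le_pow_left₀ hq0.le (by linarith) 2
    linarith
  have hωw := hω (w1, w2)
  -- the errors
  have e7 : (R : ℝ) ^ (3 / 4 : ℝ) ≤ (R : ℝ) ^ (4 / 5 : ℝ) :=
    Real.rpow_le_rpow_of_exponent_le hR1 (by norm_num)
  have e8 : (R : ℝ) ^ (3 / 20 : ℝ) * √((R : ℝ) + 1) ≤ 3 / 2 * (R : ℝ) ^ (4 / 5 : ℝ) := by
    have h5 : √((R : ℝ) + 1) ≤ 3 / 2 * (R : ℝ) ^ (1 / 2 : ℝ) := by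
      rw [Real.sqrt_le_left (by positivity), mul_pow, ← Real.rpow_natCast ((R : ℝ) ^ (1 / 2 : ℝ)),
        ← Real.rpow_mul hR0.le]
      norm_num
      linarith
    calc (R : ℝ) ^ (3 / 20 : ℝ) * √((R : ℝ) + 1)
        ≤ (R : ℝ) ^ (3 / 20 : ℝ) * (3 / 2 * (R : ℝ) ^ (1 / 2 : ℝ)) :=
          mul_le_mul_of_nonneg_left h5 (by positivity)
      _ = 3 / 2 * ((R : ℝ) ^ (3 / 20 : ℝ) * (R : ℝ) ^ (1 / 2 : ℝ)) := by ring
      _ = 3 / 2 * (R : ℝ) ^ (13 / 20 : ℝ) := by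
          rw [← Real.rpow_add hR0]
          norm_num
      _ ≤ 3 / 2 * (R : ℝ) ^ (4 / 5 : ℝ) := by
          refine mul_le_mul_of_nonneg_left ?_ (by norm_num)
          exact Real.rpow_le_rpow_of_exponent_le hR1 (by norm_num)
  linarith

theorem near_c : ∃ R1 : ℕ, ∀ R : ℕ, R1 ≤ R →
    (PI (ℤ × ℤ)).real (StrBad R) ≤ Real.exp (-((R : ℝ) ^ (1 / 10 : ℝ))) := by
  classical
  obtain ⟨C, c, hC, hc, hall⟩ := all_tail
  have E1 : ∀ᶠ X : ℝ in Filter.atTop, 4096 ≤ X ^ (29 / 200 : ℝ) :=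
    (tendsto_rpow_atTop (by norm_num)).eventually_ge_atTop _
  have E2 : ∀ᶠ X : ℝ in Filter.atTop, 48 ≤ X ^ (39 / 200 : ℝ) :=
    (tendsto_rpow_atTop (by norm_num)).eventually_ge_atTop _
  have E3 := tendsto_natCast_atTop_atTop.eventually
    (E1.and (E2.and ((nc_asym C c hC hc).and (Filter.eventually_ge_atTop (1 : ℝ)))))
  obtain ⟨R1, hR1⟩ := Filter.eventually_atTop.1 E3
  refine ⟨R1, fun R hR => ?_⟩
  obtain ⟨h1, h2, h3, h4⟩ := hR1 R hR
  have hR' : 1 ≤ R := by exact_mod_cast h4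
  set y := (R : ℝ) ^ (3 / 20 : ℝ) with hy
  have hy0 : 0 ≤ y := by positivity
  let Ub : ℤ × ℤ → ℤ × ℤ → Set (ℤ × ℤ → ℝ) := fun u v =>
    {ω | y * √((lev v - lev u : ℤ) + 1) ≤ T ω u v - mu ((v.1 - u.1 : ℤ)) ((v.2 - u.2 : ℤ))}
  let wj : ℕ → ℤ × ℤ := fun j => ((R : ℤ) - j, (j : ℤ))
  let pi' : ℕ → ℤ × ℤ := fun i => (2 * (R : ℤ) - i, (i : ℤ))
  let A0 : Set (ℤ × ℤ → ℝ) := {ω | ¬ ∀ z, 0 ≤ ω z}
  let A1 : Set (ℤ × ℤ → ℝ) := ⋃ j ∈ Finset.range (R + 1), Ub (0, 0) (wj j)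
  let A2 : Set (ℤ × ℤ → ℝ) := ⋃ x ∈ Finset.range (R + 1) ×ˢ Finset.range (2 * R + 1),
    if wj x.1 ≤ pi' x.2 then Ub (wj x.1) (pi' x.2) else ∅
  let A3 : Set (ℤ × ℤ → ℝ) := ⋃ i ∈ Finset.range (2 * R + 1),
    if (R : ℝ) ^ (99 / 100 : ℝ) ≤ i ∧ 2 * i ≤ R then
      {ω | T ω (0, 0) (pi' i) ≤ mu (2 * (R : ℝ) - i) i - (R : ℝ) ^ (3 / 4 : ℝ)} else ∅
  have m0 : (PI (ℤ × ℤ)).real A0 = 0 := by
    have h5 := ae_nonneg
    rw [ae_iff] at h5
    rw [measureReal_def]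
    show ((PI (ℤ × ℤ)) {ω | ¬ ∀ z, 0 ≤ ω z}).toReal = 0
    rw [h5]
    simp
  have m1 : (PI (ℤ × ℤ)).real A1 ≤ ((R : ℝ) + 1) * (C * Real.exp (-(c * y))) := by
    refine (measureReal_biUnion_finset_le _ _).trans ?_
    refine (Finset.sum_le_card_nsmul _ _ (C * Real.exp (-(c * y))) fun j hj => ?_).trans
      (le_of_eq ?_)
    · have hj' := Finset.mem_range.1 hj
      refine hall (0, 0) (wj j) ?_ y hy0
      constructor
      · show (0 : ℤ) ≤ (R : ℤ) - j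
        omega
      · show (0 : ℤ) ≤ (j : ℤ)
        omega
    · rw [Finset.card_range, nsmul_eq_mul]
      push_cast
      ring
  have m2 : (PI (ℤ × ℤ)).real A2 ≤ ((R : ℝ) + 1) * (2 * R + 1) * (C * Real.exp (-(c * y))) := by
    refine (measureReal_biUnion_finset_le _ _).trans ?_
    refine (Finset.sum_le_card_nsmul _ _ (C * Real.exp (-(c * y))) fun x _ => ?_).trans
      (le_of_eq ?_)
    · by_cases h5 : wj x.1 ≤ pi' x.2
      · rw [if_pos h5]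
        exact hall _ _ h5 y hy0
      · rw [if_neg h5]
        simp only [measureReal_empty]
        positivity
    · rw [Finset.card_product, Finset.card_range, Finset.card_range, nsmul_eq_mul]
      push_cast
      ring
  have m3 : (PI (ℤ × ℤ)).real A3 ≤ (2 * (R : ℝ) + 1) *
      (21 * Real.exp (-((R : ℝ) ^ (2 / 5 : ℝ) / (2 * 10 ^ 8)))) := by
    refine (measureReal_biUnion_finset_le _ _).trans ?_
    refine (Finset.sum_le_card_nsmul _ _
      (21 * Real.exp (-((R : ℝ) ^ (2 / 5 : ℝ) / (2 * 10 ^ 8)))) fun i _ => ?_).trans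
      (le_of_eq ?_)
    · by_cases h5 : (R : ℝ) ^ (99 / 100 : ℝ) ≤ i ∧ 2 * i ≤ R
      · rw [if_pos h5]
        exact nc_lower hR' h1 h2 i h5.1 h5.2
      · rw [if_neg h5]
        simp only [measureReal_empty]
        positivity
    · rw [Finset.card_range, nsmul_eq_mul]
      push_cast
      ring
  have hsub : StrBad R ⊆ A0 ∪ (A1 ∪ (A2 ∪ A3)) := by
    intro ω hω
    by_contra hcon
    simp only [Set.mem_union, not_or] at hcon
    obtain ⟨n0, n1, n2, n3⟩ := hcon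
    have hnn : ∀ z, 0 ≤ ω z := not_not.1 n0
    obtain ⟨p, w, hp, hw, hp1, hp2, hv, hw2⟩ := hω
    have hw0 := hv.1
    have hwp := hv.2.1
    have hp0 : ((0, 0) : ℤ × ℤ) ≤ p := hw0.trans hwp
    obtain ⟨i, hi⟩ := Int.eq_ofNat_of_zero_le (show 0 ≤ p.2 from hp0.2)
    obtain ⟨j, hj⟩ := Int.eq_ofNat_of_zero_le (show 0 ≤ w.2 from hw0.2)
    have hp1' : 0 ≤ p.1 := hp0.1
    have hw1' : 0 ≤ w.1 := hw0.1
    have epi : p = pi' i := by
      refine Prod.ext ?_ hi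
      show p.1 = 2 * (R : ℤ) - i
      unfold lev at hp
      omega
    have ewj : w = wj j := by
      refine Prod.ext ?_ hj
      show w.1 = (R : ℤ) - j
      unfold lev at hw
      omega
    have hi' : i < 2 * R + 1 := by
      unfold lev at hp
      omega
    have hj' : j < R + 1 := by
      unfold lev at hw
      omega
    refine nc_det hR' hnn hp hw hv hw2 ?_ ?_ ?_
    · -- lower
      by_contra hc3
      push Not at hc3
      refine n3 (Set.mem_biUnion (Finset.mem_coe.2 (Finset.mem_range.2 hi')) ?_)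
      have h5 : (R : ℝ) ^ (99 / 100 : ℝ) ≤ i ∧ 2 * i ≤ R := by
        rw [hi] at hp1 hp2
        refine ⟨by exact_mod_cast hp1, by omega⟩
      rw [if_pos h5]
      show T ω (0, 0) (pi' i) ≤ mu (2 * (R : ℝ) - i) i - (R : ℝ) ^ (3 / 4 : ℝ)
      rw [← epi]
      have h6 : (p.1 : ℝ) = 2 * (R : ℝ) - i := by
        have : p.1 = 2 * (R : ℤ) - i := by rw [epi]
        rw [this]
        push_cast
        ring
      have h7 : (p.2 : ℝ) = i := by rw [hi]; push_cast; ring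
      rw [← h6, ← h7]
      exact hc3
    · by_contra hc3
      push Not at hc3
      refine n1 (Set.mem_biUnion (Finset.mem_coe.2 (Finset.mem_range.2 hj')) ?_)
      show y * √((lev (wj j) - lev (0, 0) : ℤ) + 1) ≤ T ω (0, 0) (wj j) -
        mu (((wj j).1 - 0 : ℤ)) (((wj j).2 - 0 : ℤ))
      rw [← ewj, hw]
      have h5 : (((R : ℤ) - lev (0, 0) : ℤ) : ℝ) = R := by
        simp [lev]
      rw [h5, sub_zero, sub_zero]
      exact hc3
    · by_contra hc3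
      push Not at hc3
      refine n2 (Set.mem_biUnion (x := (j, i)) (Finset.mem_coe.2 (Finset.mem_product.2
        ⟨Finset.mem_range.2 hj', Finset.mem_range.2 hi'⟩)) ?_)
      simp only
      rw [← ewj, ← epi, if_pos hwp]
      show y * √((lev p - lev w : ℤ) + 1) ≤ T ω w p - mu ((p.1 - w.1 : ℤ)) ((p.2 - w.2 : ℤ))
      rw [hp, hw]
      have h5 : ((2 * (R : ℤ) - (R : ℤ) : ℤ) : ℝ) = R := by
        push_cast
        ring
      rw [h5]
      push_cast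
      exact hc3
  calc (PI (ℤ × ℤ)).real (StrBad R) ≤ (PI (ℤ × ℤ)).real (A0 ∪ (A1 ∪ (A2 ∪ A3))) :=
        measureReal_mono hsub
    _ ≤ (PI (ℤ × ℤ)).real A0 + ((PI (ℤ × ℤ)).real A1 + ((PI (ℤ × ℤ)).real A2 +
        (PI (ℤ × ℤ)).real A3)) := by
        refine (measureReal_union_le _ _).trans (add_le_add le_rfl ?_)
        refine (measureReal_union_le _ _).trans (add_le_add le_rfl ?_)
        exact measureReal_union_le _ _
    _ ≤ _ := by
        rw [m0]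
        linarith

end BGE
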