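import Pool.Agent.BGE.NearDefs
import Pool.Agent.BGE.Base2

/-!
BGE / N5. Deterministic inclusion for rays near the horizontal axis.

`near_incl`: let `δ ≤ 1/100`, `R0 ≥ δ^{-200}`, `ω ≥ 0`, `ω ∉ StrBad (2^k R0)` for all `k`,
`ω ∉ HgtBad (4 δ) R0 K M0`, `ω ∉ RowBad K M0`, `R0 > K + M0`. Then `¬ RayBad ω`.
Proof. Let `x` be as in `RayBad`, `y l = l - x l` (nondecreasing), `R_k = 2^k R0`. There is `l` large
with `y l ≤ (δ/2) l`; if `R_k ≤ l < R_{k+1}` then `y (R_k) ≤ y l ≤ δ R_k`. Let `s_k = y (R_k)/R_k`. For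
`k' < k`: assume `s_{k'+1} ≤ 1/4`. If `y (R_{k'+1}) ≥ R_{k'}^{0.99}` then, as `ω ∉ StrBad R_{k'}`
(`p = pt x R_{k'+1}`, `w = pt x R_{k'}`; `Via` because the path is a geodesic:
`T 0 p = wt = T 0 w + (rest)`, and the rest plus `ω w` is at most `T w p`),
`y (R_{k'}) ≤ y (R_{k'+1})/2 + R_{k'}^{0.9}`, i.e. `s_{k'} ≤ s_{k'+1} + R_{k'}^{-0.1}`. Otherwise
`s_{k'} ≤ R_{k'}^{-0.01} ≤ R0^{-0.01} ≤ δ²`. By downward induction
`s_{k'} ≤ δ + ∑_{i ≥ k'} R_i^{-0.1} ≤ 2 δ` (`R0^{-0.1} ≤ δ^{20}`, `∑ 2^{-i/10} ≤ 16`). So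
`y (R0) ≤ 2 δ R0`.
As `ω ∉ HgtBad (4 δ) R0 K M0`, the path has no site `(k, M0)` with `k ≤ K` (such a site has level
`≤ K + M0 < R0`, it would be `Via 0 q (pt x R0)`). Since `ω ∉ RowBad K M0` there is `1 ≤ k ≤ K` with
`∑_{i=1}^k ω (i,0) > T ω (0,1) (k, M0)`. The path reaches the column `k` (at the level `R0` the first
coordinate is larger than `K`) at a site `(k, j)`, `1 ≤ j < M0` (`x 1 = 0` gives `j ≥ 1`; it has not
reached the height `M0` before). Then `T 0 (k,j) = ω 0 + T (0,1) (k,j) ≤ ω 0 + T (0,1) (k,M0)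
 < ω 0 + ∑_{i=1}^k ω (i,0) ≤ T 0 (k,j)`: contradiction.
-/

namespace BGE

private theorem ni_split (ω : ℤ × ℤ → ℝ) (x : ℤ → ℤ) {a l b : ℤ} (h1 : a ≤ l) (h2 : l ≤ b) :
    wt ω x a b = wt ω x a l + wt ω x l b - ω (pt x l) := by
  unfold wt
  have e1 : Finset.Icc a b = Finset.Icc a l ∪ Finset.Ioc l b := by
    ext u
    simp only [Finset.mem_Icc, Finset.mem_union, Finset.mem_Ioc]
    omega
  have e2 : Finset.Icc l b = insert l (Finset.Ioc l b) := by
    ext u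
    simp only [Finset.mem_Icc, Finset.mem_insert, Finset.mem_Ioc]
    omega
  rw [e1, Finset.sum_union, e2, Finset.sum_insert (by simp)]
  · ring
  · rw [Finset.disjoint_left]
    intro u hu hu'
    simp only [Finset.mem_Icc, Finset.mem_Ioc] at hu hu'
    omega

private theorem ni_row (ω : ℤ × ℤ → ℝ) (k : ℕ) :
    T ω (0, 0) ((k : ℤ), 0) = ω (0, 0) + ∑ i ∈ Finset.Icc 1 k, ω ((i : ℤ), 0) := by
  induction k with
  | zero =>
    rw [Nat.cast_zero, T_self]
    simp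
  | succ k ih =>
    rw [T_row (u := (0, 0)) (v := (((k + 1 : ℕ) : ℤ), 0)) (by simp only; push_cast; omega) rfl]
    have e1 : ((((k + 1 : ℕ) : ℤ), (0 : ℤ)).1 - 1, (((k + 1 : ℕ) : ℤ), (0 : ℤ)).2) =
        ((k : ℤ), (0 : ℤ)) := by
      simp
    rw [e1, ih, Finset.sum_Icc_succ_top (by omega)]
    ring

/-- discrete intermediate value theorem -/
private theorem ni_ivt (f : ℤ → ℤ) (hf : ∀ l, 0 ≤ l → f (l + 1) = f l ∨ f (l + 1) = f l + 1)
    (m : ℤ) (hm : 0 ≤ m) : ∀ c, f 0 ≤ c → c ≤ f m → ∃ l, 0 ≤ l ∧ l ≤ m ∧ f l = c := by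
  induction m, hm using Int.leInduction with
  | base =>
    intro c h1 h2
    exact ⟨0, le_rfl, le_rfl, by omega⟩
  | succ m hm ih =>
    intro c h1 h2
    rcases hf m hm with h | h
    · obtain ⟨l, a1, a2, a3⟩ := ih c h1 (by omega)
      exact ⟨l, a1, by omega, a3⟩
    · rcases eq_or_ne c (f (m + 1)) with h3 | h3
      · exact ⟨m + 1, by omega, le_rfl, h3.symm⟩
      · obtain ⟨l, a1, a2, a3⟩ := ih c h1 (by omega)
        exact ⟨l, a1, by omega, a3⟩

/-- the recursion over the scales -/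
private theorem ni_scale {δ : ℝ} {R0 : ℕ} (hδ : 0 < δ) (hδ1 : δ ≤ 1 / 100)
    (hR0 : δ⁻¹ ^ 200 ≤ R0) (Y : ℕ → ℝ) (k : ℕ)
    (hmono : ∀ i, Y i ≤ Y (i + 1)) (hend : Y k ≤ δ * (2 ^ k * R0))
    (hstep : ∀ i, (2 ^ i * (R0 : ℝ)) ^ (99 / 100 : ℝ) ≤ Y (i + 1) →
      2 * Y (i + 1) ≤ 2 ^ i * R0 → Y i ≤ Y (i + 1) / 2 + (2 ^ i * (R0 : ℝ)) ^ (9 / 10 : ℝ)) :
    Y 0 ≤ 2 * δ * R0 := by
  have hR0' : (0 : ℝ) < R0 := lt_of_lt_of_le (by positivity) hR0
  set q : ℝ := (2 : ℝ) ^ (-(1 / 10) : ℝ) with hq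
  have hq0 : 0 < q := by positivity
  have hq1 : q ≤ 15 / 16 := by
    have h1 : q ^ 10 ≤ (15 / 16 : ℝ) ^ 10 := by
      have : q ^ 10 = 1 / 2 := by
        rw [hq, ← Real.rpow_natCast, ← Real.rpow_mul (by norm_num)]
        norm_num
      rw [this]
      norm_num
    exact le_of_pow_le_pow_left₀ (by norm_num) (by norm_num) h1
  set r : ℝ := (R0 : ℝ) ^ (-(1 / 10) : ℝ) with hr
  have hr0 : 0 < r := by positivity
  have hrδ : r ≤ δ ^ 20 := by
    have h1 : r ≤ (δ⁻¹ ^ 200) ^ (-(1 / 10) : ℝ) :=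
      Real.rpow_le_rpow_of_nonpos (by positivity) hR0 (by norm_num)
    refine h1.trans (le_of_eq ?_)
    rw [← Real.rpow_natCast, ← Real.rpow_mul (by positivity), Real.inv_rpow hδ.le,
      ← Real.rpow_neg hδ.le, ← Real.rpow_natCast]
    congr 1
    norm_num
  have hR2 : (R0 : ℝ) ^ (-(1 / 100) : ℝ) ≤ δ ^ 2 := by
    have h1 : (R0 : ℝ) ^ (-(1 / 100) : ℝ) ≤ (δ⁻¹ ^ 200) ^ (-(1 / 100) : ℝ) :=
      Real.rpow_le_rpow_of_nonpos (by positivity) hR0 (by norm_num)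
    refine h1.trans (le_of_eq ?_)
    rw [← Real.rpow_natCast, ← Real.rpow_mul (by positivity), Real.inv_rpow hδ.le,
      ← Real.rpow_neg hδ.le, ← Real.rpow_natCast]
    congr 1
    norm_num
  have h20 : 16 * r ≤ δ := by
    have h1 : δ ^ 20 ≤ δ ^ 2 := pow_le_pow_of_le_one hδ.le (by linarith) (by norm_num)
    have h2 : δ ^ 2 ≤ 1 / 100 * δ := by nlinarith
    nlinarith
  have hb : ∀ i : ℕ, δ + 16 * r * q ^ i ≤ 2 * δ := by
    intro i
    have h1 : q ^ i ≤ 1 := pow_le_one₀ hq0.le (by linarith)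
    have h2 : 16 * r * q ^ i ≤ 16 * r * 1 := by gcongr
    linarith
  have hRi : ∀ i : ℕ, (2 ^ i * (R0 : ℝ)) ^ (-(1 / 10) : ℝ) = r * q ^ i := by
    intro i
    rw [Real.mul_rpow (by positivity) hR0'.le, hr, hq, ← Real.rpow_natCast 2 i,
      ← Real.rpow_mul (by norm_num), ← Real.rpow_natCast _ i, ← Real.rpow_mul (by norm_num)]
    rw [mul_comm, mul_comm (i : ℝ)]
  have key : ∀ j : ℕ, j ≤ k → Y (k - j) ≤ (δ + 16 * r * q ^ (k - j)) * (2 ^ (k - j) * R0) := by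
    intro j
    induction j with
    | zero =>
      intro _
      rw [Nat.sub_zero]
      refine hend.trans ?_
      have : 0 ≤ 16 * r * q ^ k := by positivity
      gcongr
      linarith
    | succ j ih =>
      intro hj
      have h1 := ih (by omega)
      obtain ⟨i, hi⟩ : ∃ i, i = k - (j + 1) := ⟨_, rfl⟩
      have hi1 : k - j = i + 1 := by omega
      rw [hi1] at h1
      rw [← hi]
      set R : ℝ := 2 ^ i * (R0 : ℝ) with hR
      have hRp : 0 < R := by positivity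
      have hRR : (2 : ℝ) ^ (i + 1) * R0 = 2 * R := by rw [hR, pow_succ]; ring
      rw [hRR] at h1
      rcases le_or_gt (R ^ (99 / 100 : ℝ)) (Y (i + 1)) with hc | hc
      · have h2 : 2 * Y (i + 1) ≤ R := by
          have h3 := hb (i + 1)
          have h4 : (δ + 16 * r * q ^ (i + 1)) * (2 * R) ≤ (2 * δ) * (2 * R) := by gcongr
          nlinarith
        have h3 := hstep i hc h2
        have h4 : R ^ (9 / 10 : ℝ) = R * (r * q ^ i) := by
          rw [← hRi i, ← hR]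
          nth_rewrite 2 [← Real.rpow_one R]
          rw [← Real.rpow_add hRp]
          norm_num
        rw [← hR, h4] at h3
        have h5 : 16 * r * q ^ (i + 1) + r * q ^ i ≤ 16 * r * q ^ i := by
          rw [pow_succ]
          have : 0 < r * q ^ i := by positivity
          nlinarith
        have h6 : Y (i + 1) / 2 ≤ (δ + 16 * r * q ^ (i + 1)) * R := by linarith
        calc Y i ≤ (δ + 16 * r * q ^ (i + 1)) * R + R * (r * q ^ i) := by linarith
          _ = (δ + (16 * r * q ^ (i + 1) + r * q ^ i)) * R := by ring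
          _ ≤ (δ + 16 * r * q ^ i) * R := by gcongr
      · have h2 : Y i ≤ R ^ (99 / 100 : ℝ) := (hmono i).trans hc.le
        have h3 : R ^ (99 / 100 : ℝ) = R * R ^ (-(1 / 100) : ℝ) := by
          nth_rewrite 2 [← Real.rpow_one R]
          rw [← Real.rpow_add hRp]
          norm_num
        have h4 : R ^ (-(1 / 100) : ℝ) ≤ (R0 : ℝ) ^ (-(1 / 100) : ℝ) := by
          refine Real.rpow_le_rpow_of_nonpos hR0' ?_ (by norm_num)
          rw [hR]
          have : (1 : ℝ) ≤ 2 ^ i := one_le_pow₀ (by norm_num)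
          nlinarith
        have h5 : δ ^ 2 ≤ δ := by nlinarith
        have h6 : 0 ≤ 16 * r * q ^ i := by positivity
        calc Y i ≤ R * R ^ (-(1 / 100) : ℝ) := by rw [← h3]; exact h2
          _ ≤ R * (δ + 16 * r * q ^ i) := by
            gcongr
            linarith
          _ = (δ + 16 * r * q ^ i) * R := by ring
  have h0 := key k le_rfl
  rw [Nat.sub_self] at h0
  have e : (2 : ℝ) ^ 0 * (R0 : ℝ) = R0 := by rw [pow_zero, one_mul]
  rw [e] at h0
  refine h0.trans ?_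
  have := hb 0
  gcongr

theorem near_incl {δ : ℝ} {R0 K M0 : ℕ} {ω : ℤ × ℤ → ℝ} (hδ : 0 < δ) (hδ1 : δ ≤ 1 / 100)
    (hR0 : δ⁻¹ ^ 200 ≤ R0) (hK : K + M0 < R0) (hω : ∀ z, 0 ≤ ω z)
    (h1 : ∀ k : ℕ, ω ∉ StrBad (2 ^ k * R0)) (h2 : ω ∉ HgtBad (4 * δ) R0 K M0)
    (h3 : ω ∉ RowBad K M0) : ¬ RayBad ω := by
  rintro ⟨x, hx, hx0, hx1, hgeo, hclose⟩
  have hUR : ∀ a b : ℤ, 0 ≤ a → UR x a b := fun a b ha l h4 _ => hx l (ha.trans h4)
  have hxm : ∀ l m : ℤ, 0 ≤ l → l ≤ m → x l ≤ x m ∧ l - x l ≤ m - x m := by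
    intro l m hl hlm
    have := pt_le_pt (hUR 0 m le_rfl) hl hlm le_rfl
    exact ⟨this.1, this.2⟩
  have hpt0 : pt x 0 = (0, 0) := by
    unfold pt
    rw [hx0]
    rfl
  -- the path is a geodesic
  have hvia : ∀ l m : ℤ, 0 ≤ l → l ≤ m → Via ω (0, 0) (pt x l) (pt x m) := by
    intro l m hl hlm
    have a1 : ((0, 0) : ℤ × ℤ) ≤ pt x l := by
      rw [← hpt0]
      exact pt_le_pt (hUR 0 l le_rfl) le_rfl hl le_rfl
    have a2 : pt x l ≤ pt x m := pt_le_pt (hUR 0 m le_rfl) hl hlm le_rfl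
    refine ⟨a1, a2, le_antisymm ?_ (T_add_le a1 a2)⟩
    rw [← hgeo m (hl.trans hlm), ← hgeo l hl, ni_split ω x hl hlm]
    have := wt_le_T (ω := ω) (hUR l m hl) hlm
    linarith
  -- the slope at the scale `R0`
  have hslope : (((R0 : ℤ) - x R0 : ℤ) : ℝ) ≤ 2 * δ * R0 := by
    have hR0' : (0 : ℝ) < R0 := lt_of_lt_of_le (by positivity) hR0
    have hR0n : 0 < R0 := by exact_mod_cast hR0'
    obtain ⟨l, hl1, hl2⟩ := hclose (δ / 2) (by positivity) R0
    obtain ⟨m, hm⟩ : ∃ m : ℕ, (m : ℤ) = l := ⟨l.toNat, by omega⟩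
    have hmR : R0 ≤ m := by omega
    obtain ⟨k, hk1, hk2⟩ : ∃ k : ℕ, 2 ^ k * R0 ≤ m ∧ m < 2 ^ (k + 1) * R0 := by
      refine ⟨Nat.log 2 (m / R0), ?_, ?_⟩
      · have : 2 ^ Nat.log 2 (m / R0) ≤ m / R0 :=
          Nat.pow_log_le_self 2 (Nat.div_pos hmR hR0n).ne'
        exact (Nat.mul_le_mul_right R0 this).trans (Nat.div_mul_le_self m R0)
      · have : m / R0 < 2 ^ (Nat.log 2 (m / R0) + 1) := Nat.lt_pow_succ_log_self (by norm_num) _
        exact (Nat.div_lt_iff_lt_mul hR0n).1 this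
    set Y : ℕ → ℝ := fun i => ((((2 ^ i * R0 : ℕ) : ℤ) - x ((2 ^ i * R0 : ℕ) : ℤ) : ℤ) : ℝ) with hY
    have hfin := ni_scale hδ hδ1 hR0 Y k ?_ ?_ ?_
    · rw [hY] at hfin
      simpa using hfin
    · intro i
      have h4 : 2 ^ i * R0 ≤ 2 ^ (i + 1) * R0 :=
        Nat.mul_le_mul_right R0 (Nat.pow_le_pow_right (by norm_num) (Nat.le_succ i))
      have := (hxm ((2 ^ i * R0 : ℕ) : ℤ) ((2 ^ (i + 1) * R0 : ℕ) : ℤ) (by positivity)
        (by exact_mod_cast h4)).2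
      simp only [hY]
      exact_mod_cast this
    · have h4 := (hxm ((2 ^ k * R0 : ℕ) : ℤ) l (by positivity) (by rw [← hm]; exact_mod_cast hk1)).2
      have h5 : Y k ≤ ((l - x l : ℤ) : ℝ) := by
        simp only [hY]
        exact_mod_cast h4
      have h6 : (l : ℝ) ≤ 2 * (2 ^ k * R0) := by
        have : (m : ℝ) ≤ 2 ^ (k + 1) * R0 := by exact_mod_cast hk2.le
        have e : (l : ℝ) = m := by
          rw [← hm]
          norm_cast
        rw [e]
        calc (m : ℝ) ≤ 2 ^ (k + 1) * R0 := this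
          _ = 2 * (2 ^ k * R0) := by ring
      calc Y k ≤ δ / 2 * l := h5.trans hl2
        _ ≤ δ / 2 * (2 * (2 ^ k * R0)) := by gcongr
        _ = δ * (2 ^ k * R0) := by ring
    · intro i ha hb
      by_contra hcon
      rw [not_le] at hcon
      apply h1 i
      refine ⟨pt x ((2 ^ (i + 1) * R0 : ℕ) : ℤ), pt x ((2 ^ i * R0 : ℕ) : ℤ), ?_, ?_, ?_, ?_, ?_, ?_⟩
      · unfold lev pt
        push_cast
        ring
      · unfold lev pt
        push_cast
        ring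
      · have e : (((2 ^ i * R0 : ℕ) : ℝ)) = 2 ^ i * R0 := by push_cast; rfl
        rw [e]
        exact ha
      · have h5 : ((2 * (pt x ((2 ^ (i + 1) * R0 : ℕ) : ℤ)).2 : ℤ) : ℝ) ≤
            (((2 ^ i * R0 : ℕ) : ℤ) : ℝ) := by
          push_cast
          have : (((pt x ((2 ^ (i + 1) * R0 : ℕ) : ℤ)).2 : ℤ) : ℝ) = Y (i + 1) := rfl
          push_cast at this
          rw [this]
          exact hb
        exact_mod_cast h5
      · refine hvia _ _ (by positivity) ?_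
        have h4 : 2 ^ i * R0 ≤ 2 ^ (i + 1) * R0 :=
          Nat.mul_le_mul_right R0 (Nat.pow_le_pow_right (by norm_num) (Nat.le_succ i))
        exact_mod_cast h4
      · have e : (((2 ^ i * R0 : ℕ) : ℝ)) = 2 ^ i * R0 := by push_cast; rfl
        rw [e]
        exact hcon
  -- no site at the height `M0`
  have hheight : ∀ l : ℤ, 0 ≤ l → l ≤ R0 → x l ≤ K → l - x l < M0 := by
    intro l hl hlR hxl
    by_contra hcon
    rw [not_lt] at hcon
    obtain ⟨m, hm1, hm2, hm3⟩ := ni_ivt (fun l => l - x l) (fun l hl => by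
      rcases hx l hl with h | h
      · right
        simp only [h]
        ring
      · left
        simp only [h]
        ring) l hl M0 (by simp only [hx0]; omega) hcon
    apply h2
    have hxm' := hxm m l hm1 hm2
    have hx0m := hxm 0 m le_rfl hm1
    refine ⟨pt x R0, pt x m, ?_, ?_, ?_, ?_, hm3, hvia m R0 hm1 (hm2.trans hlR)⟩
    · unfold lev pt
      simp only
      ring
    · have : 0 ≤ 2 * δ * R0 := by positivity
      show (((R0 : ℤ) - x R0 : ℤ) : ℝ) ≤ 4 * δ * R0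
      linarith
    · show 0 ≤ x m
      have := hx0m.1
      omega
    · show x m ≤ K
      have := hxm'.1
      omega
  have hxR : (K : ℤ) < x R0 := by
    by_contra hcon
    rw [not_lt] at hcon
    have := hheight R0 (by positivity) le_rfl hcon
    omega
  -- the comparison with the row
  have h3' : ∃ k : ℕ, 1 ≤ k ∧ k ≤ K ∧ T ω (0, 1) ((k : ℤ), (M0 : ℤ)) <
      ∑ i ∈ Finset.Icc 1 k, ω ((i : ℤ), 0) := by
    by_contra hcon
    apply h3
    intro k hk1 hk2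
    by_contra hc
    exact hcon ⟨k, hk1, hk2, not_le.1 hc⟩
  obtain ⟨k, hk1, hk2, hk3⟩ := h3'
  obtain ⟨l, hl1, hl2, hl3⟩ := ni_ivt x hx R0 (by positivity) k (by rw [hx0]; positivity) (by omega)
  have hl4 : 1 ≤ l := by
    by_contra hcon
    have : l = 0 := by omega
    rw [this, hx0] at hl3
    omega
  have hj1 : 1 ≤ l - x l := by
    have := (hxm 1 l (by norm_num) hl4).2
    rw [hx1] at this
    omega
  have hj2 : l - x l < M0 := hheight l hl1 hl2 (by rw [hl3]; exact_mod_cast hk2)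
  have hptl : pt x l = ((k : ℤ), l - k) := by
    unfold pt
    rw [hl3]
  rw [hl3] at hj1 hj2
  have hpt1 : pt x 1 = (0, 1) := by
    unfold pt
    rw [hx1]
    rfl
  have e1 := hgeo l hl1
  rw [ni_split ω x (show (0 : ℤ) ≤ 1 by norm_num) hl4, hpt1] at e1
  have e2 : wt ω x 0 1 = ω (0, 0) + ω (0, 1) := by
    unfold wt
    have : Finset.Icc (0 : ℤ) 1 = {0, 1} := by
      ext u
      simp only [Finset.mem_Icc, Finset.mem_insert, Finset.mem_singleton]
      omega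
    rw [this, Finset.sum_pair (by norm_num), hpt0, hpt1]
  have e3 := wt_le_T (ω := ω) (hUR 1 l (by norm_num)) hl4
  rw [hpt1, hptl] at e3
  rw [hptl] at e1
  have hkc : (0 : ℤ) ≤ k := by positivity
  have e4 : T ω (0, 1) ((k : ℤ), l - k) ≤ T ω (0, 1) ((k : ℤ), (M0 : ℤ)) :=
    T_mono_ends le_rfl ⟨hkc, hj1⟩ ⟨le_rfl, hj2.le⟩ fun z _ _ => hω z
  have e5 : T ω (0, 0) ((k : ℤ), 0) ≤ T ω (0, 0) ((k : ℤ), l - k) :=
    T_mono_ends le_rfl ⟨hkc, le_rfl⟩ ⟨le_rfl, by simp only; omega⟩ fun z _ _ => hω z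
  rw [ni_row] at e5
  linarith

end BGE
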