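import Pool.Agent.BGE.CellsG
import Pool.Agent.BGE.NearC
import Pool.Agent.BGE.NearA
import Pool.Agent.BGE.NearB
import Pool.Agent.BGE.NearIncl
import Pool.Agent.BGE.Transfer
import Pool.Agent.BGE.CtSym

/-!
BGE / N6. Almost surely, at no time there is a geodesic ray which starts with the vertical edge at
the origin and gets close to the horizontal axis.

Proof. It suffices to consider the times in `[s, s+1]`, `s ∈ ℕ`; let `ε > 0`, `M0 = 6000`, `K` from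
`near_b` for `ε`. For small `δ` let `R0 = ⌈δ^{-200}⌉`. By `near_incl` (and `ae_ct_nonneg`) the event
`∃ t ∈ [s, s+1], RayBad (ct t)` is contained in the union of the events
`∃ t, ct t ∈ StrBad (2^k R0)` (`k ≥ 0`), `∃ t, ct t ∈ HgtBad (4 δ) R0 K M0`, `∃ t, ct t ∈ RowBad K M0`.
By `transfer` with `h = 1` it suffices to bound the probabilities for the discrete dynamics with mesh
`1/M`, `M` large. `RowBad`: `≤ ε` (`near_b`). `StrBad R`, `R = 2^k R0`: `cells_gen` with `h = 1`,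
`J = R^6`, `F = [0,2R]²`, `|F| ≤ 9 R²`, `η ≤ R^{-6}`: `≤ 2 R^6 exp (-R^{1/10}) + R^6 (18 R^{-4})² ≤ R^{-1}`
for `R` large; the sum over `k` is `≤ 2/R0`. `HgtBad (4δ) R0 K M0`: `J = R0^6`, `|F| ≤ 4 R0²`:
`≤ 2 R0^6 (4δ)^{2000} + R0^6 (8 R0^{-4})² ≤ δ` for small `δ`, as `R0^6 ≤ 2^6 δ^{-1200}`. Let `δ → 0`, then
`ε → 0`. (`RowBad K M0` is measurable and depends on the weights in `[0,K] × [0,M0]`.)
(Here: `δ = 1/(4 m^4)`, `R0 = m^1000`, `m` large.)
-/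

namespace BGE

open MeasureTheory ProbabilityTheory Filter Topology

/-- all times of a unit interval, for an event in a box of size `R` -/
private theorem nm_box {E : Set (ℤ × ℤ → ℝ)} (hE : MeasurableSet E) {F : Finset (ℤ × ℤ)}
    (hdep : DepOn (F : Set (ℤ × ℤ)) E) {R : ℕ} (hR : 1 ≤ R) {c e : ℝ}
    (hF : (F.card : ℝ) ≤ c * (R : ℝ) ^ 2) (he : (PI (ℤ × ℤ)).real E ≤ e) {s : ℝ} (hs : 0 ≤ s) :
    (PI DI) {x | ∃ t : ℝ, s ≤ t ∧ t ≤ s + 1 ∧ ct x t ∈ E} ≤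
      ENNReal.ofReal (2 * (R : ℝ) ^ 6 * e + 4 * c ^ 2 / (R : ℝ) ^ 2) := by
  have hR1 : (1 : ℝ) ≤ R := by exact_mod_cast hR
  have hR0 : (0 : ℝ) < R := by linarith
  have he0 : 0 ≤ e := measureReal_nonneg.trans he
  refine transfer hE hdep hs one_pos (by positivity) (M0 := R ^ 6) fun M hM hM1 => ?_
  have hMR : (0 : ℝ) < M := by exact_mod_cast hM1
  have hJ : 1 ≤ R ^ 6 := Nat.one_le_pow _ _ hR
  have hJM : ((R : ℝ) ^ 6) ≤ M := by exact_mod_cast hM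
  have h1 := cells_gen hE hdep (η := 1 / (M : ℝ)) (h := 1) (M := M) (J := R ^ 6) (by positivity)
    (by rw [mul_one_div, div_self hMR.ne']) hJ
  refine h1.trans ?_
  push_cast
  have h2 : ((R : ℝ) ^ 6 + 1) * (PI (ℤ × ℤ)).real E ≤ 2 * (R : ℝ) ^ 6 * e := by
    have h3 : (1 : ℝ) ≤ (R : ℝ) ^ 6 := one_le_pow₀ hR1
    have h4 : (0 : ℝ) ≤ (PI (ℤ × ℤ)).real E := measureReal_nonneg
    calc ((R : ℝ) ^ 6 + 1) * (PI (ℤ × ℤ)).real E ≤ (2 * (R : ℝ) ^ 6) * e := by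
          apply mul_le_mul _ he h4 (by positivity)
          linarith
      _ = _ := by ring
  have h5 : (F.card : ℝ) * (1 / (R : ℝ) ^ 6 + 1 / M) ≤ 2 * c / (R : ℝ) ^ 4 := by
    have h6 : 1 / (M : ℝ) ≤ 1 / (R : ℝ) ^ 6 := one_div_le_one_div_of_le (by positivity) hJM
    calc (F.card : ℝ) * (1 / (R : ℝ) ^ 6 + 1 / M)
        ≤ (c * (R : ℝ) ^ 2) * (1 / (R : ℝ) ^ 6 + 1 / (R : ℝ) ^ 6) := by
          apply mul_le_mul hF (by linarith) (by positivity)
          exact (Nat.cast_nonneg _).trans hF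
      _ = _ := by field_simp; ring
  have h7 : (R : ℝ) ^ 6 * ((F.card : ℝ) * (1 / (R : ℝ) ^ 6 + 1 / M)) ^ 2 ≤
      4 * c ^ 2 / (R : ℝ) ^ 2 := by
    calc (R : ℝ) ^ 6 * ((F.card : ℝ) * (1 / (R : ℝ) ^ 6 + 1 / M)) ^ 2
        ≤ (R : ℝ) ^ 6 * (2 * c / (R : ℝ) ^ 4) ^ 2 := by gcongr
      _ = _ := by field_simp; ring
  linarith

private theorem nm_card {R : ℕ} (c : ℕ) (hR : 1 ≤ R) :
    ((Finset.Icc ((0, 0) : ℤ × ℤ) (c * R, c * R) : Finset (ℤ × ℤ)).card : ℝ) ≤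
      ((c : ℝ) + 1) ^ 2 * (R : ℝ) ^ 2 := by
  have hR1 : (1 : ℝ) ≤ R := by exact_mod_cast hR
  have h1 : (Finset.Icc ((0, 0) : ℤ × ℤ) (c * R, c * R) : Finset (ℤ × ℤ)).card =
      (c * R + 1) ^ 2 := by
    rw [← Finset.Icc_product_Icc, Finset.card_product, Int.card_Icc]
    have : ((c : ℤ) * R + 1 - 0).toNat = c * R + 1 := by
      have h2 : ((c : ℤ) * R + 1 - 0) = ((c * R + 1 : ℕ) : ℤ) := by push_cast; ring
      rw [h2, Int.toNat_natCast]
    rw [this]; ring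
  rw [h1]
  push_cast
  have h3 : (0 : ℝ) ≤ c := Nat.cast_nonneg c
  calc ((c : ℝ) * R + 1) ^ 2 ≤ (((c : ℝ) + 1) * R) ^ 2 := by
        apply pow_le_pow_left₀ (by positivity)
        nlinarith
    _ = _ := by ring

private theorem nm_row_meas (K M0 : ℕ) : MeasurableSet (RowBad K M0) := by
  have : RowBad K M0 = ⋂ k : ℕ, ⋂ _ : 1 ≤ k, ⋂ _ : k ≤ K,
      {ω : ℤ × ℤ → ℝ | ∑ i ∈ Finset.Icc 1 k, ω ((i : ℤ), 0) ≤
        T ω (0, 1) ((k : ℤ), (M0 : ℤ))} := by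
    ext ω
    simp [RowBad]
  rw [this]
  refine MeasurableSet.iInter fun k => MeasurableSet.iInter fun _ => MeasurableSet.iInter fun _ => ?_
  exact measurableSet_le (by fun_prop) (measurable_T _ _)

private theorem nm_row_dep (K M0 : ℕ) (hM0 : 1 ≤ M0) :
    DepOn ((Finset.Icc ((0, 0) : ℤ × ℤ) (K, M0) : Finset (ℤ × ℤ)) : Set (ℤ × ℤ))
      (RowBad K M0) := by
  intro ω ω' h
  have key : ∀ k : ℕ, 1 ≤ k → k ≤ K →
      ((∑ i ∈ Finset.Icc 1 k, ω ((i : ℤ), 0) ≤ T ω (0, 1) ((k : ℤ), (M0 : ℤ))) ↔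
        (∑ i ∈ Finset.Icc 1 k, ω' ((i : ℤ), 0) ≤ T ω' (0, 1) ((k : ℤ), (M0 : ℤ)))) := by
    intro k h1 h2
    have e1 : ∑ i ∈ Finset.Icc 1 k, ω ((i : ℤ), 0) = ∑ i ∈ Finset.Icc 1 k, ω' ((i : ℤ), 0) := by
      refine Finset.sum_congr rfl fun i hi => h _ ?_
      rw [Finset.mem_Icc] at hi
      rw [Finset.mem_coe, Finset.mem_Icc]
      constructor
      · exact ⟨by simp, le_rfl⟩
      · refine ⟨?_, ?_⟩
        · show (i : ℤ) ≤ K
          omega
        · show (0 : ℤ) ≤ M0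
          omega
    have e2 : T ω (0, 1) ((k : ℤ), (M0 : ℤ)) = T ω' (0, 1) ((k : ℤ), (M0 : ℤ)) := by
      refine T_congr ?_ fun z hz1 hz2 => h _ ?_
      · refine ⟨?_, ?_⟩
        · show (0 : ℤ) ≤ k
          omega
        · show (1 : ℤ) ≤ M0
          omega
      · have a1 : (0 : ℤ) ≤ z.1 := hz1.1
        have a2 : (1 : ℤ) ≤ z.2 := hz1.2
        have a3 : z.1 ≤ (k : ℤ) := hz2.1
        have a4 : z.2 ≤ (M0 : ℤ) := hz2.2
        rw [Finset.mem_coe, Finset.mem_Icc]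
        refine ⟨⟨?_, ?_⟩, ⟨?_, ?_⟩⟩
        · show (0 : ℤ) ≤ z.1
          omega
        · show (0 : ℤ) ≤ z.2
          omega
        · show z.1 ≤ (K : ℤ)
          omega
        · show z.2 ≤ (M0 : ℤ)
          omega
    rw [e1, e2]
  constructor
  · intro hω k h1 h2
    exact (key k h1 h2).1 (hω k h1 h2)
  · intro hω k h1 h2
    exact (key k h1 h2).2 (hω k h1 h2)

/-- the numerical condition for the straightness event -/
private theorem nm_str_num : ∃ R2 : ℕ, 1 ≤ R2 ∧ ∀ R : ℕ, R2 ≤ R →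
    2 * (R : ℝ) ^ 6 * Real.exp (-((R : ℝ) ^ (1 / 10 : ℝ))) + 4 * 9 ^ 2 / (R : ℝ) ^ 2 ≤
      1 / (R : ℝ) := by
  have h1 : Tendsto (fun R : ℕ => (R : ℝ) ^ (1 / 10 : ℝ)) atTop atTop :=
    (tendsto_rpow_atTop (by norm_num)).comp tendsto_natCast_atTop_atTop
  have h2 := (Real.tendsto_pow_mul_exp_neg_atTop_nhds_zero 70).comp h1
  have h3 : ∀ᶠ R : ℕ in atTop, ((R : ℝ) ^ (1 / 10 : ℝ)) ^ 70 *
      Real.exp (-((R : ℝ) ^ (1 / 10 : ℝ))) < 1 / 4 := by
    have := h2.eventually (gt_mem_nhds (show (0 : ℝ) < 1 / 4 by norm_num))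
    simpa using this
  obtain ⟨R3, hR3⟩ := h3.exists_forall_of_atTop
  refine ⟨max R3 648, le_trans (by norm_num) (le_max_right _ _), fun R hR => ?_⟩
  have h4 := hR3 R ((le_max_left _ _).trans hR)
  have h5 : (648 : ℝ) ≤ R := by exact_mod_cast (le_max_right R3 648).trans hR
  have hR0 : (0 : ℝ) < R := by linarith
  have h6 : ((R : ℝ) ^ (1 / 10 : ℝ)) ^ 70 = (R : ℝ) ^ 7 := by
    rw [← Real.rpow_natCast, ← Real.rpow_mul hR0.le]
    norm_num
  rw [h6] at h4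
  have h7 : 2 * (R : ℝ) ^ 6 * Real.exp (-((R : ℝ) ^ (1 / 10 : ℝ))) ≤ 1 / 2 / R := by
    rw [le_div_iff₀ hR0]
    nlinarith
  have h8 : 4 * 9 ^ 2 / (R : ℝ) ^ 2 ≤ 1 / 2 / R := by
    rw [div_le_div_iff₀ (by positivity) hR0]
    nlinarith
  calc _ ≤ 1 / 2 / (R : ℝ) + 1 / 2 / R := add_le_add h7 h8
    _ = _ := by field_simp; norm_num

theorem near_main : ∀ᵐ x ∂(PI DI), ∀ t : ℝ, 0 ≤ t → ¬ RayBad (ct x t) := by
  obtain ⟨R1, hR1⟩ := near_c
  obtain ⟨R2, hR21, hR2⟩ := nm_str_num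
  -- one unit interval
  have key : ∀ s : ℕ, (PI DI) {x | ∃ t : ℝ, (s : ℝ) ≤ t ∧ t ≤ s + 1 ∧ RayBad (ct x t)} = 0 := by
    intro s
    refine le_antisymm (ENNReal.le_of_forall_pos_le_add fun ε hε _ => ?_) (zero_le)
    rw [zero_add]
    have hε' : (0 : ℝ) < ε := by exact_mod_cast hε
    obtain ⟨K, hK1, hK⟩ := near_b 6000 (by norm_num) (ε := (ε : ℝ) / 2) (by positivity)
    obtain ⟨δ0, hδ0, hA⟩ := near_a K 6000 hK1 (by norm_num)
    -- the choice of `m`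
    obtain ⟨m, hm4, hmδ, hmR, hmε⟩ : ∃ m : ℕ, 4 ≤ m ∧ 1 / (m : ℝ) ≤ δ0 ∧
        max (max R1 R2) (K + 6000 + 1) ≤ m ∧ 68 / (m : ℝ) ≤ ε / 2 := by
      obtain ⟨m1, hm1⟩ := exists_nat_ge (1 / δ0)
      obtain ⟨m2, hm2⟩ := exists_nat_ge (68 / (ε / 2 : ℝ))
      refine ⟨max (max (m1 + 4) m2) (max (max R1 R2) (K + 6000 + 1)), ?_, ?_, le_max_right _ _, ?_⟩
      · exact le_trans (by omega) ((le_max_left _ _).trans (le_max_left _ _))
      · have h1 : (m1 + 4 : ℕ) ≤ max (max (m1 + 4) m2) (max (max R1 R2) (K + 6000 + 1)) :=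
          (le_max_left _ _).trans (le_max_left _ _)
        have h2 : (m1 : ℝ) + 4 ≤ (max (max (m1 + 4) m2) (max (max R1 R2) (K + 6000 + 1)) : ℕ) := by
          exact_mod_cast h1
        rw [div_le_iff₀ (by have : (0 : ℝ) ≤ m1 := Nat.cast_nonneg _
                            linarith)]
        rw [div_le_iff₀ hδ0] at hm1
        nlinarith
      · have h1 : m2 ≤ max (max (m1 + 4) m2) (max (max R1 R2) (K + 6000 + 1)) :=
          (le_max_right _ _).trans (le_max_left _ _)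
        have h1' : (m1 + 4 : ℕ) ≤ max (max (m1 + 4) m2) (max (max R1 R2) (K + 6000 + 1)) :=
          (le_max_left _ _).trans (le_max_left _ _)
        have h2 : (m2 : ℝ) ≤ (max (max (m1 + 4) m2) (max (max R1 R2) (K + 6000 + 1)) : ℕ) := by
          exact_mod_cast h1
        have h3 : (m1 : ℝ) + 4 ≤ (max (max (m1 + 4) m2) (max (max R1 R2) (K + 6000 + 1)) : ℕ) := by
          exact_mod_cast h1'
        rw [div_le_iff₀ (by have : (0 : ℝ) ≤ m1 := Nat.cast_nonneg _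
                            linarith)]
        rw [div_le_iff₀ (by positivity)] at hm2
        nlinarith
    have hm4R : (4 : ℝ) ≤ m := by exact_mod_cast hm4
    have hm0 : (0 : ℝ) < m := by linarith
    have hm1 : (1 : ℝ) ≤ m := by linarith
    set δ : ℝ := 1 / (4 * (m : ℝ) ^ 4) with hδdef
    set R0 : ℕ := m ^ 1000 with hR0def
    have hδ : 0 < δ := by positivity
    have h4δ : 4 * δ = 1 / (m : ℝ) ^ 4 := by rw [hδdef]; field_simp
    have hmR0 : m ≤ R0 := Nat.le_self_pow (by norm_num) m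
    have hR01 : 1 ≤ R0 := le_trans (by omega) hmR0
    have hR0R : (R0 : ℝ) = (m : ℝ) ^ 1000 := by rw [hR0def]; push_cast; rfl
    have hδ1 : δ ≤ 1 / 100 := by
      rw [hδdef]
      apply one_div_le_one_div_of_le (by norm_num)
      have : (4 : ℝ) ^ 4 ≤ (m : ℝ) ^ 4 := pow_le_pow_left₀ (by norm_num) hm4R 4
      linarith
    have hR0δ : δ⁻¹ ^ 200 ≤ (R0 : ℝ) := by
      rw [hR0R, hδdef, one_div, inv_inv]
      have h1 : 4 * (m : ℝ) ^ 4 ≤ (m : ℝ) ^ 5 := by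
        have : (0 : ℝ) ≤ (m : ℝ) ^ 4 := by positivity
        calc 4 * (m : ℝ) ^ 4 ≤ m * (m : ℝ) ^ 4 := mul_le_mul_of_nonneg_right hm4R this
          _ = _ := by ring
      calc (4 * (m : ℝ) ^ 4) ^ 200 ≤ ((m : ℝ) ^ 5) ^ 200 :=
            pow_le_pow_left₀ (by positivity) h1 200
        _ = (m : ℝ) ^ 1000 := by rw [← pow_mul]
    have hKR0 : K + 6000 < R0 := by
      have := (le_max_right _ _).trans hmR
      omega
    have hRR1 : R1 ≤ R0 := ((le_max_left _ _).trans (le_max_left _ _)).trans (hmR.trans hmR0)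
    have hRR2 : R2 ≤ R0 := ((le_max_right _ _).trans (le_max_left _ _)).trans (hmR.trans hmR0)
    -- the three kinds of events
    have hstr : ∀ k : ℕ, (PI DI) {x | ∃ t : ℝ, (s : ℝ) ≤ t ∧ t ≤ s + 1 ∧
        ct x t ∈ StrBad (2 ^ k * R0)} ≤ ENNReal.ofReal (1 / (R0 : ℝ) * (1 / 2) ^ k) := by
      intro k
      have hk1 : 1 ≤ 2 ^ k := Nat.one_le_two_pow
      have hRk : R0 ≤ 2 ^ k * R0 := Nat.le_mul_of_pos_left _ (by positivity)
      have h1 := nm_box (measurableSet_StrBad (2 ^ k * R0)) (depOn_StrBad (2 ^ k * R0))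
        (R := 2 ^ k * R0) (hR01.trans hRk) (c := 9)
        (e := Real.exp (-(((2 ^ k * R0 : ℕ) : ℝ) ^ (1 / 10 : ℝ))))
        (by
          have := nm_card 2 (hR01.trans hRk)
          push_cast at this ⊢
          norm_num at this ⊢
          exact this)
        (hR1 _ (hRR1.trans hRk)) (Nat.cast_nonneg s)
      refine h1.trans (ENNReal.ofReal_le_ofReal ?_)
      refine (hR2 _ (hRR2.trans hRk)).trans (le_of_eq ?_)
      push_cast
      rw [one_div_pow]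
      field_simp
    have hhgt : (PI DI) {x | ∃ t : ℝ, (s : ℝ) ≤ t ∧ t ≤ s + 1 ∧
        ct x t ∈ HgtBad (4 * δ) R0 K 6000} ≤ ENNReal.ofReal (66 / (m : ℝ)) := by
      have hA' := hA (4 * δ) R0 (by positivity) (by
          rw [h4δ]
          refine le_trans ?_ hmδ
          apply one_div_le_one_div_of_le hm0
          exact le_self_pow₀ hm1 (by norm_num)) (by
          refine le_trans ?_ hR0δ
          apply pow_le_pow_left₀ (by positivity)
          apply inv_anti₀ hδ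
          linarith)
      have h1 := nm_box (measurableSet_HgtBad (4 * δ) R0 K 6000) (depOn_HgtBad (4 * δ) R0 K 6000)
        (R := R0) hR01 (c := 4) (e := (4 * δ) ^ (((6000 : ℕ) : ℝ) / 3))
        (by
          have := nm_card 1 hR01
          push_cast at this ⊢
          norm_num at this ⊢
          exact this) hA' (Nat.cast_nonneg s)
      refine h1.trans (ENNReal.ofReal_le_ofReal ?_)
      have e1 : (4 * δ) ^ (((6000 : ℕ) : ℝ) / 3) = 1 / (m : ℝ) ^ 8000 := by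
        have : ((6000 : ℕ) : ℝ) / 3 = ((2000 : ℕ) : ℝ) := by norm_num
        rw [this, Real.rpow_natCast, h4δ, one_div_pow, ← pow_mul]
      have e2 : (R0 : ℝ) ^ 6 = (m : ℝ) ^ 6000 := by rw [hR0R, ← pow_mul]
      have e3 : (m : ℝ) ^ 8000 = (m : ℝ) ^ 6000 * (m : ℝ) ^ 2000 := by rw [← pow_add]
      have e4 : 2 * (R0 : ℝ) ^ 6 * (4 * δ) ^ (((6000 : ℕ) : ℝ) / 3) = 2 / (m : ℝ) ^ 2000 := by
        rw [e1, e2, e3]
        field_simp
      have e5 : 4 * (4 : ℝ) ^ 2 / (R0 : ℝ) ^ 2 ≤ 64 / (m : ℝ) := by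
        have h2 : (m : ℝ) ≤ (R0 : ℝ) ^ 2 := by
          rw [hR0R, ← pow_mul]
          exact le_self_pow₀ hm1 (by norm_num)
        calc 4 * (4 : ℝ) ^ 2 / (R0 : ℝ) ^ 2 = 64 / (R0 : ℝ) ^ 2 := by norm_num
          _ ≤ 64 / (m : ℝ) := div_le_div_of_nonneg_left (by norm_num) hm0 h2
      have e6 : 2 / (m : ℝ) ^ 2000 ≤ 2 / (m : ℝ) :=
        div_le_div_of_nonneg_left (by norm_num) hm0 (le_self_pow₀ hm1 (by norm_num))
      rw [e4]
      calc _ ≤ 2 / (m : ℝ) + 64 / m := add_le_add e6 e5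
        _ = _ := by ring
    have hrow : (PI DI) {x | ∃ t : ℝ, (s : ℝ) ≤ t ∧ t ≤ s + 1 ∧
        ct x t ∈ RowBad K 6000} ≤ ENNReal.ofReal ((ε : ℝ) / 2) := by
      refine transfer (nm_row_meas K 6000) (nm_row_dep K 6000 (by norm_num)) (Nat.cast_nonneg s)
        one_pos (by positivity) (M0 := 1) fun M hM _ => ?_
      have hMR : (0 : ℝ) < M := by exact_mod_cast hM
      exact hK (1 / M) M (by positivity) (by rw [mul_one_div, div_self hMR.ne'])
    -- the union bound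
    have hsub : (PI DI) {x | ∃ t : ℝ, (s : ℝ) ≤ t ∧ t ≤ s + 1 ∧ RayBad (ct x t)} ≤
        (PI DI) ((⋃ k : ℕ, {x | ∃ t : ℝ, (s : ℝ) ≤ t ∧ t ≤ s + 1 ∧
          ct x t ∈ StrBad (2 ^ k * R0)}) ∪
          ({x | ∃ t : ℝ, (s : ℝ) ≤ t ∧ t ≤ s + 1 ∧ ct x t ∈ HgtBad (4 * δ) R0 K 6000} ∪
          {x | ∃ t : ℝ, (s : ℝ) ≤ t ∧ t ≤ s + 1 ∧ ct x t ∈ RowBad K 6000})) := by
      refine measure_mono_ae ?_
      filter_upwards [ae_ct_nonneg] with x hx
      rintro ⟨t, ht1, ht2, hbad⟩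
      by_contra hcon
      have hcon' : ¬ ((∃ k : ℕ, ∃ t : ℝ, (s : ℝ) ≤ t ∧ t ≤ s + 1 ∧
          ct x t ∈ StrBad (2 ^ k * R0)) ∨
          ((∃ t : ℝ, (s : ℝ) ≤ t ∧ t ≤ s + 1 ∧ ct x t ∈ HgtBad (4 * δ) R0 K 6000) ∨
          (∃ t : ℝ, (s : ℝ) ≤ t ∧ t ≤ s + 1 ∧ ct x t ∈ RowBad K 6000))) := by
        rintro (⟨k, hk⟩ | h | h)
        · exact hcon (Or.inl (Set.mem_iUnion.2 ⟨k, hk⟩))
        · exact hcon (Or.inr (Or.inl h))
        · exact hcon (Or.inr (Or.inr h))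
      push Not at hcon'
      obtain ⟨g1, g2, g3⟩ := hcon'
      exact near_incl hδ hδ1 hR0δ hKR0 (hx t) (fun k => g1 k t ht1 ht2) (g2 t ht1 ht2)
        (g3 t ht1 ht2) hbad
    refine hsub.trans ((measure_union_le _ _).trans ?_)
    have hsum : (PI DI) (⋃ k : ℕ, {x | ∃ t : ℝ, (s : ℝ) ≤ t ∧ t ≤ s + 1 ∧
          ct x t ∈ StrBad (2 ^ k * R0)}) ≤ ENNReal.ofReal (2 / (m : ℝ)) := by
      refine (measure_iUnion_le _).trans ((ENNReal.tsum_le_tsum hstr).trans ?_)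
      have hgs : Summable (fun k : ℕ => 1 / (R0 : ℝ) * (1 / 2) ^ k) :=
        (summable_geometric_of_lt_one (by norm_num) (by norm_num)).mul_left _
      rw [← ENNReal.ofReal_tsum_of_nonneg (fun k => by positivity) hgs, tsum_mul_left,
        tsum_geometric_of_lt_one (by norm_num) (by norm_num)]
      apply ENNReal.ofReal_le_ofReal
      have h2 : (m : ℝ) ≤ R0 := by exact_mod_cast hmR0
      calc 1 / (R0 : ℝ) * (1 - 1 / 2)⁻¹ = 2 / R0 := by norm_num; ring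
        _ ≤ 2 / m := div_le_div_of_nonneg_left (by norm_num) hm0 h2
    calc _ ≤ ENNReal.ofReal (2 / (m : ℝ)) +
          (ENNReal.ofReal (66 / (m : ℝ)) + ENNReal.ofReal ((ε : ℝ) / 2)) :=
          add_le_add hsum ((measure_union_le _ _).trans (add_le_add hhgt hrow))
      _ = ENNReal.ofReal (2 / (m : ℝ) + (66 / (m : ℝ) + (ε : ℝ) / 2)) := by
          rw [ENNReal.ofReal_add (by positivity) (by positivity),
            ENNReal.ofReal_add (by positivity) (by positivity)]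
      _ ≤ ENNReal.ofReal (ε : ℝ) := by
          apply ENNReal.ofReal_le_ofReal
          have : 2 / (m : ℝ) + (66 / (m : ℝ) + (ε : ℝ) / 2) = 68 / m + ε / 2 := by ring
          rw [this]
          linarith
      _ = ε := ENNReal.ofReal_coe_nnreal
  have hall : ∀ᵐ x ∂(PI DI), ∀ s : ℕ,
      ¬ ∃ t : ℝ, (s : ℝ) ≤ t ∧ t ≤ s + 1 ∧ RayBad (ct x t) := by
    rw [ae_all_iff]
    intro s
    rw [ae_iff]
    simp only [not_not]
    exact key s
  filter_upwards [hall] with x hx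
  intro t ht hbad
  exact hx ⌊t⌋₊ ⟨t, Nat.floor_le ht, (Nat.lt_floor_add_one t).le, hbad⟩

end BGE
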