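import Pool.Agent.BGE.Harris
import Pool.Agent.BGE.Walk

/-!
BGE / R3, R4, R5. Persistence estimates for the walks `walkM p q`, `p, q ∈ [κ, 1]`,
with `|1/p - 1/q| √N ≤ c₁`.

`persist`: `P(Sw n ≤ a for all n ≤ N) ≤ C (a+1)/√N`.
`persist_mean`: moreover `E[(a - Sw N); Sw n ≤ a ∀ n ≤ N] ≤ C (a+1)`.

Proof. Let `m = 1/p - 1/q`, `h b = b + 1/p`, `P_N = P(Sw n ≤ a ∀ 1 ≤ n ≤ N)`,
`V_N = E[(a - Sw N); Sw n ≤ a ∀ n ≤ N]`. For `b ≥ 0`, by `step_mean` and `step_over`,
`E[h (b - ξ); ξ ≤ b] = h b - m - E[h (b - ξ); ξ > b] = h b - m` (`E[(b - ξ + 1/p); ξ > b] = 0`).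
Applying this to the last step with `b = a - Sw N`: `V_{N+1} + P_{N+1}/p = V_N + P_N/p - m P_N`, hence
`V_N + P_N/p = h a - m ∑_{i < N} P_i` (`P_0 = 1`).
By `harris` (applied to the steps; `(a - Sw N)^+` and the indicator of the event are antitone)
`V_N ≥ P_N E (a - Sw N)^+ ≥ P_N c₂ √N` (`walk_neg_part`). By induction on `N`: if
`P_i ≤ C h a/√i` for `1 ≤ i < N` then `∑_{i<N} P_i ≤ 1 + 2 C h a √N`,
`c₂ √N P_N ≤ h a + |m| + 2 C h a |m| √N ≤ h a (1 + c₁ + 2 C c₁)`; with `c₁ ≤ min 1 (c₂/4)` and
`C ≥ 4/c₂` this gives `P_N ≤ C h a/√N`. (`h a ≥ 1` as `p ≤ 1`.) And then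
`V_N ≤ h a + |m| ∑ P_i ≤ C' (a + 1)`.

-/

namespace BGE

open MeasureTheory ProbabilityTheory

section aux

variable {p q : ℝ}

private lemma persist_indep (p q : ℝ) :
    iIndepFun (fun (i : ℕ) (x : ℕ → ℝ) => x i) (walkM p q) := by
  rw [iIndepFun_iff_map_fun_eq_infinitePi_map (by fun_prop)]
  have h1 : ∀ i : ℕ, (walkM p q).map (fun x : ℕ → ℝ => x i) = stepLaw p q := fun i => by
    unfold walkM
    exact Measure.infinitePi_map_eval _ i
  simp only [h1]
  exact Measure.map_id

private lemma persist_eval (p q : ℝ) (i : ℕ) :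
    (walkM p q).map (fun x : ℕ → ℝ => x i) = stepLaw p q := by
  unfold walkM
  exact Measure.infinitePi_map_eval _ i

private lemma persist_split (n : ℕ) (G : (ℕ → ℝ) → ℝ → ℝ)
    (hG : ∀ x y : ℕ → ℝ, (∀ i < n, x i = y i) → G x = G y)
    (hm : Measurable (Function.uncurry G))
    (hint : Integrable (fun x : ℕ → ℝ => G x (x n)) (walkM p q)) :
    ∫ x, G x (x n) ∂(walkM p q) = ∫ x, ∫ ξ, G x ξ ∂(stepLaw p q) ∂(walkM p q) := by
  classical
  set Y : (ℕ → ℝ) → (Finset.range n → ℝ) := fun x i => x i with hY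
  have hYm : Measurable Y := by fun_prop
  set E : (Finset.range n → ℝ) → (ℕ → ℝ) := fun y i =>
    if h : i ∈ Finset.range n then y ⟨i, h⟩ else 0 with hE
  have hEm : Measurable E := by
    rw [measurable_pi_iff]
    intro i
    by_cases h : i ∈ Finset.range n
    · have : (fun y : Finset.range n → ℝ => E y i) = fun y => y ⟨i, h⟩ := by
        funext y
        simp only [hE, dif_pos h]
      rw [this]
      exact measurable_pi_apply _
    · have : (fun y : Finset.range n → ℝ => E y i) = fun y => 0 := by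
        funext y
        simp only [hE, dif_neg h]
      rw [this]
      exact measurable_const
  have hGE : ∀ x, G x = G (E (Y x)) := by
    intro x
    apply hG
    intro i hi
    simp only [hE, hY, dif_pos (Finset.mem_range.2 hi)]
  have hind := persist_indep p q
  have h1 : IndepFun Y (fun (x : ℕ → ℝ) (i : ({n} : Finset ℕ)) => x i) (walkM p q) :=
    hind.indepFun_finset (Finset.range n) {n} (by simp) (fun i => measurable_pi_apply i)
  have h2 : IndepFun Y (fun x : ℕ → ℝ => x n) (walkM p q) :=
    h1.comp measurable_id (measurable_pi_apply (⟨n, Finset.mem_singleton_self n⟩ :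
      ({n} : Finset ℕ)))
  have h3 : (walkM p q).map (fun x => (Y x, x n)) =
      ((walkM p q).map Y).prod (stepLaw p q) := by
    rw [(indepFun_iff_map_prod_eq_prod_map_map hYm.aemeasurable
      (measurable_pi_apply n).aemeasurable).1 h2, persist_eval]
  set φ : (Finset.range n → ℝ) × ℝ → ℝ := fun z => G (E z.1) z.2 with hφ
  have hφm : Measurable φ := hm.comp ((hEm.comp measurable_fst).prodMk measurable_snd)
  have hYX : Measurable fun x : ℕ → ℝ => (Y x, x n) := hYm.prodMk (measurable_pi_apply n)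
  have e1 : ∫ x, G x (x n) ∂(walkM p q) = ∫ z, φ z ∂((walkM p q).map (fun x => (Y x, x n))) := by
    rw [integral_map hYX.aemeasurable hφm.aestronglyMeasurable]
    refine integral_congr_ae (Filter.Eventually.of_forall fun x => ?_)
    simp only [hφ]
    rw [← hGE]
  have hφi : Integrable φ (((walkM p q).map Y).prod (stepLaw p q)) := by
    rw [← h3, integrable_map_measure hφm.aestronglyMeasurable hYX.aemeasurable]
    refine hint.congr (Filter.Eventually.of_forall fun x => ?_)
    simp only [hφ, Function.comp]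
    rw [← hGE]
  rw [e1, h3, integral_prod φ hφi, integral_map hYm.aemeasurable]
  · refine integral_congr_ae (Filter.Eventually.of_forall fun x => ?_)
    simp only [hφ]
    rw [← hGE]
  · exact hφi.integral_prod_left.aestronglyMeasurable

private lemma persist_Sw_meas (n : ℕ) : Measurable fun x : ℕ → ℝ => Sw x n := by
  unfold Sw
  fun_prop

private lemma persist_stay_meas (a : ℝ) (n : ℕ) : MeasurableSet (Stay a n) := by
  have : Stay a n = ⋂ i ∈ Finset.range (n + 1), {x : ℕ → ℝ | Sw x i ≤ a} := by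
    ext x
    simp only [Stay, Set.mem_ofPred_eq, Set.mem_iInter, Finset.mem_range, Nat.lt_succ_iff]
  rw [this]
  exact Finset.measurableSet_biInter _ fun i _ =>
    measurableSet_le (persist_Sw_meas i) measurable_const

private lemma persist_x_int (hp : 0 < p) (hq : 0 < q) (i : ℕ) :
    Integrable (fun x : ℕ → ℝ => x i) (walkM p q) := by
  have h1 : Integrable (fun x : ℝ => x) (stepLaw p q) := by
    simpa using step_integrable hp hq 1
  have h2 := persist_eval p q i
  rw [← h2] at h1
  exact (integrable_map_measure (f := fun x : ℕ → ℝ => x i) (g := fun x : ℝ => x)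
    measurable_id'.aestronglyMeasurable (measurable_pi_apply i).aemeasurable).1 h1

private lemma persist_Sw_int (hp : 0 < p) (hq : 0 < q) (n : ℕ) :
    Integrable (fun x : ℕ → ℝ => Sw x n) (walkM p q) := by
  unfold Sw
  exact integrable_finsetSum _ fun i _ => persist_x_int hp hq i

private lemma persist_Sw_succ (x : ℕ → ℝ) (n : ℕ) : Sw x (n + 1) = Sw x n + x n := by
  unfold Sw
  exact Finset.sum_range_succ _ _

private lemma persist_stay_succ (a : ℝ) (n : ℕ) (x : ℕ → ℝ) :
    x ∈ Stay a (n + 1) ↔ x ∈ Stay a n ∧ x n ≤ a - Sw x n := by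
  constructor
  · intro h
    refine ⟨fun i hi => h i (by omega), ?_⟩
    have := h (n + 1) le_rfl
    rw [persist_Sw_succ] at this
    linarith
  · rintro ⟨h1, h2⟩ i hi
    rcases Nat.lt_or_ge i (n + 1) with h | h
    · exact h1 i (by omega)
    · have : i = n + 1 := le_antisymm hi h
      rw [this, persist_Sw_succ]
      linarith

/-- The integral of one step. -/
private lemma persist_step (hp : 0 < p) (hq : 0 < q) {b : ℝ} (hb : 0 ≤ b) :
    ∫ ξ, (if ξ ≤ b then b - ξ + 1 / p else 0) ∂(stepLaw p q) =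
      b + 1 / p - (1 / p - 1 / q) := by
  have h1 : Integrable (fun x : ℝ => x) (stepLaw p q) := by
    simpa using step_integrable hp hq 1
  have h2 : Integrable (fun ξ : ℝ => b - ξ + 1 / p) (stepLaw p q) :=
    ((integrable_const b).sub h1).add (integrable_const _)
  have h3 : (fun ξ : ℝ => (if ξ ≤ b then b - ξ + 1 / p else 0)) =
      fun ξ => (b - ξ + 1 / p) - (Set.Ioi b).indicator (fun ξ => b - ξ + 1 / p) ξ := by
    funext ξ
    by_cases h : ξ ≤ b
    · rw [if_pos h, Set.indicator_of_notMem (by simpa using h), sub_zero]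
    · rw [if_neg h, Set.indicator_of_mem (by simpa using h), sub_self]
  have h4 : ∫ ξ, (b - ξ + 1 / p) ∂(stepLaw p q) = b + 1 / p - (1 / p - 1 / q) := by
    have e : (fun ξ : ℝ => b - ξ + 1 / p) = fun ξ => (b + 1 / p) - ξ := by
      funext ξ
      ring
    rw [e, integral_sub (integrable_const _) h1, step_mean hp hq, integral_const,
      probReal_univ, one_smul]
  have h5 : ∫ ξ in Set.Ioi b, (b - ξ + 1 / p) ∂(stepLaw p q) = 0 := by
    have e : (fun ξ : ℝ => b - ξ + 1 / p) = fun ξ => 1 / p - (ξ - b) := by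
      funext ξ
      ring
    have h6 : Integrable (fun ξ : ℝ => ξ - b) (stepLaw p q) := h1.sub (integrable_const b)
    rw [e, integral_sub (integrable_const _) h6.integrableOn, step_over hp hq hb, integral_const,
      smul_eq_mul]
    simp only [measureReal_restrict_apply_univ]
    ring
  rw [h3, integral_sub h2 (h2.indicator measurableSet_Ioi), integral_indicator measurableSet_Ioi,
    h4, h5, sub_zero]

/-- `V_N + P_N / p = a + 1/p - m ∑_{i < N} P_i`. -/
private lemma persist_rec (hp : 0 < p) (hq : 0 < q) {a : ℝ} (ha : 0 ≤ a) (N : ℕ) :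
    ∫ x in Stay a N, (a - Sw x N) ∂(walkM p q) + (walkM p q).real (Stay a N) * (1 / p) =
      a + 1 / p - (1 / p - 1 / q) * ∑ i ∈ Finset.range N, (walkM p q).real (Stay a i) := by
  classical
  have hcomb : ∀ (n : ℕ) (c : ℝ), ∫ x in Stay a n, (a - Sw x n) ∂(walkM p q) +
      (walkM p q).real (Stay a n) * c = ∫ x in Stay a n, (a - Sw x n + c) ∂(walkM p q) := by
    intro n c
    have h1 : Integrable (fun x : ℕ → ℝ => a - Sw x n) (walkM p q) :=
      (integrable_const a).sub (persist_Sw_int hp hq n)
    rw [integral_add h1.integrableOn (integrable_const c), integral_const, smul_eq_mul,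
      measureReal_restrict_apply_univ]
  induction N with
  | zero =>
    have h1 : Stay a 0 = Set.univ := by
      ext x
      simp only [Stay, Set.mem_ofPred_eq, Set.mem_univ, iff_true]
      intro n hn
      have : n = 0 := by omega
      rw [this]
      simpa [Sw] using ha
    rw [h1]
    simp [Sw]
  | succ n ih =>
    rw [hcomb]
    set G : (ℕ → ℝ) → ℝ → ℝ := fun x ξ => (Stay a n).indicator
      (fun x => if ξ ≤ a - Sw x n then (a - Sw x n) - ξ + 1 / p else 0) x with hG
    have hGx : ∀ x, (Stay a (n + 1)).indicator (fun x => a - Sw x (n + 1) + 1 / p) x =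
        G x (x n) := by
      intro x
      rw [hG]
      simp only
      by_cases h : x ∈ Stay a n
      · rw [Set.indicator_of_mem h]
        by_cases h' : x n ≤ a - Sw x n
        · rw [if_pos h', Set.indicator_of_mem ((persist_stay_succ a n x).2 ⟨h, h'⟩),
            persist_Sw_succ]
          ring
        · rw [if_neg h', Set.indicator_of_notMem]
          intro h2
          exact h' ((persist_stay_succ a n x).1 h2).2
      · rw [Set.indicator_of_notMem h, Set.indicator_of_notMem]
        intro h2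
        exact h ((persist_stay_succ a n x).1 h2).1
    have hmeas : Measurable (Function.uncurry G) := by
      have h1 : Function.uncurry G = (Prod.fst ⁻¹' (Stay a n) : Set ((ℕ → ℝ) × ℝ)).indicator
          (fun z => if z.2 ≤ a - Sw z.1 n then (a - Sw z.1 n) - z.2 + 1 / p else 0) := by
        funext z
        rfl
      rw [h1]
      refine Measurable.indicator ?_ (measurable_fst (persist_stay_meas a n))
      have h2 : Measurable fun z : (ℕ → ℝ) × ℝ => Sw z.1 n :=
        (persist_Sw_meas n).comp measurable_fst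
      exact Measurable.ite (measurableSet_le measurable_snd (measurable_const.sub h2))
        (((measurable_const.sub h2).sub measurable_snd).add measurable_const) measurable_const
    have hint : Integrable (fun x : ℕ → ℝ => G x (x n)) (walkM p q) := by
      have h1 : Integrable (fun x : ℕ → ℝ => a - Sw x (n + 1) + 1 / p) (walkM p q) :=
        ((integrable_const a).sub (persist_Sw_int hp hq (n + 1))).add (integrable_const _)
      exact (h1.indicator (persist_stay_meas a (n + 1))).congr
        (Filter.Eventually.of_forall hGx)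
    have hdep : ∀ x y : ℕ → ℝ, (∀ i < n, x i = y i) → G x = G y := by
      intro x y hxy
      have h1 : ∀ k ≤ n, Sw x k = Sw y k := by
        intro k hk
        unfold Sw
        refine Finset.sum_congr rfl fun i hi => hxy i ?_
        rw [Finset.mem_range] at hi
        omega
      have h2 : x ∈ Stay a n ↔ y ∈ Stay a n := by
        constructor
        · intro h k hk
          rw [← h1 k hk]
          exact h k hk
        · intro h k hk
          rw [h1 k hk]
          exact h k hk
      funext ξ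
      rw [hG]
      simp only
      by_cases h : x ∈ Stay a n
      · rw [Set.indicator_of_mem h, Set.indicator_of_mem (h2.1 h), h1 n le_rfl]
      · rw [Set.indicator_of_notMem h, Set.indicator_of_notMem (fun h' => h (h2.2 h'))]
    have e1 : ∫ x in Stay a (n + 1), (a - Sw x (n + 1) + 1 / p) ∂(walkM p q) =
        ∫ x, G x (x n) ∂(walkM p q) := by
      rw [← integral_indicator (persist_stay_meas a (n + 1))]
      exact integral_congr_ae (Filter.Eventually.of_forall hGx)
    have e2 : ∀ x, ∫ ξ, G x ξ ∂(stepLaw p q) =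
        (Stay a n).indicator (fun x => a - Sw x n + (1 / p - (1 / p - 1 / q))) x := by
      intro x
      rw [hG]
      simp only
      by_cases h : x ∈ Stay a n
      · simp only [Set.indicator_of_mem h]
        rw [persist_step hp hq (by linarith [h n le_rfl])]
        ring
      · simp only [Set.indicator_of_notMem h, integral_zero]
    rw [e1, persist_split n G hdep hmeas hint]
    simp only [e2]
    rw [integral_indicator (persist_stay_meas a n), ← hcomb, Finset.sum_range_succ]
    linarith [ih]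

/-- The law of the first `N` steps. -/
private lemma persist_pi (p q : ℝ) (N : ℕ) :
    (walkM p q).map (fun (x : ℕ → ℝ) (i : Fin N) => x i) =
      Measure.pi (fun _ : Fin N => stepLaw p q) := by
  have h1 : iIndepFun (fun (i : Fin N) (x : ℕ → ℝ) => x i) (walkM p q) :=
    (persist_indep p q).precomp Fin.val_injective
  rw [(iIndepFun_iff_map_fun_eq_pi_map (fun i => (measurable_pi_apply _).aemeasurable)).1 h1]
  congr 1
  funext i
  exact persist_eval p q i

private lemma persist_harris (hp : 0 < p) (hq : 0 < q) (a : ℝ) (N : ℕ) :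
    (walkM p q).real (Stay a N) * ∫ x, max (a - Sw x N) 0 ∂(walkM p q) ≤
      ∫ x in Stay a N, (a - Sw x N) ∂(walkM p q) := by
  classical
  set S : (Fin N → ℝ) → ℕ → ℝ := fun y n => ∑ i : Fin N, if (i : ℕ) < n then y i else 0 with hS
  have hSm : ∀ n, Measurable fun y => S y n := by
    intro n
    refine Finset.measurable_sum _ fun i _ => ?_
    split_ifs
    · exact measurable_pi_apply i
    · exact measurable_const
  have hSx : ∀ (x : ℕ → ℝ) (n : ℕ), n ≤ N → S (fun i => x i) n = Sw x n := by
    intro x n hn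
    rw [hS]
    simp only
    rw [Fin.sum_univ_eq_sum_range (fun i => if i < n then x i else 0) N, ← Finset.sum_filter]
    unfold Sw
    congr 1
    ext i
    simp only [Finset.mem_filter, Finset.mem_range]
    omega
  have hSmono : ∀ n, Monotone fun y => S y n := by
    intro n y y' h
    refine Finset.sum_le_sum fun i _ => ?_
    split_ifs
    · exact h i
    · exact le_rfl
  set A : Set (Fin N → ℝ) := {y | ∀ n ≤ N, S y n ≤ a} with hA
  have hAm : MeasurableSet A := by
    have : A = ⋂ i ∈ Finset.range (N + 1), {y : Fin N → ℝ | S y i ≤ a} := by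
      ext y
      simp only [hA, Set.mem_ofPred_eq, Set.mem_iInter, Finset.mem_range, Nat.lt_succ_iff]
    rw [this]
    exact Finset.measurableSet_biInter _ fun i _ => measurableSet_le (hSm i) measurable_const
  set f : (Fin N → ℝ) → ENNReal := A.indicator (fun _ => 1) with hf
  set g : (Fin N → ℝ) → ENNReal := fun y => ENNReal.ofReal (max (a - S y N) 0) with hg
  have hfm : Measurable f := measurable_const.indicator hAm
  have hgm : Measurable g :=
    ENNReal.measurable_ofReal.comp ((measurable_const.sub (hSm N)).max measurable_const)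
  have hfa : Antitone f := by
    intro y y' h
    rw [hf]
    by_cases h' : y' ∈ A
    · have : y ∈ A := fun n hn => (hSmono n h).trans (h' n hn)
      rw [Set.indicator_of_mem h', Set.indicator_of_mem this]
    · rw [Set.indicator_of_notMem h']
      exact zero_le
  have hga : Antitone g := by
    intro y y' h
    refine ENNReal.ofReal_le_ofReal (max_le_max ?_ le_rfl)
    have := hSmono N h
    simp only at this
    linarith
  have hH := harris (fun _ : Fin N => stepLaw p q) hfm hgm hfa hga
  rw [← persist_pi p q N] at hH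
  have hYm : Measurable fun (x : ℕ → ℝ) (i : Fin N) => x i := by fun_prop
  have hfgm : Measurable fun y => f y * g y := hfm.mul hgm
  rw [lintegral_map hfm hYm, lintegral_map hgm hYm, lintegral_map hfgm hYm] at hH
  have hmem : ∀ x : ℕ → ℝ, (fun i : Fin N => x i) ∈ A ↔ x ∈ Stay a N := by
    intro x
    constructor
    · intro h n hn
      rw [← hSx x n hn]
      exact h n hn
    · intro h n hn
      rw [hSx x n hn]
      exact h n hn
  have hfx : ∀ x : ℕ → ℝ, f (fun i => x i) = (Stay a N).indicator (fun _ => (1 : ENNReal)) x := by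
    intro x
    rw [hf]
    by_cases h : x ∈ Stay a N
    · rw [Set.indicator_of_mem h, Set.indicator_of_mem ((hmem x).2 h)]
    · rw [Set.indicator_of_notMem h, Set.indicator_of_notMem (fun h' => h ((hmem x).1 h'))]
  have hgx : ∀ x : ℕ → ℝ, g (fun i => x i) = ENNReal.ofReal (max (a - Sw x N) 0) := by
    intro x
    rw [hg]
    simp only
    rw [hSx x N le_rfl]
  simp only [hfx, hgx] at hH
  have hint : Integrable (fun x : ℕ → ℝ => a - Sw x N) (walkM p q) :=
    (integrable_const a).sub (persist_Sw_int hp hq N)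
  have hintm : Integrable (fun x : ℕ → ℝ => max (a - Sw x N) 0) (walkM p q) := hint.pos_part
  have e1 : ∫⁻ x, (Stay a N).indicator (fun _ => (1 : ENNReal)) x ∂(walkM p q) =
      ENNReal.ofReal ((walkM p q).real (Stay a N)) := by
    rw [lintegral_indicator_const (persist_stay_meas a N), one_mul, ofReal_measureReal]
  have e2 : ∫⁻ x, ENNReal.ofReal (max (a - Sw x N) 0) ∂(walkM p q) =
      ENNReal.ofReal (∫ x, max (a - Sw x N) 0 ∂(walkM p q)) :=
    (ofReal_integral_eq_lintegral_ofReal hintm (Filter.Eventually.of_forall fun x =>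
      le_max_right _ _)).symm
  have e3 : ∫⁻ x, (Stay a N).indicator (fun _ => (1 : ENNReal)) x *
      ENNReal.ofReal (max (a - Sw x N) 0) ∂(walkM p q) =
      ENNReal.ofReal (∫ x in Stay a N, (a - Sw x N) ∂(walkM p q)) := by
    rw [← integral_indicator (persist_stay_meas a N),
      ofReal_integral_eq_lintegral_ofReal (hint.indicator (persist_stay_meas a N))
      (Filter.Eventually.of_forall fun x => ?_)]
    · refine lintegral_congr fun x => ?_
      by_cases h : x ∈ Stay a N
      · rw [Set.indicator_of_mem h, Set.indicator_of_mem h, one_mul,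
          max_eq_left (by linarith [h N le_rfl])]
      · rw [Set.indicator_of_notMem h, Set.indicator_of_notMem h, zero_mul, ENNReal.ofReal_zero]
    · by_cases h : x ∈ Stay a N
      · rw [Set.indicator_of_mem h]
        change (0 : ℝ) ≤ _
        linarith [h N le_rfl]
      · rw [Set.indicator_of_notMem h]
        exact le_rfl
  rw [e1, e2, e3, ← ENNReal.ofReal_mul measureReal_nonneg] at hH
  refine (ENNReal.ofReal_le_ofReal_iff ?_).1 hH
  refine setIntegral_nonneg (persist_stay_meas a N) fun x hx => ?_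
  linarith [hx N le_rfl]

private lemma persist_sqrt_sum (M : ℕ) :
    ∑ i ∈ Finset.range M, 1 / √((i + 1 : ℕ) : ℝ) ≤ 2 * √(M : ℝ) := by
  induction M with
  | zero => simp
  | succ M ih =>
    rw [Finset.sum_range_succ]
    have h1 : 0 < √((M + 1 : ℕ) : ℝ) := Real.sqrt_pos.2 (by positivity)
    have h2 : √(M : ℝ) ≤ √((M + 1 : ℕ) : ℝ) := Real.sqrt_le_sqrt (by push_cast; linarith)
    have h3 : √((M + 1 : ℕ) : ℝ) ^ 2 = M + 1 := by
      rw [Real.sq_sqrt (by positivity)]
      push_cast
      ring
    have h4 : √(M : ℝ) ^ 2 = M := Real.sq_sqrt (by positivity)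
    have h5 : 1 / √((M + 1 : ℕ) : ℝ) ≤ 2 * (√((M + 1 : ℕ) : ℝ) - √(M : ℝ)) := by
      rw [div_le_iff₀ h1]
      nlinarith [sq_nonneg (√((M + 1 : ℕ) : ℝ) - √(M : ℝ)), Real.sqrt_nonneg (M : ℝ)]
    linarith

end aux

theorem persist {κ : ℝ} (hκ : 0 < κ) : ∃ C c₁ : ℝ, 0 < C ∧ 0 < c₁ ∧ ∀ p q : ℝ, κ ≤ p → p ≤ 1 →
    κ ≤ q → q ≤ 1 → ∀ N : ℕ, 1 ≤ N → |1 / p - 1 / q| * √N ≤ c₁ → ∀ a : ℝ, 0 ≤ a →
    (walkM p q).real (Stay a N) ≤ C * (a + 1) / √N ∧
    ∫ x in Stay a N, (a - Sw x N) ∂(walkM p q) ≤ C * (a + 1) := by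
  obtain ⟨c₂, hc₂, hneg⟩ := walk_neg_part hκ
  refine ⟨(4 / c₂ + 4) / κ, min 1 (c₂ / 4), by positivity, lt_min one_pos (by positivity), ?_⟩
  intro p q hκp hp1 hκq hq1 N hN hmN a ha
  have hp : 0 < p := lt_of_lt_of_le hκ hκp
  have hq : 0 < q := lt_of_lt_of_le hκ hκq
  set m : ℝ := 1 / p - 1 / q with hm
  set c₁ : ℝ := min 1 (c₂ / 4) with hc₁
  have hc11 : c₁ ≤ 1 := min_le_left _ _
  have hc12 : c₁ ≤ c₂ / 4 := min_le_right _ _
  set h : ℝ := a + 1 / p with hh
  have hp1' : 1 ≤ 1 / p := by
    rw [le_div_iff₀ hp]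
    linarith
  have hh1 : 1 ≤ h := by linarith
  set P : ℕ → ℝ := fun n => (walkM p q).real (Stay a n) with hP
  have hP0 : ∀ n, 0 ≤ P n := fun n => measureReal_nonneg
  have hP1 : ∀ n, P n ≤ 1 := fun n => measureReal_le_one
  set C₀ : ℝ := 4 / c₂ with hC₀
  have hC₀pos : 0 < C₀ := by positivity
  -- the sum of the probabilities
  have hsum : ∀ n : ℕ, 1 ≤ n → (∀ i, 1 ≤ i → i < n → P i ≤ C₀ * h / √i) →
      ∑ i ∈ Finset.range n, P i ≤ 1 + 2 * C₀ * h * √n := by
    intro n hn hi
    obtain ⟨k, rfl⟩ : ∃ k, n = k + 1 := ⟨n - 1, by omega⟩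
    rw [Finset.sum_range_succ']
    have h1 : ∑ i ∈ Finset.range k, P (i + 1) ≤ C₀ * h * (2 * √(k : ℝ)) := by
      calc ∑ i ∈ Finset.range k, P (i + 1) ≤
            ∑ i ∈ Finset.range k, C₀ * h * (1 / √((i + 1 : ℕ) : ℝ)) := by
            refine Finset.sum_le_sum fun i hi' => ?_
            rw [Finset.mem_range] at hi'
            rw [mul_one_div]
            exact hi (i + 1) (by omega) (by omega)
        _ = C₀ * h * ∑ i ∈ Finset.range k, 1 / √((i + 1 : ℕ) : ℝ) := by rw [Finset.mul_sum]
        _ ≤ _ := mul_le_mul_of_nonneg_left (persist_sqrt_sum k) (by positivity)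
    have h2 : √(k : ℝ) ≤ √((k + 1 : ℕ) : ℝ) := Real.sqrt_le_sqrt (by push_cast; linarith)
    have h3 : C₀ * h * (2 * √(k : ℝ)) ≤ C₀ * h * (2 * √((k + 1 : ℕ) : ℝ)) :=
      mul_le_mul_of_nonneg_left (by linarith) (by positivity)
    linarith [hP1 0]
  -- the bound of `V`
  have hV : ∀ n : ℕ, 1 ≤ n → n ≤ N → (∀ i, 1 ≤ i → i < n → P i ≤ C₀ * h / √i) →
      ∫ x in Stay a n, (a - Sw x n) ∂(walkM p q) ≤ 4 * h := by
    intro n hn hnN hi
    have h1 := persist_rec hp hq ha n
    have h2 := hsum n hn hi
    have h3 : |m| * √n ≤ c₁ := by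
      refine le_trans (mul_le_mul_of_nonneg_left ?_ (abs_nonneg _)) hmN
      exact Real.sqrt_le_sqrt (by exact_mod_cast hnN)
    have h4 : 1 ≤ √(n : ℝ) := by
      rw [Real.one_le_sqrt]
      exact_mod_cast hn
    have h5 : |m| ≤ c₁ := by
      have : |m| * 1 ≤ |m| * √n := mul_le_mul_of_nonneg_left h4 (abs_nonneg _)
      linarith
    have h6 : 0 ≤ ∑ i ∈ Finset.range n, P i := Finset.sum_nonneg fun i _ => hP0 i
    have h7 : -(m * ∑ i ∈ Finset.range n, P i) ≤ |m| * ∑ i ∈ Finset.range n, P i := by
      rw [← neg_mul]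
      exact mul_le_mul_of_nonneg_right (neg_le_abs m) h6
    have h8 : |m| * ∑ i ∈ Finset.range n, P i ≤ |m| * (1 + 2 * C₀ * h * √n) :=
      mul_le_mul_of_nonneg_left h2 (abs_nonneg _)
    have h9 : |m| * (1 + 2 * C₀ * h * √n) = |m| + 2 * C₀ * h * (|m| * √n) := by ring
    have h10 : 2 * C₀ * h * (|m| * √n) ≤ 2 * C₀ * h * c₁ :=
      mul_le_mul_of_nonneg_left h3 (by positivity)
    have h11 : 2 * C₀ * h * c₁ ≤ 2 * C₀ * h * (c₂ / 4) :=
      mul_le_mul_of_nonneg_left hc12 (by positivity)
    have h12 : 2 * C₀ * h * (c₂ / 4) = 2 * h := by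
      rw [hC₀]
      field_simp
    have h13 : 0 ≤ P n * (1 / p) := mul_nonneg (hP0 n) (by positivity)
    have h14 : ∫ x in Stay a n, (a - Sw x n) ∂(walkM p q) + P n * (1 / p) =
      h - m * ∑ i ∈ Finset.range n, P i := h1
    linarith
  have hPn : ∀ n : ℕ, 1 ≤ n → n ≤ N → P n ≤ C₀ * h / √n := by
    intro n
    induction n using Nat.strong_induction_on with
    | _ n ih =>
      intro hn hnN
      have h1 := hV n hn hnN fun i hi1 hi2 => ih i hi2 hi1 (by omega)
      have h2 := persist_harris hp hq a n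
      have h3 : |m| * √n ≤ c₂ := by
        have : |m| * √n ≤ c₁ := by
          refine le_trans (mul_le_mul_of_nonneg_left ?_ (abs_nonneg _)) hmN
          exact Real.sqrt_le_sqrt (by exact_mod_cast hnN)
        linarith
      have h4 := hneg p q hκp hp1 hκq hq1 n hn h3
      have h5 : ∫ x, max (-(Sw x n)) 0 ∂(walkM p q) ≤ ∫ x, max (a - Sw x n) 0 ∂(walkM p q) := by
        have i1 : Integrable (fun x : ℕ → ℝ => -(Sw x n)) (walkM p q) :=
          (persist_Sw_int hp hq n).neg
        have i2 : Integrable (fun x : ℕ → ℝ => a - Sw x n) (walkM p q) :=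
          (integrable_const a).sub (persist_Sw_int hp hq n)
        refine integral_mono i1.pos_part i2.pos_part fun x => max_le_max ?_ le_rfl
        linarith
      have h6 : 0 < √(n : ℝ) := Real.sqrt_pos.2 (by exact_mod_cast hn)
      rw [le_div_iff₀ h6]
      have h7 : P n * (c₂ * √n) ≤ 4 * h := by
        calc P n * (c₂ * √n) ≤ P n * ∫ x, max (a - Sw x n) 0 ∂(walkM p q) :=
              mul_le_mul_of_nonneg_left (h4.trans h5) (hP0 n)
          _ ≤ _ := h2
          _ ≤ _ := h1
      rw [hC₀, div_mul_eq_mul_div, le_div_iff₀ hc₂]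
      linarith
  have hfin : h ≤ (a + 1) / κ := by
    have h1 : 1 / p ≤ 1 / κ := one_div_le_one_div_of_le hκ hκp
    have h2 : 1 ≤ 1 / κ := hp1'.trans h1
    have h3 : (a + 1) / κ = a * (1 / κ) + 1 / κ := by ring
    rw [h3]
    nlinarith
  have hN0 : 0 < √(N : ℝ) := Real.sqrt_pos.2 (by exact_mod_cast hN)
  constructor
  · refine (hPn N hN le_rfl).trans ?_
    rw [div_le_div_iff_of_pos_right hN0]
    calc C₀ * h ≤ C₀ * ((a + 1) / κ) := mul_le_mul_of_nonneg_left hfin hC₀pos.le
      _ ≤ (C₀ + 4) * ((a + 1) / κ) := by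
          refine mul_le_mul_of_nonneg_right (by linarith) (by positivity)
      _ = _ := by ring
  · refine (hV N hN le_rfl fun i hi1 hi2 => hPn i hi1 (by omega)).trans ?_
    calc 4 * h ≤ 4 * ((a + 1) / κ) := by linarith
      _ ≤ (C₀ + 4) * ((a + 1) / κ) := by
          refine mul_le_mul_of_nonneg_right (by linarith) (by positivity)
      _ = _ := by ring

end BGE
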