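import Pool.Agent.BGE.Persist

/-!
BGE / R4, R5. Persistence with two levels and closeness.

`persist_two`: for `0 ≤ a₁ ≤ a₂ ≤ √N₀` and `N₀ ≤ N₁`,
`P(Sw n ≤ a₁ ∀ n ≤ N₀, Sw n ≤ a₂ ∀ n ≤ N₁) ≤ C (a₁ + 1)/√N₁`.
Proof. If `N₁ ≤ 2 N₀` use `persist` at `N₀`. Otherwise condition on the first `N₀` steps: by
`persist` for the remaining walk (level `a₂ - Sw N₀`, `N₁ - N₀ ≥ N₁/2` steps) the probability is at
most `(C/√(N₁ - N₀)) E[(a₂ - Sw N₀ + 1); Sw n ≤ a₁ ∀ n ≤ N₀]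
 ≤ (C/√(N₁-N₀)) (V_{N₀} + (a₂ - a₁ + 1) P_{N₀}) ≤ C' (a₁+1)/√N₁`, since
`(a₂ + 1) P_{N₀} ≤ (√N₀ + 1) C (a₁+1)/√N₀`.

`persist_close`: for `a, b ≥ 0`, `4k ≤ N`, `1 ≤ k`:
`P(Sw n ≤ a ∀ n ≤ N, ∃ i ∈ [k, 2k], Sw i ≥ -b) ≤ C (a+1)(a+b+1)/(√k √N)`.
Proof. Let `i ∈ [k, 2k]` be the first index with `Sw i ≥ -b`. Given the first `i` steps the
increments `Sw (i+n) - Sw i`, `n ≤ N - i`, stay `≤ a + b`: probability `≤ C (a+b+1)/√(N - 2k)`.
Sum over `i`; the events `{Sw n ≤ a ∀ n ≤ i, first index = i}` are disjoint and contained in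
`{Sw n ≤ a ∀ n ≤ k}`, of probability `≤ C (a+1)/√k`.
-/

namespace BGE

open MeasureTheory ProbabilityTheory

/-- gluing two walks at the time `k` -/
def wglue (k : ℕ) (z : (ℕ → ℝ) × (ℕ → ℝ)) : ℕ → ℝ :=
  fun i => if i < k then z.1 i else z.2 (i - k)

theorem wglue_meas (k : ℕ) : Measurable (wglue k) := by
  refine measurable_pi_iff.2 fun i => ?_
  unfold wglue
  by_cases h : i < k
  · simp only [if_pos h]
    exact (measurable_pi_apply i).comp measurable_fst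
  · simp only [if_neg h]
    exact (measurable_pi_apply _).comp measurable_snd

theorem wglue_law (ν : Measure ℝ) [IsProbabilityMeasure ν] (k : ℕ) :
    Measure.map (wglue k) ((Measure.infinitePi fun _ : ℕ => ν).prod
      (Measure.infinitePi fun _ : ℕ => ν)) = Measure.infinitePi fun _ : ℕ => ν := by
  classical
  refine Measure.eq_infinitePi _ fun s t ht => ?_
  rw [Measure.map_apply (wglue_meas k) (MeasurableSet.pi s.countable_toSet fun i _ => ht i)]
  have h2 : wglue k ⁻¹' ((s : Set ℕ).pi t) =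
      (((s.filter fun i => i < k : Finset ℕ) : Set ℕ).pi t) ×ˢ
        ((((s.filter fun i => ¬ i < k).image fun i => i - k : Finset ℕ) : Set ℕ).pi
          fun j => t (j + k)) := by
    ext ⟨a, b⟩
    simp only [Set.mem_preimage, Set.mem_pi, Set.mem_prod, Finset.mem_coe, Finset.mem_filter,
      Finset.mem_image, wglue]
    constructor
    · intro h
      refine ⟨fun i hi => ?_, ?_⟩
      · have := h i hi.1
        rwa [if_pos hi.2] at this
      · rintro j ⟨i, ⟨hi, hik⟩, rfl⟩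
        have := h i hi
        rw [if_neg hik] at this
        rwa [Nat.sub_add_cancel (not_lt.1 hik)]
    · rintro ⟨h1, h2⟩ i hi
      by_cases hik : i < k
      · rw [if_pos hik]
        exact h1 i ⟨hi, hik⟩
      · rw [if_neg hik]
        have := h2 (i - k) ⟨i, ⟨hi, hik⟩, rfl⟩
        rwa [Nat.sub_add_cancel (not_lt.1 hik)] at this
  rw [h2, Measure.prod_prod, Measure.infinitePi_pi _ fun i _ => ht _,
    Measure.infinitePi_pi _ fun i _ => ht _, ← Finset.prod_filter_mul_prod_filter_not s (· < k)]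
  congr 1
  rw [Finset.prod_image]
  · refine Finset.prod_congr rfl fun i hi => ?_
    rw [Nat.sub_add_cancel (not_lt.1 (Finset.mem_filter.1 hi).2)]
  · intro i hi j hj hij
    have h3 := not_lt.1 (Finset.mem_filter.1 hi).2
    have h4 := not_lt.1 (Finset.mem_filter.1 hj).2
    simp only at hij
    omega

theorem wglue_walkM (p q : ℝ) (k : ℕ) :
    Measure.map (wglue k) ((walkM p q).prod (walkM p q)) = walkM p q := by
  unfold walkM
  exact wglue_law _ k

theorem wglue_Sw_le {k i : ℕ} (hi : i ≤ k) (x y : ℕ → ℝ) : Sw (wglue k (x, y)) i = Sw x i := by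
  unfold Sw wglue
  refine Finset.sum_congr rfl fun j hj => ?_
  rw [if_pos (by have := Finset.mem_range.1 hj; omega)]

theorem wglue_Sw_add (k n : ℕ) (x y : ℕ → ℝ) :
    Sw (wglue k (x, y)) (k + n) = Sw x k + Sw y n := by
  unfold Sw
  rw [Finset.sum_range_add]
  congr 1
  · exact wglue_Sw_le le_rfl x y
  · refine Finset.sum_congr rfl fun j _ => ?_
    unfold wglue
    rw [if_neg (by omega), Nat.add_sub_cancel_left]

theorem wSw_meas (n : ℕ) : Measurable fun x : ℕ → ℝ => Sw x n := by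
  unfold Sw
  fun_prop

theorem wstay_meas (a : ℝ) (n : ℕ) : MeasurableSet (Stay a n) := by
  have : Stay a n = ⋂ i ∈ Finset.range (n + 1), {x : ℕ → ℝ | Sw x i ≤ a} := by
    ext x
    simp only [Stay, Set.mem_ofPred_eq, Set.mem_iInter, Finset.mem_range, Nat.lt_succ_iff]
  rw [this]
  exact Finset.measurableSet_biInter _ fun i _ =>
    measurableSet_le (wSw_meas i) measurable_const

theorem wSw_int {p q : ℝ} (hp : 0 < p) (hq : 0 < q) (n : ℕ) :
    Integrable (fun x : ℕ → ℝ => Sw x n) (walkM p q) := by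
  have h1 : Integrable (fun x : ℝ => x) (stepLaw p q) := by
    simpa using step_integrable hp hq 1
  have h0 : ∀ i : ℕ, Integrable (fun x : ℕ → ℝ => x i) (walkM p q) := by
    intro i
    have h2 : (walkM p q).map (fun x : ℕ → ℝ => x i) = stepLaw p q := by
      unfold walkM
      exact Measure.infinitePi_map_eval _ i
    rw [← h2] at h1
    exact (integrable_map_measure (f := fun x : ℕ → ℝ => x i) (g := fun x : ℝ => x)
      measurable_id'.aestronglyMeasurable (measurable_pi_apply i).aemeasurable).1 h1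
  unfold Sw
  exact integrable_finsetSum _ fun i _ => h0 i

/-- conditioning on the first `k` steps -/
theorem wcond {p q : ℝ} (k : ℕ) {E A : Set (ℕ → ℝ)} (hE : MeasurableSet E) (hA : MeasurableSet A)
    (B : (ℕ → ℝ) → Set (ℕ → ℝ)) (f : (ℕ → ℝ) → ℝ)
    (hEAB : ∀ x y, wglue k (x, y) ∈ E → x ∈ A ∧ y ∈ B x)
    (hB : ∀ x ∈ A, (walkM p q).real (B x) ≤ f x) (hf : IntegrableOn f A (walkM p q)) :
    (walkM p q).real E ≤ ∫ x in A, f x ∂(walkM p q) := by
  set μ := walkM p q with hμ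
  have hf0 : ∀ x ∈ A, 0 ≤ f x := fun x hx => measureReal_nonneg.trans (hB x hx)
  have h1 : μ E = ∫⁻ x, μ (Prod.mk x ⁻¹' (wglue k ⁻¹' E)) ∂μ := by
    conv_lhs => rw [hμ, ← wglue_walkM p q k, Measure.map_apply (wglue_meas k) hE]
    exact Measure.prod_apply (wglue_meas k hE)
  have h2 : ∀ x, μ (Prod.mk x ⁻¹' (wglue k ⁻¹' E)) ≤ A.indicator (fun x => ENNReal.ofReal (f x)) x := by
    intro x
    by_cases hx : x ∈ A
    · rw [Set.indicator_of_mem hx]
      calc μ (Prod.mk x ⁻¹' (wglue k ⁻¹' E)) ≤ μ (B x) :=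
            measure_mono fun y hy => (hEAB x y hy).2
        _ = ENNReal.ofReal (μ.real (B x)) := (ofReal_measureReal (measure_ne_top _ _)).symm
        _ ≤ ENNReal.ofReal (f x) := ENNReal.ofReal_le_ofReal (hB x hx)
    · have : Prod.mk x ⁻¹' (wglue k ⁻¹' E) = ∅ := by
        ext y
        simp only [Set.mem_preimage, Set.mem_empty_iff_false, iff_false]
        exact fun h => hx (hEAB x y h).1
      rw [this, measure_empty]
      exact zero_le
  have h3 : μ E ≤ ENNReal.ofReal (∫ x in A, f x ∂μ) := by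
    rw [h1, ofReal_integral_eq_lintegral_ofReal hf
      ((ae_restrict_iff' hA).2 (Filter.Eventually.of_forall hf0)), ← lintegral_indicator hA]
    exact lintegral_mono h2
  have h4 : 0 ≤ ∫ x in A, f x ∂μ := setIntegral_nonneg hA hf0
  exact (ENNReal.toReal_mono ENNReal.ofReal_ne_top h3).trans (ENNReal.toReal_ofReal h4).le

theorem persist_two {κ : ℝ} (hκ : 0 < κ) : ∃ C c₁ : ℝ, 0 < C ∧ 0 < c₁ ∧ ∀ p q : ℝ,
    κ ≤ p → p ≤ 1 → κ ≤ q → q ≤ 1 → ∀ N₀ N₁ : ℕ, 1 ≤ N₀ → N₀ ≤ N₁ →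
    |1 / p - 1 / q| * √N₁ ≤ c₁ → ∀ a₁ a₂ : ℝ, 0 ≤ a₁ → a₁ ≤ a₂ → a₂ ≤ √N₀ →
    (walkM p q).real (Stay a₁ N₀ ∩ Stay a₂ N₁) ≤ C * (a₁ + 1) / √N₁ := by
  obtain ⟨C, c₁, hC, hc₁, H⟩ := persist hκ
  refine ⟨2 * C + 6 * C ^ 2, c₁, by positivity, hc₁, ?_⟩
  intro p q hp hp1 hq hq1 N₀ N₁ hN₀ hN hm a₁ a₂ ha₁ ha ha₂
  have hp0 : 0 < p := lt_of_lt_of_le hκ hp
  have hq0 : 0 < q := lt_of_lt_of_le hκ hq
  have hN0r : (1 : ℝ) ≤ N₀ := by exact_mod_cast hN₀
  have hN1r : (N₀ : ℝ) ≤ N₁ := by exact_mod_cast hN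
  have hs0 : 1 ≤ √(N₀ : ℝ) := by
    rw [← Real.sqrt_one]
    exact Real.sqrt_le_sqrt hN0r
  have hs1 : √(N₀ : ℝ) ≤ √(N₁ : ℝ) := Real.sqrt_le_sqrt hN1r
  have hs1' : 0 < √(N₁ : ℝ) := by linarith
  have hm0 : |1 / p - 1 / q| * √N₀ ≤ c₁ :=
    (mul_le_mul_of_nonneg_left hs1 (abs_nonneg _)).trans hm
  obtain ⟨hP, hV⟩ := H p q hp hp1 hq hq1 N₀ hN₀ hm0 a₁ ha₁
  rcases Nat.lt_or_ge (2 * N₀) N₁ with h | h
  · -- condition on the first steps
    have hNs : ((N₁ - N₀ : ℕ) : ℝ) = N₁ - N₀ := by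
      rw [Nat.cast_sub hN]
    have hNh : (N₁ : ℝ) / 4 ≤ ((N₁ - N₀ : ℕ) : ℝ) := by
      rw [hNs]
      have : (2 * N₀ : ℝ) ≤ N₁ := by exact_mod_cast h.le
      linarith
    have hsh : √(N₁ : ℝ) / 2 ≤ √((N₁ - N₀ : ℕ) : ℝ) := by
      have e : √(N₁ : ℝ) / 2 = √((N₁ : ℝ) / 4) := by
        rw [show (N₁ : ℝ) / 4 = N₁ / 2 ^ 2 by ring, Real.sqrt_div (by positivity),
          Real.sqrt_sq (by norm_num)]
      rw [e]
      exact Real.sqrt_le_sqrt hNh
    have hsh' : √((N₁ - N₀ : ℕ) : ℝ) ≤ √(N₁ : ℝ) := by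
      apply Real.sqrt_le_sqrt
      rw [hNs]
      linarith
    have hsp : 0 < √((N₁ - N₀ : ℕ) : ℝ) := by linarith
    have hm1 : |1 / p - 1 / q| * √((N₁ - N₀ : ℕ) : ℝ) ≤ c₁ :=
      (mul_le_mul_of_nonneg_left hsh' (abs_nonneg _)).trans hm
    have hint : Integrable (fun x : ℕ → ℝ => a₁ - Sw x N₀) (walkM p q) :=
      (integrable_const a₁).sub (wSw_int hp0 hq0 N₀)
    set R := C / √((N₁ - N₀ : ℕ) : ℝ) with hR
    have hint2 : Integrable (fun x : ℕ → ℝ => R * ((a₁ - Sw x N₀) + (a₂ - a₁ + 1))) (walkM p q) :=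
      (hint.add (integrable_const (a₂ - a₁ + 1))).const_mul R
    have key := wcond (p := p) (q := q) N₀ (E := Stay a₁ N₀ ∩ Stay a₂ N₁) (A := Stay a₁ N₀)
      ((wstay_meas _ _).inter (wstay_meas _ _)) (wstay_meas _ _)
      (fun x => Stay (a₂ - Sw x N₀) (N₁ - N₀))
      (fun x => R * ((a₁ - Sw x N₀) + (a₂ - a₁ + 1))) ?_ ?_ hint2.integrableOn
    · have e1 : ∫ x in Stay a₁ N₀, R * ((a₁ - Sw x N₀) + (a₂ - a₁ + 1)) ∂(walkM p q) =
          R * (∫ x in Stay a₁ N₀, (a₁ - Sw x N₀) ∂(walkM p q) +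
            (a₂ - a₁ + 1) * (walkM p q).real (Stay a₁ N₀)) := by
        rw [integral_const_mul, integral_add hint.integrableOn (integrable_const _),
          integral_const, smul_eq_mul, measureReal_restrict_apply_univ, mul_comm (a₂ - a₁ + 1)]
      rw [e1] at key
      refine key.trans ?_
      have hR0 : 0 ≤ R := by positivity
      have hRb : R ≤ 2 * C / √(N₁ : ℝ) := by
        rw [hR, div_le_div_iff₀ hsp hs1']
        nlinarith
      have e2 : (a₂ - a₁ + 1) * (walkM p q).real (Stay a₁ N₀) ≤ 2 * C * (a₁ + 1) := by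
        have h5 : (a₂ - a₁ + 1) ≤ 2 * √(N₀ : ℝ) := by linarith
        have h6 : 0 ≤ (walkM p q).real (Stay a₁ N₀) := measureReal_nonneg
        calc (a₂ - a₁ + 1) * (walkM p q).real (Stay a₁ N₀)
            ≤ (2 * √(N₀ : ℝ)) * (C * (a₁ + 1) / √N₀) := by
              apply mul_le_mul h5 hP h6 (by positivity)
          _ = 2 * C * (a₁ + 1) := by
              field_simp
      have e3 : ∫ x in Stay a₁ N₀, (a₁ - Sw x N₀) ∂(walkM p q) +
            (a₂ - a₁ + 1) * (walkM p q).real (Stay a₁ N₀) ≤ 3 * C * (a₁ + 1) := by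
        linarith
      calc R * (∫ x in Stay a₁ N₀, (a₁ - Sw x N₀) ∂(walkM p q) +
            (a₂ - a₁ + 1) * (walkM p q).real (Stay a₁ N₀)) ≤ R * (3 * C * (a₁ + 1)) :=
            mul_le_mul_of_nonneg_left e3 hR0
        _ ≤ (2 * C / √(N₁ : ℝ)) * (3 * C * (a₁ + 1)) :=
            mul_le_mul_of_nonneg_right hRb (by positivity)
        _ = 6 * C ^ 2 * (a₁ + 1) / √(N₁ : ℝ) := by ring
        _ ≤ (2 * C + 6 * C ^ 2) * (a₁ + 1) / √(N₁ : ℝ) := by
            apply div_le_div_of_nonneg_right _ hs1'.le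
            apply mul_le_mul_of_nonneg_right _ (by positivity)
            linarith
    · intro x y hxy
      refine ⟨fun n hn => ?_, fun n hn => ?_⟩
      · have := hxy.1 n hn
        rwa [wglue_Sw_le hn] at this
      · have := hxy.2 (N₀ + n) (by omega)
        rw [wglue_Sw_add] at this
        linarith
    · intro x hx
      have hx0 : Sw x N₀ ≤ a₁ := hx N₀ le_rfl
      have h7 := (H p q hp hp1 hq hq1 (N₁ - N₀) (by omega) hm1 (a₂ - Sw x N₀)
        (by linarith)).1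
      refine h7.trans (le_of_eq ?_)
      rw [hR]
      ring
  · have h1 : (walkM p q).real (Stay a₁ N₀ ∩ Stay a₂ N₁) ≤ (walkM p q).real (Stay a₁ N₀) :=
      measureReal_mono Set.inter_subset_left
    have hs2 : √(N₁ : ℝ) ≤ 2 * √(N₀ : ℝ) := by
      have e : 2 * √(N₀ : ℝ) = √(4 * (N₀ : ℝ)) := by
        rw [Real.sqrt_mul (by norm_num), show (4 : ℝ) = 2 ^ 2 by norm_num,
          Real.sqrt_sq (by norm_num)]
      rw [e]
      apply Real.sqrt_le_sqrt
      have : (N₁ : ℝ) ≤ 2 * N₀ := by exact_mod_cast h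
      linarith
    refine h1.trans (hP.trans ?_)
    rw [div_le_div_iff₀ (by linarith) hs1']
    have h8 : C * (a₁ + 1) * √(N₁ : ℝ) ≤ C * (a₁ + 1) * (2 * √(N₀ : ℝ)) :=
      mul_le_mul_of_nonneg_left hs2 (by positivity)
    have h9 : 0 ≤ 6 * C ^ 2 * (a₁ + 1) * √(N₀ : ℝ) := by positivity
    nlinarith

/-- the first index in `[k, i]` with `Sw i ≥ -b` is `i`, and the walk stays below `a` up to `i` -/
def wfirst (a b : ℝ) (k i : ℕ) : Set (ℕ → ℝ) :=
  {x | x ∈ Stay a i ∧ -b ≤ Sw x i ∧ ∀ j, k ≤ j → j < i → Sw x j < -b}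

theorem wfirst_meas (a b : ℝ) (k i : ℕ) : MeasurableSet (wfirst a b k i) := by
  have : wfirst a b k i = Stay a i ∩ ({x | -b ≤ Sw x i} ∩
      ⋂ j ∈ (Finset.range i).filter (fun j => k ≤ j), {x | Sw x j < -b}) := by
    ext x
    simp only [wfirst, Set.mem_inter_iff, Set.mem_iInter, Finset.mem_filter, Finset.mem_range,
      Set.mem_ofPred_eq]
    constructor
    · rintro ⟨h1, h2, h3⟩
      exact ⟨h1, h2, fun j hj => h3 j hj.2 hj.1⟩
    · rintro ⟨h1, h2, h3⟩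
      exact ⟨h1, h2, fun j hj hj' => h3 j ⟨hj', hj⟩⟩
  rw [this]
  exact (wstay_meas _ _).inter ((measurableSet_le measurable_const (wSw_meas i)).inter
    (Finset.measurableSet_biInter _ fun j _ => measurableSet_lt (wSw_meas j) measurable_const))

theorem persist_close {κ : ℝ} (hκ : 0 < κ) : ∃ C c₁ : ℝ, 0 < C ∧ 0 < c₁ ∧ ∀ p q : ℝ,
    κ ≤ p → p ≤ 1 → κ ≤ q → q ≤ 1 → ∀ k N : ℕ, 1 ≤ k → 4 * k ≤ N →
    |1 / p - 1 / q| * √N ≤ c₁ → ∀ a b : ℝ, 0 ≤ a → 0 ≤ b →
    (walkM p q).real (Stay a N ∩ {x | ∃ i, k ≤ i ∧ i ≤ 2 * k ∧ -b ≤ Sw x i}) ≤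
      C * (a + 1) * (a + b + 1) / (√k * √N) := by
  obtain ⟨C, c₁, hC, hc₁, H⟩ := persist hκ
  refine ⟨2 * C ^ 2, c₁, by positivity, hc₁, ?_⟩
  intro p q hp hp1 hq hq1 k N hk hN hm a b ha hb
  have hkr : (1 : ℝ) ≤ k := by exact_mod_cast hk
  have hNr : (4 * k : ℝ) ≤ N := by exact_mod_cast hN
  have hsk : 0 < √(k : ℝ) := Real.sqrt_pos.2 (by linarith)
  have hsN : 0 < √(N : ℝ) := Real.sqrt_pos.2 (by linarith)
  set μ := walkM p q with hμ
  haveI : IsProbabilityMeasure μ := by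
    rw [hμ]
    infer_instance
  have hcov : Stay a N ∩ {x | ∃ i, k ≤ i ∧ i ≤ 2 * k ∧ -b ≤ Sw x i} ⊆
      ⋃ i ∈ Finset.Icc k (2 * k), (Stay a N ∩ wfirst a b k i) := by
    rintro x ⟨h1, h2⟩
    obtain ⟨i, hi1, hi2, hi3⟩ := h2
    classical
    have hex : ∃ i, k ≤ i ∧ -b ≤ Sw x i := ⟨i, hi1, hi3⟩
    have hsp := Nat.find_spec hex
    have hle : Nat.find hex ≤ i := Nat.find_min' hex ⟨hi1, hi3⟩
    simp only [Set.mem_iUnion]
    refine ⟨Nat.find hex, Finset.mem_Icc.2 ⟨hsp.1, by omega⟩, h1, fun n hn => h1 n (by omega),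
      hsp.2, fun j hj1 hj2 => ?_⟩
    have := Nat.find_min hex hj2
    by_contra hc
    exact this ⟨hj1, not_lt.1 hc⟩
  have hone : ∀ i ∈ Finset.Icc k (2 * k), μ.real (Stay a N ∩ wfirst a b k i) ≤
      μ.real (wfirst a b k i) * (2 * C * (a + b + 1) / √(N : ℝ)) := by
    intro i hi
    rw [Finset.mem_Icc] at hi
    have hNi : ((N - i : ℕ) : ℝ) = N - i := by
      rw [Nat.cast_sub (by omega)]
    have hir : (i : ℝ) ≤ 2 * k := by exact_mod_cast hi.2
    have hNh : (N : ℝ) / 4 ≤ ((N - i : ℕ) : ℝ) := by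
      rw [hNi]
      linarith
    have hsh : √(N : ℝ) / 2 ≤ √((N - i : ℕ) : ℝ) := by
      have e : √(N : ℝ) / 2 = √((N : ℝ) / 4) := by
        rw [show (N : ℝ) / 4 = N / 2 ^ 2 by ring, Real.sqrt_div (by positivity),
          Real.sqrt_sq (by norm_num)]
      rw [e]
      exact Real.sqrt_le_sqrt hNh
    have hsh' : √((N - i : ℕ) : ℝ) ≤ √(N : ℝ) := by
      apply Real.sqrt_le_sqrt
      rw [hNi]
      have : (0 : ℝ) ≤ i := Nat.cast_nonneg i
      linarith
    have hsp : 0 < √((N - i : ℕ) : ℝ) := by linarith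
    have hm1 : |1 / p - 1 / q| * √((N - i : ℕ) : ℝ) ≤ c₁ :=
      (mul_le_mul_of_nonneg_left hsh' (abs_nonneg _)).trans hm
    have h7 := (H p q hp hp1 hq hq1 (N - i) (by omega) hm1 (a + b) (by linarith)).1
    have h8 : C * (a + b + 1) / √((N - i : ℕ) : ℝ) ≤ 2 * C * (a + b + 1) / √(N : ℝ) := by
      rw [div_le_div_iff₀ hsp hsN]
      have : C * (a + b + 1) * √(N : ℝ) ≤ C * (a + b + 1) * (2 * √((N - i : ℕ) : ℝ)) :=
        mul_le_mul_of_nonneg_left (by linarith) (by positivity)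
      nlinarith
    have key := wcond (p := p) (q := q) i (E := Stay a N ∩ wfirst a b k i) (A := wfirst a b k i)
      ((wstay_meas _ _).inter (wfirst_meas _ _ _ _)) (wfirst_meas _ _ _ _)
      (fun x => Stay (a + b) (N - i)) (fun x => 2 * C * (a + b + 1) / √(N : ℝ)) ?_ ?_
      (integrable_const _).integrableOn
    · rw [integral_const, smul_eq_mul, measureReal_restrict_apply_univ] at key
      exact key
    · intro x y hxy
      obtain ⟨h1, h2, h3, h4⟩ := hxy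
      have hSi : Sw (wglue i (x, y)) i = Sw x i := wglue_Sw_le le_rfl x y
      rw [hSi] at h3
      refine ⟨⟨fun n hn => ?_, h3, fun j hj1 hj2 => ?_⟩, fun n hn => ?_⟩
      · have := h2 n hn
        rwa [wglue_Sw_le hn] at this
      · have := h4 j hj1 hj2
        rwa [wglue_Sw_le hj2.le] at this
      · have := h1 (i + n) (by omega)
        rw [wglue_Sw_add] at this
        linarith
    · intro x _
      exact h7.trans h8
  have hdisj : Set.PairwiseDisjoint (↑(Finset.Icc k (2 * k))) (wfirst a b k) := by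
    intro i hi j hj hij
    rw [Function.onFun, Set.disjoint_left]
    rintro x ⟨-, h2, h3⟩ ⟨-, h5, h6⟩
    rw [Finset.mem_coe, Finset.mem_Icc] at hi hj
    rcases lt_or_gt_of_ne hij with h | h
    · exact absurd h2 (not_le.2 (h6 i hi.1 h))
    · exact absurd h5 (not_le.2 (h3 j hj.1 h))
  have hsum : ∑ i ∈ Finset.Icc k (2 * k), μ.real (wfirst a b k i) ≤ C * (a + 1) / √(k : ℝ) := by
    rw [← measureReal_biUnion_finset hdisj fun i _ => wfirst_meas a b k i]
    have h1 : μ.real (⋃ i ∈ Finset.Icc k (2 * k), wfirst a b k i) ≤ μ.real (Stay a k) := by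
      refine measureReal_mono ?_ (measure_ne_top μ _)
      intro x hx
      simp only [Set.mem_iUnion] at hx
      obtain ⟨i, hi, h2, -⟩ := hx
      exact fun n hn => h2 n (by have := (Finset.mem_Icc.1 hi).1; omega)
    refine h1.trans ?_
    have hm0 : |1 / p - 1 / q| * √(k : ℝ) ≤ c₁ :=
      (mul_le_mul_of_nonneg_left (Real.sqrt_le_sqrt (by linarith)) (abs_nonneg _)).trans hm
    exact (H p q hp hp1 hq hq1 k hk hm0 a ha).1
  calc μ.real (Stay a N ∩ {x | ∃ i, k ≤ i ∧ i ≤ 2 * k ∧ -b ≤ Sw x i})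
      ≤ μ.real (⋃ i ∈ Finset.Icc k (2 * k), (Stay a N ∩ wfirst a b k i)) :=
        measureReal_mono hcov (measure_ne_top μ _)
    _ ≤ ∑ i ∈ Finset.Icc k (2 * k), μ.real (Stay a N ∩ wfirst a b k i) :=
        measureReal_biUnion_finset_le _ _
    _ ≤ ∑ i ∈ Finset.Icc k (2 * k), μ.real (wfirst a b k i) * (2 * C * (a + b + 1) / √(N : ℝ)) :=
        Finset.sum_le_sum hone
    _ = (∑ i ∈ Finset.Icc k (2 * k), μ.real (wfirst a b k i)) * (2 * C * (a + b + 1) / √(N : ℝ)) :=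
        by rw [Finset.sum_mul]
    _ ≤ (C * (a + 1) / √(k : ℝ)) * (2 * C * (a + b + 1) / √(N : ℝ)) :=
        mul_le_mul_of_nonneg_right hsum (by positivity)
    _ = 2 * C ^ 2 * (a + 1) * (a + b + 1) / (√k * √N) := by
        field_simp

end BGE
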