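import Pool.Agent.BGE.Dyn

/-!
BGE / U2. The L2 identity for the hitting probabilities.

`soft_step`: let `D` be a measurable set of environments, `P M` the probability that `dyn η x i ∈ D`
for some `i ≤ M`, and `Cc` a measurable set of environments. Then
`π(Cc) P(2M) ≤ π(Cc) 2 P(M) - P(dyn 0 ∈ Cc, dyn i ∈ D for some i ≤ M)²`.
Proof. Let `K` be the one-step operator: `K g (e) = E g (evo η (e, e', U))`. It is self-adjoint in
`L²(PI)`: the pair `(e, evo η (e, e', U))` is exchangeable (site by site). For bounded measurable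
`g` let `A g = 1_{Dᶜ} K (1_{Dᶜ} g)`, again self-adjoint. Let `φ_M e` be the probability that the chain
started at `e` stays in `Dᶜ` at the times `0, ..., M`; `φ_M = A^M 1_{Dᶜ}`. By the Markov property
`1 - P(M) = ∫ φ_M` and `1 - P(2M) = ∫ φ_{2M} = ⟨1_{Dᶜ}, A^{2M} 1_{Dᶜ}⟩ = ⟨A^M 1_{Dᶜ}, A^M 1_{Dᶜ}⟩
= ∫ φ_M²`. With `u = 1 - φ_M`: `1 - P(2M) = 1 - 2 ∫ u + ∫ u²`, `∫ u = P(M)`, i.e.
`P(2M) = 2 P(M) - ∫ u²`. By Cauchy-Schwarz `(∫_{Cc} u)² ≤ π(Cc) ∫ u²` and
`∫_{Cc} u = P(dyn 0 ∈ Cc, dyn i ∈ D for some i ≤ M)`.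
-/

namespace BGE

open MeasureTheory ProbabilityTheory
open scoped ENNReal

namespace Soft

/-- reindexing an i.i.d. family along an injection -/
theorem mp_inj {ι κ : Type*} (f : κ → ι) (hf : Function.Injective f) :
    MeasurePreserving (fun (x : ι → ℝ) (k : κ) => x (f k)) (PI ι) (PI κ) := by
  refine ⟨by fun_prop, ?_⟩
  unfold PI
  exact Measure.map_infinitePi_infinitePi_of_inj (P := fun _ : ι => E1) hf

/-- two independent i.i.d. families together are an i.i.d. family -/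
theorem mp_sum (ι κ : Type*) :
    MeasurePreserving (fun z : (ι → ℝ) × (κ → ℝ) => (Sum.elim z.1 z.2 : ι ⊕ κ → ℝ))
      ((PI ι).prod (PI κ)) (PI (ι ⊕ κ)) := by
  have hm : Measurable (fun z : (ι → ℝ) × (κ → ℝ) => (Sum.elim z.1 z.2 : ι ⊕ κ → ℝ)) := by
    refine measurable_pi_lambda _ ?_
    rintro (i | k)
    · simp only [Sum.elim_inl]; fun_prop
    · simp only [Sum.elim_inr]; fun_prop
  refine ⟨hm, ?_⟩
  unfold PI
  refine Measure.eq_infinitePi _ fun s t ht => ?_
  rw [Measure.map_apply hm (MeasurableSet.pi s.countable_toSet fun i _ => ht i)]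
  have h : (fun z : (ι → ℝ) × (κ → ℝ) => (Sum.elim z.1 z.2 : ι ⊕ κ → ℝ)) ⁻¹'
      ((s : Set (ι ⊕ κ)).pi t) =
      ((s.toLeft : Set ι).pi fun i => t (Sum.inl i)) ×ˢ
        ((s.toRight : Set κ).pi fun i => t (Sum.inr i)) := by
    ext z
    simp only [Set.mem_preimage, Set.mem_pi, Finset.mem_coe, Set.mem_prod, Finset.mem_toLeft,
      Finset.mem_toRight]
    constructor
    · intro h
      exact ⟨fun i hi => h _ hi, fun i hi => h _ hi⟩
    · rintro ⟨h1, h2⟩ (i | i) hi
      · exact h1 i hi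
      · exact h2 i hi
  rw [h, Measure.prod_prod, Measure.infinitePi_pi _ (fun i _ => ht _),
    Measure.infinitePi_pi _ (fun i _ => ht _)]
  conv_rhs => rw [← Finset.toLeft_disjSum_toRight (u := s), Finset.prod_disjSum]

theorem mp_split (ι κ : Type*) :
    MeasurePreserving (fun z : ι ⊕ κ → ℝ => ((fun i => z (Sum.inl i), fun k => z (Sum.inr k)) :
      (ι → ℝ) × (κ → ℝ))) (PI (ι ⊕ κ)) ((PI ι).prod (PI κ)) := by
  have hm : Measurable (fun z : ι ⊕ κ → ℝ => ((fun i => z (Sum.inl i), fun k => z (Sum.inr k)) :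
      (ι → ℝ) × (κ → ℝ))) := by fun_prop
  refine ⟨hm, ?_⟩
  rw [← (mp_sum ι κ).map_eq, Measure.map_map hm (mp_sum ι κ).measurable]
  exact Measure.map_id

/-- environments -/
abbrev En := ℤ × ℤ → ℝ

/-- one step of the dynamics; `a` is the fresh environment, `U` the clock variables -/
noncomputable def stp (η : ℝ) (e a U : En) : En := fun v => if U v < η then a v else e v

theorem dyn_succ (η : ℝ) (x : DI → ℝ) (i : ℕ) : dyn η x (i + 1) =
    stp η (dyn η x i) (fun v => x (v, i + 1, true)) (fun v => x (v, i + 1, false)) := by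
  funext v
  simp only [dyn, stp]

theorem measurable_stp {α : Type*} [MeasurableSpace α] (η : ℝ) {f g h : α → En}
    (hf : Measurable f) (hg : Measurable g) (hh : Measurable h) :
    Measurable (fun z => stp η (f z) (g z) (h z)) := by
  refine measurable_pi_lambda _ fun v => ?_
  refine Measurable.ite ?_ ((measurable_pi_apply v).comp hg) ((measurable_pi_apply v).comp hf)
  exact measurableSet_lt ((measurable_pi_apply v).comp hh) measurable_const

/-- the law of the noise of one step is the product of two copies of the law -/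
theorem mp_noise (j : ℕ) : MeasurePreserving
    (fun x : DI → ℝ => ((fun v => x (v, j, true), fun v => x (v, j, false)) : En × En))
    (PI DI) ((PI (ℤ × ℤ)).prod (PI (ℤ × ℤ))) := by
  let f : (ℤ × ℤ) ⊕ (ℤ × ℤ) → DI := Sum.elim (fun v => (v, j, true)) (fun v => (v, j, false))
  have hf : Function.Injective f := by
    rintro (a | a) (b | b) h
    · simp only [f, Sum.elim_inl, Prod.mk.injEq, and_true] at h
      rw [h]
    · simp [f] at h
    · simp [f] at h
    · simp only [f, Sum.elim_inr, Prod.mk.injEq, and_true] at h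
      rw [h]
  exact (mp_split _ _).comp (mp_inj f hf)

/-- the noise at the time `j` is independent from the rest -/
theorem mp_gl (j : ℕ) : MeasurePreserving
    (fun z : (DI → ℝ) × (DI → ℝ) => fun d : DI => if d.2.1 = j then z.1 d else z.2 d)
    ((PI DI).prod (PI DI)) (PI DI) := by
  let f : DI → DI ⊕ DI := fun d => if d.2.1 = j then Sum.inl d else Sum.inr d
  have hf : Function.Injective f := by
    intro a b h
    simp only [f] at h
    split_ifs at h with h1 h2
    · exact Sum.inl_injective h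
    · exact Sum.inr_injective h
  have h := (mp_inj f hf).comp (mp_sum DI DI)
  convert h using 1
  funext z d
  simp only [Function.comp_apply, f]
  split_ifs <;> simp

theorem dyn_gl (η : ℝ) (j : ℕ) (z : (DI → ℝ) × (DI → ℝ)) (i : ℕ) (hi : i ≤ j) :
    dyn η (fun d : DI => if d.2.1 = j + 1 then z.1 d else z.2 d) i = dyn η z.2 i := by
  induction i with
  | zero => funext v; simp [dyn]
  | succ i ih =>
    rw [dyn_succ, dyn_succ, ih (by omega)]
    have : ¬ (i + 1 = j + 1) := by omega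
    simp only [this, if_false]

/-- the one-step operator -/
noncomputable def K (η : ℝ) (f : En → ℝ≥0∞) (e : En) : ℝ≥0∞ :=
  ∫⁻ n, f (stp η e n.1 n.2) ∂((PI (ℤ × ℤ)).prod (PI (ℤ × ℤ)))

theorem measurable_K (η : ℝ) {f : En → ℝ≥0∞} (hf : Measurable f) : Measurable (K η f) := by
  unfold K
  refine Measurable.lintegral_prod_right' (f := fun z : En × (En × En) =>
    f (stp η z.1 z.2.1 z.2.2)) ?_
  exact hf.comp (measurable_stp η (by fun_prop) (by fun_prop) (by fun_prop))

/-- exchanging the two environments at the sites with `U v < η` -/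
theorem mp_swapU (η : ℝ) (U : En) : MeasurePreserving
    (fun z : En × En => (stp η z.1 z.2 U, stp η z.2 z.1 U))
    ((PI (ℤ × ℤ)).prod (PI (ℤ × ℤ))) ((PI (ℤ × ℤ)).prod (PI (ℤ × ℤ))) := by
  let f : (ℤ × ℤ) ⊕ (ℤ × ℤ) → (ℤ × ℤ) ⊕ (ℤ × ℤ) :=
    Sum.elim (fun v => if U v < η then Sum.inr v else Sum.inl v)
      (fun v => if U v < η then Sum.inl v else Sum.inr v)
  have hf : Function.Injective f := by
    rintro (a | a) (b | b) h <;> simp only [f, Sum.elim_inl, Sum.elim_inr] at h <;>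
      split_ifs at h with h1 h2 h2 <;>
      first
        | (have h' := Sum.inl_injective h; subst h'; first | rfl | exact absurd h1 h2 |
            exact absurd h2 h1)
        | (have h' := Sum.inr_injective h; subst h'; first | rfl | exact absurd h1 h2 |
            exact absurd h2 h1)
  have h := ((mp_split _ _).comp (mp_inj f hf)).comp (mp_sum (ℤ × ℤ) (ℤ × ℤ))
  convert h using 1
  funext z
  refine Prod.ext ?_ ?_
  · funext v
    simp only [Function.comp_apply, f, stp, Sum.elim_inl]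
    split_ifs <;> simp
  · funext v
    simp only [Function.comp_apply, f, stp, Sum.elim_inr]
    split_ifs <;> simp

theorem stp_stp (η : ℝ) (e a U : En) : stp η (stp η e a U) (stp η a e U) U = e := by
  funext v
  simp only [stp]
  split_ifs <;> rfl

theorem lint3 {G : En × En × En → ℝ≥0∞} (hG : Measurable G) :
    ∫⁻ e, ∫⁻ n, G (e, n.1, n.2) ∂((PI (ℤ × ℤ)).prod (PI (ℤ × ℤ))) ∂(PI (ℤ × ℤ)) =
      ∫⁻ U, ∫⁻ z, G (z.1, z.2, U) ∂((PI (ℤ × ℤ)).prod (PI (ℤ × ℤ))) ∂(PI (ℤ × ℤ)) := by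
  have h1 : ∀ e : En, ∫⁻ n, G (e, n.1, n.2) ∂((PI (ℤ × ℤ)).prod (PI (ℤ × ℤ))) =
      ∫⁻ U, ∫⁻ a, G (e, a, U) ∂(PI (ℤ × ℤ)) ∂(PI (ℤ × ℤ)) := by
    intro e
    rw [lintegral_prod_symm' _ (by fun_prop)]
  have h2 : ∀ U : En, ∫⁻ z, G (z.1, z.2, U) ∂((PI (ℤ × ℤ)).prod (PI (ℤ × ℤ))) =
      ∫⁻ e, ∫⁻ a, G (e, a, U) ∂(PI (ℤ × ℤ)) ∂(PI (ℤ × ℤ)) := by
    intro U
    rw [lintegral_prod _ (by fun_prop)]
  simp only [h1, h2]
  refine lintegral_lintegral_swap ?_
  refine Measurable.aemeasurable ?_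
  refine Measurable.lintegral_prod_right' (f := fun z : (En × En) × En => G (z.1.1, z.2, z.1.2)) ?_
  fun_prop

theorem K_symm (η : ℝ) {f g : En → ℝ≥0∞} (hf : Measurable f) (hg : Measurable g) :
    ∫⁻ e, f e * K η g e ∂(PI (ℤ × ℤ)) = ∫⁻ e, K η f e * g e ∂(PI (ℤ × ℤ)) := by
  have hs : Measurable (fun z : En × En × En => stp η z.1 z.2.1 z.2.2) :=
    measurable_stp η (by fun_prop) (by fun_prop) (by fun_prop)
  have e1 : ∀ e : En, f e * K η g e =
      ∫⁻ n, f e * g (stp η e n.1 n.2) ∂((PI (ℤ × ℤ)).prod (PI (ℤ × ℤ))) := by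
    intro e
    unfold K
    rw [lintegral_const_mul]
    exact hg.comp (measurable_stp η (by fun_prop) (by fun_prop) (by fun_prop))
  have e2 : ∀ e : En, K η f e * g e =
      ∫⁻ n, f (stp η e n.1 n.2) * g e ∂((PI (ℤ × ℤ)).prod (PI (ℤ × ℤ))) := by
    intro e
    unfold K
    rw [lintegral_mul_const]
    exact hf.comp (measurable_stp η (by fun_prop) (by fun_prop) (by fun_prop))
  simp only [e1, e2]
  have hG1 : Measurable (fun z : En × En × En => f z.1 * g (stp η z.1 z.2.1 z.2.2)) :=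
    (hf.comp measurable_fst).mul (hg.comp hs)
  have hG2 : Measurable (fun z : En × En × En => f (stp η z.1 z.2.1 z.2.2) * g z.1) :=
    (hf.comp hs).mul (hg.comp measurable_fst)
  have l1 := lint3 hG1
  have l2 := lint3 hG2
  simp only at l1 l2
  rw [l1, l2]
  refine lintegral_congr fun U => ?_
  have h := (mp_swapU η U).lintegral_comp (f := fun z : En × En => f z.1 * g (stp η z.1 z.2 U))
    ((hf.comp measurable_fst).mul
      (hg.comp (measurable_stp η (by fun_prop) (by fun_prop) (by fun_prop))))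
  simp only [stp_stp] at h
  exact h.symm

/-- restricted operator -/
noncomputable def B (η : ℝ) (D : Set En) (g : En → ℝ≥0∞) : En → ℝ≥0∞ :=
  K η (Dᶜ.indicator g)

/-- iterates -/
noncomputable def Bn (η : ℝ) (D : Set En) (g : En → ℝ≥0∞) : ℕ → En → ℝ≥0∞
  | 0 => g
  | n + 1 => B η D (Bn η D g n)

theorem Bn_comm (η : ℝ) (D : Set En) (g : En → ℝ≥0∞) (n : ℕ) :
    Bn η D (B η D g) n = B η D (Bn η D g n) := by
  induction n with
  | zero => rfl
  | succ n ih => simp only [Bn]; rw [ih]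

theorem measurable_Bn {η : ℝ} {D : Set En} (hD : MeasurableSet D) {g : En → ℝ≥0∞}
    (hg : Measurable g) (n : ℕ) : Measurable (Bn η D g n) := by
  induction n with
  | zero => exact hg
  | succ n ih => exact measurable_K η (ih.indicator hD.compl)

theorem Bn_le_one {η : ℝ} {D : Set En} (n : ℕ) (e : En) : Bn η D (fun _ => 1) n e ≤ 1 := by
  induction n generalizing e with
  | zero => exact le_rfl
  | succ n ih =>
    simp only [Bn, B, K]
    calc _ ≤ ∫⁻ _n, (1 : ℝ≥0∞) ∂((PI (ℤ × ℤ)).prod (PI (ℤ × ℤ))) := by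
          refine lintegral_mono fun n => ?_
          refine (Set.indicator_le_self' (fun _ _ => zero_le) _).trans (ih _)
      _ = 1 := by simp

theorem stay_eq {η : ℝ} {D C : Set En} (hD : MeasurableSet D) (hC : MeasurableSet C) (m : ℕ) :
    ∀ {g : En → ℝ≥0∞}, Measurable g →
    ∫⁻ x, ({x : DI → ℝ | dyn η x 0 ∈ C ∧ ∀ i ≤ m, dyn η x i ∉ D}.indicator (fun _ => 1) x) *
      g (dyn η x m) ∂(PI DI) = ∫⁻ e in C, Dᶜ.indicator (Bn η D g m) e ∂(PI (ℤ × ℤ)) := by
  induction m with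
  | zero =>
    intro g hg
    have h := (dyn_law η 0).lintegral_comp (f := fun e => C.indicator (Dᶜ.indicator g) e)
      ((hg.indicator hD.compl).indicator hC)
    rw [lintegral_indicator hC] at h
    simp only [Bn]
    rw [← h]
    refine lintegral_congr fun x => ?_
    by_cases h1 : dyn η x 0 ∈ C <;> by_cases h2 : dyn η x 0 ∈ D <;> simp [h1, h2]
  | succ m ih =>
    intro g hg
    have hB : Measurable (B η D g) := measurable_K η (hg.indicator hD.compl)
    have hSm : MeasurableSet {x : DI → ℝ | dyn η x 0 ∈ C ∧ ∀ i ≤ m, dyn η x i ∉ D} := by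
      refine (measurable_dyn η 0 hC).inter ?_
      have : {x : DI → ℝ | ∀ i ≤ m, dyn η x i ∉ D} =
          ⋂ i ∈ Set.Iic m, {x : DI → ℝ | dyn η x i ∉ D} := by ext x; simp
      show MeasurableSet {x : DI → ℝ | ∀ i ≤ m, dyn η x i ∉ D}
      rw [this]
      exact MeasurableSet.biInter (Set.to_countable _) fun i _ =>
        (measurable_dyn η i hD.compl)
    have key : ∀ x : DI → ℝ,
        ({x : DI → ℝ | dyn η x 0 ∈ C ∧ ∀ i ≤ m + 1, dyn η x i ∉ D}.indicator
          (fun _ => (1 : ℝ≥0∞)) x) * g (dyn η x (m + 1)) =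
        ({x : DI → ℝ | dyn η x 0 ∈ C ∧ ∀ i ≤ m, dyn η x i ∉ D}.indicator
          (fun _ => (1 : ℝ≥0∞)) x) * (Dᶜ.indicator g) (dyn η x (m + 1)) := by
      intro x
      by_cases hx : x ∈ {x : DI → ℝ | dyn η x 0 ∈ C ∧ ∀ i ≤ m, dyn η x i ∉ D}
      · by_cases hx' : dyn η x (m + 1) ∈ D
        · have : x ∉ {x : DI → ℝ | dyn η x 0 ∈ C ∧ ∀ i ≤ m + 1, dyn η x i ∉ D} := by
            rintro ⟨-, h⟩
            exact h _ le_rfl hx'
          rw [Set.indicator_of_notMem this]
          simp [hx']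
        · have : x ∈ {x : DI → ℝ | dyn η x 0 ∈ C ∧ ∀ i ≤ m + 1, dyn η x i ∉ D} := by
            refine ⟨hx.1, fun i hi => ?_⟩
            rcases Nat.lt_or_ge i (m + 1) with h | h
            · exact hx.2 i (by omega)
            · have : i = m + 1 := by omega
              rw [this]; exact hx'
          rw [Set.indicator_of_mem this, Set.indicator_of_mem hx]
          simp [hx']
      · have : x ∉ {x : DI → ℝ | dyn η x 0 ∈ C ∧ ∀ i ≤ m + 1, dyn η x i ∉ D} := by
          rintro ⟨h0, h⟩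
          exact hx ⟨h0, fun i hi => h i (by omega)⟩
        rw [Set.indicator_of_notMem this, Set.indicator_of_notMem hx]
        simp
    simp only [key]
    have hg' : Measurable (Dᶜ.indicator g) := hg.indicator hD.compl
    have hmeas : Measurable (fun x : DI → ℝ =>
        ({x : DI → ℝ | dyn η x 0 ∈ C ∧ ∀ i ≤ m, dyn η x i ∉ D}.indicator
          (fun _ => (1 : ℝ≥0∞)) x) * (Dᶜ.indicator g) (dyn η x (m + 1))) :=
      (measurable_const.indicator hSm).mul (hg'.comp (measurable_dyn η (m + 1)))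
    have h := (mp_gl (m + 1)).lintegral_comp hmeas
    rw [← h]
    have key2 : ∀ z : (DI → ℝ) × (DI → ℝ),
        ({x : DI → ℝ | dyn η x 0 ∈ C ∧ ∀ i ≤ m, dyn η x i ∉ D}.indicator
          (fun _ => (1 : ℝ≥0∞)) (fun d : DI => if d.2.1 = m + 1 then z.1 d else z.2 d)) *
          (Dᶜ.indicator g) (dyn η (fun d : DI => if d.2.1 = m + 1 then z.1 d else z.2 d) (m + 1)) =
        ({x : DI → ℝ | dyn η x 0 ∈ C ∧ ∀ i ≤ m, dyn η x i ∉ D}.indicator
          (fun _ => (1 : ℝ≥0∞)) z.2) * (Dᶜ.indicator g)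
            (stp η (dyn η z.2 m) (fun v => z.1 (v, m + 1, true)) (fun v => z.1 (v, m + 1, false)))
            := by
      intro z
      congr 1
      · by_cases hz : z.2 ∈ {x : DI → ℝ | dyn η x 0 ∈ C ∧ ∀ i ≤ m, dyn η x i ∉ D}
        · have : (fun d : DI => if d.2.1 = m + 1 then z.1 d else z.2 d) ∈
              {x : DI → ℝ | dyn η x 0 ∈ C ∧ ∀ i ≤ m, dyn η x i ∉ D} := by
            refine ⟨?_, fun i hi => ?_⟩
            · rw [dyn_gl η m z 0 (Nat.zero_le _)]; exact hz.1
            · rw [dyn_gl η m z i hi]; exact hz.2 i hi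
          rw [Set.indicator_of_mem this, Set.indicator_of_mem hz]
        · have : (fun d : DI => if d.2.1 = m + 1 then z.1 d else z.2 d) ∉
              {x : DI → ℝ | dyn η x 0 ∈ C ∧ ∀ i ≤ m, dyn η x i ∉ D} := by
            rintro ⟨h0, h1⟩
            refine hz ⟨?_, fun i hi => ?_⟩
            · rw [dyn_gl η m z 0 (Nat.zero_le _)] at h0; exact h0
            · have := h1 i hi
              rw [dyn_gl η m z i hi] at this; exact this
          rw [Set.indicator_of_notMem this, Set.indicator_of_notMem hz]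
      · rw [dyn_succ, dyn_gl η m z m le_rfl]
        simp
    simp only [key2]
    rw [lintegral_prod_symm']
    swap
    · refine ((measurable_const.indicator hSm).comp measurable_snd).mul (hg'.comp ?_)
      refine measurable_stp η ((measurable_dyn η m).comp measurable_snd) ?_ ?_
      · fun_prop
      · fun_prop
    have key3 : ∀ y : DI → ℝ,
        ∫⁻ x : DI → ℝ, ({x : DI → ℝ | dyn η x 0 ∈ C ∧ ∀ i ≤ m, dyn η x i ∉ D}.indicator
          (fun _ => (1 : ℝ≥0∞)) y) * (Dᶜ.indicator g)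
            (stp η (dyn η y m) (fun v => x (v, m + 1, true)) (fun v => x (v, m + 1, false)))
            ∂(PI DI) =
        ({x : DI → ℝ | dyn η x 0 ∈ C ∧ ∀ i ≤ m, dyn η x i ∉ D}.indicator
          (fun _ => (1 : ℝ≥0∞)) y) * (B η D g) (dyn η y m) := by
      intro y
      rw [lintegral_const_mul]
      · congr 1
        unfold B K
        have h2 := (mp_noise (m + 1)).lintegral_comp (f := fun n : En × En =>
          (Dᶜ.indicator g) (stp η (dyn η y m) n.1 n.2))
          (hg'.comp (measurable_stp η measurable_const measurable_fst measurable_snd))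
        exact h2
      · refine hg'.comp (measurable_stp η measurable_const ?_ ?_)
        · fun_prop
        · fun_prop
    simp only [key3]
    rw [ih hB]
    simp only [Bn, Bn_comm]

theorem Bn_mul {η : ℝ} {D : Set En} (hD : MeasurableSet D) (a b : ℕ) :
    ∫⁻ e, Dᶜ.indicator (Bn η D (fun _ => 1) a) e * Dᶜ.indicator (Bn η D (fun _ => 1) b) e
      ∂(PI (ℤ × ℤ)) = ∫⁻ e, Dᶜ.indicator (Bn η D (fun _ => 1) (a + b)) e ∂(PI (ℤ × ℤ)) := by
  induction a generalizing b with
  | zero =>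
    rw [Nat.zero_add]
    refine lintegral_congr fun e => ?_
    by_cases h : e ∈ D <;> simp [h, Bn]
  | succ a ih =>
    have h1 : ∀ e : En, Dᶜ.indicator (Bn η D (fun _ => 1) (a + 1)) e *
        Dᶜ.indicator (Bn η D (fun _ => 1) b) e =
        K η (Dᶜ.indicator (Bn η D (fun _ => 1) a)) e * Dᶜ.indicator (Bn η D (fun _ => 1) b) e := by
      intro e
      by_cases h : e ∈ D <;> simp [h, Bn, B]
    have h2 : ∀ e : En, Dᶜ.indicator (Bn η D (fun _ => 1) a) e *
        Dᶜ.indicator (Bn η D (fun _ => 1) (b + 1)) e =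
        Dᶜ.indicator (Bn η D (fun _ => 1) a) e *
          K η (Dᶜ.indicator (Bn η D (fun _ => 1) b)) e := by
      intro e
      by_cases h : e ∈ D <;> simp [h, Bn, B]
    simp only [h1]
    rw [← K_symm η ((measurable_Bn hD measurable_const a).indicator hD.compl)
      ((measurable_Bn hD measurable_const b).indicator hD.compl)]
    have := ih (b + 1)
    simp only [h2] at this
    rw [this, show a + (b + 1) = a + 1 + b by ring]

end Soft

open Soft in
theorem soft_step {η : ℝ} (hη : 0 ≤ η) {D Cc : Set (ℤ × ℤ → ℝ)} (hD : MeasurableSet D)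
    (hC : MeasurableSet Cc) (M : ℕ) :
    (PI (ℤ × ℤ)).real Cc * (PI DI).real {x | ∃ i ≤ 2 * M, dyn η x i ∈ D} +
      (PI DI).real {x | dyn η x 0 ∈ Cc ∧ ∃ i ≤ M, dyn η x i ∈ D} ^ 2 ≤
      (PI (ℤ × ℤ)).real Cc * (2 * (PI DI).real {x | ∃ i ≤ M, dyn η x i ∈ D}) := by
  -- the function `ψ`
  set π := PI (ℤ × ℤ) with hπ
  set μ := PI DI with hμ
  let ψ' : En → ℝ≥0∞ := Dᶜ.indicator (Bn η D (fun _ => 1) M)
  have hψ'm : Measurable ψ' := (measurable_Bn hD measurable_const M).indicator hD.compl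
  have hψ'1 : ∀ e, ψ' e ≤ 1 := fun e =>
    (Set.indicator_le_self' (fun _ _ => zero_le) _).trans (Bn_le_one M e)
  let ψ : En → ℝ := fun e => (ψ' e).toReal
  have hψm : Measurable ψ := hψ'm.ennreal_toReal
  have hψ0 : ∀ e, 0 ≤ ψ e := fun e => ENNReal.toReal_nonneg
  have hψ1 : ∀ e, ψ e ≤ 1 := fun e => by
    have := ENNReal.toReal_mono ENNReal.one_ne_top (hψ'1 e)
    simpa using this
  -- measurability of the events
  have hev : ∀ (m : ℕ) (C : Set En), MeasurableSet C →
      MeasurableSet {x : DI → ℝ | dyn η x 0 ∈ C ∧ ∀ i ≤ m, dyn η x i ∉ D} := by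
    intro m C hC
    refine (measurable_dyn η 0 hC).inter ?_
    have : {x : DI → ℝ | ∀ i ≤ m, dyn η x i ∉ D} =
        ⋂ i ∈ Set.Iic m, {x : DI → ℝ | dyn η x i ∉ D} := by ext x; simp
    show MeasurableSet {x : DI → ℝ | ∀ i ≤ m, dyn η x i ∉ D}
    rw [this]
    exact MeasurableSet.biInter (Set.to_countable _) fun i _ => (measurable_dyn η i hD.compl)
  -- survival probabilities
  have hsurv : ∀ (m : ℕ) (C : Set En), MeasurableSet C →
      μ {x : DI → ℝ | dyn η x 0 ∈ C ∧ ∀ i ≤ m, dyn η x i ∉ D} =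
        ∫⁻ e in C, Dᶜ.indicator (Bn η D (fun _ => 1) m) e ∂π := by
    intro m C hC
    rw [← stay_eq hD hC m measurable_const]
    simp only [mul_one]
    rw [lintegral_indicator_const (hev m C hC), one_mul]
  have e1 : μ.real {x : DI → ℝ | dyn η x 0 ∈ Set.univ ∧ ∀ i ≤ M, dyn η x i ∉ D} = ∫ e, ψ e ∂π := by
    rw [Measure.real, hsurv M _ MeasurableSet.univ, Measure.restrict_univ,
      integral_toReal hψ'm.aemeasurable
        (Filter.Eventually.of_forall fun e => (hψ'1 e).trans_lt ENNReal.one_lt_top)]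
  have e2 : μ.real {x : DI → ℝ | dyn η x 0 ∈ Set.univ ∧ ∀ i ≤ 2 * M, dyn η x i ∉ D} =
      ∫ e, ψ e ^ 2 ∂π := by
    rw [Measure.real, hsurv (2 * M) _ MeasurableSet.univ, Measure.restrict_univ,
      show 2 * M = M + M by ring, ← Bn_mul hD M M]
    have : ∀ e, ψ e ^ 2 = (ψ' e * ψ' e).toReal := by
      intro e; simp only [ψ, ENNReal.toReal_mul]; ring
    simp only [this]
    have hmm : Measurable (fun e => ψ' e * ψ' e) := hψ'm.mul hψ'm
    rw [integral_toReal hmm.aemeasurable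
        (Filter.Eventually.of_forall fun e =>
          (mul_le_one' (hψ'1 e) (hψ'1 e)).trans_lt ENNReal.one_lt_top)]
  have e3 : μ.real {x : DI → ℝ | dyn η x 0 ∈ Cc ∧ ∀ i ≤ M, dyn η x i ∉ D} =
      ∫ e in Cc, ψ e ∂π := by
    rw [Measure.real, hsurv M _ hC,
      integral_toReal hψ'm.aemeasurable
        (Filter.Eventually.of_forall fun e => (hψ'1 e).trans_lt ENNReal.one_lt_top)]
  -- hitting probabilities
  have hc : ∀ m : ℕ, μ.real {x : DI → ℝ | ∃ i ≤ m, dyn η x i ∈ D} =
      1 - μ.real {x : DI → ℝ | dyn η x 0 ∈ Set.univ ∧ ∀ i ≤ m, dyn η x i ∉ D} := by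
    intro m
    have h : {x : DI → ℝ | ∃ i ≤ m, dyn η x i ∈ D} =
        {x : DI → ℝ | dyn η x 0 ∈ Set.univ ∧ ∀ i ≤ m, dyn η x i ∉ D}ᶜ := by
      ext x
      simp only [Set.mem_ofPred_eq, Set.mem_univ, true_and, Set.mem_compl_iff, not_forall, not_not,
        exists_prop]
    rw [h, measureReal_compl (hev m _ MeasurableSet.univ)]
    simp
  have hcC : μ.real {x : DI → ℝ | dyn η x 0 ∈ Cc ∧ ∃ i ≤ M, dyn η x i ∈ D} =
      π.real Cc - μ.real {x : DI → ℝ | dyn η x 0 ∈ Cc ∧ ∀ i ≤ M, dyn η x i ∉ D} := by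
    have h0 : π.real Cc = μ.real {x : DI → ℝ | dyn η x 0 ∈ Cc} := by
      rw [Measure.real, Measure.real, ← (dyn_law η 0).measure_preimage hC.nullMeasurableSet]
      rfl
    have h : {x : DI → ℝ | dyn η x 0 ∈ Cc ∧ ∃ i ≤ M, dyn η x i ∈ D} =
        {x : DI → ℝ | dyn η x 0 ∈ Cc} \
          {x : DI → ℝ | dyn η x 0 ∈ Cc ∧ ∀ i ≤ M, dyn η x i ∉ D} := by
      ext x
      simp only [Set.mem_ofPred_eq, Set.mem_sdiff, not_and, not_forall, not_not, exists_prop]
      constructor
      · rintro ⟨h1, h2⟩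
        exact ⟨h1, fun _ => h2⟩
      · rintro ⟨h1, h2⟩
        exact ⟨h1, h2 h1⟩
    have hsub : {x : DI → ℝ | dyn η x 0 ∈ Cc ∧ ∀ i ≤ M, dyn η x i ∉ D} ⊆
        {x : DI → ℝ | dyn η x 0 ∈ Cc} := fun x hx => hx.1
    rw [h, measureReal_sdiff hsub (hev M _ hC), h0]
  rw [hc, hc, hcC, e1, e2, e3]
  -- integrability
  have hi1 : Integrable ψ π := by
    refine Integrable.of_bound hψm.aestronglyMeasurable 1 (Filter.Eventually.of_forall fun e => ?_)
    rw [Real.norm_eq_abs, abs_of_nonneg (hψ0 e)]; exact hψ1 e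
  have hi2 : Integrable (fun e => ψ e ^ 2) π := by
    refine Integrable.of_bound (hψm.pow_const 2).aestronglyMeasurable 1
      (Filter.Eventually.of_forall fun e => ?_)
    rw [Real.norm_eq_abs, abs_of_nonneg (sq_nonneg _)]
    exact pow_le_one₀ (hψ0 e) (hψ1 e)
  have hiu : Integrable (fun e => (1 - ψ e) ^ 2) π := by
    have : (fun e => (1 - ψ e) ^ 2) = fun e => 1 - 2 * ψ e + ψ e ^ 2 := by funext e; ring
    rw [this]
    exact ((integrable_const _).sub (hi1.const_mul 2)).add hi2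
  have hiC : Integrable (fun e => 1 - ψ e) (π.restrict Cc) :=
    ((integrable_const _).sub hi1.restrict)
  have f1 : ∫ e, (1 - ψ e) ^ 2 ∂π = 1 - 2 * ∫ e, ψ e ∂π + ∫ e, ψ e ^ 2 ∂π := by
    have : (fun e => (1 - ψ e) ^ 2) = fun e => (1 - 2 * ψ e) + ψ e ^ 2 := by funext e; ring
    have ha : Integrable (fun e => 1 - 2 * ψ e) π := (integrable_const _).sub (hi1.const_mul 2)
    have hb : Integrable (fun e => 2 * ψ e) π := hi1.const_mul 2
    rw [this, integral_add ha hi2, integral_sub (integrable_const _) hb, integral_const_mul]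
    simp
  have f2 : ∫ e in Cc, (1 - ψ e) ∂π = π.real Cc - ∫ e in Cc, ψ e ∂π := by
    rw [integral_sub (integrable_const _) hi1.restrict]
    simp
  have f3 : ∫ e in Cc, (1 - ψ e) ^ 2 ∂π ≤ ∫ e, (1 - ψ e) ^ 2 ∂π :=
    setIntegral_le_integral hiu (Filter.Eventually.of_forall fun e => sq_nonneg _)
  have cs : (∫ e in Cc, (1 - ψ e) ∂π) ^ 2 ≤ π.real Cc * ∫ e in Cc, (1 - ψ e) ^ 2 ∂π := by
    have hq : ∀ t : ℝ, 0 ≤ (∫ e in Cc, (1 - ψ e) ^ 2 ∂π) - 2 * t * (∫ e in Cc, (1 - ψ e) ∂π) +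
        t ^ 2 * π.real Cc := by
      intro t
      have h0 : 0 ≤ ∫ e in Cc, ((1 - ψ e) - t) ^ 2 ∂π := integral_nonneg fun e => sq_nonneg _
      have : (fun e => ((1 - ψ e) - t) ^ 2) =
          fun e => ((1 - ψ e) ^ 2 - 2 * t * (1 - ψ e)) + t ^ 2 := by funext e; ring
      have ha : Integrable (fun e => (1 - ψ e) ^ 2 - 2 * t * (1 - ψ e)) (π.restrict Cc) :=
        hiu.restrict.sub (hiC.const_mul _)
      have hb : Integrable (fun e => 2 * t * (1 - ψ e)) (π.restrict Cc) := hiC.const_mul _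
      rw [this, integral_add ha (integrable_const _),
        integral_sub hiu.restrict hb, integral_const_mul] at h0
      simp only [integral_const, measureReal_restrict_apply_univ, smul_eq_mul] at h0
      linarith
    rcases eq_or_lt_of_le (measureReal_nonneg (μ := π) (s := Cc)) with h | h
    · have hz : ∫ e in Cc, (1 - ψ e) ∂π = 0 := by
        rw [f2, ← h]
        have : ∫ e in Cc, ψ e ∂π = 0 := by
          have h3 : π Cc = 0 := by
            have := h.symm
            rwa [measureReal_eq_zero_iff] at this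
          rw [Measure.restrict_eq_zero.mpr h3, integral_zero_measure]
        rw [this]; ring
      rw [hz, ← h]; simp
    · have := hq ((∫ e in Cc, (1 - ψ e) ∂π) / π.real Cc)
      have h5 : (∫ e in Cc, (1 - ψ e) ^ 2 ∂π) -
          2 * ((∫ e in Cc, (1 - ψ e) ∂π) / π.real Cc) * (∫ e in Cc, (1 - ψ e) ∂π) +
          ((∫ e in Cc, (1 - ψ e) ∂π) / π.real Cc) ^ 2 * π.real Cc =
          (∫ e in Cc, (1 - ψ e) ^ 2 ∂π) - (∫ e in Cc, (1 - ψ e) ∂π) ^ 2 / π.real Cc := by
        field_simp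
        ring
      rw [h5] at this
      have h6 : (∫ e in Cc, (1 - ψ e) ∂π) ^ 2 / π.real Cc ≤ ∫ e in Cc, (1 - ψ e) ^ 2 ∂π := by
        linarith
      rw [div_le_iff₀ h] at h6
      linarith
  rw [← f2]
  have h7 : (∫ e in Cc, (1 - ψ e) ∂π) ^ 2 ≤ π.real Cc * (1 - 2 * ∫ e, ψ e ∂π + ∫ e, ψ e ^ 2 ∂π) := by
    rw [← f1]
    exact cs.trans (mul_le_mul_of_nonneg_left f3 measureReal_nonneg)
  nlinarith [h7]

end BGE
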