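import Pool.Agent.BGE.GmMeas
import Pool.Agent.BGE.Soft

/-!
BGE / Z2. The conclusion of the soft argument for the discrete dynamics.

Hypothesis (`StaticClass κ`): for all small `h` there is a measurable set `Cc` of environments with
`PI Cc ≤ h L^{19/20}`, `L = log (1/h)`, and for all meshes `η ≤ h^30`, `M η ≤ h`:
`P(∃ i ≤ M, dyn i ∈ Gr κ (nst h), and dyn 0 ∉ Cc) ≤ h/L`.

`cone_small`: then there is `h1 > 0` such that for all `r0`, `ε > 0` there are `m`, `η0 > 0` with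
`P(∃ i ≤ M, dyn i ∈ Gm κ' r0 m) ≤ ε` for `η ≤ η0`, `M η ≤ h1`; here `κ' = 2 κ` (`gm_sub_gr`).

Proof. Let `h1` be such that the hypothesis holds for all `h ≤ h1` (and `h1 ≤ 1/100`). Fix `r0, ε`,
suppose the claim fails for some `m = nst (h1/2^K)` large and some small `η`
(`η ≤ (h1/2^K)^40`), i.e. `P(∃ i ≤ M, dyn i ∈ D) > ε` for `D = Gm (2κ) r0 m` and some `M η ≤ h1`. Let
`M0 = ⌈M/2^K⌉`, then `M ≤ 2^K M0`, `M0 η ≤ h1/2^K + η`. (To have `M0 η ≤ h_K := h1/2^(K-1)` use one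
level less; let `h_k = h1/2^(k-1)` for `k = 1, ..., K`, and `M_k = 2^(K-k) M0`, so that
`M_k η ≤ h_k` for `k ≥ 1` and `M_0 = 2^K M0 ≥ M`.)
Let `p_k = P(∃ i ≤ M_k, dyn i ∈ D)`, `π_k = PI (Cc_k) ≤ h_k L_k^{19/20}`, `L_k = log (1/h_k)`.
`soft_step`: `π_k p_{k-1} + (P(dyn 0 ∈ Cc_k, ∃ i ≤ M_k, dyn i ∈ D))² ≤ 2 π_k p_k`, in particular
`p_{k-1} ≤ 2 p_k` (if `π_k = 0`, then `p_k ≤ h_k/L_k`; replace `π_k` by `h_k L_k^{19/20}`, i.e. enlarge
`Cc_k`, or treat this case separately: the inequality `p_{k-1} ≤ 2 p_k` also follows from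
stationarity or from `soft_step` with `Cc = univ`). So `p_k ≥ 2^{-k} ε` and
`f_k := p_k/h_k ≥ ε/(2 h1) =: ρ`. For all `k` with `nst h_k ≥ r0, 2/κ` and `ρ ≥ 2/L_k`
(true for `k ≥ k0(ρ)`): `D ⊆ Gr κ (nst h_k)` (`gm_sub_gr`, `nst h_k ≤ m`), so
`P(dyn 0 ∈ Cc_k, ∃ i ≤ M_k, dyn i ∈ D) ≥ p_k - h_k/L_k ≥ p_k/2` and
`p_{k-1} ≤ 2 p_k - p_k²/(4 π_k)`, `f_{k-1} ≤ f_k - f_k²/(8 L_k^{19/20})`, hence
`1/f_{k-1} ≥ 1/f_k + 1/(8 L_k^{19/20})`. Summing over `k0 < k ≤ K` with `L_k ≤ C k`: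
`1/ρ ≥ 1/f_{k0} ≥ c ∑_{k0 < k ≤ K} k^{-19/20}`, which tends to infinity with `K`: contradiction if
`K` is large (in terms of `ρ`, `h1`, `κ`, `r0`).
-/

namespace BGE

open MeasureTheory ProbabilityTheory

/-- the output of the multi-scale analysis -/
def StaticClass (κ : ℝ) : Prop := ∃ h0 : ℝ, 0 < h0 ∧ ∀ h : ℝ, 0 < h → h ≤ h0 →
  ∃ Cc : Set (ℤ × ℤ → ℝ), MeasurableSet Cc ∧
    (PI (ℤ × ℤ)).real Cc ≤ h * Real.log (1 / h) ^ (19 / 20 : ℝ) ∧
    ∀ (η : ℝ) (M : ℕ), 0 < η → η ≤ h ^ 30 → M * η ≤ h →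
      (PI DI).real {x | (∃ i ≤ M, dyn η x i ∈ Gr κ (nst h)) ∧ dyn η x 0 ∉ Cc} ≤
        h / Real.log (1 / h)

namespace SoftMain

/-- the recursion `f j ≤ f (j+1) - a (j+1) f (j+1)^2` bounds the sum of `a` -/
theorem sum_bound {ρ : ℝ} (hρ : 0 < ρ) (f a : ℕ → ℝ) (k0 K : ℕ) (hk : k0 ≤ K)
    (hf : ∀ j ≤ K, ρ ≤ f j)
    (hrec : ∀ j, k0 ≤ j → j < K → f j ≤ f (j + 1) - a (j + 1) * f (j + 1) ^ 2) :
    ∑ j ∈ Finset.Ico k0 K, a (j + 1) ≤ 1 / ρ := by
  have key : ∀ n, k0 ≤ n → n ≤ K → 1 / f n + ∑ j ∈ Finset.Ico k0 n, a (j + 1) ≤ 1 / f k0 := by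
    intro n hn
    induction n, hn using Nat.le_induction with
    | base => intro _; simp
    | succ n hn ih =>
      intro hnK
      have h1 := ih (by omega)
      have hfn : 0 < f n := lt_of_lt_of_le hρ (hf n (by omega))
      have hfn1 : 0 < f (n + 1) := lt_of_lt_of_le hρ (hf (n + 1) hnK)
      have h2 := hrec n hn (by omega)
      have h3 : 1 / f (n + 1) + a (n + 1) ≤ 1 / f n := by
        rw [le_div_iff₀ hfn]
        rcases le_or_gt 0 (1 / f (n + 1) + a (n + 1)) with h4 | h4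
        · calc (1 / f (n + 1) + a (n + 1)) * f n
              ≤ (1 / f (n + 1) + a (n + 1)) * (f (n + 1) - a (n + 1) * f (n + 1) ^ 2) :=
                mul_le_mul_of_nonneg_left h2 h4
            _ = 1 - (a (n + 1) * f (n + 1)) ^ 2 := by field_simp; ring
            _ ≤ 1 := by nlinarith [sq_nonneg (a (n + 1) * f (n + 1))]
        · nlinarith
      rw [Finset.sum_Ico_succ_top hn]
      linarith
  have h1 := key K hk le_rfl
  have hfK : 0 < f K := lt_of_lt_of_le hρ (hf K le_rfl)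
  have h2 : 1 / f k0 ≤ 1 / ρ := one_div_le_one_div_of_le hρ (hf k0 hk)
  have h3 : 0 < 1 / f K := by positivity
  linarith

theorem le_nst {h : ℝ} (h0 : 0 < h) (h1 : h ≤ 1 / 100) : √(1 / h) / 2 - 1 ≤ nst h := by
  set x := 1 / h with hx
  have hx1 : 100 ≤ x := by rw [hx, le_div_iff₀ h0]; linarith
  have hx0 : 0 < x := by linarith
  have hL1 : 1 ≤ Real.log x := by
    rw [Real.le_log_iff_exp_le hx0]
    have := Real.exp_one_lt_d9
    linarith
  have hs0 : 0 < √x := Real.sqrt_pos.2 hx0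
  have hs : 1 ≤ √x / 2 := by
    have : (2 : ℝ) ≤ √x := by
      rw [Real.le_sqrt (by norm_num) hx0.le]
      linarith
    linarith
  have hlog : Real.log x ≤ 2 * √x := by
    have := Real.log_le_sub_one_of_pos hs0
    rw [Real.log_sqrt hx0.le] at this
    linarith
  have hpow : Real.log x ^ (9 / 10 : ℝ) ≤ 2 * √x := by
    calc Real.log x ^ (9 / 10 : ℝ) ≤ Real.log x ^ (1 : ℝ) :=
          Real.rpow_le_rpow_of_exponent_le hL1 (by norm_num)
      _ = Real.log x := Real.rpow_one _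
      _ ≤ _ := hlog
  have hp0 : 0 < Real.log x ^ (9 / 10 : ℝ) := Real.rpow_pos_of_pos (by linarith) _
  have h2 : √x / 2 ≤ h⁻¹ / Real.log x ^ (9 / 10 : ℝ) := by
    rw [le_div_iff₀ hp0]
    calc √x / 2 * Real.log x ^ (9 / 10 : ℝ) ≤ √x / 2 * (2 * √x) :=
          mul_le_mul_of_nonneg_left hpow (by positivity)
      _ = √x * √x := by ring
      _ = x := Real.mul_self_sqrt hx0.le
      _ = h⁻¹ := one_div h
  have h3 : √x / 2 ≤ (h⁻¹ / Real.log x ^ (9 / 10 : ℝ)) ^ 3 := by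
    calc √x / 2 ≤ (√x / 2) ^ 3 := le_self_pow₀ hs (by norm_num)
      _ ≤ _ := pow_le_pow_left₀ (by positivity) h2 3
  have h4 := Nat.lt_floor_add_one ((h⁻¹ / Real.log x ^ (9 / 10 : ℝ)) ^ 3)
  have h5 : nst h = ⌊(h⁻¹ / Real.log x ^ (9 / 10 : ℝ)) ^ 3⌋₊ := rfl
  rw [h5]
  linarith

end SoftMain

theorem cone_small {κ : ℝ} (hκ : 0 < κ) (hκ1 : κ ≤ 1 / 4) (hS : StaticClass κ) :
    ∃ h1 : ℝ, 0 < h1 ∧ ∀ (r0 : ℕ) (ε : ℝ), 0 < ε → ∃ (m : ℕ) (η0 : ℝ), 0 < η0 ∧
      ∀ (η : ℝ) (M : ℕ), 0 < η → η ≤ η0 → M * η ≤ h1 →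
        (PI DI).real {x | ∃ i ≤ M, dyn η x i ∈ Gm (2 * κ) r0 m} ≤ ε := by
  obtain ⟨h0, hh0, hS⟩ := hS
  set h1 : ℝ := min h0 (1 / 100) with hh1
  have h1pos : 0 < h1 := lt_min hh0 (by norm_num)
  have h1le : h1 ≤ h0 := min_le_left _ _
  have h1s : h1 ≤ 1 / 100 := min_le_right _ _
  refine ⟨h1, h1pos, fun r0 ε hε => ?_⟩
  -- the scales
  set H : ℕ → ℝ := fun j => 2 * h1 / 2 ^ j with hH
  have Hpos : ∀ j, 0 < H j := fun j => by simp only [hH]; positivity
  have Hle : ∀ j, 1 ≤ j → H j ≤ h1 := by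
    intro j hj
    simp only [hH]
    rw [div_le_iff₀ (by positivity)]
    have : (2 : ℝ) ^ 1 ≤ 2 ^ j := pow_le_pow_right₀ (by norm_num) hj
    nlinarith
  have Hanti : ∀ i j, i ≤ j → H j ≤ H i := by
    intro i j hij
    simp only [hH]
    exact div_le_div_of_nonneg_left (by positivity) (by positivity)
      (pow_le_pow_right₀ (by norm_num) hij)
  have Hsucc : ∀ j, H j = 2 * H (j + 1) := by
    intro j
    simp only [hH]
    rw [pow_succ]
    field_simp
  choose! Cc hCm hCp hCh using hS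
  set L : ℕ → ℝ := fun j => Real.log (1 / H j) with hL
  have hLeq : ∀ j, L j = j * Real.log 2 + Real.log (1 / (2 * h1)) := by
    intro j
    simp only [hL, hH]
    rw [show 1 / (2 * h1 / 2 ^ j) = 2 ^ j * (1 / (2 * h1)) by field_simp,
      Real.log_mul (by positivity) (by positivity), Real.log_pow]
  set c1 : ℝ := Real.log (1 / (2 * h1)) with hc1
  have hc1pos : 0 ≤ c1 := by
    refine Real.log_nonneg ?_
    rw [le_div_iff₀ (by positivity)]
    linarith
  have hlog2 : Real.log 2 ≤ 1 := by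
    have := Real.log_two_lt_d9
    linarith
  have hlog2p : 0 < Real.log 2 := Real.log_pos (by norm_num)
  have hL1 : ∀ j, 1 ≤ j → 1 ≤ L j := by
    intro j hj
    simp only [hL]
    rw [Real.le_log_iff_exp_le (by have := Hpos j; positivity)]
    have h2 : (100 : ℝ) ≤ 1 / H j := by
      rw [le_div_iff₀ (Hpos j)]
      have := Hle j hj
      linarith
    have := Real.exp_one_lt_d9
    linarith
  have hLle : ∀ j, 1 ≤ j → L j ^ (19 / 20 : ℝ) ≤ (1 + c1) * (j + 1) := by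
    intro j hj
    have h2 := hL1 j hj
    calc L j ^ (19 / 20 : ℝ) ≤ L j ^ (1 : ℝ) :=
          Real.rpow_le_rpow_of_exponent_le h2 (by norm_num)
      _ = L j := Real.rpow_one _
      _ ≤ (1 + c1) * (j + 1) := by
        rw [hLeq j]
        have hj0 : (0 : ℝ) ≤ j := Nat.cast_nonneg j
        nlinarith
  -- the constant ρ
  set ρ : ℝ := ε / (2 * h1) with hρ
  have hρ0 : 0 < ρ := by positivity
  -- the first good level
  obtain ⟨k0, hk0⟩ : ∃ k0 : ℕ, 1 ≤ k0 ∧ ∀ j, k0 ≤ j → 2 / ρ ≤ L j ∧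
      max (r0 : ℝ) (1 / κ) ≤ nst (H j) := by
    obtain ⟨k1, hk1⟩ := exists_nat_ge (2 / ρ / Real.log 2)
    obtain ⟨k2, hk2⟩ := exists_nat_ge ((2 * (max (r0 : ℝ) (1 / κ) + 1)) ^ 2)
    refine ⟨max 1 (max k1 k2), le_max_left _ _, fun j hj => ?_⟩
    have hj1 : 1 ≤ j := le_trans (le_max_left _ _) hj
    have hjk1 : k1 ≤ j := le_trans (le_trans (le_max_left _ _) (le_max_right _ _)) hj
    have hjk2 : k2 ≤ j := le_trans (le_trans (le_max_right _ _) (le_max_right _ _)) hj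
    constructor
    · rw [hLeq j]
      rw [div_le_iff₀ hlog2p] at hk1
      have : (k1 : ℝ) ≤ j := by exact_mod_cast hjk1
      nlinarith
    · have h2 := SoftMain.le_nst (Hpos j) ((Hle j hj1).trans h1s)
      have hR0 : 0 ≤ 2 * (max (r0 : ℝ) (1 / κ) + 1) := by
        have : (0 : ℝ) ≤ max (r0 : ℝ) (1 / κ) := le_max_of_le_left (Nat.cast_nonneg _)
        linarith
      have h3 : 2 * (max (r0 : ℝ) (1 / κ) + 1) ≤ √(1 / H j) := by
        refine Real.le_sqrt_of_sq_le ?_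
        refine hk2.trans ?_
        have h4 : (k2 : ℝ) ≤ j := by exact_mod_cast hjk2
        have h5 : (j : ℝ) ≤ 2 ^ j := by
          have := (Nat.lt_two_pow_self (n := j)).le
          exact_mod_cast this
        have h6 : (2 : ℝ) ^ j ≤ 1 / H j := by
          rw [le_div_iff₀ (Hpos j)]
          simp only [hH]
          rw [mul_div_cancel₀]
          · linarith
          · positivity
        linarith
      linarith
  obtain ⟨hk01, hk0⟩ := hk0
  -- the last level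
  obtain ⟨K, hK0, hK⟩ : ∃ K, k0 ≤ K ∧
      1 / ρ < ∑ j ∈ Finset.Ico k0 K, 1 / (8 * ((1 + c1) * (((j + 1 : ℕ) : ℝ) + 1))) := by
    have hdiv := Real.tendsto_sum_range_one_div_nat_succ_atTop
    have h2 := (hdiv.eventually_gt_atTop
      (8 * (1 + c1) * (1 / ρ) + ∑ i ∈ Finset.range (k0 + 1), (1 / ((i : ℝ) + 1)))).and
      (Filter.eventually_ge_atTop (k0 + 1))
    obtain ⟨n, hn, hn1⟩ := h2.exists
    refine ⟨n - 1, by omega, ?_⟩
    have h3 : ∑ i ∈ Finset.range n, (1 / ((i : ℝ) + 1)) =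
        ∑ i ∈ Finset.range (k0 + 1), (1 / ((i : ℝ) + 1)) +
          ∑ i ∈ Finset.Ico (k0 + 1) n, (1 / ((i : ℝ) + 1)) := by
      rw [Finset.sum_range_add_sum_Ico _ hn1]
    have h4 : ∑ i ∈ Finset.Ico (k0 + 1) n, (1 / ((i : ℝ) + 1)) =
        ∑ j ∈ Finset.Ico k0 (n - 1), (1 / (((j + 1 : ℕ) : ℝ) + 1)) := by
      have h5 := Finset.sum_Ico_add' (fun i : ℕ => 1 / ((i : ℝ) + 1)) k0 (n - 1) 1
      rw [show n - 1 + 1 = n by omega] at h5
      exact h5.symm
    have h6 : ∑ j ∈ Finset.Ico k0 (n - 1), 1 / (8 * ((1 + c1) * (((j + 1 : ℕ) : ℝ) + 1))) =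
        1 / (8 * (1 + c1)) * ∑ j ∈ Finset.Ico k0 (n - 1), (1 / (((j + 1 : ℕ) : ℝ) + 1)) := by
      rw [Finset.mul_sum]
      refine Finset.sum_congr rfl fun j _ => ?_
      have : ((j + 1 : ℕ) : ℝ) + 1 ≠ 0 := by positivity
      field_simp
    rw [h6, ← h4, one_div_mul_eq_div, lt_div_iff₀ (by positivity)]
    linarith
  have hK1 : 1 ≤ K := hk01.trans hK0
  -- m and η0
  set m : ℕ := (Finset.range (K + 1)).sup (fun j => nst (H j)) with hm
  have hml : ∀ j ≤ K, nst (H j) ≤ m := fun j hj =>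
    Finset.le_sup (f := fun j => nst (H j)) (Finset.mem_range.2 (by omega))
  refine ⟨m, H K ^ 30, pow_pos (Hpos K) 30, fun η M hη hη0 hM => ?_⟩
  by_contra hcon
  push Not at hcon
  set D : Set (ℤ × ℤ → ℝ) := Gm (2 * κ) r0 m with hD
  have hDm : MeasurableSet D := measurableSet_Gm _ _ _
  set M0 : ℕ := ⌈(M : ℝ) / 2 ^ K⌉₊ with hM0
  have hM0a : (M : ℝ) ≤ 2 ^ K * M0 := by
    have := Nat.le_ceil ((M : ℝ) / 2 ^ K)
    rw [div_le_iff₀ (by positivity)] at this
    rw [hM0]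
    linarith
  have hM0a' : M ≤ 2 ^ K * M0 := by exact_mod_cast hM0a
  have hM0b : (M0 : ℝ) * η ≤ H K := by
    have h2 := Nat.ceil_lt_add_one (a := (M : ℝ) / 2 ^ K) (by positivity)
    rw [← hM0] at h2
    have h3 : (M0 : ℝ) * η ≤ ((M : ℝ) / 2 ^ K + 1) * η := mul_le_mul_of_nonneg_right h2.le hη.le
    have h4 : ((M : ℝ) / 2 ^ K + 1) * η = (M * η) / 2 ^ K + η := by ring
    have h5 : (M * η) / 2 ^ K ≤ h1 / 2 ^ K := by gcongr
    have h6 : h1 / 2 ^ K = H K / 2 := by simp only [hH]; ring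
    have h7 : η ≤ H K / 2 := by
      have h8 : H K ^ 30 = H K * H K ^ 29 := by ring
      have h9 : H K ^ 29 ≤ 1 / 2 := by
        have h10 : H K ≤ 1 / 100 := (Hle K hK1).trans h1s
        calc H K ^ 29 ≤ (1 / 100) ^ 29 := pow_le_pow_left₀ (Hpos K).le h10 29
          _ ≤ 1 / 2 := by norm_num
      have := Hpos K
      nlinarith
    linarith
  -- the probabilities
  set p : ℕ → ℝ := fun j => (PI DI).real {x | ∃ i ≤ 2 ^ (K - j) * M0, dyn η x i ∈ D} with hp
  have hp0 : ε < p 0 := by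
    refine hcon.trans_le (measureReal_mono ?_)
    rintro x ⟨i, hi, hx⟩
    exact ⟨i, by simp only [Nat.sub_zero]; omega, hx⟩
  have hMj : ∀ j, j < K → 2 ^ (K - j) * M0 = 2 * (2 ^ (K - (j + 1)) * M0) := by
    intro j hj
    rw [show K - j = (K - (j + 1)) + 1 by omega, pow_succ]
    ring
  have hstep : ∀ j, j < K → ∀ C : Set (ℤ × ℤ → ℝ), MeasurableSet C →
      (PI (ℤ × ℤ)).real C * p j + (PI DI).real {x | dyn η x 0 ∈ C ∧
        ∃ i ≤ 2 ^ (K - (j + 1)) * M0, dyn η x i ∈ D} ^ 2 ≤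
      (PI (ℤ × ℤ)).real C * (2 * p (j + 1)) := by
    intro j hj C hC
    have := soft_step hη.le hDm hC (2 ^ (K - (j + 1)) * M0)
    rw [← hMj j hj] at this
    exact this
  have hhalf : ∀ j, j < K → p j ≤ 2 * p (j + 1) := by
    intro j hj
    have h2 := hstep j hj Set.univ MeasurableSet.univ
    simp only [probReal_univ, one_mul] at h2
    nlinarith [sq_nonneg ((PI DI).real {x : DI → ℝ | dyn η x 0 ∈ (Set.univ : Set (ℤ × ℤ → ℝ)) ∧
        ∃ i ≤ 2 ^ (K - (j + 1)) * M0, dyn η x i ∈ D})]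
  have hplow : ∀ j, j ≤ K → ε ≤ 2 ^ j * p j := by
    intro j
    induction j with
    | zero => intro _; simp only [pow_zero, one_mul]; exact hp0.le
    | succ j ih =>
      intro hj
      have h2 := ih (by omega)
      have h3 := hhalf j (by omega)
      calc ε ≤ 2 ^ j * p j := h2
        _ ≤ 2 ^ j * (2 * p (j + 1)) := mul_le_mul_of_nonneg_left h3 (by positivity)
        _ = 2 ^ (j + 1) * p (j + 1) := by ring
  set f : ℕ → ℝ := fun j => p j / H j with hf
  have hfρ : ∀ j ≤ K, ρ ≤ f j := by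
    intro j hj
    simp only [hf]
    rw [le_div_iff₀ (Hpos j)]
    have h2 := hplow j hj
    have h3 : ρ * H j = ε / 2 ^ j := by
      simp only [hρ, hH]
      field_simp
    rw [h3, div_le_iff₀ (by positivity)]
    linarith
  -- the recursion
  have hrec : ∀ j, k0 ≤ j → j < K →
      f j ≤ f (j + 1) - 1 / (8 * ((1 + c1) * (((j + 1 : ℕ) : ℝ) + 1))) * f (j + 1) ^ 2 := by
    intro j hj hjK
    have hHj := Hpos (j + 1)
    have hHh0 : H (j + 1) ≤ h0 := (Hle (j + 1) (by omega)).trans h1le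
    obtain ⟨hLρ, hnst⟩ := hk0 (j + 1) (by omega)
    have hL1' := hL1 (j + 1) (by omega)
    have hC := hCm (H (j + 1)) hHj hHh0
    have hCp' := hCp (H (j + 1)) hHj hHh0
    have hMη : ((2 ^ (K - (j + 1)) * M0 : ℕ) : ℝ) * η ≤ H (j + 1) := by
      push_cast
      have h2 : H (j + 1) = 2 ^ (K - (j + 1)) * H K := by
        simp only [hH]
        have h3 : (2 : ℝ) ^ K = 2 ^ (K - (j + 1)) * 2 ^ (j + 1) := by
          rw [← pow_add]
          congr 1
          omega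
        rw [h3]
        field_simp
      rw [h2, mul_assoc]
      exact mul_le_mul_of_nonneg_left hM0b (by positivity)
    have hηj : η ≤ H (j + 1) ^ 30 :=
      hη0.trans (pow_le_pow_left₀ (Hpos K).le (Hanti (j + 1) K (by omega)) 30)
    have hCh' := hCh (H (j + 1)) hHj hHh0 η (2 ^ (K - (j + 1)) * M0) hη hηj hMη
    have hsub : D ⊆ Gr κ (nst (H (j + 1))) := by
      have h2 := gm_sub_gr (κ := 2 * κ) (by linarith) (by linarith) (r0 := r0)
        (r := nst (H (j + 1))) (m := m)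
        (by exact_mod_cast (le_max_left _ _).trans hnst) (hml (j + 1) (by omega))
        (by
          have h3 : 2 / (2 * κ) = 1 / κ := by field_simp
          rw [h3]
          exact (le_max_right _ _).trans hnst)
      rwa [show 2 * κ / 2 = κ by ring] at h2
    set q : ℝ := (PI DI).real {x | dyn η x 0 ∈ Cc (H (j + 1)) ∧
        ∃ i ≤ 2 ^ (K - (j + 1)) * M0, dyn η x i ∈ D} with hq
    have hpq : p (j + 1) ≤ q + H (j + 1) / L (j + 1) := by
      refine le_trans ?_ (add_le_add_right hCh' q)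
      refine le_trans (measureReal_mono ?_) (measureReal_union_le _ _)
      rintro x ⟨i, hi, hx⟩
      by_cases hc : dyn η x 0 ∈ Cc (H (j + 1))
      · exact Or.inl ⟨hc, i, hi, hx⟩
      · exact Or.inr ⟨⟨i, hi, hsub hx⟩, hc⟩
    have hHL : H (j + 1) / L (j + 1) ≤ p (j + 1) / 2 := by
      have h2 := hfρ (j + 1) (by omega)
      simp only [hf] at h2
      rw [le_div_iff₀ hHj] at h2
      rw [div_le_iff₀ (by linarith)]
      rw [div_le_iff₀ hρ0] at hLρ
      have h3 : ρ * H (j + 1) * L (j + 1) ≤ p (j + 1) * L (j + 1) :=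
        mul_le_mul_of_nonneg_right h2 (by linarith)
      nlinarith
    have hqp : p (j + 1) / 2 ≤ q := by linarith
    have hp1 : 0 < p (j + 1) := by
      have h2 := hfρ (j + 1) (by omega)
      simp only [hf] at h2
      rw [le_div_iff₀ hHj] at h2
      have : 0 < ρ * H (j + 1) := by positivity
      linarith
    have hst := hstep j hjK _ hC
    rw [← hq] at hst
    set π : ℝ := (PI (ℤ × ℤ)).real (Cc (H (j + 1))) with hπ
    have hπ0 : 0 ≤ π := measureReal_nonneg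
    have hqpos : 0 < q := by linarith
    have hπpos : 0 < π := by
      rcases hπ0.lt_or_eq with h2 | h2
      · exact h2
      · exfalso
        rw [← h2] at hst
        simp only [zero_mul, zero_add] at hst
        have : 0 < q ^ 2 := by positivity
        linarith
    set B : ℝ := (1 + c1) * (((j + 1 : ℕ) : ℝ) + 1) with hB
    have hB0 : 0 < B := by positivity
    have hπB : π ≤ H (j + 1) * B := by
      refine hCp'.trans ?_
      exact mul_le_mul_of_nonneg_left (hLle (j + 1) (by omega)) hHj.le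
    -- p j ≤ 2 p - p^2/(4 H B)
    have hfin : p j ≤ 2 * p (j + 1) - p (j + 1) ^ 2 / (4 * (H (j + 1) * B)) := by
      have h2 : p j + q ^ 2 / π ≤ 2 * p (j + 1) := by
        have h3 : p j + q ^ 2 / π = (π * p j + q ^ 2) / π := by field_simp
        rw [h3, div_le_iff₀ hπpos]
        linarith
      have h4 : p (j + 1) ^ 2 / (4 * (H (j + 1) * B)) ≤ q ^ 2 / π := by
        rw [div_le_div_iff₀ (by positivity) hπpos]
        have h5 : p (j + 1) ^ 2 ≤ 4 * q ^ 2 := by nlinarith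
        calc p (j + 1) ^ 2 * π ≤ 4 * q ^ 2 * (H (j + 1) * B) :=
              mul_le_mul h5 hπB hπ0 (by positivity)
          _ = q ^ 2 * (4 * (H (j + 1) * B)) := by ring
      linarith
    simp only [hf]
    rw [Hsucc j, div_le_iff₀ (by positivity)]
    calc p j ≤ 2 * p (j + 1) - p (j + 1) ^ 2 / (4 * (H (j + 1) * B)) := hfin
      _ = (p (j + 1) / H (j + 1) - 1 / (8 * B) * (p (j + 1) / H (j + 1)) ^ 2) *
          (2 * H (j + 1)) := by field_simp; ring
  have hsum := SoftMain.sum_bound hρ0 f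
    (fun j => 1 / (8 * ((1 + c1) * ((j : ℝ) + 1)))) k0 K hK0 hfρ hrec
  linarith

end BGE
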