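import Pool.Agent.BGE.TSMoves

/-!
BGE / B6. The two-slope coupling: laws.

The space `TSx` carries i.i.d. exponential variables of rate one: the bulk weights, sequences
`a1, a2, a3, a4` and a number `a5`. For `0 < β < α < 1` we use
`y1 = a1/α`, `y2 = a2/β`, `z = a3/(1-α)`, `j2 = a4/(1-β)`, `κ = a5/(α-β)` in `TSGrid`.
`b1 α β x` and `b2 α β x` are the fields (bulk and boundary weights) of the two systems.

`map_b1`, `map_b2`: the first system is the stationary one with rates `(α, 1-α)`, the second one
with rates `(β, 1-β)`: the (normalised) boundary weights together with the bulk weights have the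
law `muSW`.
Proof of `map_b1`: `(z j, κ_{j-1}, j2 j)` are independent with rates `1-α, α-β, 1-β`; by
`local_burke` `(J1 j, κ_j, min)` have rates `1-α, α-β, 1-β` and are independent; by induction on `j`
the `J1 1, ..., J1 j, κ_j` are independent (and independent of `z, j2` for larger indices, of `y1` and
of the bulk). `map_b2`: the same along the bottom row: `(y2 i, K_{i-1}, y1 i)` have rates
`β, α-β, α`, so `(I2 i, K_i, min)` have these rates and are independent. (Infinite products: it
suffices to treat finitely many indices; a probability measure on a product is determined by its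
finite-dimensional marginals.)

-/

namespace BGE

open MeasureTheory ProbabilityTheory

/-- from a map into one family to a map into `SW` -/
theorem SW_of {X : Type*} [MeasurableSpace X] {μ : Measure X} (F : X → SW)
    (h : MeasurePreserving (fun x => glueS ((F x).1, glueS (F x).2)) μ
      (PI ((ℤ × ℤ) ⊕ ℕ ⊕ ℕ))) : MeasurePreserving F μ muSW := by
  have h1 := splitS_mp (ℤ × ℤ) (ℕ ⊕ ℕ)
  have h2 := (MeasurePreserving.id (PI (ℤ × ℤ))).prod (splitS_mp ℕ ℕ)
  exact (h2.comp h1).comp h

theorem map_b1 {α β : ℝ} (h0 : 0 < β) (h1 : β < α) (h2 : α < 1) :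
    MeasurePreserving (fun x : TSx =>
      ((x.1, fun i => α * s1 α x i, fun j => (1 - α) * w1 α β x j) : SW)) muTS muSW := by
  have ha : 0 < 1 - α := by linarith
  have hb : 0 < α - β := by linarith
  have hα : α ≠ 0 := by linarith
  have hab : (1 - α) + (α - β) = 1 - β := by ring
  apply SW_of
  apply mp_of_local
  intro s
  obtain ⟨N, hN⟩ : ∃ N : ℕ, ∀ j : ℕ, (Sum.inr (Sum.inr j) : (ℤ × ℤ) ⊕ ℕ ⊕ ℕ) ∈ s → j ≤ N := by
    refine ⟨(s.toRight.toRight).sup id, fun j hj => ?_⟩
    exact Finset.le_sup (f := id) (by simpa using hj)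
  set f : (ℤ × ℤ) ⊕ ℕ ⊕ ℕ → TI := Sum.elim iW (Sum.elim iA iZ) with hf
  have hfi : Function.Injective f := by
    rintro (a | a | a) (b | b | b) h <;> simp_all
  have hM := qMoves_mp ha hb (p := iZ) (q := iJ) (k := iK) (by simp) (by simp) (by simp) N
  refine ⟨_, (sub_mp f hfi).comp (hM.comp ofTS_mp), ?_⟩
  intro x l hl
  have hspec := qMoves_spec ha hb (p := iZ) (q := iJ) (k := iK)
    (fun a b h => by simpa using h) (fun a b h => by simpa using h)
    (by simp) (by simp) (by simp) N (ofTS x) (fun j => x.2.2.2.2.1 j / (1 - β))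
    (fun j => x.2.2.2.1 j / (1 - α)) (x.2.2.2.2.2 / (α - β)) (by simp [hab]) (by simp) (by simp)
  rcases l with (v | i | j)
  · simp only [glueS, Sum.elim_inl, Function.comp_apply, hf]
    rw [hspec.2.2.2.2.2 (iW v) (by simp) (by simp) (by simp), ofTS_W]
  · simp only [glueS, Sum.elim_inl, Sum.elim_inr, Function.comp_apply, hf]
    rw [hspec.2.2.2.2.2 (iA i) (by simp) (by simp) (by simp), ofTS_A]
    unfold s1
    field_simp
  · simp only [glueS, Sum.elim_inr, Function.comp_apply, hf]
    rw [hspec.1 j (hN j hl)]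
    unfold w1
    rw [colJ_eq]

theorem map_b2 {α β : ℝ} (h0 : 0 < β) (h1 : β < α) (h2 : α < 1) :
    MeasurePreserving (fun x : TSx =>
      ((x.1, fun i => β * s2 α β x i, fun j => (1 - β) * w2 β x j) : SW)) muTS muSW := by
  have hb : 0 < α - β := by linarith
  have hβ : 1 - β ≠ 0 := by linarith
  have hab : β + (α - β) = α := by ring
  apply SW_of
  apply mp_of_local
  intro s
  obtain ⟨N, hN⟩ : ∃ N : ℕ, ∀ j : ℕ, (Sum.inr (Sum.inl j) : (ℤ × ℤ) ⊕ ℕ ⊕ ℕ) ∈ s → j ≤ N := by
    refine ⟨(s.toRight.toLeft).sup id, fun j hj => ?_⟩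
    exact Finset.le_sup (f := id) (by simpa using hj)
  set f : (ℤ × ℤ) ⊕ ℕ ⊕ ℕ → TI := Sum.elim iW (Sum.elim iB iJ) with hf
  have hfi : Function.Injective f := by
    rintro (a | a | a) (b | b | b) h <;> simp_all
  have hM := qMoves_mp h0 hb (p := iB) (q := iA) (k := iK) (by simp) (by simp) (by simp) N
  refine ⟨_, (sub_mp f hfi).comp (hM.comp ofTS_mp), ?_⟩
  intro x l hl
  have hspec := qMoves_spec h0 hb (p := iB) (q := iA) (k := iK)
    (fun a b h => by simpa using h) (fun a b h => by simpa using h)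
    (by simp) (by simp) (by simp) N (ofTS x) (fun j => x.2.1 j / α)
    (fun j => x.2.2.1 j / β) (x.2.2.2.2.2 / (α - β)) (by simp [hab]) (by simp) (by simp)
  rcases l with (v | i | j)
  · simp only [glueS, Sum.elim_inl, Function.comp_apply, hf]
    rw [hspec.2.2.2.2.2 (iW v) (by simp) (by simp) (by simp), ofTS_W]
  · simp only [glueS, Sum.elim_inl, Sum.elim_inr, Function.comp_apply, hf]
    rw [hspec.1 i (hN i hl)]
    rfl
  · simp only [glueS, Sum.elim_inr, Function.comp_apply, hf]
    rw [hspec.2.2.2.2.2 (iJ j) (by simp) (by simp) (by simp), ofTS_J]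
    unfold w2
    field_simp

end BGE
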