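import Pool.Agent.BGE.Burke
import Pool.Agent.BGE.Exit

/-!
BGE / B3. Stationarity of the last passage times with boundary (Burke property).

`bl a b x v` is the passage time to `v` with corner `0`, boundary weights `x.2.1 i / a` on the S
side (law `Exp(a)`), `x.2.2 j / b` on the W side, bulk weights `x.1`. With `b = 1 - a` the
increments on every row are i.i.d. `Exp(a)`.

Proof. Let `L = bl a (1 - a) x`, `I i j = L (i, j) - L (i - 1, j)` for `i ≥ 1`, `j ≥ 0` and
`J i j = L (i, j) - L (i, j - 1)` for `i ≥ 0`, `j ≥ 1`. From `T_rec`, for `i, j ≥ 1` with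
`w = x.1 (i, j)`:
`I i j = w + max (I i (j-1) - J (i-1) j) 0`, `J i j = w + max (J (i-1) j - I i (j-1)) 0`.
`I i 0 = S i` and `J 0 j = W j` are the boundary weights. Take the finite index set
`ι = Fin m ⊕ Fin n ⊕ (Fin m × Fin n)` (S side, W side, bulk) with rates `a, 1 - a, 1`
and treat the cells `(i, j)` row by row (`j = 1, ..., n`, in each row `i = 1, ..., m`) with
`move (S i) (W j) (bulk (i, j))`. After the cells of the rows `< j` and the cells `< i` of the row
`j` have been treated, the slot `S i'` contains `I i' j` for `i' < i` and `I i' (j - 1)` for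
`i' ≥ i`, the slot `W j` contains `J (i - 1) j`. Every move preserves the product law
(`burke_move`), so at the end the slots `S i'`, which contain `I i' n`, are independent with law
`Exp(a)`. (It may be simpler to treat one row at a time: the row map
`(I, J, w) ↦ (I', J_out, min)` preserves the product law, by induction on `m`; then induction on
the number of rows.)

-/

namespace BGE

open MeasureTheory ProbabilityTheory

theorem measurable_bl (a b : ℝ) (v : ℤ × ℤ) : Measurable (fun x : SW => bl a b x v) := by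
  unfold bl
  refine (measurable_T 0 v).comp (measurable_pi_iff.2 fun z => ?_)
  unfold bfield
  by_cases h1 : z.2 = (0 : ℤ × ℤ).2
  · by_cases h2 : z.1 = (0 : ℤ × ℤ).1
    · simp only [h1, h2, if_true]
      exact measurable_const
    · simp only [h1, if_true, h2, if_false]
      exact ((measurable_pi_apply _).comp (measurable_fst.comp measurable_snd)).div_const _
  · by_cases h2 : z.1 = (0 : ℤ × ℤ).1
    · simp only [h1, h2, if_true, if_false]
      exact ((measurable_pi_apply _).comp (measurable_snd.comp measurable_snd)).div_const _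
    · simp only [h1, h2, if_false]
      exact (measurable_pi_apply _).comp measurable_fst

/-! ### Product measures -/

/-- reindexing an infinite product measure by an injective map -/
theorem infinitePi_reindex {ι κ X : Type*} [MeasurableSpace X] (μ : ι → Measure X)
    [∀ i, IsProbabilityMeasure (μ i)] (e : κ → ι) (he : Function.Injective e) :
    (Measure.infinitePi μ).map (fun x k => x (e k)) = Measure.infinitePi (fun k => μ (e k)) := by
  classical
  refine Measure.eq_infinitePi _ fun s t ht => ?_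
  rw [Measure.map_apply (by fun_prop) (.pi s.countable_toSet fun _ _ => ht _)]
  have h : (fun (x : ι → X) k => x (e k)) ⁻¹' ((s : Set κ).pi t) =
      ((s.image e : Finset ι) : Set ι).pi
        (fun i => if h : ∃ k, e k = i then t h.choose else Set.univ) := by
    ext x
    simp only [Set.mem_preimage, Set.mem_pi, Finset.mem_coe, Finset.mem_image,
      forall_exists_index, and_imp, forall_apply_eq_imp_iff₂]
    refine forall₂_congr fun k _ => ?_
    have h1 : ∃ k', e k' = e k := ⟨k, rfl⟩
    rw [dif_pos h1, he h1.choose_spec]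
  rw [h, Measure.infinitePi_pi, Finset.prod_image fun a _ b _ hab => he hab]
  · refine Finset.prod_congr rfl fun k _ => ?_
    have h1 : ∃ k', e k' = e k := ⟨k, rfl⟩
    rw [dif_pos h1, he h1.choose_spec]
  · intro i _
    split_ifs with h
    · exact ht _
    · exact .univ

/-- an infinite product over a sum type -/
theorem infinitePi_sum {ι κ X : Type*} [MeasurableSpace X] (μ : ι → Measure X) (ν : κ → Measure X)
    [∀ i, IsProbabilityMeasure (μ i)] [∀ i, IsProbabilityMeasure (ν i)]
    (σ : ι ⊕ κ → Measure X) [∀ i, IsProbabilityMeasure (σ i)] (h1 : ∀ i, σ (.inl i) = μ i)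
    (h2 : ∀ i, σ (.inr i) = ν i) :
    ((Measure.infinitePi μ).prod (Measure.infinitePi ν)).map
      (fun p : (ι → X) × (κ → X) => (Sum.elim p.1 p.2 : ι ⊕ κ → X)) = Measure.infinitePi σ := by
  classical
  have hm : Measurable (fun p : (ι → X) × (κ → X) => (Sum.elim p.1 p.2 : ι ⊕ κ → X)) := by
    refine measurable_pi_iff.2 fun z => ?_
    rcases z with z | z
    · exact (measurable_pi_apply z).comp measurable_fst
    · exact (measurable_pi_apply z).comp measurable_snd
  refine Measure.eq_infinitePi _ fun s t ht => ?_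
  rw [Measure.map_apply hm (.pi s.countable_toSet fun _ _ => ht _)]
  have h : (fun p : (ι → X) × (κ → X) => (Sum.elim p.1 p.2 : ι ⊕ κ → X)) ⁻¹' ((s : Set (ι ⊕ κ)).pi t) =
      ((s.toLeft : Set ι).pi fun i => t (.inl i)) ×ˢ ((s.toRight : Set κ).pi fun i => t (.inr i)) := by
    ext p
    simp only [Set.mem_preimage, Set.mem_pi, Finset.mem_coe, Set.mem_prod, Finset.mem_toLeft,
      Finset.mem_toRight]
    constructor
    · intro h
      exact ⟨fun i hi => h _ hi, fun i hi => h _ hi⟩
    · rintro ⟨h3, h4⟩ (i | i) hi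
      · exact h3 i hi
      · exact h4 i hi
  rw [h, Measure.prod_prod, Measure.infinitePi_pi _ (fun i _ => ht _),
    Measure.infinitePi_pi _ (fun i _ => ht _)]
  rw [Finset.prod_sum_eq_prod_toLeft_mul_prod_toRight]
  simp only [h1, h2]

theorem map_div_E1 {r : ℝ} (hr : 0 < r) : Measure.map (fun x : ℝ => x / r) E1 = expMeasure r := by
  have := isProbabilityMeasure_expMeasure hr
  have : IsProbabilityMeasure (Measure.map (fun x : ℝ => x / r) E1) :=
    Measure.isProbabilityMeasure_map (by fun_prop)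
  refine Measure.eq_of_cdf _ _ ?_
  ext x
  rw [cdf_expMeasure_eq hr, cdf_eq_real, measureReal_def,
    Measure.map_apply (by fun_prop) measurableSet_Iic]
  have h : (fun x : ℝ => x / r) ⁻¹' Set.Iic x = Set.Iic (r * x) := by
    ext y
    simp only [Set.mem_preimage, Set.mem_Iic]
    rw [div_le_iff₀ hr, mul_comm]
  rw [h, ← measureReal_def, ← cdf_eq_real]
  unfold E1
  rw [cdf_expMeasure_eq one_pos]
  have h2 : 0 ≤ r * x ↔ 0 ≤ x := by
    constructor
    · intro h3
      by_contra h4
      push Not at h4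
      nlinarith
    · intro h3
      positivity
  simp only [h2, one_mul]

theorem map_mul_exp {r : ℝ} (hr : 0 < r) :
    Measure.map (fun x : ℝ => r * x) (expMeasure r) = E1 := by
  rw [← map_div_E1 hr, Measure.map_map (by fun_prop) (by fun_prop)]
  have h : (fun x : ℝ => r * x) ∘ (fun x : ℝ => x / r) = id := by
    ext x
    simp only [Function.comp_apply, id]
    field_simp
  rw [h, Measure.map_id]

/-- the three families of weights as a single family -/
def flat (x : SW) : (ℤ × ℤ) ⊕ (ℕ ⊕ ℕ) → ℝ := Sum.elim x.1 (Sum.elim x.2.1 x.2.2)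

theorem measurable_flat : Measurable flat := by
  refine measurable_pi_iff.2 fun z => ?_
  rcases z with z | z | z
  · exact (measurable_pi_apply z).comp measurable_fst
  · exact (measurable_pi_apply z).comp (measurable_fst.comp measurable_snd)
  · exact (measurable_pi_apply z).comp (measurable_snd.comp measurable_snd)

theorem map_flat : muSW.map flat = PI ((ℤ × ℤ) ⊕ (ℕ ⊕ ℕ)) := by
  have h1 : Measure.map (fun p : (ℕ → ℝ) × (ℕ → ℝ) => (Sum.elim p.1 p.2 : ℕ ⊕ ℕ → ℝ))
      ((PI ℕ).prod (PI ℕ)) = PI (ℕ ⊕ ℕ) :=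
    infinitePi_sum _ _ _ (fun _ => rfl) (fun _ => rfl)
  have h2 : Measure.map (fun p : (ℤ × ℤ → ℝ) × (ℕ ⊕ ℕ → ℝ) => (Sum.elim p.1 p.2 : (ℤ × ℤ) ⊕ (ℕ ⊕ ℕ) → ℝ))
      ((PI (ℤ × ℤ)).prod (PI (ℕ ⊕ ℕ))) = PI ((ℤ × ℤ) ⊕ (ℕ ⊕ ℕ)) :=
    infinitePi_sum _ _ _ (fun _ => rfl) (fun _ => rfl)
  have m1 : Measurable (fun p : (ℕ → ℝ) × (ℕ → ℝ) => (Sum.elim p.1 p.2 : ℕ ⊕ ℕ → ℝ)) := by
    refine measurable_pi_iff.2 fun z => ?_
    rcases z with z | z
    · exact (measurable_pi_apply z).comp measurable_fst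
    · exact (measurable_pi_apply z).comp measurable_snd
  have m2 : Measurable (fun p : (ℤ × ℤ → ℝ) × (ℕ ⊕ ℕ → ℝ) =>
      (Sum.elim p.1 p.2 : (ℤ × ℤ) ⊕ (ℕ ⊕ ℕ) → ℝ)) := by
    refine measurable_pi_iff.2 fun z => ?_
    rcases z with z | z
    · exact (measurable_pi_apply z).comp measurable_fst
    · exact (measurable_pi_apply z).comp measurable_snd
  rw [← h2, ← h1]
  have h3 := Measure.map_prod_map (PI (ℤ × ℤ)) ((PI ℕ).prod (PI ℕ)) (f := id) measurable_id m1
  rw [Measure.map_id] at h3
  rw [h3, Measure.map_map m2 (measurable_id.prodMap m1)]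
  rfl

/-! ### Configurations -/

/-- slots: bulk, S side, W side -/
abbrev Slot (m N : ℕ) := (Fin m × Fin N) ⊕ (Fin m ⊕ Fin N)

noncomputable def slotRate (a : ℝ) {m N : ℕ} : Slot m N → ℝ
  | .inl _ => 1
  | .inr (.inl _) => a
  | .inr (.inr _) => 1 - a

def slotEmb (m N : ℕ) : Slot m N → (ℤ × ℤ) ⊕ (ℕ ⊕ ℕ)
  | .inl p => .inl ((p.1 : ℤ) + 1, (p.2 : ℤ) + 1)
  | .inr (.inl i) => .inr (.inl ((i : ℕ) + 1))
  | .inr (.inr j) => .inr (.inr ((j : ℕ) + 1))

theorem slotEmb_inj (m N : ℕ) : Function.Injective (slotEmb m N) := by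
  rintro (⟨i, j⟩ | i | i) (⟨i', j'⟩ | i' | i') h
  · simp only [slotEmb, Sum.inl.injEq, Prod.mk.injEq] at h
    have h1 : i = i' := by apply Fin.ext; omega
    have h2 : j = j' := by apply Fin.ext; omega
    rw [h1, h2]
  all_goals simp only [slotEmb, Sum.inl.injEq, Sum.inr.injEq, reduceCtorEq] at h
  · have h1 : i = i' := by apply Fin.ext; omega
    rw [h1]
  · have h1 : i = i' := by apply Fin.ext; omega
    rw [h1]

theorem slotRate_pos {a : ℝ} (ha : 0 < a) (ha1 : a < 1) {m N : ℕ} (k : Slot m N) :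
    0 < slotRate a k := by
  rcases k with k | k | k
  · exact one_pos
  · exact ha
  · exact sub_pos.2 ha1

/-- the weights in the box, at their rates -/
noncomputable def conf0 (a : ℝ) (m N : ℕ) (x : SW) : Slot m N → ℝ :=
  fun k => flat x (slotEmb m N k) / slotRate a k

theorem measurable_conf0 (a : ℝ) (m N : ℕ) : Measurable (conf0 a m N) := by
  refine measurable_pi_iff.2 fun z => ?_
  exact ((measurable_pi_apply _).comp measurable_flat).div_const _

theorem map_conf0 {a : ℝ} (ha : 0 < a) (ha1 : a < 1) (m N : ℕ) :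
    muSW.map (conf0 a m N) = Measure.pi (fun k => expMeasure (slotRate a k)) := by
  have : ∀ k : Slot m N, IsProbabilityMeasure (expMeasure (slotRate a k)) := fun k =>
    isProbabilityMeasure_expMeasure (slotRate_pos ha ha1 k)
  have h1 : conf0 a m N = (fun y (k : Slot m N) => y k / slotRate a k) ∘
      (fun y k => y (slotEmb m N k)) ∘ flat := rfl
  rw [h1, ← Measure.map_map (by fun_prop) (by
    have := measurable_flat
    fun_prop), ← Measure.map_map (by fun_prop) measurable_flat, map_flat]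
  have h2 : Measure.map (fun (y : (ℤ × ℤ) ⊕ (ℕ ⊕ ℕ) → ℝ) k => y (slotEmb m N k))
      (PI ((ℤ × ℤ) ⊕ (ℕ ⊕ ℕ))) = Measure.infinitePi (fun _ : Slot m N => E1) :=
    infinitePi_reindex (fun _ => E1) (slotEmb m N) (slotEmb_inj m N)
  rw [h2, Measure.infinitePi_map_pi (μ := fun _ : Slot m N => E1)
    (f := fun k y => y / slotRate a k) (fun k => by fun_prop)]
  rw [← Measure.infinitePi_eq_pi]
  congr 1
  ext1 k
  exact map_div_E1 (slotRate_pos ha ha1 k)

/-! ### The recursion -/

/-- the passage time to `(i, j)` -/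
noncomputable def Lb (a : ℝ) (x : SW) (i j : ℕ) : ℝ := bl a (1 - a) x ((i : ℤ), (j : ℤ))

theorem Lb_zero (a : ℝ) (x : SW) : Lb a x 0 0 = 0 := by
  unfold Lb bl
  have h : ((((0 : ℕ) : ℤ), ((0 : ℕ) : ℤ)) : ℤ × ℤ) = 0 := rfl
  rw [h, T_self]
  unfold bfield
  simp

theorem Lb_row (a : ℝ) (x : SW) (i : ℕ) :
    Lb a x i 0 = ∑ k ∈ Finset.Icc 1 i, x.2.1 k / a := by
  unfold Lb bl
  have h := Lrow x.1 (fun i => x.2.1 i / a) (fun j => x.2.2 j / (1 - a)) 0 i
  have h2 : (((i : ℤ), ((0 : ℕ) : ℤ)) : ℤ × ℤ) = ((0 : ℤ × ℤ).1 + (i : ℤ), (0 : ℤ × ℤ).2) := by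
    simp
  rw [h2, h]

theorem Lb_col (a : ℝ) (x : SW) (j : ℕ) :
    Lb a x 0 j = ∑ k ∈ Finset.Icc 1 j, x.2.2 k / (1 - a) := by
  unfold Lb bl
  have h := Lcol x.1 (fun i => x.2.1 i / a) (fun j => x.2.2 j / (1 - a)) 0 j
  have h2 : ((((0 : ℕ) : ℤ), (j : ℤ)) : ℤ × ℤ) = ((0 : ℤ × ℤ).1, (0 : ℤ × ℤ).2 + (j : ℤ)) := by
    simp
  rw [h2, h]

theorem Lb_row_succ (a : ℝ) (x : SW) (i : ℕ) :
    Lb a x (i + 1) 0 - Lb a x i 0 = x.2.1 (i + 1) / a := by
  rw [Lb_row, Lb_row, Finset.sum_Icc_succ_top (by omega)]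
  ring

theorem Lb_col_succ (a : ℝ) (x : SW) (j : ℕ) :
    Lb a x 0 (j + 1) - Lb a x 0 j = x.2.2 (j + 1) / (1 - a) := by
  rw [Lb_col, Lb_col, Finset.sum_Icc_succ_top (by omega)]
  ring

theorem Lb_rec (a : ℝ) (x : SW) (i j : ℕ) :
    Lb a x (i + 1) (j + 1) =
      max (Lb a x i (j + 1)) (Lb a x (i + 1) j) + x.1 ((i : ℤ) + 1, (j : ℤ) + 1) := by
  unfold Lb bl
  rw [T_rec (by simp only [Prod.fst_zero]; omega) (by simp only [Prod.snd_zero]; omega)]
  have h1 : ((((i + 1 : ℕ) : ℤ) - 1, ((j + 1 : ℕ) : ℤ)) : ℤ × ℤ) = ((i : ℤ), ((j + 1 : ℕ) : ℤ)) := by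
    simp
  have h2 : ((((i + 1 : ℕ) : ℤ), ((j + 1 : ℕ) : ℤ) - 1) : ℤ × ℤ) = (((i + 1 : ℕ) : ℤ), (j : ℤ)) := by
    simp
  simp only [h1, h2]
  congr 1

theorem measurable_Lb (a : ℝ) (i j : ℕ) : Measurable (fun x : SW => Lb a x i j) :=
  measurable_bl _ _ _

/-- the configuration after the rows `< j` and the cells `< i` of the row `j` -/
noncomputable def conf (a : ℝ) (m N : ℕ) (x : SW) (j i : ℕ) : Slot m N → ℝ
  | .inl p => if (p.2 : ℕ) < j ∨ ((p.2 : ℕ) = j ∧ (p.1 : ℕ) < i) then
      min (Lb a x (p.1 + 1) p.2 - Lb a x p.1 p.2) (Lb a x p.1 (p.2 + 1) - Lb a x p.1 p.2)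
      else x.1 ((p.1 : ℤ) + 1, (p.2 : ℤ) + 1)
  | .inr (.inl k) => if (k : ℕ) < i then Lb a x (k + 1) (j + 1) - Lb a x k (j + 1)
      else Lb a x (k + 1) j - Lb a x k j
  | .inr (.inr k) => if (k : ℕ) < j then Lb a x m (k + 1) - Lb a x m k
      else if (k : ℕ) = j then Lb a x i (j + 1) - Lb a x i j else x.2.2 ((k : ℕ) + 1) / (1 - a)

theorem conf_inl (a : ℝ) (m N : ℕ) (x : SW) (j i : ℕ) (p : Fin m × Fin N) :
    conf a m N x j i (.inl p) = if (p.2 : ℕ) < j ∨ ((p.2 : ℕ) = j ∧ (p.1 : ℕ) < i) then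
      min (Lb a x (p.1 + 1) p.2 - Lb a x p.1 p.2) (Lb a x p.1 (p.2 + 1) - Lb a x p.1 p.2)
      else x.1 ((p.1 : ℤ) + 1, (p.2 : ℤ) + 1) := rfl

theorem conf_inrl (a : ℝ) (m N : ℕ) (x : SW) (j i : ℕ) (k : Fin m) :
    conf a m N x j i (.inr (.inl k)) =
      if (k : ℕ) < i then Lb a x (k + 1) (j + 1) - Lb a x k (j + 1)
      else Lb a x (k + 1) j - Lb a x k j := rfl

theorem conf_inrr (a : ℝ) (m N : ℕ) (x : SW) (j i : ℕ) (k : Fin N) :
    conf a m N x j i (.inr (.inr k)) =
      if (k : ℕ) < j then Lb a x m (k + 1) - Lb a x m k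
      else if (k : ℕ) = j then Lb a x i (j + 1) - Lb a x i j
      else x.2.2 ((k : ℕ) + 1) / (1 - a) := rfl

theorem conf_zero (a : ℝ) (m N : ℕ) (x : SW) : conf a m N x 0 0 = conf0 a m N x := by
  ext k
  rcases k with k | k | k
  · simp [conf, conf0, flat, slotEmb, slotRate]
  · simp only [conf_inrl, conf0, flat, slotEmb, slotRate, not_lt_zero, if_false, Sum.elim_inr,
      Sum.elim_inl]
    rw [Lb_row_succ]
  · simp only [conf_inrr, conf0, flat, slotEmb, slotRate, not_lt_zero, if_false, Sum.elim_inr]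
    split_ifs with h
    · rw [Lb_col_succ, h]
    · rfl

theorem conf_succ_row (a : ℝ) (m N : ℕ) (x : SW) (j : ℕ) :
    conf a m N x (j + 1) 0 = conf a m N x j m := by
  ext k
  rcases k with k | k | k
  · rw [conf_inl, conf_inl]
    have hk := k.1.2
    have h : ((k.2 : ℕ) < j + 1 ∨ (k.2 : ℕ) = j + 1 ∧ (k.1 : ℕ) < 0) ↔
        ((k.2 : ℕ) < j ∨ (k.2 : ℕ) = j ∧ (k.1 : ℕ) < m) := by omega
    simp only [h]
  · rw [conf_inrl, conf_inrl]
    have hk := k.2
    rw [if_neg (by omega), if_pos hk]
  · rw [conf_inrr, conf_inrr]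
    rcases lt_trichotomy (k : ℕ) j with h | h | h
    · rw [if_pos (by omega), if_pos h]
    · rw [if_pos (by omega), if_neg (by omega), if_pos h, h]
    · rw [if_neg (show ¬ (k : ℕ) < j + 1 by omega), if_neg (show ¬ (k : ℕ) < j by omega),
        if_neg (show ¬ (k : ℕ) = j by omega)]
      split_ifs with h2
      · rw [Lb_col_succ, h2]
      · rfl

theorem conf_succ (a : ℝ) {m N : ℕ} (x : SW) (j : Fin N) (i : Fin m) :
    conf a m N x j (i + 1) =
      move (.inr (.inl i)) (.inr (.inr j)) (.inl (i, j)) (conf a m N x j i) := by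
  have hS : conf a m N x j i (.inr (.inl i)) = Lb a x (i + 1) j - Lb a x i j := by
    rw [conf_inrl]
    rw [if_neg (by omega)]
  have hW : conf a m N x j i (.inr (.inr j)) = Lb a x i (j + 1) - Lb a x i j := by
    rw [conf_inrr]
    rw [if_neg (by omega), if_pos rfl]
  have hB : conf a m N x j i (.inl (i, j)) = x.1 ((i : ℤ) + 1, (j : ℤ) + 1) := by
    rw [conf_inl]
    rw [if_neg (by simp)]
  have hrec := Lb_rec a x i j
  unfold move
  rw [hS, hW, hB]
  ext k
  rcases k with ⟨i', j'⟩ | i' | j'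
  · by_cases h : ((Sum.inl (i', j') : Slot m N)) = .inl (i, j)
    · rw [h, Function.update_self]
      rw [conf_inl]
      rw [if_pos (Or.inr ⟨rfl, Nat.lt_succ_self _⟩)]
    · rw [Function.update_of_ne h, Function.update_of_ne (by simp), Function.update_of_ne (by simp)]
      rw [conf_inl, conf_inl]
      have h2 : ¬ ((i' : ℕ) = i ∧ (j' : ℕ) = j) := by
        rintro ⟨h3, h4⟩
        exact h (by rw [Fin.ext h3, Fin.ext h4])
      have h3 : ((j' : ℕ) < j ∨ (j' : ℕ) = j ∧ (i' : ℕ) < i + 1) ↔
        ((j' : ℕ) < j ∨ (j' : ℕ) = j ∧ (i' : ℕ) < i) := by omega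
      simp only [h3]
  · rw [Function.update_of_ne (by simp), Function.update_of_ne (by simp)]
    by_cases h : i' = i
    · rw [h, Function.update_self]
      rw [conf_inrl]
      rw [if_pos (by omega), hrec]
      rcases le_total (Lb a x i (j + 1)) (Lb a x (i + 1) j) with h1 | h1
      · rw [max_eq_right h1, max_eq_left (by linarith)]
        ring
      · rw [max_eq_left h1, max_eq_right (by linarith)]
        ring
    · rw [Function.update_of_ne (by simpa using h)]
      rw [conf_inrl, conf_inrl]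
      have h2 : (i' : ℕ) ≠ i := fun h3 => h (Fin.ext h3)
      have h3 : (i' : ℕ) < i + 1 ↔ (i' : ℕ) < i := by omega
      simp only [h3]
  · rw [Function.update_of_ne (by simp)]
    by_cases h : j' = j
    · rw [h, Function.update_self]
      rw [conf_inrr]
      rw [if_neg (by omega), if_pos rfl, hrec]
      rcases le_total (Lb a x i (j + 1)) (Lb a x (i + 1) j) with h1 | h1
      · rw [max_eq_right h1, max_eq_right (by linarith)]
        ring
      · rw [max_eq_left h1, max_eq_left (by linarith)]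
        ring
    · rw [Function.update_of_ne (by simpa using h), Function.update_of_ne (by simp)]
      rw [conf_inrr, conf_inrr]
      have h2 : (j' : ℕ) ≠ j := fun h3 => h (Fin.ext h3)
      rw [if_neg h2, if_neg h2]

theorem conf_measurable (a : ℝ) (m N : ℕ) (j i : ℕ) :
    Measurable (fun x : SW => conf a m N x j i) := by
  refine measurable_pi_iff.2 fun z => ?_
  have hL := fun i j => measurable_Lb a i j
  rcases z with z | z | z
  · simp only [conf]
    split_ifs
    · exact ((hL _ _).sub (hL _ _)).min ((hL _ _).sub (hL _ _))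
    · exact (measurable_pi_apply _).comp measurable_fst
  · simp only [conf]
    split_ifs
    · exact (hL _ _).sub (hL _ _)
    · exact (hL _ _).sub (hL _ _)
  · simp only [conf]
    split_ifs
    · exact (hL _ _).sub (hL _ _)
    · exact (hL _ _).sub (hL _ _)
    · exact ((measurable_pi_apply _).comp (measurable_snd.comp measurable_snd)).div_const _

/-- the law of the configuration does not change -/
theorem map_conf {a : ℝ} (ha : 0 < a) (ha1 : a < 1) (m N : ℕ) :
    ∀ j ≤ N, muSW.map (fun x => conf a m N x j 0) =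
      Measure.pi (fun k : Slot m N => expMeasure (slotRate a k)) := by
  intro j
  induction j with
  | zero =>
    intro _
    simp only [conf_zero]
    exact map_conf0 ha ha1 m N
  | succ j ih =>
    intro hj
    have ih' := ih (by omega)
    have key : ∀ i ≤ m, muSW.map (fun x => conf a m N x j i) =
        Measure.pi (fun k : Slot m N => expMeasure (slotRate a k)) := by
      intro i
      induction i with
      | zero => exact fun _ => ih'
      | succ i ih2 =>
        intro hi
        have h1 := ih2 (by omega)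
        have h2 := burke_move (slotRate a) (fun k : Slot m N => slotRate_pos ha ha1 k)
          (i := .inr (.inl ⟨i, by omega⟩)) (j := .inr (.inr ⟨j, by omega⟩))
          (k := .inl (⟨i, by omega⟩, ⟨j, by omega⟩)) (by simp) (by simp) (by simp)
          (by simp [slotRate])
        have h3 : (fun x => conf a m N x j (i + 1)) =
            (move (.inr (.inl ⟨i, by omega⟩)) (.inr (.inr ⟨j, by omega⟩))
              (.inl (⟨i, by omega⟩, ⟨j, by omega⟩))) ∘ (fun x => conf a m N x j i) := by
          ext1 x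
          exact conf_succ a x ⟨j, by omega⟩ ⟨i, by omega⟩
        rw [h3, ← Measure.map_map h2.measurable (conf_measurable a m N j i), h1, h2.map_eq]
    simp only [conf_succ_row]
    exact key m le_rfl

/-- restriction of a finite product of probability measures -/
theorem pi_reindex {ι κ X : Type*} [Fintype ι] [Fintype κ] [MeasurableSpace X] (μ : ι → Measure X)
    [∀ i, IsProbabilityMeasure (μ i)] (e : κ → ι) (he : Function.Injective e) :
    (Measure.pi μ).map (fun x k => x (e k)) = Measure.pi (fun k => μ (e k)) := by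
  rw [← Measure.infinitePi_eq_pi, ← Measure.infinitePi_eq_pi]
  exact infinitePi_reindex μ e he

theorem stat_row {a : ℝ} (ha : 0 < a) (ha1 : a < 1) (m n : ℕ) :
    Measure.map (fun (x : SW) (i : Fin m) =>
      bl a (1 - a) x ((i : ℤ) + 1, (n : ℤ)) - bl a (1 - a) x ((i : ℤ), (n : ℤ))) muSW =
      Measure.pi (fun _ : Fin m => expMeasure a) := by
  have : ∀ k : Slot m n, IsProbabilityMeasure (expMeasure (slotRate a k)) := fun k =>
    isProbabilityMeasure_expMeasure (slotRate_pos ha ha1 k)
  have h1 := map_conf ha ha1 m n n le_rfl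
  have h2 : (fun (x : SW) (i : Fin m) =>
      bl a (1 - a) x ((i : ℤ) + 1, (n : ℤ)) - bl a (1 - a) x ((i : ℤ), (n : ℤ))) =
      (fun (y : Slot m n → ℝ) i => y (.inr (.inl i))) ∘ (fun x => conf a m n x n 0) := by
    ext x i
    simp only [Function.comp_apply, conf]
    rw [if_neg (by omega)]
    unfold Lb
    push_cast
    rfl
  rw [h2, ← Measure.map_map (by fun_prop) (conf_measurable a m n n 0), h1,
    pi_reindex (fun k : Slot m n => expMeasure (slotRate a k)) (fun i => .inr (.inl i))
      (fun i j h => by simpa using h)]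
  rfl

end BGE
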