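import Pool.Agent.BGE.SoftMain
import Pool.Agent.BGE.FIncl
import Pool.Agent.BGE.FIrrA
import Pool.Agent.BGE.FIrrB
import Pool.Agent.BGE.FIrrC

/-!
BGE / F13. The static classes.

`static_class`: `StaticClass (2κ)` for `κ ≤ 1/4`. For small `h` let `lam = L^20` (`hp_small`) and
`Cc = Cls κ h lam`: `cls_prob`. By `top_incl` and `gdF_prob` the probability of
`(∃ i ≤ M, dyn i ∈ Gr (2κ) (nst h)) ∧ dyn 0 ∉ Cc` is at most `h^9 + (nD + 1) · 3 L^{-100}/nn0^{2/3}`, and
`nD + 1 ≤ 3 nn0^{1/3}`, `nn0^{-1/3} ≤ 2 h L^{9/10}` (`fn`), so it is at most `h/L`. (`nn_zero`.)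
`static_all`: `StaticClass (1/k)` for all `k ≥ 4`.
-/

namespace BGE

open MeasureTheory ProbabilityTheory

private theorem sc_arith {h L N a : ℝ} (h0 : 0 < h) (hL : 36 ≤ L) (hhL : h * L ≤ 1)
    (hN : h⁻¹ / (2 * L) ≤ N) (hN1 : 1 ≤ N) (ha : a ≤ N + 2) :
    h ^ 9 + a * (3 * ((L ^ 100)⁻¹ / N ^ 2)) ≤ h / L := by
  have hLp : 0 < L := by linarith
  have hNp : 0 < N := by linarith
  have h36 : h ≤ 1 / 36 := by
    rw [le_div_iff₀ (by norm_num)]
    nlinarith
  -- first term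
  have e1 : h ^ 9 ≤ h / (2 * L) := by
    rw [le_div_iff₀ (by positivity)]
    have e2 : h ^ 7 ≤ 1 / 2 := by
      have : h ^ 7 ≤ h := by
        have := pow_le_pow_of_le_one h0.le (by linarith : h ≤ 1) (by norm_num : 1 ≤ 7)
        simpa using this
      linarith
    have e3 : h ^ 7 * (h * L) ≤ 1 / 2 * 1 :=
      mul_le_mul e2 hhL (by positivity) (by norm_num)
    have e4 : h ^ 9 * (2 * L) = h * (2 * (h ^ 7 * (h * L))) := by ring
    rw [e4]
    nlinarith
  -- second term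
  have e5 : a * (3 * ((L ^ 100)⁻¹ / N ^ 2)) ≤ 9 * (L ^ 100)⁻¹ / N := by
    have e6 : a ≤ 3 * N := by linarith
    have e7 : a * (3 * ((L ^ 100)⁻¹ / N ^ 2)) ≤ (3 * N) * (3 * ((L ^ 100)⁻¹ / N ^ 2)) :=
      mul_le_mul_of_nonneg_right e6 (by positivity)
    refine e7.trans (le_of_eq ?_)
    field_simp
    norm_num
  have e8 : 1 / N ≤ 2 * L * h := by
    rw [div_le_iff₀ hNp]
    have : h⁻¹ / (2 * L) * (2 * L * h) ≤ N * (2 * L * h) :=
      mul_le_mul_of_nonneg_right hN (by positivity)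
    have e9 : h⁻¹ / (2 * L) * (2 * L * h) = 1 := by field_simp
    linarith
  have e10 : 9 * (L ^ 100)⁻¹ / N ≤ h / (2 * L) := by
    have e11 : 9 * (L ^ 100)⁻¹ / N = 9 * (L ^ 100)⁻¹ * (1 / N) := by ring
    rw [e11]
    have e12 : 9 * (L ^ 100)⁻¹ * (1 / N) ≤ 9 * (L ^ 100)⁻¹ * (2 * L * h) :=
      mul_le_mul_of_nonneg_left e8 (by positivity)
    refine e12.trans ?_
    rw [le_div_iff₀ (by positivity)]
    have e13 : 9 * (L ^ 100)⁻¹ * (2 * L * h) * (2 * L) = h * (36 * (L ^ 98)⁻¹) := by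
      have : L ^ 100 = L ^ 98 * L * L := by ring
      rw [this]
      field_simp
      norm_num
    rw [e13]
    have e14 : 36 * (L ^ 98)⁻¹ ≤ 1 := by
      rw [← div_eq_mul_inv, div_le_one (by positivity)]
      have : L ≤ L ^ 98 := le_self_pow₀ (by linarith) (by norm_num)
      linarith
    nlinarith
  have e15 : h / L = h / (2 * L) + h / (2 * L) := by field_simp; norm_num
  rw [e15]
  linarith

open Classical in
theorem static_class {κ : ℝ} (hκ : 0 < κ) (hκ1 : κ ≤ 1 / 4) : StaticClass (2 * κ) := by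
  obtain ⟨C1, hC1, H1⟩ := top_incl hκ hκ1
  obtain ⟨C2, hC2, H2⟩ := gdF_prob hκ
  obtain ⟨C3, hC3, H3⟩ := irr_prob hκ
  obtain ⟨C4, hC4, H4⟩ := ng_prob hκ
  obtain ⟨C5, hC5, H5⟩ := fail_ann hκ
  obtain ⟨C6, hC6, H6⟩ := cls_prob hκ
  obtain ⟨C7, hC7, H7⟩ := fn 1
  set C : ℝ := max 36 (max C1 (max C2 (max C3 (max C4 (max C5 (max C6 C7)))))) with hC
  have l0 : 36 ≤ C := le_max_left _ _
  have l1 : C1 ≤ C := by rw [hC]; exact le_max_of_le_right (le_max_left _ _)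
  have l2 : C2 ≤ C := by
    rw [hC]; exact le_max_of_le_right (le_max_of_le_right (le_max_left _ _))
  have l3 : C3 ≤ C := by
    rw [hC]
    exact le_max_of_le_right (le_max_of_le_right (le_max_of_le_right (le_max_left _ _)))
  have l4 : C4 ≤ C := by
    rw [hC]
    exact le_max_of_le_right (le_max_of_le_right (le_max_of_le_right (le_max_of_le_right
      (le_max_left _ _))))
  have l5 : C5 ≤ C := by
    rw [hC]
    exact le_max_of_le_right (le_max_of_le_right (le_max_of_le_right (le_max_of_le_right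
      (le_max_of_le_right (le_max_left _ _)))))
  have l6 : C6 ≤ C := by
    rw [hC]
    exact le_max_of_le_right (le_max_of_le_right (le_max_of_le_right (le_max_of_le_right
      (le_max_of_le_right (le_max_of_le_right (le_max_left _ _))))))
  have l7 : C7 ≤ C := by
    rw [hC]
    exact le_max_of_le_right (le_max_of_le_right (le_max_of_le_right (le_max_of_le_right
      (le_max_of_le_right (le_max_of_le_right (le_max_right _ _))))))
  obtain ⟨h0, hh0, H0⟩ := hp_small C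
  refine ⟨h0, hh0, ?_⟩
  intro h hh hle
  have hp := H0 h hh hle
  set L : ℝ := Real.log (1 / h) with hL
  set lam : ℝ := L ^ 20 with hlam
  refine ⟨Cls κ h lam, measurableSet_Cls κ h lam, H6 h lam (hp.mono l6), ?_⟩
  intro η M hη hη1 hMη
  have hLC : C ≤ L := hp.2.2.1
  have hL36 : 36 ≤ L := l0.trans hLC
  have hhL : h * L ≤ 1 := by
    have := Real.log_le_sub_one_of_pos (show 0 < 1 / h by positivity)
    have h1 : h * L ≤ h * (1 / h - 1) := mul_le_mul_of_nonneg_left this hh.le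
    have h2 : h * (1 / h - 1) = 1 - h := by field_simp
    linarith
  obtain ⟨hn, -⟩ := H7 h lam (hp.mono l7)
  obtain ⟨n1, -, -, n4, -, -⟩ := hn 0 (by norm_num)
  have hesc : esc 0 = 9 / 10 := by unfold esc; norm_num
  have hn0 : (1 : ℝ) ≤ nn h 0 := by
    have : (1 : ℝ) ≤ lam ^ 3 := by
      rw [hlam]
      exact one_le_pow₀ (one_le_pow₀ (by linarith))
    linarith
  have hNp : (1 : ℝ) ≤ (nn h 0 : ℝ) ^ (1 / 3 : ℝ) := Real.one_le_rpow hn0 (by norm_num)
  have hN : h⁻¹ / (2 * L) ≤ (nn h 0 : ℝ) ^ (1 / 3 : ℝ) := by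
    refine le_trans ?_ n1
    rw [hesc]
    have : L ^ (9 / 10 : ℝ) ≤ L := by
      have := Real.rpow_le_rpow_of_exponent_le (show (1 : ℝ) ≤ L by linarith)
        (show (9 / 10 : ℝ) ≤ 1 by norm_num)
      simpa using this
    have hLp : 0 < L ^ (9 / 10 : ℝ) := Real.rpow_pos_of_pos (by linarith) _
    rw [div_div]
    refine div_le_div_of_nonneg_left (by positivity) (by positivity) ?_
    nlinarith
  -- the union
  set P1 : ℕ → Set (DI → ℝ) := fun q =>
    HitX (dir h q) lam η M (nb h lam) ∩ (FinX κ (dir h q) h lam η M)ᶜ with hP1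
  set P2 : ℕ → Set (DI → ℝ) := fun q =>
    HitX (dir h q) lam η M (nb h lam) ∩ {x | dyn η x 0 ∉ G1S κ (dir h q) h lam} with hP2
  set P3 : ℕ → Set (DI → ℝ) := fun q =>
    {x | x ∈ FailX κ (dir h q) lam h η M (nb h lam) ∧
          ∀ k < 25, dyn η x 0 ∈ AnnS κ (dir h q) h k} with hP3
  set B : ℕ → Set (DI → ℝ) := fun q =>
    if κ ≤ dir h q ∧ dir h q ≤ 1 - κ then P1 q ∪ (P2 q ∪ P3 q) else ∅ with hB
  have hsub : {x : DI → ℝ | (∃ i ≤ M, dyn η x i ∈ Gr (2 * κ) (nst h)) ∧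
      dyn η x 0 ∉ Cls κ h lam} ⊆
      (GdF κ lam h η M (16 * nn h 0))ᶜ ∪ ⋃ q ∈ Finset.range (nD h + 1), B q := by
    rintro x ⟨⟨i, hi, hx⟩, hx0⟩
    by_cases hg : x ∈ GdF κ lam h η M (16 * nn h 0)
    · right
      rw [← nn_zero] at hx
      obtain ⟨q, hq, hq1, hq2, hq3⟩ := H1 h lam η M i x (hp.mono l1) hi hg hx hx0
      rw [Set.mem_iUnion₂]
      refine ⟨q, Finset.mem_range.mpr (by omega), ?_⟩
      simp only [hB]
      rw [if_pos ⟨hq1, hq2⟩]
      rcases hq3 with hq3 | hq3 | hq3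
      · exact Or.inl hq3
      · exact Or.inr (Or.inl hq3)
      · exact Or.inr (Or.inr hq3)
    · left
      exact hg
  have hBb : ∀ q, (PI DI).real (B q) ≤
      3 * ((L ^ 100)⁻¹ / ((nn h 0 : ℝ) ^ (1 / 3 : ℝ)) ^ 2) := by
    intro q
    have hsq : ((nn h 0 : ℝ) ^ (1 / 3 : ℝ)) ^ 2 = (nn h 0 : ℝ) ^ (2 / 3 : ℝ) := by
      rw [← Real.rpow_natCast, ← Real.rpow_mul (by positivity)]
      norm_num
    rw [hsq]
    simp only [hB]
    split_ifs with hq
    · have q1 := H3 (dir h q) h lam η M (hp.mono l3) hq.1 hq.2 hη hη1 hMη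
      have q2 := H4 (dir h q) h lam η M (hp.mono l4) hq.1 hq.2 hη hη1 hMη
      have q3 := H5 (dir h q) h lam η M (hp.mono l5) hq.1 hq.2 hη hη1 hMη
      have u1 := measureReal_union_le (μ := PI DI) (P1 q) (P2 q ∪ P3 q)
      have u2 := measureReal_union_le (μ := PI DI) (P2 q) (P3 q)
      simp only [hP1, hP2, hP3] at u1 u2 ⊢
      linarith
    · rw [measureReal_empty]
      positivity
  have hb1 : (PI DI).real (⋃ q ∈ Finset.range (nD h + 1), B q) ≤
      ((nD h : ℝ) + 1) * (3 * ((L ^ 100)⁻¹ / ((nn h 0 : ℝ) ^ (1 / 3 : ℝ)) ^ 2)) := by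
    refine (measureReal_biUnion_finset_le _ _).trans ?_
    refine (Finset.sum_le_card_nsmul _ _ _ (fun q _ => hBb q)).trans (le_of_eq ?_)
    rw [Finset.card_range, nsmul_eq_mul]
    push_cast
    ring
  have hb2 : (PI DI).real (GdF κ lam h η M (16 * nn h 0))ᶜ ≤ h ^ 9 :=
    H2 h lam η M (hp.mono l2) hη hη1 hMη
  have hnD : (nD h : ℝ) + 1 ≤ (nn h 0 : ℝ) ^ (1 / 3 : ℝ) + 2 := by
    unfold nD
    have := Nat.ceil_lt_add_one (show (0 : ℝ) ≤ (nn h 0 : ℝ) ^ (1 / 3 : ℝ) by positivity)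
    linarith
  have hfin := sc_arith hh hL36 hhL hN hNp hnD
  calc _ ≤ (PI DI).real ((GdF κ lam h η M (16 * nn h 0))ᶜ ∪
        ⋃ q ∈ Finset.range (nD h + 1), B q) := measureReal_mono hsub
    _ ≤ (PI DI).real (GdF κ lam h η M (16 * nn h 0))ᶜ +
        (PI DI).real (⋃ q ∈ Finset.range (nD h + 1), B q) := measureReal_union_le _ _
    _ ≤ _ := by linarith

theorem static_all (k : ℕ) (hk : 4 ≤ k) : StaticClass (1 / (k : ℝ)) := by
  have hk4 : (4 : ℝ) ≤ k := by exact_mod_cast hk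
  have hkp : (0 : ℝ) < k := by linarith
  have h1 : (0 : ℝ) < 1 / (2 * k) := by positivity
  have h2 : 1 / (2 * (k : ℝ)) ≤ 1 / 4 := by
    apply one_div_le_one_div_of_le (by norm_num)
    linarith
  have := static_class h1 h2
  have h3 : 2 * (1 / (2 * (k : ℝ))) = 1 / k := by field_simp
  rwa [h3] at this

end BGE
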