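import Pool.Agent.BGE.Defs

/-!
BGE / B4. The two-slope coupling: the algebraic identity in one cell.

Variables. On the left edge of a cell: `J1, J2, J'` (vertical increments of the three queues) and
the values `Kd, Ku` of the queue length at the lower left and upper left corners; on the lower edge
`Y1, Y2`; the bulk weight `w`. Put
`I2 = Y1 + (Y2 - Kd)^+`, `Kd' = Y1 + (Kd - Y2)^+` (lower row),
`Y1' = w + (Y1 - J1)^+`, `J1' = w + (J1 - Y1)^+`, `wc = min Y1 J1`,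
`Y2' = wc + (Y2 - J')^+`, `J'' = wc + (J' - Y2)^+`,
`I2' = w + (I2 - J2)^+`, `J2' = w + (J2 - I2)^+`.
Edge relation:
`R Kd J1 J2 J' Ku` iff (`J' = Kd`, `J2 ≤ J1`, `Ku = J2`) or (`J' ≤ Kd`, `J1 = J2`,
`Ku = J2 + Kd - J'`).

`cell`: if `R Kd J1 J2 J' Ku` (all variables nonnegative) then `I2' = Y1' + (Y2' - Ku)^+` and
`R Kd' J1' J2' J'' (Y1' + (Ku - Y2')^+)`.
`left_edge`: with `K, Z, J2 ≥ 0`: `R K (J2 + (Z-K)^+) J2 (min Z K) (J2 + (K-Z)^+)`.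

Proof. Case distinctions and linear arithmetic (this has been checked numerically on 200000 random
samples without failure). E.g. `rcases` on the relation, then split all `max`/`min` by
`le_total` on the pairs involved and `linarith`/`constructor`.
-/

namespace BGE

theorem left_edge {K Z J2 : ℝ} :
    ER K (J2 + max (Z - K) 0) J2 (min Z K) (J2 + max (K - Z) 0) := by
  unfold ER
  rcases le_total K Z with h | h
  · rw [max_eq_left (by linarith : (0 : ℝ) ≤ Z - K), max_eq_right (by linarith : K - Z ≤ 0),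
      min_eq_right h]
    left
    refine ⟨rfl, by linarith, by ring⟩
  · rw [max_eq_right (by linarith : Z - K ≤ 0), max_eq_left (by linarith : (0 : ℝ) ≤ K - Z),
      min_eq_left h]
    right
    refine ⟨h, by ring, by ring⟩

/-- the positive part, as two alternatives -/
theorem TSAlg_pp (x : ℝ) : (0 ≤ x ∧ max x 0 = x) ∨ (x ≤ 0 ∧ max x 0 = 0) := by
  rcases le_total 0 x with h | h
  · exact Or.inl ⟨h, max_eq_left h⟩
  · exact Or.inr ⟨h, max_eq_right h⟩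

/-- the identity in terms of the values of the positive parts -/
theorem TSAlg_core {Kd J1 J2 J' Ku Y1 Y2 w a b c d m e f g h i : ℝ} (hR : ER Kd J1 J2 J' Ku)
    (ha : (0 ≤ Y2 - Kd ∧ a = Y2 - Kd ∧ b = 0) ∨ (Y2 - Kd ≤ 0 ∧ a = 0 ∧ b = Kd - Y2))
    (hc : (0 ≤ Y1 - J1 ∧ c = Y1 - J1 ∧ d = 0 ∧ m = J1) ∨ (Y1 - J1 ≤ 0 ∧ c = 0 ∧ d = J1 - Y1 ∧ m = Y1))
    (he : (0 ≤ Y2 - J' ∧ e = Y2 - J' ∧ f = 0) ∨ (Y2 - J' ≤ 0 ∧ e = 0 ∧ f = J' - Y2))
    (hg : (0 ≤ Y1 + a - J2 ∧ g = Y1 + a - J2 ∧ h = 0) ∨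
      (Y1 + a - J2 ≤ 0 ∧ g = 0 ∧ h = J2 - (Y1 + a)))
    (hi : (0 ≤ m + e - Ku ∧ i = m + e - Ku) ∨ (m + e - Ku ≤ 0 ∧ i = 0))
    (j : ℝ) (hj : j = i - (m + e - Ku)) :
    w + g = (w + c) + i ∧ ER (Y1 + b) (w + d) (w + h) (m + f) ((w + c) + j) := by
  unfold ER at hR ⊢
  subst hj
  rcases hR with ⟨r1, r2, r3⟩ | ⟨r1, r2, r3⟩ <;>
  rcases hc with ⟨c0, rfl, rfl, rfl⟩ | ⟨c0, rfl, rfl, rfl⟩ <;>
  rcases ha with ⟨a0, rfl, rfl⟩ | ⟨a0, rfl, rfl⟩ <;>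
  rcases he with ⟨e0, rfl, rfl⟩ | ⟨e0, rfl, rfl⟩ <;>
  rcases hg with ⟨g0, rfl, rfl⟩ | ⟨g0, rfl, rfl⟩ <;>
  rcases hi with ⟨i0, rfl⟩ | ⟨i0, rfl⟩ <;>
  first
  | exact ⟨by linarith, Or.inl ⟨by linarith, by linarith, by linarith⟩⟩
  | exact ⟨by linarith, Or.inr ⟨by linarith, by linarith, by linarith⟩⟩

theorem cell {Kd J1 J2 J' Ku Y1 Y2 w : ℝ} (hR : ER Kd J1 J2 J' Ku) (h1 : 0 ≤ Y1) (h2 : 0 ≤ Y2)
    (hw : 0 ≤ w) (hK : 0 ≤ Kd) (hJ1 : 0 ≤ J1) (hJ2 : 0 ≤ J2) (hJ' : 0 ≤ J') (hKu : 0 ≤ Ku) :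
    w + max (Y1 + max (Y2 - Kd) 0 - J2) 0 =
        (w + max (Y1 - J1) 0) + max ((min Y1 J1 + max (Y2 - J') 0) - Ku) 0 ∧
      ER (Y1 + max (Kd - Y2) 0) (w + max (J1 - Y1) 0) (w + max (J2 - (Y1 + max (Y2 - Kd) 0)) 0)
        (min Y1 J1 + max (J' - Y2) 0)
        ((w + max (Y1 - J1) 0) + max (Ku - (min Y1 J1 + max (Y2 - J') 0)) 0) := by
  refine TSAlg_core (Y1 := Y1) (Y2 := Y2) (a := max (Y2 - Kd) 0) (e := max (Y2 - J') 0) hR ?_ ?_
    ?_ ?_ ?_ _ ?_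
  · rcases le_total 0 (Y2 - Kd) with h | h
    · exact Or.inl ⟨h, max_eq_left h, max_eq_right (by linarith)⟩
    · exact Or.inr ⟨h, max_eq_right h, max_eq_left (by linarith)⟩
  · rcases le_total 0 (Y1 - J1) with h | h
    · exact Or.inl ⟨h, max_eq_left h, max_eq_right (by linarith), min_eq_right (by linarith)⟩
    · exact Or.inr ⟨h, max_eq_right h, max_eq_left (by linarith), min_eq_left (by linarith)⟩
  · rcases le_total 0 (Y2 - J') with h | h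
    · exact Or.inl ⟨h, max_eq_left h, max_eq_right (by linarith)⟩
    · exact Or.inr ⟨h, max_eq_right h, max_eq_left (by linarith)⟩
  · rcases le_total 0 (Y1 + max (Y2 - Kd) 0 - J2) with h | h
    · exact Or.inl ⟨h, max_eq_left h, max_eq_right (by linarith)⟩
    · exact Or.inr ⟨h, max_eq_right h, max_eq_left (by linarith)⟩
  · rcases le_total 0 (min Y1 J1 + max (Y2 - J') 0 - Ku) with h | h
    · exact Or.inl ⟨h, max_eq_left h⟩
    · exact Or.inr ⟨h, max_eq_right h⟩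
  · rcases le_total 0 (min Y1 J1 + max (Y2 - J') 0 - Ku) with h | h
    · rw [max_eq_left h, max_eq_right (by linarith : Ku - (min Y1 J1 + max (Y2 - J') 0) ≤ 0)]
      ring
    · rw [max_eq_right h, max_eq_left (by linarith : 0 ≤ Ku - (min Y1 J1 + max (Y2 - J') 0))]
      ring

end BGE
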