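import Pool.Agent.BGE.TSAlg
import Pool.Agent.BGE.Exit

/-!
BGE / B5. The two-slope coupling on a box (deterministic part).

Input: bulk weights `ω`, bottom sequences `y1, y2`, a number `κ`, for each row `j ≥ 1` numbers
`z j, j2 j` (all nonnegative). The rows are treated one after the other (`rowStep`):
on the left edge `J1 = j2 + (z - κ)^+`, new `κ' = j2 + (κ - z)^+`, `J' = min z κ`; along the row
`J1` runs through the queue with arrivals `y1` and services `ω (i, j)`, giving new `y1'` and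
`wc i = min (y1 i) (J1 (i-1))`; `J'` runs through the queue with arrivals `y2` and services `wc`,
giving new `y2'`.
`rowK y1 y2 κ i`: the queue with arrivals `y2`, services `y1` started at `κ`.

Boundary weights of the first system: S weights `y1`, W weights `J1c`. Second system: S weights
`I2b i = y1 i + (y2 i - rowK (i-1))^+`, W weights `j2`. Let `L1, L2` be the passage times with
these boundary weights and the same bulk weights (corner `0`).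

`grid_main`: for the state `(y1n, y2n, κn)` of the row `n`, for all `i ≥ 1`:
`L1 (i, n) - L1 (i-1, n) = y1n i` and
`L2 (i, n) - L2 (i-1, n) = y1n i + (y2n i - rowK y1n y2n κn (i-1))^+`.

Proof. For `L1`: the increments satisfy the queueing recursion (as in `Stat`):
`I i j = w + (I i (j-1) - J (i-1) j)^+`, `J i j = w + (J (i-1) j - I i (j-1))^+` with
`w = ω (i, j)`, and the boundary values agree. For `L2` let `I2, J2` be its increments. By induction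
on the row `j` and inside the row on the column `i` show simultaneously
`I2 i j = y1_j i + (y2_j i - K_j (i-1))^+` (`K_j i = rowK y1_j y2_j κ_j i`) and the edge relation
`ER (K_{j-1} i) (J1 i j) (J2 i j) (J' i j) (K_j i)`; for `i = 0` the relation is `left_edge`, the step
is `cell`. All the variables stay nonnegative.
-/

namespace BGE

/-- increments along a row and between two rows -/
private theorem tsg_step (ω : ℤ × ℤ → ℝ) (S W : ℕ → ℝ) (n : ℕ) (y : ℕ → ℝ) (J0 : ℝ)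
    (hy : ∀ i : ℕ, 1 ≤ i → T (bfield ω S W 0) 0 ((i : ℤ), (n : ℤ)) -
      T (bfield ω S W 0) 0 ((i : ℤ) - 1, (n : ℤ)) = y i)
    (hJ : T (bfield ω S W 0) 0 (0, ((n + 1 : ℕ) : ℤ)) - T (bfield ω S W 0) 0 (0, (n : ℤ)) = J0) :
    (∀ i : ℕ, T (bfield ω S W 0) 0 ((i : ℤ), ((n + 1 : ℕ) : ℤ)) -
      T (bfield ω S W 0) 0 ((i : ℤ), (n : ℤ)) =
        qJ (fun i => ω ((i : ℤ), ((n + 1 : ℕ) : ℤ))) y J0 i) ∧
    (∀ i : ℕ, 1 ≤ i → T (bfield ω S W 0) 0 ((i : ℤ), ((n + 1 : ℕ) : ℤ)) -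
      T (bfield ω S W 0) 0 ((i : ℤ) - 1, ((n + 1 : ℕ) : ℤ)) =
        qI (fun i => ω ((i : ℤ), ((n + 1 : ℕ) : ℤ))) y J0 i) := by
  set L := T (bfield ω S W 0) 0 with hL
  have hrec : ∀ i : ℕ, L (((i + 1 : ℕ) : ℤ), ((n + 1 : ℕ) : ℤ)) =
      max (L ((i : ℤ), ((n + 1 : ℕ) : ℤ))) (L (((i + 1 : ℕ) : ℤ), (n : ℤ))) +
        ω (((i + 1 : ℕ) : ℤ), ((n + 1 : ℕ) : ℤ)) := by
    intro i
    have h1 := T_rec (ω := bfield ω S W 0) (u := 0) (v := (((i + 1 : ℕ) : ℤ), ((n + 1 : ℕ) : ℤ)))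
      (by simp only [Prod.fst_zero]; positivity) (by simp only [Prod.snd_zero]; positivity)
    have e1 : (((i + 1 : ℕ) : ℤ) - 1) = (i : ℤ) := by push_cast; ring
    have e2 : (((n + 1 : ℕ) : ℤ) - 1) = (n : ℤ) := by push_cast; ring
    have e3 : bfield ω S W 0 (((i + 1 : ℕ) : ℤ), ((n + 1 : ℕ) : ℤ)) =
        ω (((i + 1 : ℕ) : ℤ), ((n + 1 : ℕ) : ℤ)) := by
      unfold bfield
      rw [if_neg (by simp only [Prod.snd_zero]; omega), if_neg (by simp only [Prod.fst_zero]; omega)]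
    simp only [e1, e2, e3] at h1
    exact h1
  have hA : ∀ i : ℕ, L ((i : ℤ), ((n + 1 : ℕ) : ℤ)) - L ((i : ℤ), (n : ℤ)) =
      qJ (fun i => ω ((i : ℤ), ((n + 1 : ℕ) : ℤ))) y J0 i := by
    intro i
    induction i with
    | zero => exact hJ
    | succ i ih =>
      have h1 := hy (i + 1) (by omega)
      have e1 : (((i + 1 : ℕ) : ℤ) - 1) = (i : ℤ) := by push_cast; ring
      rw [e1] at h1
      rw [hrec i]
      simp only [qJ]
      rw [← ih, ← h1]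
      rcases le_total (L ((i : ℤ), ((n + 1 : ℕ) : ℤ))) (L (((i + 1 : ℕ) : ℤ), (n : ℤ))) with h | h
      · rw [max_eq_right h, max_eq_right (by linarith)]
        ring
      · rw [max_eq_left h, max_eq_left (by linarith)]
        ring
  refine ⟨hA, fun i hi => ?_⟩
  obtain ⟨k, rfl⟩ : ∃ k, i = k + 1 := ⟨i - 1, by omega⟩
  have h1 := hy (k + 1) (by omega)
  have h2 := hA k
  have e1 : (((k + 1 : ℕ) : ℤ) - 1) = (k : ℤ) := by push_cast; ring
  rw [e1] at h1 ⊢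
  rw [hrec k]
  unfold qI
  rw [Nat.add_sub_cancel, ← h2, ← h1]
  rcases le_total (L ((k : ℤ), ((n + 1 : ℕ) : ℤ))) (L (((k + 1 : ℕ) : ℤ), (n : ℤ))) with h | h
  · rw [max_eq_right h, max_eq_left (by linarith)]
    ring
  · rw [max_eq_left h, max_eq_right (by linarith)]
    ring

private theorem tsg_row0 (ω : ℤ × ℤ → ℝ) (S W : ℕ → ℝ) (i : ℕ) (hi : 1 ≤ i) :
    T (bfield ω S W 0) 0 ((i : ℤ), ((0 : ℕ) : ℤ)) -
      T (bfield ω S W 0) 0 ((i : ℤ) - 1, ((0 : ℕ) : ℤ)) = S i := by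
  have h1 := T_row (ω := bfield ω S W 0) (u := 0) (v := ((i : ℤ), ((0 : ℕ) : ℤ)))
    (by simp only [Prod.fst_zero]; omega) (by simp)
  rw [h1]
  have e3 : bfield ω S W 0 ((i : ℤ), ((0 : ℕ) : ℤ)) = S i := by
    unfold bfield
    rw [if_pos (by simp), if_neg (by simp only [Prod.fst_zero]; omega)]
    simp
  rw [e3]
  simp only
  ring

private theorem tsg_col0 (ω : ℤ × ℤ → ℝ) (S W : ℕ → ℝ) (n : ℕ) :
    T (bfield ω S W 0) 0 (0, ((n + 1 : ℕ) : ℤ)) - T (bfield ω S W 0) 0 (0, (n : ℤ)) =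
      W (n + 1) := by
  have h1 := T_col (ω := bfield ω S W 0) (u := 0) (v := (0, ((n + 1 : ℕ) : ℤ)))
    (by simp) (by simp only [Prod.snd_zero]; positivity)
  rw [h1]
  have e2 : (((n + 1 : ℕ) : ℤ) - 1) = (n : ℤ) := by push_cast; ring
  have e3 : bfield ω S W 0 (0, ((n + 1 : ℕ) : ℤ)) = W (n + 1) := by
    unfold bfield
    rw [if_neg (by simp only [Prod.snd_zero]; omega), if_pos (by simp)]
    simp only [Prod.snd_zero, sub_zero]
    congr 1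
  rw [e3]
  simp only [e2]
  ring

theorem rowSt_K (ω : ℤ × ℤ → ℝ) (y1 y2 : ℕ → ℝ) (κ : ℝ) (z j2 : ℕ → ℝ) (n : ℕ) :
    (rowSt ω y1 y2 κ z j2 n).2.2 = colK κ z j2 n := by
  induction n with
  | zero => rfl
  | succ n ih =>
    simp only [rowSt, rowStep, colK]
    rw [ih]

theorem grid_one (ω : ℤ × ℤ → ℝ) (y1 y2 : ℕ → ℝ) (κ : ℝ) (z j2 : ℕ → ℝ) (n i : ℕ) (hi : 1 ≤ i) :
    T (bfield ω y1 (colJ κ z j2) 0) 0 ((i : ℤ), (n : ℤ)) -
      T (bfield ω y1 (colJ κ z j2) 0) 0 ((i : ℤ) - 1, (n : ℤ)) =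
      (rowSt ω y1 y2 κ z j2 n).1 i := by
  induction n generalizing i with
  | zero => exact tsg_row0 ω y1 (colJ κ z j2) i hi
  | succ n ih =>
    have h1 := (tsg_step ω y1 (colJ κ z j2) n (rowSt ω y1 y2 κ z j2 n).1
      (j2 (n + 1) + max (z (n + 1) - (rowSt ω y1 y2 κ z j2 n).2.2) 0) (fun i hi => ih i hi) (by
        rw [tsg_col0, rowSt_K]
        unfold colJ
        rw [if_neg (by omega), Nat.add_sub_cancel])).2 i hi
    rw [h1]
    simp only [rowSt, rowStep]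
    rw [if_neg (by omega)]

/-- nonnegativity -/
private theorem tsg_qJ_nonneg {w y : ℕ → ℝ} {J0 : ℝ} (hw : ∀ i, 0 ≤ w i) (hJ : 0 ≤ J0) (i : ℕ) :
    0 ≤ qJ w y J0 i := by
  cases i with
  | zero => exact hJ
  | succ i =>
    simp only [qJ]
    have := hw (i + 1)
    positivity

private theorem tsg_qI_nonneg {w y : ℕ → ℝ} {J0 : ℝ} (hw : ∀ i, 0 ≤ w i) (i : ℕ) :
    0 ≤ qI w y J0 i := by
  unfold qI
  have := hw i
  positivity

private theorem tsg_qC_nonneg {w y : ℕ → ℝ} {J0 : ℝ} (hw : ∀ i, 0 ≤ w i) (hy : ∀ i, 0 ≤ y i)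
    (hJ : 0 ≤ J0) (i : ℕ) : 0 ≤ qC w y J0 i :=
  le_min (hy i) (tsg_qJ_nonneg hw hJ _)

private theorem tsg_rowK_nonneg {y1 y2 : ℕ → ℝ} {κ : ℝ} (h1 : ∀ i, 0 ≤ y1 i) (hκ : 0 ≤ κ)
    (i : ℕ) : 0 ≤ rowK y1 y2 κ i := by
  cases i with
  | zero => exact hκ
  | succ i =>
    simp only [rowK]
    have := h1 (i + 1)
    positivity

/-- the edge relations in one row -/
private theorem tsg_ER {w y1 y2 : ℕ → ℝ} {κ z j2 : ℝ} (hw : ∀ i, 0 ≤ w i) (h1 : ∀ i, 0 ≤ y1 i)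
    (h2 : ∀ i, 0 ≤ y2 i) (hκ : 0 ≤ κ) (hz : 0 ≤ z) (hj : 0 ≤ j2) (i : ℕ) :
    ER (rowK y1 y2 κ i) (qJ w y1 (j2 + max (z - κ) 0) i) (qJ w (rowD y1 y2 κ) j2 i)
      (qJ (qC w y1 (j2 + max (z - κ) 0)) y2 (min z κ) i)
      (rowK (rowStep w z j2 (y1, y2, κ)).1 (rowStep w z j2 (y1, y2, κ)).2.1
        (rowStep w z j2 (y1, y2, κ)).2.2 i) ∧
    0 ≤ rowK (rowStep w z j2 (y1, y2, κ)).1 (rowStep w z j2 (y1, y2, κ)).2.1
        (rowStep w z j2 (y1, y2, κ)).2.2 i ∧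
    qI w (rowD y1 y2 κ) j2 (i + 1) = rowD (rowStep w z j2 (y1, y2, κ)).1
      (rowStep w z j2 (y1, y2, κ)).2.1 (rowStep w z j2 (y1, y2, κ)).2.2 (i + 1) := by
  have hJ0 : 0 ≤ j2 + max (z - κ) 0 := by positivity
  have hJ0' : 0 ≤ min z κ := le_min hz hκ
  have hC := tsg_qC_nonneg (w := w) (y := y1) (J0 := j2 + max (z - κ) 0) hw h1 hJ0
  set y1' := (rowStep w z j2 (y1, y2, κ)).1 with hy1'
  set y2' := (rowStep w z j2 (y1, y2, κ)).2.1 with hy2'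
  set κ' := (rowStep w z j2 (y1, y2, κ)).2.2 with hκ'
  have a1 : ∀ i, y1' (i + 1) = qI w y1 (j2 + max (z - κ) 0) (i + 1) := by
    intro i
    rw [hy1']
    simp only [rowStep]
    rw [if_neg (by omega)]
  have a2 : ∀ i, y2' (i + 1) = qI (qC w y1 (j2 + max (z - κ) 0)) y2 (min z κ) (i + 1) := by
    intro i
    rw [hy2']
    simp only [rowStep]
    rw [if_neg (by omega)]
  have hD : ∀ i, rowD y1 y2 κ (i + 1) = y1 (i + 1) + max (y2 (i + 1) - rowK y1 y2 κ i) 0 := by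
    intro i
    unfold rowD
    rw [if_neg (by omega), Nat.add_sub_cancel]
  have hD' : ∀ i, rowD y1' y2' κ' (i + 1) =
      y1' (i + 1) + max (y2' (i + 1) - rowK y1' y2' κ' i) 0 := by
    intro i
    unfold rowD
    rw [if_neg (by omega), Nat.add_sub_cancel]
  have hκ0 : 0 ≤ κ' := by
    rw [hκ']
    simp only [rowStep]
    positivity
  have hy0 : ∀ i, 0 ≤ y1' (i + 1) := by
    intro i
    rw [a1]
    exact tsg_qI_nonneg hw _
  have hKn : ∀ i, 0 ≤ rowK y1' y2' κ' i := by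
    intro i
    cases i with
    | zero => exact hκ0
    | succ i =>
      simp only [rowK]
      have := hy0 i
      positivity
  have main : ∀ i, ER (rowK y1 y2 κ i) (qJ w y1 (j2 + max (z - κ) 0) i)
      (qJ w (rowD y1 y2 κ) j2 i) (qJ (qC w y1 (j2 + max (z - κ) 0)) y2 (min z κ) i)
      (rowK y1' y2' κ' i) → qI w (rowD y1 y2 κ) j2 (i + 1) = rowD y1' y2' κ' (i + 1) ∧
      ER (rowK y1 y2 κ (i + 1)) (qJ w y1 (j2 + max (z - κ) 0) (i + 1))
      (qJ w (rowD y1 y2 κ) j2 (i + 1)) (qJ (qC w y1 (j2 + max (z - κ) 0)) y2 (min z κ) (i + 1))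
      (rowK y1' y2' κ' (i + 1)) := by
    intro i hi
    have h := cell hi (h1 (i + 1)) (h2 (i + 1)) (hw (i + 1)) (tsg_rowK_nonneg h1 hκ i)
      (tsg_qJ_nonneg hw hJ0 i) (tsg_qJ_nonneg hw hj i) (tsg_qJ_nonneg hC hJ0' i) (hKn i)
    have b1 : y1' (i + 1) = w (i + 1) + max (y1 (i + 1) - qJ w y1 (j2 + max (z - κ) 0) i) 0 := by
      rw [a1]
      unfold qI
      rw [Nat.add_sub_cancel]
    have b2 : qC w y1 (j2 + max (z - κ) 0) (i + 1) =
        min (y1 (i + 1)) (qJ w y1 (j2 + max (z - κ) 0) i) := by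
      unfold qC
      rw [Nat.add_sub_cancel]
    have b3 : y2' (i + 1) = min (y1 (i + 1)) (qJ w y1 (j2 + max (z - κ) 0) i) +
        max (y2 (i + 1) - qJ (qC w y1 (j2 + max (z - κ) 0)) y2 (min z κ) i) 0 := by
      rw [a2]
      unfold qI
      rw [Nat.add_sub_cancel, b2]
    rw [← hD i, ← b1, ← b3] at h
    constructor
    · rw [hD']
      unfold qI
      rw [Nat.add_sub_cancel]
      exact h.1
    · have h3 := h.2
      simp only [rowK, qJ]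
      rw [b2]
      exact h3
  have hER : ∀ i, ER (rowK y1 y2 κ i) (qJ w y1 (j2 + max (z - κ) 0) i)
      (qJ w (rowD y1 y2 κ) j2 i) (qJ (qC w y1 (j2 + max (z - κ) 0)) y2 (min z κ) i)
      (rowK y1' y2' κ' i) := by
    intro i
    induction i with
    | zero => exact left_edge
    | succ i ih => exact (main i ih).2
  exact ⟨hER i, hKn i, (main i (hER i)).1⟩

private theorem tsg_nonneg (ω : ℤ × ℤ → ℝ) (y1 y2 : ℕ → ℝ) (κ : ℝ) (z j2 : ℕ → ℝ)
    (hω : ∀ v, 0 ≤ ω v) (h1 : ∀ i, 0 ≤ y1 i) (h2 : ∀ i, 0 ≤ y2 i) (hκ : 0 ≤ κ)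
    (hz : ∀ i, 0 ≤ z i) (hj : ∀ i, 0 ≤ j2 i) (n : ℕ) :
    (∀ i, 0 ≤ (rowSt ω y1 y2 κ z j2 n).1 i) ∧ (∀ i, 0 ≤ (rowSt ω y1 y2 κ z j2 n).2.1 i) ∧
      0 ≤ (rowSt ω y1 y2 κ z j2 n).2.2 := by
  induction n with
  | zero => exact ⟨h1, h2, hκ⟩
  | succ n ih =>
    obtain ⟨i1, i2, i3⟩ := ih
    have hw : ∀ i : ℕ, 0 ≤ (fun i : ℕ => ω ((i : ℤ), ((n + 1 : ℕ) : ℤ))) i := fun i => hω _
    have hJ0 : 0 ≤ j2 (n + 1) + max (z (n + 1) - (rowSt ω y1 y2 κ z j2 n).2.2) 0 := by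
      have := hj (n + 1)
      positivity
    have hC := tsg_qC_nonneg (w := fun i : ℕ => ω ((i : ℤ), ((n + 1 : ℕ) : ℤ)))
      (y := (rowSt ω y1 y2 κ z j2 n).1) hw i1 hJ0
    refine ⟨fun i => ?_, fun i => ?_, ?_⟩
    · simp only [rowSt, rowStep]
      split_ifs with h
      · exact i1 0
      · exact tsg_qI_nonneg hw i
    · simp only [rowSt, rowStep]
      split_ifs with h
      · exact i2 0
      · exact tsg_qI_nonneg hC i
    · simp only [rowSt, rowStep]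
      have := hj (n + 1)
      positivity

theorem grid_two (ω : ℤ × ℤ → ℝ) (y1 y2 : ℕ → ℝ) (κ : ℝ) (z j2 : ℕ → ℝ) (hω : ∀ v, 0 ≤ ω v)
    (h1 : ∀ i, 0 ≤ y1 i) (h2 : ∀ i, 0 ≤ y2 i) (hκ : 0 ≤ κ) (hz : ∀ i, 0 ≤ z i)
    (hj : ∀ i, 0 ≤ j2 i) (n i : ℕ) (hi : 1 ≤ i) :
    T (bfield ω (rowD y1 y2 κ) j2 0) 0 ((i : ℤ), (n : ℤ)) -
      T (bfield ω (rowD y1 y2 κ) j2 0) 0 ((i : ℤ) - 1, (n : ℤ)) =
      rowD (rowSt ω y1 y2 κ z j2 n).1 (rowSt ω y1 y2 κ z j2 n).2.1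
        (rowSt ω y1 y2 κ z j2 n).2.2 i := by
  induction n generalizing i with
  | zero => exact tsg_row0 ω (rowD y1 y2 κ) j2 i hi
  | succ n ih =>
    obtain ⟨i1, i2, i3⟩ := tsg_nonneg ω y1 y2 κ z j2 hω h1 h2 hκ hz hj n
    have h3 := (tsg_step ω (rowD y1 y2 κ) j2 n
      (rowD (rowSt ω y1 y2 κ z j2 n).1 (rowSt ω y1 y2 κ z j2 n).2.1
        (rowSt ω y1 y2 κ z j2 n).2.2) (j2 (n + 1)) (fun i hi => ih i hi)
      (tsg_col0 ω (rowD y1 y2 κ) j2 n)).2 i hi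
    rw [h3]
    obtain ⟨k, rfl⟩ : ∃ k, i = k + 1 := ⟨i - 1, by omega⟩
    exact (tsg_ER (w := fun i : ℕ => ω ((i : ℤ), ((n + 1 : ℕ) : ℤ))) (fun i => hω _) i1 i2 i3
      (hz (n + 1)) (hj (n + 1)) k).2.2

end BGE
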