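import Pool.Agent.BGE.Burke

/-!
BGE / B6 (tools). Local Burke moves inside the infinite product laws.

`moveN a b i j k` is the normalised move (all variables have rate one; the rates are `a`, `b`,
`a + b`). It preserves the law of any i.i.d. family. `ofTS` identifies `TSx` with the functions on
the index set `TI`, and `muTS` with the i.i.d. law there.
`mp_of_local`: a map into an i.i.d. family is measure preserving if its finitely many coordinates
are given by measure-preserving maps.
-/

namespace BGE

open MeasureTheory ProbabilityTheory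

/-- scaling of exponential laws -/
theorem map_E1_div {a : ℝ} (ha : 0 < a) : Measure.map (fun u : ℝ => u / a) E1 = expMeasure a := by
  have hm : Measurable (fun u : ℝ => u / a) := by fun_prop
  have : IsProbabilityMeasure (expMeasure a) := isProbabilityMeasure_expMeasure ha
  have : IsProbabilityMeasure (Measure.map (fun u : ℝ => u / a) E1) :=
    Measure.isProbabilityMeasure_map hm.aemeasurable
  apply Measure.eq_of_cdf
  apply StieltjesFunction.ext
  intro x
  have e1 : cdf (Measure.map (fun u : ℝ => u / a) E1) x = cdf E1 (a * x) := by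
    rw [cdf_eq_real, cdf_eq_real, Measure.real, Measure.real, Measure.map_apply hm measurableSet_Iic]
    congr 2
    ext u
    simp only [Set.mem_preimage, Set.mem_Iic]
    rw [div_le_iff₀ ha, mul_comm]
  rw [e1, E1, cdf_expMeasure_eq one_pos, cdf_expMeasure_eq ha]
  simp [mul_nonneg_iff_of_pos_left ha]

theorem map_exp_mul {a : ℝ} (ha : 0 < a) : Measure.map (fun u : ℝ => a * u) (expMeasure a) = E1 := by
  rw [← map_E1_div ha, Measure.map_map (by fun_prop) (by fun_prop)]
  have : ((fun u : ℝ => a * u) ∘ fun u : ℝ => u / a) = id := by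
    ext u
    simp only [Function.comp_apply, id]
    field_simp
  rw [this, Measure.map_id]

/-- the normalised move -/
noncomputable def moveN {ι : Type*} [DecidableEq ι] (a b : ℝ) (i j k : ι) (x : ι → ℝ) : ι → ℝ :=
  Function.update (Function.update (Function.update x
    i (a * (x k / (a + b) + max (x i / a - x j / b) 0)))
    j (b * (x k / (a + b) + max (x j / b - x i / a) 0)))
    k ((a + b) * min (x i / a) (x j / b))

section
variable {ι : Type*} [DecidableEq ι]

theorem moveN_i {a b : ℝ} {i j k : ι} (hij : i ≠ j) (hik : i ≠ k) (x : ι → ℝ) :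
    moveN a b i j k x i = a * (x k / (a + b) + max (x i / a - x j / b) 0) := by
  unfold moveN
  rw [Function.update_of_ne hik, Function.update_of_ne hij, Function.update_self]

theorem moveN_j {a b : ℝ} {i j k : ι} (hjk : j ≠ k) (x : ι → ℝ) :
    moveN a b i j k x j = b * (x k / (a + b) + max (x j / b - x i / a) 0) := by
  unfold moveN
  rw [Function.update_of_ne hjk, Function.update_self]

theorem moveN_k {a b : ℝ} {i j k : ι} (x : ι → ℝ) :
    moveN a b i j k x k = (a + b) * min (x i / a) (x j / b) := by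
  unfold moveN
  rw [Function.update_self]

theorem moveN_ne {a b : ℝ} {i j k l : ι} (hi : l ≠ i) (hj : l ≠ j) (hk : l ≠ k) (x : ι → ℝ) :
    moveN a b i j k x l = x l := by
  unfold moveN
  rw [Function.update_of_ne hk, Function.update_of_ne hj, Function.update_of_ne hi]

theorem measurable_moveN (a b : ℝ) (i j k : ι) : Measurable (moveN a b i j k : (ι → ℝ) → ι → ℝ) := by
  unfold moveN
  fun_prop

/-- the normalised move in finite products -/
theorem moveN_pi [Fintype ι] {a b : ℝ} (ha : 0 < a) (hb : 0 < b) {i j k : ι}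
    (hij : i ≠ j) (hik : i ≠ k) (hjk : j ≠ k) :
    MeasurePreserving (moveN a b i j k) (Measure.pi fun _ : ι => E1)
      (Measure.pi fun _ : ι => E1) := by
  set r : ι → ℝ := fun l => if l = i then a else if l = j then b else if l = k then a + b else 1
    with hr
  have hpos : ∀ l, 0 < r l := by
    intro l
    simp only [hr]
    split_ifs <;> positivity
  have ri : r i = a := by simp [hr]
  have rj : r j = b := by simp [hr, hij.symm]
  have rk : r k = a + b := by simp [hr, hik.symm, hjk.symm]
  have hP : ∀ l, IsProbabilityMeasure (expMeasure (r l)) :=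
    fun l => isProbabilityMeasure_expMeasure (hpos l)
  have h1 : MeasurePreserving (fun (x : ι → ℝ) l => x l / r l) (Measure.pi fun _ : ι => E1)
      (Measure.pi fun l => expMeasure (r l)) := by
    exact measurePreserving_pi (fun _ : ι => E1) (fun l => expMeasure (r l))
      (f := fun l (u : ℝ) => u / r l) (fun l => ⟨by fun_prop, map_E1_div (hpos l)⟩)
  have h3 : MeasurePreserving (fun (x : ι → ℝ) l => r l * x l)
      (Measure.pi fun l => expMeasure (r l)) (Measure.pi fun _ : ι => E1) := by
    exact measurePreserving_pi (fun l => expMeasure (r l)) (fun _ : ι => E1)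
      (f := fun l (u : ℝ) => r l * u) (fun l => ⟨by fun_prop, map_exp_mul (hpos l)⟩)
  have h2 := burke_move r hpos hij hik hjk (by rw [ri, rj, rk])
  have h := h3.comp (h2.comp h1)
  have e : ((fun (x : ι → ℝ) l => r l * x l) ∘ (move i j k) ∘ fun (x : ι → ℝ) l => x l / r l) =
      moveN a b i j k := by
    funext x
    funext l
    simp only [Function.comp_apply, move]
    by_cases hk : l = k
    · subst hk
      rw [Function.update_self, moveN_k, ri, rj, rk]
    rw [Function.update_of_ne hk]
    by_cases hj : l = j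
    · subst hj
      rw [Function.update_self, moveN_j hjk, ri, rj, rk]
    rw [Function.update_of_ne hj]
    by_cases hi : l = i
    · subst hi
      rw [Function.update_self, moveN_i hij hik, ri, rj, rk]
    rw [Function.update_of_ne hi, moveN_ne hi hj hk]
    have := hpos l
    field_simp
  rw [e] at h
  exact h

/-- the normalised move in infinite products -/
theorem moveN_PI {a b : ℝ} (ha : 0 < a) (hb : 0 < b) {i j k : ι}
    (hij : i ≠ j) (hik : i ≠ k) (hjk : j ≠ k) :
    MeasurePreserving (moveN a b i j k) (PI ι) (PI ι) := by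
  classical
  refine ⟨measurable_moveN a b i j k, ?_⟩
  unfold PI
  apply Measure.eq_infinitePi
  intro s t ht
  set s' : Finset ι := insert i (insert j (insert k s)) with hs'
  have hi' : i ∈ s' := by simp [hs']
  have hj' : j ∈ s' := by simp [hs']
  have hk' : k ∈ s' := by simp [hs']
  have hss : s ⊆ s' := by
    intro l hl
    simp [hs', hl]
  have hbox : MeasurableSet (Set.pi (s : Set ι) t) :=
    MeasurableSet.pi s.countable_toSet (fun l _ => ht l)
  rw [Measure.map_apply (measurable_moveN a b i j k) hbox]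
  -- the finite move
  set mv : (s' → ℝ) → (s' → ℝ) := moveN a b ⟨i, hi'⟩ ⟨j, hj'⟩ ⟨k, hk'⟩ with hmv
  have hmp : MeasurePreserving mv (Measure.pi fun _ : s' => E1) (Measure.pi fun _ : s' => E1) :=
    moveN_pi ha hb (fun h => hij (congrArg Subtype.val h)) (fun h => hik (congrArg Subtype.val h))
      (fun h => hjk (congrArg Subtype.val h))
  set B : Set (s' → ℝ) := {y | ∀ l : s', (l : ι) ∈ s → y l ∈ t l} with hB
  have hBm : MeasurableSet B := by
    have : B = ⋂ l : s', {y | (l : ι) ∈ s → y l ∈ t l} := by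
      ext y
      simp [hB]
    rw [this]
    apply MeasurableSet.iInter
    intro l
    by_cases hl : (l : ι) ∈ s
    · simp only [hl, true_imp_iff]
      exact (measurable_pi_apply l) (ht l)
    · simp only [hl, false_imp_iff]
      exact MeasurableSet.univ
  have hrest : ∀ x : ι → ℝ, s'.restrict (moveN a b i j k x) = mv (s'.restrict x) := by
    intro x
    funext l
    simp only [Finset.restrict, hmv]
    by_cases hk : (l : ι) = k
    · have : l = ⟨k, hk'⟩ := Subtype.ext hk
      subst this
      rw [moveN_k, moveN_k]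
      rfl
    by_cases hj : (l : ι) = j
    · have : l = ⟨j, hj'⟩ := Subtype.ext hj
      subst this
      rw [moveN_j hjk, moveN_j (fun h => hjk (congrArg Subtype.val h))]
      rfl
    by_cases hi : (l : ι) = i
    · have : l = ⟨i, hi'⟩ := Subtype.ext hi
      subst this
      rw [moveN_i hij hik, moveN_i (fun h => hij (congrArg Subtype.val h))
        (fun h => hik (congrArg Subtype.val h))]
      rfl
    rw [moveN_ne hi hj hk, moveN_ne (fun h => hi (congrArg Subtype.val h))
      (fun h => hj (congrArg Subtype.val h)) (fun h => hk (congrArg Subtype.val h))]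
    rfl
  have hpre : moveN a b i j k ⁻¹' Set.pi (s : Set ι) t = s'.restrict ⁻¹' (mv ⁻¹' B) := by
    ext x
    simp only [Set.mem_preimage, ← hrest, hB, Set.mem_ofPred_eq, Set.mem_pi, Finset.mem_coe]
    constructor
    · intro h l hl
      exact h l hl
    · intro h l hl
      exact h ⟨l, hss hl⟩ hl
  have hpre2 : Set.pi (s : Set ι) t = s'.restrict ⁻¹' B := by
    ext x
    simp only [Set.mem_preimage, hB, Set.mem_ofPred_eq, Set.mem_pi, Finset.mem_coe]
    constructor
    · intro h l hl
      exact h l hl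
    · intro h l hl
      exact h ⟨l, hss hl⟩ hl
  rw [hpre, ← Measure.map_apply (Finset.measurable_restrict s') (hmp.measurable hBm),
    Measure.infinitePi_map_restrict, hmp.measure_preimage hBm.nullMeasurableSet,
    ← Measure.infinitePi_map_restrict (μ := fun _ : ι => E1),
    Measure.map_apply (Finset.measurable_restrict s') hBm, ← hpre2,
    Measure.infinitePi_pi _ (fun l _ => ht l)]

end

/-- a map is measure preserving into an i.i.d. family if this holds for finitely many coordinates
at a time -/
theorem mp_of_local {X κ : Type*} [MeasurableSpace X] {μ : Measure X} (F : X → κ → ℝ)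
    (h : ∀ s : Finset κ, ∃ G : X → κ → ℝ, MeasurePreserving G μ (PI κ) ∧
      ∀ x, ∀ i ∈ s, F x i = G x i) : MeasurePreserving F μ (PI κ) := by
  classical
  have hF : Measurable F := by
    rw [measurable_pi_iff]
    intro i
    obtain ⟨G, hG, hG2⟩ := h {i}
    have : (fun x => F x i) = fun x => G x i := by
      funext x
      exact hG2 x i (by simp)
    rw [this]
    exact (measurable_pi_apply i).comp hG.measurable
  refine ⟨hF, ?_⟩
  unfold PI
  apply Measure.eq_infinitePi
  intro s t ht
  obtain ⟨G, hG, hG2⟩ := h s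
  have hbox : MeasurableSet (Set.pi (s : Set κ) t) :=
    MeasurableSet.pi s.countable_toSet (fun l _ => ht l)
  rw [Measure.map_apply hF hbox]
  have e : F ⁻¹' Set.pi (s : Set κ) t = G ⁻¹' Set.pi (s : Set κ) t := by
    ext x
    simp only [Set.mem_preimage, Set.mem_pi, Finset.mem_coe]
    constructor
    · intro h l hl
      rw [← hG2 x l hl]
      exact h l hl
    · intro h l hl
      rw [hG2 x l hl]
      exact h l hl
  rw [e, hG.measure_preimage hbox.nullMeasurableSet]
  unfold PI
  rw [Measure.infinitePi_pi _ (fun l _ => ht l)]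

/-- glueing two families -/
def glueS {A B : Type*} (x : (A → ℝ) × (B → ℝ)) : A ⊕ B → ℝ := Sum.elim x.1 x.2

theorem glueS_mp (A B : Type*) :
    MeasurePreserving (glueS : (A → ℝ) × (B → ℝ) → A ⊕ B → ℝ) ((PI A).prod (PI B)) (PI (A ⊕ B)) := by
  classical
  have hm : Measurable (glueS : (A → ℝ) × (B → ℝ) → A ⊕ B → ℝ) := by
    rw [measurable_pi_iff]
    rintro (i | i)
    · change Measurable fun x : (A → ℝ) × (B → ℝ) => x.1 i
      fun_prop
    · change Measurable fun x : (A → ℝ) × (B → ℝ) => x.2 i
      fun_prop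
  refine ⟨hm, ?_⟩
  rw [show PI (A ⊕ B) = Measure.infinitePi (fun _ : A ⊕ B => E1) from rfl]
  apply Measure.eq_infinitePi
  intro s t ht
  have hbox : MeasurableSet (Set.pi (s : Set (A ⊕ B)) t) :=
    MeasurableSet.pi s.countable_toSet (fun l _ => ht l)
  rw [Measure.map_apply hm hbox]
  have e : glueS ⁻¹' Set.pi (s : Set (A ⊕ B)) t =
      (Set.pi (s.toLeft : Set A) (fun i => t (Sum.inl i))) ×ˢ
        (Set.pi (s.toRight : Set B) (fun i => t (Sum.inr i))) := by
    ext x
    simp only [Set.mem_preimage, Set.mem_pi, Finset.mem_coe, Set.mem_prod, Finset.mem_toLeft,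
      Finset.mem_toRight, Sum.forall, glueS, Sum.elim_inl, Sum.elim_inr]
  rw [e, Measure.prod_prod]
  unfold PI
  rw [Measure.infinitePi_pi _ (fun l _ => ht _), Measure.infinitePi_pi _ (fun l _ => ht _)]
  conv_rhs => rw [← Finset.toLeft_disjSum_toRight (u := s)]
  rw [Finset.prod_disjSum]

/-- splitting a family -/
def splitS {A B : Type*} (x : A ⊕ B → ℝ) : (A → ℝ) × (B → ℝ) :=
  (fun i => x (Sum.inl i), fun i => x (Sum.inr i))

theorem measurable_splitS (A B : Type*) :
    Measurable (splitS : (A ⊕ B → ℝ) → (A → ℝ) × (B → ℝ)) := by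
  unfold splitS
  fun_prop

theorem splitS_glueS {A B : Type*} (x : (A → ℝ) × (B → ℝ)) : splitS (glueS x) = x := rfl

theorem splitS_mp (A B : Type*) :
    MeasurePreserving (splitS : (A ⊕ B → ℝ) → (A → ℝ) × (B → ℝ)) (PI (A ⊕ B)) ((PI A).prod (PI B)) := by
  refine ⟨measurable_splitS A B, ?_⟩
  rw [← (glueS_mp A B).map_eq, Measure.map_map (measurable_splitS A B) (glueS_mp A B).measurable]
  have : (splitS ∘ glueS : (A → ℝ) × (B → ℝ) → (A → ℝ) × (B → ℝ)) = id := by
    funext x
    rfl
  rw [this, Measure.map_id]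

theorem unit_mp : MeasurePreserving (fun (u : ℝ) (_ : Unit) => u) E1 (PI Unit) := by
  classical
  refine ⟨by fun_prop, ?_⟩
  rw [show PI Unit = Measure.infinitePi (fun _ : Unit => E1) from rfl]
  apply Measure.eq_infinitePi
  intro s t ht
  have hbox : MeasurableSet (Set.pi (s : Set Unit) t) :=
    MeasurableSet.pi s.countable_toSet (fun l _ => ht l)
  rw [Measure.map_apply (by fun_prop) hbox]
  by_cases hs : s = ∅
  · subst hs
    simp
  · have : s = {()} := by
      obtain ⟨u, hu⟩ := Finset.nonempty_iff_ne_empty.mpr hs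
      ext v
      cases v
      cases u
      simpa using hu
    subst this
    rw [Finset.prod_singleton]
    congr 1
    ext x
    simp

theorem unit_mp' : MeasurePreserving (fun x : Unit → ℝ => x ()) (PI Unit) E1 :=
  measurePreserving_eval_infinitePi (fun _ : Unit => E1) ()

/-! ### The index set of `TSx` -/

abbrev TI := (ℤ × ℤ) ⊕ ℕ ⊕ ℕ ⊕ ℕ ⊕ ℕ ⊕ Unit

abbrev iW (v : ℤ × ℤ) : TI := Sum.inl v
abbrev iA (i : ℕ) : TI := Sum.inr (Sum.inl i)
abbrev iB (i : ℕ) : TI := Sum.inr (Sum.inr (Sum.inl i))
abbrev iZ (i : ℕ) : TI := Sum.inr (Sum.inr (Sum.inr (Sum.inl i)))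
abbrev iJ (i : ℕ) : TI := Sum.inr (Sum.inr (Sum.inr (Sum.inr (Sum.inl i))))
abbrev iK : TI := Sum.inr (Sum.inr (Sum.inr (Sum.inr (Sum.inr ()))))

/-- all the variables in one family -/
def ofTS (x : TSx) : TI → ℝ :=
  glueS (x.1, glueS (x.2.1, glueS (x.2.2.1, glueS (x.2.2.2.1, glueS (x.2.2.2.2.1,
    fun _ => x.2.2.2.2.2)))))

theorem ofTS_mp : MeasurePreserving ofTS muTS (PI TI) := by
  unfold muTS ofTS
  have h5 := (glueS_mp ℕ Unit).comp ((MeasurePreserving.id (PI ℕ)).prod unit_mp)
  have h4 := (glueS_mp ℕ _).comp ((MeasurePreserving.id (PI ℕ)).prod h5)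
  have h3 := (glueS_mp ℕ _).comp ((MeasurePreserving.id (PI ℕ)).prod h4)
  have h2 := (glueS_mp ℕ _).comp ((MeasurePreserving.id (PI ℕ)).prod h3)
  have h1 := (glueS_mp (ℤ × ℤ) _).comp ((MeasurePreserving.id (PI (ℤ × ℤ))).prod h2)
  exact h1

@[simp] theorem ofTS_W (x : TSx) (v : ℤ × ℤ) : ofTS x (iW v) = x.1 v := rfl
@[simp] theorem ofTS_A (x : TSx) (i : ℕ) : ofTS x (iA i) = x.2.1 i := rfl
@[simp] theorem ofTS_B (x : TSx) (i : ℕ) : ofTS x (iB i) = x.2.2.1 i := rfl
@[simp] theorem ofTS_Z (x : TSx) (i : ℕ) : ofTS x (iZ i) = x.2.2.2.1 i := rfl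
@[simp] theorem ofTS_J (x : TSx) (i : ℕ) : ofTS x (iJ i) = x.2.2.2.2.1 i := rfl
@[simp] theorem ofTS_K (x : TSx) : ofTS x iK = x.2.2.2.2.2 := rfl

/-- restriction to a subfamily -/
theorem sub_mp {A B : Type*} (f : B → A) (hf : Function.Injective f) :
    MeasurePreserving (fun (x : A → ℝ) (b : B) => x (f b)) (PI A) (PI B) := by
  refine ⟨by fun_prop, ?_⟩
  classical
  rw [show PI B = Measure.infinitePi (fun _ : B => E1) from rfl]
  apply Measure.eq_infinitePi
  intro s t ht
  have hbox : MeasurableSet (Set.pi (s : Set B) t) :=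
    MeasurableSet.pi s.countable_toSet (fun l _ => ht l)
  rw [Measure.map_apply (by fun_prop) hbox]
  set t' : A → Set ℝ := fun a => ⋂ b : s, {u | f b = a → u ∈ t b} with ht'
  have ht'm : ∀ a, MeasurableSet (t' a) := by
    intro a
    apply MeasurableSet.iInter
    intro b
    by_cases hb : f b = a
    · simp only [hb, true_imp_iff]
      exact ht b
    · simp only [hb, false_imp_iff]
      exact MeasurableSet.univ
  have ht'b : ∀ b ∈ s, t' (f b) = t b := by
    intro b hb
    ext u
    simp only [ht', Set.mem_iInter, Set.mem_ofPred_eq]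
    constructor
    · intro h
      exact h ⟨b, hb⟩ rfl
    · intro h b' hb'
      have : (b' : B) = b := hf hb'
      rw [this]
      exact h
  have e : (fun (x : A → ℝ) (b : B) => x (f b)) ⁻¹' Set.pi (s : Set B) t =
      Set.pi ((s.image f : Finset A) : Set A) t' := by
    ext x
    simp only [Set.mem_preimage, Set.mem_pi, Finset.mem_coe, Finset.mem_image]
    constructor
    · rintro h a ⟨b, hb, rfl⟩
      rw [ht'b b hb]
      exact h b hb
    · intro h b hb
      rw [← ht'b b hb]
      exact h (f b) ⟨b, hb, rfl⟩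
  rw [e]
  unfold PI
  rw [Measure.infinitePi_pi _ (fun l _ => ht'm _), Finset.prod_image (fun _ _ _ _ h => hf h)]
  apply Finset.prod_congr rfl
  intro b hb
  rw [ht'b b hb]

/-! ### Queues as sequences of moves -/

/-- the moves of a queue: arrivals in the coordinates `p n`, services in `q n`, state in `k` -/
noncomputable def qMoves {ι : Type*} [DecidableEq ι] (a b : ℝ) (p q : ℕ → ι) (k : ι) :
    ℕ → (ι → ℝ) → ι → ℝ
  | 0 => id
  | n + 1 => moveN a b (p (n + 1)) k (q (n + 1)) ∘ qMoves a b p q k n

section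
variable {ι : Type*} [DecidableEq ι]

theorem qMoves_mp {a b : ℝ} (ha : 0 < a) (hb : 0 < b) {p q : ℕ → ι} {k : ι}
    (hpq : ∀ i j, p i ≠ q j) (hpk : ∀ i, p i ≠ k) (hqk : ∀ i, q i ≠ k) (N : ℕ) :
    MeasurePreserving (qMoves a b p q k N) (PI ι) (PI ι) := by
  induction N with
  | zero => exact MeasurePreserving.id _
  | succ n ih => exact (moveN_PI ha hb (hpk _) (hpq _ _) (hqk _).symm).comp ih

theorem qMoves_spec {a b : ℝ} (ha : 0 < a) (hb : 0 < b) {p q : ℕ → ι} {k : ι}
    (hp : Function.Injective p) (hq : Function.Injective q)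
    (hpq : ∀ i j, p i ≠ q j) (hpk : ∀ i, p i ≠ k) (hqk : ∀ i, q i ≠ k) (N : ℕ) (x : ι → ℝ)
    (y1 y2 : ℕ → ℝ) (κ : ℝ) (h1 : ∀ i, y1 i = x (q i) / (a + b)) (h2 : ∀ i, y2 i = x (p i) / a)
    (h3 : κ = x k / b) :
    (∀ i, i ≤ N → qMoves a b p q k N x (p i) = a * rowD y1 y2 κ i) ∧
    (∀ i, N < i → qMoves a b p q k N x (p i) = x (p i)) ∧
    (∀ i, 1 ≤ i → i ≤ N → qMoves a b p q k N x (q i) =
      (a + b) * min (y2 i) (rowK y1 y2 κ (i - 1))) ∧
    (∀ i, (i = 0 ∨ N < i) → qMoves a b p q k N x (q i) = x (q i)) ∧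
    qMoves a b p q k N x k = b * rowK y1 y2 κ N ∧
    (∀ l, (∀ i, l ≠ p i) → (∀ i, l ≠ q i) → l ≠ k → qMoves a b p q k N x l = x l) := by
  have ha' : a ≠ 0 := ha.ne'
  have hb' : b ≠ 0 := hb.ne'
  induction N with
  | zero =>
    refine ⟨?_, ?_, ?_, ?_, ?_, ?_⟩
    · intro i hi
      have : i = 0 := by omega
      subst this
      simp only [qMoves, id, rowD, if_true]
      rw [h2]
      field_simp
    · intro i _
      rfl
    · intro i h1 h2
      omega
    · intro i _
      rfl
    · simp only [qMoves, id, rowK]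
      rw [h3]
      field_simp
    · intro l _ _ _
      rfl
  | succ n ih =>
    obtain ⟨i1, i2, i3, i4, i5, i6⟩ := ih
    set g := qMoves a b p q k n x with hg
    have hstep : qMoves a b p q k (n + 1) x = moveN a b (p (n + 1)) k (q (n + 1)) g := rfl
    rw [hstep]
    have gp : g (p (n + 1)) / a = y2 (n + 1) := by
      rw [i2 _ (Nat.lt_succ_self n), h2]
    have gq : g (q (n + 1)) / (a + b) = y1 (n + 1) := by
      rw [i4 _ (Or.inr (Nat.lt_succ_self n)), h1]
    have gk : g k / b = rowK y1 y2 κ n := by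
      rw [i5]
      field_simp
    refine ⟨?_, ?_, ?_, ?_, ?_, ?_⟩
    · intro i hi
      by_cases h : i = n + 1
      · subst h
        rw [moveN_i (hpk _) (hpq _ _), gp, gq, gk]
        simp [rowD]
      · rw [moveN_ne (fun e => h (hp e)) (hpk _) (hpq _ _)]
        exact i1 i (by omega)
    · intro i hi
      rw [moveN_ne (fun e => (by omega : i ≠ n + 1) (hp e)) (hpk _) (hpq _ _)]
      exact i2 i (by omega)
    · intro i hi1 hi
      by_cases h : i = n + 1
      · subst h
        rw [moveN_k, gp, gk]
        simp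
      · rw [moveN_ne (hpq _ _).symm (hqk _) (fun e => h (hq e))]
        exact i3 i hi1 (by omega)
    · intro i hi
      rw [moveN_ne (hpq _ _).symm (hqk _) (fun e => (by omega : i ≠ n + 1) (hq e))]
      exact i4 i (by omega)
    · rw [moveN_j (hqk _).symm, gp, gq, gk]
      simp [rowK]
    · intro l hl1 hl2 hl3
      rw [moveN_ne (hl1 _) hl3 (hl2 _)]
      exact i6 l hl1 hl2 hl3

end

theorem colK_eq (κ : ℝ) (z j2 : ℕ → ℝ) (j : ℕ) : colK κ z j2 j = rowK j2 z κ j := by
  induction j with
  | zero => rfl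
  | succ n ih => rw [colK, rowK, ih]

theorem colJ_eq (κ : ℝ) (z j2 : ℕ → ℝ) (j : ℕ) : colJ κ z j2 j = rowD j2 z κ j := by
  unfold colJ rowD
  rw [colK_eq]

end BGE
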