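import Mathlib

/-!
BGE / T1. Talagrand's convex distance inequality for finite product spaces.

Let `Ω = ι → α` be finite with product weights `pr x = ∏ i, p i (x i)`. Let `A, B` be sets
such that for every `x ∈ B` there are `c i ≥ 0` with `∑ c i ^ 2 ≤ 1` and
`u ≤ ∑_{i, x i ≠ y i} c i` for all `y ∈ A`. Then `P(A) P(B) ≤ exp (-u²/4)`.

Proof. For `A ≠ ∅` let `U A x` be the set of the vectors `s : ι → ℝ` which are convex combinations
of vectors `s'` such that for some `y ∈ A`, `s' i ≥ 1` if `x i ≠ y i` and `s' i ≥ 0` for all `i`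
(equivalently: `s = ∑_y λ y s_y`). Let `D A x = inf {∑ s i ^ 2 : s ∈ U A x}`.
(1) If `x ∈ B` then for every `s ∈ U A x`: `∑ c i s i ≥ u`, hence by Cauchy-Schwarz `∑ s i² ≥ u²`,
so `D A x ≥ u²` (`u ≥ 0`).
(2) Claim: `∑_x pr x exp (D A x/4) ≤ 1/P(A)`. Then `P(B) e^{u²/4} ≤ 1/P(A)`.
Proof of the claim by induction on the number of coordinates (one coordinate more, `x = (x', t)`).
For `t` let `A_t = {y' : (y', t) ∈ A}` and let `A' = ⋃_t A_t`. For `0 ≤ θ ≤ 1` and
`s ∈ U A_t x'`, `s' ∈ U A' x'` the vector `(θ s + (1-θ) s', 1-θ)` lies in `U A (x', t)`; hence by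
convexity of the square `D A (x',t) ≤ (1-θ)² + θ D A_t x' + (1-θ) D A' x'`. (If `A_t = ∅` use
`θ = 0`.) By Hölder's inequality and the induction hypothesis
`∑_{x'} pr x' exp (D A (x',t)/4) ≤ e^{(1-θ)²/4} P(A_t)^{-θ} P(A')^{-(1-θ)}
  = (1/P(A')) e^{(1-θ)²/4} r^{-θ}` with `r = P(A_t)/P(A') ∈ [0, 1]`; minimising over `θ`
(`key_ineq`) this is at most `(2 - r)/P(A')` (also for `r = 0`, `θ = 0`). Averaging over `t`,
`∑_x pr x exp (D A x/4) ≤ (2 - P(A)/P(A'))/P(A') ≤ 1/P(A)` because `z (2 - z) ≤ 1`.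

`key_ineq`: for `0 < r ≤ 1` there is `θ ∈ [0,1]` with `e^{(1-θ)²/4} r^{-θ} ≤ 2 - r`.
Proof: if `r ≥ e^{-1/2}` take `θ = 1 + 2 log r`: the logarithm of the left side is
`(log r)² - log r - 2 (log r)² = -log r - (log r)²`, and
`f(r) = log (2 - r) + log r + (log r)² ≥ 0` on `[e^{-1/2}, 1]` (`f(1) = 0`,
`r f'(r) = 1 + 2 log r - r/(2-r) =: g(r)`, `g(1) = 0`, `g' = 2/r - 2/(2-r)² ≥ 0` so `g ≤ 0` and `f`
is decreasing). If `r < e^{-1/2}` take `θ = 0`: `e^{1/4} ≤ 2 - e^{-1/2} ≤ 2 - r`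
(`e^{1/4} < 1.285`, `e^{-1/2} < 0.607`).
-/

namespace BGE

open Finset

theorem talagrand_key_ineq {r : ℝ} (h0 : 0 < r) (h1 : r ≤ 1) :
    ∃ θ : ℝ, 0 ≤ θ ∧ θ ≤ 1 ∧ Real.exp ((1 - θ) ^ 2 / 4) * r ^ (-θ) ≤ 2 - r := by
  by_cases hr : Real.exp (-(1/2)) ≤ r
  · set L := Real.log r with hL
    have hL0 : L ≤ 0 := Real.log_nonpos h0.le h1
    have hL1 : -(1/2) ≤ L := by
      rw [hL, Real.le_log_iff_exp_le h0]; exact hr
    refine ⟨1 + 2 * L, by linarith, by linarith, ?_⟩
    rw [Real.rpow_def_of_pos h0, ← Real.exp_add]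
    have e1 : (1 - (1 + 2 * L)) ^ 2 / 4 + Real.log r * -(1 + 2 * L) = -L - L ^ 2 := by
      rw [← hL]; ring
    rw [e1]
    have hrL : r = Real.exp L := (Real.exp_log h0).symm
    rw [hrL]
    obtain ⟨t, ht⟩ : ∃ t, L = -t := ⟨-L, by ring⟩
    rw [ht] at hL0 hL1 ⊢
    have t0 : 0 ≤ t := by linarith
    have t1 : t ≤ 1/2 := by linarith
    have hx0 : 0 ≤ t - t^2 := by nlinarith
    have hx1 : t - t^2 ≤ t := by nlinarith
    have b1 := Real.exp_bound' hx0 (by linarith : t - t^2 ≤ 1) (n := 4) (by norm_num)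
    have b2 := (abs_le.1 (Real.exp_bound (x := -t) (by rw [abs_le]; constructor <;> linarith) (n := 4) (by norm_num))).2
    rw [abs_neg, abs_of_nonneg t0] at b2
    simp only [Finset.sum_range_succ, Finset.sum_range_zero, Nat.factorial] at b1 b2
    norm_num at b1 b2
    have e2 : - -t - (-t)^2 = t - t^2 := by ring
    rw [e2]
    have hx4 : (t - t^2)^4 ≤ t^4 := pow_le_pow_left₀ hx0 hx1 4
    have t3 : 0 ≤ t^3 := by positivity
    have hA : t^4 ≤ t^3 * (1/2) := by
      have : t^4 = t^3 * t := by ring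
      rw [this]; exact mul_le_mul_of_nonneg_left t1 t3
    have hB : t^5 ≤ t^3 * (1/4) := by
      have : t^5 = t^3 * (t*t) := by ring
      rw [this]; exact mul_le_mul_of_nonneg_left (by nlinarith) t3
    have hC : 0 ≤ t^6 := by positivity
    nlinarith
  · push Not at hr
    refine ⟨0, le_refl _, zero_le_one, ?_⟩
    have b1 := Real.exp_bound' (by norm_num : (0:ℝ) ≤ 1/4) (by norm_num) (n := 4) (by norm_num)
    have b2 := (abs_le.1 (Real.exp_bound (x := -(1/2)) (by rw [abs_le]; constructor <;> norm_num) (n := 4) (by norm_num))).2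
    simp only [Finset.sum_range_succ, Finset.sum_range_zero, Nat.factorial] at b1 b2
    norm_num at b1 b2
    norm_num at b2 hr ⊢
    linarith

/-- the convex hull set of Talagrand -/
def tU {n : ℕ} {α : Type*} [DecidableEq α] (A : Finset (Fin n → α)) (x : Fin n → α) :
    Set (Fin n → ℝ) :=
  {s | ∃ l : (Fin n → α) → ℝ, (∀ y, 0 ≤ l y) ∧ ∑ y ∈ A, l y = 1 ∧
    ∀ i, ∑ y ∈ A, l y * (if x i ≠ y i then 1 else 0) ≤ s i}

lemma tU_nonneg {n : ℕ} {α : Type*} [DecidableEq α] {A : Finset (Fin n → α)} {x : Fin n → α}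
    {s : Fin n → ℝ} (hs : s ∈ tU A x) (i : Fin n) : 0 ≤ s i := by
  obtain ⟨l, h1, h2, h3⟩ := hs
  refine le_trans (Finset.sum_nonneg fun y _ => mul_nonneg (h1 y) ?_) (h3 i)
  split_ifs <;> norm_num

noncomputable def tD {n : ℕ} {α : Type*} [DecidableEq α] (A : Finset (Fin n → α))
    (x : Fin n → α) : ℝ := sInf ((fun s : Fin n → ℝ => ∑ i, s i ^ 2) '' tU A x)

lemma tD_bdd {n : ℕ} {α : Type*} [DecidableEq α] (A : Finset (Fin n → α))
    (x : Fin n → α) : BddBelow ((fun s : Fin n → ℝ => ∑ i, s i ^ 2) '' tU A x) := by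
  refine ⟨0, ?_⟩
  rintro _ ⟨s, _, rfl⟩
  exact Finset.sum_nonneg fun i _ => sq_nonneg _

lemma tU_nonempty {n : ℕ} {α : Type*} [DecidableEq α] {A : Finset (Fin n → α)}
    (hA : A.Nonempty) (x : Fin n → α) : (tU A x).Nonempty := by
  obtain ⟨a, ha⟩ := hA
  refine ⟨fun _ => 1, fun y => if y = a then 1 else 0, fun y => by dsimp only; split_ifs <;> norm_num, ?_, ?_⟩
  · rw [Finset.sum_ite_eq' A a]; simp [ha]
  · intro i
    have : ∀ y ∈ A, (if y = a then (1:ℝ) else 0) * (if x i ≠ y i then 1 else 0) ≤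
        if y = a then 1 else 0 := by
      intro y _
      split_ifs <;> norm_num
    refine le_trans (Finset.sum_le_sum this) ?_
    rw [Finset.sum_ite_eq' A a]; simp [ha]

lemma tD_le {n : ℕ} {α : Type*} [DecidableEq α] {A : Finset (Fin n → α)}
    {x : Fin n → α} {s : Fin n → ℝ} (hs : s ∈ tU A x) : tD A x ≤ ∑ i, s i ^ 2 :=
  csInf_le (tD_bdd A x) ⟨s, hs, rfl⟩

lemma le_sInf_affine {S : Set ℝ} (hS : S.Nonempty) {θ a b : ℝ} (hθ : 0 ≤ θ)
    (h : ∀ s ∈ S, a ≤ θ * s + b) : a ≤ θ * sInf S + b := by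
  rcases hθ.eq_or_lt with h0 | h0
  · obtain ⟨s, hs⟩ := hS
    have := h s hs
    rw [← h0] at this ⊢
    simpa using this
  · have : (a - b) / θ ≤ sInf S := by
      apply le_csInf hS
      intro s hs
      rw [div_le_iff₀ h0]
      have := h s hs
      linarith
    rw [div_le_iff₀ h0] at this
    linarith

lemma tD_ge {n : ℕ} {α : Type*} [DecidableEq α] {A : Finset (Fin n → α)} (hA : A.Nonempty)
    {x : Fin n → α} {u : ℝ} (hu : 0 ≤ u) (c : Fin n → ℝ) (hc0 : ∀ i, 0 ≤ c i)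
    (hc : ∑ i, c i ^ 2 ≤ 1) (h : ∀ y ∈ A, u ≤ ∑ i, if x i ≠ y i then c i else 0) :
    u ^ 2 ≤ tD A x := by
  apply le_csInf ((tU_nonempty hA x).image _)
  rintro _ ⟨s, hs, rfl⟩
  have h0 := tU_nonneg hs
  obtain ⟨l, h1, h2, h3⟩ := hs
  have h4 : u ≤ ∑ i, c i * s i := by
    calc u = ∑ y ∈ A, l y * u := by rw [← Finset.sum_mul, h2, one_mul]
      _ ≤ ∑ y ∈ A, l y * ∑ i, (if x i ≠ y i then c i else 0) :=
          Finset.sum_le_sum fun y hy => mul_le_mul_of_nonneg_left (h y hy) (h1 y)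
      _ = ∑ i, c i * ∑ y ∈ A, l y * (if x i ≠ y i then 1 else 0) := by
          simp_rw [Finset.mul_sum]
          rw [Finset.sum_comm]
          refine Finset.sum_congr rfl fun i _ => Finset.sum_congr rfl fun y _ => ?_
          split_ifs <;> ring
      _ ≤ ∑ i, c i * s i := Finset.sum_le_sum fun i _ => mul_le_mul_of_nonneg_left (h3 i) (hc0 i)
  calc u ^ 2 ≤ (∑ i, c i * s i) ^ 2 := pow_le_pow_left₀ hu h4 2
    _ ≤ (∑ i, c i ^ 2) * ∑ i, s i ^ 2 := Finset.sum_mul_sq_le_sq_mul_sq _ _ _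
    _ ≤ 1 * ∑ i, s i ^ 2 := mul_le_mul_of_nonneg_right hc (Finset.sum_nonneg fun i _ => sq_nonneg _)
    _ = _ := one_mul _

/-- the section -/
def tSec {n : ℕ} {α : Type*} [DecidableEq α] [Fintype α] (A : Finset (Fin (n+1) → α)) (t : α) :
    Finset (Fin n → α) := Finset.univ.filter fun y => (Fin.cons t y : Fin (n+1) → α) ∈ A

/-- the projection -/
def tPr {n : ℕ} {α : Type*} [DecidableEq α] [Fintype α] (A : Finset (Fin (n+1) → α)) :
    Finset (Fin n → α) := Finset.univ.filter fun y => ∃ t, (Fin.cons t y : Fin (n+1) → α) ∈ A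

lemma tSum_aux {n : ℕ} {α : Type*} [DecidableEq α] {A : Finset (Fin (n+1) → α)}
    (τ : (Fin n → α) → α) (S : Finset (Fin n → α))
    (hS : ∀ y', (Fin.cons (τ y') y' : Fin (n+1) → α) ∈ A ↔ y' ∈ S)
    (l : (Fin n → α) → ℝ) (g : (Fin (n+1) → α) → ℝ) :
    ∑ y ∈ A, (if y 0 = τ (Fin.tail y) then l (Fin.tail y) else 0) * g y =
      ∑ y' ∈ S, l y' * g (Fin.cons (τ y') y') := by
  have e1 : ∑ y ∈ A, (if y 0 = τ (Fin.tail y) then l (Fin.tail y) else 0) * g y =
      ∑ y ∈ A.filter (fun y => y 0 = τ (Fin.tail y)), l (Fin.tail y) * g y := by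
    rw [Finset.sum_filter]
    refine Finset.sum_congr rfl fun y _ => ?_
    split_ifs <;> simp
  rw [e1]
  refine Finset.sum_nbij' (fun y => Fin.tail y) (fun y' => (Fin.cons (τ y') y' : Fin (n+1) → α))
    ?_ ?_ ?_ ?_ ?_
  · intro y hy
    rw [Finset.mem_filter] at hy
    rw [← hS, ← hy.2, Fin.cons_self_tail]
    exact hy.1
  · intro y' hy'
    rw [Finset.mem_filter]
    refine ⟨(hS y').2 hy', ?_⟩
    simp
  · intro y hy
    rw [Finset.mem_filter] at hy
    simp only [← hy.2, Fin.cons_self_tail]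
  · intro y' _
    simp
  · intro y hy
    rw [Finset.mem_filter] at hy
    simp only [← hy.2, Fin.cons_self_tail]

lemma tU_cons {n : ℕ} {α : Type*} [DecidableEq α] [Fintype α] {A : Finset (Fin (n+1) → α)}
    {t : α} {x' : Fin n → α} {s s' : Fin n → ℝ} {θ : ℝ} (h0 : 0 ≤ θ) (h1 : θ ≤ 1)
    (hs : θ = 0 ∨ s ∈ tU (tSec A t) x')
    (hs' : s' ∈ tU (tPr A) x')  :
    (Fin.cons (1 - θ) (fun i => θ * s i + (1 - θ) * s' i) : Fin (n+1) → ℝ) ∈
      tU A (Fin.cons t x') := by
  obtain ⟨l', a1', a2', a3'⟩ := hs'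
  obtain ⟨l, a1, a2, a3⟩ : ∃ l : (Fin n → α) → ℝ, (∀ y, 0 ≤ l y) ∧
      (θ * ∑ y ∈ tSec A t, l y = θ) ∧
      ∀ i, θ * ∑ y ∈ tSec A t, l y * (if x' i ≠ y i then 1 else 0) ≤ θ * s i := by
    rcases hs with rfl | ⟨l, a1, a2, a3⟩
    · exact ⟨fun _ => 0, fun _ => le_refl _, by simp, fun i => by simp⟩
    · exact ⟨l, a1, by rw [a2, mul_one], fun i => mul_le_mul_of_nonneg_left (a3 i) h0⟩
  classical
  set τ : (Fin n → α) → α := fun y' =>
    if h : ∃ t, (Fin.cons t y' : Fin (n+1) → α) ∈ A then h.choose else t with hτ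
  have hS1 : ∀ y', (Fin.cons ((fun _ => t) y') y' : Fin (n+1) → α) ∈ A ↔ y' ∈ tSec A t := by
    intro y'; simp [tSec]
  have hS2 : ∀ y', (Fin.cons (τ y') y' : Fin (n+1) → α) ∈ A ↔ y' ∈ tPr A := by
    intro y'
    constructor
    · intro h
      simp only [tPr, Finset.mem_filter, Finset.mem_univ, true_and]
      exact ⟨_, h⟩
    · intro h
      simp only [tPr, Finset.mem_filter, Finset.mem_univ, true_and] at h
      simp only [hτ, dif_pos h]
      exact h.choose_spec
  have key : ∀ g : (Fin (n+1) → α) → ℝ,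
      ∑ y ∈ A, (θ * (if y 0 = t then l (Fin.tail y) else 0) +
        (1 - θ) * (if y 0 = τ (Fin.tail y) then l' (Fin.tail y) else 0)) * g y =
      θ * ∑ y' ∈ tSec A t, l y' * g (Fin.cons t y') +
        (1 - θ) * ∑ y' ∈ tPr A, l' y' * g (Fin.cons (τ y') y') := by
    intro g
    rw [← tSum_aux (fun _ => t) (tSec A t) hS1 l g, ← tSum_aux τ (tPr A) hS2 l' g,
      Finset.mul_sum, Finset.mul_sum, ← Finset.sum_add_distrib]
    refine Finset.sum_congr rfl fun y _ => by ring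
  refine ⟨fun y => θ * (if y 0 = t then l (Fin.tail y) else 0) +
        (1 - θ) * (if y 0 = τ (Fin.tail y) then l' (Fin.tail y) else 0), ?_, ?_, ?_⟩
  · intro y
    have : 0 ≤ 1 - θ := by linarith
    refine add_nonneg (mul_nonneg h0 ?_) (mul_nonneg this ?_)
    · split_ifs
      · exact a1 _
      · exact le_refl _
    · split_ifs
      · exact a1' _
      · exact le_refl _
  · have := key (fun _ => 1)
    simp only [mul_one] at this
    rw [this, a2, a2']; ring
  · intro i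
    rw [key]
    refine Fin.cases ?_ (fun j => ?_) i
    · have b1 : θ * ∑ y' ∈ tSec A t, l y' * (if (Fin.cons t x' : Fin (n+1) → α) 0 ≠
          (Fin.cons t y' : Fin (n+1) → α) 0 then (1:ℝ) else 0) = 0 := by simp
      have b2 : ∑ y' ∈ tPr A, l' y' * (if (Fin.cons t x' : Fin (n+1) → α) 0 ≠
          (Fin.cons (τ y') y' : Fin (n+1) → α) 0 then (1:ℝ) else 0) ≤ 1 := by
        refine le_trans (Finset.sum_le_sum (g := l') fun y _ => ?_) a2'.le
        have := a1' y
        split_ifs <;> linarith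
      rw [b1, zero_add, Fin.cons_zero]
      have : 0 ≤ 1 - θ := by linarith
      calc _ ≤ (1 - θ) * 1 := mul_le_mul_of_nonneg_left b2 this
        _ = _ := mul_one _
    · simp only [Fin.cons_succ]
      have : 0 ≤ 1 - θ := by linarith
      exact add_le_add (a3 j) (mul_le_mul_of_nonneg_left (a3' j) this)

lemma tSec_sub {n : ℕ} {α : Type*} [DecidableEq α] [Fintype α] (A : Finset (Fin (n+1) → α))
    (t : α) : tSec A t ⊆ tPr A := by
  intro y hy
  simp only [tPr, tSec, Finset.mem_filter, Finset.mem_univ, true_and] at hy ⊢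
  exact ⟨t, hy⟩

lemma tPr_nonempty {n : ℕ} {α : Type*} [DecidableEq α] [Fintype α] {A : Finset (Fin (n+1) → α)}
    (hA : A.Nonempty) : (tPr A).Nonempty := by
  obtain ⟨a, ha⟩ := hA
  refine ⟨Fin.tail a, ?_⟩
  simp only [tPr, Finset.mem_filter, Finset.mem_univ, true_and]
  exact ⟨a 0, by rw [Fin.cons_self_tail]; exact ha⟩

lemma tD_cons {n : ℕ} {α : Type*} [DecidableEq α] [Fintype α] {A : Finset (Fin (n+1) → α)}
    {t : α} (hA : A.Nonempty) (x' : Fin n → α) {θ : ℝ} (h0 : 0 ≤ θ) (h1 : θ ≤ 1)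
    (ht : θ = 0 ∨ (tSec A t).Nonempty) :
    tD A (Fin.cons t x' : Fin (n+1) → α) ≤
      (1 - θ) ^ 2 + θ * tD (tSec A t) x' + (1 - θ) * tD (tPr A) x' := by
  have h2 : 0 ≤ 1 - θ := by linarith
  have main : ∀ s s' : Fin n → ℝ, (θ = 0 ∨ s ∈ tU (tSec A t) x') → s' ∈ tU (tPr A) x' →
      tD A (Fin.cons t x' : Fin (n+1) → α) ≤
        (1 - θ) ^ 2 + θ * (∑ i, s i ^ 2) + (1 - θ) * ∑ i, s' i ^ 2 := by
    intro s s' hs hs'
    refine (tD_le (tU_cons h0 h1 hs hs')).trans ?_
    rw [Fin.sum_univ_succ]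
    simp only [Fin.cons_zero, Fin.cons_succ]
    have : ∑ i, (θ * s i + (1 - θ) * s' i) ^ 2 ≤
        ∑ i, (θ * s i ^ 2 + (1 - θ) * s' i ^ 2) := by
      refine Finset.sum_le_sum fun i _ => ?_
      nlinarith [mul_nonneg (mul_nonneg h0 h2) (sq_nonneg (s i - s' i))]
    rw [Finset.sum_add_distrib, ← Finset.mul_sum, ← Finset.mul_sum] at this
    linarith
  have m2 : ∀ s : Fin n → ℝ, (θ = 0 ∨ s ∈ tU (tSec A t) x') →
      tD A (Fin.cons t x' : Fin (n+1) → α) ≤
        (1 - θ) ^ 2 + θ * (∑ i, s i ^ 2) + (1 - θ) * tD (tPr A) x' := by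
    intro s hs
    have := le_sInf_affine ((tU_nonempty (tPr_nonempty hA) x').image
      (fun s : Fin n → ℝ => ∑ i, s i ^ 2)) (θ := 1 - θ)
      (a := tD A (Fin.cons t x' : Fin (n+1) → α)) (b := (1 - θ) ^ 2 + θ * (∑ i, s i ^ 2)) h2 ?_
    · unfold tD at this ⊢; linarith
    · rintro _ ⟨s', hs', rfl⟩
      have := main s s' hs hs'
      dsimp only; linarith
  rcases ht with rfl | ht
  · have := m2 (fun _ => 0) (Or.inl rfl)
    simpa using this
  · have := le_sInf_affine ((tU_nonempty ht x').image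
      (fun s : Fin n → ℝ => ∑ i, s i ^ 2)) (θ := θ)
      (a := tD A (Fin.cons t x' : Fin (n+1) → α)) (b := (1 - θ) ^ 2 + (1 - θ) * tD (tPr A) x') h0 ?_
    · unfold tD at this ⊢; linarith
    · rintro _ ⟨s, hs, rfl⟩
      have := m2 s (Or.inr hs)
      dsimp only; linarith

/-- product weight -/
noncomputable def tW {n : ℕ} {α : Type*} (p : Fin n → α → ℝ) (x : Fin n → α) : ℝ :=
  ∏ i, p i (x i)

lemma tW_nonneg {n : ℕ} {α : Type*} {p : Fin n → α → ℝ} (hp : ∀ i a, 0 ≤ p i a)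
    (x : Fin n → α) : 0 ≤ tW p x := Finset.prod_nonneg fun i _ => hp i _

lemma tW_cons {n : ℕ} {α : Type*} (p : Fin (n+1) → α → ℝ) (t : α) (x : Fin n → α) :
    tW p (Fin.cons t x : Fin (n+1) → α) = p 0 t * tW (fun i => p i.succ) x := by
  unfold tW
  rw [Fin.prod_univ_succ]
  simp

lemma tSum_cons {n : ℕ} {α : Type*} [Fintype α] (f : (Fin (n+1) → α) → ℝ) :
    ∑ x, f x = ∑ t : α, ∑ x' : Fin n → α, f (Fin.cons t x') := by
  rw [← (Fin.consEquiv (fun _ : Fin (n+1) => α)).sum_comp, Fintype.sum_prod_type]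
  rfl

lemma tHolder {ι : Type*} (S : Finset ι) (w f g : ι → ℝ) (hw : ∀ x ∈ S, 0 ≤ w x)
    {X Y θ : ℝ} (hX : 0 < X) (hY : 0 < Y) (h0 : 0 ≤ θ) (h1 : θ ≤ 1)
    (hf : ∑ x ∈ S, w x * Real.exp (f x) ≤ X) (hg : ∑ x ∈ S, w x * Real.exp (g x) ≤ Y) :
    ∑ x ∈ S, w x * Real.exp (θ * f x + (1 - θ) * g x) ≤ X ^ θ * Y ^ (1 - θ) := by
  have h2 : 0 ≤ 1 - θ := by linarith
  have hXY : 0 < X ^ θ * Y ^ (1 - θ) := by positivity
  have key : ∀ x ∈ S, w x * Real.exp (θ * f x + (1 - θ) * g x) ≤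
      X ^ θ * Y ^ (1 - θ) * (θ / X * (w x * Real.exp (f x)) + (1 - θ) / Y * (w x * Real.exp (g x))) := by
    intro x hx
    have h3 := Real.geom_mean_le_arith_mean2_weighted h0 h2
      (div_nonneg (Real.exp_nonneg (f x)) hX.le) (div_nonneg (Real.exp_nonneg (g x)) hY.le)
      (by ring)
    rw [Real.div_rpow (Real.exp_nonneg _) hX.le, Real.div_rpow (Real.exp_nonneg _) hY.le,
      ← Real.exp_mul, ← Real.exp_mul, div_mul_div_comm, ← Real.exp_add, div_le_iff₀ hXY] at h3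
    calc w x * Real.exp (θ * f x + (1 - θ) * g x)
        = w x * Real.exp (f x * θ + g x * (1 - θ)) := by ring_nf
      _ ≤ w x * ((θ * (Real.exp (f x) / X) + (1 - θ) * (Real.exp (g x) / Y)) *
            (X ^ θ * Y ^ (1 - θ))) := mul_le_mul_of_nonneg_left h3 (hw x hx)
      _ = _ := by ring
  calc _ ≤ _ := Finset.sum_le_sum key
    _ = X ^ θ * Y ^ (1 - θ) * (θ / X * (∑ x ∈ S, w x * Real.exp (f x)) +
          (1 - θ) / Y * (∑ x ∈ S, w x * Real.exp (g x))) := by
        rw [← Finset.mul_sum, Finset.sum_add_distrib, ← Finset.mul_sum, ← Finset.mul_sum]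
    _ ≤ X ^ θ * Y ^ (1 - θ) * (θ / X * X + (1 - θ) / Y * Y) := by
        refine mul_le_mul_of_nonneg_left (add_le_add ?_ ?_) hXY.le
        · exact mul_le_mul_of_nonneg_left hf (by positivity)
        · exact mul_le_mul_of_nonneg_left hg (by positivity)
    _ = _ := by
        field_simp
        ring

lemma tClaim {α : Type*} [DecidableEq α] [Fintype α] (n : ℕ) : ∀ (p : Fin n → α → ℝ),
    (∀ i a, 0 ≤ p i a) → (∀ i, ∑ a, p i a = 1) → ∀ A : Finset (Fin n → α), A.Nonempty →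
    0 < ∑ x ∈ A, tW p x → ∑ x, tW p x * Real.exp (tD A x / 4) ≤ 1 / ∑ x ∈ A, tW p x := by
  induction n with
  | zero =>
    intro p hp hs A hA hpos
    have hD : ∀ x : Fin 0 → α, tD A x = 0 := by
      intro x
      apply le_antisymm
      · obtain ⟨s, hs⟩ := tU_nonempty hA x
        refine (tD_le hs).trans ?_
        simp
      · apply le_csInf ((tU_nonempty hA x).image _)
        rintro _ ⟨s, hs, rfl⟩
        exact Finset.sum_nonneg fun i _ => sq_nonneg _
    have hAu : A = Finset.univ := by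
      ext x
      obtain ⟨a, ha⟩ := hA
      have : x = a := Subsingleton.elim _ _
      exact ⟨fun _ => Finset.mem_univ _, fun _ => this ▸ ha⟩
    have h1 : ∀ x : Fin 0 → α, tW p x * Real.exp (tD A x / 4) = 1 := by
      intro x; rw [hD x]; simp [tW]
    have h2 : ∀ x : Fin 0 → α, tW p x = 1 := by
      intro x; simp [tW]
    rw [Finset.sum_congr rfl fun x _ => h1 x, Finset.sum_congr rfl fun x _ => h2 x, hAu]
    simp
  | succ n ih =>
    intro p hp hs A hA hpos
    set q : Fin n → α → ℝ := fun i => p i.succ with hq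
    have hq0 : ∀ i a, 0 ≤ q i a := fun i a => hp _ _
    have hq1 : ∀ i, ∑ a, q i a = 1 := fun i => hs _
    set P : ℝ := ∑ x ∈ A, tW p x with hP
    set P' : ℝ := ∑ x ∈ tPr A, tW q x with hP'
    have hPt : P = ∑ t : α, p 0 t * ∑ x ∈ tSec A t, tW q x := by
      have : P = ∑ x, if x ∈ A then tW p x else 0 := by
        rw [hP, ← Finset.sum_filter]
        congr 1
        ext x; simp
      rw [this, tSum_cons]
      refine Finset.sum_congr rfl fun t _ => ?_
      rw [Finset.mul_sum, tSec, Finset.sum_filter]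
      refine Finset.sum_congr rfl fun x _ => ?_
      rw [tW_cons]
    have hle : ∀ t, ∑ x ∈ tSec A t, tW q x ≤ P' := fun t =>
      Finset.sum_le_sum_of_subset_of_nonneg (tSec_sub A t) fun x _ _ => tW_nonneg hq0 x
    have hPP' : P ≤ P' := by
      rw [hPt]
      calc _ ≤ ∑ t : α, p 0 t * P' := Finset.sum_le_sum fun t _ =>
            mul_le_mul_of_nonneg_left (hle t) (hp 0 t)
        _ = P' := by rw [← Finset.sum_mul, hs 0, one_mul]
    have hP'0 : 0 < P' := lt_of_lt_of_le hpos hPP'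
    have ih' := ih q hq0 hq1 (tPr A) (tPr_nonempty hA) hP'0
    have step : ∀ t, ∑ x', tW q x' * Real.exp (tD A (Fin.cons t x' : Fin (n+1) → α) / 4) ≤
        (2 - (∑ x ∈ tSec A t, tW q x) / P') / P' := by
      intro t
      set Pt : ℝ := ∑ x ∈ tSec A t, tW q x with hPtdef
      have hPt0 : 0 ≤ Pt := Finset.sum_nonneg fun x _ => tW_nonneg hq0 x
      rcases hPt0.eq_or_lt with h | h
      · rw [← h, zero_div, sub_zero]
        have b1 : ∀ x' : Fin n → α, tW q x' * Real.exp (tD A (Fin.cons t x' : Fin (n+1) → α) / 4) ≤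
            Real.exp (1/4) * (tW q x' * Real.exp (tD (tPr A) x' / 4)) := by
          intro x'
          have := tD_cons (t := t) hA x' (le_refl (0:ℝ)) zero_le_one (Or.inl rfl)
          have b2 : Real.exp (tD A (Fin.cons t x' : Fin (n+1) → α) / 4) ≤
              Real.exp (1/4) * Real.exp (tD (tPr A) x' / 4) := by
            rw [← Real.exp_add]
            apply Real.exp_le_exp.2
            linarith
          calc _ ≤ tW q x' * (Real.exp (1/4) * Real.exp (tD (tPr A) x' / 4)) :=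
                mul_le_mul_of_nonneg_left b2 (tW_nonneg hq0 x')
            _ = _ := by ring
        have b3 : Real.exp (1/4) ≤ 2 := by
          have b1 := Real.exp_bound' (by norm_num : (0:ℝ) ≤ 1/4) (by norm_num) (n := 4) (by norm_num)
          simp only [Finset.sum_range_succ, Finset.sum_range_zero, Nat.factorial] at b1
          norm_num at b1
          linarith
        calc _ ≤ _ := Finset.sum_le_sum fun x' _ => b1 x'
          _ = Real.exp (1/4) * ∑ x', tW q x' * Real.exp (tD (tPr A) x' / 4) := by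
              rw [← Finset.mul_sum]
          _ ≤ Real.exp (1/4) * (1 / P') := mul_le_mul_of_nonneg_left ih' (Real.exp_nonneg _)
          _ ≤ 2 * (1 / P') := mul_le_mul_of_nonneg_right b3 (by positivity)
          _ = _ := by ring
      · have hne : (tSec A t).Nonempty := by
          by_contra hc
          rw [Finset.not_nonempty_iff_eq_empty] at hc
          rw [hPtdef, hc] at h
          simp at h
        have iht := ih q hq0 hq1 (tSec A t) hne h
        obtain ⟨θ, h0, h1, hθ⟩ := talagrand_key_ineq (r := Pt / P') (by positivity)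
          ((div_le_one hP'0).2 (hle t))
        have b1 : ∀ x' : Fin n → α, tW q x' * Real.exp (tD A (Fin.cons t x' : Fin (n+1) → α) / 4) ≤
            Real.exp ((1 - θ)^2/4) * (tW q x' * Real.exp (θ * (tD (tSec A t) x' / 4) +
              (1 - θ) * (tD (tPr A) x' / 4))) := by
          intro x'
          have := tD_cons (t := t) hA x' h0 h1 (Or.inr hne)
          have b2 : Real.exp (tD A (Fin.cons t x' : Fin (n+1) → α) / 4) ≤
              Real.exp ((1 - θ)^2/4) * Real.exp (θ * (tD (tSec A t) x' / 4) +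
              (1 - θ) * (tD (tPr A) x' / 4)) := by
            rw [← Real.exp_add]
            apply Real.exp_le_exp.2
            linarith
          calc _ ≤ tW q x' * (Real.exp ((1 - θ)^2/4) * Real.exp (θ * (tD (tSec A t) x' / 4) +
              (1 - θ) * (tD (tPr A) x' / 4))) :=
                mul_le_mul_of_nonneg_left b2 (tW_nonneg hq0 x')
            _ = _ := by ring
        have b4 := tHolder Finset.univ (tW q) (fun x' => tD (tSec A t) x' / 4)
          (fun x' => tD (tPr A) x' / 4) (fun x _ => tW_nonneg hq0 x)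
          (X := 1 / Pt) (Y := 1 / P') (by positivity) (by positivity) h0 h1 iht ih'
        calc _ ≤ _ := Finset.sum_le_sum fun x' _ => b1 x'
          _ = Real.exp ((1 - θ)^2/4) * ∑ x', tW q x' * Real.exp (θ * (tD (tSec A t) x' / 4) +
              (1 - θ) * (tD (tPr A) x' / 4)) := by rw [← Finset.mul_sum]
          _ ≤ Real.exp ((1 - θ)^2/4) * ((1 / Pt) ^ θ * (1 / P') ^ (1 - θ)) :=
              mul_le_mul_of_nonneg_left b4 (Real.exp_nonneg _)
          _ = (Real.exp ((1 - θ) ^ 2 / 4) * (Pt / P') ^ (-θ)) / P' := by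
              have e1 : (1 / Pt) ^ θ * (1 / P') ^ (1 - θ) = (Pt / P') ^ (-θ) / P' := by
                rw [Real.rpow_sub (by positivity), Real.rpow_one, Real.rpow_neg (by positivity),
                  Real.div_rpow h.le hP'0.le, Real.div_rpow zero_le_one h.le,
                  Real.div_rpow zero_le_one hP'0.le, Real.one_rpow]
                have c1 : Pt ^ θ ≠ 0 := (Real.rpow_pos_of_pos h _).ne'
                have c2 : P' ^ θ ≠ 0 := (Real.rpow_pos_of_pos hP'0 _).ne'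
                field_simp
              rw [e1]; ring
          _ ≤ _ := div_le_div_of_nonneg_right hθ hP'0.le
    rw [tSum_cons]
    have b5 : ∑ t : α, ∑ x' : Fin n → α, tW p (Fin.cons t x' : Fin (n+1) → α) *
        Real.exp (tD A (Fin.cons t x' : Fin (n+1) → α) / 4) ≤
        ∑ t : α, p 0 t * ((2 - (∑ x ∈ tSec A t, tW q x) / P') / P') := by
      refine Finset.sum_le_sum fun t _ => ?_
      calc _ = p 0 t * ∑ x', tW q x' * Real.exp (tD A (Fin.cons t x' : Fin (n+1) → α) / 4) := by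
            rw [Finset.mul_sum]
            refine Finset.sum_congr rfl fun x' _ => ?_
            rw [tW_cons]; ring
        _ ≤ _ := mul_le_mul_of_nonneg_left (step t) (hp 0 t)
    refine b5.trans ?_
    have b6 : ∑ t : α, p 0 t * ((2 - (∑ x ∈ tSec A t, tW q x) / P') / P') =
        (2 - P / P') / P' := by
      have : ∀ t, p 0 t * ((2 - (∑ x ∈ tSec A t, tW q x) / P') / P') =
          p 0 t * (2 / P') - (p 0 t * ∑ x ∈ tSec A t, tW q x) * (1 / (P' * P')) := by
        intro t; field_simp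
      rw [Finset.sum_congr rfl fun t _ => this t, Finset.sum_sub_distrib, ← Finset.sum_mul,
        ← Finset.sum_mul, hs 0, ← hPt]
      field_simp
    rw [b6, div_le_div_iff₀ hP'0 hpos, one_mul]
    have : (2 - P / P') * P = P' - (P' - P) ^ 2 / P' := by
      field_simp
      ring
    rw [this]
    have : 0 ≤ (P' - P) ^ 2 / P' := by positivity
    linarith

lemma talagrand_fin {n : ℕ} {α : Type*} [Fintype α] [DecidableEq α]
    (p : Fin n → α → ℝ) (hp : ∀ i a, 0 ≤ p i a) (hs : ∀ i, ∑ a, p i a = 1)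
    (A B : Finset (Fin n → α)) {u : ℝ} (hu : 0 ≤ u)
    (hB : ∀ x ∈ B, ∃ c : Fin n → ℝ, (∀ i, 0 ≤ c i) ∧ ∑ i, c i ^ 2 ≤ 1 ∧
      ∀ y ∈ A, u ≤ ∑ i, if x i ≠ y i then c i else 0) :
    (∑ x ∈ A, ∏ i, p i (x i)) * (∑ x ∈ B, ∏ i, p i (x i)) ≤ Real.exp (-(u ^ 2 / 4)) := by
  change (∑ x ∈ A, tW p x) * (∑ x ∈ B, tW p x) ≤ _
  have hA0 : 0 ≤ ∑ x ∈ A, tW p x := Finset.sum_nonneg fun x _ => tW_nonneg hp x
  rcases hA0.eq_or_lt with h | h
  · rw [← h, zero_mul]; exact Real.exp_nonneg _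
  · have hne : A.Nonempty := by
      by_contra hc
      rw [Finset.not_nonempty_iff_eq_empty] at hc
      rw [hc] at h
      simp at h
    have h1 := tClaim n p hp hs A hne h
    have h2 : Real.exp (u ^ 2 / 4) * ∑ x ∈ B, tW p x ≤ ∑ x, tW p x * Real.exp (tD A x / 4) := by
      rw [Finset.mul_sum]
      calc _ ≤ ∑ x ∈ B, tW p x * Real.exp (tD A x / 4) := by
            refine Finset.sum_le_sum fun x hx => ?_
            obtain ⟨c, c1, c2, c3⟩ := hB x hx
            have := tD_ge hne hu c c1 c2 c3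
            rw [mul_comm]
            refine mul_le_mul_of_nonneg_left (Real.exp_le_exp.2 ?_) (tW_nonneg hp x)
            linarith
        _ ≤ _ := Finset.sum_le_sum_of_subset_of_nonneg (Finset.subset_univ _) fun x _ _ =>
            mul_nonneg (tW_nonneg hp x) (Real.exp_nonneg _)
    have h3 := h2.trans h1
    rw [le_div_iff₀ h] at h3
    rw [Real.exp_neg, ← one_div, le_div_iff₀ (Real.exp_pos _)]
    nlinarith

theorem talagrand {ι α : Type*} [Fintype ι] [DecidableEq ι] [Fintype α] [DecidableEq α]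
    (p : ι → α → ℝ) (hp : ∀ i a, 0 ≤ p i a) (hs : ∀ i, ∑ a, p i a = 1)
    (A B : Finset (ι → α)) {u : ℝ} (hu : 0 ≤ u)
    (hB : ∀ x ∈ B, ∃ c : ι → ℝ, (∀ i, 0 ≤ c i) ∧ ∑ i, c i ^ 2 ≤ 1 ∧
      ∀ y ∈ A, u ≤ ∑ i, if x i ≠ y i then c i else 0) :
    (∑ x ∈ A, ∏ i, p i (x i)) * (∑ x ∈ B, ∏ i, p i (x i)) ≤ Real.exp (-(u ^ 2 / 4)) := by
  let e := Fintype.equivFin ι
  let F : (ι → α) ≃ (Fin (Fintype.card ι) → α) := e.arrowCongr (Equiv.refl α)
  have hF : ∀ x j, F x j = x (e.symm j) := fun x j => rfl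
  have hsum : ∀ A : Finset (ι → α), ∑ x ∈ A, ∏ i, p i (x i) =
      ∑ x ∈ A.map F.toEmbedding, ∏ j, p (e.symm j) (x j) := by
    intro A
    rw [Finset.sum_map]
    refine Finset.sum_congr rfl fun x _ => ?_
    rw [← e.symm.prod_comp]
    rfl
  rw [hsum A, hsum B]
  refine talagrand_fin (fun j => p (e.symm j)) (fun j a => hp _ _) (fun j => hs _) _ _ hu ?_
  intro x hx
  rw [Finset.mem_map] at hx
  obtain ⟨x, hx, rfl⟩ := hx
  obtain ⟨c, c1, c2, c3⟩ := hB x hx
  refine ⟨fun j => c (e.symm j), fun j => c1 _, ?_, ?_⟩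
  · rw [e.symm.sum_comp (fun i => c i ^ 2)]; exact c2
  · intro y hy
    rw [Finset.mem_map] at hy
    obtain ⟨y, hy, rfl⟩ := hy
    refine (c3 y hy).trans (le_of_eq ?_)
    rw [← e.symm.sum_comp]
    rfl

end BGE
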