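import Pool.Agent.BGE.ExitAlg
import Pool.Agent.BGE.MgfS
import Pool.Agent.BGE.Base2

/-!
BGE / C7, C8, C9. One-point tails of the last passage time `T ω (1,1) (m,n)` (law `PI (ℤ × ℤ)`).
Notation as in `ExitLoc`: `s = √m + √n`, `al`, `Ph`.

`upper_tail`: `P(T ≥ s² + z) ≤ exp (-θ z + θ³ Ph)` for `0 < θ ≤ al/2`, and also for
`0 < θ ≤ (1 - al)/2`.
Proof. First case: `mgfS` with `w = 0`, `a = al`, threshold `s² + z`, using only the exit `k = 1`
(`T ω (1,1) (m,n) ≤ S_1/a + T ω (1,1) (m,n)`, the weights are a.s. nonnegative). The exponent is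
`n log (1 + θ/(1-al)) - m log (1 - θ/al) - θ (s² + z) ≤ -θ z + θ³ (m/al³ + n/(1-al)³) = -θ z + θ³ Ph`,
because the terms of first order give `ff al = s²` and those of second order
`(θ²/2) (m/al² - n/(1-al)²) = 0`. Second case: exchange the coordinates.

-/

namespace BGE

open MeasureTheory ProbabilityTheory

theorem ut_E1 : ∀ᵐ x ∂E1, 0 ≤ x := by
  rw [ae_iff]
  have h3 : {x : ℝ | ¬ 0 ≤ x} = Set.Iio 0 := by
    ext x
    simp
  rw [h3]
  unfold E1 expMeasure gammaMeasure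
  rw [withDensity_apply _ measurableSet_Iio]
  exact lintegral_gammaPDF_of_nonpos le_rfl

/-- `log (1 + x) ≤ x - x²/2 + x³/3` -/
theorem ut_log_add {x : ℝ} (hx : 0 ≤ x) : Real.log (1 + x) ≤ x - x ^ 2 / 2 + x ^ 3 / 3 := by
  set f : ℝ → ℝ := fun x => x - x ^ 2 / 2 + x ^ 3 / 3 - Real.log (1 + x) with hf
  have hmono : MonotoneOn f (Set.Ici 0) := by
    apply monotoneOn_of_deriv_nonneg (convex_Ici 0)
    · refine ContinuousOn.sub (by fun_prop) ?_
      refine ContinuousOn.log (by fun_prop) ?_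
      intro y hy
      have : (0 : ℝ) ≤ y := hy
      linarith
    · intro y hy
      rw [interior_Ici] at hy
      have hy' : (0 : ℝ) < y := hy
      refine DifferentiableAt.differentiableWithinAt ?_
      refine DifferentiableAt.sub (by fun_prop) ?_
      exact DifferentiableAt.log (by fun_prop) (by linarith)
    · intro y hy
      rw [interior_Ici] at hy
      have hy' : (0 : ℝ) < y := hy
      have hd : HasDerivAt f (1 - y + y ^ 2 - 1 / (1 + y)) y := by
        have h1 : HasDerivAt (fun x : ℝ => x - x ^ 2 / 2 + x ^ 3 / 3) (1 - y + y ^ 2) y := by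
          have := ((hasDerivAt_id y).sub ((hasDerivAt_pow 2 y).div_const 2)).add
            ((hasDerivAt_pow 3 y).div_const 3)
          refine this.congr_deriv ?_
          norm_num
        have h2 : HasDerivAt (fun x : ℝ => Real.log (1 + x)) (1 / (1 + y)) y := by
          have := ((hasDerivAt_id y).const_add 1).log (by simp; linarith)
          simpa using this
        exact h1.sub h2
      rw [hd.deriv]
      have : 1 - y + y ^ 2 - 1 / (1 + y) = y ^ 3 / (1 + y) := by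
        field_simp
        ring
      rw [this]
      positivity
  have h := hmono (Set.mem_Ici.2 le_rfl) (Set.mem_Ici.2 hx) hx
  simp only [hf] at h
  norm_num at h
  linarith

/-- `- log (1 - y) ≤ y + y²/2 + y³` for `0 ≤ y ≤ 1/2` -/
theorem ut_log_sub {y : ℝ} (h0 : 0 ≤ y) (h1 : y ≤ 1 / 2) :
    -Real.log (1 - y) ≤ y + y ^ 2 / 2 + y ^ 3 := by
  set f : ℝ → ℝ := fun x => x + x ^ 2 / 2 + x ^ 3 + Real.log (1 - x) with hf
  have hmono : MonotoneOn f (Set.Icc 0 (1 / 2)) := by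
    apply monotoneOn_of_deriv_nonneg (convex_Icc 0 (1 / 2))
    · refine ContinuousOn.add (by fun_prop) ?_
      refine ContinuousOn.log (by fun_prop) ?_
      intro y hy
      have := hy.2
      linarith
    · intro y hy
      rw [interior_Icc] at hy
      refine DifferentiableAt.differentiableWithinAt ?_
      refine DifferentiableAt.add (by fun_prop) ?_
      exact DifferentiableAt.log (by fun_prop) (by linarith [hy.2])
    · intro y hy
      rw [interior_Icc] at hy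
      obtain ⟨hy1, hy2⟩ := hy
      have hd : HasDerivAt f (1 + y + 3 * y ^ 2 - 1 / (1 - y)) y := by
        have h1 : HasDerivAt (fun x : ℝ => x + x ^ 2 / 2 + x ^ 3) (1 + y + 3 * y ^ 2) y := by
          have := ((hasDerivAt_id y).add ((hasDerivAt_pow 2 y).div_const 2)).add
            (hasDerivAt_pow 3 y)
          refine this.congr_deriv ?_
          norm_num
        have h2 : HasDerivAt (fun x : ℝ => Real.log (1 - x)) (-(1 / (1 - y))) y := by
          have := ((hasDerivAt_id y).const_sub 1).log (by simp; linarith)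
          refine this.congr_deriv ?_
          simp
          field_simp
        exact h1.add h2
      rw [hd.deriv]
      have h1y : 0 < 1 - y := by linarith
      have : 1 + y + 3 * y ^ 2 - 1 / (1 - y) = y ^ 2 * (2 - 3 * y) / (1 - y) := by
        field_simp
        ring
      rw [this]
      have : 0 < 2 - 3 * y := by linarith
      positivity
  have h := hmono ⟨le_rfl, by norm_num⟩ ⟨h0, h1⟩ h0
  simp only [hf] at h
  norm_num at h
  linarith

theorem ut_first {m n : ℕ} (hm : 1 ≤ m) (hn : 1 ≤ n) {θ z : ℝ} (hθ : 0 < θ)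
    (h1 : θ ≤ al m n / 2) :
    (PI (ℤ × ℤ)).real {ω | (√m + √n) ^ 2 + z ≤ T ω (1, 1) ((m : ℤ), (n : ℤ))} ≤
      Real.exp (-(θ * z) + θ ^ 3 * Ph m n) := by
  have hm0 : (0 : ℝ) < m := by exact_mod_cast hm
  have hn0 : (0 : ℝ) < n := by exact_mod_cast hn
  have ha0 := al_pos hm0 hn0
  have ha1 := al_lt_one hm0 hn0
  set a := al m n with ha
  have key := mgfS (a := a) (θ := θ) hθ (by linarith) ha1 m n 0 (by omega) hn
    ((√m + √n) ^ 2 + z)
  have hsub : (PI (ℤ × ℤ)).real {ω | (√m + √n) ^ 2 + z ≤ T ω (1, 1) ((m : ℤ), (n : ℤ))} ≤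
      muSW.real {x : SW | ∃ k : ℕ, 0 < k ∧ k ≤ m ∧ (√m + √n) ^ 2 + z ≤
        (∑ i ∈ Finset.Ioc 0 k, x.2.1 i / a) + T x.1 ((k : ℤ), 1) ((m : ℤ), (n : ℤ))} := by
    have e1 : (PI (ℤ × ℤ)).real {ω | (√m + √n) ^ 2 + z ≤ T ω (1, 1) ((m : ℤ), (n : ℤ))} =
        muSW.real ({ω | (√m + √n) ^ 2 + z ≤ T ω (1, 1) ((m : ℤ), (n : ℤ))} ×ˢ Set.univ) := by
      unfold muSW
      rw [measureReal_prod_prod]
      simp
    rw [e1]
    refine ENNReal.toReal_mono (measure_ne_top _ _) (measure_mono_ae ?_)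
    have hS : ∀ᵐ x ∂muSW, 0 ≤ x.2.1 1 := by
      have h2 : ∀ᵐ x ∂(PI ℕ), 0 ≤ x 1 :=
        (measurePreserving_eval_infinitePi (fun _ : ℕ => E1) 1).quasiMeasurePreserving.ae ut_E1
      have h3 : ∀ᵐ x ∂((PI ℕ).prod (PI ℕ)), 0 ≤ x.1 1 :=
        Measure.quasiMeasurePreserving_fst.ae h2
      exact Measure.quasiMeasurePreserving_snd.ae h3
    filter_upwards [hS] with x hx hx2
    refine ⟨1, by norm_num, hm, ?_⟩
    have h4 : (√m + √n) ^ 2 + z ≤ T x.1 (1, 1) ((m : ℤ), (n : ℤ)) := hx2.1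
    have h5 : (0 : ℝ) ≤ x.2.1 1 / a := by positivity
    have h6 : Finset.Ioc 0 1 = {1} := rfl
    rw [h6, Finset.sum_singleton]
    push_cast
    linarith
  refine hsub.trans (key.trans ?_)
  rw [Nat.sub_zero]
  have hx0 : 0 < 1 - a := by linarith
  have hy0 : 0 < a - θ := by linarith
  have e1 : (1 - a + θ) / (1 - a) = 1 + θ / (1 - a) := by field_simp
  have e2 : a / (a - θ) = (1 - θ / a)⁻¹ := by
    rw [one_sub_div ha0.ne', inv_div]
  have hy1 : θ / a ≤ 1 / 2 := by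
    rw [div_le_iff₀ ha0]
    linarith
  have p1 : 0 < 1 + θ / (1 - a) := by positivity
  have p2 : 0 < 1 - θ / a := by linarith
  rw [e1, e2, inv_pow]
  have l1 : (1 + θ / (1 - a)) ^ n = Real.exp (n * Real.log (1 + θ / (1 - a))) := by
    rw [mul_comm, ← Real.rpow_def_of_pos p1, Real.rpow_natCast]
  have l2 : ((1 - θ / a) ^ m)⁻¹ = Real.exp (m * (-Real.log (1 - θ / a))) := by
    rw [mul_neg, Real.exp_neg, mul_comm, ← Real.rpow_def_of_pos p2, Real.rpow_natCast]
  rw [l1, l2, ← Real.exp_add, ← Real.exp_add]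
  apply Real.exp_le_exp.2
  have b1 := mul_le_mul_of_nonneg_left (ut_log_add (x := θ / (1 - a)) (by positivity)) hn0.le
  have b2 := mul_le_mul_of_nonneg_left (ut_log_sub (y := θ / a) (by positivity) hy1) hm0.le
  have q1 : (m : ℝ) / a + n / (1 - a) = (√m + √n) ^ 2 := by
    have := ff_eq hm0 hn0 ha0 ha1
    unfold ff at this
    rw [this, ha]
    simp
  have q2 : (m : ℝ) / a ^ 2 - n / (1 - a) ^ 2 = 0 := by
    rw [dff_eq hm0 hn0 ha0 ha1, ← ha]
    simp
  have q3 : (m : ℝ) / a ^ 3 + n / (1 - a) ^ 3 = Ph m n := Ph_eq' hm0 hn0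
  have c1 : (n : ℝ) * (θ / (1 - a) - (θ / (1 - a)) ^ 2 / 2 + (θ / (1 - a)) ^ 3 / 3) =
      θ * (n / (1 - a)) - θ ^ 2 / 2 * (n / (1 - a) ^ 2) + θ ^ 3 / 3 * (n / (1 - a) ^ 3) := by
    rw [div_pow, div_pow]
    ring
  have c2 : (m : ℝ) * (θ / a + (θ / a) ^ 2 / 2 + (θ / a) ^ 3) =
      θ * (m / a) + θ ^ 2 / 2 * (m / a ^ 2) + θ ^ 3 * (m / a ^ 3) := by
    rw [div_pow, div_pow]
    ring
  have c3 : 0 ≤ θ ^ 3 * (n / (1 - a) ^ 3) := by positivity
  have c4 : θ ^ 3 * Ph m n = θ ^ 3 * (m / a ^ 3) + θ ^ 3 * (n / (1 - a) ^ 3) := by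
    rw [← q3]
    ring
  have c5 : θ ^ 2 / 2 * ((m : ℝ) / a ^ 2 - n / (1 - a) ^ 2) = 0 := by rw [q2, mul_zero]
  rw [c1] at b1
  rw [c2] at b2
  rw [c4, ← q1]
  nlinarith

theorem upper_tail {m n : ℕ} (hm : 1 ≤ m) (hn : 1 ≤ n) {θ z : ℝ} (hθ : 0 < θ)
    (h1 : θ ≤ al m n / 2 ∨ θ ≤ (1 - al m n) / 2) :
    (PI (ℤ × ℤ)).real {ω | (√m + √n) ^ 2 + z ≤ T ω (1, 1) ((m : ℤ), (n : ℤ))} ≤
      Real.exp (-(θ * z) + θ ^ 3 * Ph m n) := by
  have hm0 : (0 : ℝ) < m := by exact_mod_cast hm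
  have hn0 : (0 : ℝ) < n := by exact_mod_cast hn
  rcases h1 with h1 | h1
  · exact ut_first hm hn hθ h1
  · have h2 := ut_first (m := n) (n := m) hn hm (θ := θ) (z := z) hθ (by rw [al_swap hm0 hn0]; exact h1)
    rw [Ph_swap, add_comm (√(n : ℝ))] at h2
    refine le_trans (le_of_eq ?_) h2
    have hre : (PI (ℤ × ℤ)).map (fun (x : ℤ × ℤ → ℝ) (k : ℤ × ℤ) => x k.swap) = PI (ℤ × ℤ) :=
      infinitePi_reindex (fun _ : ℤ × ℤ => E1) Prod.swap Prod.swap_injective
    have hmeas : MeasurableSet {ω : ℤ × ℤ → ℝ |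
        (√m + √n) ^ 2 + z ≤ T ω (1, 1) ((n : ℤ), (m : ℤ))} :=
      measurableSet_le measurable_const (measurable_T _ _)
    have h3 : (PI (ℤ × ℤ)).real {ω | (√m + √n) ^ 2 + z ≤ T ω (1, 1) ((n : ℤ), (m : ℤ))} =
        (PI (ℤ × ℤ)).real ((fun (x : ℤ × ℤ → ℝ) (k : ℤ × ℤ) => x k.swap) ⁻¹'
          {ω | (√m + √n) ^ 2 + z ≤ T ω (1, 1) ((n : ℤ), (m : ℤ))}) := by
      conv_lhs => rw [← hre]
      rw [map_measureReal_apply (by fun_prop) hmeas]
    rw [h3]
    congr 1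
    ext ω
    simp only [Set.mem_preimage, Set.mem_ofPred_eq]
    have h4 := T_swap ω (1, 1) ((n : ℤ), (m : ℤ))
    rw [h4]
    rfl

end BGE
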